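import Mathlib

/-! Zero-one law for invariant events of iid labels. -/

open MeasureTheory ProbabilityTheory

namespace Q297.Bern

variable {V S : Type*} [MeasurableSpace S]

/-- relabelling action: `(g ω) v = ω (g⁻¹ v)` -/
def act (g : V ≃ V) (ω : V → S) : V → S := fun v => ω (g.symm v)

lemma act_measurable (g : V ≃ V) : Measurable (act (S := S) g) :=
  measurable_pi_lambda _ (fun _ => measurable_pi_apply _)

variable (ν : Measure S) [IsProbabilityMeasure ν]

/-- iid labels -/
noncomputable abbrev bern (V : Type*) (ν : Measure S) [IsProbabilityMeasure ν] : Measure (V → S) :=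
  Measure.infinitePi (fun _ : V => ν)

lemma act_mp (g : V ≃ V) : MeasurePreserving (act (S := S) g) (bern V ν) (bern V ν) := by
  refine ⟨act_measurable g, ?_⟩
  exact Measure.map_infinitePi_infinitePi_of_inj (P := fun _ : V => ν) g.symm.injective

lemma cyl_indep (F : Finset V) (g : V ≃ V) (hg : ∀ v ∈ F, g v ∉ F) (C : Set (F → S))
    (hC : MeasurableSet C) :
    bern V ν (cylinder F C ∩ act g ⁻¹' (cylinder F C)) =
      bern V ν (cylinder F C) * bern V ν (act g ⁻¹' (cylinder F C)) := by
  classical
  have hind : iIndepFun (fun (v : V) (ω : V → S) => ω v) (bern V ν) :=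
    iIndepFun_infinitePi (X := fun _ ω => ω) (fun _ => measurable_id)
  set T : Finset V := F.map g.symm.toEmbedding with hT
  have hdis : Disjoint F T := by
    rw [Finset.disjoint_left]
    intro u hu huT
    rw [hT, Finset.mem_map_equiv, Equiv.symm_symm] at huT
    exact hg u hu huT
  have hI := hind.indepFun_finset F T hdis (fun v => measurable_pi_apply v)
  have hmem : ∀ i : F, g.symm i.1 ∈ T := by
    intro i
    rw [hT, Finset.mem_map_equiv, Equiv.symm_symm, Equiv.apply_symm_apply]
    exact i.2
  set D : Set (T → S) := (fun (x : T → S) (i : F) => x ⟨g.symm i.1, hmem i⟩) ⁻¹' C with hD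
  have hDm : MeasurableSet D := by
    have : Measurable (fun (x : T → S) (i : F) => x ⟨g.symm i.1, hmem i⟩) :=
      measurable_pi_lambda _ (fun i => measurable_pi_apply _)
    exact this hC
  have := hI.measure_inter_preimage_eq_mul _ _ hC hDm
  exact this

/-- zero-one law for events which are almost invariant under enough relabellings -/
theorem zero_one {A : Set (V → S)} (hA : MeasurableSet A)
    (h : ∀ F : Finset V, ∃ g : V ≃ V, (∀ v ∈ F, g v ∉ F) ∧
      (act g) ⁻¹' A =ᵐ[bern V ν] A) :
    (bern V ν).real A = 0 ∨ (bern V ν).real A = 1 := by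
  set μ := bern V ν with hμ
  set a := μ.real A with ha
  have ha0 : 0 ≤ a := measureReal_nonneg
  have ha1 : a ≤ 1 := measureReal_le_one
  have key : ∀ ε : ℝ, 0 < ε → |a - a ^ 2| ≤ 4 * ε := by
    intro ε hε
    have hdense : μ.MeasureDense (measurableCylinders fun _ : V => S) := by
      apply Measure.MeasureDense.of_generateFrom_isSetAlgebra_finite
      · exact ⟨empty_mem_measurableCylinders _, fun s hs => compl_mem_measurableCylinders hs,
          fun s t hs ht => union_mem_measurableCylinders hs ht⟩
      · exact generateFrom_measurableCylinders.symm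
    obtain ⟨B, hB, hAB⟩ := hdense.approx A hA (measure_ne_top _ _) ε hε
    obtain ⟨F, C, hC, rfl⟩ := (mem_measurableCylinders _).1 hB
    set B : Set (V → S) := cylinder (α := fun _ : V => S) F C with hBdef
    have hBm : MeasurableSet B := MeasurableSet.cylinder F hC
    obtain ⟨g, hg, hinv⟩ := h F
    have hmp := act_mp (V := V) ν g
    have hAB' : μ.real (symmDiff A B) < ε := by
      rw [Measure.real]
      have := (ENNReal.toReal_lt_toReal (measure_ne_top _ _) ENNReal.ofReal_ne_top).2 hAB
      rwa [ENNReal.toReal_ofReal hε.le] at this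
    have hgAB : μ.real (symmDiff ((act g) ⁻¹' A) ((act g) ⁻¹' B)) < ε := by
      have e : symmDiff ((act g) ⁻¹' A) ((act g) ⁻¹' B) = (act g) ⁻¹' (symmDiff A B) := by
        rw [Set.preimage_symmDiff]
      rw [e, Measure.real, hmp.measure_preimage (hA.symmDiff hBm).nullMeasurableSet]
      exact hAB'
    set b := μ.real B with hb
    have hb0 : 0 ≤ b := measureReal_nonneg
    have hb1 : b ≤ 1 := measureReal_le_one
    have hprod : μ.real (B ∩ (act g) ⁻¹' B) = b ^ 2 := by
      rw [Measure.real, hBdef, cyl_indep ν F g hg C hC, ENNReal.toReal_mul,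
        hmp.measure_preimage hBm.nullMeasurableSet, pow_two]
      rfl
    have hAA : μ.real (A ∩ (act g) ⁻¹' A) = a := by
      have : (A ∩ (act g) ⁻¹' A : Set _) =ᵐ[μ] A := by
        have h1 : (A ∩ (act g) ⁻¹' A : Set _) =ᵐ[μ] (A ∩ A : Set _) :=
          (Filter.EventuallyEq.refl _ _).inter hinv
        rwa [Set.inter_self] at h1
      exact measureReal_congr this
    -- comparisons
    have c1 : |a - b| ≤ ε := by
      have h1 : a ≤ b + μ.real (symmDiff A B) := by
        have : A ⊆ B ∪ symmDiff A B := by
          intro x hx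
          by_cases hxB : x ∈ B
          · left; exact hxB
          · right; left; exact ⟨hx, hxB⟩
        exact (measureReal_mono this).trans (measureReal_union_le _ _)
      have h2 : b ≤ a + μ.real (symmDiff A B) := by
        have : B ⊆ A ∪ symmDiff A B := by
          intro x hx
          by_cases hxB : x ∈ A
          · left; exact hxB
          · right; right; exact ⟨hx, hxB⟩
        exact (measureReal_mono this).trans (measureReal_union_le _ _)
      rw [abs_le]; constructor <;> linarith
    have c2 : |a - b ^ 2| ≤ 2 * ε := by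
      have h1 : a ≤ b ^ 2 + μ.real (symmDiff A B) +
          μ.real (symmDiff ((act g) ⁻¹' A) ((act g) ⁻¹' B)) := by
        rw [← hAA, ← hprod]
        have : A ∩ (act g) ⁻¹' A ⊆ (B ∩ (act g) ⁻¹' B) ∪ symmDiff A B ∪
            symmDiff ((act g) ⁻¹' A) ((act g) ⁻¹' B) := by
          rintro x ⟨hx, hx'⟩
          by_cases hxB : x ∈ B
          · by_cases hxB' : x ∈ (act g) ⁻¹' B
            · left; left; exact ⟨hxB, hxB'⟩
            · right; left; exact ⟨hx', hxB'⟩
          · left; right; left; exact ⟨hx, hxB⟩
        refine (measureReal_mono this).trans ((measureReal_union_le _ _).trans ?_)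
        gcongr
        exact measureReal_union_le _ _
      have h2 : b ^ 2 ≤ a + μ.real (symmDiff A B) +
          μ.real (symmDiff ((act g) ⁻¹' A) ((act g) ⁻¹' B)) := by
        rw [← hAA, ← hprod]
        have : B ∩ (act g) ⁻¹' B ⊆ (A ∩ (act g) ⁻¹' A) ∪ symmDiff A B ∪
            symmDiff ((act g) ⁻¹' A) ((act g) ⁻¹' B) := by
          rintro x ⟨hx, hx'⟩
          by_cases hxB : x ∈ A
          · by_cases hxB' : x ∈ (act g) ⁻¹' A
            · left; left; exact ⟨hxB, hxB'⟩
            · right; right; exact ⟨hx', hxB'⟩
          · left; right; right; exact ⟨hx, hxB⟩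
        refine (measureReal_mono this).trans ((measureReal_union_le _ _).trans ?_)
        gcongr
        exact measureReal_union_le _ _
      rw [abs_le]; constructor <;> linarith
    rw [abs_le] at c1 c2 ⊢
    constructor <;> nlinarith
  have h0 : |a - a ^ 2| ≤ 0 := by
    apply le_of_forall_pos_le_add
    intro δ hδ
    have := key (δ / 4) (by positivity)
    linarith
  have h1 : a - a ^ 2 = 0 := abs_nonpos_iff.1 h0
  have h2 : a * (1 - a) = 0 := by linarith
  rcases mul_eq_zero.1 h2 with h3 | h3
  · left; exact h3
  · right; linarith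

end Q297.Bern
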