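import Mathlib

/-!
Formal power series computation: if `q 0 = 1`, `q (n+1) = (1 - u^2) (q n)' - u (q n)` then
`∑ Λ (q n) t^n / n! = t / sinh t`, where `Λ` is the mean over `[-1,1]`.
-/

open PowerSeries

namespace Q297.Airy

/-- coefficientwise application of a linear map -/
noncomputable def cw {A B : Type*} [CommRing A] [CommRing B] [Algebra ℚ A] [Algebra ℚ B]
    (φ : A →ₗ[ℚ] B) (F : A⟦X⟧) : B⟦X⟧ := PowerSeries.mk fun n => φ (coeff n F)

section cw
variable {A B : Type*} [CommRing A] [CommRing B] [Algebra ℚ A] [Algebra ℚ B]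

@[simp] lemma coeff_cw (φ : A →ₗ[ℚ] B) (F : A⟦X⟧) (n : ℕ) :
    coeff n (cw φ F) = φ (coeff n F) := by simp [cw]

lemma cw_add (φ : A →ₗ[ℚ] B) (F G : A⟦X⟧) : cw φ (F + G) = cw φ F + cw φ G := by
  ext n; simp

lemma cw_sub (φ : A →ₗ[ℚ] B) (F G : A⟦X⟧) : cw φ (F - G) = cw φ F - cw φ G := by
  ext n; simp

lemma cw_derivative (φ : A →ₗ[ℚ] B) (F : A⟦X⟧) :
    derivative B (cw φ F) = cw φ (derivative A F) := by
  ext n
  simp only [coeff_derivative, coeff_cw]
  have h1 : (coeff (n + 1) F) * ((n:A) + 1) = ((n:ℚ) + 1) • (coeff (n + 1) F) := by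
    rw [Algebra.smul_def, mul_comm]; simp
  have h2 : φ (coeff (n + 1) F) * ((n:B) + 1) = ((n:ℚ) + 1) • φ (coeff (n + 1) F) := by
    rw [Algebra.smul_def, mul_comm]; simp
  rw [h1, h2, map_smul]

lemma cw_mul_der (δ : Derivation ℚ A A) (F G : A⟦X⟧) :
    cw (δ : A →ₗ[ℚ] A) (F * G) = cw (δ : A →ₗ[ℚ] A) F * G + F * cw (δ : A →ₗ[ℚ] A) G := by
  ext n
  simp only [coeff_cw, PowerSeries.coeff_mul, map_sum, map_add, ← Finset.sum_add_distrib]
  apply Finset.sum_congr rfl
  intro x _
  have : (δ : A →ₗ[ℚ] A) ((coeff x.1) F * (coeff x.2) G) =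
      δ ((coeff x.1) F * (coeff x.2) G) := rfl
  rw [this, Derivation.leibniz]
  simp only [smul_eq_mul, Derivation.coeFn_coe]
  ring

end cw

/-- hyperbolic sine series -/
noncomputable def sh : ℚ⟦X⟧ := PowerSeries.mk fun n => if Even n then 0 else 1 / (n.factorial : ℚ)
/-- hyperbolic cosine series -/
noncomputable def ch : ℚ⟦X⟧ := PowerSeries.mk fun n => if Even n then 1 / (n.factorial : ℚ) else 0

lemma d_sh : derivative ℚ sh = ch := by
  ext n
  simp only [coeff_derivative, sh, ch, coeff_mk]
  have hn : (n.factorial : ℚ) ≠ 0 := by positivity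
  have hn1 : ((n + 1).factorial : ℚ) = (n + 1) * n.factorial := by
    rw [Nat.factorial_succ]; push_cast; ring
  have h2 : (n:ℚ) + 1 ≠ 0 := by positivity
  by_cases h : Even n
  · have : ¬ Even (n + 1) := by rw [Nat.even_add_one]; simpa using h
    rw [if_neg this, if_pos h, hn1]; field_simp
  · have : Even (n + 1) := by rw [Nat.even_add_one]; exact h
    rw [if_pos this, if_neg h]; simp

lemma d_ch : derivative ℚ ch = sh := by
  ext n
  simp only [coeff_derivative, sh, ch, coeff_mk]
  have hn : (n.factorial : ℚ) ≠ 0 := by positivity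
  have hn1 : ((n + 1).factorial : ℚ) = (n + 1) * n.factorial := by
    rw [Nat.factorial_succ]; push_cast; ring
  have h2 : (n:ℚ) + 1 ≠ 0 := by positivity
  by_cases h : Even n
  · have : ¬ Even (n + 1) := by rw [Nat.even_add_one]; simpa using h
    rw [if_neg this, if_pos h]; simp
  · have : Even (n + 1) := by rw [Nat.even_add_one]; exact h
    rw [if_pos this, if_neg h, hn1]; field_simp

section abstract

variable {A : Type*} [CommRing A] [Algebra ℚ A] (δ : Derivation ℚ A A) (u : A) (lam : A →ₗ[ℚ] ℚ)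

/-- the recursion -/
def qq : ℕ → A
  | 0 => 1
  | (n + 1) => δ (qq n) - u * qq n

/-- exponential generating function of `qq` -/
noncomputable def F : A⟦X⟧ := PowerSeries.mk fun n => (1 / (n.factorial : ℚ)) • qq δ u n

lemma dF : derivative A (F δ u) = cw (δ : A →ₗ[ℚ] A) (F δ u) - PowerSeries.C u * F δ u := by
  ext1 n
  simp only [coeff_derivative, map_sub, coeff_cw, coeff_C_mul, F, coeff_mk]
  have hn : (n.factorial : ℚ) ≠ 0 := by positivity
  have hn1 : ((n + 1).factorial : ℚ) = (n + 1) * n.factorial := by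
    rw [Nat.factorial_succ]; push_cast; ring
  have h2 : (n:ℚ) + 1 ≠ 0 := by positivity
  have e1 : ((1 / ((n + 1).factorial : ℚ)) • qq δ u (n + 1)) * ((n : A) + 1) =
      (1 / (n.factorial : ℚ)) • qq δ u (n + 1) := by
    have : ((n : A) + 1) = algebraMap ℚ A ((n:ℚ) + 1) := by simp
    rw [this, mul_comm, ← Algebra.smul_def, smul_smul]
    congr 1
    rw [hn1]; field_simp
  rw [e1]
  have e2 : qq δ u (n + 1) = δ (qq δ u n) - u * qq δ u n := rfl
  rw [e2, smul_sub, map_smul]
  congr 1
  rw [mul_smul_comm]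

/-- scalars into power series over `A` -/
noncomputable abbrev mapA (A : Type*) [CommRing A] [Algebra ℚ A] : ℚ⟦X⟧ →+* A⟦X⟧ :=
  PowerSeries.map (algebraMap ℚ A)

lemma d_map (g : ℚ⟦X⟧) : derivative A (mapA A g) = mapA A (derivative ℚ g) := by
  ext1 n
  simp [coeff_derivative]

lemma cw_map (g : ℚ⟦X⟧) : cw (δ : A →ₗ[ℚ] A) (mapA A g) = 0 := by
  ext1 n
  simp only [coeff_cw, PowerSeries.coeff_map, map_zero]
  exact δ.map_algebraMap _

lemma cw_C (p : A) : cw (δ : A →ₗ[ℚ] A) (PowerSeries.C p) = PowerSeries.C (δ p) := by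
  ext1 n
  simp only [coeff_cw, PowerSeries.coeff_C]
  split_ifs
  · rfl
  · simp

/-- the denominator -/
noncomputable def E : A⟦X⟧ := mapA A ch + PowerSeries.C u * mapA A sh

lemma dE (hu : δ u = 1 - u ^ 2) :
    derivative A (E u) = cw (δ : A →ₗ[ℚ] A) (E u) + PowerSeries.C u * E u := by
  unfold E
  rw [cw_add, cw_mul_der δ, cw_map, cw_map, cw_C, hu, map_add,
    Derivation.leibniz, d_map, d_map, d_sh, d_ch]
  simp only [derivative_C, smul_eq_mul, mul_zero, add_zero,
    zero_add, map_sub, map_one, map_pow]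
  ring

lemma coeff_zero_F : coeff 0 (F δ u) = 1 := by simp [F, qq]

lemma coeff_zero_E : coeff 0 (E u) = 1 := by
  simp only [E, map_add, coeff_C_mul, PowerSeries.coeff_map, ch, sh, coeff_mk]
  simp

lemma FE (hu : δ u = 1 - u ^ 2) : F δ u * E u = 1 := by
  have h : derivative A (F δ u * E u) = cw (δ : A →ₗ[ℚ] A) (F δ u * E u) := by
    rw [Derivation.leibniz, dF, dE δ u hu, cw_mul_der δ]
    simp only [smul_eq_mul]
    ring
  have h0 : coeff 0 (F δ u * E u) = 1 := by
    have e1 := coeff_zero_F δ u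
    have e2 := coeff_zero_E u
    rw [PowerSeries.coeff_mul, Finset.Nat.antidiagonal_zero, Finset.sum_singleton, e1, e2, one_mul]
  have hs : ∀ n, coeff (n + 1) (F δ u * E u) = 0 := by
    intro n
    induction n with
    | zero =>
      have := congrArg (coeff 0) h
      rw [coeff_derivative, coeff_cw, h0] at this
      have h1 : (δ : A →ₗ[ℚ] A) 1 = 0 := δ.map_one_eq_zero
      rw [h1] at this
      simpa using this
    | succ n ih =>
      have := congrArg (coeff (n + 1)) h
      rw [coeff_derivative, coeff_cw, ih, map_zero] at this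
      have h2 : (((n + 1 : ℕ) : A) + 1) = algebraMap ℚ A ((n:ℚ) + 2) := by
        have : (n:ℚ) + 2 = ((n + 2 : ℕ) : ℚ) := by push_cast; ring
        rw [this, map_natCast]; push_cast; ring
      rw [h2, mul_comm, ← Algebra.smul_def] at this
      rcases smul_eq_zero.1 this with h' | h'
      · exfalso
        have : (0:ℚ) < (n:ℚ) + 2 := by positivity
        linarith
      · exact h'
  ext1 n
  rcases n with _ | n
  · rw [h0]; simp
  · rw [hs n, PowerSeries.coeff_one, if_neg (by omega)]

lemma cw_lam_mul (G : A⟦X⟧) (g : ℚ⟦X⟧) : cw lam (G * mapA A g) = cw lam G * g := by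
  ext1 n
  simp only [coeff_cw, PowerSeries.coeff_mul, map_sum, PowerSeries.coeff_map]
  apply Finset.sum_congr rfl
  intro x _
  rw [mul_comm, ← Algebra.smul_def, map_smul, smul_eq_mul, mul_comm]

/-- the main generating function identity -/
theorem lamF_mul_sh (hu : δ u = 1 - u ^ 2) (h1 : lam 1 = 1)
    (hl : ∀ p, lam (δ p) = 2 * lam (u * p)) : cw lam (F δ u) * sh = X := by
  apply derivative.ext
  · rw [Derivation.leibniz, cw_derivative, dF, cw_sub, d_sh, derivative_X]
    have h1' : cw lam (cw (δ : A →ₗ[ℚ] A) (F δ u)) = cw lam (PowerSeries.C u * F δ u) +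
        cw lam (PowerSeries.C u * F δ u) := by
      ext1 n
      simp only [coeff_cw, map_add, coeff_C_mul]
      have := hl (coeff n (F δ u))
      rw [show (δ : A →ₗ[ℚ] A) (coeff n (F δ u)) = δ (coeff n (F δ u)) from rfl, this]; ring
    rw [h1']
    have h2 : cw lam (F δ u) * ch + sh * cw lam (PowerSeries.C u * F δ u) = 1 := by
      rw [mul_comm sh, ← cw_lam_mul, ← cw_lam_mul, ← cw_add]
      have : F δ u * mapA A ch + PowerSeries.C u * F δ u * mapA A sh = 1 := by
        rw [← FE δ u hu]; unfold E; ring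
      rw [this]
      ext1 n
      simp only [coeff_cw, PowerSeries.coeff_one]
      split_ifs
      · exact h1
      · simp
    simp only [smul_eq_mul]
    rw [← h2]; ring
  · simp only [map_mul, constantCoeff_X]
    have : constantCoeff sh = 0 := by
      rw [← coeff_zero_eq_constantCoeff]; simp [sh]
    rw [this]; simp

end abstract

/-- mean over `[-1,1]` -/
noncomputable def lam : Polynomial ℚ →ₗ[ℚ] ℚ :=
  Polynomial.lsum fun k => (if Even k then (1 / ((k:ℚ) + 1)) else 0) • LinearMap.id

lemma lam_monomial (k : ℕ) (c : ℚ) :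
    lam (Polynomial.monomial k c) = (if Even k then (1 / ((k:ℚ) + 1)) else 0) * c := by
  by_cases h : Even k <;>
  simp [lam, Polynomial.lsum_apply, Polynomial.sum_monomial_index, h]

lemma lam_one : lam 1 = 1 := by
  have : (1 : Polynomial ℚ) = Polynomial.monomial 0 1 := by simp
  rw [this, lam_monomial]; simp

/-- derivation `(1-u^2) d/du` -/
noncomputable def dl : Derivation ℚ (Polynomial ℚ) (Polynomial ℚ) :=
  (1 - Polynomial.X ^ 2 : Polynomial ℚ) • Polynomial.derivative'

lemma dl_apply (p : Polynomial ℚ) : dl p = (1 - Polynomial.X ^ 2) * Polynomial.derivative p := by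
  simp [dl]

lemma lam_dl (p : Polynomial ℚ) : lam (dl p) = 2 * lam (Polynomial.X * p) := by
  induction p using Polynomial.induction_on' with
  | add p q hp hq => rw [map_add, map_add, hp, hq, mul_add, map_add]; ring
  | monomial k c =>
    rw [dl_apply, sub_mul, one_mul, map_sub, Polynomial.derivative_monomial]
    have e1 : (Polynomial.X : Polynomial ℚ) ^ 2 * Polynomial.monomial (k - 1) (c * k) =
        Polynomial.monomial (k + 1) (c * k) := by
      rcases k with _ | k
      · simp
      · rw [Polynomial.X_pow_mul_monomial]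
        congr 1
    have e2 : (Polynomial.X : Polynomial ℚ) * Polynomial.monomial k c =
        Polynomial.monomial (k + 1) c := by rw [Polynomial.X_mul_monomial]
    rw [e1, e2, lam_monomial, lam_monomial, lam_monomial]
    rcases k with _ | k
    · simp
    · have h2 : (k:ℚ) + 1 ≠ 0 := by positivity
      have h3 : (k:ℚ) + 1 + 1 + 1 ≠ 0 := by positivity
      by_cases h : Even k
      · have : Even (k + 1 + 1) := by
          rw [Nat.even_add_one, Nat.even_add_one]; simpa using h
        simp only [Nat.add_sub_cancel, if_pos h, if_pos this]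
        push_cast
        field_simp
        ring
      · have : ¬ Even (k + 1 + 1) := by
          rw [Nat.even_add_one, Nat.even_add_one]; simpa using h
        simp only [Nat.add_sub_cancel, if_neg h, if_neg this]
        simp

/-- the top weight polynomials -/
noncomputable def q (n : ℕ) : Polynomial ℚ := qq dl Polynomial.X n

lemma q_zero : q 0 = 1 := rfl

lemma q_succ (n : ℕ) : q (n + 1) =
    (1 - Polynomial.X ^ 2) * Polynomial.derivative (q n) - Polynomial.X * q n := by
  have : q (n + 1) = dl (q n) - Polynomial.X * q n := rfl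
  rw [this, dl_apply]

/-- the series `∑ Λ (q n) t^n / n!` -/
noncomputable def S : ℚ⟦X⟧ := PowerSeries.mk fun n => lam (q n) / (n.factorial : ℚ)

theorem S_mul_sh : S * sh = X := by
  have h := lamF_mul_sh dl Polynomial.X lam (by rw [dl_apply]; simp) lam_one lam_dl
  have : S = cw lam (F dl Polynomial.X) := by
    ext1 n
    simp only [S, coeff_mk, coeff_cw, F, map_smul, smul_eq_mul]
    rw [q]; ring
  rw [this]; exact h

/-- Bernoulli form -/
theorem lam_q_even (m : ℕ) : lam (q (2 * m)) = (2 - 2 ^ (2 * m)) * bernoulli (2 * m) := by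
  have hB := bernoulliPowerSeries_mul_exp_sub_one ℚ
  set B := bernoulliPowerSeries ℚ with hBdef
  have hB2 : rescale (2:ℚ) B * (rescale (2:ℚ) (exp ℚ) - 1) = 2 * X := by
    have := congrArg (rescale (2:ℚ)) hB
    rw [map_mul, map_sub, map_one, rescale_X] at this
    rw [this]
    congr 1
  have he2 : rescale (2:ℚ) (exp ℚ) = exp ℚ ^ 2 := by
    rw [exp_pow_eq_rescale_exp]; norm_num
  rw [he2] at hB2
  have hsh : 2 * sh * exp ℚ = exp ℚ ^ 2 - 1 := by
    have h1 : 2 * sh = exp ℚ - evalNegHom (exp ℚ) := by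
      ext1 n
      have : (2 : ℚ⟦X⟧) * sh = sh + sh := by ring
      rw [this]
      simp only [map_add, map_sub, sh, coeff_mk, coeff_exp, evalNegHom, coeff_rescale]
      by_cases h : Even n
      · rw [if_pos h, h.neg_one_pow]; simp
      · rw [if_neg h, (Nat.not_even_iff_odd.1 h).neg_one_pow]; simp
    rw [h1, sub_mul, mul_comm (evalNegHom (exp ℚ)), exp_mul_exp_neg_eq_one]; ring
  have hne : exp ℚ ^ 2 - 1 ≠ 0 := by
    intro h
    have := congrArg (coeff 1) h
    rw [← he2, map_sub, coeff_rescale, coeff_exp, coeff_one] at this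
    norm_num at this
  have key : S = 2 * B - rescale (2:ℚ) B := by
    apply mul_right_cancel₀ hne
    have e1 : S * (exp ℚ ^ 2 - 1) = 2 * X * exp ℚ := by
      rw [← hsh, ← S_mul_sh]; ring
    rw [e1, sub_mul, hB2]
    have e2 : 2 * B * (exp ℚ ^ 2 - 1) = 2 * (B * (exp ℚ - 1)) * (exp ℚ + 1) := by ring
    rw [e2, hB]; ring
  have h := congrArg (coeff (2 * m)) key
  have e3 : (2 : ℚ⟦X⟧) * B = B + B := by ring
  rw [e3, map_sub, map_add, coeff_rescale] at h
  simp only [S, coeff_mk, hBdef, bernoulliPowerSeries, map_div₀] at h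
  have hn : ((2 * m).factorial : ℚ) ≠ 0 := by positivity
  simp only [eq_ratCast, Rat.cast_id, map_natCast] at h
  field_simp at h
  linarith

end Q297.Airy
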