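import Mathlib

/-! Random convex sets in Banach spaces: basic definitions. -/

open MeasureTheory ProbabilityTheory Filter Topology
open scoped Pointwise BoundedContinuousFunction

namespace Q297.RandomSets

/-- `X` is B-convex: for some `n` and `ε > 0` there is no `(1+ε)`-isomorphic copy of `ℓ₁ⁿ` in `X`,
i.e. no linear `T : ℝⁿ → X` with `∑ |aᵢ| ≤ ‖T a‖ ≤ (1 + ε) ∑ |aᵢ|` for all `a`. -/
def BConvex (X : Type*) [NormedAddCommGroup X] [NormedSpace ℝ X] : Prop :=
  ∃ n : ℕ, ∃ ε : ℝ, 0 < ε ∧ ¬ ∃ T : (Fin n → ℝ) →ₗ[ℝ] X,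
    ∀ a : Fin n → ℝ, ∑ i, |a i| ≤ ‖T a‖ ∧ ‖T a‖ ≤ (1 + ε) * ∑ i, |a i|

/-- Nonempty convex bounded subsets of `X`. -/
structure BC (X : Type*) [NormedAddCommGroup X] [NormedSpace ℝ X] where
  /-- the underlying set -/
  carrier : Set X
  nonempty : carrier.Nonempty
  convex : Convex ℝ carrier
  bounded : Bornology.IsBounded carrier

/-- The unit sphere of the dual space. -/
abbrev DualSphere (X : Type*) [NormedAddCommGroup X] [NormedSpace ℝ X] : Type _ :=
  Metric.sphere (0 : StrongDual ℝ X) 1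

/-- The space `Z(X)` of bounded continuous real functions on the unit sphere of the dual, with the
sup norm. -/
abbrev Z (X : Type*) [NormedAddCommGroup X] [NormedSpace ℝ X] : Type _ := DualSphere X →ᵇ ℝ

/-- `Z(X)` carries its Borel sigma-algebra. -/
noncomputable instance (X : Type*) [NormedAddCommGroup X] [NormedSpace ℝ X] :
    MeasurableSpace (Z X) := borel _

instance (X : Type*) [NormedAddCommGroup X] [NormedSpace ℝ X] : BorelSpace (Z X) := ⟨rfl⟩

section
variable {X : Type*} [NormedAddCommGroup X] [NormedSpace ℝ X]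

lemma image_bddAbove (A : BC X) (f : StrongDual ℝ X) : BddAbove (f '' A.carrier) := by
  obtain ⟨R, hR⟩ := A.bounded.exists_norm_le
  refine ⟨‖f‖ * R, ?_⟩
  rintro _ ⟨x, hx, rfl⟩
  calc f x ≤ ‖f x‖ := le_abs_self _
    _ ≤ ‖f‖ * ‖x‖ := f.le_opNorm x
    _ ≤ ‖f‖ * R := by gcongr; exact hR x hx

lemma supp_sub_le (A : BC X) {R : ℝ} (hR : ∀ x ∈ A.carrier, ‖x‖ ≤ R) (f g : StrongDual ℝ X) :
    sSup (f '' A.carrier) - sSup (g '' A.carrier) ≤ R * ‖f - g‖ := by
  rw [sub_le_iff_le_add]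
  apply csSup_le (A.nonempty.image _)
  rintro _ ⟨x, hx, rfl⟩
  have h1 : g x ≤ sSup (g '' A.carrier) := le_csSup (image_bddAbove A g) ⟨x, hx, rfl⟩
  have h2 : f x - g x ≤ R * ‖f - g‖ := by
    calc f x - g x = (f - g) x := rfl
      _ ≤ ‖(f - g) x‖ := le_abs_self _
      _ ≤ ‖f - g‖ * ‖x‖ := (f - g).le_opNorm x
      _ ≤ ‖f - g‖ * R := by gcongr; exact hR x hx
      _ = R * ‖f - g‖ := mul_comm _ _
  linarith

lemma supp_continuous (A : BC X) : Continuous (fun f : DualSphere X => sSup (f.1 '' A.carrier)) := by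
  obtain ⟨R, hR⟩ := A.bounded.exists_norm_le
  have hR0 : 0 ≤ R := by
    obtain ⟨x, hx⟩ := A.nonempty
    exact (norm_nonneg x).trans (hR x hx)
  have : LipschitzWith ⟨R, hR0⟩ (fun f : DualSphere X => sSup (f.1 '' A.carrier)) := by
    apply LipschitzWith.of_dist_le_mul
    intro f g
    rw [Real.dist_eq, abs_sub_le_iff]
    have e : dist f g = ‖f.1 - g.1‖ := by rw [← dist_eq_norm]; rfl
    have e2 : ‖g.1 - f.1‖ = ‖f.1 - g.1‖ := norm_sub_rev _ _
    have h1 := supp_sub_le A hR f.1 g.1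
    have h2 := supp_sub_le A hR g.1 f.1
    rw [e2] at h2
    rw [e]
    exact ⟨h1, h2⟩
  exact this.continuous

lemma supp_bound (A : BC X) : ∃ C : ℝ, ∀ f : DualSphere X, ‖sSup (f.1 '' A.carrier)‖ ≤ C := by
  obtain ⟨R, hR⟩ := A.bounded.exists_norm_le
  refine ⟨R, fun f => ?_⟩
  have h1 := supp_sub_le A hR f.1 0
  have h2 := supp_sub_le A hR 0 f.1
  have h3 : sSup ((0 : StrongDual ℝ X) '' A.carrier) = 0 := by
    have : (0 : StrongDual ℝ X) '' A.carrier = {0} := by
      ext y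
      simp only [Set.mem_image, Set.mem_singleton_iff]
      constructor
      · rintro ⟨x, _, rfl⟩; rfl
      · rintro rfl
        obtain ⟨x, hx⟩ := A.nonempty
        exact ⟨x, hx, rfl⟩
    rw [this, csSup_singleton]
  have hf : ‖f.1‖ = 1 := by simp
  rw [h3] at h1 h2
  simp only [sub_zero, zero_sub, norm_neg, hf] at h1 h2
  rw [Real.norm_eq_abs, abs_le]
  constructor <;> linarith

end

/-- The Radstrom embedding `R(A)(x*) = sup_{a ∈ A} x*(a)` as an element of `Z(X)`. -/
noncomputable def radstrom {X : Type*} [NormedAddCommGroup X] [NormedSpace ℝ X] (A : BC X) : Z X :=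
  BoundedContinuousFunction.ofNormedAddCommGroup (fun f : DualSphere X => sSup (f.1 '' A.carrier))
    (supp_continuous A) (supp_bound A).choose (supp_bound A).choose_spec

/-- A map into `BC(X)` is a random set if its composition with the Radstrom embedding is Borel
measurable. -/
def IsRandomSet {X : Type*} [NormedAddCommGroup X] [NormedSpace ℝ X] {Ω : Type*}
    [MeasurableSpace Ω] (Ψ : Ω → BC X) : Prop :=
  Measurable fun ω => radstrom (Ψ ω)

/-- `U` is the expectation of the random set `Ψ`: `R ∘ Ψ` is Bochner integrable with integral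
`R(U)`. -/
def HasExpectation {X : Type*} [NormedAddCommGroup X] [NormedSpace ℝ X] {Ω : Type*}
    [MeasurableSpace Ω] (μ : Measure Ω) (Ψ : Ω → BC X) (U : BC X) : Prop :=
  Integrable (fun ω => radstrom (Ψ ω)) μ ∧ ∫ ω, radstrom (Ψ ω) ∂μ = radstrom U

/-- Independence of a sequence of random sets. -/
def IndepRandomSets {X : Type*} [NormedAddCommGroup X] [NormedSpace ℝ X] {Ω : Type*}
    [MeasurableSpace Ω] (μ : Measure Ω) (Ψ : ℕ → Ω → BC X) : Prop :=
  iIndepFun (fun n ω => radstrom (Ψ n ω)) μ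

/-- The sequence is uniformly bounded. -/
def UniformlyBounded {X : Type*} [NormedAddCommGroup X] [NormedSpace ℝ X] {Ω : Type*}
    (Ψ : ℕ → Ω → BC X) : Prop :=
  ∃ C : ℝ, ∀ n ω, ∀ x ∈ (Ψ n ω).carrier, ‖x‖ ≤ C

/-- The Minkowski average `(1/n) ∑_{i < n} Ψ i (ω)` of the first `n` random sets. -/
noncomputable def average {X : Type*} [NormedAddCommGroup X] [NormedSpace ℝ X] {Ω : Type*}
    (Ψ : ℕ → Ω → BC X) (n : ℕ) (ω : Ω) : Set X :=
  (1 / (n : ℝ)) • ∑ i ∈ Finset.range n, (Ψ i ω).carrier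

end Q297.RandomSets
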