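import Pool.Agent.Q297.BCMain

open MeasureTheory ProbabilityTheory Filter Topology
open scoped Pointwise BoundedContinuousFunction ENNReal

namespace Q297.RandomSets

/-- number of levels -/
def NN (b : ℕ) : ℕ := 16 ^ (b + 1)

lemma NN_pos (b : ℕ) : 0 < NN b := by unfold NN; positivity

instance (b : ℕ) : NeZero (NN b) := ⟨(NN_pos b).ne'⟩

/-- variables: block and position -/
abbrev Kap := Σ b : ℕ, Fin (2 ^ b)
/-- coordinates: block and word -/
abbrev Io := Σ b : ℕ, (Fin (2 ^ b) → Fin (NN b))
/-- the Hilbert space -/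
abbrev H := lp (fun _ : Io => ℝ) 2

/-- coordinates of words with value `j` at `k` -/
def S (k : Kap) (j : Fin (NN k.1)) : Set Io :=
  (fun J : Fin (2 ^ k.1) → Fin (NN k.1) => (⟨k.1, J⟩ : Io)) '' {J | J k.2 = j}

lemma S_finite (k : Kap) (j : Fin (NN k.1)) : (S k j).Finite := (Set.toFinite _).image _

lemma mem_S {k : Kap} {j : Fin (NN k.1)} {J : Fin (2 ^ k.1) → Fin (NN k.1)} :
    (⟨k.1, J⟩ : Io) ∈ S k j ↔ J k.2 = j := by
  unfold S
  constructor
  · rintro ⟨J', h1, h2⟩
    have : J' = J := by simpa using h2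
    rw [← this]; exact h1
  · intro h; exact ⟨J, h, rfl⟩

lemma mem_S_fst {k : Kap} {j : Fin (NN k.1)} {s : Io} (h : s ∈ S k j) : s.1 = k.1 := by
  obtain ⟨J, _, rfl⟩ := h; rfl

lemma S_disj {k : Kap} {j j' : Fin (NN k.1)} {s : Io} (h : s ∈ S k j) (h' : s ∈ S k j') :
    j = j' := by
  obtain ⟨J, hJ, rfl⟩ := h
  rw [mem_S] at h'
  exact hJ.symm.trans h'

/-- basis vector -/
noncomputable def ee (s : Io) : H := lp.single 2 s (1:ℝ)

lemma inner_ee (s : Io) (x : H) : inner ℝ (ee s) x = x s := by
  rw [ee, lp.inner_single_left]; simp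

lemma ee_apply (s t : Io) : (ee s) t = if t = s then 1 else 0 := by
  rw [ee, lp.single_apply, Pi.single_apply]

lemma norm_ee (s : Io) : ‖ee s‖ = 1 := by
  rw [ee, lp.norm_single (by norm_num)]; simp

/-- the random values -/
def V (k : Kap) (j : Fin (NN k.1)) : Set H := {x | ‖x‖ ≤ 1 ∧ ∀ s, s ∉ S k j → x s = 0}

lemma V_zero (k : Kap) (j : Fin (NN k.1)) : (0 : H) ∈ V k j := ⟨by simp, fun s _ => rfl⟩

lemma V_convex (k : Kap) (j : Fin (NN k.1)) : Convex ℝ (V k j) := by
  rintro x ⟨hx1, hx2⟩ y ⟨hy1, hy2⟩ a b ha hb hab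
  refine ⟨?_, fun s hs => ?_⟩
  · calc ‖a • x + b • y‖ ≤ ‖a • x‖ + ‖b • y‖ := norm_add_le _ _
      _ = a * ‖x‖ + b * ‖y‖ := by rw [norm_smul, norm_smul, Real.norm_of_nonneg ha,
          Real.norm_of_nonneg hb]
      _ ≤ a * 1 + b * 1 := by gcongr
      _ = 1 := by rw [mul_one, mul_one, hab]
  · have : (a • x + b • y : H) s = a * x s + b * y s := rfl
    rw [this, hx2 s hs, hy2 s hs]; simp

lemma V_compact (k : Kap) (j : Fin (NN k.1)) : IsCompact (V k j) := by
  classical
  set T : Finset Io := (S_finite k j).toFinset with hT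
  let F : (Io → ℝ) → H := fun c => ∑ s ∈ T, c s • ee s
  have hF : Continuous F := by
    apply continuous_finsetSum
    intro s _
    exact (continuous_apply s).smul continuous_const
  have hK : IsCompact (F '' (Set.pi Set.univ (fun _ => Set.Icc (-1:ℝ) 1))) :=
    (isCompact_univ_pi (fun _ => isCompact_Icc)).image hF
  have hclosed : IsClosed (V k j) := by
    have : V k j = Metric.closedBall 0 1 ∩ ⋂ s, ⋂ (_ : s ∉ S k j), {x : H | inner ℝ (ee s) x = (0:ℝ)} := by
      ext x
      simp only [V, Set.mem_ofPred_eq, Set.mem_inter_iff, Metric.mem_closedBall, dist_zero_right,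
        Set.mem_iInter, inner_ee]
    rw [this]
    apply IsClosed.inter Metric.isClosed_closedBall
    apply isClosed_iInter
    intro s
    apply isClosed_iInter
    intro _
    exact isClosed_eq (by fun_prop) continuous_const
  apply hK.of_isClosed_subset hclosed
  rintro x ⟨hx1, hx2⟩
  refine ⟨fun s => x s, ?_, ?_⟩
  · intro s _
    have := lp.norm_apply_le_norm (p := 2) (by norm_num) x s
    rw [Real.norm_eq_abs] at this
    exact abs_le.1 (this.trans hx1)
  · apply lp.ext
    funext t
    simp only [F]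
    have h1 : ((∑ s ∈ T, x s • ee s : H) : Io → ℝ) t = ∑ s ∈ T, x s * (ee s) t := by
      rw [lp.coeFn_sum]
      simp only [Finset.sum_apply]
      rfl
    rw [h1]
    by_cases ht : t ∈ T
    · rw [Finset.sum_eq_single t]
      · rw [ee_apply, if_pos rfl, mul_one]
      · intro s _ hs
        rw [ee_apply, if_neg (Ne.symm hs), mul_zero]
      · intro h; exact absurd ht h
    · have : t ∉ S k j := by
        intro h; apply ht; rw [hT]; simpa using h
      rw [hx2 t this]
      apply Finset.sum_eq_zero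
      intro s hs
      rw [ee_apply, if_neg, mul_zero]
      rintro rfl
      exact ht hs

/-- scaled values -/
noncomputable def VN (k : Kap) (j : Fin (NN k.1)) : Set H := (1 / (NN k.1 : ℝ)) • V k j

/-- the mean sets -/
noncomputable def U (k : Kap) : Set H := mink (VN k)

lemma VN_good (k : Kap) : Good (VN k) (fun _ => 1) where
  summable := summable_of_hasFiniteSupport (Set.toFinite _)
  bound := by
    rintro j x ⟨y, hy, rfl⟩
    simp only [norm_smul]
    have h1 : (1:ℝ) ≤ NN k.1 := by exact_mod_cast NN_pos k.1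
    have h2 : ‖1 / (NN k.1 : ℝ)‖ ≤ 1 := by
      rw [Real.norm_of_nonneg (by positivity), div_le_one (by linarith)]; exact h1
    calc ‖1 / (NN k.1 : ℝ)‖ * ‖y‖ ≤ 1 * 1 := by
          gcongr
          exact hy.1
      _ = 1 := one_mul 1
  compact := fun j => (V_compact k j).smul _
  nonempty := fun j => ⟨_, ⟨0, V_zero k j, rfl⟩⟩
  convex := fun j => (V_convex k j).smul _

lemma mem_U {k : Kap} {x : H} (hx : x ∈ U k) :
    ∃ v : Fin (NN k.1) → H, (∀ j, v j ∈ V k j) ∧ x = (1 / (NN k.1 : ℝ)) • ∑ j, v j := by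
  obtain ⟨u, hu, hs⟩ := hx
  choose v hv hvu using hu
  refine ⟨v, hv, ?_⟩
  rw [hs.unique (hasSum_fintype u), Finset.smul_sum]
  exact Finset.sum_congr rfl (fun j _ => (hvu j).symm)

lemma inner_V {k : Kap} {j j' : Fin (NN k.1)} (h : j ≠ j') {x y : H} (hx : x ∈ V k j)
    (hy : y ∈ V k j') : inner ℝ x y = (0:ℝ) := by
  rw [lp.inner_eq_tsum]
  have : ∀ s, inner ℝ (x s) (y s) = (0:ℝ) := by
    intro s
    by_cases hs : s ∈ S k j
    · rw [hy.2 s (fun h' => h (S_disj hs h'))]; simp
    · rw [hx.2 s hs]; simp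
  rw [tsum_congr this, tsum_zero]

/-- norm bounds -/
noncomputable def r (k : Kap) : ℝ := 1 / 4 ^ (k.1 + 1)

lemma U_norm {k : Kap} {x : H} (hx : x ∈ U k) : ‖x‖ ≤ r k := by
  obtain ⟨v, hv, rfl⟩ := mem_U hx
  have h1 : ‖∑ j, v j‖ ^ 2 ≤ NN k.1 := by
    rw [← real_inner_self_eq_norm_sq, sum_inner]
    have : ∀ j, inner ℝ (v j) (∑ i, v i) = ‖v j‖ ^ 2 := by
      intro j
      rw [inner_sum, Finset.sum_eq_single j]
      · rw [real_inner_self_eq_norm_sq]
      · intro i _ hi
        exact inner_V (Ne.symm hi) (hv j) (hv i)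
      · intro h; exact absurd (Finset.mem_univ j) h
    rw [Finset.sum_congr rfl (fun j _ => this j)]
    calc ∑ j, ‖v j‖ ^ 2 ≤ ∑ _j : Fin (NN k.1), (1:ℝ) := by
          apply Finset.sum_le_sum
          intro j _
          have := (hv j).1
          have h0 := norm_nonneg (v j)
          nlinarith
      _ = NN k.1 := by simp
  have h4 : (NN k.1 : ℝ) = (4 ^ (k.1 + 1)) ^ 2 := by
    unfold NN
    push_cast
    rw [← pow_mul, mul_comm, pow_mul]; norm_num
  have hpos : (0:ℝ) < 4 ^ (k.1 + 1) := by positivity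
  have h2 : ‖∑ j, v j‖ ≤ 4 ^ (k.1 + 1) := by
    rw [h4] at h1
    exact (pow_le_pow_iff_left₀ (norm_nonneg _) hpos.le (by norm_num)).1 h1
  rw [norm_smul, Real.norm_of_nonneg (by positivity), r, h4]
  rw [div_mul_eq_mul_div, one_mul, div_le_div_iff₀ (by positivity) hpos, one_mul]
  nlinarith

lemma r_summable : Summable r := by
  rw [summable_sigma_of_nonneg (fun k => by unfold r; positivity)]
  refine ⟨fun b => summable_of_hasFiniteSupport (Set.toFinite _), ?_⟩
  have : (fun b : ℕ => ∑' p : Fin (2 ^ b), r ⟨b, p⟩) = fun b => (1/4 : ℝ) * (1/2) ^ b := by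
    funext b
    rw [tsum_fintype]
    simp only [r, Finset.sum_const, Finset.card_univ, Fintype.card_fin, nsmul_eq_mul]
    push_cast
    have : (4:ℝ) ^ (b + 1) = 4 * (2 ^ b * 2 ^ b) := by
      rw [pow_succ, show (4:ℝ) = 2 * 2 by norm_num, mul_pow]; ring
    rw [this, one_div_pow]
    field_simp
  rw [this]
  exact (summable_geometric_of_lt_one (by norm_num) (by norm_num)).mul_left _

lemma U_zero (k : Kap) : (0 : H) ∈ U k :=
  ⟨fun _ => 0, fun j => ⟨0, V_zero k j, by simp⟩, hasSum_zero⟩

lemma U_good : Good U r where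
  summable := r_summable
  bound := fun _ _ hx => U_norm hx
  compact := fun k => (VN_good k).mink_compact
  nonempty := fun k => ⟨0, U_zero k⟩
  convex := fun k => (VN_good k).mink_convex

/-- the family with one mean set replaced by a value -/
def WW (k : Kap) (j : Fin (NN k.1)) : Kap → Set H := Function.update U k (V k j)

lemma WW_good (k : Kap) (j : Fin (NN k.1)) : Good (WW k j) (Function.update r k 1) where
  summable := (r_summable.hasSum.update k 1).summable
  bound := by
    intro l x hx
    by_cases h : l = k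
    · subst h
      simp only [WW, Function.update_self] at hx ⊢
      exact hx.1
    · simp only [WW, Function.update_of_ne h] at hx ⊢
      exact U_norm hx
  compact := by
    intro l
    by_cases h : l = k
    · subst h
      simp only [WW, Function.update_self]
      exact V_compact l j
    · simp only [WW, Function.update_of_ne h]
      exact U_good.compact l
  nonempty := by
    intro l
    by_cases h : l = k
    · subst h
      simp only [WW, Function.update_self]
      exact ⟨0, V_zero l j⟩
    · simp only [WW, Function.update_of_ne h]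
      exact U_good.nonempty l
  convex := by
    intro l
    by_cases h : l = k
    · subst h
      simp only [WW, Function.update_self]
      exact V_convex l j
    · simp only [WW, Function.update_of_ne h]
      exact U_good.convex l

/-- the values of the random sets -/
noncomputable def G (k : Kap) (j : Fin (NN k.1)) : BC H := (WW_good k j).bc

/-- the common mean -/
noncomputable def Ubc : BC H := U_good.bc

lemma supp_smul (c : ℝ) (hc : 0 ≤ c) (A : Set H) (f : StrongDual ℝ H) :
    sSup (f '' (c • A)) = c * sSup (f '' A) := by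
  have : f '' (c • A) = c • (f '' A) := by
    ext y
    constructor
    · rintro ⟨_, ⟨x, hx, rfl⟩, rfl⟩
      exact ⟨f x, ⟨x, hx, rfl⟩, by simp⟩
    · rintro ⟨_, ⟨x, hx, rfl⟩, rfl⟩
      exact ⟨c • x, ⟨x, hx, rfl⟩, by simp⟩
  rw [this, Real.sSup_smul_of_nonneg hc, smul_eq_mul]

lemma supp_U (k : Kap) (f : StrongDual ℝ H) :
    sSup (f '' U k) = (1 / (NN k.1 : ℝ)) * ∑ j, sSup (f '' V k j) := by
  rw [U, (VN_good k).supp_mink, tsum_fintype, Finset.mul_sum]
  apply Finset.sum_congr rfl
  intro j _
  rw [VN, supp_smul _ (by positivity)]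

lemma supp_G (k : Kap) (j : Fin (NN k.1)) (f : StrongDual ℝ H) :
    sSup (f '' (G k j).carrier) =
      sSup (f '' V k j) - sSup (f '' U k) + ∑' l, sSup (f '' U l) := by
  have h1 : (G k j).carrier = mink (WW k j) := rfl
  rw [h1, (WW_good k j).supp_mink]
  have h2 : (fun l => sSup (f '' WW k j l)) =
      Function.update (fun l => sSup (f '' U l)) k (sSup (f '' V k j)) := by
    funext l
    by_cases h : l = k
    · subst h; simp [WW]
    · simp [WW, Function.update_of_ne h]
  rw [h2]
  exact ((U_good.summable_supp f).hasSum.update k _).tsum_eq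

lemma radstrom_avg (k : Kap) :
    (1 / (NN k.1 : ℝ)) • ∑ j, radstrom (G k j) = radstrom Ubc := by
  ext f
  simp only [BoundedContinuousFunction.coe_smul, BoundedContinuousFunction.coe_sum,
    Finset.sum_apply]
  have h1 : ∀ j, radstrom (G k j) f = sSup (f.1 '' V k j) - sSup (f.1 '' U k) +
      ∑' l, sSup (f.1 '' U l) := fun j => supp_G k j f.1
  have h2 : radstrom Ubc f = ∑' l, sSup (f.1 '' U l) := U_good.supp_mink f.1
  rw [Finset.sum_congr rfl (fun j _ => h1 j), h2, Finset.sum_add_distrib, Finset.sum_sub_distrib,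
    smul_eq_mul, supp_U]
  simp only [Finset.sum_const, Finset.card_univ, Fintype.card_fin, nsmul_eq_mul]
  have hN : (NN k.1 : ℝ) ≠ 0 := by exact_mod_cast (NN_pos k.1).ne'
  field_simp
  ring

/-! ### Probability space -/

/-- uniform measure on levels -/
noncomputable def nu (k : Kap) : Measure (Fin (NN k.1)) := (NN k.1 : ℝ≥0∞)⁻¹ • Measure.count

instance (k : Kap) : IsProbabilityMeasure (nu k) := by
  constructor
  simp only [nu, Measure.smul_apply, smul_eq_mul]
  rw [Measure.count_univ]
  simp only [ENat.card_eq_coe_fintype_card, Fintype.card_fin]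
  apply ENNReal.inv_mul_cancel
  · simpa using (NN_pos k.1).ne'
  · simp

/-- sample space -/
abbrev Om := (k : Kap) → Fin (NN k.1)

/-- product measure -/
noncomputable def P : Measure Om := Measure.infinitePi nu

instance : IsProbabilityMeasure P := by unfold P; infer_instance

/-- random set attached to variable `k` -/
noncomputable def Phi (k : Kap) (ω : Om) : BC H := G k (ω k)

lemma Phi_random (k : Kap) : IsRandomSet (Phi k) := by
  have h : Measurable (fun j => radstrom (G k j)) := measurable_of_finite _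
  exact h.comp (measurable_pi_apply k)

lemma Phi_expectation (k : Kap) : HasExpectation P (Phi k) Ubc := by
  have hmap : P.map (fun ω => ω k) = nu k := Measure.infinitePi_map_eval nu k
  have hsm : StronglyMeasurable (fun j => radstrom (G k j)) := StronglyMeasurable.of_discrete
  have hint : Integrable (fun j => radstrom (G k j)) (nu k) := Integrable.of_finite
  constructor
  · have := (integrable_map_measure (μ := P) (f := fun ω : Om => ω k)
      (g := fun j => radstrom (G k j)) (by rw [hmap]; exact hsm.aestronglyMeasurable)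
      (measurable_pi_apply k).aemeasurable).1 (by rw [hmap]; exact hint)
    exact this
  · have h1 : ∫ ω, radstrom (Phi k ω) ∂P = ∫ j, radstrom (G k j) ∂(nu k) := by
      rw [← hmap, integral_map (measurable_pi_apply k).aemeasurable
        (by rw [hmap]; exact hsm.aestronglyMeasurable)]
      rfl
    rw [h1, nu, integral_smul_measure, integral_count, ← radstrom_avg k]
    congr 1
    simp

lemma Phi_indep : iIndepFun (fun k ω => radstrom (Phi k ω)) P := by
  have := iIndepFun_infinitePi (P := nu) (X := fun k j => radstrom (G k j))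
    (fun k => measurable_of_finite _)
  exact this

/-- enumeration of the variables -/
def en (n : ℕ) : Kap := ⟨Nat.log 2 (n + 1), ⟨n + 1 - 2 ^ Nat.log 2 (n + 1), by
  have h1 : n + 1 < 2 ^ (Nat.log 2 (n + 1) + 1) := Nat.lt_pow_succ_log_self (by norm_num) _
  rw [pow_succ] at h1
  have : 0 < 2 ^ Nat.log 2 (n + 1) := by positivity
  omega⟩⟩

lemma en_injective : Function.Injective en := by
  intro m n h
  have h1 : Nat.log 2 (m + 1) = Nat.log 2 (n + 1) := congrArg Sigma.fst h
  have hm : 2 ^ Nat.log 2 (m + 1) ≤ m + 1 := Nat.pow_log_le_self 2 (by omega)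
  have hn : 2 ^ Nat.log 2 (n + 1) ≤ n + 1 := Nat.pow_log_le_self 2 (by omega)
  have h2 : ((en m).2 : ℕ) = ((en n).2 : ℕ) := by rw [h]
  simp only [en] at h2
  rw [h1] at h2 hm
  omega

/-- the sequence of random sets -/
noncomputable def Psi (n : ℕ) (ω : Om) : BC H := Phi (en n) ω

lemma Psi_indep : IndepRandomSets P Psi := by
  exact Phi_indep.precomp en_injective

lemma Psi_bounded : UniformlyBounded Psi := by
  refine ⟨1 + ∑' k, r k, ?_⟩
  intro n ω x hx
  have h1 := (WW_good (en n) (ω (en n))).mink_norm_le hx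
  have h2 : ∑' k, Function.update r (en n) 1 k = 1 - r (en n) + ∑' k, r k :=
    (r_summable.hasSum.update (en n) 1).tsum_eq
  have h3 : 0 ≤ r (en n) := by unfold r; positivity
  linarith

/-! ### The deviation -/

/-- the random direction in block `b` -/
def dir (b : ℕ) (ω : Om) : Io := ⟨b, fun p => ω ⟨b, p⟩⟩

lemma ee_mem_V (k : Kap) (ω : Om) : ee (dir k.1 ω) ∈ V k (ω k) := by
  refine ⟨(norm_ee _).le, fun s hs => ?_⟩
  rw [ee_apply, if_neg]
  rintro rfl
  apply hs
  unfold dir
  rw [mem_S]

lemma ee_mem_Phi (k : Kap) (ω : Om) : ee (dir k.1 ω) ∈ (Phi k ω).carrier := by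
  refine ⟨Function.update (fun _ => 0) k (ee (dir k.1 ω)), ?_, ?_⟩
  · intro l
    by_cases h : l = k
    · subst h
      simp only [WW, Function.update_self]
      exact ee_mem_V l ω
    · simp only [WW, Function.update_of_ne h]
      exact U_zero l
  · have := (hasSum_zero : HasSum (fun _ : Kap => (0:H)) 0).update k (ee (dir k.1 ω))
    simpa using this

lemma zero_mem_Phi (k : Kap) (ω : Om) : (0 : H) ∈ (Phi k ω).carrier := by
  refine ⟨fun _ => 0, ?_, hasSum_zero⟩
  intro l
  by_cases h : l = k
  · subst h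
    simp only [WW, Function.update_self]
    exact V_zero l _
  · simp only [WW, Function.update_of_ne h]
    exact U_zero l

lemma U_coord {k : Kap} {x : H} (hx : x ∈ U k) (s : Io) :
    |x s| ≤ if k.1 = s.1 then 1 / (NN s.1 : ℝ) else 0 := by
  obtain ⟨v, hv, rfl⟩ := mem_U hx
  have h0 : (((1 / (NN k.1 : ℝ)) • ∑ j, v j : H)) s = (1 / (NN k.1 : ℝ)) * ∑ j, v j s := by
    have : (((1 / (NN k.1 : ℝ)) • ∑ j, v j : H)) s = (1 / (NN k.1 : ℝ)) * (∑ j, v j : H) s := rfl
    rw [this, lp.coeFn_sum, Finset.sum_apply]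
  rw [h0]
  split_ifs with h
  · obtain ⟨b, J⟩ := s
    simp only at h
    subst h
    rw [Finset.sum_eq_single (J k.2)]
    · rw [abs_mul, abs_of_nonneg (by positivity : (0:ℝ) ≤ 1 / (NN k.1 : ℝ))]
      have h1 := lp.norm_apply_le_norm (p := 2) (by norm_num) (v (J k.2)) ⟨k.1, J⟩
      rw [Real.norm_eq_abs] at h1
      have h2 := (hv (J k.2)).1
      have h3 : |(v (J k.2)) ⟨k.1, J⟩| ≤ 1 := h1.trans h2
      calc 1 / (NN k.1 : ℝ) * |(v (J k.2)) ⟨k.1, J⟩| ≤ 1 / (NN k.1 : ℝ) * 1 := by gcongr
        _ = 1 / (NN k.1 : ℝ) := mul_one _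
    · intro j _ hj
      apply (hv j).2
      rw [mem_S]
      exact fun h => hj h.symm
    · intro h; exact absurd (Finset.mem_univ _) h
  · rw [Finset.sum_eq_zero]
    · simp
    · intro j _
      apply (hv j).2
      intro hs
      exact h (mem_S_fst hs).symm

lemma Ubc_coord {x : H} (hx : x ∈ Ubc.carrier) (s : Io) : |x s| ≤ 1 / 16 := by
  obtain ⟨u, hu, hs⟩ := hx
  have h1 : HasSum (fun k => u k s) (x s) := by
    have := hs.mapL (innerSL ℝ (ee s))
    simpa [inner_ee] using this
  have hg : HasSum (fun k : Kap => if k.1 = s.1 then 1 / (NN s.1 : ℝ) else 0)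
      (2 ^ s.1 * (1 / (NN s.1 : ℝ))) := by
    have hfin := hasSum_sum_of_ne_finset_zero (L := SummationFilter.unconditional _)
      (f := fun k : Kap => if k.1 = s.1 then 1 / (NN s.1 : ℝ) else 0)
      (s := (Finset.univ : Finset (Fin (2 ^ s.1))).map ⟨Sigma.mk s.1, sigma_mk_injective⟩) ?_
    · rw [Finset.sum_map] at hfin
      simpa using hfin
    · intro k hk
      rw [if_neg]
      intro h
      apply hk
      obtain ⟨b, p⟩ := k
      simp only at h
      subst h
      simp
  have hbound : |x s| ≤ 2 ^ s.1 * (1 / (NN s.1 : ℝ)) := by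
    have hnorm : ∀ k, ‖u k s‖ ≤ if k.1 = s.1 then 1 / (NN s.1 : ℝ) else 0 := by
      intro k
      rw [Real.norm_eq_abs]
      exact U_coord (hu k) s
    have := tsum_of_norm_bounded hg hnorm
    rw [h1.tsum_eq] at this
    exact this
  refine hbound.trans ?_
  unfold NN
  push_cast
  have h2 : (16:ℝ) ^ (s.1 + 1) = 16 * (2 ^ s.1 * 8 ^ s.1) := by
    rw [pow_succ, show (16:ℝ) = 2 * 8 by norm_num, mul_pow]; ring
  rw [h2]
  have h8 : (1:ℝ) ≤ 8 ^ s.1 := one_le_pow₀ (by norm_num)
  have h20 : (0:ℝ) < 2 ^ s.1 := by positivity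
  rw [mul_one_div, div_le_div_iff₀ (by positivity) (by norm_num)]
  nlinarith

lemma deviation (ω : Om) (b : ℕ) :
    7 / 16 ≤ Metric.hausdorffDist (average Psi (2 ^ (b + 1) - 1) ω) Ubc.carrier := by
  classical
  set n := 2 ^ (b + 1) - 1 with hn
  have h2b : 1 ≤ 2 ^ b := Nat.one_le_two_pow
  have hn1 : n + 1 = 2 * 2 ^ b := by rw [hn, pow_succ]; omega
  have hnpos : 0 < n := by omega
  have hnR : (0:ℝ) < n := by exact_mod_cast hnpos
  set s := dir b ω with hs
  let x : ℕ → H := fun i => if (en i).1 = b then ee s else 0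
  have hx : ∀ i ∈ Finset.range n, x i ∈ (Psi i ω).carrier := by
    intro i _
    simp only [x]
    split_ifs with h
    · rw [hs, ← h]
      exact ee_mem_Phi (en i) ω
    · exact zero_mem_Phi _ ω
  have hmem : (1 / (n:ℝ)) • ∑ i ∈ Finset.range n, x i ∈ average Psi n ω :=
    Set.smul_mem_smul_set (Set.finsetSum_mem_finsetSum _ _ _ hx)
  set X := (1 / (n:ℝ)) • ∑ i ∈ Finset.range n, x i with hX
  have hXs : 1 / 2 ≤ X s := by
    have h1 : X s = (1 / (n:ℝ)) * ∑ i ∈ Finset.range n, (x i) s := by
      have : X s = (1 / (n:ℝ)) * (∑ i ∈ Finset.range n, x i : H) s := rfl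
      rw [this, lp.coeFn_sum, Finset.sum_apply]
    have h2 : ∀ i, (x i) s = if (en i).1 = b then 1 else 0 := by
      intro i
      simp only [x]
      split_ifs
      · rw [ee_apply, if_pos rfl]
      · rfl
    rw [h1, Finset.sum_congr rfl (fun i _ => h2 i), Finset.sum_boole]
    have h3 : (2:ℝ) ^ b ≤ (((Finset.range n).filter (fun i => (en i).1 = b)).card : ℝ) := by
      have hsub : (Finset.range (2 ^ b)).map ⟨fun i => i + (2 ^ b - 1), add_left_injective _⟩ ⊆
          (Finset.range n).filter (fun i => (en i).1 = b) := by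
        intro i hi
        simp only [Finset.mem_map, Finset.mem_range, Function.Embedding.coeFn_mk] at hi
        obtain ⟨p, hp, rfl⟩ := hi
        rw [Finset.mem_filter, Finset.mem_range]
        refine ⟨by omega, ?_⟩
        show Nat.log 2 (p + (2 ^ b - 1) + 1) = b
        rw [Nat.log_eq_iff (Or.inr ⟨by norm_num, by omega⟩)]
        constructor
        · omega
        · rw [pow_succ]; omega
      have := Finset.card_le_card hsub
      rw [Finset.card_map, Finset.card_range] at this
      exact_mod_cast this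
    have hn2 : (n:ℝ) ≤ 2 * 2 ^ b := by
      have : n ≤ 2 * 2 ^ b := by omega
      exact_mod_cast this
    rw [one_div_mul_eq_div, div_le_div_iff₀ (by norm_num) hnR]
    linarith
  have hdist : ∀ y ∈ Ubc.carrier, 7 / 16 ≤ dist X y := by
    intro y hy
    have h1 := Ubc_coord hy s
    have h2 := lp.norm_apply_le_norm (p := 2) (by norm_num) (X - y) s
    have h3 : (X - y) s = X s - y s := rfl
    rw [dist_eq_norm]
    rw [h3, Real.norm_eq_abs] at h2
    have h4 := (abs_le.1 h1).2
    have h5 := le_abs_self (X s - y s)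
    linarith
  have hA : (average Psi n ω).Nonempty := ⟨X, hmem⟩
  have hb : Bornology.IsBounded (average Psi n ω) := by
    apply Bornology.IsBounded.smul₀
    apply Finset.sum_induction _ (fun A : Set H => Bornology.IsBounded A)
    · intro a b ha hb; exact ha.add hb
    · exact Bornology.isBounded_singleton
    · intro i _; exact (Psi i ω).bounded
  have hfin := Metric.hausdorffEDist_ne_top_of_nonempty_of_bounded hA Ubc.nonempty hb Ubc.bounded
  calc (7:ℝ) / 16 ≤ Metric.infDist X Ubc.carrier := (Metric.le_infDist Ubc.nonempty).2 (fun {y} hy => hdist y hy)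
    _ ≤ _ := Metric.infDist_le_hausdorffDist_of_mem hmem hfin

end Q297.RandomSets
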