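import Pool.Agent.Q297.BCDefs

open MeasureTheory ProbabilityTheory Filter Topology
open scoped Pointwise BoundedContinuousFunction ENNReal

namespace Q297.RandomSets

/-! ### Hilbert spaces are B-convex -/

lemma hilbert_bconvex (X : Type*) [NormedAddCommGroup X] [InnerProductSpace ℝ X] : BConvex X := by
  refine ⟨2, 1/4, by norm_num, ?_⟩
  rintro ⟨T, hT⟩
  set x := T ![1, 0] with hx
  set y := T ![0, 1] with hy
  have h1 := (hT ![1, 0]).2
  have h2 := (hT ![0, 1]).2
  have h3 := (hT ![1, 1]).1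
  have h4 := (hT ![1, -1]).1
  have e3 : T ![1, 1] = x + y := by
    rw [hx, hy, ← map_add]; congr 1; ext i; fin_cases i <;> simp
  have e4 : T ![1, -1] = x - y := by
    rw [hx, hy, ← map_sub]; congr 1; ext i; fin_cases i <;> simp
  rw [e3] at h3
  rw [e4] at h4
  simp [Fin.sum_univ_two] at h1 h2 h3 h4
  have hp := parallelogram_law_with_norm ℝ x y
  have a1 : ‖x‖ ^ 2 ≤ (5/4)^2 := by
    have : ‖x‖ ≤ 5/4 := by rw [hx]; linarith
    nlinarith [norm_nonneg x]
  have a2 : ‖y‖ ^ 2 ≤ (5/4)^2 := by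
    have : ‖y‖ ≤ 5/4 := by rw [hy]; linarith
    nlinarith [norm_nonneg y]
  nlinarith [norm_nonneg (x + y), norm_nonneg (x - y)]

/-! ### Infinite Minkowski sums of compact sets -/

section mink

variable {X : Type*} [NormedAddCommGroup X] [NormedSpace ℝ X] [CompleteSpace X]
  {κ : Type*}

/-- infinite Minkowski sum -/
def mink (W : κ → Set X) : Set X := {x | ∃ u : κ → X, (∀ k, u k ∈ W k) ∧ HasSum u x}

/-- nonempty compact convex summands with summable norms -/
structure Good (W : κ → Set X) (r : κ → ℝ) : Prop where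
  summable : Summable r
  bound : ∀ k, ∀ x ∈ W k, ‖x‖ ≤ r k
  compact : ∀ k, IsCompact (W k)
  nonempty : ∀ k, (W k).Nonempty
  convex : ∀ k, Convex ℝ (W k)

lemma Good.hasSum {W : κ → Set X} {r : κ → ℝ} (h : Good W r) {u : κ → X} (hu : ∀ k, u k ∈ W k) :
    Summable u := Summable.of_norm_bounded h.summable (fun k => h.bound k _ (hu k))

lemma Good.mink_compact {W : κ → Set X} {r : κ → ℝ} (h : Good W r) : IsCompact (mink W) := by
  have h1 : IsCompact (Set.pi Set.univ W) := isCompact_univ_pi h.compact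
  have h2 : ContinuousOn (fun u : κ → X => ∑' k, u k) (Set.pi Set.univ W) :=
    continuousOn_tsum (fun k => (continuous_apply k).continuousOn) h.summable
      (fun k u hu => h.bound k _ (hu k (Set.mem_univ k)))
  have h3 : mink W = (fun u : κ → X => ∑' k, u k) '' (Set.pi Set.univ W) := by
    ext x
    constructor
    · rintro ⟨u, hu, hs⟩
      exact ⟨u, fun k _ => hu k, hs.tsum_eq⟩
    · rintro ⟨u, hu, rfl⟩
      have hu' : ∀ k, u k ∈ W k := fun k => hu k (Set.mem_univ k)
      exact ⟨u, hu', (h.hasSum hu').hasSum⟩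
  rw [h3]
  exact h1.image_of_continuousOn h2

lemma Good.mink_nonempty {W : κ → Set X} {r : κ → ℝ} (h : Good W r) : (mink W).Nonempty := by
  choose u hu using h.nonempty
  exact ⟨_, u, hu, (h.hasSum hu).hasSum⟩

lemma Good.mink_convex {W : κ → Set X} {r : κ → ℝ} (h : Good W r) : Convex ℝ (mink W) := by
  rintro x ⟨u, hu, hux⟩ y ⟨v, hv, hvy⟩ a b ha hb hab
  exact ⟨fun k => a • u k + b • v k, fun k => h.convex k (hu k) (hv k) ha hb hab,
    (hux.const_smul a).add (hvy.const_smul b)⟩

lemma Good.mink_norm_le {W : κ → Set X} {r : κ → ℝ} (h : Good W r) {x : X} (hx : x ∈ mink W) :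
    ‖x‖ ≤ ∑' k, r k := by
  obtain ⟨u, hu, hs⟩ := hx
  rw [← hs.tsum_eq]
  exact tsum_of_norm_bounded h.summable.hasSum (fun k => h.bound k _ (hu k))

/-- the Minkowski sum as an element of `BC` -/
def Good.bc {W : κ → Set X} {r : κ → ℝ} (h : Good W r) : BC X where
  carrier := mink W
  nonempty := h.mink_nonempty
  convex := h.mink_convex
  bounded := h.mink_compact.isBounded

lemma compact_sSup_mem {A : Set X} (hA : IsCompact A) (hn : A.Nonempty) (f : StrongDual ℝ X) :
    ∃ x ∈ A, f x = sSup (f '' A) ∧ ∀ y ∈ A, f y ≤ f x := by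
  obtain ⟨x, hx, hmax⟩ := hA.exists_isMaxOn hn f.continuous.continuousOn
  refine ⟨x, hx, ?_, fun y hy => hmax hy⟩
  apply le_antisymm
  · apply le_csSup
    · exact ⟨f x, by rintro _ ⟨y, hy, rfl⟩; exact hmax hy⟩
    · exact ⟨x, hx, rfl⟩
  · apply csSup_le (hn.image _)
    rintro _ ⟨y, hy, rfl⟩
    exact hmax hy

lemma Good.summable_supp {W : κ → Set X} {r : κ → ℝ} (h : Good W r) (f : StrongDual ℝ X) :
    Summable (fun k => sSup (f '' W k)) := by
  apply Summable.of_norm_bounded (h.summable.mul_left ‖f‖)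
  intro k
  obtain ⟨x, hx, hfx, _⟩ := compact_sSup_mem (h.compact k) (h.nonempty k) f
  rw [← hfx]
  exact (f.le_opNorm x).trans (mul_le_mul_of_nonneg_left (h.bound k x hx) (norm_nonneg _))

/-- support function of the Minkowski sum -/
lemma Good.supp_mink {W : κ → Set X} {r : κ → ℝ} (h : Good W r) (f : StrongDual ℝ X) :
    sSup (f '' mink W) = ∑' k, sSup (f '' W k) := by
  apply le_antisymm
  · apply csSup_le (h.mink_nonempty.image _)
    rintro _ ⟨x, ⟨u, hu, hs⟩, rfl⟩
    have h1 : HasSum (fun k => f (u k)) (f x) := hs.mapL f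
    refine hasSum_le (fun k => ?_) h1 (h.summable_supp f).hasSum
    obtain ⟨y, hy, hfy, hmax⟩ := compact_sSup_mem (h.compact k) (h.nonempty k) f
    rw [← hfy]
    exact hmax _ (hu k)
  · choose u hu hfu hmax using fun k => compact_sSup_mem (h.compact k) (h.nonempty k) f
    have hs := (h.hasSum hu).hasSum
    have h1 : HasSum (fun k => f (u k)) (f (∑' k, u k)) := hs.mapL f
    have h2 : ∑' k, sSup (f '' W k) = f (∑' k, u k) := by
      rw [← h1.tsum_eq]
      exact tsum_congr (fun k => (hfu k).symm)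
    rw [h2]
    apply le_csSup
    · exact image_bddAbove h.bc f
    · exact ⟨_, ⟨u, hu, hs⟩, rfl⟩

end mink

end Q297.RandomSets
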