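import Pool.Agent.Q297.BaryCoord

open MeasureTheory ProbabilityTheory Filter Topology
open scoped ENNReal NNReal

namespace Pool.Agent.Q297.Bary

/-- the perturbing weight -/
noncomputable def wt (q : ℝ × ℝ × ℝ) : ℝ :=
  1 + (1 / 20) * (Real.arctan q.1 * (Real.sin q.2.1 * Real.sin q.2.2))

lemma arctan_abs (x : ℝ) : |Real.arctan x| ≤ 2 := by
  have h1 := Real.arctan_lt_pi_div_two x
  have h2 := Real.neg_pi_div_two_lt_arctan x
  have h3 := Real.pi_le_four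
  rw [abs_le]; constructor <;> linarith

lemma tri_abs {a b c : ℝ} (ha : |a| ≤ 2) (hb : |b| ≤ 1) (hc : |c| ≤ 1) : |a * (b * c)| ≤ 2 := by
  rw [abs_mul, abs_mul]
  calc |a| * (|b| * |c|) ≤ 2 * (1 * 1) := by
        apply mul_le_mul ha _ (by positivity) (by norm_num)
        exact mul_le_mul hb hc (abs_nonneg _) (by norm_num)
    _ = 2 := by norm_num

lemma wt_low (q : ℝ × ℝ × ℝ) : 9 / 10 ≤ wt q := by
  have h := tri_abs (arctan_abs q.1) (Real.abs_sin_le_one q.2.1) (Real.abs_sin_le_one q.2.2)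
  have := (abs_le.1 h).1
  unfold wt; linarith

lemma wt_up (q : ℝ × ℝ × ℝ) : wt q ≤ 11 / 10 := by
  have h := tri_abs (arctan_abs q.1) (Real.abs_sin_le_one q.2.1) (Real.abs_sin_le_one q.2.2)
  have := (abs_le.1 h).2
  unfold wt; linarith

lemma wt_pos (q : ℝ × ℝ × ℝ) : 0 < wt q := lt_of_lt_of_le (by norm_num) (wt_low q)

lemma wt_cont : Continuous wt := by
  unfold wt; fun_prop

lemma bound2 {a a1 a2 b b1 b2 c c1 c2 v1 v2 v3 : ℝ} (ha : |a| ≤ 2) (ha1 : |a1| ≤ |v1|)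
    (ha2 : |a2| ≤ v1 ^ 2) (hb : |b| ≤ 1) (hb1 : |b1| ≤ |v2|) (hb2 : |b2| ≤ v2 ^ 2)
    (hc : |c| ≤ 1) (hc1 : |c1| ≤ |v3|) (hc2 : |c2| ≤ v3 ^ 2) :
    a2 * (b * c) + 2 * (a1 * (b1 * c + b * c1)) + a * (b2 * c + 2 * (b1 * c1) + b * c2) ≤
      5 * (v1 ^ 2 + v2 ^ 2 + v3 ^ 2) := by
  have key : ∀ {x y z X Y Z : ℝ}, |x| ≤ X → |y| ≤ Y → |z| ≤ Z → x * (y * z) ≤ X * (Y * Z) := by
    intro x y z X Y Z hx hy hz
    refine (le_abs_self _).trans ?_
    rw [abs_mul, abs_mul]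
    have hX : 0 ≤ X := (abs_nonneg _).trans hx
    have hY : 0 ≤ Y := (abs_nonneg _).trans hy
    exact mul_le_mul hx (mul_le_mul hy hz (abs_nonneg _) hY) (by positivity) hX
  have t1 := key ha2 hb hc
  have t2 := key ha1 hb1 hc
  have t3 := key ha1 hb hc1
  have t4 := key ha hb2 hc
  have t5 := key ha hb1 hc1
  have t6 := key ha hb hc2
  have s1 : 2 * |v1| * |v2| ≤ v1 ^ 2 + v2 ^ 2 := by
    have := two_mul_le_add_sq |v1| |v2|
    simpa [sq_abs] using this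
  have s2 : 2 * |v1| * |v3| ≤ v1 ^ 2 + v3 ^ 2 := by
    have := two_mul_le_add_sq |v1| |v3|
    simpa [sq_abs] using this
  have s3 : 2 * |v2| * |v3| ≤ v2 ^ 2 + v3 ^ 2 := by
    have := two_mul_le_add_sq |v2| |v3|
    simpa [sq_abs] using this
  have e : a2 * (b * c) + 2 * (a1 * (b1 * c + b * c1)) + a * (b2 * c + 2 * (b1 * c1) + b * c2) =
      a2 * (b * c) + 2 * (a1 * (b1 * c)) + 2 * (a1 * (b * c1)) + a * (b2 * c) +
        2 * (a * (b1 * c1)) + a * (b * c2) := by ring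
  rw [e]
  nlinarith [sq_nonneg v1, sq_nonneg v2, sq_nonneg v3]

/-- The convex function. -/
noncomputable def KK (q : ℝ × ℝ × ℝ) : ℝ :=
  -Real.log (wt q) + 3 / 8 * (q.1 ^ 2 + q.2.1 ^ 2 + q.2.2 ^ 2)

lemma KK_line (x1 x2 x3 v1 v2 v3 : ℝ) :
    ConvexOn ℝ Set.univ (fun t : ℝ => KK (x1 + t * v1, x2 + t * v2, x3 + t * v3)) := by
  set A : ℝ → ℝ := fun t => Real.arctan (x1 + t * v1) with hA
  set A1 : ℝ → ℝ := fun t => v1 / (1 + (x1 + t * v1) ^ 2) with hA1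
  set A2 : ℝ → ℝ := fun t => -(2 * (x1 + t * v1) * v1 ^ 2) / (1 + (x1 + t * v1) ^ 2) ^ 2 with hA2
  set B : ℝ → ℝ := fun t => Real.sin (x2 + t * v2) with hB
  set B1 : ℝ → ℝ := fun t => Real.cos (x2 + t * v2) * v2 with hB1
  set B2 : ℝ → ℝ := fun t => -Real.sin (x2 + t * v2) * v2 * v2 with hB2
  set C : ℝ → ℝ := fun t => Real.sin (x3 + t * v3) with hC
  set C1 : ℝ → ℝ := fun t => Real.cos (x3 + t * v3) * v3 with hC1
  set C2 : ℝ → ℝ := fun t => -Real.sin (x3 + t * v3) * v3 * v3 with hC2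
  have lin : ∀ (x v t : ℝ), HasDerivAt (fun t : ℝ => x + t * v) v t := by
    intro x v t
    simpa using ((hasDerivAt_id t).mul_const v).const_add x
  have dA : ∀ t, HasDerivAt A (A1 t) t := by
    intro t
    have := (lin x1 v1 t).arctan
    convert! this using 1
    simp only [hA1]; ring
  have dA1 : ∀ t, HasDerivAt A1 (A2 t) t := by
    intro t
    have h1 : HasDerivAt (fun t : ℝ => 1 + (x1 + t * v1) ^ 2) (2 * (x1 + t * v1) * v1) t := by
      have := ((lin x1 v1 t).pow 2).const_add 1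
      convert! this using 1
      ring
    have hne : 1 + (x1 + t * v1) ^ 2 ≠ 0 := by positivity
    have := (hasDerivAt_const t v1).div h1 hne
    convert! this using 1
    simp only [hA2]; ring
  have dB : ∀ t, HasDerivAt B (B1 t) t := fun t => (lin x2 v2 t).sin
  have dB1 : ∀ t, HasDerivAt B1 (B2 t) t := fun t => (lin x2 v2 t).cos.mul_const v2
  have dC : ∀ t, HasDerivAt C (C1 t) t := fun t => (lin x3 v3 t).sin
  have dC1 : ∀ t, HasDerivAt C1 (C2 t) t := fun t => (lin x3 v3 t).cos.mul_const v3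
  set W : ℝ → ℝ := fun t => 1 + (1 / 20) * (A t * (B t * C t)) with hW
  set W1 : ℝ → ℝ := fun t => (1 / 20) * (A1 t * (B t * C t) + A t * (B1 t * C t + B t * C1 t))
    with hW1
  set W2 : ℝ → ℝ := fun t => (1 / 20) * (A2 t * (B t * C t) + 2 * (A1 t * (B1 t * C t + B t * C1 t))
    + A t * (B2 t * C t + 2 * (B1 t * C1 t) + B t * C2 t)) with hW2
  have dW : ∀ t, HasDerivAt W (W1 t) t := by
    intro t
    have h := (((dA t).mul ((dB t).mul (dC t))).const_mul (1 / 20)).const_add 1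
    convert! h using 1
  have dW1 : ∀ t, HasDerivAt W1 (W2 t) t := by
    intro t
    have h := (((dA1 t).mul ((dB t).mul (dC t))).add
      ((dA t).mul (((dB1 t).mul (dC t)).add ((dB t).mul (dC1 t))))).const_mul (1 / 20)
    convert! h using 1
    simp only [hW2]
    simp only [Pi.mul_apply, Pi.add_apply]
    ring
  have hWpos : ∀ t, 9 / 10 ≤ W t := fun t => wt_low (x1 + t * v1, x2 + t * v2, x3 + t * v3)
  have hWne : ∀ t, W t ≠ 0 := fun t => (lt_of_lt_of_le (by norm_num) (hWpos t)).ne'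
  set Q : ℝ → ℝ := fun t => (x1 + t * v1) ^ 2 + (x2 + t * v2) ^ 2 + (x3 + t * v3) ^ 2 with hQ
  set Q1 : ℝ → ℝ := fun t => 2 * (x1 + t * v1) * v1 + 2 * (x2 + t * v2) * v2 +
    2 * (x3 + t * v3) * v3 with hQ1
  have dsq : ∀ (x v t : ℝ), HasDerivAt (fun t : ℝ => (x + t * v) ^ 2) (2 * (x + t * v) * v) t := by
    intro x v t
    have := (lin x v t).pow 2
    convert! this using 1
    ring
  have dQ : ∀ t, HasDerivAt Q (Q1 t) t := fun t =>
    ((dsq x1 v1 t).add (dsq x2 v2 t)).add (dsq x3 v3 t)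
  have dl : ∀ (x v t : ℝ), HasDerivAt (fun t : ℝ => 2 * (x + t * v) * v) (2 * v ^ 2) t := by
    intro x v t
    have := ((lin x v t).const_mul 2).mul_const v
    convert! this using 1
    ring
  have dQ1 : ∀ t, HasDerivAt Q1 (2 * v1 ^ 2 + 2 * v2 ^ 2 + 2 * v3 ^ 2) t := fun t =>
    ((dl x1 v1 t).add (dl x2 v2 t)).add (dl x3 v3 t)
  have e : (fun t : ℝ => KK (x1 + t * v1, x2 + t * v2, x3 + t * v3)) =
      fun t => -Real.log (W t) + 3 / 8 * Q t := rfl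
  rw [e]
  have d1 : ∀ t, HasDerivAt (fun t => -Real.log (W t) + 3 / 8 * Q t)
      (-(W1 t / W t) + 3 / 8 * Q1 t) t := fun t =>
    ((dW t).log (hWne t)).neg.add ((dQ t).const_mul (3 / 8))
  have d2 : ∀ t, HasDerivAt (fun t => -(W1 t / W t) + 3 / 8 * Q1 t)
      (-((W2 t * W t - W1 t * W1 t) / W t ^ 2) +
        3 / 8 * (2 * v1 ^ 2 + 2 * v2 ^ 2 + 2 * v3 ^ 2)) t := fun t =>
    ((dW1 t).div (dW t) (hWne t)).neg.add ((dQ1 t).const_mul (3 / 8))
  refine convexOn_of_hasDerivWithinAt2_nonneg convex_univ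
    (f' := fun t => -(W1 t / W t) + 3 / 8 * Q1 t)
    (f'' := fun t => -((W2 t * W t - W1 t * W1 t) / W t ^ 2) +
        3 / 8 * (2 * v1 ^ 2 + 2 * v2 ^ 2 + 2 * v3 ^ 2)) ?_ ?_ ?_ ?_
  · exact fun t _ => (d1 t).continuousAt.continuousWithinAt
  · exact fun t _ => (d1 t).hasDerivWithinAt
  · exact fun t _ => (d2 t).hasDerivWithinAt
  · intro t _
    have hb : W2 t ≤ (1 / 20) * (5 * (v1 ^ 2 + v2 ^ 2 + v3 ^ 2)) := by
      simp only [hW2]
      apply mul_le_mul_of_nonneg_left _ (by norm_num)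
      have hs1 : ∀ y : ℝ, |Real.sin y| ≤ 1 := Real.abs_sin_le_one
      have hc1 : ∀ y : ℝ, |Real.cos y| ≤ 1 := Real.abs_cos_le_one
      have hcv : ∀ y v : ℝ, |Real.cos y * v| ≤ |v| := by
        intro y v
        rw [abs_mul]
        exact mul_le_of_le_one_left (abs_nonneg _) (hc1 y)
      have hsv : ∀ y v : ℝ, |-Real.sin y * v * v| ≤ v ^ 2 := by
        intro y v
        rw [abs_mul, abs_mul, abs_neg, mul_assoc, ← abs_mul, ← sq, abs_of_nonneg (sq_nonneg v)]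
        exact mul_le_of_le_one_left (sq_nonneg _) (hs1 y)
      refine bound2 (arctan_abs _) ?_ ?_ (hs1 _) (hcv _ _) (hsv _ _) (hs1 _) (hcv _ _) (hsv _ _)
      · simp only [hA1]
        rw [abs_div, abs_of_pos (by positivity : (0:ℝ) < 1 + (x1 + t * v1) ^ 2)]
        apply div_le_self (abs_nonneg _)
        nlinarith [sq_nonneg (x1 + t * v1)]
      · simp only [hA2]
        rw [abs_div, abs_neg, abs_mul, abs_mul, abs_of_nonneg (sq_nonneg v1),
          abs_of_pos (by positivity : (0:ℝ) < (1 + (x1 + t * v1) ^ 2) ^ 2)]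
        rw [div_le_iff₀ (by positivity)]
        set y := x1 + t * v1
        have h1 : |(2:ℝ)| * |y| ≤ (1 + y ^ 2) ^ 2 := by
          rw [abs_of_pos (by norm_num : (0:ℝ) < 2)]
          have : y ^ 2 = |y| ^ 2 := (sq_abs y).symm
          rw [this]
          nlinarith [sq_nonneg (|y| - 1), abs_nonneg y, sq_nonneg (|y|^2)]
        calc |(2:ℝ)| * |y| * v1 ^ 2 ≤ (1 + y ^ 2) ^ 2 * v1 ^ 2 :=
              mul_le_mul_of_nonneg_right h1 (sq_nonneg _)
          _ = v1 ^ 2 * (1 + y ^ 2) ^ 2 := by ring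
    have hWp : 0 < W t := lt_of_lt_of_le (by norm_num) (hWpos t)
    have e2 : -((W2 t * W t - W1 t * W1 t) / W t ^ 2) = -(W2 t / W t) + (W1 t / W t) ^ 2 := by
      field_simp
      ring
    show 0 ≤ -((W2 t * W t - W1 t * W1 t) / W t ^ 2) +
        3 / 8 * (2 * v1 ^ 2 + 2 * v2 ^ 2 + 2 * v3 ^ 2)
    rw [e2]
    have h3 : W2 t / W t ≤ (3 / 4) * (v1 ^ 2 + v2 ^ 2 + v3 ^ 2) := by
      rw [div_le_iff₀ hWp]
      have hs : 0 ≤ v1 ^ 2 + v2 ^ 2 + v3 ^ 2 := by positivity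
      have := mul_le_mul_of_nonneg_left (hWpos t)
        (by positivity : 0 ≤ (3 / 4) * (v1 ^ 2 + v2 ^ 2 + v3 ^ 2))
      nlinarith
    have h4 := sq_nonneg (W1 t / W t)
    linarith

lemma KK_conv (x y : ℝ × ℝ × ℝ) (a b : ℝ) (ha : 0 ≤ a) (hb : 0 ≤ b) (hab : a + b = 1) :
    KK (a • x + b • y) ≤ a * KK x + b * KK y := by
  have h := (KK_line x.1 x.2.1 x.2.2 (y.1 - x.1) (y.2.1 - x.2.1) (y.2.2 - x.2.2)).2
    (Set.mem_univ 0) (Set.mem_univ 1) ha hb hab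
  have ea : a = 1 - b := by linarith
  have e1 : (x.1 + (a • (0:ℝ) + b • (1:ℝ)) * (y.1 - x.1),
      x.2.1 + (a • (0:ℝ) + b • (1:ℝ)) * (y.2.1 - x.2.1),
      x.2.2 + (a • (0:ℝ) + b • (1:ℝ)) * (y.2.2 - x.2.2)) = a • x + b • y := by
    subst ea
    ext <;> simp <;> ring
  have e2 : (x.1 + (0:ℝ) * (y.1 - x.1), x.2.1 + (0:ℝ) * (y.2.1 - x.2.1),
      x.2.2 + (0:ℝ) * (y.2.2 - x.2.2)) = x := by ext <;> simp
  have e3 : (x.1 + (1:ℝ) * (y.1 - x.1), x.2.1 + (1:ℝ) * (y.2.1 - x.2.1),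
      x.2.2 + (1:ℝ) * (y.2.2 - x.2.2)) = y := by ext <;> simp
  simp only [smul_eq_mul] at e1 h
  rw [e1, e2, e3] at h
  exact h

end Pool.Agent.Q297.Bary
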