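import Pool.Agent.Q297.BaryExist

open MeasureTheory ProbabilityTheory Filter Topology
open scoped ENNReal NNReal

namespace Pool.Agent.Q297.Bary

abbrev R4 := ℝ × ℝ × ℝ × ℝ
abbrev E4 := EuclideanSpace ℝ (Fin 4)

/-- coordinates to Euclidean space -/
noncomputable def tE (p : R4) : E4 := WithLp.toLp 2 ![p.1, p.2.1, p.2.2.1, p.2.2.2]

/-- Euclidean space to coordinates -/
noncomputable def cE (x : E4) : R4 := (x 0, x 1, x 2, x 3)

lemma tE_cE (x : E4) : tE (cE x) = x := by
  ext i; fin_cases i <;> simp [tE, cE]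

lemma cE_tE (p : R4) : cE (tE p) = p := by
  simp [tE, cE]

lemma tE_cont : Continuous tE := by
  unfold tE
  apply (PiLp.continuous_toLp 2 _).comp
  refine continuous_pi fun i => ?_
  fin_cases i <;> simp <;> fun_prop

lemma cE_cont : Continuous cE := by
  unfold cE; fun_prop

/-- squared norm in coordinates -/
def nsq (p : R4) : ℝ := p.1 ^ 2 + p.2.1 ^ 2 + p.2.2.1 ^ 2 + p.2.2.2 ^ 2

lemma norm_tE (p : R4) : ‖tE p‖ ^ 2 = nsq p := by
  rw [EuclideanSpace.norm_sq_eq]
  simp [tE, Fin.sum_univ_four, nsq]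

lemma norm_cE (x : E4) : ‖x‖ ^ 2 = nsq (cE x) := by
  rw [← norm_tE, tE_cE]

lemma tE_sub (p q : R4) : tE p - tE q = tE (p - q) := by
  ext i; fin_cases i <;> simp [tE]

lemma cE_comb (a b : ℝ) (x y : E4) : cE (a • x + b • y) = a • cE x + b • cE y := by
  simp [cE]

lemma qv_mp : MeasurePreserving (fun p : R4 => (![p.1, p.2.1, p.2.2.1, p.2.2.2] : Fin 4 → ℝ))
    volume volume := by
  have hm : Measurable (fun p : R4 => (![p.1, p.2.1, p.2.2.1, p.2.2.2] : Fin 4 → ℝ)) := by
    refine measurable_pi_iff.2 fun i => ?_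
    fin_cases i <;> simp <;> fun_prop
  refine ⟨hm, ?_⟩
  rw [volume_pi]
  symm
  apply Measure.pi_eq
  intro s hs
  rw [Measure.map_apply hm (MeasurableSet.univ_pi hs)]
  have : (fun p : R4 => (![p.1, p.2.1, p.2.2.1, p.2.2.2] : Fin 4 → ℝ)) ⁻¹'
      (Set.univ.pi s) = s 0 ×ˢ (s 1 ×ˢ (s 2 ×ˢ s 3)) := by
    ext p
    simp only [Set.mem_preimage, Set.mem_pi, Set.mem_univ, true_implies, Set.mem_prod]
    constructor
    · intro h
      exact ⟨h 0, h 1, h 2, h 3⟩
    · rintro ⟨h0, h1, h2, h3⟩ i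
      fin_cases i
      exacts [h0, h1, h2, h3]
  rw [this, Measure.volume_eq_prod, Measure.prod_prod, Measure.volume_eq_prod, Measure.prod_prod,
    Measure.volume_eq_prod, Measure.prod_prod, Fin.prod_univ_four]
  ring

lemma tE_mp : MeasurePreserving tE volume volume :=
  (PiLp.volume_preserving_toLp (Fin 4)).comp qv_mp

lemma map_tE_withDensity (F : E4 → ℝ≥0∞) (hF : Measurable F) :
    ((volume : Measure R4).withDensity (fun p => F (tE p))).map tE =
      (volume : Measure E4).withDensity F := by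
  ext s hs
  rw [Measure.map_apply tE_cont.measurable hs, withDensity_apply _ (tE_cont.measurable hs),
    withDensity_apply _ hs]
  exact tE_mp.setLIntegral_comp_preimage hs hF

lemma slc_of {kappa : ℝ} (U : R4 → ℝ) (hU : Continuous U)
    (hconv : ∀ (x y : R4) (a b : ℝ), 0 ≤ a → 0 ≤ b → a + b = 1 →
      U (a • x + b • y) - kappa / 2 * nsq (a • x + b • y) ≤
        a * (U x - kappa / 2 * nsq x) + b * (U y - kappa / 2 * nsq y))
    (hp : IsProbabilityMeasure
      (((volume : Measure R4).withDensity (fun p => ENNReal.ofReal (Real.exp (-U p)))))) :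
    SLC kappa (((volume : Measure R4).withDensity
      (fun p => ENNReal.ofReal (Real.exp (-U p)))).map tE) := by
  have hm : Measurable fun x : E4 => ENNReal.ofReal (Real.exp (-U (cE x))) :=
    (Real.continuous_exp.comp (hU.comp cE_cont).neg).measurable.ennreal_ofReal
  have e1 : ((volume : Measure R4).withDensity
      (fun p => ENNReal.ofReal (Real.exp (-U p)))).map tE =
      (volume : Measure E4).withDensity (fun x => ENNReal.ofReal (Real.exp (-U (cE x)))) := by
    rw [← map_tE_withDensity _ hm]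
    simp_rw [cE_tE]
  have e2 : ∀ x : E4, EReal.exp (-((U (cE x) : ℝ) : EReal)) =
      ENNReal.ofReal (Real.exp (-U (cE x))) := by
    intro x
    rw [← EReal.coe_neg, EReal.exp_coe]
  have e3 : ∫⁻ x : E4, ENNReal.ofReal (Real.exp (-U (cE x))) = 1 := by
    have h1 : ((volume : Measure R4).withDensity
      (fun p => ENNReal.ofReal (Real.exp (-U p)))).map tE Set.univ = 1 := by
      rw [Measure.map_apply tE_cont.measurable MeasurableSet.univ, Set.preimage_univ]
      exact measure_univ
    rw [e1, withDensity_apply _ MeasurableSet.univ, Measure.restrict_univ] at h1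
    exact h1
  refine ⟨fun x => ((U (cE x) : ℝ) : EReal), fun x => EReal.coe_ne_bot _,
    ⟨0, EReal.coe_ne_top _⟩, ?_, ?_, ?_, ?_, ?_⟩
  · exact (continuous_coe_real_ereal.comp (hU.comp cE_cont)).lowerSemicontinuous
  · intro x y a b ha hb hab
    have h := hconv (cE x) (cE y) a b ha hb hab
    rw [norm_cE, norm_cE, norm_cE, cE_comb]
    simp only [← EReal.coe_sub, ← EReal.coe_mul, ← EReal.coe_add]
    exact EReal.coe_le_coe_iff.2 h
  · simp_rw [e2, e3]; simp
  · simp_rw [e2, e3]; simp
  · simp_rw [e2, e3]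
    rw [e1]; simp

end Pool.Agent.Q297.Bary
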