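import Pool.Agent.Q297.BaryCoup

open MeasureTheory ProbabilityTheory Filter Topology
open scoped ENNReal NNReal

namespace Pool.Agent.Q297.Bary

variable {X : Type*} [NormedAddCommGroup X] [MeasurableSpace X] [BorelSpace X]
  [SecondCountableTopology X]

omit [MeasurableSpace X] [BorelSpace X] [SecondCountableTopology X] in
lemma enorm_sq_eq (x : X) : ‖x‖ₑ ^ 2 = ENNReal.ofReal (‖x‖ ^ 2) := by
  rw [← ofReal_norm, ← ENNReal.ofReal_pow (norm_nonneg _)]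

omit [BorelSpace X] [SecondCountableTopology X] in
lemma cst_eq (p : Measure (X × X)) : cst p = ∫⁻ z, ENNReal.ofReal (‖z.1 - z.2‖ ^ 2) ∂p := by
  unfold cst
  simp_rw [enorm_sq_eq]

lemma int_of_cst {p : Measure (X × X)} (h : cst p ≠ ⊤) :
    Integrable (fun z : X × X => ‖z.1 - z.2‖ ^ 2) p := by
  rw [cst_eq] at h
  refine ⟨by fun_prop, ?_⟩
  rw [hasFiniteIntegral_iff_ofReal (Filter.Eventually.of_forall fun z => sq_nonneg _)]
  exact h.lt_top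

omit [BorelSpace X] [SecondCountableTopology X] in
lemma cst_real {p : Measure (X × X)} (h : Integrable (fun z : X × X => ‖z.1 - z.2‖ ^ 2) p) :
    cst p = ENNReal.ofReal (∫ z, ‖z.1 - z.2‖ ^ 2 ∂p) := by
  rw [cst_eq, ofReal_integral_eq_lintegral_ofReal h
    (Filter.Eventually.of_forall fun z => sq_nonneg _)]

/-- cost of a coupling given by a map on a probability space -/
lemma cst_map {Ω : Type*} [MeasurableSpace Ω] {m : Measure Ω} {f g : Ω → R4} (hf : Measurable f)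
    (hg : Measurable g) (hi : Integrable (fun z => nsq (f z - g z)) m) :
    cst (m.map (fun z => (tE (f z), tE (g z)))) = ENNReal.ofReal (∫ z, nsq (f z - g z) ∂m) := by
  have hm : Measurable fun z => (tE (f z), tE (g z)) :=
    (tE_cont.measurable.comp hf).prodMk (tE_cont.measurable.comp hg)
  rw [cst_eq, lintegral_map (by fun_prop) hm]
  have e : ∀ z, ‖tE (f z) - tE (g z)‖ ^ 2 = nsq (f z - g z) := by
    intro z; rw [tE_sub, norm_tE]
  simp_rw [e]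
  rw [ofReal_integral_eq_lintegral_ofReal hi (Filter.Eventually.of_forall fun z => by
    show 0 ≤ nsq _; unfold nsq; positivity)]

lemma int5 {α : Type*} [MeasurableSpace α] {m : Measure α} {f1 f2 f3 f4 f5 : α → ℝ} (c : ℝ)
    (h1 : Integrable f1 m) (h2 : Integrable f2 m) (h3 : Integrable f3 m) (h4 : Integrable f4 m)
    (h5 : Integrable f5 m) :
    Integrable (fun z => c * f1 z + f2 z + f3 z + f4 z - 2 * f5 z) m ∧
    ∫ z, (c * f1 z + f2 z + f3 z + f4 z - 2 * f5 z) ∂m =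
      c * ∫ z, f1 z ∂m + ∫ z, f2 z ∂m + ∫ z, f3 z ∂m + ∫ z, f4 z ∂m - 2 * ∫ z, f5 z ∂m := by
  have g1 : Integrable (fun z => c * f1 z) m := h1.const_mul c
  have g2 : Integrable (fun z => c * f1 z + f2 z) m := g1.add h2
  have g3 : Integrable (fun z => c * f1 z + f2 z + f3 z) m := g2.add h3
  have g4 : Integrable (fun z => c * f1 z + f2 z + f3 z + f4 z) m := g3.add h4
  have g5 : Integrable (fun z => 2 * f5 z) m := h5.const_mul 2
  refine ⟨g4.sub g5, ?_⟩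
  rw [integral_sub g4 g5, integral_add g3 h4, integral_add g2 h3, integral_add g1 h2,
    integral_const_mul, integral_const_mul]

lemma cost_z0 {s : ℝ≥0} (hs : s ≠ 0) (d : ℝ≥0) :
    Integrable (fun z : R4 × ℝ => nsq (z.1 - z0 s z)) ((m4 (s ^ 2) r3).prod (gs d)) ∧
    ∫ z, nsq (z.1 - z0 s z) ∂((m4 (s ^ 2) r3).prod (gs d)) = ((s:ℝ) - 1) ^ 2 + 1 / 2 + d := by
  have hs' : (s : ℝ) ≠ 0 := by exact_mod_cast hs
  have hM : ((m4 (s ^ 2) r3).prod (gs d)).map (fun z => z.1) = m4 (s ^ 2) r3 := map_fst' _ _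
  have hc := cw_r3 (s ^ 2)
  have l0 : ((m4 (s ^ 2) r3).prod (gs d)).map (fun z => z.1.1) = gs (s ^ 2) := by
    rw [← hc.c0]
    conv_rhs => rw [← hM]
    rw [Measure.map_map (by fun_prop) (by fun_prop)]; rfl
  have l2 : ((m4 (s ^ 2) r3).prod (gs d)).map (fun z => z.1.2.2.1) = gs qv := by
    rw [← hc.c2]
    conv_rhs => rw [← hM]
    rw [Measure.map_map (by fun_prop) (by fun_prop)]; rfl
  have l3 : ((m4 (s ^ 2) r3).prod (gs d)).map (fun z => z.1.2.2.2) = gs qv := by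
    rw [← hc.c3]
    conv_rhs => rw [← hM]
    rw [Measure.map_map (by fun_prop) (by fun_prop)]; rfl
  have lg : ((m4 (s ^ 2) r3).prod (gs d)).map (fun z => z.2) = gs d := map_snd' _ _
  obtain ⟨i0, j0⟩ := law_sq (by fun_prop) l0
  obtain ⟨i2, j2⟩ := law_sq (by fun_prop) l2
  obtain ⟨i3, j3⟩ := law_sq (by fun_prop) l3
  obtain ⟨ig, jg⟩ := law_sq (by fun_prop) lg
  have ix : Integrable (fun z : R4 × ℝ => z.1.2.2.2 * z.2) ((m4 (s ^ 2) r3).prod (gs d)) :=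
    (law_id (by fun_prop) hc.c3).1.mul_prod (gs_id_int d)
  have jx : ∫ z : R4 × ℝ, z.1.2.2.2 * z.2 ∂((m4 (s ^ 2) r3).prod (gs d)) = 0 := by
    rw [integral_prod_mul (fun p : R4 => p.2.2.2) (fun x : ℝ => x), gs_id, mul_zero]
  have e : (fun z : R4 × ℝ => nsq (z.1 - z0 s z)) = fun z =>
      (1 - (s:ℝ)⁻¹) ^ 2 * z.1.1 ^ 2 + z.1.2.2.1 ^ 2 + z.1.2.2.2 ^ 2 + z.2 ^ 2 -
        2 * (z.1.2.2.2 * z.2) := by
    ext z
    simp only [nsq, z0, Prod.fst_sub, Prod.snd_sub]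
    ring
  obtain ⟨I, J⟩ := int5 ((1 - (s:ℝ)⁻¹) ^ 2) i0 i2 i3 ig ix
  rw [e]
  refine ⟨I, ?_⟩
  rw [J, j0, j2, j3, jg, jx, qv_coe]
  push_cast
  field_simp
  ring

lemma cost_z1 {s : ℝ≥0} (hs : s ≠ 0) (d : ℝ≥0) :
    Integrable (fun z : R4 × ℝ => nsq (z.1 - z1 s z)) ((m4 (s ^ 2) r3).prod (gs d)) ∧
    ∫ z, nsq (z.1 - z1 s z) ∂((m4 (s ^ 2) r3).prod (gs d)) = ((s:ℝ) - 1) ^ 2 + 1 / 2 + d := by
  have hs' : (s : ℝ) ≠ 0 := by exact_mod_cast hs
  have hM : ((m4 (s ^ 2) r3).prod (gs d)).map (fun z => z.1) = m4 (s ^ 2) r3 := map_fst' _ _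
  have hc := cw_r3 (s ^ 2)
  have l0 : ((m4 (s ^ 2) r3).prod (gs d)).map (fun z => z.1.1) = gs (s ^ 2) := by
    rw [← hc.c0]
    conv_rhs => rw [← hM]
    rw [Measure.map_map (by fun_prop) (by fun_prop)]; rfl
  have l2 : ((m4 (s ^ 2) r3).prod (gs d)).map (fun z => z.1.2.2.1) = gs qv := by
    rw [← hc.c2]
    conv_rhs => rw [← hM]
    rw [Measure.map_map (by fun_prop) (by fun_prop)]; rfl
  have l3 : ((m4 (s ^ 2) r3).prod (gs d)).map (fun z => z.1.2.2.2) = gs qv := by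
    rw [← hc.c3]
    conv_rhs => rw [← hM]
    rw [Measure.map_map (by fun_prop) (by fun_prop)]; rfl
  have lg : ((m4 (s ^ 2) r3).prod (gs d)).map (fun z => z.2) = gs d := map_snd' _ _
  obtain ⟨i0, j0⟩ := law_sq (by fun_prop) l0
  obtain ⟨i2, j2⟩ := law_sq (by fun_prop) l2
  obtain ⟨i3, j3⟩ := law_sq (by fun_prop) l3
  obtain ⟨ig, jg⟩ := law_sq (by fun_prop) lg
  have ix : Integrable (fun z : R4 × ℝ => z.1.2.2.1 * z.2) ((m4 (s ^ 2) r3).prod (gs d)) :=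
    (law_id (by fun_prop) hc.c2).1.mul_prod (gs_id_int d)
  have jx : ∫ z : R4 × ℝ, z.1.2.2.1 * z.2 ∂((m4 (s ^ 2) r3).prod (gs d)) = 0 := by
    rw [integral_prod_mul (fun p : R4 => p.2.2.1) (fun x : ℝ => x), gs_id, mul_zero]
  have e : (fun z : R4 × ℝ => nsq (z.1 - z1 s z)) = fun z =>
      (1 - (s:ℝ)⁻¹) ^ 2 * z.1.1 ^ 2 + z.1.2.2.1 ^ 2 + z.1.2.2.2 ^ 2 + z.2 ^ 2 -
        2 * (z.1.2.2.1 * z.2) := by
    ext z
    simp only [nsq, z1, Prod.fst_sub, Prod.snd_sub]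
    ring
  obtain ⟨I, J⟩ := int5 ((1 - (s:ℝ)⁻¹) ^ 2) i0 i2 i3 ig ix
  rw [e]
  refine ⟨I, ?_⟩
  rw [J, j0, j2, j3, jg, jx, qv_coe]
  push_cast
  field_simp
  ring

lemma cost_z2 {s : ℝ≥0} (hs : s ≠ 0) :
    Integrable (fun z : R4 => nsq (z - z2 s z)) (m4 (s ^ 2) r3) ∧
    ∫ z, nsq (z - z2 s z) ∂(m4 (s ^ 2) r3) = (2 - (s:ℝ)) ^ 2 := by
  have hs' : (s : ℝ) ≠ 0 := by exact_mod_cast hs
  obtain ⟨i0, j0⟩ := law_sq (by fun_prop) (cw_r3 (s ^ 2)).c0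
  have e : (fun z : R4 => nsq (z - z2 s z)) = fun z => (1 - 2 * (s:ℝ)⁻¹) ^ 2 * z.1 ^ 2 := by
    ext z
    simp only [nsq, z2, Prod.fst_sub, Prod.snd_sub, sub_self, Prod.fst_zero, Prod.snd_zero]
    ring
  rw [e]
  refine ⟨i0.const_mul _, ?_⟩
  rw [integral_const_mul, j0]
  push_cast
  field_simp
  ring

end Pool.Agent.Q297.Bary
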