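import Pool.Agent.Q297.BarySplit

open MeasureTheory ProbabilityTheory Filter Topology
open scoped ENNReal NNReal

namespace Pool.Agent.Q297.Bary

lemma gs_scale {c : ℝ} {v w : ℝ≥0} (h : c ^ 2 * v = w) : (gs v).map (fun x => c * x) = gs w := by
  have h1 := gaussianReal_map_const_mul (μ := 0) (v := v) c
  rw [mul_zero] at h1
  rw [gs, h1, gs]
  congr 1
  apply NNReal.coe_injective
  rw [NNReal.coe_mul, ← h]
  rfl

lemma gs_sq_int (v : ℝ≥0) : Integrable (fun x : ℝ => x ^ 2) (gs v) :=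
  (memLp_id_gaussianReal 2).integrable_sq

lemma gs_sq (v : ℝ≥0) : ∫ x, x ^ 2 ∂gs v = v := by
  have h := variance_id_gaussianReal (μ := 0) (v := v)
  rw [variance_eq_sub (memLp_id_gaussianReal 2)] at h
  simpa using h

lemma gs_id (v : ℝ≥0) : ∫ x, x ∂gs v = 0 := by simp

lemma gs_id_int (v : ℝ≥0) : Integrable (fun x : ℝ => x) (gs v) :=
  (memLp_id_gaussianReal 1).integrable (by norm_num)

/-- coordinates of `m` have the Gaussian laws with variances `v0 v1 v2 v3` -/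
structure Cw (m : Measure R4) (v0 v1 v2 v3 : ℝ≥0) : Prop where
  c0 : m.map (fun p => p.1) = gs v0
  c1 : m.map (fun p => p.2.1) = gs v1
  c2 : m.map (fun p => p.2.2.1) = gs v2
  c3 : m.map (fun p => p.2.2.2) = gs v3

lemma map_fst' {α β : Type*} [MeasurableSpace α] [MeasurableSpace β] (μ : Measure α)
    (ν : Measure β) [IsProbabilityMeasure μ] [IsProbabilityMeasure ν] :
    (μ.prod ν).map (fun p => p.1) = μ := by
  have := Measure.map_fst_prod (μ := μ) (ν := ν)
  simpa using this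

lemma map_snd' {α β : Type*} [MeasurableSpace α] [MeasurableSpace β] (μ : Measure α)
    (ν : Measure β) [IsProbabilityMeasure μ] [IsProbabilityMeasure ν] :
    (μ.prod ν).map (fun p => p.2) = ν := by
  have := Measure.map_snd_prod (μ := μ) (ν := ν)
  simpa using this

lemma cw_gauss (v a b c : ℝ≥0) : Cw (m4 v (G3 a b c)) v a b c := by
  have hs : (m4 v (G3 a b c)).map (fun p => p.2) = G3 a b c := map_snd' _ _
  have hs2 : (G3 a b c).map (fun p => p.2) = (gs b).prod (gs c) := map_snd' _ _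
  refine ⟨map_fst' _ _, ?_, ?_, ?_⟩
  · have e : (fun p : R4 => p.2.1) = (fun q : ℝ × ℝ × ℝ => q.1) ∘ (fun p : R4 => p.2) := rfl
    rw [e, ← Measure.map_map (by fun_prop) (by fun_prop), hs]
    exact map_fst' _ _
  · have e : (fun p : R4 => p.2.2.1) = (fun q : ℝ × ℝ => q.1) ∘
      (fun q : ℝ × ℝ × ℝ => q.2) ∘ (fun p : R4 => p.2) := rfl
    rw [e, ← Measure.map_map (by fun_prop) (by fun_prop),
      ← Measure.map_map (by fun_prop) (by fun_prop), hs, hs2]
    exact map_fst' _ _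
  · have e : (fun p : R4 => p.2.2.2) = (fun q : ℝ × ℝ => q.2) ∘
      (fun q : ℝ × ℝ × ℝ => q.2) ∘ (fun p : R4 => p.2) := rfl
    rw [e, ← Measure.map_map (by fun_prop) (by fun_prop),
      ← Measure.map_map (by fun_prop) (by fun_prop), hs, hs2]
    exact map_snd' _ _

lemma cw_r3 (v : ℝ≥0) : Cw (m4 v r3) v 1 qv qv := by
  have hs : (m4 v r3).map (fun p => p.2) = r3 := map_snd' _ _
  refine ⟨map_fst' _ _, ?_, ?_, ?_⟩
  · have e : (fun p : R4 => p.2.1) = (fun q : ℝ × ℝ => q.1) ∘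
      (fun q : ℝ × ℝ × ℝ => (q.1, q.2.1)) ∘ (fun p : R4 => p.2) := rfl
    rw [e, ← Measure.map_map (by fun_prop) (by fun_prop),
      ← Measure.map_map (by fun_prop) (by fun_prop), hs, r3_marg1]
    exact map_fst' _ _
  · have e : (fun p : R4 => p.2.2.1) = (fun q : ℝ × ℝ => q.2) ∘
      (fun q : ℝ × ℝ × ℝ => (q.1, q.2.1)) ∘ (fun p : R4 => p.2) := rfl
    rw [e, ← Measure.map_map (by fun_prop) (by fun_prop),
      ← Measure.map_map (by fun_prop) (by fun_prop), hs, r3_marg1]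
    exact map_snd' _ _
  · have e : (fun p : R4 => p.2.2.2) = (fun q : ℝ × ℝ => q.2) ∘
      (fun q : ℝ × ℝ × ℝ => (q.1, q.2.2)) ∘ (fun p : R4 => p.2) := rfl
    rw [e, ← Measure.map_map (by fun_prop) (by fun_prop),
      ← Measure.map_map (by fun_prop) (by fun_prop), hs, r3_marg2]
    exact map_snd' _ _

lemma law_sq {α : Type*} [MeasurableSpace α] {m : Measure α} {f : α → ℝ} (hf : Measurable f)
    {v : ℝ≥0} (h : m.map f = gs v) : Integrable (fun p => f p ^ 2) m ∧ ∫ p, f p ^ 2 ∂m = v := by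
  constructor
  · have h1 : Integrable (fun x : ℝ => x ^ 2) (m.map f) := by rw [h]; exact gs_sq_int v
    exact h1.comp_measurable hf
  · have h1 : ∫ x, x ^ 2 ∂(m.map f) = ∫ p, f p ^ 2 ∂m :=
      integral_map hf.aemeasurable (by fun_prop)
    rw [← h1, h, gs_sq]

lemma law_id {α : Type*} [MeasurableSpace α] {m : Measure α} {f : α → ℝ} (hf : Measurable f)
    {v : ℝ≥0} (h : m.map f = gs v) : Integrable f m ∧ ∫ p, f p ∂m = 0 := by
  constructor
  · have h1 : Integrable (fun x : ℝ => x) (m.map f) := by rw [h]; exact gs_id_int v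
    exact h1.comp_measurable hf
  · have h1 : ∫ x, x ∂(m.map f) = ∫ p, f p ∂m :=
      integral_map hf.aemeasurable (by fun_prop)
    rw [← h1, h, gs_id]

/-- the transport to the first thin Gaussian -/
noncomputable def z0 (s : ℝ) (z : R4 × ℝ) : R4 := (s⁻¹ * z.1.1, z.1.2.1, 2 * z.1.2.2.1, z.2)
/-- the transport to the second thin Gaussian -/
noncomputable def z1 (s : ℝ) (z : R4 × ℝ) : R4 := (s⁻¹ * z.1.1, z.1.2.1, z.2, 2 * z.1.2.2.2)
/-- the transport to the third measure -/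
noncomputable def z2 (s : ℝ) (z : R4) : R4 := (2 * s⁻¹ * z.1, z.2)

lemma z0_meas (s : ℝ) : Measurable (z0 s) := by unfold z0; fun_prop
lemma z1_meas (s : ℝ) : Measurable (z1 s) := by unfold z1; fun_prop
lemma z2_meas (s : ℝ) : Measurable (z2 s) := by unfold z2; fun_prop

lemma prodAssoc_map {α β γ : Type*} [MeasurableSpace α] [MeasurableSpace β] [MeasurableSpace γ]
    (μ : Measure α) (ν : Measure β) (τ : Measure γ) [IsProbabilityMeasure μ]
    [IsProbabilityMeasure ν] [IsProbabilityMeasure τ] :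
    ((μ.prod ν).prod τ).map (fun z => (z.1.1, z.1.2, z.2)) = μ.prod (ν.prod τ) :=
  Measure.prodAssoc_prod (μ := μ) (ν := ν) (τ := τ)

lemma pm {α β γ δ : Type*} [MeasurableSpace α] [MeasurableSpace β] [MeasurableSpace γ]
    [MeasurableSpace δ] (μ : Measure α) (ν : Measure β) [IsProbabilityMeasure μ]
    [IsProbabilityMeasure ν] {f : α → γ} {g : β → δ} (hf : Measurable f) (hg : Measurable g)
    {μ' : Measure γ} {ν' : Measure δ} (h1 : μ.map f = μ') (h2 : ν.map g = ν') :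
    (μ.prod ν).map (fun z => (f z.1, g z.2)) = μ'.prod ν' := by
  rw [← h1, ← h2, Measure.map_prod_map _ _ hf hg]
  rfl

lemma qv_scale : (2:ℝ) ^ 2 * (qv : ℝ≥0) = (1 : ℝ≥0) := by rw [qv_coe]; norm_num

theorem law_z0 {s : ℝ≥0} (hs : s ≠ 0) (d : ℝ≥0) :
    ((m4 (s ^ 2) r3).prod (gs d)).map (z0 s) = m4 1 (G3 1 1 d) := by
  have hs' : (s : ℝ) ≠ 0 := by exact_mod_cast hs
  have a1 : ((m4 (s ^ 2) r3).prod (gs d)).map (fun z => (z.1.1, z.1.2, z.2)) =
      (gs (s ^ 2)).prod (r3.prod (gs d)) := prodAssoc_map _ _ _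
  have a2 : ((gs (s ^ 2)).prod (r3.prod (gs d))).map
      (fun z => ((s:ℝ)⁻¹ * z.1, ((z.2.1.1, z.2.1.2.1), z.2.2))) =
      (gs 1).prod (((gs 1).prod (gs qv)).prod (gs d)) := by
    refine pm (gs (s ^ 2)) (r3.prod (gs d)) (f := fun y => (s:ℝ)⁻¹ * y)
      (g := fun w : (ℝ × ℝ × ℝ) × ℝ => ((w.1.1, w.1.2.1), w.2)) (by fun_prop) (by fun_prop)
      (gs_scale ?_) ?_
    · push_cast; field_simp
    · exact pm r3 (gs d) (f := fun q : ℝ × ℝ × ℝ => (q.1, q.2.1)) (g := fun x => x)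
        (by fun_prop) (by fun_prop) r3_marg1 Measure.map_id
  have a3 : ((gs 1).prod (((gs 1).prod (gs qv)).prod (gs d))).map
      (fun z => (z.1, (z.2.1.1, z.2.1.2, z.2.2))) =
      (gs 1).prod ((gs 1).prod ((gs qv).prod (gs d))) :=
    pm (gs 1) (((gs 1).prod (gs qv)).prod (gs d)) (f := fun y => y)
      (g := fun w : (ℝ × ℝ) × ℝ => (w.1.1, w.1.2, w.2)) (by fun_prop) (by fun_prop)
      Measure.map_id (prodAssoc_map _ _ _)
  have a4 : ((gs 1).prod ((gs 1).prod ((gs qv).prod (gs d)))).map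
      (fun z => (z.1, (z.2.1, (2 * z.2.2.1, z.2.2.2)))) =
      (gs 1).prod ((gs 1).prod ((gs 1).prod (gs d))) := by
    refine pm (gs 1) ((gs 1).prod ((gs qv).prod (gs d))) (f := fun y => y)
      (g := fun w : ℝ × ℝ × ℝ => (w.1, (2 * w.2.1, w.2.2))) (by fun_prop) (by fun_prop)
      Measure.map_id ?_
    refine pm (gs 1) ((gs qv).prod (gs d)) (f := fun y => y)
      (g := fun w : ℝ × ℝ => (2 * w.1, w.2)) (by fun_prop) (by fun_prop)
      Measure.map_id ?_
    exact pm (gs qv) (gs d) (f := fun y => 2 * y) (g := fun y => y) (by fun_prop) (by fun_prop)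
      (gs_scale qv_scale) Measure.map_id
  show _ = (gs 1).prod ((gs 1).prod ((gs 1).prod (gs d)))
  rw [← a4, ← a3, ← a2, ← a1, Measure.map_map (by fun_prop) (by fun_prop),
    Measure.map_map (by fun_prop) (by fun_prop), Measure.map_map (by fun_prop) (by fun_prop)]
  rfl

theorem law_z1 {s : ℝ≥0} (hs : s ≠ 0) (d : ℝ≥0) :
    ((m4 (s ^ 2) r3).prod (gs d)).map (z1 s) = m4 1 (G3 1 d 1) := by
  have hs' : (s : ℝ) ≠ 0 := by exact_mod_cast hs
  have a1 : ((m4 (s ^ 2) r3).prod (gs d)).map (fun z => (z.1.1, z.1.2, z.2)) =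
      (gs (s ^ 2)).prod (r3.prod (gs d)) := prodAssoc_map _ _ _
  have a2 : ((gs (s ^ 2)).prod (r3.prod (gs d))).map
      (fun z => ((s:ℝ)⁻¹ * z.1, ((z.2.1.1, z.2.1.2.2), z.2.2))) =
      (gs 1).prod (((gs 1).prod (gs qv)).prod (gs d)) := by
    refine pm (gs (s ^ 2)) (r3.prod (gs d)) (f := fun y => (s:ℝ)⁻¹ * y)
      (g := fun w : (ℝ × ℝ × ℝ) × ℝ => ((w.1.1, w.1.2.2), w.2)) (by fun_prop) (by fun_prop)
      (gs_scale ?_) ?_
    · push_cast; field_simp
    · exact pm r3 (gs d) (f := fun q : ℝ × ℝ × ℝ => (q.1, q.2.2)) (g := fun x => x)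
        (by fun_prop) (by fun_prop) r3_marg2 Measure.map_id
  have a3 : ((gs 1).prod (((gs 1).prod (gs qv)).prod (gs d))).map
      (fun z => (z.1, (z.2.1.1, z.2.1.2, z.2.2))) =
      (gs 1).prod ((gs 1).prod ((gs qv).prod (gs d))) :=
    pm (gs 1) (((gs 1).prod (gs qv)).prod (gs d)) (f := fun y => y)
      (g := fun w : (ℝ × ℝ) × ℝ => (w.1.1, w.1.2, w.2)) (by fun_prop) (by fun_prop)
      Measure.map_id (prodAssoc_map _ _ _)
  have a4 : ((gs 1).prod ((gs 1).prod ((gs qv).prod (gs d)))).map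
      (fun z => (z.1, (z.2.1, (z.2.2.2, 2 * z.2.2.1)))) =
      (gs 1).prod ((gs 1).prod ((gs d).prod (gs 1))) := by
    refine pm (gs 1) ((gs 1).prod ((gs qv).prod (gs d))) (f := fun y => y)
      (g := fun w : ℝ × ℝ × ℝ => (w.1, (w.2.2, 2 * w.2.1))) (by fun_prop) (by fun_prop)
      Measure.map_id ?_
    refine pm (gs 1) ((gs qv).prod (gs d)) (f := fun y => y)
      (g := fun w : ℝ × ℝ => (w.2, 2 * w.1)) (by fun_prop) (by fun_prop)
      Measure.map_id ?_
    have b1 : ((gs qv).prod (gs d)).map (fun w : ℝ × ℝ => (2 * w.1, w.2)) =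
        (gs 1).prod (gs d) :=
      pm (gs qv) (gs d) (f := fun y => 2 * y) (g := fun y => y) (by fun_prop) (by fun_prop)
        (gs_scale qv_scale) Measure.map_id
    rw [← Measure.prod_swap (μ := gs 1) (ν := gs d), ← b1,
      Measure.map_map measurable_swap (by fun_prop)]
    rfl
  show _ = (gs 1).prod ((gs 1).prod ((gs d).prod (gs 1)))
  rw [← a4, ← a3, ← a2, ← a1, Measure.map_map (by fun_prop) (by fun_prop),
    Measure.map_map (by fun_prop) (by fun_prop), Measure.map_map (by fun_prop) (by fun_prop)]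
  rfl

theorem law_z2 {s : ℝ≥0} (hs : s ≠ 0) : (m4 (s ^ 2) r3).map (z2 s) = m4 4 r3 := by
  have hs' : (s : ℝ) ≠ 0 := by exact_mod_cast hs
  refine pm (gs (s ^ 2)) r3 (f := fun y => 2 * (s:ℝ)⁻¹ * y) (g := fun y => y) (by fun_prop)
    (by fun_prop) (gs_scale ?_) Measure.map_id
  push_cast
  field_simp
  norm_num

end Pool.Agent.Q297.Bary
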