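import Pool.Agent.Q297.BaryTest

open MeasureTheory ProbabilityTheory Filter Topology
open scoped ENNReal NNReal ContDiff

namespace Pool.Agent.Q297.Bary

noncomputable def chi : ContDiffBump (0 : E4) := ⟨1, 2, one_pos, one_lt_two⟩

noncomputable def ff (eta : ℝ) (n : ℕ) (y : E4) : ℝ := chi (((n:ℝ) + 1)⁻¹ • y) * gg eta y

lemma chi_smooth : ContDiff ℝ ∞ (chi : E4 → ℝ) := chi.contDiff

lemma ff_smooth (eta : ℝ) (n : ℕ) : ContDiff ℝ ∞ (ff eta n) := by
  unfold ff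
  exact (chi_smooth.comp (contDiff_const_smul _)).mul (gg_smooth eta)

lemma ff_supp (eta : ℝ) (n : ℕ) : HasCompactSupport (ff eta n) := by
  apply HasCompactSupport.of_support_subset_isCompact (isCompact_closedBall (0 : E4) (2 * (n + 1)))
  intro y hy
  have h1 : chi (((n:ℝ) + 1)⁻¹ • y) ≠ 0 := by
    intro h0
    apply hy
    unfold ff
    rw [h0, zero_mul]
  have h2 : ((n:ℝ) + 1)⁻¹ • y ∈ Function.support (chi : E4 → ℝ) := h1
  rw [chi.support_eq] at h2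
  rw [mem_ball_zero_iff, norm_smul, norm_inv, Real.norm_of_nonneg (by positivity)] at h2
  have h3 : ((n:ℝ) + 1)⁻¹ * ‖y‖ < 2 := h2
  rw [inv_mul_lt_iff₀ (by positivity)] at h3
  rw [mem_closedBall_zero_iff]
  linarith

lemma ff_abs (eta : ℝ) (n : ℕ) (y : E4) : |ff eta n y| ≤ |gg eta y| := by
  unfold ff
  rw [abs_mul, abs_of_nonneg chi.nonneg]
  exact mul_le_of_le_one_left (abs_nonneg _) chi.le_one

lemma ff_eventually (eta : ℝ) (y : E4) : ∀ᶠ n : ℕ in atTop, ff eta n =ᶠ[𝓝 y] gg eta := by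
  obtain ⟨n0, hn0⟩ := exists_nat_ge (‖y‖)
  filter_upwards [eventually_ge_atTop n0] with n hn
  have hn1 : ‖y‖ < (n:ℝ) + 1 := by
    have : (n0:ℝ) ≤ n := by exact_mod_cast hn
    linarith
  have hop : IsOpen {x : E4 | ‖x‖ < (n:ℝ) + 1} := isOpen_lt continuous_norm continuous_const
  filter_upwards [hop.mem_nhds hn1] with x hx
  have hx' : ‖x‖ < (n:ℝ) + 1 := hx
  unfold ff
  rw [chi.one_of_mem_closedBall, one_mul]
  rw [mem_closedBall_zero_iff, norm_smul, norm_inv, Real.norm_of_nonneg (by positivity)]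
  show ((n:ℝ) + 1)⁻¹ * ‖x‖ ≤ 1
  rw [inv_mul_le_iff₀ (by positivity)]
  linarith

lemma chi_bound : ∃ K : ℝ, 0 ≤ K ∧ ∀ x : E4, ‖fderiv ℝ (chi : E4 → ℝ) x‖ ≤ K := by
  have hc : Continuous (fderiv ℝ (chi : E4 → ℝ)) :=
    chi_smooth.continuous_fderiv (by simp)
  obtain ⟨K, hK⟩ := (chi.hasCompactSupport.fderiv (𝕜 := ℝ)).exists_bound_of_continuous hc
  exact ⟨K, (norm_nonneg _).trans (hK 0), hK⟩

lemma ff_fderiv {K : ℝ} (hK : ∀ x : E4, ‖fderiv ℝ (chi : E4 → ℝ) x‖ ≤ K) (eta : ℝ) (n : ℕ)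
    (y : E4) : ‖fderiv ℝ (ff eta n) y‖ ≤ ‖fderiv ℝ (gg eta) y‖ + K * |gg eta y| := by
  have hn : (0:ℝ) < ((n:ℝ) + 1)⁻¹ := by positivity
  have hn1 : ((n:ℝ) + 1)⁻¹ ≤ 1 := inv_le_one_of_one_le₀ (by linarith [(Nat.cast_nonneg n : (0:ℝ) ≤ n)])
  have d1 : HasFDerivAt (fun y : E4 => chi (((n:ℝ) + 1)⁻¹ • y))
      ((fderiv ℝ (chi : E4 → ℝ) (((n:ℝ) + 1)⁻¹ • y)).comp
        (((n:ℝ) + 1)⁻¹ • ContinuousLinearMap.id ℝ E4)) y := by
    have h1 : HasFDerivAt (chi : E4 → ℝ) (fderiv ℝ (chi : E4 → ℝ) (((n:ℝ) + 1)⁻¹ • y))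
        (((n:ℝ) + 1)⁻¹ • y) :=
      (chi_smooth.differentiable (by simp)).differentiableAt.hasFDerivAt
    have h2 : HasFDerivAt (fun y : E4 => ((n:ℝ) + 1)⁻¹ • y)
        (((n:ℝ) + 1)⁻¹ • ContinuousLinearMap.id ℝ E4) y :=
      (((n:ℝ) + 1)⁻¹ • ContinuousLinearMap.id ℝ E4).hasFDerivAt
    exact h1.comp y h2
  have d2 : HasFDerivAt (gg eta) (fderiv ℝ (gg eta) y) y :=
    ((gg_smooth eta).differentiable (by simp)).differentiableAt.hasFDerivAt
  have d3 := d1.mul d2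
  have d4 : HasFDerivAt (ff eta n) _ y := d3
  rw [d4.fderiv]
  refine (norm_add_le _ _).trans (add_le_add ?_ ?_)
  · rw [norm_smul, Real.norm_eq_abs, abs_of_nonneg chi.nonneg]
    exact mul_le_of_le_one_left (norm_nonneg _) chi.le_one
  · rw [norm_smul, Real.norm_eq_abs, mul_comm]
    apply mul_le_mul_of_nonneg_right _ (abs_nonneg _)
    refine (ContinuousLinearMap.opNorm_comp_le _ _).trans ?_
    have h5 : ‖((n:ℝ) + 1)⁻¹ • ContinuousLinearMap.id ℝ E4‖ ≤ 1 := by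
      rw [norm_smul, Real.norm_of_nonneg hn.le]
      exact mul_le_one₀ hn1 (norm_nonneg _) ContinuousLinearMap.norm_id_le
    calc _ ≤ K * 1 := mul_le_mul (hK _) h5 (norm_nonneg _) ((norm_nonneg _).trans (hK 0))
      _ = K := mul_one K

theorem exists_test (t : ℝ≥0) (eta : ℝ) {s2 : ℝ} (hs : 0 ≤ s2)
    (h : s2 * (1 + 2 * eta ^ 2) < 1 + 2 * eta * qq) :
    ∃ f : E4 → ℝ, ContDiff ℝ ∞ f ∧ HasCompactSupport f ∧
      s2 * ∫ x, ‖fderiv ℝ f x‖ ^ 2 ∂(nn t) < ∫ x, f x ^ 2 ∂(nn t) - (∫ x, f x ∂(nn t)) ^ 2 := by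
  obtain ⟨K, hK0, hK⟩ := chi_bound
  obtain ⟨gi, gz⟩ := gg_int t eta
  have L1 : Tendsto (fun n => ∫ x, ff eta n x ∂(nn t)) atTop (𝓝 (∫ x, gg eta x ∂(nn t))) := by
    refine tendsto_integral_of_dominated_convergence (fun x => |gg eta x|)
      (fun n => (ff_smooth eta n).continuous.aestronglyMeasurable) gi.abs
      (fun n => Filter.Eventually.of_forall fun x => ?_) (Filter.Eventually.of_forall fun x => ?_)
    · rw [Real.norm_eq_abs]; exact ff_abs eta n x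
    · refine tendsto_const_nhds.congr' ?_
      filter_upwards [ff_eventually eta x] with n hn
      exact hn.self_of_nhds.symm
  have L2 : Tendsto (fun n => ∫ x, ff eta n x ^ 2 ∂(nn t)) atTop
      (𝓝 (∫ x, gg eta x ^ 2 ∂(nn t))) := by
    refine tendsto_integral_of_dominated_convergence (fun x => gg eta x ^ 2)
      (fun n => ((ff_smooth eta n).continuous.pow 2).aestronglyMeasurable) (gg_sq_int t eta)
      (fun n => Filter.Eventually.of_forall fun x => ?_) (Filter.Eventually.of_forall fun x => ?_)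
    · rw [Real.norm_eq_abs, abs_of_nonneg (sq_nonneg _), ← sq_abs (ff eta n x),
        ← sq_abs (gg eta x)]
      exact pow_le_pow_left₀ (abs_nonneg _) (ff_abs eta n x) 2
    · refine tendsto_const_nhds.congr' ?_
      filter_upwards [ff_eventually eta x] with n hn
      rw [hn.self_of_nhds]
  have hgc : Continuous (fderiv ℝ (gg eta)) := (gg_smooth eta).continuous_fderiv (by simp)
  have L3 : Tendsto (fun n => ∫ x, ‖fderiv ℝ (ff eta n) x‖ ^ 2 ∂(nn t)) atTop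
      (𝓝 (∫ x, ‖fderiv ℝ (gg eta) x‖ ^ 2 ∂(nn t))) := by
    refine tendsto_integral_of_dominated_convergence
      (fun x => 2 * (1 + 2 * eta ^ 2) + 2 * K ^ 2 * gg eta x ^ 2)
      (fun n => (((ff_smooth eta n).continuous_fderiv (by simp)).norm.pow 2).aestronglyMeasurable)
      ((integrable_const _).add ((gg_sq_int t eta).const_mul _))
      (fun n => Filter.Eventually.of_forall fun x => ?_) (Filter.Eventually.of_forall fun x => ?_)
    · rw [Real.norm_eq_abs, abs_of_nonneg (sq_nonneg _)]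
      have h1 := ff_fderiv hK eta n x
      have h2 := gg_fderiv_norm eta x
      have h3 : ‖fderiv ℝ (ff eta n) x‖ ^ 2 ≤ (‖fderiv ℝ (gg eta) x‖ + K * |gg eta x|) ^ 2 :=
        pow_le_pow_left₀ (norm_nonneg _) h1 2
      have h4 : (‖fderiv ℝ (gg eta) x‖ + K * |gg eta x|) ^ 2 ≤
          2 * ‖fderiv ℝ (gg eta) x‖ ^ 2 + 2 * (K * |gg eta x|) ^ 2 := by
        nlinarith [sq_nonneg (‖fderiv ℝ (gg eta) x‖ - K * |gg eta x|)]
      rw [mul_pow, sq_abs] at h4
      linarith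
    · refine tendsto_const_nhds.congr' ?_
      filter_upwards [ff_eventually eta x] with n hn
      rw [hn.fderiv_eq]
  have hG : ∫ x, ‖fderiv ℝ (gg eta) x‖ ^ 2 ∂(nn t) ≤ 1 + 2 * eta ^ 2 := by
    have h1 : Integrable (fun x => ‖fderiv ℝ (gg eta) x‖ ^ 2) (nn t) :=
      Integrable.of_bound (hgc.norm.pow 2).aestronglyMeasurable (1 + 2 * eta ^ 2)
        (Filter.Eventually.of_forall fun x => by
          rw [Real.norm_eq_abs, abs_of_nonneg (sq_nonneg _)]; exact gg_fderiv_norm eta x)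
    have h2 := integral_mono h1 (integrable_const (1 + 2 * eta ^ 2)) (gg_fderiv_norm eta)
    simpa using h2
  have hlim : s2 * ∫ x, ‖fderiv ℝ (gg eta) x‖ ^ 2 ∂(nn t) <
      ∫ x, gg eta x ^ 2 ∂(nn t) - (∫ x, gg eta x ∂(nn t)) ^ 2 := by
    rw [gz]
    have h1 := gg_sq_low t eta
    have h2 := mul_le_mul_of_nonneg_left hG hs
    simp only [ne_eq, OfNat.ofNat_ne_zero, not_false_eq_true, zero_pow, sub_zero]
    linarith
  have L4 := L2.sub (L1.pow 2)
  have L5 := L3.const_mul s2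
  obtain ⟨n, hn⟩ := (L5.eventually_lt L4 hlim).exists
  exact ⟨ff eta n, ff_smooth eta n, ff_supp eta n, hn⟩

end Pool.Agent.Q297.Bary
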