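import Mathlib

/-!
Definitions for MP_7c2736: Poincare constant of Wasserstein barycenters of strongly log-concave
measures.
-/

open MeasureTheory ProbabilityTheory
open scoped ENNReal NNReal ContDiff

namespace Pool.Agent.Q297.Bary

/-- The squared quadratic Wasserstein distance (infimum of the quadratic cost over couplings). -/
noncomputable def W2sq {X : Type*} [NormedAddCommGroup X] [MeasurableSpace X]
    (rho mu : Measure X) : ℝ≥0∞ :=
  ⨅ (p : Measure (X × X)) (_ : p.map Prod.fst = rho ∧ p.map Prod.snd = mu),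
    ∫⁻ z, ‖z.1 - z.2‖ₑ ^ 2 ∂p

/-- `rho` is a barycenter: a probability measure minimizing `nu ↦ ∑ lam i * W2sq nu (mu i)`. -/
def IsBary {X : Type*} [NormedAddCommGroup X] [MeasurableSpace X] {N : ℕ}
    (lam : Fin N → ℝ) (mu : Fin N → Measure X) (rho : Measure X) : Prop :=
  IsProbabilityMeasure rho ∧ ∀ nu : Measure X, IsProbabilityMeasure nu →
    ∑ i, ENNReal.ofReal (lam i) * W2sq rho (mu i) ≤
      ∑ i, ENNReal.ofReal (lam i) * W2sq nu (mu i)

/-- `V - kappa |x|² / 2` is convex, for `V` with values in `(-∞, +∞]`. -/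
def SConv {X : Type*} [NormedAddCommGroup X] [NormedSpace ℝ X] (kappa : ℝ) (V : X → EReal) :
    Prop :=
  ∀ (x y : X) (a b : ℝ), 0 ≤ a → 0 ≤ b → a + b = 1 →
    V (a • x + b • y) - ((kappa / 2 * ‖a • x + b • y‖ ^ 2 : ℝ) : EReal) ≤
      (a : EReal) * (V x - ((kappa / 2 * ‖x‖ ^ 2 : ℝ) : EReal)) +
        (b : EReal) * (V y - ((kappa / 2 * ‖y‖ ^ 2 : ℝ) : EReal))

/-- `mu` is `kappa`-strongly log-concave: `dmu = Z⁻¹ e^{-V} dx` with `V : ℝⁿ → (-∞, +∞]` proper,
lower semicontinuous, `0 < Z < ∞`, and `V - kappa |x|² / 2` convex. -/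
def SLC {X : Type*} [NormedAddCommGroup X] [NormedSpace ℝ X] [MeasureSpace X] (kappa : ℝ)
    (mu : Measure X) : Prop :=
  ∃ V : X → EReal,
    (∀ x, V x ≠ ⊥) ∧ (∃ x, V x ≠ ⊤) ∧ LowerSemicontinuous V ∧ SConv kappa V ∧
    (∫⁻ x, EReal.exp (-V x)) ≠ 0 ∧ (∫⁻ x, EReal.exp (-V x)) ≠ ⊤ ∧
    mu = (∫⁻ x, EReal.exp (-V x))⁻¹ • volume.withDensity (fun x => EReal.exp (-V x))

/-- The squared norm of the gradient. -/
noncomputable def gradSq {X : Type*} [NormedAddCommGroup X] [NormedSpace ℝ X] (f : X → ℝ)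
    (x : X) : ℝ≥0∞ := ‖fderiv ℝ f x‖ₑ ^ 2

/-- The Poincare constant: the least `C ∈ [0, ∞]` with `Var_mu f ≤ C ∫ |∇ f|² dmu` for all smooth
compactly supported `f`. -/
noncomputable def CP {X : Type*} [NormedAddCommGroup X] [NormedSpace ℝ X] [MeasurableSpace X]
    (mu : Measure X) : ℝ≥0∞ :=
  sInf {C : ℝ≥0∞ | ∀ f : X → ℝ, ContDiff ℝ ∞ f → HasCompactSupport f →
    ENNReal.ofReal (variance f mu) ≤ C * ∫⁻ x, gradSq f x ∂mu}

/-- `mu` splits off a curvature-saturating Gaussian factor in the direction `e`: under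
`ℝⁿ = ℝ e ⊕ eᗮ` the measure is `N(⟨e, m⟩, 1 / kappa) ⊗ nu` with `nu` a probability measure
carried by `eᗮ`, where `m` is the mean of `mu`. -/
def Splits {X : Type*} [NormedAddCommGroup X] [InnerProductSpace ℝ X] [MeasurableSpace X]
    (kappa : ℝ) (e : X) (mu : Measure X) : Prop :=
  ∃ nu : Measure X, IsProbabilityMeasure nu ∧ (∀ᵐ y ∂nu, inner ℝ e y = 0) ∧
    mu = ((gaussianReal (inner ℝ e (∫ x, x ∂mu)) (Real.toNNReal kappa⁻¹)).prod nu).map
      (fun p => p.1 • e + p.2)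

/-- The data of the problem: positive weights with sum one, `kappa i > 0`, `kappa i`-strongly
log-concave `mu i`, and a barycenter `rho`. -/
structure Data {n N : ℕ} (lam kappa : Fin N → ℝ)
    (mu : Fin N → Measure (EuclideanSpace ℝ (Fin n)))
    (rho : Measure (EuclideanSpace ℝ (Fin n))) : Prop where
  hn : 1 ≤ n
  hN : 1 ≤ N
  lam_pos : ∀ i, 0 < lam i
  lam_sum : ∑ i, lam i = 1
  kappa_pos : ∀ i, 0 < kappa i
  slc : ∀ i, SLC (kappa i) (mu i)
  bary : IsBary lam mu rho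

/-- Q1: `√(C_P(rho)) ≤ ∑ lam i / √(kappa i)` for all data. -/
def Q1 : Prop :=
  ∀ (n N : ℕ) (lam kappa : Fin N → ℝ) (mu : Fin N → Measure (EuclideanSpace ℝ (Fin n)))
    (rho : Measure (EuclideanSpace ℝ (Fin n))), Data lam kappa mu rho →
    (CP rho) ^ (1 / 2 : ℝ) ≤ ENNReal.ofReal (∑ i, lam i / √(kappa i))

/-- Q2: equality holds iff all `mu i` split off curvature-saturating Gaussian factors in one
common direction. -/
def Q2 : Prop :=
  ∀ (n N : ℕ) (lam kappa : Fin N → ℝ) (mu : Fin N → Measure (EuclideanSpace ℝ (Fin n)))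
    (rho : Measure (EuclideanSpace ℝ (Fin n))), Data lam kappa mu rho →
    ((CP rho) ^ (1 / 2 : ℝ) = ENNReal.ofReal (∑ i, lam i / √(kappa i)) ↔
      ∃ e : EuclideanSpace ℝ (Fin n), ‖e‖ = 1 ∧ ∀ i, Splits (kappa i) e (mu i))

/-- A common refutation of Q1 and of the implication from splitting to equality in Q2. -/
def Counter (n N : ℕ) : Prop :=
  ∃ (lam kappa : Fin N → ℝ) (mu : Fin N → Measure (EuclideanSpace ℝ (Fin n)))
    (rho : Measure (EuclideanSpace ℝ (Fin n))) (e : EuclideanSpace ℝ (Fin n)),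
    Data lam kappa mu rho ∧ ‖e‖ = 1 ∧ (∀ i, Splits (kappa i) e (mu i)) ∧
      ENNReal.ofReal (∑ i, lam i / √(kappa i)) < (CP rho) ^ (1 / 2 : ℝ)

end Pool.Agent.Q297.Bary
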