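import Pool.Agent.Q297.BaryDefs

open MeasureTheory ProbabilityTheory Filter Topology BoundedContinuousFunction
open scoped ENNReal NNReal

namespace Pool.Agent.Q297.Bary

/-- The integral of a continuous `[0, ∞)`-valued function is lower semicontinuous in the
probability measure. -/
lemma lsc_lint {Y : Type*} [TopologicalSpace Y] [MeasurableSpace Y] [OpensMeasurableSpace Y]
    (c : Y → ℝ≥0) (hc : Continuous c) :
    LowerSemicontinuous fun p : ProbabilityMeasure Y => ∫⁻ y, (c y : ℝ≥0∞) ∂(p : Measure Y) := by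
  have h1 : ∀ p : ProbabilityMeasure Y, ∫⁻ y, (c y : ℝ≥0∞) ∂(p : Measure Y) =
      ⨆ k : ℕ, ∫⁻ y, ((min (c y) (k : ℝ≥0) : ℝ≥0) : ℝ≥0∞) ∂(p : Measure Y) := by
    intro p
    rw [← lintegral_iSup]
    · congr 1
      ext y
      apply le_antisymm
      · obtain ⟨k, hk⟩ := exists_nat_ge (c y)
        refine le_iSup_of_le k ?_
        rw [min_eq_left hk]
      · refine iSup_le fun k => ?_
        exact_mod_cast min_le_left _ _
    · intro k
      exact (hc.min continuous_const).measurable.coe_nnreal_ennreal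
    · intro i j hij y
      have : (i : ℝ≥0) ≤ (j : ℝ≥0) := by exact_mod_cast hij
      have h2 : min (c y) (i : ℝ≥0) ≤ min (c y) (j : ℝ≥0) := min_le_min le_rfl this
      exact ENNReal.coe_le_coe.2 h2
  simp_rw [h1]
  apply lowerSemicontinuous_iSup
  intro k
  apply Continuous.lowerSemicontinuous
  let f : Y →ᵇ ℝ≥0 := BoundedContinuousFunction.mkOfBound
    ⟨fun y => min (c y) (k : ℝ≥0), hc.min continuous_const⟩ k (fun x y => by
      rw [NNReal.dist_eq]
      have h1 : ((min (c x) (k : ℝ≥0) : ℝ≥0) : ℝ) ≤ k := by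
        exact_mod_cast (min_le_right (c x) (k : ℝ≥0))
      have h2 : ((min (c y) (k : ℝ≥0) : ℝ≥0) : ℝ) ≤ k := by
        exact_mod_cast (min_le_right (c y) (k : ℝ≥0))
      have h3 : 0 ≤ ((min (c x) (k : ℝ≥0) : ℝ≥0) : ℝ) := NNReal.coe_nonneg _
      have h4 : 0 ≤ ((min (c y) (k : ℝ≥0) : ℝ≥0) : ℝ) := NNReal.coe_nonneg _
      show |((min (c x) (k : ℝ≥0) : ℝ≥0) : ℝ) - ((min (c y) (k : ℝ≥0) : ℝ≥0) : ℝ)| ≤ k
      rw [abs_le]; constructor <;> linarith)
  exact ProbabilityMeasure.continuous_lintegral_boundedContinuousFunction f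

section
variable {X : Type*} [NormedAddCommGroup X] [ProperSpace X] [SecondCountableTopology X]
  [MeasurableSpace X] [BorelSpace X]

/-- the quadratic cost of a coupling -/
noncomputable def cst (p : Measure (X × X)) : ℝ≥0∞ := ∫⁻ z, ‖z.1 - z.2‖ₑ ^ 2 ∂p

lemma tight_aux (mu : Measure X) [IsProbabilityMeasure mu] (M : ℝ≥0∞) (hM : M ≠ ⊤)
    (T : Set (Measure (X × X)))
    (hT : ∀ p ∈ T, p.map Prod.snd = mu ∧ cst p ≤ M) : IsTightMeasureSet T := by
  apply IsTightMeasureSet.prodMk
  · apply isTightMeasureSet_of_tendsto_measure_norm_gt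
    have h1 : Tendsto (fun r : ℝ => mu {x | r < ‖x‖}) atTop (𝓝 0) := by
      have h := tendsto_measure_norm_gt_of_isTightMeasureSet
        (isTightMeasureSet_singleton (μ := mu))
      simpa using h
    have h2 : Tendsto (fun r : ℝ => mu {x | r / 2 < ‖x‖}) atTop (𝓝 0) :=
      h1.comp (tendsto_id.atTop_div_const (by norm_num))
    have h3 : Tendsto (fun r : ℝ => M / (ENNReal.ofReal ((r / 2) ^ 2))) atTop (𝓝 0) := by
      have : Tendsto (fun r : ℝ => ENNReal.ofReal ((r / 2) ^ 2)) atTop (𝓝 ⊤) := by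
        apply ENNReal.tendsto_ofReal_atTop.comp
        exact (tendsto_pow_atTop (by norm_num)).comp (tendsto_id.atTop_div_const (by norm_num))
      have h4 := ENNReal.Tendsto.const_div this (Or.inr hM)
      simpa using h4
    have h5 := h2.add h3
    rw [add_zero] at h5
    refine tendsto_of_tendsto_of_tendsto_of_le_of_le' tendsto_const_nhds h5
      (Eventually.of_forall fun r => zero_le) ?_
    filter_upwards [eventually_gt_atTop 0] with r hr
    refine iSup₂_le fun nu hnu => ?_
    obtain ⟨p, hp, rfl⟩ := hnu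
    obtain ⟨hp1, hp2⟩ := hT p hp
    have hm1 : MeasurableSet {x : X | r < ‖x‖} := (isOpen_lt continuous_const continuous_norm).measurableSet
    have hm2 : MeasurableSet {x : X | r / 2 < ‖x‖} :=
      (isOpen_lt continuous_const continuous_norm).measurableSet
    rw [Measure.fst_apply hm1]
    have hsub : (Prod.fst ⁻¹' {x : X | r < ‖x‖} : Set (X × X)) ⊆
        (Prod.snd ⁻¹' {x : X | r / 2 < ‖x‖}) ∪
          {z : X × X | ENNReal.ofReal ((r / 2) ^ 2) ≤ ‖z.1 - z.2‖ₑ ^ 2} := by
      rintro ⟨x, y⟩ hx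
      simp only [Set.mem_preimage, Set.mem_ofPred_eq, Set.mem_union] at hx ⊢
      by_contra hcon
      push Not at hcon
      obtain ⟨h6, h7⟩ := hcon
      have h8 : ‖x‖ ≤ ‖y‖ + ‖x - y‖ := by
        have := norm_add_le y (x - y)
        simpa using this
      have h9 : r / 2 ≤ ‖x - y‖ := by linarith
      have h10 : ENNReal.ofReal ((r / 2) ^ 2) ≤ ‖x - y‖ₑ ^ 2 := by
        rw [← ofReal_norm, ← ENNReal.ofReal_pow (norm_nonneg _)]
        apply ENNReal.ofReal_le_ofReal
        exact pow_le_pow_left₀ (by positivity) h9 2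
      exact absurd h10 (not_le.2 h7)
    refine (measure_mono hsub).trans ((measure_union_le _ _).trans (add_le_add ?_ ?_))
    · rw [← hp1, Measure.map_apply measurable_snd hm2]
    · have hpos : ENNReal.ofReal ((r / 2) ^ 2) ≠ 0 := by
        rw [Ne, ENNReal.ofReal_eq_zero, not_le]; positivity
      refine (meas_ge_le_lintegral_div (by fun_prop) hpos ENNReal.ofReal_ne_top).trans ?_
      exact ENNReal.div_le_div_right hp2 _
  · refine IsTightMeasureSet.subset (isTightMeasureSet_singleton (μ := mu)) ?_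
    rintro _ ⟨p, hp, rfl⟩
    exact (hT p hp).1

theorem exists_opt {N : ℕ} (lam : Fin N → ℝ) (hl : ∀ i, 0 < lam i)
    (mu : Fin N → Measure X) (hmu : ∀ i, IsProbabilityMeasure (mu i))
    (p0 : Fin N → Measure (X × X)) (hp0 : ∀ i, IsProbabilityMeasure (p0 i))
    (h0s : ∀ i, (p0 i).map Prod.snd = mu i)
    (h0f : ∀ i j, (p0 i).map Prod.fst = (p0 j).map Prod.fst)
    (hfin : ∀ i, cst (p0 i) ≠ ⊤) :
    ∃ p : Fin N → Measure (X × X), (∀ i, IsProbabilityMeasure (p i)) ∧
      (∀ i, (p i).map Prod.snd = mu i) ∧ (∀ i j, (p i).map Prod.fst = (p j).map Prod.fst) ∧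
      ∀ q : Fin N → Measure (X × X), (∀ i, IsProbabilityMeasure (q i)) →
        (∀ i, (q i).map Prod.snd = mu i) → (∀ i j, (q i).map Prod.fst = (q j).map Prod.fst) →
        ∑ i, ENNReal.ofReal (lam i) * cst (p i) ≤ ∑ i, ENNReal.ofReal (lam i) * cst (q i) := by
  classical
  let P := Fin N → ProbabilityMeasure (X × X)
  let F : P → ℝ≥0∞ := fun p => ∑ i, ENNReal.ofReal (lam i) * cst (p i : Measure (X × X))
  have hcst : LowerSemicontinuous fun p : ProbabilityMeasure (X × X) =>
      cst (p : Measure (X × X)) := by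
    have h := lsc_lint (Y := X × X) (fun z => ‖z.1 - z.2‖₊ ^ 2) (by fun_prop)
    have h2 : (fun p : ProbabilityMeasure (X × X) => cst (p : Measure (X × X))) =
        fun p : ProbabilityMeasure (X × X) =>
          ∫⁻ y, ((‖y.1 - y.2‖₊ ^ 2 : ℝ≥0) : ℝ≥0∞) ∂(p : Measure (X × X)) := by
      ext p; unfold cst; congr 1
    rw [h2]; exact h
  have hF : LowerSemicontinuous F := by
    apply lowerSemicontinuous_sum
    intro i _
    have h1 : LowerSemicontinuous fun p : P => cst (p i : Measure (X × X)) :=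
      hcst.comp (continuous_apply i)
    have h2 : (fun p : P => ENNReal.ofReal (lam i) * cst (p i : Measure (X × X))) =
        (fun x : ℝ≥0∞ => ENNReal.ofReal (lam i) * x) ∘
          fun p : P => cst (p i : Measure (X × X)) := rfl
    rw [h2]
    apply Continuous.comp_lowerSemicontinuous _ h1
    · intro a b hab
      exact mul_le_mul_right hab _
    · exact ENNReal.continuous_const_mul ENNReal.ofReal_ne_top
  let q0 : P := fun i => ⟨p0 i, hp0 i⟩
  let mu' : Fin N → ProbabilityMeasure X := fun i => ⟨mu i, hmu i⟩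
  let S : Set P := {p | (∀ i, (p i).map (f := Prod.snd) continuous_snd.measurable.aemeasurable = mu' i) ∧
    (∀ i j, (p i).map (f := Prod.fst) continuous_fst.measurable.aemeasurable =
      (p j).map (f := Prod.fst) continuous_fst.measurable.aemeasurable) ∧
    F p ≤ F q0}
  have hFq0 : F q0 ≠ ⊤ := by
    apply (ENNReal.sum_lt_top.2 fun i _ => ?_).ne
    exact ENNReal.mul_lt_top ENNReal.ofReal_lt_top (hfin i).lt_top
  have hS1 : IsClosed S := by
    have e : S = (⋂ i, {p : P | (p i).map (f := Prod.snd) continuous_snd.measurable.aemeasurable =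
        mu' i}) ∩ ((⋂ i, ⋂ j, {p : P | (p i).map (f := Prod.fst)
          continuous_fst.measurable.aemeasurable =
        (p j).map (f := Prod.fst) continuous_fst.measurable.aemeasurable}) ∩
        F ⁻¹' Set.Iic (F q0)) := by
      ext p
      simp only [S, Set.mem_ofPred_eq, Set.mem_inter_iff, Set.mem_iInter, Set.mem_preimage,
        Set.mem_Iic]
    rw [e]
    refine IsClosed.inter ?_ (IsClosed.inter ?_ (hF.isClosed_preimage _))
    · refine isClosed_iInter fun i => ?_
      exact isClosed_eq ((ProbabilityMeasure.continuous_map continuous_snd).comp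
        (continuous_apply i)) continuous_const
    · refine isClosed_iInter fun i => isClosed_iInter fun j => ?_
      exact isClosed_eq ((ProbabilityMeasure.continuous_map continuous_fst).comp
        (continuous_apply i)) ((ProbabilityMeasure.continuous_map continuous_fst).comp
        (continuous_apply j))
  let T : Fin N → Set (ProbabilityMeasure (X × X)) := fun i =>
    {p | (p : Measure (X × X)).map Prod.snd = mu i ∧
      cst (p : Measure (X × X)) ≤ F q0 / ENNReal.ofReal (lam i)}
  have hT : ∀ i, IsCompact (closure (T i)) := by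
    intro i
    apply isCompact_closure_of_isTightMeasureSet
    have hli : ENNReal.ofReal (lam i) ≠ 0 := by
      rw [Ne, ENNReal.ofReal_eq_zero, not_le]; exact hl i
    have := hmu i
    refine tight_aux (mu i) (F q0 / ENNReal.ofReal (lam i)) (ENNReal.div_ne_top hFq0 hli) _ ?_
    rintro p ⟨p', hp', rfl⟩
    exact hp'
  have hS2 : S ⊆ Set.univ.pi fun i => closure (T i) := by
    intro p hp i _
    apply subset_closure
    refine ⟨?_, ?_⟩
    · have := hp.1 i
      have h2 := congrArg (fun m : ProbabilityMeasure X => (m : Measure X)) this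
      simpa [mu'] using h2
    · have hli : ENNReal.ofReal (lam i) ≠ 0 := by
        rw [Ne, ENNReal.ofReal_eq_zero, not_le]; exact hl i
      rw [ENNReal.le_div_iff_mul_le (Or.inl hli) (Or.inl ENNReal.ofReal_ne_top), mul_comm]
      exact (Finset.single_le_sum (f := fun i => ENNReal.ofReal (lam i) *
        cst (p i : Measure (X × X))) (fun _ _ => zero_le) (Finset.mem_univ i)).trans hp.2.2
  have hS3 : IsCompact S := (isCompact_univ_pi hT).of_isClosed_subset hS1 hS2
  have hq0 : q0 ∈ S := by
    refine ⟨fun i => ?_, fun i j => ?_, le_rfl⟩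
    · apply Subtype.ext
      exact h0s i
    · apply Subtype.ext
      exact h0f i j
  obtain ⟨p, hpS, hpmin⟩ := (hF.lowerSemicontinuousOn S).exists_isMinOn ⟨q0, hq0⟩ hS3
  refine ⟨fun i => (p i : Measure (X × X)), fun i => inferInstance, fun i => ?_, fun i j => ?_, ?_⟩
  · exact congrArg (fun m : ProbabilityMeasure X => (m : Measure X)) (hpS.1 i)
  · exact congrArg (fun m : ProbabilityMeasure X => (m : Measure X)) (hpS.2.1 i j)
  · intro q hq1 hq2 hq3
    let q' : P := fun i => ⟨q i, hq1 i⟩
    by_cases hle : F q' ≤ F q0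
    · have hq' : q' ∈ S := by
        refine ⟨fun i => ?_, fun i j => ?_, hle⟩
        · apply Subtype.ext
          exact hq2 i
        · apply Subtype.ext
          exact hq3 i j
      exact hpmin hq'
    · exact hpS.2.2.trans (not_le.1 hle).le

omit [ProperSpace X] [SecondCountableTopology X] [BorelSpace X] in
lemma W2sq_le {rho mu : Measure X} (p : Measure (X × X)) (h1 : p.map Prod.fst = rho)
    (h2 : p.map Prod.snd = mu) : W2sq rho mu ≤ cst p :=
  iInf₂_le p ⟨h1, h2⟩

omit [ProperSpace X] [SecondCountableTopology X] [BorelSpace X] in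
lemma exists_cst_lt {rho mu : Measure X} (h : W2sq rho mu ≠ ⊤) {eps : ℝ≥0∞} (he : eps ≠ 0) :
    ∃ p : Measure (X × X), p.map Prod.fst = rho ∧ p.map Prod.snd = mu ∧
      cst p < W2sq rho mu + eps := by
  have h1 : W2sq rho mu < W2sq rho mu + eps := ENNReal.lt_add_right h he
  unfold W2sq at h1
  obtain ⟨p, hp'⟩ := iInf_lt_iff.1 h1
  obtain ⟨hp, hlt⟩ := iInf_lt_iff.1 hp'
  exact ⟨p, hp.1, hp.2, hlt⟩

theorem exists_bary {N : ℕ} (hN : 0 < N) (lam : Fin N → ℝ) (hl : ∀ i, 0 < lam i)
    (hs : ∑ i, lam i = 1)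
    (mu : Fin N → Measure X) (hmu : ∀ i, IsProbabilityMeasure (mu i))
    (p0 : Fin N → Measure (X × X)) (hp0 : ∀ i, IsProbabilityMeasure (p0 i))
    (h0s : ∀ i, (p0 i).map Prod.snd = mu i)
    (h0f : ∀ i j, (p0 i).map Prod.fst = (p0 j).map Prod.fst)
    (hfin : ∀ i, cst (p0 i) ≠ ⊤) :
    ∃ (rho : Measure X) (p : Fin N → Measure (X × X)), IsBary lam mu rho ∧
      (∀ i, (p i).map Prod.fst = rho) ∧ (∀ i, (p i).map Prod.snd = mu i) ∧
      ∑ i, ENNReal.ofReal (lam i) * cst (p i) ≤ ∑ i, ENNReal.ofReal (lam i) * cst (p0 i) := by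
  obtain ⟨p, hp1, hp2, hp3, hp4⟩ := exists_opt lam hl mu hmu p0 hp0 h0s h0f hfin
  let i0 : Fin N := ⟨0, hN⟩
  refine ⟨(p i0).map Prod.fst, p, ⟨?_, ?_⟩, fun i => hp3 i i0, hp2, hp4 p0 hp0 h0s h0f⟩
  · exact (p i0).isProbabilityMeasure_map (by fun_prop)
  · intro nu hnu
    have hJ : ∑ i, ENNReal.ofReal (lam i) * W2sq ((p i0).map Prod.fst) (mu i) ≤
        ∑ i, ENNReal.ofReal (lam i) * cst (p i) :=
      Finset.sum_le_sum fun i _ => by
        gcongr
        exact W2sq_le (p i) (hp3 i i0) (hp2 i)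
    refine hJ.trans ?_
    by_cases htop : ∀ i, W2sq nu (mu i) ≠ ⊤
    · apply ENNReal.le_of_forall_pos_le_add
      intro eps heps _
      have hex : ∀ i, ∃ q : Measure (X × X), q.map Prod.fst = nu ∧ q.map Prod.snd = mu i ∧
          cst q < W2sq nu (mu i) + eps := fun i =>
        exists_cst_lt (htop i) (by simpa using heps.ne')
      choose q hq1 hq2 hq3 using hex
      have hqp : ∀ i, IsProbabilityMeasure (q i) := by
        intro i
        constructor
        have h1 : (q i).map Prod.fst Set.univ = 1 := by rw [hq1 i]; exact measure_univ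
        rwa [Measure.map_apply measurable_fst MeasurableSet.univ, Set.preimage_univ] at h1
      calc ∑ i, ENNReal.ofReal (lam i) * cst (p i)
          ≤ ∑ i, ENNReal.ofReal (lam i) * cst (q i) :=
            hp4 q hqp hq2 (fun i j => (hq1 i).trans (hq1 j).symm)
        _ ≤ ∑ i, ENNReal.ofReal (lam i) * (W2sq nu (mu i) + eps) :=
            Finset.sum_le_sum fun i _ => by
              gcongr
              exact (hq3 i).le
        _ = ∑ i, ENNReal.ofReal (lam i) * W2sq nu (mu i) +
              (∑ i, ENNReal.ofReal (lam i)) * eps := by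
            rw [Finset.sum_mul, ← Finset.sum_add_distrib]
            simp_rw [mul_add]
        _ = ∑ i, ENNReal.ofReal (lam i) * W2sq nu (mu i) + eps := by
            rw [← ENNReal.ofReal_sum_of_nonneg (fun i _ => (hl i).le), hs, ENNReal.ofReal_one,
              one_mul]
    · push Not at htop
      obtain ⟨i, hi⟩ := htop
      have : ∑ i, ENNReal.ofReal (lam i) * W2sq nu (mu i) = ⊤ := by
        rw [ENNReal.sum_eq_top]
        refine ⟨i, Finset.mem_univ i, ?_⟩
        rw [hi, ENNReal.mul_top]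
        rw [Ne, ENNReal.ofReal_eq_zero, not_le]; exact hl i
      rw [this]; exact le_top

end

end Pool.Agent.Q297.Bary
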