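import Pool.Agent.Q297.BaryCut

open MeasureTheory ProbabilityTheory Filter Topology
open scoped ENNReal NNReal ContDiff

namespace Pool.Agent.Q297.Bary

lemma lm_pos {t : ℝ≥0} (ht : 0 < t) (ht1 : t < 1) (i : Fin 3) : 0 < lm t i := by
  have h1 : (t:ℝ) < 1 := by exact_mod_cast ht1
  have h0 : (0:ℝ) < t := by exact_mod_cast ht
  fin_cases i
  · show 0 < (1 - (t:ℝ)) / 2; linarith
  · show 0 < (1 - (t:ℝ)) / 2; linarith
  · exact h0

lemma lm_sum (t : ℝ≥0) : ∑ i, lm t i = 1 := by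
  rw [Fin.sum_univ_three]
  show (1 - (t:ℝ)) / 2 + (1 - (t:ℝ)) / 2 + t = 1
  ring

theorem approx {t dl : ℝ≥0} (ht : 0 < t) (ht1 : t < 1) (hd : 0 < dl) (hdt : dl ≤ t / 2) :
    ∃ rho : Measure E4, IsBary (lm t) (mm dl) rho ∧
      ∀ (G : E4 → ℝ) (K : ℝ≥0) (B : ℝ), LipschitzWith K G → (∀ x, |G x| ≤ B) →
        |∫ x, G x ∂rho - ∫ x, G x ∂(nn t)| ≤ K * √(3 * dl / t) := by
  obtain ⟨rho, p, hb, hf, hs, hc⟩ := exists_bary (by norm_num) (lm t) (lm_pos ht ht1) (lm_sum t)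
    (mm dl) (fun i => mm_prob dl i) (cp t dl) (fun i => cp_prob t dl i) (cp_snd t dl)
    (fun i j => (cp_fst t dl i).trans (cp_fst t dl j).symm) (fun i => by
      fin_cases i
      · show cst (cp t dl 0) ≠ ⊤
        rw [cst_cp0]; exact ENNReal.ofReal_ne_top
      · show cst (cp t dl 1) ≠ ⊤
        rw [cst_cp1]; exact ENNReal.ofReal_ne_top
      · show cst (cp t dl 2) ≠ ⊤
        rw [cst_cp2]; exact ENNReal.ofReal_ne_top)
  refine ⟨rho, hb, ?_⟩
  obtain ⟨hI, hW⟩ := stab ht ht1 hd hdt hf hs hc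
  intro G K B hG hB
  have hrp : IsProbabilityMeasure rho := hb.1
  have hp2 : IsProbabilityMeasure (p 2) := by
    constructor
    have h1 : (p 2).map Prod.fst Set.univ = 1 := by rw [hf 2]; exact measure_univ
    rwa [Measure.map_apply measurable_fst MeasurableSet.univ, Set.preimage_univ] at h1
  set s : ℝ≥0 := 1 + t with hsdef
  have hlaw : (p 2).map (fun z => wh s z.2) = nn t := by
    have h1 : ((p 2).map Prod.snd).map (wh s) = nn t := by
      rw [hs 2]
      exact wh_law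
    rwa [Measure.map_map (wh_cont _).measurable measurable_snd] at h1
  have hGc : Continuous G := hG.continuous
  have e1 : ∫ x, G x ∂rho = ∫ z, G z.1 ∂(p 2) := by
    rw [← hf 2, integral_map measurable_fst.aemeasurable hGc.aestronglyMeasurable]
  have hwm : Measurable fun z : E4 × E4 => wh s z.2 := (wh_cont _).measurable.comp measurable_snd
  have e2 : ∫ x, G x ∂(nn t) = ∫ z, G (wh s z.2) ∂(p 2) := by
    rw [← hlaw, integral_map hwm.aemeasurable hGc.aestronglyMeasurable]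
  have i1 : Integrable (fun z : E4 × E4 => G z.1) (p 2) :=
    Integrable.of_bound (hGc.measurable.comp measurable_fst).aestronglyMeasurable B
      (Filter.Eventually.of_forall fun z => hB _)
  have i2 : Integrable (fun z : E4 × E4 => G (wh s z.2)) (p 2) :=
    Integrable.of_bound (hGc.measurable.comp hwm).aestronglyMeasurable B
      (Filter.Eventually.of_forall fun z => hB _)
  rw [e1, e2, ← integral_sub i1 i2]
  have hmn : Measurable fun z : E4 × E4 => ‖z.1 - wh s z.2‖ :=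
    (measurable_fst.sub hwm).norm
  have hL2 : MemLp (fun z : E4 × E4 => ‖z.1 - wh s z.2‖) 2 (p 2) :=
    (memLp_two_iff_integrable_sq hmn.aestronglyMeasurable).2 hI
  have i3 : Integrable (fun z : E4 × E4 => ‖z.1 - wh s z.2‖) (p 2) :=
    hL2.integrable (by norm_num)
  have h3 : |∫ z : E4 × E4, (G z.1 - G (wh s z.2)) ∂(p 2)| ≤
      K * ∫ z : E4 × E4, ‖z.1 - wh s z.2‖ ∂(p 2) := by
    rw [← integral_const_mul]
    refine (abs_integral_le_integral_abs).trans ?_
    refine integral_mono (i1.sub i2).abs (i3.const_mul _) fun z => ?_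
    have := hG.dist_le_mul z.1 (wh s z.2)
    rw [Real.dist_eq, dist_eq_norm] at this
    exact this
  refine h3.trans (mul_le_mul_of_nonneg_left ?_ K.2)
  have h4 : (∫ z : E4 × E4, ‖z.1 - wh s z.2‖ ∂(p 2)) ^ 2 ≤
      ∫ z : E4 × E4, ‖z.1 - wh s z.2‖ ^ 2 ∂(p 2) := by
    have hv := variance_nonneg (fun z : E4 × E4 => ‖z.1 - wh s z.2‖) (p 2)
    rw [variance_eq_sub hL2] at hv
    simp only [Pi.pow_apply] at hv
    linarith
  have h5 : 0 ≤ ∫ z : E4 × E4, ‖z.1 - wh s z.2‖ ∂(p 2) := integral_nonneg fun z => norm_nonneg _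
  exact Real.le_sqrt_of_sq_le (h4.trans hW)

lemma sq_lip {g : E4 → ℝ} {K : ℝ≥0} (hg : LipschitzWith K g) {B : ℝ} (hB : ∀ x, |g x| ≤ B) :
    LipschitzWith (2 * B.toNNReal * K) (fun x => g x ^ 2) := by
  have hB0 : 0 ≤ B := (abs_nonneg _).trans (hB 0)
  apply LipschitzWith.of_dist_le_mul
  intro x y
  have h1 := hg.dist_le_mul x y
  rw [Real.dist_eq] at h1 ⊢
  have e : g x ^ 2 - g y ^ 2 = (g x + g y) * (g x - g y) := by ring
  rw [e, abs_mul]
  have h2 : |g x + g y| ≤ 2 * B := (abs_add_le _ _).trans (by linarith [hB x, hB y])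
  calc |g x + g y| * |g x - g y| ≤ (2 * B) * (K * dist x y) :=
        mul_le_mul h2 h1 (abs_nonneg _) (by positivity)
    _ = ((2 * B.toNNReal * K : ℝ≥0) : ℝ) * dist x y := by
        push_cast
        rw [Real.coe_toNNReal _ hB0]
        ring

lemma cp_lower {rho : Measure E4} [IsProbabilityMeasure rho] {f : E4 → ℝ} (hf : ContDiff ℝ ∞ f)
    (hc : HasCompactSupport f) {s2 : ℝ} (hs : 0 ≤ s2)
    (h : s2 * ∫ x, ‖fderiv ℝ f x‖ ^ 2 ∂rho < ∫ x, f x ^ 2 ∂rho - (∫ x, f x ∂rho) ^ 2) :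
    ENNReal.ofReal s2 < CP rho := by
  have hfc : Continuous f := hf.continuous
  obtain ⟨B, hB⟩ := hc.exists_bound_of_continuous hfc
  have hL2 : MemLp f 2 rho := MemLp.of_bound hfc.aestronglyMeasurable B
    (Filter.Eventually.of_forall hB)
  have hdc : Continuous (fderiv ℝ f) := hf.continuous_fderiv (by simp)
  obtain ⟨B', hB'⟩ := (hc.fderiv (𝕜 := ℝ)).exists_bound_of_continuous hdc
  set V : ℝ := ∫ x, f x ^ 2 ∂rho - (∫ x, f x ∂rho) ^ 2 with hV
  set I : ℝ := ∫ x, ‖fderiv ℝ f x‖ ^ 2 ∂rho with hI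
  have hI0 : 0 ≤ I := integral_nonneg fun x => sq_nonneg _
  have hvar : variance f rho = V := by
    rw [variance_eq_sub hL2]; rfl
  have hlin : ∫⁻ x, gradSq f x ∂rho = ENNReal.ofReal I := by
    unfold gradSq
    have hi : Integrable (fun x => ‖fderiv ℝ f x‖ ^ 2) rho := by
      have hB0 : 0 ≤ B' := (norm_nonneg _).trans (hB' 0)
      refine Integrable.of_bound (hdc.norm.pow 2).aestronglyMeasurable (B' ^ 2)
        (Filter.Eventually.of_forall fun x => ?_)
      rw [Real.norm_eq_abs, abs_of_nonneg (sq_nonneg _)]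
      exact pow_le_pow_left₀ (norm_nonneg _) (hB' x) 2
    rw [hI, ofReal_integral_eq_lintegral_ofReal hi
      (Filter.Eventually.of_forall fun z => sq_nonneg _)]
    simp_rw [enorm_sq_eq]
  -- a strictly larger constant
  obtain ⟨r, hr1, hr2⟩ : ∃ r, s2 < r ∧ r * I < V := by
    rcases hI0.eq_or_lt with h0 | h0
    · refine ⟨s2 + 1, by linarith, ?_⟩
      rw [← h0] at h ⊢
      linarith
    · refine ⟨(s2 + V / I) / 2, ?_, ?_⟩
      · have : s2 < V / I := by rwa [lt_div_iff₀ h0]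
        linarith
      · have h1 : s2 < V / I := by rwa [lt_div_iff₀ h0]
        have h2 : (s2 + V / I) / 2 < V / I := by linarith
        rwa [lt_div_iff₀ h0] at h2
  refine lt_of_lt_of_le ((ENNReal.ofReal_lt_ofReal_iff (by linarith)).2 hr1) ?_
  unfold CP
  refine le_sInf fun C hC => ?_
  by_contra hcon
  rw [not_le] at hcon
  have h1 := hC f hf hc
  rw [hvar, hlin] at h1
  have h2 : C * ENNReal.ofReal I ≤ ENNReal.ofReal (r * I) := by
    rw [ENNReal.ofReal_mul (by linarith)]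
    gcongr
  have h3 := h1.trans h2
  have hV0 : 0 < V := lt_of_le_of_lt (mul_nonneg (by linarith) hI0) hr2
  rw [ENNReal.ofReal_le_ofReal_iff (mul_nonneg (by linarith) hI0)] at h3
  linarith

theorem exists_counter : ∃ (t dl : ℝ≥0) (rho : Measure E4), 0 < t ∧ t < 1 ∧ 0 < dl ∧ dl < 1 ∧
    IsBary (lm t) (mm dl) rho ∧ ENNReal.ofReal ((1 + (t:ℝ)) ^ 2) < CP rho := by
  -- parameters
  set k : ℝ := min qq 1 with hk
  have hk0 : 0 < k := lt_min qq_pos one_pos
  have hk1 : k ≤ 1 := min_le_right _ _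
  have hkq : k ≤ qq := min_le_left _ _
  set t : ℝ≥0 := ⟨k ^ 2 / 16, by positivity⟩ with ht
  have htr : (t:ℝ) = k ^ 2 / 16 := rfl
  have ht0 : 0 < t := by
    rw [← NNReal.coe_pos, htr]; positivity
  have ht1 : t < 1 := by
    rw [← NNReal.coe_lt_coe, htr]
    have : k ^ 2 ≤ 1 := pow_le_one₀ hk0.le hk1
    push_cast
    linarith
  have hineq : (1 + (t:ℝ)) ^ 2 * (1 + 2 * (k / 4) ^ 2) < 1 + 2 * (k / 4) * qq := by
    have h1 : 1 + k ^ 2 / 2 ≤ 1 + 2 * (k / 4) * qq := by nlinarith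
    refine lt_of_lt_of_le ?_ h1
    rw [htr]
    set x := k ^ 2 with hx
    have hx0 : 0 < x := by positivity
    have hx1 : x ≤ 1 := pow_le_one₀ hk0.le hk1
    have e : 2 * (k / 4) ^ 2 = x / 8 := by rw [hx]; ring
    rw [e]
    have e2 : (1 + x / 16) ^ 2 * (1 + x / 8) = 1 + x * (1 / 4 + x / 64 + x / 256 + x ^ 2 / 2048) := by
      ring
    rw [e2]
    have h3 : 1 / 4 + x / 64 + x / 256 + x ^ 2 / 2048 < 1 / 2 := by nlinarith
    nlinarith
  obtain ⟨f, hf, hc, hlt⟩ := exists_test t (k / 4) (s2 := (1 + (t:ℝ)) ^ 2) (by positivity) hineq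
  -- Lipschitz bounds
  obtain ⟨B, hB⟩ := hc.exists_bound_of_continuous hf.continuous
  have hdc : Continuous (fderiv ℝ f) := hf.continuous_fderiv (by simp)
  obtain ⟨B', hB'⟩ := (hc.fderiv (𝕜 := ℝ)).exists_bound_of_continuous hdc
  obtain ⟨K1, hK1⟩ := hf.lipschitzWith_of_hasCompactSupport hc (by simp)
  have hfd : ContDiff ℝ 1 (fderiv ℝ f) := hf.fderiv_right (by norm_cast)
  obtain ⟨K2, hK2⟩ := hfd.lipschitzWith_of_hasCompactSupport (hc.fderiv (𝕜 := ℝ)) (by simp)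
  have hK3 : LipschitzWith K2 (fun x => ‖fderiv ℝ f x‖) := by
    have := (lipschitzWith_one_norm (E := E4 →L[ℝ] ℝ)).comp hK2
    simpa [Function.comp_def] using this
  have hsq := sq_lip hK1 (B := B) (fun x => hB x)
  have hsq2 := sq_lip hK3 (B := B') (fun x => by
    rw [abs_of_nonneg (norm_nonneg _)]; exact hB' x)
  -- the sequence
  set dl : ℕ → ℝ≥0 := fun n => t / 2 * (1 / ((n:ℝ≥0) + 1)) with hdl
  have hdl0 : ∀ n, 0 < dl n := fun n => by simp only [hdl]; positivity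
  have hdl1 : ∀ n, dl n ≤ t / 2 := fun n => by
    simp only [hdl]
    apply mul_le_of_le_one_right zero_le
    rw [div_le_one (by positivity)]
    simp
  have hex := fun n => approx ht0 ht1 (hdl0 n) (hdl1 n)
  choose rho hbary hap using hex
  have hth : Tendsto (fun n => √(3 * (dl n : ℝ) / t)) atTop (𝓝 0) := by
    have h1 : Tendsto (fun n : ℕ => (1:ℝ) / ((n:ℝ) + 1)) atTop (𝓝 0) :=
      tendsto_one_div_add_atTop_nhds_zero_nat
    have h2 : Tendsto (fun n : ℕ => 3 * ((t:ℝ) / 2 * ((1:ℝ) / ((n:ℝ) + 1))) / t) atTop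
        (𝓝 (3 * ((t:ℝ) / 2 * 0) / t)) := ((h1.const_mul _).const_mul _).div_const _
    have h3 := (Real.continuous_sqrt.tendsto _).comp h2
    simp only [mul_zero, zero_div, Real.sqrt_zero] at h3
    refine h3.congr fun n => ?_
    simp only [Function.comp, hdl]
    push_cast
    rfl
  have hconv : ∀ (G : E4 → ℝ) (K : ℝ≥0) (B : ℝ), LipschitzWith K G → (∀ x, |G x| ≤ B) →
      Tendsto (fun n => ∫ x, G x ∂(rho n)) atTop (𝓝 (∫ x, G x ∂(nn t))) := by
    intro G K B hG hB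
    rw [tendsto_iff_norm_sub_tendsto_zero]
    have h1 : Tendsto (fun n => (K:ℝ) * √(3 * (dl n : ℝ) / t)) atTop (𝓝 0) := by
      simpa using hth.const_mul (K:ℝ)
    exact squeeze_zero (fun n => norm_nonneg _) (fun n => hap n G K B hG hB) h1
  have c1 := hconv f K1 B hK1 (fun x => hB x)
  have c2 := hconv (fun x => f x ^ 2) _ (B ^ 2) hsq (fun x => by
    rw [abs_of_nonneg (sq_nonneg _), ← sq_abs]
    exact pow_le_pow_left₀ (abs_nonneg _) (hB x) 2)
  have c3 := hconv (fun x => ‖fderiv ℝ f x‖ ^ 2) _ (B' ^ 2) hsq2 (fun x => by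
    rw [abs_of_nonneg (sq_nonneg _)]
    exact pow_le_pow_left₀ (norm_nonneg _) (hB' x) 2)
  have L4 := c2.sub (c1.pow 2)
  have L5 := c3.const_mul ((1 + (t:ℝ)) ^ 2)
  obtain ⟨n, hn⟩ := (L5.eventually_lt L4 hlt).exists
  have : IsProbabilityMeasure (rho n) := (hbary n).1
  refine ⟨t, dl n, rho n, ht0, ht1, hdl0 n, ?_, hbary n, cp_lower hf hc (by positivity) hn⟩
  refine lt_of_le_of_lt (hdl1 n) (lt_of_le_of_lt ?_ ht1)
  exact half_le_self zero_le

theorem slc_all {dl : ℝ≥0} (h0 : 0 < dl) (h1 : dl < 1) (i : Fin 3) :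
    SLC (![1, 1, 1 / 4] i) (mm dl i) := by
  have hd2 : (dl:ℝ) ^ 2 ≤ 1 := by
    have : (dl:ℝ) < 1 := by exact_mod_cast h1
    exact pow_le_one₀ dl.2 this.le
  have hne : dl ^ 2 ≠ 0 := by positivity
  fin_cases i
  · exact slc_gauss (k0 := 1) one_ne_zero one_ne_zero one_ne_zero hne (by norm_num)
      (by norm_num) (by norm_num) (by push_cast; linarith)
  · exact slc_gauss (k0 := 1) one_ne_zero one_ne_zero hne one_ne_zero (by norm_num)
      (by norm_num) (by push_cast; linarith) (by norm_num)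
  · exact slc_r3

theorem splits_all (dl : ℝ≥0) (i : Fin 3) : Splits (![1, 1, 1 / 4] i) e0 (mm dl i) := by
  fin_cases i
  · exact splits_m4 (kappa := 1) (v := 1) (by simp) (G3 1 1 (dl ^ 2))
  · exact splits_m4 (kappa := 1) (v := 1) (by simp) (G3 1 (dl ^ 2) 1)
  · exact splits_m4 (kappa := 1 / 4) (v := 4) (by simp) r3

lemma bound_val (t : ℝ≥0) : ∑ i, lm t i / √((![1, 1, 1 / 4] : Fin 3 → ℝ) i) = 1 + t := by
  rw [Fin.sum_univ_three]
  have h : √((1:ℝ) / 4) = 1 / 2 := by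
    rw [show (1:ℝ) / 4 = (1 / 2) ^ 2 by norm_num, Real.sqrt_sq (by norm_num)]
  show (1 - (t:ℝ)) / 2 / √1 + (1 - (t:ℝ)) / 2 / √1 + t / √((1:ℝ) / 4) = 1 + t
  rw [h, Real.sqrt_one]
  ring

/-- A single example: all three measures split off a curvature-saturating Gaussian factor in the
common direction `e0`, but the barycenter violates the conjectured bound. -/
theorem main_example : Counter 4 3 := by
  obtain ⟨t, dl, rho, ht0, ht1, hd0, hd1, hb, hlt⟩ := exists_counter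
  refine ⟨lm t, ![1, 1, 1 / 4], mm dl, rho, e0, ?_, e0_norm, splits_all dl, ?_⟩
  · refine ⟨by norm_num, by norm_num, lm_pos ht0 ht1, lm_sum t, ?_, slc_all hd0 hd1, hb⟩
    intro i
    fin_cases i <;> simp
  · rw [bound_val]
    have h1 : ENNReal.ofReal (1 + (t:ℝ)) = (ENNReal.ofReal ((1 + (t:ℝ)) ^ 2)) ^ (1 / 2 : ℝ) := by
      rw [ENNReal.ofReal_pow (by positivity), ← ENNReal.rpow_natCast, ← ENNReal.rpow_mul]
      norm_num
    rw [h1]
    exact ENNReal.rpow_lt_rpow hlt (by norm_num)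

theorem not_Q1 : ¬ Q1 := by
  intro h
  obtain ⟨lam, kappa, mu, rho, e, hD, -, -, hlt⟩ := main_example
  exact absurd (h 4 3 lam kappa mu rho hD) (not_le.2 hlt)

theorem not_Q2 : ¬ Q2 := by
  intro h
  obtain ⟨lam, kappa, mu, rho, e, hD, he, hsp, hlt⟩ := main_example
  have := (h 4 3 lam kappa mu rho hD).2 ⟨e, he, hsp⟩
  exact absurd this hlt.ne'

end Pool.Agent.Q297.Bary
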