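import Pool.Agent.Q297.BaryStabB

open MeasureTheory ProbabilityTheory Filter Topology
open scoped ENNReal NNReal

namespace Pool.Agent.Q297.Bary

lemma int_r3 {F : ℝ × ℝ × ℝ → ℝ} : ∫ q, F q ∂r3 = ∫ q, wt q * F q ∂G3 1 qv qv := by
  rw [r3, integral_withDensity_eq_integral_toReal_smul wt_meas
    (Filter.Eventually.of_forall fun q => ENNReal.ofReal_lt_top)]
  congr 1
  ext q
  rw [ENNReal.toReal_ofReal (wt_pos q).le, smul_eq_mul]

lemma int_G3 (F1 F2 F3 : ℝ → ℝ) (a b c : ℝ≥0) :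
    ∫ q, F1 q.1 * (F2 q.2.1 * F3 q.2.2) ∂G3 a b c =
      (∫ x, F1 x ∂gs a) * ((∫ x, F2 x ∂gs b) * ∫ x, F3 x ∂gs c) := by
  rw [G3, integral_prod_mul (fun x => F1 x) (fun y : ℝ × ℝ => F2 y.1 * F3 y.2),
    integral_prod_mul (fun x => F2 x) (fun y => F3 y)]

lemma integ_G3 {F1 F2 F3 : ℝ → ℝ} {a b c : ℝ≥0} (h1 : Integrable F1 (gs a))
    (h2 : Integrable F2 (gs b)) (h3 : Integrable F3 (gs c)) :
    Integrable (fun q => F1 q.1 * (F2 q.2.1 * F3 q.2.2)) (G3 a b c) :=
  h1.mul_prod (h2.mul_prod h3)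

lemma int_r3_prod {F1 F2 F3 : ℝ → ℝ} (h1 : Integrable F1 (gs 1))
    (h2 : Integrable F2 (gs qv)) (h3 : Integrable F3 (gs qv))
    (h1' : Integrable (fun x => Real.arctan x * F1 x) (gs 1))
    (h2' : Integrable (fun x => Real.sin x * F2 x) (gs qv))
    (h3' : Integrable (fun x => Real.sin x * F3 x) (gs qv)) :
    ∫ q, F1 q.1 * (F2 q.2.1 * F3 q.2.2) ∂r3 =
      (∫ x, F1 x ∂gs 1) * ((∫ x, F2 x ∂gs qv) * ∫ x, F3 x ∂gs qv) + 1 / 20 *
      ((∫ x, Real.arctan x * F1 x ∂gs 1) * ((∫ x, Real.sin x * F2 x ∂gs qv) *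
        ∫ x, Real.sin x * F3 x ∂gs qv)) := by
  rw [int_r3, ← int_G3 F1 F2 F3, ← int_G3 (fun x => Real.arctan x * F1 x)
    (fun x => Real.sin x * F2 x) (fun x => Real.sin x * F3 x), ← integral_const_mul,
    ← integral_add (integ_G3 h1 h2 h3) ((integ_G3 h1' h2' h3').const_mul _)]
  congr 1
  ext q
  simp only [wt]
  ring

lemma arctan_odd (v : ℝ≥0) : ∫ x, Real.arctan x ∂gs v = 0 := by
  have h := gaussianReal_map_neg (μ := 0) (v := v)
  rw [neg_zero] at h
  have h1 : ∫ x, Real.arctan x ∂gs v = ∫ x, Real.arctan x ∂((gs v).map (fun x => -x)) := by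
    rw [gs, h]
  rw [integral_map (by fun_prop) (by fun_prop)] at h1
  simp only [Real.arctan_neg, integral_neg] at h1
  linarith

lemma arctan_int (v : ℝ≥0) : Integrable Real.arctan (gs v) :=
  Integrable.of_bound (by fun_prop) 2 (Filter.Eventually.of_forall fun x => by
    rw [Real.norm_eq_abs]; exact arctan_abs x)

lemma sin2_int (v : ℝ≥0) : Integrable (fun x => Real.sin x * Real.sin x) (gs v) :=
  Integrable.of_bound (by fun_prop) 1 (Filter.Eventually.of_forall fun x => by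
    rw [Real.norm_eq_abs, abs_mul]
    exact mul_le_one₀ (Real.abs_sin_le_one x) (abs_nonneg _) (Real.abs_sin_le_one x))

lemma xarctan_nonneg (x : ℝ) : 0 ≤ Real.arctan x * x := by
  rcases le_total 0 x with h | h
  · exact mul_nonneg (Real.arctan_nonneg.2 h) h
  · have h2 : Real.arctan x ≤ 0 := by
      have := Real.arctan_strictMono.monotone h
      rwa [Real.arctan_zero] at this
    exact mul_nonneg_of_nonpos_of_nonpos h2 h

lemma xarctan_int (v : ℝ≥0) : Integrable (fun x => Real.arctan x * x) (gs v) := by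
  refine ((gs_id_int v).norm.const_mul 2).mono' (by fun_prop)
    (Filter.Eventually.of_forall fun x => ?_)
  rw [norm_mul, Real.norm_eq_abs]
  exact mul_le_mul_of_nonneg_right (arctan_abs x) (norm_nonneg _)

lemma gs_pos_of_pos {v : ℝ≥0} (hv : v ≠ 0) {f : ℝ → ℝ} (hc : Continuous f) (h0 : ∀ x, 0 ≤ f x)
    (hi : Integrable f (gs v)) {x0 : ℝ} (hx : 0 < f x0) : 0 < ∫ x, f x ∂gs v := by
  have hop : IsOpen (Function.support f) := hc.isOpen_support
  rw [integral_pos_iff_support_of_nonneg h0 hi]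
  have h1 : (volume : Measure ℝ) ≪ gs v := gaussianReal_absolutelyContinuous' 0 hv
  by_contra hcon
  have h2 : gs v (Function.support f) = 0 := by simpa using hcon
  have h3 := h1 h2
  have h4 : (Function.support f).Nonempty := ⟨x0, hx.ne'⟩
  exact (hop.measure_pos volume h4).ne' h3

/-- the third order correlation -/
noncomputable def qq : ℝ := ∫ q, q.1 * (Real.sin q.2.1 * Real.sin q.2.2) ∂r3

lemma qq_eq : qq = 1 / 20 * ((∫ x, Real.arctan x * x ∂gs 1) *
    ((∫ x, Real.sin x * Real.sin x ∂gs qv) * ∫ x, Real.sin x * Real.sin x ∂gs qv)) := by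
  have h := int_r3_prod (F1 := fun x => x) (F2 := Real.sin) (F3 := Real.sin) (gs_id_int 1)
    (gs_sin_int qv) (gs_sin_int qv) (xarctan_int 1) (sin2_int qv) (sin2_int qv)
  rw [qq, h, gs_id, zero_mul, zero_add]

lemma qq_pos : 0 < qq := by
  rw [qq_eq]
  have h1 : 0 < ∫ x, Real.arctan x * x ∂gs 1 :=
    gs_pos_of_pos one_ne_zero (by fun_prop) xarctan_nonneg (xarctan_int 1) (x0 := 1)
      (by rw [mul_one]; exact Real.arctan_pos.2 one_pos)
  have h2 : 0 < ∫ x, Real.sin x * Real.sin x ∂gs qv :=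
    gs_pos_of_pos qv_ne (by fun_prop) (fun x => mul_self_nonneg _) (sin2_int qv) (x0 := 1)
      (mul_self_pos.2 (Real.sin_pos_of_pos_of_lt_pi one_pos
        (lt_of_lt_of_le (by norm_num) Real.pi_gt_three.le)).ne')
  positivity

lemma ss_zero : ∫ q : ℝ × ℝ × ℝ, Real.sin q.2.1 * Real.sin q.2.2 ∂r3 = 0 := by
  have h := int_r3_prod (F1 := fun _ => 1) (F2 := Real.sin) (F3 := Real.sin)
    (integrable_const 1) (gs_sin_int qv) (gs_sin_int qv)
    (by simpa using arctan_int 1) (sin2_int qv) (sin2_int qv)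
  simp only [one_mul, mul_one] at h
  rw [h, gs_sin, arctan_odd]
  simp

end Pool.Agent.Q297.Bary
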