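import Pool.Agent.Q297.BaryConv

open MeasureTheory ProbabilityTheory Filter Topology
open scoped ENNReal NNReal

namespace Pool.Agent.Q297.Bary

/-- centred Gaussian with variance `v` -/
noncomputable abbrev gs (v : ℝ≥0) : Measure ℝ := gaussianReal 0 v

/-- log-density -/
noncomputable def uu (v : ℝ≥0) (x : ℝ) : ℝ := x ^ 2 / (2 * v) + Real.log (√(2 * Real.pi * v))

lemma uu_cont (v : ℝ≥0) : Continuous (uu v) := by unfold uu; fun_prop

lemma gs_eq {v : ℝ≥0} (hv : v ≠ 0) :
    gs v = volume.withDensity fun x => ENNReal.ofReal (Real.exp (-uu v x)) := by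
  rw [gs, gaussianReal_of_var_ne_zero _ hv]
  congr 1
  ext x
  rw [gaussianPDF]
  congr 1
  rw [gaussianPDFReal, uu]
  have hv' : (0:ℝ) < v := by positivity
  have hp : 0 < √(2 * Real.pi * v) := Real.sqrt_pos.2 (by positivity)
  rw [neg_add, Real.exp_add, Real.exp_neg (Real.log _), Real.exp_log hp, mul_comm, sub_zero]
  congr 2
  ring

noncomputable def G3 (a b c : ℝ≥0) : Measure (ℝ × ℝ × ℝ) := (gs a).prod ((gs b).prod (gs c))

instance (a b c : ℝ≥0) : IsProbabilityMeasure (G3 a b c) := by unfold G3; infer_instance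

lemma G3_eq {a b c : ℝ≥0} (ha : a ≠ 0) (hb : b ≠ 0) (hc : c ≠ 0) :
    G3 a b c = volume.withDensity fun q =>
      ENNReal.ofReal (Real.exp (-(uu a q.1 + (uu b q.2.1 + uu c q.2.2)))) := by
  have hm : ∀ v : ℝ≥0, Measurable fun x : ℝ => ENNReal.ofReal (Real.exp (-uu v x)) := fun v =>
    (Real.continuous_exp.comp (uu_cont v).neg).measurable.ennreal_ofReal
  rw [G3, gs_eq ha, gs_eq hb, gs_eq hc, prod_withDensity (hm b) (hm c),
    prod_withDensity (hm a) (by
      exact ((hm b).comp measurable_fst).mul ((hm c).comp measurable_snd)),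
    ← Measure.volume_eq_prod, ← Measure.volume_eq_prod]
  congr 1
  ext q
  rw [← ENNReal.ofReal_mul (Real.exp_pos _).le, ← ENNReal.ofReal_mul (Real.exp_pos _).le,
    ← Real.exp_add, ← Real.exp_add]
  congr 2
  ring

/-- variance one quarter -/
noncomputable def qv : ℝ≥0 := 1 / 4

lemma qv_ne : qv ≠ 0 := by unfold qv; positivity

lemma qv_coe : (qv : ℝ) = 1 / 4 := by simp [qv]

noncomputable def r3 : Measure (ℝ × ℝ × ℝ) :=
  (G3 1 qv qv).withDensity fun q => ENNReal.ofReal (wt q)

lemma wt_meas : Measurable fun q => ENNReal.ofReal (wt q) := wt_cont.measurable.ennreal_ofReal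

lemma r3_eq : r3 = volume.withDensity fun q =>
    ENNReal.ofReal (Real.exp (-(uu 1 q.1 + (uu qv q.2.1 + uu qv q.2.2) - Real.log (wt q)))) := by
  have hc : Continuous fun q : ℝ × ℝ × ℝ => uu 1 q.1 + (uu qv q.2.1 + uu qv q.2.2) := by
    have := uu_cont 1
    have := uu_cont qv
    fun_prop
  have hm : Measurable fun q : ℝ × ℝ × ℝ =>
      ENNReal.ofReal (Real.exp (-(uu 1 q.1 + (uu qv q.2.1 + uu qv q.2.2)))) :=
    (Real.continuous_exp.comp hc.neg).measurable.ennreal_ofReal
  rw [r3, G3_eq one_ne_zero qv_ne qv_ne, ← withDensity_mul _ hm wt_meas]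
  congr 1
  ext q
  rw [Pi.mul_apply, ← ENNReal.ofReal_mul (Real.exp_pos _).le]
  congr 1
  rw [neg_sub, sub_eq_add_neg, Real.exp_add, Real.exp_log (wt_pos q)]
  ring

lemma gs_sin (v : ℝ≥0) : ∫ x, Real.sin x ∂gs v = 0 := by
  have h := gaussianReal_map_neg (μ := 0) (v := v)
  rw [neg_zero] at h
  have h1 : ∫ x, Real.sin x ∂gs v = ∫ x, Real.sin x ∂((gs v).map (fun x => -x)) := by
    rw [gs, h]
  rw [integral_map (by fun_prop) (by fun_prop)] at h1
  simp only [Real.sin_neg, integral_neg] at h1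
  linarith

lemma gs_sin_int (v : ℝ≥0) : Integrable Real.sin (gs v) :=
  Integrable.of_bound (by fun_prop) 1 (Filter.Eventually.of_forall fun x => by
    rw [Real.norm_eq_abs]; exact Real.abs_sin_le_one x)

lemma inner_int (v : ℝ≥0) (c : ℝ) (hc : |c| ≤ 2) :
    ∫⁻ z, ENNReal.ofReal (1 + (1 / 20) * (c * Real.sin z)) ∂gs v = 1 := by
  have hnn : ∀ z, 0 ≤ 1 + (1 / 20) * (c * Real.sin z) := by
    intro z
    have : |c * Real.sin z| ≤ 2 * 1 := by
      rw [abs_mul]
      exact mul_le_mul hc (Real.abs_sin_le_one z) (abs_nonneg _) (by norm_num)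
    have := (abs_le.1 this).1
    linarith
  have hi : Integrable (fun z => 1 + (1 / 20) * (c * Real.sin z)) (gs v) :=
    (integrable_const 1).add (((gs_sin_int v).const_mul c).const_mul (1 / 20))
  rw [← ofReal_integral_eq_lintegral_ofReal hi (Filter.Eventually.of_forall hnn)]
  rw [integral_add (integrable_const 1) (((gs_sin_int v).const_mul c).const_mul (1 / 20)),
    integral_const_mul, integral_const_mul, gs_sin]
  simp

lemma lint_r3 {H : ℝ × ℝ × ℝ → ℝ≥0∞} (hH : Measurable H) :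
    ∫⁻ q, H q ∂r3 = ∫⁻ q, ENNReal.ofReal (wt q) * H q ∂G3 1 qv qv := by
  rw [r3, lintegral_withDensity_eq_lintegral_mul _ wt_meas hH]
  rfl

lemma r3_marg1 : r3.map (fun q => (q.1, q.2.1)) = (gs 1).prod (gs qv) := by
  apply Measure.ext_of_lintegral
  intro F hF
  have hm : Measurable fun q : ℝ × ℝ × ℝ => (q.1, q.2.1) := by fun_prop
  rw [lintegral_map hF hm, lint_r3 (H := fun q => F (q.1, q.2.1)) (hF.comp hm), G3]
  rw [lintegral_prod _ (by
    exact (wt_meas.mul (hF.comp hm)).aemeasurable), lintegral_prod _ hF.aemeasurable]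
  refine lintegral_congr fun x => ?_
  have hmx : Measurable fun y : ℝ × ℝ => ((x, y) : ℝ × ℝ × ℝ) := by fun_prop
  rw [lintegral_prod _ (by
    exact ((wt_meas.mul (hF.comp hm)).comp hmx).aemeasurable)]
  refine lintegral_congr fun y => ?_
  dsimp only
  rw [lintegral_mul_const]
  · have h := inner_int qv (Real.arctan x * Real.sin y) (by
      have := tri_abs (arctan_abs x) (Real.abs_sin_le_one y) (c := 1) (by simp)
      simpa using this)
    have e : ∀ z, wt (x, y, z) = 1 + (1 / 20) * (Real.arctan x * Real.sin y * Real.sin z) := by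
      intro z; simp only [wt]; ring
    simp_rw [e, h, one_mul]
  · exact wt_meas.comp (by fun_prop)

lemma wt_swap (x y z : ℝ) : wt (x, y, z) = wt (x, z, y) := by
  simp only [wt]; ring

lemma r3_swap : r3.map (fun q => (q.1, q.2.2, q.2.1)) = r3 := by
  have hm : Measurable fun q : ℝ × ℝ × ℝ => (q.1, q.2.2, q.2.1) := by fun_prop
  have hG : (G3 1 qv qv).map (fun q : ℝ × ℝ × ℝ => (q.1, q.2.2, q.2.1)) = G3 1 qv qv := by
    have e : (fun q : ℝ × ℝ × ℝ => (q.1, q.2.2, q.2.1)) = Prod.map id Prod.swap := rfl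
    rw [e, G3, ← Measure.map_prod_map _ _ measurable_id measurable_swap, Measure.map_id,
      Measure.prod_swap]
  apply Measure.ext_of_lintegral
  intro F hF
  rw [lintegral_map hF hm, lint_r3 (H := fun q => F (q.1, q.2.2, q.2.1)) (hF.comp hm),
    lint_r3 hF]
  conv_rhs => rw [← hG]
  rw [lintegral_map (f := fun q => ENNReal.ofReal (wt q) * F q) (wt_meas.mul hF) hm]
  refine lintegral_congr fun q => ?_
  rw [wt_swap]

lemma r3_marg2 : r3.map (fun q => (q.1, q.2.2)) = (gs 1).prod (gs qv) := by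
  have e : (fun q : ℝ × ℝ × ℝ => (q.1, q.2.2)) =
    (fun q : ℝ × ℝ × ℝ => (q.1, q.2.1)) ∘ fun q : ℝ × ℝ × ℝ => (q.1, q.2.2, q.2.1) := rfl
  rw [e, ← Measure.map_map (by fun_prop) (by fun_prop), r3_swap, r3_marg1]

instance : IsProbabilityMeasure r3 := by
  constructor
  have h : r3.map (fun q => (q.1, q.2.1)) Set.univ = 1 := by rw [r3_marg1]; exact measure_univ
  rwa [Measure.map_apply (by fun_prop) MeasurableSet.univ, Set.preimage_univ] at h

end Pool.Agent.Q297.Bary
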