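import Pool.Agent.Q297.BaryMeas

open MeasureTheory ProbabilityTheory Filter Topology
open scoped ENNReal NNReal

namespace Pool.Agent.Q297.Bary

/-- four-dimensional measure with Gaussian first factor -/
noncomputable def m4 (v : ℝ≥0) (r : Measure (ℝ × ℝ × ℝ)) : Measure R4 := (gs v).prod r

instance (v : ℝ≥0) (r : Measure (ℝ × ℝ × ℝ)) [IsProbabilityMeasure r] :
    IsProbabilityMeasure (m4 v r) := by unfold m4; infer_instance

lemma m4_eq {v : ℝ≥0} (hv : v ≠ 0) {r : Measure (ℝ × ℝ × ℝ)} {U : ℝ × ℝ × ℝ → ℝ}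
    (hU : Continuous U)
    (hr : r = volume.withDensity fun q => ENNReal.ofReal (Real.exp (-U q))) :
    m4 v r = volume.withDensity fun p =>
      ENNReal.ofReal (Real.exp (-(uu v p.1 + U p.2))) := by
  have hm1 : Measurable fun x : ℝ => ENNReal.ofReal (Real.exp (-uu v x)) :=
    (Real.continuous_exp.comp (uu_cont v).neg).measurable.ennreal_ofReal
  have hm2 : Measurable fun q : ℝ × ℝ × ℝ => ENNReal.ofReal (Real.exp (-U q)) :=
    (Real.continuous_exp.comp hU.neg).measurable.ennreal_ofReal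
  have hsf : SFinite (volume.withDensity fun q : ℝ × ℝ × ℝ =>
      ENNReal.ofReal (Real.exp (-U q))) := inferInstance
  rw [m4, hr, gs_eq hv, prod_withDensity hm1 hm2, ← Measure.volume_eq_prod]
  congr 1
  ext p
  rw [← ENNReal.ofReal_mul (Real.exp_pos _).le, ← Real.exp_add]
  congr 2
  ring

lemma quad_conv {c a b x y : ℝ} (hc : 0 ≤ c) (ha : 0 ≤ a) (hb : 0 ≤ b) (hab : a + b = 1) :
    c * (a * x + b * y) ^ 2 ≤ a * (c * x ^ 2) + b * (c * y ^ 2) := by
  have ea : a = 1 - b := by linarith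
  have : a * (c * x ^ 2) + b * (c * y ^ 2) - c * (a * x + b * y) ^ 2 =
      a * b * c * (x - y) ^ 2 := by
    subst ea; ring
  have h2 : 0 ≤ a * b * c * (x - y) ^ 2 := by positivity
  linarith

/-- `uu v x - kappa / 2 * x ^ 2` satisfies the convexity inequality when `kappa * v ≤ 1`. -/
lemma uu_conv {v : ℝ≥0} (hv : v ≠ 0) {kappa a b x y : ℝ} (hk : kappa * v ≤ 1) (ha : 0 ≤ a)
    (hb : 0 ≤ b) (hab : a + b = 1) :
    uu v (a * x + b * y) - kappa / 2 * (a * x + b * y) ^ 2 ≤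
      a * (uu v x - kappa / 2 * x ^ 2) + b * (uu v y - kappa / 2 * y ^ 2) := by
  have hv' : (0:ℝ) < v := by positivity
  have hc : 0 ≤ 1 / (2 * (v:ℝ)) - kappa / 2 := by
    rw [sub_nonneg, div_le_div_iff₀ (by norm_num) (by positivity)]
    nlinarith
  have h := quad_conv (x := x) (y := y) hc ha hb hab
  unfold uu
  have e : ∀ z : ℝ, z ^ 2 / (2 * (v:ℝ)) + Real.log (√(2 * Real.pi * v)) - kappa / 2 * z ^ 2 =
      (1 / (2 * (v:ℝ)) - kappa / 2) * z ^ 2 + Real.log (√(2 * Real.pi * v)) := by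
    intro z; ring
  rw [e, e, e]
  have e2 : a * ((1 / (2 * (v:ℝ)) - kappa / 2) * x ^ 2 + Real.log (√(2 * Real.pi * v))) +
      b * ((1 / (2 * (v:ℝ)) - kappa / 2) * y ^ 2 + Real.log (√(2 * Real.pi * v))) =
      a * ((1 / (2 * (v:ℝ)) - kappa / 2) * x ^ 2) + b * ((1 / (2 * (v:ℝ)) - kappa / 2) * y ^ 2) +
      (a + b) * Real.log (√(2 * Real.pi * v)) := by ring
  rw [e2, hab]
  linarith

theorem slc_gauss {k0 : ℝ} {v a b c : ℝ≥0} (hv : v ≠ 0) (ha : a ≠ 0) (hb : b ≠ 0) (hc : c ≠ 0)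
    (h1 : k0 * v ≤ 1) (h2 : k0 * a ≤ 1) (h3 : k0 * b ≤ 1) (h4 : k0 * c ≤ 1) :
    SLC k0 ((m4 v (G3 a b c)).map tE) := by
  have hU : Continuous fun q : ℝ × ℝ × ℝ => uu a q.1 + (uu b q.2.1 + uu c q.2.2) := by
    have := uu_cont a
    have := uu_cont b
    have := uu_cont c
    fun_prop
  have hU4 : Continuous fun p : R4 => uu v p.1 + (uu a p.2.1 + (uu b p.2.2.1 + uu c p.2.2.2)) :=
    ((uu_cont v).comp continuous_fst).add (hU.comp continuous_snd)
  have e := m4_eq hv hU (G3_eq ha hb hc)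
  have hp : IsProbabilityMeasure (m4 v (G3 a b c)) := inferInstance
  rw [e] at hp ⊢
  refine slc_of (fun p : R4 => uu v p.1 + (uu a p.2.1 + (uu b p.2.2.1 + uu c p.2.2.2))) hU4 ?_ hp
  intro x y s t hs ht hst
  have g1 := uu_conv (x := x.1) (y := y.1) hv h1 hs ht hst
  have g2 := uu_conv (x := x.2.1) (y := y.2.1) ha h2 hs ht hst
  have g3 := uu_conv (x := x.2.2.1) (y := y.2.2.1) hb h3 hs ht hst
  have g4 := uu_conv (x := x.2.2.2) (y := y.2.2.2) hc h4 hs ht hst
  simp only [nsq, Prod.fst_add, Prod.snd_add, Prod.smul_fst, Prod.smul_snd, smul_eq_mul]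
  linarith

theorem slc_r3 : SLC (1 / 4) ((m4 4 r3).map tE) := by
  have hU : Continuous fun q : ℝ × ℝ × ℝ =>
      uu 1 q.1 + (uu qv q.2.1 + uu qv q.2.2) - Real.log (wt q) := by
    have := uu_cont 1
    have := uu_cont qv
    have h : Continuous fun q => Real.log (wt q) := wt_cont.log fun q => (wt_pos q).ne'
    fun_prop
  have hU4 : Continuous fun p : R4 =>
      uu 4 p.1 + (uu 1 p.2.1 + (uu qv p.2.2.1 + uu qv p.2.2.2) - Real.log (wt p.2)) :=
    ((uu_cont 4).comp continuous_fst).add (hU.comp continuous_snd)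
  have e := m4_eq (v := 4) (by norm_num) hU r3_eq
  have hp : IsProbabilityMeasure (m4 4 r3) := inferInstance
  rw [e] at hp ⊢
  refine slc_of (fun p : R4 =>
    uu 4 p.1 + (uu 1 p.2.1 + (uu qv p.2.2.1 + uu qv p.2.2.2) - Real.log (wt p.2))) hU4 ?_ hp
  intro x y s t hs ht hst
  have g1 := uu_conv (v := 4) (kappa := 1 / 4) (x := x.1) (y := y.1) (by norm_num) (by norm_num)
    hs ht hst
  have g2 := uu_conv (v := 1) (kappa := 1) (x := x.2.1) (y := y.2.1) (by norm_num) (by norm_num)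
    hs ht hst
  have g3 := uu_conv (v := qv) (kappa := 1) (x := x.2.2.1) (y := y.2.2.1) qv_ne
    (by rw [qv_coe]; norm_num) hs ht hst
  have g4 := uu_conv (v := qv) (kappa := 1) (x := x.2.2.2) (y := y.2.2.2) qv_ne
    (by rw [qv_coe]; norm_num) hs ht hst
  have g5 := KK_conv x.2 y.2 s t hs ht hst
  simp only [KK, nsq, Prod.fst_add, Prod.snd_add, Prod.smul_fst, Prod.smul_snd,
    smul_eq_mul] at g5 ⊢
  linarith

end Pool.Agent.Q297.Bary
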