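import Pool.Agent.Q297.BarySlc

open MeasureTheory ProbabilityTheory Filter Topology
open scoped ENNReal NNReal

namespace Pool.Agent.Q297.Bary

/-- the splitting direction -/
noncomputable def e0 : E4 := tE (1, 0, 0, 0)

lemma e0_norm : ‖e0‖ = 1 := by
  have h : ‖e0‖ ^ 2 = 1 := by rw [e0, norm_tE]; simp [nsq]
  have h2 : 0 ≤ ‖e0‖ := norm_nonneg _
  nlinarith

lemma inner_e0 (x : E4) : inner ℝ e0 x = x 0 := by
  simp [e0, tE, PiLp.inner_apply, Fin.sum_univ_four]

noncomputable def iota (q : ℝ × ℝ × ℝ) : E4 := tE (0, q)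

lemma iota_cont : Continuous iota := tE_cont.comp (by fun_prop)

lemma iota_perp (q : ℝ × ℝ × ℝ) : inner ℝ e0 (iota q) = 0 := by
  rw [inner_e0]
  simp [iota, tE]

lemma split_fun (p : ℝ × (ℝ × ℝ × ℝ)) : p.1 • e0 + iota p.2 = tE p := by
  ext i
  fin_cases i <;> simp [e0, iota, tE]

theorem splits_m4 {kappa : ℝ} {v : ℝ≥0} (hk : Real.toNNReal kappa⁻¹ = v)
    (r : Measure (ℝ × ℝ × ℝ)) [IsProbabilityMeasure r] :
    Splits kappa e0 ((m4 v r).map tE) := by
  have iota_meas := iota_cont.measurable
  refine ⟨r.map iota, (r.isProbabilityMeasure_map iota_meas.aemeasurable), ?_, ?_⟩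
  · rw [ae_map_iff iota_meas.aemeasurable]
    · exact Filter.Eventually.of_forall iota_perp
    · exact (isClosed_singleton.preimage (continuous_const.inner continuous_id)).measurableSet
  have hmean : inner ℝ e0 (∫ x, x ∂((m4 v r).map tE)) = 0 := by
    by_cases hi : Integrable (fun x : E4 => x) ((m4 v r).map tE)
    · rw [← integral_inner hi]
      simp_rw [inner_e0]
      rw [integral_map tE_cont.measurable.aemeasurable (by fun_prop)]
      have e1 : ∀ p : R4, (tE p) 0 = p.1 := by intro p; simp [tE]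
      simp_rw [e1]
      have h1 : ∫ p : R4, p.1 ∂(m4 v r) = ∫ x, x ∂((m4 v r).map Prod.fst) := by
        rw [integral_map (by fun_prop) (by fun_prop)]
      rw [h1, m4, Measure.map_fst_prod]
      simp
    · rw [integral_undef hi, inner_zero_right]
  rw [hmean, hk]
  have e2 : (gaussianReal 0 v).prod (r.map iota) =
      ((gs v).prod r).map (Prod.map id iota) := by
    rw [← Measure.map_prod_map _ _ measurable_id iota_meas, Measure.map_id]
  rw [e2, Measure.map_map (by fun_prop) (measurable_id.prodMap iota_meas)]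
  rw [m4]
  congr 1
  ext1 p
  simp only [Function.comp, Prod.map_fst, Prod.map_snd, id]
  exact (split_fun p).symm

end Pool.Agent.Q297.Bary
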