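import Pool.Agent.Q297.BaryCost

open MeasureTheory ProbabilityTheory Filter Topology
open scoped ENNReal NNReal

namespace Pool.Agent.Q297.Bary

/-- the weights -/
noncomputable def lm (t : ℝ≥0) : Fin 3 → ℝ := ![(1 - (t:ℝ)) / 2, (1 - (t:ℝ)) / 2, t]

/-- the three measures -/
noncomputable def mm (dl : ℝ≥0) : Fin 3 → Measure E4 :=
  ![(m4 1 (G3 1 1 (dl ^ 2))).map tE, (m4 1 (G3 1 (dl ^ 2) 1)).map tE, (m4 4 r3).map tE]

/-- the limit -/
noncomputable def nn (t : ℝ≥0) : Measure E4 := (m4 ((1 + t) ^ 2) r3).map tE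

/-- couplings of `nn` with the three measures -/
noncomputable def cp (t dl : ℝ≥0) : Fin 3 → Measure (E4 × E4) :=
  ![((m4 ((1 + t) ^ 2) r3).prod (gs (dl ^ 2))).map
      (fun z => (tE z.1, tE (z0 (1 + t : ℝ≥0) z))),
    ((m4 ((1 + t) ^ 2) r3).prod (gs (dl ^ 2))).map
      (fun z => (tE z.1, tE (z1 (1 + t : ℝ≥0) z))),
    (m4 ((1 + t) ^ 2) r3).map (fun z => (tE z, tE (z2 (1 + t : ℝ≥0) z)))]

lemma pairm {Ω : Type*} [MeasurableSpace Ω] {f g : Ω → R4} (hf : Measurable f)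
    (hg : Measurable g) : Measurable fun z => (tE (f z), tE (g z)) :=
  (tE_cont.measurable.comp hf).prodMk (tE_cont.measurable.comp hg)

lemma pair2 (s : ℝ) : Measurable fun z : R4 => (tE z, tE (z2 s z)) :=
  tE_cont.measurable.prodMk (tE_cont.measurable.comp (z2_meas s))

instance mm_prob (dl : ℝ≥0) (i : Fin 3) : IsProbabilityMeasure (mm dl i) := by
  have h := tE_cont.measurable
  fin_cases i
  · exact (m4 1 (G3 1 1 (dl ^ 2))).isProbabilityMeasure_map h.aemeasurable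
  · exact (m4 1 (G3 1 (dl ^ 2) 1)).isProbabilityMeasure_map h.aemeasurable
  · exact (m4 4 r3).isProbabilityMeasure_map h.aemeasurable

instance cp_prob (t dl : ℝ≥0) (i : Fin 3) : IsProbabilityMeasure (cp t dl i) := by
  fin_cases i
  · exact ((m4 ((1 + t) ^ 2) r3).prod (gs (dl ^ 2))).isProbabilityMeasure_map
      (pairm measurable_fst (z0_meas _)).aemeasurable
  · exact ((m4 ((1 + t) ^ 2) r3).prod (gs (dl ^ 2))).isProbabilityMeasure_map
      (pairm measurable_fst (z1_meas _)).aemeasurable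
  · exact (m4 ((1 + t) ^ 2) r3).isProbabilityMeasure_map
      (pair2 _).aemeasurable

lemma s_ne (t : ℝ≥0) : (1 + t : ℝ≥0) ≠ 0 := by positivity

lemma cp_snd (t dl : ℝ≥0) (i : Fin 3) : (cp t dl i).map Prod.snd = mm dl i := by
  fin_cases i
  · show (((m4 ((1 + t) ^ 2) r3).prod (gs (dl ^ 2))).map
      (fun z => (tE z.1, tE (z0 (1 + t : ℝ≥0) z)))).map Prod.snd =
      (m4 1 (G3 1 1 (dl ^ 2))).map tE
    rw [Measure.map_map measurable_snd (pairm measurable_fst (z0_meas _)), ← law_z0 (s_ne t),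
      Measure.map_map tE_cont.measurable (z0_meas _)]
    rfl
  · show (((m4 ((1 + t) ^ 2) r3).prod (gs (dl ^ 2))).map
      (fun z => (tE z.1, tE (z1 (1 + t : ℝ≥0) z)))).map Prod.snd =
      (m4 1 (G3 1 (dl ^ 2) 1)).map tE
    rw [Measure.map_map measurable_snd (pairm measurable_fst (z1_meas _)), ← law_z1 (s_ne t),
      Measure.map_map tE_cont.measurable (z1_meas _)]
    rfl
  · show ((m4 ((1 + t) ^ 2) r3).map (fun z => (tE z, tE (z2 (1 + t : ℝ≥0) z)))).map Prod.snd =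
      (m4 4 r3).map tE
    rw [Measure.map_map measurable_snd (pair2 _), ← law_z2 (s_ne t),
      Measure.map_map tE_cont.measurable (z2_meas _)]
    rfl

lemma cp_fst (t dl : ℝ≥0) (i : Fin 3) : (cp t dl i).map Prod.fst = nn t := by
  fin_cases i
  · show (((m4 ((1 + t) ^ 2) r3).prod (gs (dl ^ 2))).map
      (fun z => (tE z.1, tE (z0 (1 + t : ℝ≥0) z)))).map Prod.fst = (m4 ((1 + t) ^ 2) r3).map tE
    rw [Measure.map_map measurable_fst (pairm measurable_fst (z0_meas _))]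
    have h : ((m4 ((1 + t) ^ 2) r3).prod (gs (dl ^ 2))).map (fun z => z.1) =
      m4 ((1 + t) ^ 2) r3 := map_fst' _ _
    conv_rhs => rw [← h]
    rw [Measure.map_map tE_cont.measurable (by fun_prop)]
    rfl
  · show (((m4 ((1 + t) ^ 2) r3).prod (gs (dl ^ 2))).map
      (fun z => (tE z.1, tE (z1 (1 + t : ℝ≥0) z)))).map Prod.fst = (m4 ((1 + t) ^ 2) r3).map tE
    rw [Measure.map_map measurable_fst (pairm measurable_fst (z1_meas _))]
    have h : ((m4 ((1 + t) ^ 2) r3).prod (gs (dl ^ 2))).map (fun z => z.1) =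
      m4 ((1 + t) ^ 2) r3 := map_fst' _ _
    conv_rhs => rw [← h]
    rw [Measure.map_map tE_cont.measurable (by fun_prop)]
    rfl
  · show ((m4 ((1 + t) ^ 2) r3).map (fun z => (tE z, tE (z2 (1 + t : ℝ≥0) z)))).map Prod.fst =
      (m4 ((1 + t) ^ 2) r3).map tE
    rw [Measure.map_map measurable_fst (pair2 _)]
    rfl

lemma cst_cp0 (t dl : ℝ≥0) : cst (cp t dl 0) = ENNReal.ofReal ((t:ℝ) ^ 2 + 1 / 2 + (dl:ℝ) ^ 2) := by
  obtain ⟨hi, hv⟩ := cost_z0 (s_ne t) (dl ^ 2)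
  show cst (((m4 ((1 + t) ^ 2) r3).prod (gs (dl ^ 2))).map
      (fun z => (tE z.1, tE (z0 (1 + t : ℝ≥0) z)))) = _
  rw [cst_map measurable_fst (z0_meas _) hi, hv]
  congr 1
  push_cast
  ring

lemma cst_cp1 (t dl : ℝ≥0) : cst (cp t dl 1) = ENNReal.ofReal ((t:ℝ) ^ 2 + 1 / 2 + (dl:ℝ) ^ 2) := by
  obtain ⟨hi, hv⟩ := cost_z1 (s_ne t) (dl ^ 2)
  show cst (((m4 ((1 + t) ^ 2) r3).prod (gs (dl ^ 2))).map
      (fun z => (tE z.1, tE (z1 (1 + t : ℝ≥0) z)))) = _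
  rw [cst_map measurable_fst (z1_meas _) hi, hv]
  congr 1
  push_cast
  ring

lemma cst_cp2 (t dl : ℝ≥0) : cst (cp t dl 2) = ENNReal.ofReal ((1 - (t:ℝ)) ^ 2) := by
  obtain ⟨hi, hv⟩ := cost_z2 (s_ne t)
  show cst ((m4 ((1 + t) ^ 2) r3).map (fun z => (tE z, tE (z2 (1 + t : ℝ≥0) z)))) = _
  have h := cst_map (f := fun z : R4 => z) (g := z2 (1 + t : ℝ≥0)) measurable_id (z2_meas _) hi
  rw [h, hv]
  congr 1
  push_cast
  ring

lemma amgm {c y w : ℝ} (hc : 0 < c) : (1 - c) * y ^ 2 + (1 - c⁻¹) * w ^ 2 ≤ (y - w) ^ 2 := by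
  have e : (y - w) ^ 2 - ((1 - c) * y ^ 2 + (1 - c⁻¹) * w ^ 2) = c⁻¹ * (c * y - w) ^ 2 := by
    field_simp
    ring
  have : 0 ≤ c⁻¹ * (c * y - w) ^ 2 := by positivity
  linarith

/-- the rescaling in the first coordinate -/
noncomputable def wh (s : ℝ) (w : E4) : E4 := tE (s / 2 * w 0, w 1, w 2, w 3)

lemma wh_cont (s : ℝ) : Continuous (wh s) := tE_cont.comp (by fun_prop)

lemma nsq4 (x : E4) : ‖x‖ ^ 2 = x 0 ^ 2 + x 1 ^ 2 + x 2 ^ 2 + x 3 ^ 2 := norm_cE x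

lemma wh_law {s : ℝ≥0} : ((m4 4 r3).map tE).map (wh s) = (m4 (s ^ 2) r3).map tE := by
  have h : (m4 4 r3).map (fun p => ((s:ℝ) / 2 * p.1, p.2)) = m4 (s ^ 2) r3 := by
    refine pm (gs 4) r3 (f := fun y => (s:ℝ) / 2 * y) (g := fun y => y) (by fun_prop)
      (by fun_prop) (gs_scale ?_) Measure.map_id
    push_cast; ring
  rw [← h, Measure.map_map (wh_cont _).measurable tE_cont.measurable,
    Measure.map_map tE_cont.measurable (by fun_prop)]
  congr 1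

/-- second moments of coordinates of a pushforward -/
lemma coord_mom {m : Measure R4} {v0 v1 v2 v3 : ℝ≥0} (h : Cw m v0 v1 v2 v3) :
    (∀ k : Fin 4, Integrable (fun x : E4 => x k ^ 2) (m.map tE)) ∧
    ∫ x, x 0 ^ 2 ∂(m.map tE) = v0 ∧ ∫ x, x 1 ^ 2 ∂(m.map tE) = v1 ∧
    ∫ x, x 2 ^ 2 ∂(m.map tE) = v2 ∧ ∫ x, x 3 ^ 2 ∂(m.map tE) = v3 := by
  have hm := tE_cont.measurable
  have e0 : (m.map tE).map (fun x : E4 => x 0) = gs v0 := by
    rw [Measure.map_map (by fun_prop) hm, ← h.c0]; rfl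
  have e1 : (m.map tE).map (fun x : E4 => x 1) = gs v1 := by
    rw [Measure.map_map (by fun_prop) hm, ← h.c1]; rfl
  have e2 : (m.map tE).map (fun x : E4 => x 2) = gs v2 := by
    rw [Measure.map_map (by fun_prop) hm, ← h.c2]; rfl
  have e3 : (m.map tE).map (fun x : E4 => x 3) = gs v3 := by
    rw [Measure.map_map (by fun_prop) hm, ← h.c3]; rfl
  obtain ⟨i0, j0⟩ := law_sq (by fun_prop) e0
  obtain ⟨i1, j1⟩ := law_sq (by fun_prop) e1
  obtain ⟨i2, j2⟩ := law_sq (by fun_prop) e2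
  obtain ⟨i3, j3⟩ := law_sq (by fun_prop) e3
  refine ⟨?_, j0, j1, j2, j3⟩
  intro k
  fin_cases k
  exacts [i0, i1, i2, i3]

end Pool.Agent.Q297.Bary
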