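import Pool.Agent.Q297.BaryStab

open MeasureTheory ProbabilityTheory Filter Topology
open scoped ENNReal NNReal

namespace Pool.Agent.Q297.Bary

lemma lin6 {α : Type*} [MeasurableSpace α] {m : Measure α} {f1 f2 f3 f4 f5 f6 : α → ℝ}
    (c1 c2 c3 c4 c5 c6 : ℝ)
    (h1 : Integrable f1 m) (h2 : Integrable f2 m) (h3 : Integrable f3 m) (h4 : Integrable f4 m)
    (h5 : Integrable f5 m) (h6 : Integrable f6 m) :
    Integrable (fun z => c1 * f1 z + c2 * f2 z + c3 * f3 z + c4 * f4 z + c5 * f5 z + c6 * f6 z) m ∧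
    ∫ z, (c1 * f1 z + c2 * f2 z + c3 * f3 z + c4 * f4 z + c5 * f5 z + c6 * f6 z) ∂m =
      c1 * ∫ z, f1 z ∂m + c2 * ∫ z, f2 z ∂m + c3 * ∫ z, f3 z ∂m + c4 * ∫ z, f4 z ∂m +
        c5 * ∫ z, f5 z ∂m + c6 * ∫ z, f6 z ∂m := by
  have g1 : Integrable (fun z => c1 * f1 z) m := h1.const_mul c1
  have g2 : Integrable (fun z => c2 * f2 z) m := h2.const_mul c2
  have g3 : Integrable (fun z => c3 * f3 z) m := h3.const_mul c3
  have g4 : Integrable (fun z => c4 * f4 z) m := h4.const_mul c4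
  have g5 : Integrable (fun z => c5 * f5 z) m := h5.const_mul c5
  have g6 : Integrable (fun z => c6 * f6 z) m := h6.const_mul c6
  have k2 : Integrable (fun z => c1 * f1 z + c2 * f2 z) m := g1.add g2
  have k3 : Integrable (fun z => c1 * f1 z + c2 * f2 z + c3 * f3 z) m := k2.add g3
  have k4 : Integrable (fun z => c1 * f1 z + c2 * f2 z + c3 * f3 z + c4 * f4 z) m := k3.add g4
  have k5 : Integrable (fun z => c1 * f1 z + c2 * f2 z + c3 * f3 z + c4 * f4 z + c5 * f5 z) m :=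
    k4.add g5
  refine ⟨k5.add g6, ?_⟩
  rw [integral_add k5 g6, integral_add k4 g5, integral_add k3 g4, integral_add k2 g3,
    integral_add g1 g2, integral_const_mul, integral_const_mul, integral_const_mul,
    integral_const_mul, integral_const_mul, integral_const_mul]

lemma mom_of_map {α : Type*} [MeasurableSpace α] {m : Measure α} {g : α → E4}
    (hg : Measurable g) {mu : Measure E4} (h : m.map g = mu) {k : Fin 4}
    (hi : Integrable (fun x : E4 => x k ^ 2) mu) :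
    Integrable (fun z => g z k ^ 2) m ∧ ∫ z, g z k ^ 2 ∂m = ∫ x, x k ^ 2 ∂mu := by
  subst h
  have hc : Continuous fun x : E4 => x k ^ 2 := by fun_prop
  exact ⟨hi.comp_measurable hg,
    (integral_map (f := fun x : E4 => x k ^ 2) hg.aemeasurable hc.aestronglyMeasurable).symm⟩

theorem stab {t dl : ℝ≥0} (ht : 0 < t) (ht1 : t < 1) (hd : 0 < dl) (hdt : dl ≤ t / 2)
    {rho : Measure E4} {p : Fin 3 → Measure (E4 × E4)}
    (hf : ∀ i, (p i).map Prod.fst = rho)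
    (hs : ∀ i, (p i).map Prod.snd = mm dl i)
    (hc : ∑ i, ENNReal.ofReal (lm t i) * cst (p i) ≤
      ∑ i, ENNReal.ofReal (lm t i) * cst (cp t dl i)) :
    Integrable (fun z : E4 × E4 => ‖z.1 - wh (1 + t : ℝ≥0) z.2‖ ^ 2) (p 2) ∧
    ∫ z : E4 × E4, ‖z.1 - wh (1 + t : ℝ≥0) z.2‖ ^ 2 ∂(p 2) ≤ 3 * dl / t := by
  set T : ℝ := (t : ℝ) with hT
  set D : ℝ := (dl : ℝ) with hD
  have hT0 : 0 < T := by exact_mod_cast ht
  have hT1 : T < 1 := by exact_mod_cast ht1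
  have hD0 : 0 < D := by exact_mod_cast hd
  have hDT : D ≤ T / 2 := by
    have : ((dl : ℝ≥0) : ℝ) ≤ ((t / 2 : ℝ≥0) : ℝ) := by exact_mod_cast hdt
    simpa using this
  have hsig : ((1 + t : ℝ≥0) : ℝ) = 1 + T := by push_cast; rfl
  rw [hsig]
  set σ : ℝ := 1 + T with hσ
  have hσ0 : 0 < σ := by positivity
  -- weights
  have l0 : lm t 0 = (1 - T) / 2 := rfl
  have l1 : lm t 1 = (1 - T) / 2 := rfl
  have l2 : lm t 2 = T := rfl
  have hlpos : ∀ i, 0 < lm t i := by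
    intro i
    fin_cases i
    · show 0 < (1 - T) / 2; linarith
    · show 0 < (1 - T) / 2; linarith
    · exact hT0
  -- right-hand side
  set U : ℝ := (1 - T) / 2 * (T ^ 2 + 1 / 2 + D ^ 2) + (1 - T) / 2 * (T ^ 2 + 1 / 2 + D ^ 2) +
    T * (1 - T) ^ 2 with hU
  have hR : ∑ i, ENNReal.ofReal (lm t i) * cst (cp t dl i) = ENNReal.ofReal U := by
    have q1 : (0:ℝ) ≤ (1 - T) / 2 := by linarith
    have q2 : (0:ℝ) ≤ (1 - T) / 2 * (T ^ 2 + 1 / 2 + D ^ 2) := by positivity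
    rw [Fin.sum_univ_three, cst_cp0, cst_cp1, cst_cp2, l0, l1, l2, ← ENNReal.ofReal_mul q1,
      ← ENNReal.ofReal_mul hT0.le, ← ENNReal.ofReal_add q2 q2,
      ← ENNReal.ofReal_add (by positivity) (by positivity)]
  rw [hR] at hc
  have hfin : ∀ i, cst (p i) ≠ ⊤ := by
    intro i htop
    have h1 : ENNReal.ofReal (lm t i) * cst (p i) ≤ ENNReal.ofReal U :=
      (Finset.single_le_sum (f := fun i => ENNReal.ofReal (lm t i) * cst (p i))
        (fun _ _ => zero_le) (Finset.mem_univ i)).trans hc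
    rw [htop, ENNReal.mul_top (by rw [Ne, ENNReal.ofReal_eq_zero, not_le]; exact hlpos i)] at h1
    exact absurd h1 (not_le.2 ENNReal.ofReal_lt_top)
  have hI : ∀ i, Integrable (fun z : E4 × E4 => ‖z.1 - z.2‖ ^ 2) (p i) := fun i =>
    int_of_cst (hfin i)
  set rc : Fin 3 → ℝ := fun i => ∫ z, ‖z.1 - z.2‖ ^ 2 ∂(p i) with hrc
  have hrc0 : ∀ i, 0 ≤ rc i := fun i => integral_nonneg fun z => sq_nonneg _
  have hreal : (1 - T) / 2 * rc 0 + (1 - T) / 2 * rc 1 + T * rc 2 ≤ U := by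
    have q1 : (0:ℝ) ≤ (1 - T) / 2 := by linarith
    have h1 : ∑ i, ENNReal.ofReal (lm t i) * cst (p i) =
        ENNReal.ofReal ((1 - T) / 2 * rc 0 + (1 - T) / 2 * rc 1 + T * rc 2) := by
      rw [Fin.sum_univ_three, cst_real (hI 0), cst_real (hI 1), cst_real (hI 2), l0, l1, l2,
        ← ENNReal.ofReal_mul q1, ← ENNReal.ofReal_mul q1, ← ENNReal.ofReal_mul hT0.le,
        ← ENNReal.ofReal_add (mul_nonneg q1 (hrc0 0)) (mul_nonneg q1 (hrc0 1)),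
        ← ENNReal.ofReal_add (add_nonneg (mul_nonneg q1 (hrc0 0)) (mul_nonneg q1 (hrc0 1)))
          (mul_nonneg hT0.le (hrc0 2))]
    rw [h1] at hc
    have hU0 : 0 ≤ U := by
      have q2 : (0:ℝ) ≤ (1 - T) / 2 * (T ^ 2 + 1 / 2 + D ^ 2) := by positivity
      have q3 : 0 ≤ T * (1 - T) ^ 2 := by positivity
      linarith
    exact (ENNReal.ofReal_le_ofReal_iff hU0).1 hc
  -- moments of the second marginals
  obtain ⟨a0i, a00, -, a02, a03⟩ := coord_mom (cw_gauss 1 1 1 (dl ^ 2))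
  obtain ⟨a1i, a10, -, a12, a13⟩ := coord_mom (cw_gauss 1 1 (dl ^ 2) 1)
  obtain ⟨a2i, a20, -, a22, a23⟩ := coord_mom (cw_r3 4)
  have s0 : (p 0).map Prod.snd = (m4 1 (G3 1 1 (dl ^ 2))).map tE := hs 0
  have s1 : (p 1).map Prod.snd = (m4 1 (G3 1 (dl ^ 2) 1)).map tE := hs 1
  have s2 : (p 2).map Prod.snd = (m4 4 r3).map tE := hs 2
  have b0 := fun k => mom_of_map measurable_snd s0 (a0i k)
  have b1 := fun k => mom_of_map measurable_snd s1 (a1i k)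
  have b2 := fun k => mom_of_map measurable_snd s2 (a2i k)
  -- moments of rho
  have hco : ∀ (x : E4) (k : Fin 4), x k ^ 2 ≤ ‖x‖ ^ 2 := by
    intro x k
    rw [nsq4]
    have g0 := sq_nonneg (x 0)
    have g1 := sq_nonneg (x 1)
    have g2 := sq_nonneg (x 2)
    have g3 := sq_nonneg (x 3)
    fin_cases k
    · show x 0 ^ 2 ≤ _
      linarith
    · show x 1 ^ 2 ≤ _
      linarith
    · show x 2 ^ 2 ≤ _
      linarith
    · show x 3 ^ 2 ≤ _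
      linarith
  have hrho : ∀ k : Fin 4, Integrable (fun x : E4 => x k ^ 2) rho := by
    intro k
    rw [← hf 0]
    rw [integrable_map_measure (by fun_prop) (by fun_prop)]
    have hb : Integrable (fun z : E4 × E4 => 2 * ‖z.1 - z.2‖ ^ 2 + 2 * z.2 k ^ 2) (p 0) :=
      ((hI 0).const_mul 2).add ((b0 k).1.const_mul 2)
    refine hb.mono' (by fun_prop) (Filter.Eventually.of_forall fun z => ?_)
    rw [Real.norm_eq_abs, Function.comp, abs_of_nonneg (sq_nonneg _)]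
    have h1 := hco (z.1 - z.2) k
    have h2 : (z.1 - z.2) k = z.1 k - z.2 k := rfl
    rw [h2] at h1
    nlinarith [sq_nonneg (z.1 k - 2 * z.2 k)]
  set M : Fin 4 → ℝ := fun k => ∫ x, x k ^ 2 ∂rho with hM
  have c0 := fun k => mom_of_map measurable_fst (hf 0) (hrho k)
  have c1 := fun k => mom_of_map measurable_fst (hf 1) (hrho k)
  have c2 := fun k => mom_of_map measurable_fst (hf 2) (hrho k)
  have hnsub : ∀ z : E4 × E4, ‖z.1 - z.2‖ ^ 2 = (z.1 0 - z.2 0) ^ 2 + (z.1 1 - z.2 1) ^ 2 +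
      (z.1 2 - z.2 2) ^ 2 + (z.1 3 - z.2 3) ^ 2 := by
    intro z; rw [nsq4]; rfl
  have hσi : (0:ℝ) < σ⁻¹ := by positivity
  -- first coupling
  have e0 : (1 - σ⁻¹) * M 0 + (1 - σ) * 1 + (1 - 2) * M 2 + (1 - 2⁻¹) * 1 + (1 - D) * M 3 +
      (1 - D⁻¹) * D ^ 2 ≤ rc 0 := by
    obtain ⟨I, J⟩ := lin6 (1 - σ⁻¹) (1 - σ) (1 - 2) (1 - 2⁻¹) (1 - D) (1 - D⁻¹)
      (c0 0).1 (b0 0).1 (c0 2).1 (b0 2).1 (c0 3).1 (b0 3).1
    have hle := integral_mono I (hI 0) (fun z => by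
      show _ ≤ ‖z.1 - z.2‖ ^ 2
      rw [hnsub]
      have g1 := amgm (y := z.1 0) (w := z.2 0) hσi
      rw [inv_inv] at g1
      have g2 := amgm (y := z.1 2) (w := z.2 2) (c := 2) (by norm_num)
      have g3 := amgm (y := z.1 3) (w := z.2 3) hD0
      have g4 := sq_nonneg (z.1 1 - z.2 1)
      linarith)
    rw [J, (c0 0).2, (b0 0).2, (c0 2).2, (b0 2).2, (c0 3).2, (b0 3).2, a00, a02, a03] at hle
    push_cast at hle
    exact hle
  have e1 : (1 - σ⁻¹) * M 0 + (1 - σ) * 1 + (1 - 2) * M 3 + (1 - 2⁻¹) * 1 + (1 - D) * M 2 +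
      (1 - D⁻¹) * D ^ 2 ≤ rc 1 := by
    obtain ⟨I, J⟩ := lin6 (1 - σ⁻¹) (1 - σ) (1 - 2) (1 - 2⁻¹) (1 - D) (1 - D⁻¹)
      (c1 0).1 (b1 0).1 (c1 3).1 (b1 3).1 (c1 2).1 (b1 2).1
    have hle := integral_mono I (hI 1) (fun z => by
      show _ ≤ ‖z.1 - z.2‖ ^ 2
      rw [hnsub]
      have g1 := amgm (y := z.1 0) (w := z.2 0) hσi
      rw [inv_inv] at g1
      have g2 := amgm (y := z.1 3) (w := z.2 3) (c := 2) (by norm_num)
      have g3 := amgm (y := z.1 2) (w := z.2 2) hD0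
      have g4 := sq_nonneg (z.1 1 - z.2 1)
      linarith)
    rw [J, (c1 0).2, (b1 0).2, (c1 3).2, (b1 3).2, (c1 2).2, (b1 2).2, a10, a12, a13] at hle
    push_cast at hle
    exact hle
  -- third coupling
  have hnw : ∀ z : E4 × E4, ‖z.1 - wh σ z.2‖ ^ 2 = (z.1 0 - σ / 2 * z.2 0) ^ 2 +
      (z.1 1 - z.2 1) ^ 2 + (z.1 2 - z.2 2) ^ 2 + (z.1 3 - z.2 3) ^ 2 := by
    intro z
    rw [nsq4]
    simp [wh, tE]
  have hpt : ∀ z : E4 × E4, (1 - 2 * σ⁻¹) * z.1 0 ^ 2 + (1 - σ / 2) * z.2 0 ^ 2 +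
      ‖z.1 - wh σ z.2‖ ^ 2 ≤ ‖z.1 - z.2‖ ^ 2 := by
    intro z
    rw [hnsub, hnw]
    set y := z.1 0
    set w := z.2 0
    have g : (y - w) ^ 2 - ((1 - 2 * σ⁻¹) * y ^ 2 + (1 - σ / 2) * w ^ 2 + (y - σ / 2 * w) ^ 2) =
        (2 * σ⁻¹ - 1) * (y - σ / 2 * w) ^ 2 := by
      field_simp
      ring
    have g2 : 0 ≤ (2 * σ⁻¹ - 1) * (y - σ / 2 * w) ^ 2 := by
      apply mul_nonneg _ (sq_nonneg _)
      rw [sub_nonneg, ← div_eq_mul_inv, le_div_iff₀ hσ0]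
      linarith
    linarith
  have hmw : Measurable fun z : E4 × E4 => ‖z.1 - wh σ z.2‖ ^ 2 := by
    have := wh_cont σ
    have h2 : Continuous fun z : E4 × E4 => ‖z.1 - wh σ z.2‖ ^ 2 :=
      (continuous_fst.sub (this.comp continuous_snd)).norm.pow 2
    exact h2.measurable
  have hIw : Integrable (fun z : E4 × E4 => ‖z.1 - wh σ z.2‖ ^ 2) (p 2) := by
    have hb : Integrable (fun z : E4 × E4 => ‖z.1 - z.2‖ ^ 2 + (|1 - 2 * σ⁻¹| * z.1 0 ^ 2 +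
        |1 - σ / 2| * z.2 0 ^ 2)) (p 2) :=
      (hI 2).add (((c2 0).1.const_mul _).add ((b2 0).1.const_mul _))
    refine hb.mono' hmw.aestronglyMeasurable (Filter.Eventually.of_forall fun z => ?_)
    rw [Real.norm_eq_abs, abs_of_nonneg (sq_nonneg _)]
    have h1 := hpt z
    have h2 := mul_le_mul_of_nonneg_right (neg_abs_le (1 - 2 * σ⁻¹)) (sq_nonneg (z.1 0))
    have h3 := mul_le_mul_of_nonneg_right (neg_abs_le (1 - σ / 2)) (sq_nonneg (z.2 0))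
    linarith
  refine ⟨hIw, ?_⟩
  set W : ℝ := ∫ z : E4 × E4, ‖z.1 - wh σ z.2‖ ^ 2 ∂(p 2) with hW
  have e2 : (1 - 2 * σ⁻¹) * M 0 + (1 - σ / 2) * 4 + W ≤ rc 2 := by
    have i1 : Integrable (fun z : E4 × E4 => (1 - 2 * σ⁻¹) * z.1 0 ^ 2) (p 2) :=
      (c2 0).1.const_mul _
    have i2 : Integrable (fun z : E4 × E4 => (1 - σ / 2) * z.2 0 ^ 2) (p 2) :=
      (b2 0).1.const_mul _
    have i3 : Integrable (fun z : E4 × E4 => (1 - 2 * σ⁻¹) * z.1 0 ^ 2 +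
      (1 - σ / 2) * z.2 0 ^ 2) (p 2) := i1.add i2
    have i4 : Integrable (fun z : E4 × E4 => (1 - 2 * σ⁻¹) * z.1 0 ^ 2 +
      (1 - σ / 2) * z.2 0 ^ 2 + ‖z.1 - wh σ z.2‖ ^ 2) (p 2) := i3.add hIw
    have hle : ∫ z : E4 × E4, ((1 - 2 * σ⁻¹) * z.1 0 ^ 2 +
      (1 - σ / 2) * z.2 0 ^ 2 + ‖z.1 - wh σ z.2‖ ^ 2) ∂(p 2) ≤ rc 2 :=
      integral_mono i4 (hI 2) (fun z => hpt z)
    have hsplit : ∫ z : E4 × E4, ((1 - 2 * σ⁻¹) * z.1 0 ^ 2 +
      (1 - σ / 2) * z.2 0 ^ 2 + ‖z.1 - wh σ z.2‖ ^ 2) ∂(p 2) =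
        (1 - 2 * σ⁻¹) * M 0 + (1 - σ / 2) * 4 + W := by
      rw [integral_add i3 hIw, integral_add i1 i2, integral_const_mul, integral_const_mul,
        (c2 0).2, (b2 0).2, a20]
      show (1 - 2 * σ⁻¹) * M 0 + (1 - σ / 2) * ((4 : ℝ≥0) : ℝ) + W = _
      push_cast
      ring
    rw [hsplit] at hle
    exact hle
  have e3 : M 2 + M 3 ≤ 2 * W + 1 := by
    have i1 : Integrable (fun z : E4 × E4 => 2 * ‖z.1 - wh σ z.2‖ ^ 2) (p 2) := hIw.const_mul 2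
    have i2 : Integrable (fun z : E4 × E4 => 2 * z.2 2 ^ 2 + 2 * z.2 3 ^ 2) (p 2) :=
      ((b2 2).1.const_mul 2).add ((b2 3).1.const_mul 2)
    have i3 : Integrable (fun z : E4 × E4 => z.1 2 ^ 2 + z.1 3 ^ 2) (p 2) :=
      (c2 2).1.add (c2 3).1
    have hle := integral_mono i3 (i1.add i2) (fun z => by
      show z.1 2 ^ 2 + z.1 3 ^ 2 ≤ 2 * ‖z.1 - wh σ z.2‖ ^ 2 + (2 * z.2 2 ^ 2 + 2 * z.2 3 ^ 2)
      rw [hnw]
      nlinarith [sq_nonneg (z.1 2 - 2 * z.2 2), sq_nonneg (z.1 3 - 2 * z.2 3),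
        sq_nonneg (z.1 0 - σ / 2 * z.2 0), sq_nonneg (z.1 1 - z.2 1)])
    rw [integral_add (c2 2).1 (c2 3).1, integral_add' i1 i2,
      integral_add ((b2 2).1.const_mul 2) ((b2 3).1.const_mul 2), integral_const_mul,
      integral_const_mul, integral_const_mul, (c2 2).2, (c2 3).2, (b2 2).2, (b2 3).2, a22, a23,
      qv_coe] at hle
    have : 2 * W + (2 * (1 / 4) + 2 * (1 / 4)) = 2 * W + 1 := by ring
    linarith
  -- final arithmetic
  have hW0 : 0 ≤ W := integral_nonneg fun z => sq_nonneg _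
  have k0 : (1 - T) / 2 * ((1 - σ⁻¹) * M 0 + (1 - σ) * 1 + (1 - 2) * M 2 + (1 - 2⁻¹) * 1 +
      (1 - D) * M 3 + (1 - D⁻¹) * D ^ 2) +
      (1 - T) / 2 * ((1 - σ⁻¹) * M 0 + (1 - σ) * 1 + (1 - 2) * M 3 + (1 - 2⁻¹) * 1 +
      (1 - D) * M 2 + (1 - D⁻¹) * D ^ 2) +
      T * ((1 - 2 * σ⁻¹) * M 0 + (1 - σ / 2) * 4 + W) ≤ U := by
    have q1 : (0:ℝ) ≤ (1 - T) / 2 := by linarith
    have w0 := mul_le_mul_of_nonneg_left e0 q1
    have w1 := mul_le_mul_of_nonneg_left e1 q1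
    have w2 := mul_le_mul_of_nonneg_left e2 hT0.le
    linarith
  have k1 : T * W ≤ (1 - T) / 2 * D * (M 2 + M 3 + 2) := by
    have hDi : D⁻¹ * D ^ 2 = D := by field_simp
    have hσT : σ⁻¹ * (1 + T) = 1 := by rw [← hσ]; field_simp
    have id1 : (1 - T) / 2 * ((1 - σ⁻¹) * M 0 + (1 - σ) * 1 + (1 - 2) * M 2 + (1 - 2⁻¹) * 1 +
      (1 - D) * M 3 + (1 - D⁻¹) * D ^ 2) +
      (1 - T) / 2 * ((1 - σ⁻¹) * M 0 + (1 - σ) * 1 + (1 - 2) * M 3 + (1 - 2⁻¹) * 1 +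
      (1 - D) * M 2 + (1 - D⁻¹) * D ^ 2) +
      T * ((1 - 2 * σ⁻¹) * M 0 + (1 - σ / 2) * 4 + W) =
      (1 - σ⁻¹ * (1 + T)) * M 0 + (1 - T) * (1 - σ) - (1 - T) / 2 * D * (M 2 + M 3) +
      (1 - T) / 2 + (1 - T) * (D ^ 2 - D⁻¹ * D ^ 2) + 4 * T * (1 - σ / 2) + T * W := by ring
    rw [id1, hσT, hDi, hσ, hU] at k0
    nlinarith
  have k2 : T * W ≤ 1 / 2 * D * (2 * W + 3) := by
    have q2 : 0 ≤ M 2 + M 3 + 2 := by
      have h2 : 0 ≤ M 2 := integral_nonneg fun x => sq_nonneg _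
      have h3 : 0 ≤ M 3 := integral_nonneg fun x => sq_nonneg _
      linarith
    have h1 : (1 - T) / 2 * D * (M 2 + M 3 + 2) ≤ 1 / 2 * D * (M 2 + M 3 + 2) := by
      apply mul_le_mul_of_nonneg_right _ q2
      apply mul_le_mul_of_nonneg_right _ hD0.le
      linarith
    have h2 : 1 / 2 * D * (M 2 + M 3 + 2) ≤ 1 / 2 * D * (2 * W + 3) := by
      apply mul_le_mul_of_nonneg_left _ (by positivity)
      linarith
    linarith
  rw [le_div_iff₀ hT0]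
  nlinarith [mul_le_mul_of_nonneg_right hDT hW0]

end Pool.Agent.Q297.Bary
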