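import Pool.Agent.Q297.BaryInt

open MeasureTheory ProbabilityTheory Filter Topology
open scoped ENNReal NNReal ContDiff

namespace Pool.Agent.Q297.Bary

/-- the test function before cutting off -/
noncomputable def gg (eta : ℝ) (y : E4) : ℝ := y 1 + eta * (Real.sin (y 2) * Real.sin (y 3))

lemma gg_smooth (eta : ℝ) : ContDiff ℝ ∞ (gg eta) := by
  unfold gg; fun_prop

lemma co_le (x : E4) (k : Fin 4) : |x k| ≤ ‖x‖ := by
  have := PiLp.norm_apply_le x k
  simpa using this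

lemma gg_fderiv (eta : ℝ) (y v : E4) : fderiv ℝ (gg eta) y v =
    v 1 + eta * (Real.cos (y 2) * v 2 * Real.sin (y 3) + Real.sin (y 2) * (Real.cos (y 3) * v 3)) := by
  have h1 : ∀ k : Fin 4, HasFDerivAt (fun x : E4 => x k) (EuclideanSpace.proj k : E4 →L[ℝ] ℝ) y :=
    fun k => (EuclideanSpace.proj k : E4 →L[ℝ] ℝ).hasFDerivAt
  have h2 := (h1 1).add (((h1 2).sin.mul (h1 3).sin).const_mul eta)
  have h3 : HasFDerivAt (gg eta) _ y := h2
  rw [h3.fderiv]
  have hp : ∀ k : Fin 4, (EuclideanSpace.proj k : E4 →L[ℝ] ℝ) v = v k := fun k => rfl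
  simp only [_root_.add_apply, _root_.smul_apply, smul_eq_mul, hp]
  ring

lemma gg_fderiv_norm (eta : ℝ) (y : E4) : ‖fderiv ℝ (gg eta) y‖ ^ 2 ≤ 1 + 2 * eta ^ 2 := by
  have hnn : (0:ℝ) ≤ 1 + 2 * eta ^ 2 := by positivity
  have h : ‖fderiv ℝ (gg eta) y‖ ≤ √(1 + 2 * eta ^ 2) := by
    refine ContinuousLinearMap.opNorm_le_bound _ (Real.sqrt_nonneg _) fun v => ?_
    rw [gg_fderiv, Real.norm_eq_abs]
    apply abs_le_of_sq_le_sq
    · rw [mul_pow, Real.sq_sqrt hnn, nsq4]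
      set a := Real.cos (y 2) * Real.sin (y 3) with ha
      set b := Real.sin (y 2) * Real.cos (y 3) with hb
      have e : v 1 + eta * (Real.cos (y 2) * v 2 * Real.sin (y 3) +
          Real.sin (y 2) * (Real.cos (y 3) * v 3)) = v 1 + eta * (a * v 2 + b * v 3) := by
        rw [ha, hb]; ring
      rw [e]
      have ha2 : a ^ 2 ≤ 1 := by
        rw [ha, mul_pow]
        exact mul_le_one₀ (Real.cos_sq_le_one _) (sq_nonneg _) (Real.sin_sq_le_one _)
      have hb2 : b ^ 2 ≤ 1 := by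
        rw [hb, mul_pow]
        exact mul_le_one₀ (Real.sin_sq_le_one _) (sq_nonneg _) (Real.cos_sq_le_one _)
      have cs1 : (a * v 2 + b * v 3) ^ 2 ≤ 2 * (v 2 ^ 2 + v 3 ^ 2) := by
        have : (a * v 2 + b * v 3) ^ 2 ≤ (a ^ 2 + b ^ 2) * (v 2 ^ 2 + v 3 ^ 2) := by
          nlinarith [sq_nonneg (a * v 3 - b * v 2)]
        nlinarith [sq_nonneg (v 2), sq_nonneg (v 3)]
      set w := a * v 2 + b * v 3
      have cs2 : (v 1 + eta * w) ^ 2 ≤ (1 + 2 * eta ^ 2) * (v 1 ^ 2 + w ^ 2 / 2) := by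
        nlinarith [sq_nonneg (2 * eta * v 1 - w)]
      have : (1 + 2 * eta ^ 2) * (v 1 ^ 2 + w ^ 2 / 2) ≤
          (1 + 2 * eta ^ 2) * (v 0 ^ 2 + v 1 ^ 2 + v 2 ^ 2 + v 3 ^ 2) := by
        apply mul_le_mul_of_nonneg_left _ hnn
        nlinarith [sq_nonneg (v 0)]
      linarith
    · positivity
  calc ‖fderiv ℝ (gg eta) y‖ ^ 2 ≤ (√(1 + 2 * eta ^ 2)) ^ 2 :=
        pow_le_pow_left₀ (norm_nonneg _) h 2
    _ = 1 + 2 * eta ^ 2 := Real.sq_sqrt hnn

lemma gg_abs (eta : ℝ) (y : E4) : |gg eta y| ≤ |y 1| + |eta| := by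
  unfold gg
  refine (abs_add_le _ _).trans (add_le_add le_rfl ?_)
  rw [abs_mul, abs_mul]
  have : |Real.sin (y 2)| * |Real.sin (y 3)| ≤ 1 :=
    mul_le_one₀ (Real.abs_sin_le_one _) (abs_nonneg _) (Real.abs_sin_le_one _)
  exact mul_le_of_le_one_right (abs_nonneg _) this

/-- integrals against the limit measure in coordinates -/
lemma nn_int {t : ℝ≥0} {F : E4 → ℝ} (hF : Continuous F) :
    ∫ x, F x ∂(nn t) = ∫ p, F (tE p) ∂(m4 ((1 + t) ^ 2) r3) := by
  rw [nn, integral_map tE_cont.measurable.aemeasurable hF.aestronglyMeasurable]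

instance nn_prob (t : ℝ≥0) : IsProbabilityMeasure (nn t) :=
  (m4 ((1 + t) ^ 2) r3).isProbabilityMeasure_map tE_cont.measurable.aemeasurable

lemma nn_y1 (t : ℝ≥0) : (nn t).map (fun x : E4 => x 1) = gs 1 := by
  rw [nn, Measure.map_map (by fun_prop) tE_cont.measurable, ← (cw_r3 ((1 + t) ^ 2)).c1]; rfl

lemma nn_tail {t : ℝ≥0} {F : ℝ × ℝ × ℝ → ℝ} (hF : Continuous F) :
    ∫ x : E4, F (x 1, x 2, x 3) ∂(nn t) = ∫ q, F q ∂r3 := by
  rw [nn_int (by fun_prop)]
  have h : (m4 ((1 + t) ^ 2) r3).map (fun p => p.2) = r3 := map_snd' _ _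
  conv_rhs => rw [← h]
  rw [integral_map (by fun_prop) hF.aestronglyMeasurable]
  rfl

lemma gg_int (t : ℝ≥0) (eta : ℝ) : Integrable (gg eta) (nn t) ∧ ∫ x, gg eta x ∂(nn t) = 0 := by
  obtain ⟨i1, j1⟩ := law_id (by fun_prop) (nn_y1 t)
  have i2 : Integrable (fun x : E4 => Real.sin (x 2) * Real.sin (x 3)) (nn t) :=
    Integrable.of_bound (by fun_prop) 1 (Filter.Eventually.of_forall fun x => by
      rw [Real.norm_eq_abs, abs_mul]
      exact mul_le_one₀ (Real.abs_sin_le_one _) (abs_nonneg _) (Real.abs_sin_le_one _))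
  have i3 : Integrable (fun x : E4 => eta * (Real.sin (x 2) * Real.sin (x 3))) (nn t) :=
    i2.const_mul eta
  refine ⟨i1.add i3, ?_⟩
  have e : ∫ x, gg eta x ∂(nn t) =
      ∫ x : E4, (x 1 + eta * (Real.sin (x 2) * Real.sin (x 3))) ∂(nn t) := rfl
  rw [e, integral_add i1 i3, j1, integral_const_mul,
    nn_tail (F := fun q => Real.sin q.2.1 * Real.sin q.2.2) (by fun_prop), ss_zero]
  simp

lemma gg_sq_int (t : ℝ≥0) (eta : ℝ) : Integrable (fun x => gg eta x ^ 2) (nn t) := by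
  obtain ⟨i1, -⟩ := law_sq (by fun_prop) (nn_y1 t)
  have hb : Integrable (fun x : E4 => 2 * x 1 ^ 2 + 2 * |eta| ^ 2) (nn t) :=
    (i1.const_mul 2).add (integrable_const _)
  refine hb.mono' ((gg_smooth eta).continuous.pow 2).aestronglyMeasurable
    (Filter.Eventually.of_forall fun x => ?_)
  rw [Real.norm_eq_abs, abs_of_nonneg (sq_nonneg _), ← sq_abs (gg eta x), ← sq_abs (x 1)]
  have h := gg_abs eta x
  have h2 := abs_nonneg (gg eta x)
  nlinarith [sq_nonneg (|x 1| - |eta|)]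

lemma gg_sq_low (t : ℝ≥0) (eta : ℝ) :
    1 + 2 * eta * qq ≤ ∫ x, gg eta x ^ 2 ∂(nn t) := by
  obtain ⟨i1, j1⟩ := law_sq (by fun_prop) (nn_y1 t)
  obtain ⟨k1, -⟩ := law_id (by fun_prop) (nn_y1 t)
  have i2 : Integrable (fun x : E4 => 2 * eta * (x 1 * (Real.sin (x 2) * Real.sin (x 3))))
      (nn t) := by
    have : Integrable (fun x : E4 => x 1 * (Real.sin (x 2) * Real.sin (x 3))) (nn t) := by
      refine k1.norm.mono' (by fun_prop) (Filter.Eventually.of_forall fun x => ?_)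
      rw [norm_mul, Real.norm_eq_abs, Real.norm_eq_abs]
      refine mul_le_of_le_one_right (abs_nonneg _) ?_
      rw [abs_mul]
      exact mul_le_one₀ (Real.abs_sin_le_one _) (abs_nonneg _) (Real.abs_sin_le_one _)
    exact this.const_mul _
  have hle : ∫ x : E4, (x 1 ^ 2 + 2 * eta * (x 1 * (Real.sin (x 2) * Real.sin (x 3)))) ∂(nn t) ≤
      ∫ x, gg eta x ^ 2 ∂(nn t) := by
    refine integral_mono (i1.add i2) (gg_sq_int t eta) fun x => ?_
    show x 1 ^ 2 + 2 * eta * (x 1 * (Real.sin (x 2) * Real.sin (x 3))) ≤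
      (x 1 + eta * (Real.sin (x 2) * Real.sin (x 3))) ^ 2
    nlinarith [sq_nonneg (eta * (Real.sin (x 2) * Real.sin (x 3)))]
  rw [integral_add i1 i2, j1, integral_const_mul,
    nn_tail (F := fun q => q.1 * (Real.sin q.2.1 * Real.sin q.2.2)) (by fun_prop)] at hle
  simpa [qq] using hle

end Pool.Agent.Q297.Bary
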