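import Mathlib

/-! Independence of events depending on disjoint finite blocks of independent variables. -/

open MeasureTheory ProbabilityTheory

namespace Q297.Block

variable {Ω : Type*} [MeasurableSpace Ω] {μ : Measure Ω} {β : Type*} [MeasurableSpace β]

/-- events depending on disjoint finite blocks of independent variables are independent -/
theorem iIndepSet_blocks {ι κ : Type*} {f : ι → Ω → β} (hf : iIndepFun f μ)
    (hm : ∀ i, Measurable (f i))
    (B : κ → Finset ι) (hB : Pairwise (Function.onFun Disjoint B))
    (G : (k : κ) → Set (B k → β)) (hG : ∀ k, MeasurableSet (G k)) :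
    iIndepSet (fun k => {ω | (fun i : B k => f i ω) ∈ G k}) μ := by
  classical
  have hmeas : ∀ k, MeasurableSet {ω | (fun i : B k => f i ω) ∈ G k} := by
    intro k
    have : Measurable (fun ω => (fun i : B k => f i ω)) :=
      measurable_pi_lambda _ (fun i => hm i)
    exact this (hG k)
  rw [iIndepSet_iff_meas_biInter hmeas]
  intro s
  have := hf.isProbabilityMeasure
  induction s using Finset.induction_on with
  | empty => simp
  | insert a s ha ih =>
    rw [Finset.prod_insert ha, ← ih]
    have hdis : Disjoint (B a) (s.biUnion B) := by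
      rw [Finset.disjoint_biUnion_right]
      intro k hk
      apply hB
      rintro rfl
      exact ha hk
    have hind := hf.indepFun_finset (B a) (s.biUnion B) hdis hm
    let r : (k : κ) → k ∈ s → ((s.biUnion B) → β) → (B k → β) := fun k hk x i =>
      x ⟨i.1, Finset.mem_biUnion.2 ⟨k, hk, i.2⟩⟩
    have hr : ∀ k hk, Measurable (r k hk) := by
      intro k hk
      exact measurable_pi_lambda _ (fun i => measurable_pi_apply _)
    let T : Set ((s.biUnion B) → β) := ⋂ k, ⋂ (hk : k ∈ s), (r k hk) ⁻¹' (G k)
    have hT : MeasurableSet T := by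
      have : T = ⋂ k : s, (r k.1 k.2) ⁻¹' (G k.1) := by
        ext x; simp [T]
      rw [this]
      exact MeasurableSet.iInter (fun k => hr k.1 k.2 (hG k.1))
    have key := hind.measure_inter_preimage_eq_mul _ _ (hG a) hT
    have e1 : (fun (ω : Ω) (i : B a) => f i ω) ⁻¹' (G a) = {ω | (fun i : B a => f i ω) ∈ G a} := rfl
    have e2 : (fun (ω : Ω) (i : (s.biUnion B)) => f i ω) ⁻¹' T =
        ⋂ k ∈ s, {ω | (fun i : B k => f i ω) ∈ G k} := by
      ext ω
      simp [T, r]
    rw [e1, e2] at key
    rw [Finset.set_biInter_insert]
    exact key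

end Q297.Block
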