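import Mathlib

/-!
The Borel sigma-algebra of `C(X, ℝ)` (compact-open topology) is generated by the evaluations.
-/

open MeasureTheory Set Filter Topology
open scoped ENNReal NNReal

namespace Q297.PathC

variable {X : Type*} [TopologicalSpace X]

/-- the sigma-algebra generated by the evaluations -/
@[instance_reducible] def evalSigma (X : Type*) [TopologicalSpace X] : MeasurableSpace C(X, ℝ) :=
  MeasurableSpace.comap (fun (f : C(X, ℝ)) (t : X) => f t) MeasurableSpace.pi

lemma measurable_eval' (t : X) :
    @Measurable _ _ (evalSigma X) _ (fun f : C(X, ℝ) => f t) := by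
  let _ : MeasurableSpace C(X, ℝ) := evalSigma X
  have : Measurable (fun (f : C(X, ℝ)) (t : X) => f t) := comap_measurable _
  exact (measurable_pi_apply t).comp this

theorem borel_eq [TopologicalSpace.PseudoMetrizableSpace X] [SecondCountableTopology X]
    [LocallyCompactSpace X] : borel C(X, ℝ) = evalSigma X := by
  apply le_antisymm
  · rw [borel_eq_generateFrom_of_subbasis (ContinuousMap.compactOpen_eq (X := X) (Y := ℝ))]
    refine MeasurableSpace.generateFrom_le ?_
    rintro _ ⟨K, hK, U, hU, rfl⟩
    have hK' : IsCompact K := hK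
    have hU' : IsOpen U := hU
    obtain ⟨D, hDK, hDc, hKD⟩ := hK'.isSeparable.exists_countable_dense_subset
    have hev : {f : C(X, ℝ) | MapsTo f K U} =
        ⋃ n : ℕ, ⋂ x ∈ D, {f : C(X, ℝ) | ENNReal.ofReal (1 / ((n : ℝ) + 1)) ≤ Metric.infEDist (f x) Uᶜ} := by
      ext f
      simp only [mem_iUnion, mem_iInter]
      constructor
      · intro hf
        have hc : IsCompact (f '' K) := hK'.image f.continuous
        obtain ⟨δ, hδ, hδU⟩ := hc.exists_thickening_subset_open hU' (image_subset_iff.2 hf)
        obtain ⟨n, hn⟩ := exists_nat_one_div_lt hδ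
        refine ⟨n, fun x hx => ?_⟩
        refine Metric.le_infEDist.2 fun z hz => ?_
        by_contra hlt
        push Not at hlt
        apply hz
        apply hδU
        refine Metric.mem_thickening_iff.2 ⟨f x, mem_image_of_mem _ (hDK hx), ?_⟩
        rw [edist_dist, ENNReal.ofReal_lt_ofReal_iff (by positivity)] at hlt
        rw [dist_comm]
        exact hlt.trans hn
      · rintro ⟨n, hn⟩ x hx
        have hcl : IsClosed {x : X | ENNReal.ofReal (1 / ((n : ℝ) + 1)) ≤ Metric.infEDist (f x) Uᶜ} :=
          isClosed_le continuous_const (Metric.continuous_infEDist.comp f.continuous)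
        have hsub : closure D ⊆ {x : X | ENNReal.ofReal (1 / ((n : ℝ) + 1)) ≤
            Metric.infEDist (f x) Uᶜ} := by
          refine closure_minimal ?_ hcl
          intro y hy
          exact hn y hy
        have h1 := hsub (hKD hx)
        have h1' : ENNReal.ofReal (1 / ((n : ℝ) + 1)) ≤ Metric.infEDist (f x) Uᶜ := h1
        by_contra hxU
        rw [Metric.infEDist_zero_of_mem (show f x ∈ Uᶜ from hxU)] at h1'
        have : (0 : ℝ≥0∞) < ENNReal.ofReal (1 / ((n : ℝ) + 1)) := ENNReal.ofReal_pos.2 (by positivity)
        exact absurd h1' (not_le.2 this)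
    change @MeasurableSet _ (evalSigma X) {f : C(X, ℝ) | MapsTo f K U}
    rw [hev]
    let _ : MeasurableSpace C(X, ℝ) := evalSigma X
    refine MeasurableSet.iUnion fun n => MeasurableSet.biInter hDc fun x _ => ?_
    exact measurableSet_le measurable_const (measurable_infEDist.comp (measurable_eval' x))
  · rw [evalSigma, MeasurableSpace.comap_le_iff_le_map]
    let _ : MeasurableSpace C(X, ℝ) := borel _
    have _ : BorelSpace C(X, ℝ) := ⟨rfl⟩
    have : Measurable (fun (f : C(X, ℝ)) (t : X) => f t) := by
      refine measurable_pi_lambda _ fun t => ?_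
      exact (continuous_eval_const t).measurable
    exact this.le_map

/-- The Borel sigma-algebra on `C(X, ℝ)`. -/
instance instMS : MeasurableSpace C(X, ℝ) := borel _

instance : BorelSpace C(X, ℝ) := ⟨rfl⟩

lemma measurable_eval (t : X) : Measurable (fun f : C(X, ℝ) => f t) :=
  (continuous_eval_const t).measurable

lemma measurable_coe : Measurable (fun (f : C(X, ℝ)) (t : X) => f t) :=
  measurable_pi_lambda _ fun t => measurable_eval t

lemma instMS_eq [TopologicalSpace.PseudoMetrizableSpace X] [SecondCountableTopology X]
    [LocallyCompactSpace X] : (instMS : MeasurableSpace C(X, ℝ)) =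
    MeasurableSpace.comap (fun (f : C(X, ℝ)) (t : X) => f t) MeasurableSpace.pi := borel_eq

lemma measurable_of_eval [TopologicalSpace.PseudoMetrizableSpace X]
    [SecondCountableTopology X] [LocallyCompactSpace X] {α : Type*} [MeasurableSpace α] {F : α → C(X, ℝ)}
    (h : ∀ t, Measurable (fun a => F a t)) : Measurable F := by
  rw [instMS_eq, measurable_comap_iff]
  exact measurable_pi_lambda _ h

/-- two laws on `C(X, ℝ)` agree as soon as their images on `X → ℝ` agree -/
lemma measure_ext [TopologicalSpace.PseudoMetrizableSpace X]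
    [SecondCountableTopology X] [LocallyCompactSpace X] {μ ν : Measure C(X, ℝ)}
    (h : μ.map (fun (f : C(X, ℝ)) (t : X) => f t) = ν.map (fun (f : C(X, ℝ)) (t : X) => f t)) :
    μ = ν := by
  ext s hs
  rw [instMS_eq] at hs
  obtain ⟨S, hS, rfl⟩ := hs
  rw [← Measure.map_apply measurable_coe hS, ← Measure.map_apply measurable_coe hS, h]

end Q297.PathC
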