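import Mathlib
import Pool.Agent.Q297.PathC

/-!
Existence of Brownian motion (Lévy's construction of the Brownian bridge by tent functions and
`B_t = (1 + t) b (t / (1 + t))`).
-/

open MeasureTheory ProbabilityTheory Set Filter Topology
open scoped ENNReal NNReal

namespace Q297.Bm

/-- limits of centred Gaussian variables -/
lemma gauss_lim {Ω : Type*} {mΩ : MeasurableSpace Ω} {P : Measure Ω} [IsProbabilityMeasure P]
    {X : ℕ → Ω → ℝ} {Y : Ω → ℝ} {v : ℕ → ℝ≥0} {v0 : ℝ≥0}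
    (hX : ∀ n, HasLaw (X n) (gaussianReal 0 (v n)) P) (hv : Tendsto v atTop (𝓝 v0))
    (hlim : ∀ᵐ ω ∂P, Tendsto (fun n => X n ω) atTop (𝓝 (Y ω))) :
    HasLaw Y (gaussianReal 0 v0) P := by
  have hY : AEMeasurable Y P :=
    aemeasurable_of_tendsto_metrizable_ae atTop (fun n => (hX n).aemeasurable) hlim
  refine ⟨hY, ?_⟩
  have : IsProbabilityMeasure (P.map Y) := Measure.isProbabilityMeasure_map hY
  apply Measure.ext_of_charFun
  funext t
  have e : ∀ (Z : Ω → ℝ), AEMeasurable Z P →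
      charFun (P.map Z) t = ∫ ω, Complex.exp (t * Z ω * Complex.I) ∂P := by
    intro Z hZ
    rw [charFun_apply_real, integral_map hZ (by fun_prop)]
  have h1 : Tendsto (fun n => charFun (P.map (X n)) t) atTop (𝓝 (charFun (P.map Y) t)) := by
    rw [e Y hY]
    simp_rw [fun n => e (X n) (hX n).aemeasurable]
    refine tendsto_integral_of_dominated_convergence (fun _ => 1) ?_ (integrable_const _) ?_ ?_
    · intro n
      have := (hX n).aemeasurable
      exact (by fun_prop : AEMeasurable (fun ω => Complex.exp (t * X n ω * Complex.I)) P).aestronglyMeasurable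
    · intro n
      refine ae_of_all _ fun ω => ?_
      have : (t : ℂ) * X n ω * Complex.I = ((t * X n ω : ℝ) : ℂ) * Complex.I := by push_cast; ring
      rw [this, Complex.norm_exp_ofReal_mul_I]
    · filter_upwards [hlim] with ω hω
      refine (Complex.continuous_exp.tendsto _).comp ?_
      refine Tendsto.mul_const _ (Tendsto.const_mul _ ?_)
      exact (Complex.continuous_ofReal.tendsto _).comp hω
  have h2 : Tendsto (fun n => charFun (P.map (X n)) t) atTop (𝓝 (charFun (gaussianReal 0 v0) t)) := by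
    simp_rw [fun n => (hX n).map_eq, charFun_gaussianReal]
    refine (Complex.continuous_exp.tendsto _).comp ?_
    refine Tendsto.sub tendsto_const_nhds ?_
    refine Tendsto.div_const (Tendsto.mul_const _ ?_) _
    have h3 : Tendsto (fun n => ((v n : ℝ≥0) : ℝ)) atTop (𝓝 (v0 : ℝ)) :=
      (NNReal.continuous_coe.tendsto _).comp hv
    exact (Complex.continuous_ofReal.tendsto _).comp h3
  exact tendsto_nhds_unique h1 h2

/-- the space of the coordinates -/
abbrev Om := ℕ × ℕ → ℝ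

/-- independent standard normal coordinates -/
noncomputable def P0 : Measure Om := Measure.infinitePi fun _ => gaussianReal 0 1

instance : IsProbabilityMeasure P0 := by unfold P0; infer_instance

lemma hasLaw_coord (i : ℕ × ℕ) : HasLaw (fun ω : Om => ω i) (gaussianReal 0 1) P0 :=
  ⟨(measurable_pi_apply i).aemeasurable, Measure.infinitePi_map_eval _ i⟩

lemma indep_coord : iIndepFun (fun (i : ℕ × ℕ) (ω : Om) => ω i) P0 :=
  iIndepFun_infinitePi (P := fun _ : ℕ × ℕ => gaussianReal 0 1) (X := fun _ x => x)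
    (fun _ => measurable_id)

/-- weighted finite sums of the coordinates -/
lemma hasLaw_sum (s : Finset (ℕ × ℕ)) (d : ℕ × ℕ → ℝ) :
    HasLaw (fun ω : Om => ∑ i ∈ s, d i * ω i) (gaussianReal 0 (∑ i ∈ s, d i ^ 2).toNNReal) P0 := by
  have hg1 : ∀ i : ℕ × ℕ, HasGaussianLaw (fun ω : Om => d i * ω i) P0 := fun i =>
    (hasLaw_coord i).hasGaussianLaw.fun_smul (d i)
  have hg : HasGaussianLaw (fun ω : Om => ∑ i ∈ s, d i * ω i) P0 := by
    have h1 : iIndepFun (fun (i : s) (ω : Om) => d i * ω i) P0 := by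
      have h2 := (indep_coord.precomp (g := ((↑) : s → ℕ × ℕ)) Subtype.coe_injective).comp
        (fun i x => d i * x) (fun i => by fun_prop)
      exact h2
    have h3 := iIndepFun.hasGaussianLaw_fun_sum (X := fun (i : s) (ω : Om) => d i * ω i)
      (fun i => hg1 i) h1
    refine h3.congr (ae_of_all _ fun ω => ?_)
    exact Finset.sum_coe_sort s (fun i => d i * ω i)
  refine ⟨hg.aemeasurable, ?_⟩
  have hi : ∀ i : ℕ × ℕ, Integrable (fun ω : Om => ω i) P0 := fun i =>
    (hasLaw_coord i).hasGaussianLaw.integrable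
  have hm : ∫ ω : Om, ∑ i ∈ s, d i * ω i ∂P0 = 0 := by
    rw [integral_finsetSum _ (fun i _ => (hi i).const_mul _)]
    refine Finset.sum_eq_zero fun i _ => ?_
    rw [integral_const_mul, (hasLaw_coord i).integral_eq, integral_id_gaussianReal, mul_zero]
  have hv : Var[fun ω : Om => ∑ i ∈ s, d i * ω i; P0] = ∑ i ∈ s, d i ^ 2 := by
    have h4 := IndepFun.variance_sum (μ := P0) (X := fun (i : ℕ × ℕ) (ω : Om) => d i * ω i) (s := s)
      (fun i _ => (hg1 i).memLp_two) (by
        intro i _ j _ hij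
        exact (indep_coord.indepFun hij).comp (φ := fun x => d i * x) (ψ := fun x => d j * x)
          (by fun_prop) (by fun_prop))
    have h5 : (∑ i ∈ s, fun ω : Om => d i * ω i) = fun ω : Om => ∑ i ∈ s, d i * ω i := by
      funext ω; simp
    rw [h5] at h4
    rw [h4]
    refine Finset.sum_congr rfl fun i _ => ?_
    rw [variance_const_mul, (hasLaw_coord i).variance_eq, variance_id_gaussianReal]
    simp
  rw [hg.map_eq_gaussianReal, hm, hv]

/-! ### tents -/

noncomputable def tent (n k : ℕ) (u : ℝ) : ℝ :=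
  1 / 2 * (√2)⁻¹ ^ n * max 0 (1 - |2 ^ (n + 1) * u - (2 * k + 1)|)

lemma tent_cont (n k : ℕ) : Continuous (tent n k) := by unfold tent; fun_prop

lemma tent_nonneg (n k : ℕ) (u : ℝ) : 0 ≤ tent n k u := by unfold tent; positivity

lemma tent_le (n k : ℕ) (u : ℝ) : tent n k u ≤ (√2)⁻¹ ^ n := by
  unfold tent
  have h1 : max 0 (1 - |2 ^ (n + 1) * u - (2 * k + 1)|) ≤ 1 := by
    apply max_le zero_le_one
    have := abs_nonneg (2 ^ (n + 1) * u - (2 * k + 1))
    linarith
  have h2 : (0 : ℝ) ≤ (√2)⁻¹ ^ n := by positivity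
  have h3 : 0 ≤ max 0 (1 - |2 ^ (n + 1) * u - (2 * (k : ℝ) + 1)|) := le_max_left _ _
  nlinarith

lemma tent_uniq {n k k' : ℕ} {u : ℝ} (h : tent n k u ≠ 0) (h' : tent n k' u ≠ 0) : k = k' := by
  have aux : ∀ k : ℕ, tent n k u ≠ 0 → |2 ^ (n + 1) * u - (2 * k + 1)| < 1 := by
    intro k hk
    by_contra hle
    push Not at hle
    apply hk
    unfold tent
    rw [max_eq_left (by linarith), mul_zero]
  have h1 := abs_lt.1 (aux k h)
  have h2 := abs_lt.1 (aux k' h')
  have h3 : (k : ℝ) < k' + 1 := by linarith [h1.1, h1.2, h2.1, h2.2]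
  have h4 : (k' : ℝ) < k + 1 := by linarith [h1.1, h1.2, h2.1, h2.2]
  have h5 : k < k' + 1 := by exact_mod_cast h3
  have h6 : k' < k + 1 := by exact_mod_cast h4
  omega

lemma sq2 : (√2 : ℝ)⁻¹ * (√2)⁻¹ = 1 / 2 := by
  rw [← mul_inv, Real.mul_self_sqrt (by norm_num)]; norm_num

lemma tent_left (n k : ℕ) (u : ℝ) : tent (n + 1) k u = (√2)⁻¹ * tent n k (2 * u) := by
  unfold tent
  have : (2 : ℝ) ^ (n + 1 + 1) * u = 2 ^ (n + 1) * (2 * u) := by ring
  rw [this]
  ring

lemma tent_right (n k : ℕ) (u : ℝ) : tent (n + 1) (2 ^ n + k) u = (√2)⁻¹ * tent n k (2 * u - 1) := by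
  unfold tent
  have : (2 : ℝ) ^ (n + 1 + 1) * u - (2 * ((2 ^ n + k : ℕ) : ℝ) + 1) =
      2 ^ (n + 1) * (2 * u - 1) - (2 * k + 1) := by push_cast; ring
  rw [this]
  ring

/-- the covariance of the partial sums -/
noncomputable def C (N : ℕ) (u v : ℝ) : ℝ :=
  ∑ n ∈ Finset.range N, ∑ k ∈ Finset.range (2 ^ n), tent n k u * tent n k v

lemma C_succ (N : ℕ) (u v : ℝ) : C (N + 1) u v = tent 0 0 u * tent 0 0 v +
    1 / 2 * C N (2 * u) (2 * v) + 1 / 2 * C N (2 * u - 1) (2 * v - 1) := by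
  unfold C
  rw [Finset.sum_range_succ']
  have h0 : ∑ k ∈ Finset.range (2 ^ 0), tent 0 k u * tent 0 k v = tent 0 0 u * tent 0 0 v := by simp
  rw [h0, Finset.mul_sum, Finset.mul_sum]
  have h1 : ∀ n : ℕ, ∑ k ∈ Finset.range (2 ^ (n + 1)), tent (n + 1) k u * tent (n + 1) k v =
      1 / 2 * ∑ k ∈ Finset.range (2 ^ n), tent n k (2 * u) * tent n k (2 * v) +
      1 / 2 * ∑ k ∈ Finset.range (2 ^ n), tent n k (2 * u - 1) * tent n k (2 * v - 1) := by
    intro n
    have e : 2 ^ (n + 1) = 2 ^ n + 2 ^ n := by ring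
    rw [e, Finset.sum_range_add, Finset.mul_sum, Finset.mul_sum]
    congr 1
    · refine Finset.sum_congr rfl fun k _ => ?_
      rw [tent_left, tent_left, ← sq2]; ring
    · refine Finset.sum_congr rfl fun k _ => ?_
      rw [tent_right, tent_right, ← sq2]; ring
  simp_rw [h1]
  rw [Finset.sum_add_distrib]
  ring

noncomputable def K (u v : ℝ) : ℝ :=
  if u ∈ Icc (0 : ℝ) 1 ∧ v ∈ Icc (0 : ℝ) 1 then min u v - u * v else 0

lemma tent_zero (u : ℝ) : tent 0 0 u = if u ≤ 0 then 0 else if u ≤ 1 / 2 then u else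
    if u ≤ 1 then 1 - u else 0 := by
  unfold tent
  simp only [pow_zero, mul_one, zero_add, pow_one, Nat.cast_zero, mul_zero]
  split_ifs with h1 h2 h3
  · rw [max_eq_left]
    · ring
    · rw [abs_of_nonpos (by linarith)]; linarith
  · rw [max_eq_right] <;> rw [abs_of_nonpos (by linarith)] <;> linarith
  · push Not at h2
    rw [max_eq_right] <;> rw [abs_of_nonneg (by linarith)] <;> linarith
  · push Not at h2 h3
    rw [max_eq_left]
    · ring
    · rw [abs_of_nonneg (by linarith)]; linarith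

lemma tent_low {u : ℝ} (h0 : 0 < u) (h1 : u ≤ 1 / 2) : tent 0 0 u = u := by
  rw [tent_zero, if_neg (not_le.2 h0), if_pos h1]

lemma tent_high {u : ℝ} (h0 : 1 / 2 < u) (h1 : u ≤ 1) : tent 0 0 u = 1 - u := by
  have h2 : (0 : ℝ) < u := by linarith
  rw [tent_zero, if_neg (not_le.2 h2), if_neg (not_le.2 h0), if_pos h1]

lemma K_zero {u v : ℝ} (h : ¬ (u ∈ Ioo (0 : ℝ) 1 ∧ v ∈ Ioo (0 : ℝ) 1)) : K u v = 0 := by
  unfold K
  split_ifs with h1
  · obtain ⟨⟨a, b⟩, c, d⟩ := h1
    rcases eq_or_lt_of_le a with rfl | a'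
    · rw [min_eq_left c]; ring
    rcases eq_or_lt_of_le c with rfl | c'
    · rw [min_eq_right a]; ring
    rcases eq_or_lt_of_le b with rfl | b'
    · rw [min_eq_right d]; ring
    rcases eq_or_lt_of_le d with rfl | d'
    · rw [min_eq_left b]; ring
    exact absurd ⟨⟨a', b'⟩, c', d'⟩ h
  · rfl

lemma K_in {u v : ℝ} (hu : u ∈ Icc (0 : ℝ) 1) (hv : v ∈ Icc (0 : ℝ) 1) : K u v = min u v - u * v := by
  unfold K; rw [if_pos ⟨hu, hv⟩]

lemma K_symm (u v : ℝ) : K u v = K v u := by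
  unfold K
  simp only [and_comm, min_comm, mul_comm]

lemma K_rec (u v : ℝ) : K u v = tent 0 0 u * tent 0 0 v +
    1 / 2 * K (2 * u) (2 * v) + 1 / 2 * K (2 * u - 1) (2 * v - 1) := by
  wlog huv : u ≤ v generalizing u v
  · rw [K_symm u v, K_symm (2 * u), K_symm (2 * u - 1), this v u (le_of_not_ge huv)]; ring
  by_cases hu0 : u ≤ 0
  · rw [K_zero (u := u) (by rintro ⟨⟨h, _⟩, _⟩; linarith),
      K_zero (u := 2 * u) (by rintro ⟨⟨h, _⟩, _⟩; linarith),
      K_zero (u := 2 * u - 1) (by rintro ⟨⟨h, _⟩, _⟩; linarith), tent_zero u, if_pos hu0]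
    ring
  push Not at hu0
  by_cases hv1 : 1 ≤ v
  · rw [K_zero (v := v) (by rintro ⟨_, ⟨_, h⟩⟩; linarith),
      K_zero (v := 2 * v) (by rintro ⟨_, ⟨_, h⟩⟩; linarith),
      K_zero (v := 2 * v - 1) (by rintro ⟨_, ⟨_, h⟩⟩; linarith), tent_zero v,
      if_neg (not_le.2 (by linarith)), if_neg (not_le.2 (by linarith))]
    split_ifs with h
    · have : v = 1 := le_antisymm h hv1
      rw [this]; ring
    · ring
  push Not at hv1
  rw [K_in ⟨hu0.le, by linarith⟩ ⟨by linarith, hv1.le⟩, min_eq_left huv]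
  by_cases h1 : u ≤ 1 / 2
  · rw [tent_low hu0 h1, K_zero (u := 2 * u - 1) (by rintro ⟨⟨h, _⟩, _⟩; linarith)]
    by_cases h2 : v ≤ 1 / 2
    · rw [tent_low (by linarith) h2, K_in ⟨by linarith, by linarith⟩ ⟨by linarith, by linarith⟩,
        min_eq_left (by linarith)]
      ring
    · push Not at h2
      rw [tent_high h2 hv1.le, K_zero (u := 2 * u) (by rintro ⟨_, ⟨_, h⟩⟩; linarith)]
      ring
  · push Not at h1
    rw [tent_high h1 (by linarith), tent_high (by linarith) hv1.le,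
      K_zero (u := 2 * u) (by rintro ⟨⟨_, h⟩, _⟩; linarith),
      K_in ⟨by linarith, by linarith⟩ ⟨by linarith, by linarith⟩, min_eq_left (by linarith)]
    ring

lemma K_sub_C (N : ℕ) : ∀ u v : ℝ, |K u v - C N u v| ≤ (1 / 2) ^ N ∧
    (¬ (u ∈ Ioo (0 : ℝ) 1 ∧ v ∈ Ioo (0 : ℝ) 1) → K u v - C N u v = 0) := by
  induction N with
  | zero =>
    intro u v
    have hC : C 0 u v = 0 := by simp [C]
    rw [hC, sub_zero, pow_zero]
    refine ⟨?_, K_zero⟩
    unfold K
    split_ifs with h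
    · obtain ⟨⟨a, b⟩, c, d⟩ := h
      rw [abs_le]
      have h1 := mul_nonneg a c
      have h2 : min u v ≤ 1 := (min_le_left _ _).trans b
      have h3 : 0 ≤ min u v := le_min a c
      constructor
      · nlinarith
      · nlinarith
    · simp
  | succ N ih =>
    intro u v
    have e : K u v - C (N + 1) u v = 1 / 2 * (K (2 * u) (2 * v) - C N (2 * u) (2 * v)) +
        1 / 2 * (K (2 * u - 1) (2 * v - 1) - C N (2 * u - 1) (2 * v - 1)) := by
      rw [C_succ, K_rec u v]; ring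
    rw [e]
    obtain ⟨a1, a2⟩ := ih (2 * u) (2 * v)
    obtain ⟨b1, b2⟩ := ih (2 * u - 1) (2 * v - 1)
    constructor
    · by_cases h : (2 * u ∈ Ioo (0 : ℝ) 1 ∧ 2 * v ∈ Ioo (0 : ℝ) 1)
      · rw [b2 (by rintro ⟨⟨h1, _⟩, _⟩; linarith [h.1.2]), mul_zero, add_zero, abs_mul, pow_succ,
          abs_of_nonneg (by norm_num : (0 : ℝ) ≤ 1 / 2)]
        linarith
      · rw [a2 h, mul_zero, zero_add, abs_mul, pow_succ,
          abs_of_nonneg (by norm_num : (0 : ℝ) ≤ 1 / 2)]
        linarith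
    · intro h
      rw [a2, b2]
      · ring
      · rintro ⟨⟨h1, h2⟩, h3, h4⟩
        exact h ⟨⟨by linarith, by linarith⟩, by linarith, by linarith⟩
      · rintro ⟨⟨h1, h2⟩, h3, h4⟩
        exact h ⟨⟨by linarith, by linarith⟩, by linarith, by linarith⟩

lemma C_tendsto (u v : ℝ) : Tendsto (fun N => C N u v) atTop (𝓝 (K u v)) := by
  rw [tendsto_iff_norm_sub_tendsto_zero]
  refine squeeze_zero (fun _ => norm_nonneg _) (fun N => ?_)
    (tendsto_pow_atTop_nhds_zero_of_lt_one (by norm_num : (0 : ℝ) ≤ 1 / 2) (by norm_num))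
  rw [Real.norm_eq_abs, abs_sub_comm]
  exact (K_sub_C N u v).1

/-! ### the partial sums -/

/-- the `n`-th level -/
noncomputable def D (n : ℕ) (ω : Om) (u : ℝ) : ℝ := ∑ k ∈ Finset.range (2 ^ n), tent n k u * ω (n, k)

noncomputable def R1 (n : ℕ) : ℝ := (√2)⁻¹ ^ n * (5 / 4) ^ n
noncomputable def R2 (n : ℕ) (ω : Om) : ℝ :=
  (√2)⁻¹ ^ n * (64 / 125) ^ n * ∑ k ∈ Finset.range (2 ^ n), ω (n, k) ^ 4

lemma D_le (n : ℕ) (ω : Om) (u : ℝ) : |D n ω u| ≤ R1 n + R2 n ω := by
  have hpos : 0 ≤ R1 n + R2 n ω := by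
    unfold R1 R2
    have : 0 ≤ ∑ k ∈ Finset.range (2 ^ n), ω (n, k) ^ 4 := Finset.sum_nonneg fun k _ => by positivity
    positivity
  by_cases h : ∃ k ∈ Finset.range (2 ^ n), tent n k u ≠ 0
  · obtain ⟨k, hk, hk0⟩ := h
    have e : D n ω u = tent n k u * ω (n, k) := by
      unfold D
      refine Finset.sum_eq_single_of_mem k hk fun j _ hj => ?_
      by_contra h1
      exact hj (tent_uniq (left_ne_zero_of_mul h1) hk0)
    rw [e, abs_mul, abs_of_nonneg (tent_nonneg _ _ _)]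
    have h1 : |ω (n, k)| ≤ (5 / 4) ^ n + (64 / 125) ^ n * ω (n, k) ^ 4 := by
      set x := |ω (n, k)| with hx
      have hx0 : 0 ≤ x := abs_nonneg _
      have e4 : ω (n, k) ^ 4 = x ^ 4 := by
        rw [hx, show (4 : ℕ) = 2 * 2 from rfl, pow_mul, pow_mul, sq_abs]
      rw [e4]
      have hc : (0 : ℝ) < (5 / 4) ^ n := by positivity
      set c : ℝ := (5 / 4) ^ n with hcdef
      have e5 : (64 / 125 : ℝ) ^ n = 1 / c ^ 3 := by
        rw [hcdef, ← pow_mul, mul_comm n 3, pow_mul, one_div, ← inv_pow]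
        norm_num
      rw [e5]
      by_cases hxc : x ≤ c
      · have : 0 ≤ 1 / c ^ 3 * x ^ 4 := by positivity
        linarith
      · push Not at hxc
        have h2 : x ≤ 1 / c ^ 3 * x ^ 4 := by
          rw [div_mul_eq_mul_div, one_mul, le_div_iff₀ (by positivity)]
          have : c ^ 3 ≤ x ^ 3 := pow_le_pow_left₀ hc.le hxc.le 3
          calc x * c ^ 3 ≤ x * x ^ 3 := mul_le_mul_of_nonneg_left this hx0
            _ = x ^ 4 := by ring
        linarith
    have h2 : ω (n, k) ^ 4 ≤ ∑ k ∈ Finset.range (2 ^ n), ω (n, k) ^ 4 :=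
      Finset.single_le_sum (f := fun k => ω (n, k) ^ 4) (fun j _ => by positivity) hk
    calc tent n k u * |ω (n, k)| ≤ (√2)⁻¹ ^ n * ((5 / 4) ^ n + (64 / 125) ^ n * ω (n, k) ^ 4) :=
          mul_le_mul (tent_le n k u) h1 (abs_nonneg _) (by positivity)
      _ ≤ (√2)⁻¹ ^ n * ((5 / 4) ^ n + (64 / 125) ^ n * ∑ k ∈ Finset.range (2 ^ n), ω (n, k) ^ 4) := by
          gcongr
      _ = R1 n + R2 n ω := by unfold R1 R2; ring
  · push Not at h
    have e : D n ω u = 0 := by
      unfold D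
      exact Finset.sum_eq_zero fun k hk => by rw [h k hk, zero_mul]
    rw [e, abs_zero]
    exact hpos

lemma sqrt2_inv_le : (√2 : ℝ)⁻¹ ≤ 71 / 100 := by
  rw [inv_le_comm₀ (by positivity) (by norm_num)]
  apply Real.le_sqrt_of_sq_le
  norm_num

lemma R1_summable : Summable R1 := by
  have h : R1 = fun n => ((√2)⁻¹ * (5 / 4)) ^ n := by
    funext n; unfold R1; rw [mul_pow]
  rw [h]
  refine summable_geometric_of_lt_one (by positivity) ?_
  have := sqrt2_inv_le
  linarith

lemma R1_nonneg (n : ℕ) : 0 ≤ R1 n := by unfold R1; positivity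

lemma R2_nonneg (n : ℕ) (ω : Om) : 0 ≤ R2 n ω := by
  unfold R2
  have : 0 ≤ ∑ k ∈ Finset.range (2 ^ n), ω (n, k) ^ 4 := Finset.sum_nonneg fun k _ => by positivity
  positivity

lemma R2_meas (n : ℕ) : Measurable (R2 n) := by unfold R2; fun_prop

lemma D_meas (n : ℕ) (u : ℝ) : Measurable (fun ω => D n ω u) := by unfold D; fun_prop

lemma R2_ae : ∀ᵐ ω ∂P0, Summable (fun n => R2 n ω) := by
  set m4 : ℝ≥0∞ := ∫⁻ x, ENNReal.ofReal (x ^ 4) ∂(gaussianReal 0 1) with hm4
  have hm4' : m4 ≠ ∞ := by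
    have h1 : Integrable (fun x : ℝ => x ^ 4) (gaussianReal 0 1) := by
      have h2 := (memLp_id_gaussianReal (μ := 0) (v := 1) 4).integrable_norm_pow (p := 4) (by norm_num)
      refine h2.congr (ae_of_all _ fun x => ?_)
      simp only [id_eq, Real.norm_eq_abs]
      rw [show (4 : ℕ) = 2 * 2 from rfl, pow_mul, pow_mul, sq_abs]
    have h3 := h1.lintegral_lt_top
    exact h3.ne
  have hq : ∀ n, ∫⁻ ω, ENNReal.ofReal (R2 n ω) ∂P0 = ENNReal.ofReal ((2 * ((√2)⁻¹ * (64 / 125))) ^ n) * m4 := by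
    intro n
    have e : ∀ ω : Om, ENNReal.ofReal (R2 n ω) = ENNReal.ofReal ((√2)⁻¹ ^ n * (64 / 125) ^ n) *
        ∑ k ∈ Finset.range (2 ^ n), ENNReal.ofReal (ω (n, k) ^ 4) := by
      intro ω
      unfold R2
      rw [ENNReal.ofReal_mul (by positivity), ENNReal.ofReal_sum_of_nonneg (fun k _ => by positivity)]
    simp_rw [e]
    rw [lintegral_const_mul _ (by fun_prop), lintegral_finsetSum _ (fun k _ => by fun_prop)]
    have e2 : ∀ k : ℕ, ∫⁻ ω : Om, ENNReal.ofReal (ω (n, k) ^ 4) ∂P0 = m4 := by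
      intro k
      have h1 := (hasLaw_coord (n, k)).map_eq
      rw [hm4, ← h1, lintegral_map (by fun_prop) (by fun_prop)]
    simp_rw [e2]
    rw [Finset.sum_const, Finset.card_range, nsmul_eq_mul]
    have e3 : ((2 ^ n : ℕ) : ℝ≥0∞) = ENNReal.ofReal (2 ^ n) := by
      rw [ENNReal.ofReal_pow (by norm_num)]
      norm_num
    rw [e3, ← mul_assoc, ← ENNReal.ofReal_mul (by positivity)]
    congr 2
    rw [mul_pow, mul_pow]; ring
  have hs : ∫⁻ ω, ∑' n, ENNReal.ofReal (R2 n ω) ∂P0 ≠ ∞ := by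
    rw [lintegral_tsum (fun n => (R2_meas n).ennreal_ofReal.aemeasurable)]
    simp_rw [hq]
    rw [ENNReal.tsum_mul_right]
    refine ENNReal.mul_ne_top ?_ hm4'
    have hsum : Summable (fun n => (2 * ((√2)⁻¹ * (64 / 125))) ^ n : ℕ → ℝ) := by
      refine summable_geometric_of_lt_one (by positivity) ?_
      have := sqrt2_inv_le
      linarith
    rw [← ENNReal.ofReal_tsum_of_nonneg (fun n => by positivity) hsum]
    exact ENNReal.ofReal_ne_top
  have h2 := ae_lt_top' (Measurable.tsum fun n => (R2_meas n).ennreal_ofReal).aemeasurable hs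
  filter_upwards [h2] with ω hω
  have h3 := ENNReal.summable_toReal hω.ne
  refine h3.congr fun n => ?_
  rw [ENNReal.toReal_ofReal (R2_nonneg n ω)]

/-! ### the limit -/

/-- a measurable set of full measure on which the series converges uniformly -/
lemma exists_good : ∃ G : Set Om, MeasurableSet G ∧ P0 Gᶜ = 0 ∧ ∀ ω ∈ G, Summable (fun n => R2 n ω) := by
  obtain ⟨T, hT, hTm, hT0⟩ := exists_measurable_superset_of_null (ae_iff.mp R2_ae)
  refine ⟨Tᶜ, hTm.compl, by rw [compl_compl]; exact hT0, fun ω hω => ?_⟩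
  by_contra h
  exact hω (hT h)

noncomputable def G : Set Om := exists_good.choose
lemma G_meas : MeasurableSet G := exists_good.choose_spec.1
lemma G_ae : ∀ᵐ ω ∂P0, ω ∈ G := by
  rw [ae_iff]; exact exists_good.choose_spec.2.1
lemma G_sum {ω : Om} (h : ω ∈ G) : Summable (fun n => R1 n + R2 n ω) :=
  R1_summable.add (exists_good.choose_spec.2.2 ω h)

/-- the Brownian bridge -/
noncomputable def bb (ω : Om) (u : ℝ) : ℝ := by
  classical exact if ω ∈ G then ∑' n, D n ω u else 0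

lemma bb_cont (ω : Om) : Continuous (bb ω) := by
  unfold bb
  by_cases h : ω ∈ G
  · simp only [if_pos h]
    refine continuous_tsum (fun n => ?_) (G_sum h) (fun n u => ?_)
    · unfold D
      exact continuous_finsetSum _ fun k _ => (tent_cont n k).mul continuous_const
    · exact D_le n ω u
  · simp only [if_neg h]
    exact continuous_const

lemma bb_lim {ω : Om} (h : ω ∈ G) (u : ℝ) :
    Tendsto (fun N => ∑ n ∈ Finset.range N, D n ω u) atTop (𝓝 (bb ω u)) := by
  unfold bb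
  rw [if_pos h]
  refine Summable.tendsto_sum_tsum_nat ?_
  exact Summable.of_norm_bounded (G_sum h) (fun n => D_le n ω u)

lemma bb_meas (u : ℝ) : Measurable (fun ω => bb ω u) := by
  classical
  refine measurable_of_tendsto_metrizable
    (f := fun N ω => if ω ∈ G then ∑ n ∈ Finset.range N, D n ω u else 0) (fun N => ?_) ?_
  · refine Measurable.ite G_meas ?_ measurable_const
    exact Finset.measurable_fun_sum _ fun n _ => D_meas n u
  · rw [tendsto_pi_nhds]
    intro ω
    by_cases h : ω ∈ G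
    · simp only [if_pos h]
      exact bb_lim h u
    · simp only [if_neg h, bb]
      exact tendsto_const_nhds

/-- the indices of the first `N` levels -/
def I (N : ℕ) : Finset (ℕ × ℕ) :=
  (Finset.range N ×ˢ Finset.range (2 ^ N)).filter fun p => p.2 < 2 ^ p.1

lemma mem_I (N : ℕ) (p : ℕ × ℕ) : p ∈ I N ↔ p.1 ∈ Finset.range N ∧ p.2 ∈ Finset.range (2 ^ p.1) := by
  simp only [I, Finset.mem_filter, Finset.mem_product, Finset.mem_range]
  constructor
  · rintro ⟨⟨h1, _⟩, h3⟩
    exact ⟨h1, h3⟩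
  · rintro ⟨h1, h3⟩
    exact ⟨⟨h1, h3.trans_le (Nat.pow_le_pow_right (by norm_num) h1.le)⟩, h3⟩

lemma sum_I (N : ℕ) (f : ℕ × ℕ → ℝ) :
    ∑ p ∈ I N, f p = ∑ n ∈ Finset.range N, ∑ k ∈ Finset.range (2 ^ n), f (n, k) :=
  Finset.sum_finset_product _ _ (fun n => Finset.range (2 ^ n)) (mem_I N)

lemma quad (N : ℕ) (s : Finset ℝ) (c : ℝ → ℝ) :
    ∑ i ∈ I N, (∑ u ∈ s, c u * tent i.1 i.2 u) ^ 2 = ∑ u ∈ s, ∑ v ∈ s, c u * c v * C N u v := by
  rw [sum_I N (fun i => (∑ u ∈ s, c u * tent i.1 i.2 u) ^ 2)]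
  simp only [C, Finset.mul_sum]
  simp_rw [sq, Finset.sum_mul_sum]
  have h1 : ∀ n ∈ Finset.range N, ∑ k ∈ Finset.range (2 ^ n), ∑ u ∈ s, ∑ v ∈ s,
      c u * tent n k u * (c v * tent n k v) = ∑ u ∈ s, ∑ v ∈ s, ∑ k ∈ Finset.range (2 ^ n),
      c u * c v * (tent n k u * tent n k v) := by
    intro n _
    rw [Finset.sum_comm]
    refine Finset.sum_congr rfl fun u _ => ?_
    rw [Finset.sum_comm]
    refine Finset.sum_congr rfl fun v _ => ?_
    refine Finset.sum_congr rfl fun k _ => ?_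
    ring
  rw [Finset.sum_congr rfl h1, Finset.sum_comm]
  refine Finset.sum_congr rfl fun u _ => ?_
  rw [Finset.sum_comm]

lemma law_bb (s : Finset ℝ) (c : ℝ → ℝ) :
    HasLaw (fun ω => ∑ u ∈ s, c u * bb ω u)
      (gaussianReal 0 (∑ u ∈ s, ∑ v ∈ s, c u * c v * K u v).toNNReal) P0 := by
  refine gauss_lim (X := fun N ω => ∑ i ∈ I N, (∑ u ∈ s, c u * tent i.1 i.2 u) * ω i)
    (v := fun N => (∑ i ∈ I N, (∑ u ∈ s, c u * tent i.1 i.2 u) ^ 2).toNNReal)
    (fun N => hasLaw_sum _ _) ?_ ?_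
  · refine (continuous_real_toNNReal.tendsto _).comp ?_
    simp_rw [quad _ s c]
    refine tendsto_finsetSum _ fun u _ => tendsto_finsetSum _ fun v _ => ?_
    exact (C_tendsto u v).const_mul _
  · filter_upwards [G_ae] with ω hω
    have e : ∀ N, ∑ i ∈ I N, (∑ u ∈ s, c u * tent i.1 i.2 u) * ω i =
        ∑ u ∈ s, c u * ∑ n ∈ Finset.range N, D n ω u := by
      intro N
      rw [sum_I N (fun i => (∑ u ∈ s, c u * tent i.1 i.2 u) * ω i)]
      simp only [D, Finset.mul_sum, Finset.sum_mul]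
      have h1 : ∀ n ∈ Finset.range N, ∑ k ∈ Finset.range (2 ^ n), ∑ u ∈ s,
          c u * tent n k u * ω (n, k) = ∑ u ∈ s, ∑ k ∈ Finset.range (2 ^ n),
          c u * (tent n k u * ω (n, k)) := by
        intro n _
        rw [Finset.sum_comm]
        refine Finset.sum_congr rfl fun u _ => ?_
        refine Finset.sum_congr rfl fun k _ => ?_
        ring
      rw [Finset.sum_congr rfl h1, Finset.sum_comm]
    simp_rw [e]
    exact tendsto_finsetSum _ fun u _ => (bb_lim hω u).const_mul _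

lemma quad_nonneg (s : Finset ℝ) (c : ℝ → ℝ) : 0 ≤ ∑ u ∈ s, ∑ v ∈ s, c u * c v * K u v := by
  refine ge_of_tendsto' (tendsto_finsetSum _ fun u _ => tendsto_finsetSum _ fun v _ =>
    (C_tendsto u v).const_mul (c u * c v)) fun N => ?_
  rw [← quad]
  exact Finset.sum_nonneg fun i _ => sq_nonneg _

lemma bb_gauss : IsGaussianProcess (fun (u : ℝ) (ω : Om) => bb ω u) P0 where
  hasGaussianLaw J := by
    classical
    have hm : Measurable (fun ω : Om => J.restrict (fun u => bb ω u)) :=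
      measurable_pi_lambda _ fun u => bb_meas u.1
    refine ⟨isGaussian_of_map_eq_gaussianReal fun L => ?_⟩
    let c : ℝ → ℝ := fun u => if h : u ∈ J then L (Pi.single ⟨u, h⟩ 1) else 0
    refine ⟨0, (∑ u ∈ J, ∑ v ∈ J, c u * c v * K u v).toNNReal, ?_⟩
    rw [Measure.map_map L.continuous.measurable hm, ← (law_bb J c).map_eq]
    congr 1
    funext ω
    simp only [Function.comp]
    have h1 : J.restrict (fun u => bb ω u) = ∑ i : J, (bb ω i.1) • (Pi.single i (1 : ℝ) : J → ℝ) := by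
      funext j
      simp [Finset.sum_apply, Pi.single_apply]
    rw [h1, map_sum, ← Finset.sum_coe_sort J]
    refine Finset.sum_congr rfl fun i _ => ?_
    rw [map_smul, smul_eq_mul, mul_comm]
    simp [c, i.2]

lemma bb_mean (u : ℝ) : ∫ ω, bb ω u ∂P0 = 0 := by
  have h := (law_bb {u} (fun _ => 1)).integral_eq
  simpa [integral_id_gaussianReal] using h

lemma bb_var (u : ℝ) : Var[fun ω => bb ω u; P0] = K u u := by
  have h := (law_bb {u} (fun _ => 1)).variance_eq
  have h2 := quad_nonneg {u} (fun _ => 1)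
  simp only [Finset.sum_singleton, one_mul] at h h2
  rw [h, variance_id_gaussianReal, Real.coe_toNNReal _ h2]

lemma bb_cov (u v : ℝ) : cov[fun ω => bb ω u, fun ω => bb ω v; P0] = K u v := by
  have hm : ∀ u, MemLp (fun ω => bb ω u) 2 P0 := fun u => (bb_gauss.hasGaussianLaw_eval u).memLp_two
  by_cases huv : u = v
  · subst huv
    rw [covariance_self (bb_meas u).aemeasurable, bb_var]
  · have h := (law_bb {u, v} (fun _ => 1)).variance_eq
    have h2 := quad_nonneg {u, v} (fun _ => 1)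
    simp only [Finset.sum_pair huv, one_mul] at h h2
    rw [variance_id_gaussianReal, Real.coe_toNNReal _ h2] at h
    have h3 := variance_fun_add (hm u) (hm v)
    rw [h, bb_var, bb_var, K_symm v u] at h3
    linarith

/-- Brownian motion -/
noncomputable def bm (ω : Om) : C(ℝ≥0, ℝ) :=
  ⟨fun t => (1 + (t : ℝ)) * bb ω ((t : ℝ) / (1 + t)), by
    have h := bb_cont ω
    have h2 : Continuous fun t : ℝ≥0 => (t : ℝ) / (1 + t) := by
      refine Continuous.div (by fun_prop) (by fun_prop) fun t => ?_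
      have := t.2
      positivity
    fun_prop⟩

lemma bm_meas : Measurable bm :=
  Q297.PathC.measurable_of_eval fun t => (bb_meas _).const_mul _

lemma isPre : IsPreBrownianReal (fun (t : ℝ≥0) (ω : Om) => bm ω t) P0 := by
  have hg0 : IsGaussianProcess (fun (t : ℝ≥0) (ω : Om) => bb ω ((t : ℝ) / (1 + t))) P0 :=
    bb_gauss.comp_right (fun t : ℝ≥0 => (t : ℝ) / (1 + t))
  have hg : IsGaussianProcess (fun (t : ℝ≥0) (ω : Om) => bm ω t) P0 :=
    hg0.smul (fun t : ℝ≥0 => 1 + (t : ℝ))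
  refine hg.isPreBrownianReal_of_covariance (fun t => ?_) (fun s t hst => ?_)
  · show ∫ ω, (1 + (t : ℝ)) * bb ω ((t : ℝ) / (1 + t)) ∂P0 = 0
    rw [integral_const_mul, bb_mean, mul_zero]
  · show cov[fun ω => (1 + (s : ℝ)) * bb ω ((s : ℝ) / (1 + s)), fun ω => (1 + (t : ℝ)) * bb ω ((t : ℝ) / (1 + t)); P0] = s
    rw [covariance_const_mul_left, covariance_const_mul_right, bb_cov]
    have hs := s.2
    have ht := t.2
    have hst' : (s : ℝ) ≤ t := hst
    have h1 : (s : ℝ) / (1 + s) ≤ t / (1 + t) := by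
      rw [div_le_div_iff₀ (by positivity) (by positivity)]
      nlinarith
    rw [K_in ⟨by positivity, (div_le_one (by positivity)).2 (by linarith)⟩
      ⟨by positivity, (div_le_one (by positivity)).2 (by linarith)⟩, min_eq_left h1]
    have : (1 + (s : ℝ)) ≠ 0 := by positivity
    have : (1 + (t : ℝ)) ≠ 0 := by positivity
    field_simp
    ring

/-- **Existence of Brownian motion**, as a law on the space of continuous paths. -/
theorem exists_wiener : ∃ W : Measure C(ℝ≥0, ℝ),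
    IsBrownianReal (fun (t : ℝ≥0) (x : C(ℝ≥0, ℝ)) => x t) W := by
  refine ⟨P0.map bm, ⟨⟨fun J => ?_⟩, ae_of_all _ fun x => x.continuous⟩⟩
  have h := isPre.hasLaw J
  have hm : Measurable (fun x : C(ℝ≥0, ℝ) => J.restrict (fun t => x t)) :=
    measurable_pi_lambda _ fun t => Q297.PathC.measurable_eval t.1
  refine ⟨hm.aemeasurable, ?_⟩
  rw [Measure.map_map hm bm_meas, ← h.map_eq]
  rfl

end Q297.Bm
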