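import Pool.Agent.Q297.SpK

/-!
The probability that the increment process `s ↦ x(s+U) - x(s)` nearly attains its maximum inside a
short window.
-/

open MeasureTheory ProbabilityTheory Set Filter Topology
open scoped ENNReal NNReal
open Q297.PathC Q297.Prepend Q297.TwoS Q297.Dec

set_option linter.unusedSimpArgs false

namespace Q297.Spn

/-- existence over a compact set of a point with a closed property is a closed condition -/
lemma closed_ex {K : Set ℝ≥0} (hK : IsCompact K) {C : Set (Path × ℝ≥0)} (hC : IsClosed C) :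
    IsClosed {x : Path | ∃ s ∈ K, (x, s) ∈ C} := by
  have hc : CompactSpace K := isCompact_iff_compactSpace.1 hK
  have h1 : IsClosed {p : Path × K | (p.1, (p.2 : ℝ≥0)) ∈ C} :=
    hC.preimage (by fun_prop)
  have h2 := isClosedMap_fst_of_compactSpace (X := Path) (Y := K) _ h1
  convert h2 using 1
  ext x
  simp only [mem_ofPred_eq, mem_image, Prod.exists, exists_and_right, exists_eq_right, Subtype.exists,
    exists_prop]

/-- the event that the maximum of `s ↦ x(s+U) - x(s)` outside the window `[p, q]` is at most the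
maximum inside the window plus `H` -/
def NM (U p q : ℝ≥0) (H : ℝ) : Set Path :=
  {x | ∃ s ∈ Icc p q, ∀ s', s' + U ≤ 1 → (s' < p ∨ q < s') → x (s' + U) - x s' ≤ x (s + U) - x s + H}

lemma NM_closed (U p q : ℝ≥0) (H : ℝ) : IsClosed (NM U p q H) := by
  refine closed_ex (K := Icc p q) isCompact_Icc
    (C := {z : Path × ℝ≥0 | ∀ s', s' + U ≤ 1 → (s' < p ∨ q < s') →
      z.1 (s' + U) - z.1 s' ≤ z.1 (z.2 + U) - z.1 z.2 + H}) ?_
  have e : {z : Path × ℝ≥0 | ∀ s', s' + U ≤ 1 → (s' < p ∨ q < s') →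
      z.1 (s' + U) - z.1 s' ≤ z.1 (z.2 + U) - z.1 z.2 + H} =
      ⋂ s', ⋂ (_ : s' + U ≤ 1), ⋂ (_ : s' < p ∨ q < s'),
        {z : Path × ℝ≥0 | z.1 (s' + U) - z.1 s' ≤ z.1 (z.2 + U) - z.1 z.2 + H} := by
    ext z
    simp only [mem_ofPred_eq, mem_iInter]
  rw [e]
  refine isClosed_iInter fun s' => isClosed_iInter fun _ => isClosed_iInter fun _ => ?_
  exact isClosed_le (by fun_prop) (by fun_prop)

/-- the process to the right of `q` -/
noncomputable def Rt (q U : ℝ≥0) (x : Path) : Path :=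
  ⟨fun r => (√2)⁻¹ * ((x (q + U + r) - x (q + U)) - (x (q + r) - x q)), by fun_prop⟩

lemma Rt_apply (q U : ℝ≥0) (x : Path) (r : ℝ≥0) :
    Rt q U x r = (√2)⁻¹ * ((x (q + U + r) - x (q + U)) - (x (q + r) - x q)) := rfl

lemma Rt_meas (q U : ℝ≥0) : Measurable (Rt q U) := measurable_of_eval fun r => by
  exact (((measurable_eval _).sub (measurable_eval _)).sub
    ((measurable_eval _).sub (measurable_eval _))).const_mul _

/-- the process to the left of `p` -/
noncomputable def Lt (p U : ℝ≥0) (x : Path) : Path :=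
  ⟨fun r => (√2)⁻¹ * ((x (p - r + U) - x (p + U)) - (x (p - r) - x p)), by fun_prop⟩

lemma Lt_apply (p U : ℝ≥0) (x : Path) (r : ℝ≥0) :
    Lt p U x r = (√2)⁻¹ * ((x (p - r + U) - x (p + U)) - (x (p - r) - x p)) := rfl

lemma Lt_meas (p U : ℝ≥0) : Measurable (Lt p U) := measurable_of_eval fun r => by
  exact (((measurable_eval _).sub (measurable_eval _)).sub
    ((measurable_eval _).sub (measurable_eval _))).const_mul _

/-- a process on `[0, ρ]` continued by the increments of `x` after time `2` -/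
noncomputable def ext (ρ : ℝ≥0) (F : Path → Path) (x : Path) : Path :=
  ⟨fun r => F x (min r ρ) + (x (2 + (r - ρ)) - x 2), by fun_prop⟩

lemma ext_apply (ρ : ℝ≥0) (F : Path → Path) (x : Path) (r : ℝ≥0) :
    ext ρ F x r = F x (min r ρ) + (x (2 + (r - ρ)) - x 2) := rfl

lemma ext_of_le {ρ : ℝ≥0} {F : Path → Path} {x : Path} {r : ℝ≥0} (h : r ≤ ρ) :
    ext ρ F x r = F x r := by
  rw [ext_apply, min_eq_left h, tsub_eq_zero_of_le h, add_zero, sub_self, add_zero]

lemma ext_meas (ρ : ℝ≥0) {F : Path → Path} (hF : Measurable F) : Measurable (ext ρ F) :=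
  measurable_of_eval fun _ =>
    ((measurable_eval _).comp hF).add ((measurable_eval _).sub (measurable_eval _))

lemma sq2 : (√2)⁻¹ * (√2)⁻¹ = (1 / 2 : ℝ) := by
  rw [← mul_inv, Real.mul_self_sqrt (by norm_num)]; norm_num

lemma min_add_tsub (s ρ : ℝ≥0) : ((min s ρ : ℝ≥0) : ℝ) + ((s - ρ : ℝ≥0) : ℝ) = s := by
  rw [← NNReal.coe_add]
  congr 1
  rcases le_total s ρ with h | h
  · rw [min_eq_left h, tsub_eq_zero_of_le h, add_zero]
  · rw [min_eq_right h, add_tsub_cancel_of_le h]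

lemma ov_ext {s t ρ : ℝ≥0} (hst : s ≤ t) :
    ov ((2 : ℝ≥0) : ℝ) ((2 + (s - ρ) : ℝ≥0) : ℝ) ((2 : ℝ≥0) : ℝ) ((2 + (t - ρ) : ℝ≥0) : ℝ) =
      ((s - ρ : ℝ≥0) : ℝ) := by
  have h : ((s - ρ : ℝ≥0) : ℝ) ≤ ((t - ρ : ℝ≥0) : ℝ) := by
    exact_mod_cast tsub_le_tsub_right hst ρ
  rw [ov_left, min_eq_left]
  · push_cast; ring
  · push_cast; linarith
  · push_cast; linarith [(s - ρ).coe_nonneg]
  · push_cast; linarith [(t - ρ).coe_nonneg]

variable {W : Measure Path} (hW : IsBrownianReal (fun (t : ℝ≥0) (x : Path) => x t) W)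

include hW

lemma Rt_law {q U ρ : ℝ≥0} (h1 : q + ρ ≤ U) (h2 : q + U + ρ ≤ 1) :
    W.map (ext ρ (Rt q U)) = W := by
  refine law_unique1 hW (ext_meas ρ (Rt_meas q U)) ?_
  have h := pre_lin hW (ι := Fin 3) (fun _ => ![(√2)⁻¹, -(√2)⁻¹, 1]) (fun _ => ![q + U, q, 2])
    (fun r => ![q + U + min r ρ, q + min r ρ, 2 + (r - ρ)]) (by
      intro s t hst
      have c1 : (q : ℝ) + ρ ≤ U := by exact_mod_cast h1
      have c2 : (q : ℝ) + U + ρ ≤ 1 := by exact_mod_cast h2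
      have hs : ((min s ρ : ℝ≥0) : ℝ) ≤ ρ := by exact_mod_cast min_le_right s ρ
      have ht : ((min t ρ : ℝ≥0) : ℝ) ≤ ρ := by exact_mod_cast min_le_right t ρ
      have hst' : ((min s ρ : ℝ≥0) : ℝ) ≤ ((min t ρ : ℝ≥0) : ℝ) := by
        exact_mod_cast min_le_min_right ρ hst
      have hs0 := (min s ρ).coe_nonneg
      have ht0 := (min t ρ).coe_nonneg
      have hq0 := q.coe_nonneg
      have hρ0 := ρ.coe_nonneg
      have hs1 := (s - ρ).coe_nonneg
      have ht1 := (t - ρ).coe_nonneg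
      simp only [Fin.sum_univ_three, Matrix.cons_val_zero, Matrix.cons_val_one, Matrix.cons_val_two,
        Matrix.head_cons, Matrix.tail_cons, Matrix.cons_val]
      rw [ov_ext hst]
      have e1 : ov ((q + U : ℝ≥0) : ℝ) ((q + U + min s ρ : ℝ≥0) : ℝ) ((q + U : ℝ≥0) : ℝ)
          ((q + U + min t ρ : ℝ≥0) : ℝ) = (min s ρ : ℝ≥0) := by
        rw [ov_left, min_eq_left] <;> (try simp only [NNReal.coe_add, NNReal.coe_ofNat]) <;> linarith
      have e2 : ov ((q : ℝ≥0) : ℝ) ((q + min s ρ : ℝ≥0) : ℝ) ((q : ℝ≥0) : ℝ)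
          ((q + min t ρ : ℝ≥0) : ℝ) = (min s ρ : ℝ≥0) := by
        rw [ov_left, min_eq_left] <;> (try simp only [NNReal.coe_add, NNReal.coe_ofNat]) <;> linarith
      have e3 : ov ((q + U : ℝ≥0) : ℝ) ((q + U + min s ρ : ℝ≥0) : ℝ) ((q : ℝ≥0) : ℝ)
          ((q + min t ρ : ℝ≥0) : ℝ) = 0 := by
        apply ov_disj' <;> (try simp only [NNReal.coe_add, NNReal.coe_ofNat]) <;> linarith
      have e4 : ov ((q : ℝ≥0) : ℝ) ((q + min s ρ : ℝ≥0) : ℝ) ((q + U : ℝ≥0) : ℝ)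
          ((q + U + min t ρ : ℝ≥0) : ℝ) = 0 := by
        apply ov_disj <;> (try simp only [NNReal.coe_add, NNReal.coe_ofNat]) <;> linarith
      have e5 : ov ((q + U : ℝ≥0) : ℝ) ((q + U + min s ρ : ℝ≥0) : ℝ) ((2 : ℝ≥0) : ℝ)
          ((2 + (t - ρ) : ℝ≥0) : ℝ) = 0 := by
        apply ov_disj <;> (try simp only [NNReal.coe_add, NNReal.coe_ofNat]) <;> linarith
      have e6 : ov ((q : ℝ≥0) : ℝ) ((q + min s ρ : ℝ≥0) : ℝ) ((2 : ℝ≥0) : ℝ)
          ((2 + (t - ρ) : ℝ≥0) : ℝ) = 0 := by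
        apply ov_disj <;> (try simp only [NNReal.coe_add, NNReal.coe_ofNat]) <;> linarith
      have e7 : ov ((2 : ℝ≥0) : ℝ) ((2 + (s - ρ) : ℝ≥0) : ℝ) ((q + U : ℝ≥0) : ℝ)
          ((q + U + min t ρ : ℝ≥0) : ℝ) = 0 := by
        apply ov_disj' <;> (try simp only [NNReal.coe_add, NNReal.coe_ofNat]) <;> linarith
      have e8 : ov ((2 : ℝ≥0) : ℝ) ((2 + (s - ρ) : ℝ≥0) : ℝ) ((q : ℝ≥0) : ℝ)
          ((q + min t ρ : ℝ≥0) : ℝ) = 0 := by
        apply ov_disj' <;> (try simp only [NNReal.coe_add, NNReal.coe_ofNat]) <;> linarith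
      rw [e1, e2, e3, e4, e5, e6, e7, e8]
      have e9 := min_add_tsub s ρ
      have e10 := sq2
      linear_combination 2 * ((min s ρ : ℝ≥0) : ℝ) * e10 + e9)
  refine h.congr fun r => ae_of_all _ fun x => ?_
  simp only [Fin.sum_univ_three, Matrix.cons_val_zero, Matrix.cons_val_one, Matrix.cons_val_two,
    Matrix.head_cons, Matrix.tail_cons, Matrix.cons_val, ext_apply, Rt_apply]
  ring

lemma Lt_law {p U : ℝ≥0} (h1 : p ≤ U) (h2 : p + U ≤ 1) :
    W.map (ext p (Lt p U)) = W := by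
  refine law_unique1 hW (ext_meas p (Lt_meas p U)) ?_
  have h := pre_lin hW (ι := Fin 3) (fun _ => ![-(√2)⁻¹, (√2)⁻¹, 1])
    (fun r => ![p - min r p + U, p - min r p, 2])
    (fun r => ![p + U, p, 2 + (r - p)]) (by
      intro s t hst
      have c1 : (p : ℝ) ≤ U := by exact_mod_cast h1
      have c2 : (p : ℝ) + U ≤ 1 := by exact_mod_cast h2
      have hs : ((min s p : ℝ≥0) : ℝ) ≤ p := by exact_mod_cast min_le_right s p
      have ht : ((min t p : ℝ≥0) : ℝ) ≤ p := by exact_mod_cast min_le_right t p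
      have hst' : ((min s p : ℝ≥0) : ℝ) ≤ ((min t p : ℝ≥0) : ℝ) := by
        exact_mod_cast min_le_min_right p hst
      have es : ((p - min s p : ℝ≥0) : ℝ) = p - (min s p : ℝ≥0) :=
        NNReal.coe_sub (min_le_right s p)
      have et : ((p - min t p : ℝ≥0) : ℝ) = p - (min t p : ℝ≥0) :=
        NNReal.coe_sub (min_le_right t p)
      have hs0 := (min s p).coe_nonneg
      have ht0 := (min t p).coe_nonneg
      have hs1 := (s - p).coe_nonneg
      have ht1 := (t - p).coe_nonneg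
      simp only [Fin.sum_univ_three, Matrix.cons_val_zero, Matrix.cons_val_one, Matrix.cons_val_two,
        Matrix.head_cons, Matrix.tail_cons, Matrix.cons_val]
      rw [ov_ext hst]
      have e1 : ov ((p - min s p + U : ℝ≥0) : ℝ) ((p + U : ℝ≥0) : ℝ)
          ((p - min t p + U : ℝ≥0) : ℝ) ((p + U : ℝ≥0) : ℝ) = (min s p : ℝ≥0) := by
        rw [NNReal.coe_add (p - min s p), NNReal.coe_add (p - min t p), es, et,
          ov_right, max_eq_left] <;> (try simp only [NNReal.coe_add, NNReal.coe_ofNat]) <;> linarith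
      have e2 : ov ((p - min s p : ℝ≥0) : ℝ) ((p : ℝ≥0) : ℝ)
          ((p - min t p : ℝ≥0) : ℝ) ((p : ℝ≥0) : ℝ) = (min s p : ℝ≥0) := by
        rw [es, et, ov_right, max_eq_left] <;> linarith
      have e3 : ov ((p - min s p + U : ℝ≥0) : ℝ) ((p + U : ℝ≥0) : ℝ)
          ((p - min t p : ℝ≥0) : ℝ) ((p : ℝ≥0) : ℝ) = 0 := by
        rw [NNReal.coe_add (p - min s p), es, et]
        apply ov_disj' <;> (try simp only [NNReal.coe_add, NNReal.coe_ofNat]) <;> linarith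
      have e4 : ov ((p - min s p : ℝ≥0) : ℝ) ((p : ℝ≥0) : ℝ)
          ((p - min t p + U : ℝ≥0) : ℝ) ((p + U : ℝ≥0) : ℝ) = 0 := by
        rw [NNReal.coe_add (p - min t p), es, et]
        apply ov_disj <;> (try simp only [NNReal.coe_add, NNReal.coe_ofNat]) <;> linarith
      have e5 : ov ((p - min s p + U : ℝ≥0) : ℝ) ((p + U : ℝ≥0) : ℝ) ((2 : ℝ≥0) : ℝ)
          ((2 + (t - p) : ℝ≥0) : ℝ) = 0 := by
        rw [NNReal.coe_add (p - min s p), es]
        apply ov_disj <;> (try simp only [NNReal.coe_add, NNReal.coe_ofNat]) <;> linarith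
      have e6 : ov ((p - min s p : ℝ≥0) : ℝ) ((p : ℝ≥0) : ℝ) ((2 : ℝ≥0) : ℝ)
          ((2 + (t - p) : ℝ≥0) : ℝ) = 0 := by
        rw [es]
        apply ov_disj <;> (try simp only [NNReal.coe_add, NNReal.coe_ofNat]) <;> linarith
      have e7 : ov ((2 : ℝ≥0) : ℝ) ((2 + (s - p) : ℝ≥0) : ℝ) ((p - min t p + U : ℝ≥0) : ℝ)
          ((p + U : ℝ≥0) : ℝ) = 0 := by
        rw [NNReal.coe_add (p - min t p), et]
        apply ov_disj' <;> (try simp only [NNReal.coe_add, NNReal.coe_ofNat]) <;> linarith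
      have e8 : ov ((2 : ℝ≥0) : ℝ) ((2 + (s - p) : ℝ≥0) : ℝ) ((p - min t p : ℝ≥0) : ℝ)
          ((p : ℝ≥0) : ℝ) = 0 := by
        rw [et]
        apply ov_disj' <;> (try simp only [NNReal.coe_add, NNReal.coe_ofNat]) <;> linarith
      rw [e1, e2, e3, e4, e5, e6, e7, e8]
      have e9 := min_add_tsub s p
      have e10 := sq2
      linear_combination 2 * ((min s p : ℝ≥0) : ℝ) * e10 + e9)
  refine h.congr fun r => ae_of_all _ fun x => ?_
  have : p - min r p = p - min (min r p) p := by rw [min_assoc, min_self]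
  simp only [Fin.sum_univ_three, Matrix.cons_val_zero, Matrix.cons_val_one, Matrix.cons_val_two,
    Matrix.head_cons, Matrix.tail_cons, Matrix.cons_val, ext_apply, Lt_apply]
  ring

omit hW in
/-- probability of an event depending on the process up to `ρ` -/
lemma ext_prob {ρ : ℝ≥0} {F : Path → Path} (hF : Measurable F) (h : W.map (ext ρ F) = W)
    {A B : Set Path} (hA : MeasurableSet A) (hAB : ∀ x, F x ∈ B → ext ρ F x ∈ A) :
    W {x | F x ∈ B} ≤ W A := by
  calc W {x | F x ∈ B} ≤ W (ext ρ F ⁻¹' A) := measure_mono fun x hx => hAB x hx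
    _ = W A := by
      conv_rhs => rw [← h]
      rw [Measure.map_apply (ext_meas ρ hF) hA]

omit hW in
lemma indep_path {F G : Path → Path}
    (h : IndepFun (fun (x : Path) (t : ℝ≥0) => F x t) (fun (x : Path) (t : ℝ≥0) => G x t) W) :
    IndepFun F G W := by
  rw [IndepFun_iff_Indep] at h ⊢
  have e (F : Path → Path) : MeasurableSpace.comap F (instMS : MeasurableSpace Path) =
      MeasurableSpace.comap (fun (x : Path) (t : ℝ≥0) => F x t) MeasurableSpace.pi := by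
    rw [instMS_eq, MeasurableSpace.comap_comp]; rfl
  rw [e, e]
  exact h

lemma LR_indep {p q U ρ : ℝ≥0} (hpq : p ≤ q) (h1 : q + ρ ≤ U) :
    IndepFun (Lt p U) (fun x => stop ρ (Rt q U x)) W := by
  apply indep_path
  have h := ind_lin hW (S := ℝ≥0) (T := ℝ≥0) (ι := Fin 2) (κ := Fin 2)
    (fun _ => ![-(√2)⁻¹, (√2)⁻¹]) (fun r => ![p - r + U, p - r]) (fun _ => ![p + U, p])
    (fun _ => ![(√2)⁻¹, -(√2)⁻¹]) (fun _ => ![q + U, q])
    (fun r => ![q + U + min r ρ, q + min r ρ]) (by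
      intro s t
      have c0 : (p : ℝ) ≤ q := by exact_mod_cast hpq
      have c1 : (q : ℝ) + ρ ≤ U := by exact_mod_cast h1
      have c2 : ((p - s : ℝ≥0) : ℝ) ≤ p := by exact_mod_cast tsub_le_self
      have c3 := (p - s).coe_nonneg
      have ht : ((min t ρ : ℝ≥0) : ℝ) ≤ ρ := by exact_mod_cast min_le_right t ρ
      have ht0 := (min t ρ).coe_nonneg
      have hρ0 := ρ.coe_nonneg
      simp only [Fin.sum_univ_two, Matrix.cons_val_zero, Matrix.cons_val_one, Matrix.head_cons,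
        Matrix.cons_val]
      have e1 : ov ((p - s + U : ℝ≥0) : ℝ) ((p + U : ℝ≥0) : ℝ) ((q + U : ℝ≥0) : ℝ)
          ((q + U + min t ρ : ℝ≥0) : ℝ) = 0 := by
        apply ov_disj <;> (try simp only [NNReal.coe_add, NNReal.coe_ofNat]) <;> linarith
      have e2 : ov ((p - s + U : ℝ≥0) : ℝ) ((p + U : ℝ≥0) : ℝ) ((q : ℝ≥0) : ℝ)
          ((q + min t ρ : ℝ≥0) : ℝ) = 0 := by
        apply ov_disj' <;> (try simp only [NNReal.coe_add, NNReal.coe_ofNat]) <;> linarith
      have e3 : ov ((p - s : ℝ≥0) : ℝ) ((p : ℝ≥0) : ℝ) ((q + U : ℝ≥0) : ℝ)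
          ((q + U + min t ρ : ℝ≥0) : ℝ) = 0 := by
        apply ov_disj <;> (try simp only [NNReal.coe_add, NNReal.coe_ofNat]) <;> linarith
      have e4 : ov ((p - s : ℝ≥0) : ℝ) ((p : ℝ≥0) : ℝ) ((q : ℝ≥0) : ℝ)
          ((q + min t ρ : ℝ≥0) : ℝ) = 0 := by
        apply ov_disj <;> (try simp only [NNReal.coe_add, NNReal.coe_ofNat]) <;> linarith
      rw [e1, e2, e3, e4]
      ring)
  refine h.congr (ae_of_all _ fun x => ?_) (ae_of_all _ fun x => ?_)
  · funext r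
    simp only [Fin.sum_univ_two, Matrix.cons_val_zero, Matrix.cons_val_one, Matrix.head_cons,
      Matrix.cons_val, Lt_apply]
    ring
  · funext r
    simp only [Fin.sum_univ_two, Matrix.cons_val_zero, Matrix.cons_val_one, Matrix.head_cons,
      Matrix.cons_val, stop_apply, Rt_apply]
    ring

/-- the persistence bound as a function of the horizon -/
noncomputable def BB (h r : ℝ) : ℝ := 10 * h / (5 * h + √r)

omit hW in
lemma BB_pos {h : ℝ} (hh : 0 < h) (r : ℝ) : 0 < BB h r := by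
  unfold BB; have := Real.sqrt_nonneg r; positivity

omit hW in
lemma BB_zero {h : ℝ} (hh : 0 < h) : BB h 0 = 2 := by
  unfold BB; rw [Real.sqrt_zero]; field_simp; ring

lemma pers_BB {ρ : ℝ≥0} {F : Path → Path} (hF : Measurable F) (h : W.map (ext ρ F) = W)
    {H : ℝ} (hH : 0 < H) :
    W {x | ∀ r, r ≤ ρ → F x r ≤ (√2)⁻¹ * (3 * H)} ≤ ENNReal.ofReal (BB H ρ) := by
  have hWp := isProb hW
  have s2 : (0 : ℝ) < √2 := by positivity
  have ha : 0 < (√2)⁻¹ * (3 * H) := by positivity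
  have h1 : W {x | ∀ r, r ≤ ρ → F x r ≤ (√2)⁻¹ * (3 * H)} ≤ 1 := prob_le_one
  rcases eq_or_ne ρ 0 with h0 | h0
  · refine h1.trans ?_
    rw [h0, NNReal.coe_zero, BB_zero hH]
    simp
  have hρ : 0 < ρ := pos_iff_ne_zero.2 h0
  have hρ' : (0 : ℝ) < ρ := by exact_mod_cast hρ
  have hm : MeasurableSet {z : Path | ∀ r, r ≤ ρ → z r ≤ (√2)⁻¹ * (3 * H)} := by
    have e : {z : Path | ∀ r, r ≤ ρ → z r ≤ (√2)⁻¹ * (3 * H)} =
        ⋂ r, ⋂ (_ : r ≤ ρ), {z : Path | z r ≤ (√2)⁻¹ * (3 * H)} := by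
      ext z; simp only [mem_ofPred_eq, mem_iInter]
    rw [e]
    exact (isClosed_iInter fun r => isClosed_iInter fun _ =>
      isClosed_le (by fun_prop) continuous_const).measurableSet
  have h2 := ext_prob (B := {z : Path | ∀ r, r ≤ ρ → z r ≤ (√2)⁻¹ * (3 * H)}) hF h hm (by
    intro x hx r hr
    rw [ext_of_le hr]
    exact hx r hr)
  have h3 := h2.trans (pers hW ha hρ)
  have hs : 0 < √(ρ : ℝ) := Real.sqrt_pos.2 hρ'
  rcases le_total (√(ρ : ℝ)) (5 * H) with h4 | h4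
  · refine h1.trans ?_
    rw [← ENNReal.ofReal_one]
    apply ENNReal.ofReal_le_ofReal
    unfold BB
    rw [le_div_iff₀ (by positivity)]
    linarith
  · refine h3.trans (ENNReal.ofReal_le_ofReal ?_)
    unfold BB
    have h5 : (√2)⁻¹ * 6 ≤ 5 := by
      rw [inv_mul_le_iff₀ s2]
      have : (1.2 : ℝ) ≤ √2 := by
        apply Real.le_sqrt_of_sq_le; norm_num
      linarith
    rw [div_le_div_iff₀ hs (by positivity)]
    have h6 : 2 * ((√2)⁻¹ * (3 * H)) ≤ 5 * H := by nlinarith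
    calc 2 * ((√2)⁻¹ * (3 * H)) * (5 * H + √(ρ : ℝ)) ≤ 5 * H * (5 * H + √(ρ : ℝ)) := by gcongr
      _ ≤ 10 * H * √(ρ : ℝ) := by nlinarith

lemma osc {τ : ℝ≥0} {F : Path → Path} (hF : Measurable F) (h : W.map (ext τ F) = W)
    (h0 : ∀ x, F x 0 = 0) {H w : ℝ} (hH : 0 < H) (hτ : (τ : ℝ) ≤ 2 * w) :
    W {x | ∃ r, r ≤ τ ∧ (√2)⁻¹ * (H / 2) ≤ |F x r|} ≤
      ENNReal.ofReal (4 * Real.exp (-(H ^ 2 / (32 * w)))) := by
  have hWp := isProb hW
  have s2 : (0 : ℝ) < √2 := by positivity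
  have ha : 0 < (√2)⁻¹ * (H / 2) := by positivity
  rcases eq_or_ne τ 0 with ht | ht
  · have : {x | ∃ r, r ≤ τ ∧ (√2)⁻¹ * (H / 2) ≤ |F x r|} = ∅ := by
      ext x
      simp only [ht, nonpos_iff_eq_zero, exists_eq_left, h0, abs_zero, mem_ofPred_eq,
        mem_empty_iff_false, iff_false, not_le]
      exact ha
    rw [this, measure_empty]
    exact zero_le
  have hτ0 : 0 < τ := pos_iff_ne_zero.2 ht
  have hτ' : (0 : ℝ) < τ := by exact_mod_cast hτ0
  set a := (√2)⁻¹ * (H / 2) with hadef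
  have hasq : a ^ 2 = H ^ 2 / 8 := by
    rw [hadef, mul_pow, inv_pow, Real.sq_sqrt (by norm_num)]; ring
  have hb : W {x : Path | ∃ s, s ≤ τ ∧ a ≤ x s} ≤
      ENNReal.ofReal (2 * Real.exp (-(H ^ 2 / (32 * w)))) := by
    refine (sup_tail hW ha hτ0).trans (ENNReal.ofReal_le_ofReal ?_)
    have h7 : H ^ 2 / (32 * w) ≤ a ^ 2 / (2 * τ) := by
      rw [hasq, div_div]
      apply div_le_div_of_nonneg_left (by positivity) (by positivity)
      linarith
    have := Real.exp_le_exp.2 (neg_le_neg h7)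
    linarith
  have e1 : W {x | F x ∈ {z : Path | ∃ s, s ≤ τ ∧ a ≤ z s}} ≤ W {x : Path | ∃ s, s ≤ τ ∧ a ≤ x s} :=
    ext_prob hF h (Ga_meas a τ) (by
      rintro x ⟨s, hs, h1⟩
      exact ⟨s, hs, by rw [ext_of_le hs]; exact h1⟩)
  have mA2 : MeasurableSet {z : Path | ∃ s, s ≤ τ ∧ a ≤ - z s} := ng_meas (Ga_meas a τ)
  have e2 : W {x | F x ∈ {z : Path | ∃ s, s ≤ τ ∧ a ≤ - z s}} ≤ W {z : Path | ∃ s, s ≤ τ ∧ a ≤ - z s} :=
    ext_prob hF h mA2 (by
      rintro x ⟨s, hs, h1⟩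
      exact ⟨s, hs, by rw [ext_of_le hs]; exact h1⟩)
  have e3 : W {z : Path | ∃ s, s ≤ τ ∧ a ≤ - z s} = W {x : Path | ∃ s, s ≤ τ ∧ a ≤ x s} :=
    (ng_mp hW).measure_preimage (Ga_meas a τ).nullMeasurableSet
  have e4 : {x | ∃ r, r ≤ τ ∧ a ≤ |F x r|} ⊆ {x | F x ∈ {z : Path | ∃ s, s ≤ τ ∧ a ≤ z s}} ∪
      {x | F x ∈ {z : Path | ∃ s, s ≤ τ ∧ a ≤ - z s}} := by
    rintro x ⟨r, hr, h1⟩
    rcases le_abs.1 h1 with h2 | h2
    · exact Or.inl ⟨r, hr, h2⟩
    · exact Or.inr ⟨r, hr, h2⟩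
  calc W {x | ∃ r, r ≤ τ ∧ a ≤ |F x r|} ≤ _ := measure_mono e4
    _ ≤ _ := measure_union_le _ _
    _ ≤ ENNReal.ofReal (2 * Real.exp (-(H ^ 2 / (32 * w)))) +
        ENNReal.ofReal (2 * Real.exp (-(H ^ 2 / (32 * w)))) :=
      add_le_add (e1.trans hb) (e2.trans (e3.le.trans hb))
    _ = _ := by
      rw [← ENNReal.ofReal_add (by positivity) (by positivity)]
      congr 1
      ring

/-- **Near maxima in a window.** -/
theorem near {U p q : ℝ≥0} {w H : ℝ} (hU : 1 ≤ 2 * U) (hpq : p ≤ q) (hq : q + U ≤ 1)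
    (hw : (q : ℝ) - p ≤ 2 * w) (hH : 0 < H) :
    W (NM U p q (2 * H)) ≤ ENNReal.ofReal (BB H p * BB H (1 - U - q)) +
      ENNReal.ofReal (4 * Real.exp (-(H ^ 2 / (32 * w)))) := by
  have hWp := isProb hW
  have s2 : (0 : ℝ) < √2 := by positivity
  have s2' : (0 : ℝ) < (√2)⁻¹ := by positivity
  obtain ⟨ρ, hρ⟩ := exists_add_of_le hq
  have hρ' : (1 : ℝ) - U - q = ρ := by
    have : (1 : ℝ) = q + U + ρ := by exact_mod_cast hρ
    linarith
  have hqρ : q + ρ ≤ U := by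
    have h1 : q + U + ρ ≤ 2 * U := by rw [← hρ]; exact hU
    have h2 : (q : ℝ) + U + ρ ≤ 2 * U := by exact_mod_cast h1
    have : (q : ℝ) + ρ ≤ U := by linarith
    exact_mod_cast this
  have hqU : q ≤ U := le_self_add.trans hqρ
  have hpU : p ≤ U := hpq.trans hqU
  have hpU1 : p + U ≤ 1 := (add_le_add_left hpq U).trans hq
  have hτ1 : p + (q - p) = q := add_tsub_cancel_of_le hpq
  have hτ2 : ((q - p : ℝ≥0) : ℝ) = (q : ℝ) - p := NNReal.coe_sub hpq
  set L : Set Path := {z | ∀ r, r ≤ p → z r ≤ (√2)⁻¹ * (3 * H)} with hL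
  set R : Set Path := {z | ∀ r, r ≤ ρ → z r ≤ (√2)⁻¹ * (3 * H)} with hR
  have hcl (τ : ℝ≥0) : MeasurableSet {z : Path | ∀ r, r ≤ τ → z r ≤ (√2)⁻¹ * (3 * H)} := by
    have e : {z : Path | ∀ r, r ≤ τ → z r ≤ (√2)⁻¹ * (3 * H)} =
        ⋂ r, ⋂ (_ : r ≤ τ), {z : Path | z r ≤ (√2)⁻¹ * (3 * H)} := by
      ext z; simp only [mem_ofPred_eq, mem_iInter]
    rw [e]
    exact (isClosed_iInter fun r => isClosed_iInter fun _ =>
      isClosed_le (by fun_prop) continuous_const).measurableSet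
  have hsub : NM U p q (2 * H) ⊆ (Lt p U ⁻¹' L ∩ (fun x => stop ρ (Rt q U x)) ⁻¹' R) ∪
      {x | ∃ r, r ≤ q - p ∧ (√2)⁻¹ * (H / 2) ≤ |Rt p U x r|} := by
    rintro x ⟨s, ⟨hs1, hs2⟩, hs3⟩
    by_cases hO : ∃ r, r ≤ q - p ∧ (√2)⁻¹ * (H / 2) ≤ |Rt p U x r|
    · exact Or.inr hO
    left
    push Not at hO
    have hk : ∀ r, p ≤ r → r ≤ q → |(x (r + U) - x r) - (x (p + U) - x p)| ≤ H / 2 := by
      intro r hr1 hr2
      have h1 := hO (r - p) (tsub_le_tsub_right hr2 p)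
      rw [Rt_apply, abs_mul, abs_of_pos s2'] at h1
      have h2 := lt_of_mul_lt_mul_left h1 s2'.le
      have e1 : p + U + (r - p) = r + U := by
        rw [add_right_comm, add_tsub_cancel_of_le hr1]
      rw [e1, add_tsub_cancel_of_le hr1] at h2
      have e2 : x (r + U) - x (p + U) - (x r - x p) = (x (r + U) - x r) - (x (p + U) - x p) := by ring
      rw [e2] at h2
      exact h2.le
    have k1 := abs_le.1 (hk s hs1 hs2)
    have k2 := abs_le.1 (hk q hpq le_rfl)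
    refine ⟨fun r hr => ?_, fun r hr => ?_⟩
    · rw [Lt_apply]
      apply mul_le_mul_of_nonneg_left _ s2'.le
      rcases eq_or_ne r 0 with h0 | h0
      · rw [h0, tsub_zero]
        linarith
      · have h1 : p - r < p := tsub_lt_self ((pos_iff_ne_zero.2 h0).trans_le hr) (pos_iff_ne_zero.2 h0)
        have h2 := hs3 (p - r) ((add_le_add_left h1.le U).trans hpU1) (Or.inl h1)
        linarith [k1.1, k1.2]
    · show stop ρ (Rt q U x) r ≤ _
      rw [stop_apply, min_eq_left hr, Rt_apply]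
      apply mul_le_mul_of_nonneg_left _ s2'.le
      rcases eq_or_ne r 0 with h0 | h0
      · rw [h0, add_zero, add_zero]
        linarith
      · have h1 : q < q + r := lt_add_of_pos_right _ (pos_iff_ne_zero.2 h0)
        have h3 : q + r + U ≤ 1 := by
          rw [hρ, add_right_comm]
          exact add_le_add_right hr _
        have h2 := hs3 (q + r) h3 (Or.inr h1)
        have e1 : q + U + r = q + r + U := by ring
        rw [e1]
        linarith [k1.1, k1.2, k2.1, k2.2]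
  have hi := LR_indep hW (p := p) (q := q) (U := U) (ρ := ρ) hpq hqρ
  have h1 : W (Lt p U ⁻¹' L ∩ (fun x => stop ρ (Rt q U x)) ⁻¹' R) ≤
      ENNReal.ofReal (BB H p * BB H (1 - U - q)) := by
    rw [hi.measure_inter_preimage_eq_mul _ _ (hcl p) (hcl ρ), hρ',
      ENNReal.ofReal_mul (BB_pos hH _).le]
    refine mul_le_mul' ?_ ?_
    · exact pers_BB hW (Lt_meas p U) (Lt_law hW hpU hpU1) hH
    · have h3 : (fun x => stop ρ (Rt q U x)) ⁻¹' R ⊆
          {x | ∀ r, r ≤ ρ → Rt q U x r ≤ (√2)⁻¹ * (3 * H)} := by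
        intro x hx r hr
        have h4 : stop ρ (Rt q U x) r ≤ (√2)⁻¹ * (3 * H) := hx r hr
        rw [stop_apply, min_eq_left hr] at h4
        exact h4
      exact (measure_mono h3).trans
        (pers_BB hW (Rt_meas q U) (Rt_law hW (ρ := ρ) hqρ hρ.ge) hH)
  have h2 := osc hW (Rt_meas p U) (Rt_law hW (q := p) (U := U) (ρ := q - p)
    (by rw [hτ1]; exact hqU) (by rw [add_right_comm, hτ1]; exact hq))
    (fun x => by rw [Rt_apply, add_zero, add_zero]; ring) hH (by rw [hτ2]; exact hw)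
  exact (measure_mono hsub).trans ((measure_union_le _ _).trans (add_le_add h1 h2))

end Q297.Spn
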