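import Pool.Agent.Q297.SpA
import Pool.Agent.Q297.SpL

/-!
The dual chain of the rule `T = min(first r ≥ 1 with B_r - B_{r-1} ≥ θ, 3)`, in reversed time.
-/

open MeasureTheory ProbabilityTheory Set Filter Topology
open scoped ENNReal NNReal
open Q297.PathC Q297.Prepend Q297.TwoS Q297.Dec Q297.Spn

namespace Q297.Bw

/-- a feature at time `t` of the reversed path -/
def Fe (θ : ℝ) (b : Path) (t : ℝ≥0) : Prop := θ ≤ b t - b (t + 1)

/-- the first feature after `τ`, or `τ + 2` -/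
noncomputable def Q (θ : ℝ) (b : Path) (τ : ℝ≥0) : ℝ≥0 := sInf ({t | τ ≤ t ∧ Fe θ b t} ∪ {τ + 2})

variable {θ : ℝ}

lemma Fe_closed (θ : ℝ) (b : Path) : IsClosed {t | Fe θ b t} :=
  isClosed_le continuous_const (by fun_prop)

lemma Q_mem (b : Path) (τ : ℝ≥0) : (τ ≤ Q θ b τ ∧ Fe θ b (Q θ b τ)) ∨ Q θ b τ = τ + 2 := by
  have h : IsClosed ({t | τ ≤ t ∧ Fe θ b t} ∪ {τ + 2}) :=
    ((isClosed_le continuous_const continuous_id).inter (Fe_closed θ b)).union isClosed_singleton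
  exact h.csInf_mem ⟨τ + 2, Or.inr rfl⟩ (OrderBot.bddBelow _)

lemma Q_le2 (b : Path) (τ : ℝ≥0) : Q θ b τ ≤ τ + 2 := csInf_le (OrderBot.bddBelow _) (Or.inr rfl)

lemma Q_le {b : Path} {τ t : ℝ≥0} (h : τ ≤ t) (hf : Fe θ b t) : Q θ b τ ≤ t :=
  csInf_le (OrderBot.bddBelow _) (Or.inl ⟨h, hf⟩)

lemma le_Q (b : Path) (τ : ℝ≥0) : τ ≤ Q θ b τ := by
  rcases Q_mem (θ := θ) b τ with h | h
  · exact h.1
  · rw [h]; exact le_self_add

lemma Q_mono (b : Path) {τ τ' : ℝ≥0} (h : τ ≤ τ') : Q θ b τ ≤ Q θ b τ' := by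
  rcases Q_mem (θ := θ) b τ' with h1 | h1
  · exact Q_le (h.trans h1.1) h1.2
  · rw [h1]; exact (Q_le2 b τ).trans (add_le_add_left h 2)

lemma Fe_shift (b : Path) (c t : ℝ≥0) : Fe θ (shift c b) t ↔ Fe θ b (c + t) := by
  unfold Fe
  rw [shift_apply, shift_apply, add_assoc]
  constructor <;> intro h <;> linarith

lemma Q_shift (b : Path) (c τ : ℝ≥0) : Q θ b (c + τ) = c + Q θ (shift c b) τ := by
  apply le_antisymm
  · rcases Q_mem (θ := θ) (shift c b) τ with h | h
    · exact Q_le (add_le_add_right h.1 c) ((Fe_shift b c _).1 h.2)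
    · rw [h, ← add_assoc]; exact Q_le2 _ _
  · rcases Q_mem (θ := θ) b (c + τ) with h | h
    · have hc : c ≤ Q θ b (c + τ) := le_self_add.trans h.1
      obtain ⟨r, hr⟩ := exists_add_of_le hc
      rw [hr] at h ⊢
      refine add_le_add_right (Q_le (le_of_add_le_add_left h.1) ((Fe_shift b c r).2 h.2)) c
    · rw [h, add_assoc]; exact add_le_add_right (Q_le2 _ _) c

lemma Q_lt_iff (b : Path) (τ q : ℝ≥0) : Q θ b τ < q ↔ τ + 2 < q ∨ ∃ t < q, τ ≤ t ∧ Fe θ b t := by
  constructor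
  · intro h
    rcases Q_mem (θ := θ) b τ with h1 | h1
    · exact Or.inr ⟨_, h, h1⟩
    · exact Or.inl (h1 ▸ h)
  · rintro (h | ⟨t, ht, h1, h2⟩)
    · exact (Q_le2 b τ).trans_lt h
    · exact (Q_le h1 h2).trans_lt ht

lemma Fe_set_closed (θ : ℝ) (K : Set ℝ≥0) (hK : IsCompact K) : IsClosed {b : Path | ∃ t ∈ K, Fe θ b t} :=
  closed_ex hK (C := {p : Path × ℝ≥0 | θ ≤ p.1 p.2 - p.1 (p.2 + 1)})
    (isClosed_le continuous_const (by fun_prop))

lemma Q_meas (θ : ℝ) (τ : ℝ≥0) : Measurable (fun b => Q θ b τ) := by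
  refine measurable_of_Iio fun q => ?_
  have e : (fun b => Q θ b τ) ⁻¹' Iio q = {_b | τ + 2 < q} ∪
      ⋃ n : ℕ, {b : Path | ∃ t ∈ Icc τ (q - 1 / ((n : ℝ≥0) + 1)), q ≠ 0 ∧ Fe θ b t} := by
    ext b
    simp only [mem_preimage, mem_Iio, mem_union, mem_ofPred_eq, mem_iUnion, Q_lt_iff]
    refine or_congr Iff.rfl ?_
    constructor
    · rintro ⟨t, ht, h1, h2⟩
      obtain ⟨n, hn⟩ := exists_nat_one_div_lt (K := ℝ≥0) (tsub_pos_of_lt ht)
      refine ⟨n, t, ⟨h1, ?_⟩, (zero_le.trans_lt ht).ne', h2⟩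
      rw [le_tsub_iff_right (hn.le.trans tsub_le_self)]
      have := add_le_add_right hn.le t
      rwa [add_tsub_cancel_of_le ht.le] at this
    · rintro ⟨n, t, ⟨h1, h3⟩, h0, h2⟩
      exact ⟨t, h3.trans_lt (tsub_lt_self (pos_iff_ne_zero.2 h0) (by positivity)), h1, h2⟩
  rw [e]
  refine (MeasurableSet.const _).union (MeasurableSet.iUnion fun n => ?_)
  by_cases h0 : q = 0
  · have : {b : Path | ∃ t ∈ Icc τ (q - 1 / ((n : ℝ≥0) + 1)), q ≠ 0 ∧ Fe θ b t} = ∅ := by
      ext b; simp [h0]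
    rw [this]
    exact MeasurableSet.empty
  · have : {b : Path | ∃ t ∈ Icc τ (q - 1 / ((n : ℝ≥0) + 1)), q ≠ 0 ∧ Fe θ b t} =
        {b : Path | ∃ t ∈ Icc τ (q - 1 / ((n : ℝ≥0) + 1)), Fe θ b t} := by
      ext b; simp [h0]
    rw [this]
    exact (Fe_set_closed θ _ isCompact_Icc).measurableSet

lemma shift_joint : Measurable (fun p : ℝ≥0 × Path => shift p.1 p.2) := by
  refine measurable_of_eval fun t => ?_
  simp only [shift_apply]
  exact (ev_meas1.comp ((measurable_fst.add_const t).prodMk measurable_snd)).sub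
    (ev_meas1.comp (measurable_fst.prodMk measurable_snd))

lemma Q_joint (θ : ℝ) : Measurable (fun p : ℝ≥0 × Path => Q θ p.2 p.1) := by
  have e : (fun p : ℝ≥0 × Path => Q θ p.2 p.1) = fun p => p.1 + Q θ (shift p.1 p.2) 0 := by
    funext p
    have := Q_shift (θ := θ) p.2 p.1 0
    rwa [add_zero] at this
  rw [e]
  exact measurable_fst.add ((Q_meas θ 0).comp shift_joint)

lemma Q_stop {b : Path} {τ c : ℝ≥0} (h : τ + 3 ≤ c) : Q θ (stop c b) τ = Q θ b τ := by
  have key : ∀ t, t ≤ τ + 2 → (Fe θ (stop c b) t ↔ Fe θ b t) := by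
    intro t ht
    have h1 : t + 1 ≤ c := by
      refine le_trans (add_le_add_left ht 1) (le_trans (le_of_eq ?_) h)
      rw [add_assoc]; norm_num
    unfold Fe
    rw [stop_apply, stop_apply, min_eq_left (le_self_add.trans h1), min_eq_left h1]
  apply le_antisymm
  · rcases Q_mem (θ := θ) b τ with h1 | h1
    · exact Q_le h1.1 ((key _ (Q_le2 b τ)).2 h1.2)
    · rw [h1]; exact Q_le2 _ _
  · rcases Q_mem (θ := θ) (stop c b) τ with h1 | h1
    · exact Q_le h1.1 ((key _ (Q_le2 _ τ)).1 h1.2)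
    · rw [h1]; exact Q_le2 _ _

/-- the dual step -/
noncomputable def psi (θ : ℝ) (b : Path) (τ : ℝ≥0) : ℝ≥0 := 1 + Q θ b τ

lemma psi_mono (b : Path) {τ τ' : ℝ≥0} (h : τ ≤ τ') : psi θ b τ ≤ psi θ b τ' :=
  add_le_add_right (Q_mono b h) 1

lemma psi_shift (b : Path) (c τ : ℝ≥0) : psi θ b (c + τ) = c + psi θ (shift c b) τ := by
  unfold psi; rw [Q_shift]; ring

/-- the dual chain with gap `g` -/
noncomputable def ch (θ : ℝ) (g : ℝ≥0) (m : ℕ) (b : Path) (τ : ℝ≥0) : ℝ≥0 :=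
  (fun s => psi θ b s + g)^[m] τ

lemma ch_zero (g : ℝ≥0) (b : Path) (τ : ℝ≥0) : ch θ g 0 b τ = τ := rfl

lemma ch_succ (g : ℝ≥0) (m : ℕ) (b : Path) (τ : ℝ≥0) :
    ch θ g (m + 1) b τ = ch θ g m b (psi θ b τ + g) := rfl

lemma ch_succ' (g : ℝ≥0) (m : ℕ) (b : Path) (τ : ℝ≥0) :
    ch θ g (m + 1) b τ = psi θ b (ch θ g m b τ) + g := Function.iterate_succ_apply' _ _ _

attribute [irreducible] ch

lemma ch_mono (g : ℝ≥0) (m : ℕ) (b : Path) : Monotone (ch θ g m b) := by
  induction m with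
  | zero => intro τ τ' h; rw [ch_zero, ch_zero]; exact h
  | succ m ih =>
    intro τ τ' h
    rw [ch_succ, ch_succ]
    exact ih (add_le_add_left (psi_mono b h) g)

lemma ch_shift (g : ℝ≥0) (m : ℕ) (b : Path) (c : ℝ≥0) :
    ∀ τ, ch θ g m b (c + τ) = c + ch θ g m (shift c b) τ := by
  induction m with
  | zero => intro τ; rw [ch_zero, ch_zero]
  | succ m ih =>
    intro τ
    rw [ch_succ, ch_succ, psi_shift, add_assoc, ih]

lemma ch_joint (θ : ℝ) (g : ℝ≥0) (m : ℕ) : Measurable (fun p : ℝ≥0 × Path => ch θ g m p.2 p.1) := by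
  induction m with
  | zero =>
    simp only [ch_zero]
    exact measurable_fst
  | succ m ih =>
    have h1 : Measurable (fun p : ℝ≥0 × Path => psi θ p.2 p.1 + g) :=
      ((Q_joint θ).const_add 1).add_const g
    have h2 : Measurable (fun p : ℝ≥0 × Path => (psi θ p.2 p.1 + g, p.2)) := h1.prodMk measurable_snd
    simp only [ch_succ]
    exact ih.comp h2

lemma ch_meas (θ : ℝ) (g : ℝ≥0) (m : ℕ) (τ : ℝ≥0) : Measurable (fun b : Path => ch θ g m b τ) := by
  have h : Measurable (fun b : Path => (τ, b)) := measurable_const.prodMk measurable_id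
  exact (ch_joint θ g m).comp h

/-- the increase of the distance in one dual step -/
noncomputable def Dd (θ : ℝ) (b : Path) (d : ℝ≥0) : ℝ≥0 := psi θ b d - psi θ b 0

lemma psi_add_Dd (b : Path) (d : ℝ≥0) : psi θ b 0 + Dd θ b d = psi θ b d :=
  add_tsub_cancel_of_le (psi_mono b zero_le)

lemma Dd_meas (θ : ℝ) (d : ℝ≥0) : Measurable (fun b => Dd θ b d) :=
  ((Q_meas θ d).const_add 1).sub ((Q_meas θ 0).const_add 1)

lemma psi_ge (b : Path) (τ : ℝ≥0) : 1 + τ ≤ psi θ b τ := add_le_add_right (le_Q b τ) 1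

lemma psi_le (b : Path) (τ : ℝ≥0) : psi θ b τ ≤ τ + 3 := by
  unfold psi
  refine (add_le_add_right (Q_le2 b τ) 1).trans (le_of_eq ?_)
  ring

lemma Dd_le (b : Path) (d : ℝ≥0) : Dd θ b d ≤ d + 2 := by
  unfold Dd
  rw [tsub_le_iff_right]
  refine (psi_le b d).trans ?_
  have h1 : 1 ≤ psi θ b 0 := by
    have := psi_ge (θ := θ) b 0
    rwa [add_zero] at this
  calc d + 3 = d + 2 + 1 := by rw [add_assoc]; norm_num
    _ ≤ _ := add_le_add_right h1 _

variable {W : Measure Path} (hW : IsBrownianReal (fun (t : ℝ≥0) (x : Path) => x t) W)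

/-- the probability that two dual chains at distance `d` have not met after `m` steps -/
noncomputable def vv (θ : ℝ) (W : Measure Path) (g : ℝ≥0) (m : ℕ) (d : ℝ≥0) : ℝ≥0∞ :=
  W {b | ch θ g m b 0 ≠ ch θ g m b d}

lemma vv_meas [SFinite W] (g : ℝ≥0) (m : ℕ) : Measurable (vv θ W g m) := by
  have hm : MeasurableSet {p : ℝ≥0 × Path | ch θ g m p.2 0 ≠ ch θ g m p.2 p.1} :=
    (measurableSet_eq_fun ((ch_meas θ g m 0).comp measurable_snd) (ch_joint θ g m)).compl
  exact measurable_measure_prodMk_left hm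

include hW

lemma vv_shift (g : ℝ≥0) (m : ℕ) (a d : ℝ≥0) :
    W {b | ch θ g m b a ≠ ch θ g m b (a + d)} = vv θ W g m d := by
  have hm : MeasurableSet {b : Path | ch θ g m b 0 ≠ ch θ g m b d} :=
    (measurableSet_eq_fun (ch_meas θ g m 0) (ch_meas θ g m d)).compl
  unfold vv
  conv_rhs => rw [← map_shift hW a]
  rw [Measure.map_apply (measurable_shift a) hm]
  congr 1
  ext b
  have h1 := ch_shift (θ := θ) g m b a 0
  have h2 := ch_shift (θ := θ) g m b a d
  rw [add_zero] at h1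
  simp only [mem_ofPred_eq, mem_preimage]
  rw [h1, h2, ne_eq, ne_eq, add_right_inj]

/-- first step analysis -/
lemma vv_succ {g : ℝ≥0} (m : ℕ) {d : ℝ≥0} (hg : d + 2 ≤ g) :
    vv θ W g (m + 1) d = ∫⁻ b, vv θ W g m (Dd θ b d) ∂W := by
  have hWp := isProb hW
  set c : ℝ≥0 := d + 3 with hc
  have hcg : ∀ b : Path, c ≤ psi θ b 0 + g := by
    intro b
    have h1 : 1 ≤ psi θ b 0 := by
      have := psi_ge (θ := θ) b 0
      rwa [add_zero] at this
    calc c = 1 + (d + 2) := by rw [hc]; ring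
      _ ≤ _ := add_le_add h1 hg
  set a : Path → ℝ≥0 := fun b => psi θ b 0 + g - c with ha
  have ma : Measurable a := (((Q_meas θ 0).const_add 1).add_const g).sub_const c
  have hpsi0 : ∀ b : Path, psi θ (stop c b) 0 = psi θ b 0 := by
    intro b; unfold psi; rw [Q_stop]; rw [hc, zero_add]; exact le_add_self
  have hpsid : ∀ b : Path, psi θ (stop c b) d = psi θ b d := by
    intro b; unfold psi; rw [Q_stop hc.ge]
  have has : ∀ b, a (stop c b) = a b := by
    intro b; simp only [ha, hpsi0]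
  have hDs : ∀ b, Dd θ (stop c b) d = Dd θ b d := by
    intro b; unfold Dd; rw [hpsi0, hpsid]
  set G : Set (Path × Path) := {p | ch θ g m p.2 (a p.1) ≠ ch θ g m p.2 (a p.1 + Dd θ p.1 d)} with hG
  have mG : MeasurableSet G := by
    have h1 : Measurable (fun p : Path × Path => (a p.1, p.2)) :=
      (ma.comp measurable_fst).prodMk measurable_snd
    have h2 : Measurable (fun p : Path × Path => (a p.1 + Dd θ p.1 d, p.2)) :=
      ((ma.comp measurable_fst).add ((Dd_meas θ d).comp measurable_fst)).prodMk measurable_snd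
    have h3 : Measurable (fun p : Path × Path => ch θ g m p.2 (a p.1)) := (ch_joint θ g m).comp h1
    have h4 : Measurable (fun p : Path × Path => ch θ g m p.2 (a p.1 + Dd θ p.1 d)) :=
      (ch_joint θ g m).comp h2
    exact (measurableSet_eq_fun h3 h4).compl
  have e1 : {b | ch θ g (m + 1) b 0 ≠ ch θ g (m + 1) b d} =
      (fun b => (stop c b, shift c b)) ⁻¹' G := by
    ext b
    simp only [hG, mem_ofPred_eq, mem_preimage]
    rw [ch_succ, ch_succ, has, hDs]
    have h1 : psi θ b 0 + g = c + a b := (add_tsub_cancel_of_le (hcg b)).symm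
    have h2 : psi θ b d + g = c + (a b + Dd θ b d) := by
      rw [← add_assoc, ← h1, ← psi_add_Dd b d]; ring
    rw [h1, h2, ch_shift, ch_shift, ne_eq, ne_eq, add_right_inj]
  unfold vv
  rw [e1, ← Measure.map_apply ((stop_meas1 c).prodMk (measurable_shift c)) mG, stop_shift hW c,
    Measure.prod_apply mG, lintegral_map (measurable_measure_prodMk_left mG) (stop_meas1 c)]
  refine lintegral_congr fun b => ?_
  have := vv_shift hW (θ := θ) g m (a (stop c b)) (Dd θ (stop c b) d)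
  rw [hDs] at this
  rw [← vv, ← this, ← hDs b]
  rfl

end Q297.Bw
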