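import Pool.Agent.Q297.BwA

/-!
Two dual chains meet: a Lyapunov function.
-/

open MeasureTheory ProbabilityTheory Set Filter Topology
open scoped ENNReal NNReal
open Q297.PathC Q297.Prepend Q297.TwoS Q297.Dec Q297.Spn

namespace Q297.Bw

/-- no feature up to time `r` -/
def NF (θ : ℝ) (r : ℝ≥0) : Set Path := {b | ∀ t, t ≤ r → ¬ Fe θ b t}

/-- a feature at time zero -/
def F0 (θ : ℝ) : Set Path := {b | Fe θ b 0}

variable {θ : ℝ}

lemma NF_meas (θ : ℝ) (r : ℝ≥0) : MeasurableSet (NF θ r) := by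
  have h := (Fe_set_closed θ (Icc 0 r) isCompact_Icc).measurableSet.compl
  have e : NF θ r = {b : Path | ∃ t ∈ Icc 0 r, Fe θ b t}ᶜ := by
    ext b
    simp only [NF, mem_ofPred_eq, mem_compl_iff, mem_Icc, zero_le, true_and, not_exists, not_and]
  rw [e]; exact h

lemma F0_meas (θ : ℝ) : MeasurableSet (F0 θ) := by
  have h : IsClosed {b : Path | θ ≤ b 0 - b (0 + 1)} := isClosed_le continuous_const (by fun_prop)
  exact h.measurableSet

variable {W : Measure Path} (hW : IsBrownianReal (fun (t : ℝ≥0) (x : Path) => x t) W)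

include hW

lemma exists_theta : ∃ θ : ℝ, 1 / 2 ≤ W.real (NF θ 2) := by
  have hWp := isProb hW
  set B : ℕ → Set Path := fun K => NF (K : ℝ) 2 with hB
  have hmono : Monotone B := fun K K' h b hb t ht hf => hb t ht (by
    unfold Fe at hf ⊢
    have : (K : ℝ) ≤ K' := by exact_mod_cast h
    linarith)
  have hU : ⋃ K, B K = univ := by
    rw [eq_univ_iff_forall]
    intro b
    have hc : Continuous (fun t : ℝ≥0 => b t - b (t + 1)) := by fun_prop
    obtain ⟨M, hM⟩ := (isCompact_Icc.image hc :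
      IsCompact ((fun t : ℝ≥0 => b t - b (t + 1)) '' Icc 0 2)).bddAbove
    obtain ⟨K, hK⟩ := exists_nat_gt M
    rw [mem_iUnion]
    refine ⟨K, fun t ht hf => ?_⟩
    have h1 := hM ⟨t, ⟨zero_le, ht⟩, rfl⟩
    have h2 : (K : ℝ) ≤ b t - b (t + 1) := hf
    simp only at h1
    linarith
  have hlim := tendsto_measure_iUnion_atTop (μ := W) hmono
  rw [hU, measure_univ] at hlim
  obtain ⟨K, hK⟩ := (hlim.eventually (lt_mem_nhds (show (1 / 2 : ℝ≥0∞) < 1 by
    rw [one_div]; exact ENNReal.inv_lt_one.2 (by norm_num)))).exists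
  refine ⟨K, ?_⟩
  have hK' : (1 / 2 : ℝ≥0∞) < W (B K) := hK
  have h2 := (ENNReal.toReal_le_toReal (by norm_num) (measure_ne_top W (B K))).2 hK'.le
  rw [ENNReal.toReal_div] at h2
  simpa [measureReal_def] using h2

lemma F0_pos (θ : ℝ) : 0 < W.real (F0 θ) := by
  have hWp := isProb hW
  rw [measureReal_def, ENNReal.toReal_pos_iff]
  refine ⟨?_, measure_lt_top _ _⟩
  rw [pos_iff_ne_zero]
  intro h0
  have h1 : W {b : Path | b 1 ≤ -θ} = 0 := by
    rw [← h0]
    apply measure_congr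
    filter_upwards [W_zero hW] with b hb
    apply propext
    show b 1 ≤ -θ ↔ θ ≤ b 0 - b (0 + 1)
    rw [hb, zero_add]
    constructor <;> intro h <;> linarith
  have hg := hW.hasLaw_eval 1
  have h2 : gaussianReal 0 1 (Iic (-θ)) = 0 := by
    rw [← hg.map_eq, Measure.map_apply (measurable_eval _) measurableSet_Iic]
    exact h1
  have h3 := gaussianReal_absolutelyContinuous' 0 (one_ne_zero) h2
  rw [Real.volume_Iic] at h3
  exact ENNReal.top_ne_zero h3

lemma E3_prob {d : ℝ≥0} (hd : 1 ≤ d) :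
    W.real (F0 θ) * W.real (NF θ 2) ≤ W.real {b | Dd θ b d = d + 2} := by
  have hWp := isProb hW
  have h := indep_stop_shift hW d (F0_meas θ) (NF_meas θ 2)
  have e1 : stop d ⁻¹' F0 θ = F0 θ := by
    ext b
    show θ ≤ stop d b 0 - stop d b (0 + 1) ↔ θ ≤ b 0 - b (0 + 1)
    rw [stop_apply, stop_apply, min_eq_left zero_le, min_eq_left (by rwa [zero_add])]
  rw [e1] at h
  rw [measureReal_def, measureReal_def, measureReal_def, ← ENNReal.toReal_mul, ← h]
  refine ENNReal.toReal_mono (measure_ne_top _ _) (measure_mono ?_)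
  rintro b ⟨h1, h2⟩
  have q0 : Q θ b 0 = 0 := le_antisymm (Q_le le_rfl h1) zero_le
  have qd : Q θ b d = d + 2 := by
    rcases Q_mem (θ := θ) b d with h3 | h3
    · exfalso
      obtain ⟨r, hr⟩ := exists_add_of_le h3.1
      have hr2 : r ≤ 2 := by
        have := Q_le2 (θ := θ) b d
        rw [hr] at this
        exact le_of_add_le_add_left this
      have h4 := h3.2
      rw [hr] at h4
      exact h2 r hr2 ((Fe_shift b d r).2 h4)
    · exact h3
  show Dd θ b d = d + 2
  unfold Dd psi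
  rw [q0, qd, add_zero, add_tsub_cancel_left]

lemma E2_prob {d : ℝ≥0} (hd : d ≤ 1) :
    W.real (NF θ 2) * W.real (F0 θ) ≤ W.real {b | Dd θ b d = 0} := by
  have hWp := isProb hW
  have h := indep_stop_shift hW 2 (NF_meas θ 1) (F0_meas θ)
  have e1 : stop 2 ⁻¹' NF θ 1 = NF θ 1 := by
    ext b
    show (∀ t, t ≤ 1 → ¬ θ ≤ stop 2 b t - stop 2 b (t + 1)) ↔ (∀ t, t ≤ 1 → ¬ θ ≤ b t - b (t + 1))
    refine forall_congr' fun t => forall_congr' fun ht => ?_
    have h2 : t + 1 ≤ 2 := by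
      calc t + 1 ≤ 1 + 1 := add_le_add_left ht 1
        _ = 2 := by norm_num
    rw [stop_apply, stop_apply, min_eq_left (le_self_add.trans h2), min_eq_left h2]
  rw [e1] at h
  have h0 : W.real (NF θ 2) * W.real (F0 θ) ≤ W.real (NF θ 1) * W.real (F0 θ) := by
    apply mul_le_mul_of_nonneg_right _ measureReal_nonneg
    refine ENNReal.toReal_mono (measure_ne_top _ _) (measure_mono fun b hb t ht => hb t ?_)
    exact ht.trans (by norm_num)
  refine h0.trans ?_
  rw [measureReal_def, measureReal_def, measureReal_def, ← ENNReal.toReal_mul, ← h]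
  refine ENNReal.toReal_mono (measure_ne_top _ _) (measure_mono ?_)
  rintro b ⟨h1, h2⟩
  have hf2 : Fe θ b 2 := by
    have := (Fe_shift b 2 0).1 h2
    rwa [add_zero] at this
  have hd2 : d ≤ 2 := hd.trans (by norm_num)
  have q1 : Q θ b d ≤ Q θ b 0 := by
    have h4 : Fe θ b (Q θ b 0) := by
      rcases Q_mem (θ := θ) b 0 with h3 | h3
      · exact h3.2
      · rw [h3, zero_add]; exact hf2
    have h5 : d ≤ Q θ b 0 := by
      by_contra hc
      push Not at hc
      exact h1 _ (hc.le.trans hd) h4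
    exact Q_le h5 h4
  show Dd θ b d = 0
  unfold Dd psi
  exact tsub_eq_zero_of_le (add_le_add_right q1 1)

lemma int_bdd {f : Path → ℝ} (hf : Measurable f) {C : ℝ} (hC : ∀ b, |f b| ≤ C) : Integrable f W := by
  have hWp := isProb hW
  exact Integrable.of_bound hf.aestronglyMeasurable C (ae_of_all _ hC)

lemma mean_D (d : ℝ≥0) : ∫ b, ((Dd θ b d : ℝ≥0) : ℝ) ∂W = d := by
  have hWp := isProb hW
  have mp : Measurable (fun b : Path => ((psi θ b 0 : ℝ≥0) : ℝ)) :=
    ((Q_meas θ 0).const_add 1).coe_nnreal_real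
  have ip : Integrable (fun b : Path => ((psi θ b 0 : ℝ≥0) : ℝ)) W :=
    int_bdd hW mp (C := 3) fun b => by
      rw [abs_of_nonneg (NNReal.coe_nonneg _)]
      have := psi_le (θ := θ) b 0
      rw [zero_add] at this
      exact_mod_cast this
  have e1 : ∀ b : Path, ((Dd θ b d : ℝ≥0) : ℝ) = d + ((psi θ (shift d b) 0 : ℝ≥0) : ℝ) - ((psi θ b 0 : ℝ≥0) : ℝ) := by
    intro b
    have h1 : ((psi θ b 0 + Dd θ b d : ℝ≥0) : ℝ) = (psi θ b d : ℝ≥0) := by rw [psi_add_Dd]
    have h2 := psi_shift (θ := θ) b d 0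
    rw [add_zero] at h2
    rw [h2] at h1
    push_cast at h1
    linarith
  have ip2 : Integrable (fun b : Path => ((psi θ (shift d b) 0 : ℝ≥0) : ℝ)) W :=
    int_bdd hW (mp.comp (measurable_shift d)) (C := 3) fun b => by
      rw [abs_of_nonneg (NNReal.coe_nonneg _)]
      have := psi_le (θ := θ) (shift d b) 0
      rw [zero_add] at this
      exact_mod_cast this
  have e2 : ∫ b, ((psi θ (shift d b) 0 : ℝ≥0) : ℝ) ∂W = ∫ b, ((psi θ b 0 : ℝ≥0) : ℝ) ∂W := by
    conv_rhs => rw [← map_shift hW d]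
    rw [integral_map (measurable_shift d).aemeasurable mp.aestronglyMeasurable]
  have i3 : Integrable (fun b : Path => (d : ℝ) + ((psi θ (shift d b) 0 : ℝ≥0) : ℝ)) W :=
    (integrable_const _).add ip2
  rw [integral_congr_ae (ae_of_all _ e1), integral_sub i3 ip,
    integral_add (integrable_const _) ip2, e2]
  simp

omit hW in
lemma sqrt_gap {A B : ℝ} (hA : 0 < A) (hB : 0 ≤ B) :
    √B = √A + (B - A) / (2 * √A) - (√B - √A) ^ 2 / (2 * √A) := by
  have hs : 0 < √A := Real.sqrt_pos.2 hA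
  have h1 : √A ^ 2 = A := Real.sq_sqrt hA.le
  have h2 : √B ^ 2 = B := Real.sq_sqrt hB
  field_simp
  nlinarith

lemma sqrt_step (d : ℝ≥0) : ∫ b, √((Dd θ b d : ℝ) + 1) ∂W ≤ √((d : ℝ) + 1) := by
  have hWp := isProb hW
  have mD : Measurable (fun b : Path => ((Dd θ b d : ℝ≥0) : ℝ)) := (Dd_meas θ d).coe_nnreal_real
  have hDle : ∀ b : Path, ((Dd θ b d : ℝ≥0) : ℝ) ≤ d + 2 := fun b => by exact_mod_cast Dd_le b d
  have hD0 : ∀ b : Path, (0 : ℝ) ≤ (Dd θ b d : ℝ≥0) := fun b => NNReal.coe_nonneg _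
  have iD : Integrable (fun b : Path => ((Dd θ b d : ℝ≥0) : ℝ)) W :=
    int_bdd hW mD (C := d + 2) fun b => by rw [abs_of_nonneg (hD0 b)]; exact hDle b
  have hA : (0 : ℝ) < d + 1 := by positivity
  have hs : 0 < √((d : ℝ) + 1) := Real.sqrt_pos.2 hA
  have i1 : Integrable (fun b : Path => √((Dd θ b d : ℝ) + 1)) W :=
    int_bdd hW (mD.add_const 1).sqrt (C := √((d : ℝ) + 3)) fun b => by
      rw [abs_of_nonneg (Real.sqrt_nonneg _)]
      apply Real.sqrt_le_sqrt
      linarith [hDle b]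
  have iL : Integrable (fun b : Path => ((Dd θ b d : ℝ≥0) : ℝ) - d) W := iD.sub (integrable_const _)
  have iL2 : Integrable (fun b : Path => (((Dd θ b d : ℝ≥0) : ℝ) - d) / (2 * √((d : ℝ) + 1))) W :=
    iL.div_const _
  have iL3 : Integrable (fun b : Path => √((d : ℝ) + 1) +
      (((Dd θ b d : ℝ≥0) : ℝ) - d) / (2 * √((d : ℝ) + 1))) W := (integrable_const _).add iL2
  calc ∫ b, √((Dd θ b d : ℝ) + 1) ∂W ≤
        ∫ b, (√((d : ℝ) + 1) + (((Dd θ b d : ℝ≥0) : ℝ) - d) / (2 * √((d : ℝ) + 1))) ∂W := by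
        apply integral_mono i1 iL3
        intro b
        have := sqrt_gap hA (B := (Dd θ b d : ℝ) + 1) (by linarith [hD0 b])
        have h2 : 0 ≤ (√((Dd θ b d : ℝ) + 1) - √((d : ℝ) + 1)) ^ 2 / (2 * √((d : ℝ) + 1)) := by positivity
        have h3 : ((Dd θ b d : ℝ) + 1 - (d + 1)) = ((Dd θ b d : ℝ≥0) : ℝ) - d := by ring
        rw [h3] at this
        simp only
        linarith
    _ = √((d : ℝ) + 1) := by
        rw [integral_add (integrable_const _) iL2,
          integral_div, integral_sub iD (integrable_const _), mean_D hW]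
        simp

lemma sqrt_step' {d : ℝ≥0} (hd : 1 ≤ d) :
    ∫ b, √((Dd θ b d : ℝ) + 1) ∂W ≤
      √((d : ℝ) + 1) - W.real (F0 θ) * W.real (NF θ 2) / (2 * ((d : ℝ) + 3) ^ 2) := by
  have hWp := isProb hW
  have mD : Measurable (fun b : Path => ((Dd θ b d : ℝ≥0) : ℝ)) := (Dd_meas θ d).coe_nnreal_real
  have hDle : ∀ b : Path, ((Dd θ b d : ℝ≥0) : ℝ) ≤ d + 2 := fun b => by exact_mod_cast Dd_le b d
  have hD0 : ∀ b : Path, (0 : ℝ) ≤ (Dd θ b d : ℝ≥0) := fun b => NNReal.coe_nonneg _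
  have iD : Integrable (fun b : Path => ((Dd θ b d : ℝ≥0) : ℝ)) W :=
    int_bdd hW mD (C := d + 2) fun b => by rw [abs_of_nonneg (hD0 b)]; exact hDle b
  have hA : (0 : ℝ) < d + 1 := by positivity
  have hs : 0 < √((d : ℝ) + 1) := Real.sqrt_pos.2 hA
  have i1 : Integrable (fun b : Path => √((Dd θ b d : ℝ) + 1)) W :=
    int_bdd hW (mD.add_const 1).sqrt (C := √((d : ℝ) + 3)) fun b => by
      rw [abs_of_nonneg (Real.sqrt_nonneg _)]
      apply Real.sqrt_le_sqrt
      linarith [hDle b]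
  set E : Set Path := {b | Dd θ b d = d + 2} with hE
  have mE : MeasurableSet E := (Dd_meas θ d) (measurableSet_singleton _)
  set η : ℝ := 1 / (2 * ((d : ℝ) + 3) ^ 2) with hη
  have iE : Integrable (fun b : Path => E.indicator (fun _ => η) b) W :=
    (integrable_const η).indicator mE
  have hgap : η ≤ (√((d : ℝ) + 2 + 1) - √((d : ℝ) + 1)) ^ 2 / (2 * √((d : ℝ) + 1)) := by
    have e3 : (d : ℝ) + 2 + 1 = d + 3 := by ring
    rw [e3]
    set x := √((d : ℝ) + 1) with hx
    set y := √((d : ℝ) + 3) with hy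
    have hx2 : x ^ 2 = d + 1 := Real.sq_sqrt hA.le
    have hy2 : y ^ 2 = d + 3 := Real.sq_sqrt (by linarith)
    have hxy : x ≤ y := Real.sqrt_le_sqrt (by linarith)
    have hy0 : 0 < y := hs.trans_le hxy
    have h4 : 1 / y ≤ y - x := by
      rw [div_le_iff₀ hy0]
      nlinarith
    have h5 : 1 / y ^ 2 ≤ (y - x) ^ 2 := by
      have : (1 / y) ^ 2 ≤ (y - x) ^ 2 := by gcongr
      rwa [div_pow, one_pow] at this
    have hx1 : x ≤ d + 3 := by
      have : x ≤ x ^ 2 := by
        have : (1 : ℝ) ≤ x := by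
          rw [hx, Real.one_le_sqrt]; linarith [d.coe_nonneg]
        nlinarith
      linarith
    rw [hη]
    calc 1 / (2 * ((d : ℝ) + 3) ^ 2) = 1 / y ^ 2 / (2 * (d + 3)) := by rw [hy2]; field_simp
      _ ≤ (y - x) ^ 2 / (2 * (d + 3)) := by gcongr
      _ ≤ (y - x) ^ 2 / (2 * x) := by gcongr
  have iL : Integrable (fun b : Path => ((Dd θ b d : ℝ≥0) : ℝ) - d) W := iD.sub (integrable_const _)
  have iL2 : Integrable (fun b : Path => (((Dd θ b d : ℝ≥0) : ℝ) - d) / (2 * √((d : ℝ) + 1))) W :=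
    iL.div_const _
  have iL3 : Integrable (fun b : Path => √((d : ℝ) + 1) +
      (((Dd θ b d : ℝ≥0) : ℝ) - d) / (2 * √((d : ℝ) + 1))) W := (integrable_const _).add iL2
  have iL4 : Integrable (fun b : Path => √((d : ℝ) + 1) +
      (((Dd θ b d : ℝ≥0) : ℝ) - d) / (2 * √((d : ℝ) + 1)) - E.indicator (fun _ => η) b) W := iL3.sub iE
  calc ∫ b, √((Dd θ b d : ℝ) + 1) ∂W ≤
        ∫ b, (√((d : ℝ) + 1) + (((Dd θ b d : ℝ≥0) : ℝ) - d) / (2 * √((d : ℝ) + 1)) -
          E.indicator (fun _ => η) b) ∂W := by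
        apply integral_mono i1 iL4
        intro b
        have := sqrt_gap hA (B := (Dd θ b d : ℝ) + 1) (by linarith [hD0 b])
        have h3 : ((Dd θ b d : ℝ) + 1 - (d + 1)) = ((Dd θ b d : ℝ≥0) : ℝ) - d := by ring
        rw [h3] at this
        simp only
        by_cases hb : b ∈ E
        · rw [indicator_of_mem hb]
          have hb' : ((Dd θ b d : ℝ≥0) : ℝ) = d + 2 := by
            have : Dd θ b d = d + 2 := hb
            rw [this]; push_cast; ring
          rw [hb'] at this ⊢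
          linarith
        · rw [indicator_of_notMem hb]
          have h2 : 0 ≤ (√((Dd θ b d : ℝ) + 1) - √((d : ℝ) + 1)) ^ 2 / (2 * √((d : ℝ) + 1)) := by
            positivity
          linarith
    _ = √((d : ℝ) + 1) - W.real E * η := by
        rw [integral_sub iL3 iE, integral_add (integrable_const _) iL2,
          integral_div, integral_sub iD (integrable_const _), mean_D hW,
          integral_indicator_const _ mE]
        simp
    _ ≤ _ := by
        have h6 := E3_prob hW (θ := θ) hd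
        have : W.real (F0 θ) * W.real (NF θ 2) / (2 * ((d : ℝ) + 3) ^ 2) =
          W.real (F0 θ) * W.real (NF θ 2) * η := by rw [hη]; ring
        rw [this]
        have hη0 : 0 ≤ η := by rw [hη]; positivity
        have := mul_le_mul_of_nonneg_right h6 hη0
        linarith

end Q297.Bw
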