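import Pool.Agent.Q297.BwB

/-!
Two dual chains meet with probability tending to one.
-/

open MeasureTheory ProbabilityTheory Set Filter Topology
open scoped ENNReal NNReal
open Q297.PathC Q297.Prepend Q297.TwoS Q297.Dec Q297.Spn

namespace Q297.Bw

variable {θ : ℝ} {W : Measure Path} (hW : IsBrownianReal (fun (t : ℝ≥0) (x : Path) => x t) W)

/-- the Lyapunov function -/
noncomputable def ly (x : ℝ≥0) : ℝ := √((x : ℝ) + 1) + (if x = 0 then 0 else 1)

lemma ly_nonneg (x : ℝ≥0) : 0 ≤ ly x := by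
  unfold ly
  have := Real.sqrt_nonneg ((x : ℝ) + 1)
  split_ifs <;> linarith

lemma ly_meas : Measurable ly := by
  unfold ly
  exact (measurable_coe_nnreal_real.add_const 1).sqrt.add
    (Measurable.ite (measurableSet_singleton _) measurable_const measurable_const)

include hW

lemma ly_step {d : ℝ≥0} (hd : d ≠ 0) :
    ∫ b, ly (Dd θ b d) ∂W ≤ ly d - W.real (F0 θ) * W.real (NF θ 2) / (2 * ((d : ℝ) + 3) ^ 2) := by
  have hWp := isProb hW
  have mD : Measurable (fun b : Path => ((Dd θ b d : ℝ≥0) : ℝ)) := (Dd_meas θ d).coe_nnreal_real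
  have hDle : ∀ b : Path, ((Dd θ b d : ℝ≥0) : ℝ) ≤ d + 2 := fun b => by exact_mod_cast Dd_le b d
  have i1 : Integrable (fun b : Path => √((Dd θ b d : ℝ) + 1)) W :=
    int_bdd hW (mD.add_const 1).sqrt (C := √((d : ℝ) + 3)) fun b => by
      rw [abs_of_nonneg (Real.sqrt_nonneg _)]
      apply Real.sqrt_le_sqrt
      linarith [hDle b]
  set E : Set Path := {b | Dd θ b d = 0} with hE
  have mE : MeasurableSet E := (Dd_meas θ d) (measurableSet_singleton _)
  have e0 : ∀ b : Path, (if Dd θ b d = 0 then (0 : ℝ) else 1) = 1 - E.indicator (fun _ => (1 : ℝ)) b := by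
    intro b
    by_cases h : Dd θ b d = 0
    · rw [if_pos h, indicator_of_mem (show b ∈ E from h)]; ring
    · rw [if_neg h, indicator_of_notMem (show b ∉ E from h)]; ring
  have iE : Integrable (fun b : Path => E.indicator (fun _ => (1 : ℝ)) b) W :=
    (integrable_const (1 : ℝ)).indicator mE
  have i2 : Integrable (fun b : Path => (if Dd θ b d = 0 then (0 : ℝ) else 1)) W := by
    refine ((integrable_const (1 : ℝ)).sub iE).congr (ae_of_all _ fun b => ?_)
    exact (e0 b).symm
  have e1 : ∫ b, ly (Dd θ b d) ∂W = ∫ b, √((Dd θ b d : ℝ) + 1) ∂W + (1 - W.real E) := by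
    unfold ly
    rw [integral_add i1 i2]
    congr 1
    rw [integral_congr_ae (ae_of_all _ e0), integral_sub (integrable_const _) iE,
      integral_indicator_const _ mE]
    simp
  have e2 : ly d = √((d : ℝ) + 1) + 1 := by unfold ly; rw [if_neg hd]
  rw [e1, e2]
  have hE0 : 0 ≤ W.real E := measureReal_nonneg
  have hp1 : 0 ≤ W.real (F0 θ) := measureReal_nonneg
  have hp2 : 0 ≤ W.real (NF θ 2) := measureReal_nonneg
  rcases le_total 1 d with h | h
  · have := sqrt_step' hW (θ := θ) h
    linarith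
  · have h1 := sqrt_step hW (θ := θ) d
    have h2 := E2_prob hW (θ := θ) h
    have h3 : W.real (F0 θ) * W.real (NF θ 2) / (2 * ((d : ℝ) + 3) ^ 2) ≤
        W.real (F0 θ) * W.real (NF θ 2) := by
      apply div_le_self (by positivity)
      nlinarith [d.coe_nonneg]
    linarith

omit hW in
lemma vv_zero (g : ℝ≥0) (m : ℕ) : vv θ W g m 0 = 0 := by
  unfold vv
  simp

lemma vv_le_one (g : ℝ≥0) (m : ℕ) (d : ℝ≥0) : vv θ W g m d ≤ 1 := by
  have hWp := isProb hW
  exact prob_le_one

/-- the main estimate -/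
lemma vv_bound {lam : ℝ} (hl : 1 ≤ lam) (g : ℝ≥0) (m : ℕ) : ∀ d : ℝ≥0, d + 2 * m ≤ g →
    m * (vv θ W g m d).toReal * (W.real (F0 θ) * W.real (NF θ 2) / (2 * (lam + 3) ^ 2)) ≤
      m * (d / lam) * (W.real (F0 θ) * W.real (NF θ 2) / (2 * (lam + 3) ^ 2)) + ly d := by
  have hWp := isProb hW
  set c : ℝ := W.real (F0 θ) * W.real (NF θ 2) / (2 * (lam + 3) ^ 2) with hc
  have hc0 : 0 ≤ c := by
    rw [hc]
    have hp1 : 0 ≤ W.real (F0 θ) := measureReal_nonneg
    have hp2 : 0 ≤ W.real (NF θ 2) := measureReal_nonneg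
    positivity
  have hl0 : 0 < lam := by linarith
  induction m with
  | zero => intro d _; simp [ly_nonneg]
  | succ m ih =>
    intro d hd
    push_cast at hd ⊢
    rcases eq_or_ne d 0 with h0 | h0
    · rw [h0, vv_zero]
      simp only [ENNReal.toReal_zero, mul_zero, zero_mul, NNReal.coe_zero, zero_div, zero_add]
      exact ly_nonneg 0
    have hg : d + 2 ≤ g := by
      refine le_trans (add_le_add_right ?_ d) hd
      rw [mul_add, mul_one]; exact le_add_self
    have e1 := vv_succ hW (θ := θ) m hg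
    have mV : Measurable (fun b : Path => (vv θ W g m (Dd θ b d)).toReal) :=
      ((vv_meas g m).comp (Dd_meas θ d)).ennreal_toReal
    have e2 : (vv θ W g (m + 1) d).toReal = ∫ b, (vv θ W g m (Dd θ b d)).toReal ∂W := by
      have h1 : AEMeasurable (fun b : Path => vv θ W g m (Dd θ b d)) W :=
        ((vv_meas g m).comp (Dd_meas θ d)).aemeasurable
      rw [e1, integral_toReal h1
        (ae_of_all _ fun b => (vv_le_one hW g m _).trans_lt ENNReal.one_lt_top)]
    have mD : Measurable (fun b : Path => ((Dd θ b d : ℝ≥0) : ℝ)) := (Dd_meas θ d).coe_nnreal_real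
    have hDle : ∀ b : Path, ((Dd θ b d : ℝ≥0) : ℝ) ≤ d + 2 := fun b => by exact_mod_cast Dd_le b d
    have hD0 : ∀ b : Path, (0 : ℝ) ≤ (Dd θ b d : ℝ≥0) := fun b => NNReal.coe_nonneg _
    have iD : Integrable (fun b : Path => ((Dd θ b d : ℝ≥0) : ℝ)) W :=
      int_bdd hW mD (C := d + 2) fun b => by rw [abs_of_nonneg (hD0 b)]; exact hDle b
    have iV : Integrable (fun b : Path => (vv θ W g m (Dd θ b d)).toReal) W :=
      int_bdd hW mV (C := 1) fun b => by
        rw [abs_of_nonneg ENNReal.toReal_nonneg]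
        exact ENNReal.toReal_mono ENNReal.one_ne_top (vv_le_one hW g m _)
    have iL : Integrable (fun b : Path => ly (Dd θ b d)) W :=
      int_bdd hW (ly_meas.comp (Dd_meas θ d)) (C := √((d : ℝ) + 3) + 1) fun b => by
        rw [abs_of_nonneg (ly_nonneg _)]
        unfold ly
        have h1 : √((Dd θ b d : ℝ) + 1) ≤ √((d : ℝ) + 3) := by
          apply Real.sqrt_le_sqrt; linarith [hDle b]
        split_ifs <;> linarith
    -- integrate the induction hypothesis
    have e3 : m * (vv θ W g (m + 1) d).toReal * c ≤ m * (d / lam) * c + ∫ b, ly (Dd θ b d) ∂W := by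
      have i4 : Integrable (fun b : Path => (m : ℝ) * (vv θ W g m (Dd θ b d)).toReal * c) W :=
        (iV.const_mul _).mul_const _
      have i5 : Integrable (fun b : Path => (m : ℝ) * (((Dd θ b d : ℝ≥0) : ℝ) / lam) * c) W :=
        ((iD.div_const _).const_mul _).mul_const _
      have i6 : Integrable (fun b : Path => (m : ℝ) * (((Dd θ b d : ℝ≥0) : ℝ) / lam) * c +
          ly (Dd θ b d)) W := i5.add iL
      calc (m : ℝ) * (vv θ W g (m + 1) d).toReal * c =
            ∫ b, (m : ℝ) * (vv θ W g m (Dd θ b d)).toReal * c ∂W := by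
            rw [e2, integral_mul_const, integral_const_mul]
        _ ≤ ∫ b, ((m : ℝ) * (((Dd θ b d : ℝ≥0) : ℝ) / lam) * c + ly (Dd θ b d)) ∂W := by
            apply integral_mono i4 i6
            intro b
            refine ih (Dd θ b d) ?_
            refine le_trans (add_le_add_left (Dd_le b d) _) (le_trans (le_of_eq ?_) hd)
            ring
        _ = _ := by
            rw [integral_add i5 iL, integral_mul_const, integral_const_mul, integral_div, mean_D hW]
    have e4 := ly_step hW (θ := θ) h0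
    have e5 : (vv θ W g (m + 1) d).toReal ≤ 1 :=
      ENNReal.toReal_mono ENNReal.one_ne_top (vv_le_one hW g (m + 1) d)
    have e6 : 0 ≤ (vv θ W g (m + 1) d).toReal := ENNReal.toReal_nonneg
    rcases le_total (d : ℝ) lam with h | h
    · have e7 : c ≤ W.real (F0 θ) * W.real (NF θ 2) / (2 * ((d : ℝ) + 3) ^ 2) := by
        rw [hc]
        have hp1 : 0 ≤ W.real (F0 θ) := measureReal_nonneg
        have hp2 : 0 ≤ W.real (NF θ 2) := measureReal_nonneg
        have := d.coe_nonneg
        gcongr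
      have e8 : 0 ≤ (d : ℝ) / lam * c := by positivity
      nlinarith
    · have e7 : 0 ≤ W.real (F0 θ) * W.real (NF θ 2) / (2 * ((d : ℝ) + 3) ^ 2) := by
        have hp1 : 0 ≤ W.real (F0 θ) := measureReal_nonneg
        have hp2 : 0 ≤ W.real (NF θ 2) := measureReal_nonneg
        positivity
      have e8 : 1 ≤ (d : ℝ) / lam := by rw [le_div_iff₀ hl0]; linarith
      nlinarith

/-- **Coalescence.** -/
theorem coalesce (hθ : 1 / 2 ≤ W.real (NF θ 2)) (d : ℝ≥0) {ε : ℝ} (hε : 0 < ε) :
    ∃ m : ℕ, ∀ g : ℝ≥0, d + 2 * m ≤ g → ∀ τ τ' : ℝ≥0, τ' ≤ τ + d →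
      W {b | ch θ g m b τ < ch θ g m b τ'} ≤ ENNReal.ofReal ε := by
  have hWp := isProb hW
  set lam : ℝ := max 1 (2 * d / ε) with hlam
  have hl : 1 ≤ lam := le_max_left _ _
  have hl0 : 0 < lam := by linarith
  set c : ℝ := W.real (F0 θ) * W.real (NF θ 2) / (2 * (lam + 3) ^ 2) with hc
  have hc0 : 0 < c := by
    have h1 := F0_pos hW θ
    have h2 : 0 < W.real (NF θ 2) := by linarith
    rw [hc]; positivity
  obtain ⟨m, hm⟩ := exists_nat_gt (2 * ly d / (c * ε))
  have hm0 : (0 : ℝ) < m := lt_of_le_of_lt (by have := ly_nonneg d; positivity) hm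
  refine ⟨m, fun g hg τ τ' hττ => ?_⟩
  have h1 := vv_bound hW (θ := θ) hl g m d hg
  rw [← hc] at h1
  have h2 : (d : ℝ) / lam ≤ ε / 2 := by
    rw [div_le_iff₀ hl0]
    have : 2 * d / ε ≤ lam := le_max_right _ _
    rw [div_le_iff₀ hε] at this
    linarith
  have h3 : (vv θ W g m d).toReal ≤ ε := by
    rw [div_lt_iff₀ (by positivity)] at hm
    have h6 : m * (d / lam) * c ≤ m * (ε / 2) * c := by gcongr
    have h4 : m * ((vv θ W g m d).toReal * c) ≤ m * (ε * c) := by linarith
    have h5 := le_of_mul_le_mul_left h4 hm0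
    exact le_of_mul_le_mul_right h5 hc0
  have h4 : vv θ W g m d ≤ ENNReal.ofReal ε := by
    rw [← ENNReal.ofReal_toReal ((vv_le_one hW g m d).trans_lt ENNReal.one_lt_top).ne]
    exact ENNReal.ofReal_le_ofReal h3
  refine le_trans (measure_mono ?_) ((vv_shift hW (θ := θ) g m τ d).le.trans h4)
  intro b hb
  exact (lt_of_lt_of_le hb (ch_mono g m b hττ)).ne

end Q297.Bw
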