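import Pool.Agent.Q297.DecJ

/-!
The two-sided continuous path built from a two-sided sequence of paths and of lengths in `[1, 3]`.
-/

open MeasureTheory ProbabilityTheory Set Filter Topology
open scoped ENNReal NNReal
open Q297.PathC Q297.Prepend Q297.TwoS Q297.Dec

namespace Q297.Bw

section Build

variable (T : ℤ → Path → ℝ≥0)

/-- the end points of the pieces -/
noncomputable def SS (k : ℤ) (ω : ℤ → Path) : ℝ :=
  ∑ i ∈ Finset.Ico 0 k, (T i (ω i) : ℝ) - ∑ i ∈ Finset.Ico k 0, (T i (ω i) : ℝ)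

lemma SS_zero (ω : ℤ → Path) : SS T 0 ω = 0 := by simp [SS]

lemma SS_succ (k : ℤ) (ω : ℤ → Path) : SS T (k + 1) ω = SS T k ω + T k (ω k) := by
  unfold SS
  rcases le_or_gt 0 k with h | h
  · have e1 : Finset.Ico 0 (k + 1) = insert k (Finset.Ico 0 k) := by
      ext i; simp only [Finset.mem_Ico, Finset.mem_insert]; omega
    have e2 : Finset.Ico (k + 1) 0 = ∅ := by
      ext i; simp only [Finset.mem_Ico, Finset.notMem_empty, iff_false]; omega
    have e3 : Finset.Ico k 0 = ∅ := by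
      ext i; simp only [Finset.mem_Ico, Finset.notMem_empty, iff_false]; omega
    rw [e1, e2, e3, Finset.sum_insert (by simp)]
    simp only [Finset.sum_empty]
    ring
  · have e1 : Finset.Ico k 0 = insert k (Finset.Ico (k + 1) 0) := by
      ext i; simp only [Finset.mem_Ico, Finset.mem_insert]; omega
    have e2 : Finset.Ico 0 (k + 1) = ∅ := by
      ext i; simp only [Finset.mem_Ico, Finset.notMem_empty, iff_false]; omega
    have e3 : Finset.Ico 0 k = ∅ := by
      ext i; simp only [Finset.mem_Ico, Finset.notMem_empty, iff_false]; omega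
    rw [e1, e2, e3, Finset.sum_insert (by simp)]
    simp only [Finset.sum_empty]
    ring

variable {T} (hT : ∀ k b, 1 ≤ T k b)

include hT

lemma SS_mono_succ (k : ℤ) (ω : ℤ → Path) : SS T k ω + 1 ≤ SS T (k + 1) ω := by
  rw [SS_succ]
  have : (1 : ℝ) ≤ T k (ω k) := by exact_mod_cast hT k (ω k)
  linarith

lemma SS_add_nat (k : ℤ) (n : ℕ) (ω : ℤ → Path) : SS T k ω + n ≤ SS T (k + n) ω := by
  induction n with
  | zero => simp
  | succ n ih =>
    have h := SS_mono_succ hT (k + n) ω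
    have e : k + ((n + 1 : ℕ) : ℤ) = k + n + 1 := by push_cast; ring
    rw [e]
    push_cast
    linarith

lemma SS_le {k l : ℤ} (h : k ≤ l) (ω : ℤ → Path) : SS T k ω + (l - k : ℤ) ≤ SS T l ω := by
  obtain ⟨n, rfl⟩ := Int.le.dest h
  have := SS_add_nat hT k n ω
  have e : ((k + (n : ℤ) - k : ℤ) : ℝ) = n := by push_cast; ring
  rw [e]
  exact this

lemma SS_ge {k : ℤ} (h : 0 ≤ k) (ω : ℤ → Path) : (k : ℝ) ≤ SS T k ω := by
  have := SS_le hT h ω
  rw [SS_zero] at this
  push_cast at this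
  linarith

lemma SS_le_neg {k : ℤ} (h : k ≤ 0) (ω : ℤ → Path) : SS T k ω ≤ k := by
  have := SS_le hT h ω
  rw [SS_zero] at this
  push_cast at this
  linarith

lemma SS_mono (ω : ℤ → Path) {k l : ℤ} (h : k ≤ l) : SS T k ω ≤ SS T l ω := by
  have h1 := SS_le hT h ω
  have h2 : (0 : ℝ) ≤ ((l - k : ℤ) : ℝ) := by exact_mod_cast (by omega : (0 : ℤ) ≤ l - k)
  linarith

lemma SS_top (ω : ℤ → Path) : Tendsto (fun k => SS T k ω) atTop atTop := by
  refine tendsto_atTop_mono' _ ?_ (tendsto_intCast_atTop_atTop (R := ℝ))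
  filter_upwards [eventually_ge_atTop 0] with k hk
  exact SS_ge hT hk ω

lemma SS_bot (ω : ℤ → Path) : Tendsto (fun k => SS T k ω) atBot atBot := by
  have h0 : Tendsto (fun k : ℤ => (k : ℝ)) atBot atBot := by
    rw [tendsto_atBot]
    intro b
    filter_upwards [eventually_le_atBot ⌊b⌋] with k hk
    exact (by exact_mod_cast hk : (k : ℝ) ≤ ⌊b⌋).trans (Int.floor_le b)
  refine tendsto_atBot_mono' _ ?_ h0
  filter_upwards [eventually_le_atBot 0] with k hk
  exact SS_le_neg hT hk ω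

omit hT

variable (T)

/-- contribution of the piece `k` up to time `t` -/
noncomputable def ze (k : ℤ) (ω : ℤ → Path) (t : ℝ) : ℝ :=
  ω k (min (t - SS T k ω).toNNReal (T k (ω k))) - ω k 0

/-- the whole contribution of the piece `k` -/
noncomputable def zi (k : ℤ) (ω : ℤ → Path) : ℝ := ω k (T k (ω k)) - ω k 0

/-- the path built from the pieces with `-N ≤ k < N` -/
noncomputable def Yn (N : ℕ) (ω : ℤ → Path) (t : ℝ) : ℝ :=
  ∑ j ∈ Finset.Ico (-(N : ℤ)) N, ze T j ω t - ∑ j ∈ Finset.Ico (-(N : ℤ)) 0, zi T j ω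

variable {T}

lemma ze_hi {k : ℤ} {ω : ℤ → Path} {t : ℝ} (h : t ≤ SS T k ω) : ze T k ω t = 0 := by
  unfold ze
  rw [Real.toNNReal_of_nonpos (by linarith), min_eq_left zero_le, sub_self]

lemma ze_lo {k : ℤ} {ω : ℤ → Path} {t : ℝ} (h : SS T (k + 1) ω ≤ t) : ze T k ω t = zi T k ω := by
  unfold ze zi
  rw [min_eq_right]
  rw [SS_succ] at h
  rw [← NNReal.coe_le_coe, Real.coe_toNNReal _ (by linarith [(T k (ω k)).coe_nonneg])]
  linarith

include hT

lemma Yn_succ {N : ℕ} {ω : ℤ → Path} {t : ℝ} (ht : |t| ≤ N) : Yn T (N + 1) ω t = Yn T N ω t := by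
  have ht' := abs_le.1 ht
  have e1 : Finset.Ico (-((N + 1 : ℕ) : ℤ)) ((N + 1 : ℕ) : ℤ) =
      insert (-((N : ℤ) + 1)) (insert (N : ℤ) (Finset.Ico (-(N : ℤ)) N)) := by
    ext i; simp only [Finset.mem_Ico, Finset.mem_insert]; push_cast; omega
  have e2 : Finset.Ico (-((N + 1 : ℕ) : ℤ)) 0 = insert (-((N : ℤ) + 1)) (Finset.Ico (-(N : ℤ)) 0) := by
    ext i; simp only [Finset.mem_Ico, Finset.mem_insert]; push_cast; omega
  unfold Yn
  rw [e1, e2, Finset.sum_insert (by simp only [Finset.mem_insert, Finset.mem_Ico]; omega),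
    Finset.sum_insert (by simp), Finset.sum_insert (by simp)]
  have h1 : ze T (N : ℤ) ω t = 0 := by
    apply ze_hi
    have := SS_ge hT (k := (N : ℤ)) (by omega) ω
    push_cast at this
    linarith
  have h2 : ze T (-((N : ℤ) + 1)) ω t = zi T (-((N : ℤ) + 1)) ω := by
    apply ze_lo
    have := SS_le_neg hT (k := -((N : ℤ) + 1) + 1) (by omega) ω
    push_cast at this
    linarith
  rw [h1, h2]
  ring

lemma Yn_eq {N N' : ℕ} (h : N ≤ N') {ω : ℤ → Path} {t : ℝ} (ht : |t| ≤ N) :
    Yn T N' ω t = Yn T N ω t := by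
  induction N', h using Nat.le_induction with
  | base => rfl
  | succ n hn ih =>
    rw [Yn_succ hT, ih]
    have : (N : ℝ) ≤ n := by exact_mod_cast hn
    linarith

omit hT in
lemma Yn_cont (N : ℕ) (ω : ℤ → Path) : Continuous (Yn T N ω) := by
  unfold Yn ze
  fun_prop

omit hT

variable (T)

/-- the path -/
noncomputable def YY (ω : ℤ → Path) (t : ℝ) : ℝ := Yn T ⌈|t|⌉₊ ω t

variable {T}

include hT

lemma YY_eq {N : ℕ} {ω : ℤ → Path} {t : ℝ} (ht : |t| ≤ N) : YY T ω t = Yn T N ω t := by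
  unfold YY
  exact (Yn_eq hT (Nat.ceil_le.2 ht) (Nat.le_ceil _)).symm

lemma YY_cont (ω : ℤ → Path) : Continuous (YY T ω) := by
  rw [continuous_iff_continuousAt]
  intro (t : ℝ)
  obtain ⟨N, hN⟩ := exists_nat_gt |t|
  have h1 : YY T ω =ᶠ[𝓝 t] Yn T N ω := by
    have h2 : ∀ᶠ s : ℝ in 𝓝 t, |s| < (N : ℝ) := continuous_abs.continuousAt.eventually (gt_mem_nhds hN)
    filter_upwards [h2] with s hs
    exact YY_eq hT hs.le
  exact (Yn_cont N ω).continuousAt.congr h1.symm

/-- increments over a piece -/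
lemma YY_inc (k : ℤ) (ω : ℤ → Path) {r : ℝ≥0} (hr : r ≤ T k (ω k)) :
    YY T ω (SS T k ω + r) - YY T ω (SS T k ω) = ω k r - ω k 0 := by
  obtain ⟨N, hN⟩ := exists_nat_gt (max |SS T k ω + r| (max |SS T k ω| |(k : ℝ)|))
  have h1 : |SS T k ω + r| ≤ N := (le_max_left _ _).trans hN.le
  have h2 : |SS T k ω| ≤ N := ((le_max_left _ _).trans (le_max_right _ _)).trans hN.le
  have h3 : |(k : ℝ)| < N := ((le_max_right _ _).trans (le_max_right _ _)).trans_lt hN
  have h3' := abs_lt.1 h3
  rw [YY_eq hT h1, YY_eq hT h2]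
  unfold Yn
  rw [sub_sub_sub_cancel_right, ← Finset.sum_sub_distrib]
  have hk : k ∈ Finset.Ico (-(N : ℤ)) N := by
    rw [Finset.mem_Ico]
    constructor
    · have : (-(N : ℤ) : ℝ) ≤ k := by push_cast; linarith
      exact_mod_cast this
    · have : (k : ℝ) < ((N : ℤ) : ℝ) := by push_cast; linarith
      exact_mod_cast this
  have hr0 := r.coe_nonneg
  have hr' : (r : ℝ) ≤ T k (ω k) := by exact_mod_cast hr
  rw [Finset.sum_eq_single_of_mem k hk]
  · unfold ze
    rw [add_sub_cancel_left, sub_self, Real.toNNReal_zero, Real.toNNReal_coe, min_eq_left hr,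
      min_eq_left zero_le]
    ring
  · intro j _ hjk
    rcases lt_or_gt_of_ne hjk with h | h
    · have h4 : SS T (j + 1) ω ≤ SS T k ω := SS_mono hT ω (by omega)
      rw [ze_lo h4, ze_lo (by linarith)]
      ring
    · have h4 : SS T (k + 1) ω ≤ SS T j ω := SS_mono hT ω (by omega)
      have h5 := SS_succ T k ω
      rw [ze_hi (by linarith), ze_hi (by linarith)]
      ring

lemma YY_zero (ω : ℤ → Path) : YY T ω 0 = 0 := by
  have h : |(0 : ℝ)| ≤ (0 : ℕ) := by simp
  rw [YY_eq hT h]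
  simp [Yn]

omit hT

variable (mT : ∀ k, Measurable (T k))

include mT

lemma SS_meas (k : ℤ) : Measurable (SS T k) := by
  have h : ∀ i, Measurable (fun ω : ℤ → Path => (T i (ω i) : ℝ)) := fun i =>
    ((mT i).comp (measurable_pi_apply i)).coe_nnreal_real
  unfold SS
  exact (Finset.measurable_sum _ fun i _ => h i).sub (Finset.measurable_sum _ fun i _ => h i)

lemma Yn_meas (N : ℕ) (t : ℝ) : Measurable (fun ω => Yn T N ω t) := by
  unfold Yn
  refine (Finset.measurable_sum _ fun j _ => ?_).sub (Finset.measurable_sum _ fun j _ => ?_)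
  · unfold ze
    have h1 : Measurable (fun ω : ℤ → Path => (min (t - SS T j ω).toNNReal (T j (ω j)), ω j)) :=
      (((measurable_const.sub (SS_meas mT j)).real_toNNReal).min
        ((mT j).comp (measurable_pi_apply j))).prodMk (measurable_pi_apply j)
    exact (ev_meas1.comp h1).sub ((measurable_eval 0).comp (measurable_pi_apply j))
  · unfold zi
    have h1 : Measurable (fun ω : ℤ → Path => (T j (ω j), ω j)) :=
      ((mT j).comp (measurable_pi_apply j)).prodMk (measurable_pi_apply j)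
    exact (ev_meas1.comp h1).sub ((measurable_eval 0).comp (measurable_pi_apply j))

lemma YY_meas (t : ℝ) : Measurable (fun ω => YY T ω t) := Yn_meas mT _ t

end Build

end Q297.Bw
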