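import Pool.Agent.Q297.BwC
import Pool.Agent.Q297.BwD

/-!
The complete right-continuous filtration of a Brownian path.
-/

open MeasureTheory ProbabilityTheory Set Filter Topology
open scoped ENNReal NNReal
open Q297.PathC Q297.Prepend Q297.TwoS Q297.Dec

namespace Q297.Bw

section Filt

variable {Ω : Type*} {mΩ : MeasurableSpace Ω}

/-- the events determined up to time `s`, modulo null sets -/
@[reducible] def GG (b : Ω → Path) (P : Measure Ω) (s : ℝ≥0) : MeasurableSpace Ω :=
  eventuallyMeasurableSpace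
    (MeasurableSpace.comap (fun ω => stop s (b ω)) (instMS : MeasurableSpace Path)) (ae P) ⊓ mΩ

lemma GG_iff (b : Ω → Path) (P : Measure Ω) (s : ℝ≥0) (A : Set Ω) : MeasurableSet[GG b P s] A ↔
    (∃ C : Set Path, MeasurableSet C ∧ A =ᵐ[P] (fun ω => stop s (b ω)) ⁻¹' C) ∧ MeasurableSet A := by
  refine MeasurableSpace.measurableSet_inf.trans (and_congr ?_ Iff.rfl)
  constructor
  · rintro ⟨D, ⟨C, hC, rfl⟩, h⟩
    exact ⟨C, hC, h⟩
  · rintro ⟨C, hC, h⟩
    exact ⟨_, ⟨C, hC, rfl⟩, h⟩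

/-- the filtration -/
def FF (b : Ω → Path) (P : Measure Ω) : Filtration ℝ≥0 mΩ where
  seq t := ⨅ s > t, GG b P s
  mono' _ _ h := le_iInf₂ fun s hs => iInf₂_le s (lt_of_le_of_lt h hs)
  le' t := (iInf₂_le (t + 1) (lt_add_of_pos_right t one_pos)).trans inf_le_right

lemma FF_eq (b : Ω → Path) (P : Measure Ω) (t : ℝ≥0) : FF b P t = ⨅ s > t, GG b P s := rfl

lemma FF_iff (b : Ω → Path) (P : Measure Ω) (t : ℝ≥0) (A : Set Ω) :
    MeasurableSet[FF b P t] A ↔ ∀ s > t, MeasurableSet[GG b P s] A := by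
  rw [FF_eq]
  simp only [MeasurableSpace.measurableSet_iInf]

lemma FF_right (b : Ω → Path) (P : Measure Ω) (t : ℝ≥0) : FF b P t = ⨅ s > t, FF b P s := by
  apply le_antisymm
  · exact le_iInf₂ fun s hs => (FF b P).mono (le_of_lt hs)
  · rw [FF_eq]
    refine le_iInf₂ fun u hu => ?_
    obtain ⟨s, h1, h2⟩ := exists_between hu
    refine (iInf₂_le s h1).trans ?_
    rw [FF_eq]
    exact iInf₂_le u h2

lemma FF_null (b : Ω → Path) (P : Measure Ω) [P.IsComplete] (t : ℝ≥0) {A : Set Ω} (hA : P A = 0) :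
    MeasurableSet[FF b P t] A := by
  rw [FF_iff]
  intro s _
  rw [GG_iff]
  refine ⟨⟨∅, MeasurableSet.empty, ?_⟩, Measure.IsComplete.out' A hA⟩
  rw [preimage_empty]
  exact ae_eq_empty.2 hA

variable {W : Measure Path} (hW : IsBrownianReal (fun (t : ℝ≥0) (x : Path) => x t) W)
  {P : Measure Ω} {b : Ω → Path} (hb : Measurable b) (hlaw : P.map b = W)

include hW hb hlaw

lemma GG_shift {u : ℝ≥0} {A : Set Ω} (hA : MeasurableSet[GG b P u] A) {E : Set Path}
    (hE : MeasurableSet E) : P (A ∩ (fun ω => shift u (b ω)) ⁻¹' E) = P A * W E := by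
  have hWp := isProb hW
  rw [GG_iff] at hA
  obtain ⟨⟨C, hC, hAC⟩, -⟩ := hA
  have h1 : P (A ∩ (fun ω => shift u (b ω)) ⁻¹' E) =
      P ((fun ω => stop u (b ω)) ⁻¹' C ∩ (fun ω => shift u (b ω)) ⁻¹' E) :=
    measure_congr (hAC.inter (ae_eq_refl _))
  have h2 : ∀ E : Set Path, MeasurableSet E →
      P ((fun ω => stop u (b ω)) ⁻¹' C ∩ (fun ω => shift u (b ω)) ⁻¹' E) =
      (W.map (stop u)) C * W E := by
    intro E hE
    have e : (fun ω => stop u (b ω)) ⁻¹' C ∩ (fun ω => shift u (b ω)) ⁻¹' E =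
        b ⁻¹' ((fun f => (stop u f, shift u f)) ⁻¹' (C ×ˢ E)) := by
      ext ω; rfl
    have m1 : Measurable (fun f : Path => (stop u f, shift u f)) :=
      (stop_meas1 u).prodMk (measurable_shift u)
    rw [e, ← Measure.map_apply hb (m1 (hC.prod hE)), hlaw, ← Measure.map_apply m1 (hC.prod hE),
      stop_shift hW, Measure.prod_prod]
  have h3 : P A = (W.map (stop u)) C := by
    rw [measure_congr hAC]
    have := h2 univ MeasurableSet.univ
    rwa [preimage_univ, inter_univ, measure_univ, mul_one] at this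
  rw [h1, h2 E hE, h3]

lemma FF_shift [IsProbabilityMeasure P] {s : ℝ≥0} {A : Set Ω} (hA : MeasurableSet[FF b P s] A)
    {E : Set Path} (hE : MeasurableSet E) :
    P (A ∩ (fun ω => shift s (b ω)) ⁻¹' E) = P A * W E := by
  have hWp := isProb hW
  have hAm : MeasurableSet A := (FF b P).le s A hA
  by_cases hpos : P A = 0
  · rw [hpos, zero_mul]
    exact measure_mono_null inter_subset_left hpos
  have hcp : IsProbabilityMeasure (P[|A]) := cond_isProbabilityMeasure hpos
  have hu : ∀ n : ℕ, s < s + 1 / ((n : ℝ≥0) + 1) := fun n => lt_add_of_pos_right s (by positivity)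
  have ms : ∀ u, Measurable (fun ω => shift u (b ω)) := fun u => (measurable_shift u).comp hb
  have h1 : ∀ n : ℕ, (P[|A]).map (fun ω => shift (s + 1 / ((n : ℝ≥0) + 1)) (b ω)) = W := by
    intro n
    ext E hE
    rw [Measure.map_apply (ms _) hE, cond_apply hAm,
      GG_shift hW hb hlaw ((FF_iff b P s A).1 hA _ (hu n)) hE, ← mul_assoc,
      ENNReal.inv_mul_cancel hpos (measure_ne_top _ _), one_mul]
  have h2 : (P[|A]).map (fun ω => shift s (b ω)) = W := by
    refine law_limit (Z := fun n ω => shift (s + 1 / ((n : ℝ≥0) + 1)) (b ω))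
      (fun n => (measurable_shift _).comp hb) ((measurable_shift _).comp hb) ?_ h1
    intro t
    refine ae_of_all _ fun ω => ?_
    have h3 : Tendsto (fun n : ℕ => s + 1 / ((n : ℝ≥0) + 1)) atTop (𝓝 (s + 0)) := by
      refine Tendsto.const_add s ?_
      exact tendsto_one_div_add_atTop_nhds_zero_nat
    rw [add_zero] at h3
    have h4 : Continuous (fun u : ℝ≥0 => shift u (b ω) t) := by
      simp only [shift_apply]
      fun_prop
    exact (h4.tendsto s).comp h3
  have h3 : (P[|A]) ((fun ω => shift s (b ω)) ⁻¹' E) = W E := by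
    rw [← Measure.map_apply (ms s) hE, h2]
  rw [cond_apply hAm] at h3
  rw [← h3, ← mul_assoc, ENNReal.mul_inv_cancel hpos (measure_ne_top _ _), one_mul]

/-- a Brownian path is a Brownian motion for its complete right-continuous filtration -/
theorem FF_bm [IsProbabilityMeasure P] : IsBMFor (FF b P) (fun t ω => b ω t) P := by
  refine ⟨bm_of_law' hW hb hlaw, fun t => ?_, fun s t hst => ?_⟩
  · intro D hD
    rw [FF_iff]
    intro s hs
    rw [GG_iff]
    refine ⟨⟨(fun f : Path => f t) ⁻¹' D, measurable_eval t hD, ?_⟩,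
      ((measurable_eval t).comp hb) hD⟩
    refine ae_of_all _ fun ω => ?_
    show (b ω t ∈ D) = (stop s (b ω) t ∈ D)
    rw [stop_apply, min_eq_left (le_of_lt hs)]
  · rw [Indep_iff]
    rintro _ A ⟨D, hD, rfl⟩ hA
    have e : (fun ω => b ω t - b ω s) ⁻¹' D =
        (fun ω => shift s (b ω)) ⁻¹' ((fun f : Path => f (t - s)) ⁻¹' D) := by
      ext ω
      simp only [mem_preimage, shift_apply]
      rw [add_tsub_cancel_of_le hst]
    have hm := (measurable_eval (X := ℝ≥0) (t - s)) hD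
    have h1 := FF_shift hW hb hlaw hA hm
    have h2 := FF_shift hW hb hlaw (s := s) (A := univ)
      (@MeasurableSet.univ _ (FF b P s)) hm
    rw [univ_inter, measure_univ, one_mul] at h2
    rw [e, inter_comm, h1, h2, mul_comm]

omit hW hlaw in
lemma FF_stopping {T : Path → ℝ≥0} (hT : Measurable T) (h : ∀ x t, T x ≤ t ↔ T (stop t x) ≤ t) :
    IsStoppingTime (FF b P) (fun ω => (T (b ω) : WithTop ℝ≥0)) := by
  intro t
  have e : {ω | (T (b ω) : WithTop ℝ≥0) ≤ t} = {ω | T (b ω) ≤ t} := by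
    ext ω; simp only [mem_ofPred_eq, WithTop.coe_le_coe]
  rw [e, FF_iff]
  intro s hs
  rw [GG_iff]
  refine ⟨⟨{x | T (stop t x) ≤ t}, (hT.comp (stop_meas1 t)) measurableSet_Iic, ?_⟩,
    (hT.comp hb) measurableSet_Iic⟩
  refine ae_of_all _ fun ω => ?_
  show (T (b ω) ≤ t) = (T (stop t (stop s (b ω))) ≤ t)
  have e2 : stop t (stop s (b ω)) = stop t (b ω) := by
    ext r
    rw [stop_apply, stop_apply, stop_apply, min_eq_left ((min_le_right r t).trans (le_of_lt hs))]
  rw [e2]
  exact propext (h _ _)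

end Filt

section Rule

/-- the rule `T = min (first r ≥ 1 with b_r - b_{r-1} ≥ θ, 3)` -/
noncomputable def TR (θ : ℝ) (b : Path) : ℝ≥0 := 1 + Q θ (-b) 0

lemma TR_meas (θ : ℝ) : Measurable (TR θ) := by
  have : Measurable (fun b : Path => -b) := measurable_of_eval fun t => (measurable_eval t).neg
  exact ((Q_meas θ 0).comp this).const_add 1

lemma TR_ge (θ : ℝ) (b : Path) : 1 ≤ TR θ b := le_self_add

lemma TR_le (θ : ℝ) (b : Path) : TR θ b ≤ 3 := by
  unfold TR
  refine (add_le_add_right (Q_le2 _ 0) 1).trans (le_of_eq ?_)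
  rw [zero_add]; norm_num

lemma TR_aux {θ : ℝ} {x x' : Path} {t : ℝ≥0} (hx : ∀ r ≤ t, x r = x' r) (h : TR θ x ≤ t) :
    TR θ x' ≤ t := by
  unfold TR at h ⊢
  rcases Q_mem (θ := θ) (-x) 0 with h1 | h1
  · have h2 : Q θ (-x) 0 + 1 ≤ t := by rwa [add_comm]
    refine (add_le_add_right (Q_le (zero_le) ?_) 1).trans h
    have h3 := h1.2
    unfold Fe at h3 ⊢
    simp only [ContinuousMap.neg_apply] at h3 ⊢
    rw [← hx _ (le_self_add.trans h2), ← hx _ h2]
    exact h3
  · rw [h1] at h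
    exact (add_le_add_right (Q_le2 _ 0) 1).trans h

lemma TR_stop (θ : ℝ) (x : Path) (t : ℝ≥0) : TR θ x ≤ t ↔ TR θ (stop t x) ≤ t := by
  constructor
  · exact TR_aux fun r hr => by rw [stop_apply, min_eq_left hr]
  · exact TR_aux fun r hr => by rw [stop_apply, min_eq_left hr]

end Rule

end Q297.Bw
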