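import Pool.Agent.Q297.BwE

/-!
The dual chains of the reversed path do not cross the end points of the pieces.
-/

open MeasureTheory ProbabilityTheory Set Filter Topology
open scoped ENNReal NNReal
open Q297.PathC Q297.Prepend Q297.TwoS Q297.Dec

namespace Q297.Bw

section Idx

variable (G : ℕ → ℕ)

/-- the number of pieces in the groups before the group `j` -/
def NN : ℕ → ℕ
  | 0 => 0
  | j + 1 => NN j + 1 + G j

lemma NN_lt (j : ℕ) : NN G j < NN G (j + 1) := by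
  show NN G j < NN G j + 1 + G j
  omega

lemma NN_mono : StrictMono (NN G) := strictMono_nat_of_lt_succ (NN_lt G)

/-- the special pieces -/
def Sp (k : ℤ) : Prop := ∃ j, k = -1 - (NN G j : ℤ)

open Classical in
/-- the rules -/
noncomputable def TT (θ : ℝ) (k : ℤ) (b : Path) : ℝ≥0 := if Sp G k then TR θ b else 1

variable {G} {θ : ℝ}

lemma TT_ge (k : ℤ) (b : Path) : 1 ≤ TT G θ k b := by
  unfold TT; split_ifs
  · exact TR_ge θ b
  · exact le_rfl

lemma TT_le (k : ℤ) (b : Path) : TT G θ k b ≤ 3 := by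
  unfold TT; split_ifs
  · exact TR_le θ b
  · norm_num

lemma TT_meas (k : ℤ) : Measurable (TT G θ k) := by
  by_cases h : Sp G k
  · have : TT G θ k = TR θ := by funext b; simp [TT, h]
    rw [this]; exact TR_meas θ
  · have : TT G θ k = fun _ => 1 := by funext b; simp [TT, h]
    rw [this]; exact measurable_const

lemma TT_stop (k : ℤ) (x : Path) (t : ℝ≥0) : TT G θ k x ≤ t ↔ TT G θ k (stop t x) ≤ t := by
  unfold TT; split_ifs
  · exact TR_stop θ x t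
  · exact Iff.rfl

lemma TT_sp (j : ℕ) (b : Path) : TT G θ (-1 - (NN G j : ℤ)) b = TR θ b := by
  unfold TT; rw [if_pos ⟨j, rfl⟩]

lemma TT_unit {j l : ℕ} (h : l < G j) (b : Path) :
    TT G θ (-1 - ((NN G j + 1 + l : ℕ) : ℤ)) b = 1 := by
  unfold TT
  rw [if_neg]
  rintro ⟨j', hj'⟩
  have h1 : NN G j' = NN G j + 1 + l := by omega
  have h2 : NN G j < NN G j' := by omega
  have h3 : NN G j' < NN G (j + 1) := by
    show _ < NN G j + 1 + G j
    omega
  have h4 := (NN_mono G).lt_iff_lt.1 h2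
  have h5 := (NN_mono G).lt_iff_lt.1 h3
  omega

/-- the end points of the pieces, in backward time -/
noncomputable def sn (T : ℤ → Path → ℝ≥0) (ω : ℤ → Path) : ℕ → ℝ≥0
  | 0 => 0
  | n + 1 => sn T ω n + T (-1 - (n : ℤ)) (ω (-1 - (n : ℤ)))

lemma sn_succ (T : ℤ → Path → ℝ≥0) (ω : ℤ → Path) (n : ℕ) :
    sn T ω (n + 1) = sn T ω n + T (-1 - (n : ℤ)) (ω (-1 - (n : ℤ))) := rfl

lemma SS_neg (T : ℤ → Path → ℝ≥0) (ω : ℤ → Path) (n : ℕ) :
    SS T (-(n : ℤ)) ω = -(sn T ω n : ℝ) := by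
  induction n with
  | zero =>
    have h : (-((0 : ℕ) : ℤ)) = 0 := by simp
    rw [h, SS_zero]
    simp [sn]
  | succ n ih =>
    have h := SS_succ T (-1 - (n : ℤ)) ω
    have e1 : (-1 - (n : ℤ)) + 1 = -(n : ℤ) := by ring
    have e2 : -((n + 1 : ℕ) : ℤ) = -1 - (n : ℤ) := by push_cast; ring
    rw [e1, ih] at h
    rw [e2, sn_succ, NNReal.coe_add]
    linarith

variable (G θ) in
/-- the two-sided path -/
noncomputable def yy (ω : ℤ → Path) : Path2 := ⟨YY (TT G θ) ω, YY_cont TT_ge ω⟩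

lemma yy_apply (ω : ℤ → Path) (t : ℝ) : yy G θ ω t = YY (TT G θ) ω t := rfl

lemma bwd_eq (ω : ℤ → Path) (n : ℕ) {r u : ℝ≥0}
    (hr : r ≤ TT G θ (-1 - (n : ℤ)) (ω (-1 - (n : ℤ)))) (hu : u + r = sn (TT G θ) ω (n + 1)) :
    bwd (yy G θ ω) u = ω (-1 - (n : ℤ)) r - ω (-1 - (n : ℤ)) 0 +
      YY (TT G θ) ω (SS (TT G θ) (-1 - (n : ℤ)) ω) - YY (TT G θ) ω 0 := by
  have h1 := YY_inc (T := TT G θ) TT_ge (-1 - (n : ℤ)) ω hr
  have h2 := SS_neg (TT G θ) ω (n + 1)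
  have e2 : -((n + 1 : ℕ) : ℤ) = -1 - (n : ℤ) := by push_cast; ring
  rw [e2, ← hu, NNReal.coe_add] at h2
  have h3 : SS (TT G θ) (-1 - (n : ℤ)) ω + r = -(u : ℝ) := by rw [h2]; ring
  rw [h3] at h1
  show yy G θ ω (-(u : ℝ)) - yy G θ ω 0 = _
  rw [yy_apply, yy_apply]
  linarith

lemma fe_iff (ω : ℤ → Path) (n : ℕ) {t r : ℝ≥0} (h : t + 1 + r = sn (TT G θ) ω (n + 1))
    (ht : sn (TT G θ) ω n ≤ t) :
    Fe θ (bwd (yy G θ ω)) t ↔ Fe θ (-(ω (-1 - (n : ℤ)))) r := by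
  have h1 : r + 1 ≤ TT G θ (-1 - (n : ℤ)) (ω (-1 - (n : ℤ))) := by
    rw [sn_succ] at h
    have h2 : sn (TT G θ) ω n + (r + 1) ≤ sn (TT G θ) ω n + TT G θ (-1 - (n : ℤ)) (ω (-1 - (n : ℤ))) := by
      rw [← h]
      calc sn (TT G θ) ω n + (r + 1) ≤ t + (r + 1) := add_le_add_left ht _
        _ = t + 1 + r := by ring
    exact le_of_add_le_add_left h2
  have e1 := bwd_eq ω n h1 (u := t) (by rw [← h]; ring)
  have e2 := bwd_eq ω n (le_self_add.trans h1) (u := t + 1) h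
  unfold Fe
  rw [e1, e2]
  simp only [ContinuousMap.neg_apply]
  constructor <;> intro h3 <;> linarith

lemma nc_lo (ω : ℤ → Path) (j : ℕ) {τ : ℝ≥0} (h : τ ≤ sn (TT G θ) ω (NN G j)) :
    psi θ (bwd (yy G θ ω)) τ ≤ sn (TT G θ) ω (NN G j + 1) := by
  set s := sn (TT G θ) ω (NN G j) with hs
  set x := ω (-1 - (NN G j : ℤ)) with hx
  have h1 : sn (TT G θ) ω (NN G j + 1) = s + (1 + Q θ (-x) 0) := by
    rw [sn_succ, TT_sp]; rfl
  rw [h1]
  rcases Q_mem (θ := θ) (-x) 0 with h2 | h2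
  · have h3 : Fe θ (bwd (yy G θ ω)) s := by
      rw [fe_iff ω (NN G j) (t := s) (r := Q θ (-x) 0) (by rw [h1]; ring) le_rfl]
      exact h2.2
    unfold psi
    calc 1 + Q θ (bwd (yy G θ ω)) τ ≤ 1 + s := add_le_add_right (Q_le h h3) 1
      _ = s + 1 := add_comm _ _
      _ ≤ s + (1 + Q θ (-x) 0) := add_le_add_right le_self_add s
  · rw [h2]
    refine (psi_le _ τ).trans ?_
    calc τ + 3 ≤ s + 3 := add_le_add_left h 3
      _ = s + (1 + (0 + 2)) := by norm_num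

lemma nc_hi (ω : ℤ → Path) (j : ℕ) {τ : ℝ≥0} (h : sn (TT G θ) ω (NN G j) < τ) :
    sn (TT G θ) ω (NN G j + 1) < psi θ (bwd (yy G θ ω)) τ := by
  set s := sn (TT G θ) ω (NN G j) with hs
  set x := ω (-1 - (NN G j : ℤ)) with hx
  have h1 : sn (TT G θ) ω (NN G j + 1) = s + (1 + Q θ (-x) 0) := by
    rw [sn_succ, TT_sp]; rfl
  rw [h1]
  by_contra hcon
  rw [not_lt] at hcon
  unfold psi at hcon
  rcases Q_mem (θ := θ) (bwd (yy G θ ω)) τ with h2 | h2
  · set t := Q θ (bwd (yy G θ ω)) τ with ht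
    obtain ⟨r, hr⟩ := exists_add_of_le hcon
    have h3 : t + 1 + r = sn (TT G θ) ω (NN G j + 1) := by rw [h1, hr]; ring
    have h4 : s < t := h.trans_le h2.1
    have h5 := (fe_iff ω (NN G j) h3 h4.le).1 h2.2
    have h6 : Q θ (-x) 0 ≤ r := Q_le (zero_le) h5
    have h7 : s + Q θ (-x) 0 < t + r := add_lt_add_of_lt_of_le h4 h6
    have h8 : s + Q θ (-x) 0 = t + r := by
      have : 1 + (s + Q θ (-x) 0) = 1 + (t + r) := by
        rw [← add_assoc 1 t r, ← hr]; ring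
      exact add_left_cancel this
    exact h7.ne h8
  · rw [h2] at hcon
    have h3 := Q_le2 (θ := θ) (-x) 0
    have h4 : s + (1 + Q θ (-x) 0) ≤ s + (1 + (0 + 2)) := add_le_add_right (add_le_add_right h3 1) s
    have h5 := hcon.trans h4
    have h6 : 3 + τ ≤ 3 + s := by
      calc 3 + τ = 1 + (τ + 2) := by ring
        _ ≤ s + (1 + (0 + 2)) := h5
        _ = 3 + s := by ring
    exact absurd (le_of_add_le_add_left h6) (not_le.2 h)

lemma sn_unit (ω : ℤ → Path) (j : ℕ) : ∀ l, l ≤ G j →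
    sn (TT G θ) ω (NN G j + 1 + l) = sn (TT G θ) ω (NN G j + 1) + l := by
  intro l
  induction l with
  | zero => intro _; simp
  | succ l ih =>
    intro hl
    have e : NN G j + 1 + (l + 1) = (NN G j + 1 + l) + 1 := by ring
    rw [e, sn_succ, ih (by omega), TT_unit (by omega)]
    push_cast
    ring

/-- the start of the group `j`, in backward time -/
noncomputable def sg (G : ℕ → ℕ) (θ : ℝ) (ω : ℤ → Path) (j : ℕ) : ℝ≥0 := sn (TT G θ) ω (NN G j)

lemma sg_succ (ω : ℤ → Path) (j : ℕ) :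
    sg G θ ω (j + 1) = sn (TT G θ) ω (NN G j + 1) + G j := sn_unit ω j (G j) le_rfl

lemma sg_bounds (ω : ℤ → Path) (j : ℕ) :
    (j : ℝ≥0) + ∑ i ∈ Finset.range j, (G i : ℝ≥0) ≤ sg G θ ω j ∧
      sg G θ ω j ≤ 3 * j + ∑ i ∈ Finset.range j, (G i : ℝ≥0) := by
  induction j with
  | zero => simp [sg, NN, sn]
  | succ j ih =>
    rw [sg_succ, sn_succ, Finset.sum_range_succ]
    have h1 := TT_ge (G := G) (θ := θ) (-1 - (NN G j : ℤ)) (ω (-1 - (NN G j : ℤ)))
    have h2 := TT_le (G := G) (θ := θ) (-1 - (NN G j : ℤ)) (ω (-1 - (NN G j : ℤ)))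
    obtain ⟨h3, h4⟩ := ih
    unfold sg at h3 h4
    push_cast
    constructor
    · calc ((j : ℝ≥0) + 1) + (∑ i ∈ Finset.range j, (G i : ℝ≥0) + G j) =
          (j + ∑ i ∈ Finset.range j, (G i : ℝ≥0)) + 1 + G j := by ring
        _ ≤ _ := add_le_add_left (add_le_add h3 h1) _
    · calc _ ≤ (3 * (j : ℝ≥0) + ∑ i ∈ Finset.range j, (G i : ℝ≥0)) + 3 + G j :=
          add_le_add_left (add_le_add h4 h2) _
        _ = _ := by ring

lemma step_lo (ω : ℤ → Path) (j : ℕ) {τ : ℝ≥0} (h : τ ≤ sg G θ ω j) :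
    psi θ (bwd (yy G θ ω)) τ + G j ≤ sg G θ ω (j + 1) := by
  rw [sg_succ]
  exact add_le_add_left (nc_lo ω j h) _

lemma step_hi (ω : ℤ → Path) (j : ℕ) {τ : ℝ≥0} (h : sg G θ ω j < τ) :
    sg G θ ω (j + 1) < psi θ (bwd (yy G θ ω)) τ + G j := by
  rw [sg_succ]
  exact add_lt_add_left (nc_hi ω j h) _

lemma block_lo (ω : ℤ → Path) (j m g : ℕ) (hG : ∀ l < m, G (j + l) = g) {τ : ℝ≥0}
    (h : τ ≤ sg G θ ω j) : ∀ l ≤ m, ch θ g l (bwd (yy G θ ω)) τ ≤ sg G θ ω (j + l) := by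
  intro l
  induction l with
  | zero => intro _; rw [ch_zero]; exact h
  | succ l ih =>
    intro hl
    rw [ch_succ']
    have h1 := step_lo ω (j + l) (ih (by omega))
    rw [hG l (by omega)] at h1
    exact h1

lemma block_hi (ω : ℤ → Path) (j m g : ℕ) (hG : ∀ l < m, G (j + l) = g) {τ : ℝ≥0}
    (h : sg G θ ω j < τ) : ∀ l ≤ m, sg G θ ω (j + l) < ch θ g l (bwd (yy G θ ω)) τ := by
  intro l
  induction l with
  | zero => intro _; rw [ch_zero]; exact h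
  | succ l ih =>
    intro hl
    rw [ch_succ']
    have h1 := step_hi ω (j + l) (ih (by omega))
    rw [hG l (by omega)] at h1
    exact h1

end Idx

end Q297.Bw
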