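import Pool.Agent.Q297.BwF

/-!
The choice of the scales, and the event that separates the example from backward Brownian motions.
-/

open MeasureTheory ProbabilityTheory Set Filter Topology
open scoped ENNReal NNReal
open Q297.PathC Q297.Prepend Q297.TwoS Q297.Dec

namespace Q297.Bw

section Seq

variable {W : Measure Path} (hW : IsBrownianReal (fun (t : ℝ≥0) (x : Path) => x t) W) {θ : ℝ}
  (hθ : 1 / 2 ≤ W.real (NF θ 2))

include hW hθ

lemma exists_m (a i : ℕ) : ∃ m : ℕ, 1 ≤ m ∧ ∀ g : ℝ≥0, 4 * ((a : ℝ≥0) + 1) + 2 * m ≤ g →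
    ∀ τ τ' : ℝ≥0, τ' ≤ τ + 4 * ((a : ℝ≥0) + 1) →
      W {b | ch θ g m b τ < ch θ g m b τ'} ≤ ENNReal.ofReal ((1 / 2) ^ (i + 1)) := by
  have hWp := isProb hW
  obtain ⟨m, hm⟩ := coalesce hW hθ (4 * ((a : ℝ≥0) + 1)) (ε := (1 / 2) ^ (i + 1)) (by positivity)
  refine ⟨m, ?_, hm⟩
  by_contra h
  have h0 : m = 0 := by omega
  subst h0
  have h1 := hm (4 * ((a : ℝ≥0) + 1)) (by simp) 0 (4 * ((a : ℝ≥0) + 1)) (by simp)
  have h2 : {b : Path | ch θ (4 * ((a : ℝ≥0) + 1)) 0 b 0 <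
      ch θ (4 * ((a : ℝ≥0) + 1)) 0 b (4 * ((a : ℝ≥0) + 1))} = univ := by
    ext b
    simp only [mem_ofPred_eq, ch_zero, mem_univ, iff_true]
    positivity
  rw [h2, measure_univ] at h1
  have h3 : ((1 : ℝ) / 2) ^ (i + 1) < 1 := pow_lt_one₀ (by norm_num) (by norm_num) (by omega)
  have h4 : ENNReal.ofReal ((1 / 2) ^ (i + 1)) < 1 := by
    rw [← ENNReal.ofReal_one]
    exact (ENNReal.ofReal_lt_ofReal_iff one_pos).2 h3
  exact absurd h1 (not_le.2 h4)

lemma exists_seq : ∃ M m g : ℕ → ℕ, M 0 = 0 ∧ (∀ i, M (i + 1) = M i + m i) ∧ (∀ i, 1 ≤ m i) ∧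
    (∀ i, 2 * (M (i + 1) + 1 + (i + 1)) ≤ g i) ∧ ∀ i (τ τ' : ℝ≥0),
      τ' ≤ τ + 4 * ((M i + 1 + i : ℕ) : ℝ≥0) →
      W {b | ch θ (g i) (m i) b τ < ch θ (g i) (m i) b τ'} ≤ ENNReal.ofReal ((1 / 2) ^ (i + 1)) := by
  choose mm hm1 hm using exists_m hW hθ
  let M : ℕ → ℕ := fun i => Nat.rec 0 (fun i Mi => Mi + mm (Mi + i) i) i
  have hM : ∀ i, M (i + 1) = M i + mm (M i + i) i := fun i => rfl
  refine ⟨M, fun i => mm (M i + i) i, fun i => 4 * (M i + i + 1) + 2 * mm (M i + i) i +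
    2 * (M (i + 1) + 1 + (i + 1)), rfl, hM, fun i => hm1 _ _, fun i => Nat.le_add_left _ _, ?_⟩
  intro i τ τ' h
  refine hm (M i + i) i _ ?_ τ τ' (h.trans (le_of_eq ?_))
  · have : 4 * (M i + i + 1) + 2 * mm (M i + i) i ≤ 4 * (M i + i + 1) + 2 * mm (M i + i) i +
      2 * (M (i + 1) + 1 + (i + 1)) := by omega
    exact_mod_cast this
  · push_cast; ring

end Seq

section Sep

variable {M m g : ℕ → ℕ} (h0 : M 0 = 0) (hM : ∀ i, M (i + 1) = M i + m i) (hm : ∀ i, 1 ≤ m i)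
  (hg : ∀ i, 2 * (M (i + 1) + 1 + (i + 1)) ≤ g i)

/-- the gap of the group `j` -/
noncomputable def Gf (M g : ℕ → ℕ) (j : ℕ) : ℕ :=
  g (Nat.findGreatest (fun i => M i ≤ j) j)

/-- centres -/
noncomputable def ee (M g : ℕ → ℕ) (i : ℕ) : ℕ := 2 * M i + ∑ j ∈ Finset.range (M i), Gf M g j

/-- half widths -/
def aa (M : ℕ → ℕ) (i : ℕ) : ℕ := M i + 1 + i

include hM hm in
lemma M_mono : StrictMono M := strictMono_nat_of_lt_succ fun i => by
  have := hM i; have := hm i; omega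

include hM hm in
lemma Gf_eq (i l : ℕ) (hl : l < m i) : Gf M g (M i + l) = g i := by
  unfold Gf
  congr 1
  have hmono := M_mono hM hm
  rw [Nat.findGreatest_eq_iff]
  refine ⟨(hmono.le_apply (x := i)).trans (Nat.le_add_right _ _), fun _ => Nat.le_add_right _ _, ?_⟩
  intro n hn _ hcon
  have h1 : M (i + 1) ≤ M n := hmono.monotone hn
  have h2 := hM i
  omega

include hM hm hg in
lemma ee_ge (i : ℕ) : 2 * aa M (i + 1) ≤ ee M g (i + 1) := by
  have h1 : M i < M (i + 1) := M_mono hM hm (Nat.lt_succ_self i)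
  have h2 : Gf M g (M i) ≤ ∑ j ∈ Finset.range (M (i + 1)), Gf M g j :=
    Finset.single_le_sum (f := Gf M g) (fun _ _ => Nat.zero_le _) (Finset.mem_range.2 h1)
  have h3 := Gf_eq hM hm (g := g) i 0 (hm i)
  rw [add_zero] at h3
  have h4 := hg i
  unfold ee aa
  omega

/-- the separating property -/
def PA (θ : ℝ) (M m g : ℕ → ℕ) (b : Path) : Prop :=
  ∀ i, ch θ (g i) (m i) b ((ee M g i : ℝ≥0) - aa M i) < ch θ (g i) (m i) b ((ee M g i : ℝ≥0) + aa M i)

/-- the separating property, seen from another time -/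
def PB (θ : ℝ) (M m g : ℕ → ℕ) (b : Path) : Prop :=
  ∀ᶠ i in atTop, ch θ (g i) (m i) b ((ee M g i : ℝ≥0) - 2 * aa M i) <
    ch θ (g i) (m i) b ((ee M g i : ℝ≥0) + 2 * aa M i)

lemma PA_meas (θ : ℝ) (M m g : ℕ → ℕ) : MeasurableSet {b | PA θ M m g b} := by
  have : {b | PA θ M m g b} = ⋂ i, {b | ch θ (g i) (m i) b ((ee M g i : ℝ≥0) - aa M i) <
      ch θ (g i) (m i) b ((ee M g i : ℝ≥0) + aa M i)} := by
    ext b; simp [PA]
  rw [this]
  exact MeasurableSet.iInter fun i => measurableSet_lt (ch_meas _ _ _ _) (ch_meas _ _ _ _)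

include hM hm in
lemma PA_yy (θ : ℝ) (ω : ℤ → Path) : PA θ M m g (bwd (yy (Gf M g) θ ω)) := by
  intro i
  have hb := sg_bounds (G := Gf M g) (θ := θ) ω (M i)
  have he : (ee M g i : ℝ≥0) = 2 * M i + ∑ j ∈ Finset.range (M i), (Gf M g j : ℝ≥0) := by
    unfold ee; push_cast; ring
  have ha : (aa M i : ℝ≥0) = M i + 1 + i := by unfold aa; push_cast; ring
  have h1 : (ee M g i : ℝ≥0) - aa M i ≤ sg (Gf M g) θ ω (M i) := by
    rw [tsub_le_iff_right, he, ha]
    calc 2 * (M i : ℝ≥0) + ∑ j ∈ Finset.range (M i), (Gf M g j : ℝ≥0) =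
        (M i + ∑ j ∈ Finset.range (M i), (Gf M g j : ℝ≥0)) + M i := by ring
      _ ≤ sg (Gf M g) θ ω (M i) + (M i + 1 + i) :=
        add_le_add hb.1 (by rw [add_assoc]; exact le_self_add)
  have h2 : sg (Gf M g) θ ω (M i) < (ee M g i : ℝ≥0) + aa M i := by
    refine hb.2.trans_lt ?_
    rw [he, ha]
    calc 3 * (M i : ℝ≥0) + ∑ j ∈ Finset.range (M i), (Gf M g j : ℝ≥0) =
        (2 * M i + ∑ j ∈ Finset.range (M i), (Gf M g j : ℝ≥0)) + M i := by ring
      _ < _ := by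
        refine add_lt_add_right ?_ _
        rw [add_assoc]
        exact lt_add_of_pos_right _ (by positivity)
  exact (block_lo ω (M i) (m i) (g i) (fun l hl => Gf_eq hM hm i l hl) h1 (m i) le_rfl).trans_lt
    (block_hi ω (M i) (m i) (g i) (fun l hl => Gf_eq hM hm i l hl) h2 (m i) le_rfl)

lemma pert {θ : ℝ} {g : ℝ≥0} {m : ℕ} {b : Path} {a e c : ℝ≥0} (hc : c ≤ a) (he : 2 * a ≤ e)
    (h : ch θ g m b (e - a) < ch θ g m b (e + a)) :
    ch θ g m (shift c b) (e - 2 * a) < ch θ g m (shift c b) (e + 2 * a) := by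
  have h1 : c + (e - 2 * a) ≤ e - a := by
    obtain ⟨r, rfl⟩ := exists_add_of_le he
    rw [add_tsub_cancel_left, show 2 * a + r - a = a + r by
      rw [show 2 * a + r = a + (a + r) by ring, add_tsub_cancel_left]]
    exact add_le_add_left hc r
  have h2 : e + a ≤ c + (e + 2 * a) := by
    calc e + a ≤ e + a + (a + c) := le_self_add
      _ = _ := by ring
  have h3 := ((ch_mono g m b h1).trans_lt h).trans_le (ch_mono g m b h2)
  rw [ch_shift, ch_shift] at h3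
  exact lt_of_add_lt_add_left h3

lemma pert' {θ : ℝ} {g : ℝ≥0} {m : ℕ} {b : Path} {a e c : ℝ≥0} (hc : c ≤ a)
    (h : ch θ g m (shift c b) (e - a) < ch θ g m (shift c b) (e + a)) :
    ch θ g m b (e - 2 * a) < ch θ g m b (e + 2 * a) := by
  have h1 : e - 2 * a ≤ c + (e - a) := by
    refine le_trans ?_ le_add_self
    exact tsub_le_tsub_left (by rw [two_mul]; exact le_self_add) e
  have h2 : c + (e + a) ≤ e + 2 * a := by
    calc c + (e + a) ≤ a + (e + a) := add_le_add_left hc _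
      _ = _ := by ring
  have h3 : c + ch θ g m (shift c b) (e - a) < c + ch θ g m (shift c b) (e + a) :=
    add_lt_add_right h c
  rw [← ch_shift, ← ch_shift] at h3
  exact ((ch_mono g m b h1).trans_lt h3).trans_le (ch_mono g m b h2)

include hM hm hg in
lemma PB_of_PA {θ : ℝ} {y : Path2} (h : PA θ M m g (bwd y)) (R : ℝ) :
    PB θ M m g (bwd (th R y)) := by
  obtain ⟨n, hn⟩ := exists_nat_gt |R|
  filter_upwards [eventually_ge_atTop (n + 1)] with i hi
  obtain ⟨k, rfl⟩ : ∃ k, i = k + 1 := ⟨i - 1, by omega⟩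
  have he : (2 * (aa M (k + 1) : ℝ≥0)) ≤ (ee M g (k + 1) : ℝ≥0) := by
    exact_mod_cast ee_ge hM hm hg k
  have hc : |R| ≤ (aa M (k + 1) : ℝ) := by
    refine hn.le.trans ?_
    have : n ≤ aa M (k + 1) := by unfold aa; omega
    exact_mod_cast this
  have hc' : Real.toNNReal |R| ≤ (aa M (k + 1) : ℝ≥0) := by
    rw [← NNReal.coe_le_coe, Real.coe_toNNReal _ (abs_nonneg R)]
    push_cast
    exact hc
  have hi := h (k + 1)
  rcases le_total R 0 with hR | hR
  · have e : bwd (th R y) = shift (Real.toNNReal |R|) (bwd y) := by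
      ext t
      rw [bwd_th, shift_apply]
      show _ = (y (-((Real.toNNReal |R| + t : ℝ≥0) : ℝ)) - y 0) -
        (y (-((Real.toNNReal |R| : ℝ≥0) : ℝ)) - y 0)
      rw [NNReal.coe_add, Real.coe_toNNReal _ (abs_nonneg R), abs_of_nonpos hR]
      rw [show -(-R + (t : ℝ)) = R - t by ring, neg_neg]
      ring
    rw [e]
    exact pert hc' he hi
  · have e : bwd y = shift (Real.toNNReal |R|) (bwd (th R y)) := by
      ext t
      rw [shift_apply, bwd_th, bwd_th]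
      show y (-(t : ℝ)) - y 0 = _
      rw [NNReal.coe_add, Real.coe_toNNReal _ (abs_nonneg R), abs_of_nonneg hR]
      rw [show R - (R + (t : ℝ)) = -t by ring, sub_self]
      ring
    rw [e] at hi
    exact pert' hc' hi

variable {W : Measure Path}

lemma W_PB {θ : ℝ} (hWb : ∀ i (τ τ' : ℝ≥0), τ' ≤ τ + 4 * ((M i + 1 + i : ℕ) : ℝ≥0) →
      W {b | ch θ (g i) (m i) b τ < ch θ (g i) (m i) b τ'} ≤ ENNReal.ofReal ((1 / 2) ^ (i + 1))) :
    W {b | PB θ M m g b} = 0 := by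
  have e : {b | PB θ M m g b} = ⋃ n, {b | ∀ i ≥ n, ch θ (g i) (m i) b ((ee M g i : ℝ≥0) - 2 * aa M i) <
      ch θ (g i) (m i) b ((ee M g i : ℝ≥0) + 2 * aa M i)} := by
    ext b; simp [PB, eventually_atTop]
  rw [e, measure_iUnion_null_iff]
  intro n
  have h1 : ∀ i ≥ n, W {b | ∀ i ≥ n, ch θ (g i) (m i) b ((ee M g i : ℝ≥0) - 2 * aa M i) <
      ch θ (g i) (m i) b ((ee M g i : ℝ≥0) + 2 * aa M i)} ≤ ENNReal.ofReal ((1 / 2) ^ (i + 1)) := by
    intro i hi
    refine le_trans (measure_mono ?_) (hWb i ((ee M g i : ℝ≥0) - 2 * aa M i)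
      ((ee M g i : ℝ≥0) + 2 * aa M i) ?_)
    · intro b hb
      exact hb i hi
    have h2 : (ee M g i : ℝ≥0) ≤ (ee M g i : ℝ≥0) - 2 * aa M i + 2 * aa M i := le_tsub_add
    calc (ee M g i : ℝ≥0) + 2 * aa M i ≤ ((ee M g i : ℝ≥0) - 2 * aa M i + 2 * aa M i) + 2 * aa M i :=
        add_le_add_left h2 _
      _ = _ := by unfold aa; ring
  have h2 : Tendsto (fun i : ℕ => ENNReal.ofReal ((1 / 2) ^ (i + 1))) atTop (𝓝 0) := by
    rw [← ENNReal.ofReal_zero]
    refine ENNReal.tendsto_ofReal ?_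
    exact (tendsto_pow_atTop_nhds_zero_of_lt_one (by norm_num) (by norm_num)).comp
      (tendsto_add_atTop_nat 1)
  refine le_antisymm (ge_of_tendsto h2 ?_) zero_le
  filter_upwards [eventually_ge_atTop n] with i hi
  exact h1 i hi

end Sep

end Q297.Bw
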