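import Pool.Agent.Q297.BwG
import Pool.Agent.Q297.BmExist

/-!
A decomposable forward Brownian motion with pieces of length at most three which is not a backward
Brownian motion.
-/

open MeasureTheory ProbabilityTheory Set Filter Topology
open scoped ENNReal NNReal
open Q297.PathC Q297.Prepend Q297.TwoS Q297.Dec

namespace Q297.Bw

section Defs

variable {Ω : Type*} {mΩ : MeasurableSpace Ω}

/-- the usual conditions -/
def Normal (F : Filtration ℝ≥0 mΩ) (P : Measure Ω) : Prop :=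
  (∀ t, F t = ⨅ s > t, F s) ∧ ∀ A, P A = 0 → MeasurableSet[F 0] A

/-- the process `Y` is built from independent Brownian pieces of length at most `c` -/
def BPieced (Y : ℝ → Ω → ℝ) (P : Measure Ω) (c : ℝ≥0) : Prop :=
  ∃ (F : ℤ → Filtration ℝ≥0 mΩ) (B : ℤ → ℝ≥0 → Ω → ℝ) (T : ℤ → Ω → ℝ≥0) (S : ℤ → Ω → ℝ),
    (∀ k, Normal (F k) P) ∧
    (∀ k, IsBMFor (F k) (B k) P) ∧
    (∀ k, IsStoppingTime (F k) (fun ω => (T k ω : WithTop ℝ≥0))) ∧
    (∀ k ω, T k ω ≤ c) ∧
    iIndepFun (fun k ω => (T k ω, fun t : ℝ≥0 => B k (min t (T k ω)) ω)) P ∧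
    (∀ ω, S 0 ω = 0) ∧ (∀ k ω, S (k + 1) ω = S k ω + T k ω) ∧
    (∀ᵐ ω ∂P, Tendsto (fun k => S k ω) atTop atTop) ∧
    (∀ᵐ ω ∂P, Tendsto (fun k => S k ω) atBot atBot) ∧
    (∀ t, Measurable (Y t)) ∧ (∀ᵐ ω ∂P, Continuous fun t => Y t ω) ∧
    ∀ᵐ ω ∂P, Y 0 ω = 0 ∧ ∀ k, ∀ t : ℝ≥0, t < T k ω → Y (S k ω + t) ω - Y (S k ω) ω = B k t ω

lemma BPieced.isPieced {Y : ℝ → Ω → ℝ} {P : Measure Ω} {c : ℝ≥0} (h : BPieced Y P c) :
    IsPieced Y P := by
  obtain ⟨F, B, T, S, -, h1, h2, -, h3⟩ := h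
  exact ⟨F, B, T, S, h1, h2, h3⟩

variable {W : Measure Path} (hW : IsBrownianReal (fun (t : ℝ≥0) (x : Path) => x t) W)
  {P : Measure Ω}

include hW

lemma fbm_of_pieced {Y : ℝ → Ω → ℝ} (h : IsPieced Y P) : FBM Y P := by
  have hWp := isProb hW
  obtain ⟨hP, y, S, T, b, hd, hy, -⟩ := h.data hW
  refine ⟨fun n => S (-(n : ℤ)), fun n => hd.mS _, ?_, fun n => ?_⟩
  · filter_upwards [hd.bot] with ω hω
    refine hω.comp ?_
    exact tendsto_neg_atTop_atBot.comp tendsto_natCast_atTop_atTop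
  · refine isBM_congr (bm_of_law' hW (hd.mfwd (-(n : ℤ))) (hd.law_fwd _)) ?_
    filter_upwards [hy] with ω hω t
    rw [fwd_th, hω, hω]

variable {b : ℤ → Ω → Path} (hb : ∀ k, Measurable (b k)) (hlaw : ∀ k, P.map (b k) = W)
  (hind : iIndepFun b P) (G : ℕ → ℕ) (θ : ℝ)

/-- the example -/
noncomputable def XX (b : ℤ → Ω → Path) (G : ℕ → ℕ) (θ : ℝ) (t : ℝ) (ω : Ω) : ℝ :=
  YY (TT G θ) (fun k => b k ω) t

include hb hlaw hind

lemma XX_pieced [IsProbabilityMeasure P] [P.IsComplete] : BPieced (XX b G θ) P 3 := by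
  have hWp := isProb hW
  have mω : Measurable (fun (ω : Ω) (k : ℤ) => b k ω) := measurable_pi_lambda _ hb
  refine ⟨fun k => FF (b k) P, fun k t ω => b k ω t, fun k ω => TT G θ k (b k ω),
    fun k ω => SS (TT G θ) k (fun k => b k ω), fun k => ⟨fun t => FF_right _ _ _,
    fun A hA => FF_null _ _ _ hA⟩, fun k => FF_bm hW (hb k) (hlaw k),
    fun k => FF_stopping (hb k) (TT_meas k) (fun x t => TT_stop k x t), fun k ω => TT_le k _, ?_,
    fun ω => SS_zero _ _, fun k ω => SS_succ _ _ _, ae_of_all _ fun ω => SS_top TT_ge _,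
    ae_of_all _ fun ω => SS_bot TT_ge _, fun t => (YY_meas TT_meas t).comp mω,
    ae_of_all _ fun ω => YY_cont TT_ge _, ?_⟩
  · refine hind.comp (fun k x => (TT G θ k x, fun t : ℝ≥0 => x (min t (TT G θ k x)))) fun k => ?_
    refine (TT_meas k).prodMk (measurable_pi_lambda _ fun t => ?_)
    have h1 : Measurable (fun x : Path => (min t (TT G θ k x), x)) :=
      (measurable_const.min (TT_meas k)).prodMk measurable_id
    exact ev_meas1.comp h1
  · have h0 : ∀ᵐ ω ∂P, ∀ k, b k ω 0 = 0 := by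
      rw [ae_all_iff]
      intro k
      have h1 : ∀ᵐ x ∂(P.map (b k)), x 0 = 0 := by rw [hlaw k]; exact W_zero hW
      exact ae_of_ae_map (hb k).aemeasurable h1
    filter_upwards [h0] with ω hω
    refine ⟨YY_zero TT_ge _, fun k t ht => ?_⟩
    have h1 := YY_inc (T := TT G θ) TT_ge k (fun k => b k ω) ht.le
    rw [hω k, sub_zero] at h1
    exact h1

end Defs

/-- **Main theorem.** -/
theorem main : ∃ (Ω : Type) (_ : MeasurableSpace Ω) (P : Measure Ω) (_ : IsProbabilityMeasure P)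
    (X : ℝ → Ω → ℝ), (∀ t, Measurable (X t)) ∧ (∀ ω, Continuous fun t => X t ω) ∧
      BPieced X P 3 ∧ FBM X P ∧
      ∀ (Ω' : Type) (_ : MeasurableSpace Ω') (P' : Measure Ω') (X' : ℝ → Ω' → ℝ),
        (∀ t, Measurable (X' t)) → (∀ᵐ ω ∂P', Continuous fun t => X' t ω) →
        P'.map (fun ω t => X' t ω) = P.map (fun ω t => X t ω) →
        ¬ ∃ R : Ω' → ℝ, Measurable R ∧
          IsBrownianReal (fun (t : ℝ≥0) ω => X' (R ω - t) ω - X' (R ω) ω) P' := by
  obtain ⟨W, hW⟩ := Q297.Bm.exists_wiener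
  have hWp := isProb hW
  obtain ⟨θ, hθ⟩ := exists_theta hW
  obtain ⟨M, m, g, h0, hM, hm, hg, hWb⟩ := exists_seq hW hθ
  set P0 : Measure (ℤ → Path) := Measure.infinitePi fun _ => W with hP0
  set b : ℤ → NullMeasurableSpace (ℤ → Path) P0 → Path := fun k ω => (show ℤ → Path from ω) k with hb
  have mid : Measurable (fun ω : NullMeasurableSpace (ℤ → Path) P0 => (show ℤ → Path from ω)) :=
    fun s hs => hs.nullMeasurableSet
  have mb : ∀ k, Measurable (b k) := fun k => (measurable_pi_apply k).comp mid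
  have hPc : IsProbabilityMeasure P0.completion := by
    constructor
    rw [Measure.completion_apply]
    exact measure_univ
  have hlaw : ∀ k, P0.completion.map (b k) = W := by
    intro k
    ext s hs
    rw [Measure.map_apply (mb k) hs, Measure.completion_apply]
    have h1 := (measurePreserving_eval_infinitePi (fun _ : ℤ => W) k).measure_preimage
      hs.nullMeasurableSet
    exact h1
  have hind : iIndepFun b P0.completion := by
    have h1 : iIndepFun (fun (k : ℤ) (ω : ℤ → Path) => ω k) P0 :=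
      iIndepFun_infinitePi (P := fun _ : ℤ => W) (X := fun _ x => x) (fun _ => measurable_id)
    rw [iIndepFun_iff_measure_inter_preimage_eq_mul] at h1 ⊢
    exact h1
  have hX := XX_pieced hW mb hlaw hind (Gf M g) θ
  have mX : ∀ t, Measurable (XX b (Gf M g) θ t) := by
    intro t
    have mω : Measurable (fun (ω : NullMeasurableSpace (ℤ → Path) P0) (k : ℤ) => b k ω) :=
      measurable_pi_lambda _ mb
    exact (YY_meas TT_meas t).comp mω
  refine ⟨NullMeasurableSpace (ℤ → Path) P0, inferInstance, P0.completion, hPc, XX b (Gf M g) θ,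
    mX, fun ω => YY_cont TT_ge _, hX, fbm_of_pieced hW hX.isPieced, ?_⟩
  intro Ω' mΩ' P' X' hm' hc' hlaw' ⟨R, hR, hRB⟩
  -- paths
  set x : NullMeasurableSpace (ℤ → Path) P0 → Path2 := fun ω => yy (Gf M g) θ (fun k => b k ω) with hx
  have mx : Measurable x := measurable_of_eval fun t => mX t
  obtain ⟨x', mx', hx'⟩ := exists_mod2 hm' hc'
  have hlx : P'.map x' = P0.completion.map x := by
    have hp0 : IsProbabilityMeasure P' := hRB.isGaussianProcess.isProbabilityMeasure
    have : IsProbabilityMeasure (P'.map x') := Measure.isProbabilityMeasure_map mx'.aemeasurable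
    apply measure_ext
    rw [map_path mx' hx', hlaw', map_path mx (X := XX b (Gf M g) θ)]
    exact ae_of_all _ fun ω t => rfl
  have mPA : MeasurableSet {y : Path2 | PA θ M m g (bwd y)} := bwd_meas (PA_meas θ M m g)
  have h1 : P'.map x' {y : Path2 | PA θ M m g (bwd y)}ᶜ = 0 := by
    rw [hlx, Measure.map_apply mx mPA.compl]
    have : x ⁻¹' {y : Path2 | PA θ M m g (bwd y)}ᶜ = ∅ := by
      ext ω
      simp only [mem_preimage, mem_compl_iff, mem_ofPred_eq, mem_empty_iff_false, iff_false, not_not]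
      exact PA_yy hM hm θ _
    rw [this, measure_empty]
  rw [Measure.map_apply mx' mPA.compl] at h1
  have h2 : ∀ᵐ ω ∂P', PA θ M m g (bwd (x' ω)) := by
    filter_upwards [measure_eq_zero_iff_ae_notMem.1 h1] with ω hω
    simpa using hω
  have mR : Measurable (fun ω => bwd (th (R ω) (x' ω))) := bwd_meas.comp (th_meas2.comp (hR.prodMk mx'))
  have h3 : P'.map (fun ω => bwd (th (R ω) (x' ω))) = W := by
    refine law_unique1 hW mR (hRB.toIsPreBrownianReal.congr fun t => ?_)
    filter_upwards [hx'] with ω hω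
    show _ = bwd (th (R ω) (x' ω)) t
    rw [bwd_th, hω, hω]
  have h4 : ∀ᵐ y ∂W, ¬ PB θ M m g y := measure_eq_zero_iff_ae_notMem.1 (W_PB (θ := θ) hWb)
  rw [← h3] at h4
  have h5 := ae_of_ae_map mR.aemeasurable h4
  have hp : IsProbabilityMeasure P' := hRB.isGaussianProcess.isProbabilityMeasure
  obtain ⟨ω, h6, h7⟩ := (h2.and h5).exists
  exact h7 (PB_of_PA hM hm hg h6 (R ω))

end Q297.Bw
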