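import Pool.Agent.H140R2.FR.T03Zeros

/-!
The first two zeros of the Airy function differ by more than `4/5`.
-/

open MeasureTheory Set Filter Topology
open Pool.Agent.H140R2.FR

namespace Q297.ChA

/-- real Airy function -/
noncomputable def a (x : ℝ) : ℝ := (Ai (x : ℂ)).re

noncomputable def a1 (x : ℝ) : ℝ := (deriv Ai (x : ℂ)).re

lemma da (x : ℝ) : HasDerivAt a (a1 x) x := T03.hasDerivAt_a x

lemma da1 (x : ℝ) : HasDerivAt a1 (x * a x) x := T03.hasDerivAt_a1 x

lemma a_analytic : AnalyticOnNhd ℝ a univ := fun x _ =>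
  (Ai_differentiable.analyticAt (x : ℂ)).re_ofReal

lemma ofReal_a (x : ℝ) : Ai (x : ℂ) = (a x : ℂ) := by
  apply Complex.ext
  · simp [a]
  · simp [Ai_real]

/-- the largest zero is not far -/
lemma first_zero_ge {z : ℝ} (hz : ∀ x, z < x → 0 < a x) : -1 - Real.pi ≤ z := by
  by_contra hlt
  push Not at hlt
  have hpi := Real.pi_pos
  set c : ℝ := -1 - Real.pi with hc
  have hpos : ∀ x, c ≤ x → 0 < a x := fun x hx => hz x (by linarith)
  -- W = a' φ - a φ', φ = sin (x - c)
  let W : ℝ → ℝ := fun x => a1 x * Real.sin (x - c) - a x * Real.cos (x - c)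
  have hW : ∀ x, HasDerivAt W ((x + 1) * a x * Real.sin (x - c)) x := by
    intro x
    have h0 : HasDerivAt (fun x : ℝ => x - c) 1 x := (hasDerivAt_id x).sub_const c
    have h1 : HasDerivAt (fun x : ℝ => Real.sin (x - c)) (Real.cos (x - c) * 1) x := h0.sin
    have h2 : HasDerivAt (fun x : ℝ => Real.cos (x - c)) (-Real.sin (x - c) * 1) x := h0.cos
    exact (((da1 x).mul h1).sub ((da x).mul h2)).congr_deriv (by ring)
  have hanti : AntitoneOn W (Icc c (-1)) := by
    apply antitoneOn_of_deriv_nonpos (convex_Icc c (-1))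
    · exact fun x _ => (hW x).continuousAt.continuousWithinAt
    · exact fun x _ => (hW x).differentiableAt.differentiableWithinAt
    · intro x hx
      rw [interior_Icc] at hx
      rw [(hW x).deriv]
      have h1 : 0 ≤ Real.sin (x - c) :=
        Real.sin_nonneg_of_nonneg_of_le_pi (by linarith [hx.1]) (by rw [hc]; linarith [hx.2])
      have h2 := (hpos x hx.1.le).le
      have h3 : x + 1 ≤ 0 := by linarith [hx.2]
      have h4 : 0 ≤ a x * Real.sin (x - c) := mul_nonneg h2 h1
      nlinarith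
  have h := hanti (left_mem_Icc.2 (by rw [hc]; linarith)) (right_mem_Icc.2 (by rw [hc]; linarith))
    (by rw [hc]; linarith)
  have e1 : W c = -a c := by simp [W]
  have e2 : W (-1) = a (-1) := by
    simp only [W]
    have : (-1 : ℝ) - c = Real.pi := by rw [hc]; ring
    rw [this, Real.sin_pi, Real.cos_pi]
    ring
  rw [e1, e2] at h
  have h1 := hpos c le_rfl
  have h2 := hpos (-1) (by rw [hc]; linarith)
  linarith

lemma hd1 (z : ℝ) (hz0 : a z = 0) (hd : a1 z ≠ 0) (hpos : ∀ x, z < x → 0 < a x) : 0 < a1 z := by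
  have h0 : 0 ≤ a1 z := by
    have h1 : Tendsto (slope a z) (𝓝[>] z) (𝓝 (a1 z)) :=
      (hasDerivAt_iff_tendsto_slope.mp (da z)).mono_left (nhdsWithin_mono _ (fun x hx => (ne_of_gt hx)))
    refine ge_of_tendsto h1 ?_
    filter_upwards [self_mem_nhdsWithin] with x hx
    rw [slope_def_field, hz0, sub_zero]
    exact div_nonneg (hpos x hx).le (sub_nonneg.mpr (le_of_lt hx))
  exact lt_of_le_of_ne h0 (Ne.symm hd)

/-- no further zero within distance `4/5` -/
lemma gap {z r : ℝ} (hz : z < 0) (hz0 : a z = 0) (hd : a1 z ≠ 0) (hpos : ∀ x, z < x → 0 < a x)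
    (hr : 0 < r) (hneg : ∀ x, z - r ≤ x → x < z → a x < 0) :
    ∀ x, z - 4 / 5 ≤ x → x < z → a x < 0 := by
  by_contra hcon
  push Not at hcon
  obtain ⟨y, hy1, hy2, hy3⟩ := hcon
  have hza := first_zero_ge hpos
  have hcont : Continuous a := T03.a_continuous
  -- a zero in [z - 4/5, z)
  have hyr : y < z - r := by
    by_contra hge
    push Not at hge
    exact absurd hy3 (not_le.2 (hneg y hge hy2))
  obtain ⟨x₁, hx₁, hx₁0⟩ : ∃ x ∈ Icc y (z - r), a x = 0 := by
    have h0 : a (z - r) ≤ 0 := (hneg (z - r) le_rfl (by linarith)).le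
    have := intermediate_value_Icc' hyr.le hcont.continuousOn ⟨h0, hy3⟩
    obtain ⟨x, hx, hx0⟩ := this
    exact ⟨x, hx, hx0⟩
  -- the largest one
  set S : Set ℝ := {x | a x = 0} ∩ Icc y (z - r) with hS
  have hScl : IsClosed S := (isClosed_eq hcont continuous_const).inter isClosed_Icc
  have hSne : S.Nonempty := ⟨x₁, hx₁0, hx₁⟩
  have hSb : BddAbove S := ⟨z - r, fun x hx => hx.2.2⟩
  have hmem : sSup S ∈ S := hScl.csSup_mem hSne hSb
  set x₀ := sSup S with hx₀
  have hx₀0 : a x₀ = 0 := hmem.1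
  have hx₀y : y ≤ x₀ := hmem.2.1
  have hx₀r : x₀ ≤ z - r := hmem.2.2
  have hneg' : ∀ x, x₀ < x → x < z → a x < 0 := by
    intro x hx1 hx2
    rcases le_or_gt (z - r) x with h | h
    · exact hneg x h hx2
    · by_contra hge
      push Not at hge
      have h0 : a (z - r) ≤ 0 := (hneg (z - r) le_rfl (by linarith)).le
      obtain ⟨w, hw, hw0⟩ := intermediate_value_Icc' h.le hcont.continuousOn ⟨h0, hge⟩
      have : w ≤ x₀ := le_csSup hSb ⟨hw0, by linarith [hw.1], hw.2⟩
      linarith [hw.1]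
  -- derivative at x₀ is nonpositive, at z it is positive
  have hpi := Real.pi_gt_three
  have hpi4 := Real.pi_lt_four
  have hd1' : 0 < a1 z := hd1 z hz0 hd hpos
  have hd0 : a1 x₀ ≤ 0 := by
    have h1 : Tendsto (slope a x₀) (𝓝[>] x₀) (𝓝 (a1 x₀)) :=
      (hasDerivAt_iff_tendsto_slope.mp (da x₀)).mono_left
        (nhdsWithin_mono _ (fun x hx => (ne_of_gt hx)))
    refine le_of_tendsto h1 ?_
    filter_upwards [Ioo_mem_nhdsGT (show x₀ < z by linarith)] with x hx
    rw [slope_def_field, hx₀0, sub_zero]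
    exact div_nonpos_of_nonpos_of_nonneg (hneg' x hx.1 hx.2).le (sub_nonneg.mpr hx.1.le)
  -- comparison with sin (3 (x - x₀))
  let φ : ℝ → ℝ := fun x => Real.sin (3 * (x - x₀))
  let W : ℝ → ℝ := fun x => a1 x * Real.sin (3 * (x - x₀)) - a x * (3 * Real.cos (3 * (x - x₀)))
  have hW : ∀ x, HasDerivAt W ((x + 9) * a x * Real.sin (3 * (x - x₀))) x := by
    intro x
    have hl : HasDerivAt (fun x : ℝ => 3 * (x - x₀)) 3 x := by
      simpa using ((hasDerivAt_id x).sub_const x₀).const_mul 3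
    have h1 : HasDerivAt (fun x : ℝ => Real.sin (3 * (x - x₀))) (Real.cos (3 * (x - x₀)) * 3) x :=
      hl.sin
    have h2 : HasDerivAt (fun x : ℝ => 3 * Real.cos (3 * (x - x₀)))
        (3 * (-Real.sin (3 * (x - x₀)) * 3)) x := hl.cos.const_mul 3
    exact (((da1 x).mul h1).sub ((da x).mul h2)).congr_deriv (by ring)
  have hlen : 3 * (z - x₀) < Real.pi := by linarith
  have hanti : AntitoneOn W (Icc x₀ z) := by
    apply antitoneOn_of_deriv_nonpos (convex_Icc x₀ z)
    · exact fun x _ => (hW x).continuousAt.continuousWithinAt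
    · exact fun x _ => (hW x).differentiableAt.differentiableWithinAt
    · intro x hx
      rw [interior_Icc] at hx
      rw [(hW x).deriv]
      have h1 : 0 ≤ Real.sin (3 * (x - x₀)) :=
        Real.sin_nonneg_of_nonneg_of_le_pi (by linarith [hx.1]) (by linarith [hx.2])
      have h2 := (hneg' x hx.1 hx.2).le
      have h3 : 0 ≤ x + 9 := by linarith [hx.1]
      have h4 : 0 ≤ (x + 9) * Real.sin (3 * (x - x₀)) := mul_nonneg h3 h1
      nlinarith
  have h := hanti (left_mem_Icc.2 (by linarith)) (right_mem_Icc.2 (by linarith)) (by linarith)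
  have e1 : W x₀ = 0 := by simp [W, hx₀0]
  have e2 : W z = a1 z * Real.sin (3 * (z - x₀)) := by simp [W, hz0]
  rw [e1, e2] at h
  have hs : 0 < Real.sin (3 * (z - x₀)) := Real.sin_pos_of_pos_of_lt_pi (by linarith) hlen
  have := mul_pos hd1' hs
  linarith

/-- divided differences of real analytic functions are analytic -/
lemma analytic_dslope {f : ℝ → ℝ} (hf : AnalyticOnNhd ℝ f univ) (c : ℝ) :
    AnalyticOnNhd ℝ (dslope f c) univ := by
  intro x _
  rcases eq_or_ne x c with rfl | hx
  · obtain ⟨p, hp⟩ := hf x (mem_univ _)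
    exact ⟨_, hp.has_fpower_series_dslope_fslope⟩
  · have h1 : AnalyticAt ℝ (fun y => (f y - f c) / (y - c)) x :=
      ((hf x (mem_univ _)).sub analyticAt_const).div (analyticAt_id.sub analyticAt_const)
        (sub_ne_zero.2 hx)
    refine h1.congr ?_
    filter_upwards [isOpen_ne.mem_nhds hx] with y hy
    rw [dslope_of_ne _ hy, slope_def_field]

/-- all the facts about the Airy function that are needed -/
theorem facts : ∃ z : ℝ, z < 0 ∧ (∀ x, z < x → 0 < a x) ∧ ∃ q q2 : ℝ → ℝ,
    AnalyticOnNhd ℝ q univ ∧ AnalyticOnNhd ℝ q2 univ ∧ (∀ x, a x = (x - z) * q x) ∧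
    (∀ x, q x = q z + (x - z) * q2 x) ∧ 0 < q z ∧ ∀ x, z - 4 / 5 ≤ x → 0 < q x := by
  obtain ⟨z, hz, hz0, hd, hpos, r, hr, hneg⟩ := exists_first_zero
  have hz0' : a z = 0 := by simp [a, hz0]
  have hd' : a1 z ≠ 0 := T03.deriv_ne z hz.le hz0'
  refine ⟨z, hz, hpos, dslope a z, dslope (dslope a z) z, analytic_dslope a_analytic z,
    analytic_dslope (analytic_dslope a_analytic z) z, ?_, ?_, ?_, ?_⟩
  · intro x
    have := sub_smul_dslope a z x
    rw [smul_eq_mul, hz0', sub_zero] at this
    exact this.symm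
  · intro x
    have := sub_smul_dslope (dslope a z) z x
    rw [smul_eq_mul] at this
    linarith
  · rw [dslope_same, (da z).deriv]
    exact hd1 z hz0' hd' hpos
  · intro x hx
    rcases lt_trichotomy x z with h | h | h
    · rw [dslope_of_ne _ h.ne, slope_def_field, hz0', sub_zero]
      exact div_pos_of_neg_of_neg (gap hz hz0' hd' hpos hr hneg x hx h) (by linarith)
    · rw [h, dslope_same, (da z).deriv]
      exact hd1 z hz0' hd' hpos
    · rw [dslope_of_ne _ h.ne', slope_def_field, hz0', sub_zero]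
      exact div_pos (hpos x h) (by linarith)

end Q297.ChA
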