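import Pool.Agent.Q297.ChH

/-!
Consequences of monotonicity and convexity of `g(a+s) g(a-s)` in `2 cosh s`.
-/

open MeasureTheory ProbabilityTheory Set Filter Topology
open scoped ENNReal NNReal

namespace Q297.ChG

open Q297.ChH

/-- what is used of the hyperbolic complete monotonicity -/
structure Good (g : ℝ → ℝ) : Prop where
  cont : Continuous g
  pos : ∀ s, 0 < g s
  int : Integrable g
  anti : ∀ a s s', 0 ≤ s' → s' ≤ s → g (a + s) * g (a - s) ≤ g (a + s') * g (a - s')
  conv : ∀ a s₁ s₂ s₃, 0 < s₁ → s₁ < s₂ → s₂ < s₃ →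
    ((Real.exp s₃ + Real.exp (-s₃)) - (Real.exp s₁ + Real.exp (-s₁))) * (g (a + s₂) * g (a - s₂)) ≤
    ((Real.exp s₃ + Real.exp (-s₃)) - (Real.exp s₂ + Real.exp (-s₂))) * (g (a + s₁) * g (a - s₁)) +
    ((Real.exp s₂ + Real.exp (-s₂)) - (Real.exp s₁ + Real.exp (-s₁))) * (g (a + s₃) * g (a - s₃))

variable {g : ℝ → ℝ}

/-- backward ratios are monotone -/
lemma ratio_mono (hg : Good g) {x y c : ℝ} (hxy : x ≤ y) (hc : 0 ≤ c) :
    g (x - c) * g y ≤ g x * g (y - c) := by
  rcases le_total x (y - c) with h | h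
  · have := hg.anti ((x - c + y) / 2) ((y - x + c) / 2) ((y - c - x) / 2) (by linarith) (by linarith)
    rw [show (x - c + y) / 2 + (y - x + c) / 2 = y by ring,
      show (x - c + y) / 2 - (y - x + c) / 2 = x - c by ring,
      show (x - c + y) / 2 + (y - c - x) / 2 = y - c by ring,
      show (x - c + y) / 2 - (y - c - x) / 2 = x by ring] at this
    linarith [mul_comm (g y) (g (x - c)), mul_comm (g (y - c)) (g x)]
  · have := hg.anti ((x - c + y) / 2) ((y - x + c) / 2) ((x - y + c) / 2) (by linarith) (by linarith)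
    rw [show (x - c + y) / 2 + (y - x + c) / 2 = y by ring,
      show (x - c + y) / 2 - (y - x + c) / 2 = x - c by ring,
      show (x - c + y) / 2 + (x - y + c) / 2 = x by ring,
      show (x - c + y) / 2 - (x - y + c) / 2 = y - c by ring] at this
    linarith [mul_comm (g y) (g (x - c))]

lemma comp_neg (hg : Good g) : Good (fun s => g (-s)) where
  cont := hg.cont.comp continuous_neg
  pos s := hg.pos _
  int := hg.int.comp_neg
  anti a s s' h0 h1 := by
    have := hg.anti (-a) s s' h0 h1
    rw [show -(a + s) = -a - s by ring, show -(a - s) = -a + s by ring,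
      show -(a + s') = -a - s' by ring, show -(a - s') = -a + s' by ring]
    linarith [mul_comm (g (-a + s)) (g (-a - s)), mul_comm (g (-a + s')) (g (-a - s'))]
  conv a s₁ s₂ s₃ h0 h1 h2 := by
    have := hg.conv (-a) s₁ s₂ s₃ h0 h1 h2
    rw [show -(a + s₁) = -a - s₁ by ring, show -(a - s₁) = -a + s₁ by ring,
      show -(a + s₂) = -a - s₂ by ring, show -(a - s₂) = -a + s₂ by ring,
      show -(a + s₃) = -a - s₃ by ring, show -(a - s₃) = -a + s₃ by ring]
    rw [mul_comm (g (-a - s₁)), mul_comm (g (-a - s₂)), mul_comm (g (-a - s₃))]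
    exact this

/-- extending integrability from `Iic x₀` to `Iic 0` -/
lemma extend {h : ℝ → ℝ} (hc : Continuous h) {x₀ : ℝ} (y : ℝ) (hi : IntegrableOn h (Iic x₀)) :
    IntegrableOn h (Iic y) := by
  have h1 : IntegrableOn h (Icc x₀ y) := hc.continuousOn.integrableOn_compact isCompact_Icc
  refine (hi.union h1).mono_set ?_
  intro x hx
  rcases le_total x x₀ with h | h
  · exact Or.inl h
  · exact Or.inr ⟨h, hx⟩

/-- if the ratio at one point is small, the exponential integral converges -/
lemma conv_of_ratio (hg : Good g) {κ t c x₀ : ℝ} (hc : 0 < c)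
    (h : g (x₀ - c) < Real.exp (t * κ * c) * g x₀) :
    t ∈ integrableExpSet (X κ) (mS g (Iic 0)) := by
  rw [mem_iff hg.cont.measurable (fun s => (hg.pos s).le)]
  have hcont : Continuous (fun s => Real.exp (t * (κ * s)) * g s) := by
    have := hg.cont
    fun_prop
  refine extend hcont (x₀ := x₀) 0 ?_
  have hg0 := hg.pos x₀
  have hg1 := hg.pos (x₀ - c)
  refine geom hcont (fun x => by have := (hg.pos x).le; positivity) (c := c)
    (θ := Real.exp (-(t * κ * c)) * (g (x₀ - c) / g x₀)) hc (by positivity) ?_ ?_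
  · rw [← mul_div_assoc, div_lt_one hg0, ← lt_div_iff₀' (Real.exp_pos _), Real.exp_neg, div_inv_eq_mul,
      mul_comm]
    exact h
  · intro x hx
    have h1 := ratio_mono hg hx hc.le
    have h2 : g (x - c) ≤ g (x₀ - c) / g x₀ * g x := by
      rw [div_mul_eq_mul_div, le_div_iff₀ hg0]
      linarith
    have e1 : Real.exp (t * (κ * (x - c))) = Real.exp (-(t * κ * c)) * Real.exp (t * (κ * x)) := by
      rw [← Real.exp_add]; congr 1; ring
    rw [e1]
    calc Real.exp (-(t * κ * c)) * Real.exp (t * (κ * x)) * g (x - c)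
        ≤ Real.exp (-(t * κ * c)) * Real.exp (t * (κ * x)) * (g (x₀ - c) / g x₀ * g x) := by gcongr
      _ = _ := by ring

/-- if the exponential integral converges, some ratio is small -/
lemma ratio_of_conv (hg : Good g) {κ t c : ℝ} (hc : 0 < c)
    (h : t ∈ integrableExpSet (X κ) (mS g (Iic 0))) :
    ∃ x, g (x - c) < Real.exp (t * κ * c) * g x := by
  rw [mem_iff hg.cont.measurable (fun s => (hg.pos s).le)] at h
  have hcont : Continuous (fun s => Real.exp (t * (κ * s)) * g s) := by
    have := hg.cont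
    fun_prop
  obtain ⟨x, -, hx⟩ := exists_lt hcont (fun x => by have := hg.pos x; positivity) hc h
  refine ⟨x, ?_⟩
  have e1 : Real.exp (t * (κ * (x - c))) = Real.exp (-(t * κ * c)) * Real.exp (t * (κ * x)) := by
    rw [← Real.exp_add]; congr 1; ring
  rw [e1] at hx
  have h2 : Real.exp (-(t * κ * c)) * g (x - c) < g x := by
    have h3 : Real.exp (t * (κ * x)) * (Real.exp (-(t * κ * c)) * g (x - c)) <
        Real.exp (t * (κ * x)) * g x := by linarith
    exact lt_of_mul_lt_mul_left h3 (Real.exp_pos _).le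
  rw [Real.exp_neg, inv_mul_lt_iff₀ (Real.exp_pos _)] at h2
  exact h2

/-- exponential decay at `-∞` -/
lemma left_decay (hg : Good g) {κ : ℝ} (hκ : 0 < κ) :
    ∃ t₀ > 0, ∀ t, -t₀ < t → t ∈ integrableExpSet (X κ) (mS g (Iic 0)) := by
  obtain ⟨x, -, hx⟩ := exists_lt hg.cont hg.pos one_pos (hg.int.integrableOn (s := Iic 0))
  have hx0 := hg.pos x
  have hx1 := hg.pos (x - 1)
  have hlog : Real.log (g (x - 1) / g x) < 0 := Real.log_neg (by positivity) ((div_lt_one hx0).2 hx)
  refine ⟨-Real.log (g (x - 1) / g x) / κ, by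
    apply div_pos _ hκ; linarith, fun t ht => conv_of_ratio hg one_pos (x₀ := x) ?_⟩
  have h1 : Real.log (g (x - 1) / g x) < t * κ := by
    rw [neg_div, neg_neg, div_lt_iff₀ hκ] at ht
    exact ht
  have h2 : g (x - 1) / g x < Real.exp (t * κ) := by
    rw [← Real.log_lt_iff_lt_exp (by positivity)]
    exact h1
  rw [div_lt_iff₀ hx0] at h2
  rwa [mul_one]

/-- exponential decay at `+∞` -/
lemma right_decay (hg : Good g) {κ : ℝ} (hκ : 0 < κ) :
    ∃ t₀ > 0, ∀ t, t < t₀ → t ∈ integrableExpSet (X κ) (mS g (Ioi 0)) := by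
  obtain ⟨t₀, ht₀, h⟩ := left_decay (comp_neg hg) hκ
  refine ⟨t₀, ht₀, fun t ht => ?_⟩
  have h1 := h (-t) (by linarith)
  rw [mem_iff (comp_neg hg).cont.measurable (fun s => ((comp_neg hg).pos s).le)] at h1
  rw [mem_iff hg.cont.measurable (fun s => (hg.pos s).le)]
  have h2 : IntegrableOn ((fun s => Real.exp (t * (κ * s)) * g s) ∘ Neg.neg) (Neg.neg ⁻¹' (Ici 0)) := by
    have e1 : (Neg.neg ⁻¹' (Ici (0 : ℝ)) : Set ℝ) = Iic 0 := by ext x; simp
    rw [e1]
    refine h1.congr_fun (fun s _ => ?_) measurableSet_Iic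
    simp only [Function.comp_apply]
    congr 2
    ring
  rw [(Measure.measurePreserving_neg volume).integrableOn_comp_preimage
    (MeasurableEquiv.neg ℝ).measurableEmbedding] at h2
  exact h2.mono_set Ioi_subset_Ici_self

end Q297.ChG
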