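import Mathlib

/-!
Growth lemmas for positive continuous functions on half lines, and moment generating functions of
measures with a density.
-/

open MeasureTheory ProbabilityTheory Set Filter Topology
open scoped ENNReal NNReal

namespace Q297.ChH

/-- an integrable positive function cannot increase along every backward step -/
lemma exists_lt {h : ℝ → ℝ} (hc : Continuous h) (hpos : ∀ x, 0 < h x) {c x₀ : ℝ} (hcp : 0 < c)
    (hint : IntegrableOn h (Iic x₀)) : ∃ x ≤ x₀, h (x - c) < h x := by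
  by_contra hcon
  push Not at hcon
  obtain ⟨xm, -, hmin⟩ := isCompact_Icc.exists_isMinOn
    (nonempty_Icc.2 (show x₀ - c ≤ x₀ by linarith)) hc.continuousOn
  have key : ∀ n : ℕ, ∀ x, x₀ - (n + 1) * c ≤ x → x ≤ x₀ → h xm ≤ h x := by
    intro n
    induction n with
    | zero =>
      intro x h1 h2
      exact hmin ⟨by simpa using h1, h2⟩
    | succ n ih =>
      intro x h1 h2
      rcases le_or_gt (x₀ - (n + 1) * c) x with h3 | h3
      · exact ih x h3 h2
      · push_cast at h1
        have hn : (0 : ℝ) ≤ n * c := by positivity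
        have h4 : x + c ≤ x₀ := by nlinarith
        have h5 := ih (x + c) (by nlinarith) h4
        have h6 := hcon (x + c) h4
        rw [add_sub_cancel_right] at h6
        exact h5.trans h6
  have all : ∀ x ≤ x₀, h xm ≤ h x := by
    intro x hx
    obtain ⟨n, hn⟩ := exists_nat_ge ((x₀ - x) / c)
    refine key n x ?_ hx
    rw [div_le_iff₀ hcp] at hn
    nlinarith
  have h1 := (show Integrable h (volume.restrict (Iic x₀)) from hint).measure_norm_ge_lt_top (hpos xm)
  have h2 : Iic x₀ ⊆ {x | h xm ≤ ‖h x‖} := fun x hx => by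
    have := all x hx
    show h xm ≤ ‖h x‖
    rw [Real.norm_eq_abs, abs_of_pos (hpos x)]
    exact this
  have h3 : (volume.restrict (Iic x₀)) (Iic x₀) < ∞ := (measure_mono h2).trans_lt h1
  rw [Measure.restrict_apply_self, Real.volume_Iic] at h3
  exact lt_irrefl _ h3

/-- geometric decay along backward steps gives integrability -/
lemma geom {h : ℝ → ℝ} (hc : Continuous h) (hnn : ∀ x, 0 ≤ h x) {c x₀ θ : ℝ} (hcp : 0 < c)
    (hθ0 : 0 < θ) (hθ : θ < 1) (hle : ∀ x ≤ x₀, h (x - c) ≤ θ * h x) : IntegrableOn h (Iic x₀) := by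
  obtain ⟨xM, -, hmax⟩ := isCompact_Icc.exists_isMaxOn
    (nonempty_Icc.2 (show x₀ - c ≤ x₀ by linarith)) hc.continuousOn
  have key : ∀ n : ℕ, ∀ x, x₀ - (n + 1) * c ≤ x → x ≤ x₀ - n * c → h x ≤ θ ^ n * h xM := by
    intro n
    induction n with
    | zero =>
      intro x h1 h2
      simpa using hmax ⟨by simpa using h1, by simpa using h2⟩
    | succ n ih =>
      intro x h1 h2
      push_cast at h1 h2
      have hn : (0 : ℝ) ≤ n * c := by positivity
      have h3 := ih (x + c) (by nlinarith) (by nlinarith)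
      have h4 := hle (x + c) (by nlinarith)
      rw [add_sub_cancel_right] at h4
      calc h x ≤ θ * h (x + c) := h4
        _ ≤ θ * (θ ^ n * h xM) := by gcongr
        _ = θ ^ (n + 1) * h xM := by ring
  set b : ℝ := -Real.log θ / c with hb
  have hlog : Real.log θ < 0 := Real.log_neg hθ0 hθ
  have hbp : 0 < b := div_pos (by linarith) hcp
  have hbound : ∀ x ≤ x₀, h x ≤ (θ⁻¹ * Real.exp (-b * x₀) * h xM) * Real.exp (b * x) := by
    intro x hx
    set n := ⌊(x₀ - x) / c⌋₊ with hn
    have h0 : 0 ≤ (x₀ - x) / c := div_nonneg (by linarith) hcp.le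
    have h1 : (n : ℝ) ≤ (x₀ - x) / c := Nat.floor_le h0
    have h2 : (x₀ - x) / c < n + 1 := Nat.lt_floor_add_one _
    rw [le_div_iff₀ hcp] at h1
    rw [div_lt_iff₀ hcp] at h2
    have h3 := key n x (by linarith) (by linarith)
    have h4 : θ ^ n ≤ θ⁻¹ * Real.exp (-b * x₀) * Real.exp (b * x) := by
      have e1 : θ ^ n = Real.exp (n * Real.log θ) := by
        rw [mul_comm, Real.exp_mul, Real.exp_log hθ0, Real.rpow_natCast]
      have e2 : θ⁻¹ = Real.exp (-Real.log θ) := by rw [Real.exp_neg, Real.exp_log hθ0]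
      rw [e1, e2, ← Real.exp_add, ← Real.exp_add, Real.exp_le_exp, hb]
      have h5 : (x₀ - x) / c - 1 ≤ n := by
        rw [tsub_le_iff_right, div_le_iff₀ hcp]; linarith
      have h6 : (n : ℝ) * Real.log θ ≤ ((x₀ - x) / c - 1) * Real.log θ :=
        mul_le_mul_of_nonpos_right h5 hlog.le
      refine h6.trans (le_of_eq ?_)
      field_simp
      ring
    have h5 : 0 ≤ h xM := hnn _
    calc h x ≤ θ ^ n * h xM := h3
      _ ≤ (θ⁻¹ * Real.exp (-b * x₀) * Real.exp (b * x)) * h xM := by gcongr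
      _ = _ := by ring
  have hi : IntegrableOn (fun x => (θ⁻¹ * Real.exp (-b * x₀) * h xM) * Real.exp (b * x)) (Iic x₀) :=
    (integrableOn_exp_mul_Iic hbp x₀).const_mul _
  refine Integrable.mono' hi hc.aestronglyMeasurable.restrict ?_
  rw [ae_restrict_iff' measurableSet_Iic]
  refine Eventually.of_forall fun x hx => ?_
  rw [Real.norm_eq_abs, abs_of_nonneg (hnn x)]
  exact hbound x hx

/-- measure with density `d` on `S` -/
noncomputable def mS (d : ℝ → ℝ) (S : Set ℝ) : Measure ℝ :=
  (volume.restrict S).withDensity fun s => ENNReal.ofReal (d s)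

/-- the scaled coordinate -/
def X (κ : ℝ) (s : ℝ) : ℝ := κ * s

lemma measurable_X (κ : ℝ) : Measurable (X κ) := measurable_const.mul measurable_id

lemma mem_iff {d : ℝ → ℝ} (hd : Measurable d) (hnn : ∀ s, 0 ≤ d s) (S : Set ℝ) (κ t : ℝ) :
    t ∈ integrableExpSet (X κ) (mS d S) ↔ IntegrableOn (fun s => Real.exp (t * (κ * s)) * d s) S := by
  unfold integrableExpSet mS
  rw [mem_ofPred_eq, integrable_withDensity_iff_integrable_smul' hd.ennreal_ofReal
    (Eventually.of_forall fun s => ENNReal.ofReal_lt_top)]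
  unfold IntegrableOn
  refine integrable_congr (Eventually.of_forall fun s => ?_)
  simp only [smul_eq_mul, X]
  rw [ENNReal.toReal_ofReal (hnn s), mul_comm]

lemma mgf_eq {d : ℝ → ℝ} (hd : Measurable d) (hnn : ∀ s, 0 ≤ d s) (S : Set ℝ) (κ t : ℝ) :
    mgf (X κ) (mS d S) t = ∫ s in S, Real.exp (t * (κ * s)) * d s := by
  unfold mgf mS
  rw [integral_withDensity_eq_integral_toReal_smul hd.ennreal_ofReal
    (Eventually.of_forall fun s => ENNReal.ofReal_lt_top)]
  refine integral_congr_ae (Eventually.of_forall fun s => ?_)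
  simp only [smul_eq_mul, X]
  rw [ENNReal.toReal_ofReal (hnn s), mul_comm]

lemma complexMGF_eq {d : ℝ → ℝ} (hd : Measurable d) (hnn : ∀ s, 0 ≤ d s) (S : Set ℝ) (κ : ℝ) (z : ℂ) :
    complexMGF (X κ) (mS d S) z = ∫ s in S, Complex.exp (z * (κ * s)) * (d s : ℂ) := by
  unfold complexMGF mS
  rw [integral_withDensity_eq_integral_toReal_smul hd.ennreal_ofReal
    (Eventually.of_forall fun s => ENNReal.ofReal_lt_top)]
  refine integral_congr_ae (Eventually.of_forall fun s => ?_)
  simp only [X]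
  rw [ENNReal.toReal_ofReal (hnn s), Complex.real_smul, mul_comm]
  push_cast
  rfl

lemma ae_nonpos {d : ℝ → ℝ} {κ : ℝ} (hκ : 0 < κ) : ∀ᵐ s ∂(mS d (Iic 0)), X κ s ≤ 0 := by
  refine (withDensity_absolutelyContinuous _ _).ae_le ?_
  change ∀ᵐ s ∂(volume.restrict (Iic 0)), X κ s ≤ 0
  rw [ae_restrict_iff' measurableSet_Iic]
  refine Eventually.of_forall fun s hs => ?_
  exact mul_nonpos_of_nonneg_of_nonpos hκ.le hs

end Q297.ChH
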