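import Mathlib

/-!
Landau's theorem for the moment generating function of a nonpositive random variable: it has a
singularity at the boundary of the domain of convergence.
-/

open MeasureTheory ProbabilityTheory Set Filter Topology
open scoped ENNReal NNReal Nat

namespace Q297.ChL

variable {Ω : Type*} [MeasurableSpace Ω] {μ : Measure Ω} {X : Ω → ℝ}

/-- the domain of convergence is an upper set -/
lemma mem_of_le (hX : Measurable X) (hneg : ∀ᵐ ω ∂μ, X ω ≤ 0) {s t : ℝ} (hst : s ≤ t)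
    (hs : s ∈ integrableExpSet X μ) : t ∈ integrableExpSet X μ := by
  have hs' : Integrable (fun ω => Real.exp (s * X ω)) μ := hs
  refine Integrable.mono' hs' (by fun_prop) ?_
  filter_upwards [hneg] with ω hω
  rw [Real.norm_eq_abs, abs_of_pos (Real.exp_pos _)]
  exact Real.exp_le_exp.2 (mul_le_mul_of_nonpos_right hst hω)

theorem local_landau (hX : Measurable X) (hneg : ∀ᵐ ω ∂μ, X ω ≤ 0) {ψ : ℝ → ℝ} {σ δ : ℝ}
    (hδ : 0 < δ) (hψ : AnalyticAt ℝ ψ σ) (hint : ∀ t, σ < t → t ∈ integrableExpSet X μ)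
    (heq : ∀ t ∈ Ioo σ (σ + δ), mgf X μ t = ψ t) : ∃ ε > 0, σ - ε ∈ integrableExpSet X μ := by
  obtain ⟨p, r, hp⟩ := hψ
  obtain ⟨r', hr'0, hr'⟩ : ∃ r' : ℝ≥0, 0 < r' ∧ (r' : ℝ≥0∞) ≤ r := by
    have h1 := hp.r_pos
    obtain ⟨q, hq1, hq2⟩ := ENNReal.lt_iff_exists_nnreal_btwn.1 h1
    exact ⟨q, by exact_mod_cast hq1, hq2.le⟩
  have hp' : HasFPowerSeriesOnBall ψ p σ r' := hp.mono (by exact_mod_cast hr'0) hr'
  set h : ℝ := min ((r' : ℝ) / 4) (δ / 2) with hh
  have hr'R : (0 : ℝ) < r' := by exact_mod_cast hr'0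
  have hpos : 0 < h := lt_min (by positivity) (by positivity)
  have hle : h ≤ (r' : ℝ) / 4 := min_le_left _ _
  have hle2 : h ≤ δ / 2 := min_le_right _ _
  have hnn : ‖h‖₊ = Real.toNNReal h := by
    rw [← Real.toNNReal_eq_nnnorm_of_nonneg hpos.le]
  have hball : (‖h‖₊ : ℝ≥0∞) < (r' : ℝ≥0∞) := by
    rw [hnn]
    exact_mod_cast (Real.toNNReal_lt_iff_lt_coe hpos.le).2 (by linarith)
  have hq := hp'.changeOrigin hball
  set t₁ := σ + h with ht₁
  have hmem : t₁ ∈ interior (integrableExpSet X μ) := by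
    rw [mem_interior_iff_mem_nhds]
    filter_upwards [lt_mem_nhds (show σ < t₁ by linarith)] with t ht using hint t ht
  have hm := hasFPowerSeriesAt_mgf (X := X) (μ := μ) hmem
  set c : ℕ → ℝ := fun n => (μ[fun ω ↦ X ω ^ n * Real.exp (t₁ * X ω)] : ℝ) / n ! with hc
  have hev : ∀ᶠ z in 𝓝 t₁, mgf X μ z = ψ z := by
    filter_upwards [Ioo_mem_nhds (show σ < t₁ by linarith) (show t₁ < σ + δ by linarith)] with z hz
    exact heq z hz
  have hcoef : FormalMultilinearSeries.ofScalars ℝ c = p.changeOrigin h :=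
    hm.eq_formalMultilinearSeries_of_eventually hq.hasFPowerSeriesAt hev
  -- summability
  have hsum : Summable (fun n => |c n| * (2 * h) ^ n) := by
    have hrad : ((Real.toNNReal (2 * h) : ℝ≥0) : ℝ≥0∞) < (p.changeOrigin h).radius := by
      refine lt_of_lt_of_le ?_ hq.r_le
      rw [hnn]
      have e1 : (r' : ℝ≥0∞) - (Real.toNNReal h : ℝ≥0) = ((r' - Real.toNNReal h : ℝ≥0) : ℝ≥0∞) := by
        norm_cast
      rw [e1]
      have : Real.toNNReal (2 * h) < r' - Real.toNNReal h := by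
        rw [lt_tsub_iff_right, ← Real.toNNReal_add (by positivity) hpos.le]
        exact (Real.toNNReal_lt_iff_lt_coe (by positivity)).2 (by linarith)
      exact_mod_cast this
    have h1 := (p.changeOrigin h).summable_norm_mul_pow hrad
    refine h1.congr fun n => ?_
    rw [← hcoef, FormalMultilinearSeries.ofScalars_norm, Real.norm_eq_abs,
      Real.coe_toNNReal _ (by positivity)]
  refine ⟨h, hpos, ?_⟩
  have hgoal : σ - h = t₁ - 2 * h := by rw [ht₁]; ring
  rw [hgoal]
  -- integrability of the moments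
  have hmom : ∀ n : ℕ, Integrable (fun ω => X ω ^ n * Real.exp (t₁ * X ω)) μ := fun n =>
    integrable_pow_mul_exp_of_mem_interior_integrableExpSet hmem n
  have hterm : ∀ n : ℕ, ∫⁻ ω, ENNReal.ofReal ((2 * h) ^ n * |X ω| ^ n / n ! * Real.exp (t₁ * X ω)) ∂μ =
      ENNReal.ofReal (|c n| * (2 * h) ^ n) := by
    intro n
    have e0 : ∀ᵐ ω ∂μ, (2 * h) ^ n * |X ω| ^ n / n ! * Real.exp (t₁ * X ω) =
        ((-1) ^ n * (2 * h) ^ n / n !) * (X ω ^ n * Real.exp (t₁ * X ω)) := by
      filter_upwards [hneg] with ω hω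
      rw [abs_of_nonpos hω, neg_pow]
      ring
    have e1 : Integrable (fun ω => (2 * h) ^ n * |X ω| ^ n / n ! * Real.exp (t₁ * X ω)) μ :=
      ((hmom n).const_mul _).congr (e0.mono fun ω hω => hω.symm)
    rw [← ofReal_integral_eq_lintegral_ofReal e1 (Eventually.of_forall fun ω => by positivity)]
    congr 1
    rw [integral_congr_ae e0, integral_const_mul]
    have hnonneg : 0 ≤ ((-1) ^ n * (2 * h) ^ n / n !) * ∫ ω, X ω ^ n * Real.exp (t₁ * X ω) ∂μ := by
      rw [← integral_const_mul, ← integral_congr_ae e0]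
      exact integral_nonneg fun ω => by positivity
    rw [← abs_of_nonneg hnonneg, abs_mul, abs_div, abs_mul, abs_pow, abs_neg, abs_one, one_pow,
      one_mul, abs_of_pos (show (0 : ℝ) < (2 * h) ^ n by positivity), hc]
    simp only [abs_div]
    ring
  have hint2 : ∫⁻ ω, ENNReal.ofReal (Real.exp ((t₁ - 2 * h) * X ω)) ∂μ < ∞ := by
    have e2 : ∫⁻ ω, ENNReal.ofReal (Real.exp ((t₁ - 2 * h) * X ω)) ∂μ =
        ∑' n : ℕ, ∫⁻ ω, ENNReal.ofReal ((2 * h) ^ n * |X ω| ^ n / n ! * Real.exp (t₁ * X ω)) ∂μ := by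
      rw [← lintegral_tsum (fun n => by fun_prop)]
      refine lintegral_congr_ae ?_
      filter_upwards [hneg] with ω hω
      have hs : HasSum (fun n : ℕ => (2 * h) ^ n * |X ω| ^ n / n ! * Real.exp (t₁ * X ω))
          (Real.exp ((t₁ - 2 * h) * X ω)) := by
        have h1 : HasSum (fun n : ℕ => (2 * h * |X ω|) ^ n / n !) (Real.exp (2 * h * |X ω|)) := by
          rw [Real.exp_eq_exp_ℝ]
          exact NormedSpace.expSeries_div_hasSum_exp _
        have h2 := h1.mul_right (Real.exp (t₁ * X ω))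
        rw [← Real.exp_add] at h2
        have e3 : 2 * h * |X ω| + t₁ * X ω = (t₁ - 2 * h) * X ω := by
          rw [abs_of_nonpos hω]; ring
        rw [e3] at h2
        simpa only [mul_pow] using h2
      rw [← hs.tsum_eq, ENNReal.ofReal_tsum_of_nonneg (fun n => by positivity) hs.summable]
    rw [e2]
    simp_rw [hterm]
    rw [← ENNReal.ofReal_tsum_of_nonneg (fun n => by positivity) hsum]
    exact ENNReal.ofReal_lt_top
  refine ⟨by fun_prop, ?_⟩
  rw [hasFiniteIntegral_iff_ofReal (Eventually.of_forall fun ω => (Real.exp_pos _).le)]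
  exact hint2

/-- **Landau's theorem.** If the moment generating function of `X ≤ 0` agrees near the right end
of an interval with a function that is real analytic on the whole interval, then it is finite and
agrees with this function on the whole interval. -/
theorem landau (hX : Measurable X) (hneg : ∀ᵐ ω ∂μ, X ω ≤ 0) {ψ : ℝ → ℝ} {A B t₁ : ℝ}
    (hAt : A < t₁) (htB : t₁ < B) (hψ : AnalyticOnNhd ℝ ψ (Ioo A B))
    (hint : ∀ t, t₁ < t → t ∈ integrableExpSet X μ)
    (heq : ∀ t ∈ Ioo t₁ B, mgf X μ t = ψ t) :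
    (∀ t, A < t → t ∈ integrableExpSet X μ) ∧ ∀ t ∈ Ioo A B, mgf X μ t = ψ t := by
  have ident : ∀ σ, A ≤ σ → σ ≤ t₁ → (∀ t, σ < t → t ∈ integrableExpSet X μ) →
      ∀ t ∈ Ioo σ B, mgf X μ t = ψ t := by
    intro σ hAσ hσt hσ
    have hint' : Ioo σ B ⊆ interior (integrableExpSet X μ) := by
      refine interior_maximal ?_ isOpen_Ioo
      intro t ht
      exact hσ t ht.1
    have h1 : AnalyticOnNhd ℝ (mgf X μ) (Ioo σ B) := analyticOnNhd_mgf.mono hint'
    have h2 : AnalyticOnNhd ℝ ψ (Ioo σ B) := hψ.mono (Ioo_subset_Ioo_left hAσ)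
    have hmid : (t₁ + B) / 2 ∈ Ioo σ B := ⟨by linarith, by linarith⟩
    have h3 : mgf X μ =ᶠ[𝓝 ((t₁ + B) / 2)] ψ := by
      filter_upwards [Ioo_mem_nhds (show t₁ < (t₁ + B) / 2 by linarith)
        (show (t₁ + B) / 2 < B by linarith)] with t ht using heq t ht
    exact h1.eqOn_of_preconnected_of_eventuallyEq h2 isPreconnected_Ioo hmid h3
  have main : ∀ t, A < t → t ∈ integrableExpSet X μ := by
    by_contra hcon
    push Not at hcon
    obtain ⟨t₀, hAt₀, ht₀⟩ := hcon
    set E := integrableExpSet X μ with hE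
    have hne : E.Nonempty := ⟨t₁ + 1, hint _ (by linarith)⟩
    have hlow : ∀ t ∈ E, t₀ ≤ t := by
      intro t ht
      by_contra hlt
      push Not at hlt
      exact ht₀ (mem_of_le hX hneg hlt.le ht)
    have hbdd : BddBelow E := ⟨t₀, hlow⟩
    set σ := sInf E with hσ
    have h1 : t₀ ≤ σ := le_csInf hne hlow
    have h2 : σ ≤ t₁ := by
      refine le_of_forall_pos_le_add fun ε hε => ?_
      exact csInf_le hbdd (hint _ (by linarith))
    have h3 : ∀ t, σ < t → t ∈ E := by
      intro t ht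
      obtain ⟨e, he, het⟩ := exists_lt_of_csInf_lt hne ht
      exact mem_of_le hX hneg het.le he
    have h4 := ident σ (hAt₀.le.trans h1) h2 h3
    obtain ⟨ε, hε, hmem⟩ := local_landau hX hneg (δ := B - σ) (by linarith)
      (hψ σ ⟨lt_of_lt_of_le hAt₀ h1, by linarith⟩) h3 (fun t ht => h4 t ⟨ht.1, by linarith [ht.2]⟩)
    have h5 : σ ≤ σ - ε := csInf_le hbdd hmem
    linarith
  exact ⟨main, ident A le_rfl hAt.le main⟩

end Q297.ChL
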