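import Pool.Agent.Q297.ChLandau
import Pool.Agent.Q297.ChAiry
import Pool.Agent.Q297.ChG

/-!
The main argument: the function with transform `κ / Ai (i λ / κ)` is not good.
-/

open MeasureTheory ProbabilityTheory Set Filter Topology
open scoped ENNReal NNReal
open Q297.ChH Q297.ChG Q297.ChA
open Pool.Agent.H140R2.FR (Ai Ai_ne_zero Ai_differentiable)

namespace Q297.ChM

lemma not_integrableOn_ge {h : ℝ → ℝ} {S T : Set ℝ} {c : ℝ} (hc : 0 < c) (hT : MeasurableSet T)
    (hTS : T ⊆ S) (hinf : volume T = ∞) (hge : ∀ x ∈ T, c ≤ h x) : ¬ IntegrableOn h S := by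
  intro hi
  have hi' := hi.mono_set hTS
  have h1 := (show Integrable h (volume.restrict T) from hi').measure_norm_ge_lt_top hc
  have h2 : T ⊆ {x | c ≤ ‖h x‖} := fun x hx => (hge x hx).trans (le_abs_self _)
  have h3 : (volume.restrict T) T < ∞ := (measure_mono h2).trans_lt h1
  rw [Measure.restrict_apply_self, hinf] at h3
  exact lt_irrefl _ h3

/-- identity of the transforms on a real interval -/
lemma transform {g : ℝ → ℝ} (hg : Good g) {κ t₀ : ℝ} (hκ : 0 < κ) (ht₀ : 0 < t₀)
    (hE : ∀ t, -t₀ < t → t < t₀ → t ∈ integrableExpSet (X κ) (mS g univ))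
    (hft : ∀ l : ℝ, ∫ s : ℝ, Complex.exp (Complex.I * l * s) * (g s : ℂ) =
      (κ : ℂ) / Ai (Complex.I * (l / κ))) :
    ∀ t, -t₀ < t → t < t₀ → mgf (X κ) (mS g univ) t * a t = κ := by
  set U : Set ℂ := {w : ℂ | w.re ∈ Ioo (-t₀) t₀} with hU
  have hUE : U ⊆ {w : ℂ | w.re ∈ interior (integrableExpSet (X κ) (mS g univ))} := by
    intro w hw
    exact interior_maximal (fun t ht => hE t ht.1 ht.2) isOpen_Ioo hw
  have hA : AnalyticOnNhd ℂ (fun w => complexMGF (X κ) (mS g univ) w * Ai w - κ) U := by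
    intro w hw
    exact ((analyticAt_complexMGF (hUE hw)).mul (Ai_differentiable.analyticAt w)).sub
      analyticAt_const
  have hconn : IsPreconnected U := by
    have : Convex ℝ U := (convex_Ioo (-t₀) t₀).linear_preimage Complex.reLm
    exact this.isPreconnected
  have h0 : (0 : ℂ) ∈ U := by simp [hU, ht₀]
  have him : ∀ l : ℝ, complexMGF (X κ) (mS g univ) (l * Complex.I) * Ai (l * Complex.I) - κ = 0 := by
    intro l
    rw [complexMGF_eq hg.cont.measurable (fun s => (hg.pos s).le), Measure.restrict_univ]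
    have h1 := hft (l * κ)
    have e1 : ∀ s : ℝ, Complex.exp (↑l * Complex.I * (↑κ * ↑s)) * (g s : ℂ) =
        Complex.exp (Complex.I * ((l * κ : ℝ) : ℂ) * s) * (g s : ℂ) := by
      intro s
      congr 2
      push_cast
      ring
    simp_rw [e1]
    rw [h1]
    have hκ' : (κ : ℂ) ≠ 0 := by exact_mod_cast hκ.ne'
    have e2 : Complex.I * (((l * κ : ℝ) : ℂ) / κ) = l * Complex.I := by
      push_cast
      field_simp
    rw [e2, div_mul_cancel₀, sub_self]
    exact Ai_ne_zero _ (Or.inr (by simp))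
  have hfreq : ∃ᶠ w in 𝓝[≠] (0 : ℂ), complexMGF (X κ) (mS g univ) w * Ai w - κ = 0 := by
    have hT : Tendsto (fun l : ℝ => (l : ℂ) * Complex.I) (𝓝[≠] 0) (𝓝[≠] 0) := by
      refine tendsto_nhdsWithin_iff.2 ⟨?_, ?_⟩
      · have : Tendsto (fun l : ℝ => (l : ℂ) * Complex.I) (𝓝 0) (𝓝 (((0 : ℝ) : ℂ) * Complex.I)) :=
          (Complex.continuous_ofReal.mul continuous_const).tendsto 0
        simp only [Complex.ofReal_zero, zero_mul] at this
        exact this.mono_left nhdsWithin_le_nhds
      · filter_upwards [self_mem_nhdsWithin] with l hl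
        simpa using hl
    exact hT.frequently (Eventually.of_forall him).frequently
  have hEq := hA.eqOn_zero_of_preconnected_of_frequently_eq_zero hconn h0 hfreq
  intro t h1 h2
  have h3 := hEq (show (t : ℂ) ∈ U by simp [hU, h1, h2])
  simp only [Pi.zero_apply, complexMGF_ofReal, ofReal_a] at h3
  have h4 : ((mgf (X κ) (mS g univ) t * a t : ℝ) : ℂ) = (κ : ℂ) := by
    push_cast
    linear_combination h3
  exact_mod_cast h4

lemma mgf_nonneg' {d : ℝ → ℝ} (S : Set ℝ) (κ t : ℝ) : 0 ≤ mgf (X κ) (mS d S) t := mgf_nonneg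

/-- limits of the ratios -/
lemma ratio_limit {g : ℝ → ℝ} (hg : Good g) {κ z : ℝ}
    (hE : ∀ t, z < t → t ∈ integrableExpSet (X κ) (mS g (Iic 0)))
    (hN : ∀ t, t < z → t ∉ integrableExpSet (X κ) (mS g (Iic 0))) (s : ℝ) :
    Tendsto (fun x => g (x - s) / g x) atBot (𝓝 (Real.exp (z * κ * s))) := by
  have main : ∀ c, 0 < c → Tendsto (fun x => g (x - c) / g x) atBot (𝓝 (Real.exp (z * κ * c))) := by
    intro c hc
    have hlow : ∀ x, Real.exp (z * κ * c) * g x ≤ g (x - c) := by
      intro x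
      by_contra hlt
      push Not at hlt
      have hct : ContinuousAt (fun t => Real.exp (t * κ * c) * g x) z := by fun_prop
      have hev : ∀ᶠ t in 𝓝 z, g (x - c) < Real.exp (t * κ * c) * g x := hct.eventually (lt_mem_nhds hlt)
      have hev2 : ∀ᶠ t in 𝓝[<] z, g (x - c) < Real.exp (t * κ * c) * g x :=
        hev.filter_mono nhdsWithin_le_nhds
      obtain ⟨t, ht1, ht2⟩ := (hev2.and self_mem_nhdsWithin).exists
      exact hN t ht2 (conv_of_ratio hg hc ht1)
    rw [tendsto_order]
    constructor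
    · intro b hb
      refine Eventually.of_forall fun x => lt_of_lt_of_le hb ?_
      rw [le_div_iff₀ (hg.pos x)]
      exact hlow x
    · intro b hb
      have hct : ContinuousAt (fun t => Real.exp (t * κ * c)) z := by fun_prop
      have hev : ∀ᶠ t in 𝓝[>] z, Real.exp (t * κ * c) < b :=
        (hct.eventually (gt_mem_nhds hb)).filter_mono nhdsWithin_le_nhds
      obtain ⟨t, ht1, ht2⟩ := (hev.and self_mem_nhdsWithin).exists
      obtain ⟨x₀, hx₀⟩ := ratio_of_conv hg hc (hE t ht2)
      filter_upwards [eventually_le_atBot x₀] with x hx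
      have h1 := ratio_mono hg hx hc.le
      have h0 := hg.pos x
      have h00 := hg.pos x₀
      rw [div_lt_iff₀ h0]
      have h2 : g (x - c) * g x₀ < b * g x * g x₀ := by
        calc g (x - c) * g x₀ ≤ g x * g (x₀ - c) := h1
          _ < g x * (Real.exp (t * κ * c) * g x₀) := by gcongr
          _ ≤ g x * (b * g x₀) := by gcongr
          _ = b * g x * g x₀ := by ring
      exact lt_of_mul_lt_mul_right h2 h00.le
  rcases lt_trichotomy s 0 with hs | hs | hs
  · have h1 := main (-s) (by linarith)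
    have h2 : Tendsto (fun x : ℝ => x - s) atBot atBot := tendsto_atBot_add_const_right _ (-s) tendsto_id
    have h3 := (h1.comp h2).inv₀ (Real.exp_pos _).ne'
    have e1 : (Real.exp (z * κ * -s))⁻¹ = Real.exp (z * κ * s) := by
      rw [← Real.exp_neg]; congr 1; ring
    rw [e1] at h3
    refine h3.congr fun x => ?_
    simp only [Function.comp_apply, inv_div]
    congr 2
    ring
  · subst hs
    simp only [sub_zero, mul_zero, Real.exp_zero]
    refine tendsto_const_nhds.congr fun x => ?_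
    rw [div_self (hg.pos x).ne']
  · exact main s hs

section K

variable {g : ℝ → ℝ} (hg : Good g) {κ z : ℝ}
    (hlim : ∀ s, Tendsto (fun x => g (x - s) / g x) atBot (𝓝 (Real.exp (z * κ * s))))

include hg hlim

lemma K_anti {s₁ s₂ : ℝ} (h : s₁ ≤ s₂) :
    g s₂ * Real.exp (z * κ * s₂) ≤ g s₁ * Real.exp (z * κ * s₁) := by
  have h2a : Tendsto (fun a : ℝ => 2 * a) atBot atBot := tendsto_id.const_mul_atBot (by norm_num)
  have l1 := ((hlim s₁).comp h2a).const_mul (g s₁)
  have l2 := ((hlim s₂).comp h2a).const_mul (g s₂)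
  refine le_of_tendsto_of_tendsto l2 l1 ?_
  filter_upwards [eventually_le_atBot s₁] with a ha
  have h1 := hg.anti a (s₂ - a) (s₁ - a) (by linarith) (by linarith)
  rw [show a + (s₂ - a) = s₂ by ring, show a - (s₂ - a) = 2 * a - s₂ by ring,
    show a + (s₁ - a) = s₁ by ring, show a - (s₁ - a) = 2 * a - s₁ by ring] at h1
  simp only [Function.comp_apply]
  rw [← mul_div_assoc, ← mul_div_assoc, div_le_div_iff_of_pos_right (hg.pos _)]
  exact h1

lemma K_conv {s₁ s₂ s₃ : ℝ} (h12 : s₁ < s₂) (h23 : s₂ < s₃) :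
    (Real.exp s₃ - Real.exp s₁) * (g s₂ * Real.exp (z * κ * s₂)) ≤
    (Real.exp s₃ - Real.exp s₂) * (g s₁ * Real.exp (z * κ * s₁)) +
    (Real.exp s₂ - Real.exp s₁) * (g s₃ * Real.exp (z * κ * s₃)) := by
  have h2a : Tendsto (fun a : ℝ => 2 * a) atBot atBot := tendsto_id.const_mul_atBot (by norm_num)
  have l1 := ((hlim s₁).comp h2a).const_mul (g s₁)
  have l2 := ((hlim s₂).comp h2a).const_mul (g s₂)
  have l3 := ((hlim s₃).comp h2a).const_mul (g s₃)
  have he : ∀ s t : ℝ, Tendsto (fun a : ℝ => (Real.exp t + Real.exp (2 * a - t)) -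
      (Real.exp s + Real.exp (2 * a - s))) atBot (𝓝 (Real.exp t - Real.exp s)) := by
    intro s t
    have hz : ∀ u : ℝ, Tendsto (fun a : ℝ => Real.exp (2 * a - u)) atBot (𝓝 0) := fun u =>
      Real.tendsto_exp_atBot.comp (tendsto_atBot_add_const_right _ (-u) h2a)
    have := ((tendsto_const_nhds (x := Real.exp t)).add (hz t)).sub
      ((tendsto_const_nhds (x := Real.exp s)).add (hz s))
    simpa using this
  refine le_of_tendsto_of_tendsto ((he s₁ s₃).mul l2) (((he s₂ s₃).mul l1).add ((he s₁ s₂).mul l3)) ?_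
  filter_upwards [eventually_lt_atBot s₁] with a ha
  have h1 := hg.conv a (s₁ - a) (s₂ - a) (s₃ - a) (by linarith) (by linarith) (by linarith)
  rw [show a + (s₂ - a) = s₂ by ring, show a - (s₂ - a) = 2 * a - s₂ by ring,
    show a + (s₁ - a) = s₁ by ring, show a - (s₁ - a) = 2 * a - s₁ by ring,
    show a + (s₃ - a) = s₃ by ring, show a - (s₃ - a) = 2 * a - s₃ by ring] at h1
  have e : ∀ s : ℝ, Real.exp s + Real.exp (2 * a - s) =
      Real.exp a * (Real.exp (s - a) + Real.exp (-(s - a))) := by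
    intro s
    rw [mul_add, ← Real.exp_add, ← Real.exp_add]
    congr 2 <;> ring
  simp only [Function.comp_apply, e]
  have hga := hg.pos (2 * a)
  have hea := Real.exp_pos a
  have h2 := mul_le_mul_of_nonneg_left h1 (show 0 ≤ Real.exp a / g (2 * a) by positivity)
  calc (Real.exp a * (Real.exp (s₃ - a) + Real.exp (-(s₃ - a))) -
        Real.exp a * (Real.exp (s₁ - a) + Real.exp (-(s₁ - a)))) *
        (g s₂ * (g (2 * a - s₂) / g (2 * a)))
      = Real.exp a / g (2 * a) * ((Real.exp (s₃ - a) + Real.exp (-(s₃ - a)) -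
        (Real.exp (s₁ - a) + Real.exp (-(s₁ - a)))) * (g s₂ * g (2 * a - s₂))) := by ring
    _ ≤ _ := h2
    _ = _ := by ring

end K

end Q297.ChM
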