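import Pool.Agent.Q297.ChM

/-!
End of the proof: the contradiction.
-/

open MeasureTheory ProbabilityTheory Set Filter Topology
open scoped ENNReal NNReal
open Q297.ChH Q297.ChG Q297.ChA Q297.ChM
open Pool.Agent.H140R2.FR (Ai Ai_ne_zero Ai_differentiable)

namespace Q297.ChN

lemma mgf_neg_mono {d : ℝ → ℝ} {κ t t' : ℝ} (hκ : 0 < κ)
    (ht : t ∈ integrableExpSet (X κ) (mS d (Iic 0))) (htt : t ≤ t') :
    mgf (X κ) (mS d (Iic 0)) t' ≤ mgf (X κ) (mS d (Iic 0)) t := by
  refine integral_mono_ae (Q297.ChL.mem_of_le (measurable_X κ) (ae_nonpos hκ) htt ht) ht ?_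
  filter_upwards [ae_nonpos (d := d) hκ] with s hs
  exact Real.exp_le_exp.2 (mul_le_mul_of_nonpos_right htt hs)

theorem main {g : ℝ → ℝ} (hg : Good g) {κ : ℝ} (hκ : 5 / 4 < κ)
    (hft : ∀ l : ℝ, ∫ s : ℝ, Complex.exp (Complex.I * l * s) * (g s : ℂ) =
      (κ : ℂ) / Ai (Complex.I * (l / κ))) : False := by
  have hκ0 : 0 < κ := by linarith
  have hnn : ∀ s, 0 ≤ g s := fun s => (hg.pos s).le
  have hgm := hg.cont.measurable
  obtain ⟨z, hz, hapos, q, q2, hq, hq2, haq, hqq, hqz, hqpos⟩ := facts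
  obtain ⟨tl, htl, hL⟩ := left_decay hg hκ0
  obtain ⟨tr, htr, hR⟩ := right_decay hg hκ0
  set t₀ := min tl tr with ht₀
  have ht₀p : 0 < t₀ := lt_min htl htr
  have ht₀l : t₀ ≤ tl := min_le_left _ _
  have ht₀r : t₀ ≤ tr := min_le_right _ _
  have hU : ∀ t, t ∈ integrableExpSet (X κ) (mS g (Iic 0)) →
      t ∈ integrableExpSet (X κ) (mS g (Ioi 0)) → t ∈ integrableExpSet (X κ) (mS g univ) ∧
      mgf (X κ) (mS g univ) t = mgf (X κ) (mS g (Iic 0)) t + mgf (X κ) (mS g (Ioi 0)) t := by
    intro t h1 h2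
    rw [mem_iff hgm hnn] at h1 h2 ⊢
    rw [mgf_eq hgm hnn, mgf_eq hgm hnn, mgf_eq hgm hnn, ← Iic_union_Ioi (a := (0 : ℝ))]
    exact ⟨h1.union h2, setIntegral_union (Iic_disjoint_Ioi le_rfl) measurableSet_Ioi h1 h2⟩
  have htrans := transform hg hκ0 ht₀p (fun t h1 h2 => (hU t (hL t (by linarith)) (hR t (by linarith))).1) hft
  -- Landau for the left part
  have hR' : Iio tr ⊆ interior (integrableExpSet (X κ) (mS g (Ioi 0))) :=
    interior_maximal (fun t ht => hR t ht) isOpen_Iio
  have hψ : AnalyticOnNhd ℝ (fun t => κ / a t - mgf (X κ) (mS g (Ioi 0)) t) (Ioo z t₀) := by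
    intro t ht
    refine AnalyticAt.sub ?_ (analyticAt_mgf (hR' (show t < tr by linarith [ht.2])))
    exact analyticAt_const.div (a_analytic t (mem_univ _)) (hapos t ht.1).ne'
  obtain ⟨hE, hM⟩ := Q297.ChL.landau (measurable_X κ) (ae_nonpos hκ0) (A := z) (B := t₀) (t₁ := 0)
    hz ht₀p hψ (fun t ht => hL t (by linarith)) (by
      intro t ht
      have h1 := hU t (hL t (by linarith [ht.1])) (hR t (by linarith [ht.2]))
      have h2 := htrans t (by linarith [ht.1]) ht.2
      have h3 : a t ≠ 0 := (hapos t (by linarith [ht.1])).ne'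
      rw [h1.2] at h2
      field_simp
      linarith)
  have hMn : ∀ t ∈ Ioo z t₀, mgf (X κ) (mS g (Iic 0)) t ≤ κ / a t := by
    intro t ht
    rw [hM t ht]
    linarith [mgf_nonneg' (d := g) (Ioi 0) κ t]
  -- no convergence below z
  have hN : ∀ t, t < z → t ∉ integrableExpSet (X κ) (mS g (Iic 0)) := by
    intro t htz hmem
    have hR0 : (0 : ℝ) ∈ integrableExpSet (X κ) (mS g (Ioi 0)) := hR 0 htr
    set C := mgf (X κ) (mS g (Iic 0)) t + mgf (X κ) (mS g (Ioi 0)) 0 with hC
    have hbound : ∀ t' ∈ Ioo z 0, κ ≤ C * a t' := by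
      intro t' ht'
      have h1 := hM t' ⟨ht'.1, by linarith [ht'.2]⟩
      have h2 : mgf (X κ) (mS g (Iic 0)) t' ≤ mgf (X κ) (mS g (Iic 0)) t :=
        mgf_neg_mono hκ0 hmem (by linarith [ht'.1])
      have h3 : mgf (X κ) (mS g (Ioi 0)) t' ≤ mgf (X κ) (mS g (Ioi 0)) 0 := by
        have hm1 := hR t' (by linarith [ht'.2])
        rw [mem_iff hgm hnn] at hm1 hR0
        rw [mgf_eq hgm hnn, mgf_eq hgm hnn]
        refine setIntegral_mono_on hm1 hR0 measurableSet_Ioi fun s hs => ?_
        have hs' : 0 < s := hs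
        have : Real.exp (t' * (κ * s)) ≤ Real.exp (0 * (κ * s)) :=
          Real.exp_le_exp.2 (mul_le_mul_of_nonneg_right ht'.2.le (by positivity))
        exact mul_le_mul_of_nonneg_right this (hnn s)
      have h4 : κ / a t' ≤ C := by linarith
      have h5 := hapos t' ht'.1
      rwa [div_le_iff₀ h5] at h4
    have hcont : Tendsto (fun t' => C * a t') (𝓝[>] z) (𝓝 (C * a z)) :=
      ((a_analytic z (mem_univ _)).continuousAt.tendsto.const_mul C).mono_left nhdsWithin_le_nhds
    have hle : κ ≤ C * a z := by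
      refine ge_of_tendsto hcont ?_
      filter_upwards [Ioo_mem_nhdsGT hz] with t' ht' using hbound t' ht'
    have haz : a z = 0 := by rw [haq z]; ring
    rw [haz, mul_zero] at hle
    linarith
  have hlim := ratio_limit hg hE hN
  -- the function K
  set K : ℝ → ℝ := fun s => g s * Real.exp (z * κ * s) with hK
  have hKa : ∀ {s₁ s₂ : ℝ}, s₁ ≤ s₂ → K s₂ ≤ K s₁ := fun h => K_anti hg hlim h
  have hKc : ∀ {s₁ s₂ s₃ : ℝ}, s₁ < s₂ → s₂ < s₃ →
      (Real.exp s₃ - Real.exp s₁) * K s₂ ≤
      (Real.exp s₃ - Real.exp s₂) * K s₁ + (Real.exp s₂ - Real.exp s₁) * K s₃ :=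
    fun h h' => K_conv hg hlim h h'
  have hKcont : Continuous K := by
    have := hg.cont
    fun_prop
  have hKpos : ∀ s, 0 < K s := fun s => mul_pos (hg.pos s) (Real.exp_pos _)
  set L₀ : ℝ := κ ^ 2 / q z with hL₀
  have hL₀p : 0 < L₀ := by positivity
  have hKle0 : ∀ s ≤ 0, K s ≤ L₀ := by
    intro s hs
    have hb : ∀ t ∈ Ioo z 0, K s * Real.exp ((t - z) * κ * s) ≤ κ ^ 2 / q t := by
      intro t ht
      have htz : 0 < t - z := by linarith [ht.1]
      have hbp : 0 < (t - z) * κ := by positivity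
      have h1 := hMn t ⟨ht.1, by linarith [ht.2]⟩
      have hmem := hE t ht.1
      rw [mem_iff hgm hnn] at hmem
      rw [mgf_eq hgm hnn] at h1
      have hi1 : IntegrableOn (fun x => K s * Real.exp ((t - z) * κ * x)) (Iic s) :=
        (integrableOn_exp_mul_Iic hbp s).const_mul _
      have h2 : ∫ x in Iic s, K s * Real.exp ((t - z) * κ * x) ≤
          ∫ x in Iic 0, Real.exp (t * (κ * x)) * g x := by
        calc ∫ x in Iic s, K s * Real.exp ((t - z) * κ * x)
            ≤ ∫ x in Iic s, Real.exp (t * (κ * x)) * g x := by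
              refine setIntegral_mono_on hi1 (hmem.mono_set (Iic_subset_Iic.2 hs)) measurableSet_Iic
                fun x hx => ?_
              have h3 := hKa (show x ≤ s from hx)
              have e : Real.exp (t * (κ * x)) * g x = K x * Real.exp ((t - z) * κ * x) := by
                simp only [hK]
                rw [mul_assoc, ← Real.exp_add, mul_comm]
                congr 2
                ring
              rw [e]
              exact mul_le_mul_of_nonneg_right h3 (Real.exp_pos _).le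
          _ ≤ _ := by
              refine setIntegral_mono_set hmem ?_ (Iic_subset_Iic.2 hs).eventuallyLE
              refine (ae_restrict_iff' measurableSet_Iic).2 (Eventually.of_forall fun x _ => ?_)
              exact mul_nonneg (Real.exp_pos _).le (hnn x)
      rw [integral_const_mul, integral_exp_mul_Iic hbp] at h2
      have hqt : 0 < q t := hqpos t (by linarith [ht.1])
      have h4 : K s * (Real.exp ((t - z) * κ * s) / ((t - z) * κ)) ≤ κ / a t := h2.trans h1
      rw [haq t] at h4
      have h5 := mul_le_mul_of_nonneg_right h4 hbp.le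
      have e1 : K s * (Real.exp ((t - z) * κ * s) / ((t - z) * κ)) * ((t - z) * κ) =
          K s * Real.exp ((t - z) * κ * s) := by field_simp
      have e2 : κ / ((t - z) * q t) * ((t - z) * κ) = κ ^ 2 / q t := by field_simp
      rw [e1, e2] at h5
      exact h5
    have hl1 : Tendsto (fun t => K s * Real.exp ((t - z) * κ * s)) (𝓝[>] z) (𝓝 (K s)) := by
      have : Tendsto (fun t => K s * Real.exp ((t - z) * κ * s)) (𝓝 z)
          (𝓝 (K s * Real.exp ((z - z) * κ * s))) :=
        (show Continuous (fun t => K s * Real.exp ((t - z) * κ * s)) by fun_prop).tendsto z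
      rw [sub_self, zero_mul, zero_mul, Real.exp_zero, mul_one] at this
      exact this.mono_left nhdsWithin_le_nhds
    have hl2 : Tendsto (fun t => κ ^ 2 / q t) (𝓝[>] z) (𝓝 (κ ^ 2 / q z)) :=
      (tendsto_const_nhds.div (hq z (mem_univ _)).continuousAt.tendsto hqz.ne').mono_left
        nhdsWithin_le_nhds
    refine le_of_tendsto_of_tendsto hl1 hl2 ?_
    filter_upwards [Ioo_mem_nhdsGT hz] with t ht using hb t ht
  have hKle : ∀ s, K s ≤ L₀ := by
    intro s
    rcases le_total s 0 with h | h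
    · exact hKle0 s h
    · exact (hKa h).trans (hKle0 0 le_rfl)
  -- the deficit
  set D : ℝ → ℝ := fun s => L₀ - K s with hD
  have hDcont : Continuous D := continuous_const.sub hKcont
  have hDnn : ∀ s, 0 ≤ D s := fun s => sub_nonneg.2 (hKle s)
  have hDle : ∀ s, D s ≤ L₀ := fun s => by
    simp only [hD]; linarith [(hKpos s).le]
  have hDm := hDcont.measurable
  have hDE : ∀ τ, 0 < τ → IntegrableOn (fun s => Real.exp (τ * (κ * s)) * D s) (Iic 0) := by
    intro τ hτ
    have h1 : IntegrableOn (fun x => Real.exp ((τ * κ) * x) * L₀) (Iic 0) :=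
      (integrableOn_exp_mul_Iic (by positivity) 0).mul_const _
    refine Integrable.mono' h1 (by
      have := hDcont
      exact (show Continuous (fun s => Real.exp (τ * (κ * s)) * D s) by fun_prop).aestronglyMeasurable.restrict) ?_
    refine (ae_restrict_iff' measurableSet_Iic).2 (Eventually.of_forall fun x _ => ?_)
    rw [Real.norm_eq_abs, abs_of_nonneg (mul_nonneg (Real.exp_pos _).le (hDnn x)), mul_assoc τ κ x]
    exact mul_le_mul_of_nonneg_left (hDle x) (Real.exp_pos _).le
  have hψ2 : AnalyticOnNhd ℝ (fun τ => κ * (q2 (z + τ) / (q (z + τ) * q z)) +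
      mgf (X κ) (mS g (Ioi 0)) (z + τ)) (Ioo (-(4 / 5)) (t₀ - z)) := by
    intro τ hτ
    have hshift : AnalyticAt ℝ (fun τ : ℝ => z + τ) τ := analyticAt_const.add analyticAt_id
    have h1 : AnalyticAt ℝ (fun τ => q2 (z + τ)) τ :=
      (hq2 (z + τ) (mem_univ _)).comp_of_eq hshift rfl
    have h2 : AnalyticAt ℝ (fun τ => q (z + τ)) τ :=
      (hq (z + τ) (mem_univ _)).comp_of_eq hshift rfl
    have h3 : AnalyticAt ℝ (fun τ => mgf (X κ) (mS g (Ioi 0)) (z + τ)) τ :=
      (analyticAt_mgf (hR' (show z + τ < tr by linarith [hτ.2]))).comp_of_eq hshift rfl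
    have hne : q (z + τ) * q z ≠ 0 := by
      have := hqpos (z + τ) (by linarith [hτ.1])
      positivity
    exact (analyticAt_const.mul (h1.div (h2.mul analyticAt_const) hne)).add h3
  obtain ⟨hE2, -⟩ := Q297.ChL.landau (measurable_X κ) (ae_nonpos hκ0) (A := -(4 / 5)) (B := t₀ - z)
    (t₁ := 0) (μ := mS D (Iic 0)) (by norm_num) (by linarith) hψ2
    (fun τ hτ => (mem_iff hDm hDnn _ _ _).2 (hDE τ hτ)) (by
      intro τ hτ
      have hτ0 := hτ.1
      rw [mgf_eq hDm hDnn]
      have hmem := hE (z + τ) (by linarith)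
      rw [mem_iff hgm hnn] at hmem
      have hMz := hM (z + τ) ⟨by linarith, by linarith [hτ.2]⟩
      rw [mgf_eq hgm hnn] at hMz
      have e1 : ∫ s in Iic (0 : ℝ), Real.exp (τ * (κ * s)) * D s =
          L₀ / (τ * κ) - ∫ s in Iic (0 : ℝ), Real.exp ((z + τ) * (κ * s)) * g s := by
        have h1 : IntegrableOn (fun x => L₀ * Real.exp ((τ * κ) * x)) (Iic (0 : ℝ)) :=
          (integrableOn_exp_mul_Iic (by positivity) 0).const_mul _
        have h2 : ∀ s ∈ Iic (0 : ℝ), Real.exp (τ * (κ * s)) * D s =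
            L₀ * Real.exp ((τ * κ) * s) - Real.exp ((z + τ) * (κ * s)) * g s := by
          intro s _
          simp only [hD, hK]
          have e : Real.exp ((z + τ) * (κ * s)) = Real.exp ((τ * κ) * s) * Real.exp (z * κ * s) := by
            rw [← Real.exp_add]; congr 1; ring
          rw [e, ← mul_assoc τ κ s]
          ring
        rw [setIntegral_congr_fun measurableSet_Iic h2, integral_sub h1 hmem, integral_const_mul,
          integral_exp_mul_Iic (by positivity)]
        rw [mul_zero, Real.exp_zero]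
        ring
      rw [e1, hMz, haq (z + τ), hqq (z + τ)]
      have hqt : 0 < q (z + τ) := hqpos (z + τ) (by linarith)
      rw [hqq (z + τ)] at hqt
      rw [hL₀]
      have hne : q z + (z + τ - z) * q2 (z + τ) ≠ 0 := hqt.ne'
      have e2 : z + τ - z = τ := by ring
      rw [e2] at hne ⊢
      field_simp
      ring)
  -- the critical exponent
  have hcrit : IntegrableOn (fun s => Real.exp (-s) * D s) (Iic 0) := by
    have h1 := hE2 (-(1 / κ)) (by
      rw [neg_lt_neg_iff, div_lt_iff₀ hκ0]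
      linarith)
    rw [mem_iff hDm hDnn] at h1
    refine h1.congr_fun (fun s _ => ?_) measurableSet_Iic
    simp only
    congr 2
    field_simp
  -- some deficit is positive
  obtain ⟨s₃, hs₃⟩ : ∃ s₃, 0 < D s₃ := by
    by_contra hcon
    push Not at hcon
    refine not_integrableOn_ge (h := g) (S := univ) (T := Ici 0) hL₀p measurableSet_Ici
      (subset_univ _) Real.volume_Ici (fun x hx => ?_) hg.int.integrableOn
    have h1 := hcon x
    have h2 : L₀ ≤ K x := by simp only [hD] at h1; linarith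
    have h3 : Real.exp (z * κ * x) ≤ 1 := by
      rw [Real.exp_le_one_iff]
      have hx0 : (0 : ℝ) ≤ x := hx
      have : 0 ≤ κ * x := by positivity
      nlinarith
    calc L₀ ≤ K x := h2
      _ = g x * Real.exp (z * κ * x) := rfl
      _ ≤ g x * 1 := by gcongr; exact hnn x
      _ = g x := mul_one _
  have hlow : ∀ s₂, s₂ < s₃ → Real.exp s₂ * D s₃ ≤ Real.exp s₃ * D s₂ := by
    intro s₂ h2
    have hl : Tendsto (fun s₁ : ℝ => (Real.exp s₃ - Real.exp s₁) * K s₂) atBot
        (𝓝 ((Real.exp s₃ - 0) * K s₂)) :=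
      (tendsto_const_nhds.sub Real.tendsto_exp_atBot).mul_const _
    have hr : Tendsto (fun s₁ : ℝ => (Real.exp s₃ - Real.exp s₂) * L₀ +
        (Real.exp s₂ - Real.exp s₁) * K s₃) atBot
        (𝓝 ((Real.exp s₃ - Real.exp s₂) * L₀ + (Real.exp s₂ - 0) * K s₃)) :=
      tendsto_const_nhds.add ((tendsto_const_nhds.sub Real.tendsto_exp_atBot).mul_const _)
    have h3 : (Real.exp s₃ - 0) * K s₂ ≤
        (Real.exp s₃ - Real.exp s₂) * L₀ + (Real.exp s₂ - 0) * K s₃ := by
      refine le_of_tendsto_of_tendsto hl hr ?_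
      filter_upwards [eventually_lt_atBot s₂] with s₁ h1
      refine (hKc h1 h2).trans ?_
      have h4 : 0 ≤ Real.exp s₃ - Real.exp s₂ := sub_nonneg.2 (Real.exp_le_exp.2 h2.le)
      have := mul_le_mul_of_nonneg_left (hKle s₁) h4
      linarith
    simp only [hD]
    nlinarith
  refine not_integrableOn_ge (h := fun s => Real.exp (-s) * D s) (S := Iic 0) (T := Iio (min s₃ 0))
    (c := Real.exp (-s₃) * D s₃) (by positivity) measurableSet_Iio
    (fun x hx => show x ≤ 0 from le_of_lt (lt_of_lt_of_le (show x < min s₃ 0 from hx) (min_le_right _ _))) Real.volume_Iio (fun x hx => ?_) hcrit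
  have hx3 : x < s₃ := lt_of_lt_of_le hx (min_le_left _ _)
  have h1 := hlow x hx3
  have h2 := mul_le_mul_of_nonneg_left h1 (show 0 ≤ Real.exp (-x) * Real.exp (-s₃) by positivity)
  have e1 : Real.exp (-x) * Real.exp (-s₃) * (Real.exp x * D s₃) = Real.exp (-s₃) * D s₃ := by
    have : Real.exp (-x) * Real.exp x = 1 := by rw [← Real.exp_add]; simp
    calc _ = (Real.exp (-x) * Real.exp x) * (Real.exp (-s₃) * D s₃) := by ring
      _ = _ := by rw [this, one_mul]
  have e2 : Real.exp (-x) * Real.exp (-s₃) * (Real.exp s₃ * D x) = Real.exp (-x) * D x := by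
    have : Real.exp (-s₃) * Real.exp s₃ = 1 := by rw [← Real.exp_add]; simp
    calc _ = (Real.exp (-s₃) * Real.exp s₃) * (Real.exp (-x) * D x) := by ring
      _ = _ := by rw [this, one_mul]
  rw [e1, e2] at h2
  exact h2

end Q297.ChN
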