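import Pool.Agent.Q297.FactorDefs

open MeasureTheory Q297.Factor

namespace Q297.Chain

/-- vertices -/
abbrev V := ℤ × Fin 4

/-- partner of a vertex -/
def partner (v : V) : V :=
  if v.2 = 0 then (if v.1 % 2 = 0 then (v.1 - 1, 0) else (v.1 + 1, 0))
  else (if v.1 % 2 = 0 then (v.1 + 1, v.2) else (v.1 - 1, v.2))

lemma partner_partner (v : V) : partner (partner v) = v := by
  obtain ⟨n, i⟩ := v
  unfold partner
  by_cases hi : i = 0 <;> by_cases hn : n % 2 = 0
  · have : ¬ ((n - 1) % 2 = 0) := by omega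
    simp [hi, hn, this]
  · have : (n + 1) % 2 = 0 := by omega
    simp [hi, hn, this]
  · have : ¬ ((n + 1) % 2 = 0) := by omega
    simp [hi, hn, this]
  · have : (n - 1) % 2 = 0 := by omega
    simp [hi, hn, this]

lemma partner_snd (v : V) : (partner v).2 = v.2 := by
  obtain ⟨n, i⟩ := v
  unfold partner
  by_cases hi : i = 0 <;> by_cases hn : n % 2 = 0 <;> simp [hi, hn]

lemma partner_fst_ne (v : V) : (partner v).1 ≠ v.1 := by
  obtain ⟨n, i⟩ := v
  unfold partner
  by_cases hi : i = 0 <;> by_cases hn : n % 2 = 0 <;> simp [hi, hn]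

/-- the graph -/
def G : SimpleGraph V where
  Adj u v := (u.1 = v.1 ∧ u.2 ≠ v.2) ∨ v = partner u
  symm := by
    constructor
    rintro u v (⟨h1, h2⟩ | h)
    · left; exact ⟨h1.symm, h2.symm⟩
    · right; rw [h, partner_partner]
  loopless := by
    constructor
    rintro v (⟨_, h2⟩ | h)
    · exact h2 rfl
    · exact partner_fst_ne v (by rw [← h])

lemma adj_iff (u v : V) : G.Adj u v ↔ (u.1 = v.1 ∧ u.2 ≠ v.2) ∨ v = partner u := Iff.rfl

/-- neighbours as a finset -/
def nb (u : V) : Finset V :=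
  insert (partner u) ((Finset.univ.erase u.2).map ⟨fun j => (u.1, j), fun a b h => by
    simpa using h⟩)

lemma mem_nb (u v : V) : v ∈ nb u ↔ G.Adj u v := by
  rw [nb, Finset.mem_insert, Finset.mem_map, adj_iff]
  constructor
  · rintro (h | ⟨j, hj, rfl⟩)
    · right; exact h
    · left
      rw [Finset.mem_erase] at hj
      exact ⟨rfl, hj.1.symm⟩
  · rintro (⟨h1, h2⟩ | h)
    · right
      exact ⟨v.2, by rw [Finset.mem_erase]; exact ⟨h2.symm, Finset.mem_univ _⟩, by
        show (u.1, v.2) = v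
        rw [h1]⟩
    · left; exact h

lemma partner_notMem (u : V) : partner u ∉ ((Finset.univ.erase u.2).map
    ⟨fun j => (u.1, j), fun a b h => by simpa using h⟩ : Finset V) := by
  rw [Finset.mem_map]
  rintro ⟨j, _, hj⟩
  apply partner_fst_ne u
  rw [← hj]
  rfl

lemma nb_card (u : V) : (nb u).card = 4 := by
  rw [nb, Finset.card_insert_of_notMem (partner_notMem u), Finset.card_map,
    Finset.card_erase_of_mem (Finset.mem_univ _)]
  simp

lemma regular (u : V) : (G.neighborSet u).encard = 2 * 2 := by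
  have : G.neighborSet u = (nb u : Set V) := by
    ext v
    rw [SimpleGraph.mem_neighborSet, Finset.mem_coe, mem_nb]
  rw [this, Set.encard_coe_eq_coe_finsetCard, nb_card]
  norm_num

/-- automorphisms from permutations of the layers -/
def mkAut (e : ℤ ≃ ℤ) (h : ∀ v : V, partner (e v.1, v.2) = (e (partner v).1, (partner v).2)) :
    G ≃g G where
  toEquiv := e.prodCongr (Equiv.refl _)
  map_rel_iff' := by
    intro u v
    simp only [adj_iff, Equiv.prodCongr_apply, Equiv.coe_refl, Prod.map_fst, Prod.map_snd, id_eq,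
      EmbeddingLike.apply_eq_iff_eq]
    apply or_congr Iff.rfl
    have h1 : partner (Prod.map (⇑e) id u) = (e (partner u).1, (partner u).2) := h u
    rw [h1]
    constructor
    · intro h2
      have h3 : e v.1 = e (partner u).1 := (Prod.ext_iff.1 h2).1
      have h4 : v.2 = (partner u).2 := (Prod.ext_iff.1 h2).2
      exact Prod.ext (e.injective h3) h4
    · rintro rfl; rfl

/-- translation by `2k` layers -/
def shift (k : ℤ) : G ≃g G := mkAut (Equiv.addRight (2 * k)) (by
  rintro ⟨n, i⟩
  have h : (n + 2 * k) % 2 = n % 2 := by omega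
  unfold partner
  simp only [Equiv.coe_addRight, h]
  by_cases hi : i = 0 <;> by_cases hn : n % 2 = 0 <;> simp [hi, hn] <;> ring)

/-- reflection -/
def refl : G ≃g G := mkAut (Equiv.subLeft 1) (by
  rintro ⟨n, i⟩
  unfold partner
  simp only [Equiv.subLeft_apply]
  by_cases hi : i = 0 <;> by_cases hn : n % 2 = 0
  · have : ¬ ((1 - n) % 2 = 0) := by omega
    simp [hi, hn, this]; ring
  · have : (1 - n) % 2 = 0 := by omega
    simp [hi, hn, this]
  · have : ¬ ((1 - n) % 2 = 0) := by omega
    simp [hi, hn, this]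
  · have : (1 - n) % 2 = 0 := by omega
    simp [hi, hn, this]; ring)

lemma shift_apply (k : ℤ) (v : V) : shift k v = (v.1 + 2 * k, v.2) := rfl
lemma shift_symm_apply (k : ℤ) (v : V) : (shift k).symm v = (v.1 - 2 * k, v.2) := by
  apply (shift k).injective
  rw [RelIso.apply_symm_apply, shift_apply]
  ext <;> simp
lemma refl_apply (v : V) : refl v = (1 - v.1, v.2) := rfl
lemma refl_symm_apply (v : V) : refl.symm v = (1 - v.1, v.2) := by
  apply refl.injective
  rw [RelIso.apply_symm_apply, refl_apply]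
  ext <;> simp

lemma quasi : QuasiTransitive G := by
  refine ⟨Set.range (fun p : Fin 2 × Fin 4 => (((p.1 : ℕ) : ℤ), p.2)), Set.finite_range _, ?_⟩
  rintro ⟨n, i⟩
  refine ⟨shift (n / 2), ((n % 2), i), ⟨(⟨(n % 2).toNat, by omega⟩, i), ?_⟩, ?_⟩
  · ext
    · simp
      omega
    · rfl
  · rw [shift_apply]
    ext
    · simp only; omega
    · rfl

lemma reach_row (n : ℤ) (i j : Fin 4) : G.Reachable (n, i) (n, j) := by
  by_cases h : i = j
  · rw [h]
  · exact SimpleGraph.Adj.reachable (by rw [adj_iff]; left; exact ⟨rfl, h⟩)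

lemma reach_succ (n : ℤ) : G.Reachable (n, 0) (n + 1, 0) := by
  by_cases hn : n % 2 = 0
  · have h1 : G.Adj (n, 1) (n + 1, 1) := by
      rw [adj_iff]; right; simp [partner, hn]
    exact (reach_row n 0 1).trans (h1.reachable.trans (reach_row (n + 1) 1 0))
  · have h1 : G.Adj (n, 0) (n + 1, 0) := by
      rw [adj_iff]; right; simp [partner, hn]
    exact h1.reachable

lemma connected : G.Connected := by
  have h0 : ∀ n : ℤ, G.Reachable (0, 0) (n, 0) := by
    intro n
    induction n using Int.induction_on with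
    | zero => exact SimpleGraph.Reachable.refl _
    | succ n ih => exact ih.trans (reach_succ _)
    | pred n ih =>
      have := reach_succ (-(n:ℤ) - 1)
      rw [sub_add_cancel] at this
      exact ih.trans this.symm
  have h1 : ∀ v : V, G.Reachable (0, 0) v := fun v => (h0 v.1).trans (reach_row v.1 0 v.2)
  exact ⟨fun u v => (h1 u).symm.trans (h1 v)⟩

/-! ### The matching -/

/-- edges in no triangle -/
def triFree (u v : V) : Prop := G.Adj u v ∧ ∀ w, ¬ (G.Adj u w ∧ G.Adj w v)

lemma triFree_iff (u v : V) : triFree u v ↔ v = partner u := by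
  constructor
  · rintro ⟨h, h2⟩
    rcases h with ⟨h3, h4⟩ | h
    · exfalso
      obtain ⟨w, hw1, hw2⟩ : ∃ w : Fin 4, w ≠ u.2 ∧ w ≠ v.2 := by
        generalize u.2 = a
        generalize v.2 = b
        revert a b
        decide
      apply h2 (u.1, w)
      constructor
      · left; exact ⟨rfl, hw1.symm⟩
      · left; exact ⟨h3, hw2⟩
    · exact h
  · rintro rfl
    refine ⟨Or.inr rfl, ?_⟩
    rintro w ⟨h1, h2⟩
    rcases h1 with ⟨a1, a2⟩ | h1
    · rcases h2 with ⟨b1, b2⟩ | h2
      · exact partner_fst_ne u (by rw [← b1, ← a1])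
      · have : u = w := by
          have := congrArg partner h2
          rwa [partner_partner, partner_partner] at this
        rw [this] at a2
        exact a2 rfl
    · rw [h1] at h2
      exact G.loopless.irrefl _ h2

lemma triFree_aut (γ : G ≃g G) (u v : V) : triFree (γ.symm u) (γ.symm v) ↔ triFree u v := by
  unfold triFree
  constructor
  · rintro ⟨h1, h2⟩
    refine ⟨by simpa using γ.map_adj_iff.2 h1, fun w hw => h2 (γ.symm w) ?_⟩
    exact ⟨γ.symm.map_adj_iff.2 hw.1, γ.symm.map_adj_iff.2 hw.2⟩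
  · rintro ⟨h1, h2⟩
    refine ⟨γ.symm.map_adj_iff.2 h1, fun w hw => h2 (γ w) ?_⟩
    constructor
    · simpa using γ.map_adj_iff.2 hw.1
    · simpa using γ.map_adj_iff.2 hw.2

open Classical in
lemma exists_matching : ∃ Φ : (V → unitInterval) → V → V → Bool, IsFactor G Φ ∧
    ∀ᵐ ω ∂labels V, IsPerfectMatching G (Φ ω) := by
  refine ⟨fun _ u v => decide (triFree u v), ⟨fun u v s => by simp, ?_⟩, ?_⟩
  · intro γ ω
    funext u v
    simp only [moveDec, decide_eq_decide]
    exact (triFree_aut γ u v).symm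
  · refine Filter.Eventually.of_forall (fun _ => ⟨?_, ?_, ?_⟩)
    · intro u v h
      have : triFree u v := by simpa using h
      exact this.1
    · intro u v
      simp only [decide_eq_decide, triFree_iff]
      constructor
      · rintro rfl; rw [partner_partner]
      · rintro rfl; rw [partner_partner]
    · intro u
      refine ⟨partner u, by simp [triFree_iff], ?_⟩
      intro w hw
      simpa [triFree_iff] using hw

/-! ### No balanced orientation -/

section orient

variable {O : V → V → Bool} (h : IsBalancedOrientation G 2 O)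

/-- indicator -/
def a (O : V → V → Bool) (u v : V) : ℕ := if O u v = true then 1 else 0

include h

lemma a_pair {u v : V} (huv : G.Adj u v) : a O u v + a O v u = 1 := by
  have := h.2.1 u v huv
  unfold a
  by_cases h1 : O u v = true
  · have h2 : ¬ O v u = true := this.1 h1
    rw [if_pos h1, if_neg h2]
  · have h2 : O v u = true := by
      by_contra h3; exact h1 (this.2 h3)
    rw [if_neg h1, if_pos h2]

lemma a_self (u : V) : a O u u = 0 := by
  unfold a
  rw [if_neg]
  intro h1
  exact G.loopless.irrefl _ (h.1 u u h1)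

lemma outdeg (n : ℤ) (i : Fin 4) :
    ∑ j, a O (n, i) (n, j) + a O (n, i) (partner (n, i)) = 2 := by
  have h1 := (h.2.2 (n, i)).1
  have h2 : {w | O (n, i) w = true} = (((nb (n, i)).filter (fun w => O (n, i) w = true) : Finset V) : Set V) := by
    ext w
    rw [Finset.mem_coe, Finset.mem_filter, mem_nb]
    exact ⟨fun h3 => ⟨h.1 _ _ h3, h3⟩, fun h3 => h3.2⟩
  rw [h2, Set.encard_coe_eq_coe_finsetCard] at h1
  have h3 : ((nb (n, i)).filter (fun w => O (n, i) w = true)).card = 2 := by exact_mod_cast h1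
  rw [Finset.card_filter, nb, Finset.sum_insert (partner_notMem (n, i)), Finset.sum_map] at h3
  have h4 : ∑ j ∈ Finset.univ.erase i, a O (n, i) (n, j) = ∑ j, a O (n, i) (n, j) := by
    rw [← Finset.add_sum_erase Finset.univ (fun j => a O (n, i) (n, j)) (Finset.mem_univ i),
      a_self h, zero_add]
  rw [← h4, add_comm]
  exact h3

lemma flow (m : ℤ) : a O (2 * m - 1, 0) (2 * m, 0) = a O (2 * m + 1, 0) (2 * m + 2, 0) := by
  have e1 : (2 * m) % 2 = 0 := by omega
  have e2 : ¬ ((2 * m + 1) % 2 = 0) := by omega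
  have p0 : partner (2 * m, 0) = (2 * m - 1, 0) := by simp [partner, e1]
  have p1 : ∀ i : Fin 4, i ≠ 0 → partner (2 * m, i) = (2 * m + 1, i) := by
    intro i hi; simp [partner, e1, hi]
  have q0 : partner (2 * m + 1, 0) = (2 * m + 2, 0) := by
    simp only [partner, if_true, e2, if_false]; ext <;> simp; ring
  have q1 : ∀ i : Fin 4, i ≠ 0 → partner (2 * m + 1, i) = (2 * m, i) := by
    intro i hi
    simp only [partner, hi, e2, if_false]; ext <;> simp
  have row : ∀ (n : ℤ) (i j : Fin 4), i ≠ j → a O (n, i) (n, j) + a O (n, j) (n, i) = 1 :=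
    fun n i j hij => a_pair h (Or.inl ⟨rfl, hij⟩)
  have s : ∀ (n : ℤ) (i : Fin 4), a O (n, i) (n, i) = 0 := fun n i => a_self h _
  have o : ∀ n i, _ := outdeg h
  have oA0 := o (2 * m) 0
  have oA1 := o (2 * m) 1
  have oA2 := o (2 * m) 2
  have oA3 := o (2 * m) 3
  have oB0 := o (2 * m + 1) 0
  have oB1 := o (2 * m + 1) 1
  have oB2 := o (2 * m + 1) 2
  have oB3 := o (2 * m + 1) 3
  rw [p0] at oA0
  rw [p1 1 (by decide)] at oA1
  rw [p1 2 (by decide)] at oA2
  rw [p1 3 (by decide)] at oA3
  rw [q0] at oB0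
  rw [q1 1 (by decide)] at oB1
  rw [q1 2 (by decide)] at oB2
  rw [q1 3 (by decide)] at oB3
  rw [Fin.sum_univ_four] at oA0 oA1 oA2 oA3 oB0 oB1 oB2 oB3
  rw [s] at oA0 oA1 oA2 oA3 oB0 oB1 oB2 oB3
  have c1 : a O (2 * m, 1) (2 * m + 1, 1) + a O (2 * m + 1, 1) (2 * m, 1) = 1 :=
    a_pair h (Or.inr (p1 1 (by decide)).symm)
  have c2 : a O (2 * m, 2) (2 * m + 1, 2) + a O (2 * m + 1, 2) (2 * m, 2) = 1 :=
    a_pair h (Or.inr (p1 2 (by decide)).symm)
  have c3 : a O (2 * m, 3) (2 * m + 1, 3) + a O (2 * m + 1, 3) (2 * m, 3) = 1 :=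
    a_pair h (Or.inr (p1 3 (by decide)).symm)
  have c0 : a O (2 * m, 0) (2 * m - 1, 0) + a O (2 * m - 1, 0) (2 * m, 0) = 1 :=
    a_pair h (Or.inr p0.symm)
  have r01 := row (2 * m) 0 1 (by decide)
  have r02 := row (2 * m) 0 2 (by decide)
  have r03 := row (2 * m) 0 3 (by decide)
  have r12 := row (2 * m) 1 2 (by decide)
  have r13 := row (2 * m) 1 3 (by decide)
  have r23 := row (2 * m) 2 3 (by decide)
  have t01 := row (2 * m + 1) 0 1 (by decide)
  have t02 := row (2 * m + 1) 0 2 (by decide)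
  have t03 := row (2 * m + 1) 0 3 (by decide)
  have t12 := row (2 * m + 1) 1 2 (by decide)
  have t13 := row (2 * m + 1) 1 3 (by decide)
  have t23 := row (2 * m + 1) 2 3 (by decide)
  omega

lemma flow_all (m : ℤ) : a O (2 * m - 1, 0) (2 * m, 0) = a O (1, 0) (2, 0) := by
  induction m using Int.induction_on with
  | zero =>
    have := flow h 0
    simpa using this
  | succ n ih =>
    have := flow h n
    rw [← ih, this]
    congr 2 <;> ring
  | pred n ih =>
    have := flow h (-(n:ℤ) - 1)
    rw [← ih, this]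
    congr 2 <;> ring

end orient

theorem no_orientation : ¬ ∃ Φ : (V → unitInterval) → V → V → Bool, IsFactorAE G Φ ∧
    ∀ᵐ ω ∂labels V, IsBalancedOrientation G 2 (Φ ω) := by
  rintro ⟨Φ, hΦ, hO⟩
  set μ := labels V with hμ
  set A : Set (V → unitInterval) := {ω | Φ ω (1, 0) (2, 0) = true} with hA
  have hAm : MeasurableSet A := hΦ.measurable _ _ _
  -- relation between the two actions
  have hact : ∀ γ : G ≃g G, moveLabels γ = Q297.Bern.act (S := unitInterval) γ.toEquiv := by
    intro γ; rfl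
  have hval : ∀ {O : V → V → Bool} (_ : IsBalancedOrientation G 2 O) (m : ℤ),
      (O (2 * m - 1, 0) (2 * m, 0) = true ↔ O (1, 0) (2, 0) = true) := by
    intro O h m
    have := flow_all h m
    unfold a at this
    by_cases h1 : O (2 * m - 1, 0) (2 * m, 0) = true <;>
      by_cases h2 : O (1, 0) (2, 0) = true <;> simp_all
  have hinv : ∀ k : ℤ, (Q297.Bern.act (S := unitInterval) (shift k).toEquiv) ⁻¹' A =ᵐ[μ] A := by
    intro k
    have : ∀ᵐ ω ∂μ, (ω ∈ (Q297.Bern.act (S := unitInterval) (shift k).toEquiv) ⁻¹' A ↔ ω ∈ A) := by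
      filter_upwards [hΦ.equivariant (shift k), hO] with ω h1 h2
      rw [Set.mem_preimage, ← hact]
      show Φ (moveLabels (shift k) ω) (1, 0) (2, 0) = true ↔ Φ ω (1, 0) (2, 0) = true
      rw [h1]
      simp only [moveDec, shift_symm_apply]
      have := hval h2 (1 - k)
      have e1 : 2 * (1 - k) - 1 = 1 - 2 * k := by ring
      have e2 : 2 * (1 - k) = 2 - 2 * k := by ring
      rw [e1, e2] at this
      exact this
    exact Filter.eventuallyEq_set.2 this
  have h01 : μ.real A = 0 ∨ μ.real A = 1 := by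
    apply Q297.Bern.zero_one (volume : Measure unitInterval) hAm
    intro F
    obtain ⟨N, hN⟩ : ∃ N : ℤ, ∀ v ∈ F, |v.1| ≤ N := by
      refine ⟨∑ v ∈ F, |v.1|, fun v hv => ?_⟩
      exact Finset.single_le_sum (f := fun v : V => |v.1|) (fun _ _ => abs_nonneg _) hv
    refine ⟨(shift (N + 1)).toEquiv, ?_, hinv _⟩
    intro v hv hv'
    have h1 := hN v hv
    have h2 := hN _ hv'
    have h3 : ((shift (N + 1)).toEquiv v).1 = v.1 + 2 * (N + 1) := rfl
    rw [h3] at h2
    rw [abs_le] at h1 h2
    omega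
  have hrefl : (Q297.Bern.act (S := unitInterval) refl.toEquiv) ⁻¹' A =ᵐ[μ] Aᶜ := by
    have : ∀ᵐ ω ∂μ, (ω ∈ (Q297.Bern.act (S := unitInterval) refl.toEquiv) ⁻¹' A ↔ ω ∈ Aᶜ) := by
      filter_upwards [hΦ.equivariant refl, hO] with ω h1 h2
      rw [Set.mem_preimage, ← hact, Set.mem_compl_iff]
      show Φ (moveLabels refl ω) (1, 0) (2, 0) = true ↔ ¬ Φ ω (1, 0) (2, 0) = true
      rw [h1]
      simp only [moveDec, refl_symm_apply]
      have h3 := hval h2 0
      have hadj : G.Adj (-1, 0) (0, 0) := by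
        rw [adj_iff]; right; simp [partner]
      have h4 := h2.2.1 (-1, 0) (0, 0) hadj
      have e3 : (2:ℤ) * 0 - 1 = -1 := by norm_num
      have e4 : (2:ℤ) * 0 = 0 := by norm_num
      rw [e3, e4] at h3
      have e1 : (1:ℤ) - 1 = 0 := by norm_num
      have e2 : (1:ℤ) - 2 = -1 := by norm_num
      rw [e1, e2]
      tauto
    exact Filter.eventuallyEq_set.2 this
  have hmp := Q297.Bern.act_mp (V := V) (volume : Measure unitInterval) refl.toEquiv
  have h1 : μ.real ((Q297.Bern.act (S := unitInterval) refl.toEquiv) ⁻¹' A) = μ.real A := by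
    rw [Measure.real, Measure.real, hmp.measure_preimage hAm.nullMeasurableSet]
  have h2 : μ.real ((Q297.Bern.act (S := unitInterval) refl.toEquiv) ⁻¹' A) = 1 - μ.real A := by
    have h3 : μ.real Aᶜ = 1 - μ.real A := probReal_compl_eq_one_sub hAm
    rw [measureReal_congr hrefl]
    exact h3
  rcases h01 with h | h <;> linarith

end Q297.Chain
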