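import Pool.Agent.Q297.EntireExp

/-! Cramer's theorem for laws with real characteristic functions. -/

open Complex Set Filter Topology MeasureTheory ProbabilityTheory
open scoped ENNReal NNReal

namespace Q297.Cramer

/-- a law with real characteristic function is symmetric -/
lemma symm_of_real {ν : Measure ℝ} [IsProbabilityMeasure ν] {u : ℝ → ℝ}
    (h : ∀ ξ, charFun ν ξ = u ξ) : ν.map (fun x => -x) = ν := by
  have : IsProbabilityMeasure (ν.map (fun x : ℝ => -x)) :=
    Measure.isProbabilityMeasure_map (by fun_prop)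
  apply Measure.ext_of_charFun
  funext t
  have h1 : charFun (ν.map (fun x : ℝ => -x)) t = charFun ν (-t) := by
    rw [charFun_apply_real, charFun_apply_real, integral_map (by fun_prop) (by fun_prop)]
    congr with x
    push_cast
    ring_nf
  rw [h1, charFun_neg, h, Complex.conj_ofReal]

/-- integrability of exponentials of a factor of a Gaussian law -/
lemma integrable_exp_of_conv {ν1 ν2 : Measure ℝ} [IsProbabilityMeasure ν1]
    [IsProbabilityMeasure ν2] {v : ℝ≥0} (h : ν1 ∗ ν2 = gaussianReal 0 v) (y : ℝ) :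
    Integrable (fun x => Real.exp (y * x)) ν1 := by
  have hg : Integrable (fun x => Real.exp (y * x)) (gaussianReal 0 v) :=
    integrable_exp_mul_gaussianReal y
  have h1 : ∫⁻ z, ENNReal.ofReal (Real.exp (y * z)) ∂(ν1 ∗ ν2) < ∞ := by
    rw [h]
    have := hg.lintegral_lt_top
    exact this
  rw [Measure.lintegral_conv (by fun_prop)] at h1
  have h2 : ∀ x z : ℝ, ENNReal.ofReal (Real.exp (y * (x + z))) =
      ENNReal.ofReal (Real.exp (y * x)) * ENNReal.ofReal (Real.exp (y * z)) := by
    intro x z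
    rw [← ENNReal.ofReal_mul (Real.exp_pos _).le, ← Real.exp_add]
    ring_nf
  simp_rw [h2] at h1
  have h3 : ∀ x : ℝ, ∫⁻ z, ENNReal.ofReal (Real.exp (y * x)) * ENNReal.ofReal (Real.exp (y * z)) ∂ν2
      = ENNReal.ofReal (Real.exp (y * x)) * ∫⁻ z, ENNReal.ofReal (Real.exp (y * z)) ∂ν2 := by
    intro x
    rw [lintegral_const_mul _ (by fun_prop)]
  simp_rw [h3] at h1
  rw [lintegral_mul_const _ (by fun_prop)] at h1
  have h4 : ∫⁻ z, ENNReal.ofReal (Real.exp (y * z)) ∂ν2 ≠ 0 := by
    intro h5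
    rw [lintegral_eq_zero_iff (by fun_prop)] at h5
    have h6 : ∀ᵐ z ∂ν2, False := by
      filter_upwards [h5] with z hz
      have : ENNReal.ofReal (Real.exp (y * z)) = 0 := hz
      rw [ENNReal.ofReal_eq_zero] at this
      linarith [Real.exp_pos (y * z)]
    have h7 := (ae_iff.1 h6)
    simp at h7
  refine ⟨by fun_prop, ?_⟩
  rw [hasFiniteIntegral_iff_ofReal (Eventually.of_forall fun x => (Real.exp_pos _).le)]
  by_contra h8
  rw [not_lt, top_le_iff] at h8
  rw [h8, ENNReal.top_mul h4] at h1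
  exact lt_irrefl _ h1

lemma one_le_mgf {ν : Measure ℝ} [IsProbabilityMeasure ν] (hs : ν.map (fun x => -x) = ν)
    (hi : ∀ y, Integrable (fun x => Real.exp (y * x)) ν) (y : ℝ) : 1 ≤ mgf id ν y := by
  have h1 : mgf id ν y = mgf id ν (-y) := by
    unfold mgf
    conv_lhs => rw [← hs]
    rw [integral_map (by fun_prop) (by fun_prop)]
    congr with x
    simp
  have h2 : mgf id ν y + mgf id ν (-y) = ∫ x, (Real.exp (y * x) + Real.exp (-y * x)) ∂ν := by
    exact (integral_add (hi y) (hi (-y))).symm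
  have h3 : ∫ x, (Real.exp (y * x) + Real.exp (-y * x)) ∂ν ≥ ∫ _, (2:ℝ) ∂ν := by
    apply integral_mono (integrable_const _) ((hi y).add (hi (-y)))
    intro x
    show (2:ℝ) ≤ Real.exp (y * x) + Real.exp (-y * x)
    have h4 : Real.exp (y * x) * Real.exp (-y * x) = 1 := by
      rw [← Real.exp_add]; simp
    nlinarith [Real.exp_pos (y * x), Real.exp_pos (-y * x),
      sq_nonneg (Real.exp (y * x) - Real.exp (-y * x))]
  rw [integral_const, probReal_univ, one_smul] at h3
  linarith

/-- the complex moment generating function is entire -/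
lemma differentiable_complexMGF {ν : Measure ℝ}
    (hi : ∀ y, Integrable (fun x => Real.exp (y * x)) ν) :
    Differentiable ℂ (complexMGF id ν) := by
  have h1 : integrableExpSet id ν = univ := by
    ext y
    simp only [integrableExpSet, mem_ofPred_eq, mem_univ, iff_true]
    exact hi y
  have h2 := differentiableOn_complexMGF (X := id) (μ := ν)
  rw [h1] at h2
  have h3 : {z : ℂ | z.re ∈ interior (univ : Set ℝ)} = univ := by
    rw [interior_univ]
    ext z; simp
  rw [h3, differentiableOn_univ] at h2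
  exact h2

lemma eq_of_charFun {F G : ℂ → ℂ} (hF : Differentiable ℂ F) (hG : Differentiable ℂ G)
    (h : ∀ ξ : ℝ, F (ξ * I) = G (ξ * I)) : F = G := by
  have hF' : AnalyticOnNhd ℂ F univ := fun z _ => hF.analyticAt z
  have hG' : AnalyticOnNhd ℂ G univ := fun z _ => hG.analyticAt z
  apply hF'.eq_of_frequently_eq hG' (z₀ := 0)
  have ht : Tendsto (fun n : ℕ => ((1 / ((n:ℝ) + 1) : ℝ) : ℂ) * I) atTop (𝓝[≠] 0) := by
    rw [tendsto_nhdsWithin_iff]
    constructor
    · have h1 : Tendsto (fun n : ℕ => (1 / ((n:ℝ) + 1) : ℝ)) atTop (𝓝 0) :=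
        tendsto_one_div_add_atTop_nhds_zero_nat
      have h2 : Tendsto (fun n : ℕ => ((1 / ((n:ℝ) + 1) : ℝ) : ℂ)) atTop (𝓝 ((0:ℝ):ℂ)) :=
        (Complex.continuous_ofReal.tendsto 0).comp h1
      have h3 := h2.mul_const I
      simpa using h3
    · refine Eventually.of_forall (fun n => ?_)
      rw [mem_compl_iff, mem_singleton_iff]
      intro h2
      rw [mul_eq_zero] at h2
      rcases h2 with h2 | h2
      · rw [Complex.ofReal_eq_zero] at h2
        have : (0:ℝ) < 1 / ((n:ℝ) + 1) := by positivity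
        linarith
      · exact I_ne_zero h2
  exact ht.frequently (Frequently.of_forall fun n => h _)

/-- **Cramer's theorem** for laws with real characteristic functions. -/
theorem cramer {ν1 ν2 : Measure ℝ} [IsProbabilityMeasure ν1] [IsProbabilityMeasure ν2] {a : ℝ}
    (ha : 0 ≤ a) {u1 u2 : ℝ → ℝ} (h1 : ∀ ξ, charFun ν1 ξ = u1 ξ) (h2 : ∀ ξ, charFun ν2 ξ = u2 ξ)
    (h : ∀ ξ, u1 ξ * u2 ξ = Real.exp (-(a * ξ ^ 2))) :
    ∃ b : ℝ, 0 ≤ b ∧ ∀ ξ, u1 ξ = Real.exp (-(b * ξ ^ 2)) := by
  set v : ℝ≥0 := Real.toNNReal (2 * a) with hv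
  have hvc : (v : ℝ) = 2 * a := Real.coe_toNNReal _ (by positivity)
  have hconv : ν1 ∗ ν2 = gaussianReal 0 v := by
    apply Measure.ext_of_charFun
    funext t
    rw [charFun_conv, charFun_gaussianReal, h1, h2, ← Complex.ofReal_mul, h]
    have hvc' : (((v : ℝ≥0) : ℝ) : ℂ) = 2 * a := by rw [hvc]; push_cast; ring
    rw [hvc']
    push_cast
    congr 1
    ring
  have hconv' : ν2 ∗ ν1 = gaussianReal 0 v := by rw [Measure.conv_comm]; exact hconv
  have hi1 := integrable_exp_of_conv hconv
  have hi2 := integrable_exp_of_conv hconv'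
  have hs1 := symm_of_real h1
  have hs2 := symm_of_real h2
  set F1 := complexMGF id ν1 with hF1
  set F2 := complexMGF id ν2 with hF2
  have hd1 : Differentiable ℂ F1 := differentiable_complexMGF hi1
  have hd2 : Differentiable ℂ F2 := differentiable_complexMGF hi2
  have hprod : (fun z => F1 z * F2 z) = fun z => Complex.exp (a * z ^ 2) := by
    apply eq_of_charFun (hd1.mul hd2) (by fun_prop)
    intro ξ
    show complexMGF id ν1 (ξ * I) * complexMGF id ν2 (ξ * I) = _
    rw [complexMGF_id_mul_I, complexMGF_id_mul_I, h1, h2, ← Complex.ofReal_mul, h]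
    push_cast
    congr 1
    rw [mul_pow, I_sq]; ring
  have hprod' : ∀ z, F1 z * F2 z = Complex.exp (a * z ^ 2) := fun z => congrFun hprod z
  have hm : ∀ y : ℝ, mgf id ν1 y * mgf id ν2 y = Real.exp (a * y ^ 2) := by
    intro y
    have := hprod' y
    rw [hF1, hF2, complexMGF_ofReal, complexMGF_ofReal] at this
    have h3 : ((mgf id ν1 y * mgf id ν2 y : ℝ) : ℂ) = ((Real.exp (a * y ^ 2) : ℝ) : ℂ) := by
      push_cast
      exact this
    exact_mod_cast h3
  have hm1 : ∀ y : ℝ, mgf id ν1 y ≤ Real.exp (a * y ^ 2) := by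
    intro y
    rw [← hm y]
    have h3 := one_le_mgf hs2 hi2 y
    have h4 : 0 ≤ mgf id ν1 y := mgf_nonneg
    nlinarith
  have hne : ∀ z, F1 z ≠ 0 := by
    intro z hz
    have := hprod' z
    rw [hz, zero_mul] at this
    exact Complex.exp_ne_zero _ this.symm
  have hF10 : F1 0 = 1 := by
    have := complexMGF_ofReal (X := id) (μ := ν1) 0
    rw [mgf_zero] at this
    simpa using this
  have hbd : ∀ z, ‖F1 z‖ ≤ Real.exp (a * (1 + ‖z‖ ^ 2)) := by
    intro z
    refine (norm_complexMGF_le_mgf.trans (hm1 z.re)).trans ?_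
    rw [Real.exp_le_exp]
    apply mul_le_mul_of_nonneg_left _ ha
    have h3 := Complex.abs_re_le_norm z
    have h4 : z.re ^ 2 ≤ ‖z‖ ^ 2 := by
      rw [← sq_abs z.re]
      exact pow_le_pow_left₀ (abs_nonneg _) h3 2
    linarith
  obtain ⟨α, β, hαβ⟩ := exp_quad hd1 hne hF10 hbd
  -- symmetry gives α = 0
  have hu : ∀ ξ : ℝ, (u1 ξ : ℂ) = Complex.exp (α * (ξ * I) + β * (ξ * I) ^ 2) := by
    intro ξ
    rw [← hαβ, hF1, complexMGF_id_mul_I, h1]
  have hα : α = 0 := by
    have h3 : (2 * α * I) = 0 := by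
      apply eq_zero_of_exp
      intro t _
      have e1 := hu t
      have e2 := hu (-t)
      have e3 : charFun ν1 (-t) = charFun ν1 t := by
        rw [charFun_neg, h1, Complex.conj_ofReal]
      rw [h1, h1] at e3
      rw [e3, e1] at e2
      have e4 : Complex.exp (2 * α * I * t) =
          Complex.exp (α * (t * I) + β * (t * I) ^ 2) /
            Complex.exp (α * (((-t : ℝ) : ℂ) * I) + β * (((-t : ℝ) : ℂ) * I) ^ 2) := by
        rw [← Complex.exp_sub]
        congr 1
        push_cast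
        ring
      rw [e4, ← e2, div_self (Complex.exp_ne_zero _)]
    have h4 : (2 : ℂ) * α * I = 0 := h3
    simpa using h4
  have hu' : ∀ ξ : ℝ, (u1 ξ : ℂ) = Complex.exp (-β * ξ ^ 2) := by
    intro ξ
    rw [hu ξ, hα]
    congr 1
    rw [mul_pow, I_sq]; ring
  have hβ : β = (β.re : ℂ) := by
    have h3 : (starRingEnd ℂ) β - β = 0 := by
      apply eq_zero_of_exp
      intro t ht
      have e1 := hu' (Real.sqrt t)
      have e5 : ((Real.sqrt t : ℝ) : ℂ) ^ 2 = (t : ℂ) := by
        rw [← Complex.ofReal_pow, Real.sq_sqrt ht.le]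
      rw [e5] at e1
      have e2 : (u1 (Real.sqrt t) : ℂ) = (starRingEnd ℂ) (Complex.exp (-β * t)) := by
        rw [← e1, Complex.conj_ofReal]
      rw [← Complex.exp_conj] at e2
      simp only [map_mul, map_neg, Complex.conj_ofReal] at e2
      have e3 : Complex.exp (((starRingEnd ℂ) β - β) * t) =
          Complex.exp (-β * t) / Complex.exp (-(starRingEnd ℂ) β * t) := by
        rw [← Complex.exp_sub]
        congr 1
        ring
      rw [e3, ← e1, ← e2, div_self]
      rw [e1]
      exact Complex.exp_ne_zero _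
    exact (Complex.conj_eq_iff_re.1 (sub_eq_zero.1 h3)).symm
  have hu'' : ∀ ξ : ℝ, u1 ξ = Real.exp (-(β.re * ξ ^ 2)) := by
    intro ξ
    have := hu' ξ
    rw [hβ] at this
    have h3 : ((Real.exp (-(β.re * ξ ^ 2)) : ℝ) : ℂ) = Complex.exp (-(β.re : ℂ) * ξ ^ 2) := by
      push_cast
      ring_nf
    rw [← h3] at this
    exact_mod_cast this
  refine ⟨β.re, ?_, hu''⟩
  have h3 : ‖charFun ν1 1‖ ≤ 1 := norm_charFun_le_one 1
  rw [h1, hu'' 1, Complex.norm_real, Real.norm_eq_abs, abs_of_pos (Real.exp_pos _)] at h3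
  have h4 := Real.exp_le_one_iff.1 h3
  linarith

end Q297.Cramer
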