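import Mathlib

/-!
Geometry of the closed convex hull of coordinate half-lines.
-/

open MeasureTheory ProbabilityTheory Set Filter Topology
open scoped ENNReal NNReal Pointwise

namespace Q297.Cs

variable {ι : Type*} [Fintype ι] [DecidableEq ι]

/-- the coordinate half-lines -/
def Rays (x : ι → ℝ) : Set (ι → ℝ) := {y | ∃ i, ∃ t ≤ x i, y = Pi.single i t}

/-- the closed convex hull of the coordinate half-lines -/
def CX (x : ι → ℝ) : Set (ι → ℝ) := closedConvexHull ℝ (Rays x)

omit [Fintype ι] in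
lemma CX_convex (x : ι → ℝ) : Convex ℝ (CX x) := convex_closedConvexHull

omit [Fintype ι] in
lemma CX_closed (x : ι → ℝ) : IsClosed (CX x) := isClosed_closedConvexHull

omit [Fintype ι] in
lemma ray_mem {x : ι → ℝ} {i : ι} {t : ℝ} (h : t ≤ x i) : Pi.single i t ∈ CX x :=
  subset_closedConvexHull ⟨i, t, h, rfl⟩

omit [Fintype ι] in
lemma CX_sub {x : ι → ℝ} {Q : Set (ι → ℝ)} (hc : Convex ℝ Q) (hQ : IsClosed Q)
    (h : ∀ i t, t ≤ x i → (Pi.single i t : ι → ℝ) ∈ Q) : CX x ⊆ Q := by
  refine closedConvexHull_min ?_ hc hQ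
  rintro y ⟨i, t, ht, rfl⟩
  exact h i t ht

/-- half-spaces -/
def hs (u : ι → ℝ) (t : ℝ) : Set (ι → ℝ) := {y | ∑ k, u k * y k ≤ t}

lemma dot_single (u : ι → ℝ) (i : ι) (t : ℝ) :
    ∑ k, u k * (Pi.single i t : ι → ℝ) k = u i * t := by
  rw [Finset.sum_eq_single i]
  · simp
  · intro j _ hj
    simp [Pi.single_eq_of_ne hj]
  · intro h; exact absurd (Finset.mem_univ i) h

omit [DecidableEq ι] in
lemma hs_closed (u : ι → ℝ) (t : ℝ) : IsClosed (hs u t) := by
  unfold hs
  exact isClosed_le (by fun_prop) continuous_const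

omit [DecidableEq ι] in
lemma hs_convex (u : ι → ℝ) (t : ℝ) : Convex ℝ (hs u t) := by
  intro x hx y hy a b ha hb hab
  simp only [hs, mem_ofPred_eq] at hx hy ⊢
  have : ∑ k, u k * (a • x + b • y) k = a * ∑ k, u k * x k + b * ∑ k, u k * y k := by
    rw [Finset.mul_sum, Finset.mul_sum, ← Finset.sum_add_distrib]
    refine Finset.sum_congr rfl fun k _ => ?_
    simp only [Pi.add_apply, Pi.smul_apply, smul_eq_mul]
    ring
  rw [this]
  calc a * ∑ k, u k * x k + b * ∑ k, u k * y k ≤ a * t + b * t := by gcongr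
    _ = t := by rw [← add_mul, hab, one_mul]

lemma CX_sub_hs {x u : ι → ℝ} (hu : ∀ i, 0 ≤ u i) {t : ℝ} :
    CX x ⊆ hs u t ↔ ∀ i, u i * x i ≤ t := by
  constructor
  · intro h i
    have h1 := h (ray_mem (x := x) (i := i) le_rfl)
    simp only [hs, mem_ofPred_eq] at h1
    rwa [dot_single] at h1
  · intro h
    refine CX_sub (hs_convex u t) (hs_closed u t) fun i s hsx => ?_
    simp only [hs, mem_ofPred_eq]
    rw [dot_single]
    exact (mul_le_mul_of_nonneg_left hsx (hu i)).trans (h i)

/-- membership by duality -/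
lemma mem_CX_iff {x v : ι → ℝ} :
    v ∈ CX x ↔ ∀ u : ι → ℝ, (∀ i, 0 ≤ u i) → ∀ t, (∀ i, u i * x i ≤ t) → ∑ k, u k * v k ≤ t := by
  constructor
  · intro hv u hu t ht
    exact (CX_sub_hs hu).2 ht hv
  · intro h
    by_contra hv
    obtain ⟨f, s, hf, hs⟩ := geometric_hahn_banach_closed_point (CX_convex x) (CX_closed x) hv
    set u : ι → ℝ := fun i => f (Pi.single i 1) with hu
    have hfe : ∀ y : ι → ℝ, f y = ∑ k, u k * y k := by
      intro y
      have h1 : y = ∑ k, y k • (Pi.single k 1 : ι → ℝ) := by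
        funext j
        rw [Finset.sum_apply]
        rw [Finset.sum_eq_single j]
        · simp
        · intro k _ hk
          simp [Pi.single_eq_of_ne' hk]
        · intro hc; exact absurd (Finset.mem_univ j) hc
      conv_lhs => rw [h1]
      rw [map_sum]
      refine Finset.sum_congr rfl fun k _ => ?_
      rw [map_smul, smul_eq_mul, mul_comm]
    have hfs : ∀ i t, t ≤ x i → u i * t < s := by
      intro i t ht
      have := hf _ (ray_mem ht)
      rwa [hfe, dot_single] at this
    have hu0 : ∀ i, 0 ≤ u i := by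
      intro i
      by_contra hc
      push Not at hc
      have h1 := hfs i (min (x i) (s / u i)) (min_le_left _ _)
      have h2 : u i * (s / u i) ≤ u i * min (x i) (s / u i) :=
        mul_le_mul_of_nonpos_left (min_le_right _ _) hc.le
      have h3 : u i * (s / u i) = s := by rw [mul_comm]; exact div_mul_cancel₀ s hc.ne
      linarith
    have h1 := h u hu0 s (fun i => (hfs i _ le_rfl).le)
    rw [← hfe] at h1
    linarith

lemma CX_mono {x y : ι → ℝ} (h : ∀ i, x i ≤ y i) : CX x ⊆ CX y :=
  CX_sub (CX_convex y) (CX_closed y) fun i _ ht => ray_mem (ht.trans (h i))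

/-- the graph of `CX` is closed -/
lemma graph_closed : IsClosed {p : (ι → ℝ) × (ι → ℝ) | p.2 ∈ CX p.1} := by
  cases isEmpty_or_nonempty ι with
  | inl he =>
    have : {p : (ι → ℝ) × (ι → ℝ) | p.2 ∈ CX p.1} = ∅ ∨
      {p : (ι → ℝ) × (ι → ℝ) | p.2 ∈ CX p.1} = univ := by
      by_cases h : (fun i => isEmptyElim i : ι → ℝ) ∈ CX (fun i => isEmptyElim i : ι → ℝ)
      · right
        ext p
        simp only [mem_ofPred_eq, mem_univ, iff_true]
        have h1 : p.1 = fun i => isEmptyElim i := Subsingleton.elim _ _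
        have h2 : p.2 = fun i => isEmptyElim i := Subsingleton.elim _ _
        rw [h1, h2]; exact h
      · left
        ext p
        simp only [mem_ofPred_eq, mem_empty_iff_false, iff_false]
        have h1 : p.1 = fun i => isEmptyElim i := Subsingleton.elim _ _
        have h2 : p.2 = fun i => isEmptyElim i := Subsingleton.elim _ _
        rw [h1, h2]; exact h
    rcases this with h | h <;> rw [h]
    · exact isClosed_empty
    · exact isClosed_univ
  | inr hne =>
    have h1 : {p : (ι → ℝ) × (ι → ℝ) | p.2 ∈ CX p.1} =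
        ⋂ u ∈ {u : ι → ℝ | ∀ i, 0 ≤ u i}, {p : (ι → ℝ) × (ι → ℝ) |
          ∑ k, u k * p.2 k ≤ Finset.univ.sup' Finset.univ_nonempty fun i => u i * p.1 i} := by
      ext p
      simp only [mem_ofPred_eq, mem_iInter]
      rw [mem_CX_iff]
      constructor
      · intro h u hu
        exact h u hu _ fun i => Finset.le_sup' (fun i => u i * p.1 i) (Finset.mem_univ i)
      · intro h u hu t ht
        exact (h u hu).trans (Finset.sup'_le _ _ fun i _ => ht i)
    rw [h1]
    refine isClosed_biInter fun u _ => ?_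
    refine isClosed_le (by fun_prop) ?_
    exact Continuous.finset_sup'_apply _ fun i _ => by fun_prop

lemma hit_closed {C : Set (ι → ℝ)} (hC : IsCompact C) :
    IsClosed {x : ι → ℝ | (CX x ∩ C).Nonempty} := by
  have : CompactSpace C := isCompact_iff_compactSpace.1 hC
  have h1 : IsClosed {p : (ι → ℝ) × C | (p.2 : ι → ℝ) ∈ CX p.1} :=
    graph_closed.preimage (by fun_prop : Continuous fun p : (ι → ℝ) × C => (p.1, (p.2 : ι → ℝ)))
  have h2 := isClosedMap_fst_of_compactSpace _ h1
  convert h2 using 1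
  ext x
  simp only [mem_ofPred_eq, mem_image, Prod.exists, exists_and_right, exists_eq_right]
  constructor
  · rintro ⟨v, hv, hvC⟩
    exact ⟨⟨v, hvC⟩, hv⟩
  · rintro ⟨⟨v, hvC⟩, hv⟩
    exact ⟨v, hv, hvC⟩

lemma hit_add {x : ι → ℝ} {K C : Set (ι → ℝ)} :
    ((CX x + K) ∩ C).Nonempty ↔ (CX x ∩ (C - K)).Nonempty := by
  constructor
  · rintro ⟨v, ⟨a, ha, b, hb, rfl⟩, hv⟩
    exact ⟨a, ha, a + b, hv, b, hb, by simp⟩
  · rintro ⟨a, ha, c, hc, b, hb, h⟩
    refine ⟨c, ⟨a, ha, b, hb, ?_⟩, hc⟩
    have : c - b = a := h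
    show a + b = c
    rw [← this]; simp

lemma smul_CX {a : ℝ} (ha : 0 < a) (x : ι → ℝ) : a • CX x = CX (a • x) := by
  ext v
  rw [mem_smul_set_iff_inv_smul_mem₀ ha.ne', mem_CX_iff, mem_CX_iff]
  constructor
  · intro h u hu t ht
    have h1 := h u hu (a⁻¹ * t) (fun i => by
      have h2 := ht i
      simp only [Pi.smul_apply, smul_eq_mul] at h2
      rw [le_inv_mul_iff₀ ha]
      linarith)
    have h2 : ∑ k, u k * (a⁻¹ • v) k = a⁻¹ * ∑ k, u k * v k := by
      rw [Finset.mul_sum]
      refine Finset.sum_congr rfl fun k _ => ?_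
      simp only [Pi.smul_apply, smul_eq_mul]; ring
    rw [h2] at h1
    exact le_of_mul_le_mul_left h1 (inv_pos.2 ha)
  · intro h u hu t ht
    have h1 := h u hu (a * t) (fun i => by
      have h2 := ht i
      simp only [Pi.smul_apply, smul_eq_mul]
      nlinarith)
    have h2 : ∑ k, u k * (a⁻¹ • v) k = a⁻¹ * ∑ k, u k * v k := by
      rw [Finset.mul_sum]
      refine Finset.sum_congr rfl fun k _ => ?_
      simp only [Pi.smul_apply, smul_eq_mul]; ring
    rw [h2, inv_mul_le_iff₀ ha]
    exact h1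

/-- the coordinatewise maximum -/
noncomputable def Mx {n : ℕ} (z : Fin (n + 1) → ι → ℝ) (i : ι) : ℝ :=
  Finset.univ.sup' Finset.univ_nonempty fun j => z j i

omit [Fintype ι] [DecidableEq ι] in
lemma Mx_le {n : ℕ} {z : Fin (n + 1) → ι → ℝ} {i : ι} {t : ℝ} : Mx z i ≤ t ↔ ∀ j, z j i ≤ t := by
  unfold Mx
  simp

omit [Fintype ι] [DecidableEq ι] in
lemma le_Mx {n : ℕ} (z : Fin (n + 1) → ι → ℝ) (i : ι) (j : Fin (n + 1)) : z j i ≤ Mx z i :=
  Mx_le.1 le_rfl j

lemma hull_eq {n : ℕ} (z : Fin (n + 1) → ι → ℝ) :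
    closedConvexHull ℝ (⋃ j, CX (z j)) = CX (Mx z) := by
  apply subset_antisymm
  · refine closedConvexHull_min ?_ (CX_convex _) (CX_closed _)
    exact iUnion_subset fun j => CX_mono fun i => le_Mx z i j
  · refine CX_sub convex_closedConvexHull isClosed_closedConvexHull fun i t ht => ?_
    obtain ⟨j, _, hj⟩ := Finset.exists_mem_eq_sup' Finset.univ_nonempty fun j => z j i
    refine subset_closedConvexHull (mem_iUnion.2 ⟨j, ray_mem ?_⟩)
    have : Mx z i = z j i := hj
    rw [← this]; exact ht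

/-- vectors with a nonnegative coordinate only enter through their positive part -/
lemma CX_pos [Nontrivial ι] {x : ι → ℝ} (hx : ∃ i, 0 ≤ x i) : CX x = CX fun i => max (x i) 0 := by
  apply subset_antisymm
  · exact CX_mono fun i => le_max_left _ _
  · obtain ⟨i0, hi0⟩ := hx
    refine CX_sub (CX_convex x) (CX_closed x) fun i t ht => ?_
    rcases le_total t (x i) with h | h
    · exact ray_mem h
    · have ht0 : t ≤ 0 ∨ x i ≥ t := by
        rcases le_max_iff.1 ht with h1 | h1
        · right; exact h1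
        · left; exact h1
      rcases ht0 with h1 | h1
      · -- the origin lies in the hull, and the half-line has the recession direction
        rw [mem_CX_iff]
        intro u hu s hus
        rw [dot_single]
        have h2 : 0 ≤ s := (mul_nonneg (hu i0) hi0).trans (hus i0)
        exact (mul_nonpos_of_nonneg_of_nonpos (hu i) h1).trans h2
      · exact ray_mem h1

end Q297.Cs
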