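import Pool.Agent.Q297.CsA

/-!
Hitting probabilities and the functional equation for the distribution function.
-/

open MeasureTheory ProbabilityTheory Set Filter Topology
open scoped ENNReal NNReal Pointwise

namespace Q297.Cs

/-- equality of hitting probabilities of compact sets gives equality for open sets -/
lemma hit_open {ι Ω₁ Ω₂ : Type*} [Fintype ι] {m₁ : MeasurableSpace Ω₁} {m₂ : MeasurableSpace Ω₂}
    {P₁ : Measure Ω₁} {P₂ : Measure Ω₂} {X₁ : Ω₁ → Set (ι → ℝ)} {X₂ : Ω₂ → Set (ι → ℝ)}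
    (h : ∀ C, IsCompact C → P₁ {ω | (X₁ ω ∩ C).Nonempty} = P₂ {ω | (X₂ ω ∩ C).Nonempty})
    {U : Set (ι → ℝ)} (hU : IsOpen U) :
    P₁ {ω | (X₁ ω ∩ U).Nonempty} = P₂ {ω | (X₂ ω ∩ U).Nonempty} := by
  obtain ⟨F, hF1, hF2, hF3, hF4⟩ := hU.exists_iUnion_isClosed
  set C : ℕ → Set (ι → ℝ) := fun n => F n ∩ Metric.closedBall 0 n with hC
  have hCc : ∀ n, IsCompact (C n) := fun n =>
    (isCompact_closedBall (0 : ι → ℝ) (n : ℝ)).inter_left (hF1 n)
  have hCm : Monotone C := by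
    intro n m hnm
    exact inter_subset_inter (hF4 hnm) (Metric.closedBall_subset_closedBall (by exact_mod_cast hnm))
  have hCU : ⋃ n, C n = U := by
    apply subset_antisymm
    · exact iUnion_subset fun n => inter_subset_left.trans (hF2 n)
    · intro x hx
      rw [← hF3] at hx
      obtain ⟨n, hn⟩ := mem_iUnion.1 hx
      obtain ⟨m, hm⟩ := exists_nat_ge ‖x‖
      refine mem_iUnion.2 ⟨max n m, hF4 (le_max_left n m) hn, ?_⟩
      rw [mem_closedBall_zero_iff]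
      exact hm.trans (by exact_mod_cast le_max_right n m)
  have k1 : P₁ {ω | (X₁ ω ∩ U).Nonempty} = ⨆ n, P₁ {ω | (X₁ ω ∩ C n).Nonempty} := by
    have h1 : {ω | (X₁ ω ∩ U).Nonempty} = ⋃ n, {ω | (X₁ ω ∩ C n).Nonempty} := by
      ext ω
      simp only [mem_ofPred_eq, mem_iUnion]
      constructor
      · rintro ⟨v, hv, hvU⟩
        rw [← hCU] at hvU
        obtain ⟨n, hn⟩ := mem_iUnion.1 hvU
        exact ⟨n, v, hv, hn⟩
      · rintro ⟨n, v, hv, hn⟩
        exact ⟨v, hv, hCU ▸ mem_iUnion.2 ⟨n, hn⟩⟩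
    rw [h1]
    refine Monotone.measure_iUnion ?_
    intro n k hnk ω hω
    obtain ⟨v, hv, hvn⟩ := hω
    exact ⟨v, hv, hCm hnk hvn⟩
  have k2 : P₂ {ω | (X₂ ω ∩ U).Nonempty} = ⨆ n, P₂ {ω | (X₂ ω ∩ C n).Nonempty} := by
    have h1 : {ω | (X₂ ω ∩ U).Nonempty} = ⋃ n, {ω | (X₂ ω ∩ C n).Nonempty} := by
      ext ω
      simp only [mem_ofPred_eq, mem_iUnion]
      constructor
      · rintro ⟨v, hv, hvU⟩
        rw [← hCU] at hvU
        obtain ⟨n, hn⟩ := mem_iUnion.1 hvU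
        exact ⟨n, v, hv, hn⟩
      · rintro ⟨n, v, hv, hn⟩
        exact ⟨v, hv, hCU ▸ mem_iUnion.2 ⟨n, hn⟩⟩
    rw [h1]
    refine Monotone.measure_iUnion ?_
    intro n k hnk ω hω
    obtain ⟨v, hv, hvn⟩ := hω
    exact ⟨v, hv, hCm hnk hvn⟩
  rw [k1, k2]
  exact iSup_congr fun n => h _ (hCc n)

variable {ι : Type*} [Fintype ι] [DecidableEq ι]

/-- convex-stable random closed convex sets -/
def ConvexStable {Ω : Type*} [MeasurableSpace Ω] (P : Measure Ω) (X : Ω → Set (ι → ℝ)) : Prop :=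
  ∀ n : ℕ, 1 ≤ n → ∃ a : ℝ, 0 < a ∧ ∃ K : Set (ι → ℝ), IsCompact K ∧ Convex ℝ K ∧ K.Nonempty ∧
    ∀ C : Set (ι → ℝ), IsCompact C →
      P {ω | ((a • X ω) ∩ C).Nonempty} =
        Measure.pi (fun _ : Fin n => P)
          {ω | ((closedConvexHull ℝ (⋃ j, X (ω j)) + K) ∩ C).Nonempty}

/-- the support function of `K` -/
noncomputable def sup (K : Set (ι → ℝ)) (u : ι → ℝ) : ℝ := sSup ((fun y => ∑ k, u k * y k) '' K)

section Sup

variable {K : Set (ι → ℝ)}

omit [DecidableEq ι] in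
lemma sup_bdd (hK : IsCompact K) (u : ι → ℝ) : BddAbove ((fun y => ∑ k, u k * y k) '' K) :=
  (hK.image (by fun_prop)).bddAbove

omit [DecidableEq ι] in
lemma le_sup (hK : IsCompact K) (u : ι → ℝ) {y : ι → ℝ} (hy : y ∈ K) :
    ∑ k, u k * y k ≤ sup K u :=
  le_csSup (sup_bdd hK u) ⟨y, hy, rfl⟩

omit [DecidableEq ι] in
lemma sup_mem (hK : IsCompact K) (hne : K.Nonempty) (u : ι → ℝ) :
    ∃ y ∈ K, sup K u = ∑ k, u k * y k := by
  obtain ⟨y, hy, h⟩ := (hK.image (by fun_prop : Continuous fun y : ι → ℝ => ∑ k, u k * y k)).sSup_mem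
    (hne.image _)
  exact ⟨y, hy, h.symm⟩

omit [DecidableEq ι] in
lemma sup_add (hK : IsCompact K) (hne : K.Nonempty) (u v : ι → ℝ) :
    sup K (fun i => u i + v i) ≤ sup K u + sup K v := by
  obtain ⟨y, hy, h⟩ := sup_mem hK hne (fun i => u i + v i)
  rw [h]
  have h1 := le_sup hK u hy
  have h2 := le_sup hK v hy
  have : ∑ k, (u k + v k) * y k = ∑ k, u k * y k + ∑ k, v k * y k := by
    rw [← Finset.sum_add_distrib]
    exact Finset.sum_congr rfl fun k _ => by ring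
  linarith

omit [DecidableEq ι] in
lemma sup_smul (hK : IsCompact K) (hne : K.Nonempty) (u : ι → ℝ) {s : ℝ} (hs : 0 ≤ s) :
    sup K (fun i => s * u i) = s * sup K u := by
  have e : ∀ y : ι → ℝ, ∑ k, s * u k * y k = s * ∑ k, u k * y k := by
    intro y
    rw [Finset.mul_sum]
    exact Finset.sum_congr rfl fun k _ => by ring
  apply le_antisymm
  · obtain ⟨y, hy, h⟩ := sup_mem hK hne (fun i => s * u i)
    rw [h, e]
    exact mul_le_mul_of_nonneg_left (le_sup hK u hy) hs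
  · obtain ⟨y, hy, h⟩ := sup_mem hK hne u
    rw [h, ← e]
    exact le_sup hK (fun i => s * u i) hy

omit [DecidableEq ι] in
/-- the support function is Lipschitz -/
lemma sup_lip (hK : IsCompact K) (hne : K.Nonempty) :
    ∃ C, 0 ≤ C ∧ ∀ u v : ι → ℝ, sup K u ≤ sup K v + C * ∑ k, |u k - v k| := by
  obtain ⟨C, hC⟩ := hK.isBounded.exists_norm_le
  obtain ⟨y0, hy0⟩ := hne
  have hC0 : 0 ≤ C := (norm_nonneg _).trans (hC y0 hy0)
  refine ⟨C, hC0, fun u v => ?_⟩
  obtain ⟨y, hy, h⟩ := sup_mem hK ⟨y0, hy0⟩ u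
  rw [h]
  have h1 := le_sup hK v hy
  have h2 : ∑ k, u k * y k - ∑ k, v k * y k ≤ C * ∑ k, |u k - v k| := by
    rw [← Finset.sum_sub_distrib, Finset.mul_sum]
    refine Finset.sum_le_sum fun k _ => ?_
    have h3 : |y k| ≤ C := by
      rw [← Real.norm_eq_abs]
      exact (norm_le_pi_norm y k).trans (hC y hy)
    calc u k * y k - v k * y k = (u k - v k) * y k := by ring
      _ ≤ |(u k - v k) * y k| := le_abs_self _
      _ = |u k - v k| * |y k| := abs_mul _ _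
      _ ≤ |u k - v k| * C := by gcongr
      _ = _ := mul_comm _ _
  linarith

end Sup

lemma hull_add_sub {n : ℕ} {z : Fin n → ι → ℝ} {K : Set (ι → ℝ)} (hK : IsCompact K)
    (hne : K.Nonempty) {u : ι → ℝ} (hu : ∀ i, 0 ≤ u i) {t : ℝ} :
    closedConvexHull ℝ (⋃ j, CX (z j)) + K ⊆ hs u t ↔ ∀ j i, u i * z j i + sup K u ≤ t := by
  constructor
  · intro h j i
    obtain ⟨y, hy, hy2⟩ := sup_mem hK hne u
    have h1 : (Pi.single i (z j i) : ι → ℝ) + y ∈ closedConvexHull ℝ (⋃ j, CX (z j)) + K :=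
      add_mem_add (subset_closedConvexHull (mem_iUnion.2 ⟨j, ray_mem le_rfl⟩)) hy
    have h2 := h h1
    simp only [hs, mem_ofPred_eq] at h2
    have h3 : ∑ k, u k * ((Pi.single i (z j i) : ι → ℝ) + y) k =
        u i * z j i + ∑ k, u k * y k := by
      rw [← dot_single u i (z j i), ← Finset.sum_add_distrib]
      exact Finset.sum_congr rfl fun k _ => by rw [Pi.add_apply]; ring
    rw [h3, ← hy2] at h2
    exact h2
  · intro h
    have h1 : closedConvexHull ℝ (⋃ j, CX (z j)) ⊆ hs u (t - sup K u) := by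
      refine closedConvexHull_min ?_ (hs_convex _ _) (hs_closed _ _)
      refine iUnion_subset fun j => (CX_sub_hs hu).2 fun i => ?_
      have := h j i
      linarith
    rintro _ ⟨a, ha, b, hb, rfl⟩
    have h2 := h1 ha
    simp only [hs, mem_ofPred_eq] at h2 ⊢
    have h3 := le_sup hK u hb
    have h4 : ∑ k, u k * (a + b) k = ∑ k, u k * a k + ∑ k, u k * b k := by
      rw [← Finset.sum_add_distrib]
      exact Finset.sum_congr rfl fun k _ => by rw [Pi.add_apply]; ring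
    rw [h4]
    linarith

/-- the functional equation -/
structure Feq (μ : Measure (ι → ℝ)) (n : ℕ) (a : ℝ) (κ : (ι → ℝ) → ℝ) : Prop where
  pos : 0 < a
  add : ∀ u v, κ (fun i => u i + v i) ≤ κ u + κ v
  smul : ∀ u s, 0 ≤ s → κ (fun i => s * u i) = s * κ u
  lip : ∃ C, 0 ≤ C ∧ ∀ u v : ι → ℝ, κ u ≤ κ v + C * ∑ k, |u k - v k|
  eq : ∀ {σ : Type} (u : σ → ι → ℝ) (t : σ → ℝ), (∀ k i, 0 ≤ u k i) →
    μ {x | ∀ k i, u k i * (a * x i) ≤ t k} = μ {x | ∀ k i, u k i * x i + κ (u k) ≤ t k} ^ n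

theorem feq_of_stable {μ : Measure (ι → ℝ)} [IsProbabilityMeasure μ] (h : ConvexStable μ CX)
    {n : ℕ} (hn : 1 ≤ n) : ∃ a κ, Feq μ n a κ := by
  obtain ⟨a, ha, K, hK, _, hne, hC⟩ := h n hn
  refine ⟨a, sup K, ha, sup_add hK hne, fun u s hs => sup_smul hK hne u hs, sup_lip hK hne, ?_⟩
  intro σ u t hu
  set Q : Set (ι → ℝ) := ⋂ k, hs (u k) (t k) with hQ
  have hQc : IsClosed Q := isClosed_iInter fun k => hs_closed _ _
  have h1 := hit_open (P₁ := μ) (P₂ := Measure.pi (fun _ : Fin n => μ)) hC hQc.isOpen_compl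
  have e1 : {x | ((a • CX x) ∩ Qᶜ).Nonempty} = {x | ∀ k i, u k i * (a * x i) ≤ t k}ᶜ := by
    ext x
    simp only [mem_ofPred_eq, mem_compl_iff]
    rw [inter_compl_nonempty_iff, hQ, subset_iInter_iff, smul_CX ha]
    simp_rw [CX_sub_hs (hu _)]
    rfl
  have e2 : {z : Fin n → ι → ℝ | ((closedConvexHull ℝ (⋃ j, CX (z j)) + K) ∩ Qᶜ).Nonempty} =
      (Set.pi univ fun _ => {x | ∀ k i, u k i * x i + sup K (u k) ≤ t k})ᶜ := by
    ext z
    simp only [mem_ofPred_eq, mem_compl_iff, Set.mem_pi, mem_univ, true_implies]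
    rw [inter_compl_nonempty_iff, hQ, subset_iInter_iff]
    simp_rw [hull_add_sub hK hne (hu _)]
    constructor
    · intro h2 h3; exact h2 fun k j i => h3 j k i
    · intro h2 h3; exact h2 fun j k i => h3 k j i
  have m1 : MeasurableSet {x : ι → ℝ | ∀ k i, u k i * (a * x i) ≤ t k} := by
    have : {x : ι → ℝ | ∀ k i, u k i * (a * x i) ≤ t k} =
        ⋂ k, ⋂ i, {x | u k i * (a * x i) ≤ t k} := by ext x; simp
    rw [this]
    exact (isClosed_iInter fun k => isClosed_iInter fun i =>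
      isClosed_le (by fun_prop) continuous_const).measurableSet
  have m2 : MeasurableSet {x : ι → ℝ | ∀ k i, u k i * x i + sup K (u k) ≤ t k} := by
    have : {x : ι → ℝ | ∀ k i, u k i * x i + sup K (u k) ≤ t k} =
        ⋂ k, ⋂ i, {x | u k i * x i + sup K (u k) ≤ t k} := by ext x; simp
    rw [this]
    exact (isClosed_iInter fun k => isClosed_iInter fun i =>
      isClosed_le (by fun_prop) continuous_const).measurableSet
  rw [e1, e2, prob_compl_eq_one_sub m1,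
    prob_compl_eq_one_sub (MeasurableSet.univ_pi fun _ => m2), Measure.pi_pi] at h1
  simp only [Finset.prod_const, Finset.card_univ, Fintype.card_fin] at h1
  have b1 : μ {x : ι → ℝ | ∀ k i, u k i * (a * x i) ≤ t k} ≤ 1 := prob_le_one
  have b2 : μ {x : ι → ℝ | ∀ k i, u k i * x i + sup K (u k) ≤ t k} ^ n ≤ 1 :=
    pow_le_one' prob_le_one n
  rw [← ENNReal.sub_sub_cancel ENNReal.one_ne_top b1, h1,
    ENNReal.sub_sub_cancel ENNReal.one_ne_top b2]

end Q297.Cs
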