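import Mathlib

/-!
Extremal types on the half-line with pure scaling.
-/

open Set Filter Topology

namespace Q297.Cs

section L

variable {L : ℝ → ℝ} {a : ℕ → ℝ}

lemma a_two_gt (hL : ∀ x, 0 < x → 0 < L x) (hm : ∀ x y, 0 < x → x ≤ y → L y ≤ L x)
    (ha : ∀ n, 1 ≤ n → 0 < a n) (he : ∀ n, 1 ≤ n → ∀ x, 0 < x → L (x / a n) = n * L x) :
    1 < a 2 := by
  by_contra hc
  push Not at hc
  have ha2 := ha 2 (by norm_num)
  have h1 : (1 : ℝ) ≤ 1 / a 2 := by rw [le_div_iff₀ ha2]; linarith
  have h2 := hm 1 (1 / a 2) one_pos h1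
  rw [he 2 (by norm_num) 1 one_pos] at h2
  have := hL 1 one_pos
  push_cast at h2
  linarith

/-- comparison of scalings -/
lemma scale_le (hL : ∀ x, 0 < x → 0 < L x) (hm : ∀ x y, 0 < x → x ≤ y → L y ≤ L x)
    (ha : ∀ n, 1 ≤ n → 0 < a n) (he : ∀ n, 1 ≤ n → ∀ x, 0 < x → L (x / a n) = n * L x)
    {s t l l' : ℝ} (hs : 0 < s) (ht : 0 < t) (h1 : ∀ x, 0 < x → L (x / s) = l * L x)
    (h2 : ∀ x, 0 < x → L (x / t) = l' * L x) (hl : l ≤ l') : s ≤ t := by
  by_contra hc
  push Not at hc
  have h3 : l' ≤ l := by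
    have h4 := hm (1 / s) (1 / t) (by positivity) (by gcongr)
    rw [h1 1 one_pos, h2 1 one_pos] at h4
    exact le_of_mul_le_mul_right h4 (hL 1 one_pos)
  have hll : l = l' := le_antisymm hl h3
  set ρ := s / t with hρ
  have hρ1 : 1 < ρ := by rw [hρ, lt_div_iff₀ ht]; linarith
  have h5 : ∀ x, 0 < x → L (x / ρ) = L x := by
    intro x hx
    have h6 := h1 (x * t) (by positivity)
    have h7 := h2 (x * t) (by positivity)
    have e1 : x * t / s = x / ρ := by rw [hρ]; field_simp
    have e2 : x * t / t = x := by field_simp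
    rw [e1] at h6
    rw [e2] at h7
    rw [h6, hll, ← h7]
  have h6 : ∀ i : ℕ, L (1 / ρ ^ i) = L 1 := by
    intro i
    induction i with
    | zero => simp
    | succ i ih =>
      rw [← ih, ← h5 (1 / ρ ^ i) (by positivity)]
      congr 1
      rw [pow_succ]
      field_simp
  obtain ⟨i, hi⟩ := pow_unbounded_of_one_lt (a 2) hρ1
  have ha2 := ha 2 (by norm_num)
  have h7 := hm (1 / ρ ^ i) (1 / a 2) (by positivity) (by gcongr)
  rw [h6 i, he 2 (by norm_num) 1 one_pos] at h7
  have := hL 1 one_pos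
  push_cast at h7
  linarith

lemma pow_eq (ha : ∀ n, 1 ≤ n → 0 < a n)
    (he : ∀ n, 1 ≤ n → ∀ x, 0 < x → L (x / a n) = n * L x) {n : ℕ} (hn : 1 ≤ n) (j : ℕ) :
    ∀ x, 0 < x → L (x / a n ^ j) = (n : ℝ) ^ j * L x := by
  have han := ha n hn
  induction j with
  | zero => intro x _; simp
  | succ j ih =>
    intro x hx
    have e1 : x / a n ^ (j + 1) = (x / a n ^ j) / a n := by rw [pow_succ]; field_simp
    rw [e1, he n hn _ (by positivity), ih x hx]
    ring

theorem power_law (hL : ∀ x, 0 < x → 0 < L x) (hm : ∀ x y, 0 < x → x ≤ y → L y ≤ L x)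
    (ha : ∀ n, 1 ≤ n → 0 < a n) (he : ∀ n, 1 ≤ n → ∀ x, 0 < x → L (x / a n) = n * L x) :
    ∃ β c : ℝ, 0 < β ∧ 0 < c ∧ (∀ x, 0 < x → L x = c * x ^ (-β)) ∧
      ∀ n : ℕ, 1 ≤ n → a n = (n : ℝ) ^ (1 / β) := by
  have ha2 := a_two_gt hL hm ha he
  have hla2 : 0 < Real.log (a 2) := Real.log_pos ha2
  have hl2 : 0 < Real.log 2 := Real.log_pos (by norm_num)
  set β := Real.log 2 / Real.log (a 2) with hβ
  have hβ0 : 0 < β := by positivity
  -- the scaling constants
  have hlog : ∀ n : ℕ, 1 ≤ n → Real.log (a n) * Real.log 2 = Real.log n * Real.log (a 2) := by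
    intro n hn
    have han := ha n hn
    have hn0 : (0 : ℝ) < n := by exact_mod_cast hn
    have hln : 0 ≤ Real.log n := Real.log_nonneg (by exact_mod_cast hn)
    have key : ∀ j : ℕ, |(j : ℝ) * (Real.log (a n) * Real.log 2 - Real.log n * Real.log (a 2))| ≤
        Real.log 2 * Real.log (a 2) := by
      intro j
      set k : ℕ := ⌊(j : ℝ) * Real.log n / Real.log 2⌋₊ with hk
      have hx0 : 0 ≤ (j : ℝ) * Real.log n / Real.log 2 := by positivity
      have k1 : (k : ℝ) * Real.log 2 ≤ j * Real.log n := by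
        have := Nat.floor_le hx0
        rwa [← hk, le_div_iff₀ hl2] at this
      have k2 : (j : ℝ) * Real.log n ≤ (k + 1) * Real.log 2 := by
        have := (Nat.lt_floor_add_one ((j : ℝ) * Real.log n / Real.log 2)).le
        rwa [← hk, div_le_iff₀ hl2] at this
      have p1 : (2 : ℝ) ^ k ≤ (n : ℝ) ^ j := by
        rw [← Real.log_le_log_iff (by positivity) (by positivity), Real.log_pow, Real.log_pow]
        exact k1
      have p2 : (n : ℝ) ^ j ≤ (2 : ℝ) ^ (k + 1) := by
        rw [← Real.log_le_log_iff (by positivity) (by positivity), Real.log_pow, Real.log_pow]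
        push_cast
        exact k2
      have q1 : a 2 ^ k ≤ a n ^ j :=
        scale_le hL hm ha he (by positivity) (by positivity)
          (pow_eq ha he (n := 2) (by norm_num) k) (pow_eq ha he hn j) (by push_cast; exact p1)
      have q2 : a n ^ j ≤ a 2 ^ (k + 1) :=
        scale_le hL hm ha he (by positivity) (by positivity)
          (pow_eq ha he hn j) (pow_eq ha he (n := 2) (by norm_num) (k + 1))
          (by push_cast; exact p2)
      rw [← Real.log_le_log_iff (by positivity) (by positivity), Real.log_pow, Real.log_pow] at q1 q2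
      push_cast at q2
      rw [abs_le]
      constructor
      · nlinarith
      · nlinarith
    by_contra hne
    have hd : 0 < |Real.log (a n) * Real.log 2 - Real.log n * Real.log (a 2)| :=
      abs_pos.2 (sub_ne_zero.2 hne)
    obtain ⟨j, hj⟩ := exists_nat_gt (Real.log 2 * Real.log (a 2) /
      |Real.log (a n) * Real.log 2 - Real.log n * Real.log (a 2)|)
    rw [div_lt_iff₀ hd] at hj
    have h1 := key j
    rw [abs_mul, Nat.abs_cast] at h1
    linarith
  have han : ∀ n : ℕ, 1 ≤ n → a n = (n : ℝ) ^ (1 / β) := by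
    intro n hn
    have hn0 : (0 : ℝ) < n := by exact_mod_cast hn
    have h1 := hlog n hn
    rw [← Real.exp_log (ha n hn), Real.rpow_def_of_pos hn0]
    congr 1
    rw [hβ]
    field_simp
    linarith
  refine ⟨β, L 1, hβ0, hL 1 one_pos, ?_, han⟩
  intro x hx
  have hL1 := hL 1 one_pos
  -- rational scalings
  have hr : ∀ p q : ℕ, 1 ≤ p → 1 ≤ q → L (a q / a p) = (p : ℝ) / q * L 1 := by
    intro p q hp hq
    have hq0 : (0 : ℝ) < q := by exact_mod_cast hq
    rw [he p hp (a q) (ha q hq)]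
    have h1 := he q hq (a q) (ha q hq)
    rw [div_self (ha q hq).ne'] at h1
    rw [h1]
    field_simp
  have hapq : ∀ p q : ℕ, 1 ≤ p → 1 ≤ q → a q / a p = ((q : ℝ) / p) ^ (1 / β) := by
    intro p q hp hq
    rw [han q hq, han p hp, Real.div_rpow (by positivity) (by positivity)]
  have hxβ : 0 < x ^ β := Real.rpow_pos_of_pos hx β
  have hinv : (x ^ β) ^ (1 / β) = x := by
    rw [← Real.rpow_mul hx.le, mul_one_div_cancel hβ0.ne', Real.rpow_one]
  have up : ∀ r : ℚ, x ^ β ≤ (r : ℝ) → L 1 ≤ (r : ℝ) * L x := by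
    intro r hr'
    have hr0 : (0 : ℝ) < r := hxβ.trans_le hr'
    have hr0' : (0 : ℚ) < r := by exact_mod_cast hr0
    have hp : 1 ≤ r.den := r.den_pos
    have hq : 1 ≤ r.num.toNat := by
      have := Rat.num_pos.2 hr0'
      omega
    have hre : (r : ℝ) = (r.num.toNat : ℝ) / r.den := by
      have h1 : ((r.num.toNat : ℤ) : ℝ) = (r.num : ℝ) := by
        rw [Int.toNat_of_nonneg (Rat.num_pos.2 hr0').le]
      have h2 : (r.num.toNat : ℝ) = (r.num : ℝ) := by exact_mod_cast h1
      rw [h2]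
      exact_mod_cast (Rat.num_div_den r).symm
    have h1 := hr r.den r.num.toNat hp hq
    have h2 : x ≤ a r.num.toNat / a r.den := by
      rw [hapq _ _ hp hq, ← hre, ← hinv]
      exact Real.rpow_le_rpow hxβ.le hr' (by positivity)
    have h3 := hm x _ hx h2
    rw [h1] at h3
    have h4 : (r : ℝ) * ((r.den : ℝ) / r.num.toNat * L 1) = L 1 := by
      rw [hre]
      have : (0 : ℝ) < r.num.toNat := by exact_mod_cast hq
      have : (0 : ℝ) < r.den := by exact_mod_cast hp
      field_simp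
    rw [← h4]
    exact mul_le_mul_of_nonneg_left h3 hr0.le
  have dn : ∀ r : ℚ, (0 : ℝ) < r → (r : ℝ) ≤ x ^ β → (r : ℝ) * L x ≤ L 1 := by
    intro r hr0 hr'
    have hr0' : (0 : ℚ) < r := by exact_mod_cast hr0
    have hp : 1 ≤ r.den := r.den_pos
    have hq : 1 ≤ r.num.toNat := by
      have := Rat.num_pos.2 hr0'
      omega
    have hre : (r : ℝ) = (r.num.toNat : ℝ) / r.den := by
      have h1 : ((r.num.toNat : ℤ) : ℝ) = (r.num : ℝ) := by
        rw [Int.toNat_of_nonneg (Rat.num_pos.2 hr0').le]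
      have h2 : (r.num.toNat : ℝ) = (r.num : ℝ) := by exact_mod_cast h1
      rw [h2]
      exact_mod_cast (Rat.num_div_den r).symm
    have h1 := hr r.den r.num.toNat hp hq
    have h2 : a r.num.toNat / a r.den ≤ x := by
      rw [hapq _ _ hp hq, ← hre]
      conv_rhs => rw [← hinv]
      exact Real.rpow_le_rpow hr0.le hr' (by positivity)
    have h3 := hm _ x (div_pos (ha _ hq) (ha _ hp)) h2
    rw [h1] at h3
    have h4 : (r : ℝ) * ((r.den : ℝ) / r.num.toNat * L 1) = L 1 := by
      rw [hre]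
      have : (0 : ℝ) < r.num.toNat := by exact_mod_cast hq
      have : (0 : ℝ) < r.den := by exact_mod_cast hp
      field_simp
    rw [← h4]
    exact mul_le_mul_of_nonneg_left h3 hr0.le
  have hLx := hL x hx
  have e1 : L 1 ≤ x ^ β * L x := by
    by_contra hc
    push Not at hc
    have h1 : x ^ β < L 1 / L x := by rw [lt_div_iff₀ hLx]; exact hc
    obtain ⟨r, hr1, hr2⟩ := exists_rat_btwn h1
    have h2 := up r hr1.le
    rw [lt_div_iff₀ hLx] at hr2
    linarith
  have e2 : x ^ β * L x ≤ L 1 := by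
    by_contra hc
    push Not at hc
    have h1 : L 1 / L x < x ^ β := by rw [div_lt_iff₀ hLx]; exact hc
    obtain ⟨r, hr1, hr2⟩ := exists_rat_btwn h1
    have h0 : (0 : ℝ) < r := lt_trans (by positivity) hr1
    have h2 := dn r h0 hr2.le
    rw [div_lt_iff₀ hLx] at hr1
    linarith
  have e3 : x ^ β * L x = L 1 := le_antisymm e2 e1
  rw [← e3, Real.rpow_neg hx.le]
  field_simp

end L

/-- the trichotomy for distribution functions with pure scaling -/
theorem types {g : ℝ → ℝ} {a : ℕ → ℝ} (h0 : ∀ s, 0 < s → 0 ≤ g s) (h1 : ∀ s, 0 < s → g s ≤ 1)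
    (hm : ∀ x y, 0 < x → x ≤ y → g x ≤ g y) (ha : ∀ n, 1 ≤ n → 0 < a n)
    (he : ∀ n, 1 ≤ n → ∀ x, 0 < x → g (x / a n) = g x ^ n) :
    (∀ s, 0 < s → g s = 0 ∨ g s = 1) ∨
      ∃ β c : ℝ, 0 < β ∧ 0 < c ∧ (∀ s, 0 < s → g s = Real.exp (-(c * s ^ (-β)))) ∧
        ∀ n : ℕ, 1 ≤ n → a n = (n : ℝ) ^ (1 / β) := by
  by_cases hex : ∃ s0, 0 < s0 ∧ g s0 ≠ 0 ∧ g s0 ≠ 1
  · right
    obtain ⟨s0, hs0, hn0, hn1⟩ := hex
    have ha2 := ha 2 (by norm_num)
    have hg0 : 0 < g s0 ∧ g s0 < 1 :=
      ⟨lt_of_le_of_ne (h0 s0 hs0) (Ne.symm hn0), lt_of_le_of_ne (h1 s0 hs0) hn1⟩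
    have hne : a 2 ≠ 1 := by
      intro hc
      have h2 := he 2 (by norm_num) s0 hs0
      rw [hc, div_one] at h2
      nlinarith [hg0.1, hg0.2]
    have dn : ∀ s, 0 < s → (0 < g s ∧ g s < 1) → (0 < g (s / a 2) ∧ g (s / a 2) < 1) := by
      intro s hs hg
      rw [he 2 (by norm_num) s hs]
      exact ⟨pow_pos hg.1 2, pow_lt_one₀ hg.1.le hg.2 (by norm_num)⟩
    have up : ∀ s, 0 < s → (0 < g s ∧ g s < 1) → (0 < g (s * a 2) ∧ g (s * a 2) < 1) := by
      intro s hs hg
      have h2 := he 2 (by norm_num) (s * a 2) (by positivity)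
      rw [mul_div_cancel_right₀ _ ha2.ne'] at h2
      have h3 := h0 (s * a 2) (by positivity)
      have h4 := h1 (s * a 2) (by positivity)
      constructor
      · rcases h3.lt_or_eq with h | h
        · exact h
        · rw [← h] at h2; simp at h2; linarith [hg.1]
      · rcases h4.lt_or_eq with h | h
        · exact h
        · rw [h] at h2; simp at h2; linarith [hg.2]
    obtain ⟨b, hb1, hbu, hbd⟩ : ∃ b, 1 < b ∧
        (∀ s, 0 < s → (0 < g s ∧ g s < 1) → (0 < g (s * b) ∧ g (s * b) < 1)) ∧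
        (∀ s, 0 < s → (0 < g s ∧ g s < 1) → (0 < g (s / b) ∧ g (s / b) < 1)) := by
      rcases lt_or_gt_of_ne hne with h | h
      · refine ⟨1 / a 2, by rw [lt_div_iff₀ ha2]; linarith, ?_, ?_⟩
        · intro s hs hg
          have : s * (1 / a 2) = s / a 2 := by ring
          rw [this]; exact dn s hs hg
        · intro s hs hg
          have : s / (1 / a 2) = s * a 2 := by field_simp
          rw [this]; exact up s hs hg
      · exact ⟨a 2, h, up, dn⟩
    have hb0 : 0 < b := by linarith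
    have all : ∀ k : ℕ, (0 < g (s0 * b ^ k) ∧ g (s0 * b ^ k) < 1) ∧
        (0 < g (s0 / b ^ k) ∧ g (s0 / b ^ k) < 1) := by
      intro k
      induction k with
      | zero => simpa using hg0
      | succ k ih =>
        constructor
        · have := hbu (s0 * b ^ k) (by positivity) ih.1
          rwa [mul_assoc, ← pow_succ] at this
        · have := hbd (s0 / b ^ k) (by positivity) ih.2
          rwa [div_div, ← pow_succ] at this
    have hG : ∀ s, 0 < s → 0 < g s ∧ g s < 1 := by
      intro s hs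
      obtain ⟨k, hk⟩ := pow_unbounded_of_one_lt (max (s / s0) (s0 / s)) hb1
      have k1 : s ≤ s0 * b ^ k := by
        have := (le_max_left _ _).trans hk.le
        rw [div_le_iff₀ hs0] at this
        linarith
      have k2 : s0 / b ^ k ≤ s := by
        have := (le_max_right (s / s0) (s0 / s)).trans hk.le
        rw [div_le_iff₀ hs] at this
        rw [div_le_iff₀ (by positivity)]
        linarith
      exact ⟨((all k).2.1).trans_le (hm _ _ (by positivity) k2),
        (hm _ _ hs k1).trans_lt (all k).1.2⟩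
    obtain ⟨β, c, hβ, hc, hLx, han⟩ := power_law (L := fun x => -Real.log (g x)) (a := a)
      (fun x hx => neg_pos.2 (Real.log_neg (hG x hx).1 (hG x hx).2))
      (fun x y hx hxy => neg_le_neg (Real.log_le_log (hG x hx).1 (hm x y hx hxy)))
      ha (fun n hn x hx => by
        show -Real.log (g (x / a n)) = n * -Real.log (g x)
        rw [he n hn x hx, Real.log_pow]; ring)
    refine ⟨β, c, hβ, hc, fun s hs => ?_, han⟩
    rw [← hLx s hs, neg_neg, Real.exp_log (hG s hs).1]
  · left
    push Not at hex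
    intro s hs
    by_cases h : g s = 0
    · left; exact h
    · right; exact hex s hs h

end Q297.Cs
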