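import Pool.Agent.Q297.CsB
import Pool.Agent.Q297.CsC

/-!
Necessity: the one-dimensional margins.
-/

open MeasureTheory ProbabilityTheory Set Filter Topology
open scoped ENNReal NNReal Pointwise

namespace Q297.Cs

variable {ι : Type*} [Fintype ι] [DecidableEq ι] {μ : Measure (ι → ℝ)} [IsProbabilityMeasure μ]

/-- real version of the functional equation -/
lemma Feq.real {n : ℕ} {a : ℝ} {κ : (ι → ℝ) → ℝ} (h : Feq μ n a κ) {σ : Type} (u : σ → ι → ℝ)
    (t : σ → ℝ) (hu : ∀ k i, 0 ≤ u k i) :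
    μ.real {x | ∀ k i, u k i * (a * x i) ≤ t k} =
      μ.real {x | ∀ k i, u k i * x i + κ (u k) ≤ t k} ^ n := by
  unfold Measure.real
  rw [h.eq u t hu, ENNReal.toReal_pow]

/-- distribution function of the positive part of a coordinate -/
noncomputable def phi (μ : Measure (ι → ℝ)) (i : ι) (s : ℝ) : ℝ :=
  if 0 ≤ s then μ.real {x | x i ≤ s} else 0

omit [Fintype ι] [DecidableEq ι] in
lemma phi_nonneg (i : ι) (s : ℝ) : 0 ≤ phi μ i s := by
  unfold phi; split_ifs <;> simp

omit [Fintype ι] [DecidableEq ι] in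
lemma phi_le_one (i : ι) (s : ℝ) : phi μ i s ≤ 1 := by
  unfold phi
  split_ifs
  · exact measureReal_le_one
  · norm_num

omit [Fintype ι] [DecidableEq ι] in
lemma phi_mono (i : ι) {s t : ℝ} (h : s ≤ t) : phi μ i s ≤ phi μ i t := by
  unfold phi
  split_ifs with h1 h2 h2
  · exact measureReal_mono (fun x (hx : x i ≤ s) => le_trans hx h)
  · exact absurd (h1.trans h) h2
  · exact measureReal_nonneg
  · exact le_rfl

lemma single_set [Nontrivial ι] (i : ι) (t c a : ℝ) :
    {x : ι → ℝ | ∀ (_ : Unit) (j : ι), (Pi.single i 1 : ι → ℝ) j * (a * x j) + c ≤ t} =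
      {x | 0 ≤ t - c ∧ a * x i ≤ t - c} := by
  ext x
  simp only [mem_ofPred_eq]
  constructor
  · intro h
    obtain ⟨j, hj⟩ := exists_ne i
    have h1 := h () j
    rw [Pi.single_eq_of_ne hj] at h1
    have h2 := h () i
    rw [Pi.single_eq_same] at h2
    exact ⟨by linarith, by linarith⟩
  · rintro ⟨h1, h2⟩ _ j
    by_cases hj : j = i
    · subst hj
      rw [Pi.single_eq_same]; linarith
    · rw [Pi.single_eq_of_ne hj]; linarith

/-- the coordinate shifts -/
noncomputable def ki (κ : (ι → ℝ) → ℝ) (i : ι) : ℝ := κ (Pi.single i 1)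

lemma phi_eq [Nontrivial ι] {n : ℕ} {a : ℝ} {κ : (ι → ℝ) → ℝ} (h : Feq μ n a κ) (_hn : 1 ≤ n)
    (i : ι) (t : ℝ) : phi μ i (t / a) = phi μ i (t - ki κ i) ^ n := by
  have ha := h.pos
  have h1 := h.real (fun _ : Unit => (Pi.single i 1 : ι → ℝ)) (fun _ => t) (by
    intro _ j
    by_cases hj : j = i
    · subst hj; simp
    · simp [Pi.single_eq_of_ne hj])
  have e1 := single_set i t 0 a
  simp only [add_zero, sub_zero] at e1
  have e2 := single_set i t (ki κ i) 1
  simp only [one_mul] at e2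
  change μ.real {x : ι → ℝ | ∀ (_ : Unit) (j : ι), (Pi.single i 1 : ι → ℝ) j * (a * x j) ≤ t} =
    μ.real {x : ι → ℝ | ∀ (_ : Unit) (j : ι), (Pi.single i 1 : ι → ℝ) j * x j + ki κ i ≤ t} ^ n at h1
  rw [e1, e2] at h1
  have c1 : phi μ i (t / a) = μ.real {x : ι → ℝ | 0 ≤ t ∧ a * x i ≤ t} := by
    unfold phi
    by_cases ht : 0 ≤ t
    · rw [if_pos (by positivity)]
      congr 1
      ext x
      simp only [mem_ofPred_eq, ht, true_and]
      rw [le_div_iff₀ ha, mul_comm]
    · have h3 : ¬ 0 ≤ t / a := by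
        push Not at ht ⊢
        exact div_neg_of_neg_of_pos ht ha
      rw [if_neg h3]
      have : {x : ι → ℝ | 0 ≤ t ∧ a * x i ≤ t} = ∅ := by ext x; simp [ht]
      rw [this]; simp
  have c2 : phi μ i (t - ki κ i) = μ.real {x : ι → ℝ | 0 ≤ t - ki κ i ∧ x i ≤ t - ki κ i} := by
    unfold phi
    by_cases ht : 0 ≤ t - ki κ i
    · rw [if_pos ht]
      congr 1
      ext x
      simp only [mem_ofPred_eq, ht, true_and]
    · rw [if_neg ht]
      have : {x : ι → ℝ | 0 ≤ t - ki κ i ∧ x i ≤ t - ki κ i} = ∅ := by ext x; simp [ht]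
      rw [this]; simp
  rw [c1, c2]
  exact h1

/-- generalized inverse comparison -/
lemma shift_eq {G : Set ℝ} (hne : G.Nonempty) (hb : BddBelow G) (hup : ∀ s t, s ∈ G → s ≤ t → t ∈ G)
    {a c : ℝ} (ha : 0 < a) (h : ∀ t, t / a ∈ G ↔ t - c ∈ G) : c = (a - 1) * sInf G := by
  have hlt : ∀ t, sInf G < t → t ∈ G := by
    intro t ht
    obtain ⟨s, hs, hst⟩ := exists_lt_of_csInf_lt hne ht
    exact hup s t hs hst.le
  have hge : ∀ t, t ∈ G → sInf G ≤ t := fun t ht => csInf_le hb ht
  have key : a * sInf G = sInf G + c := by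
    apply le_antisymm
    · by_contra hc
      push Not at hc
      obtain ⟨t, ht1, ht2⟩ := exists_between hc
      have h1 : t - c ∈ G := hlt _ (by linarith)
      have h2 := hge _ ((h t).2 h1)
      rw [le_div_iff₀ ha] at h2
      linarith
    · by_contra hc
      push Not at hc
      obtain ⟨t, ht1, ht2⟩ := exists_between hc
      have h1 : t / a ∈ G := hlt _ (by rw [lt_div_iff₀ ha]; linarith)
      have h2 := hge _ ((h t).1 h1)
      linarith
  linarith

/-- the lower end point of a coordinate -/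
noncomputable def hh (μ : Measure (ι → ℝ)) (i : ι) : ℝ := sInf {s | 0 < phi μ i s}

omit [Fintype ι] [DecidableEq ι] in
lemma tends_one {f : (ι → ℝ) → ℝ} (hf : Measurable f) : Tendsto (fun k : ℕ => μ.real {x | f x ≤ k}) atTop (𝓝 1) := by
  have h1 : Tendsto (fun k : ℕ => μ {x | f x ≤ k}) atTop (𝓝 (μ (⋃ k : ℕ, {x | f x ≤ k}))) := by
    refine tendsto_measure_iUnion_atTop ?_
    intro k l hkl x hx
    have hx' : f x ≤ (k : ℝ) := hx
    have h2 : (k : ℝ) ≤ l := by exact_mod_cast hkl
    exact hx'.trans h2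
  have h2 : (⋃ k : ℕ, {x | f x ≤ (k : ℝ)}) = univ := by
    ext x
    simp only [mem_iUnion, mem_ofPred_eq, mem_univ, iff_true]
    exact exists_nat_ge _
  rw [h2, measure_univ] at h1
  have := (ENNReal.tendsto_toReal ENNReal.one_ne_top).comp h1
  simpa [Measure.real, Function.comp_def] using this

omit [Fintype ι] [DecidableEq ι] in
lemma hh_ne (i : ι) : {s | 0 < phi μ i s}.Nonempty := by
  have h1 := tends_one (μ := μ) (f := fun x => x i) (measurable_pi_apply i)
  obtain ⟨k, hk⟩ := (h1.eventually (lt_mem_nhds (by norm_num : (0 : ℝ) < 1))).exists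
  refine ⟨k, ?_⟩
  simp only [mem_ofPred_eq, phi]
  rw [if_pos (Nat.cast_nonneg k)]
  exact hk

omit [Fintype ι] [DecidableEq ι] in
lemma hh_bdd (i : ι) : BddBelow {s | 0 < phi μ i s} := by
  refine ⟨0, fun s hs => ?_⟩
  by_contra hc
  simp only [mem_ofPred_eq, phi, if_neg hc, lt_irrefl] at hs

omit [Fintype ι] [DecidableEq ι] in
lemma hh_nonneg (i : ι) : 0 ≤ hh μ i := by
  refine le_csInf (hh_ne i) fun s hs => ?_
  by_contra hc
  simp only [mem_ofPred_eq, phi, if_neg hc, lt_irrefl] at hs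

lemma ki_eq [Nontrivial ι] {n : ℕ} {a : ℝ} {κ : (ι → ℝ) → ℝ} (h : Feq μ n a κ) (hn : 1 ≤ n)
    (i : ι) : ki κ i = (a - 1) * hh μ i := by
  refine shift_eq (hh_ne i) (hh_bdd i) (fun s t hs hst => lt_of_lt_of_le hs (phi_mono i hst))
    h.pos fun t => ?_
  simp only [mem_ofPred_eq]
  rw [phi_eq h hn]
  constructor
  · intro h1
    exact lt_of_le_of_ne (phi_nonneg i _) (fun hc => by
      rw [← hc, zero_pow (by omega)] at h1; exact lt_irrefl _ h1)
  · intro h1
    exact pow_pos h1 n

/-- the coordinate is a.s. constant (after taking the positive part), or Fréchet -/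
theorem margin [Nontrivial ι] {a : ℕ → ℝ} {κ : ℕ → (ι → ℝ) → ℝ}
    (hF : ∀ n, 1 ≤ n → Feq μ n (a n) (κ n)) (i : ι) :
    (∀ᵐ x ∂μ, max (x i) 0 = hh μ i) ∨
      ((∀ᵐ x ∂μ, hh μ i < x i) ∧ ∃ β c : ℝ, 0 < β ∧ 0 < c ∧
        (∀ s, 0 < s → μ.real {x | x i ≤ hh μ i + s} = Real.exp (-(c * s ^ (-β)))) ∧
        ∀ n : ℕ, 1 ≤ n → a n = (n : ℝ) ^ (1 / β)) := by
  have hh0 := hh_nonneg (μ := μ) i
  set g : ℝ → ℝ := fun s => phi μ i (hh μ i + s) with hg
  have hgp : ∀ s, 0 < s → 0 < g s := by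
    intro s hs
    obtain ⟨r, hr, hrs⟩ := exists_lt_of_csInf_lt (hh_ne (μ := μ) i)
      (show sInf {s | 0 < phi μ i s} < hh μ i + s by unfold hh; linarith)
    exact lt_of_lt_of_le hr (phi_mono i hrs.le)
  have hgr : ∀ s, 0 < s → g s = μ.real {x | x i ≤ hh μ i + s} := by
    intro s hs
    rw [hg]
    simp only [phi]
    rw [if_pos (by linarith)]
  have ht := types (g := g) (a := a) (fun s _ => phi_nonneg i _) (fun s _ => phi_le_one i _)
    (fun x y _ hxy => phi_mono i (by linarith)) (fun n hn => (hF n hn).pos) (by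
      intro n hn x hx
      have ha := (hF n hn).pos
      have h1 := phi_eq (hF n hn) hn i (a n * hh μ i + x)
      rw [ki_eq (hF n hn) hn i] at h1
      rw [hg]
      simp only
      have e1 : (a n * hh μ i + x) / a n = hh μ i + x / a n := by field_simp
      have e2 : a n * hh μ i + x - (a n - 1) * hh μ i = hh μ i + x := by ring
      rw [e1, e2] at h1
      exact h1)
  rcases ht with ht | ⟨β, c, hβ, hc, hgs, han⟩
  · left
    have h1 : ∀ k : ℕ, ∀ᵐ x ∂μ, x i ≤ hh μ i + 1 / ((k : ℝ) + 1) := by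
      intro k
      have hk : (0 : ℝ) < 1 / ((k : ℝ) + 1) := by positivity
      have h2 := (ht _ hk).resolve_left (hgp _ hk).ne'
      rw [hgr _ hk] at h2
      have h3 : MeasurableSet {x : ι → ℝ | x i ≤ hh μ i + 1 / ((k : ℝ) + 1)} :=
        measurableSet_le (measurable_pi_apply i) measurable_const
      have h4 : μ {x : ι → ℝ | x i ≤ hh μ i + 1 / ((k : ℝ) + 1)} = 1 := by
        have h5 : (μ {x : ι → ℝ | x i ≤ hh μ i + 1 / ((k : ℝ) + 1)}).toReal = 1 := h2
        rw [← ENNReal.ofReal_toReal (measure_ne_top μ _), h5, ENNReal.ofReal_one]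
      exact (prob_compl_eq_zero_iff h3).2 h4
    have h2 : ∀ᵐ x ∂μ, x i ≤ hh μ i := by
      filter_upwards [ae_all_iff.2 h1] with x hx
      have h3 : Tendsto (fun k : ℕ => hh μ i + 1 / ((k : ℝ) + 1)) atTop (𝓝 (hh μ i + 0)) :=
        tendsto_const_nhds.add tendsto_one_div_add_atTop_nhds_zero_nat
      rw [add_zero] at h3
      exact ge_of_tendsto' h3 hx
    rcases hh0.lt_or_eq with hpos | hzero
    · have h3 : ∀ k : ℕ, ∀ᵐ x ∂μ, hh μ i - 1 / ((k : ℝ) + 1) < x i := by
        intro k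
        have hk : (0 : ℝ) < 1 / ((k : ℝ) + 1) := by positivity
        have h4 : μ.real {x : ι → ℝ | x i ≤ hh μ i - 1 / ((k : ℝ) + 1)} = 0 := by
          set r := max 0 (hh μ i - 1 / ((k : ℝ) + 1)) with hr
          have hr1 : r < hh μ i := max_lt hpos (by linarith)
          have h5 : phi μ i r = 0 := by
            by_contra hc
            have h6 : 0 < phi μ i r := lt_of_le_of_ne (phi_nonneg i r) (Ne.symm hc)
            have h7 : hh μ i ≤ r := csInf_le (hh_bdd i) h6
            linarith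
          unfold phi at h5
          rw [if_pos (le_max_left _ _)] at h5
          refine le_antisymm ?_ measureReal_nonneg
          rw [← h5]
          refine measureReal_mono fun x hx => ?_
          have hx' : x i ≤ hh μ i - 1 / ((k : ℝ) + 1) := hx
          exact hx'.trans (le_max_right _ _)
        have h5 : μ {x : ι → ℝ | x i ≤ hh μ i - 1 / ((k : ℝ) + 1)} = 0 := by
          rw [← ENNReal.ofReal_toReal (measure_ne_top μ _)]
          have : (μ {x : ι → ℝ | x i ≤ hh μ i - 1 / ((k : ℝ) + 1)}).toReal = 0 := h4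
          rw [this, ENNReal.ofReal_zero]
        filter_upwards [measure_eq_zero_iff_ae_notMem.1 h5] with x hx
        exact not_le.1 hx
      filter_upwards [h2, ae_all_iff.2 h3] with x hx hx3
      have h4 : Tendsto (fun k : ℕ => hh μ i - 1 / ((k : ℝ) + 1)) atTop (𝓝 (hh μ i - 0)) :=
        tendsto_const_nhds.sub tendsto_one_div_add_atTop_nhds_zero_nat
      rw [sub_zero] at h4
      have h5 : hh μ i ≤ x i := le_of_tendsto' h4 fun k => (hx3 k).le
      rw [max_eq_left (by linarith)]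
      exact le_antisymm hx h5
    · filter_upwards [h2] with x hx
      rw [← hzero] at hx ⊢
      exact max_eq_right hx
  · right
    refine ⟨?_, β, c, hβ, hc, fun s hs => by rw [← hgr s hs]; exact hgs s hs, han⟩
    have h1 : μ {x : ι → ℝ | x i ≤ hh μ i} = 0 := by
      have h2 : Tendsto (fun k : ℕ => Real.exp (-(c * (1 / ((k : ℝ) + 1)) ^ (-β)))) atTop (𝓝 0) := by
        refine Real.tendsto_exp_atBot.comp ?_
        refine tendsto_neg_atTop_atBot.comp ?_
        refine Tendsto.const_mul_atTop hc ?_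
        have h3 : ∀ k : ℕ, (1 / ((k : ℝ) + 1)) ^ (-β) = ((k : ℝ) + 1) ^ β := by
          intro k
          rw [one_div, Real.inv_rpow (by positivity), Real.rpow_neg (by positivity), inv_inv]
        simp_rw [h3]
        refine (tendsto_rpow_atTop hβ).comp ?_
        exact tendsto_atTop_add_const_right _ _ tendsto_natCast_atTop_atTop
      have h3 : ∀ k : ℕ, μ.real {x : ι → ℝ | x i ≤ hh μ i} ≤
          Real.exp (-(c * (1 / ((k : ℝ) + 1)) ^ (-β))) := by
        intro k
        have hk : (0 : ℝ) < 1 / ((k : ℝ) + 1) := by positivity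
        rw [← hgs _ hk, hgr _ hk]
        refine measureReal_mono fun x hx => ?_
        simp only [mem_ofPred_eq] at hx ⊢
        linarith
      have h4 : μ.real {x : ι → ℝ | x i ≤ hh μ i} ≤ 0 := ge_of_tendsto' h2 h3
      have h5 : (μ {x : ι → ℝ | x i ≤ hh μ i}).toReal = 0 := le_antisymm h4 ENNReal.toReal_nonneg
      rw [← ENNReal.ofReal_toReal (measure_ne_top μ _), h5, ENNReal.ofReal_zero]
    filter_upwards [measure_eq_zero_iff_ae_notMem.1 h1] with x hx
    exact not_le.1 hx

end Q297.Cs
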