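import Pool.Agent.Q297.CsD

/-!
Necessity: the joint structure.
-/

open MeasureTheory ProbabilityTheory Set Filter Topology
open scoped ENNReal NNReal Pointwise

namespace Q297.Cs

variable {ι : Type} [Fintype ι] [DecidableEq ι]

/-- `X` is a.s. constant -/
def TypeD (μ : Measure (ι → ℝ)) : Prop :=
  ∃ c : ι → ℝ, ((∀ i, c i < 0) ∧ ∀ᵐ x ∂μ, x = c) ∨
    ((∀ i, 0 ≤ c i) ∧ ∀ᵐ x ∂μ, (∃ i, 0 ≤ x i) ∧ ∀ i, max (x i) 0 = c i)

/-- negative max-stable vectors -/
def TypeP (μ : Measure (ι → ℝ)) : Prop :=
  (∀ᵐ x ∂μ, ∀ i, x i < 0) ∧ ∃ α : ℝ, 0 < α ∧ ∀ n : ℕ, 1 ≤ n → ∀ y : ι → ℝ,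
    μ {x | ∀ i, x i ≤ y i} ^ n = μ {x | ∀ i, x i ≤ (n : ℝ) ^ (1 / α) * y i}

/-- vectors with max-stable positive part -/
def TypeF (μ : Measure (ι → ℝ)) : Prop :=
  (∀ᵐ x ∂μ, ∃ i, 0 ≤ x i) ∧ ∃ α : ℝ, 0 < α ∧ ∀ n : ℕ, 1 ≤ n → ∀ y : ι → ℝ, (∀ i, 0 ≤ y i) →
    μ {x | ∀ i, x i ≤ y i} ^ n = μ {x | ∀ i, x i ≤ (n : ℝ) ^ (-(1 / α)) * y i}

/-- positive part equal to `(1 + θ) c` with a Fréchet variable `θ` -/
def TypeH (μ : Measure (ι → ℝ)) : Prop :=
  ∃ c : ι → ℝ, (∀ i, 0 ≤ c i) ∧ (∃ i, 0 < c i) ∧ ∃ α b : ℝ, 0 < α ∧ 0 < b ∧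
    (∀ᵐ x ∂μ, ∃ s, 0 < s ∧ ∀ i, max (x i) 0 = (1 + s) * c i) ∧
    ∀ s, 0 < s → μ {x | ∀ i, x i ≤ (1 + s) * c i} = ENNReal.ofReal (Real.exp (-(b * s ^ (-α))))

variable {μ : Measure (ι → ℝ)} [IsProbabilityMeasure μ]

lemma single_nonneg (k j : ι) : 0 ≤ (Pi.single k 1 : ι → ℝ) j := by
  by_cases hj : j = k
  · subst hj; simp
  · simp [Pi.single_eq_of_ne hj]

omit [Fintype ι] in
lemma singles_set (y : ι → ℝ) (c : ι → ℝ) (hy : ∀ k, c k ≤ y k) (a : ℝ) :
    {x : ι → ℝ | ∀ k j : ι, (Pi.single k 1 : ι → ℝ) j * (a * x j) + c k ≤ y k} =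
      {x | ∀ k, a * x k + c k ≤ y k} := by
  ext x
  simp only [mem_ofPred_eq]
  constructor
  · intro h k
    have := h k k
    rwa [Pi.single_eq_same, one_mul] at this
  · intro h k j
    by_cases hj : j = k
    · subst hj
      rw [Pi.single_eq_same, one_mul]; exact h j
    · rw [Pi.single_eq_of_ne hj, zero_mul, zero_add]; exact hy k

/-- strictly stable case with positive coordinates -/
lemma typeF_of {a : ℕ → ℝ} {κ : ℕ → (ι → ℝ) → ℝ} (hF : ∀ n, 1 ≤ n → Feq μ n (a n) (κ n))
    (hk : ∀ n, 1 ≤ n → ∀ i, ki (κ n) i = 0) (hpos : ∀ᵐ x ∂μ, ∃ i, 0 ≤ x i) {β : ℝ} (hβ : 0 < β)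
    (han : ∀ n : ℕ, 1 ≤ n → a n = (n : ℝ) ^ (1 / β)) : TypeF μ := by
  refine ⟨hpos, β, hβ, fun n hn y hy => ?_⟩
  have ha := (hF n hn).pos
  have h1 := (hF n hn).eq (fun k : ι => (Pi.single k 1 : ι → ℝ)) y (fun k j => single_nonneg k j)
  have e1 : {x : ι → ℝ | ∀ k i, (Pi.single k 1 : ι → ℝ) i * (a n * x i) ≤ y k} =
      {x | ∀ i, x i ≤ (n : ℝ) ^ (-(1 / β)) * y i} := by
    have e := singles_set y (fun _ => 0) hy (a n)
    simp only [add_zero] at e
    rw [e]
    ext x
    simp only [mem_ofPred_eq]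
    have hn0 : (0 : ℝ) < n := by exact_mod_cast hn
    refine forall_congr' fun i => ?_
    rw [Real.rpow_neg hn0.le, ← han n hn, ← div_eq_inv_mul, le_div_iff₀ ha, mul_comm]
  have e2 : {x : ι → ℝ | ∀ k i, (Pi.single k 1 : ι → ℝ) i * x i + κ n (Pi.single k 1) ≤ y k} =
      {x | ∀ i, x i ≤ y i} := by
    have hk' : ∀ k, κ n (Pi.single k 1) = 0 := fun k => hk n hn k
    have e := singles_set y (fun _ => 0) hy 1
    simp only [add_zero, one_mul] at e
    simp_rw [hk', add_zero]
    exact e
  rw [e1, e2] at h1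
  exact h1.symm

/-- the two descriptions of the lower level sets -/
lemma joint_iff [Nontrivial ι] {n : ℕ} {a : ℝ} {κ : (ι → ℝ) → ℝ} (h : Feq μ n a κ) (hn : 1 ≤ n)
    (hpos : ∀ᵐ x ∂μ, ∃ i, 0 ≤ x i) {u : ι → ℝ} (hu : ∀ i, 0 < u i) (t : ℝ) :
    ∀ᵐ x ∂μ, (∀ i, u i * x i + κ u ≤ t) ↔ ∀ i, u i * (max (x i) 0 + ki κ i) ≤ t := by
  have ha := h.pos
  -- the three families
  set SA : Set (ι → ℝ) := {x | ∀ i, u i * (max (x i) 0 + ki κ i) ≤ t} with hSA
  set SC : Set (ι → ℝ) := {x | ∀ i, u i * x i + κ u ≤ t} with hSC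
  have mSA : MeasurableSet SA := by
    have : SA = ⋂ i, {x | u i * (max (x i) 0 + ki κ i) ≤ t} := by ext x; simp [hSA]
    rw [this]
    exact MeasurableSet.iInter fun i => measurableSet_le (by fun_prop) measurable_const
  have mSC : MeasurableSet SC := by
    have : SC = ⋂ i, {x | u i * x i + κ u ≤ t} := by ext x; simp [hSC]
    rw [this]
    exact MeasurableSet.iInter fun i => measurableSet_le (by fun_prop) measurable_const
  set LC : Set (ι → ℝ) := {x | ∀ i, u i * (a * x i) ≤ t} with hLC
  set LA : Set (ι → ℝ) := {x | 0 ≤ t ∧ ∀ i, u i * (a * x i) ≤ t} with hLA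
  have hne : Nonempty ι := inferInstance
  -- family A
  have hA : μ LA = μ SA ^ n := by
    have h1 := h.eq (fun k : ι => (Pi.single k 1 : ι → ℝ)) (fun k => t / u k)
      (fun k j => single_nonneg k j)
    have e1 : {x : ι → ℝ | ∀ k i, (Pi.single k 1 : ι → ℝ) i * (a * x i) ≤ t / u k} = LA := by
      ext x
      simp only [mem_ofPred_eq, hLA]
      constructor
      · intro hx
        constructor
        · obtain ⟨k⟩ := hne
          obtain ⟨j, hj⟩ := exists_ne k
          have := hx k j
          rw [Pi.single_eq_of_ne hj, zero_mul, le_div_iff₀ (hu k), zero_mul] at this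
          exact this
        · intro i
          have := hx i i
          rw [Pi.single_eq_same, one_mul, le_div_iff₀ (hu i)] at this
          linarith
      · rintro ⟨ht, hx⟩ k j
        rw [le_div_iff₀ (hu k)]
        by_cases hj : j = k
        · subst hj
          rw [Pi.single_eq_same, one_mul]
          have := hx j
          linarith
        · rw [Pi.single_eq_of_ne hj, zero_mul, zero_mul]; exact ht
    have e2 : {x : ι → ℝ | ∀ k i, (Pi.single k 1 : ι → ℝ) i * x i + κ (Pi.single k 1) ≤ t / u k} =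
        SA := by
      ext x
      simp only [mem_ofPred_eq, hSA]
      constructor
      · intro hx i
        obtain ⟨j, hj⟩ := exists_ne i
        have h1 := hx i j
        rw [Pi.single_eq_of_ne hj, zero_mul, zero_add, le_div_iff₀ (hu i)] at h1
        have h2 := hx i i
        rw [Pi.single_eq_same, one_mul, le_div_iff₀ (hu i)] at h2
        change (x i + ki κ i) * u i ≤ t at h2
        change ki κ i * u i ≤ t at h1
        rcases max_cases (x i) 0 with hm | hm <;> rw [hm.1] <;> linarith
      · intro hx k j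
        have h1 := hx k
        change _ + ki κ k ≤ _
        rw [le_div_iff₀ (hu k)]
        have huk := hu k
        by_cases hj : j = k
        · subst hj
          rw [Pi.single_eq_same, one_mul]
          have h2 := le_max_left (x j) 0
          nlinarith
        · rw [Pi.single_eq_of_ne hj, zero_mul, zero_add]
          have h2 := le_max_right (x k) 0
          nlinarith
    rw [e1, e2] at h1
    exact h1
  -- family C
  have hC : μ LC = μ SC ^ n := by
    have h1 := h.eq (fun _ : Unit => u) (fun _ => t) (fun _ i => (hu i).le)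
    simpa only [forall_const] using h1
  -- family B
  have hB : μ LA = μ (SA ∩ SC) ^ n := by
    have h1 := h.eq (fun k : Option ι => k.elim u fun k => (Pi.single k 1 : ι → ℝ))
      (fun k => k.elim t fun k => t / u k) (by
        intro k i
        cases k with
        | none => exact (hu i).le
        | some k => exact single_nonneg k i)
    have e1 : {x : ι → ℝ | ∀ (k : Option ι) (i : ι),
        (k.elim u fun k => (Pi.single k 1 : ι → ℝ)) i * (a * x i) ≤
          (k.elim t fun k => t / u k)} = LA := by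
      ext x
      simp only [mem_ofPred_eq, Option.forall, Option.elim_none, Option.elim_some, hLA]
      constructor
      · rintro ⟨h2, h3⟩
        refine ⟨?_, h2⟩
        obtain ⟨k⟩ := hne
        obtain ⟨j, hj⟩ := exists_ne k
        have := h3 k j
        rw [Pi.single_eq_of_ne hj, zero_mul, le_div_iff₀ (hu k), zero_mul] at this
        exact this
      · rintro ⟨ht, hx⟩
        refine ⟨hx, fun k j => ?_⟩
        rw [le_div_iff₀ (hu k)]
        by_cases hj : j = k
        · subst hj
          rw [Pi.single_eq_same, one_mul]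
          have := hx j
          linarith
        · rw [Pi.single_eq_of_ne hj, zero_mul, zero_mul]; exact ht
    have e2 : {x : ι → ℝ | ∀ (k : Option ι) (i : ι),
        (k.elim u fun k => (Pi.single k 1 : ι → ℝ)) i * x i +
          κ (k.elim u fun k => (Pi.single k 1 : ι → ℝ)) ≤ (k.elim t fun k => t / u k)} =
        SA ∩ SC := by
      ext x
      simp only [mem_ofPred_eq, Option.forall, Option.elim_none, Option.elim_some, mem_inter_iff,
        hSA, hSC]
      rw [and_comm]
      refine and_congr ?_ Iff.rfl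
      constructor
      · intro hx i
        obtain ⟨j, hj⟩ := exists_ne i
        have h1 := hx i j
        rw [Pi.single_eq_of_ne hj, zero_mul, zero_add, le_div_iff₀ (hu i)] at h1
        have h2 := hx i i
        rw [Pi.single_eq_same, one_mul, le_div_iff₀ (hu i)] at h2
        change (x i + ki κ i) * u i ≤ t at h2
        change ki κ i * u i ≤ t at h1
        rcases max_cases (x i) 0 with hm | hm <;> rw [hm.1] <;> linarith
      · intro hx k j
        have h1 := hx k
        change _ + ki κ k ≤ _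
        rw [le_div_iff₀ (hu k)]
        have huk := hu k
        by_cases hj : j = k
        · subst hj
          rw [Pi.single_eq_same, one_mul]
          have h2 := le_max_left (x j) 0
          nlinarith
        · rw [Pi.single_eq_of_ne hj, zero_mul, zero_add]
          have h2 := le_max_right (x k) 0
          nlinarith
    rw [e1, e2] at h1
    exact h1
  have hinj : ∀ p q : ℝ≥0∞, p ^ n = q ^ n → p = q := fun p q hpq =>
    (ENNReal.pow_right_strictMono (by omega : n ≠ 0)).injective hpq
  have hAB : μ SA = μ (SA ∩ SC) := hinj _ _ (hA.symm.trans hB)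
  have h1 : ∀ᵐ x ∂μ, x ∈ SA → x ∈ SC := by
    have h2 : μ (SA \ SC) = 0 := by
      have h3 := measure_inter_add_sdiff (μ := μ) SA mSC
      rw [← hAB] at h3
      exact (ENNReal.add_right_inj (measure_ne_top μ SA)).1 (by rw [h3, add_zero])
    filter_upwards [measure_eq_zero_iff_ae_notMem.1 h2] with x hx hxA
    by_contra hc
    exact hx ⟨hxA, hc⟩
  have h2 : ∀ᵐ x ∂μ, x ∈ SC → x ∈ SA := by
    by_cases ht : 0 ≤ t
    · have hLL : LC = LA := by
        ext x; simp [hLC, hLA, ht]
      rw [hLL] at hC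
      have hCB : μ SC = μ (SA ∩ SC) := hinj _ _ (hC.symm.trans hB)
      have h2 : μ (SC \ SA) = 0 := by
        have h3 := measure_inter_add_sdiff (μ := μ) SC mSA
        rw [inter_comm, ← hCB] at h3
        exact (ENNReal.add_right_inj (measure_ne_top μ SC)).1 (by rw [h3, add_zero])
      filter_upwards [measure_eq_zero_iff_ae_notMem.1 h2] with x hx hxA
      by_contra hc
      exact hx ⟨hxA, hc⟩
    · have h3 : μ LC = 0 := by
        rw [measure_eq_zero_iff_ae_notMem]
        filter_upwards [hpos] with x ⟨i, hi⟩ hx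
        have h4 := hx i
        have h5 : 0 ≤ u i * (a * x i) := by
          have := (hu i).le
          positivity
        linarith
      rw [h3] at hC
      have h4 : μ SC = 0 := by
        have := hC.symm
        exact (pow_eq_zero_iff (by omega)).1 this
      filter_upwards [measure_eq_zero_iff_ae_notMem.1 h4] with x hx hxC
      exact absurd hxC hx
  filter_upwards [h1, h2] with x hx1 hx2
  exact ⟨hx2, hx1⟩

/-- the identity for all directions -/
lemma joint_all [Nontrivial ι] {n : ℕ} {a : ℝ} {κ : (ι → ℝ) → ℝ} (h : Feq μ n a κ) (hn : 1 ≤ n)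
    (hpos : ∀ᵐ x ∂μ, ∃ i, 0 ≤ x i) :
    ∀ᵐ x ∂μ, ∀ u : ι → ℝ, (∀ i, 0 ≤ u i) → ∀ t,
      (∀ i, u i * max (x i) 0 + κ u ≤ t) ↔ ∀ i, u i * (max (x i) 0 + ki κ i) ≤ t := by
  have hne : (Finset.univ : Finset ι).Nonempty := Finset.univ_nonempty
  have h1 : ∀ᵐ x ∂μ, ∀ u : ι → ℚ, (∀ i, 0 < u i) → ∀ t : ℚ,
      (∀ i, (u i : ℝ) * x i + κ (fun i => (u i : ℝ)) ≤ t) ↔
        ∀ i, (u i : ℝ) * (max (x i) 0 + ki κ i) ≤ t := by
    rw [ae_all_iff]
    intro u
    by_cases hu : ∀ i, 0 < u i
    · simp only [hu, implies_true, true_implies]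
      rw [ae_all_iff]
      intro t
      exact joint_iff h hn hpos (u := fun i => (u i : ℝ)) (fun i => by exact_mod_cast hu i) t
    · simp only [hu, false_implies, Filter.eventually_true]
  filter_upwards [h1, hpos] with x hx ⟨i0, hi0⟩
  -- continuous functions
  set z : ι → ℝ := fun i => max (x i) 0 with hz
  set Af : (ι → ℝ) → ℝ := fun u => Finset.univ.sup' hne (fun i => u i * z i) + κ u with hAf
  set Bf : (ι → ℝ) → ℝ := fun u => Finset.univ.sup' hne (fun i => u i * (z i + ki κ i)) with hBf
  have hκc : Continuous κ := by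
    obtain ⟨C, hC0, hC⟩ := h.lip
    rw [continuous_iff_continuousAt]
    intro v
    rw [ContinuousAt, tendsto_iff_dist_tendsto_zero]
    have h3 : Continuous (fun w : ι → ℝ => C * ∑ k, |w k - v k|) := by fun_prop
    have h4 := h3.tendsto v
    simp only [sub_self, abs_zero, Finset.sum_const_zero, mul_zero] at h4
    refine squeeze_zero (fun _ => dist_nonneg) (fun w => ?_) h4
    rw [Real.dist_eq, abs_le]
    have h5 := hC w v
    have h6 := hC v w
    have h7 : ∑ k, |v k - w k| = ∑ k, |w k - v k| :=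
      Finset.sum_congr rfl fun k _ => abs_sub_comm _ _
    rw [h7] at h6
    constructor <;> linarith
  have hAc : Continuous Af :=
    (Continuous.finset_sup'_apply hne fun i _ => by fun_prop).add hκc
  have hBc : Continuous Bf := Continuous.finset_sup'_apply hne fun i _ => by fun_prop
  have hAle : ∀ (u : ι → ℝ) (t : ℝ), Af u ≤ t ↔ ∀ i, u i * z i + κ u ≤ t := by
    intro u t
    rw [hAf]
    simp only
    rw [← le_sub_iff_add_le, Finset.sup'_le_iff]
    constructor
    · intro h i; have := h i (Finset.mem_univ i); linarith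
    · intro h i _; have := h i; linarith
  have hBle : ∀ (u : ι → ℝ) (t : ℝ), Bf u ≤ t ↔ ∀ i, u i * (z i + ki κ i) ≤ t := by
    intro u t
    rw [hBf]
    simp only
    rw [Finset.sup'_le_iff]
    simp
  -- equality on positive rational directions
  set Dn : Set (ι → ℝ) := {u | ∃ r : ι → ℚ, (∀ i, 0 < r i) ∧ u = fun i => (r i : ℝ)} with hDn
  have hEq : EqOn Af Bf Dn := by
    rintro u ⟨r, hr, rfl⟩
    have hr' : ∀ i, (0 : ℝ) < r i := fun i => by exact_mod_cast hr i
    have key : ∀ t : ℚ, Af (fun i => (r i : ℝ)) ≤ t ↔ Bf (fun i => (r i : ℝ)) ≤ t := by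
      intro t
      rw [hAle, hBle, ← hx r hr t]
      constructor
      · intro h i
        have h2 := le_max_left (x i) 0
        have h3 := h i
        have h4 : (r i : ℝ) * x i ≤ (r i : ℝ) * z i := mul_le_mul_of_nonneg_left h2 (hr' i).le
        linarith
      · intro h i
        have h3 := h i
        have h4 := h i0
        rw [hz]
        simp only
        rcases max_cases (x i) 0 with hm | hm <;> rw [hm.1]
        · exact h3
        · rw [mul_zero, zero_add]
          have h5 : 0 ≤ (r i0 : ℝ) * x i0 := mul_nonneg (hr' i0).le hi0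
          linarith
    apply le_antisymm
    · by_contra hc
      push Not at hc
      obtain ⟨t, ht1, ht2⟩ := exists_rat_btwn hc
      have := (key t).2 ht1.le
      linarith
    · by_contra hc
      push Not at hc
      obtain ⟨t, ht1, ht2⟩ := exists_rat_btwn hc
      have := (key t).1 ht1.le
      linarith
  have hcl := hEq.closure hAc hBc
  intro u hu t
  have humem : u ∈ closure Dn := by
    rw [mem_closure_iff_seq_limit]
    have h5 : ∀ (m : ℕ) (i : ι), ∃ r : ℚ, u i < r ∧ (r : ℝ) < u i + 1 / ((m : ℝ) + 1) := by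
      intro m i
      exact exists_rat_btwn (by have : (0 : ℝ) < 1 / ((m : ℝ) + 1) := by positivity
                                linarith)
    choose r hr1 hr2 using h5
    refine ⟨fun m i => (r m i : ℝ), fun m => ⟨r m, fun i => ?_, rfl⟩, ?_⟩
    · have := (hu i).trans_lt (hr1 m i)
      exact_mod_cast this
    · rw [tendsto_pi_nhds]
      intro i
      have h6 : Tendsto (fun m : ℕ => u i + 1 / ((m : ℝ) + 1)) atTop (𝓝 (u i + 0)) :=
        tendsto_const_nhds.add tendsto_one_div_add_atTop_nhds_zero_nat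
      rw [add_zero] at h6
      exact tendsto_of_tendsto_of_tendsto_of_le_of_le tendsto_const_nhds h6
        (fun m => (hr1 m i).le) (fun m => (hr2 m i).le)
  have h7 := hcl humem
  rw [← hAle, ← hBle, h7]

/-- the kink argument -/
lemma kink {κ : (ι → ℝ) → ℝ} {z k : ι → ℝ} (hadd : ∀ u v, κ (fun i => u i + v i) ≤ κ u + κ v)
    (hsm : ∀ u s, 0 ≤ s → κ (fun i => s * u i) = s * κ u) (hz : ∀ i, 0 ≤ z i) (hk : ∀ i, 0 ≤ k i)
    (h : ∀ u : ι → ℝ, (∀ i, 0 ≤ u i) → ∀ t,
      (∀ i, u i * z i + κ u ≤ t) ↔ ∀ i, u i * (z i + k i) ≤ t)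
    {i j : ι} (hij : i ≠ j) (hi : 0 < z i) (hj : 0 < z j) : z j * k i ≤ z i * k j := by
  by_contra hc
  push Not at hc
  have hkj := hk j
  have hki := hk i
  set ε := min (z i) ((z j * k i - z i * k j) / (z j + k j)) with hε
  have hε0 : 0 < ε := lt_min hi (div_pos (by linarith) (by linarith))
  have hε1 : ε ≤ z i := min_le_left _ _
  have hε2 : ε * (z j + k j) ≤ z j * k i - z i * k j := by
    have := min_le_right (z i) ((z j * k i - z i * k j) / (z j + k j))
    rw [← hε, le_div_iff₀ (by linarith)] at this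
    exact this
  set v : ℝ → ι → ℝ := fun r l => if l = i then z j else if l = j then r else 0 with hv
  have vi : ∀ r, v r i = z j := fun r => by simp [hv]
  have vj : ∀ r, v r j = r := fun r => by simp [hv, hij.symm]
  have vo : ∀ r l, l ≠ i → l ≠ j → v r l = 0 := fun r l h1 h2 => by simp [hv, h1, h2]
  have vnn : ∀ r, 0 ≤ r → ∀ l, 0 ≤ v r l := by
    intro r hr l
    rw [hv]
    simp only
    split_ifs
    · exact hj.le
    · exact hr
    · exact le_rfl
  -- lower bound in the middle
  have h0 : z j * k i ≤ κ (v (z i)) := by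
    have h1 := (h (v (z i)) (vnn _ hi.le) (z i * z j + κ (v (z i)))).1 (by
      intro l
      by_cases hl : l = i
      · subst hl; rw [vi]; linarith [mul_comm (z l) (z j)]
      · by_cases hl2 : l = j
        · subst hl2; rw [vj]
        · rw [vo _ _ hl hl2, zero_mul]
          have := mul_nonneg (hz i) (hz j)
          linarith) i
    rw [vi] at h1
    nlinarith
  -- left
  have hm : κ (v (z i - ε)) ≤ z j * k i := by
    have h1 := (h (v (z i - ε)) (vnn _ (by linarith)) (z j * (z i + k i))).2 (by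
      intro l
      by_cases hl : l = i
      · subst hl; rw [vi]
      · by_cases hl2 : l = j
        · subst hl2; rw [vj]
          nlinarith
        · rw [vo _ _ hl hl2, zero_mul]
          positivity) i
    rw [vi] at h1
    nlinarith
  -- right
  have hp : κ (v (z i + ε)) ≤ z j * k i - ε * z j := by
    have h1 := (h (v (z i + ε)) (vnn _ (by linarith)) (z j * (z i + k i))).2 (by
      intro l
      by_cases hl : l = i
      · subst hl; rw [vi]
      · by_cases hl2 : l = j
        · subst hl2; rw [vj]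
          nlinarith
        · rw [vo _ _ hl hl2, zero_mul]
          positivity) j
    rw [vj] at h1
    nlinarith
  have h2 : κ (fun l => 2 * v (z i) l) ≤ κ (v (z i - ε)) + κ (v (z i + ε)) := by
    have e : (fun l => 2 * v (z i) l) = fun l => v (z i - ε) l + v (z i + ε) l := by
      funext l
      by_cases hl : l = i
      · subst hl; rw [vi, vi, vi]; ring
      · by_cases hl2 : l = j
        · subst hl2; rw [vj, vj, vj]; ring
        · rw [vo _ _ hl hl2, vo _ _ hl hl2, vo _ _ hl hl2]; ring
    rw [e]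
    exact hadd _ _
  rw [hsm _ _ (by norm_num)] at h2
  nlinarith [mul_pos hε0 hj]

end Q297.Cs
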