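import Pool.Agent.Q297.CsE

/-!
Necessity: the negative case and the assembly.
-/

open MeasureTheory ProbabilityTheory Set Filter Topology
open scoped ENNReal NNReal Pointwise

namespace Q297.Cs

variable {ι : Type} [Fintype ι] [DecidableEq ι] {μ : Measure (ι → ℝ)} [IsProbabilityMeasure μ]

/-- subadditivity over the coordinates -/
lemma kappa_le {κ : (ι → ℝ) → ℝ} (hadd : ∀ u v, κ (fun i => u i + v i) ≤ κ u + κ v)
    (hsm : ∀ u s, 0 ≤ s → κ (fun i => s * u i) = s * κ u) {u : ι → ℝ} (hu : ∀ i, 0 ≤ u i) :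
    κ u ≤ ∑ i, u i * ki κ i := by
  have h0 : κ (fun _ => 0) = 0 := by
    have := hsm (fun _ => 0) 0 le_rfl
    simpa using this
  have h1 : ∀ s : Finset ι, κ (fun j => if j ∈ s then u j else 0) ≤ ∑ i ∈ s, u i * ki κ i := by
    intro s
    induction s using Finset.induction_on with
    | empty => simp [h0]
    | insert i s hi ih =>
      rw [Finset.sum_insert hi]
      have e : (fun j => if j ∈ insert i s then u j else 0) =
          fun j => u i * (Pi.single i 1 : ι → ℝ) j + (if j ∈ s then u j else 0) := by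
        funext j
        by_cases hj : j = i
        · subst hj; simp [hi]
        · simp [Finset.mem_insert, hj]
      rw [e]
      refine (hadd _ _).trans ?_
      rw [hsm _ _ (hu i)]
      exact add_le_add le_rfl ih
  have h2 := h1 Finset.univ
  simpa using h2

/-- distribution function of a direction -/
noncomputable def psi (μ : Measure (ι → ℝ)) (u : ι → ℝ) (t : ℝ) : ℝ :=
  μ.real {x | ∀ i, u i * x i ≤ t}

omit [Fintype ι] [DecidableEq ι] in
lemma psi_mono (u : ι → ℝ) {s t : ℝ} (h : s ≤ t) : psi μ u s ≤ psi μ u t :=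
  measureReal_mono fun _ hx i => (hx i).trans h

lemma psi_eq {n : ℕ} {a : ℝ} {κ : (ι → ℝ) → ℝ} (h : Feq μ n a κ) {u : ι → ℝ}
    (hu : ∀ i, 0 ≤ u i) (t : ℝ) : psi μ u (t / a) = psi μ u (t - κ u) ^ n := by
  have ha := h.pos
  have h1 := h.real (fun _ : Unit => u) (fun _ => t) (fun _ i => hu i)
  simp only [forall_const] at h1
  unfold psi
  have e1 : {x : ι → ℝ | ∀ i, u i * x i ≤ t / a} = {x | ∀ i, u i * (a * x i) ≤ t} := by
    ext x
    simp only [mem_ofPred_eq]
    refine forall_congr' fun i => ?_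
    rw [le_div_iff₀ ha]
    constructor <;> intro h <;> linarith
  have e2 : {x : ι → ℝ | ∀ i, u i * x i ≤ t - κ u} = {x | ∀ i, u i * x i + κ u ≤ t} := by
    ext x
    simp only [mem_ofPred_eq]
    refine forall_congr' fun i => ?_
    constructor <;> intro h <;> linarith
  rw [e1, e2]
  exact h1

/-- the upper end point of a direction -/
noncomputable def TT (μ : Measure (ι → ℝ)) (u : ι → ℝ) : ℝ := sInf {t | psi μ u t = 1}

omit [Fintype ι] [DecidableEq ι] in
lemma real_one_iff {S : Set (ι → ℝ)} (hS : MeasurableSet S) :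
    μ.real S = 1 ↔ ∀ᵐ x ∂μ, x ∈ S := by
  have h1 : μ.real S = 1 ↔ μ S = 1 := by
    unfold Measure.real
    constructor
    · intro h
      rw [← ENNReal.ofReal_toReal (measure_ne_top μ S), h, ENNReal.ofReal_one]
    · intro h
      rw [h, ENNReal.toReal_one]
  rw [h1, ← prob_compl_eq_zero_iff hS]
  rfl

omit [DecidableEq ι] in
lemma meas_psi (u : ι → ℝ) (t : ℝ) : MeasurableSet {x : ι → ℝ | ∀ i, u i * x i ≤ t} := by
  have : {x : ι → ℝ | ∀ i, u i * x i ≤ t} = ⋂ i, {x | u i * x i ≤ t} := by ext x; simp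
  rw [this]
  exact MeasurableSet.iInter fun i => measurableSet_le (by fun_prop) measurable_const

/-- behaviour of one direction in the nonpositive case -/
lemma neg_dir [Nontrivial ι] {a : ℕ → ℝ} {κ : ℕ → (ι → ℝ) → ℝ}
    (hF : ∀ n, 1 ≤ n → Feq μ n (a n) (κ n)) (hle : ∀ᵐ x ∂μ, ∀ i, x i ≤ 0)
    {u : ι → ℝ} (hu : ∀ i, 0 < u i) :
    TT μ u ≤ 0 ∧ (∀ n, 1 ≤ n → κ n u = (a n - 1) * TT μ u) ∧
      ((∀ᵐ x ∂μ, (∀ i, u i * x i ≤ TT μ u) ∧ ∃ i, TT μ u ≤ u i * x i) ∨
      ∃ β c : ℝ, 0 < β ∧ 0 < c ∧ (∀ n : ℕ, 1 ≤ n → (a n)⁻¹ = (n : ℝ) ^ (1 / β)) ∧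
        ∀ s, 0 < s → psi μ u (TT μ u - 1 / s) = Real.exp (-(c * s ^ (-β)))) := by
  set G : Set ℝ := {t | psi μ u t = 1} with hG
  have h0G : (0 : ℝ) ∈ G := by
    simp only [hG, mem_ofPred_eq, psi]
    rw [real_one_iff (meas_psi u 0)]
    filter_upwards [hle] with x hx i
    exact mul_nonpos_of_nonneg_of_nonpos (hu i).le (hx i)
  have hup : ∀ s t, s ∈ G → s ≤ t → t ∈ G := by
    intro s t hs hst
    have h1 : psi μ u s ≤ psi μ u t := psi_mono u hst
    simp only [hG, mem_ofPred_eq] at hs ⊢
    exact le_antisymm measureReal_le_one (hs ▸ h1)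
  have hbdd : BddBelow G := by
    obtain ⟨i0, _⟩ := exists_pair_ne ι
    have h1 := tends_one (μ := μ) (f := fun x => -(u i0 * x i0)) (by fun_prop)
    obtain ⟨k, hk⟩ := (h1.eventually (lt_mem_nhds (by norm_num : (0 : ℝ) < 1))).exists
    refine ⟨-(k : ℝ), fun t ht => ?_⟩
    by_contra hc
    push Not at hc
    simp only [hG, mem_ofPred_eq, psi] at ht
    rw [real_one_iff (meas_psi u t)] at ht
    have h2 : μ.real {x : ι → ℝ | -(u i0 * x i0) ≤ k} = 0 := by
      have : μ {x : ι → ℝ | -(u i0 * x i0) ≤ k} = 0 := by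
        rw [measure_eq_zero_iff_ae_notMem]
        filter_upwards [ht] with x hx hx2
        have h3 : u i0 * x i0 ≤ t := hx i0
        have h4 : -(u i0 * x i0) ≤ k := hx2
        linarith
      unfold Measure.real
      rw [this, ENNReal.toReal_zero]
    rw [h2] at hk
    exact lt_irrefl _ hk
  have hTle : TT μ u ≤ 0 := csInf_le hbdd h0G
  have hκ : ∀ n, 1 ≤ n → κ n u = (a n - 1) * TT μ u := by
    intro n hn
    refine shift_eq ⟨0, h0G⟩ hbdd hup (hF n hn).pos fun t => ?_
    simp only [hG, mem_ofPred_eq]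
    rw [psi_eq (hF n hn) (fun i => (hu i).le)]
    have h1 : 0 ≤ psi μ u (t - κ n u) := measureReal_nonneg
    exact pow_eq_one_iff_of_nonneg h1 (by omega)
  refine ⟨hTle, hκ, ?_⟩
  have hlt : ∀ t, t < TT μ u → psi μ u t ≠ 1 := by
    intro t ht hc
    exact absurd (csInf_le hbdd (show t ∈ G from hc)) (not_le.2 ht)
  have hgt : ∀ t, TT μ u < t → psi μ u t = 1 := by
    intro t ht
    obtain ⟨s, hs, hst⟩ := exists_lt_of_csInf_lt ⟨0, h0G⟩ ht
    exact hup s t hs hst.le
  set g : ℝ → ℝ := fun s => psi μ u (TT μ u - 1 / s) with hg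
  have ht := types (g := g) (a := fun n => (a n)⁻¹) (fun s _ => measureReal_nonneg)
    (fun s _ => measureReal_le_one) (fun x y hx hxy => psi_mono u (by
      have : 1 / y ≤ 1 / x := one_div_le_one_div_of_le hx hxy
      linarith)) (fun n hn => inv_pos.2 (hF n hn).pos) (by
      intro n hn x hx
      have ha := (hF n hn).pos
      have h1 := psi_eq (hF n hn) (fun i => (hu i).le) (a n * TT μ u - 1 / x)
      rw [hκ n hn] at h1
      have e1 : (a n * TT μ u - 1 / x) / a n = TT μ u - 1 / (x / (a n)⁻¹) := by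
        field_simp
      have e2 : a n * TT μ u - 1 / x - (a n - 1) * TT μ u = TT μ u - 1 / x := by ring
      rw [e1, e2] at h1
      exact h1)
  rcases ht with ht | ⟨β, c, hβ, hc, hgs, han⟩
  · left
    have h1 : ∀ k : ℕ, ∀ᵐ x ∂μ, ∀ i, u i * x i ≤ TT μ u + 1 / ((k : ℝ) + 1) := by
      intro k
      have hk : (0 : ℝ) < 1 / ((k : ℝ) + 1) := by positivity
      have h2 := hgt (TT μ u + 1 / ((k : ℝ) + 1)) (by linarith)
      unfold psi at h2
      exact (real_one_iff (meas_psi u _)).1 h2
    have h3 : ∀ k : ℕ, ∀ᵐ x ∂μ, ¬ ∀ i, u i * x i ≤ TT μ u - 1 / ((k : ℝ) + 1) := by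
      intro k
      have hk : (0 : ℝ) < 1 / ((k : ℝ) + 1) := by positivity
      have h4 := (ht ((k : ℝ) + 1) (by positivity)).resolve_right (hlt _ (by linarith))
      have h5 : (μ {x : ι → ℝ | ∀ i, u i * x i ≤ TT μ u - 1 / ((k : ℝ) + 1)}).toReal = 0 := h4
      have h6 : μ {x : ι → ℝ | ∀ i, u i * x i ≤ TT μ u - 1 / ((k : ℝ) + 1)} = 0 := by
        rw [← ENNReal.ofReal_toReal (measure_ne_top μ _), h5, ENNReal.ofReal_zero]
      exact measure_eq_zero_iff_ae_notMem.1 h6
    filter_upwards [ae_all_iff.2 h1, ae_all_iff.2 h3] with x hx1 hx3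
    have t1 : Tendsto (fun k : ℕ => TT μ u + 1 / ((k : ℝ) + 1)) atTop (𝓝 (TT μ u + 0)) :=
      tendsto_const_nhds.add tendsto_one_div_add_atTop_nhds_zero_nat
    have t2 : Tendsto (fun k : ℕ => TT μ u - 1 / ((k : ℝ) + 1)) atTop (𝓝 (TT μ u - 0)) :=
      tendsto_const_nhds.sub tendsto_one_div_add_atTop_nhds_zero_nat
    rw [add_zero] at t1
    rw [sub_zero] at t2
    refine ⟨fun i => ge_of_tendsto' t1 fun k => hx1 k i, ?_⟩
    by_contra hc
    push Not at hc
    have hev : ∀ᶠ k : ℕ in atTop, ∀ i, u i * x i ≤ TT μ u - 1 / ((k : ℝ) + 1) := by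
      rw [eventually_all]
      intro i
      filter_upwards [t2.eventually (lt_mem_nhds (hc i))] with k hk
      exact hk.le
    obtain ⟨k, hk⟩ := hev.exists
    exact hx3 k hk
  · right
    exact ⟨β, c, hβ, hc, han, hgs⟩

/-- approximation of the distribution function from below in the negative case -/
lemma cdf_lim (hneg : ∀ᵐ x ∂μ, ∀ i, x i < 0) (y : ι → ℝ) {r : ℝ} (hr : 0 < r) :
    Tendsto (fun k : ℕ => μ {x | ∀ i, x i ≤ r * min (y i) (-(1 / ((k : ℝ) + 1)))}) atTop
      (𝓝 (μ {x | ∀ i, x i ≤ r * y i})) := by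
  have hmono : Monotone (fun k : ℕ => {x : ι → ℝ | ∀ i, x i ≤ r * min (y i) (-(1 / ((k : ℝ) + 1)))}) := by
    intro k l hkl x hx i
    refine (hx i).trans (mul_le_mul_of_nonneg_left (min_le_min le_rfl ?_) hr.le)
    rw [neg_le_neg_iff]
    exact one_div_le_one_div_of_le (by positivity) (by
      have : (k : ℝ) ≤ l := by exact_mod_cast hkl
      linarith)
  have h1 := tendsto_measure_iUnion_atTop (μ := μ) hmono
  have h2 : μ (⋃ k : ℕ, {x : ι → ℝ | ∀ i, x i ≤ r * min (y i) (-(1 / ((k : ℝ) + 1)))}) =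
      μ {x | ∀ i, x i ≤ r * y i} := by
    refine measure_congr ?_
    filter_upwards [hneg] with x hx
    refine propext ?_
    change x ∈ (⋃ k : ℕ, {x : ι → ℝ | ∀ i, x i ≤ r * min (y i) (-(1 / ((k : ℝ) + 1)))}) ↔
      x ∈ {x : ι → ℝ | ∀ i, x i ≤ r * y i}
    simp only [mem_iUnion, mem_ofPred_eq]
    constructor
    · rintro ⟨k, hk⟩ i
      exact (hk i).trans (mul_le_mul_of_nonneg_left (min_le_left _ _) hr.le)
    · intro h
      have hev : ∀ᶠ k : ℕ in atTop, ∀ i, x i ≤ r * min (y i) (-(1 / ((k : ℝ) + 1))) := by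
        rw [eventually_all]
        intro i
        have t2 : Tendsto (fun k : ℕ => r * (-(1 / ((k : ℝ) + 1)))) atTop (𝓝 (r * (-0))) :=
          (tendsto_one_div_add_atTop_nhds_zero_nat.neg).const_mul r
        rw [neg_zero, mul_zero] at t2
        filter_upwards [t2.eventually (lt_mem_nhds (hx i))] with k hk
        rw [mul_min_of_nonneg _ _ hr.le]
        exact le_min (h i) hk.le
      exact hev.exists
  rw [h2] at h1
  exact h1

/-- the nonpositive case -/
lemma negcase [Nontrivial ι] {a : ℕ → ℝ} {κ : ℕ → (ι → ℝ) → ℝ}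
    (hF : ∀ n, 1 ≤ n → Feq μ n (a n) (κ n)) (hle : ∀ᵐ x ∂μ, ∀ i, x i ≤ 0)
    (hk0 : ∀ n, 1 ≤ n → ∀ i, ki (κ n) i = 0) (hp : μ {x | ∀ i, x i < 0} ≠ 0) :
    TypeD μ ∨ TypeP μ := by
  classical
  have hne : (Finset.univ : Finset ι).Nonempty := Finset.univ_nonempty
  have hκle : ∀ n, 1 ≤ n → ∀ u : ι → ℝ, (∀ i, 0 ≤ u i) → κ n u ≤ 0 := by
    intro n hn u hu
    refine (kappa_le (hF n hn).add (hF n hn).smul hu).trans (le_of_eq ?_)
    refine Finset.sum_eq_zero fun i _ => ?_
    rw [hk0 n hn i, mul_zero]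
  by_cases hex : ∃ u : ι → ℝ, (∀ i, 0 < u i) ∧ ∃ β c : ℝ, 0 < β ∧ 0 < c ∧
      (∀ n : ℕ, 1 ≤ n → (a n)⁻¹ = (n : ℝ) ^ (1 / β)) ∧
        ∀ s, 0 < s → psi μ u (TT μ u - 1 / s) = Real.exp (-(c * s ^ (-β)))
  · right
    obtain ⟨u0, hu0, β, c, hβ, hc, han, hgs⟩ := hex
    have ha1 : ∀ n : ℕ, 1 ≤ n → a n ≤ 1 := by
      intro n hn
      have h1 : 1 ≤ (a n)⁻¹ := by
        rw [han n hn]
        exact Real.one_le_rpow (by exact_mod_cast hn) (by positivity)
      have ha := (hF n hn).pos
      rwa [one_le_inv₀ ha] at h1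
    have hκ0 : ∀ n, 1 ≤ n → ∀ u : ι → ℝ, (∀ i, 0 < u i) → κ n u = 0 := by
      intro n hn u hu
      obtain ⟨hT, hκ, _⟩ := neg_dir hF hle hu
      refine le_antisymm (hκle n hn u fun i => (hu i).le) ?_
      rw [hκ n hn]
      exact mul_nonneg_of_nonpos_of_nonpos (by linarith [ha1 n hn]) hT
    have hT0 : TT μ u0 = 0 := by
      obtain ⟨hT, hκ, _⟩ := neg_dir hF hle hu0
      have h1 := hκ 2 (by norm_num)
      rw [hκ0 2 (by norm_num) u0 hu0] at h1
      have h2 : a 2 - 1 ≠ 0 := by
        intro hc2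
        have h3 : a 2 = 1 := by linarith
        have h4 := han 2 (by norm_num)
        rw [h3, inv_one] at h4
        have h5 : (1 : ℝ) < ((2 : ℕ) : ℝ) ^ (1 / β) :=
          Real.one_lt_rpow (by norm_num) (by positivity)
        linarith
      rcases mul_eq_zero.1 h1.symm with h3 | h3
      · exact absurd h3 h2
      · exact h3
    have hneg : ∀ᵐ x ∂μ, ∀ i, x i < 0 := by
      have hm : MeasurableSet {x : ι → ℝ | ∀ i, x i < 0} := by
        have : {x : ι → ℝ | ∀ i, x i < 0} = ⋂ i, {x | x i < 0} := by ext x; simp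
        rw [this]
        exact MeasurableSet.iInter fun i => measurableSet_lt (by fun_prop) measurable_const
      refine (real_one_iff hm).1 (le_antisymm measureReal_le_one ?_)
      have h2 : Tendsto (fun k : ℕ => Real.exp (-(c * ((k : ℝ) + 1) ^ (-β)))) atTop (𝓝 1) := by
        have h3 : Tendsto (fun k : ℕ => -(c * ((k : ℝ) + 1) ^ (-β))) atTop (𝓝 (-(c * 0))) := by
          refine (Tendsto.const_mul c ?_).neg
          exact (tendsto_rpow_neg_atTop hβ).comp
            (tendsto_atTop_add_const_right _ _ tendsto_natCast_atTop_atTop)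
        rw [mul_zero, neg_zero] at h3
        have h4 := (Real.continuous_exp.tendsto 0).comp h3
        rw [Real.exp_zero] at h4
        exact h4
      refine le_of_tendsto' h2 fun k => ?_
      rw [← hgs _ (by positivity : (0 : ℝ) < (k : ℝ) + 1), hT0, zero_sub]
      refine measureReal_mono fun x hx i => ?_
      have h5 := hx i
      have h6 : (0 : ℝ) < 1 / ((k : ℝ) + 1) := by positivity
      have h7 : u0 i * x i < 0 := by linarith
      by_contra hc2
      push Not at hc2
      have := mul_nonneg (hu0 i).le hc2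
      linarith
    refine ⟨hneg, β, hβ, fun n hn y => ?_⟩
    have ha := (hF n hn).pos
    have hn0 : (0 : ℝ) < n := by exact_mod_cast hn
    -- the identity in the open negative orthant
    have hbase : ∀ y : ι → ℝ, (∀ i, y i < 0) →
        μ {x | ∀ i, x i ≤ y i} ^ n = μ {x | ∀ i, x i ≤ (n : ℝ) ^ (1 / β) * y i} := by
      intro y hy
      have hu : ∀ i, 0 < -1 / y i := fun i => div_pos_of_neg_of_neg (by norm_num) (hy i)
      have h1 := (hF n hn).eq (fun _ : Unit => fun i => -1 / y i) (fun _ => -1)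
        (fun _ i => (hu i).le)
      simp only [forall_const] at h1
      rw [hκ0 n hn _ hu] at h1
      have e1 : {x : ι → ℝ | ∀ i, -1 / y i * (a n * x i) ≤ -1} =
          {x | ∀ i, x i ≤ (n : ℝ) ^ (1 / β) * y i} := by
        ext x
        simp only [mem_ofPred_eq]
        refine forall_congr' fun i => ?_
        have hyi := hy i
        rw [← han n hn, inv_mul_eq_div, le_div_iff₀ ha]
        have e3 : -1 / y i * (a n * x i) = (a n * x i) / (-y i) := by
          rw [div_mul_eq_mul_div, neg_one_mul, ← neg_div_neg_eq, neg_neg]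
        rw [e3, div_le_iff₀ (by linarith)]
        constructor <;> intro h <;> linarith
      have e2 : {x : ι → ℝ | ∀ i, -1 / y i * x i + 0 ≤ -1} = {x | ∀ i, x i ≤ y i} := by
        ext x
        simp only [mem_ofPred_eq]
        refine forall_congr' fun i => ?_
        have hyi := hy i
        rw [add_zero]
        have e3 : -1 / y i * x i = x i / (-y i) := by
          rw [div_mul_eq_mul_div, neg_one_mul, ← neg_div_neg_eq, neg_neg]
        rw [e3, div_le_iff₀ (by linarith)]
        constructor <;> intro h <;> linarith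
      rw [e1, e2] at h1
      exact h1.symm
    have hr : (0 : ℝ) < (n : ℝ) ^ (1 / β) := by positivity
    have l1 := ((ENNReal.continuous_pow n).tendsto _).comp (cdf_lim hneg y one_pos)
    have l2 := cdf_lim hneg y hr
    simp only [one_mul] at l1
    refine tendsto_nhds_unique l1 (l2.congr fun k => ?_)
    refine (hbase _ fun i => ?_).symm
    have h6 : (0 : ℝ) < 1 / ((k : ℝ) + 1) := by positivity
    exact (min_le_right _ _).trans_lt (by linarith)
  · left
    push Not at hex
    have hdir : ∀ u : ι → ℝ, (∀ i, 0 < u i) →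
        ∀ᵐ x ∂μ, (∀ i, u i * x i ≤ TT μ u) ∧ ∃ i, TT μ u ≤ u i * x i := by
      intro u hu
      obtain ⟨_, _, h | ⟨β, c, hβ, hc, han, hgs⟩⟩ := neg_dir hF hle hu
      · exact h
      · obtain ⟨s, hs, hs2⟩ := hex u hu β c hβ hc han
        exact absurd (hgs s hs) hs2
    set U : ι → ℕ → ι → ℝ := fun i k j => if j = i then 1 else (k : ℝ) + 1 with hU
    have hUpos : ∀ i k j, 0 < U i k j := by
      intro i k j
      rw [hU]
      simp only
      split_ifs
      · norm_num
      · positivity
    have hall : ∀ᵐ x ∂μ, ∀ i k, (∀ j, U i k j * x j ≤ TT μ (U i k)) ∧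
        ∃ j, TT μ (U i k) ≤ U i k j * x j := by
      rw [ae_all_iff]; intro i
      rw [ae_all_iff]; intro k
      exact hdir _ (hUpos i k)
    -- a good negative point
    obtain ⟨x0, hx0n, hx0⟩ : ∃ x0 : ι → ℝ, (∀ i, x0 i < 0) ∧ ∀ i k, (∀ j, U i k j * x0 j ≤
        TT μ (U i k)) ∧ ∃ j, TT μ (U i k) ≤ U i k j * x0 j := by
      by_contra hc
      push Not at hc
      apply hp
      rw [measure_eq_zero_iff_ae_notMem]
      filter_upwards [hall] with x hx hxn
      obtain ⟨i, k, hik⟩ := hc x hxn
      obtain ⟨h1, j, hj⟩ := hx i k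
      have := hik h1 j
      linarith
    have hTneg : ∀ i k, TT μ (U i k) < 0 := by
      intro i k
      obtain ⟨_, j, hj⟩ := hx0 i k
      exact hj.trans_lt (mul_neg_of_pos_of_neg (hUpos i k j) (hx0n j))
    -- for a negative good point the coordinates are determined
    have hval : ∀ x : ι → ℝ, (∀ i, x i < 0) → (∀ i k, (∀ j, U i k j * x j ≤ TT μ (U i k)) ∧
        ∃ j, TT μ (U i k) ≤ U i k j * x j) → ∀ i, ∀ᶠ k : ℕ in atTop, TT μ (U i k) = x i := by
      intro x hxn hx i
      have hev : ∀ᶠ k : ℕ in atTop, ∀ j, j ≠ i → ((k : ℝ) + 1) * x j < x i := by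
        rw [eventually_all]
        intro j
        by_cases hj : j = i
        · simp [hj]
        · simp only [hj, ne_eq, not_false_iff, true_implies]
          have h1 : Tendsto (fun k : ℕ => ((k : ℝ) + 1) * x j) atTop atBot :=
            (tendsto_atTop_add_const_right _ _ tendsto_natCast_atTop_atTop).atTop_mul_const_of_neg
              (hxn j)
          exact h1.eventually_lt_atBot (x i)
      filter_upwards [hev] with k hk
      obtain ⟨h1, j, hj⟩ := hx i k
      have h2 := h1 i
      have e1 : U i k i = 1 := by simp [hU]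
      rw [e1, one_mul] at h2
      by_cases hji : j = i
      · subst hji
        rw [e1, one_mul] at hj
        linarith
      · have e2 : U i k j = (k : ℝ) + 1 := by simp [hU, hji]
        rw [e2] at hj
        have := hk j hji
        linarith
    refine ⟨x0, Or.inl ⟨hx0n, ?_⟩⟩
    filter_upwards [hall, hle] with x hx hxle
    have hxn : ∀ i, x i < 0 := by
      by_contra hc
      push Not at hc
      obtain ⟨i, hi⟩ := hc
      have h1 := (hx i 0).1 i
      have e1 : U i 0 i = 1 := by simp [hU]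
      rw [e1, one_mul] at h1
      have := hTneg i 0
      linarith
    funext i
    obtain ⟨k, hk1, hk2⟩ := ((hval x hxn hx i).and (hval x0 hx0n hx0 i)).exists
    rw [← hk1, hk2]

/-- necessity -/
theorem necessity [Nontrivial ι] (h : ConvexStable μ CX) :
    TypeD μ ∨ TypeP μ ∨ TypeF μ ∨ TypeH μ := by
  have hch : ∀ n, 1 ≤ n → ∃ a κ, Feq μ n a κ := fun n hn => feq_of_stable h hn
  choose! a κ hF using hch
  by_cases hB : ∃ i0, (∀ᵐ x ∂μ, hh μ i0 < x i0) ∧ ∃ β c : ℝ, 0 < β ∧ 0 < c ∧
      (∀ s, 0 < s → μ.real {x | x i0 ≤ hh μ i0 + s} = Real.exp (-(c * s ^ (-β)))) ∧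
        ∀ n : ℕ, 1 ≤ n → a n = (n : ℝ) ^ (1 / β)
  · right; right
    obtain ⟨i0, hgt0, β, c, hβ, hc, hgs0, han⟩ := hB
    have hpos : ∀ᵐ x ∂μ, ∃ i, 0 ≤ x i := by
      filter_upwards [hgt0] with x hx
      exact ⟨i0, ((hh_nonneg i0).trans_lt hx).le⟩
    by_cases hz : ∀ i, hh μ i = 0
    · left
      refine typeF_of hF (fun n hn i => ?_) hpos hβ han
      rw [ki_eq (hF n hn) hn i, hz i, mul_zero]
    · right
      push Not at hz
      obtain ⟨j, hj⟩ := hz
      have hjpos : 0 < hh μ j := lt_of_le_of_ne (hh_nonneg j) (Ne.symm hj)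
      have ha2 : 1 < a 2 := by
        rw [han 2 (by norm_num)]
        exact Real.one_lt_rpow (by norm_num) (by positivity)
      have hki : ∀ i, ki (κ 2) i = (a 2 - 1) * hh μ i := fun i =>
        ki_eq (hF 2 (by norm_num)) (by norm_num) i
      have hki0 : ∀ i, 0 ≤ ki (κ 2) i := by
        intro i
        rw [hki i]
        exact mul_nonneg (by linarith) (hh_nonneg i)
      have hge : ∀ᵐ x ∂μ, ∀ i, hh μ i ≤ max (x i) 0 := by
        rw [ae_all_iff]
        intro i
        rcases margin hF i with hm | ⟨hm, _⟩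
        · filter_upwards [hm] with x hx
          exact hx.ge
        · filter_upwards [hm] with x hx
          exact hx.le.trans (le_max_left _ _)
      -- proportionality
      have hprop : ∀ᵐ x ∂μ, ∀ i, max (x i) 0 = max (x j) 0 / hh μ j * hh μ i := by
        filter_upwards [joint_all (hF 2 (by norm_num)) (by norm_num) hpos, hge] with x hx hxge i
        have hzj : 0 < max (x j) 0 := hjpos.trans_le (hxge j)
        by_cases hij : i = j
        · subst hij
          field_simp
        · rcases (le_max_right (x i) 0).lt_or_eq with hzi | hzi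
          · have k1 := kink (hF 2 (by norm_num)).add (hF 2 (by norm_num)).smul
              (z := fun i => max (x i) 0) (k := ki (κ 2)) (fun i => le_max_right _ _) hki0 hx hij
              hzi hzj
            have k2 := kink (hF 2 (by norm_num)).add (hF 2 (by norm_num)).smul
              (z := fun i => max (x i) 0) (k := ki (κ 2)) (fun i => le_max_right _ _) hki0 hx
              (Ne.symm hij) hzj hzi
            rw [hki i, hki j] at k1 k2
            have h1 : max (x j) 0 * hh μ i = max (x i) 0 * hh μ j := by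
              have h2 : (a 2 - 1) * (max (x j) 0 * hh μ i) = (a 2 - 1) * (max (x i) 0 * hh μ j) := by
                linarith
              exact mul_left_cancel₀ (by linarith) h2
            rw [div_mul_eq_mul_div, h1]
            field_simp
          · have h1 : hh μ i = 0 := le_antisymm ((hxge i).trans hzi.symm.le) (hh_nonneg i)
            rw [h1, mul_zero]; exact hzi.symm
      -- the coordinate j is Fréchet
      rcases margin hF j with hm | ⟨hgtj, β', c', hβ', hc', hgsj, han'⟩
      · exfalso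
        have hF0 : ∀ᵐ x ∂μ, False := by
          filter_upwards [hprop, hm, hgt0] with x hx1 hx2 hx3
          have h1 := hx1 i0
          rw [hx2, div_self hj, one_mul] at h1
          have h2 : 0 ≤ x i0 := ((hh_nonneg i0).trans_lt hx3).le
          rw [max_eq_left h2] at h1
          linarith
        have := hF0.exists
        obtain ⟨_, hf⟩ := this
        exact hf
      · refine ⟨hh μ, fun i => hh_nonneg i, ⟨j, hjpos⟩, β', c' * (hh μ j) ^ (-β'), hβ', by
          positivity, ?_, ?_⟩
        · filter_upwards [hprop, hgtj] with x hx1 hx2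
          have hxj : 0 ≤ x j := (hjpos.trans hx2).le
          refine ⟨(x j - hh μ j) / hh μ j, div_pos (by linarith) hjpos, fun i => ?_⟩
          rw [hx1 i, max_eq_left hxj]
          field_simp
          ring
        · intro s hs
          have h1 : μ {x | ∀ i, x i ≤ (1 + s) * hh μ i} = μ {x | x j ≤ hh μ j + s * hh μ j} := by
            refine measure_congr ?_
            filter_upwards [hprop, hgtj] with x hx1 hx2
            refine propext ?_
            change (∀ i, x i ≤ (1 + s) * hh μ i) ↔ x j ≤ hh μ j + s * hh μ j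
            constructor
            · intro h
              have := h j
              linarith
            · intro h i
              have hxj : 0 ≤ x j := (hjpos.trans hx2).le
              have h3 := hx1 i
              rw [max_eq_left hxj] at h3
              refine (le_max_left (x i) 0).trans ?_
              rw [h3]
              refine mul_le_mul_of_nonneg_right ?_ (hh_nonneg i)
              rw [div_le_iff₀ hjpos]
              linarith
          rw [h1, ← ENNReal.ofReal_toReal (measure_ne_top μ _)]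
          congr 1
          have h2 := hgsj (s * hh μ j) (by positivity)
          change μ.real _ = _
          rw [h2, Real.mul_rpow hs.le hjpos.le]
          congr 1
          ring
  · -- all coordinates constant
    have hconst : ∀ᵐ x ∂μ, ∀ i, max (x i) 0 = hh μ i := by
      rw [ae_all_iff]
      intro i
      rcases margin hF i with hm | hm
      · exact hm
      · exact absurd ⟨i, hm⟩ hB
    by_cases hz : ∀ i, hh μ i = 0
    · have hle : ∀ᵐ x ∂μ, ∀ i, x i ≤ 0 := by
        filter_upwards [hconst] with x hx i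
        have := hx i
        rw [hz i] at this
        exact max_eq_right_iff.1 this
      by_cases hp : μ {x | ∀ i, x i < 0} = 0
      · left
        refine ⟨fun _ => 0, Or.inr ⟨fun _ => le_rfl, ?_⟩⟩
        filter_upwards [measure_eq_zero_iff_ae_notMem.1 hp, hle] with x hx hx2
        have hx' : ¬ ∀ i, x i < 0 := hx
        push Not at hx'
        exact ⟨hx', fun i => max_eq_right (hx2 i)⟩
      · have hk0 : ∀ n, 1 ≤ n → ∀ i, ki (κ n) i = 0 := by
          intro n hn i
          rw [ki_eq (hF n hn) hn i, hz i, mul_zero]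
        rcases negcase hF hle hk0 hp with h1 | h1
        · exact Or.inl h1
        · exact Or.inr (Or.inl h1)
    · left
      push Not at hz
      obtain ⟨j, hj⟩ := hz
      have hjpos : 0 < hh μ j := lt_of_le_of_ne (hh_nonneg j) (Ne.symm hj)
      refine ⟨hh μ, Or.inr ⟨fun i => hh_nonneg i, ?_⟩⟩
      filter_upwards [hconst] with x hx
      refine ⟨⟨j, ?_⟩, hx⟩
      have h1 := hx j
      by_contra hc
      push Not at hc
      rw [max_eq_right hc.le] at h1
      linarith

end Q297.Cs
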