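import Pool.Agent.Q297.CsF

/-!
Sufficiency.
-/

open MeasureTheory ProbabilityTheory Set Filter Topology
open scoped ENNReal NNReal Pointwise

namespace Q297.Cs

variable {ι : Type} [Fintype ι] [DecidableEq ι]

/-- uniqueness of measures with given distribution function -/
lemma ext_cdf {ν₁ ν₂ : Measure (ι → ℝ)} [IsProbabilityMeasure ν₁] [IsProbabilityMeasure ν₂]
    (h : ∀ y : ι → ℝ, ν₁ {x | ∀ i, x i ≤ y i} = ν₂ {x | ∀ i, x i ≤ y i}) : ν₁ = ν₂ := by
  have hspan : ∀ _ : ι, IsCountablySpanning (range (Iic : ℝ → Set ℝ)) := by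
    intro _
    refine ⟨fun n => Iic (n : ℝ), fun n => ⟨n, rfl⟩, ?_⟩
    ext x
    simp only [mem_iUnion, mem_Iic, mem_univ, iff_true]
    exact exists_nat_ge x
  refine ext_of_generate_finite (Set.pi univ '' Set.pi univ fun _ => range (Iic : ℝ → Set ℝ))
    ?_ ?_ ?_ ?_
  · refine (generateFrom_eq_pi (fun _ => ?_) hspan).symm
    rw [← borel_eq_generateFrom_Iic]
    exact (BorelSpace.measurable_eq (α := ℝ)).symm
  · refine IsPiSystem.pi fun _ => ?_
    rintro _ ⟨s, rfl⟩ _ ⟨t, rfl⟩ _
    exact ⟨min s t, Iic_inter_Iic.symm⟩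
  · rintro _ ⟨C, hC, rfl⟩
    have hC' : ∀ i, ∃ y, Iic y = C i := fun i => hC i (mem_univ i)
    choose y hy using hC'
    have e : Set.pi univ C = {x : ι → ℝ | ∀ i, x i ≤ y i} := by
      ext x
      simp only [Set.mem_pi, mem_univ, true_implies, mem_ofPred_eq]
      refine forall_congr' fun i => ?_
      rw [← hy i]; rfl
    rw [e]
    exact h y
  · rw [measure_univ, measure_univ]

variable {μ : Measure (ι → ℝ)} [IsProbabilityMeasure μ]

lemma Mx_meas {n : ℕ} : Measurable (Mx : (Fin (n + 1) → ι → ℝ) → ι → ℝ) := by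
  refine measurable_pi_lambda _ fun i => ?_
  have : Continuous fun z : Fin (n + 1) → ι → ℝ => Mx z i := by
    unfold Mx
    exact Continuous.finset_sup'_apply _ fun j _ => by fun_prop
  exact this.measurable

omit [DecidableEq ι] in
lemma meas_le (y : ι → ℝ) : MeasurableSet {x : ι → ℝ | ∀ i, x i ≤ y i} := by
  have : {x : ι → ℝ | ∀ i, x i ≤ y i} = ⋂ i, {x | x i ≤ y i} := by ext x; simp
  rw [this]
  exact MeasurableSet.iInter fun i => measurableSet_le (by fun_prop) measurable_const

omit [DecidableEq ι] in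
lemma pi_le (n : ℕ) (y : ι → ℝ) :
    Measure.pi (fun _ : Fin (n + 1) => μ) {z | ∀ i, Mx z i ≤ y i} =
      μ {x | ∀ i, x i ≤ y i} ^ (n + 1) := by
  have e : {z : Fin (n + 1) → ι → ℝ | ∀ i, Mx z i ≤ y i} =
      Set.pi univ fun _ => {x | ∀ i, x i ≤ y i} := by
    ext z
    simp only [mem_ofPred_eq, Set.mem_pi, mem_univ, true_implies, Mx_le]
    exact ⟨fun h j i => h i j, fun h i j => h j i⟩
  rw [e, Measure.pi_pi]
  simp

omit [DecidableEq ι] in
lemma ae_pi_all {n : ℕ} {p : (ι → ℝ) → Prop} (h : ∀ᵐ x ∂μ, p x) :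
    ∀ᵐ z ∂(Measure.pi fun _ : Fin n => μ), ∀ j, p (z j) := by
  rw [ae_all_iff]
  intro j
  exact (Measure.tendsto_eval_ae_ae (μ := fun _ : Fin n => μ) (i := j)).eventually h

lemma hullz {n : ℕ} (z : Fin (n + 1) → ι → ℝ) (C : Set (ι → ℝ)) :
    ((closedConvexHull ℝ (⋃ j, CX (z j)) + ({0} : Set (ι → ℝ))) ∩ C).Nonempty ↔
      (CX (Mx z) ∩ C).Nonempty := by
  rw [hull_eq, add_singleton]
  simp

/-- negative max-stable vectors -/
lemma stable_of_P (h : TypeP μ) : ConvexStable μ CX := by
  obtain ⟨hneg, α, hα, hst⟩ := h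
  intro n hn
  obtain ⟨m, rfl⟩ : ∃ m, n = m + 1 := ⟨n - 1, by omega⟩
  have hn0 : (0 : ℝ) < ((m + 1 : ℕ) : ℝ) := by positivity
  set r : ℝ := ((m + 1 : ℕ) : ℝ) ^ (1 / α) with hr
  have hr0 : 0 < r := by positivity
  refine ⟨r⁻¹, inv_pos.2 hr0, {0}, isCompact_singleton, convex_singleton 0, singleton_nonempty 0, ?_⟩
  intro C hC
  have hm1 : Measurable fun x : ι → ℝ => r⁻¹ • x := by fun_prop
  have hlaw : μ.map (fun x : ι → ℝ => r⁻¹ • x) =
      (Measure.pi fun _ : Fin (m + 1) => μ).map Mx := by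
    have : IsProbabilityMeasure (μ.map fun x : ι → ℝ => r⁻¹ • x) :=
      Measure.isProbabilityMeasure_map hm1.aemeasurable
    have : IsProbabilityMeasure ((Measure.pi fun _ : Fin (m + 1) => μ).map Mx) :=
      Measure.isProbabilityMeasure_map Mx_meas.aemeasurable
    refine ext_cdf fun y => ?_
    rw [Measure.map_apply hm1 (meas_le y), Measure.map_apply Mx_meas (meas_le y)]
    change μ {x | ∀ i, (r⁻¹ • x) i ≤ y i} = Measure.pi (fun _ : Fin (m + 1) => μ)
      {z | ∀ i, Mx z i ≤ y i}
    rw [pi_le, hst (m + 1) hn y]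
    congr 1
    ext x
    simp only [mem_ofPred_eq, Pi.smul_apply, smul_eq_mul]
    refine forall_congr' fun i => ?_
    rw [inv_mul_le_iff₀ hr0]
  have hS := (hit_closed hC).measurableSet
  have e1 : {x : ι → ℝ | ((r⁻¹ • CX x) ∩ C).Nonempty} =
      (fun x : ι → ℝ => r⁻¹ • x) ⁻¹' {x | (CX x ∩ C).Nonempty} := by
    ext x
    simp only [mem_ofPred_eq, mem_preimage]
    rw [smul_CX (inv_pos.2 hr0)]
  have e2 : {z : Fin (m + 1) → ι → ℝ |
      ((closedConvexHull ℝ (⋃ j, CX (z j)) + ({0} : Set (ι → ℝ))) ∩ C).Nonempty} =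
      Mx ⁻¹' {x | (CX x ∩ C).Nonempty} := by
    ext z
    simp only [mem_ofPred_eq, mem_preimage]
    exact hullz z C
  rw [e1, e2, ← Measure.map_apply hm1 hS, ← Measure.map_apply Mx_meas hS, hlaw]

/-- max-stable positive parts -/
lemma stable_of_F [Nontrivial ι] (h : TypeF μ) : ConvexStable μ CX := by
  obtain ⟨hpos, α, hα, hst⟩ := h
  intro n hn
  obtain ⟨m, rfl⟩ : ∃ m, n = m + 1 := ⟨n - 1, by omega⟩
  have hn0 : (0 : ℝ) < ((m + 1 : ℕ) : ℝ) := by positivity
  set r : ℝ := ((m + 1 : ℕ) : ℝ) ^ (1 / α) with hr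
  have hr0 : 0 < r := by positivity
  refine ⟨r, hr0, {0}, isCompact_singleton, convex_singleton 0, singleton_nonempty 0, ?_⟩
  intro C hC
  set pp : (ι → ℝ) → ι → ℝ := fun x i => max (x i) 0 with hpp
  have hppm : Measurable pp := by
    have : Continuous pp := by rw [hpp]; fun_prop
    exact this.measurable
  have hm1 : Measurable fun x : ι → ℝ => r • pp x := hppm.const_smul r
  have hm2 : Measurable fun z : Fin (m + 1) → ι → ℝ => pp (Mx z) := hppm.comp Mx_meas
  have hlaw : μ.map (fun x : ι → ℝ => r • pp x) =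
      (Measure.pi fun _ : Fin (m + 1) => μ).map fun z => pp (Mx z) := by
    have : IsProbabilityMeasure (μ.map fun x : ι → ℝ => r • pp x) :=
      Measure.isProbabilityMeasure_map hm1.aemeasurable
    have : IsProbabilityMeasure ((Measure.pi fun _ : Fin (m + 1) => μ).map fun z => pp (Mx z)) :=
      Measure.isProbabilityMeasure_map hm2.aemeasurable
    refine ext_cdf fun y => ?_
    rw [Measure.map_apply hm1 (meas_le y), Measure.map_apply hm2 (meas_le y)]
    change μ {x | ∀ i, (r • pp x) i ≤ y i} = Measure.pi (fun _ : Fin (m + 1) => μ)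
      {z | ∀ i, pp (Mx z) i ≤ y i}
    by_cases hy : ∀ i, 0 ≤ y i
    · have e2 : {z : Fin (m + 1) → ι → ℝ | ∀ i, pp (Mx z) i ≤ y i} =
          {z | ∀ i, Mx z i ≤ y i} := by
        ext z
        simp only [mem_ofPred_eq, hpp]
        exact forall_congr' fun i => by rw [max_le_iff]; simp [hy i]
      rw [e2, pi_le, hst (m + 1) hn y hy]
      congr 1
      ext x
      simp only [mem_ofPred_eq, Pi.smul_apply, smul_eq_mul, hpp]
      refine forall_congr' fun i => ?_
      rw [Real.rpow_neg hn0.le, ← hr, ← div_eq_inv_mul, ← le_div_iff₀' hr0, max_le_iff]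
      have : 0 ≤ y i / r := div_nonneg (hy i) hr0.le
      simp [this]
    · push Not at hy
      obtain ⟨i, hi⟩ := hy
      have e1 : {x : ι → ℝ | ∀ i, (r • pp x) i ≤ y i} = ∅ := by
        ext x
        simp only [mem_ofPred_eq, mem_empty_iff_false, iff_false, not_forall, not_le]
        refine ⟨i, hi.trans_le ?_⟩
        simp only [Pi.smul_apply, smul_eq_mul, hpp]
        positivity
      have e2 : {z : Fin (m + 1) → ι → ℝ | ∀ i, pp (Mx z) i ≤ y i} = ∅ := by
        ext x
        simp only [mem_ofPred_eq, mem_empty_iff_false, iff_false, not_forall, not_le]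
        exact ⟨i, hi.trans_le (le_max_right _ _)⟩
      rw [e1, e2]; simp
  have hS := (hit_closed hC).measurableSet
  have e1 : μ {x : ι → ℝ | ((r • CX x) ∩ C).Nonempty} =
      μ ((fun x : ι → ℝ => r • pp x) ⁻¹' {x | (CX x ∩ C).Nonempty}) := by
    refine measure_congr ?_
    filter_upwards [hpos] with x hx
    refine propext ?_
    change ((r • CX x) ∩ C).Nonempty ↔ (CX (r • pp x) ∩ C).Nonempty
    rw [CX_pos hx, smul_CX hr0]
  have e2 : Measure.pi (fun _ : Fin (m + 1) => μ) {z : Fin (m + 1) → ι → ℝ |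
      ((closedConvexHull ℝ (⋃ j, CX (z j)) + ({0} : Set (ι → ℝ))) ∩ C).Nonempty} =
      Measure.pi (fun _ : Fin (m + 1) => μ)
        ((fun z => pp (Mx z)) ⁻¹' {x | (CX x ∩ C).Nonempty}) := by
    refine measure_congr ?_
    filter_upwards [ae_pi_all (n := m + 1) hpos] with z hz
    refine propext ?_
    change ((closedConvexHull ℝ (⋃ j, CX (z j)) + ({0} : Set (ι → ℝ))) ∩ C).Nonempty ↔
      (CX (pp (Mx z)) ∩ C).Nonempty
    rw [hullz]
    obtain ⟨i, hi⟩ := hz 0
    rw [CX_pos ⟨i, hi.trans (le_Mx z i 0)⟩]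
  rw [e1, e2, ← Measure.map_apply hm1 hS, ← Measure.map_apply hm2 hS, hlaw]

/-- constant sets -/
lemma stable_of_D [Nontrivial ι] (h : TypeD μ) : ConvexStable μ CX := by
  obtain ⟨c, hc⟩ := h
  have hS : ∀ᵐ x ∂μ, CX x = CX c := by
    rcases hc with ⟨_, h⟩ | ⟨_, h⟩
    · filter_upwards [h] with x hx
      rw [hx]
    · filter_upwards [h] with x hx
      rw [CX_pos hx.1]
      congr 1
      funext i
      exact hx.2 i
  intro n hn
  obtain ⟨m, rfl⟩ : ∃ m, n = m + 1 := ⟨n - 1, by omega⟩
  refine ⟨1, one_pos, {0}, isCompact_singleton, convex_singleton 0, singleton_nonempty 0, ?_⟩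
  intro C _
  have e1 : μ {x : ι → ℝ | (((1 : ℝ) • CX x) ∩ C).Nonempty} =
      μ {_x | (CX c ∩ C).Nonempty} := by
    refine measure_congr ?_
    filter_upwards [hS] with x hx
    refine propext ?_
    change (((1 : ℝ) • CX x) ∩ C).Nonempty ↔ (CX c ∩ C).Nonempty
    rw [one_smul, hx]
  have e2 : Measure.pi (fun _ : Fin (m + 1) => μ) {z : Fin (m + 1) → ι → ℝ |
      ((closedConvexHull ℝ (⋃ j, CX (z j)) + ({0} : Set (ι → ℝ))) ∩ C).Nonempty} =
      Measure.pi (fun _ : Fin (m + 1) => μ) {_z | (CX c ∩ C).Nonempty} := by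
    refine measure_congr ?_
    filter_upwards [ae_pi_all (n := m + 1) hS] with z hz
    refine propext ?_
    change ((closedConvexHull ℝ (⋃ j, CX (z j)) + ({0} : Set (ι → ℝ))) ∩ C).Nonempty ↔
      (CX c ∩ C).Nonempty
    have e3 : closedConvexHull ℝ (⋃ j, CX (z j)) = CX c := by
      have : (⋃ j, CX (z j)) = CX c := by
        ext v
        simp only [mem_iUnion, hz]
        exact ⟨fun ⟨_, h⟩ => h, fun h => ⟨0, h⟩⟩
      rw [this]
      exact subset_antisymm (closedConvexHull_min (subset_refl _) (CX_convex c) (CX_closed c))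
        subset_closedConvexHull
    rw [e3, add_singleton]
    simp
  rw [e1, e2]
  by_cases hh : (CX c ∩ C).Nonempty
  · simp [hh]
  · simp [hh]

/-- the compact summand in the shifted case -/
lemma CX_add {c : ι → ℝ} {r b : ℝ} (hr : 0 < r) (hb : 0 ≤ b) :
    CX (r • c) + convexHull ℝ (range fun i => (Pi.single i (b * c i) : ι → ℝ)) =
      CX ((r + b) • c) := by
  have hKc : IsCompact (convexHull ℝ (range fun i => (Pi.single i (b * c i) : ι → ℝ))) :=
    (finite_range _).isCompact_convexHull (𝕜 := ℝ)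
  apply subset_antisymm
  · rintro _ ⟨v, hv, w, hw, rfl⟩
    have hw' : w ∈ CX (b • c) := by
      refine convexHull_min ?_ (CX_convex _) hw
      rintro _ ⟨i, rfl⟩
      exact ray_mem le_rfl
    rw [mem_CX_iff] at hv hw' ⊢
    intro u hu t ht
    have hrb : 0 < r + b := by linarith
    have h1 := hv u hu (r * (t / (r + b))) (fun i => by
      have h2 := ht i
      simp only [Pi.smul_apply, smul_eq_mul] at h2 ⊢
      have h3 : u i * c i ≤ t / (r + b) := by
        rw [le_div_iff₀ hrb]; linarith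
      calc u i * (r * c i) = r * (u i * c i) := by ring
        _ ≤ _ := mul_le_mul_of_nonneg_left h3 hr.le)
    have h2 := hw' u hu (b * (t / (r + b))) (fun i => by
      have h2 := ht i
      simp only [Pi.smul_apply, smul_eq_mul] at h2 ⊢
      have h3 : u i * c i ≤ t / (r + b) := by
        rw [le_div_iff₀ hrb]; linarith
      calc u i * (b * c i) = b * (u i * c i) := by ring
        _ ≤ _ := mul_le_mul_of_nonneg_left h3 hb)
    have h3 : ∑ k, u k * (v + w) k = ∑ k, u k * v k + ∑ k, u k * w k := by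
      rw [← Finset.sum_add_distrib]
      exact Finset.sum_congr rfl fun k _ => by rw [Pi.add_apply]; ring
    change ∑ k, u k * (v + w) k ≤ t
    rw [h3]
    have h4 : r * (t / (r + b)) + b * (t / (r + b)) = t := by field_simp
    linarith
  · refine CX_sub ((CX_convex _).add (convex_convexHull ℝ _))
      ((CX_closed _).add_right_of_isCompact hKc) fun i t ht => ?_
    refine ⟨Pi.single i (t - b * c i), ray_mem ?_, Pi.single i (b * c i),
      subset_convexHull ℝ _ ⟨i, rfl⟩, ?_⟩
    · simp only [Pi.smul_apply, smul_eq_mul] at ht ⊢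
      linarith
    · change (Pi.single i (t - b * c i) : ι → ℝ) + Pi.single i (b * c i) = Pi.single i t
      rw [← Pi.single_add, sub_add_cancel]

lemma ext_cdf1 {ν₁ ν₂ : Measure ℝ} [IsProbabilityMeasure ν₁] [IsProbabilityMeasure ν₂]
    (h : ∀ y : ℝ, ν₁ (Iic y) = ν₂ (Iic y)) : ν₁ = ν₂ := Measure.ext_of_Iic _ _ h

/-- the shifted Fréchet case -/
lemma stable_of_H [Nontrivial ι] (h : TypeH μ) : ConvexStable μ CX := by
  obtain ⟨c, hc, ⟨j0, hj0⟩, α, b, hα, hb, hx, hs⟩ := h
  intro n hn
  obtain ⟨m, rfl⟩ : ∃ m, n = m + 1 := ⟨n - 1, by omega⟩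
  have hn0 : (0 : ℝ) < ((m + 1 : ℕ) : ℝ) := by positivity
  set r : ℝ := ((m + 1 : ℕ) : ℝ) ^ (1 / α) with hr
  have hr0 : 0 < r := by positivity
  have hr1 : 1 ≤ r := Real.one_le_rpow (by push_cast; linarith [Nat.cast_nonneg (α := ℝ) m])
    (by positivity)
  have hrα : r ^ α = ((m + 1 : ℕ) : ℝ) := by
    rw [hr, ← Real.rpow_mul hn0.le, one_div_mul_cancel hα.ne', Real.rpow_one]
  have hKc : IsCompact (convexHull ℝ (range fun i => (Pi.single i ((r - 1) * c i) : ι → ℝ))) :=
    (finite_range _).isCompact_convexHull (𝕜 := ℝ)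
  refine ⟨r, hr0, _, hKc, convex_convexHull ℝ _, ⟨Pi.single j0 ((r - 1) * c j0),
    subset_convexHull ℝ _ ⟨j0, rfl⟩⟩, ?_⟩
  intro C hC
  -- the scalar
  set S : (ι → ℝ) → ℝ := fun x => max (x j0) 0 / c j0 - 1 with hS
  have hSm : Measurable S := by
    have : Continuous S := by rw [hS]; fun_prop
    exact this.measurable
  have hSx : ∀ᵐ x ∂μ, 0 < S x ∧ ∀ i, max (x i) 0 = (1 + S x) * c i := by
    filter_upwards [hx] with x ⟨s, hs0, hsx⟩
    have : S x = s := by
      rw [hS]
      simp only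
      rw [hsx j0]
      field_simp
      ring
    rw [this]
    exact ⟨hs0, hsx⟩
  have hpos : ∀ᵐ x ∂μ, ∃ i, 0 ≤ x i := by
    filter_upwards [hSx] with x ⟨h1, h2⟩
    refine ⟨j0, ?_⟩
    by_contra hcn
    push Not at hcn
    have h3 := h2 j0
    rw [max_eq_right hcn.le] at h3
    have : 0 < (1 + S x) * c j0 := by positivity
    linarith
  -- distribution function of the scalar
  have hG : ∀ s, μ {x | S x ≤ s} = if 0 < s then ENNReal.ofReal (Real.exp (-(b * s ^ (-α)))) else 0 := by
    intro s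
    split_ifs with h0
    · rw [← hs s h0]
      refine measure_congr ?_
      filter_upwards [hSx] with x ⟨h1, h2⟩
      refine propext ?_
      change S x ≤ s ↔ ∀ i, x i ≤ (1 + s) * c i
      constructor
      · intro h i
        refine (le_max_left (x i) 0).trans ?_
        rw [h2 i]
        exact mul_le_mul_of_nonneg_right (by linarith) (hc i)
      · intro h
        have h3 := h j0
        have h4 : max (x j0) 0 ≤ (1 + s) * c j0 := max_le h3 (by positivity)
        rw [h2 j0] at h4
        have := le_of_mul_le_mul_right h4 hj0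
        linarith
    · rw [measure_eq_zero_iff_ae_notMem]
      filter_upwards [hSx] with x ⟨h1, _⟩ h3
      have : S x ≤ s := h3
      linarith
  set MS : (Fin (m + 1) → ι → ℝ) → ℝ := fun z => Finset.univ.sup' Finset.univ_nonempty
    fun j => S (z j) with hMS
  have hMSc : Continuous MS := by
    rw [hMS]
    refine Continuous.finset_sup'_apply _ fun j _ => ?_
    rw [hS]; fun_prop
  have hm1 : Measurable fun x : ι → ℝ => r * (1 + S x) := by fun_prop
  have hm2 : Measurable fun z : Fin (m + 1) → ι → ℝ => 1 + MS z + (r - 1) :=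
    (measurable_const.add hMSc.measurable).add measurable_const
  have hlaw : μ.map (fun x : ι → ℝ => r * (1 + S x)) =
      (Measure.pi fun _ : Fin (m + 1) => μ).map fun z => 1 + MS z + (r - 1) := by
    have : IsProbabilityMeasure (μ.map fun x : ι → ℝ => r * (1 + S x)) :=
      Measure.isProbabilityMeasure_map hm1.aemeasurable
    have : IsProbabilityMeasure ((Measure.pi fun _ : Fin (m + 1) => μ).map
        fun z => 1 + MS z + (r - 1)) := Measure.isProbabilityMeasure_map hm2.aemeasurable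
    refine ext_cdf1 fun y => ?_
    rw [Measure.map_apply hm1 measurableSet_Iic, Measure.map_apply hm2 measurableSet_Iic]
    have e1 : (fun x : ι → ℝ => r * (1 + S x)) ⁻¹' Iic y = {x | S x ≤ (y - r) / r} := by
      ext x
      simp only [mem_preimage, mem_Iic, mem_ofPred_eq]
      rw [le_div_iff₀ hr0]
      constructor <;> intro h <;> linarith
    have e2 : (fun z : Fin (m + 1) → ι → ℝ => 1 + MS z + (r - 1)) ⁻¹' Iic y =
        Set.pi univ fun _ => {x | S x ≤ y - r} := by
      ext z
      simp only [mem_preimage, mem_Iic, mem_ofPred_eq, Set.mem_pi, mem_univ, true_implies]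
      have : 1 + MS z + (r - 1) ≤ y ↔ MS z ≤ y - r := by
        constructor <;> intro h <;> linarith
      rw [this, hMS]
      simp only
      rw [Finset.sup'_le_iff]
      simp
    rw [e1, e2, Measure.pi_pi]
    simp only [Finset.prod_const, Finset.card_univ, Fintype.card_fin]
    rw [hG, hG]
    by_cases hy : 0 < y - r
    · have hy2 : 0 < (y - r) / r := div_pos hy hr0
      rw [if_pos hy, if_pos hy2, ← ENNReal.ofReal_pow (Real.exp_pos _).le, ← Real.exp_nat_mul]
      congr 2
      rw [Real.div_rpow hy.le hr0.le, Real.rpow_neg hr0.le α, hrα]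
      field_simp
    · have hy2 : ¬ 0 < (y - r) / r := by
        push Not at hy ⊢
        exact div_nonpos_of_nonpos_of_nonneg hy hr0.le
      rw [if_neg hy, if_neg hy2]
      simp
  have hSc : MeasurableSet {t : ℝ | (CX (t • c) ∩ C).Nonempty} :=
    ((hit_closed hC).preimage (by fun_prop : Continuous fun t : ℝ => t • c)).measurableSet
  have e1 : μ {x : ι → ℝ | ((r • CX x) ∩ C).Nonempty} =
      μ ((fun x : ι → ℝ => r * (1 + S x)) ⁻¹' {t : ℝ | (CX (t • c) ∩ C).Nonempty}) := by
    refine measure_congr ?_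
    filter_upwards [hSx, hpos] with x ⟨h1, h2⟩ hx
    refine propext ?_
    change ((r • CX x) ∩ C).Nonempty ↔ (CX ((r * (1 + S x)) • c) ∩ C).Nonempty
    rw [CX_pos hx, smul_CX hr0]
    have : (fun i => max (x i) 0) = (1 + S x) • c := by
      funext i
      rw [h2 i]; rfl
    rw [this, smul_smul]
  have e2 : Measure.pi (fun _ : Fin (m + 1) => μ) {z : Fin (m + 1) → ι → ℝ |
      ((closedConvexHull ℝ (⋃ j, CX (z j)) +
        convexHull ℝ (range fun i => (Pi.single i ((r - 1) * c i) : ι → ℝ))) ∩ C).Nonempty} =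
      Measure.pi (fun _ : Fin (m + 1) => μ)
        ((fun z => 1 + MS z + (r - 1)) ⁻¹' {t : ℝ | (CX (t • c) ∩ C).Nonempty}) := by
    refine measure_congr ?_
    filter_upwards [ae_pi_all (n := m + 1) hSx, ae_pi_all (n := m + 1) hpos] with z hz hz2
    refine propext ?_
    change ((closedConvexHull ℝ (⋃ j, CX (z j)) +
        convexHull ℝ (range fun i => (Pi.single i ((r - 1) * c i) : ι → ℝ))) ∩ C).Nonempty ↔
      (CX ((1 + MS z + (r - 1)) • c) ∩ C).Nonempty
    have hMS0 : 0 < MS z := (hz 0).1.trans_le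
      (Finset.le_sup' (fun j => S (z j)) (Finset.mem_univ (0 : Fin (m + 1))))
    have e3 : CX (Mx z) = CX ((1 + MS z) • c) := by
      obtain ⟨i, hi⟩ := hz2 0
      rw [CX_pos ⟨i, hi.trans (le_Mx z i 0)⟩]
      congr 1
      funext i
      simp only [Pi.smul_apply, smul_eq_mul]
      apply le_antisymm
      · refine max_le ?_ (mul_nonneg (by linarith) (hc i))
        rw [Mx_le]
        intro j
        refine (le_max_left (z j i) 0).trans ?_
        rw [(hz j).2 i]
        refine mul_le_mul_of_nonneg_right ?_ (hc i)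
        have := Finset.le_sup' (fun j => S (z j)) (Finset.mem_univ j)
        linarith [show MS z = Finset.univ.sup' Finset.univ_nonempty fun j => S (z j) from rfl]
      · obtain ⟨j, _, hj⟩ := Finset.exists_mem_eq_sup' Finset.univ_nonempty fun j => S (z j)
        have hj' : MS z = S (z j) := hj
        rw [hj', ← (hz j).2 i]
        exact max_le_max (le_Mx z i j) le_rfl
    rw [hull_eq, e3, CX_add (by linarith) (by linarith)]
  rw [e1, e2, ← Measure.map_apply hm1 hSc, ← Measure.map_apply hm2 hSc, hlaw]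

/-- the classification -/
theorem classification [Nontrivial ι] :
    ConvexStable μ CX ↔ TypeD μ ∨ TypeP μ ∨ TypeF μ ∨ TypeH μ := by
  refine ⟨necessity, ?_⟩
  rintro (h | h | h | h)
  · exact stable_of_D h
  · exact stable_of_P h
  · exact stable_of_F h
  · exact stable_of_H h

end Q297.Cs
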