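import Pool.Agent.Q297.CsG

/-!
Dimension one.
-/

open MeasureTheory ProbabilityTheory Set Filter Topology
open scoped ENNReal NNReal Pointwise

namespace Q297.Cs

lemma mem_CX_one {x v : Fin 1 → ℝ} : v ∈ CX x ↔ v 0 ≤ x 0 := by
  constructor
  · intro h
    have h1 := (mem_CX_iff.1 h) (fun _ => 1) (fun _ => zero_le_one) (x 0) (fun i => by
      rw [one_mul, Subsingleton.elim i 0])
    simpa using h1
  · intro h
    have : v = Pi.single 0 (v 0) := by
      funext i
      rw [Subsingleton.elim i 0]; simp
    rw [this]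
    exact ray_mem h

/-- classical max-stability of the law of a real random variable -/
def MaxStable1 (μ : Measure (Fin 1 → ℝ)) : Prop :=
  ∀ n : ℕ, 1 ≤ n → ∃ a b : ℝ, 0 < a ∧ ∀ t : ℝ, μ {x | x 0 ≤ t} ^ n = μ {x | a * x 0 - b ≤ t}

theorem dim_one {μ : Measure (Fin 1 → ℝ)} [IsProbabilityMeasure μ] :
    ConvexStable μ CX ↔ MaxStable1 μ := by
  constructor
  · intro h n hn
    obtain ⟨a, κ, hF⟩ := feq_of_stable h hn
    refine ⟨a, κ (fun _ => 1), hF.pos, fun t => ?_⟩
    have h1 := hF.eq (fun _ : Unit => fun _ => (1 : ℝ)) (fun _ => t + κ (fun _ => 1))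
      (fun _ _ => zero_le_one)
    simp only [forall_const, one_mul, Fin.forall_fin_one, add_le_add_iff_right] at h1
    rw [← h1]
    congr 1
    ext x
    simp only [mem_ofPred_eq]
    constructor <;> intro h <;> linarith
  · intro h n hn
    obtain ⟨a, b, ha, hab⟩ := h n hn
    obtain ⟨m, rfl⟩ : ∃ m, n = m + 1 := ⟨n - 1, by omega⟩
    refine ⟨a, ha, {fun _ => b}, isCompact_singleton, convex_singleton _, singleton_nonempty _, ?_⟩
    intro C hC
    have hm1 : Measurable fun x : Fin 1 → ℝ => a • x := by fun_prop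
    have hm2 : Measurable fun z : Fin (m + 1) → Fin 1 → ℝ => Mx z + fun _ => b :=
      Mx_meas.add measurable_const
    have hlaw : μ.map (fun x : Fin 1 → ℝ => a • x) =
        (Measure.pi fun _ : Fin (m + 1) => μ).map fun z => Mx z + fun _ => b := by
      have : IsProbabilityMeasure (μ.map fun x : Fin 1 → ℝ => a • x) :=
        Measure.isProbabilityMeasure_map hm1.aemeasurable
      have : IsProbabilityMeasure ((Measure.pi fun _ : Fin (m + 1) => μ).map
          fun z => Mx z + fun _ => b) := Measure.isProbabilityMeasure_map hm2.aemeasurable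
      refine ext_cdf fun y => ?_
      rw [Measure.map_apply hm1 (meas_le y), Measure.map_apply hm2 (meas_le y)]
      have e1 : (fun x : Fin 1 → ℝ => a • x) ⁻¹' {x | ∀ i, x i ≤ y i} =
          {x | a * x 0 - b ≤ y 0 - b} := by
        ext x
        simp [Fin.forall_fin_one]
      have e2 : (fun z : Fin (m + 1) → Fin 1 → ℝ => Mx z + fun _ => b) ⁻¹' {x | ∀ i, x i ≤ y i} =
          {z | ∀ i, Mx z i ≤ y i - b} := by
        ext z
        simp only [mem_preimage, mem_ofPred_eq, Pi.add_apply]
        refine forall_congr' fun i => ?_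
        constructor <;> intro h <;> linarith
      rw [e1, e2, pi_le, ← hab]
      congr 2
      ext x
      simp [Fin.forall_fin_one]
    have hS := (hit_closed hC).measurableSet
    have e1 : {x : Fin 1 → ℝ | ((a • CX x) ∩ C).Nonempty} =
        (fun x : Fin 1 → ℝ => a • x) ⁻¹' {x | (CX x ∩ C).Nonempty} := by
      ext x
      simp only [mem_ofPred_eq, mem_preimage]
      rw [smul_CX ha]
    have e3 : ∀ x : Fin 1 → ℝ, CX x + {fun _ => b} = CX (x + fun _ => b) := by
      intro x
      ext v
      rw [mem_CX_one, add_singleton, mem_image]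
      constructor
      · rintro ⟨w, hw, rfl⟩
        have := mem_CX_one.1 hw
        simp only [Pi.add_apply]
        linarith
      · intro h
        refine ⟨v - fun _ => b, ?_, by simp⟩
        rw [mem_CX_one]
        simp only [Pi.sub_apply, Pi.add_apply] at h ⊢
        linarith
    have e2 : {z : Fin (m + 1) → Fin 1 → ℝ |
        ((closedConvexHull ℝ (⋃ j, CX (z j)) + ({fun _ => b} : Set (Fin 1 → ℝ))) ∩ C).Nonempty} =
        (fun z : Fin (m + 1) → Fin 1 → ℝ => Mx z + fun _ => b) ⁻¹' {x | (CX x ∩ C).Nonempty} := by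
      ext z
      simp only [mem_ofPred_eq, mem_preimage]
      rw [hull_eq, e3]
    rw [e1, e2, ← Measure.map_apply hm1 hS, ← Measure.map_apply hm2 hS, hlaw]

end Q297.Cs
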