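import Pool.Agent.Q297.TwoS

/-!
Brownian motion with respect to a filtration, stopped at a stopping time and continued by an
independent Brownian motion.
-/

open MeasureTheory ProbabilityTheory Set Filter Topology
open scoped ENNReal NNReal
open Q297.PathC Q297.Prepend Q297.TwoS

namespace Q297.Dec

/-- evaluation of a path at a random time -/
lemma ev_meas1 : Measurable (fun p : ℝ≥0 × Path => p.2 p.1) := by
  have h := measurable_uncurry_of_continuous_of_measurable (ι := ℝ≥0) (α := Path) (β := ℝ)
    (u := fun s x => x s) (fun x => x.continuous) (fun s => measurable_eval s)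
  exact h

/-- the path `b` up to time `τ`, continued by the increments of `f` -/
def conc (τ : ℝ≥0) (b f : Path) : Path :=
  ⟨fun t => b (min t τ) + (f (t - τ) - f 0), by fun_prop⟩

@[simp] lemma conc_apply (τ : ℝ≥0) (b f : Path) (t : ℝ≥0) :
    conc τ b f t = b (min t τ) + (f (t - τ) - f 0) := rfl

/-- the path `b` stopped at time `τ` -/
def stop (τ : ℝ≥0) (b : Path) : Path := ⟨fun t => b (min t τ), by fun_prop⟩

@[simp] lemma stop_apply (τ : ℝ≥0) (b : Path) (t : ℝ≥0) : stop τ b t = b (min t τ) := rfl

lemma conc_stop (τ : ℝ≥0) (b f : Path) : conc τ (stop τ b) f = conc τ b f := by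
  ext t; simp

lemma conc_shift (τ : ℝ≥0) (b : Path) : conc τ b (shift τ b) = b := by
  ext t
  rcases le_total t τ with h | h
  · simp [min_eq_left h, tsub_eq_zero_of_le h]
  · simp only [conc_apply, min_eq_right h, shift_apply, add_tsub_cancel_of_le h, add_zero]
    ring

lemma conc_meas : Measurable (fun p : (ℝ≥0 × Path) × Path => conc p.1.1 p.1.2 p.2) := by
  refine measurable_of_eval fun t => ?_
  have h1 : Measurable (fun p : (ℝ≥0 × Path) × Path => p.1.2 (min t p.1.1)) :=
    ev_meas1.comp ((measurable_const.min (measurable_fst.comp measurable_fst)).prodMk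
      (measurable_snd.comp measurable_fst))
  have h2 : Measurable (fun p : (ℝ≥0 × Path) × Path => p.2 (t - p.1.1)) :=
    ev_meas1.comp ((measurable_const.sub (measurable_fst.comp measurable_fst)).prodMk measurable_snd)
  exact h1.add (h2.sub ((measurable_eval 0).comp measurable_snd))

lemma stop_meas : Measurable (fun p : ℝ≥0 × Path => stop p.1 p.2) := by
  refine measurable_of_eval fun t => ?_
  exact ev_meas1.comp ((measurable_const.min measurable_fst).prodMk measurable_snd)

section Limit

variable {W : Measure Path}

/-- the law of a pointwise limit -/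
lemma law_limit [IsProbabilityMeasure W] {E : Type*} {mE : MeasurableSpace E} {μ : Measure E}
    [IsProbabilityMeasure μ] {Z : ℕ → E → Path} (hZ : ∀ n, Measurable (Z n)) {Z' : E → Path}
    (hZ' : Measurable Z')
    (hlim : ∀ t, ∀ᵐ e ∂μ, Tendsto (fun n => Z n e t) atTop (𝓝 (Z' e t)))
    (hlaw : ∀ n, μ.map (Z n) = W) : μ.map Z' = W := by
  have hp : IsProbabilityMeasure (μ.map Z') := Measure.isProbabilityMeasure_map hZ'.aemeasurable
  apply measure_ext
  have h1 : IsProjectiveLimit ((μ.map Z').map (fun (f : Path) (t : ℝ≥0) => f t))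
      (fun I : Finset ℝ≥0 => W.map (fun f => I.restrict (fun t => f t))) := by
    intro I
    have mI : Measurable (fun f : Path => I.restrict (fun t => f t)) :=
      measurable_pi_lambda _ fun t => measurable_eval t.1
    rw [Measure.map_map (by fun_prop) measurable_coe,
      Measure.map_map ((Finset.measurable_restrict I).comp measurable_coe) hZ']
    have hfin : IsProbabilityMeasure (μ.map ((I.restrict ∘ fun (f : Path) (t : ℝ≥0) => f t) ∘ Z')) :=
      Measure.isProbabilityMeasure_map
        (((Finset.measurable_restrict I).comp measurable_coe).comp hZ').aemeasurable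
    have hfin2 : IsProbabilityMeasure (W.map (fun f => I.restrict (fun t => f t))) :=
      Measure.isProbabilityMeasure_map mI.aemeasurable
    apply ext_of_forall_integral_eq_of_IsFiniteMeasure
    intro φ
    have e1 : ∫ x, φ x ∂(μ.map ((I.restrict ∘ fun (f : Path) (t : ℝ≥0) => f t) ∘ Z')) =
        ∫ e, φ (I.restrict fun t => Z' e t) ∂μ := by
      rw [integral_map (((Finset.measurable_restrict I).comp measurable_coe).comp hZ').aemeasurable
        φ.continuous.aestronglyMeasurable]
      rfl
    have e2 : ∀ n, ∫ e, φ (I.restrict fun t => Z n e t) ∂μ =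
        ∫ x, φ x ∂(W.map (fun f => I.restrict (fun t => f t))) := by
      intro n
      rw [← hlaw n, Measure.map_map mI (hZ n), integral_map (mI.comp (hZ n)).aemeasurable
        φ.continuous.aestronglyMeasurable]
      rfl
    rw [e1]
    have h2 : Tendsto (fun n => ∫ e, φ (I.restrict fun t => Z n e t) ∂μ) atTop
        (𝓝 (∫ e, φ (I.restrict fun t => Z' e t) ∂μ)) := by
      refine tendsto_integral_of_dominated_convergence (fun _ => ‖φ‖) (fun n => ?_)
        (integrable_const _) (fun n => ae_of_all _ fun e => φ.norm_coe_le_norm _) ?_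
      · exact (φ.continuous.measurable.comp (mI.comp (hZ n))).aestronglyMeasurable
      · have h3 : ∀ᵐ e ∂μ, ∀ t : I, Tendsto (fun n => Z n e t) atTop (𝓝 (Z' e t)) :=
          ae_all_iff.2 fun t => hlim t.1
        filter_upwards [h3] with e he
        refine (φ.continuous.tendsto _).comp ?_
        exact tendsto_pi_nhds.2 fun t => he t
    simp only [e2] at h2
    exact tendsto_nhds_unique h2 tendsto_const_nhds |>.symm ▸ rfl
  have h2 : IsProjectiveLimit (W.map (fun (f : Path) (t : ℝ≥0) => f t))
      (fun I : Finset ℝ≥0 => W.map (fun f => I.restrict (fun t => f t))) := by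
    intro I
    rw [Measure.map_map (by fun_prop) measurable_coe]
    rfl
  exact h1.unique h2

end Limit

end Q297.Dec
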