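import Pool.Agent.Q297.DecA

/-!
Brownian motion with respect to a filtration; continuation after a stopping time.
-/

open MeasureTheory ProbabilityTheory Set Filter Topology
open scoped ENNReal NNReal
open Q297.PathC Q297.Prepend Q297.TwoS

namespace Q297.Dec

/-- Brownian motion with respect to the filtration `F` -/
structure FiltBM {Ω : Type*} {mΩ : MeasurableSpace Ω} (F : Filtration ℝ≥0 mΩ) (B : ℝ≥0 → Ω → ℝ)
    (P : Measure Ω) : Prop where
  bm : IsBrownianReal B P
  adapted : ∀ t, Measurable[F t] (B t)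
  indep : ∀ s t, s ≤ t →
    Indep (MeasurableSpace.comap (fun ω => B t ω - B s ω) inferInstance) (F s) P

variable {Ω : Type*} {mΩ : MeasurableSpace Ω} {P : Measure Ω} {F : Filtration ℝ≥0 mΩ}
  {B : ℝ≥0 → Ω → ℝ}

/-- a continuous modification -/
lemma exists_mod (hm : ∀ t, Measurable (B t)) (hc : ∀ᵐ ω ∂P, Continuous (B · ω)) :
    ∃ b : Ω → Path, Measurable b ∧ ∀ᵐ ω ∂P, ∀ t, b ω t = B t ω := by
  classical
  set N := toMeasurable P {ω | ¬ Continuous (B · ω)} with hN
  have hN0 : P N = 0 := by rw [hN, measure_toMeasurable]; exact hc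
  have hNc : ∀ ω, ω ∉ N → Continuous (B · ω) := by
    intro ω hω
    by_contra h
    exact hω (subset_toMeasurable _ _ h)
  let b : Ω → Path := fun ω => if h : ω ∈ N then 0 else ⟨fun t => B t ω, hNc ω h⟩
  have hb : ∀ ω t, b ω t = if ω ∈ N then 0 else B t ω := by
    intro ω t
    by_cases h : ω ∈ N <;> simp [b, h]
  refine ⟨b, measurable_of_eval fun t => ?_, ?_⟩
  · simp only [hb]
    exact Measurable.ite (measurableSet_toMeasurable _ _) measurable_const (hm t)
  · have h1 : ∀ᵐ ω ∂P, ω ∉ N := measure_eq_zero_iff_ae_notMem.1 hN0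
    filter_upwards [h1] with ω hω t
    rw [hb, if_neg hω]

lemma FiltBM.prob (h : FiltBM F B P) : IsProbabilityMeasure P :=
  h.bm.isGaussianProcess.isProbabilityMeasure

lemma FiltBM.inter (h : FiltBM F B P) {u t : ℝ≥0} (hut : u ≤ t) {A : Set Ω}
    (hA : MeasurableSet[F u] A) {C : Set ℝ} (hC : MeasurableSet C) :
    P (A ∩ (fun ω => B t ω - B u ω) ⁻¹' C) = P A * P ((fun ω => B t ω - B u ω) ⁻¹' C) := by
  have h1 := (Indep_iff _ _ P).1 (h.indep u t hut) ((fun ω => B t ω - B u ω) ⁻¹' C) A
    ⟨C, hC, rfl⟩ hA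
  rw [inter_comm, h1, mul_comm]

lemma FiltBM.cond_bm (h : FiltBM F B P) (s : ℝ≥0) {A : Set Ω} (hA : MeasurableSet[F s] A)
    (hpos : P A ≠ 0) : IsPreBrownianReal (fun t ω => B (s + t) ω - B s ω) (P[|A]) := by
  have hP := h.prob
  have hAm : MeasurableSet A := F.le s A hA
  have hcond : ∀ {u t : ℝ≥0}, s ≤ u → u ≤ t → ∀ {C : Set ℝ}, MeasurableSet C →
      (P[|A]) ((fun ω => B t ω - B u ω) ⁻¹' C) = P ((fun ω => B t ω - B u ω) ⁻¹' C) := by
    intro u t hsu hut C hC
    rw [cond_apply hAm, h.inter hut (F.mono hsu A hA) hC, ← mul_assoc,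
      ENNReal.inv_mul_cancel hpos (measure_ne_top _ _), one_mul]
  have hBm : ∀ t, Measurable (B t) := fun t => (h.adapted t).mono (F.le t) le_rfl
  refine HasIndepIncrements.isPreBrownianReal_of_hasLaw (fun t => ?_) ?_
  · have h1 := (h.bm.shift s).hasLaw_eval t
    refine ⟨((hBm _).sub (hBm _)).aemeasurable, ?_⟩
    rw [← h1.map_eq]
    ext C hC
    have hd : Measurable (fun ω => B (s + t) ω - B s ω) := (hBm _).sub (hBm _)
    rw [Measure.map_apply hd hC, Measure.map_apply hd hC]
    exact hcond le_rfl (by simp) hC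
  · refine HasIndepIncrements.of_nat fun t ht _ => ?_
    rw [iIndepFun_iff_measure_inter_preimage_eq_mul]
    intro S sets hsets
    classical
    set D : ℕ → Ω → ℝ := fun i ω => B (s + t (i + 1)) ω - B (s + t i) ω with hD
    have hDe : ∀ i, (fun ω => (B (s + t (i + 1)) ω - B s ω) - (B (s + t i) ω - B s ω)) = D i := by
      intro i; funext ω; simp only [hD]; ring
    simp only [hDe]
    set n := S.sup id + 1 with hn
    set sets' : ℕ → Set ℝ := fun i => if i ∈ S then sets i else univ with hs'
    have hm' : ∀ i, MeasurableSet (sets' i) := by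
      intro i
      simp only [hs']
      split_ifs with hi
      · exact hsets i hi
      · exact MeasurableSet.univ
    have hstep : ∀ i, s + t i ≤ s + t (i + 1) := fun i => by gcongr; exact ht (Nat.le_succ i)
    have key : ∀ m, MeasurableSet[F (s + t m)] (A ∩ ⋂ i ∈ Finset.range m, D i ⁻¹' sets' i) ∧
        P (A ∩ ⋂ i ∈ Finset.range m, D i ⁻¹' sets' i) =
          P A * ∏ i ∈ Finset.range m, P (D i ⁻¹' sets' i) := by
      intro m
      induction m with
      | zero =>
        refine ⟨?_, by simp⟩
        simp only [Finset.range_zero, Finset.notMem_empty, iInter_of_empty, iInter_univ, inter_univ]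
        exact F.mono (by simp) A hA
      | succ m ih =>
        have e : (A ∩ ⋂ i ∈ Finset.range (m + 1), D i ⁻¹' sets' i) =
            (A ∩ ⋂ i ∈ Finset.range m, D i ⁻¹' sets' i) ∩ D m ⁻¹' sets' m := by
          ext ω
          simp only [mem_inter_iff, mem_iInter, Finset.mem_range, mem_preimage]
          constructor
          · rintro ⟨h1, h2⟩
            exact ⟨⟨h1, fun i hi => h2 i (by omega)⟩, h2 m (by omega)⟩
          · rintro ⟨⟨h1, h2⟩, h3⟩
            refine ⟨h1, fun i hi => ?_⟩
            rcases Nat.lt_succ_iff_lt_or_eq.1 hi with h4 | h4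
            · exact h2 i h4
            · subst h4; exact h3
        rw [e]
        constructor
        · have h1 := F.mono (hstep m) _ ih.1
          have h2 : Measurable[F (s + t (m + 1))] (D m) :=
            (h.adapted _).sub ((h.adapted _).mono (F.mono (hstep m)) le_rfl)
          exact MeasurableSet.inter h1 (h2 (hm' m))
        · rw [h.inter (hstep m) ih.1 (hm' m), ih.2, Finset.prod_range_succ, mul_assoc]
    have e1 : (⋂ i ∈ S, D i ⁻¹' sets i) = ⋂ i ∈ Finset.range n, D i ⁻¹' sets' i := by
      ext ω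
      simp only [mem_iInter, Finset.mem_range, mem_preimage]
      constructor
      · intro h1 i _
        simp only [hs']
        split_ifs with hi
        · exact h1 i hi
        · trivial
      · intro h1 i hi
        have h2 := h1 i (Nat.lt_succ_of_le (Finset.le_sup (f := id) hi))
        simp only [hs', if_pos hi] at h2
        exact h2
    have e2 : ∏ i ∈ S, (P[|A]) (D i ⁻¹' sets i) = ∏ i ∈ Finset.range n, P (D i ⁻¹' sets' i) := by
      have h3 : S ⊆ Finset.range n := fun i hi =>
        Finset.mem_range.2 (Nat.lt_succ_of_le (Finset.le_sup (f := id) hi))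
      rw [← Finset.prod_subset h3]
      · refine Finset.prod_congr rfl fun i hi => ?_
        simp only [hs', if_pos hi]
        exact hcond (by simp) (hstep i) (hsets i hi)
      · intro i _ hi
        simp only [hs', if_neg hi, preimage_univ]
        exact measure_univ
    rw [e1, e2, cond_apply hAm, (key n).2, ← mul_assoc,
      ENNReal.inv_mul_cancel hpos (measure_ne_top _ _), one_mul]

variable {W : Measure Path} (hW : IsBrownianReal (fun (t : ℝ≥0) (x : Path) => x t) W)

include hW

/-- the future increments are independent of the past -/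
lemma FiltBM.future (h : FiltBM F B P) {b : Ω → Path} (hb : Measurable b)
    (hbB : ∀ᵐ ω ∂P, ∀ t, b ω t = B t ω) (q : ℝ≥0) {A : Set Ω} (hA : MeasurableSet[F q] A)
    {C : Set Path} (hC : MeasurableSet C) :
    P (A ∩ {ω | shift q (b ω) ∈ C}) = P A * W C := by
  have hP := h.prob
  rcases eq_or_ne (P A) 0 with h0 | h0
  · rw [h0, zero_mul]
    exact measure_mono_null inter_subset_left h0
  have hAm : MeasurableSet A := F.le q A hA
  have h1 := h.cond_bm q hA h0
  have hmb : Measurable (fun ω => shift q (b ω)) := (measurable_shift q).comp hb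
  have h2 : (P[|A]).map (fun ω => shift q (b ω)) = W := by
    refine law_unique1 hW hmb (h1.congr fun t => ?_)
    have h3 : ∀ᵐ ω ∂(P[|A]), ∀ t, b ω t = B t ω := cond_absolutelyContinuous.ae_le hbB
    filter_upwards [h3] with ω hω
    simp [hω]
  rw [← h2, Measure.map_apply hmb hC, cond_apply hAm, ← mul_assoc,
    ENNReal.mul_inv_cancel h0 (measure_ne_top _ _), one_mul]
  rfl

/-- the joint law of the stopped path and the future, on an event of the past -/
lemma FiltBM.joint (h : FiltBM F B P) {b : Ω → Path} (hb : Measurable b)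
    (hbB : ∀ᵐ ω ∂P, ∀ t, b ω t = B t ω) (q : ℝ≥0) {A : Set Ω} (hA : MeasurableSet[F q] A) :
    ((P.restrict A).map (fun ω => stop q (b ω))).prod W =
      (P.restrict A).map (fun ω => (stop q (b ω), shift q (b ω))) := by
  have hP := h.prob
  have hWp := isProb hW
  have hAm : MeasurableSet A := F.le q A hA
  have ms : Measurable (fun ω => stop q (b ω)) := stop_meas.comp (measurable_const.prodMk hb)
  have mf : Measurable (fun ω => shift q (b ω)) := (measurable_shift q).comp hb
  have hfin : IsFiniteMeasure ((P.restrict A).map (fun ω => stop q (b ω))) :=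
    Measure.isFiniteMeasure_map _ _
  refine Measure.prod_eq fun D1 D2 h1 h2 => ?_
  rw [Measure.map_apply (ms.prodMk mf) (h1.prod h2), Measure.map_apply ms h1,
    Measure.restrict_apply (ms h1), Measure.restrict_apply ((ms.prodMk mf) (h1.prod h2))]
  obtain ⟨D', hD', rfl⟩ : ∃ D' : Set (ℝ≥0 → ℝ), MeasurableSet D' ∧
      (fun (f : Path) (t : ℝ≥0) => f t) ⁻¹' D' = D1 := by
    have := h1
    rw [instMS_eq] at this
    exact this
  have hA' : MeasurableSet[F q] (A ∩ {ω | (fun t => B (min t q) ω) ∈ D'}) := by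
    have h3 : Measurable[F q] (fun ω (t : ℝ≥0) => B (min t q) ω) := by
      refine @measurable_pi_lambda _ _ _ (F q) _ _ fun t => ?_
      exact (h.adapted (min t q)).mono (F.mono (min_le_right _ _)) le_rfl
    exact MeasurableSet.inter hA (h3 hD')
  have e1 : P ((fun ω => stop q (b ω)) ⁻¹' ((fun (f : Path) (t : ℝ≥0) => f t) ⁻¹' D') ∩ A) =
      P (A ∩ {ω | (fun t => B (min t q) ω) ∈ D'}) := by
    refine measure_congr ?_
    filter_upwards [hbB] with ω hω
    have e : (fun t => stop q (b ω) t) = fun t => B (min t q) ω := by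
      funext t; rw [stop_apply, hω]
    apply propext
    show ((fun t => stop q (b ω) t) ∈ D' ∧ ω ∈ A) ↔ (ω ∈ A ∧ (fun t => B (min t q) ω) ∈ D')
    rw [e, and_comm]
  have e2 : P ((fun ω => (stop q (b ω), shift q (b ω))) ⁻¹'
      (((fun (f : Path) (t : ℝ≥0) => f t) ⁻¹' D') ×ˢ D2) ∩ A) =
      P ((A ∩ {ω | (fun t => B (min t q) ω) ∈ D'}) ∩ {ω | shift q (b ω) ∈ D2}) := by
    refine measure_congr ?_
    filter_upwards [hbB] with ω hω
    have e : (fun t => stop q (b ω) t) = fun t => B (min t q) ω := by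
      funext t; rw [stop_apply, hω]
    apply propext
    show (((fun t => stop q (b ω) t) ∈ D' ∧ shift q (b ω) ∈ D2) ∧ ω ∈ A) ↔
      ((ω ∈ A ∧ (fun t => B (min t q) ω) ∈ D') ∧ shift q (b ω) ∈ D2)
    rw [e]
    tauto
  rw [e1, e2, h.future hW hb hbB q hA' h2]

end Q297.Dec
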