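import Pool.Agent.Q297.DecB

/-!
A Brownian motion stopped at a stopping time and continued by an independent Brownian motion is a
Brownian motion.
-/

open MeasureTheory ProbabilityTheory Set Filter Topology
open scoped ENNReal NNReal
open Q297.PathC Q297.Prepend Q297.TwoS

namespace Q297.Dec

variable {Ω : Type*} {mΩ : MeasurableSpace Ω} {P : Measure Ω} {F : Filtration ℝ≥0 mΩ}
  {B : ℝ≥0 → Ω → ℝ}

/-- dyadic upper approximation -/
noncomputable def up (n : ℕ) (x : ℝ≥0) : ℝ≥0 := ((⌊2 ^ n * x⌋₊ : ℝ≥0) + 1) / 2 ^ n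

lemma up_gt (n : ℕ) (x : ℝ≥0) : x < up n x := by
  unfold up
  have h2 : (0 : ℝ≥0) < 2 ^ n := by positivity
  rw [lt_div_iff₀ h2, mul_comm]
  exact Nat.lt_floor_add_one _

lemma up_le (n : ℕ) (x : ℝ≥0) : up n x ≤ x + 1 / 2 ^ n := by
  unfold up
  have h2 : (0 : ℝ≥0) < 2 ^ n := by positivity
  rw [div_le_iff₀ h2, add_mul, div_mul_cancel₀ _ h2.ne', mul_comm x]
  gcongr
  exact Nat.floor_le zero_le

lemma up_tendsto (x : ℝ≥0) : Tendsto (fun n => up n x) atTop (𝓝 x) := by
  have h1 : Tendsto (fun n : ℕ => x + 1 / 2 ^ n) atTop (𝓝 (x + 0)) := by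
    refine tendsto_const_nhds.add ?_
    have h2 : Tendsto (fun n : ℕ => ((1 / 2 : ℝ≥0)) ^ n) atTop (𝓝 0) :=
      NNReal.tendsto_pow_atTop_nhds_zero_of_lt_one (by
        rw [div_lt_one (by norm_num)]; norm_num)
    refine h2.congr fun n => ?_
    rw [div_pow, one_pow]
  rw [add_zero] at h1
  exact tendsto_of_tendsto_of_tendsto_of_le_of_le tendsto_const_nhds h1
    (fun n => (up_gt n x).le) (fun n => up_le n x)

lemma up_meas (n : ℕ) : Measurable (up n) := by
  unfold up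
  have h1 : Measurable (fun x : ℝ≥0 => ⌊2 ^ n * x⌋₊) :=
    Nat.measurable_floor.comp (measurable_const.mul measurable_id)
  have h2 : Measurable (fun x : ℝ≥0 => ((⌊2 ^ n * x⌋₊ : ℕ) : ℝ≥0)) :=
    (measurable_from_nat (f := fun k : ℕ => (k : ℝ≥0))).comp h1
  exact (h2.add_const 1).div_const _

/-- the cells of the approximation -/
def cell (T : Ω → ℝ≥0) (n j : ℕ) : Set Ω := {ω | ⌊2 ^ n * T ω⌋₊ = j}

lemma cell_eq (T : Ω → ℝ≥0) (n j : ℕ) : cell T n j =
    {ω | T ω < ((j : ℝ≥0) + 1) / 2 ^ n} \ {ω | T ω < (j : ℝ≥0) / 2 ^ n} := by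
  have h2 : (0 : ℝ≥0) < 2 ^ n := by positivity
  ext ω
  simp only [cell, mem_ofPred_eq, Set.mem_sdiff, not_lt]
  rw [lt_div_iff₀ h2, div_le_iff₀ h2, Nat.floor_eq_iff zero_le, mul_comm (T ω)]
  tauto

lemma cell_meas {T : Ω → ℝ≥0} (hT : IsStoppingTime F (fun ω => (T ω : WithTop ℝ≥0))) (n j : ℕ) :
    MeasurableSet[F (((j : ℝ≥0) + 1) / 2 ^ n)] (cell T n j) := by
  rw [cell_eq]
  have h3 := hT.measurableSet_lt (((j : ℝ≥0) + 1) / 2 ^ n)
  have h4 := hT.measurableSet_lt_le (i := (j : ℝ≥0) / 2 ^ n) (j := ((j : ℝ≥0) + 1) / 2 ^ n) (by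
    gcongr
    simp)
  simp only [WithTop.coe_lt_coe] at h3 h4
  exact MeasurableSet.diff h3 h4

lemma cell_disj (T : Ω → ℝ≥0) (n : ℕ) : Pairwise (Function.onFun Disjoint (cell T n)) := by
  intro i j hij
  rw [Function.onFun, Set.disjoint_left]
  intro ω h3 h4
  have h3' : ⌊2 ^ n * T ω⌋₊ = i := h3
  have h4' : ⌊2 ^ n * T ω⌋₊ = j := h4
  exact hij (h3'.symm.trans h4')

lemma cell_union (T : Ω → ℝ≥0) (n : ℕ) : ⋃ j, cell T n j = univ := by
  ext ω
  simp only [mem_iUnion, mem_univ, iff_true]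
  exact ⟨⌊2 ^ n * T ω⌋₊, rfl⟩

lemma cell_up {T : Ω → ℝ≥0} {n j : ℕ} {ω : Ω} (h : ω ∈ cell T n j) :
    up n (T ω) = ((j : ℝ≥0) + 1) / 2 ^ n := by
  have : ⌊2 ^ n * T ω⌋₊ = j := h
  unfold up
  rw [this]

attribute [irreducible] up

lemma concat_meas {b : Ω → Path} (hb : Measurable b) {T' : Ω → ℝ≥0} (hT' : Measurable T') :
    Measurable (fun p : Ω × Path => conc (T' p.1) (b p.1) p.2) :=
  conc_meas.comp (((hT'.comp measurable_fst).prodMk (hb.comp measurable_fst)).prodMk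
    measurable_snd)

variable {W : Measure Path} (hW : IsBrownianReal (fun (t : ℝ≥0) (x : Path) => x t) W)

include hW

lemma FiltBM.cell_law (h : FiltBM F B P) {b : Ω → Path} (hb : Measurable b)
    (hbB : ∀ᵐ ω ∂P, ∀ t, b ω t = B t ω) {T : Ω → ℝ≥0}
    (hT : IsStoppingTime F (fun ω => (T ω : WithTop ℝ≥0))) (n j : ℕ) {C : Set Path}
    (hC : MeasurableSet C) :
    ∫⁻ ω in cell T n j, W {f | conc (up n (T ω)) (b ω) f ∈ C} ∂P =
      P (cell T n j ∩ b ⁻¹' C) := by
  have hP := h.prob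
  have hWp := isProb hW
  set q : ℝ≥0 := ((j : ℝ≥0) + 1) / 2 ^ n with hq
  have hAF : MeasurableSet[F q] (cell T n j) := cell_meas hT n j
  have hAm : MeasurableSet (cell T n j) := F.le _ _ hAF
  set G : Set (Path × Path) := {x | conc q x.1 x.2 ∈ C} with hG
  have hGm : MeasurableSet G := by
    have h5 : Measurable (fun x : Path × Path => conc q x.1 x.2) :=
      conc_meas.comp ((measurable_const.prodMk measurable_fst).prodMk measurable_snd)
    exact h5 hC
  have ms : Measurable (fun ω => stop q (b ω)) := stop_meas.comp (measurable_const.prodMk hb)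
  have mf : Measurable (fun ω => shift q (b ω)) := (measurable_shift _).comp hb
  have e3 : ∫⁻ ω in cell T n j, W {f | conc (up n (T ω)) (b ω) f ∈ C} ∂P =
      ∫⁻ ω in cell T n j, W (Prod.mk (stop q (b ω)) ⁻¹' G) ∂P := by
    refine setLIntegral_congr_fun hAm fun ω hω => ?_
    have e : {f | conc (up n (T ω)) (b ω) f ∈ C} = Prod.mk (stop q (b ω)) ⁻¹' G := by
      ext f
      rw [cell_up hω]
      simp only [mem_preimage, hG, mem_ofPred_eq, conc_stop]
      rfl
    simp only [e]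
  have mG : Measurable (fun x : Path => W (Prod.mk x ⁻¹' G)) := measurable_measure_prodMk_left hGm
  rw [e3, ← lintegral_map (μ := P.restrict (cell T n j)) mG ms, ← Measure.prod_apply hGm,
    h.joint hW hb hbB q hAF, Measure.map_apply (ms.prodMk mf) hGm,
    Measure.restrict_apply ((ms.prodMk mf) hGm), inter_comm]
  congr 2
  ext ω
  simp only [mem_preimage, hG, mem_ofPred_eq, conc_stop, conc_shift]

lemma FiltBM.up_law (h : FiltBM F B P) {b : Ω → Path} (hb : Measurable b)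
    (hbB : ∀ᵐ ω ∂P, ∀ t, b ω t = B t ω) {T : Ω → ℝ≥0} (hTm : Measurable T)
    (hT : IsStoppingTime F (fun ω => (T ω : WithTop ℝ≥0))) (n : ℕ) :
    (P.prod W).map (fun p => conc (up n (T p.1)) (b p.1) p.2) = W := by
  have hP := h.prob
  have hWp := isProb hW
  have hlaw : P.map b = W :=
    law_unique1 hW hb (h.bm.toIsPreBrownianReal.congr fun t => by
      filter_upwards [hbB] with ω hω
      exact (hω t).symm)
  have hAm : ∀ j, MeasurableSet (cell T n j) := fun j => F.le _ _ (cell_meas hT n j)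
  have mZ : Measurable (fun p : Ω × Path => conc (up n (T p.1)) (b p.1) p.2) :=
    concat_meas hb ((up_meas n).comp hTm)
  ext C hC
  have e0 : ((P.prod W).map (fun p => conc (up n (T p.1)) (b p.1) p.2)) C =
      ∫⁻ ω, W {f | conc (up n (T ω)) (b ω) f ∈ C} ∂P := by
    rw [Measure.map_apply mZ hC, Measure.prod_apply (mZ hC)]
    rfl
  have e1 : ∫⁻ ω, W {f | conc (up n (T ω)) (b ω) f ∈ C} ∂P =
      ∑' j, ∫⁻ ω in cell T n j, W {f | conc (up n (T ω)) (b ω) f ∈ C} ∂P := by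
    rw [← lintegral_iUnion hAm (cell_disj T n), cell_union, setLIntegral_univ]
  have e2 : ∀ j, ∫⁻ ω in cell T n j, W {f | conc (up n (T ω)) (b ω) f ∈ C} ∂P =
      P (cell T n j ∩ b ⁻¹' C) := fun j => h.cell_law hW hb hbB hT n j hC
  rw [e0, e1, tsum_congr e2, ← hlaw, Measure.map_apply hb hC, ← measure_iUnion]
  · rw [← iUnion_inter, cell_union, univ_inter]
  · intro i j hij
    exact (cell_disj T n hij).mono inter_subset_left inter_subset_left
  · intro j
    exact (hAm j).inter (hb hC)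

/-- **Concatenation at a stopping time.** -/
theorem FiltBM.concat (h : FiltBM F B P) {b : Ω → Path} (hb : Measurable b)
    (hbB : ∀ᵐ ω ∂P, ∀ t, b ω t = B t ω) {T : Ω → ℝ≥0} (hTm : Measurable T)
    (hT : IsStoppingTime F (fun ω => (T ω : WithTop ℝ≥0))) :
    (P.prod W).map (fun p => conc (T p.1) (b p.1) p.2) = W := by
  have hP := h.prob
  have hWp := isProb hW
  refine law_limit (Z := fun n p => conc (up n (T p.1)) (b p.1) p.2)
    (fun n => concat_meas hb ((up_meas n).comp hTm)) (concat_meas hb hTm)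
    (fun t => ae_of_all _ fun p => ?_) (fun n => h.up_law hW hb hbB hTm hT n)
  have hc : Continuous (fun τ : ℝ≥0 => conc τ (b p.1) p.2 t) := by
    simp only [conc_apply]
    fun_prop
  have h1 := (hc.tendsto (T p.1)).comp (up_tendsto (T p.1))
  exact h1

end Q297.Dec
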