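import Pool.Agent.Q297.DecC

/-!
Concatenation of a sequence of independent pieces.
-/

open MeasureTheory ProbabilityTheory Set Filter Topology
open scoped ENNReal NNReal
open Q297.PathC Q297.Prepend Q297.TwoS

namespace Q297.Dec

/-- a piece: a length and a path -/
abbrev Piece := ℝ≥0 × Path

/-- the concatenation of the first `m` pieces, continued by `f` -/
def multi : ℕ → (ℕ → Piece) → Path → Path
  | 0, _, f => f
  | m + 1, π, f => conc (π 0).1 (π 0).2 (multi m (fun i => π (i + 1)) f)

lemma multi_meas (m : ℕ) : Measurable (fun p : (ℕ → Piece) × Path => multi m p.1 p.2) := by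
  induction m with
  | zero => exact measurable_snd
  | succ m ih =>
    have h1 : Measurable (fun p : (ℕ → Piece) × Path => (fun i => p.1 (i + 1) : ℕ → Piece)) :=
      measurable_pi_lambda _ fun i => (measurable_pi_apply (i + 1)).comp measurable_fst
    have h2 : Measurable (fun p : (ℕ → Piece) × Path => multi m (fun i => p.1 (i + 1)) p.2) :=
      ih.comp (h1.prodMk measurable_snd)
    exact conc_meas.comp (((measurable_pi_apply 0).comp measurable_fst).prodMk h2)

lemma multi_agree (m : ℕ) : ∀ (π : ℕ → Piece) (f g : Path) (t : ℝ≥0),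
    t < ∑ i ∈ Finset.range m, (π i).1 → multi m π f t = multi m π g t := by
  induction m with
  | zero => intro π f g t ht; simp at ht
  | succ m ih =>
    intro π f g t ht
    rw [Finset.sum_range_succ'] at ht
    simp only [multi, conc_apply]
    rcases le_total t (π 0).1 with h | h
    · rw [tsub_eq_zero_of_le h]; simp
    · have h1 : t - (π 0).1 < ∑ i ∈ Finset.range m, (π (i + 1)).1 := by
        rw [tsub_lt_iff_right h]
        exact ht
      rw [ih _ f g _ h1, ih _ f g 0 (lt_of_le_of_lt zero_le h1)]

lemma multi_rec {π : ℕ → Piece} {R : ℕ → Path}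
    (h : ∀ i, R i = conc (π i).1 (π i).2 (R (i + 1))) (m : ℕ) :
    ∀ j, R j = multi m (fun i => π (j + i)) (R (j + m)) := by
  induction m with
  | zero => intro j; rfl
  | succ m ih =>
    intro j
    show R j = conc (π (j + 0)).1 (π (j + 0)).2 (multi m (fun i => π (j + (i + 1))) (R (j + (m + 1))))
    have h1 := ih (j + 1)
    have e : (fun i => π (j + (i + 1))) = fun i => π (j + 1 + i) := by
      funext i; congr 1; ring
    have e2 : j + (m + 1) = j + 1 + m := by ring
    rw [add_zero, e, e2, ← h1]
    exact h j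

/-- the limit of the concatenations -/
noncomputable def Lim (π : ℕ → Piece) (t : ℝ≥0) : ℝ := limsup (fun m => multi m π 0 t) atTop

lemma Lim_meas : Measurable Lim := by
  refine measurable_pi_lambda _ fun t => ?_
  unfold Lim
  refine Measurable.limsup fun m => ?_
  have h1 : Measurable (fun π : ℕ → Piece => multi m π 0) :=
    (multi_meas m).comp (measurable_id.prodMk measurable_const)
  exact (measurable_eval t).comp h1

lemma tendsto_multi {π : ℕ → Piece} {R : ℕ → Path}
    (h : ∀ i, R i = conc (π i).1 (π i).2 (R (i + 1)))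
    (hs : Tendsto (fun m => ∑ i ∈ Finset.range m, (π i).1) atTop atTop) (f : Path) (t : ℝ≥0) :
    Tendsto (fun m => multi m π f t) atTop (𝓝 (R 0 t)) := by
  refine tendsto_const_nhds.congr' ?_
  filter_upwards [hs.eventually (eventually_gt_atTop t)] with m hm
  have h1 := multi_rec h m 0
  simp only [zero_add] at h1
  rw [h1]
  exact multi_agree m π (R m) f t hm

lemma Lim_eq {π : ℕ → Piece} {R : ℕ → Path}
    (h : ∀ i, R i = conc (π i).1 (π i).2 (R (i + 1)))
    (hs : Tendsto (fun m => ∑ i ∈ Finset.range m, (π i).1) atTop atTop) :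
    Lim π = fun t => R 0 t := by
  funext t
  exact (tendsto_multi h hs 0 t).limsup_eq

lemma comap_le_range {Ω ι E J : Type*} {mE : MeasurableSpace E} (Q : ι → Ω → E) (e : J → ι) :
    MeasurableSpace.comap (fun ω i => Q (e i) ω) MeasurableSpace.pi ≤
      ⨆ k ∈ range e, MeasurableSpace.comap (Q k) mE := by
  rw [MeasurableSpace.pi, MeasurableSpace.comap_iSup]
  refine iSup_le fun i => ?_
  rw [MeasurableSpace.comap_comp]
  refine le_trans ?_ (le_iSup₂_of_le (e i) ⟨i, rfl⟩ le_rfl)
  exact le_rfl

/-- independence of the pieces with indices in disjoint sets -/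
lemma indep_tails {Ω ι E J J' : Type*} {mΩ : MeasurableSpace Ω} {mE : MeasurableSpace E}
    {P : Measure Ω} {Q : ι → Ω → E} (hm : ∀ k, Measurable (Q k)) (hind : iIndepFun Q P)
    (e1 : J → ι) (e2 : J' → ι) (hd : ∀ i j, e1 i ≠ e2 j) :
    IndepFun (fun ω i => Q (e1 i) ω) (fun ω j => Q (e2 j) ω) P := by
  have h1 : Indep (⨆ k ∈ range e1, MeasurableSpace.comap (Q k) mE)
      (⨆ k ∈ range e2, MeasurableSpace.comap (Q k) mE) P := by
    refine indep_iSup_of_disjoint (fun k => (hm k).comap_le) hind.iIndep ?_
    rw [Set.disjoint_left]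
    rintro _ ⟨i, rfl⟩ ⟨j, hj⟩
    exact hd i j hj.symm
  rw [IndepFun_iff_Indep]
  exact indep_of_indep_of_le_left (indep_of_indep_of_le_right h1 (comap_le_range Q e2))
    (comap_le_range Q e1)

section Law

variable {Ω : Type*} {mΩ : MeasurableSpace Ω} {P : Measure Ω} {W : Measure Path}

/-- the law of a piece which, continued by an independent Brownian motion, is Brownian -/
def Good (W : Measure Path) (μ : Measure Piece) : Prop :=
  (μ.prod W).map (fun p => conc p.1.1 p.1.2 p.2) = W

lemma multi_law [IsProbabilityMeasure P] [IsProbabilityMeasure W] (m : ℕ) :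
    ∀ (Q : ℕ → Ω → Piece), (∀ i, Measurable (Q i)) → iIndepFun Q P →
      (∀ i, Good W (P.map (Q i))) →
      (P.prod W).map (fun p => multi m (fun i => Q i p.1) p.2) = W := by
  induction m with
  | zero =>
    intro Q _ _ _
    exact measurePreserving_snd.map_eq
  | succ m ih =>
    intro Q hm hind hgood
    have hm' : Measurable (fun ω => (fun i => Q (i + 1) ω : ℕ → Piece)) :=
      measurable_pi_lambda _ fun i => hm (i + 1)
    have hind' : iIndepFun (fun i => Q (i + 1)) P := hind.precomp (g := fun i : ℕ => i + 1)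
      (fun a b hab => by simpa using hab)
    have hI := ih (fun i => Q (i + 1)) (fun i => hm (i + 1)) hind' (fun i => hgood (i + 1))
    set ν : Measure (ℕ → Piece) := P.map (fun ω => (fun i => Q (i + 1) ω : ℕ → Piece)) with hν
    set μ : Measure Piece := P.map (Q 0) with hμ
    have hμp : IsProbabilityMeasure μ := Measure.isProbabilityMeasure_map (hm 0).aemeasurable
    have hνp : IsProbabilityMeasure ν := Measure.isProbabilityMeasure_map hm'.aemeasurable
    have h0 : IndepFun (Q 0) (fun ω => (fun i => Q (i + 1) ω : ℕ → Piece)) P := by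
      have h := indep_tails hm hind (fun _ : Unit => 0) (fun i : ℕ => i + 1)
        (fun _ j => by simp)
      exact h.comp (φ := fun x : Unit → Piece => x ()) (ψ := id) (measurable_pi_apply ())
        measurable_id
    have h1 : P.map (fun ω => (Q 0 ω, (fun i => Q (i + 1) ω : ℕ → Piece))) = μ.prod ν :=
      (indepFun_iff_map_prod_eq_prod_map_map (hm 0).aemeasurable hm'.aemeasurable).1 h0
    set Φ : (ℕ → Piece) × Path → Path := fun q => multi m q.1 q.2 with hΦ
    have hΦm : Measurable Φ := multi_meas m
    have h5 : (ν.prod W).map Φ = W := by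
      have h6 : ν.prod W = (P.prod W).map (Prod.map
          (fun ω => (fun i => Q (i + 1) ω : ℕ → Piece)) id) := by
        rw [← Measure.map_prod_map _ _ hm' measurable_id, Measure.map_id]
      rw [h6, Measure.map_map hΦm (hm'.prodMap measurable_id)]
      exact hI
    have h2 : (P.prod W).map (Prod.map (fun ω => (Q 0 ω, (fun i => Q (i + 1) ω : ℕ → Piece))) id) =
        (μ.prod ν).prod W := by
      rw [← Measure.map_prod_map _ _ ((hm 0).prodMk hm') measurable_id, Measure.map_id, h1]
    have h3 : ((μ.prod ν).prod W).map MeasurableEquiv.prodAssoc = μ.prod (ν.prod W) :=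
      Measure.prodAssoc_prod
    have h4 : (μ.prod (ν.prod W)).map (Prod.map id Φ) = μ.prod W := by
      rw [← Measure.map_prod_map _ _ measurable_id hΦm, Measure.map_id, h5]
    have h7 := hgood 0
    unfold Good at h7
    rw [← hμ, ← h4, ← h3, ← h2, Measure.map_map (measurable_id.prodMap hΦm)
      MeasurableEquiv.prodAssoc.measurable, Measure.map_map
      ((measurable_id.prodMap hΦm).comp MeasurableEquiv.prodAssoc.measurable)
      (((hm 0).prodMk hm').prodMap measurable_id), Measure.map_map conc_meas
      (((measurable_id.prodMap hΦm).comp MeasurableEquiv.prodAssoc.measurable).comp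
        (((hm 0).prodMk hm').prodMap measurable_id))] at h7
    exact h7

/-- the law of an infinite concatenation -/
lemma seq_law [IsProbabilityMeasure P] [IsProbabilityMeasure W] {Q : ℕ → Ω → Piece}
    (hm : ∀ i, Measurable (Q i)) (hind : iIndepFun Q P) (hgood : ∀ i, Good W (P.map (Q i)))
    (hsum : ∀ᵐ ω ∂P, Tendsto (fun m => ∑ i ∈ Finset.range m, (Q i ω).1) atTop atTop)
    {R : ℕ → Ω → Path} (hR0 : Measurable (R 0))
    (hR : ∀ᵐ ω ∂P, ∀ i, R i ω = conc (Q i ω).1 (Q i ω).2 (R (i + 1) ω)) : P.map (R 0) = W := by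
  have h1 : (P.prod W).map (fun p => R 0 p.1) = W := by
    have hm2 : Measurable (fun p : Ω × Path => ((fun i => Q i p.1 : ℕ → Piece), p.2)) :=
      (measurable_pi_lambda _ fun i => (hm i).comp measurable_fst).prodMk measurable_snd
    refine law_limit (Z := fun m p => multi m (fun i => Q i p.1) p.2)
      (fun m => (multi_meas m).comp hm2) (hR0.comp measurable_fst) (fun t => ?_)
      (fun m => multi_law m Q hm hind hgood)
    have h2 : ∀ᵐ p ∂(P.prod W), Tendsto (fun m => ∑ i ∈ Finset.range m, (Q i p.1).1) atTop atTop :=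
      measurePreserving_fst.quasiMeasurePreserving.ae hsum
    have h3 : ∀ᵐ p ∂(P.prod W), ∀ i, R i p.1 = conc (Q i p.1).1 (Q i p.1).2 (R (i + 1) p.1) :=
      measurePreserving_fst.quasiMeasurePreserving.ae hR
    filter_upwards [h2, h3] with p hp2 hp3
    exact tendsto_multi (π := fun i => Q i p.1) (R := fun i => R i p.1) hp3 hp2 p.2 t
  have h2 : (P.prod W).map (fun p => R 0 p.1) = P.map (R 0) := by
    have h3 : (P.prod W).map Prod.fst = P := measurePreserving_fst.map_eq
    have h4 : (fun p : Ω × Path => R 0 p.1) = R 0 ∘ Prod.fst := rfl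
    rw [h4, ← Measure.map_map hR0 measurable_fst, h3]
  rw [← h2, h1]

end Law

end Q297.Dec
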