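import Pool.Agent.Q297.DecD

/-!
The process built from independent pieces, seen from the end of a piece.
-/

open MeasureTheory ProbabilityTheory Set Filter Topology
open scoped ENNReal NNReal
open Q297.PathC Q297.Prepend Q297.TwoS

namespace Q297.Dec

/-- the reversed piece -/
def revp (τ : ℝ≥0) (b : Path) : Path := ⟨fun t => b (τ - t) - b τ, by fun_prop⟩

@[simp] lemma revp_apply (τ : ℝ≥0) (b : Path) (t : ℝ≥0) : revp τ b t = b (τ - t) - b τ := rfl

lemma revp_meas : Measurable (fun p : Piece => ((p.1, revp p.1 p.2) : Piece)) := by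
  refine measurable_fst.prodMk (measurable_of_eval fun t => ?_)
  have h1 : Measurable (fun p : Piece => p.2 (p.1 - t)) :=
    ev_meas1.comp ((measurable_fst.sub measurable_const).prodMk measurable_snd)
  exact h1.sub ev_meas1

lemma fwd_th (s : ℝ) (y : Path2) (t : ℝ≥0) : fwd (th s y) t = y (s + t) - y s := by simp

lemma bwd_th (s : ℝ) (y : Path2) (t : ℝ≥0) : bwd (th s y) t = y (s - t) - y s := by
  simp [sub_eq_add_neg]

lemma fwd_rec {y : Path2} {s s' : ℝ} {τ : ℝ≥0} {b : Path} (hs : s' = s + τ)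
    (h : ∀ t ≤ τ, y (s + t) - y s = b t) :
    fwd (th s y) = conc τ (stop τ b) (fwd (th s' y)) := by
  ext t
  rw [conc_apply, fwd_th, fwd_th, fwd_th, stop_apply]
  rcases le_total t τ with ht | ht
  · rw [min_eq_left ht, min_eq_left ht, tsub_eq_zero_of_le ht, h t ht]
    simp
  · rw [min_eq_right ht, min_self, ← h τ le_rfl, NNReal.coe_sub ht, hs, NNReal.coe_zero, add_zero]
    rw [show s + (τ : ℝ) + (t - τ) = s + t by ring]
    ring

lemma bwd_rec {y : Path2} {s s' : ℝ} {τ : ℝ≥0} {b : Path} (hs : s' = s + τ)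
    (h : ∀ t ≤ τ, y (s + t) - y s = b t) :
    bwd (th s' y) = conc τ (revp τ (stop τ b)) (bwd (th s y)) := by
  ext t
  rw [conc_apply, bwd_th, bwd_th, bwd_th, revp_apply, stop_apply, stop_apply, min_self]
  have h0 := h 0 zero_le
  rw [NNReal.coe_zero, add_zero, sub_self] at h0
  rcases le_total t τ with ht | ht
  · rw [min_eq_left ht, tsub_eq_zero_of_le ht, min_eq_left tsub_le_self, ← h (τ - t) tsub_le_self,
      ← h τ le_rfl, NNReal.coe_sub ht, hs, NNReal.coe_zero, sub_zero]
    rw [show s + ((τ : ℝ) - t) = s + τ - t by ring]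
    ring
  · rw [min_eq_right ht, tsub_self, min_eq_left zero_le, ← h0, ← h τ le_rfl, NNReal.coe_sub ht, hs,
      NNReal.coe_zero, sub_zero]
    rw [show s - ((t : ℝ) - τ) = s + τ - t by ring]
    ring

/-- the data of a decomposable process -/
structure Data {Ω : Type*} {mΩ : MeasurableSpace Ω} (W : Measure Path) (P : Measure Ω)
    (Y : Ω → Path2) (S : ℤ → Ω → ℝ) (T : ℤ → Ω → ℝ≥0) (b : ℤ → Ω → Path) : Prop where
  mY : Measurable Y
  mS : ∀ k, Measurable (S k)
  mT : ∀ k, Measurable (T k)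
  mb : ∀ k, Measurable (b k)
  recS : ∀ᵐ ω ∂P, ∀ k, S (k + 1) ω = S k ω + T k ω
  inc : ∀ᵐ ω ∂P, ∀ k, ∀ t ≤ T k ω, Y ω (S k ω + t) - Y ω (S k ω) = b k ω t
  top : ∀ᵐ ω ∂P, Tendsto (fun k => S k ω) atTop atTop
  bot : ∀ᵐ ω ∂P, Tendsto (fun k => S k ω) atBot atBot
  ind : iIndepFun (fun k ω => ((T k ω, stop (T k ω) (b k ω)) : Piece)) P
  good : ∀ k, Good W (P.map (fun ω => ((T k ω, stop (T k ω) (b k ω)) : Piece)))

lemma th_meas2 : Measurable (fun p : ℝ × Path2 => th p.1 p.2) := by
  refine measurable_of_eval fun u => ?_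
  have h := measurable_uncurry_of_continuous_of_measurable (ι := ℝ) (α := Path2) (β := ℝ)
    (u := fun t y => y (t + u)) (fun y => by fun_prop) (fun t => measurable_eval _)
  have h0 := measurable_uncurry_of_continuous_of_measurable (ι := ℝ) (α := Path2) (β := ℝ)
    (u := fun t y => y t) (fun y => y.continuous) (fun t => measurable_eval _)
  exact h.sub h0

section

variable {Ω : Type*} {mΩ : MeasurableSpace Ω} {W : Measure Path} {P : Measure Ω}
    {Y : Ω → Path2} {S : ℤ → Ω → ℝ} {T : ℤ → Ω → ℝ≥0} {b : ℤ → Ω → Path}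

lemma Data.mQ (h : Data W P Y S T b) (k : ℤ) :
    Measurable (fun ω => ((T k ω, stop (T k ω) (b k ω)) : Piece)) :=
  (h.mT k).prodMk (stop_meas.comp ((h.mT k).prodMk (h.mb k)))

lemma Data.mth (h : Data W P Y S T b) (k : ℤ) : Measurable (fun ω => th (S k ω) (Y ω)) :=
  th_meas2.comp ((h.mS k).prodMk h.mY)

lemma Data.mfwd (h : Data W P Y S T b) (k : ℤ) : Measurable (fun ω => fwd (th (S k ω) (Y ω))) :=
  fwd_meas.comp (h.mth k)

lemma Data.mbwd (h : Data W P Y S T b) (k : ℤ) : Measurable (fun ω => bwd (th (S k ω) (Y ω))) :=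
  bwd_meas.comp (h.mth k)

lemma Data.sum_top (h : Data W P Y S T b) (K : ℤ) :
    ∀ᵐ ω ∂P, Tendsto (fun m => ∑ i ∈ Finset.range m, T (K + i) ω) atTop atTop := by
  filter_upwards [h.recS, h.top] with ω h1 h2
  rw [← NNReal.tendsto_coe_atTop]
  have h3 : ∀ m : ℕ, ((∑ i ∈ Finset.range m, T (K + i) ω : ℝ≥0) : ℝ) = S (K + m) ω - S K ω := by
    intro m
    induction m with
    | zero => simp
    | succ m ih =>
      rw [Finset.sum_range_succ, NNReal.coe_add, ih, show K + ((m + 1 : ℕ) : ℤ) = K + m + 1 by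
        push_cast; ring, h1]
      ring
  simp only [h3]
  refine tendsto_atTop_add_const_right _ _ ?_
  exact h2.comp (tendsto_atTop_add_const_left _ _ tendsto_natCast_atTop_atTop)

lemma Data.sum_bot (h : Data W P Y S T b) (K : ℤ) :
    ∀ᵐ ω ∂P, Tendsto (fun m => ∑ i ∈ Finset.range m, T (K - 1 - i) ω) atTop atTop := by
  filter_upwards [h.recS, h.bot] with ω h1 h2
  rw [← NNReal.tendsto_coe_atTop]
  have h3 : ∀ m : ℕ, ((∑ i ∈ Finset.range m, T (K - 1 - i) ω : ℝ≥0) : ℝ) =
      S K ω + -S (K - m) ω := by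
    intro m
    induction m with
    | zero => simp
    | succ m ih =>
      rw [Finset.sum_range_succ, NNReal.coe_add, ih]
      have h4 := h1 (K - 1 - m)
      rw [show K - 1 - (m : ℤ) + 1 = K - m by ring] at h4
      rw [show K - ((m + 1 : ℕ) : ℤ) = K - 1 - m by push_cast; ring, h4]
      ring
  simp only [h3]
  refine tendsto_atTop_add_const_left _ _ ?_
  refine tendsto_neg_atBot_atTop.comp (h2.comp ?_)
  have h5 : Tendsto (fun m : ℕ => -(m : ℤ)) atTop atBot :=
    tendsto_neg_atTop_atBot.comp tendsto_natCast_atTop_atTop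
  simpa [sub_eq_add_neg] using tendsto_atBot_add_const_left _ K h5

lemma Data.recF (h : Data W P Y S T b) : ∀ᵐ ω ∂P, ∀ k, fwd (th (S k ω) (Y ω)) =
    conc (T k ω) (stop (T k ω) (b k ω)) (fwd (th (S (k + 1) ω) (Y ω))) := by
  filter_upwards [h.recS, h.inc] with ω h1 h2 k
  exact fwd_rec (h1 k) (h2 k)

lemma Data.recB (h : Data W P Y S T b) : ∀ᵐ ω ∂P, ∀ k, bwd (th (S (k + 1) ω) (Y ω)) =
    conc (T k ω) (revp (T k ω) (stop (T k ω) (b k ω))) (bwd (th (S k ω) (Y ω))) := by
  filter_upwards [h.recS, h.inc] with ω h1 h2 k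
  exact bwd_rec (h1 k) (h2 k)

lemma Data.law_fwd [IsProbabilityMeasure P] [IsProbabilityMeasure W] (h : Data W P Y S T b)
    (K : ℤ) : P.map (fun ω => fwd (th (S K ω) (Y ω))) = W := by
  have h1 := seq_law (P := P) (W := W)
    (Q := fun (i : ℕ) ω => ((T (K + i) ω, stop (T (K + i) ω) (b (K + i) ω)) : Piece))
    (fun i => h.mQ _) (h.ind.precomp (g := fun i : ℕ => K + (i : ℤ)) (fun a b hab => by simpa using hab))
    (fun i => h.good _) (h.sum_top K)
    (R := fun (i : ℕ) ω => fwd (th (S (K + i) ω) (Y ω))) (h.mfwd _) (by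
      filter_upwards [h.recF] with ω hω i
      have := hω (K + i)
      rw [show K + ((i + 1 : ℕ) : ℤ) = K + i + 1 by push_cast; ring]
      exact this)
  simpa using h1

lemma indep_path' {F1 F2 : Ω → Path} :
    IndepFun (fun ω (t : ℝ≥0) => F1 ω t) (fun ω (t : ℝ≥0) => F2 ω t) P ↔ IndepFun F1 F2 P := by
  rw [IndepFun_iff_Indep, IndepFun_iff_Indep]
  have e : ∀ F : Ω → Path, MeasurableSpace.comap F (instMS : MeasurableSpace Path) =
      MeasurableSpace.comap (fun ω (t : ℝ≥0) => F ω t) MeasurableSpace.pi := by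
    intro F
    rw [instMS_eq, MeasurableSpace.comap_comp]; rfl
  rw [e F1, e F2]

lemma Data.indep (h : Data W P Y S T b) (K : ℤ) :
    IndepFun (fun ω => bwd (th (S K ω) (Y ω))) (fun ω => fwd (th (S K ω) (Y ω))) P := by
  rw [← indep_path']
  set Q : ℤ → Ω → Piece := fun k ω => (T k ω, stop (T k ω) (b k ω)) with hQ
  have h1 := indep_tails (P := P) (Q := Q) h.mQ h.ind (fun i : ℕ => K - 1 - (i : ℤ))
    (fun i : ℕ => K + (i : ℤ)) (fun i j => by omega)
  have mρ : Measurable (fun π : ℕ → Piece => (fun i => ((π i).1, revp (π i).1 (π i).2) : ℕ → Piece)) :=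
    measurable_pi_lambda _ fun i => revp_meas.comp (measurable_pi_apply i)
  have h2 := h1.comp (Lim_meas.comp mρ) Lim_meas
  refine h2.congr ?_ ?_
  · filter_upwards [h.recB, h.sum_bot K] with ω h3 h4
    have h5 := Lim_eq (π := fun i : ℕ => (((Q (K - 1 - i) ω).1,
        revp (Q (K - 1 - i) ω).1 (Q (K - 1 - i) ω).2) : Piece))
      (R := fun i : ℕ => bwd (th (S (K - i) ω) (Y ω))) (fun i => by
        have h6 := h3 (K - 1 - i)
        rw [show K - 1 - (i : ℤ) + 1 = K - i by ring] at h6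
        rw [show K - ((i + 1 : ℕ) : ℤ) = K - 1 - i by push_cast; ring]
        exact h6) h4
    simp only [Nat.cast_zero, sub_zero] at h5
    exact h5
  · filter_upwards [h.recF, h.sum_top K] with ω h3 h4
    have h5 := Lim_eq (π := fun i : ℕ => Q (K + i) ω)
      (R := fun i : ℕ => fwd (th (S (K + i) ω) (Y ω))) (fun i => by
        have h6 := h3 (K + i)
        rw [show K + ((i + 1 : ℕ) : ℤ) = K + i + 1 by push_cast; ring]
        exact h6) h4
    simp only [Nat.cast_zero, add_zero] at h5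
    exact h5

/-- seen from the end of a piece, the future is a Brownian motion independent of the past -/
lemma Data.pair [IsProbabilityMeasure P] [IsProbabilityMeasure W] (h : Data W P Y S T b) (K : ℤ) :
    P.map (fun ω => (bwd (th (S K ω) (Y ω)), fwd (th (S K ω) (Y ω)))) =
      (P.map (fun ω => bwd (th (S K ω) (Y ω)))).prod W := by
  rw [(indepFun_iff_map_prod_eq_prod_map_map (h.mbwd K).aemeasurable
    (h.mfwd K).aemeasurable).1 (h.indep K), h.law_fwd]

end

end Q297.Dec
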