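import Pool.Agent.Q297.DecE

/-!
Invariant null sets of two-sided Wiener measure are not charged by a decomposable process which has
one backward Brownian time.
-/

open MeasureTheory ProbabilityTheory Set Filter Topology
open scoped ENNReal NNReal
open Q297.PathC Q297.Prepend Q297.TwoS

namespace Q297.Dec

section Split

variable {Ω : Type*} {mΩ : MeasurableSpace Ω} {W : Measure Path} {P : Measure Ω}
    {Y : Ω → Path2} {S : ℤ → Ω → ℝ} {T : ℤ → Ω → ℝ≥0} {b : ℤ → Ω → Path}

lemma stop_meas1 (t : ℝ≥0) : Measurable (stop t) :=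
  stop_meas.comp (measurable_const.prodMk measurable_id)

/-- the weak Markov property of Wiener measure, at the level of paths -/
lemma stop_shift (hW : IsBrownianReal (fun (t : ℝ≥0) (x : Path) => x t) W) (t : ℝ≥0) :
    W.map (fun f => (stop t f, shift t f)) = (W.map (stop t)).prod W := by
  have hWp := isProb hW
  have h1 := hW.indepFun_shift t
  have h2 : IndepFun (fun f : Path => shift t f) (fun f : Path => stop t f) W := by
    rw [← indep_path']
    have m : Measurable (fun (x : Set.Iic t → ℝ) (u : ℝ≥0) => x ⟨min u t, min_le_right u t⟩) :=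
      measurable_pi_lambda _ fun u => measurable_pi_apply _
    exact h1.comp measurable_id m
  have h3 := (indepFun_iff_map_prod_eq_prod_map_map (stop_meas1 t).aemeasurable
    (measurable_shift t).aemeasurable).1 h2.symm
  rw [h3, map_shift hW]

lemma Data.split [IsProbabilityMeasure P] (hW : IsBrownianReal (fun (t : ℝ≥0) (x : Path) => x t) W)
    (h : Data W P Y S T b) (K : ℤ) (t : ℝ≥0) :
    P.map (fun ω => (bwd (th (S K ω + t) (Y ω)), fwd (th (S K ω + t) (Y ω)))) =
      (P.map (fun ω => bwd (th (S K ω + t) (Y ω)))).prod W := by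
  have hWp := isProb hW
  have hp := h.pair K
  set η := P.map (fun ω => bwd (th (S K ω) (Y ω))) with hη
  have hηp : IsProbabilityMeasure η := Measure.isProbabilityMeasure_map (h.mbwd K).aemeasurable
  have mth' : Measurable (fun ω => th (S K ω + t) (Y ω)) :=
    th_meas2.comp (((h.mS K).add_const _).prodMk h.mY)
  set Φ : Path × Path → Path := fun x => conc t (revp t x.2) x.1 with hΦ
  have hΦm : Measurable Φ := by
    have h1 : Measurable (fun x : Path × Path => ((t, revp t x.2) : Piece)) :=
      revp_meas.comp (measurable_const.prodMk measurable_snd)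
    exact conc_meas.comp (h1.prodMk measurable_fst)
  have eb : ∀ ω, bwd (th (S K ω + t) (Y ω)) =
      Φ (bwd (th (S K ω) (Y ω)), stop t (fwd (th (S K ω) (Y ω)))) := by
    intro ω
    refine bwd_rec (b := fwd (th (S K ω) (Y ω))) rfl fun u _ => ?_
    rw [fwd_th]
  have ef : ∀ ω, fwd (th (S K ω + t) (Y ω)) = shift t (fwd (th (S K ω) (Y ω))) := by
    intro ω
    ext u
    rw [shift_apply, fwd_th, fwd_th, fwd_th, NNReal.coe_add]
    rw [add_assoc]
    ring
  have mp : Measurable (fun ω => (bwd (th (S K ω) (Y ω)), fwd (th (S K ω) (Y ω)))) :=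
    (h.mbwd K).prodMk (h.mfwd K)
  have ms : Measurable (fun f : Path => (stop t f, shift t f)) :=
    (stop_meas1 t).prodMk (measurable_shift t)
  have hsp : IsProbabilityMeasure (W.map (stop t)) :=
    Measure.isProbabilityMeasure_map (stop_meas1 t).aemeasurable
  have h1 : (η.prod W).map (Prod.map id (fun f : Path => (stop t f, shift t f))) =
      η.prod ((W.map (stop t)).prod W) := by
    rw [← Measure.map_prod_map _ _ measurable_id ms, Measure.map_id, stop_shift hW]
  have h2 : (η.prod ((W.map (stop t)).prod W)).map MeasurableEquiv.prodAssoc.symm =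
      (η.prod (W.map (stop t))).prod W := by
    rw [← Measure.prodAssoc_prod, Measure.map_map MeasurableEquiv.prodAssoc.symm.measurable
      MeasurableEquiv.prodAssoc.measurable, MeasurableEquiv.symm_comp_self, Measure.map_id]
  have h3 : ((η.prod (W.map (stop t))).prod W).map (Prod.map Φ id) =
      ((η.prod (W.map (stop t))).map Φ).prod W := by
    rw [← Measure.map_prod_map _ _ hΦm measurable_id, Measure.map_id]
  have m1 : Measurable (Prod.map (id : Path → Path) (fun f : Path => (stop t f, shift t f))) :=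
    measurable_id.prodMap ms
  have m2 : Measurable (MeasurableEquiv.prodAssoc (α := Path) (β := Path) (γ := Path)).symm :=
    MeasurableEquiv.prodAssoc.symm.measurable
  have m3 : Measurable (Prod.map Φ (id : Path → Path)) := hΦm.prodMap measurable_id
  have h4 : P.map (fun ω => (bwd (th (S K ω + t) (Y ω)), fwd (th (S K ω + t) (Y ω)))) =
      ((η.prod (W.map (stop t))).map Φ).prod W := by
    rw [← h3, ← h2, ← h1, ← hp, Measure.map_map m1 mp, Measure.map_map m2 (m1.comp mp),
      Measure.map_map m3 (m2.comp (m1.comp mp))]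
    congr 1
    funext ω
    rw [eb, ef]
    rfl
  have hξ : IsProbabilityMeasure ((η.prod (W.map (stop t))).map Φ) :=
    Measure.isProbabilityMeasure_map hΦm.aemeasurable
  have h5 : P.map (fun ω => bwd (th (S K ω + t) (Y ω))) = (η.prod (W.map (stop t))).map Φ := by
    have h6 := congrArg (Measure.map Prod.fst) h4
    have mbf : Measurable (fun ω => (bwd (th (S K ω + t) (Y ω)), fwd (th (S K ω + t) (Y ω)))) :=
      (bwd_meas.comp mth').prodMk (fwd_meas.comp mth')
    rw [Measure.map_map measurable_fst mbf, measurePreserving_fst.map_eq] at h6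
    exact h6
  rw [h4, h5]

end Split

section Key

variable {Ω : Type*} {mΩ : MeasurableSpace Ω} {W : Measure Path} {P : Measure Ω}
    {Y : Ω → Path2} {S : ℤ → Ω → ℝ} {T : ℤ → Ω → ℝ≥0} {b : ℤ → Ω → Path}

/-- the conditional probability of `A` given the backward path -/
noncomputable def gA (W : Measure Path) (A : Set Path2) (r : Path) : ℝ≥0∞ :=
  W {f | glue (r, f) ∈ A}

lemma gA_meas [IsProbabilityMeasure W] {A : Set Path2} (hA : MeasurableSet A) :
    Measurable (gA W A) := measurable_measure_prodMk_left (glue_meas hA)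

lemma gA_le [IsProbabilityMeasure W] (A : Set Path2) (r : Path) : gA W A r ≤ 1 := prob_le_one

lemma Data.prob_A [IsProbabilityMeasure P]
    (hW : IsBrownianReal (fun (t : ℝ≥0) (x : Path) => x t) W) (h : Data W P Y S T b)
    {A : Set Path2} (hA : MeasurableSet A) (hinv : ∀ s y, th s y ∈ A ↔ y ∈ A) (K : ℤ) {t : ℝ}
    (ht : 0 ≤ t) : P {ω | Y ω ∈ A} = ∫⁻ ω, gA W A (bwd (th (S K ω + t) (Y ω))) ∂P := by
  have hWp := isProb hW
  have h1 := h.split hW K t.toNNReal
  simp only [Real.coe_toNNReal t ht] at h1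
  have mth' : Measurable (fun ω => th (S K ω + t) (Y ω)) :=
    th_meas2.comp (((h.mS K).add_const _).prodMk h.mY)
  have mb : Measurable (fun ω => bwd (th (S K ω + t) (Y ω))) := bwd_meas.comp mth'
  have mf : Measurable (fun ω => fwd (th (S K ω + t) (Y ω))) := fwd_meas.comp mth'
  have e1 : {ω | Y ω ∈ A} = (fun ω => (bwd (th (S K ω + t) (Y ω)), fwd (th (S K ω + t) (Y ω)))) ⁻¹'
      (glue ⁻¹' A) := by
    ext ω
    simp only [mem_ofPred_eq, mem_preimage, glue_bwd_fwd, hinv]
  rw [e1, ← Measure.map_apply (mb.prodMk mf) (glue_meas hA), h1, Measure.prod_apply (glue_meas hA),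
    lintegral_map (measurable_measure_prodMk_left (glue_meas hA)) mb]
  rfl

/-- the exceptional set of backward paths -/
def Zs (W : Measure Path) (A : Set Path2) : Set Path := {r | gA W A r ≠ 0}

lemma Zs_meas [IsProbabilityMeasure W] {A : Set Path2} (hA : MeasurableSet A) :
    MeasurableSet (Zs W A) := (gA_meas hA) (measurableSet_singleton 0).compl

lemma W_Zs [IsProbabilityMeasure W] {A : Set Path2} (hA : MeasurableSet A) (h0 : W2 W A = 0) :
    W (Zs W A) = 0 := by
  unfold W2 at h0
  rw [Measure.map_apply glue_meas hA, Measure.prod_apply (glue_meas hA),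
    lintegral_eq_zero_iff (measurable_measure_prodMk_left (glue_meas hA))] at h0
  exact h0

/-- the uniform distribution on the unit interval -/
noncomputable def unif : Measure ℝ := volume.restrict (Icc 0 1)

instance unif_prob : IsProbabilityMeasure unif := ⟨by unfold unif; simp⟩

lemma Data.null [IsProbabilityMeasure P]
    (hW : IsBrownianReal (fun (t : ℝ≥0) (x : Path) => x t) W) (h : Data W P Y S T b)
    {A : Set Path2} (hA : MeasurableSet A) (hinv : ∀ s y, th s y ∈ A ↔ y ∈ A)
    (hN : ∀ᵐ ω ∂P, ∃ n : ℕ, ∀ᵐ u : ℝ, u ≤ -n → bwd (th u (Y ω)) ∉ Zs W A) :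
    P {ω | Y ω ∈ A} = 0 := by
  classical
  have hWp := isProb hW
  have hZm : MeasurableSet (Zs W A) := Zs_meas hA
  -- the averaged bound
  set k : ℤ → Ω → ℝ≥0∞ := fun K ω =>
    ∫⁻ t, (Zs W A).indicator (fun _ => 1) (bwd (th (S K ω + t) (Y ω))) ∂unif with hk
  have mI : Measurable ((Zs W A).indicator (fun _ => (1 : ℝ≥0∞))) :=
    measurable_const.indicator hZm
  have mJ : ∀ K, Measurable (fun p : Ω × ℝ => (Zs W A).indicator (fun _ => (1 : ℝ≥0∞))
      (bwd (th (S K p.1 + p.2) (Y p.1)))) := by
    intro K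
    have m1 : Measurable (fun p : Ω × ℝ => (S K p.1 + p.2, Y p.1)) :=
      (((h.mS K).comp measurable_fst).add measurable_snd).prodMk (h.mY.comp measurable_fst)
    have m2 : Measurable (fun p : Ω × ℝ => bwd (th (S K p.1 + p.2) (Y p.1))) :=
      bwd_meas.comp (th_meas2.comp m1)
    exact mI.comp m2
  have mk : ∀ K, Measurable (k K) := fun K => (mJ K).lintegral_prod_right'
  have hbound : ∀ K, P {ω | Y ω ∈ A} ≤ ∫⁻ ω, k K ω ∂P := by
    intro K
    have h1 : P {ω | Y ω ∈ A} = ∫⁻ _t, P {ω | Y ω ∈ A} ∂unif := by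
      rw [lintegral_const, measure_univ, mul_one]
    have h2 : ∫⁻ _t, P {ω | Y ω ∈ A} ∂unif ≤ ∫⁻ t, ∫⁻ ω,
        (Zs W A).indicator (fun _ => 1) (bwd (th (S K ω + t) (Y ω))) ∂P ∂unif := by
      refine lintegral_mono_ae ?_
      unfold unif
      filter_upwards [ae_restrict_mem measurableSet_Icc] with t ht
      rw [h.prob_A hW hA hinv K ht.1]
      refine lintegral_mono fun ω => ?_
      by_cases hz : bwd (th (S K ω + t) (Y ω)) ∈ Zs W A
      · rw [indicator_of_mem hz]; exact gA_le A _
      · rw [indicator_of_notMem hz]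
        have h3 : gA W A (bwd (th (S K ω + t) (Y ω))) = 0 := by
          by_contra h4
          exact hz h4
        rw [h3]
    rw [h1]
    refine h2.trans (le_of_eq ?_)
    exact lintegral_lintegral_swap (μ := unif) (ν := P)
      (f := fun t ω => (Zs W A).indicator (fun _ => 1) (bwd (th (S K ω + t) (Y ω))))
      ((mJ K).comp measurable_swap).aemeasurable
  have hlim : Tendsto (fun m : ℕ => ∫⁻ ω, k (-(m : ℤ)) ω ∂P) atTop (𝓝 (∫⁻ _ω, 0 ∂P)) := by
    refine tendsto_lintegral_of_dominated_convergence (fun _ => 1) (fun m => mk _)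
      (fun m => ae_of_all _ fun ω => ?_) (by rw [lintegral_one, measure_univ]; exact ENNReal.one_ne_top) ?_
    · simp only [hk]
      calc ∫⁻ t, (Zs W A).indicator (fun _ => 1) (bwd (th (S (-(m : ℤ)) ω + t) (Y ω))) ∂unif
          ≤ ∫⁻ _t, 1 ∂unif := lintegral_mono fun t => by
            by_cases hz : bwd (th (S (-(m : ℤ)) ω + t) (Y ω)) ∈ Zs W A
            · rw [indicator_of_mem hz]
            · rw [indicator_of_notMem hz]; exact zero_le
        _ = 1 := by rw [lintegral_one, measure_univ]
    · filter_upwards [hN, h.bot] with ω h1 h2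
      obtain ⟨n, hn⟩ := h1
      refine tendsto_const_nhds.congr' ?_
      have h3 : Tendsto (fun m : ℕ => S (-(m : ℤ)) ω) atTop atBot :=
        h2.comp (tendsto_neg_atTop_atBot.comp tendsto_natCast_atTop_atTop)
      filter_upwards [h3.eventually (eventually_le_atBot (-(n : ℝ) - 1))] with m hm
      symm
      simp only [hk]
      rw [lintegral_eq_zero_iff']
      · have h4 : ∀ᵐ t : ℝ, S (-(m : ℤ)) ω + t ≤ -n →
            bwd (th (S (-(m : ℤ)) ω + t) (Y ω)) ∉ Zs W A :=
          (measurePreserving_add_left volume (S (-(m : ℤ)) ω)).quasiMeasurePreserving.ae hn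
        have h5 : ∀ᵐ t ∂unif, S (-(m : ℤ)) ω + t ≤ -n →
            bwd (th (S (-(m : ℤ)) ω + t) (Y ω)) ∉ Zs W A := ae_restrict_of_ae h4
        have h6 : ∀ᵐ t ∂unif, t ∈ Icc (0 : ℝ) 1 := ae_restrict_mem measurableSet_Icc
        filter_upwards [h5, h6] with t ht1 ht2
        rw [indicator_of_notMem (ht1 (by linarith [ht2.2]))]
        rfl
      · exact ((mJ _).comp measurable_prodMk_left).aemeasurable
  rw [lintegral_zero] at hlim
  exact le_antisymm (ge_of_tendsto' hlim fun m => hbound _) zero_le

/-- one backward Brownian time gives information at almost all earlier times -/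
lemma back_ae (hW : IsBrownianReal (fun (t : ℝ≥0) (x : Path) => x t) W) {P : Measure Ω}
    [IsProbabilityMeasure P] {X : Ω → Path2} (hX : Measurable X) {R : Ω → ℝ} (hR : Measurable R)
    (hlaw : P.map (fun ω => bwd (th (R ω) (X ω))) = W) {Z : Set Path} (hZ : MeasurableSet Z)
    (hZ0 : W Z = 0) : ∀ᵐ ω ∂P, ∀ᵐ u : ℝ, u ≤ R ω → bwd (th u (X ω)) ∉ Z := by
  have hWp := isProb hW
  have mb : Measurable (fun ω => bwd (th (R ω) (X ω))) :=
    bwd_meas.comp (th_meas2.comp (hR.prodMk hX))
  have h1 : ∀ s : ℝ, ∀ᵐ ω ∂P, 0 ≤ s → bwd (th (R ω - s) (X ω)) ∉ Z := by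
    intro s
    by_cases hs : 0 ≤ s
    · have e : ∀ ω, bwd (th (R ω - s) (X ω)) = shift s.toNNReal (bwd (th (R ω) (X ω))) := by
        intro ω
        ext u
        rw [shift_apply, bwd_th, bwd_th, bwd_th, NNReal.coe_add, Real.coe_toNNReal s hs]
        rw [show R ω - (s + u) = R ω - s - u by ring]
        ring
      have h2 : P {ω | bwd (th (R ω - s) (X ω)) ∈ Z} = 0 := by
        have h3 : W (shift s.toNNReal ⁻¹' Z) = 0 := by
          rw [← Measure.map_apply (measurable_shift _) hZ, map_shift hW, hZ0]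
        rw [← hlaw, Measure.map_apply mb (measurable_shift _ hZ)] at h3
        rw [← h3]
        congr 1
        ext ω
        simp only [mem_ofPred_eq, mem_preimage, e]
      have h4 : ∀ᵐ ω ∂P, ω ∉ {ω | bwd (th (R ω - s) (X ω)) ∈ Z} :=
        measure_eq_zero_iff_ae_notMem.1 h2
      filter_upwards [h4] with ω hω _
      exact hω
    · exact ae_of_all _ fun ω h => absurd h hs
  have hset : MeasurableSet {p : ℝ × Ω | 0 ≤ p.1 → bwd (th (R p.2 - p.1) (X p.2)) ∉ Z} := by
    have m1 : Measurable (fun p : ℝ × Ω => bwd (th (R p.2 - p.1) (X p.2))) :=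
      bwd_meas.comp (th_meas2.comp (((hR.comp measurable_snd).sub measurable_fst).prodMk
        (hX.comp measurable_snd)))
    have e : {p : ℝ × Ω | 0 ≤ p.1 → bwd (th (R p.2 - p.1) (X p.2)) ∉ Z} =
        {p : ℝ × Ω | 0 ≤ p.1}ᶜ ∪ (fun p : ℝ × Ω => bwd (th (R p.2 - p.1) (X p.2))) ⁻¹' Zᶜ := by
      ext p
      simp only [mem_ofPred_eq, mem_union, mem_compl_iff, mem_preimage]
      tauto
    rw [e]
    exact (measurableSet_le measurable_const measurable_fst).compl.union (m1 hZ.compl)
  have h2 : ∀ᵐ ω ∂P, ∀ᵐ s : ℝ, 0 ≤ s → bwd (th (R ω - s) (X ω)) ∉ Z :=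
    (Measure.ae_ae_comm (μ := (volume : Measure ℝ)) (ν := P) hset).1 (ae_of_all _ h1)
  filter_upwards [h2] with ω hω
  have h3 := (Measure.measurePreserving_sub_left volume (R ω)).quasiMeasurePreserving.ae hω
  filter_upwards [h3] with u hu hle
  have h4 := hu (by linarith)
  rwa [sub_sub_cancel] at h4

end Key

end Q297.Dec
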