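import Pool.Agent.Q297.TwoS

/-!
Ergodicity of two-sided Wiener measure under the integer shifts.
-/

open MeasureTheory ProbabilityTheory Set Filter Topology
open scoped ENNReal NNReal symmDiff
open Q297.PathC Q297.Prepend Q297.TwoS

namespace Q297.Dec

/-- the information in the window `[-m, m]` -/
@[instance_reducible] def Fil2 (m : ℕ) : MeasurableSpace Path2 :=
  MeasurableSpace.comap (fun (y : Path2) (t : Set.Icc (-(m : ℝ)) m) => y t) MeasurableSpace.pi

lemma Fil2_mono : Monotone Fil2 := by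
  intro a b hab
  have hab' : (a : ℝ) ≤ b := by exact_mod_cast hab
  unfold Fil2
  let g : (Set.Icc (-(b : ℝ)) b → ℝ) → (Set.Icc (-(a : ℝ)) a → ℝ) :=
    fun f t => f ⟨t.1, by linarith [t.2.1], t.2.2.trans hab'⟩
  have hg : Measurable g := measurable_pi_lambda _ fun t => measurable_pi_apply _
  have e : (fun (y : Path2) (t : Set.Icc (-(a : ℝ)) a) => y t) =
      g ∘ (fun (y : Path2) (t : Set.Icc (-(b : ℝ)) b) => y t) := rfl
  rw [e, ← MeasurableSpace.comap_comp]
  exact MeasurableSpace.comap_mono hg.comap_le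

lemma iSup_Fil2 : (⨆ m, Fil2 m) = (instMS : MeasurableSpace Path2) := by
  apply le_antisymm
  · refine iSup_le fun m => ?_
    have : Measurable (fun (y : Path2) (t : Set.Icc (-(m : ℝ)) m) => y t) :=
      measurable_pi_lambda _ fun t => measurable_eval _
    exact this.comap_le
  · rw [instMS_eq, MeasurableSpace.pi, MeasurableSpace.comap_iSup]
    refine iSup_le fun t => ?_
    obtain ⟨m, hm⟩ := exists_nat_ge |t|
    have hmt := abs_le.1 hm
    refine le_trans ?_ (le_iSup Fil2 m)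
    rw [MeasurableSpace.comap_comp]
    have e : ((fun f : ℝ → ℝ => f t) ∘ fun (f : Path2) (t : ℝ) => f t) =
      (fun g : Set.Icc (-(m : ℝ)) m → ℝ => g ⟨t, hmt⟩) ∘
        (fun (y : Path2) (t : Set.Icc (-(m : ℝ)) m) => y t) := rfl
    rw [e, ← MeasurableSpace.comap_comp]
    exact MeasurableSpace.comap_mono (measurable_pi_apply _).comap_le

/-- the events depending on a bounded window -/
def Alg : Set (Set Path2) := ⋃ m, {s | MeasurableSet[Fil2 m] s}

lemma Alg_isSetAlgebra : IsSetAlgebra Alg := by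
  refine ⟨mem_iUnion.2 ⟨0, @MeasurableSet.empty _ (Fil2 0)⟩, fun s hs => ?_, fun s t hs ht => ?_⟩
  · obtain ⟨m, hm⟩ := mem_iUnion.1 hs
    exact mem_iUnion.2 ⟨m, @MeasurableSet.compl _ _ (Fil2 m) hm⟩
  · obtain ⟨m, hm⟩ := mem_iUnion.1 hs
    obtain ⟨n, hn⟩ := mem_iUnion.1 ht
    refine mem_iUnion.2 ⟨max m n, ?_⟩
    exact @MeasurableSet.union _ (Fil2 (max m n)) _ _ (Fil2_mono (le_max_left m n) _ hm)
      (Fil2_mono (le_max_right m n) _ hn)

lemma Alg_gen : (instMS : MeasurableSpace Path2) = MeasurableSpace.generateFrom Alg :=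
  ((MeasurableSpace.generateFrom_iUnion_measurableSet Fil2).trans iSup_Fil2).symm

variable {W : Measure Path} (hW : IsBrownianReal (fun (t : ℝ≥0) (x : Path) => x t) W)

include hW

lemma indep_windows (m : ℕ) :
    IndepFun (fun (y : Path2) (t : Set.Icc (-(m : ℝ)) m) => y t)
      (fun (y : Path2) (t : Set.Icc (-(m : ℝ)) m) => y (2 * m + t) - y (2 * m)) (W2 W) := by
  have hY := W2_bm2 hW
  apply IsGaussianProcess.indepFun_of_covariance_eq_zero
  · have h := gp_lin hY.gauss (T := Set.Icc (-(m : ℝ)) m ⊕ Set.Icc (-(m : ℝ)) m) (ι := Fin 2)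
      (fun t => Sum.elim (fun _ => ![1, 0]) (fun _ => ![1, -1]) t)
      (fun t => Sum.elim (fun t : Set.Icc (-(m : ℝ)) m => ![(t : ℝ), 0])
        (fun t : Set.Icc (-(m : ℝ)) m => ![2 * m + (t : ℝ), 2 * m]) t)
    refine h.congr fun t => ae_of_all _ fun ω => ?_
    rcases t with t | t <;> simp [Fin.sum_univ_two, sub_eq_add_neg]
  · intro t; exact hY.gauss.aemeasurable _
  · intro t; exact (hY.gauss.aemeasurable _).sub (hY.gauss.aemeasurable _)
  · intro s t
    have hp := hY.prob
    have hs := s.2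
    have ht := t.2
    have h1 : cov[fun y : Path2 => y s, fun y : Path2 => y (2 * m + t) - y (2 * m); W2 W] =
        cov[fun y : Path2 => y s, fun y : Path2 => y (2 * m + t); W2 W] -
          cov[fun y : Path2 => y s, fun y : Path2 => y (2 * m); W2 W] :=
      covariance_fun_sub_right (hY.memLp _) (hY.memLp _) (hY.memLp _)
    rw [h1]
    have h2 := hY.cov s (2 * m + t)
    have h3 := hY.cov s (2 * m)
    have h4 : (0 : ℝ) ≤ m := Nat.cast_nonneg m
    have e2 : cov[fun y : Path2 => y s, fun y : Path2 => y (2 * m + t); W2 W] = (|(s : ℝ)| + s) / 2 := by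
      refine Eq.trans h2 ?_
      rw [abs_of_nonneg (by linarith [ht.1] : 0 ≤ 2 * (m : ℝ) + t),
        abs_of_nonpos (by linarith [ht.1, hs.2] : (s : ℝ) - (2 * m + t) ≤ 0)]
      ring
    have e3 : cov[fun y : Path2 => y s, fun y : Path2 => y (2 * m); W2 W] = (|(s : ℝ)| + s) / 2 := by
      refine Eq.trans h3 ?_
      rw [abs_of_nonneg (by linarith : 0 ≤ 2 * (m : ℝ)),
        abs_of_nonpos (by linarith [hs.2] : (s : ℝ) - 2 * m ≤ 0)]
      ring
    rw [e2, e3, sub_self]

lemma block_mul (m : ℕ) {G : Set Path2} (hG : MeasurableSet[Fil2 m] G) :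
    (W2 W) (G ∩ th (2 * m) ⁻¹' G) = (W2 W) G * (W2 W) G := by
  obtain ⟨D, hD, rfl⟩ := hG
  have h1 := (indep_windows hW m).measure_inter_preimage_eq_mul D D hD hD
  have m1 : Measurable (fun (y : Path2) (t : Set.Icc (-(m : ℝ)) m) => y t) :=
    measurable_pi_lambda _ fun t => measurable_eval _
  have e2 : (W2 W) (th (2 * m) ⁻¹' ((fun (y : Path2) (t : Set.Icc (-(m : ℝ)) m) => y t) ⁻¹' D)) =
      (W2 W) ((fun (y : Path2) (t : Set.Icc (-(m : ℝ)) m) => y t) ⁻¹' D) := by
    rw [← Measure.map_apply (th_meas _) (m1 hD), map_th hW]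
  have e3 : th (2 * m) ⁻¹' ((fun (y : Path2) (t : Set.Icc (-(m : ℝ)) m) => y t) ⁻¹' D) =
      (fun (y : Path2) (t : Set.Icc (-(m : ℝ)) m) => y (2 * m + t) - y (2 * m)) ⁻¹' D := rfl
  rw [e3] at e2 ⊢
  rw [h1, e2]

/-- **Ergodicity**: almost every two-sided Brownian path is moved by an integer shift into each set
of positive measure. -/
theorem visits2 {A : Set Path2} (hA : MeasurableSet A) (hpos : (W2 W) A ≠ 0) :
    ∀ᵐ y ∂(W2 W), ∃ z : ℤ, th z y ∈ A := by
  have hWp := isProb hW
  set E : Set Path2 := {y | ∃ z : ℤ, th z y ∈ A} with hE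
  have hEm : MeasurableSet E := by
    have : E = ⋃ z : ℤ, th z ⁻¹' A := by ext y; simp [hE]
    rw [this]
    exact MeasurableSet.iUnion fun z => th_meas z hA
  have hinv : ∀ m : ℕ, th (2 * m) ⁻¹' E = E := by
    intro m
    ext y
    simp only [hE, mem_preimage, mem_ofPred_eq, th_th]
    constructor
    · rintro ⟨z, hz⟩
      refine ⟨2 * m + z, ?_⟩
      push_cast
      exact hz
    · rintro ⟨z, hz⟩
      refine ⟨z - 2 * m, ?_⟩
      push_cast
      rw [show (2 * (m : ℝ) + ((z : ℝ) - 2 * m)) = z by ring]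
      exact hz
  set μ := W2 W with hμ
  have hclose : ∀ ε : ℝ, 0 < ε → |μ.real E - μ.real E ^ 2| ≤ 4 * ε := by
    intro ε hε
    obtain ⟨G, hG, hGE⟩ := (Measure.MeasureDense.of_generateFrom_isSetAlgebra_finite μ
      Alg_isSetAlgebra Alg_gen).approx E hEm (measure_ne_top _ _) ε hε
    obtain ⟨m, hm⟩ := mem_iUnion.1 hG
    have hGm : MeasurableSet G := by
      have := le_iSup Fil2 m G hm
      rw [iSup_Fil2] at this
      exact this
    have h1 : μ.real (E ∆ G) < ε := by
      rw [measureReal_def]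
      exact (ENNReal.toReal_lt_of_lt_ofReal hGE)
    have h2 : μ.real (E ∆ (th (2 * m) ⁻¹' G)) < ε := by
      have e : E ∆ (th (2 * m) ⁻¹' G) = th (2 * m) ⁻¹' (E ∆ G) := by
        rw [preimage_symmDiff, hinv]
      rw [e, measureReal_def, ← Measure.map_apply (th_meas _) (hEm.symmDiff hGm), hμ, map_th hW,
        ← hμ, ← measureReal_def]
      exact h1
    have h3 : μ.real (G ∩ th (2 * m) ⁻¹' G) = μ.real G ^ 2 := by
      rw [measureReal_def, hμ, block_mul hW m hm, ENNReal.toReal_mul, sq]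
      rfl
    have h4 : |μ.real E - μ.real (G ∩ th (2 * m) ⁻¹' G)| ≤ 2 * ε := by
      refine (abs_measureReal_sub_le_measureReal_symmDiff hEm.nullMeasurableSet
        (hGm.inter (th_meas _ hGm)).nullMeasurableSet).trans ?_
      have h5 : E ∆ (G ∩ th (2 * m) ⁻¹' G) ⊆ (E ∆ G) ∪ (E ∆ (th (2 * m) ⁻¹' G)) := by
        intro y hy
        simp only [Set.mem_symmDiff, mem_inter_iff, mem_union] at hy ⊢
        tauto
      have h6 := measureReal_mono (μ := μ) h5 (by finiteness)
      have h7 := measureReal_union_le (μ := μ) (E ∆ G) (E ∆ (th (2 * m) ⁻¹' G))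
      linarith
    have h5 : |μ.real E - μ.real G| ≤ ε :=
      (abs_measureReal_sub_le_measureReal_symmDiff hEm.nullMeasurableSet
        hGm.nullMeasurableSet).trans h1.le
    rw [h3] at h4
    have b1 : μ.real E ≤ 1 := measureReal_le_one
    have b2 : μ.real G ≤ 1 := measureReal_le_one
    have b3 : 0 ≤ μ.real E := measureReal_nonneg
    have b4 : 0 ≤ μ.real G := measureReal_nonneg
    have h6 : |μ.real G ^ 2 - μ.real E ^ 2| ≤ 2 * ε := by
      have e : μ.real G ^ 2 - μ.real E ^ 2 = (μ.real G - μ.real E) * (μ.real G + μ.real E) := by ring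
      rw [e, abs_mul, abs_of_nonneg (by linarith : 0 ≤ μ.real G + μ.real E), abs_sub_comm, mul_comm 2]
      exact mul_le_mul h5 (by linarith) (by linarith) hε.le
    calc |μ.real E - μ.real E ^ 2| = |(μ.real E - μ.real G ^ 2) + (μ.real G ^ 2 - μ.real E ^ 2)| := by
          ring_nf
      _ ≤ |μ.real E - μ.real G ^ 2| + |μ.real G ^ 2 - μ.real E ^ 2| := abs_add_le _ _
      _ ≤ 4 * ε := by linarith
  have heq : μ.real E - μ.real E ^ 2 = 0 := by
    by_contra hne
    have h1 : 0 < |μ.real E - μ.real E ^ 2| := abs_pos.2 hne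
    have h2 := hclose (|μ.real E - μ.real E ^ 2| / 8) (by positivity)
    linarith
  have hE0 : μ.real E ≠ 0 := by
    rw [measureReal_def, ENNReal.toReal_ne_zero]
    refine ⟨fun h0 => hpos ?_, measure_ne_top _ _⟩
    have h1 : μ (th ((0 : ℤ) : ℝ) ⁻¹' A) = 0 := by
      have hE0 : μ E = 0 := h0
      refine measure_mono_null (fun y hy => ?_) hE0
      exact (⟨0, hy⟩ : ∃ z : ℤ, th z y ∈ A)
    rw [← Measure.map_apply (th_meas _) hA, hμ, map_th hW] at h1
    exact h1
  have hE1 : μ.real E = 1 := by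
    have h1 : μ.real E * (1 - μ.real E) = 0 := by rw [← heq]; ring
    rcases mul_eq_zero.1 h1 with h2 | h2
    · exact absurd h2 hE0
    · linarith
  have hE1' : μ E = 1 := by
    rw [measureReal_def] at hE1
    rw [← ENNReal.ofReal_toReal (measure_ne_top μ E), hE1, ENNReal.ofReal_one]
  exact (prob_compl_eq_zero_iff hEm).2 hE1'

end Q297.Dec
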