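import Pool.Agent.Q297.Plant

/-!
Turning a decomposition of a measure into a random choice of an index.
-/

open MeasureTheory ProbabilityTheory Set Filter Topology
open scoped ENNReal NNReal

namespace Q297.Win

/-- a decomposition of `μ` into parts is realised by a random index depending on the point and on an
independent uniform variable -/
theorem select {E F : Type*} {mE : MeasurableSpace E} {mF : MeasurableSpace F} (μ : Measure E)
    [IsProbabilityMeasure μ] (κ : ℕ → Measure E) (hsum : Measure.sum κ = μ) (T : ℕ → E → F)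
    (hT : ∀ j, Measurable (T j)) :
    ∃ J : E × ℝ → ℕ, Measurable J ∧
      (μ.prod lam).map (fun p => T (J p) p.1) = Measure.sum (fun j => (κ j).map (T j)) := by
  classical
  have hle : ∀ j, κ j ≤ μ := fun j => by rw [← hsum]; exact Measure.le_sum κ j
  have hfin : ∀ j, IsFiniteMeasure (κ j) := fun j => isFiniteMeasure_of_le μ (hle j)
  set w : ℕ → E → ℝ≥0∞ := fun j => (κ j).rnDeriv μ with hw
  have hwm : ∀ j, Measurable (w j) := fun j => Measure.measurable_rnDeriv _ _
  have hκ : ∀ j, μ.withDensity (w j) = κ j := fun j =>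
    Measure.withDensity_rnDeriv_eq _ _ (Measure.absolutelyContinuous_of_le (hle j))
  set S : ℕ → E → ℝ≥0∞ := fun j x => ∑ i ∈ Finset.range j, w i x with hS
  have hSm : ∀ j, Measurable (S j) := fun j => Finset.measurable_fun_sum _ fun i _ => hwm i
  have hSmono : ∀ x, Monotone fun j => S j x := fun x => monotone_nat_of_le_succ fun j => by
    simp only [hS]; rw [Finset.sum_range_succ]; exact le_self_add
  have hS1 : ∀ᵐ x ∂μ, ∀ j, S j x ≤ 1 := by
    rw [ae_all_iff]
    intro j
    have h1 : μ.withDensity (S j) ≤ μ.withDensity 1 := by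
      rw [withDensity_one]
      have h2 : μ.withDensity (S j) = ∑ i ∈ Finset.range j, κ i := by
        have h3 : S j = ∑ i ∈ Finset.range j, w i := by funext x; simp [hS]
        rw [h3]
        clear h3
        induction j with
        | zero => simp
        | succ j ih =>
          have e : (∑ i ∈ Finset.range j, w i) = S j := by funext x; simp [hS]
          rw [Finset.sum_range_succ, withDensity_add_left (by rw [e]; exact hSm j),
            ih, hκ, Finset.sum_range_succ]
      rw [h2, Measure.le_iff]
      intro s hs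
      rw [Measure.finsetSum_apply, ← hsum, Measure.sum_apply _ hs]
      exact ENNReal.sum_le_tsum _
    exact ae_le_of_forall_setLIntegral_le_of_sigmaFinite (hSm j) fun s hs _ => by
      have := h1 s
      rw [withDensity_apply _ hs, withDensity_apply _ hs] at this
      exact this
  -- the events
  set A : ℕ → Set (E × ℝ) := fun j => {p | S j p.1 ≤ ENNReal.ofReal p.2 ∧
    ENNReal.ofReal p.2 < S (j + 1) p.1} with hA
  have hAm : ∀ j, MeasurableSet (A j) := fun j =>
    (measurableSet_le ((hSm j).comp measurable_fst) (by fun_prop)).inter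
      (measurableSet_lt (by fun_prop) ((hSm (j + 1)).comp measurable_fst))
  have hAd : ∀ i j, i ≠ j → Disjoint (A i) (A j) := by
    have aux : ∀ {i j}, i < j → ∀ p, p ∈ A i → p ∈ A j → False := by
      intro i j hij p h1 h2
      have h3 := hSmono p.1 (Nat.succ_le_of_lt hij)
      exact absurd (h1.2.trans_le (h3.trans h2.1)) (lt_irrefl _)
    intro i j hij
    rw [Set.disjoint_left]
    intro p h1 h2
    rcases Nat.lt_or_gt_of_ne hij with h | h
    · exact aux h p h1 h2
    · exact aux h p h2 h1
  have hmass : ∀ j (B : Set E), MeasurableSet B → (μ.prod lam) (A j ∩ Prod.fst ⁻¹' B) = κ j B := by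
    intro j B hB
    have hm : MeasurableSet (A j ∩ Prod.fst ⁻¹' B) := (hAm j).inter (measurable_fst hB)
    rw [Measure.prod_apply hm]
    have h1 : ∀ᵐ x ∂μ, lam (Prod.mk x ⁻¹' (A j ∩ Prod.fst ⁻¹' B)) = B.indicator (w j) x := by
      filter_upwards [hS1] with x hx
      by_cases hxB : x ∈ B
      · rw [indicator_of_mem hxB]
        have hSj : S j x ≠ ∞ := ne_top_of_le_ne_top ENNReal.one_ne_top (hx j)
        have hSj1 : S (j + 1) x ≠ ∞ := ne_top_of_le_ne_top ENNReal.one_ne_top (hx (j + 1))
        have h2 : S (j + 1) x = S j x + w j x := by simp only [hS]; rw [Finset.sum_range_succ]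
        have h3 : (Icc (0 : ℝ) 1 ∩ (Prod.mk x ⁻¹' (A j ∩ Prod.fst ⁻¹' B)) : Set ℝ) =ᵐ[volume]
            Ico (S j x).toReal (S (j + 1) x).toReal := by
          have h4 : Icc (0 : ℝ) 1 ∩ (Prod.mk x ⁻¹' (A j ∩ Prod.fst ⁻¹' B)) =
              Icc (0 : ℝ) 1 ∩ Ico (S j x).toReal (S (j + 1) x).toReal := by
            ext u
            simp only [mem_inter_iff, mem_Icc, mem_preimage, hA, mem_ofPred_eq, mem_Ico]
            constructor
            · rintro ⟨hu, ⟨h5, h6⟩, _⟩
              refine ⟨hu, ?_, ?_⟩
              · exact (ENNReal.le_ofReal_iff_toReal_le hSj hu.1).1 h5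
              · exact (ENNReal.ofReal_lt_iff_lt_toReal hu.1 hSj1).1 h6
            · rintro ⟨hu, h5, h6⟩
              exact ⟨hu, ⟨(ENNReal.le_ofReal_iff_toReal_le hSj hu.1).2 h5,
                (ENNReal.ofReal_lt_iff_lt_toReal hu.1 hSj1).2 h6⟩, hxB⟩
          rw [h4]
          have h5 : Ico (S j x).toReal (S (j + 1) x).toReal ⊆ Icc (0 : ℝ) 1 := by
            intro u hu
            refine ⟨ENNReal.toReal_nonneg.trans hu.1, hu.2.le.trans ?_⟩
            have := ENNReal.toReal_mono ENNReal.one_ne_top (hx (j + 1))
            simpa using this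
          exact Filter.EventuallyEq.of_eq (inter_eq_self_of_subset_right h5)
        have hm2 : MeasurableSet (Prod.mk x ⁻¹' (A j ∩ Prod.fst ⁻¹' B)) := measurable_prodMk_left hm
        unfold lam
        rw [Measure.restrict_apply hm2, inter_comm, h3.measure_eq, Real.volume_Ico, h2,
          ENNReal.toReal_add hSj (ne_top_of_le_ne_top hSj1 (by rw [h2]; exact le_add_self)),
          add_sub_cancel_left, ENNReal.ofReal_toReal
          (ne_top_of_le_ne_top hSj1 (by rw [h2]; exact le_add_self))]
      · rw [indicator_of_notMem hxB]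
        have : Prod.mk x ⁻¹' (A j ∩ Prod.fst ⁻¹' B) = ∅ := by
          ext u; simp [hxB]
        rw [this, measure_empty]
    rw [lintegral_congr_ae h1, lintegral_indicator hB, ← withDensity_apply _ hB, hκ]
  -- the index
  set J : E × ℝ → ℕ := fun p => if h : ∃ j, p ∈ A j then h.choose else 0 with hJ
  have hJA : ∀ j p, p ∈ A j → J p = j := by
    intro j p hp
    have h : ∃ j, p ∈ A j := ⟨j, hp⟩
    simp only [hJ, dif_pos h]
    by_contra hne
    exact Set.disjoint_left.1 (hAd _ _ hne) h.choose_spec hp
  have hJset : ∀ j, J ⁻¹' {j} = if j = 0 then A 0 ∪ (⋃ i, A i)ᶜ else A j := by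
    intro j
    ext p
    simp only [mem_preimage, mem_singleton_iff]
    by_cases h : ∃ i, p ∈ A i
    · obtain ⟨i, hi⟩ := h
      rw [hJA i p hi]
      have hU : p ∈ ⋃ i, A i := mem_iUnion.2 ⟨i, hi⟩
      split_ifs with hj
      · subst hj
        constructor
        · rintro rfl; exact Or.inl hi
        · rintro (h1 | h1)
          · by_contra hne
            exact Set.disjoint_left.1 (hAd _ _ hne) hi h1
          · exact absurd hU h1
      · constructor
        · rintro rfl; exact hi
        · intro h1
          by_contra hne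
          exact Set.disjoint_left.1 (hAd _ _ hne) hi h1
    · have hJ0 : J p = 0 := by simp only [hJ, dif_neg h]
      have hU : p ∉ ⋃ i, A i := fun h1 => h (mem_iUnion.1 h1)
      rw [hJ0]
      split_ifs with hj
      · subst hj
        exact ⟨fun _ => Or.inr hU, fun _ => rfl⟩
      · constructor
        · intro h1; exact absurd h1.symm hj
        · intro h1; exact absurd ⟨j, h1⟩ h
  have hJm : Measurable J := by
    refine measurable_to_countable' fun j => ?_
    rw [hJset]
    split_ifs
    · exact (hAm 0).union (MeasurableSet.iUnion hAm).compl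
    · exact hAm j
  have hfull : (μ.prod lam) (⋃ i, A i)ᶜ = 0 := by
    rw [prob_compl_eq_zero_iff (MeasurableSet.iUnion hAm)]
    rw [measure_iUnion (fun i j hij => hAd i j hij) hAm]
    have h1 : ∀ j, (μ.prod lam) (A j) = κ j univ := fun j => by
      have := hmass j univ MeasurableSet.univ
      rwa [preimage_univ, inter_univ] at this
    simp_rw [h1]
    rw [← Measure.sum_apply _ MeasurableSet.univ, hsum, measure_univ]
  refine ⟨J, hJm, ?_⟩
  have hTJ : Measurable (fun p : E × ℝ => T (J p) p.1) := by
    have h1 : Measurable (fun q : ℕ × E => T q.1 q.2) := measurable_from_prod_countable_right hT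
    exact h1.comp (hJm.prodMk measurable_fst)
  ext C hC
  rw [Measure.map_apply hTJ hC, Measure.sum_apply _ hC]
  have h1 : (μ.prod lam) ((fun p => T (J p) p.1) ⁻¹' C) =
      (μ.prod lam) (⋃ j, A j ∩ Prod.fst ⁻¹' (T j ⁻¹' C)) := by
    refine measure_congr ?_
    have h2 : ∀ᵐ p ∂(μ.prod lam), p ∈ ⋃ i, A i := by rw [ae_iff]; exact hfull
    filter_upwards [h2] with p hp
    obtain ⟨j, hj⟩ := mem_iUnion.1 hp
    apply propext
    show (T (J p) p.1 ∈ C) ↔ p ∈ ⋃ j, A j ∩ Prod.fst ⁻¹' (T j ⁻¹' C)
    rw [hJA j p hj, mem_iUnion]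
    constructor
    · intro h; exact ⟨j, hj, h⟩
    · rintro ⟨i, hi, h⟩
      rw [← hJA j p hj, hJA i p hi]; exact h
  rw [h1, measure_iUnion]
  · refine tsum_congr fun j => ?_
    rw [hmass j _ (hT j hC), Measure.map_apply (hT j) hC]
  · intro i j hij
    exact (hAd i j hij).mono inter_subset_left inter_subset_left
  · intro j
    exact (hAm j).inter (measurable_fst (hT j hC))

end Q297.Win
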