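import Pool.Agent.Q297.DecF
import Pool.Agent.Q297.DecG
import Pool.Agent.Q297.Sel

/-!
A decomposable process with one backward Brownian time is a two-sided Brownian motion seen from a
random time.
-/

open MeasureTheory ProbabilityTheory Set Filter Topology
open scoped ENNReal NNReal
open Q297.PathC Q297.Prepend Q297.TwoS
open Q297.Win (lam)

namespace Q297.Dec

/-- the paths whose far backward paths avoid `Z` -/
def Nall (Z : Set Path) : Set Path2 :=
  {y | ∃ n : ℕ, ∀ᵐ u : ℝ, u ≤ -n → bwd (th u y) ∉ Z}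

lemma Nall_meas {Z : Set Path} (hZ : MeasurableSet Z) : MeasurableSet (Nall Z) := by
  have h1 : ∀ n : ℕ, MeasurableSet {p : Path2 × ℝ | p.2 ≤ -(n : ℝ) ∧ bwd (th p.2 p.1) ∈ Z} := by
    intro n
    have m1 : Measurable (fun p : Path2 × ℝ => bwd (th p.2 p.1)) :=
      bwd_meas.comp (th_meas2.comp measurable_swap)
    exact (measurableSet_le measurable_snd measurable_const).inter (m1 hZ)
  have h2 : Nall Z = ⋃ n : ℕ, {y | volume (Prod.mk y ⁻¹'
      {p : Path2 × ℝ | p.2 ≤ -(n : ℝ) ∧ bwd (th p.2 p.1) ∈ Z}) = 0} := by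
    ext y
    simp only [Nall, mem_ofPred_eq, mem_iUnion]
    refine exists_congr fun n => ?_
    rw [ae_iff]
    have e : {u : ℝ | ¬(u ≤ -(n : ℝ) → bwd (th u y) ∉ Z)} =
        Prod.mk y ⁻¹' {p : Path2 × ℝ | p.2 ≤ -(n : ℝ) ∧ bwd (th p.2 p.1) ∈ Z} := by
      ext u
      simp only [mem_ofPred_eq, mem_preimage]
      tauto
    rw [e]
  rw [h2]
  exact MeasurableSet.iUnion fun n =>
    (measurable_measure_prodMk_left (h1 n)) (measurableSet_singleton 0)

section Core

variable {Ω Ω₁ : Type*} {mΩ : MeasurableSpace Ω} {mΩ₁ : MeasurableSpace Ω₁} {W : Measure Path}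
    {P : Measure Ω} {P₁ : Measure Ω₁} {Y : Ω₁ → Path2} {S : ℤ → Ω₁ → ℝ} {T : ℤ → Ω₁ → ℝ≥0}
    {b : ℤ → Ω₁ → Path}

/-- invariant null sets are not charged -/
lemma inv_null [IsProbabilityMeasure P] [IsProbabilityMeasure P₁]
    (hW : IsBrownianReal (fun (t : ℝ≥0) (x : Path) => x t) W) (h : Data W P₁ Y S T b)
    {X : Ω → Path2} (hX : Measurable X) {U R : Ω → ℝ} (hU : Measurable U) (hR : Measurable R)
    (hXY : P.map (fun ω => th (U ω) (X ω)) = P₁.map Y)
    (hback : P.map (fun ω => bwd (th (R ω) (X ω))) = W)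
    {A : Set Path2} (hA : MeasurableSet A) (hinv : ∀ s y, th s y ∈ A ↔ y ∈ A)
    (h0 : W2 W A = 0) : P {ω | X ω ∈ A} = 0 := by
  have hWp := isProb hW
  have hZm : MeasurableSet (Zs W A) := Zs_meas hA
  have hZ0 : W (Zs W A) = 0 := W_Zs hA h0
  have mXU : Measurable (fun ω => th (U ω) (X ω)) := th_meas2.comp (hU.prodMk hX)
  have h1 := back_ae hW hX hR hback hZm hZ0
  have h2 : ∀ᵐ ω ∂P, th (U ω) (X ω) ∈ Nall (Zs W A) := by
    filter_upwards [h1] with ω hω
    obtain ⟨n, hn⟩ := exists_nat_ge (U ω - R ω)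
    refine ⟨n, ?_⟩
    have h3 := (measurePreserving_add_left volume (U ω)).quasiMeasurePreserving.ae hω
    filter_upwards [h3] with u hu hle
    rw [th_th]
    exact hu (by linarith)
  have h3 : ∀ᵐ ω ∂P₁, Y ω ∈ Nall (Zs W A) := by
    have h4 : ∀ᵐ y ∂(P₁.map Y), y ∈ Nall (Zs W A) := by
      rw [← hXY]
      exact (ae_map_iff mXU.aemeasurable (Nall_meas hZm)).2 h2
    exact (ae_map_iff h.mY.aemeasurable (Nall_meas hZm)).1 h4
  have h4 := h.null hW hA hinv h3
  have h5 : P₁.map Y A = 0 := by rw [Measure.map_apply h.mY hA]; exact h4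
  rw [← hXY, Measure.map_apply mXU hA] at h5
  rw [← h5]
  congr 1
  ext ω
  simp only [mem_ofPred_eq, mem_preimage, hinv]

/-- the process, shifted by a uniform variable, is moved by an integer shift into each set of
positive measure -/
lemma visits_X [IsProbabilityMeasure P] [IsProbabilityMeasure P₁]
    (hW : IsBrownianReal (fun (t : ℝ≥0) (x : Path) => x t) W) (h : Data W P₁ Y S T b)
    {X : Ω → Path2} (hX : Measurable X) {U R : Ω → ℝ} (hU : Measurable U) (hR : Measurable R)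
    (hXY : P.map (fun ω => th (U ω) (X ω)) = P₁.map Y)
    (hback : P.map (fun ω => bwd (th (R ω) (X ω))) = W)
    {A : Set Path2} (hA : MeasurableSet A) (hpos : W2 W A ≠ 0) :
    ∀ᵐ p ∂((P.map X).prod lam), ∃ z : ℤ, th (p.2 + z) p.1 ∈ A := by
  have hWp := isProb hW
  set B : Set Path2 := {y | ∃ z : ℤ, th z y ∈ A} with hB
  have hBm : MeasurableSet B := by
    have : B = ⋃ z : ℤ, th z ⁻¹' A := by ext y; simp [hB]
    rw [this]
    exact MeasurableSet.iUnion fun z => th_meas z hA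
  have hB0 : (W2 W) Bᶜ = 0 := visits2 hW hA hpos
  have hGm : MeasurableSet {p : Path2 × ℝ | th p.2 p.1 ∈ Bᶜ} :=
    (th_meas2.comp measurable_swap) hBm.compl
  set C : Set Path2 := {y | volume (Prod.mk y ⁻¹' {p : Path2 × ℝ | th p.2 p.1 ∈ Bᶜ}) ≠ 0} with hC
  have hCm : MeasurableSet C :=
    (measurable_measure_prodMk_left hGm) (measurableSet_singleton 0).compl
  have hCinv : ∀ s y, th s y ∈ C ↔ y ∈ C := by
    intro s y
    have e : (Prod.mk (th s y) ⁻¹' {p : Path2 × ℝ | th p.2 p.1 ∈ Bᶜ}) =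
        (fun v => s + v) ⁻¹' (Prod.mk y ⁻¹' {p : Path2 × ℝ | th p.2 p.1 ∈ Bᶜ}) := by
      ext v
      simp only [mem_preimage, mem_ofPred_eq, th_th]
    simp only [hC, mem_ofPred_eq, e]
    rw [measure_preimage_add]
  have hC0 : (W2 W) C = 0 := by
    have h1 : ((W2 W).prod volume) {p : Path2 × ℝ | th p.2 p.1 ∈ Bᶜ} = 0 := by
      rw [Measure.prod_apply_symm hGm]
      have h2 : ∀ v : ℝ, (W2 W) ((fun y => (y, v)) ⁻¹' {p : Path2 × ℝ | th p.2 p.1 ∈ Bᶜ}) = 0 := by
        intro v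
        have e : (fun y : Path2 => (y, v)) ⁻¹' {p : Path2 × ℝ | th p.2 p.1 ∈ Bᶜ} = th v ⁻¹' Bᶜ := rfl
        rw [e, ← Measure.map_apply (th_meas v) hBm.compl, map_th hW, hB0]
      simp only [h2, lintegral_zero]
    rw [Measure.prod_apply hGm, lintegral_eq_zero_iff (measurable_measure_prodMk_left hGm)] at h1
    exact h1
  have h1 := inv_null hW h hX hU hR hXY hback hCm hCinv hC0
  have hXp : IsProbabilityMeasure (P.map X) := Measure.isProbabilityMeasure_map hX.aemeasurable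
  have h2 : (P.map X) C = 0 := by rw [Measure.map_apply hX hCm]; exact h1
  have h3 : ((P.map X).prod lam) {p : Path2 × ℝ | th p.2 p.1 ∈ Bᶜ} = 0 := by
    rw [Measure.prod_apply hGm, lintegral_eq_zero_iff (measurable_measure_prodMk_left hGm)]
    have h4 : ∀ᵐ y ∂(P.map X), y ∉ C := measure_eq_zero_iff_ae_notMem.1 h2
    filter_upwards [h4] with y hy
    have h5 : volume (Prod.mk y ⁻¹' {p : Path2 × ℝ | th p.2 p.1 ∈ Bᶜ}) = 0 := by
      by_contra h6
      exact hy h6
    exact le_antisymm ((Measure.restrict_apply_le _ _).trans h5.le) zero_le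
  have h4 : ∀ᵐ p ∂((P.map X).prod lam), p ∉ {p : Path2 × ℝ | th p.2 p.1 ∈ Bᶜ} :=
    measure_eq_zero_iff_ae_notMem.1 h3
  filter_upwards [h4] with p hp
  have h5 : th p.2 p.1 ∈ B := by
    by_contra h6
    exact hp h6
  obtain ⟨z, hz⟩ := h5
  rw [th_th] at hz
  exact ⟨z, hz⟩

/-- **Shift coupling.** -/
theorem core [IsProbabilityMeasure P] [IsProbabilityMeasure P₁]
    (hW : IsBrownianReal (fun (t : ℝ≥0) (x : Path) => x t) W) (h : Data W P₁ Y S T b)
    {X : Ω → Path2} (hX : Measurable X) {U R : Ω → ℝ} (hU : Measurable U) (hR : Measurable R)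
    (hXY : P.map (fun ω => th (U ω) (X ω)) = P₁.map Y)
    (hback : P.map (fun ω => bwd (th (R ω) (X ω))) = W) :
    ∃ σ : (Path2 × ℝ) × ℝ → ℝ, Measurable σ ∧
      (((P.map X).prod lam).prod lam).map (fun p => th (σ p) p.1.1) = W2 W := by
  have hWp := isProb hW
  have hXp : IsProbabilityMeasure (P.map X) := Measure.isProbabilityMeasure_map hX.aemeasurable
  obtain ⟨e, he⟩ := exists_surjective_nat ℤ
  have hTm : ∀ n, Measurable (fun p : Path2 × ℝ => th (p.2 + e n) p.1) := by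
    intro n
    have m1 : Measurable (fun p : Path2 × ℝ => (p.2 + (e n : ℝ), p.1)) :=
      (measurable_snd.add_const _).prodMk measurable_fst
    exact th_meas2.comp m1
  obtain ⟨κ, hκ1, hκ2⟩ := Q297.Fill.filling ((P.map X).prod lam) (W2 W)
    (by rw [measure_univ, measure_univ]) (fun n p => th (p.2 + e n) p.1) hTm (by
      intro A hA hpos
      filter_upwards [visits_X hW h hX hU hR hXY hback hA hpos.ne'] with p hp
      obtain ⟨z, hz⟩ := hp
      obtain ⟨n, hn⟩ := he z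
      exact ⟨n, by rw [hn]; exact hz⟩)
  obtain ⟨J, hJm, hJ⟩ := Q297.Win.select ((P.map X).prod lam) κ hκ1
    (fun n p => th (p.2 + e n) p.1) hTm
  refine ⟨fun p => p.1.2 + e (J p), ?_, hJ.trans hκ2⟩
  have m1 : Measurable (fun p : (Path2 × ℝ) × ℝ => ((e (J p) : ℤ) : ℝ)) :=
    (measurable_from_nat (f := fun n : ℕ => ((e n : ℤ) : ℝ))).comp hJm
  exact (measurable_snd.comp measurable_fst).add m1

end Core

end Q297.Dec
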