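import Pool.Agent.Q297.DecH

/-!
Process level statements: decomposable processes with a backward Brownian time are two-sided
Brownian motions.
-/

open MeasureTheory ProbabilityTheory Set Filter Topology
open scoped ENNReal NNReal
open Q297.PathC Q297.Prepend Q297.TwoS
open Q297.Win (lam)

namespace Q297.Dec

universe u

section Defs

variable {Ω : Type u} {mΩ : MeasurableSpace Ω}

/-- forward Brownian motion -/
def FBM (X : ℝ → Ω → ℝ) (P : Measure Ω) : Prop :=
  ∃ S : ℕ → Ω → ℝ, (∀ n, Measurable (S n)) ∧ (∀ᵐ ω ∂P, Tendsto (fun n => S n ω) atTop atBot) ∧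
    ∀ n, IsBrownianReal (fun (t : ℝ≥0) ω => X (S n ω + t) ω - X (S n ω) ω) P

/-- backward Brownian motion -/
def BBM (X : ℝ → Ω → ℝ) (P : Measure Ω) : Prop := FBM (fun t => X (-t)) P

/-- two-sided Brownian motion -/
def TwoBM (X : ℝ → Ω → ℝ) (P : Measure Ω) : Prop :=
  ∃ S : Ω → ℝ, Measurable S ∧ IsBrownianReal (fun (t : ℝ≥0) ω => X (S ω + t) ω - X (S ω) ω) P ∧
    IsBrownianReal (fun (t : ℝ≥0) ω => X (S ω - t) ω - X (S ω) ω) P ∧
    IndepFun (fun ω (t : ℝ≥0) => X (S ω + t) ω - X (S ω) ω)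
      (fun ω (t : ℝ≥0) => X (S ω - t) ω - X (S ω) ω) P

/-- Brownian motion with respect to the filtration `F` -/
def IsBMFor (F : Filtration ℝ≥0 mΩ) (B : ℝ≥0 → Ω → ℝ) (P : Measure Ω) : Prop :=
  IsBrownianReal B P ∧ (∀ t, Measurable[F t] (B t)) ∧
    ∀ s t, s ≤ t → Indep (MeasurableSpace.comap (fun ω => B t ω - B s ω) inferInstance) (F s) P

/-- the process `Y` is built from independent Brownian pieces, stopped at stopping times -/
def IsPieced (Y : ℝ → Ω → ℝ) (P : Measure Ω) : Prop :=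
  ∃ (F : ℤ → Filtration ℝ≥0 mΩ) (B : ℤ → ℝ≥0 → Ω → ℝ) (T : ℤ → Ω → ℝ≥0) (S : ℤ → Ω → ℝ),
    (∀ k, IsBMFor (F k) (B k) P) ∧
    (∀ k, IsStoppingTime (F k) (fun ω => (T k ω : WithTop ℝ≥0))) ∧
    iIndepFun (fun k ω => (T k ω, fun t : ℝ≥0 => B k (min t (T k ω)) ω)) P ∧
    (∀ ω, S 0 ω = 0) ∧ (∀ k ω, S (k + 1) ω = S k ω + T k ω) ∧
    (∀ᵐ ω ∂P, Tendsto (fun k => S k ω) atTop atTop) ∧
    (∀ᵐ ω ∂P, Tendsto (fun k => S k ω) atBot atBot) ∧
    (∀ t, Measurable (Y t)) ∧ (∀ᵐ ω ∂P, Continuous fun t => Y t ω) ∧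
    ∀ᵐ ω ∂P, Y 0 ω = 0 ∧ ∀ k, ∀ t : ℝ≥0, t < T k ω → Y (S k ω + t) ω - Y (S k ω) ω = B k t ω

/-- decomposable processes -/
def Decomposable (X : ℝ → Ω → ℝ) (P : Measure Ω) : Prop :=
  ∃ U : Ω → ℝ, Measurable U ∧ ∃ (Ω₁ : Type u) (_ : MeasurableSpace Ω₁) (P₁ : Measure Ω₁)
    (Y : ℝ → Ω₁ → ℝ), IsPieced Y P₁ ∧
      P₁.map (fun ω t => Y t ω) = P.map (fun ω t => X (U ω + t) ω - X (U ω) ω)

end Defs

section Aux

variable {Ω : Type u} {mΩ : MeasurableSpace Ω} {P : Measure Ω}

/-- a continuous modification of a process indexed by the reals -/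
lemma exists_mod2 {X : ℝ → Ω → ℝ} (hm : ∀ t, Measurable (X t))
    (hc : ∀ᵐ ω ∂P, Continuous (fun t => X t ω)) :
    ∃ x : Ω → Path2, Measurable x ∧ ∀ᵐ ω ∂P, ∀ t, x ω t = X t ω := by
  classical
  set N := toMeasurable P {ω | ¬ Continuous (fun t => X t ω)} with hN
  have hN0 : P N = 0 := by rw [hN, measure_toMeasurable]; exact hc
  have hNc : ∀ ω, ω ∉ N → Continuous (fun t => X t ω) := by
    intro ω hω
    by_contra h
    exact hω (subset_toMeasurable _ _ h)
  let b : Ω → Path2 := fun ω => if h : ω ∈ N then 0 else ⟨fun t => X t ω, hNc ω h⟩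
  have hb : ∀ ω t, b ω t = if ω ∈ N then 0 else X t ω := by
    intro ω t
    by_cases h : ω ∈ N <;> simp [b, h]
  refine ⟨b, measurable_of_eval fun t => ?_, ?_⟩
  · simp only [hb]
    exact Measurable.ite (measurableSet_toMeasurable _ _) measurable_const (hm t)
  · have h1 : ∀ᵐ ω ∂P, ω ∉ N := measure_eq_zero_iff_ae_notMem.1 hN0
    filter_upwards [h1] with ω hω t
    rw [hb, if_neg hω]

lemma isBM_congr {B B' : ℝ≥0 → Ω → ℝ} (h : IsBrownianReal B P)
    (he : ∀ᵐ ω ∂P, ∀ t, B t ω = B' t ω) : IsBrownianReal B' P := by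
  refine ⟨h.toIsPreBrownianReal.congr fun t => ?_, ?_⟩
  · filter_upwards [he] with ω hω
    exact hω t
  · filter_upwards [he, h.cont] with ω hω hc
    have : (fun t => B' t ω) = fun t => B t ω := by funext t; exact (hω t).symm
    rw [this]
    exact hc

/-- the data extracted from a process built from pieces -/
lemma IsPieced.data {W : Measure Path} (hW : IsBrownianReal (fun (t : ℝ≥0) (x : Path) => x t) W)
    {Y : ℝ → Ω → ℝ} (h : IsPieced Y P) :
    IsProbabilityMeasure P ∧ ∃ (y : Ω → Path2) (S : ℤ → Ω → ℝ) (T : ℤ → Ω → ℝ≥0)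
      (b : ℤ → Ω → Path), Data W P y S T b ∧ (∀ᵐ ω ∂P, ∀ t, y ω t = Y t ω) ∧ ∀ ω, S 0 ω = 0 := by
  obtain ⟨F, B, T, S, hB, hT, hind, hS0, hS, htop, hbot, hYm, hYc, hY⟩ := h
  have hf : ∀ k, FiltBM (F k) (B k) P := fun k => ⟨(hB k).1, (hB k).2.1, (hB k).2.2⟩
  have hP : IsProbabilityMeasure P := (hf 0).prob
  have hWp := isProb hW
  refine ⟨hP, ?_⟩
  have hBm : ∀ k t, Measurable (B k t) := fun k t => ((hf k).adapted t).mono ((F k).le t) le_rfl
  have hmod : ∀ k, ∃ b : Ω → Path, Measurable b ∧ ∀ᵐ ω ∂P, ∀ t, b ω t = B k t ω :=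
    fun k => exists_mod (hBm k) (hf k).bm.cont
  choose b hbm hb using hmod
  obtain ⟨y, hym, hy⟩ := exists_mod2 hYm hYc
  have hTm : ∀ k, Measurable (T k) := by
    intro k
    refine measurable_of_Iic fun t => ?_
    have h1 := (F k).le t _ (hT k t)
    simp only [WithTop.coe_le_coe] at h1
    exact h1
  have hSm : ∀ k, Measurable (S k) := by
    intro k
    induction k using Int.induction_on with
    | zero =>
      have : S 0 = fun _ => 0 := by funext ω; exact hS0 ω
      rw [this]; exact measurable_const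
    | succ i ih =>
      have : S ((i : ℤ) + 1) = fun ω => S i ω + T i ω := by funext ω; exact hS _ ω
      rw [this]
      exact ih.add (NNReal.continuous_coe.measurable.comp (hTm _))
    | pred i ih =>
      have : S (-(i : ℤ) - 1) = fun ω => S (-(i : ℤ)) ω - T (-(i : ℤ) - 1) ω := by
        funext ω
        have h1 := hS (-(i : ℤ) - 1) ω
        rw [sub_add_cancel] at h1
        rw [h1]; ring
      rw [this]
      exact ih.sub (NNReal.continuous_coe.measurable.comp (hTm _))
  refine ⟨y, S, T, b, ⟨hym, hSm, hTm, hbm, ae_of_all _ fun ω k => hS k ω, ?_, htop, hbot, ?_, ?_⟩,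
    hy, hS0⟩
  · -- the increments over a piece
    have hb' : ∀ᵐ ω ∂P, ∀ k t, b k ω t = B k t ω := ae_all_iff.2 hb
    have hB0 : ∀ᵐ ω ∂P, ∀ k, B k 0 ω = 0 := ae_all_iff.2 fun k => (hf k).bm.eval_zero_ae_eq_zero
    filter_upwards [hY, hy, hb', hB0] with ω h1 h2 h3 h4 k t ht
    obtain ⟨-, h1⟩ := h1
    rcases eq_or_lt_of_le ht with h5 | h5
    · rcases eq_or_ne (T k ω) 0 with h6 | h6
      · rw [h5, h6, h3, h4]; simp
      · -- continuity
        have hTpos : 0 < T k ω := pos_iff_ne_zero.2 h6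
        have hcl : closure (Set.Iio (T k ω)) = Set.Iic (T k ω) := closure_Iio' ⟨0, hTpos⟩
        have hcont1 : Continuous (fun s : ℝ≥0 => y ω (S k ω + s) - y ω (S k ω)) := by fun_prop
        have hcont2 : Continuous (fun s : ℝ≥0 => b k ω s) := (b k ω).continuous
        have heq : Set.EqOn (fun s : ℝ≥0 => y ω (S k ω + s) - y ω (S k ω)) (fun s => b k ω s)
            (Set.Iio (T k ω)) := by
          intro s hs
          show y ω (S k ω + s) - y ω (S k ω) = b k ω s
          rw [h2, h2, h3]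
          exact h1 k s hs
        have h7 := heq.closure hcont1 hcont2
        rw [hcl] at h7
        exact h7 (show t ∈ Set.Iic (T k ω) from ht)
    · rw [h2, h2, h3]
      exact h1 k t h5
  · -- independence
    have hmap : iIndepFun (fun k ω => (T k ω, fun t : ℝ≥0 => stop (T k ω) (b k ω) t)) P := by
      refine hind.congr fun k => ?_
      filter_upwards [hb k] with ω hω
      simp only [stop_apply, hω]
    have e : ∀ k, MeasurableSpace.comap (fun ω => ((T k ω, stop (T k ω) (b k ω)) : Piece)) inferInstance =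
        MeasurableSpace.comap (fun ω => (T k ω, fun t : ℝ≥0 => stop (T k ω) (b k ω) t))
          (inferInstance : MeasurableSpace (ℝ≥0 × (ℝ≥0 → ℝ))) := by
      intro k
      have e1 : (inferInstance : MeasurableSpace Piece) =
          MeasurableSpace.comap (fun p : Piece => (p.1, fun t : ℝ≥0 => p.2 t))
            (inferInstance : MeasurableSpace (ℝ≥0 × (ℝ≥0 → ℝ))) := by
        show MeasurableSpace.prod _ _ = MeasurableSpace.comap _ (MeasurableSpace.prod _ _)
        unfold MeasurableSpace.prod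
        rw [MeasurableSpace.comap_sup, MeasurableSpace.comap_comp, MeasurableSpace.comap_comp,
          instMS_eq, MeasurableSpace.comap_comp]
        rfl
      rw [e1, MeasurableSpace.comap_comp]
      rfl
    rw [iIndepFun_iff_iIndep] at hmap ⊢
    have e' : (fun k => MeasurableSpace.comap (fun ω => ((T k ω, stop (T k ω) (b k ω)) : Piece))
        inferInstance) = fun k => MeasurableSpace.comap
          (fun ω => (T k ω, fun t : ℝ≥0 => stop (T k ω) (b k ω) t))
          (inferInstance : MeasurableSpace (ℝ≥0 × (ℝ≥0 → ℝ))) := funext e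
    rw [e']
    exact hmap
  · -- goodness
    intro k
    have h1 := (hf k).concat hW (hbm k) (hb k) (hTm k) (hT k)
    have mQ : Measurable (fun ω => ((T k ω, stop (T k ω) (b k ω)) : Piece)) :=
      (hTm k).prodMk (stop_meas.comp ((hTm k).prodMk (hbm k)))
    have h2 : (P.map (fun ω => ((T k ω, stop (T k ω) (b k ω)) : Piece))).prod W =
        (P.prod W).map (Prod.map (fun ω => ((T k ω, stop (T k ω) (b k ω)) : Piece)) id) := by
      rw [← Measure.map_prod_map _ _ mQ measurable_id, Measure.map_id]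
    unfold Good
    rw [h2, Measure.map_map conc_meas (mQ.prodMap measurable_id)]
    have e : (fun p : Piece × Path => conc p.1.1 p.1.2 p.2) ∘
        Prod.map (fun ω => ((T k ω, stop (T k ω) (b k ω)) : Piece)) id =
        fun p : Ω × Path => conc (T k p.1) (b k p.1) p.2 := by
      funext p
      exact conc_stop _ _ _
    rw [e]
    exact h1

end Aux

end Q297.Dec
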