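import Pool.Agent.Q297.DecI

/-!
The main theorem on decomposable processes.
-/

open MeasureTheory ProbabilityTheory Set Filter Topology
open scoped ENNReal NNReal
open Q297.PathC Q297.Prepend Q297.TwoS
open Q297.Win (lam)

namespace Q297.Dec

universe u

section Fin

variable {Ω : Type u} {mΩ : MeasurableSpace Ω} {P : Measure Ω} {W : Measure Path}

lemma bm_of_law' (hW : IsBrownianReal (fun (t : ℝ≥0) (x : Path) => x t) W) {F : Ω → Path}
    (hF : Measurable F) (h : P.map F = W) : IsBrownianReal (fun (t : ℝ≥0) ω => F ω t) P := by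
  refine ⟨⟨fun I => ?_⟩, ae_of_all _ fun ω => (F ω).continuous⟩
  have hm : Measurable (fun x : Path => I.restrict (fun t => x t)) :=
    measurable_pi_lambda _ fun t => measurable_eval t.1
  refine ⟨(hm.comp hF).aemeasurable, ?_⟩
  have h1 := (hW.hasLaw I).map_eq
  rw [← h1, ← h, Measure.map_map hm hF]
  rfl

/-- a shifted process with the law `W2` gives a two-sided Brownian motion -/
lemma two_of_law (hW : IsBrownianReal (fun (t : ℝ≥0) (x : Path) => x t) W) {x : Ω → Path2}
    (hx : Measurable x) {S : Ω → ℝ} (hS : Measurable S)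
    (hlaw : P.map (fun ω => th (S ω) (x ω)) = W2 W) {X : ℝ → Ω → ℝ}
    (hX : ∀ᵐ ω ∂P, ∀ t, x ω t = X t ω) : TwoBM X P := by
  have hWp := isProb hW
  have mth : Measurable (fun ω => th (S ω) (x ω)) := th_meas2.comp (hS.prodMk hx)
  have mf : Measurable (fun ω => fwd (th (S ω) (x ω))) := fwd_meas.comp mth
  have mb : Measurable (fun ω => bwd (th (S ω) (x ω))) := bwd_meas.comp mth
  have lf : P.map (fun ω => fwd (th (S ω) (x ω))) = W := by
    rw [← map_fwd hW, ← hlaw, Measure.map_map fwd_meas mth]; rfl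
  have lb : P.map (fun ω => bwd (th (S ω) (x ω))) = W := by
    rw [← map_bwd hW, ← hlaw, Measure.map_map bwd_meas mth]; rfl
  have lp : P.map (fun ω => (bwd (th (S ω) (x ω)), fwd (th (S ω) (x ω)))) = W.prod W := by
    rw [← map_pair hW, ← hlaw, Measure.map_map (bwd_meas.prodMk fwd_meas) mth]; rfl
  have hind : IndepFun (fun ω => bwd (th (S ω) (x ω))) (fun ω => fwd (th (S ω) (x ω))) P := by
    have hPp : IsProbabilityMeasure P := by
      constructor
      have h1 : (P.map (fun ω => fwd (th (S ω) (x ω)))) univ = 1 := by rw [lf]; exact measure_univ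
      rwa [Measure.map_apply mf MeasurableSet.univ, preimage_univ] at h1
    rw [indepFun_iff_map_prod_eq_prod_map_map mb.aemeasurable mf.aemeasurable, lp, lf, lb]
  have hef : ∀ᵐ ω ∂P, ∀ t : ℝ≥0, fwd (th (S ω) (x ω)) t = X (S ω + t) ω - X (S ω) ω := by
    filter_upwards [hX] with ω hω t
    rw [fwd_th, hω, hω]
  have heb : ∀ᵐ ω ∂P, ∀ t : ℝ≥0, bwd (th (S ω) (x ω)) t = X (S ω - t) ω - X (S ω) ω := by
    filter_upwards [hX] with ω hω t
    rw [bwd_th, hω, hω]
  refine ⟨S, hS, isBM_congr (bm_of_law' hW mf lf) hef, isBM_congr (bm_of_law' hW mb lb) heb, ?_⟩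
  refine (indep_path'.2 hind.symm).congr ?_ ?_
  · filter_upwards [hef] with ω hω
    funext t
    exact hω t
  · filter_upwards [heb] with ω hω
    funext t
    exact hω t

lemma two_of_core (hW : IsBrownianReal (fun (t : ℝ≥0) (x : Path) => x t) W) {μ : Measure Path2}
    [IsProbabilityMeasure μ] {σ : (Path2 × ℝ) × ℝ → ℝ} (hσ : Measurable σ)
    (hlaw : ((μ.prod lam).prod lam).map (fun p => th (σ p) p.1.1) = W2 W)
    {x : Ω → Path2} (hx : Measurable x) {V : Ω → ℝ × ℝ} (hV : Measurable V)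
    (hxV : P.map (fun ω => (x ω, V ω)) = μ.prod (lam.prod lam)) {X : ℝ → Ω → ℝ}
    (hX : ∀ᵐ ω ∂P, ∀ t, x ω t = X t ω) : TwoBM X P := by
  have h1 : P.map (fun ω => ((x ω, (V ω).1), (V ω).2)) = (μ.prod lam).prod lam := by
    have h2 : (μ.prod (lam.prod lam)).map MeasurableEquiv.prodAssoc.symm = (μ.prod lam).prod lam := by
      rw [← Measure.prodAssoc_prod, Measure.map_map MeasurableEquiv.prodAssoc.symm.measurable
        MeasurableEquiv.prodAssoc.measurable, MeasurableEquiv.symm_comp_self, Measure.map_id]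
    rw [← h2, ← hxV, Measure.map_map MeasurableEquiv.prodAssoc.symm.measurable (hx.prodMk hV)]
    rfl
  have m1 : Measurable (fun ω => ((x ω, (V ω).1), (V ω).2)) :=
    (hx.prodMk (measurable_fst.comp hV)).prodMk (measurable_snd.comp hV)
  have m2 : Measurable (fun p : (Path2 × ℝ) × ℝ => th (σ p) p.1.1) :=
    th_meas2.comp (hσ.prodMk (measurable_fst.comp measurable_fst))
  refine two_of_law hW hx (S := fun ω => σ ((x ω, (V ω).1), (V ω).2)) (hσ.comp m1) ?_ hX
  rw [← hlaw, ← h1, Measure.map_map m2 m1]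
  rfl

lemma indep_left {x : Ω → Path2} {V : Ω → ℝ × ℝ} (h : IndepFun (fun ω (t : ℝ) => x ω t) V P) :
    IndepFun x V P := by
  rw [IndepFun_iff_Indep] at h ⊢
  have e : MeasurableSpace.comap x (instMS : MeasurableSpace Path2) =
      MeasurableSpace.comap (fun ω (t : ℝ) => x ω t) MeasurableSpace.pi := by
    rw [instMS_eq, MeasurableSpace.comap_comp]; rfl
  rw [e]
  exact h

/-- the time-reversed path, not recentred -/
def negp (y : Path2) : Path2 := ⟨fun t => y (-t), by fun_prop⟩

lemma negp_meas : Measurable negp := measurable_of_eval fun _ => measurable_eval _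

lemma map_path {x : Ω → Path2} (hx : Measurable x) {X : ℝ → Ω → ℝ}
    (hX : ∀ᵐ ω ∂P, ∀ t, x ω t = X t ω) :
    (P.map x).map (fun (f : Path2) (t : ℝ) => f t) = P.map (fun ω t => X t ω) := by
  rw [Measure.map_map measurable_coe hx]
  refine Measure.map_congr ?_
  filter_upwards [hX] with ω hω
  funext t
  exact hω t

end Fin

/-- **Main theorem.** -/
theorem main {Ω : Type u} [mΩ : MeasurableSpace Ω] (P : Measure Ω) [IsProbabilityMeasure P]
    (X : ℝ → Ω → ℝ) (hm : ∀ t, Measurable (X t)) (hc : ∀ᵐ ω ∂P, Continuous fun t => X t ω)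
    (hX : Decomposable X P)
    (hB : BBM X P ∨ Decomposable (fun t => X (-t)) P ∨ ∃ R : Ω → ℝ, Measurable R ∧
      IsBrownianReal (fun (t : ℝ≥0) ω => X (R ω - t) ω - X (R ω) ω) P) :
    (∀ V : Ω → ℝ × ℝ, Measurable V → P.map V =
      (volume.restrict (Icc (0 : ℝ) 1)).prod (volume.restrict (Icc (0 : ℝ) 1)) →
      IndepFun (fun ω t => X t ω) V P → TwoBM X P) ∧
    TwoBM (fun t (p : Ω × (ℝ × ℝ)) => X t p.1)
      (P.prod ((volume.restrict (Icc (0 : ℝ) 1)).prod (volume.restrict (Icc (0 : ℝ) 1)))) := by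
  obtain ⟨W, hW⟩ := Q297.Bm.exists_wiener
  have hWp := isProb hW
  obtain ⟨x, hxm, hx⟩ := exists_mod2 hm hc
  -- the decomposition
  obtain ⟨U, hU, Ω₁, mΩ₁, P₁, Y, hY, hYX⟩ := hX
  obtain ⟨hP₁, y, S, T, b, hd, hyY, -⟩ := hY.data hW
  have mU : Measurable (fun ω => th (U ω) (x ω)) := th_meas2.comp (hU.prodMk hxm)
  have hlawXY : P.map (fun ω => th (U ω) (x ω)) = P₁.map y := by
    apply measure_ext
    rw [map_path hd.mY hyY, hYX, map_path mU]
    filter_upwards [hx] with ω hω t
    rw [th_apply, hω, hω]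
  -- the backward time
  have hback : ∃ R : Ω → ℝ, Measurable R ∧ P.map (fun ω => bwd (th (R ω) (x ω))) = W := by
    have aux : ∀ R : Ω → ℝ, Measurable R →
        IsPreBrownianReal (fun (t : ℝ≥0) ω => X (R ω - t) ω - X (R ω) ω) P →
        ∃ R : Ω → ℝ, Measurable R ∧ P.map (fun ω => bwd (th (R ω) (x ω))) = W := by
      intro R hR hbm
      refine ⟨R, hR, law_unique1 hW (bwd_meas.comp (th_meas2.comp (hR.prodMk hxm))) ?_⟩
      refine hbm.congr fun t => ?_
      filter_upwards [hx] with ω hω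
      show _ = bwd (th (R ω) (x ω)) t
      rw [bwd_th, hω, hω]
    rcases hB with hB | hB | ⟨R, hR, hbm⟩
    · obtain ⟨S', hS'm, -, hS'⟩ := hB
      refine aux (fun ω => -S' 0 ω) (hS'm 0).neg ?_
      refine (hS' 0).toIsPreBrownianReal.congr fun t => ae_of_all _ fun ω => ?_
      show X (-(S' 0 ω + t)) ω - X (-S' 0 ω) ω = X (-S' 0 ω - t) ω - X (-S' 0 ω) ω
      rw [neg_add, sub_eq_add_neg (-S' 0 ω)]
    · obtain ⟨U', hU', Ω₂, mΩ₂, P₂, Y', hY', hYX'⟩ := hB
      obtain ⟨hP₂, y', S', T', b', hd', hyY', hS0'⟩ := hY'.data hW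
      have mU' : Measurable (fun ω => th (U' ω) (negp (x ω))) :=
        th_meas2.comp (hU'.prodMk (negp_meas.comp hxm))
      have h1 : P.map (fun ω => th (U' ω) (negp (x ω))) = P₂.map y' := by
        apply measure_ext
        rw [map_path hd'.mY hyY', hYX', map_path mU']
        filter_upwards [hx] with ω hω t
        show x ω (-(U' ω + t)) - x ω (-U' ω) = _
        rw [hω, hω]
      have h2 := hd'.law_fwd 0
      have m0 : Measurable (fun z : Path2 => fwd (th 0 z)) := fwd_meas.comp (th_meas 0)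
      have h3 : (P₂.map y').map (fun z => fwd (th 0 z)) = W := by
        rw [Measure.map_map m0 hd'.mY, ← h2]
        congr 1
        funext ω
        simp only [Function.comp, hS0']
      refine ⟨fun ω => -U' ω, hU'.neg, ?_⟩
      rw [← h1, Measure.map_map m0 mU'] at h3
      rw [← h3]
      congr 1
      funext ω
      ext t
      show bwd (th (-U' ω) (x ω)) t = fwd (th 0 (th (U' ω) (negp (x ω)))) t
      rw [bwd_th, fwd_th, th_apply, th_apply]
      show _ = x ω (-(U' ω + (0 + t))) - x ω (-U' ω) - (x ω (-(U' ω + 0)) - x ω (-U' ω))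
      rw [add_zero, sub_self, sub_zero, zero_add, neg_add, ← sub_eq_add_neg]
    · exact aux R hR hbm.toIsPreBrownianReal
  obtain ⟨R, hR, hRlaw⟩ := hback
  obtain ⟨σ, hσ, hσlaw⟩ := core hW hd hxm hU hR hlawXY hRlaw
  have hXp : IsProbabilityMeasure (P.map x) := Measure.isProbabilityMeasure_map hxm.aemeasurable
  constructor
  · intro V hV hVlaw hind
    refine two_of_core hW hσ hσlaw hxm hV ?_ hx
    have h1 : IndepFun x V P := by
      refine indep_left (hind.congr ?_ (ae_eq_refl _))
      filter_upwards [hx] with ω hω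
      funext t
      exact (hω t).symm
    rw [(indepFun_iff_map_prod_eq_prod_map_map hxm.aemeasurable hV.aemeasurable).1 h1, hVlaw]
    rfl
  · refine two_of_core hW hσ hσlaw (x := fun p : Ω × (ℝ × ℝ) => x p.1) (hxm.comp measurable_fst)
      (V := Prod.snd) measurable_snd ?_ ?_
    · have h1 : (fun p : Ω × (ℝ × ℝ) => (x p.1, p.2)) = Prod.map x id := rfl
      have h2 : (P.prod (lam.prod lam)).map (Prod.map x id) = (P.map x).prod (lam.prod lam) := by
        rw [← Measure.map_prod_map _ _ hxm measurable_id, Measure.map_id]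
      exact h2
    · have hl : IsProbabilityMeasure ((volume.restrict (Icc (0 : ℝ) 1)).prod
          (volume.restrict (Icc (0 : ℝ) 1))) := inferInstanceAs (IsProbabilityMeasure (lam.prod lam))
      exact measurePreserving_fst.quasiMeasurePreserving.ae hx

end Q297.Dec
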