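import Pool.Agent.Q297.SpS

/-!
Atoms of span set statistics: Fubini along one increment, the sliding extrema have no atom at zero,
existence of excursions and of an initial interval of lags.
-/

open MeasureTheory ProbabilityTheory Set Filter Topology
open scoped ENNReal NNReal
open Q297.PathC Q297.Prepend Q297.TwoS Q297.Dec Q297.Spn

namespace Q297.Df

/-- the ramp from `s` to `r` -/
noncomputable def rp (s r : ℝ≥0) : Path :=
  ⟨fun t => ov 0 t s r / ((r : ℝ) - s), by unfold ov; fun_prop⟩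

lemma rp_apply (s r t : ℝ≥0) : rp s r t = ov 0 t s r / ((r : ℝ) - s) := rfl

lemma rp_lo {s r t : ℝ≥0} (h : t ≤ s) (hsr : s ≤ r) : rp s r t = 0 := by
  rw [rp_apply, ov_disj (NNReal.coe_nonneg _) (by exact_mod_cast h) (by exact_mod_cast hsr), zero_div]

lemma rp_hi {s r t : ℝ≥0} (h : r ≤ t) (hsr : s < r) : rp s r t = 1 := by
  have h1 : (r : ℝ) ≤ t := by exact_mod_cast h
  have h2 : (s : ℝ) < r := by exact_mod_cast hsr
  have h3 : (0 : ℝ) ≤ s := NNReal.coe_nonneg _
  rw [rp_apply, div_eq_one_iff_eq (by linarith)]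
  unfold ov
  rw [abs_of_nonpos (by linarith : (0 : ℝ) - r ≤ 0), abs_of_nonneg (by linarith : (0 : ℝ) ≤ t - s),
    abs_of_nonpos (by linarith : (0 : ℝ) - s ≤ 0), abs_of_nonneg (by linarith : (0 : ℝ) ≤ t - r)]
  ring

lemma rp_mid {t : ℝ≥0} (h : t ≤ 1) : rp 0 1 t = t := by
  have h1 : (t : ℝ) ≤ 1 := by exact_mod_cast h
  have h3 : (0 : ℝ) ≤ t := NNReal.coe_nonneg _
  rw [rp_apply]
  unfold ov
  push_cast
  rw [abs_of_nonpos (by linarith : (0 : ℝ) - 1 ≤ 0), abs_of_nonneg (by linarith : (0 : ℝ) ≤ t - 0),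
    abs_of_nonpos (by linarith : (t : ℝ) - 1 ≤ 0)]
  simp

/-- coefficients for one increment -/
def k0 : Unit → ℝ := fun _ => 1

/-- the rest of the path when the increment over `[s,r]` is removed -/
noncomputable def rs (s r : ℝ≥0) : Path → Path := rest k0 (fun _ => s) (fun _ => r) (rp s r)

lemma rs_meas (s r : ℝ≥0) : Measurable (rs s r) := rest_meas _ _ _ _

lemma rs_apply (s r t : ℝ≥0) (x : Path) : rs s r x t = x t - (x r - x s) * rp s r t := by
  unfold rs
  rw [rest_apply]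
  simp [fn, k0]

variable {W : Measure Path} (hW : IsBrownianReal (fun (t : ℝ≥0) (x : Path) => x t) W)

include hW

lemma dec1 {s r : ℝ≥0} (hsr : s < r) :
    W.map (fun x => (rs s r x, x r - x s)) = (W.map (rs s r)).prod (gaussianReal 0 (r - s)) := by
  have h2 : (s : ℝ) < r := by exact_mod_cast hsr
  have hc : (((r - s : ℝ≥0)) : ℝ) = r - s := NNReal.coe_sub hsr.le
  have h := dec hW k0 (fun _ => s) (fun _ => r) (V := r - s) (rp s r) (by
    simp only [Finset.univ_unique, Finset.sum_singleton, k0, hc]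
    rw [ov_left h2.le h2.le, min_self]
    ring) (fun t => by
    simp only [Finset.univ_unique, Finset.sum_singleton, k0, hc, rp_apply]
    field_simp [(by linarith : (r : ℝ) - s ≠ 0)])
  have e : (fun x => (rs s r x, x r - x s)) =
      (fun x : Path => (rest k0 (fun _ => s) (fun _ => r) (rp s r) x, fn k0 (fun _ => s) (fun _ => r) x)) := by
    funext x
    simp [fn, k0, rs]
  rw [e]
  exact h

/-- Fubini along the increment over `[s,r]` -/
lemma fubI {s r : ℝ≥0} (hsr : s < r) {A : Set Path} (hA : MeasurableSet A) :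
    W A = ∫⁻ x, gaussianReal 0 (r - s) {θ | rs s r x + θ • rp s r ∈ A} ∂W := by
  have hWp := isProb hW
  have hdec := dec1 hW hsr
  have hQp : IsProbabilityMeasure (W.map (rs s r)) :=
    Measure.isProbabilityMeasure_map (rs_meas s r).aemeasurable
  have mpair : Measurable (fun x : Path => (rs s r x, x r - x s)) :=
    (rs_meas s r).prodMk ((measurable_eval _).sub (measurable_eval _))
  have e2 : W A = ((W.map (rs s r)).prod (gaussianReal 0 (r - s)))
      ((fun p : Path × ℝ => p.1 + p.2 • rp s r) ⁻¹' A) := by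
    rw [← hdec, Measure.map_apply mpair (meas_add_smul (rp s r) hA)]
    congr 1
    ext x
    have : rs s r x + (x r - x s) • rp s r = x := by
      ext t
      simp only [ContinuousMap.add_apply, ContinuousMap.smul_apply, smul_eq_mul, rs_apply]
      ring
    simp only [mem_preimage, this]
  have mF := measurable_measure_prodMk_left (ν := gaussianReal 0 (r - s)) (meas_add_smul (rp s r) hA)
  rw [e2, Measure.prod_apply (meas_add_smul (rp s r) hA), lintegral_map mF (rs_meas s r)]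
  rfl

omit hW in
lemma Mx_rp (β : Path) (θ : ℝ) {u : ℝ≥0} (hu : u ≤ 1) :
    Mx (β + θ • rp 0 1) u = Mx β u + θ * u := by
  have h1 : ∀ s : ℝ≥0, s + u ≤ 1 →
      (β + θ • rp 0 1) (s + u) - (β + θ • rp 0 1) s = (β (s + u) - β s) + θ * u := by
    intro s hs
    simp only [ContinuousMap.add_apply, ContinuousMap.smul_apply, smul_eq_mul]
    rw [rp_mid hs, rp_mid (le_self_add.trans hs)]
    push_cast
    ring
  apply le_antisymm
  · obtain ⟨s, hs, h2⟩ := Mx_att (β + θ • rp 0 1) hu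
    rw [← h2, h1 s hs]
    linarith [Mx_ge (x := β) hs]
  · obtain ⟨s, hs, h2⟩ := Mx_att β hu
    rw [← h2, ← h1 s hs]
    exact Mx_ge hs

lemma ae_Mx {u : ℝ≥0} (hu0 : 0 < u) (hu : u ≤ 1) : ∀ᵐ x ∂W, Mx x u ≠ 0 := by
  have mA : MeasurableSet {x : Path | Mx x u = 0} :=
    (isClosed_eq (Mx_cont1 u) continuous_const).measurableSet
  have h4 : W {x : Path | Mx x u = 0} = 0 := by
    rw [fubI hW (zero_lt_one' ℝ≥0) mA]
    have h5 : ∀ x : Path, gaussianReal 0 (1 - 0) {θ : ℝ | rs 0 1 x + θ • rp 0 1 ∈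
        {x : Path | Mx x u = 0}} = 0 := by
      intro x
      have hna := nullSingletonClass_gaussianReal (μ := 0) (v := 1 - 0) (by norm_num)
      have e : {θ : ℝ | rs 0 1 x + θ • rp 0 1 ∈ {x : Path | Mx x u = 0}} ⊆
          {-Mx (rs 0 1 x) u / u} := by
        intro θ hθ
        simp only [mem_ofPred_eq] at hθ
        rw [Mx_rp _ _ hu] at hθ
        have hu' : (0 : ℝ) < u := by exact_mod_cast hu0
        rw [mem_singleton_iff, eq_div_iff hu'.ne']
        linarith
      exact measure_mono_null e (measure_singleton _)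
    rw [lintegral_congr h5, lintegral_zero]
  exact measure_eq_zero_iff_ae_notMem.1 h4

omit hW in
lemma sc_of {x : Path} {u : ℝ≥0} (h : (u : ℝ) ∈ Sp x) (h1 : Mx x u ≠ 0) (h2 : Mx (ng x) u ≠ 0) :
    SC x u 0 := by
  obtain ⟨s, t, hst, ht, hx, hu⟩ := h
  have e : s + u = t := by
    have : (t : ℝ) = s + u := by linarith
    exact_mod_cast this.symm
  subst e
  have hu1 : u ≤ 1 := le_add_self.trans ht
  have a1 : 0 < Mx x u := by
    have := Mx_ge (x := x) ht
    rw [hx, sub_self] at this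
    exact lt_of_le_of_ne this (Ne.symm h1)
  have a2 : 0 < Mx (ng x) u := by
    have := Mx_ge (x := ng x) ht
    simp only [ng_apply] at this
    rw [hx, sub_self] at this
    exact lt_of_le_of_ne this (Ne.symm h2)
  obtain ⟨s1, hs1, e1⟩ := Mx_att x hu1
  obtain ⟨s2, hs2, e2⟩ := Mx_att (ng x) hu1
  rw [← e1] at a1
  rw [← e2] at a2
  simp only [ng_apply] at a2
  exact ⟨⟨s1, hs1, a1⟩, ⟨s2, hs2, by linarith⟩⟩

/-- a strict excursion of the path inside `[0,1]` -/
def Exc (x : Path) (p q : ℝ≥0) : Prop :=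
  p < q ∧ q ≤ 1 ∧ x p = x q ∧ ∀ u, p < u → u < q → x u ≠ x p

omit hW in
lemma exc_sign {x : Path} {p q : ℝ≥0} (h : Exc x p q) :
    (∀ u, p < u → u < q → x p < x u) ∨ (∀ u, p < u → u < q → x u < x p) := by
  by_contra hc
  push Not at hc
  obtain ⟨⟨u, hu1, hu2, hu3⟩, ⟨v, hv1, hv2, hv3⟩⟩ := hc
  have hco : ContinuousOn (fun t => x t) (Ioo p q) := (by fun_prop : Continuous fun t => x t).continuousOn
  have h3 := isPreconnected_Ioo.intermediate_value (show u ∈ Ioo p q from ⟨hu1, hu2⟩)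
    (show v ∈ Ioo p q from ⟨hv1, hv2⟩) hco
  obtain ⟨w, hw, hw2⟩ := h3 (show x p ∈ Icc (x u) (x v) from ⟨hu3, hv3⟩)
  exact h.2.2.2 w hw.1 hw.2 hw2

omit hW in
lemma Exc.neg {x : Path} {p q : ℝ≥0} (h : Exc x p q) : Exc (ng x) p q := by
  refine ⟨h.1, h.2.1, by simp [h.2.2.1], fun u h1 h2 => ?_⟩
  have := h.2.2.2 u h1 h2
  simpa using this

omit hW in
lemma Sp_neg (x : Path) : Sp (ng x) = Sp x := by
  ext h
  constructor
  · rintro ⟨s, t, h1, h2, h3, h4⟩
    exact ⟨s, t, h1, h2, by simpa using h3, h4⟩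
  · rintro ⟨s, t, h1, h2, h3, h4⟩
    exact ⟨s, t, h1, h2, by simpa using h3, h4⟩

omit hW in
lemma exc_span {x : Path} {p q : ℝ≥0} (h : Exc x p q) {u : ℝ} (h0 : 0 ≤ u) (hu : u ≤ q - p) :
    u ∈ Sp x := by
  have key : ∀ x : Path, Exc x p q → (∀ u, p < u → u < q → x p < x u) → u ∈ Sp x := by
    intro x h hpos
    obtain ⟨u, rfl⟩ : ∃ v : ℝ≥0, u = v := ⟨⟨u, h0⟩, rfl⟩
    have hq1 : (p : ℝ) < q := by exact_mod_cast h.1
    rcases h0.eq_or_lt with h5 | h5
    · exact ⟨0, 0, le_rfl, zero_le, rfl, by rw [← h5]; simp⟩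
    rcases hu.eq_or_lt with h6 | h6
    · exact ⟨p, q, h.1.le, h.2.1, h.2.2.1, h6⟩
    have hu' : u < q - p := by
      rw [← NNReal.coe_lt_coe, NNReal.coe_sub h.1.le]; exact h6
    have huq : u ≤ q := hu'.le.trans tsub_le_self
    have a1 : p + u < q := by
      rw [← NNReal.coe_lt_coe]; push_cast; linarith
    have a2 : p < q - u := by
      rw [← NNReal.coe_lt_coe, NNReal.coe_sub huq]; linarith
    have a3 : q - u < q := by
      rw [← NNReal.coe_lt_coe, NNReal.coe_sub huq]; linarith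
    have a4 : p < p + u := by
      rw [← NNReal.coe_lt_coe]; push_cast; linarith
    refine sc_span (u := u) le_rfl ⟨⟨p, a1.le.trans h.2.1, ?_⟩, ⟨q - u, ?_, ?_⟩⟩
    · linarith [hpos _ a4 a1]
    · rw [tsub_add_cancel_of_le huq]; exact h.2.1
    · rw [tsub_add_cancel_of_le huq, ← h.2.2.1]
      linarith [hpos _ a2 a3]
  rcases exc_sign h with h1 | h1
  · exact key x h h1
  · rw [← Sp_neg]
    exact key (ng x) h.neg (fun u h2 h3 => by simp only [ng_apply]; linarith [h1 u h2 h3])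

/-- distinct values at distinct rational times -/
lemma ae_inj : ∀ᵐ x : Path ∂W, ∀ a b : ℚ, 0 ≤ a → a < b → x (a : ℝ).toNNReal ≠ x (b : ℝ).toNNReal := by
  refine ae_all_iff.2 fun a => ae_all_iff.2 fun b => ?_
  by_cases hc : 0 ≤ a ∧ a < b
  · have h1 : (a : ℝ).toNNReal < (b : ℝ).toNNReal := by
      rw [Real.toNNReal_lt_toNNReal_iff_of_nonneg (by exact_mod_cast hc.1)]
      exact_mod_cast hc.2
    have h2 := null1 hW (e := (b : ℝ).toNNReal - (a : ℝ).toNNReal) (tsub_pos_of_lt h1) (F := fun _ => 0)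
      measurable_const
    have h3 : ∀ᵐ x ∂W, ¬ (x ((b : ℝ).toNNReal - (a : ℝ).toNNReal) = 0) :=
      measure_eq_zero_iff_ae_notMem.1 h2
    have h4 := (map_shift hW (a : ℝ).toNNReal)
    have h5 : MeasurePreserving (shift (a : ℝ).toNNReal) W W := ⟨measurable_shift _, h4⟩
    filter_upwards [h5.quasiMeasurePreserving.ae h3] with x hx _ _ he
    apply hx
    rw [shift_apply, add_tsub_cancel_of_le h1.le, he, sub_self]
  · exact ae_of_all _ fun x h1 h2 => absurd ⟨h1, h2⟩ hc

end Q297.Df
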