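import Pool.Agent.Q297.DfA

/-!
Existence of excursions, the law of the first gap, and the structure of a path whose longest
excursion has a given length.
-/

open MeasureTheory ProbabilityTheory Set Filter Topology
open scoped ENNReal NNReal
open Q297.PathC Q297.Prepend Q297.TwoS Q297.Dec Q297.Spn

namespace Q297.Df

lemma exists_exc {x : Path} (hm : ¬ MonotoneOn x (Icc 0 1)) (ha : ¬ AntitoneOn x (Icc 0 1))
    (hi : ∀ a b : ℚ, 0 ≤ a → a < b → x (a : ℝ).toNNReal ≠ x (b : ℝ).toNNReal) :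
    ∃ p q, Exc x p q := by
  have h1 : ¬ InjOn x (Icc 0 1) := by
    intro h
    rcases ContinuousOn.strictMonoOn_of_injOn_Icc' (zero_le_one' ℝ≥0) x.continuous.continuousOn h with h2 | h2
    · exact hm h2.monotoneOn
    · exact ha h2.antitoneOn
  obtain ⟨s, t, hst, hs, ht, hx⟩ : ∃ s t : ℝ≥0, s < t ∧ s ∈ Icc (0 : ℝ≥0) 1 ∧ t ∈ Icc (0 : ℝ≥0) 1 ∧ x s = x t := by
    unfold InjOn at h1
    push Not at h1
    obtain ⟨s, hs, t, ht, he, hne⟩ := h1
    rcases lt_or_gt_of_ne hne with h | h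
    · exact ⟨s, t, h, hs, ht, he⟩
    · exact ⟨t, s, h, ht, hs, he.symm⟩
  obtain ⟨w, hw1, hw2, hw⟩ : ∃ w, s < w ∧ w < t ∧ x w ≠ x s := by
    have hst' : (s : ℝ) < t := by exact_mod_cast hst
    obtain ⟨a, ha1, ha2⟩ := exists_rat_btwn hst'
    obtain ⟨b, hb1, hb2⟩ := exists_rat_btwn ha2
    have ha0 : (0 : ℝ) ≤ a := (NNReal.coe_nonneg s).trans ha1.le
    have hb0 : (0 : ℝ) ≤ b := ha0.trans hb1.le
    have hab := hi a b (by exact_mod_cast ha0) (by exact_mod_cast hb1)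
    by_cases hc : x (a : ℝ).toNNReal = x s
    · refine ⟨(b : ℝ).toNNReal, ?_, ?_, fun h => hab (hc.trans h.symm)⟩
      · rw [← NNReal.coe_lt_coe, Real.coe_toNNReal _ hb0]; linarith
      · rw [← NNReal.coe_lt_coe, Real.coe_toNNReal _ hb0]; exact hb2
    · refine ⟨(a : ℝ).toNNReal, ?_, ?_, hc⟩
      · rw [← NNReal.coe_lt_coe, Real.coe_toNNReal _ ha0]; exact ha1
      · rw [← NNReal.coe_lt_coe, Real.coe_toNNReal _ ha0]; exact ha2
  have hcl : IsClosed {v : ℝ≥0 | x v = x s} := isClosed_eq (by fun_prop) continuous_const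
  obtain ⟨p, hp1, hp2⟩ := (isCompact_Icc.inter_right hcl :
    IsCompact (Icc s w ∩ {v : ℝ≥0 | x v = x s})).exists_isGreatest ⟨s, ⟨le_rfl, hw1.le⟩, rfl⟩
  obtain ⟨q, hq1, hq2⟩ := (isCompact_Icc.inter_right hcl :
    IsCompact (Icc w t ∩ {v : ℝ≥0 | x v = x s})).exists_isLeast ⟨t, ⟨hw2.le, le_rfl⟩, hx.symm⟩
  have e1 : x p = x s := hp1.2
  have e2 : x q = x s := hq1.2
  have a1 : p < w := lt_of_le_of_ne hp1.1.2 (fun h => hw (h ▸ e1))
  have a2 : w < q := lt_of_le_of_ne hq1.1.1 (fun h => hw (h ▸ e2))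
  refine ⟨p, q, a1.trans a2, hq1.1.2.trans ht.2, e1.trans e2.symm, fun u h1 h2 h3 => ?_⟩
  rw [e1] at h3
  rcases le_total u w with h4 | h4
  · exact absurd (hp2 ⟨⟨hp1.1.1.trans h1.le, h4⟩, h3⟩) (not_le.2 h1)
  · exact absurd (hq2 ⟨⟨h4, h2.le.trans hq1.1.2⟩, h3⟩) (not_le.2 h2)

variable {W : Measure Path} (hW : IsBrownianReal (fun (t : ℝ≥0) (x : Path) => x t) W)

include hW

lemma ae_exc : ∀ᵐ x : Path ∂W, ∃ p q, Exc x p q := by
  have h3 := ae_nice hW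
  filter_upwards [h3, ae_inj hW] with x h1 h2
  refine exists_exc (fun h => h1.mono 0 ?_) (fun h => h1.anti 0 ?_) h2
  · simpa using h
  · simpa using h

/-- the first gap -/
noncomputable def fg (f : ℝ≥0 → ℝ) : ℝ := sInf {t : ℝ | 0 < t ∧ t ∉ Sp f}

omit hW in
lemma Sp_le_one {f : ℝ≥0 → ℝ} {t : ℝ} (h : t ∈ Sp f) : t ≤ 1 := (Sp_sub f h).2

omit hW in
lemma fg_bdd (f : ℝ≥0 → ℝ) : BddBelow {t : ℝ | 0 < t ∧ t ∉ Sp f} := ⟨0, fun _ h => h.1.le⟩

omit hW in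
lemma fg_ne (f : ℝ≥0 → ℝ) : {t : ℝ | 0 < t ∧ t ∉ Sp f}.Nonempty :=
  ⟨2, by norm_num, fun h => by have := Sp_le_one h; norm_num at this⟩

omit hW in
lemma fg_pos {x : Path} {p q : ℝ≥0} (h : Exc x p q) : 0 < fg x := by
  have h1 : (0 : ℝ) < q - p := by
    have : (p : ℝ) < q := by exact_mod_cast h.1
    linarith
  refine h1.trans_le (le_csInf (fg_ne x) fun t ht => ?_)
  by_contra hc
  push Not at hc
  exact ht.2 (exc_span h ht.1.le hc.le)

theorem fg_null (c : ℝ) : ∀ᵐ x : Path ∂W, fg x ≠ c := by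
  have hM : ∀ᵐ x : Path ∂W, 0 < c → c < 1 → Mx x c.toNNReal ≠ 0 ∧ Mx (ng x) c.toNNReal ≠ 0 := by
    by_cases hc : 0 < c ∧ c < 1
    · have h1 := ae_Mx hW (u := c.toNNReal) (Real.toNNReal_pos.2 hc.1) (by
        rw [← NNReal.coe_le_coe, Real.coe_toNNReal _ hc.1.le]; exact_mod_cast hc.2.le)
      have h2 := (ng_mp hW).quasiMeasurePreserving.ae h1
      filter_upwards [h1, h2] with x h3 h4 _ _
      exact ⟨h3, h4⟩
    · exact ae_of_all _ fun x h1 h2 => absurd ⟨h1, h2⟩ hc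
  filter_upwards [hM, ae_exc hW, ae_nice hW] with x h1 ⟨p, q, h2⟩ h3 h4
  have hpos := fg_pos h2
  rw [h4] at hpos
  have hS : IsClosed (Sp (x : ℝ≥0 → ℝ)) := Sp_closed x.continuous
  have hsub : Ioo 0 c ⊆ Sp (x : ℝ≥0 → ℝ) := by
    intro t ht
    by_contra hc
    have : c ≤ t := by
      rw [← h4]
      exact csInf_le (fg_bdd x) ⟨ht.1, hc⟩
    exact absurd ht.2 (not_lt.2 this)
  have hcS : c ∈ Sp (x : ℝ≥0 → ℝ) := by
    have h5 : c ∈ closure (Ioo 0 c) := by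
      rw [closure_Ioo hpos.ne]
      exact ⟨hpos.le, le_rfl⟩
    exact closure_minimal hsub hS h5
  have hc1 : c ≤ 1 := Sp_le_one hcS
  rcases hc1.lt_or_eq with h5 | h5
  · obtain ⟨m1, m2⟩ := h1 hpos h5
    have hcc : ((c.toNNReal : ℝ≥0) : ℝ) = c := Real.coe_toNNReal _ hpos.le
    have h6 := SC_interior (sc_of (x := x) (u := c.toNNReal) (by rw [hcc]; exact hcS) m1 m2)
    rw [hcc, mem_interior_iff_mem_nhds, Metric.mem_nhds_iff] at h6
    obtain ⟨ε, hε, h7⟩ := h6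
    obtain ⟨t, ht, ht2⟩ := exists_lt_of_csInf_lt (fg_ne (x : ℝ≥0 → ℝ))
      (show sInf {t : ℝ | 0 < t ∧ t ∉ Sp (x : ℝ≥0 → ℝ)} < c + ε by
        have : sInf {t : ℝ | 0 < t ∧ t ∉ Sp (x : ℝ≥0 → ℝ)} = c := h4
        linarith)
    have h8 : c ≤ t := by
      rw [← h4]
      exact csInf_le (fg_bdd x) ht
    exact ht.2 (h7 (by rw [Metric.mem_ball, Real.dist_eq, abs_lt]; constructor <;> linarith))
  · subst h5
    obtain ⟨s, t, a1, a2, a3, a4⟩ := hcS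
    have ht1 : (t : ℝ) ≤ 1 := by exact_mod_cast a2
    have hs0 : (0 : ℝ) ≤ s := NNReal.coe_nonneg _
    have e1 : s = 0 := by
      have : (s : ℝ) = 0 := by linarith
      exact_mod_cast this
    have e2 : t = 1 := by
      have : (t : ℝ) = 1 := by linarith
      exact_mod_cast this
    subst e1 e2
    rw [h3.zero] at a3
    exact h3.one a3.symm

/-- the lengths of complete excursions inside `[0,1]` -/
def EL (f : ℝ≥0 → ℝ) : Set ℝ :=
  {l | ∃ p q : ℝ≥0, p < q ∧ q ≤ 1 ∧ f p = f q ∧ (∀ u, p < u → u < q → f u ≠ f p) ∧ l = (q : ℝ) - p}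

/-- the length of the longest complete excursion -/
noncomputable def RR (f : ℝ≥0 → ℝ) : ℝ := sSup (EL f)

omit hW in
lemma EL_bdd (f : ℝ≥0 → ℝ) : BddAbove (EL f) := by
  refine ⟨1, ?_⟩
  rintro l ⟨p, q, -, h, -, -, rfl⟩
  have : (q : ℝ) ≤ 1 := by exact_mod_cast h
  linarith [NNReal.coe_nonneg p]

/-- a weak excursion above its end points -/
def WE (x : Path) (p l : ℝ≥0) : Prop := p + l ≤ 1 ∧ x (p + l) = x p ∧ ∀ v : ℝ≥0, v ≤ l → x p ≤ x (p + v)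

omit hW in
lemma WE_compact (x : Path) : IsCompact {z : ℝ≥0 × ℝ≥0 | WE x z.1 z.2} := by
  have e : {z : ℝ≥0 × ℝ≥0 | WE x z.1 z.2} = {z | z.1 + z.2 ≤ 1} ∩ ({z | x (z.1 + z.2) = x z.1} ∩
      ⋂ v ∈ Icc (0 : ℝ≥0) 1, {z | x z.1 ≤ x (z.1 + v * z.2)}) := by
    ext z
    simp only [WE, mem_ofPred_eq, mem_inter_iff, mem_iInter]
    refine and_congr Iff.rfl (and_congr Iff.rfl ⟨fun h v hv => h _ ?_, fun h v hv => ?_⟩)
    · calc v * z.2 ≤ 1 * z.2 := by gcongr; exact hv.2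
        _ = z.2 := one_mul _
    · rcases eq_or_ne z.2 0 with h0 | h0
      · rw [h0] at hv
        have : v = 0 := le_antisymm hv zero_le
        rw [this, add_zero]
      · have h2 := h (v / z.2) ⟨zero_le, div_le_one_of_le₀ hv zero_le⟩
        rwa [div_mul_cancel₀ _ h0] at h2
  have hcl : IsClosed {z : ℝ≥0 × ℝ≥0 | WE x z.1 z.2} := by
    rw [e]
    refine (isClosed_le (by fun_prop) continuous_const).inter
      ((isClosed_eq (by fun_prop) (by fun_prop)).inter ?_)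
    exact isClosed_biInter fun v _ => isClosed_le (by fun_prop) (by fun_prop)
  refine (isCompact_Icc.prod isCompact_Icc :
    IsCompact (Icc (0 : ℝ≥0) 1 ×ˢ Icc (0 : ℝ≥0) 1)).of_isClosed_subset hcl ?_
  rintro ⟨p, l⟩ ⟨h1, -, -⟩
  exact ⟨⟨zero_le, le_self_add.trans h1⟩, ⟨zero_le, le_add_self.trans h1⟩⟩

omit hW in
lemma exc_WE {x : Path} {p q : ℝ≥0} (h : Exc x p q) (hs : ∀ u, p < u → u < q → x p < x u) :
    WE x p (q - p) := by
  have e : p + (q - p) = q := add_tsub_cancel_of_le h.1.le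
  refine ⟨by rw [e]; exact h.2.1, by rw [e]; exact h.2.2.1.symm, fun v hv => ?_⟩
  have h1 : p + v ≤ q := by
    calc p + v ≤ p + (q - p) := by gcongr
      _ = q := e
  rcases eq_or_ne v 0 with h2 | h2
  · rw [h2, add_zero]
  rcases h1.lt_or_eq with h3 | h3
  · exact (hs _ (lt_add_of_pos_right p (pos_iff_ne_zero.2 h2)) h3).le
  · rw [h3, h.2.2.1]

omit hW in
lemma RR_WE {x : Path} (h : ∃ p q, Exc x p q) {c : ℝ≥0} (hc : RR x = c) :
    (∃ p, WE x p c) ∨ ∃ p, WE (ng x) p c := by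
  set C : Set ℝ := ((fun z : ℝ≥0 × ℝ≥0 => (z.2 : ℝ)) '' {z | WE x z.1 z.2}) ∪
    ((fun z : ℝ≥0 × ℝ≥0 => (z.2 : ℝ)) '' {z | WE (ng x) z.1 z.2}) with hC
  have hcl : IsClosed C := (((WE_compact x).image (by fun_prop)).union
    ((WE_compact (ng x)).image (by fun_prop))).isClosed
  have hsub : EL x ⊆ C := by
    rintro l ⟨p, q, h1, h2, h3, h4, rfl⟩
    have hE : Exc x p q := ⟨h1, h2, h3, h4⟩
    rcases exc_sign hE with h5 | h5
    · exact Or.inl ⟨(p, q - p), exc_WE hE h5, by simp only; rw [NNReal.coe_sub h1.le]⟩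
    · exact Or.inr ⟨(p, q - p), exc_WE hE.neg (fun u a b => by
        simp only [ng_apply]; linarith [h5 u a b]), by simp only; rw [NNReal.coe_sub h1.le]⟩
  have hne : (EL x).Nonempty := by
    obtain ⟨p, q, h1, h2, h3, h4⟩ := h
    exact ⟨_, p, q, h1, h2, h3, h4, rfl⟩
  have h6 : RR x ∈ C := closure_minimal hsub hcl (csSup_mem_closure hne (EL_bdd x))
  rw [hc] at h6
  rcases h6 with ⟨⟨p, l⟩, h7, h8⟩ | ⟨⟨p, l⟩, h7, h8⟩
  · left
    have h9 : (l : ℝ) = c := h8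
    have : l = c := by exact_mod_cast h9
    exact ⟨p, this ▸ h7⟩
  · right
    have h9 : (l : ℝ) = c := h8
    have : l = c := by exact_mod_cast h9
    exact ⟨p, this ▸ h7⟩

omit hW in
/-- a weak excursion which can be left downwards at both sides is shorter than some strict one -/
lemma longer {x : Path} {p c : ℝ≥0} (h : WE x p c) {t1 t2 : ℝ≥0} (h1 : t1 ≤ p) (h1' : x t1 < x p)
    (h2 : p + c ≤ t2) (h2' : x t2 < x p) (ht : t2 ≤ 1) : ∃ p' q', Exc x p' q' ∧ (c : ℝ) < q' - p' := by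
  obtain ⟨hc1, hc2, hc3⟩ := h
  set ℓ : ℝ := max (x t1) (x t2) with hℓ
  have hlt : ℓ < x p := max_lt h1' h2'
  have hcl : IsClosed {v : ℝ≥0 | x v = ℓ} := isClosed_eq (by fun_prop) continuous_const
  have hco : Continuous (fun t : ℝ≥0 => x t) := by fun_prop
  have n1 : (Icc t1 p ∩ {v : ℝ≥0 | x v = ℓ}).Nonempty := by
    have h3 := intermediate_value_Icc h1 hco.continuousOn
    obtain ⟨w, hw, hw2⟩ := h3 (show ℓ ∈ Icc (x t1) (x p) from ⟨le_max_left _ _, hlt.le⟩)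
    exact ⟨w, hw, hw2⟩
  have n2 : (Icc (p + c) t2 ∩ {v : ℝ≥0 | x v = ℓ}).Nonempty := by
    have h3 := intermediate_value_Icc' h2 hco.continuousOn
    obtain ⟨w, hw, hw2⟩ := h3 (show ℓ ∈ Icc (x t2) (x (p + c)) from
      ⟨le_max_right _ _, by rw [hc2]; exact hlt.le⟩)
    exact ⟨w, hw, hw2⟩
  obtain ⟨p', hp1, hp2⟩ := (isCompact_Icc.inter_right hcl).exists_isGreatest n1
  obtain ⟨q', hq1, hq2⟩ := (isCompact_Icc.inter_right hcl).exists_isLeast n2
  have e1 : x p' = ℓ := hp1.2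
  have e2 : x q' = ℓ := hq1.2
  have a1 : p' < p := lt_of_le_of_ne hp1.1.2 (fun h => by rw [h] at e1; linarith)
  have a2 : p + c < q' := lt_of_le_of_ne hq1.1.1 (fun h => by rw [← h, hc2] at e2; linarith)
  refine ⟨p', q', ⟨a1.trans (le_self_add.trans_lt a2), hq1.1.2.trans ht, e1.trans e2.symm,
    fun u h3 h4 h5 => ?_⟩, ?_⟩
  · rw [e1] at h5
    rcases le_total u p with h6 | h6
    · exact absurd (hp2 ⟨⟨hp1.1.1.trans h3.le, h6⟩, h5⟩) (not_le.2 h3)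
    · rcases le_total u (p + c) with h7 | h7
      · have h8 := hc3 (u - p) (tsub_le_iff_left.2 h7)
        rw [add_tsub_cancel_of_le h6, h5] at h8
        linarith
      · exact absurd (hq2 ⟨⟨h7, h4.le.trans hq1.1.2⟩, h5⟩) (not_le.2 h4)
  · have b1 : (p' : ℝ) < p := by exact_mod_cast a1
    have b2 : (p : ℝ) + c < q' := by exact_mod_cast a2
    linarith

/-- first bad event -/
def N1 (c : ℝ≥0) (x : Path) : Prop := ∃ p, WE x p c ∧ ∀ u, u ≤ p + c → x p ≤ x u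
/-- second bad event -/
def N2 (c : ℝ≥0) (x : Path) : Prop := ∃ p, WE x p c ∧ ∀ u, p ≤ u → u ≤ 1 → x p ≤ x u

omit hW in
lemma WE_bad {x : Path} {p c : ℝ≥0} (h : WE x p c) (hc : RR x = c) : N1 c x ∨ N2 c x := by
  by_contra hcon
  rw [not_or] at hcon
  obtain ⟨h1, h2⟩ := hcon
  have h3 : ∃ t1, t1 ≤ p ∧ x t1 < x p := by
    by_contra h4
    push Not at h4
    refine h1 ⟨p, h, fun u hu => ?_⟩
    rcases le_total u p with h5 | h5
    · exact h4 u h5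
    · have := h.2.2 (u - p) (tsub_le_iff_left.2 hu)
      rwa [add_tsub_cancel_of_le h5] at this
  have h4 : ∃ t2, p + c ≤ t2 ∧ t2 ≤ 1 ∧ x t2 < x p := by
    by_contra h4
    push Not at h4
    refine h2 ⟨p, h, fun u hu hu1 => ?_⟩
    rcases le_total u (p + c) with h5 | h5
    · have := h.2.2 (u - p) (tsub_le_iff_left.2 h5)
      rwa [add_tsub_cancel_of_le hu] at this
    · exact h4 u h5 hu1
  obtain ⟨t1, a1, a2⟩ := h3
  obtain ⟨t2, b1, b2, b3⟩ := h4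
  obtain ⟨p', q', h5, h6⟩ := longer h a1 a2 b1 b3 b2
  have h7 : (q' : ℝ) - p' ≤ RR x :=
    le_csSup (EL_bdd x) ⟨p', q', h5.1, h5.2.1, h5.2.2.1, h5.2.2.2, rfl⟩
  rw [hc] at h7
  linarith

omit hW in
lemma EL_neg (x : Path) : EL (ng x) = EL x := by
  ext l
  constructor
  · rintro ⟨p, q, h1, h2, h3, h4, h5⟩
    exact ⟨p, q, h1, h2, by simpa using h3, fun u a b => by simpa using h4 u a b, h5⟩
  · rintro ⟨p, q, h1, h2, h3, h4, h5⟩
    exact ⟨p, q, h1, h2, by simpa using h3, fun u a b => by simpa using h4 u a b, h5⟩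

omit hW in
lemma RR_bad {x : Path} (h : ∃ p q, Exc x p q) {c : ℝ≥0} (hc : RR x = c) :
    (N1 c x ∨ N2 c x) ∨ (N1 c (ng x) ∨ N2 c (ng x)) := by
  rcases RR_WE h hc with ⟨p, h1⟩ | ⟨p, h1⟩
  · exact Or.inl (WE_bad h1 hc)
  · exact Or.inr (WE_bad h1 (by unfold RR; rw [EL_neg]; exact hc))

omit hW in
lemma RR_pos {x : Path} (h : ∃ p q, Exc x p q) : 0 < RR x := by
  obtain ⟨p, q, h1, h2, h3, h4⟩ := h
  have h5 : (q : ℝ) - p ≤ RR x := le_csSup (EL_bdd x) ⟨p, q, h1, h2, h3, h4, rfl⟩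
  have : (p : ℝ) < q := by exact_mod_cast h1
  linarith

end Q297.Df
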