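import Pool.Agent.Q297.DfB

/-!
The law of the length of the longest complete excursion has no atoms.
-/

open MeasureTheory ProbabilityTheory Set Filter Topology
open scoped ENNReal NNReal
open Q297.PathC Q297.Prepend Q297.TwoS Q297.Dec Q297.Spn

namespace Q297.Df

variable {W : Measure Path} (hW : IsBrownianReal (fun (t : ℝ≥0) (x : Path) => x t) W)

include hW

lemma ae_lo {a b c d : ℝ≥0} (hbc : b < c) (hcd : c ≤ d) :
    ∀ᵐ x : Path ∂W, ∀ v, IsLeast (x '' Icc a b) v → ¬ IsLeast (x '' Icc c d) v := by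
  have he : 0 < c - b := tsub_pos_of_lt hbc
  have hbe : b + (c - b) = c := add_tsub_cancel_of_le hbc.le
  have h := null3 hW b he (loF_meas 0 (d - c)) ((loF_meas a b).sub (measurable_eval b))
  rw [hbe] at h
  have h' : ∀ᵐ x ∂W, ¬ ((x c - x b) + loF 0 (d - c) (shift c x) =
      (loF a b - fun x : Path => x b) (stop b x)) := measure_eq_zero_iff_ae_notMem.1 h
  filter_upwards [h'] with x hx v hv1 hv2
  apply hx
  rw [shift_least hcd hv2]
  simp only [Pi.sub_apply, stop_apply, min_self]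
  have : loF a b (stop b x) = v := by
    unfold loF
    rw [stop_image]
    exact hv1.csInf_eq
  rw [this]
  ring

/-- the minimum over `[0,r]` is attained once -/
lemma ae_arg (r : ℝ≥0) : ∀ᵐ x : Path ∂W, ∀ p z : ℝ≥0, p < z → z ≤ r → x p = x z →
    ¬ ∀ s, s ≤ r → x p ≤ x s := by
  have h : ∀ᵐ x : Path ∂W, ∀ b c : ℚ, 0 ≤ b → b < c → (c : ℝ).toNNReal ≤ r →
      ∀ v, IsLeast (x '' Icc 0 (b : ℝ).toNNReal) v → ¬ IsLeast (x '' Icc (c : ℝ).toNNReal r) v := by
    refine ae_all_iff.2 fun b => ae_all_iff.2 fun c => ?_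
    by_cases hc : 0 ≤ b ∧ b < c ∧ (c : ℝ).toNNReal ≤ r
    · have h1 : (b : ℝ).toNNReal < (c : ℝ).toNNReal := by
        rw [Real.toNNReal_lt_toNNReal_iff_of_nonneg (by exact_mod_cast hc.1)]
        exact_mod_cast hc.2.1
      filter_upwards [ae_lo hW (a := 0) h1 hc.2.2] with x hx _ _ _
      exact hx
    · exact ae_of_all _ fun x h1 h2 h3 => absurd ⟨h1, h2, h3⟩ hc
  filter_upwards [h] with x hx p z hpz hz he hmin
  have hst' : (p : ℝ) < z := by exact_mod_cast hpz
  obtain ⟨b, hb1, hb2⟩ := exists_rat_btwn hst'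
  obtain ⟨c, hc1, hc2⟩ := exists_rat_btwn hb2
  have hb0 : (0 : ℝ) ≤ b := (NNReal.coe_nonneg p).trans hb1.le
  have hc0 : (0 : ℝ) ≤ c := hb0.trans hc1.le
  have c1 : p ≤ (b : ℝ).toNNReal := by
    rw [← NNReal.coe_le_coe, Real.coe_toNNReal _ hb0]; exact hb1.le
  have c2 : (c : ℝ).toNNReal ≤ z := by
    rw [← NNReal.coe_le_coe, Real.coe_toNNReal _ hc0]; exact hc2.le
  have c3 : (b : ℝ).toNNReal ≤ z := by
    rw [← NNReal.coe_le_coe, Real.coe_toNNReal _ hb0]; exact hb2.le
  refine hx b c (by exact_mod_cast hb0) (by exact_mod_cast hc1) (c2.trans hz) (x p) ?_ ?_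
  · refine ⟨⟨p, ⟨zero_le, c1⟩, rfl⟩, ?_⟩
    rintro _ ⟨s, hs, rfl⟩
    exact hmin s (hs.2.trans (c3.trans hz))
  · refine ⟨⟨z, ⟨c2, hz⟩, he.symm⟩, ?_⟩
    rintro _ ⟨s, hs, rfl⟩
    exact hmin s hs.2

omit hW in
lemma closed_ex2 {K : Set ℝ≥0} (hK : IsCompact K) {C : Set ((Path × Path) × ℝ≥0)} (hC : IsClosed C) :
    IsClosed {x : Path × Path | ∃ s ∈ K, (x, s) ∈ C} := by
  have hc : CompactSpace K := isCompact_iff_compactSpace.1 hK
  have h1 : IsClosed {p : (Path × Path) × K | (p.1, (p.2 : ℝ≥0)) ∈ C} :=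
    hC.preimage (by fun_prop)
  have h2 := isClosedMap_fst_of_compactSpace (X := Path × Path) (Y := K) _ h1
  convert h2 using 1
  ext x
  simp only [mem_ofPred_eq, mem_image, Prod.exists, exists_and_right, exists_eq_right, Subtype.exists,
    exists_prop]

/-- first event in the product space -/
def E1 (r ε c : ℝ≥0) : Set (Path × Path) := {P | ∃ p ∈ Icc 0 r, r + ε ≤ p + c ∧
  (∀ s, s ≤ r → P.1 p ≤ P.1 s) ∧ P.2 (p + c - r) = P.1 p - P.1 r}

/-- second event in the product space -/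
def E2 (r ε c : ℝ≥0) : Set (Path × Path) := {P | ∃ q ∈ Icc r 1, c ≤ q ∧ q + ε ≤ c + r ∧
  (∀ s, r ≤ s → s ≤ 1 → P.2 (q - r) ≤ P.2 (s - r)) ∧ P.1 (q - c) - P.1 r = P.2 (q - r)}

omit hW in
lemma E1_closed (r ε c : ℝ≥0) : IsClosed (E1 r ε c) := by
  have h := closed_ex2 (K := Icc 0 r) isCompact_Icc (C := {z : (Path × Path) × ℝ≥0 | r + ε ≤ z.2 + c} ∩
    ((⋂ s, ⋂ (_ : s ≤ r), {z : (Path × Path) × ℝ≥0 | z.1.1 z.2 ≤ z.1.1 s}) ∩
      {z : (Path × Path) × ℝ≥0 | z.1.2 (z.2 + c - r) = z.1.1 z.2 - z.1.1 r}))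
    ((isClosed_le (by fun_prop) (by fun_prop)).inter
      ((isClosed_iInter fun s => isClosed_iInter fun _ => isClosed_le (by fun_prop) (by fun_prop)).inter
        (isClosed_eq (by fun_prop) (by fun_prop))))
  convert h using 1
  ext P
  simp only [E1, mem_ofPred_eq, mem_inter_iff, mem_iInter]

omit hW in
lemma E2_closed (r ε c : ℝ≥0) : IsClosed (E2 r ε c) := by
  have h := closed_ex2 (K := Icc r 1) isCompact_Icc (C := {z : (Path × Path) × ℝ≥0 | c ≤ z.2} ∩
    ({z : (Path × Path) × ℝ≥0 | z.2 + ε ≤ c + r} ∩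
    ((⋂ s, ⋂ (_ : r ≤ s), ⋂ (_ : s ≤ 1), {z : (Path × Path) × ℝ≥0 | z.1.2 (z.2 - r) ≤ z.1.2 (s - r)}) ∩
      {z : (Path × Path) × ℝ≥0 | z.1.1 (z.2 - c) - z.1.1 r = z.1.2 (z.2 - r)})))
    ((isClosed_le (by fun_prop) (by fun_prop)).inter ((isClosed_le (by fun_prop) (by fun_prop)).inter
      ((isClosed_iInter fun s => isClosed_iInter fun _ => isClosed_iInter fun _ =>
        isClosed_le (by fun_prop) (by fun_prop)).inter
        (isClosed_eq (by fun_prop) (by fun_prop)))))
  convert h using 1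
  ext P
  simp only [E2, mem_ofPred_eq, mem_inter_iff, mem_iInter]

lemma null_E1 (r : ℝ≥0) {ε : ℝ≥0} (hε : 0 < ε) (c : ℝ≥0) :
    ∀ᵐ x : Path ∂W, (stop r x, shift r x) ∉ E1 r ε c := by
  have hWp := isProb hW
  have ms : Measurable (fun z : Path => (stop r z, shift r z)) :=
    (stop_meas1 r).prodMk (measurable_shift r)
  have mE := (E1_closed r ε c).measurableSet
  have hp : IsProbabilityMeasure (W.map (stop r)) :=
    Measure.isProbabilityMeasure_map (stop_meas1 r).aemeasurable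
  have h0 : W {x : Path | (stop r x, shift r x) ∈ E1 r ε c} = 0 := by
    have e1 : {x : Path | (stop r x, shift r x) ∈ E1 r ε c} =
      (fun z : Path => (stop r z, shift r z)) ⁻¹' (E1 r ε c) := rfl
    rw [e1, ← Measure.map_apply ms mE, stop_shift hW r, Measure.prod_apply mE,
      lintegral_map (measurable_measure_prodMk_left mE) (stop_meas1 r)]
    have hz : ∀ᵐ x : Path ∂W, W (Prod.mk (stop r x) ⁻¹' (E1 r ε c)) = 0 := ?_
    · rw [lintegral_congr_ae hz, lintegral_zero]
    filter_upwards [ae_arg hW r] with x hx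
    show W {w | (stop r x, w) ∈ E1 r ε c} = 0
    rcases eq_empty_or_nonempty {w | (stop r x, w) ∈ E1 r ε c} with h | ⟨w0, p0, hp0, hp1, hp2, hp3⟩
    · rw [h, measure_empty]
    · have hpos : 0 < p0 + c - r := by
        rw [tsub_pos_iff_lt]
        exact (lt_add_of_pos_right r hε).trans_le hp1
      refine measure_mono_null ?_ (W_ev hW hpos (x p0 - x r))
      rintro w ⟨p1, hq0, hq1, hq2, hq3⟩
      simp only [stop_apply, min_self] at hp2 hq2 hq3
      have e : p1 = p0 := by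
        rw [min_eq_left hp0.2] at hp2
        rw [min_eq_left hq0.2] at hq2
        have v : x p0 = x p1 := by
          have a1 := hp2 p1 hq0.2
          rw [min_eq_left hq0.2] at a1
          have a2 := hq2 p0 hp0.2
          rw [min_eq_left hp0.2] at a2
          exact le_antisymm a1 a2
        rcases lt_trichotomy p0 p1 with h | h | h
        · exfalso
          refine hx p0 p1 h hq0.2 v fun s hs => ?_
          have := hp2 s hs
          rwa [min_eq_left hs] at this
        · exact h.symm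
        · exfalso
          refine hx p1 p0 h hp0.2 v.symm fun s hs => ?_
          have := hq2 s hs
          rwa [min_eq_left hs] at this
      subst e
      show w (p1 + c - r) = _
      rw [hq3, min_eq_left hq0.2]
  exact measure_eq_zero_iff_ae_notMem.1 h0

lemma W_inc {s r : ℝ≥0} (h : s < r) (v : ℝ) : W {x : Path | x s - x r = v} = 0 := by
  have h1 : W {z : Path | z (r - s) = -v} = 0 := W_ev hW (tsub_pos_of_lt h) (-v)
  have h5 : MeasurePreserving (shift s) W W := ⟨measurable_shift _, map_shift hW s⟩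
  have h6 := h5.quasiMeasurePreserving.preimage_null h1
  refine measure_mono_null ?_ h6
  intro x hx
  show shift s x (r - s) = -v
  rw [shift_apply, add_tsub_cancel_of_le h.le]
  have : x s - x r = v := hx
  linarith

lemma null_E2 (r : ℝ≥0) {ε : ℝ≥0} (hε : 0 < ε) (c : ℝ≥0) :
    ∀ᵐ x : Path ∂W, (stop r x, shift r x) ∉ E2 r ε c := by
  have hWp := isProb hW
  have ms : Measurable (fun z : Path => (stop r z, shift r z)) :=
    (stop_meas1 r).prodMk (measurable_shift r)
  have mE := (E2_closed r ε c).measurableSet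
  have hp : IsProbabilityMeasure (W.map (stop r)) :=
    Measure.isProbabilityMeasure_map (stop_meas1 r).aemeasurable
  have h0 : W {x : Path | (stop r x, shift r x) ∈ E2 r ε c} = 0 := by
    have e1 : {x : Path | (stop r x, shift r x) ∈ E2 r ε c} =
      (fun z : Path => (stop r z, shift r z)) ⁻¹' (E2 r ε c) := rfl
    rw [e1, ← Measure.map_apply ms mE, stop_shift hW r, Measure.prod_apply_symm mE]
    rw [lintegral_eq_zero_iff (measurable_measure_prodMk_right mE)]
    filter_upwards [ae_arg hW (1 - r)] with w hx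
    show (W.map (stop r)) ((fun y => (y, w)) ⁻¹' (E2 r ε c)) = 0
    rw [Measure.map_apply (stop_meas1 r) (measurable_prodMk_right mE)]
    rcases eq_empty_or_nonempty (stop r ⁻¹' ((fun y => (y, w)) ⁻¹' (E2 r ε c))) with
      h | ⟨y0, q0, hp0, hp1, hp2, hp3, hp4⟩
    · rw [h, measure_empty]
    · have hlt : q0 - c < r := by
        rw [tsub_lt_iff_left hp1]
        exact (lt_add_of_pos_right q0 hε).trans_le hp2
      refine measure_mono_null ?_ (W_inc hW hlt (w (q0 - r)))
      rintro y ⟨q1, hq0, hq1, hq2, hq3, hq4⟩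
      simp only [stop_apply, min_self] at hq4 hp3 hq3
      have a1 : q0 - r ≤ 1 - r := by gcongr; exact hp0.2
      have a2 : q1 - r ≤ 1 - r := by gcongr; exact hq0.2
      have g0 : ∀ s, s ≤ 1 - r → w (q0 - r) ≤ w s := by
        intro s hs
        have h1 : r ≤ 1 := hp0.1.trans hp0.2
        have h2 : r + s ≤ 1 := by
          calc r + s ≤ r + (1 - r) := by gcongr
            _ = 1 := add_tsub_cancel_of_le h1
        have h3 := hp3 (r + s) le_self_add h2
        rwa [add_tsub_cancel_left] at h3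
      have g1 : ∀ s, s ≤ 1 - r → w (q1 - r) ≤ w s := by
        intro s hs
        have h1 : r ≤ 1 := hp0.1.trans hp0.2
        have h2 : r + s ≤ 1 := by
          calc r + s ≤ r + (1 - r) := by gcongr
            _ = 1 := add_tsub_cancel_of_le h1
        have h3 := hq3 (r + s) le_self_add h2
        rwa [add_tsub_cancel_left] at h3
      have e : q1 = q0 := by
        have v : w (q0 - r) = w (q1 - r) := le_antisymm (g0 _ a2) (g1 _ a1)
        rcases lt_trichotomy (q0 - r) (q1 - r) with h | h | h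
        · exact absurd g0 (hx _ _ h a2 v)
        · rw [← add_tsub_cancel_of_le hp0.1, h, add_tsub_cancel_of_le hq0.1]
        · exact absurd g1 (hx _ _ h a1 v.symm)
      subst e
      show y (q1 - c) - y r = _
      rw [← hq4, min_eq_left hlt.le]
  exact measure_eq_zero_iff_ae_notMem.1 h0

omit hW in
lemma rat_between {a b : ℝ≥0} (h : a < b) : ∃ q : ℚ, a < (q : ℝ).toNNReal ∧ (q : ℝ).toNNReal < b := by
  have h' : (a : ℝ) < b := by exact_mod_cast h
  obtain ⟨q, h1, h2⟩ := exists_rat_btwn h'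
  have h0 : (0 : ℝ) ≤ q := (NNReal.coe_nonneg a).trans h1.le
  refine ⟨q, ?_, ?_⟩
  · rw [← NNReal.coe_lt_coe, Real.coe_toNNReal _ h0]; exact h1
  · rw [← NNReal.coe_lt_coe, Real.coe_toNNReal _ h0]; exact h2

omit hW in
lemma exists_eps {a b : ℝ≥0} (h : a < b) : ∃ n : ℕ, a + 1 / ((n : ℝ≥0) + 1) ≤ b := by
  have h' : (0 : ℝ) < b - a := by
    have : (a : ℝ) < b := by exact_mod_cast h
    linarith
  obtain ⟨n, hn⟩ := exists_nat_one_div_lt h'
  refine ⟨n, ?_⟩
  rw [← NNReal.coe_le_coe]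
  push_cast
  linarith

lemma N1_null {c : ℝ≥0} (hc : 0 < c) : ∀ᵐ x : Path ∂W, ¬ N1 c x := by
  have h : ∀ᵐ x : Path ∂W, ∀ (q : ℚ) (n : ℕ), (stop (q : ℝ).toNNReal x, shift (q : ℝ).toNNReal x) ∉
      E1 (q : ℝ).toNNReal (1 / ((n : ℝ≥0) + 1)) c :=
    ae_all_iff.2 fun q => ae_all_iff.2 fun n => null_E1 hW _ (by positivity) c
  filter_upwards [h] with x hx
  rintro ⟨p, ⟨h1, h2, h3⟩, h4⟩
  obtain ⟨q, hq1, hq2⟩ := rat_between (lt_add_of_pos_right p hc)
  obtain ⟨n, hn⟩ := exists_eps hq2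
  set r : ℝ≥0 := (q : ℝ).toNNReal with hr
  refine hx q n ⟨p, ⟨zero_le, hq1.le⟩, hn, fun s hs => ?_, ?_⟩
  · simp only [stop_apply]
    rw [min_eq_left hq1.le, min_eq_left hs]
    exact h4 s (hs.trans hq2.le)
  · simp only [stop_apply, shift_apply, min_self]
    rw [min_eq_left hq1.le, add_tsub_cancel_of_le hq2.le, h2]

lemma N2_null {c : ℝ≥0} (hc : 0 < c) : ∀ᵐ x : Path ∂W, ¬ N2 c x := by
  have h : ∀ᵐ x : Path ∂W, ∀ (q : ℚ) (n : ℕ), (stop (q : ℝ).toNNReal x, shift (q : ℝ).toNNReal x) ∉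
      E2 (q : ℝ).toNNReal (1 / ((n : ℝ≥0) + 1)) c :=
    ae_all_iff.2 fun q => ae_all_iff.2 fun n => null_E2 hW _ (by positivity) c
  filter_upwards [h] with x hx
  rintro ⟨p, ⟨h1, h2, h3⟩, h4⟩
  obtain ⟨q, hq1, hq2⟩ := rat_between (lt_add_of_pos_right p hc)
  obtain ⟨n, hn⟩ := exists_eps hq1
  set r : ℝ≥0 := (q : ℝ).toNNReal with hr
  refine hx q n ⟨p + c, ⟨hq2.le, h1⟩, le_add_self, ?_, fun s hs hs1 => ?_, ?_⟩
  · calc p + c + 1 / ((n : ℝ≥0) + 1) = c + (p + 1 / ((n : ℝ≥0) + 1)) := by ring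
      _ ≤ c + r := by gcongr
  · simp only [shift_apply]
    rw [add_tsub_cancel_of_le hq2.le, add_tsub_cancel_of_le hs, h2]
    exact sub_le_sub_right (h4 s (hq1.le.trans hs) hs1) _
  · simp only [stop_apply, shift_apply, min_self]
    rw [add_tsub_cancel_right, min_eq_left hq1.le, add_tsub_cancel_of_le hq2.le, h2]

/-- the longest excursion has no atoms -/
theorem RR_null (c : ℝ) : ∀ᵐ x : Path ∂W, RR x ≠ c := by
  rcases le_or_gt c 0 with hc | hc
  · filter_upwards [ae_exc hW] with x hx h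
    have := RR_pos hx
    linarith
  · have hc' : 0 < c.toNNReal := Real.toNNReal_pos.2 hc
    have h1 := N1_null hW hc'
    have h2 := N2_null hW hc'
    have h3 := (ng_mp hW).quasiMeasurePreserving.ae h1
    have h4 := (ng_mp hW).quasiMeasurePreserving.ae h2
    filter_upwards [h1, h2, h3, h4, ae_exc hW] with x a1 a2 a3 a4 a5 a6
    have h5 : RR x = (c.toNNReal : ℝ≥0) := by rw [a6, Real.coe_toNNReal _ hc.le]
    rcases RR_bad a5 h5 with (h | h) | (h | h)
    · exact a1 h
    · exact a2 h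
    · exact a3 h
    · exact a4 h

end Q297.Df
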