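import Pool.Agent.Q297.DfC

/-!
The measure of the lags inside `[0,t]`: measurability, scaling, monotonicity, and the derivative in
`t` on the set where it equals `c t`.
-/

open MeasureTheory ProbabilityTheory Set Filter Topology
open scoped ENNReal NNReal Pointwise
open Q297.PathC Q297.Prepend Q297.TwoS Q297.Dec Q297.Spn

namespace Q297.Df

/-- the lags of repetitions inside `[0,t]` -/
def ST (t : ℝ≥0) (f : ℝ≥0 → ℝ) : Set ℝ :=
  {h | ∃ s s' : ℝ≥0, s ≤ s' ∧ s' ≤ t ∧ f s = f s' ∧ h = (s' : ℝ) - s}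

lemma ST_one (f : ℝ≥0 → ℝ) : ST 1 f = Sp f := rfl

/-- the measure of the lags inside `[0,t]` -/
noncomputable def sr (t : ℝ≥0) (f : ℝ≥0 → ℝ) : ℝ := (volume (ST t f)).toReal

lemma ST_sub (t : ℝ≥0) (f : ℝ≥0 → ℝ) : ST t f ⊆ Icc 0 (t : ℝ) := by
  rintro _ ⟨s, s', h1, h2, -, rfl⟩
  have a1 : (s : ℝ) ≤ s' := by exact_mod_cast h1
  have a2 : (s' : ℝ) ≤ t := by exact_mod_cast h2
  exact ⟨by linarith, by linarith [NNReal.coe_nonneg s]⟩

lemma ST_fin (t : ℝ≥0) (f : ℝ≥0 → ℝ) : volume (ST t f) ≠ ⊤ := by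
  refine ne_top_of_le_ne_top ?_ (measure_mono (ST_sub t f))
  rw [Real.volume_Icc]
  exact ENNReal.ofReal_ne_top

lemma ST_mono {t t' : ℝ≥0} (h : t ≤ t') (f : ℝ≥0 → ℝ) : ST t f ⊆ ST t' f := by
  rintro _ ⟨s, s', h1, h2, h3, rfl⟩
  exact ⟨s, s', h1, h2.trans h, h3, rfl⟩

lemma sr_mono {t t' : ℝ≥0} (h : t ≤ t') (f : ℝ≥0 → ℝ) : sr t f ≤ sr t' f :=
  ENNReal.toReal_mono (ST_fin t' f) (measure_mono (ST_mono h f))

/-- scaling -/
lemma ST_sc {t : ℝ≥0} (ht : t ≠ 0) (u : ℝ≥0) (x : Path) : ST (t * u) x = (t : ℝ) • ST u (sc t x) := by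
  have ht' : (0 : ℝ) < t := by positivity
  have hs : (√(t : ℝ))⁻¹ ≠ 0 := by positivity
  ext h
  rw [mem_smul_set]
  constructor
  · rintro ⟨s, s', h1, h2, h3, rfl⟩
    refine ⟨(s' / t : ℝ≥0) - (s / t : ℝ≥0), ⟨s / t, s' / t, by gcongr, ?_, ?_, rfl⟩, ?_⟩
    · rw [div_le_iff₀ (pos_iff_ne_zero.2 ht), mul_comm]
      exact h2
    · simp only [sc_apply]
      rw [mul_div_cancel₀ _ ht, mul_div_cancel₀ _ ht, h3]
    · push_cast
      rw [smul_eq_mul]
      field_simp
  · rintro ⟨_, ⟨s, s', h1, h2, h3, rfl⟩, rfl⟩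
    refine ⟨t * s, t * s', by gcongr, by gcongr, ?_, ?_⟩
    · simp only [sc_apply] at h3
      exact mul_left_cancel₀ hs h3
    · push_cast
      rw [smul_eq_mul]
      ring

lemma sr_sc {t : ℝ≥0} (ht : t ≠ 0) (u : ℝ≥0) (x : Path) : sr (t * u) x = t * sr u (sc t x) := by
  unfold sr
  rw [ST_sc ht, Measure.addHaar_smul]
  simp only [Module.finrank_self, pow_one, NNReal.abs_eq]
  rw [ENNReal.toReal_mul]
  simp

lemma closed_exX {X : Type*} [TopologicalSpace X] {K : Set ℝ≥0} (hK : IsCompact K)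
    {C : Set (X × ℝ≥0)} (hC : IsClosed C) : IsClosed {x : X | ∃ s ∈ K, (x, s) ∈ C} := by
  have hc : CompactSpace K := isCompact_iff_compactSpace.1 hK
  have h1 : IsClosed {p : X × K | (p.1, (p.2 : ℝ≥0)) ∈ C} :=
    hC.preimage (by fun_prop)
  have h2 := isClosedMap_fst_of_compactSpace (X := X) (Y := K) _ h1
  convert h2 using 1
  ext x
  simp only [mem_ofPred_eq, mem_image, Prod.exists, exists_and_right, exists_eq_right, Subtype.exists,
    exists_prop]

lemma mem_ST {t : ℝ≥0} {f : ℝ≥0 → ℝ} {h : ℝ} : h ∈ ST t f ↔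
    0 ≤ h ∧ ∃ s ∈ Icc (0 : ℝ≥0) t, s + h.toNNReal ≤ t ∧ f s = f (s + h.toNNReal) := by
  constructor
  · rintro ⟨s, s', h1, h2, h3, rfl⟩
    have a1 : (s : ℝ) ≤ s' := by exact_mod_cast h1
    have e : ((s' : ℝ) - s).toNNReal = s' - s := by
      rw [← NNReal.coe_inj, Real.coe_toNNReal _ (by linarith), NNReal.coe_sub h1]
    refine ⟨by linarith, s, ⟨zero_le, h1.trans h2⟩, ?_, ?_⟩
    · rw [e, add_tsub_cancel_of_le h1]; exact h2
    · rw [e, add_tsub_cancel_of_le h1]; exact h3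
  · rintro ⟨h0, s, -, h2, h3⟩
    refine ⟨s, s + h.toNNReal, le_self_add, h2, h3, ?_⟩
    push_cast
    rw [Real.coe_toNNReal _ h0]
    ring

/-- joint closedness -/
lemma ST_closed (t : ℝ≥0) : IsClosed {p : Path × ℝ | p.2 ∈ ST t p.1} := by
  have h := closed_exX (X := Path × ℝ) (K := Icc (0 : ℝ≥0) t) isCompact_Icc
    (C := {z : (Path × ℝ) × ℝ≥0 | z.2 + z.1.2.toNNReal ≤ t} ∩
      {z : (Path × ℝ) × ℝ≥0 | z.1.1 z.2 = z.1.1 (z.2 + z.1.2.toNNReal)})
    ((isClosed_le (by fun_prop) (by fun_prop)).inter (isClosed_eq (by fun_prop) (by fun_prop)))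
  have h2 : IsClosed {p : Path × ℝ | 0 ≤ p.2} := isClosed_le (by fun_prop) (by fun_prop)
  convert h2.inter h using 1
  ext p
  simp only [mem_ofPred_eq, mem_inter_iff]
  rw [mem_ST]

lemma sr_meas (t : ℝ≥0) : Measurable (fun x : Path => sr t x) := by
  have h := measurable_measure_prodMk_left (ν := (volume : Measure ℝ)) (ST_closed t).measurableSet
  exact h.ennreal_toReal

/-- derivative of a monotone function at the points where it agrees with a line -/
lemma dens {F : ℝ → ℝ} (hF : Monotone F) (c : ℝ) : ∀ᵐ t, F t = c * t → HasDerivAt F c t := by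
  set A : Set ℝ := {t | F t = c * t} with hA
  have h1 := hF.ae_differentiableAt
  have h2 : volume {t ∈ A | 𝓝[A ∩ Ioi t] t = ⊥} = 0 :=
    (countable_setOfPred_isolated_right_within (s := A)).measure_zero _
  have h3 : ∀ᵐ t : ℝ, t ∉ {t ∈ A | 𝓝[A ∩ Ioi t] t = ⊥} := measure_eq_zero_iff_ae_notMem.1 h2
  filter_upwards [h1, h3] with t a1 a2 a3
  have a4 : (𝓝[A ∩ Ioi t] t).NeBot := by
    rw [neBot_iff]
    intro h
    exact a2 ⟨a3, h⟩
  have a5 := a1.hasDerivAt
  have a6 : Tendsto (slope F t) (𝓝[A ∩ Ioi t] t) (𝓝 (deriv F t)) := by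
    refine (hasDerivAt_iff_tendsto_slope.1 a5).mono_left (nhdsWithin_mono _ ?_)
    intro s hs
    have : t < s := hs.2
    exact this.ne'
  have a7 : Tendsto (slope F t) (𝓝[A ∩ Ioi t] t) (𝓝 c) := by
    refine tendsto_const_nhds.congr' ?_
    filter_upwards [self_mem_nhdsWithin] with s hs
    have b1 : F s = c * s := hs.1
    have b2 : t < s := hs.2
    rw [slope_def_field, b1, a3, ← mul_sub, mul_div_assoc, div_self (by linarith), mul_one]
  have a8 := tendsto_nhds_unique a6 a7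
  rw [a8] at a5
  exact a5

/-- the scale `4⁻ⁿ` -/
noncomputable def hn (n : ℕ) : ℝ≥0 := (1 / 4) ^ n

lemma hn_pos (n : ℕ) : 0 < hn n := by unfold hn; positivity

lemma hn_coe (n : ℕ) : (hn n : ℝ) = (1 / 4) ^ n := by unfold hn; push_cast; rfl

lemma hn_lim : Tendsto (fun n => (hn n : ℝ)) atTop (𝓝 0) := by
  simp only [hn_coe]
  exact tendsto_pow_atTop_nhds_zero_of_lt_one (by norm_num) (by norm_num)

/-- convergence of the difference quotients along `4⁻ⁿ` -/
def Lam (c : ℝ) : Set Path :=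
  {x | Tendsto (fun n => (sr (1 + hn n) x - sr 1 x) / (hn n : ℝ)) atTop (𝓝 c)}

lemma Lam_meas (c : ℝ) : MeasurableSet (Lam c) :=
  measurableSet_tendsto (𝓝 c) fun n => ((sr_meas _).sub (sr_meas _)).div_const _

lemma sc_joint : Measurable (fun p : ℝ × Path => sc p.1.toNNReal p.2) := by
  refine measurable_of_eval fun s => ?_
  simp only [sc_apply]
  refine Measurable.mul ?_ ?_
  · fun_prop
  · exact (by fun_prop : Continuous (fun p : ℝ × Path => p.2 (p.1.toNNReal * s))).measurable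

variable {W : Measure Path} (hW : IsBrownianReal (fun (t : ℝ≥0) (x : Path) => x t) W)

include hW

/-- on the event `S₁ = c` the difference quotients converge to `c` -/
theorem ae_Lam (c : ℝ) : ∀ᵐ x : Path ∂W, sr 1 x = c → x ∈ Lam c := by
  have hWp := isProb hW
  set Bad : Set Path := {x | sr 1 x = c} ∩ (Lam c)ᶜ with hBad
  have mB : MeasurableSet Bad := (measurableSet_eq_fun (sr_meas 1) measurable_const).inter (Lam_meas c).compl
  set D : Set (ℝ × Path) := {p | p.1 ∈ Icc 1 2} ∩ (fun p : ℝ × Path => sc p.1.toNNReal p.2) ⁻¹' Bad with hD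
  have mD : MeasurableSet D :=
    (measurable_fst measurableSet_Icc).inter (sc_joint mB)
  have key : ∀ x : Path, volume ((fun t : ℝ => (t, x)) ⁻¹' D) = 0 := by
    intro x
    set F : ℝ → ℝ := fun t => sr t.toNNReal x with hF
    have hmono : Monotone F := fun a b h => sr_mono (Real.toNNReal_le_toNNReal h) x
    have h1 := dens hmono c
    have h2 : ∀ᵐ t : ℝ, t ∉ (fun t : ℝ => (t, x)) ⁻¹' D := by
      filter_upwards [h1] with t ht hD'
      obtain ⟨⟨a1, a2⟩, b1, b2⟩ := hD'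
      apply b2
      have ht0 : (0 : ℝ) < t := by
        have : (1 : ℝ) ≤ t := a1
        linarith
      set τ : ℝ≥0 := t.toNNReal with hτ
      have hτc : (τ : ℝ) = t := Real.coe_toNNReal _ ht0.le
      have hτ0 : τ ≠ 0 := (Real.toNNReal_pos.2 ht0).ne'
      have b1' : sr 1 (sc τ x) = c := b1
      have e1 : F t = c * t := by
        have := sr_sc hτ0 1 x
        rw [mul_one, b1', hτc] at this
        rw [hF]
        simp only
        rw [this, mul_comm]
      have h3 := (ht e1).tendsto_slope_zero_right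
      have h4 : Tendsto (fun n : ℕ => t * (hn n : ℝ)) atTop (𝓝[>] 0) := by
        rw [tendsto_nhdsWithin_iff]
        refine ⟨?_, Eventually.of_forall fun n => ?_⟩
        · have := hn_lim.const_mul t
          rwa [mul_zero] at this
        · have : (0 : ℝ) < hn n := by exact_mod_cast hn_pos n
          exact mul_pos ht0 this
      refine (h3.comp h4).congr fun n => ?_
      have hp : (0 : ℝ) < hn n := by exact_mod_cast hn_pos n
      have e2 : (t + t * (hn n : ℝ)).toNNReal = τ * (1 + hn n) := by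
        rw [← NNReal.coe_inj, Real.coe_toNNReal _ (by positivity)]
        push_cast
        rw [hτc]
        ring
      simp only [Function.comp_apply, smul_eq_mul, hF]
      rw [e2, sr_sc hτ0, ← hτ]
      have e3 : sr τ x = τ * sr 1 (sc τ x) := by
        have := sr_sc hτ0 1 x
        rwa [mul_one] at this
      rw [e3, hτc]
      field_simp
    have := measure_eq_zero_iff_ae_notMem.2 h2
    exact this
  have h3 : ((volume : Measure ℝ).prod W) D = 0 := by
    rw [Measure.prod_apply_symm mD]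
    have : ∀ x : Path, volume ((fun t : ℝ => (t, x)) ⁻¹' D) = 0 := key
    rw [lintegral_congr this, lintegral_zero]
  rw [Measure.measure_prod_null mD] at h3
  have h4 : ∃ t : ℝ, t ∈ Icc (1 : ℝ) 2 ∧ W (Prod.mk t ⁻¹' D) = 0 := by
    by_contra hcon
    push Not at hcon
    have h5 : volume (Icc (1 : ℝ) 2) ≤ volume {t : ℝ | ¬ (W (Prod.mk t ⁻¹' D) = 0)} :=
      measure_mono fun t ht => hcon t ht
    have h6 : volume {t : ℝ | ¬ (W (Prod.mk t ⁻¹' D) = 0)} = 0 := h3
    rw [h6, Real.volume_Icc] at h5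
    norm_num at h5
  obtain ⟨t, ht, h5⟩ := h4
  have ht0 : (0 : ℝ) < t := lt_of_lt_of_le one_pos ht.1
  have hτ0 : t.toNNReal ≠ 0 := (Real.toNNReal_pos.2 ht0).ne'
  have e : Prod.mk t ⁻¹' D = sc t.toNNReal ⁻¹' Bad := by
    ext x
    exact ⟨fun h => h.2, fun h => ⟨ht, h⟩⟩
  rw [e, (sc_mp hW hτ0).measure_preimage mB.nullMeasurableSet] at h5
  have h6 := measure_eq_zero_iff_ae_notMem.1 h5
  filter_upwards [h6] with x hx hc
  by_contra hcon
  exact hx ⟨hc, hcon⟩

end Q297.Df
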