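import Pool.Agent.Q297.DfD
import Pool.Agent.Q297.BwE

/-!
The zero-one law at time zero, events which occur at infinitely many scales, and concatenation of
paths at time one.
-/

open MeasureTheory ProbabilityTheory Set Filter Topology
open scoped ENNReal NNReal
open Q297.PathC Q297.Prepend Q297.TwoS Q297.Dec Q297.Spn

namespace Q297.Df

variable {W : Measure Path} (hW : IsBrownianReal (fun (t : ℝ≥0) (x : Path) => x t) W)

include hW

/-- zero-one law -/
lemma zero_one {A : Set Path} (hA : MeasurableSet A) (h : ∀ s : ℝ≥0, 0 < s → ∀ x, x ∈ A ↔ stop s x ∈ A) :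
    W A = 0 ∨ W A = 1 := by
  have hWp := isProb hW
  have hF : MeasurableSet[Bw.FF (id : Path → Path) W 0] A := by
    rw [Bw.FF_iff]
    intro s hs
    rw [Bw.GG_iff]
    refine ⟨⟨A, hA, ae_of_all _ fun x => ?_⟩, hA⟩
    exact propext (h s hs x)
  have h1 := Bw.FF_shift hW measurable_id Measure.map_id hF hA
  have h2 : W (A ∩ (fun ω => shift 0 (id ω)) ⁻¹' A) = W A := by
    apply measure_congr
    filter_upwards [W_zero hW] with x hx
    have e : shift 0 x = x := by
      ext t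
      rw [shift_apply, zero_add, hx, sub_zero]
    apply propext
    show (x ∈ A ∧ shift 0 x ∈ A) ↔ x ∈ A
    rw [e]
    simp
  rw [h2] at h1
  by_cases h3 : W A = 0
  · exact Or.inl h3
  · right
    have h4 : W A * 1 = W A * W A := by rw [mul_one]; exact h1
    exact ((ENNReal.mul_right_inj h3 (measure_ne_top _ _)).1 h4).symm

omit hW in
lemma stop_sc {h s : ℝ≥0} (hs : h ≤ s) (w : Path) : stop 1 (sc h (stop s w)) = stop 1 (sc h w) := by
  ext t
  simp only [stop_apply, sc_apply]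
  have : h * min t 1 ≤ s := by
    calc h * min t 1 ≤ h * 1 := by gcongr; exact min_le_right _ _
      _ ≤ s := by rw [mul_one]; exact hs
  rw [min_eq_left this]

/-- an event of positive probability which depends on the path up to time one occurs at infinitely
many of any sequence of small scales -/
lemma inf_often {G : Set Path} (mG : MeasurableSet G) (hG : ∀ x, x ∈ G ↔ stop 1 x ∈ G) (h0 : 0 < W G)
    {φ : ℕ → ℕ} (hφ : StrictMono φ) : ∀ᵐ w ∂W, ∃ᶠ k in atTop, sc (hn (φ k)) w ∈ G := by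
  have hWp := isProb hW
  set L : Set Path := ⋂ n : ℕ, ⋃ k : ℕ, ⋃ (_ : n ≤ k), sc (hn (φ k)) ⁻¹' G with hL
  have hmem : ∀ w, w ∈ L ↔ ∃ᶠ k in atTop, sc (hn (φ k)) w ∈ G := by
    intro w
    simp only [hL, mem_iInter, mem_iUnion, mem_preimage, frequently_atTop, exists_prop]
  have mU : ∀ n, MeasurableSet (⋃ k : ℕ, ⋃ (_ : n ≤ k), sc (hn (φ k)) ⁻¹' G) := fun n =>
    MeasurableSet.iUnion fun k => MeasurableSet.iUnion fun _ => sc_meas _ mG
  have mL : MeasurableSet L := MeasurableSet.iInter mU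
  have hgerm : ∀ s : ℝ≥0, 0 < s → ∀ x, x ∈ L ↔ stop s x ∈ L := by
    intro s hs x
    rw [hmem, hmem]
    have hev : ∀ᶠ k in atTop, hn (φ k) ≤ s := by
      have h1 : Tendsto (fun k => (hn (φ k) : ℝ)) atTop (𝓝 0) := hn_lim.comp hφ.tendsto_atTop
      filter_upwards [h1.eventually (gt_mem_nhds (show (0 : ℝ) < s by exact_mod_cast hs))] with k hk
      exact_mod_cast hk.le
    apply frequently_congr
    filter_upwards [hev] with k hk
    rw [hG (sc (hn (φ k)) x), hG (sc (hn (φ k)) (stop s x)), stop_sc hk]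
  have hlow : W G ≤ W L := by
    have hanti : Antitone (fun n : ℕ => ⋃ k : ℕ, ⋃ (_ : n ≤ k), sc (hn (φ k)) ⁻¹' G) := by
      intro a b hab x hx
      simp only [mem_iUnion, exists_prop] at hx ⊢
      obtain ⟨k, hk, h⟩ := hx
      exact ⟨k, hab.trans hk, h⟩
    have h1 := tendsto_measure_iInter_atTop (μ := W) (fun n => (mU n).nullMeasurableSet) hanti
      ⟨0, measure_ne_top _ _⟩
    refine ge_of_tendsto' h1 fun n => ?_
    calc W G = W (sc (hn (φ n)) ⁻¹' G) :=
          ((sc_mp hW (hn_pos _).ne').measure_preimage mG.nullMeasurableSet).symm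
      _ ≤ _ := measure_mono fun x hx => by
          simp only [mem_iUnion, exists_prop]
          exact ⟨n, le_rfl, hx⟩
  have h1 : W L = 1 := by
    rcases zero_one hW mL hgerm with h | h
    · rw [h] at hlow
      exact absurd hlow (not_le.2 h0)
    · exact h
  have h2 : ∀ᵐ w ∂W, w ∈ L := by
    rw [← prob_compl_eq_zero_iff mL] at h1
    exact measure_eq_zero_iff_ae_notMem.1 h1 |>.mono fun w hw => not_not.1 hw
  filter_upwards [h2] with w hw
  exact (hmem w).1 hw

omit hW in
/-- the sweep event -/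
def Sw (A : ℝ) : Set Path := {w | (∃ r ∈ Icc (0 : ℝ≥0) 1, A ≤ w r) ∧ ∃ r ∈ Icc (0 : ℝ≥0) 1, w r ≤ -A}

omit hW in
lemma Sw_meas (A : ℝ) : MeasurableSet (Sw A) := by
  have h1 := closed_exX (X := Path) (K := Icc (0 : ℝ≥0) 1) isCompact_Icc
    (C := {z : Path × ℝ≥0 | A ≤ z.1 z.2}) (isClosed_le (by fun_prop) (by fun_prop))
  have h2 := closed_exX (X := Path) (K := Icc (0 : ℝ≥0) 1) isCompact_Icc
    (C := {z : Path × ℝ≥0 | z.1 z.2 ≤ -A}) (isClosed_le (by fun_prop) (by fun_prop))
  exact (h1.inter h2).measurableSet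

omit hW in
lemma Sw_stop (A : ℝ) (x : Path) : x ∈ Sw A ↔ stop 1 x ∈ Sw A := by
  have h : ∀ r ∈ Icc (0 : ℝ≥0) 1, stop 1 x r = x r := fun r hr => by
    rw [stop_apply, min_eq_left hr.2]
  constructor
  · rintro ⟨⟨r, hr, h1⟩, ⟨r', hr', h2⟩⟩
    exact ⟨⟨r, hr, by rwa [h r hr]⟩, ⟨r', hr', by rwa [h r' hr']⟩⟩
  · rintro ⟨⟨r, hr, h1⟩, ⟨r', hr', h2⟩⟩
    exact ⟨⟨r, hr, by rwa [h r hr] at h1⟩, ⟨r', hr', by rwa [h r' hr'] at h2⟩⟩

lemma ev_pos {e : ℝ≥0} (he : 0 < e) {S : Set ℝ} (hS : MeasurableSet S) (hv : volume S ≠ 0) :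
    W {x : Path | x e ∈ S} ≠ 0 := by
  intro h0
  have hg := hW.hasLaw_eval e
  have h2 : gaussianReal 0 e S = 0 := by
    rw [← hg.map_eq, Measure.map_apply (measurable_eval _) hS]
    exact h0
  exact hv (gaussianReal_absolutelyContinuous' 0 he.ne' h2)

lemma Sw_pos (A : ℝ) : 0 < W (Sw A) := by
  have hWp := isProb hW
  rw [pos_iff_ne_zero]
  have m1 : MeasurableSet {x : Path | x (1 / 2) ∈ Icc A (A + 1)} := measurable_eval _ measurableSet_Icc
  have m2 : MeasurableSet {x : Path | x (1 / 2) ∈ Iic (-2 * A - 1)} := measurable_eval _ measurableSet_Iic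
  have hG : MeasurableSet[Bw.GG (id : Path → Path) W (1 / 2)] {x : Path | x (1 / 2) ∈ Icc A (A + 1)} := by
    rw [Bw.GG_iff]
    refine ⟨⟨_, m1, ae_of_all _ fun x => ?_⟩, m1⟩
    show (x (1 / 2) ∈ Icc A (A + 1)) = (stop (1 / 2) x (1 / 2) ∈ Icc A (A + 1))
    rw [stop_apply, min_self]
  have h1 := Bw.GG_shift hW measurable_id Measure.map_id hG m2
  have h2 : W {x : Path | x (1 / 2) ∈ Icc A (A + 1)} ≠ 0 := ev_pos hW (by norm_num) measurableSet_Icc (by
    rw [Real.volume_Icc]; simp)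
  have h3 : W {x : Path | x (1 / 2) ∈ Iic (-2 * A - 1)} ≠ 0 := ev_pos hW (by norm_num) measurableSet_Iic (by
    rw [Real.volume_Iic]; exact ENNReal.top_ne_zero)
  intro h4
  have h5 : W ({x : Path | x (1 / 2) ∈ Icc A (A + 1)} ∩ (fun ω => shift (1 / 2) (id ω)) ⁻¹'
      {x : Path | x (1 / 2) ∈ Iic (-2 * A - 1)}) = 0 := by
    refine measure_mono_null ?_ h4
    rintro x ⟨⟨a1, a2⟩, a3⟩
    have a4 : x (1 / 2 + 1 / 2) - x (1 / 2) ≤ -2 * A - 1 := a3
    have e : (1 / 2 + 1 / 2 : ℝ≥0) = 1 := by norm_num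
    rw [e] at a4
    exact ⟨⟨1 / 2, ⟨zero_le, by norm_num⟩, a1⟩, ⟨1, ⟨zero_le, le_rfl⟩, by linarith⟩⟩
  rw [h5] at h1
  exact mul_ne_zero h2 h3 h1.symm

omit hW in
/-- the event that the path stays small -/
def Sm (M : ℝ) : Set Path := {w | ∀ r : ℝ≥0, r ≤ 1 → |w r| ≤ M}

omit hW in
lemma Sm_meas (M : ℝ) : MeasurableSet (Sm M) := by
  have e : Sm M = ⋂ r : ℝ≥0, ⋂ (_ : r ≤ 1), {w : Path | |w r| ≤ M} := by
    ext w; simp only [Sm, mem_ofPred_eq, mem_iInter]
  rw [e]
  refine (isClosed_iInter fun r => isClosed_iInter fun _ => isClosed_le ?_ continuous_const).measurableSet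
  exact (by fun_prop : Continuous fun w : Path => w r).abs

omit hW in
lemma Sm_stop (M : ℝ) (x : Path) : x ∈ Sm M ↔ stop 1 x ∈ Sm M := by
  constructor
  · intro h r hr
    rw [stop_apply, min_eq_left hr]
    exact h r hr
  · intro h r hr
    have := h r hr
    rwa [stop_apply, min_eq_left hr] at this

lemma Sm_pos : ∃ M : ℝ, 0 < M ∧ 0 < W (Sm M) := by
  have hWp := isProb hW
  by_contra hcon
  push Not at hcon
  have h1 : W (⋃ n : ℕ, Sm ((n : ℝ) + 1)) = 0 :=
    measure_iUnion_null fun n => le_antisymm (hcon _ (by positivity)) bot_le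
  have h2 : (⋃ n : ℕ, Sm ((n : ℝ) + 1)) = univ := by
    rw [eq_univ_iff_forall]
    intro x
    have hc : Continuous (fun u : ℝ≥0 => |x u|) := x.continuous.abs
    obtain ⟨b, hb⟩ := (isCompact_Icc.image hc : IsCompact ((fun u : ℝ≥0 => |x u|) '' Icc 0 1)).bddAbove
    obtain ⟨n, hn⟩ := exists_nat_ge b
    rw [mem_iUnion]
    refine ⟨n, fun r hr => ?_⟩
    have := hb ⟨r, ⟨zero_le, hr⟩, rfl⟩
    simp only at this
    linarith
  rw [h2, measure_univ] at h1
  exact one_ne_zero h1

omit hW in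
/-- concatenation at time one -/
noncomputable def cat (y w : Path) : Path := ⟨fun t => y (min t 1) + (w (t - 1) - w 0), by fun_prop⟩

omit hW in
lemma cat_lo {y w : Path} {t : ℝ≥0} (h : t ≤ 1) : cat y w t = y t := by
  show y (min t 1) + (w (t - 1) - w 0) = y t
  rw [min_eq_left h, tsub_eq_zero_of_le h, sub_self, add_zero]

omit hW in
lemma cat_hi (y w : Path) (r : ℝ≥0) : cat y w (1 + r) = y 1 + (w r - w 0) := by
  show y (min (1 + r) 1) + (w (1 + r - 1) - w 0) = _
  rw [min_eq_right le_self_add, add_tsub_cancel_left]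

omit hW in
lemma cat_stop (y w : Path) : cat (stop 1 y) w = cat y w := by
  ext t
  show (stop 1 y) (min t 1) + (w (t - 1) - w 0) = y (min t 1) + (w (t - 1) - w 0)
  rw [stop_apply, min_assoc, min_self]

omit hW in
lemma cat_self (x : Path) : cat x (shift 1 x) = x := by
  ext t
  show x (min t 1) + (shift 1 x (t - 1) - shift 1 x 0) = x t
  simp only [shift_apply, add_zero]
  rcases le_total t 1 with h | h
  · rw [min_eq_left h, tsub_eq_zero_of_le h, add_zero]; ring
  · rw [min_eq_right h, add_tsub_cancel_of_le h]; ring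

omit hW in
lemma cat_meas : Measurable (fun p : Path × Path => cat p.1 p.2) := by
  refine measurable_of_eval fun t => ?_
  exact ((measurable_eval _).comp measurable_fst).add
    (((measurable_eval _).comp measurable_snd).sub ((measurable_eval _).comp measurable_snd))

/-- independence of the past and the future at time one -/
lemma W_cat {E : Set Path} (mE : MeasurableSet E) : W E = ∫⁻ x, W {w | cat x w ∈ E} ∂W := by
  have hWp := isProb hW
  have ms : Measurable (fun z : Path => (stop 1 z, shift 1 z)) :=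
    (stop_meas1 1).prodMk (measurable_shift 1)
  have mE' : MeasurableSet ((fun p : Path × Path => cat p.1 p.2) ⁻¹' E) := cat_meas mE
  have hp : IsProbabilityMeasure (W.map (stop 1)) :=
    Measure.isProbabilityMeasure_map (stop_meas1 1).aemeasurable
  have e : E = (fun z : Path => (stop 1 z, shift 1 z)) ⁻¹' ((fun p : Path × Path => cat p.1 p.2) ⁻¹' E) := by
    ext x
    simp only [mem_preimage]
    rw [cat_stop, cat_self]
  conv_lhs => rw [e]
  rw [← Measure.map_apply ms mE', stop_shift hW 1, Measure.prod_apply mE',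
    lintegral_map (measurable_measure_prodMk_left mE') (stop_meas1 1)]
  refine lintegral_congr fun x => ?_
  congr 1
  ext w
  simp only [mem_preimage, mem_ofPred_eq]
  rw [cat_stop]

end Q297.Df
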