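import Pool.Agent.Q297.DfE

/-!
New lags created after time one, seen from the past.
-/

open MeasureTheory ProbabilityTheory Set Filter Topology
open scoped ENNReal NNReal
open Q297.PathC Q297.Prepend Q297.TwoS Q297.Dec Q297.Spn

namespace Q297.Df

/-- lags which are not present and for which the path stays near its end value during a time `h` -/
def VV (h : ℝ≥0) (a : ℝ) (x : Path) : Set ℝ :=
  {u | (h : ℝ) ≤ u ∧ u ≤ 1 ∧ u ∉ ST 1 x ∧ ∀ r : ℝ≥0, r ≤ h → |x (1 - u.toNNReal + r) - x 1| < a}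

/-- lags which are not present and for which the path comes near its end value -/
def QQ (δ h : ℝ≥0) (b : ℝ) (x : Path) : Set ℝ :=
  {u | (δ : ℝ) ≤ u ∧ u ≤ 1 - δ ∧ u ∉ ST 1 x ∧ ∃ r ∈ Icc 0 h, |x (1 - u.toNNReal + r) - x 1| ≤ b}

/-- lags which are not present and for which the path comes near its end value and leaves it -/
def DD (δ h : ℝ≥0) (b a : ℝ) (x : Path) : Set ℝ :=
  {u | (δ : ℝ) ≤ u ∧ u ≤ 1 - δ ∧ u ∉ ST 1 x ∧ (∃ r ∈ Icc 0 h, |x (1 - u.toNNReal + r) - x 1| ≤ b) ∧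
    ∃ r ∈ Icc 0 h, a ≤ |x (1 - u.toNNReal + r) - x 1|}

lemma VV_mono {h h' : ℝ≥0} (hh : h ≤ h') (a : ℝ) (x : Path) : VV h' a x ⊆ VV h a x := by
  rintro u ⟨h1, h2, h3, h4⟩
  have : (h : ℝ) ≤ h' := by exact_mod_cast hh
  exact ⟨this.trans h1, h2, h3, fun r hr => h4 r (hr.trans hh)⟩

lemma QQ_sub {δ h : ℝ≥0} (hδ : h ≤ δ) (b a : ℝ) (x : Path) : QQ δ h b x ⊆ VV h a x ∪ DD δ h b a x := by
  rintro u ⟨h1, h2, h3, h4⟩
  have c1 : (h : ℝ) ≤ δ := by exact_mod_cast hδ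
  by_cases hc : ∀ r : ℝ≥0, r ≤ h → |x (1 - u.toNNReal + r) - x 1| < a
  · left
    exact ⟨c1.trans h1, h2.trans (by linarith [NNReal.coe_nonneg δ]), h3, hc⟩
  · right
    push Not at hc
    obtain ⟨r, hr, h5⟩ := hc
    exact ⟨h1, h2, h3, h4, r, ⟨zero_le, hr⟩, h5⟩

lemma ST_cat (x w : Path) : ST 1 (cat x w) = ST 1 x := by
  ext h
  constructor
  · rintro ⟨s, s', h1, h2, h3, h4⟩
    rw [cat_lo h2, cat_lo (h1.trans h2)] at h3
    exact ⟨s, s', h1, h2, h3, h4⟩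
  · rintro ⟨s, s', h1, h2, h3, h4⟩
    refine ⟨s, s', h1, h2, ?_, h4⟩
    rw [cat_lo h2, cat_lo (h1.trans h2)]
    exact h3

lemma new_vol (h : ℝ≥0) (z : Path) :
    volume (ST (1 + h) z \ ST 1 z) = ENNReal.ofReal (sr (1 + h) z - sr 1 z) := by
  have hm : MeasurableSet (ST 1 z) := by
    have h1 := Sp_closed z.continuous
    rw [← ST_one] at h1
    exact h1.measurableSet
  rw [measure_sdiff (ST_mono le_self_add z) hm.nullMeasurableSet (ST_fin 1 z)]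
  unfold sr
  rw [ENNReal.ofReal_sub _ ENNReal.toReal_nonneg, ENNReal.ofReal_toReal (ST_fin _ _),
    ENNReal.ofReal_toReal (ST_fin _ _)]

/-- a sweep realizes all the lags in `VV` -/
lemma sweep {h : ℝ≥0} {a : ℝ} {x w : Path} (h0 : w 0 = 0) {r1 r2 : ℝ≥0} (hr1 : r1 ≤ h) (h1 : a ≤ w r1)
    (hr2 : r2 ≤ h) (h2 : w r2 ≤ -a) : VV h a x ⊆ ST (1 + h) (cat x w) \ ST 1 (cat x w) := by
  rintro u ⟨a1, a2, a3, a4⟩
  refine ⟨?_, by rw [ST_cat]; exact a3⟩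
  have hu0 : 0 ≤ u := (NNReal.coe_nonneg h).trans a1
  obtain ⟨v, rfl⟩ : ∃ v : ℝ≥0, u = v := ⟨⟨u, hu0⟩, rfl⟩
  have hv1 : v ≤ 1 := by exact_mod_cast a2
  have hhv : h ≤ v := by exact_mod_cast a1
  rw [Real.toNNReal_coe] at a4
  have hle : ∀ r, r ≤ h → 1 - v + r ≤ 1 := by
    intro r hr
    calc 1 - v + r ≤ 1 - v + v := by gcongr; exact hr.trans hhv
      _ = 1 := tsub_add_cancel_of_le hv1
  have hc : ContinuousOn (fun r : ℝ≥0 => cat x w (1 - v + r) - cat x w (1 + r)) (Icc 0 h) := by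
    apply Continuous.continuousOn
    fun_prop
  have e : ∀ r, r ≤ h → cat x w (1 - v + r) - cat x w (1 + r) = x (1 - v + r) - x 1 - w r := by
    intro r hr
    rw [cat_lo (hle r hr), cat_hi, h0]
    ring
  have h3 := isPreconnected_Icc.intermediate_value (show r1 ∈ Icc 0 h from ⟨zero_le, hr1⟩)
    (show r2 ∈ Icc 0 h from ⟨zero_le, hr2⟩) hc
  obtain ⟨r, hr, hr0⟩ := h3 (show (0 : ℝ) ∈ Icc _ _ from ⟨by
    rw [e r1 hr1]
    have := (abs_lt.1 (a4 r1 hr1)).2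
    linarith, by
    rw [e r2 hr2]
    have := (abs_lt.1 (a4 r2 hr2)).1
    linarith⟩)
  refine ⟨1 - v + r, 1 + r, ?_, ?_, ?_, ?_⟩
  · gcongr
    exact tsub_le_self
  · gcongr
    exact hr.2
  · simp only at hr0
    linarith
  · push_cast [NNReal.coe_sub hv1]
    ring

/-- when the future stays small the new lags are in `QQ` -/
lemma small {δ h : ℝ≥0} {b : ℝ} {x w : Path} (h0 : w 0 = 0) (hδ : h ≤ δ)
    (H1 : ∀ u : ℝ, 0 ≤ u → u ≤ δ → u ∈ ST 1 x) (H2 : ∀ s : ℝ≥0, s ≤ 2 * δ → b < |x s - x 1|)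
    (hw : ∀ r : ℝ≥0, r ≤ h → |w r| ≤ b) :
    ST (1 + h) (cat x w) \ ST 1 (cat x w) ⊆ QQ δ h b x := by
  rintro u ⟨⟨s, s', h1, h2, h3, rfl⟩, h5⟩
  rw [ST_cat] at h5
  have c1 : (s : ℝ) ≤ s' := by exact_mod_cast h1
  have c2 : (h : ℝ) ≤ δ := by exact_mod_cast hδ
  have c3 : (s' : ℝ) ≤ 1 + h := by exact_mod_cast h2
  have hs' : 1 < s' := by
    by_contra hc
    push Not at hc
    rw [cat_lo hc, cat_lo (h1.trans hc)] at h3
    exact h5 ⟨s, s', h1, hc, h3, rfl⟩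
  obtain ⟨r, rfl⟩ : ∃ r : ℝ≥0, s' = 1 + r := ⟨s' - 1, (add_tsub_cancel_of_le hs'.le).symm⟩
  have hr : r ≤ h := by
    have : (r : ℝ) ≤ h := by push_cast at c3; linarith
    exact_mod_cast this
  have hbig : ¬ ((1 + r : ℝ≥0) : ℝ) - s ≤ δ := fun hc => h5 (H1 _ (by linarith) hc)
  push Not at hbig
  push_cast at hbig c1 c3
  have hr' : (r : ℝ) ≤ h := by exact_mod_cast hr
  have hs1 : s ≤ 1 := by
    have : (s : ℝ) ≤ 1 := by linarith
    exact_mod_cast this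
  rw [cat_lo hs1, cat_hi, h0, sub_zero] at h3
  have h6 : |x s - x 1| ≤ b := by
    rw [h3]
    simpa using hw r hr
  have hs2 : ¬ s ≤ 2 * δ := fun hc => absurd (H2 s hc) (not_lt.2 h6)
  have hs2' : 2 * (δ : ℝ) < s := by
    have := not_le.1 hs2
    exact_mod_cast this
  have hrs : r ≤ s := by
    have : (r : ℝ) ≤ s := by linarith [NNReal.coe_nonneg δ]
    exact_mod_cast this
  have e : (((1 + r : ℝ≥0) : ℝ) - s).toNNReal = 1 + r - s := by
    rw [← NNReal.coe_inj, Real.coe_toNNReal _ (by push_cast; linarith), NNReal.coe_sub h1]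
  have e1 : 1 + r - s ≤ 1 := by
    rw [tsub_le_iff_right, add_comm 1 s, add_comm 1 r]
    gcongr
  have e2 : 1 - (1 + r - s) + r = s := by
    rw [← NNReal.coe_inj]
    push_cast [NNReal.coe_sub e1, NNReal.coe_sub h1]
    ring
  refine ⟨by push_cast; linarith, by push_cast; linarith, h5, r, ⟨zero_le, hr⟩, ?_⟩
  rw [e, e2]
  exact h6

lemma sqrt_hn (n : ℕ) : √(hn n : ℝ) = (1 / 2) ^ n := by
  rw [hn_coe]
  rw [show ((1 / 4 : ℝ)) ^ n = ((1 / 2) ^ n) ^ 2 by rw [← pow_mul, mul_comm, pow_mul]; norm_num]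
  exact Real.sqrt_sq (by positivity)

variable {W : Measure Path} (hW : IsBrownianReal (fun (t : ℝ≥0) (x : Path) => x t) W)

include hW

omit hW in
/-- a positive set and a set of full measure meet -/
lemma meet {A : Set Path} (hA : 0 < W A) {p : Path → Prop} (hp : ∀ᵐ w ∂W, p w) : ∃ w, w ∈ A ∧ p w := by
  by_contra hcon
  push Not at hcon
  have : W A = 0 := measure_mono_null (fun w hw => hcon w hw) hp
  exact hA.ne' this

omit hW in
lemma quot_lim {c : ℝ} {z : Path} (h : z ∈ Lam c) {ε : ℝ} (hε : 0 < ε) :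
    ∀ᶠ n in atTop, |(sr (1 + hn n) z - sr 1 z) / (hn n : ℝ) - c| < ε := by
  have h1 : Tendsto (fun n => (sr (1 + hn n) z - sr 1 z) / (hn n : ℝ)) atTop (𝓝 c) := h
  have h2 := Metric.tendsto_atTop.1 h1 ε hε
  obtain ⟨N, hN⟩ := h2
  filter_upwards [eventually_ge_atTop N] with n hn'
  have := hN n hn'
  rwa [Real.dist_eq] at this

lemma claim1 {c : ℝ} {x : Path} (hx : 0 < W {w | cat x w ∈ Lam c}) {A : ℝ} {ε : ℝ} (hε : 0 < ε) :
    ∀ᶠ n in atTop, volume (VV (hn n) (A * √(hn n : ℝ)) x) ≤ ENNReal.ofReal ((c + ε) * hn n) := by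
  by_contra hcon
  rw [not_eventually] at hcon
  obtain ⟨φ, hφ, h1⟩ := extraction_of_frequently_atTop hcon
  obtain ⟨w, hw1, hw2, hw3⟩ := meet hx
    ((inf_often hW (Sw_meas A) (Sw_stop A) (Sw_pos hW A) hφ).and (W_zero hW))
  have h2 := quot_lim hw1 hε
  obtain ⟨k, hk1, hk2⟩ := (hw2.and_eventually (hφ.tendsto_atTop.eventually h2)).exists
  set n := φ k with hn'
  apply h1 k
  have hp : (0 : ℝ) < hn n := by exact_mod_cast hn_pos n
  have hsq : 0 < √(hn n : ℝ) := Real.sqrt_pos.2 hp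
  obtain ⟨⟨r1, hr1, b1⟩, ⟨r2, hr2, b2⟩⟩ := hk1
  simp only [sc_apply] at b1 b2
  rw [inv_mul_eq_div] at b1 b2
  rw [le_div_iff₀ hsq] at b1
  rw [div_le_iff₀ hsq] at b2
  have g1 : hn n * r1 ≤ hn n := by
    calc hn n * r1 ≤ hn n * 1 := by gcongr; exact hr1.2
      _ = hn n := mul_one _
  have g2 : hn n * r2 ≤ hn n := by
    calc hn n * r2 ≤ hn n * 1 := by gcongr; exact hr2.2
      _ = hn n := mul_one _
  have h3 := sweep (x := x) hw3 g1 b1 g2 (by linarith)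
  refine (measure_mono h3).trans ?_
  rw [new_vol]
  apply ENNReal.ofReal_le_ofReal
  have h4 := (abs_lt.1 hk2).2
  have h5 : (sr (1 + hn n) (cat x w) - sr 1 (cat x w)) / (hn n : ℝ) ≤ c + ε := by linarith
  rwa [div_le_iff₀ hp] at h5

lemma claim1' {c : ℝ} {x : Path} (hx : 0 < W {w | cat x w ∈ Lam c}) (j : ℕ) {ε : ℝ} (hε : 0 < ε) :
    ∀ᶠ n in atTop, volume (VV (hn n) (2 ^ j * √(hn n : ℝ)) x) ≤ ENNReal.ofReal (ε * hn n) := by
  obtain ⟨k, hk⟩ : ∃ k : ℕ, (c + 1) * (1 / 4) ^ k ≤ ε := by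
    have h1 : Tendsto (fun k : ℕ => (c + 1) * (1 / 4 : ℝ) ^ k) atTop (𝓝 ((c + 1) * 0)) :=
      (tendsto_pow_atTop_nhds_zero_of_lt_one (by norm_num) (by norm_num)).const_mul _
    rw [mul_zero] at h1
    exact ((h1.eventually (gt_mem_nhds hε)).exists).imp fun k hk => hk.le
  have h1 := claim1 hW hx (A := 2 ^ (j + k)) one_pos
  have h2 : ∀ᶠ n in atTop, volume (VV (hn (n + k)) (2 ^ (j + k) * √(hn (n + k) : ℝ)) x) ≤
      ENNReal.ofReal ((c + 1) * hn (n + k)) := (tendsto_add_atTop_nat k).eventually h1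
  filter_upwards [h2] with n h3
  have e1 : (2 : ℝ) ^ (j + k) * √(hn (n + k) : ℝ) = 2 ^ j * √(hn n : ℝ) := by
    rw [sqrt_hn, sqrt_hn, pow_add, pow_add]
    have : (2 : ℝ) ^ k * (1 / 2) ^ k = 1 := by rw [← mul_pow]; norm_num
    linear_combination (2 : ℝ) ^ j * (1 / 2) ^ n * this
  rw [e1] at h3
  have e2 : hn (n + k) ≤ hn n := by
    unfold hn
    refine pow_le_pow_of_le_one (by positivity) ?_ (by omega)
    rw [← NNReal.coe_le_coe]
    push_cast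
    norm_num
  refine (measure_mono (VV_mono e2 _ x)).trans (h3.trans (ENNReal.ofReal_le_ofReal ?_))
  have e3 : (hn (n + k) : ℝ) = (1 / 4) ^ k * hn n := by rw [hn_coe, hn_coe, pow_add]; ring
  rw [e3]
  have hp : (0 : ℝ) < hn n := by exact_mod_cast hn_pos n
  calc (c + 1) * ((1 / 4) ^ k * (hn n : ℝ)) = ((c + 1) * (1 / 4) ^ k) * hn n := by ring
    _ ≤ ε * hn n := by gcongr

/-- the good past paths -/
def Om (δ : ℝ≥0) (x : Path) : Prop :=
  (∀ u : ℝ, 0 ≤ u → u ≤ δ → u ∈ ST 1 x) ∧ ∀ s : ℝ≥0, s ≤ 2 * δ → x s ≠ x 1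

lemma claim2 {c : ℝ} {x : Path} (hx : 0 < W {w | cat x w ∈ Lam c}) {δ : ℝ≥0} (hδ : 0 < δ)
    (hO : Om δ x) {M : ℝ} (hM : 0 < W (Sm M)) {ε : ℝ} (hε : 0 < ε) :
    ∀ᶠ n in atTop, ENNReal.ofReal ((c - ε) * hn n) ≤ volume (QQ δ (hn n) (M * √(hn n : ℝ)) x) := by
  by_contra hcon
  rw [not_eventually] at hcon
  obtain ⟨φ, hφ, h1⟩ := extraction_of_frequently_atTop hcon
  obtain ⟨w, hw1, hw2, hw3⟩ := meet hx
    ((inf_often hW (Sm_meas M) (Sm_stop M) hM hφ).and (W_zero hW))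
  have h2 := quot_lim hw1 hε
  obtain ⟨η, hη, hη2⟩ : ∃ η : ℝ, 0 < η ∧ ∀ s : ℝ≥0, s ≤ 2 * δ → η ≤ |x s - x 1| := by
    have hc : ContinuousOn (fun s : ℝ≥0 => |x s - x 1|) (Icc 0 (2 * δ)) :=
      (by fun_prop : Continuous fun s : ℝ≥0 => x s - x 1).abs.continuousOn
    obtain ⟨s, hs, h3⟩ := isCompact_Icc.exists_isMinOn ⟨0, ⟨le_rfl, zero_le⟩⟩ hc
    refine ⟨|x s - x 1|, abs_pos.2 (sub_ne_zero.2 (hO.2 s hs.2)), fun t ht => h3 ⟨zero_le, ht⟩⟩
  have h3 : ∀ᶠ n in atTop, M * √(hn n : ℝ) < η := by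
    have h4 : Tendsto (fun n => M * √(hn n : ℝ)) atTop (𝓝 (M * √0)) :=
      ((Real.continuous_sqrt.tendsto 0).comp hn_lim).const_mul M
    rw [Real.sqrt_zero, mul_zero] at h4
    exact h4.eventually (gt_mem_nhds hη)
  have h4 : ∀ᶠ n in atTop, hn n ≤ δ := by
    filter_upwards [hn_lim.eventually (gt_mem_nhds (show (0 : ℝ) < δ by exact_mod_cast hδ))] with k hk
    exact_mod_cast hk.le
  obtain ⟨k, hk1, hk2, hk3, hk4⟩ := (hw2.and_eventually (hφ.tendsto_atTop.eventually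
    (h2.and (h3.and h4)))).exists
  set n := φ k with hn'
  apply h1 k
  have hp : (0 : ℝ) < hn n := by exact_mod_cast hn_pos n
  have hsq : 0 < √(hn n : ℝ) := Real.sqrt_pos.2 hp
  have hws : ∀ r : ℝ≥0, r ≤ hn n → |w r| ≤ M * √(hn n : ℝ) := by
    intro r hr
    have h5 := hk1 (r / hn n) (div_le_one_of_le₀ hr zero_le)
    simp only [sc_apply] at h5
    rw [mul_div_cancel₀ _ (hn_pos n).ne', abs_mul, abs_of_pos (inv_pos.2 hsq), inv_mul_eq_div,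
      div_le_iff₀ hsq] at h5
    exact h5
  have h5 := small (x := x) hw3 hk4 hO.1 (fun s hs => lt_of_lt_of_le hk3 (hη2 s hs)) hws
  refine le_trans ?_ (measure_mono h5)
  rw [new_vol]
  apply ENNReal.ofReal_le_ofReal
  have h6 := (abs_lt.1 hk2).1
  have h7 : c - ε ≤ (sr (1 + hn n) (cat x w) - sr 1 (cat x w)) / (hn n : ℝ) := by linarith
  rwa [le_div_iff₀ hp] at h7

lemma claim3 {c : ℝ} {x : Path} (hx : 0 < W {w | cat x w ∈ Lam c}) {δ : ℝ≥0} (hδ : 0 < δ)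
    (hO : Om δ x) {M : ℝ} (hM : 0 < W (Sm M)) (j : ℕ) {ε : ℝ} (hε : 0 < ε) :
    ∀ᶠ n in atTop, ENNReal.ofReal ((c - ε) * hn n) ≤
      volume (DD δ (hn n) (M * √(hn n : ℝ)) (2 ^ j * √(hn n : ℝ)) x) := by
  have h1 := claim2 hW hx hδ hO hM (half_pos hε)
  have h2 := claim1' hW hx j (half_pos hε)
  have h4 : ∀ᶠ n in atTop, hn n ≤ δ := by
    filter_upwards [hn_lim.eventually (gt_mem_nhds (show (0 : ℝ) < δ by exact_mod_cast hδ))] with k hk
    exact_mod_cast hk.le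
  filter_upwards [h1, h2, h4] with n a1 a2 a3
  have h5 := (measure_mono (QQ_sub a3 (M * √(hn n : ℝ)) (2 ^ j * √(hn n : ℝ)) x)).trans
    (measure_union_le (μ := (volume : Measure ℝ)) _ _)
  have h6 := a1.trans h5
  have hp : (0 : ℝ) < hn n := by exact_mod_cast hn_pos n
  have e : ENNReal.ofReal ((c - ε / 2) * hn n) ≤ ENNReal.ofReal (ε / 2 * hn n) +
      volume (DD δ (hn n) (M * √(hn n : ℝ)) (2 ^ j * √(hn n : ℝ)) x) :=
    h6.trans (by gcongr)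
  have e2 : ENNReal.ofReal ((c - ε) * hn n) = ENNReal.ofReal ((c - ε / 2) * hn n) -
      ENNReal.ofReal (ε / 2 * hn n) := by
    rw [← ENNReal.ofReal_sub _ (by positivity)]
    congr 1
    ring
  rw [e2]
  exact tsub_le_iff_left.2 e

end Q297.Df
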