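import Pool.Agent.Q297.DfF

/-!
The law of the left increment process on a short window, independence of blocks, and the second
moment of the maximum of the modulus.
-/

open MeasureTheory ProbabilityTheory Set Filter Topology
open scoped ENNReal NNReal
open Q297.PathC Q297.Prepend Q297.TwoS Q297.Dec Q297.Spn

set_option linter.unusedSimpArgs false

namespace Q297.Df

/-- the maximum of the modulus over `[0,h]` -/
noncomputable def am (h : ℝ≥0) (z : Path) : ℝ := sSup ((fun r : ℝ≥0 => |z r|) '' Icc 0 h)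

lemma am_cont (h : ℝ≥0) : Continuous (am h) := by
  have hc : Continuous (fun p : Path × ℝ≥0 => |p.1 p.2|) := by
    have : Continuous (fun p : Path × ℝ≥0 => p.1 p.2) := by fun_prop
    exact this.abs
  have h1 := IsCompact.continuous_sSup (K := Icc (0 : ℝ≥0) h) isCompact_Icc
    (f := fun (z : Path) (r : ℝ≥0) => |z r|) hc
  exact h1

lemma am_meas (h : ℝ≥0) : Measurable (am h) := (am_cont h).measurable

lemma am_ge {h r : ℝ≥0} (hr : r ≤ h) (z : Path) : |z r| ≤ am h z := by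
  have hc : Continuous (fun u : ℝ≥0 => |z u|) := z.continuous.abs
  exact le_csSup ((isCompact_Icc.image hc : IsCompact ((fun u : ℝ≥0 => |z u|) '' Icc 0 h)).bddAbove)
    ⟨r, ⟨zero_le, hr⟩, rfl⟩

lemma am_att (h : ℝ≥0) (z : Path) : ∃ r, r ≤ h ∧ |z r| = am h z := by
  have hc : Continuous (fun u : ℝ≥0 => |z u|) := z.continuous.abs
  obtain ⟨r, hr, h1⟩ := (isCompact_Icc.image hc : IsCompact ((fun u : ℝ≥0 => |z u|) '' Icc 0 h)).sSup_mem
    ⟨_, 0, ⟨le_rfl, zero_le⟩, rfl⟩
  exact ⟨r, hr.2, h1⟩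

lemma am_nonneg (h : ℝ≥0) (z : Path) : 0 ≤ am h z := (abs_nonneg _).trans (am_ge (le_refl h) z)

lemma am_congr {h : ℝ≥0} {z z' : Path} (he : ∀ r, r ≤ h → z r = z' r) : am h z = am h z' := by
  unfold am
  congr 1
  apply image_congr
  intro r hr
  simp only [he r hr.2]

lemma am_stop (h : ℝ≥0) (z : Path) : am h (stop h z) = am h z :=
  am_congr fun r hr => by rw [stop_apply, min_eq_left hr]

lemma am_sc {h : ℝ≥0} (hh : 0 < h) (z : Path) : am h z = √(h : ℝ) * am 1 (sc h z) := by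
  have hp : (0 : ℝ) < h := by exact_mod_cast hh
  have hsq : 0 < √(h : ℝ) := Real.sqrt_pos.2 hp
  apply le_antisymm
  · obtain ⟨r, hr, h1⟩ := am_att h z
    rw [← h1]
    have h2 := am_ge (h := 1) (r := r / h) (div_le_one_of_le₀ hr zero_le) (sc h z)
    simp only [sc_apply] at h2
    rw [mul_div_cancel₀ _ hh.ne', abs_mul, abs_of_pos (inv_pos.2 hsq), inv_mul_eq_div,
      div_le_iff₀ hsq, mul_comm] at h2
    exact h2
  · obtain ⟨r, hr, h1⟩ := am_att 1 (sc h z)
    rw [← h1]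
    simp only [sc_apply]
    rw [abs_mul, abs_of_pos (inv_pos.2 hsq), mul_inv_cancel_left₀ hsq.ne']
    apply am_ge
    calc h * r ≤ h * 1 := by gcongr
      _ = h := mul_one _

variable {W : Measure Path} (hW : IsBrownianReal (fun (t : ℝ≥0) (x : Path) => x t) W)

include hW

lemma Lt_law' {p U w : ℝ≥0} (hwp : w ≤ p) (hwU : w ≤ U) (h2 : p + U ≤ 1) :
    W.map (ext w (Lt p U)) = W := by
  refine law_unique1 hW (ext_meas w (Lt_meas p U)) ?_
  have h := pre_lin hW (ι := Fin 3) (fun _ => ![-(√2)⁻¹, (√2)⁻¹, 1])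
    (fun r => ![p - min r w + U, p - min r w, 2])
    (fun r => ![p + U, p, 2 + (r - w)]) (by
      intro s t hst
      have c0 : (w : ℝ) ≤ p := by exact_mod_cast hwp
      have c1 : (w : ℝ) ≤ U := by exact_mod_cast hwU
      have c2 : (p : ℝ) + U ≤ 1 := by exact_mod_cast h2
      have hs : ((min s w : ℝ≥0) : ℝ) ≤ w := by exact_mod_cast min_le_right s w
      have ht : ((min t w : ℝ≥0) : ℝ) ≤ w := by exact_mod_cast min_le_right t w
      have hst' : ((min s w : ℝ≥0) : ℝ) ≤ ((min t w : ℝ≥0) : ℝ) := by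
        exact_mod_cast min_le_min_right w hst
      have es : ((p - min s w : ℝ≥0) : ℝ) = p - (min s w : ℝ≥0) :=
        NNReal.coe_sub ((min_le_right s w).trans hwp)
      have et : ((p - min t w : ℝ≥0) : ℝ) = p - (min t w : ℝ≥0) :=
        NNReal.coe_sub ((min_le_right t w).trans hwp)
      have hs0 := (min s w).coe_nonneg
      have ht0 := (min t w).coe_nonneg
      have hs1 := (s - w).coe_nonneg
      have ht1 := (t - w).coe_nonneg
      simp only [Fin.sum_univ_three, Matrix.cons_val_zero, Matrix.cons_val_one, Matrix.cons_val_two,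
        Matrix.head_cons, Matrix.tail_cons, Matrix.cons_val]
      rw [ov_ext hst]
      have e1 : ov ((p - min s w + U : ℝ≥0) : ℝ) ((p + U : ℝ≥0) : ℝ)
          ((p - min t w + U : ℝ≥0) : ℝ) ((p + U : ℝ≥0) : ℝ) = (min s w : ℝ≥0) := by
        rw [NNReal.coe_add (p - min s w), NNReal.coe_add (p - min t w), es, et,
          ov_right, max_eq_left] <;> (try simp only [NNReal.coe_add, NNReal.coe_ofNat]) <;> linarith
      have e2 : ov ((p - min s w : ℝ≥0) : ℝ) ((p : ℝ≥0) : ℝ)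
          ((p - min t w : ℝ≥0) : ℝ) ((p : ℝ≥0) : ℝ) = (min s w : ℝ≥0) := by
        rw [es, et, ov_right, max_eq_left] <;> linarith
      have e3 : ov ((p - min s w + U : ℝ≥0) : ℝ) ((p + U : ℝ≥0) : ℝ)
          ((p - min t w : ℝ≥0) : ℝ) ((p : ℝ≥0) : ℝ) = 0 := by
        rw [NNReal.coe_add (p - min s w), es, et]
        apply ov_disj' <;> (try simp only [NNReal.coe_add, NNReal.coe_ofNat]) <;> linarith
      have e4 : ov ((p - min s w : ℝ≥0) : ℝ) ((p : ℝ≥0) : ℝ)
          ((p - min t w + U : ℝ≥0) : ℝ) ((p + U : ℝ≥0) : ℝ) = 0 := by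
        rw [NNReal.coe_add (p - min t w), es, et]
        apply ov_disj <;> (try simp only [NNReal.coe_add, NNReal.coe_ofNat]) <;> linarith
      have e5 : ov ((p - min s w + U : ℝ≥0) : ℝ) ((p + U : ℝ≥0) : ℝ) ((2 : ℝ≥0) : ℝ)
          ((2 + (t - w) : ℝ≥0) : ℝ) = 0 := by
        rw [NNReal.coe_add (p - min s w), es]
        apply ov_disj <;> (try simp only [NNReal.coe_add, NNReal.coe_ofNat]) <;> linarith
      have e6 : ov ((p - min s w : ℝ≥0) : ℝ) ((p : ℝ≥0) : ℝ) ((2 : ℝ≥0) : ℝ)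
          ((2 + (t - w) : ℝ≥0) : ℝ) = 0 := by
        rw [es]
        apply ov_disj <;> (try simp only [NNReal.coe_add, NNReal.coe_ofNat]) <;>
          linarith [U.coe_nonneg]
      have e7 : ov ((2 : ℝ≥0) : ℝ) ((2 + (s - w) : ℝ≥0) : ℝ) ((p - min t w + U : ℝ≥0) : ℝ)
          ((p + U : ℝ≥0) : ℝ) = 0 := by
        rw [NNReal.coe_add (p - min t w), et]
        apply ov_disj' <;> (try simp only [NNReal.coe_add, NNReal.coe_ofNat]) <;> linarith
      have e8 : ov ((2 : ℝ≥0) : ℝ) ((2 + (s - w) : ℝ≥0) : ℝ) ((p - min t w : ℝ≥0) : ℝ)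
          ((p : ℝ≥0) : ℝ) = 0 := by
        rw [et]
        apply ov_disj' <;> (try simp only [NNReal.coe_add, NNReal.coe_ofNat]) <;>
          linarith [U.coe_nonneg]
      rw [e1, e2, e3, e4, e5, e6, e7, e8]
      have e9 := min_add_tsub s w
      have e10 := sq2
      linear_combination 2 * ((min s w : ℝ≥0) : ℝ) * e10 + e9)
  refine h.congr fun r => ae_of_all _ fun x => ?_
  simp only [Fin.sum_univ_three, Matrix.cons_val_zero, Matrix.cons_val_one, Matrix.cons_val_two,
    Matrix.head_cons, Matrix.tail_cons, Matrix.cons_val, ext_apply, Lt_apply]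
  ring

/-- the left increment process on `[0,w]` is independent of the block `[p, p+h]` -/
lemma Lt_indep {p U w h : ℝ≥0} (hwp : w ≤ p) (hd : p + h + w ≤ p + U) :
    IndepFun (fun x => stop w (Lt p U x)) (fun x => stop h (shift p x)) W := by
  apply indep_path
  have hh := ind_lin hW (S := ℝ≥0) (T := ℝ≥0) (ι := Fin 2) (κ := Fin 1)
    (fun _ => ![-(√2)⁻¹, (√2)⁻¹]) (fun r => ![p - min r w + U, p - min r w]) (fun _ => ![p + U, p])
    (fun _ => ![1]) (fun _ => ![p]) (fun r => ![p + min r h]) (by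
      intro s t
      have c0 : (w : ℝ) ≤ p := by exact_mod_cast hwp
      have c1 : (p : ℝ) + h + w ≤ p + U := by exact_mod_cast hd
      have hs : ((min s w : ℝ≥0) : ℝ) ≤ w := by exact_mod_cast min_le_right s w
      have es : ((p - min s w : ℝ≥0) : ℝ) = p - (min s w : ℝ≥0) :=
        NNReal.coe_sub ((min_le_right s w).trans hwp)
      have ht : ((min t h : ℝ≥0) : ℝ) ≤ h := by exact_mod_cast min_le_right t h
      have hs0 := (min s w).coe_nonneg
      have ht0 := (min t h).coe_nonneg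
      simp only [Fin.sum_univ_two, Fin.sum_univ_one, Matrix.cons_val_zero, Matrix.cons_val_one,
        Matrix.head_cons, Matrix.cons_val]
      have e1 : ov ((p - min s w + U : ℝ≥0) : ℝ) ((p + U : ℝ≥0) : ℝ) ((p : ℝ≥0) : ℝ)
          ((p + min t h : ℝ≥0) : ℝ) = 0 := by
        rw [NNReal.coe_add (p - min s w), es]
        apply ov_disj' <;> (try simp only [NNReal.coe_add, NNReal.coe_ofNat]) <;> linarith
      have e2 : ov ((p - min s w : ℝ≥0) : ℝ) ((p : ℝ≥0) : ℝ) ((p : ℝ≥0) : ℝ)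
          ((p + min t h : ℝ≥0) : ℝ) = 0 := by
        rw [es]
        apply ov_disj <;> (try simp only [NNReal.coe_add, NNReal.coe_ofNat]) <;> linarith
      rw [e1, e2]
      ring)
  refine hh.congr (ae_of_all _ fun x => ?_) (ae_of_all _ fun x => ?_)
  · funext r
    simp only [Fin.sum_univ_two, Matrix.cons_val_zero, Matrix.cons_val_one, Matrix.head_cons,
      Matrix.cons_val, Lt_apply, stop_apply]
    ring
  · funext r
    simp only [Fin.sum_univ_one, Matrix.cons_val_zero, stop_apply, shift_apply]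
    ring

/-- persistence of the left increment process -/
lemma Lt_pers {p U w : ℝ≥0} (hwp : w ≤ p) (hwU : w ≤ U) (h2 : p + U ≤ 1) (hw : 0 < w) {k : ℝ}
    (hk : 0 < k) : W {x | ∀ r, r ≤ w → Lt p U x r ≤ k} ≤ ENNReal.ofReal (2 * k / √(w : ℝ)) ∧
    W {x | ∀ r, r ≤ w → -Lt p U x r ≤ k} ≤ ENNReal.ofReal (2 * k / √(w : ℝ)) := by
  have hm : MeasurableSet {z : Path | ∀ r, r ≤ w → z r ≤ k} := by
    have e : {z : Path | ∀ r, r ≤ w → z r ≤ k} = ⋂ r, ⋂ (_ : r ≤ w), {z : Path | z r ≤ k} := by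
      ext z; simp only [mem_ofPred_eq, mem_iInter]
    rw [e]
    exact (isClosed_iInter fun r => isClosed_iInter fun _ =>
      isClosed_le (by fun_prop) continuous_const).measurableSet
  have hlaw := Lt_law' hW hwp hwU h2
  constructor
  · refine (ext_prob (B := {z : Path | ∀ r, r ≤ w → z r ≤ k}) (Lt_meas p U) hlaw hm ?_).trans
      (pers hW hk hw)
    intro x hx r hr
    rw [ext_of_le hr]
    exact hx r hr
  · have e1 : W (ng ⁻¹' {z : Path | ∀ r, r ≤ w → z r ≤ k}) = W {z : Path | ∀ r, r ≤ w → z r ≤ k} :=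
      (ng_mp hW).measure_preimage hm.nullMeasurableSet
    have h3 := pers hW hk hw
    rw [← e1] at h3
    refine (ext_prob (B := {z : Path | ∀ r, r ≤ w → -z r ≤ k}) (Lt_meas p U) hlaw (ng_meas hm) ?_).trans h3
    intro x hx r hr
    show ng (ext w (Lt p U) x) r ≤ k
    rw [ng_apply, ext_of_le hr]
    exact hx r hr

lemma am_tail (n : ℕ) : W {z : Path | (n : ℝ) ≤ am 1 z} ≤ ENNReal.ofReal (4 * Real.exp (-((n : ℝ) ^ 2 / 2))) := by
  have hWp := isProb hW
  rcases Nat.eq_zero_or_pos n with h0 | h0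
  · subst h0
    refine prob_le_one.trans ?_
    norm_num
  · have hn0 : (0 : ℝ) < n := by exact_mod_cast h0
    have h1 := sup_tail hW hn0 (zero_lt_one' ℝ≥0)
    have e3 : W {z : Path | ∃ s, s ≤ 1 ∧ (n : ℝ) ≤ - z s} = W {x : Path | ∃ s, s ≤ 1 ∧ (n : ℝ) ≤ x s} :=
      (ng_mp hW).measure_preimage (Ga_meas n 1).nullMeasurableSet
    have h2 := h1
    rw [← e3] at h2
    calc W {z : Path | (n : ℝ) ≤ am 1 z} ≤
        W ({x : Path | ∃ s, s ≤ 1 ∧ (n : ℝ) ≤ x s} ∪ {z : Path | ∃ s, s ≤ 1 ∧ (n : ℝ) ≤ - z s}) := by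
          apply measure_mono
          intro z hz
          obtain ⟨r, hr, h3⟩ := am_att 1 z
          have h4 : (n : ℝ) ≤ |z r| := by rw [h3]; exact hz
          rcases le_abs.1 h4 with h5 | h5
          · exact Or.inl ⟨r, hr, h5⟩
          · exact Or.inr ⟨r, hr, h5⟩
      _ ≤ _ := measure_union_le _ _
      _ ≤ _ := add_le_add h1 h2
      _ = _ := by
          rw [← ENNReal.ofReal_add (by positivity) (by positivity)]
          congr 1
          push_cast
          rw [mul_one]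
          ring

/-- second moment -/
lemma am_sq : ∫⁻ z : Path, ENNReal.ofReal ((am 1 z) ^ 2) ∂W ≠ ⊤ := by
  have h1 : ∀ z : Path, ENNReal.ofReal ((am 1 z) ^ 2) ≤
      ∑' n : ℕ, {z : Path | (n : ℝ) ≤ am 1 z}.indicator (fun _ => ENNReal.ofReal (((n : ℝ) + 1) ^ 2)) z := by
    intro z
    have h0 := am_nonneg 1 z
    set n := ⌊am 1 z⌋₊ with hn'
    have h2 : (n : ℝ) ≤ am 1 z := Nat.floor_le h0
    have h3 : am 1 z < n + 1 := Nat.lt_floor_add_one _
    refine le_trans ?_ (ENNReal.le_tsum n)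
    rw [indicator_of_mem (show z ∈ {z : Path | (n : ℝ) ≤ am 1 z} from h2)]
    apply ENNReal.ofReal_le_ofReal
    gcongr
  refine ne_top_of_le_ne_top ?_ (lintegral_mono h1)
  have mS : ∀ n : ℕ, MeasurableSet {z : Path | (n : ℝ) ≤ am 1 z} := fun n =>
    measurableSet_le measurable_const (am_meas 1)
  rw [lintegral_tsum fun n => ((measurable_const.indicator (mS n)).aemeasurable)]
  have h4 : ∀ n : ℕ, ∫⁻ z : Path, {z : Path | (n : ℝ) ≤ am 1 z}.indicator
      (fun _ => ENNReal.ofReal (((n : ℝ) + 1) ^ 2)) z ∂W ≤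
      ENNReal.ofReal (((n : ℝ) + 1) ^ 2 * (4 * Real.exp (-((n : ℝ) ^ 2 / 2)))) := by
    intro n
    rw [lintegral_indicator_const (mS n), ENNReal.ofReal_mul (by positivity)]
    gcongr
    exact am_tail hW n
  refine ne_top_of_le_ne_top ?_ (ENNReal.tsum_le_tsum h4)
  have h5 : Summable (fun n : ℕ => ((n : ℝ) + 1) ^ 2 * (4 * Real.exp (-((n : ℝ) ^ 2 / 2)))) := by
    have h6 := (summable_nat_add_iff 1).2 (Real.summable_pow_mul_exp_neg_nat_mul 2 (r := 1) one_pos)
    refine Summable.of_nonneg_of_le (fun n => by positivity) (fun n => ?_) (h6.mul_left (4 * Real.exp 2))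
    push_cast
    have h7 : Real.exp (-((n : ℝ) ^ 2 / 2)) ≤ Real.exp 2 * Real.exp (-1 * ((n : ℝ) + 1)) := by
      rw [← Real.exp_add]
      apply Real.exp_le_exp.2
      nlinarith [sq_nonneg ((n : ℝ) - 1)]
    calc ((n : ℝ) + 1) ^ 2 * (4 * Real.exp (-((n : ℝ) ^ 2 / 2))) ≤
        ((n : ℝ) + 1) ^ 2 * (4 * (Real.exp 2 * Real.exp (-1 * ((n : ℝ) + 1)))) := by gcongr
      _ = _ := by ring
  exact h5.tsum_ofReal_ne_top

lemma am_sq' (M : ℝ) : ∫⁻ z : Path, ENNReal.ofReal ((M + am 1 z) ^ 2) ∂W ≠ ⊤ := by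
  have hWp := isProb hW
  have h1 : ∀ z : Path, ENNReal.ofReal ((M + am 1 z) ^ 2) ≤
      ENNReal.ofReal (2 * M ^ 2) + 2 * ENNReal.ofReal ((am 1 z) ^ 2) := by
    intro z
    have e : (2 : ℝ≥0∞) = ENNReal.ofReal 2 := by simp
    rw [e, ← ENNReal.ofReal_mul (by norm_num), ← ENNReal.ofReal_add (by positivity) (by positivity)]
    apply ENNReal.ofReal_le_ofReal
    nlinarith [sq_nonneg (M - am 1 z)]
  refine ne_top_of_le_ne_top ?_ (lintegral_mono h1)
  have hm : Measurable (fun z : Path => ENNReal.ofReal ((am 1 z) ^ 2)) :=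
    ((am_meas 1).pow_const 2).ennreal_ofReal
  rw [lintegral_add_left measurable_const, lintegral_const, measure_univ, mul_one,
    lintegral_const_mul _ hm]
  exact ENNReal.add_ne_top.2 ⟨ENNReal.ofReal_ne_top, ENNReal.mul_ne_top (by norm_num) (am_sq hW)⟩

end Q297.Df
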