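import Pool.Agent.Q297.DfG

/-!
First moment estimate for the lags at which the path comes near its end value and leaves it.
-/

open MeasureTheory ProbabilityTheory Set Filter Topology
open scoped ENNReal NNReal
open Q297.PathC Q297.Prepend Q297.TwoS Q297.Dec Q297.Spn

namespace Q297.Df

/-- the event for one lag -/
def Ev (u h : ℝ≥0) (b a : ℝ) : Set Path :=
  {x | (u : ℝ) ∉ ST 1 x ∧ (∃ r ∈ Icc 0 h, |x (1 - u + r) - x 1| ≤ b) ∧
    ∃ r ∈ Icc 0 h, a ≤ |x (1 - u + r) - x 1|}

/-- the bound for the distance of the values -/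
noncomputable def kap (b : ℝ) (p h : ℝ≥0) (x : Path) : ℝ := b + am h (shift p x)

/-- the part of the event which does not involve the middle block -/
def TT (σ b a : ℝ) (p U w h : ℝ≥0) : Set Path :=
  {x | a ≤ 2 * kap b p h x ∧ ∀ r, r ≤ w → σ * Lt p U x r ≤ (√2)⁻¹ * kap b p h x}

/-- the full event -/
def EE (σ b a : ℝ) (p U w h : ℝ≥0) : Set Path :=
  {x | x ∈ TT σ b a p U w h ∧ |x 1 - x p| ≤ kap b p h x}

lemma kap_cont (b : ℝ) (p h : ℝ≥0) : Continuous (kap b p h) := by
  have h1 : Continuous (fun x : Path => shift p x) := by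
    refine ContinuousMap.continuous_of_continuous_uncurry _ ?_
    show Continuous (fun q : Path × ℝ≥0 => shift p q.1 q.2)
    simp only [shift_apply]
    fun_prop
  exact continuous_const.add ((am_cont h).comp h1)

lemma Lt_cont1 (p U r : ℝ≥0) : Continuous (fun x : Path => Lt p U x r) := by
  simp only [Lt_apply]
  fun_prop

lemma TT_closed (σ b a : ℝ) (p U w h : ℝ≥0) : IsClosed (TT σ b a p U w h) := by
  have e : TT σ b a p U w h = {x | a ≤ 2 * kap b p h x} ∩
      ⋂ r, ⋂ (_ : r ≤ w), {x | σ * Lt p U x r ≤ (√2)⁻¹ * kap b p h x} := by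
    ext x; simp only [TT, mem_ofPred_eq, mem_inter_iff, mem_iInter]
  rw [e]
  have hk := kap_cont b p h
  refine (isClosed_le continuous_const (continuous_const.mul hk)).inter
    (isClosed_iInter fun r => isClosed_iInter fun _ => isClosed_le
      (continuous_const.mul (Lt_cont1 p U r)) (continuous_const.mul hk))

lemma EE_closed (σ b a : ℝ) (p U w h : ℝ≥0) : IsClosed (EE σ b a p U w h) := by
  refine (TT_closed σ b a p U w h).inter (isClosed_le ?_ (kap_cont b p h))
  exact (by fun_prop : Continuous fun x : Path => x 1 - x p).abs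

/-- a lag which is not present: the increments have constant sign -/
lemma not_mem_sign {x : Path} {u : ℝ≥0} (h : (u : ℝ) ∉ ST 1 x) :
    (∀ s, s + u ≤ 1 → x s < x (s + u)) ∨ (∀ s, s + u ≤ 1 → x (s + u) < x s) := by
  by_contra hcon
  rw [not_or] at hcon
  obtain ⟨h1, h2⟩ := hcon
  push Not at h1 h2
  obtain ⟨s1, a1, a2⟩ := h1
  obtain ⟨s2, b1, b2⟩ := h2
  have ha : x (s1 + u) ≠ x s1 := fun he => h ⟨s1, s1 + u, le_self_add, a1, he.symm, by push_cast; ring⟩
  have hb : x (s2 + u) ≠ x s2 := fun he => h ⟨s2, s2 + u, le_self_add, b1, he.symm, by push_cast; ring⟩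
  have a3 : x (s1 + u) < x s1 := lt_of_le_of_ne a2 ha
  have b3 : x s2 < x (s2 + u) := lt_of_le_of_ne b2 (Ne.symm hb)
  exact h (sc_span (f := x) (u := u) le_rfl ⟨⟨s2, b1, by linarith⟩, ⟨s1, a1, by linarith⟩⟩)

lemma Ev_sub {u h : ℝ≥0} (w : ℝ≥0) (hu : u ≤ 1) (b a : ℝ) :
    Ev u h b a ⊆ EE 1 b a (1 - u) u w h ∪ EE (-1) b a (1 - u) u w h := by
  rintro x ⟨h1, ⟨r, hr, h2⟩, ⟨r', hr', h3⟩⟩
  set p : ℝ≥0 := 1 - u with hp
  have hpu : p + u = 1 := tsub_add_cancel_of_le hu
  have k1 := am_ge hr.2 (shift p x)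
  have k2 := am_ge hr'.2 (shift p x)
  rw [shift_apply] at k1 k2
  have hy : |x 1 - x p| ≤ kap b p h x := by
    unfold kap
    calc |x 1 - x p| = |-(x (p + r) - x 1) + (x (p + r) - x p)| := by congr 1; ring
      _ ≤ |-(x (p + r) - x 1)| + |x (p + r) - x p| := abs_add_le _ _
      _ ≤ _ := by rw [abs_neg]; linarith
  have ha : a ≤ 2 * kap b p h x := by
    have h4 : |x (p + r') - x 1| ≤ |x (p + r') - x p| + |x 1 - x p| := by
      calc |x (p + r') - x 1| = |(x (p + r') - x p) - (x 1 - x p)| := by congr 1; ring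
        _ ≤ _ := abs_sub _ _
    have h5 : am h (shift p x) ≤ kap b p h x := by
      unfold kap
      have : 0 ≤ b := (abs_nonneg _).trans h2
      linarith
    linarith
  have s2 : (0 : ℝ) < √2 := by positivity
  have key : ∀ s, s ≤ w → Lt p u x s = (√2)⁻¹ * ((x (p - s + u) - x (p - s)) - (x 1 - x p)) := by
    intro s _
    rw [Lt_apply, hpu]
    ring
  have hle : ∀ s, s ≤ w → p - s + u ≤ 1 := by
    intro s _
    calc p - s + u ≤ p + u := by gcongr; exact tsub_le_self
      _ = 1 := hpu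
  have hinv : (0 : ℝ) < (√2)⁻¹ := inv_pos.2 s2
  have hy' := abs_le.1 hy
  rcases not_mem_sign h1 with h4 | h4
  · right
    refine ⟨⟨ha, fun s hs => ?_⟩, hy⟩
    rw [key s hs]
    have := h4 (p - s) (hle s hs)
    rw [neg_one_mul, ← mul_neg]
    apply mul_le_mul_of_nonneg_left _ hinv.le
    linarith [hy'.2]
  · left
    refine ⟨⟨ha, fun s hs => ?_⟩, hy⟩
    rw [key s hs]
    have := h4 (p - s) (hle s hs)
    rw [one_mul]
    apply mul_le_mul_of_nonneg_left _ hinv.le
    linarith [hy'.1]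

variable {W : Measure Path} (hW : IsBrownianReal (fun (t : ℝ≥0) (x : Path) => x t) W)

include hW

omit hW in
lemma kap_nonneg {b : ℝ} (hb : 0 ≤ b) (p h : ℝ≥0) (x : Path) : 0 ≤ kap b p h x :=
  add_nonneg hb (am_nonneg _ _)

/-- integrating out the middle block -/
lemma W_EE {σ b a : ℝ} (hb : 0 ≤ b) {p U w h : ℝ≥0} (hpU : p + U = 1) (hwp : w ≤ p) (hlt : p + h < 1 - w) :
    W (EE σ b a p U w h) ≤ ∫⁻ x, (TT σ b a p U w h).indicator (fun x =>
      ENNReal.ofReal (kap b p h x / √((1 - w - (p + h) : ℝ≥0) : ℝ))) x ∂W := by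
  rw [fubI hW hlt (EE_closed σ b a p U w h).measurableSet]
  refine lintegral_mono fun x => ?_
  set V : ℝ≥0 := 1 - w - (p + h) with hV
  have hV0 : V ≠ 0 := (tsub_pos_of_lt hlt).ne'
  have hw1 : w ≤ 1 := by
    by_contra hc
    push Not at hc
    rw [tsub_eq_zero_of_le hc.le] at hlt
    exact not_lt_bot hlt
  set z : ℝ → Path := fun θ => rs (p + h) (1 - w) x + θ • rp (p + h) (1 - w) with hz
  set d : ℝ := x (1 - w) - x (p + h) with hd
  have zlo : ∀ θ t, t ≤ p + h → z θ t = x t := by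
    intro θ t ht
    simp only [hz, ContinuousMap.add_apply, ContinuousMap.smul_apply, smul_eq_mul, rs_apply]
    rw [rp_lo ht hlt.le]
    ring
  have zhi : ∀ θ t, 1 - w ≤ t → z θ t = x t - d + θ := by
    intro θ t ht
    simp only [hz, ContinuousMap.add_apply, ContinuousMap.smul_apply, smul_eq_mul, rs_apply]
    rw [rp_hi ht hlt]
    ring
  have hkap : ∀ θ, kap b p h (z θ) = kap b p h x := by
    intro θ
    unfold kap
    congr 1
    refine am_congr fun r hr => ?_
    rw [shift_apply, shift_apply, zlo θ _ (by gcongr), zlo θ _ le_self_add]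
  have hLt : ∀ θ r, r ≤ w → Lt p U (z θ) r = Lt p U x r := by
    intro θ r hr
    have e1 : 1 - w ≤ p - r + U := by
      have c1 : (w : ℝ) ≤ 1 := by exact_mod_cast hw1
      have c2 : (r : ℝ) ≤ w := by exact_mod_cast hr
      have c3 : (w : ℝ) ≤ p := by exact_mod_cast hwp
      have c4 : (p : ℝ) + U = 1 := by exact_mod_cast hpU
      rw [← NNReal.coe_le_coe]
      push_cast [NNReal.coe_sub hw1, NNReal.coe_sub (hr.trans hwp)]
      linarith
    rw [Lt_apply, Lt_apply, zhi θ _ e1, zhi θ (p + U) (by rw [hpU]; exact tsub_le_self),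
      zlo θ (p - r) (tsub_le_self.trans le_self_add), zlo θ p le_self_add]
    ring
  have hT : ∀ θ, z θ ∈ TT σ b a p U w h ↔ x ∈ TT σ b a p U w h := by
    intro θ
    simp only [TT, mem_ofPred_eq]
    rw [hkap θ]
    refine and_congr Iff.rfl (forall_congr' fun r => forall_congr' fun hr => ?_)
    rw [hLt θ r hr]
  show gaussianReal 0 V {θ | z θ ∈ EE σ b a p U w h} ≤ _
  by_cases hx : x ∈ TT σ b a p U w h
  · rw [indicator_of_mem hx]
    set κ := kap b p h x with hκ
    have hκ0 : 0 ≤ κ := kap_nonneg hb p h x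
    have hsub : {θ | z θ ∈ EE σ b a p U w h} ⊆ Icc (-(x 1 - d - x p) - κ) (-(x 1 - d - x p) + κ) := by
      rintro θ ⟨-, h2⟩
      rw [hkap θ, zhi θ 1 tsub_le_self, zlo θ p le_self_add] at h2
      have := abs_le.1 h2
      exact ⟨by linarith [this.1], by linarith [this.2]⟩
    refine (measure_mono hsub).trans ((gauss_set_le hV0 _).trans ?_)
    rw [Real.volume_Icc, ← ENNReal.ofReal_mul (by positivity)]
    apply ENNReal.ofReal_le_ofReal
    apply le_of_eq
    have : √(V : ℝ) ≠ 0 := (Real.sqrt_pos.2 (by exact_mod_cast pos_iff_ne_zero.2 hV0)).ne'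
    field_simp
    ring
  · have : {θ | z θ ∈ EE σ b a p U w h} = ∅ := by
      rw [eq_empty_iff_forall_notMem]
      rintro θ ⟨h2, -⟩
      exact hx ((hT θ).1 h2)
    rw [this, measure_empty]
    exact zero_le

/-- the integral over the blocks -/
lemma TT_int {σ : ℝ} (hσ : σ = 1 ∨ σ = -1) {b a : ℝ} (hb : 0 < b) {p U w h : ℝ≥0} (hpU : p + U = 1)
    (hw : 0 < w) (hwp : w ≤ p) (hwU : h + w ≤ U) {v : ℝ} (hv : 0 < v) :
    ∫⁻ x, (TT σ b a p U w h).indicator (fun x => ENNReal.ofReal (kap b p h x / v)) x ∂W ≤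
      ∫⁻ x, {x | a ≤ 2 * kap b p h x}.indicator (fun x => ENNReal.ofReal
        (√2 / (v * √(w : ℝ)) * kap b p h x ^ 2)) x ∂W := by
  have hWp := isProb hW
  set S : Set (Path × Path) := {q | a ≤ 2 * (b + am h q.2) ∧ ∀ r, r ≤ w → σ * q.1 r ≤ (√2)⁻¹ * (b + am h q.2)} with hS
  have mS : MeasurableSet S := by
    have e : S = {q | a ≤ 2 * (b + am h q.2)} ∩ ⋂ r, ⋂ (_ : r ≤ w),
        {q | σ * q.1 r ≤ (√2)⁻¹ * (b + am h q.2)} := by
      ext q; simp only [hS, mem_ofPred_eq, mem_inter_iff, mem_iInter]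
    have hc : Continuous (fun q : Path × Path => b + am h q.2) :=
      continuous_const.add ((am_cont h).comp continuous_snd)
    rw [e]
    exact ((isClosed_le continuous_const (continuous_const.mul hc)).inter
      (isClosed_iInter fun r => isClosed_iInter fun _ => isClosed_le (by fun_prop)
        (continuous_const.mul hc))).measurableSet
  set G : Path × Path → ℝ≥0∞ := S.indicator (fun q => ENNReal.ofReal ((b + am h q.2) / v)) with hG
  have mG : Measurable G := by
    refine Measurable.indicator ?_ mS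
    exact ((((am_meas h).comp measurable_snd).const_add b).div_const v).ennreal_ofReal
  set L : Path → Path := fun x => stop w (Lt p U x) with hL
  set Z : Path → Path := fun x => stop h (shift p x) with hZ
  have mL : Measurable L := (stop_meas1 w).comp (Lt_meas p U)
  have mZ : Measurable Z := (stop_meas1 h).comp (measurable_shift p)
  have hind := Lt_indep hW (p := p) (U := U) (w := w) (h := h) hwp (by
    rw [add_assoc]; gcongr)
  have hlaw := (indepFun_iff_map_prod_eq_prod_map_map mL.aemeasurable mZ.aemeasurable).1 hind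
  have e0 : ∀ x, (TT σ b a p U w h).indicator (fun x => ENNReal.ofReal (kap b p h x / v)) x = G (L x, Z x) := by
    intro x
    have e1 : b + am h (Z x) = kap b p h x := by rw [hZ]; simp only; rw [am_stop]; rfl
    have e2 : (L x, Z x) ∈ S ↔ x ∈ TT σ b a p U w h := by
      simp only [hS, TT, mem_ofPred_eq]
      rw [e1]
      refine and_congr Iff.rfl (forall_congr' fun r => forall_congr' fun hr => ?_)
      rw [hL]
      simp only [stop_apply]
      rw [min_eq_left hr]
    by_cases hx : x ∈ TT σ b a p U w h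
    · rw [indicator_of_mem hx, hG, indicator_of_mem (e2.2 hx)]
      simp only
      rw [e1]
    · rw [indicator_of_notMem hx, hG, indicator_of_notMem (fun hc => hx (e2.1 hc))]
  rw [lintegral_congr e0]
  have e3 : ∫⁻ x, G (L x, Z x) ∂W = ∫⁻ q, G q ∂(W.map (fun x => (L x, Z x))) :=
    (lintegral_map mG (mL.prodMk mZ)).symm
  have pL : IsProbabilityMeasure (W.map L) := Measure.isProbabilityMeasure_map mL.aemeasurable
  have pZ : IsProbabilityMeasure (W.map Z) := Measure.isProbabilityMeasure_map mZ.aemeasurable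
  rw [e3, hlaw, lintegral_prod_symm' _ mG, lintegral_map (mG.lintegral_prod_left') mZ]
  refine lintegral_mono fun x => ?_
  set k : ℝ := kap b p h x with hk
  have hk0 : 0 < k := add_pos_of_pos_of_nonneg hb (am_nonneg _ _)
  have e1 : b + am h (Z x) = k := by rw [hZ]; simp only; rw [am_stop]; rfl
  have e6 : ∫⁻ l, G (l, Z x) ∂(W.map L) = ∫⁻ y, G (L y, Z x) ∂W :=
    lintegral_map (f := fun l => G (l, Z x)) (mG.comp (measurable_id.prodMk measurable_const)) mL
  rw [e6]
  by_cases hx : a ≤ 2 * k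
  · rw [indicator_of_mem (show x ∈ {x | a ≤ 2 * kap b p h x} from hx)]
    have e4 : ∀ y, G (L y, Z x) ≤ {y | ∀ r, r ≤ w → σ * Lt p U y r ≤ (√2)⁻¹ * k}.indicator
        (fun _ => ENNReal.ofReal (k / v)) y := by
      intro y
      by_cases hy : (L y, Z x) ∈ S
      · rw [hG, indicator_of_mem hy]
        have hy2 : ∀ r, r ≤ w → σ * Lt p U y r ≤ (√2)⁻¹ * k := by
          intro r hr
          have h3 := hy.2 r hr
          simp only at h3
          rw [e1] at h3
          rw [hL] at h3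
          simp only [stop_apply] at h3
          rwa [min_eq_left hr] at h3
        rw [indicator_of_mem (show y ∈ {y | ∀ r, r ≤ w → σ * Lt p U y r ≤ (√2)⁻¹ * k} from hy2)]
        simp only
        rw [e1]
      · rw [hG, indicator_of_notMem hy]
        exact zero_le
    have mset : MeasurableSet {y | ∀ r, r ≤ w → σ * Lt p U y r ≤ (√2)⁻¹ * k} := by
      have e : {y | ∀ r, r ≤ w → σ * Lt p U y r ≤ (√2)⁻¹ * k} =
          ⋂ r, ⋂ (_ : r ≤ w), {y | σ * Lt p U y r ≤ (√2)⁻¹ * k} := by
        ext y; simp only [mem_ofPred_eq, mem_iInter]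
      rw [e]
      exact (isClosed_iInter fun r => isClosed_iInter fun _ => isClosed_le
        (continuous_const.mul (Lt_cont1 p U r)) continuous_const).measurableSet
    refine (lintegral_mono e4).trans ?_
    rw [lintegral_indicator_const mset]
    have hpers := Lt_pers hW hwp (le_add_self.trans hwU) hpU.le hw (k := (√2)⁻¹ * k) (by positivity)
    have h5 : W {y | ∀ r, r ≤ w → σ * Lt p U y r ≤ (√2)⁻¹ * k} ≤
        ENNReal.ofReal (2 * ((√2)⁻¹ * k) / √(w : ℝ)) := by
      rcases hσ with h | h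
      · rw [h]
        simp only [one_mul]
        exact hpers.1
      · rw [h]
        simp only [neg_one_mul]
        exact hpers.2
    calc ENNReal.ofReal (k / v) * W {y | ∀ r, r ≤ w → σ * Lt p U y r ≤ (√2)⁻¹ * k} ≤
        ENNReal.ofReal (k / v) * ENNReal.ofReal (2 * ((√2)⁻¹ * k) / √(w : ℝ)) := by gcongr
      _ = ENNReal.ofReal (k / v * (2 * ((√2)⁻¹ * k) / √(w : ℝ))) := by
          rw [ENNReal.ofReal_mul (by positivity)]
      _ ≤ _ := by
          apply ENNReal.ofReal_le_ofReal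
          apply le_of_eq
          have hsw : √(w : ℝ) ≠ 0 := (Real.sqrt_pos.2 (by exact_mod_cast hw)).ne'
          have h2 : (√2)⁻¹ * 2 = √2 := by
            rw [inv_mul_eq_iff_eq_mul₀ (by positivity), Real.mul_self_sqrt (by norm_num)]
          field_simp
          have h3 : √2 ^ 2 = (2 : ℝ) := Real.sq_sqrt (by norm_num)
          rw [h3, ← hk]
          ring
  · rw [indicator_of_notMem (show x ∉ {x | a ≤ 2 * kap b p h x} from hx)]
    have e4 : ∀ y, G (L y, Z x) = 0 := by
      intro y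
      rw [hG, indicator_of_notMem]
      rintro ⟨h3, -⟩
      simp only at h3
      rw [e1] at h3
      exact hx h3
    show ∫⁻ y, G (L y, Z x) ∂W ≤ 0
    rw [lintegral_congr e4, lintegral_zero]

/-- the tail of the second moment -/
noncomputable def ZZ (W : Measure Path) (M A : ℝ) : ℝ≥0∞ :=
  ∫⁻ z in {z : Path | A ≤ 2 * (M + am 1 z)}, ENNReal.ofReal ((M + am 1 z) ^ 2) ∂W

lemma scaled {M A C : ℝ} (hC : 0 ≤ C) {p h : ℝ≥0} (hh : 0 < h) :
    ∫⁻ x, {x | A * √(h : ℝ) ≤ 2 * kap (M * √(h : ℝ)) p h x}.indicator (fun x => ENNReal.ofReal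
        (C * kap (M * √(h : ℝ)) p h x ^ 2)) x ∂W = ENNReal.ofReal (C * h) * ZZ W M A := by
  have hp : (0 : ℝ) < h := by exact_mod_cast hh
  have hsq : 0 < √(h : ℝ) := Real.sqrt_pos.2 hp
  have hmp : MeasurePreserving (fun x => sc h (shift p x)) W W :=
    (sc_mp hW hh.ne').comp ⟨measurable_shift p, map_shift hW p⟩
  have mA : MeasurableSet {z : Path | A ≤ 2 * (M + am 1 z)} :=
    measurableSet_le measurable_const (((am_meas 1).const_add M).const_mul 2)
  have mf : Measurable (fun z : Path => ENNReal.ofReal ((M + am 1 z) ^ 2)) :=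
    (((am_meas 1).const_add M).pow_const 2).ennreal_ofReal
  have e : ∀ x, {x | A * √(h : ℝ) ≤ 2 * kap (M * √(h : ℝ)) p h x}.indicator (fun x => ENNReal.ofReal
        (C * kap (M * √(h : ℝ)) p h x ^ 2)) x =
      (fun z => ENNReal.ofReal (C * h) * {z : Path | A ≤ 2 * (M + am 1 z)}.indicator
        (fun z : Path => ENNReal.ofReal ((M + am 1 z) ^ 2)) z) (sc h (shift p x)) := by
    intro x
    have e1 : kap (M * √(h : ℝ)) p h x = √(h : ℝ) * (M + am 1 (sc h (shift p x))) := by
      unfold kap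
      rw [am_sc hh]
      ring
    have e2 : x ∈ {x | A * √(h : ℝ) ≤ 2 * kap (M * √(h : ℝ)) p h x} ↔
        sc h (shift p x) ∈ {z : Path | A ≤ 2 * (M + am 1 z)} := by
      simp only [mem_ofPred_eq]
      rw [e1]
      constructor
      · intro h3
        have : √(h : ℝ) * A ≤ √(h : ℝ) * (2 * (M + am 1 (sc h (shift p x)))) := by linarith
        exact le_of_mul_le_mul_left this hsq
      · intro h3
        have := mul_le_mul_of_nonneg_left h3 hsq.le
        linarith
    by_cases hx : x ∈ {x | A * √(h : ℝ) ≤ 2 * kap (M * √(h : ℝ)) p h x}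
    · rw [indicator_of_mem hx]
      simp only
      rw [indicator_of_mem (e2.1 hx), ← ENNReal.ofReal_mul (by positivity), e1]
      congr 1
      rw [mul_pow, Real.sq_sqrt hp.le]
      ring
    · rw [indicator_of_notMem hx]
      simp only
      rw [indicator_of_notMem (fun hc => hx (e2.2 hc)), mul_zero]
  rw [lintegral_congr e, hmp.lintegral_comp ((mf.indicator mA).const_mul _),
    lintegral_const_mul _ (mf.indicator mA), lintegral_indicator mA]
  rfl

/-- **first moment estimate** -/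
theorem Ev_le {δ u h : ℝ≥0} (hδ : 0 < δ) (h1 : δ ≤ u) (h2 : u + δ ≤ 1) (hh : 0 < h) (h3 : 4 * h ≤ δ)
    {M : ℝ} (hM : 0 < M) (A : ℝ) :
    W (Ev u h (M * √(h : ℝ)) (A * √(h : ℝ))) ≤ 2 * (ENNReal.ofReal (4 / δ * h) * ZZ W M A) := by
  have hu : u ≤ 1 := le_self_add.trans h2
  have c1 : (δ : ℝ) ≤ u := by exact_mod_cast h1
  have c2 : (u : ℝ) + δ ≤ 1 := by exact_mod_cast h2
  have c3 : 4 * (h : ℝ) ≤ δ := by exact_mod_cast h3
  have cδ : (0 : ℝ) < δ := by exact_mod_cast hδ
  have ch : (0 : ℝ) < h := by exact_mod_cast hh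
  set p : ℝ≥0 := 1 - u with hp
  have cp : (p : ℝ) = 1 - u := by rw [hp, NNReal.coe_sub hu, NNReal.coe_one]
  set w : ℝ≥0 := δ / 2 with hw
  have cw : (w : ℝ) = δ / 2 := by rw [hw]; push_cast; rfl
  have hpU : p + u = 1 := tsub_add_cancel_of_le hu
  have hwp : w ≤ p := by rw [← NNReal.coe_le_coe, cw, cp]; linarith
  have hw1 : w ≤ 1 := by rw [← NNReal.coe_le_coe, cw]; push_cast; linarith
  have hw0 : 0 < w := by rw [hw]; positivity
  have hlt : p + h < 1 - w := by
    rw [← NNReal.coe_lt_coe, NNReal.coe_add, NNReal.coe_sub hw1, cw, cp]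
    push_cast
    linarith
  have hwU : h + w ≤ u := by rw [← NNReal.coe_le_coe, NNReal.coe_add, cw]; linarith
  have hb : 0 < M * √(h : ℝ) := mul_pos hM (Real.sqrt_pos.2 ch)
  set V : ℝ≥0 := 1 - w - (p + h) with hV
  have cV : (V : ℝ) = u - δ / 2 - h := by
    rw [hV, NNReal.coe_sub hlt.le, NNReal.coe_sub hw1, NNReal.coe_add, cw, cp]
    push_cast
    ring
  have hV4 : (δ : ℝ) / 4 ≤ V := by rw [cV]; linarith
  have hv : 0 < √(V : ℝ) := Real.sqrt_pos.2 (by linarith)
  have hC : √2 / (√(V : ℝ) * √(w : ℝ)) ≤ 4 / δ := by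
    rw [← Real.sqrt_mul (NNReal.coe_nonneg V), div_le_div_iff₀ (Real.sqrt_pos.2 (by
      rw [cw]; apply mul_pos <;> linarith)) cδ]
    have h4 : (δ : ℝ) ^ 2 / 8 ≤ V * w := by rw [cw]; nlinarith
    have h5 : √2 * δ ≤ √(16 * (V * w)) := by
      apply Real.le_sqrt_of_sq_le
      rw [mul_pow, Real.sq_sqrt (by norm_num)]
      nlinarith
    rw [Real.sqrt_mul (by norm_num : (0 : ℝ) ≤ 16), show (16 : ℝ) = 4 ^ 2 by norm_num,
      Real.sqrt_sq (by norm_num)] at h5
    exact h5
  have key : ∀ σ : ℝ, σ = 1 ∨ σ = -1 →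
      W (EE σ (M * √(h : ℝ)) (A * √(h : ℝ)) p u w h) ≤ ENNReal.ofReal (4 / δ * h) * ZZ W M A := by
    intro σ hσ
    refine (W_EE hW hb.le hpU hwp hlt).trans ((TT_int hW hσ hb hpU hw0 hwp hwU hv).trans ?_)
    rw [scaled hW (by positivity) hh]
    gcongr
  refine (measure_mono (Ev_sub w hu _ _)).trans ((measure_union_le _ _).trans ?_)
  rw [two_mul]
  exact add_le_add (key 1 (Or.inl rfl)) (key (-1) (Or.inr rfl))

/-- the bound tends to zero -/
lemma ZZ_lim (M : ℝ) : Tendsto (fun j : ℕ => ZZ W M (2 ^ j)) atTop (𝓝 0) := by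
  have hWp := isProb hW
  refine tendsto_setLIntegral_zero (am_sq' hW M) ?_
  have hanti : Antitone (fun j : ℕ => {z : Path | (2 : ℝ) ^ j ≤ 2 * (M + am 1 z)}) := by
    intro i j hij z hz
    have : (2 : ℝ) ^ i ≤ 2 ^ j := pow_le_pow_right₀ (by norm_num) hij
    exact this.trans hz
  have hm : ∀ j : ℕ, MeasurableSet {z : Path | (2 : ℝ) ^ j ≤ 2 * (M + am 1 z)} := fun j =>
    measurableSet_le measurable_const (((am_meas 1).const_add M).const_mul 2)
  have h1 := tendsto_measure_iInter_atTop (μ := W) (fun j => (hm j).nullMeasurableSet) hanti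
    ⟨0, measure_ne_top _ _⟩
  have h2 : ⋂ j : ℕ, {z : Path | (2 : ℝ) ^ j ≤ 2 * (M + am 1 z)} = ∅ := by
    rw [eq_empty_iff_forall_notMem]
    intro z hz
    rw [mem_iInter] at hz
    obtain ⟨j, hj⟩ := pow_unbounded_of_one_lt (2 * (M + am 1 z)) (by norm_num : (1 : ℝ) < 2)
    exact absurd (hz j) (not_le.2 hj)
  rw [h2, measure_empty] at h1
  exact h1

end Q297.Df
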