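import Pool.Agent.Q297.DfH

/-!
The measure of the span set has no atoms; final statements.
-/

open MeasureTheory ProbabilityTheory Set Filter Topology
open scoped ENNReal NNReal
open Q297.PathC Q297.Prepend Q297.TwoS Q297.Dec Q297.Spn

namespace Q297.Df

/-- the joint set -/
def ED (δ h : ℝ≥0) (b a : ℝ) : Set (Path × ℝ) := {q | q.2 ∈ DD δ h b a q.1}

lemma ED_meas (δ h : ℝ≥0) (b a : ℝ) : MeasurableSet (ED δ h b a) := by
  have c1 : IsClosed {q : Path × ℝ | (δ : ℝ) ≤ q.2} := isClosed_le (by fun_prop) (by fun_prop)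
  have c2 : IsClosed {q : Path × ℝ | q.2 ≤ 1 - δ} := isClosed_le (by fun_prop) (by fun_prop)
  have c3 : MeasurableSet {q : Path × ℝ | q.2 ∉ ST 1 q.1} := (ST_closed 1).measurableSet.compl
  have hc : Continuous (fun z : (Path × ℝ) × ℝ≥0 => |z.1.1 (1 - z.1.2.toNNReal + z.2) - z.1.1 1|) := by
    have : Continuous (fun z : (Path × ℝ) × ℝ≥0 => z.1.1 (1 - z.1.2.toNNReal + z.2) - z.1.1 1) := by
      fun_prop
    exact this.abs
  have c4 := closed_exX (X := Path × ℝ) (K := Icc (0 : ℝ≥0) h) isCompact_Icc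
    (C := {z : (Path × ℝ) × ℝ≥0 | |z.1.1 (1 - z.1.2.toNNReal + z.2) - z.1.1 1| ≤ b})
    (isClosed_le hc continuous_const)
  have c5 := closed_exX (X := Path × ℝ) (K := Icc (0 : ℝ≥0) h) isCompact_Icc
    (C := {z : (Path × ℝ) × ℝ≥0 | a ≤ |z.1.1 (1 - z.1.2.toNNReal + z.2) - z.1.1 1|})
    (isClosed_le continuous_const hc)
  exact c1.measurableSet.inter (c2.measurableSet.inter (c3.inter (c4.measurableSet.inter c5.measurableSet)))

lemma DD_meas (δ h : ℝ≥0) (b a : ℝ) : Measurable (fun x : Path => volume (DD δ h b a x)) :=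
  measurable_measure_prodMk_left (ν := (volume : Measure ℝ)) (ED_meas δ h b a)

variable {W : Measure Path} (hW : IsBrownianReal (fun (t : ℝ≥0) (x : Path) => x t) W)

include hW

lemma int_DD {δ h : ℝ≥0} (hδ : 0 < δ) (hh : 0 < h) (h3 : 4 * h ≤ δ) {M : ℝ} (hM : 0 < M) (A : ℝ) :
    ∫⁻ x, volume (DD δ h (M * √(h : ℝ)) (A * √(h : ℝ)) x) ∂W ≤
      2 * (ENNReal.ofReal (4 / δ * h) * ZZ W M A) := by
  have hWp := isProb hW
  set b := M * √(h : ℝ) with hb
  set a := A * √(h : ℝ) with ha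
  have mE := ED_meas δ h b a
  have e1 : ∫⁻ x, volume (DD δ h b a x) ∂W = (W.prod (volume : Measure ℝ)) (ED δ h b a) := by
    rw [Measure.prod_apply mE]
    rfl
  rw [e1, Measure.prod_apply_symm mE]
  have key : ∀ u : ℝ, W ((fun x : Path => (x, u)) ⁻¹' ED δ h b a) ≤
      (Icc (0 : ℝ) 1).indicator (fun _ => 2 * (ENNReal.ofReal (4 / δ * h) * ZZ W M A)) u := by
    intro u
    by_cases hu : (δ : ℝ) ≤ u ∧ u ≤ 1 - δ
    · have hu0 : 0 ≤ u := (NNReal.coe_nonneg δ).trans hu.1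
      obtain ⟨v, rfl⟩ : ∃ v : ℝ≥0, u = v := ⟨⟨u, hu0⟩, rfl⟩
      have g1 : δ ≤ v := by exact_mod_cast hu.1
      have g2 : v + δ ≤ 1 := by
        rw [← NNReal.coe_le_coe]; push_cast; linarith [hu.2]
      rw [indicator_of_mem (show (v : ℝ) ∈ Icc (0 : ℝ) 1 from ⟨hu0, by
        linarith [hu.2, NNReal.coe_nonneg δ]⟩)]
      refine (measure_mono ?_).trans (Ev_le hW hδ g1 g2 hh h3 hM A)
      rintro x ⟨-, -, a3, a4, a5⟩
      simp only [Real.toNNReal_coe] at a4 a5
      exact ⟨a3, a4, a5⟩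
    · have : (fun x : Path => (x, u)) ⁻¹' ED δ h b a = ∅ := by
        rw [eq_empty_iff_forall_notMem]
        rintro x ⟨a1, a2, -⟩
        exact hu ⟨a1, a2⟩
      rw [this, measure_empty]
      exact zero_le
  refine (lintegral_mono key).trans ?_
  rw [lintegral_indicator_const measurableSet_Icc, Real.volume_Icc]
  simp

lemma ae_Om : ∀ᵐ x : Path ∂W, ∃ k : ℕ, Om (1 / ((k : ℝ≥0) + 1)) x := by
  filter_upwards [ae_exc hW, ae_nice hW] with x ⟨p, q, h1⟩ h2
  have hne : x 0 ≠ x 1 := by rw [h2.zero]; exact h2.one.symm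
  have hev : ∀ᶠ s in 𝓝 (0 : ℝ≥0), x s ≠ x 1 := (x.continuous.continuousAt).eventually_ne hne
  obtain ⟨η, hη, h3⟩ := Metric.eventually_nhds_iff.1 hev
  have hpq : (0 : ℝ) < q - p := by
    have : (p : ℝ) < q := by exact_mod_cast h1.1
    linarith
  obtain ⟨k, hk⟩ := exists_nat_one_div_lt (lt_min hpq (by positivity : (0 : ℝ) < η / 2))
  have ck : (((1 / ((k : ℝ≥0) + 1) : ℝ≥0)) : ℝ) = 1 / ((k : ℝ) + 1) := by push_cast; rfl
  refine ⟨k, fun u hu hu2 => ?_, fun s hs => ?_⟩
  · rw [ST_one]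
    rw [ck] at hu2
    exact exc_span h1 hu (hu2.trans (hk.le.trans (min_le_left _ _)))
  · apply h3
    have c1 : (s : ℝ) ≤ 2 * (1 / ((k : ℝ) + 1)) := by
      have : (s : ℝ) ≤ ((2 * (1 / ((k : ℝ≥0) + 1)) : ℝ≥0) : ℝ) := by exact_mod_cast hs
      push_cast at this
      exact this
    have c2 : 1 / ((k : ℝ) + 1) < η / 2 := hk.trans_le (min_le_right _ _)
    rw [NNReal.dist_eq, NNReal.coe_zero, sub_zero, abs_of_nonneg (NNReal.coe_nonneg s)]
    linarith

/-- the set of good pasts with a limit is null -/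
lemma null_past {c : ℝ} (hc : 0 < c) {δ : ℝ≥0} (hδ : 0 < δ) :
    W {x | 0 < W {w | cat x w ∈ Lam c} ∧ Om δ x} = 0 := by
  have hWp := isProb hW
  obtain ⟨M, hM, hM2⟩ := Sm_pos hW
  set P : Set Path := {x | 0 < W {w | cat x w ∈ Lam c} ∧ Om δ x} with hP
  have main : ∀ j : ℕ, ENNReal.ofReal (c / 2) * W P ≤ 2 * ENNReal.ofReal (4 / δ) * ZZ W M (2 ^ j) := by
    intro j
    set f : ℕ → Path → ℝ≥0∞ := fun n x => ENNReal.ofReal ((4 : ℝ) ^ n) *
      volume (DD δ (hn n) (M * √(hn n : ℝ)) (2 ^ j * √(hn n : ℝ)) x) with hf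
    have mf : ∀ n, Measurable (f n) := fun n => (DD_meas _ _ _ _).const_mul _
    have h1 : ∀ x ∈ P, ENNReal.ofReal (c / 2) ≤ liminf (fun n => f n x) atTop := by
      intro x hx
      have h2 := claim3 hW hx.1 hδ hx.2 hM2 j (half_pos hc)
      refine le_liminf_of_le (by isBoundedDefault) ?_
      filter_upwards [h2] with n h3
      calc ENNReal.ofReal (c / 2) = ENNReal.ofReal ((4 : ℝ) ^ n) * ENNReal.ofReal ((c - c / 2) * hn n) := by
            rw [← ENNReal.ofReal_mul (by positivity), hn_coe]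
            congr 1
            have : (4 : ℝ) ^ n * (1 / 4) ^ n = 1 := by rw [← mul_pow]; norm_num
            linear_combination -(c / 2) * this
        _ ≤ f n x := by rw [hf]; simp only; gcongr
    have mC : MeasurableSet {x | ENNReal.ofReal (c / 2) ≤ liminf (fun n => f n x) atTop} :=
      measurableSet_le measurable_const (Measurable.liminf mf)
    have h2 : ENNReal.ofReal (c / 2) * W P ≤ ∫⁻ x, liminf (fun n => f n x) atTop ∂W := by
      calc ENNReal.ofReal (c / 2) * W P ≤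
          ENNReal.ofReal (c / 2) * W {x | ENNReal.ofReal (c / 2) ≤ liminf (fun n => f n x) atTop} := by
            gcongr
            exact fun x hx => h1 x hx
        _ ≤ _ := mul_meas_ge_le_lintegral (Measurable.liminf mf) _
    have h3 : ∫⁻ x, liminf (fun n => f n x) atTop ∂W ≤ liminf (fun n => ∫⁻ x, f n x ∂W) atTop :=
      lintegral_liminf_le mf
    refine h2.trans (h3.trans ?_)
    refine liminf_le_of_frequently_le' ?_
    apply Eventually.frequently
    have hδ' : (0 : ℝ) < δ := by exact_mod_cast hδ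
    have h4 : ∀ᶠ n in atTop, 4 * hn n ≤ δ := by
      filter_upwards [hn_lim.eventually (gt_mem_nhds (show (0 : ℝ) < δ / 4 by positivity))] with k hk
      rw [← NNReal.coe_le_coe]
      push_cast
      linarith
    filter_upwards [h4] with n h5
    rw [hf]
    simp only
    rw [lintegral_const_mul _ (DD_meas _ _ _ _)]
    calc ENNReal.ofReal ((4 : ℝ) ^ n) *
        ∫⁻ x, volume (DD δ (hn n) (M * √(hn n : ℝ)) (2 ^ j * √(hn n : ℝ)) x) ∂W ≤
        ENNReal.ofReal ((4 : ℝ) ^ n) * (2 * (ENNReal.ofReal (4 / δ * hn n) * ZZ W M (2 ^ j))) := by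
          gcongr
          exact int_DD hW hδ (hn_pos n) h5 hM _
      _ = 2 * (ENNReal.ofReal ((4 : ℝ) ^ n) * ENNReal.ofReal (4 / δ * hn n)) * ZZ W M (2 ^ j) := by ring
      _ = 2 * ENNReal.ofReal (4 / δ) * ZZ W M (2 ^ j) := by
          rw [← ENNReal.ofReal_mul (by positivity), hn_coe]
          congr 3
          have : (4 : ℝ) ^ n * (1 / 4) ^ n = 1 := by rw [← mul_pow]; norm_num
          linear_combination (4 / (δ : ℝ)) * this
  have hlim : Tendsto (fun j : ℕ => 2 * ENNReal.ofReal (4 / δ) * ZZ W M (2 ^ j)) atTop (𝓝 0) := by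
    have := ENNReal.Tendsto.const_mul (ZZ_lim hW M) (a := 2 * ENNReal.ofReal (4 / δ))
      (Or.inr (ENNReal.mul_ne_top (by norm_num) ENNReal.ofReal_ne_top))
    rwa [mul_zero] at this
  have h0 : ENNReal.ofReal (c / 2) * W P = 0 := le_antisymm (ge_of_tendsto' hlim main) bot_le
  rcases mul_eq_zero.1 h0 with h | h
  · rw [ENNReal.ofReal_eq_zero] at h
    linarith
  · exact h

/-- the measure of the span set has no atoms -/
theorem sr_null (c : ℝ) : ∀ᵐ x : Path ∂W, sr 1 x ≠ c := by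
  have hWp := isProb hW
  rcases le_or_gt c 0 with hc | hc
  · filter_upwards [ae_exc hW] with x ⟨p, q, h1⟩ h2
    have hpq : (0 : ℝ) < q - p := by
      have : (p : ℝ) < q := by exact_mod_cast h1.1
      linarith
    have h3 : Icc (0 : ℝ) (q - p) ⊆ ST 1 x := fun u hu => exc_span h1 hu.1 hu.2
    have h4 := ENNReal.toReal_mono (ST_fin 1 x) (measure_mono (μ := volume) h3)
    rw [Real.volume_Icc, ENNReal.toReal_ofReal (by linarith)] at h4
    have h5 : (volume (ST 1 x)).toReal = c := h2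
    linarith
  · have h1 : ∀ᵐ x ∂W, x ∉ Lam c := by
      have h2 : ∀ᵐ x ∂W, W {w | cat x w ∈ Lam c} = 0 := by
        have h3 : ∀ᵐ x ∂W, ∀ k : ℕ, ¬ (0 < W {w | cat x w ∈ Lam c} ∧ Om (1 / ((k : ℝ≥0) + 1)) x) :=
          ae_all_iff.2 fun k => measure_eq_zero_iff_ae_notMem.1 (null_past hW hc (by positivity))
        filter_upwards [h3, ae_Om hW] with x h4 ⟨k, h5⟩
        by_contra hne
        exact h4 k ⟨pos_iff_ne_zero.2 hne, h5⟩
      have h3 : W (Lam c) = 0 := by
        rw [W_cat hW (Lam_meas c), lintegral_congr_ae h2, lintegral_zero]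
      exact measure_eq_zero_iff_ae_notMem.1 h3
    filter_upwards [h1, ae_Lam hW c] with x h2 h3 h4
    exact h2 (h3 h4)

omit hW in
/-- all three statistics of an arbitrary Brownian motion have no atoms -/
theorem final {Ω : Type*} {mΩ : MeasurableSpace Ω} {P : Measure Ω} {B : ℝ≥0 → Ω → ℝ}
    (hB : IsBrownianReal B P) (c : ℝ) :
    P {ω | (volume (Sp (fun t => B t ω))).toReal = c} = 0 ∧
    P {ω | sInf {t : ℝ | 0 < t ∧ t ∉ Sp (fun t => B t ω)} = c} = 0 ∧
    P {ω | sSup (EL (fun t => B t ω)) = c} = 0 := by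
  obtain ⟨b, hb, hbB⟩ := exists_path hB
  have hW := wiener_of_path hB hb hbB
  have h1 := ae_of_ae_map hb.aemeasurable (sr_null hW c)
  have h2 := ae_of_ae_map hb.aemeasurable (fg_null hW c)
  have h3 := ae_of_ae_map hb.aemeasurable (RR_null hW c)
  refine ⟨?_, ?_, ?_⟩
  · rw [measure_eq_zero_iff_ae_notMem]
    filter_upwards [h1, hbB] with ω a1 a2 a3
    apply a1
    have e : (fun t => B t ω) = (b ω : ℝ≥0 → ℝ) := by funext t; exact (a2 t).symm
    have a4 : (volume (Sp (fun t => B t ω))).toReal = c := a3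
    rw [e] at a4
    exact a4
  · rw [measure_eq_zero_iff_ae_notMem]
    filter_upwards [h2, hbB] with ω a1 a2 a3
    apply a1
    have e : (fun t => B t ω) = (b ω : ℝ≥0 → ℝ) := by funext t; exact (a2 t).symm
    have a4 : sInf {t : ℝ | 0 < t ∧ t ∉ Sp (fun t => B t ω)} = c := a3
    rw [e] at a4
    exact a4
  · rw [measure_eq_zero_iff_ae_notMem]
    filter_upwards [h3, hbB] with ω a1 a2 a3
    apply a1
    have e : (fun t => B t ω) = (b ω : ℝ≥0 → ℝ) := by funext t; exact (a2 t).symm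
    have a4 : sSup (EL (fun t => B t ω)) = c := a3
    rw [e] at a4
    exact a4

end Q297.Df
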