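import Mathlib

/-! Combinatorial part: pairwise independent families of sets with well spread stars. -/

open Finset

namespace Q297.Dis

lemma choose_ratio {p m L : ℕ} (hL : m + L ≤ p) (hp : 0 < p) (r : ℕ) (hr : r ≤ L) :
    (((p:ℝ) - m - L) / p) ^ r * (p.choose m : ℝ) ≤ ((p - r).choose m : ℝ) := by
  induction r with
  | zero => simp
  | succ r ih =>
    have ih' := ih (by omega)
    obtain ⟨n, hn⟩ : ∃ n, p - r = n + 1 := ⟨p - r - 1, by omega⟩
    have hn' : p - (r + 1) = n := by omega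
    rw [hn] at ih'
    rw [hn']
    have hc : n.choose m * (n + 1) = (n + 1).choose m * (n + 1 - m) := Nat.choose_mul_succ_eq n m
    have hm : m ≤ n + 1 := by omega
    have hcR : (n.choose m : ℝ) * ((n:ℝ) + 1) = ((n + 1).choose m : ℝ) * ((n:ℝ) + 1 - m) := by
      have := congrArg (fun z : ℕ => (z : ℝ)) hc
      simp only [Nat.cast_mul] at this
      rw [Nat.cast_sub hm] at this
      push_cast at this
      exact this
    have hpR : (0:ℝ) < p := by exact_mod_cast hp
    have hn0 : (0:ℝ) < (n:ℝ) + 1 := by positivity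
    have hnp : (n:ℝ) + 1 ≤ p := by
      have : n + 1 ≤ p := by omega
      exact_mod_cast this
    have hnr : (p:ℝ) - r = n + 1 := by
      have : (p:ℝ) = r + (n + 1) := by
        have : p = r + (n + 1) := by omega
        exact_mod_cast this
      linarith
    have hrL : (r:ℝ) + 1 ≤ L := by exact_mod_cast hr
    have ht0 : 0 ≤ ((p:ℝ) - m - L) / p := by
      apply div_nonneg _ hpR.le
      have : (m:ℝ) + L ≤ p := by exact_mod_cast hL
      linarith
    have ht1 : ((p:ℝ) - m - L) / p ≤ ((n:ℝ) + 1 - m) / (n + 1) := by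
      rw [div_le_div_iff₀ hpR hn0]
      have hm0 : (0:ℝ) ≤ m := Nat.cast_nonneg m
      have hL0 : (0:ℝ) ≤ L := Nat.cast_nonneg L
      have hr0 : (0:ℝ) ≤ r := Nat.cast_nonneg r
      have hmn : (m:ℝ) ≤ (n:ℝ) + 1 := by exact_mod_cast hm
      have hpe : (p:ℝ) = r + (n + 1) := by linarith
      have e : ((n:ℝ) + 1 - m) * p - ((p:ℝ) - m - L) * (n + 1) =
          (L - r) * (n + 1) + r * (n + 1 - m) := by rw [hpe]; ring
      have e1 : 0 ≤ ((L:ℝ) - r) * (n + 1) := mul_nonneg (by linarith) hn0.le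
      have e2 : 0 ≤ (r:ℝ) * (n + 1 - m) := mul_nonneg hr0 (by linarith)
      linarith
    have hC0 : (0:ℝ) ≤ ((n + 1).choose m : ℝ) := Nat.cast_nonneg _
    calc (((p:ℝ) - m - L) / p) ^ (r + 1) * (p.choose m : ℝ)
        = ((p:ℝ) - m - L) / p * ((((p:ℝ) - m - L) / p) ^ r * (p.choose m : ℝ)) := by ring
      _ ≤ ((n:ℝ) + 1 - m) / (n + 1) * ((n + 1).choose m : ℝ) := by
          apply mul_le_mul ht1 ih' (by positivity)
          exact ht0.trans ht1
      _ = (n.choose m : ℝ) := by
          rw [div_mul_eq_mul_div, div_eq_iff hn0.ne']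
          linarith

lemma pow_sub_le {x δ : ℝ} (hδ : 0 ≤ δ) (hδx : δ ≤ x) (hx1 : x ≤ 1) (r : ℕ) :
    x ^ r - r * δ ≤ (x - δ) ^ r := by
  induction r with
  | zero => simp
  | succ r ih =>
    have h0 : 0 ≤ x - δ := by linarith
    have h1 : (x - δ) ^ r ≤ 1 := pow_le_one₀ h0 (by linarith)
    have h2 : 0 ≤ (x - δ) ^ r := pow_nonneg h0 r
    have hx0 : 0 ≤ x := by linarith
    have h3 : x ^ (r + 1) - x * (r * δ) ≤ x * (x - δ) ^ r := by
      have := mul_le_mul_of_nonneg_left ih hx0
      calc x ^ (r + 1) - x * (r * δ) = x * (x ^ r - r * δ) := by ring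
        _ ≤ _ := this
    have h4 : x * (r * δ) ≤ r * δ := by
      have : 0 ≤ (r:ℝ) * δ := by positivity
      nlinarith
    have h5 : δ * (x - δ) ^ r ≤ δ := by nlinarith
    calc x ^ (r + 1) - ((r + 1 : ℕ) : ℝ) * δ = x ^ (r + 1) - r * δ - δ := by push_cast; ring
      _ ≤ x * (x - δ) ^ r - δ * (x - δ) ^ r := by linarith
      _ = (x - δ) ^ (r + 1) := by ring

section count

variable {p : ℕ} [NeZero p]

/-- `a` is uncovered by `Y` when `B` is chosen at `a` -/
def unc (Y : Finset (ZMod p × ZMod p)) (a : ZMod p) (B : Finset (ZMod p)) : Prop :=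
  ∀ y ∈ Y, y.1 + a * y.2 ∉ B

open Classical in
/-- indicator -/
noncomputable def xi (Y : Finset (ZMod p × ZMod p)) (a : ZMod p) (B : Finset (ZMod p)) : ℝ :=
  if unc Y a B then 1 else 0

open Classical in
lemma count_unc {m L : ℕ} (hL : m + L ≤ p) (Y : Finset (ZMod p × ZMod p)) (hY : Y.card ≤ L)
    (a : ZMod p) :
    (((p:ℝ) - m - L) / p) ^ Y.card * (p.choose m : ℝ) ≤
      (((powersetCard m (univ : Finset (ZMod p))).filter (fun B => unc Y a B)).card : ℝ) := by
  have hp : 0 < p := Nat.pos_of_ne_zero (NeZero.ne p)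
  have hpR : (0:ℝ) < p := by exact_mod_cast hp
  set U : Finset (ZMod p) := Y.image (fun y => y.1 + a * y.2) with hU
  have hUc : U.card ≤ Y.card := card_image_le
  have hsub : powersetCard m (univ \ U) ⊆
      (powersetCard m (univ : Finset (ZMod p))).filter (fun B => unc Y a B) := by
    intro B hB
    rw [mem_powersetCard] at hB
    rw [mem_filter, mem_powersetCard]
    refine ⟨⟨subset_univ _, hB.2⟩, ?_⟩
    intro y hy hyB
    have := hB.1 hyB
    rw [mem_sdiff] at this
    exact this.2 (mem_image_of_mem _ hy)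
  have hcard : (powersetCard m (univ \ U)).card = (p - U.card).choose m := by
    rw [card_powersetCard, card_sdiff_of_subset (subset_univ _), card_univ, ZMod.card]
  have h1 := choose_ratio hL hp U.card (hUc.trans hY)
  have ht0 : 0 ≤ ((p:ℝ) - m - L) / p := by
    apply div_nonneg _ hpR.le
    have : (m:ℝ) + L ≤ p := by exact_mod_cast hL
    linarith
  have ht1 : ((p:ℝ) - m - L) / p ≤ 1 := by
    rw [div_le_one hpR]
    have hm0 : (0:ℝ) ≤ m := Nat.cast_nonneg m
    have hL0 : (0:ℝ) ≤ L := Nat.cast_nonneg L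
    linarith
  calc (((p:ℝ) - m - L) / p) ^ Y.card * (p.choose m : ℝ)
      ≤ (((p:ℝ) - m - L) / p) ^ U.card * (p.choose m : ℝ) := by
        gcongr ?_ * _
        exact pow_le_pow_of_le_one ht0 ht1 hUc
    _ ≤ ((p - U.card).choose m : ℝ) := h1
    _ = ((powersetCard m (univ \ U)).card : ℝ) := by rw [hcard]
    _ ≤ _ := by exact_mod_cast card_le_card hsub

open Classical in
/-- exponential moment bound for the number of bad assignments -/
lemma bad_count {m L : ℕ} (hL : m + L ≤ p) (Y : Finset (ZMod p × ZMod p)) (hY : Y.card ≤ L)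
    {η : ℝ} (hη0 : 0 < η) :
    (((Fintype.piFinset (fun _ : ZMod p => powersetCard m (univ : Finset (ZMod p)))).filter
      (fun Bf => ∑ a, xi Y a (Bf a) < ((((p:ℝ) - m - L) / p) ^ Y.card - η) * p)).card : ℝ) ≤
      (p.choose m : ℝ) ^ p * Real.exp (-(η ^ 2 / 4 * p)) := by
  have hp : 0 < p := Nat.pos_of_ne_zero (NeZero.ne p)
  have hpR : (0:ℝ) < p := by exact_mod_cast hp
  set β : ℝ := (((p:ℝ) - m - L) / p) ^ Y.card with hβ
  set C : ℝ := (p.choose m : ℝ) with hC
  have hC0 : 0 ≤ C := Nat.cast_nonneg _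
  have ht0 : 0 ≤ ((p:ℝ) - m - L) / p := by
    apply div_nonneg _ hpR.le
    have : (m:ℝ) + L ≤ p := by exact_mod_cast hL
    linarith
  have ht1 : ((p:ℝ) - m - L) / p ≤ 1 := by
    rw [div_le_one hpR]
    have hm0 : (0:ℝ) ≤ m := Nat.cast_nonneg m
    have hL0 : (0:ℝ) ≤ L := Nat.cast_nonneg L
    linarith
  have hβ0 : 0 ≤ β := pow_nonneg ht0 _
  have hβ1 : β ≤ 1 := pow_le_one₀ ht0 ht1
  set lam : ℝ := η / 2 with hlam
  have hlam0 : 0 < lam := by positivity
  have hexp : Real.exp (-lam) ≤ 1 - lam + lam ^ 2 := by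
    have h1 : (1 + lam) * Real.exp (-lam) ≤ 1 := by
      have h2 : 1 + lam ≤ Real.exp lam := by linarith [Real.add_one_le_exp lam]
      calc (1 + lam) * Real.exp (-lam) ≤ Real.exp lam * Real.exp (-lam) := by gcongr
        _ = 1 := by rw [← Real.exp_add]; simp
    have h3 : (1 + lam) * (1 - lam + lam ^ 2) = 1 + lam ^ 3 := by ring
    have h4 : (1 + lam) * Real.exp (-lam) ≤ (1 + lam) * (1 - lam + lam ^ 2) := by
      rw [h3]
      have : 0 ≤ lam ^ 3 := by positivity
      linarith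
    exact le_of_mul_le_mul_left h4 (by positivity)
  set Bs := powersetCard m (univ : Finset (ZMod p)) with hBs
  have hBsc : (Bs.card : ℝ) = C := by
    rw [hBs, card_powersetCard, card_univ, ZMod.card]
  -- one factor
  have hfac : ∀ a : ZMod p, ∑ B ∈ Bs, Real.exp (-lam * xi Y a B) ≤
      C * Real.exp (-((lam - lam ^ 2) * β)) := by
    intro a
    have h1 : ∀ B, Real.exp (-lam * xi Y a B) = 1 - (1 - Real.exp (-lam)) * (if unc Y a B then 1 else 0) := by
      intro B
      unfold xi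
      by_cases h : unc Y a B <;> simp [h]
    rw [Finset.sum_congr rfl (fun B _ => h1 B), Finset.sum_sub_distrib, ← Finset.mul_sum,
      Finset.sum_boole, Finset.sum_const, nsmul_eq_mul, mul_one, hBsc]
    have h2 := count_unc hL Y hY a
    have h3 : lam - lam ^ 2 ≤ 1 - Real.exp (-lam) := by linarith
    have h4 : 0 ≤ 1 - Real.exp (-lam) := by
      have : Real.exp (-lam) ≤ 1 := Real.exp_le_one_iff.2 (by linarith)
      linarith
    have h5 : (lam - lam ^ 2) * (β * C) ≤ (1 - Real.exp (-lam)) * ((Bs.filter (fun B => unc Y a B)).card : ℝ) := by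
      calc (lam - lam ^ 2) * (β * C) ≤ (1 - Real.exp (-lam)) * (β * C) := by gcongr
        _ ≤ _ := by gcongr
    have h6 : 1 - (lam - lam ^ 2) * β ≤ Real.exp (-((lam - lam ^ 2) * β)) := by
      linarith [Real.add_one_le_exp (-((lam - lam ^ 2) * β))]
    calc C - (1 - Real.exp (-lam)) * ((Bs.filter (fun B => unc Y a B)).card : ℝ)
        ≤ C - (lam - lam ^ 2) * (β * C) := by linarith
      _ = C * (1 - (lam - lam ^ 2) * β) := by ring
      _ ≤ _ := by gcongr
  set Pi := Fintype.piFinset (fun _ : ZMod p => Bs) with hPi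
  set bad := Pi.filter (fun Bf => ∑ a, xi Y a (Bf a) < (β - η) * p) with hbad
  have hmgf : ∑ Bf ∈ Pi, Real.exp (-lam * ∑ a, xi Y a (Bf a)) ≤
      C ^ p * Real.exp (-((lam - lam ^ 2) * β) * p) := by
    have h1 : ∀ Bf : ZMod p → Finset (ZMod p), Real.exp (-lam * ∑ a, xi Y a (Bf a)) =
        ∏ a, Real.exp (-lam * xi Y a (Bf a)) := by
      intro Bf
      rw [Finset.mul_sum, Real.exp_sum]
    rw [Finset.sum_congr rfl (fun Bf _ => h1 Bf), hPi,
      ← Finset.prod_univ_sum (fun _ => Bs) (fun a B => Real.exp (-lam * xi Y a B))]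
    calc ∏ a : ZMod p, ∑ B ∈ Bs, Real.exp (-lam * xi Y a B)
        ≤ ∏ _a : ZMod p, C * Real.exp (-((lam - lam ^ 2) * β)) := by
          apply Finset.prod_le_prod
          · intro a _
            exact Finset.sum_nonneg (fun _ _ => (Real.exp_pos _).le)
          · intro a _; exact hfac a
      _ = C ^ p * Real.exp (-((lam - lam ^ 2) * β) * p) := by
          rw [Finset.prod_const, card_univ, ZMod.card, mul_pow, ← Real.exp_nat_mul]
          congr 2; ring
  have hmarkov : (bad.card : ℝ) * Real.exp (-lam * ((β - η) * p)) ≤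
      ∑ Bf ∈ Pi, Real.exp (-lam * ∑ a, xi Y a (Bf a)) := by
    calc (bad.card : ℝ) * Real.exp (-lam * ((β - η) * p))
        = ∑ _Bf ∈ bad, Real.exp (-lam * ((β - η) * p)) := by
          rw [Finset.sum_const, nsmul_eq_mul]
      _ ≤ ∑ Bf ∈ bad, Real.exp (-lam * ∑ a, xi Y a (Bf a)) := by
          apply Finset.sum_le_sum
          intro Bf hBf
          rw [hbad, mem_filter] at hBf
          apply Real.exp_le_exp.2
          have := hBf.2
          nlinarith
      _ ≤ _ := by
          apply Finset.sum_le_sum_of_subset_of_nonneg (filter_subset _ _)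
          intro _ _ _
          exact (Real.exp_pos _).le
  have hfin : (bad.card : ℝ) ≤ C ^ p * Real.exp (-((lam - lam ^ 2) * β) * p) *
      Real.exp (lam * ((β - η) * p)) := by
    have h1 := hmarkov.trans hmgf
    calc (bad.card : ℝ) = (bad.card : ℝ) * Real.exp (-lam * ((β - η) * p)) *
          Real.exp (lam * ((β - η) * p)) := by
          rw [mul_assoc, ← Real.exp_add]
          have : -lam * ((β - η) * ↑p) + lam * ((β - η) * ↑p) = 0 := by ring
          rw [this]; simp
      _ ≤ _ := by gcongr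
  refine hfin.trans ?_
  rw [mul_assoc, ← Real.exp_add]
  gcongr
  have : lam * η - lam ^ 2 * β ≥ η ^ 2 / 4 := by
    rw [hlam]; nlinarith
  nlinarith

end count

open Classical in
/-- existence of the families -/
theorem exists_family {x ε : ℝ} (hx0 : 0 < x) (hx1 : x < 1) (hε : 0 < ε) (N₀ : ℕ) :
    ∃ p : ℕ, N₀ ≤ p ∧ p.Prime ∧ ∃ B : ZMod p → Finset (ZMod p),
      (∀ a, (B a).card = ⌊(1 - x) * p⌋₊) ∧
      ∀ Y : Finset (ZMod p × ZMod p), (x ^ Y.card - ε) * p ≤
        (Nat.card {a : ZMod p // unc Y a (B a)} : ℝ) := by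
  obtain ⟨L, hL⟩ := exists_pow_lt_of_lt_one hε hx1
  set η : ℝ := ε / 2 with hη
  have hη0 : 0 < η := by positivity
  -- eventual conditions
  have hlim : Filter.Tendsto (fun n : ℕ => ((L:ℝ) + 1) * ((n:ℝ) ^ (2 * L) * (Real.exp (-(η ^ 2 / 4))) ^ n))
      Filter.atTop (nhds (((L:ℝ) + 1) * 0)) := by
    apply Filter.Tendsto.const_mul
    apply tendsto_pow_const_mul_const_pow_of_abs_lt_one
    rw [abs_of_pos (Real.exp_pos _)]
    have : 0 < η ^ 2 / 4 := by positivity
    rw [← Real.exp_zero]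
    exact Real.exp_lt_exp.2 (by linarith)
  rw [mul_zero] at hlim
  have ev1 : ∀ᶠ n : ℕ in Filter.atTop,
      ((L:ℝ) + 1) * ((n:ℝ) ^ (2 * L) * (Real.exp (-(η ^ 2 / 4))) ^ n) < 1 :=
    hlim.eventually_lt_const (by norm_num)
  have ev2 : ∀ᶠ n : ℕ in Filter.atTop, (L:ℝ) * L / η ≤ n :=
    (tendsto_natCast_atTop_atTop (R := ℝ)).eventually_ge_atTop _
  have ev3 : ∀ᶠ n : ℕ in Filter.atTop, (L:ℝ) / x ≤ n :=
    (tendsto_natCast_atTop_atTop (R := ℝ)).eventually_ge_atTop _
  obtain ⟨N₁, hN₁⟩ := Filter.eventually_atTop.1 (ev1.and (ev2.and ev3))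
  obtain ⟨p, hpN, hpp⟩ := Nat.exists_infinite_primes (max N₀ N₁)
  obtain ⟨c1, c2, c3⟩ := hN₁ p (le_trans (le_max_right _ _) hpN)
  have : Fact p.Prime := ⟨hpp⟩
  have : NeZero p := ⟨hpp.ne_zero⟩
  have hp : 0 < p := hpp.pos
  have hpR : (0:ℝ) < p := by exact_mod_cast hp
  refine ⟨p, le_trans (le_max_left _ _) hpN, hpp, ?_⟩
  set m := ⌊(1 - x) * p⌋₊ with hm
  have hmle : (m:ℝ) ≤ (1 - x) * p := Nat.floor_le (by nlinarith)
  have hLx : (L:ℝ) ≤ x * p := by
    rw [div_le_iff₀ hx0] at c3; linarith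
  have hmL : m + L ≤ p := by
    have : (m:ℝ) + L ≤ p := by linarith
    exact_mod_cast this
  set t : ℝ := ((p:ℝ) - m - L) / p with ht
  have htx : x - L / p ≤ t := by
    rw [ht, le_div_iff₀ hpR, sub_mul, div_mul_cancel₀ _ hpR.ne']
    linarith
  have hδ0 : 0 ≤ (L:ℝ) / p := by positivity
  have hδx : (L:ℝ) / p ≤ x := by rw [div_le_iff₀ hpR]; exact hLx
  have hLL : (L:ℝ) * (L / p) ≤ η := by
    rw [div_le_iff₀ hη0] at c2
    rw [← mul_div_assoc, div_le_iff₀ hpR]
    linarith
  set Bs := powersetCard m (univ : Finset (ZMod p)) with hBs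
  have hBsc : Bs.card = p.choose m := by
    rw [hBs, card_powersetCard, card_univ, ZMod.card]
  set Pi := Fintype.piFinset (fun _ : ZMod p => Bs) with hPi
  have hPic : (Pi.card : ℝ) = (p.choose m : ℝ) ^ p := by
    rw [hPi, Fintype.card_piFinset, prod_const, hBsc, card_univ, ZMod.card]
    push_cast; rfl
  have hCpos : (0:ℝ) < (p.choose m : ℝ) := by
    exact_mod_cast Nat.choose_pos (by omega : m ≤ p)
  let bad : Finset (ZMod p × ZMod p) → Finset (ZMod p → Finset (ZMod p)) := fun Y =>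
    Pi.filter (fun Bf => ∑ a, xi Y a (Bf a) < (t ^ Y.card - η) * p)
  have hgood : ∃ Bf ∈ Pi, ∀ Y : Finset (ZMod p × ZMod p), Y.card ≤ L → Bf ∉ bad Y := by
    by_contra hcon
    push Not at hcon
    have hsub : Pi ⊆ (range (L + 1)).biUnion (fun r =>
        (powersetCard r (univ : Finset (ZMod p × ZMod p))).biUnion bad) := by
      intro Bf hBf
      obtain ⟨Y, hY, hb⟩ := hcon Bf hBf
      rw [mem_biUnion]
      refine ⟨Y.card, mem_range.2 (by omega), ?_⟩
      rw [mem_biUnion]
      exact ⟨Y, mem_powersetCard.2 ⟨subset_univ _, rfl⟩, hb⟩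
    have h1 : (Pi.card : ℝ) ≤ ∑ r ∈ range (L + 1),
        ∑ Y ∈ powersetCard r (univ : Finset (ZMod p × ZMod p)), ((bad Y).card : ℝ) := by
      have h2 : Pi.card ≤ ∑ r ∈ range (L + 1),
        ∑ Y ∈ powersetCard r (univ : Finset (ZMod p × ZMod p)), (bad Y).card := by
        refine (card_le_card hsub).trans (card_biUnion_le.trans ?_)
        exact Finset.sum_le_sum (fun r _ => card_biUnion_le)
      exact_mod_cast h2
    set K : ℝ := (p.choose m : ℝ) ^ p * Real.exp (-(η ^ 2 / 4 * p)) with hK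
    have hK0 : 0 ≤ K := by positivity
    have h3 : ∀ r ∈ range (L + 1),
        ∑ Y ∈ powersetCard r (univ : Finset (ZMod p × ZMod p)), ((bad Y).card : ℝ) ≤
          (p:ℝ) ^ (2 * L) * K := by
      intro r hr
      rw [mem_range] at hr
      calc ∑ Y ∈ powersetCard r (univ : Finset (ZMod p × ZMod p)), ((bad Y).card : ℝ)
          ≤ ∑ Y ∈ powersetCard r (univ : Finset (ZMod p × ZMod p)), K := by
            apply Finset.sum_le_sum
            intro Y hY
            rw [mem_powersetCard] at hY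
            exact bad_count hmL Y (by omega) hη0
        _ = ((p * p).choose r : ℝ) * K := by
            rw [sum_const, card_powersetCard, card_univ, Fintype.card_prod, ZMod.card,
              nsmul_eq_mul]
        _ ≤ (p:ℝ) ^ (2 * L) * K := by
            gcongr
            have h5 : (p * p).choose r ≤ (p * p) ^ r := Nat.choose_le_pow _ _
            have h6 : (p * p) ^ r ≤ (p * p) ^ L := Nat.pow_le_pow_right (by positivity) (by omega)
            have h7 : (p * p) ^ L = p ^ (2 * L) := by rw [← pow_two, ← pow_mul]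
            have h8 : (p * p).choose r ≤ p ^ (2 * L) := by rw [← h7]; exact h5.trans h6
            exact_mod_cast h8
    have h4 : (Pi.card : ℝ) ≤ ((L:ℝ) + 1) * ((p:ℝ) ^ (2 * L) * K) := by
      refine h1.trans ((Finset.sum_le_sum h3).trans ?_)
      rw [sum_const, card_range, nsmul_eq_mul]
      push_cast; exact le_rfl
    have h5 : ((L:ℝ) + 1) * ((p:ℝ) ^ (2 * L) * K) =
        (p.choose m : ℝ) ^ p *
          (((L:ℝ) + 1) * ((p:ℝ) ^ (2 * L) * (Real.exp (-(η ^ 2 / 4))) ^ p)) := by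
      rw [hK, ← Real.exp_nat_mul]
      have : (p:ℝ) * -(η ^ 2 / 4) = -(η ^ 2 / 4 * p) := by ring
      rw [this]; ring
    rw [h5, hPic] at h4
    have h6 : (0:ℝ) < (p.choose m : ℝ) ^ p := by positivity
    nlinarith
  obtain ⟨Bf, hBf, hBfg⟩ := hgood
  refine ⟨Bf, ?_, ?_⟩
  · intro a
    rw [hPi, Fintype.mem_piFinset] at hBf
    exact (mem_powersetCard.1 (hBf a)).2
  · intro Y
    have hcount : (Nat.card {a : ZMod p // unc Y a (Bf a)} : ℝ) = ∑ a, xi Y a (Bf a) := by
      unfold xi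
      rw [Finset.sum_boole, Nat.card_eq_fintype_card, Fintype.card_subtype]
    by_cases hY : Y.card ≤ L
    · have h1 := hBfg Y hY
      simp only [bad, mem_filter, not_and, not_lt] at h1
      have h2 := h1 hBf
      rw [hcount]
      refine le_trans ?_ h2
      have h3 : x ^ Y.card - Y.card * (L / p) ≤ (x - L / p) ^ Y.card :=
        pow_sub_le hδ0 hδx hx1.le _
      have h4 : (x - L / p) ^ Y.card ≤ t ^ Y.card := by
        apply pow_le_pow_left₀ (by linarith) htx
      have h5 : (Y.card : ℝ) * (L / p) ≤ η := by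
        refine le_trans ?_ hLL
        gcongr
      have : x ^ Y.card - ε ≤ t ^ Y.card - η := by rw [hη] at h5 ⊢; linarith
      gcongr
    · have h1 : x ^ Y.card ≤ x ^ L := pow_le_pow_of_le_one hx0.le hx1.le (by omega)
      have h2 : (x ^ Y.card - ε) * p ≤ 0 := by
        apply mul_nonpos_of_nonpos_of_nonneg _ hpR.le
        linarith
      exact h2.trans (Nat.cast_nonneg _)

/-! ### Majorization -/

lemma abel_ineq (n b c : ℕ → ℝ) (hb : Antitone b)
    (hc : ∀ k, ∑ i ∈ range k, n i ≤ c k) (K : ℕ) :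
    ∑ k ∈ range K, n k * b k + (c K - ∑ i ∈ range K, n i) * b K ≤
      c 0 * b 0 + ∑ k ∈ range K, (c (k + 1) - c k) * b k := by
  induction K with
  | zero => simp
  | succ K ih =>
    rw [sum_range_succ, sum_range_succ, sum_range_succ]
    have h1 := hc (K + 1)
    rw [sum_range_succ] at h1
    have h2 : b (K + 1) ≤ b K := hb (Nat.le_succ K)
    have h3 : (c (K + 1) - (∑ i ∈ range K, n i + n K)) * b (K + 1) ≤
        (c (K + 1) - (∑ i ∈ range K, n i + n K)) * b K :=
      mul_le_mul_of_nonneg_left h2 (by linarith)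
    nlinarith

/-- majorization by a geometric sequence, sorted version -/
lemma sorted_bound {x ε M : ℝ} (hx0 : 0 < x) (hx1 : x < 1) (hε : 0 ≤ ε) (hM : 0 ≤ M)
    (n : ℕ → ℝ) (hn : Antitone n) (hn0 : ∀ k, 0 ≤ n k)
    (hc : ∀ k, ∑ i ∈ range k, n i ≤ (1 - x ^ k + ε) * M) (hn1 : n 0 ≤ M) (K : ℕ) :
    ∑ k ∈ range K, n k ^ 2 ≤ ((1 - x) / (1 + x) + 2 * ε) * M ^ 2 := by
  set c : ℕ → ℝ := fun k => (1 - x ^ k + ε) * M with hcdef
  have hp : Antitone (fun k : ℕ => (1 - x) * x ^ k) := by
    intro i j hij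
    have := pow_le_pow_of_le_one hx0.le hx1.le hij
    have h1 : 0 ≤ 1 - x := by linarith
    exact mul_le_mul_of_nonneg_left this h1
  have hdiff : ∀ k, c (k + 1) - c k = M * ((1 - x) * x ^ k) := by
    intro k
    simp only [hcdef]; ring
  have hc0 : c 0 = ε * M := by simp [hcdef]
  have h1 := abel_ineq n n c hn hc K
  have h2 := abel_ineq n (fun k => (1 - x) * x ^ k) c hp hc K
  have h3 : 0 ≤ (c K - ∑ i ∈ range K, n i) * n K :=
    mul_nonneg (by linarith [hc K]) (hn0 K)
  have h4 : 0 ≤ (c K - ∑ i ∈ range K, n i) * ((1 - x) * x ^ K) := by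
    apply mul_nonneg (by linarith [hc K])
    have : 0 ≤ 1 - x := by linarith
    positivity
  have h5 : ∑ k ∈ range K, (c (k + 1) - c k) * n k =
      M * ∑ k ∈ range K, n k * ((1 - x) * x ^ k) := by
    rw [mul_sum]
    apply sum_congr rfl
    intro k _
    rw [hdiff]; ring
  have h6 : ∑ k ∈ range K, (c (k + 1) - c k) * ((1 - x) * x ^ k) ≤ M * ((1 - x) / (1 + x)) := by
    have e1 : ∑ k ∈ range K, (c (k + 1) - c k) * ((1 - x) * x ^ k) =
        M * ((1 - x) ^ 2 * ∑ k ∈ range K, (x ^ 2) ^ k) := by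
      rw [mul_sum, mul_sum]
      apply sum_congr rfl
      intro k _
      rw [hdiff, ← pow_mul, mul_comm 2 k, pow_mul]; ring
    rw [e1]
    have hx2 : x ^ 2 < 1 := by nlinarith
    have e2 : ∑ k ∈ range K, (x ^ 2) ^ k ≤ 1 / (1 - x ^ 2) := by
      rw [geom_sum_eq hx2.ne K]
      have hpos : 0 < 1 - x ^ 2 := by linarith
      have : ((x ^ 2) ^ K - 1) / (x ^ 2 - 1) = (1 - (x ^ 2) ^ K) / (1 - x ^ 2) := by
        rw [div_eq_div_iff (by linarith) hpos.ne']; ring
      rw [this]
      gcongr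
      have : 0 ≤ (x ^ 2) ^ K := by positivity
      linarith
    have e3 : (1 - x) / (1 + x) = (1 - x) ^ 2 * (1 / (1 - x ^ 2)) := by
      have a1 : 1 - x ^ 2 = (1 - x) * (1 + x) := by ring
      have a2 : 1 - x ≠ 0 := by linarith
      have a3 : 1 + x ≠ 0 := by linarith
      rw [a1]; field_simp
    rw [e3]
    gcongr
  have h7 : ∑ k ∈ range K, n k * ((1 - x) * x ^ k) ≤ ε * M + M * ((1 - x) / (1 + x)) := by
    have : c 0 * ((1 - x) * x ^ 0) ≤ ε * M := by
      rw [hc0, pow_zero, mul_one]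
      have : 0 ≤ ε * M := by positivity
      nlinarith
    linarith
  have h8 : ∑ k ∈ range K, n k ^ 2 = ∑ k ∈ range K, n k * n k := by
    apply sum_congr rfl; intro k _; ring
  have h9 : c 0 * n 0 ≤ ε * M * M := by
    rw [hc0]
    have : 0 ≤ ε * M := by positivity
    exact mul_le_mul_of_nonneg_left hn1 this
  have h10 : M * ∑ k ∈ range K, n k * ((1 - x) * x ^ k) ≤
      M * (ε * M + M * ((1 - x) / (1 + x))) := mul_le_mul_of_nonneg_left h7 hM
  rw [h8]
  calc ∑ k ∈ range K, n k * n k ≤ c 0 * n 0 + M * ∑ k ∈ range K, n k * ((1 - x) * x ^ k) := by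
        rw [← h5]; linarith
    _ ≤ ε * M * M + M * (ε * M + M * ((1 - x) / (1 + x))) := add_le_add h9 h10
    _ = _ := by ring

/-- majorization bound for functions on a finite type -/
lemma majorization {G : Type*} [Fintype G] {x ε M : ℝ} (hx0 : 0 < x) (hx1 : x < 1)
    (hε : 0 ≤ ε) (hM : 0 ≤ M) (n : G → ℕ)
    (hc : ∀ Y : Finset G, (∑ y ∈ Y, n y : ℝ) ≤ (1 - x ^ Y.card + ε) * M)
    (hn1 : ∀ y, (n y : ℝ) ≤ M) :
    ∑ y, (n y : ℝ) ^ 2 ≤ ((1 - x) / (1 + x) + 2 * ε) * M ^ 2 := by
  classical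
  set K := Fintype.card G with hK
  let e0 : Fin K ≃ G := (Fintype.equivFin G).symm
  let σ := Tuple.sort (fun i : Fin K => OrderDual.toDual (n (e0 i)))
  let e : Fin K ≃ G := σ.trans e0
  have hanti : Antitone (fun i : Fin K => n (e i)) := by
    have := Tuple.monotone_sort (fun i : Fin K => OrderDual.toDual (n (e0 i)))
    intro i j hij
    exact this hij
  let N : ℕ → ℝ := fun k => if h : k < K then (n (e ⟨k, h⟩) : ℝ) else 0
  have hN0 : ∀ k, 0 ≤ N k := by
    intro k; simp only [N]; split_ifs <;> positivity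
  have hNanti : Antitone N := by
    intro i j hij
    simp only [N]
    by_cases hj : j < K
    · have hi : i < K := by omega
      rw [dif_pos hj, dif_pos hi]
      exact_mod_cast hanti (show (⟨i, hi⟩ : Fin K) ≤ ⟨j, hj⟩ from hij)
    · rw [dif_neg hj]
      exact hN0 i
  have hsumK : ∀ (f : ℝ → ℝ), ∑ k ∈ range K, f (N k) = ∑ y, f (n y : ℝ) := by
    intro f
    rw [← Equiv.sum_comp e, ← Fin.sum_univ_eq_sum_range (fun k => f (N k)) K]
    apply sum_congr rfl
    intro i _
    simp only [N, i.2, dif_pos]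
  have hpart : ∀ k, ∑ i ∈ range k, N i ≤ (1 - x ^ k + ε) * M := by
    intro k
    by_cases hk : k ≤ K
    · let emb : Fin k ↪ G := (Fin.castLEEmb hk).trans e.toEmbedding
      have h1 := hc (univ.map emb)
      rw [sum_map, card_map, card_univ, Fintype.card_fin] at h1
      rw [← Fin.sum_univ_eq_sum_range N k]
      refine le_trans (le_of_eq ?_) h1
      apply sum_congr rfl
      intro i _
      have hi : (i:ℕ) < K := lt_of_lt_of_le i.2 hk
      simp only [N, hi, dif_pos]
      rfl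
    · push Not at hk
      have h1 := hc univ
      rw [card_univ] at h1
      have h2 : ∑ i ∈ range k, N i = ∑ i ∈ range K, N i := by
        symm
        apply sum_subset (range_subset_range.2 hk.le)
        intro i _ hi
        rw [mem_range] at hi
        simp only [N]
        rw [dif_neg hi]
      have h3 := hsumK id
      simp only [id] at h3
      rw [h2, h3]
      refine h1.trans ?_
      have := pow_le_pow_of_le_one hx0.le hx1.le hk.le
      gcongr
  have hfirst : N 0 ≤ M := by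
    simp only [N]
    split_ifs
    · exact hn1 _
    · exact hM
  have := sorted_bound hx0 hx1 hε hM N hNanti hN0 hpart hfirst K
  rw [hsumK (fun z => z ^ 2)] at this
  exact this

end Q297.Dis
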