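import Pool.Agent.Q297.DisComb

open Finset MeasureTheory

namespace Q297.Dis

/-- total variation distance of two laws on the real line -/
noncomputable def dTV (μ ν : Measure ℝ) : ℝ :=
  ⨆ A : {A : Set ℝ // MeasurableSet A}, |μ.real A.1 - ν.real A.1|

/-- disagreement bounds -/
def IsDisagreementBound (f : ℝ → ℝ) : Prop :=
  (∀ x ∈ Set.Icc (0:ℝ) 1, f x ∈ Set.Icc (0:ℝ) 1) ∧
  ∀ (n : ℕ) (μ : Fin n → Measure ℝ), (∀ i, IsProbabilityMeasure (μ i)) →
    ∃ (Ω : Type) (_ : MeasurableSpace Ω) (P : Measure Ω) (_ : IsProbabilityMeasure P)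
      (X : Fin n → Ω → ℝ), (∀ i, Measurable (X i)) ∧ (∀ i, P.map (X i) = μ i) ∧
      ∀ i j, i ≠ j → P.real {ω | X i ω ≠ X j ω} ≤ f (dTV (μ i) (μ j))

lemma IsDisagreementBound.fintype {f : ℝ → ℝ} (hf : IsDisagreementBound f) {ι : Type} [Fintype ι]
    (μ : ι → Measure ℝ) (hμ : ∀ i, IsProbabilityMeasure (μ i)) :
    ∃ (Ω : Type) (_ : MeasurableSpace Ω) (P : Measure Ω) (_ : IsProbabilityMeasure P)
      (X : ι → Ω → ℝ), (∀ i, Measurable (X i)) ∧ (∀ i, P.map (X i) = μ i) ∧
      ∀ i j, i ≠ j → P.real {ω | X i ω ≠ X j ω} ≤ f (dTV (μ i) (μ j)) := by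
  let e := Fintype.equivFin ι
  obtain ⟨Ω, m, P, hP, X, h1, h2, h3⟩ := hf.2 (Fintype.card ι) (fun i => μ (e.symm i))
    (fun i => hμ _)
  refine ⟨Ω, m, P, hP, fun i => X (e i), fun i => h1 _, fun i => ?_, fun i j hij => ?_⟩
  · rw [h2]; simp
  · have := h3 (e i) (e j) (fun h => hij (e.injective h))
    simpa using this

section fam

variable {p : ℕ} [Fact p.Prime]

abbrev GG (p : ℕ) := ZMod p × ZMod p

/-- the sets -/
def S (B : ZMod p → Finset (ZMod p)) (a : ZMod p) : Finset (GG p) :=
  univ.filter (fun y => y.1 + a * y.2 ∈ B a)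

/-- shear -/
def shear (a : ZMod p) : GG p ≃ GG p where
  toFun y := (y.1 + a * y.2, y.2)
  invFun z := (z.1 - a * z.2, z.2)
  left_inv y := by simp
  right_inv z := by simp

/-- two linear forms -/
def two (a b : ZMod p) (h : a ≠ b) : GG p ≃ GG p where
  toFun y := (y.1 + a * y.2, y.1 + b * y.2)
  invFun z := (z.1 - a * ((z.1 - z.2) / (a - b)), (z.1 - z.2) / (a - b))
  left_inv y := by
    have h' : a - b ≠ 0 := sub_ne_zero.2 h
    have e : (y.1 + a * y.2 - (y.1 + b * y.2)) / (a - b) = y.2 := by
      field_simp; ring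
    ext1
    · simp only [e]; ring
    · simp only [e]
  right_inv z := by
    have h' : a - b ≠ 0 := sub_ne_zero.2 h
    ext1
    · simp
    · simp only
      field_simp
      ring

lemma card_S (B : ZMod p → Finset (ZMod p)) {m : ℕ} (hB : ∀ a, (B a).card = m) (a : ZMod p) :
    (S B a).card = m * p := by
  have : S B a = ((B a) ×ˢ (univ : Finset (ZMod p))).map (shear a).symm.toEmbedding := by
    ext y
    simp only [S, mem_filter, mem_univ, true_and, mem_map_equiv, Equiv.symm_symm, mem_product,
      and_true]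
    rfl
  rw [this, card_map, card_product, hB, card_univ, ZMod.card]

lemma card_S_inter (B : ZMod p → Finset (ZMod p)) {m : ℕ} (hB : ∀ a, (B a).card = m)
    {a b : ZMod p} (h : a ≠ b) : (S B a ∩ S B b).card = m * m := by
  have : S B a ∩ S B b = ((B a) ×ˢ (B b)).map (two a b h).symm.toEmbedding := by
    ext y
    simp only [S, mem_inter, mem_filter, mem_univ, true_and, mem_map_equiv, Equiv.symm_symm,
      mem_product]
    rfl
  rw [this, card_map, card_product, hB, hB]

/-- real encoding of the values -/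
noncomputable def enc (o : Option (GG p)) : ℝ := ((Fintype.equivFin (Option (GG p)) o : ℕ) : ℝ)

lemma enc_inj : Function.Injective (enc (p := p)) := by
  intro a b h
  unfold enc at h
  have h1 : ((Fintype.equivFin (Option (GG p)) a : Fin _) : ℕ) =
      ((Fintype.equivFin (Option (GG p)) b : Fin _) : ℕ) := by exact_mod_cast h
  exact (Fintype.equivFin (Option (GG p))).injective (Fin.ext h1)

/-- the laws -/
noncomputable def law (B : ZMod p → Finset (ZMod p)) (θ w : ℝ) (a : ZMod p) : Measure ℝ :=
  ENNReal.ofReal θ • Measure.dirac (enc (none : Option (GG p))) +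
    ∑ y ∈ S B a, ENNReal.ofReal w • Measure.dirac (enc (some y))

open Classical in
lemma law_real (B : ZMod p → Finset (ZMod p)) {θ w : ℝ} (hθ : 0 ≤ θ) (hw : 0 ≤ w) (a : ZMod p)
    {T : Set ℝ} (hT : MeasurableSet T) :
    (law B θ w a).real T = (if enc (none : Option (GG p)) ∈ T then θ else 0) +
      w * (((S B a).filter (fun y => enc (some y) ∈ T)).card : ℝ) := by
  have h1 : law B θ w a T = ENNReal.ofReal ((if enc (none : Option (GG p)) ∈ T then θ else 0) +
      w * (((S B a).filter (fun y => enc (some y) ∈ T)).card : ℝ)) := by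
    rw [law, Measure.add_apply, Measure.smul_apply, Measure.dirac_apply' _ hT,
      Measure.finsetSum_apply, ENNReal.ofReal_add (by split_ifs <;> simp [hθ]) (by positivity)]
    congr 1
    · simp only [Set.indicator_apply, smul_eq_mul]
      split_ifs <;> simp
    · have : ∀ y ∈ S B a, (ENNReal.ofReal w • Measure.dirac (enc (some y))) T =
          if enc (some y) ∈ T then ENNReal.ofReal w else 0 := by
        intro y _
        rw [Measure.smul_apply, Measure.dirac_apply' _ hT]
        simp only [Set.indicator_apply, smul_eq_mul]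
        split_ifs <;> simp
      rw [Finset.sum_congr rfl this, ← Finset.sum_filter, Finset.sum_const, nsmul_eq_mul,
        mul_comm w, ENNReal.ofReal_mul (by positivity)]
      congr 1
      simp
  rw [Measure.real, h1, ENNReal.toReal_ofReal]
  apply add_nonneg
  · split_ifs <;> simp [hθ]
  · positivity

lemma law_prob (B : ZMod p → Finset (ZMod p)) {m : ℕ} (hB : ∀ a, (B a).card = m) {θ w : ℝ}
    (hθ : 0 ≤ θ) (hw : 0 ≤ w) (hsum : θ + w * (m * p) = 1) (a : ZMod p) :
    IsProbabilityMeasure (law B θ w a) := by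
  constructor
  rw [law, Measure.add_apply, Measure.smul_apply, Measure.finsetSum_apply]
  simp only [Measure.smul_apply, measure_univ, smul_eq_mul, mul_one, Finset.sum_const,
    nsmul_eq_mul]
  rw [card_S B hB a]
  have : ((m * p : ℕ) : ENNReal) = ENNReal.ofReal ((m:ℝ) * p) := by
    rw [← ENNReal.ofReal_natCast]; push_cast; rfl
  rw [this, ← ENNReal.ofReal_mul (by positivity), ← ENNReal.ofReal_add hθ (by positivity)]
  rw [mul_comm ((m:ℝ) * p) w, hsum]; simp

open Classical in
lemma dTV_law (B : ZMod p → Finset (ZMod p)) {m : ℕ} (hB : ∀ a, (B a).card = m) {θ w : ℝ}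
    (hθ : 0 ≤ θ) (hw : 0 ≤ w) {a b : ZMod p} (hab : a ≠ b) :
    dTV (law B θ w a) (law B θ w b) = w * (m * p - m * m) := by
  have hcard : ∀ {a b : ZMod p}, a ≠ b → ((S B a \ S B b).card : ℝ) = m * p - m * m := by
    intro a b hab
    have h1 := card_S_inter B hB hab
    have h2 := card_S B hB a
    have h3 := Finset.card_sdiff_add_card_inter (S B a) (S B b)
    rw [h1, h2] at h3
    have : (((S B a \ S B b).card + m * m : ℕ) : ℝ) = ((m * p : ℕ) : ℝ) := by rw [h3]
    push_cast at this
    linarith
  have hone : ∀ {a b : ZMod p}, a ≠ b → ∀ {T : Set ℝ}, MeasurableSet T →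
      (law B θ w a).real T - (law B θ w b).real T ≤ w * (m * p - m * m) := by
    intro a b hab T hT
    rw [law_real B hθ hw a hT, law_real B hθ hw b hT]
    have h1 : ((S B a).filter (fun y => enc (some y) ∈ T)).card ≤
        ((S B b).filter (fun y => enc (some y) ∈ T)).card + (S B a \ S B b).card := by
      rw [← Nat.add_comm]
      refine le_trans (card_le_card ?_) (card_union_le _ _)
      intro y hy
      rw [mem_filter] at hy
      rw [mem_union, mem_sdiff, mem_filter]
      by_cases hyb : y ∈ S B b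
      · right; exact ⟨hyb, hy.2⟩
      · left; exact ⟨hy.1, hyb⟩
    have h2 : (((S B a).filter (fun y => enc (some y) ∈ T)).card : ℝ) ≤
        (((S B b).filter (fun y => enc (some y) ∈ T)).card : ℝ) + ((S B a \ S B b).card : ℝ) := by
      exact_mod_cast h1
    rw [hcard hab] at h2
    have := mul_le_mul_of_nonneg_left h2 hw
    linarith
  have hbound : ∀ T : {A : Set ℝ // MeasurableSet A},
      |(law B θ w a).real T.1 - (law B θ w b).real T.1| ≤ w * (m * p - m * m) := by
    intro T
    rw [abs_le]
    constructor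
    · have := hone hab.symm T.2
      linarith
    · exact hone hab T.2
  apply le_antisymm
  · haveI : Nonempty {A : Set ℝ // MeasurableSet A} := ⟨⟨∅, MeasurableSet.empty⟩⟩
    exact ciSup_le hbound
  · set T : Set ℝ := (fun y : GG p => enc (some y)) '' ((S B a \ S B b : Finset (GG p)) : Set (GG p))
      with hTdef
    have hTm : MeasurableSet T := (Set.Finite.image _ (Finset.finite_toSet _)).measurableSet
    have hmemT : ∀ y : GG p, enc (some y) ∈ T ↔ y ∈ S B a \ S B b := by
      intro y
      constructor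
      · rintro ⟨z, hz, hzy⟩
        have := Option.some_injective _ (enc_inj hzy)
        rw [← this]; exact hz
      · intro hy; exact ⟨y, hy, rfl⟩
    have hnone : enc (none : Option (GG p)) ∉ T := by
      rintro ⟨z, _, hz⟩
      have := enc_inj hz
      simp at this
    have e1 : (law B θ w a).real T = w * (m * p - m * m) := by
      rw [law_real B hθ hw a hTm, if_neg hnone, zero_add, ← hcard hab]
      congr 3
      ext y
      rw [mem_filter, hmemT, mem_sdiff]
      tauto
    have e2 : (law B θ w b).real T = 0 := by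
      rw [law_real B hθ hw b hTm, if_neg hnone, zero_add]
      have : (S B b).filter (fun y => enc (some y) ∈ T) = ∅ := by
        ext y
        rw [mem_filter, hmemT, mem_sdiff]
        simp
        tauto
      rw [this]; simp
    have h3 := le_ciSup (f := fun A : {A : Set ℝ // MeasurableSet A} =>
      |(law B θ w a).real A.1 - (law B θ w b).real A.1|)
      ⟨w * (m * p - m * m), by rintro _ ⟨T, rfl⟩; exact hbound T⟩ ⟨T, hTm⟩
    simp only [e1, e2, sub_zero] at h3
    exact (le_abs_self _).trans h3

open Classical in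
/-- pointwise agreement bound -/
lemma agreement {x ε : ℝ} (hx0 : 0 < x) (hx1 : x < 1) (hε : 0 ≤ ε)
    (B : ZMod p → Finset (ZMod p))
    (hY : ∀ Y : Finset (GG p), (x ^ Y.card - ε) * p ≤
        (Nat.card {a : ZMod p // unc Y a (B a)} : ℝ))
    (v : ZMod p → Option (GG p)) (hv : ∀ a y, v a = some y → y ∈ S B a) :
    ∑ a, ∑ b, (if v a = v b then (1:ℝ) else 0) ≤
      p * ∑ a, (if v a = none then (1:ℝ) else 0) + ((1 - x) / (1 + x) + 2 * ε) * (p:ℝ) ^ 2 := by
  set n : Option (GG p) → ℝ := fun o => ∑ a, if v a = o then (1:ℝ) else 0 with hn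
  have h1 : ∑ a, ∑ b, (if v a = v b then (1:ℝ) else 0) = ∑ o, (n o) ^ 2 := by
    have e1 : ∀ a b, (if v a = v b then (1:ℝ) else 0) =
        ∑ o, (if v a = o then (1:ℝ) else 0) * (if v b = o then (1:ℝ) else 0) := by
      intro a b
      rw [Finset.sum_eq_single (v a)]
      · simp [eq_comm]
      · intro o _ ho
        rw [if_neg (Ne.symm ho)]; simp
      · intro h; exact absurd (mem_univ _) h
    have e2 : ∀ o, (n o) ^ 2 = ∑ a, ∑ b, (if v a = o then (1:ℝ) else 0) *
        (if v b = o then (1:ℝ) else 0) := by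
      intro o
      rw [pow_two, hn, Finset.sum_mul_sum]
    calc ∑ a, ∑ b, (if v a = v b then (1:ℝ) else 0)
        = ∑ a, ∑ b, ∑ o, (if v a = o then (1:ℝ) else 0) * (if v b = o then (1:ℝ) else 0) := by
          simp only [e1]
      _ = ∑ a, ∑ o, ∑ b, (if v a = o then (1:ℝ) else 0) * (if v b = o then (1:ℝ) else 0) := by
          apply Finset.sum_congr rfl
          intro a _
          exact Finset.sum_comm
      _ = ∑ o, ∑ a, ∑ b, (if v a = o then (1:ℝ) else 0) * (if v b = o then (1:ℝ) else 0) :=
          Finset.sum_comm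
      _ = ∑ o, (n o) ^ 2 := by
          apply Finset.sum_congr rfl
          intro o _
          rw [e2]
  have hp0 : (0:ℝ) ≤ p := Nat.cast_nonneg p
  have hcard : ∀ o, n o = ((univ.filter (fun a => v a = o)).card : ℝ) := by
    intro o
    simp only [hn]
    rw [Finset.sum_boole]
  have hnle : ∀ o, n o ≤ p := by
    intro o
    rw [hcard]
    have : (univ.filter (fun a => v a = o)).card ≤ (univ : Finset (ZMod p)).card :=
      card_le_card (filter_subset _ _)
    rw [card_univ, ZMod.card] at this
    exact_mod_cast this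
  have hn0 : ∀ o, 0 ≤ n o := by
    intro o; rw [hcard]; positivity
  rw [h1, Fintype.sum_option]
  apply add_le_add
  · rw [pow_two]
    exact mul_le_mul_of_nonneg_right (hnle _) (hn0 _)
  · have := majorization (G := GG p) (x := x) (ε := ε) (M := (p:ℝ)) hx0 hx1 hε hp0
      (fun y => (univ.filter (fun a => v a = some y)).card) ?_ ?_
    · simp only [← hcard] at this
      exact this
    · intro Y
      have hsum : (∑ y ∈ Y, ((univ.filter (fun a => v a = some y)).card : ℝ)) =
          ((univ.filter (fun a => ∃ y ∈ Y, v a = some y)).card : ℝ) := by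
        have : (∑ y ∈ Y, (univ.filter (fun a => v a = some y)).card) =
            (univ.filter (fun a => ∃ y ∈ Y, v a = some y)).card := by
          rw [← Finset.card_biUnion]
          · congr 1
            ext a
            simp
          · intro y _ z _ hyz
            rw [Function.onFun, Finset.disjoint_left]
            intro a ha hb
            rw [mem_filter] at ha hb
            apply hyz
            have := ha.2.symm.trans hb.2
            exact Option.some_injective _ this
        exact_mod_cast this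
      rw [hsum]
      have hdisj : (univ.filter (fun a => ∃ y ∈ Y, v a = some y)).card +
          Nat.card {a : ZMod p // unc Y a (B a)} ≤ p := by
        rw [Nat.card_eq_fintype_card, Fintype.card_subtype, ← Finset.card_union_of_disjoint]
        · have : ((univ.filter (fun a => ∃ y ∈ Y, v a = some y)) ∪
              (univ.filter (fun a => unc Y a (B a)))).card ≤ (univ : Finset (ZMod p)).card :=
            card_le_card (subset_univ _)
          rw [card_univ, ZMod.card] at this
          exact this
        · rw [Finset.disjoint_left]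
          intro a ha hb
          rw [mem_filter] at ha hb
          obtain ⟨y, hy, hvy⟩ := ha.2
          have h5 := hv a y hvy
          rw [S, mem_filter] at h5
          exact hb.2 y hy h5.2
      have h6 : ((univ.filter (fun a => ∃ y ∈ Y, v a = some y)).card : ℝ) +
          (Nat.card {a : ZMod p // unc Y a (B a)} : ℝ) ≤ p := by exact_mod_cast hdisj
      have h7 := hY Y
      nlinarith
    · intro y
      rw [← hcard]
      exact hnle _

/-- the main estimate for the family -/
lemma main_estimate {f : ℝ → ℝ} (hf : IsDisagreementBound f) {x ε : ℝ} (hx0 : 0 < x) (hx1 : x < 1)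
    (hε : 0 < ε) (hp1 : 1 / (x * ε) ≤ p) (hp2 : 1 / (1 - x) ≤ p)
    (B : ZMod p → Finset (ZMod p)) (hB : ∀ a, (B a).card = ⌊(1 - x) * p⌋₊)
    (hY : ∀ Y : Finset (GG p), (x ^ Y.card - ε) * p ≤
        (Nat.card {a : ZMod p // unc Y a (B a)} : ℝ)) :
    1 - f x ≤ (1 - x) / (1 + x) + 3 * ε := by
  classical
  have hpp : p.Prime := Fact.out
  have hp : 0 < p := hpp.pos
  have hpR : (0:ℝ) < p := by exact_mod_cast hp
  set m := ⌊(1 - x) * p⌋₊ with hm
  have h1x : 0 < 1 - x := by linarith
  have hm1 : 1 ≤ (1 - x) * p := by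
    rw [div_le_iff₀ h1x] at hp2; linarith
  have hmpos : 0 < m := Nat.floor_pos.2 hm1
  have hmle : (m:ℝ) ≤ (1 - x) * p := Nat.floor_le (by positivity)
  have hmge : (1 - x) * p < m + 1 := Nat.lt_floor_add_one _
  have hmR : (0:ℝ) < m := by exact_mod_cast hmpos
  -- x0 and θ
  set x0 : ℝ := 1 - m / p with hx0def
  have hx0x : x ≤ x0 := by
    have : (m:ℝ) / p ≤ 1 - x := by rw [div_le_iff₀ hpR]; exact hmle
    rw [hx0def]; linarith
  have hx0x' : x0 ≤ x + 1 / p := by
    have : 1 - x - 1 / p ≤ (m:ℝ) / p := by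
      rw [le_div_iff₀ hpR, sub_mul, div_mul_cancel₀ _ hpR.ne']; linarith
    rw [hx0def]; linarith
  have hx0pos : 0 < x0 := by linarith
  set θ : ℝ := 1 - x / x0 with hθdef
  have hθ0 : 0 ≤ θ := by
    have : x / x0 ≤ 1 := by rw [div_le_one hx0pos]; exact hx0x
    rw [hθdef]; linarith
  have hθε : θ ≤ ε := by
    have h1 : θ = (x0 - x) / x0 := by rw [hθdef]; field_simp
    rw [h1, div_le_iff₀ hx0pos]
    have h2 : 1 / (p:ℝ) ≤ x * ε := by
      rw [div_le_iff₀ (by positivity)] at hp1
      rw [div_le_iff₀ hpR]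
      nlinarith
    have h3 : x * ε ≤ ε * x0 := by nlinarith
    linarith
  set w : ℝ := (1 - θ) / (m * p) with hwdef
  have h1θ : 0 ≤ 1 - θ := by
    rw [hθdef]
    have : 0 ≤ x / x0 := by positivity
    linarith
  have hw0 : 0 ≤ w := by positivity
  have hsum : θ + w * (m * p) = 1 := by
    rw [hwdef]; field_simp; ring
  have hprob := law_prob B hB hθ0 hw0 hsum
  obtain ⟨Ω, mΩ, P, hP, X, hXm, hXl, hXd⟩ := hf.fintype (fun a : ZMod p => law B θ w a) hprob
  have hdtv : ∀ a b : ZMod p, a ≠ b → dTV (law B θ w a) (law B θ w b) = x := by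
    intro a b hab
    rw [dTV_law B hB hθ0 hw0 hab, hwdef]
    have h1 : (1 - θ) * x0 = x := by
      rw [hθdef]; field_simp; ring
    have h2 : (1 - θ) / (m * p) * (m * p - m * m) = (1 - θ) * x0 := by
      rw [hx0def]; field_simp
    rw [h2, h1]
  have hfx := hf.1 x ⟨hx0.le, hx1.le⟩
  -- probabilities of agreement
  have hagree : ∀ a b : ZMod p, 1 - f x ≤ P.real {ω | X a ω = X b ω} := by
    intro a b
    by_cases hab : a = b
    · subst hab
      have : {ω | X a ω = X a ω} = Set.univ := by ext; simp
      rw [this, probReal_univ]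
      linarith [hfx.1]
    · have h1 := hXd a b hab
      rw [hdtv a b hab] at h1
      have h2 : {ω | X a ω = X b ω} = {ω | X a ω ≠ X b ω}ᶜ := by ext; simp
      have h3 : MeasurableSet {ω | X a ω ≠ X b ω} :=
        (measurableSet_eq_fun (hXm a) (hXm b)).compl
      rw [h2, probReal_compl_eq_one_sub h3]
      linarith
  -- almost sure support
  have hsupp : ∀ᵐ ω ∂P, ∀ a : ZMod p, ∃ o : Option (GG p), X a ω = enc o ∧
      ∀ y, o = some y → y ∈ S B a := by
    rw [ae_all_iff]
    intro a
    set T : Set ℝ := {z | ∃ o : Option (GG p), z = enc o ∧ ∀ y, o = some y → y ∈ S B a} with hT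
    have hTm : MeasurableSet T := by
      apply Set.Finite.measurableSet
      apply (Set.finite_range (enc (p := p))).subset
      rintro z ⟨o, rfl, _⟩
      exact ⟨o, rfl⟩
    have h1 : law B θ w a Tᶜ = 0 := by
      have h2 : (law B θ w a).real Tᶜ = 0 := by
        have hz : ∀ (inst : DecidablePred fun y : GG p => enc (some y) ∈ Tᶜ),
            (@Finset.filter _ (fun y : GG p => enc (some y) ∈ Tᶜ) inst (S B a)).card = 0 := by
          intro inst
          apply Finset.card_eq_zero.2
          apply Finset.filter_eq_empty_iff.2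
          intro y hy h
          apply h
          exact ⟨some y, rfl, fun z hz => by
            have := Option.some_injective _ hz
            rw [← this]; exact hy⟩
        rw [law_real B hθ0 hw0 a hTm.compl, if_neg, zero_add, hz]
        · simp
        · intro h
          apply h
          exact ⟨none, rfl, fun z hz => by simp at hz⟩
      have := hprob a
      rwa [measureReal_eq_zero_iff] at h2
    rw [← hXl a, Measure.map_apply (hXm a) hTm.compl] at h1
    exact h1
  have hpoint : ∀ᵐ ω ∂P, ∑ a, ∑ b, ({ω | X a ω = X b ω} : Set Ω).indicator (fun _ => (1:ℝ)) ω ≤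
      p * ∑ a, ({ω | X a ω = enc (none : Option (GG p))} : Set Ω).indicator (fun _ => (1:ℝ)) ω +
        ((1 - x) / (1 + x) + 2 * ε) * (p:ℝ) ^ 2 := by
    filter_upwards [hsupp] with ω hω
    choose v hv1 hv2 using hω
    have := agreement hx0 hx1 hε.le B hY v hv2
    have e1 : ∑ a, ∑ b, ({ω | X a ω = X b ω} : Set Ω).indicator (fun _ => (1:ℝ)) ω =
        ∑ a, ∑ b, (if v a = v b then (1:ℝ) else 0) := by
      apply Finset.sum_congr rfl
      intro a _
      apply Finset.sum_congr rfl
      intro b _
      by_cases h : v a = v b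
      · rw [Set.indicator_of_mem, if_pos h]
        show X a ω = X b ω
        rw [hv1, hv1, h]
      · rw [Set.indicator_of_notMem, if_neg h]
        intro h'
        apply h
        have h'' : X a ω = X b ω := h'
        rw [hv1, hv1] at h''
        exact enc_inj h''
    have e2 : ∑ a, ({ω | X a ω = enc (none : Option (GG p))} : Set Ω).indicator
        (fun _ => (1:ℝ)) ω = ∑ a, (if v a = none then (1:ℝ) else 0) := by
      apply Finset.sum_congr rfl
      intro a _
      by_cases h : v a = none
      · rw [Set.indicator_of_mem, if_pos h]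
        show X a ω = _
        rw [hv1, h]
      · rw [Set.indicator_of_notMem, if_neg h]
        intro h'
        apply h
        have h'' : X a ω = _ := h'
        rw [hv1] at h''
        exact enc_inj h''
    rw [e1, e2]
    exact this
  have hmeas1 : ∀ a b, MeasurableSet {ω | X a ω = X b ω} := fun a b =>
    measurableSet_eq_fun (hXm a) (hXm b)
  have hmeas2 : ∀ a, MeasurableSet {ω | X a ω = enc (none : Option (GG p))} := fun a =>
    measurableSet_eq_fun (hXm a) measurable_const
  have hint1 : ∀ a b, Integrable (({ω | X a ω = X b ω} : Set Ω).indicator (fun _ => (1:ℝ))) P :=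
    fun a b => (integrable_const (1:ℝ)).indicator (hmeas1 a b)
  have hint2 : ∀ a, Integrable (({ω | X a ω = enc (none : Option (GG p))} : Set Ω).indicator
      (fun _ => (1:ℝ))) P :=
    fun a => (integrable_const (1:ℝ)).indicator (hmeas2 a)
  have hI := integral_mono_ae
    (μ := P) (f := fun ω => ∑ a, ∑ b, ({ω | X a ω = X b ω} : Set Ω).indicator (fun _ => (1:ℝ)) ω)
    (g := fun ω => p * ∑ a, ({ω | X a ω = enc (none : Option (GG p))} : Set Ω).indicator
      (fun _ => (1:ℝ)) ω + ((1 - x) / (1 + x) + 2 * ε) * (p:ℝ) ^ 2)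
    (integrable_finsetSum _ (fun a _ => integrable_finsetSum _ (fun b _ => hint1 a b)))
    (((integrable_finsetSum _ (fun a _ => hint2 a)).const_mul _).add (integrable_const _)) hpoint
  have hL : ∫ ω, ∑ a, ∑ b, ({ω | X a ω = X b ω} : Set Ω).indicator (fun _ => (1:ℝ)) ω ∂P =
      ∑ a, ∑ b, P.real {ω | X a ω = X b ω} := by
    rw [integral_finsetSum _ (fun a _ => integrable_finsetSum _ (fun b _ => hint1 a b))]
    apply Finset.sum_congr rfl
    intro a _
    rw [integral_finsetSum _ (fun b _ => hint1 a b)]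
    apply Finset.sum_congr rfl
    intro b _
    rw [integral_indicator_const (1:ℝ) (hmeas1 a b)]; simp
  have hnone : ∀ a, P.real {ω | X a ω = enc (none : Option (GG p))} = θ := by
    intro a
    have h1 : (P.map (X a)).real {enc (none : Option (GG p))} = θ := by
      rw [hXl a, law_real B hθ0 hw0 a (measurableSet_singleton _),
        if_pos (Set.mem_singleton _), Finset.card_eq_zero.2]
      · simp
      · apply Finset.filter_eq_empty_iff.2
        intro y _ h
        have := enc_inj h
        simp at this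
    rw [← h1, Measure.real, Measure.real, Measure.map_apply (hXm a) (measurableSet_singleton _)]
    rfl
  have hR : ∫ ω, (p * ∑ a, ({ω | X a ω = enc (none : Option (GG p))} : Set Ω).indicator
      (fun _ => (1:ℝ)) ω + ((1 - x) / (1 + x) + 2 * ε) * (p:ℝ) ^ 2) ∂P =
      p * (p * θ) + ((1 - x) / (1 + x) + 2 * ε) * (p:ℝ) ^ 2 := by
    rw [integral_add ((integrable_finsetSum _ (fun a _ => hint2 a)).const_mul _)
      (integrable_const _), integral_const_mul, integral_finsetSum _ (fun a _ => hint2 a)]
    congr 1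
    · congr 1
      have : ∀ a ∈ (univ : Finset (ZMod p)), ∫ ω, ({ω | X a ω = enc (none : Option (GG p))} : Set Ω).indicator
          (fun _ => (1:ℝ)) ω ∂P = θ := by
        intro a _
        rw [integral_indicator_const (1:ℝ) (hmeas2 a), hnone]; simp
      rw [Finset.sum_congr rfl this, Finset.sum_const, card_univ, ZMod.card, nsmul_eq_mul]
    · simp
  rw [hL, hR] at hI
  have hlow : (p:ℝ) ^ 2 * (1 - f x) ≤ ∑ a : ZMod p, ∑ b : ZMod p, P.real {ω | X a ω = X b ω} := by
    calc (p:ℝ) ^ 2 * (1 - f x) = ∑ _a : ZMod p, ∑ _b : ZMod p, (1 - f x) := by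
          simp only [Finset.sum_const, card_univ, ZMod.card, nsmul_eq_mul]; ring
      _ ≤ _ := Finset.sum_le_sum (fun a _ => Finset.sum_le_sum (fun b _ => hagree a b))
  have h2 := hlow.trans hI
  have hp2 : (0:ℝ) < (p:ℝ) ^ 2 := by positivity
  have h3 : (p:ℝ) ^ 2 * (1 - f x) ≤ (p:ℝ) ^ 2 * (θ + ((1 - x) / (1 + x) + 2 * ε)) := by
    calc _ ≤ _ := h2
      _ = _ := by ring
  have h4 := le_of_mul_le_mul_left h3 hp2
  linarith

end fam

theorem lower_bound_interior {f : ℝ → ℝ} (hf : IsDisagreementBound f) {x : ℝ} (hx0 : 0 < x)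
    (hx1 : x < 1) : 2 * x / (1 + x) ≤ f x := by
  have key : ∀ ε : ℝ, 0 < ε → 1 - f x ≤ (1 - x) / (1 + x) + 3 * ε := by
    intro ε hε
    obtain ⟨p, hpN, hpp, B, hB, hY⟩ := exists_family hx0 hx1 hε
      (max ⌈1 / (x * ε)⌉₊ ⌈1 / (1 - x)⌉₊)
    have : Fact p.Prime := ⟨hpp⟩
    have h1 : 1 / (x * ε) ≤ p := (Nat.le_ceil _).trans (by
      exact_mod_cast (le_max_left _ _).trans hpN)
    have h2 : 1 / (1 - x) ≤ p := (Nat.le_ceil _).trans (by
      exact_mod_cast (le_max_right _ _).trans hpN)
    exact main_estimate hf hx0 hx1 hε h1 h2 B hB hY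
  have h1 : 1 - f x ≤ (1 - x) / (1 + x) := by
    apply le_of_forall_pos_le_add
    intro δ hδ
    have := key (δ / 3) (by positivity)
    linarith
  have h2 : 2 * x / (1 + x) = 1 - (1 - x) / (1 + x) := by
    have : 1 + x ≠ 0 := by linarith
    field_simp; ring
  rw [h2]; linarith

theorem lower_bound {f : ℝ → ℝ} (hf : IsDisagreementBound f) {x : ℝ} (hx : x ∈ Set.Icc (0:ℝ) 1) :
    2 * x / (1 + x) ≤ f x := by
  rcases hx.1.eq_or_lt with h0 | h0
  · rw [← h0]; simp only [mul_zero, zero_div]
    exact (hf.1 0 (by simp)).1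
  rcases hx.2.lt_or_eq with h1 | h1
  · exact lower_bound_interior hf h0 h1
  · subst h1
    have e : (2:ℝ) * 1 / (1 + 1) = 1 := by norm_num
    rw [e]
    obtain ⟨Ω, mΩ, P, hP, X, hXm, hXl, hXd⟩ := hf.2 2 (fun i => Measure.dirac ((i:ℕ):ℝ))
      (fun i => inferInstance)
    have hd : dTV (Measure.dirac (((0 : Fin 2):ℕ):ℝ)) (Measure.dirac (((1 : Fin 2):ℕ):ℝ)) = 1 := by
      have hb : ∀ A : {A : Set ℝ // MeasurableSet A},
          |(Measure.dirac (((0 : Fin 2):ℕ):ℝ)).real A.1 - (Measure.dirac (((1 : Fin 2):ℕ):ℝ)).real A.1|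
            ≤ 1 := by
        intro A
        have a1 : (Measure.dirac (((0 : Fin 2):ℕ):ℝ)).real A.1 ≤ 1 := measureReal_le_one
        have a2 : (Measure.dirac (((1 : Fin 2):ℕ):ℝ)).real A.1 ≤ 1 := measureReal_le_one
        have a3 : 0 ≤ (Measure.dirac (((0 : Fin 2):ℕ):ℝ)).real A.1 := measureReal_nonneg
        have a4 : 0 ≤ (Measure.dirac (((1 : Fin 2):ℕ):ℝ)).real A.1 := measureReal_nonneg
        rw [abs_le]; constructor <;> linarith
      apply le_antisymm
      · have : Nonempty {A : Set ℝ // MeasurableSet A} := ⟨⟨∅, MeasurableSet.empty⟩⟩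
        exact ciSup_le hb
      · have h3 := le_ciSup (f := fun A : {A : Set ℝ // MeasurableSet A} =>
          |(Measure.dirac (((0 : Fin 2):ℕ):ℝ)).real A.1 -
            (Measure.dirac (((1 : Fin 2):ℕ):ℝ)).real A.1|)
          ⟨1, by rintro _ ⟨T, rfl⟩; exact hb T⟩ ⟨{(0:ℝ)}, measurableSet_singleton _⟩
        refine le_trans ?_ h3
        simp only [Measure.real]
        rw [Measure.dirac_apply' _ (measurableSet_singleton _),
          Measure.dirac_apply' _ (measurableSet_singleton _)]
        simp
    have h2 := hXd 0 1 (by norm_num)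
    rw [hd] at h2
    have h3 : P.real {ω | X 0 ω ≠ X 1 ω} = 1 := by
      have g : ∀ i : Fin 2, ∀ᵐ ω ∂P, X i ω = ((i:ℕ):ℝ) := by
        intro i
        have h4 : (P.map (X i)) {((i:ℕ):ℝ)}ᶜ = 0 := by
          rw [hXl i, Measure.dirac_apply' _ (measurableSet_singleton _).compl]; simp
        rw [Measure.map_apply (hXm i) (measurableSet_singleton _).compl] at h4
        exact h4
      have h5 : ∀ᵐ ω ∂P, ω ∈ {ω | X 0 ω ≠ X 1 ω} := by
        filter_upwards [g 0, g 1] with ω h6 h7
        simp only [Set.mem_ofPred_eq, h6, h7]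
        norm_num
      have h6 : P {ω | X 0 ω ≠ X 1 ω} = 1 :=
        (prob_compl_eq_zero_iff ((measurableSet_eq_fun (hXm 0) (hXm 1)).compl)).1 h5
      rw [Measure.real, h6]; simp
    linarith

end Q297.Dis
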