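import Mathlib

/-! Entire functions without zeros and of order at most two. -/

open Complex Set Filter Topology

namespace Q297.Cramer

/-- entire nonvanishing functions have entire logarithms -/
lemma exists_log {u : ℂ → ℂ} (hu : Differentiable ℂ u) (h0 : ∀ z, u z ≠ 0) (h1 : u 0 = 1) :
    ∃ g : ℂ → ℂ, Differentiable ℂ g ∧ g 0 = 0 ∧ ∀ z, u z = Complex.exp (g z) := by
  have hd : Differentiable ℂ (deriv u) := by
    have := hu.contDiff (n := 2)
    exact ((contDiff_succ_iff_deriv (n := 1)).1 this).2.2.differentiable (by norm_num)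
  have hh : Differentiable ℂ (fun z => deriv u z / u z) := hd.div hu h0
  obtain ⟨g, hg0, hg⟩ := hh.isExactOn_univ.with_val_at 0 0
  have hgd : Differentiable ℂ g := fun z => (hg z (mem_univ z)).differentiableAt
  refine ⟨g, hgd, hg0, ?_⟩
  have hder : ∀ z, HasDerivAt (fun z => u z * Complex.exp (-g z)) 0 z := by
    intro z
    have h2 := (hu z).hasDerivAt
    have h3 := ((hg z (mem_univ z)).neg).cexp
    have h4 := h2.mul h3
    convert! h4 using 1
    have h5 := h0 z
    simp only [Pi.neg_apply]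
    field_simp
    ring
  have hconst := is_const_of_deriv_eq_zero (fun z => (hder z).differentiableAt)
    (fun z => (hder z).deriv)
  intro z
  have h6 := hconst z 0
  rw [hg0, h1, neg_zero, Complex.exp_zero, mul_one, Complex.exp_neg] at h6
  have h7 := Complex.exp_ne_zero (g z)
  field_simp at h6
  exact h6

/-- entire functions with quadratic growth of the real part are quadratic polynomials -/
lemma quad_of_re_le {g : ℂ → ℂ} (hg : Differentiable ℂ g) (h0 : g 0 = 0) {C : ℝ}
    (hC : ∀ z, (g z).re ≤ C * (1 + ‖z‖ ^ 2)) :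
    ∃ α β : ℂ, ∀ z, g z = α * z + β * z ^ 2 := by
  have hCpos : 0 ≤ C := by
    have := hC 0
    rw [h0] at this
    simpa using this
  -- bound of the modulus
  have hb : ∀ z, ‖g z‖ ≤ 2 * (C + 1) * (1 + (2 * ‖z‖ + 1) ^ 2) := by
    intro z
    have hR : (0:ℝ) < 2 * ‖z‖ + 1 := by positivity
    have h1 := Complex.borelCaratheodory_zero (f := g) (M := (C + 1) * (1 + (2 * ‖z‖ + 1) ^ 2))
      (R := 2 * ‖z‖ + 1) (z := z) (by positivity) hg.differentiableOn ?_ hR ?_ h0
    · refine h1.trans ?_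
      rw [div_le_iff₀ (by nlinarith [norm_nonneg z])]
      have h2 : 0 ≤ (C + 1) * (1 + (2 * ‖z‖ + 1) ^ 2) := by positivity
      nlinarith [norm_nonneg z, mul_nonneg h2 (norm_nonneg z)]
    · intro w hw
      rw [Metric.mem_ball, dist_zero_right] at hw
      show (g w).re ≤ _
      refine (hC w).trans ?_
      have : ‖w‖ ^ 2 ≤ (2 * ‖z‖ + 1) ^ 2 := by
        apply pow_le_pow_left₀ (norm_nonneg _) hw.le
      nlinarith
    · rw [Metric.mem_ball, dist_zero_right]
      linarith [norm_nonneg z]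
  set p := dslope g 0 with hp
  have hpd : Differentiable ℂ p := by
    have := (Complex.differentiableOn_dslope (f := g) (s := univ) (c := 0) univ_mem).2
      hg.differentiableOn
    rwa [differentiableOn_univ] at this
  set q := dslope p 0 with hq
  have hqd : Differentiable ℂ q := by
    have := (Complex.differentiableOn_dslope (f := p) (s := univ) (c := 0) univ_mem).2
      hpd.differentiableOn
    rwa [differentiableOn_univ] at this
  have e1 : ∀ z, g z = z * p z := by
    intro z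
    have := sub_smul_dslope g 0 z
    rw [h0, sub_zero, sub_zero, smul_eq_mul] at this
    exact this.symm
  have e2 : ∀ z, p z = p 0 + z * q z := by
    intro z
    have := sub_smul_dslope p 0 z
    rw [sub_zero, smul_eq_mul] at this
    rw [hq, this]; ring
  have hbd : Bornology.IsBounded (range q) := by
    obtain ⟨B, hB⟩ := (isCompact_closedBall (0:ℂ) 1).exists_bound_of_continuousOn
      hqd.continuous.continuousOn
    rw [isBounded_iff_forall_norm_le]
    refine ⟨max B (20 * (C + 1) + ‖p 0‖), ?_⟩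
    rintro _ ⟨z, rfl⟩
    by_cases hz : ‖z‖ ≤ 1
    · exact (hB z (by simpa using hz)).trans (le_max_left _ _)
    · push Not at hz
      refine le_trans ?_ (le_max_right _ _)
      have h3 : z ^ 2 * q z = g z - z * p 0 := by
        rw [e1 z]
        rw [e2 z]; ring
      have h4 : ‖z‖ ^ 2 * ‖q z‖ ≤ ‖g z‖ + ‖z‖ * ‖p 0‖ := by
        rw [← norm_pow, ← norm_mul, h3]
        refine (norm_sub_le _ _).trans ?_
        rw [norm_mul]
      have h5 := hb z
      have h6 : ‖z‖ ^ 2 * ‖q z‖ ≤ ‖z‖ ^ 2 * (20 * (C + 1) + ‖p 0‖) := by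
        refine h4.trans ?_
        have h7 : ‖z‖ ≤ ‖z‖ ^ 2 := by nlinarith
        have h8 : ‖z‖ * ‖p 0‖ ≤ ‖z‖ ^ 2 * ‖p 0‖ := by
          apply mul_le_mul_of_nonneg_right h7 (norm_nonneg _)
        have h9 : 2 * (1 + (2 * ‖z‖ + 1) ^ 2) ≤ 20 * ‖z‖ ^ 2 := by nlinarith
        have h10 : 2 * (C + 1) * (1 + (2 * ‖z‖ + 1) ^ 2) ≤ (C + 1) * (20 * ‖z‖ ^ 2) := by
          have := mul_le_mul_of_nonneg_left h9 (by linarith : (0:ℝ) ≤ C + 1)
          nlinarith
        nlinarith
      exact le_of_mul_le_mul_left h6 (by positivity)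
  refine ⟨p 0, q 0, fun z => ?_⟩
  rw [e1 z, e2 z, hqd.apply_eq_apply_of_bounded hbd z 0]
  ring

lemma exp_quad {u : ℂ → ℂ} (hu : Differentiable ℂ u) (h0 : ∀ z, u z ≠ 0) (h1 : u 0 = 1)
    {C : ℝ} (hC : ∀ z, ‖u z‖ ≤ Real.exp (C * (1 + ‖z‖ ^ 2))) :
    ∃ α β : ℂ, ∀ z, u z = Complex.exp (α * z + β * z ^ 2) := by
  obtain ⟨g, hg, hg0, hgu⟩ := exists_log hu h0 h1
  obtain ⟨α, β, h⟩ := quad_of_re_le hg hg0 (C := C) (by
    intro z
    have := hC z
    rw [hgu z, Complex.norm_exp, Real.exp_le_exp] at this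
    exact this)
  exact ⟨α, β, fun z => by rw [hgu z, h z]⟩

/-- `exp (c t) = 1` for all real `t > 0` implies `c = 0` -/
lemma eq_zero_of_exp {c : ℂ} (h : ∀ t : ℝ, 0 < t → Complex.exp (c * t) = 1) : c = 0 := by
  have h1 : HasDerivAt (fun t : ℝ => Complex.exp (c * t)) (Complex.exp (c * (1:ℝ)) * (c * 1)) 1 := by
    have h2 : HasDerivAt (fun t : ℝ => c * (t : ℂ)) (c * 1) 1 :=
      (Complex.ofRealCLM.hasDerivAt (x := (1:ℝ))).const_mul c
    exact h2.cexp
  have h3 : HasDerivAt (fun t : ℝ => Complex.exp (c * t)) 0 1 := by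
    have h4 : (fun t : ℝ => Complex.exp (c * t)) =ᶠ[𝓝 1] fun _ => (1:ℂ) := by
      filter_upwards [lt_mem_nhds (zero_lt_one)] with t ht
      exact h t ht
    exact (hasDerivAt_const (1:ℝ) (1:ℂ)).congr_of_eventuallyEq h4
  have h5 := h1.unique h3
  rw [h 1 one_pos] at h5
  simpa using h5

end Q297.Cramer
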