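import Pool.Agent.Q297.BernMix

/-! Factors of iid on graphs: definitions. -/

open MeasureTheory

namespace Q297.Factor

variable {V : Type} {S : Type}

/-- The law of iid uniform `[0,1]` labels on the vertices. -/
noncomputable abbrev labels (V : Type) : Measure (V → unitInterval) :=
  Measure.infinitePi (fun _ : V => (volume : Measure unitInterval))

/-- Action of an automorphism on labels: `(γ ω) v = ω (γ⁻¹ v)`. -/
def moveLabels {G : SimpleGraph V} (γ : G ≃g G) (ω : V → unitInterval) : V → unitInterval :=
  fun v => ω (γ.symm v)

/-- Action of an automorphism on decorations.  A decoration with values in `S` is a function on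
ordered pairs of vertices. -/
def moveDec {G : SimpleGraph V} (γ : G ≃g G) (D : V → V → S) : V → V → S :=
  fun u v => D (γ.symm u) (γ.symm v)

/-- `Φ` is a factor of iid on `G`: it is measurable and commutes with every automorphism of `G`.
(`S` will be a countable discrete set, so measurability means that the sets
`{ω | Φ ω u v = s}` are measurable.) -/
structure IsFactor (G : SimpleGraph V) (Φ : (V → unitInterval) → V → V → S) : Prop where
  measurable : ∀ u v s, MeasurableSet {ω | Φ ω u v = s}
  equivariant : ∀ (γ : G ≃g G) ω, Φ (moveLabels γ ω) = moveDec γ (Φ ω)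

/-- A weaker notion: equivariance only almost surely (for each automorphism separately). -/
structure IsFactorAE (G : SimpleGraph V) (Φ : (V → unitInterval) → V → V → S) : Prop where
  measurable : ∀ u v s, MeasurableSet {ω | Φ ω u v = s}
  equivariant : ∀ γ : G ≃g G, ∀ᵐ ω ∂labels V, Φ (moveLabels γ ω) = moveDec γ (Φ ω)

/-- Perfect matching: a symmetric set of edges covering every vertex exactly once. -/
def IsPerfectMatching (G : SimpleGraph V) (M : V → V → Bool) : Prop :=
  (∀ u v, M u v = true → G.Adj u v) ∧ (∀ u v, M u v = M v u) ∧ ∀ u, ∃! v, M u v = true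

/-- `O` orients every edge of `G` (`O u v = true` means that the edge `uv` points from `u` to
`v`), and every vertex has out-degree `d` and in-degree `d`. -/
def IsBalancedOrientation (G : SimpleGraph V) (d : ℕ) (O : V → V → Bool) : Prop :=
  (∀ u v, O u v = true → G.Adj u v) ∧ (∀ u v, G.Adj u v → (O u v = true ↔ ¬ O v u = true)) ∧
  ∀ v, {w | O v w = true}.encard = d ∧ {w | O w v = true}.encard = d

/-- Schreier decoration: `D u v = some c` means that the edge `uv` points from `u` to `v` and has
colour `c`.  Every edge is oriented and coloured, and at every vertex every colour occurs on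
exactly one outgoing and exactly one incoming edge. -/
def IsSchreier (G : SimpleGraph V) (d : ℕ) (D : V → V → Option (Fin d)) : Prop :=
  (∀ u v, (D u v).isSome → G.Adj u v) ∧
  (∀ u v, G.Adj u v → ((D u v).isSome ↔ ¬ (D v u).isSome)) ∧
  ∀ u c, (∃! v, D u v = some c) ∧ (∃! v, D v u = some c)

/-- `Aut(G)` has finitely many orbits on the vertices. -/
def QuasiTransitive (G : SimpleGraph V) : Prop :=
  ∃ F : Set V, F.Finite ∧ ∀ v, ∃ γ : G ≃g G, ∃ u ∈ F, γ u = v

/-- forgetting the colours of a Schreier decoration gives a balanced orientation -/
lemma IsSchreier.balanced {G : SimpleGraph V} {d : ℕ} {D : V → V → Option (Fin d)}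
    (h : IsSchreier G d D) : IsBalancedOrientation G d (fun u v => (D u v).isSome) := by
  refine ⟨h.1, h.2.1, fun v => ⟨?_, ?_⟩⟩
  · choose f hf hu using fun c => (h.2.2 v c).1
    have hinj : Function.Injective f := by
      intro c c' hc
      have h1 : D v (f c) = some c := hf c
      have h2 : D v (f c') = some c' := hf c'
      rw [hc, h2] at h1
      exact (Option.some_injective _ h1).symm
    have : {w | (D v w).isSome = true} = Set.range f := by
      ext w
      simp only [Set.mem_ofPred_eq, Set.mem_range, Option.isSome_iff_exists]
      constructor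
      · rintro ⟨c, hc⟩; exact ⟨c, (hu c w hc).symm⟩
      · rintro ⟨c, rfl⟩; exact ⟨c, hf c⟩
    rw [this, ← Set.image_univ, hinj.encard_image]; simp
  · choose f hf hu using fun c => (h.2.2 v c).2
    have hinj : Function.Injective f := by
      intro c c' hc
      have h1 : D (f c) v = some c := hf c
      have h2 : D (f c') v = some c' := hf c'
      rw [hc, h2] at h1
      exact (Option.some_injective _ h1).symm
    have : {w | (D w v).isSome = true} = Set.range f := by
      ext w
      simp only [Set.mem_ofPred_eq, Set.mem_range, Option.isSome_iff_exists]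
      constructor
      · rintro ⟨c, hc⟩; exact ⟨c, (hu c w hc).symm⟩
      · rintro ⟨c, rfl⟩; exact ⟨c, hf c⟩
    rw [this, ← Set.image_univ, hinj.encard_image]; simp

lemma IsFactorAE.schreier_orientation {G : SimpleGraph V} {d : ℕ}
    {Φ : (V → unitInterval) → V → V → Option (Fin d)} (h : IsFactorAE G Φ) :
    IsFactorAE G (fun ω u v => (Φ ω u v).isSome) := by
  refine ⟨fun u v s => ?_, fun γ => ?_⟩
  · have : {ω | (Φ ω u v).isSome = s} = ⋃ (o : Option (Fin d)) (_ : o.isSome = s),
        {ω | Φ ω u v = o} := by
      ext ω; simp
    rw [this]
    exact MeasurableSet.iUnion (fun o => MeasurableSet.iUnion (fun _ => h.measurable u v o))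
  · filter_upwards [h.equivariant γ] with ω hω
    funext u v
    simp only [moveDec]
    rw [hω]; rfl

end Q297.Factor
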