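import Mathlib

/-!
Lower bounds for covariance matrices of fractional Brownian motion with Hurst index in (1/2,1).
-/

open Finset Matrix
open scoped ComplexOrder

namespace Q297.Fbm

/-- correlation of fractional Gaussian noise -/
noncomputable def rho (γ x : ℝ) : ℝ := (|x + 1| ^ γ - 2 * |x| ^ γ + |x - 1| ^ γ) / 2

lemma rho_neg (γ x : ℝ) : rho γ (-x) = rho γ x := by
  unfold rho
  have h1 : |(-x) + 1| = |x - 1| := by rw [← abs_neg]; congr 1; ring
  have h2 : |(-x) - 1| = |x + 1| := by rw [← abs_neg]; congr 1; ring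
  rw [h1, h2, abs_neg]; ring

/-- second difference of the power function -/
noncomputable def g (γ x : ℝ) : ℝ := (x + 1) ^ γ - 2 * x ^ γ + (x - 1) ^ γ

lemma rho_eq_g {γ x : ℝ} (hx : 1 ≤ x) : rho γ x = g γ x / 2 := by
  unfold rho g
  rw [abs_of_nonneg (by linarith : (0:ℝ) ≤ x + 1), abs_of_nonneg (by linarith : (0:ℝ) ≤ x),
    abs_of_nonneg (by linarith : (0:ℝ) ≤ x - 1)]

lemma hasDerivAt_g {γ x : ℝ} (hx : 1 < x) :
    HasDerivAt (g γ) (γ * ((x + 1) ^ (γ - 1) - 2 * x ^ (γ - 1) + (x - 1) ^ (γ - 1))) x := by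
  unfold g
  have h1 : HasDerivAt (fun y : ℝ => (y + 1) ^ γ) (1 * γ * (x + 1) ^ (γ - 1)) x :=
    ((hasDerivAt_id x).add_const 1).rpow_const (Or.inl (by simp; linarith))
  have h2 : HasDerivAt (fun y : ℝ => y ^ γ) (1 * γ * x ^ (γ - 1)) x :=
    (hasDerivAt_id x).rpow_const (Or.inl (by simp; linarith))
  have h3 : HasDerivAt (fun y : ℝ => (y - 1) ^ γ) (1 * γ * (x - 1) ^ (γ - 1)) x :=
    ((hasDerivAt_id x).sub_const 1).rpow_const (Or.inl (by simp; linarith))
  have := (h1.sub (h2.const_mul 2)).add h3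
  exact this.congr_deriv (by ring)

lemma continuous_g {γ : ℝ} (hγ : 0 < γ) : Continuous (g γ) := by
  unfold g
  have h (c : ℝ) : Continuous fun x : ℝ => (x + c) ^ γ :=
    (continuous_id.add continuous_const).rpow_const (fun _ => Or.inr hγ.le)
  have h1 := h 1
  have h2 : Continuous fun x : ℝ => x ^ γ := continuous_id.rpow_const (fun _ => Or.inr hγ.le)
  have h3 : Continuous fun x : ℝ => (x - 1) ^ γ := by simpa [sub_eq_add_neg] using h (-1)
  exact (h1.sub (continuous_const.mul h2)).add h3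

lemma neg_pow_sum {p x : ℝ} (hp : p ≤ 0) (hx : 1 < x) :
    2 * x ^ p ≤ (x + 1) ^ p + (x - 1) ^ p := by
  have hx0 : 0 < x := by linarith
  have ha : 0 < x + 1 := by linarith
  have hb : 0 < x - 1 := by linarith
  have h1 : ((x + 1) * (x - 1)) ^ (p / 2) ≥ (x * x) ^ (p / 2) :=
    Real.rpow_le_rpow_of_nonpos (by positivity) (by nlinarith) (by linarith)
  have h2 : (x * x) ^ (p / 2) = x ^ p := by
    rw [Real.mul_rpow hx0.le hx0.le, ← Real.rpow_add hx0]; congr 1; ring
  have h3 : ((x + 1) * (x - 1)) ^ (p / 2) = (x + 1) ^ (p / 2) * (x - 1) ^ (p / 2) :=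
    Real.mul_rpow ha.le hb.le
  have h4 : ((x + 1) ^ (p / 2)) ^ 2 = (x + 1) ^ p := by
    rw [← Real.rpow_natCast, ← Real.rpow_mul ha.le]; congr 1; push_cast; ring
  have h5 : ((x - 1) ^ (p / 2)) ^ 2 = (x - 1) ^ p := by
    rw [← Real.rpow_natCast, ← Real.rpow_mul hb.le]; congr 1; push_cast; ring
  nlinarith [sq_nonneg ((x + 1) ^ (p / 2) - (x - 1) ^ (p / 2))]

lemma convexOn_g {γ : ℝ} (h1 : 1 < γ) (h2 : γ < 2) : ConvexOn ℝ (Set.Ici 1) (g γ) := by
  have hI : interior (Set.Ici (1:ℝ)) = Set.Ioi 1 := interior_Ici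
  apply convexOn_of_hasDerivWithinAt2_nonneg (convex_Ici 1)
    (f' := fun x => γ * ((x + 1) ^ (γ - 1) - 2 * x ^ (γ - 1) + (x - 1) ^ (γ - 1)))
    (f'' := fun x => γ * (γ - 1) *
      ((x + 1) ^ (γ - 1 - 1) - 2 * x ^ (γ - 1 - 1) + (x - 1) ^ (γ - 1 - 1)))
  · exact (continuous_g (by linarith)).continuousOn
  · intro x hx
    rw [hI] at hx
    exact (hasDerivAt_g hx).hasDerivWithinAt
  · intro x hx
    rw [hI] at hx
    have := (hasDerivAt_g (γ := γ - 1) hx).const_mul γ
    unfold g at this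
    refine HasDerivAt.hasDerivWithinAt ?_
    exact this.congr_deriv (by ring)
  · intro x hx
    rw [hI] at hx
    have := neg_pow_sum (p := γ - 1 - 1) (by linarith) (Set.mem_Ioi.1 hx)
    have h3 : 0 ≤ γ * (γ - 1) := by nlinarith
    exact mul_nonneg h3 (by linarith)

lemma antitoneOn_g {γ : ℝ} (h1 : 1 < γ) (h2 : γ < 2) : AntitoneOn (g γ) (Set.Ici 1) := by
  have hI : interior (Set.Ici (1:ℝ)) = Set.Ioi 1 := interior_Ici
  apply antitoneOn_of_deriv_nonpos (convex_Ici 1)
  · exact (continuous_g (by linarith)).continuousOn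
  · intro x hx
    rw [hI] at hx
    exact (hasDerivAt_g hx).differentiableAt.differentiableWithinAt
  · intro x hx
    rw [hI] at hx
    rw [(hasDerivAt_g hx).deriv]
    have hx1 : 1 < x := hx
    have hc := (Real.concaveOn_rpow (p := γ - 1) (by linarith) (by linarith)).2
      (show x + 1 ∈ Set.Ici (0:ℝ) by simp; linarith) (show x - 1 ∈ Set.Ici (0:ℝ) by simp; linarith)
      (show (0:ℝ) ≤ 1/2 by norm_num) (show (0:ℝ) ≤ 1/2 by norm_num) (by norm_num)
    simp only [smul_eq_mul] at hc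
    have e : (1 / 2 * (x + 1) + 1 / 2 * (x - 1) : ℝ) = x := by ring
    rw [e] at hc
    have : (x + 1) ^ (γ - 1) - 2 * x ^ (γ - 1) + (x - 1) ^ (γ - 1) ≤ 0 := by linarith
    nlinarith

lemma g_nonneg {γ x : ℝ} (h1 : 1 < γ) (hx : 1 ≤ x) : 0 ≤ g γ x := by
  have hc := (convexOn_rpow (p := γ) (by linarith)).2
      (show x + 1 ∈ Set.Ici (0:ℝ) by simp; linarith) (show x - 1 ∈ Set.Ici (0:ℝ) by simp; linarith)
      (show (0:ℝ) ≤ 1/2 by norm_num) (show (0:ℝ) ≤ 1/2 by norm_num) (by norm_num)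
  simp only [smul_eq_mul] at hc
  have e : (1 / 2 * (x + 1) + 1 / 2 * (x - 1) : ℝ) = x := by ring
  rw [e] at hc
  unfold g; linarith

/-- the constant -/
noncomputable def cst (γ : ℝ) : ℝ := (7 - 4 * 2 ^ γ + 3 ^ γ) / 2

lemma cst_pos {γ : ℝ} (h2 : γ < 2) : 0 < cst γ := by
  unfold cst
  set δ := 2 - γ with hδ
  have hδ0 : 0 < δ := by linarith
  have e3 : (3:ℝ) ^ γ = 9 * (3:ℝ) ^ (-δ) := by
    have : γ = 2 + (-δ) := by rw [hδ]; ring
    rw [this, Real.rpow_add (by norm_num)]
    norm_num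
  have e2 : (2:ℝ) ^ γ = 4 * (2:ℝ) ^ (-δ) := by
    have : γ = 2 + (-δ) := by rw [hδ]; ring
    rw [this, Real.rpow_add (by norm_num)]
    norm_num
  rw [e3, e2]
  set θ := Real.log 2 / Real.log 3 with hθ
  have hl3 : 0 < Real.log 3 := Real.log_pos (by norm_num)
  have hl2 : 0 < Real.log 2 := Real.log_pos (by norm_num)
  have hθ1 : θ ≤ 1 := by
    rw [hθ, div_le_one hl3]
    exact Real.log_le_log (by norm_num) (by norm_num)
  have hθ0 : 0 ≤ θ := by positivity
  have hθ2 : 9 / 16 < θ := by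
    rw [hθ, div_lt_div_iff₀ (by norm_num) hl3]
    have h9 : 9 * Real.log 3 = Real.log (3 ^ 9) := by rw [Real.log_pow]; norm_num
    have h16 : Real.log 2 * 16 = Real.log (2 ^ 16) := by rw [Real.log_pow]; push_cast; ring
    rw [h9, h16]
    exact Real.log_lt_log (by norm_num) (by norm_num)
  have hx0 : 0 < (3:ℝ) ^ (-δ) := by positivity
  have hx1 : (3:ℝ) ^ (-δ) < 1 := Real.rpow_lt_one_of_one_lt_of_neg (by norm_num) (by linarith)
  have hpow : (2:ℝ) ^ (-δ) = ((3:ℝ) ^ (-δ)) ^ θ * (1:ℝ) ^ (1 - θ) := by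
    rw [Real.one_rpow, mul_one, ← Real.rpow_mul (by norm_num), Real.rpow_def_of_pos (by norm_num),
      Real.rpow_def_of_pos (by norm_num), hθ]
    congr 1
    field_simp
  have ham := Real.geom_mean_le_arith_mean2_weighted hθ0 (by linarith : (0:ℝ) ≤ 1 - θ) hx0.le
    (zero_le_one) (by ring)
  rw [← hpow] at ham
  nlinarith

/-! ### Polya type decomposition -/

/-- the truncated tent matrix is positive semidefinite -/
lemma tent_psd (N m : ℕ) :
    (Matrix.of fun i j : Fin N =>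
      (((m - ((i:ℤ) - j).natAbs : ℕ) : ℝ) : ℂ)).PosSemidef := by
  have : (Matrix.of fun i j : Fin N => (((m - ((i:ℤ) - j).natAbs : ℕ) : ℝ) : ℂ)) =
      ∑ t ∈ range (N + m), Matrix.vecMulVec
        (fun i : Fin N => if (i:ℕ) ≤ t ∧ t < i + m then (1:ℂ) else 0)
        (star fun i : Fin N => if (i:ℕ) ≤ t ∧ t < i + m then (1:ℂ) else 0) := by
    ext i j
    rw [Matrix.sum_apply]
    simp only [Matrix.of_apply, Matrix.vecMulVec_apply, Pi.star_apply, RCLike.star_def]
    have h1 : ∀ t ∈ range (N + m), ((if (i:ℕ) ≤ t ∧ t < i + m then (1:ℂ) else 0) *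
        (starRingEnd ℂ) (if (j:ℕ) ≤ t ∧ t < j + m then (1:ℂ) else 0)) =
        if t ∈ Finset.Ico (max (i:ℕ) j) (min (i + m) (j + m)) then 1 else 0 := by
      intro t _
      simp only [Finset.mem_Ico, max_le_iff, lt_min_iff]
      by_cases h : (i:ℕ) ≤ t ∧ t < i + m <;> by_cases h' : (j:ℕ) ≤ t ∧ t < j + m <;>
        simp [h, h'] <;> omega
    rw [Finset.sum_congr rfl h1, Finset.sum_ite_mem]
    have h2 : range (N + m) ∩ Finset.Ico (max (i:ℕ) j) (min (i + m) (j + m)) =
        Finset.Ico (max (i:ℕ) j) (min (i + m) (j + m)) := by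
      apply Finset.inter_eq_right.2
      intro t ht
      simp only [Finset.mem_Ico, Finset.mem_range] at *
      have := i.2
      omega
    rw [h2]
    simp only [Finset.sum_const, Nat.card_Ico, nsmul_eq_mul, mul_one]
    have h3 : m - ((i:ℤ) - j).natAbs = min ((i:ℕ) + m) (j + m) - max (i:ℕ) j := by
      rcases le_total (i:ℕ) j with h | h
      · rw [min_eq_left (by omega), max_eq_right h]
        have : ((i:ℤ) - j).natAbs = (j:ℕ) - i := by omega
        rw [this]; omega
      · rw [min_eq_right (by omega), max_eq_left h]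
        have : ((i:ℤ) - j).natAbs = (i:ℕ) - j := by omega
        rw [this]; omega
    rw [h3]; push_cast; rfl
  rw [this]
  apply Matrix.posSemidef_sum
  intro t _
  exact Matrix.posSemidef_vecMulVec_self_star _

/-- discrete Polya decomposition -/
lemma polya_identity (r : ℕ → ℝ) (K : ℕ) : ∀ d : ℕ, d ≤ K + 1 →
    r (K + 1 - d) = r (K + 1) + d * (r K - r (K + 1)) +
      ∑ m ∈ range K, ((m + 1 - (K + 1 - d) : ℕ) : ℝ) * (r m - 2 * r (m + 1) + r (m + 2)) := by
  intro d
  induction d using Nat.strong_induction_on with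
  | _ d ih =>
    intro hd
    match d, ih, hd with
    | 0, _, _ =>
      have : ∑ m ∈ range K, ((m + 1 - (K + 1 - 0) : ℕ) : ℝ) *
          (r m - 2 * r (m + 1) + r (m + 2)) = 0 := by
        apply Finset.sum_eq_zero
        intro m hm
        have : m < K := Finset.mem_range.1 hm
        have h0 : m + 1 - (K + 1 - 0) = 0 := by omega
        rw [h0]; simp
      rw [this]; simp
    | 1, _, _ =>
      have : ∑ m ∈ range K, ((m + 1 - (K + 1 - 1) : ℕ) : ℝ) *
          (r m - 2 * r (m + 1) + r (m + 2)) = 0 := by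
        apply Finset.sum_eq_zero
        intro m hm
        have : m < K := Finset.mem_range.1 hm
        have h0 : m + 1 - (K + 1 - 1) = 0 := by omega
        rw [h0]; simp
      rw [this]; simp
    | (e + 2), ih, hd =>
      have ih1 := ih (e + 1) (by omega) (by omega)
      have ih0 := ih e (by omega) (by omega)
      set n := K + 1 - (e + 2) with hn
      have hn1 : K + 1 - (e + 1) = n + 1 := by omega
      have hn0 : K + 1 - e = n + 2 := by omega
      rw [hn1] at ih1
      rw [hn0] at ih0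
      have hsum : ∑ m ∈ range K, ((m + 1 - n : ℕ) : ℝ) * (r m - 2 * r (m + 1) + r (m + 2)) =
          2 * ∑ m ∈ range K, ((m + 1 - (n + 1) : ℕ) : ℝ) * (r m - 2 * r (m + 1) + r (m + 2))
          - ∑ m ∈ range K, ((m + 1 - (n + 2) : ℕ) : ℝ) * (r m - 2 * r (m + 1) + r (m + 2))
          + (r n - 2 * r (n + 1) + r (n + 2)) := by
        have : (r n - 2 * r (n + 1) + r (n + 2)) =
            ∑ m ∈ range K, if m = n then (r m - 2 * r (m + 1) + r (m + 2)) else 0 := by
          rw [Finset.sum_ite_eq']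
          rw [if_pos (Finset.mem_range.2 (by omega))]
        rw [this, Finset.mul_sum, ← Finset.sum_sub_distrib, ← Finset.sum_add_distrib]
        apply Finset.sum_congr rfl
        intro m hm
        rcases lt_trichotomy m n with h | h | h
        · have e0 : m + 1 - n = 0 := by omega
          have e1 : m + 1 - (n + 1) = 0 := by omega
          have e2 : m + 1 - (n + 2) = 0 := by omega
          rw [e0, e1, e2, if_neg (by omega)]; simp
        · rw [h]
          have e0 : n + 1 - n = 1 := by omega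
          have e1 : n + 1 - (n + 1) = 0 := by omega
          have e2 : n + 1 - (n + 2) = 0 := by omega
          rw [e0, e1, e2, if_pos rfl]; simp
        · obtain ⟨q, rfl⟩ : ∃ q, m = n + 1 + q := ⟨m - (n + 1), by omega⟩
          have e0 : n + 1 + q + 1 - n = q + 2 := by omega
          have e1 : n + 1 + q + 1 - (n + 1) = q + 1 := by omega
          have e2 : n + 1 + q + 1 - (n + 2) = q := by omega
          rw [e0, e1, e2, if_neg (by omega)]
          push_cast; ring
      rw [hsum]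
      push_cast at ih1 ih0 ⊢
      linarith

/-- Polya criterion for finite Toeplitz matrices -/
lemma polya_psd (r : ℕ → ℝ) (N : ℕ) (h0 : 0 ≤ r (N + 1)) (h1 : r (N + 1) ≤ r N)
    (h2 : ∀ m < N, 0 ≤ r m - 2 * r (m + 1) + r (m + 2)) :
    (Matrix.of fun i j : Fin N => ((r ((i:ℤ) - j).natAbs : ℝ) : ℂ)).PosSemidef := by
  have : (Matrix.of fun i j : Fin N => ((r ((i:ℤ) - j).natAbs : ℝ) : ℂ)) =
      ((r (N + 1) : ℝ) : ℂ) • Matrix.vecMulVec (fun _ : Fin N => (1:ℂ)) (star fun _ => (1:ℂ)) +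
      ((r N - r (N + 1) : ℝ) : ℂ) • (Matrix.of fun i j : Fin N =>
        (((N + 1 - ((i:ℤ) - j).natAbs : ℕ) : ℝ) : ℂ)) +
      ∑ m ∈ range N, ((r m - 2 * r (m + 1) + r (m + 2) : ℝ) : ℂ) •
        (Matrix.of fun i j : Fin N => (((m + 1 - ((i:ℤ) - j).natAbs : ℕ) : ℝ) : ℂ)) := by
    ext i j
    simp only [Matrix.add_apply, Matrix.smul_apply, Matrix.sum_apply, Matrix.of_apply,
      Matrix.vecMulVec_apply, Pi.star_apply, RCLike.star_def, smul_eq_mul, map_one, mul_one]
    have hk : ((i:ℤ) - j).natAbs ≤ N + 1 := by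
      have := i.2; have := j.2; omega
    have := polya_identity r N (N + 1 - ((i:ℤ) - j).natAbs) (by omega)
    have e : N + 1 - (N + 1 - ((i:ℤ) - j).natAbs) = ((i:ℤ) - j).natAbs := by omega
    rw [e] at this
    rw [this]
    push_cast
    congr 1
    · ring
    · apply Finset.sum_congr rfl
      intro m _
      ring
  rw [this]
  refine Matrix.PosSemidef.add (Matrix.PosSemidef.add ?_ ?_) ?_
  · exact (Matrix.posSemidef_vecMulVec_self_star _).smul (by exact_mod_cast h0)
  · exact (tent_psd N (N + 1)).smul (by exact_mod_cast (by linarith : (0:ℝ) ≤ r N - r (N + 1)))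
  · apply Matrix.posSemidef_sum
    intro m hm
    exact (tent_psd N (m + 1)).smul (by exact_mod_cast h2 m (Finset.mem_range.1 hm))

end Q297.Fbm
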