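import Pool.Agent.Q297.FbmCov

open Finset Matrix
open scoped ComplexOrder

namespace Q297.Fbm

/-- covariance of fractional Brownian motion at integer times -/
noncomputable def cov (γ : ℝ) (a b : ℝ) : ℝ := (|a| ^ γ + |b| ^ γ - |a - b| ^ γ) / 2

lemma cov_zero_left {γ : ℝ} (hγ : 0 < γ) (b : ℝ) : cov γ 0 b = 0 := by
  unfold cov
  rw [abs_zero, Real.zero_rpow hγ.ne', zero_sub, abs_neg]; ring

lemma cov_zero_right {γ : ℝ} (hγ : 0 < γ) (a : ℝ) : cov γ a 0 = 0 := by
  unfold cov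
  rw [abs_zero, Real.zero_rpow hγ.ne', sub_zero]; ring

lemma cov_diff (γ a b : ℝ) :
    cov γ (a + 1) (b + 1) - cov γ (a + 1) b - cov γ a (b + 1) + cov γ a b = rho γ (a - b) := by
  unfold cov rho
  have e1 : a + 1 - (b + 1) = a - b := by ring
  have e2 : a + 1 - b = a - b + 1 := by ring
  have e3 : a - (b + 1) = a - b - 1 := by ring
  rw [e1, e2, e3]; ring

lemma cov_sum {γ : ℝ} (hγ : 0 < γ) (a b : ℕ) :
    cov γ a b = ∑ k ∈ range a, ∑ l ∈ range b, rho γ ((k:ℝ) - l) := by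
  have hrow : ∀ (k b : ℕ), ∑ l ∈ range b, rho γ ((k:ℝ) - l) = cov γ (k + 1) b - cov γ k b := by
    intro k b
    induction b with
    | zero => simp [cov_zero_right hγ]
    | succ b ih =>
      rw [Finset.sum_range_succ, ih, ← cov_diff]
      push_cast; ring
  induction a with
  | zero => simp [cov_zero_left hγ]
  | succ a ih =>
    rw [Finset.sum_range_succ, ← ih, hrow]
    push_cast; ring

/-- covariance matrix of fractional Brownian motion at times `1, ..., N` -/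
noncomputable def covMat (γ : ℝ) (N : ℕ) : Matrix (Fin N) (Fin N) ℂ :=
  Matrix.of fun i j => ((cov γ ((i:ℕ) + 1) ((j:ℕ) + 1) : ℝ) : ℂ)

/-- Toeplitz matrix of fractional Gaussian noise -/
noncomputable def T (γ : ℝ) (N : ℕ) : Matrix (Fin N) (Fin N) ℂ :=
  Matrix.of fun i j => ((rho γ ((i:ℕ) - (j:ℕ)) : ℝ) : ℂ)

/-- summation matrix -/
def L (N : ℕ) : Matrix (Fin N) (Fin N) ℂ := Matrix.of fun i k => if k ≤ i then 1 else 0

lemma L_sum {N : ℕ} (i : Fin N) (f : ℕ → ℂ) :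
    ∑ k : Fin N, (if k ≤ i then (1:ℂ) else 0) * f k = ∑ k ∈ range (i + 1), f k := by
  have : ∀ k : Fin N, (if k ≤ i then (1:ℂ) else 0) * f k =
      (fun m : ℕ => if m ∈ range (i + 1) then f m else 0) k := by
    intro k
    have : (k ≤ i) ↔ (k:ℕ) ∈ range ((i:ℕ) + 1) := by
      rw [Finset.mem_range, Fin.le_def]; omega
    by_cases h : k ≤ i
    · simp [h, this.1 h]
    · simp only [h, if_false, zero_mul]
      rw [if_neg (fun hh => h (this.2 hh))]
  rw [Finset.sum_congr rfl (fun k _ => this k),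
    Fin.sum_univ_eq_sum_range (fun m : ℕ => if m ∈ range ((i:ℕ) + 1) then f m else 0) N,
    Finset.sum_ite_mem]
  congr 1
  apply Finset.inter_eq_right.2
  intro t ht
  rw [Finset.mem_range] at *
  have := i.2
  omega

lemma covMat_eq {γ : ℝ} (hγ : 0 < γ) (N : ℕ) : covMat γ N = L N * T γ N * (L N)ᴴ := by
  ext i j
  rw [Matrix.mul_apply]
  simp only [Matrix.mul_apply, Matrix.conjTranspose_apply, L, T, Matrix.of_apply, covMat]
  have h1 : ∀ x : Fin N, (∑ k : Fin N, (if k ≤ i then (1:ℂ) else 0) *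
      ((rho γ ((k:ℕ) - (x:ℕ)) : ℝ) : ℂ)) * star (if x ≤ j then (1:ℂ) else 0) =
      (if x ≤ j then (1:ℂ) else 0) *
        (fun m : ℕ => ∑ k ∈ range ((i:ℕ) + 1), ((rho γ ((k:ℕ) - (m:ℕ)) : ℝ) : ℂ)) x := by
    intro x
    rw [L_sum i (fun k => ((rho γ ((k:ℕ) - (x:ℕ)) : ℝ) : ℂ)), mul_comm]
    congr 1
    split_ifs <;> simp
  rw [Finset.sum_congr rfl (fun x _ => h1 x),
    L_sum j (fun m : ℕ => ∑ k ∈ range ((i:ℕ) + 1), ((rho γ ((k:ℕ) - (m:ℕ)) : ℝ) : ℂ))]
  have := cov_sum hγ ((i:ℕ) + 1) ((j:ℕ) + 1)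
  push_cast at this
  rw [this, Finset.sum_comm]
  push_cast
  rfl

lemma rho_natAbs (γ : ℝ) (i j : ℕ) :
    rho γ ((i:ℝ) - j) = rho γ ((((i:ℤ) - j).natAbs : ℕ) : ℝ) := by
  have h : ((((i:ℤ) - j).natAbs : ℕ) : ℝ) = |(i:ℝ) - j| := by
    rw [Nat.cast_natAbs]; push_cast; rfl
  rw [h]
  rcases abs_choice ((i:ℝ) - j) with h' | h' <;> rw [h']
  rw [rho_neg]

/-- modified correlation sequence -/
noncomputable def rr (γ : ℝ) (k : ℕ) : ℝ := rho γ k - if k = 0 then cst γ else 0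

lemma rr_succ (γ : ℝ) (k : ℕ) : rr γ (k + 1) = g γ ((k:ℝ) + 1) / 2 := by
  unfold rr
  rw [if_neg (by omega), sub_zero, rho_eq_g (by push_cast; linarith [Nat.cast_nonneg (α := ℝ) k])]
  push_cast; rfl

lemma rr_convex {γ : ℝ} (h1 : 1 < γ) (h2 : γ < 2) (m : ℕ) :
    0 ≤ rr γ m - 2 * rr γ (m + 1) + rr γ (m + 2) := by
  rcases m with _ | m
  · have e0 : rr γ 0 = 1 - cst γ := by
      unfold rr rho
      simp [Real.zero_rpow (by linarith : γ ≠ 0)]
    have e1 : rr γ (0 + 1) = (2 ^ γ - 2) / 2 := by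
      rw [rr_succ]; unfold g
      norm_num [Real.zero_rpow (by linarith : γ ≠ 0)]
    have e2 : rr γ (0 + 2) = (3 ^ γ - 2 * 2 ^ γ + 1) / 2 := by
      rw [rr_succ]; unfold g
      norm_num
    rw [e0, e1, e2]; unfold cst
    apply le_of_eq; ring
  · rw [rr_succ, rr_succ, rr_succ]
    have hm : (0:ℝ) ≤ m := Nat.cast_nonneg m
    have hc := (convexOn_g h1 h2).2
      (show (m:ℝ) + 1 ∈ Set.Ici (1:ℝ) by simp)
      (show (m:ℝ) + 3 ∈ Set.Ici (1:ℝ) by simp; linarith)
      (show (0:ℝ) ≤ 1/2 by norm_num) (show (0:ℝ) ≤ 1/2 by norm_num) (by norm_num)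
    simp only [smul_eq_mul] at hc
    have e : (1 / 2 * ((m:ℝ) + 1) + 1 / 2 * ((m:ℝ) + 3) : ℝ) = m + 2 := by ring
    rw [e] at hc
    have e1 : (((m + 1 : ℕ) : ℝ) + 1) = (m:ℝ) + 2 := by push_cast; ring
    have e2 : (((m + 2 : ℕ) : ℝ) + 1) = (m:ℝ) + 3 := by push_cast; ring
    have e3 : m + 1 + 1 = (m + 1) + 1 := rfl
    rw [e1]
    have e4 : (((m + 1 + 1 : ℕ) : ℝ) + 1) = (m:ℝ) + 3 := by push_cast; ring
    rw [e4]
    linarith

lemma T_sub_psd {γ : ℝ} (h1 : 1 < γ) (h2 : γ < 2) (N : ℕ) :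
    (T γ (N + 1) - ((cst γ : ℝ) : ℂ) • (1 : Matrix (Fin (N + 1)) (Fin (N + 1)) ℂ)).PosSemidef := by
  have key := polya_psd (rr γ) (N + 1) ?_ ?_ (fun m _ => rr_convex h1 h2 m)
  · convert key using 1
    ext i j
    simp only [Matrix.sub_apply, Matrix.smul_apply, T, Matrix.of_apply, smul_eq_mul,
      Matrix.one_apply]
    rw [rho_natAbs]
    unfold rr
    by_cases h : i = j
    · subst h; simp
    · have : ((i:ℤ) - j).natAbs ≠ 0 := by
        intro h0
        apply h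
        rw [Int.natAbs_eq_zero] at h0
        apply Fin.ext; omega
      rw [if_neg h, if_neg this]; simp
  · rw [rr_succ]
    have := g_nonneg (γ := γ) (x := ((N + 1 : ℕ) : ℝ) + 1) h1
      (by push_cast; linarith [Nat.cast_nonneg (α := ℝ) N])
    linarith
  · rw [rr_succ, rr_succ]
    have := antitoneOn_g h1 h2 (show (N:ℝ) + 1 ∈ Set.Ici (1:ℝ) by simp)
      (show ((N + 1 : ℕ) : ℝ) + 1 ∈ Set.Ici (1:ℝ) by
        simp; linarith [Nat.cast_nonneg (α := ℝ) N]) (by push_cast; linarith)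
    linarith

lemma covMat_posDef {γ : ℝ} (h1 : 1 < γ) (h2 : γ < 2) (N : ℕ) : (covMat γ N).PosDef := by
  rcases N with _ | N
  · refine Matrix.PosDef.of_dotProduct_mulVec_pos ?_ ?_
    · ext i; exact i.elim0
    · intro x hx; exact absurd (Subsingleton.elim x 0) hx
  · have hc := cst_pos (γ := γ) h2
    have hT : (T γ (N + 1)).PosDef := by
      have e : T γ (N + 1) = ((cst γ : ℝ) : ℂ) • (1 : Matrix (Fin (N + 1)) (Fin (N + 1)) ℂ) +
          (T γ (N + 1) - ((cst γ : ℝ) : ℂ) • (1 : Matrix (Fin (N + 1)) (Fin (N + 1)) ℂ)) := by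
        abel
      rw [e]
      refine Matrix.PosDef.add_posSemidef ?_ (T_sub_psd h1 h2 N)
      exact Matrix.PosDef.one.smul (by exact_mod_cast hc)
    rw [covMat_eq (by linarith) (N + 1)]
    have hU : IsUnit (L (N + 1)) := by
      rw [Matrix.isUnit_iff_isUnit_det, Matrix.det_of_isLowerTriangular]
      · simp [L]
      · intro i j hij
        simp only [L, Matrix.of_apply]
        rw [if_neg]
        simpa using hij
    exact (Matrix.IsUnit.posDef_star_right_conjugate_iff hU).2 hT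

lemma covMat_sub_psd {γ : ℝ} (h1 : 1 < γ) (h2 : γ < 2) (N : ℕ) :
    (covMat γ N - Matrix.of fun _ _ => ((cst γ : ℝ) : ℂ)).PosSemidef := by
  rcases N with _ | N
  · have : (covMat γ 0 - Matrix.of fun _ _ => ((cst γ : ℝ) : ℂ)) = 0 := by
      ext i; exact i.elim0
    rw [this]; exact Matrix.PosSemidef.zero
  · have hc := cst_pos (γ := γ) h2
    set E : Matrix (Fin (N + 1)) (Fin (N + 1)) ℂ :=
      Matrix.diagonal (fun i => if i = 0 then ((cst γ : ℝ) : ℂ) else 0) with hE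
    set D : Matrix (Fin (N + 1)) (Fin (N + 1)) ℂ :=
      Matrix.diagonal (fun i => if i = 0 then 0 else ((cst γ : ℝ) : ℂ)) with hD
    have hTE : (T γ (N + 1) - E).PosSemidef := by
      have e : T γ (N + 1) - E =
          (T γ (N + 1) - ((cst γ : ℝ) : ℂ) • (1 : Matrix (Fin (N + 1)) (Fin (N + 1)) ℂ)) + D := by
        ext i j
        simp only [Matrix.sub_apply, Matrix.add_apply, Matrix.smul_apply, Matrix.one_apply,
          hE, hD, Matrix.diagonal_apply, smul_eq_mul]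
        by_cases h : i = j
        · by_cases h0 : i = 0 <;> simp [h, h0]
          all_goals (by_cases h3 : j = 0 <;> simp_all)
        · simp [h]
      rw [e]
      refine (T_sub_psd h1 h2 N).add (Matrix.PosSemidef.diagonal ?_)
      intro i
      by_cases h0 : i = 0
      · simp [h0]
      · simp only [h0, if_false]
        show (0:ℂ) ≤ _
        exact_mod_cast hc.le
    have := hTE.mul_mul_conjTranspose_same (L (N + 1))
    convert this using 1
    rw [Matrix.mul_sub, Matrix.sub_mul, ← covMat_eq (by linarith)]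
    congr 1
    ext i j
    simp only [Matrix.mul_apply, Matrix.conjTranspose_apply, L, hE, Matrix.of_apply,
      Matrix.diagonal_apply]
    rw [Finset.sum_eq_single 0]
    · rw [Finset.sum_eq_single 0]
      · simp
      · intro b _ hb; simp [hb]
      · simp
    · intro b _ hb
      rw [Finset.sum_eq_zero]
      · simp
      · intro x _
        by_cases hx : x = b
        · subst hx; simp [hb]
        · simp [hx]
    · simp

lemma hadamard_psd {γ : ℝ} (h1 : 1 < γ) (h2 : γ < 2) (N : ℕ) :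
    ((covMat γ N ⊙ covMat γ N) - ((cst γ : ℝ) : ℂ) • covMat γ N).PosSemidef := by
  have := (covMat_sub_psd h1 h2 N).hadamard (covMat_posDef h1 h2 N).posSemidef
  have e : (covMat γ N ⊙ covMat γ N) - ((cst γ : ℝ) : ℂ) • covMat γ N =
      (covMat γ N - Matrix.of fun _ _ => ((cst γ : ℝ) : ℂ)) ⊙ covMat γ N := by
    ext i j
    simp [Matrix.hadamard_apply, Matrix.sub_apply, sub_mul]
  rw [e]
  exact this

end Q297.Fbm
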