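import Mathlib

/-!
The filling scheme: transport of a finite measure to another one along a countable family of maps.
-/

open MeasureTheory Set
open scoped ENNReal

namespace Q297.Fill

variable {Ω Ω' : Type*} [MeasurableSpace Ω] [MeasurableSpace Ω']

/-- One step of the filling scheme. -/
theorem step (μ : Measure Ω) (ν : Measure Ω') [IsFiniteMeasure μ] [IsFiniteMeasure ν]
    (T : Ω → Ω') (hT : Measurable T) :
    ∃ (κ μ' : Measure Ω) (ν' : Measure Ω') (H : Set Ω'), MeasurableSet H ∧
      μ = κ + μ' ∧ ν = κ.map T + ν' ∧ μ' (T ⁻¹' H) = 0 ∧ ν' Hᶜ = 0 := by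
  classical
  set a := μ.map T with ha
  have hfin : IsFiniteMeasure a := by rw [ha]; infer_instance
  obtain ⟨s, hs, hs1, hs2⟩ := Measure.mutuallySingular_singularPart ν a
  set h := ν.rnDeriv a with hh'
  have hh : Measurable h := Measure.measurable_rnDeriv _ _
  set c : Ω' → ℝ≥0∞ := fun y => min (h y) 1 with hc'
  have hc : Measurable c := hh.min measurable_const
  have hcT : Measurable (fun x => c (T x)) := hc.comp hT
  have hmap : (μ.withDensity (fun x => c (T x))).map T = a.withDensity c := by
    ext t ht
    rw [Measure.map_apply hT ht, withDensity_apply _ (hT ht), withDensity_apply _ ht, ha,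
      setLIntegral_map ht hc hT]
  have hsplit : μ.withDensity (fun x => c (T x)) + μ.withDensity (fun x => 1 - c (T x)) = μ := by
    rw [← withDensity_add_left hcT]
    have : ((fun x => c (T x)) + fun x => 1 - c (T x)) = 1 := by
      funext x
      simp only [Pi.add_apply, Pi.one_apply]
      exact add_tsub_cancel_of_le (min_le_right _ _)
    rw [this, withDensity_one]
  have hν : a.withDensity c + (ν.singularPart a + a.withDensity (fun y => h y - c y)) = ν := by
    have h1 : a.withDensity c + a.withDensity (fun y => h y - c y) = a.withDensity h := by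
      rw [← withDensity_add_left hc]
      congr 1
      funext y
      simp only [Pi.add_apply]
      exact add_tsub_cancel_of_le (min_le_left _ _)
    calc a.withDensity c + (ν.singularPart a + a.withDensity (fun y => h y - c y))
        = ν.singularPart a + (a.withDensity c + a.withDensity (fun y => h y - c y)) := by
          abel
      _ = ν.singularPart a + a.withDensity h := by rw [h1]
      _ = ν := Measure.singularPart_add_rnDeriv ν a
  have hmeas1 : MeasurableSet {y | 1 ≤ h y} := measurableSet_le measurable_const hh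
  refine ⟨μ.withDensity (fun x => c (T x)), μ.withDensity (fun x => 1 - c (T x)),
    ν.singularPart a + a.withDensity (fun y => h y - c y), {y | 1 ≤ h y} ∪ sᶜ,
    hmeas1.union hs.compl, hsplit.symm, ?_, ?_, ?_⟩
  · rw [hmap]; exact hν.symm
  · rw [preimage_union]
    refine le_antisymm ((measure_union_le _ _).trans ?_) zero_le
    have e1 : μ.withDensity (fun x => 1 - c (T x)) (T ⁻¹' {y | 1 ≤ h y}) = 0 := by
      rw [withDensity_apply _ (hT hmeas1)]
      rw [setLIntegral_eq_zero_iff (hT hmeas1) (by fun_prop)]
      filter_upwards with x hx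
      have hx' : 1 ≤ h (T x) := hx
      simp only [hc']
      rw [min_eq_right hx', tsub_self]
    have e2 : μ.withDensity (fun x => 1 - c (T x)) (T ⁻¹' sᶜ) = 0 := by
      have : μ (T ⁻¹' sᶜ) = 0 := by
        rw [← Measure.map_apply hT hs.compl]; exact hs2
      exact withDensity_absolutelyContinuous _ _ this
    rw [e1, e2, add_zero]
  · rw [compl_union, compl_compl]
    have e1 : ν.singularPart a ({y | 1 ≤ h y}ᶜ ∩ s) = 0 :=
      measure_mono_null inter_subset_right hs1
    have e2 : a.withDensity (fun y => h y - c y) ({y | 1 ≤ h y}ᶜ ∩ s) = 0 := by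
      refine measure_mono_null inter_subset_left ?_
      rw [withDensity_apply _ hmeas1.compl, setLIntegral_eq_zero_iff hmeas1.compl (by fun_prop)]
      filter_upwards with y hy
      have hy' : h y < 1 := not_le.1 hy
      simp only [hc']
      rw [min_eq_left hy'.le, tsub_self]
    rw [Measure.add_apply, e1, e2, add_zero]

/-- **Filling scheme.** If the masses agree and `μ`-almost every point is moved by one of the maps
into each set that is charged by `ν`, then `μ` splits into countably many parts whose images
sum up to `ν`. -/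
theorem filling (μ : Measure Ω) (ν : Measure Ω') [IsFiniteMeasure μ] [IsFiniteMeasure ν]
    (hmass : μ univ = ν univ) (T : ℕ → Ω → Ω') (hT : ∀ n, Measurable (T n))
    (hvis : ∀ A, MeasurableSet A → 0 < ν A → ∀ᵐ ω ∂μ, ∃ n, T n ω ∈ A) :
    ∃ κ : ℕ → Measure Ω, Measure.sum κ = μ ∧ Measure.sum (fun n => (κ n).map (T n)) = ν := by
  classical
  -- states
  let St := {p : Measure Ω × Measure Ω' // IsFiniteMeasure p.1 ∧ IsFiniteMeasure p.2}
  have key : ∀ (n : ℕ) (p : St), ∃ (κ : Measure Ω) (q : St) (H : Set Ω'), MeasurableSet H ∧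
      p.1.1 = κ + q.1.1 ∧ p.1.2 = κ.map (T n) + q.1.2 ∧ q.1.1 (T n ⁻¹' H) = 0 ∧ q.1.2 Hᶜ = 0 := by
    rintro n ⟨⟨m, v⟩, hm, hv⟩
    simp only at hm hv
    obtain ⟨κ, m', v', H, hH, h1, h2, h3, h4⟩ := step m v (T n) (hT n)
    have f1 : IsFiniteMeasure m' := by
      refine isFiniteMeasure_of_le m ?_
      rw [h1]; exact Measure.le_add_left le_rfl
    have f2 : IsFiniteMeasure v' := by
      refine isFiniteMeasure_of_le v ?_
      rw [h2]; exact Measure.le_add_left le_rfl
    exact ⟨κ, ⟨(m', v'), f1, f2⟩, H, hH, h1, h2, h3, h4⟩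
  choose K Q H hH h1 h2 h3 h4 using key
  let st : ℕ → St := fun n => Nat.rec ⟨(μ, ν), inferInstance, inferInstance⟩ (fun k p => Q k p) n
  have st0 : st 0 = ⟨(μ, ν), inferInstance, inferInstance⟩ := rfl
  have stS : ∀ n, st (n + 1) = Q n (st n) := fun n => rfl
  set κ : ℕ → Measure Ω := fun n => K n (st n) with hκ
  have s1 : ∀ n, (st n).1.1 = κ n + (st (n + 1)).1.1 := fun n => by
    rw [stS]; exact h1 n (st n)
  have s2 : ∀ n, (st n).1.2 = (κ n).map (T n) + (st (n + 1)).1.2 := fun n => by
    rw [stS]; exact h2 n (st n)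
  have sum1 : ∀ n, μ = (∑ k ∈ Finset.range n, κ k) + (st n).1.1 := by
    intro n
    induction n with
    | zero => simp [st0]
    | succ n ih =>
      rw [Finset.sum_range_succ, add_assoc, ← s1 n]
      exact ih
  have sum2 : ∀ n, ν = (∑ k ∈ Finset.range n, (κ k).map (T k)) + (st n).1.2 := by
    intro n
    induction n with
    | zero => simp [st0]
    | succ n ih =>
      rw [Finset.sum_range_succ, add_assoc, ← s2 n]
      exact ih
  -- partial sums are below
  have le1 : Measure.sum κ ≤ μ := by
    refine Measure.le_iff.2 fun s hs => ?_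
    rw [Measure.sum_apply _ hs]
    refine ENNReal.tsum_le_of_sum_range_le fun n => ?_
    conv_rhs => rw [sum1 n]
    rw [Measure.add_apply, Measure.finsetSum_apply]
    exact le_self_add
  have le2 : Measure.sum (fun n => (κ n).map (T n)) ≤ ν := by
    refine Measure.le_iff.2 fun s hs => ?_
    rw [Measure.sum_apply _ hs]
    refine ENNReal.tsum_le_of_sum_range_le fun n => ?_
    conv_rhs => rw [sum2 n]
    rw [Measure.add_apply, Measure.finsetSum_apply]
    exact le_self_add
  have fin1 : IsFiniteMeasure (Measure.sum κ) := isFiniteMeasure_of_le μ le1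
  have fin2 : IsFiniteMeasure (Measure.sum (fun n => (κ n).map (T n))) :=
    isFiniteMeasure_of_le ν le2
  set mi := μ - Measure.sum κ with hmi
  set vi := ν - Measure.sum (fun n => (κ n).map (T n)) with hvi
  have e1 : mi + Measure.sum κ = μ := Measure.sub_add_cancel_of_le le1
  have e2 : vi + Measure.sum (fun n => (κ n).map (T n)) = ν := Measure.sub_add_cancel_of_le le2
  have finmi : IsFiniteMeasure mi := isFiniteMeasure_of_le μ (by
    conv_rhs => rw [← e1]
    exact Measure.le_add_right le_rfl)
  have finvi : IsFiniteMeasure vi := isFiniteMeasure_of_le ν (by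
    conv_rhs => rw [← e2]
    exact Measure.le_add_right le_rfl)
  have mile : ∀ n, ∀ s, MeasurableSet s → mi s ≤ (st n).1.1 s := by
    intro n s hs
    have a1 : mi s + Measure.sum κ s = (∑ k ∈ Finset.range n, κ k s) + (st n).1.1 s := by
      rw [← Measure.add_apply, e1]
      conv_lhs => rw [sum1 n]
      rw [Measure.add_apply, Measure.finsetSum_apply]
    have a2 : ∑ k ∈ Finset.range n, κ k s ≤ Measure.sum κ s := by
      rw [Measure.sum_apply _ hs]
      exact ENNReal.sum_le_tsum _
    have a3 : ∑ k ∈ Finset.range n, κ k s ≠ ∞ := ne_top_of_le_ne_top (measure_ne_top _ _) a2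
    have a4 : ∑ k ∈ Finset.range n, κ k s + mi s ≤ ∑ k ∈ Finset.range n, κ k s + (st n).1.1 s := by
      rw [← a1, add_comm]
      gcongr
    exact (ENNReal.add_le_add_iff_left a3).1 a4
  have vile : ∀ n, ∀ s, MeasurableSet s → vi s ≤ (st n).1.2 s := by
    intro n s hs
    have a1 : vi s + Measure.sum (fun n => (κ n).map (T n)) s =
        (∑ k ∈ Finset.range n, (κ k).map (T k) s) + (st n).1.2 s := by
      rw [← Measure.add_apply, e2]
      conv_lhs => rw [sum2 n]
      rw [Measure.add_apply, Measure.finsetSum_apply]
    have a2 : ∑ k ∈ Finset.range n, (κ k).map (T k) s ≤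
        Measure.sum (fun n => (κ n).map (T n)) s := by
      rw [Measure.sum_apply _ hs]
      exact ENNReal.sum_le_tsum _
    have a3 : ∑ k ∈ Finset.range n, (κ k).map (T k) s ≠ ∞ :=
      ne_top_of_le_ne_top (measure_ne_top _ _) a2
    have a4 : ∑ k ∈ Finset.range n, (κ k).map (T k) s + vi s ≤
        ∑ k ∈ Finset.range n, (κ k).map (T k) s + (st n).1.2 s := by
      rw [← a1, add_comm]
      gcongr
    exact (ENNReal.add_le_add_iff_left a3).1 a4
  set G : ℕ → Set Ω' := fun n => H n (st n) with hG
  have hGm : ∀ n, MeasurableSet (G n) := fun n => hH n (st n)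
  have g1 : ∀ n, mi (T n ⁻¹' G n) = 0 := fun n => le_antisymm
    ((mile (n + 1) _ (hT n (hGm n))).trans (by rw [stS]; exact (h3 n (st n)).le)) zero_le
  have g2 : ∀ n, vi (G n)ᶜ = 0 := fun n => le_antisymm
    ((vile (n + 1) _ (hGm n).compl).trans (by rw [stS]; exact (h4 n (st n)).le)) zero_le
  -- total masses
  have tot : Measure.sum κ univ = Measure.sum (fun n => (κ n).map (T n)) univ := by
    rw [Measure.sum_apply _ MeasurableSet.univ, Measure.sum_apply _ MeasurableSet.univ]
    congr 1
    funext n
    rw [Measure.map_apply (hT n) MeasurableSet.univ, preimage_univ]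
  have masseq : mi univ = vi univ := by
    have b1 : mi univ + Measure.sum κ univ = vi univ + Measure.sum κ univ := by
      rw [← Measure.add_apply, e1, hmass, tot, ← Measure.add_apply, e2]
    exact (ENNReal.add_left_inj (measure_ne_top _ _)).1 b1
  have vi0 : vi univ = 0 := by
    by_contra hne
    set A := ⋂ n, G n with hA
    have hAm : MeasurableSet A := MeasurableSet.iInter hGm
    have hAc : vi Aᶜ = 0 := by
      rw [hA, compl_iInter]
      exact measure_iUnion_null g2
    have hApos : 0 < vi A := by
      rw [pos_iff_ne_zero]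
      intro h0
      apply hne
      rw [← union_compl_self A]
      exact le_antisymm ((measure_union_le _ _).trans (by rw [h0, hAc, add_zero])) zero_le
    have hνA : 0 < ν A := by
      refine lt_of_lt_of_le hApos ?_
      conv_rhs => rw [← e2]
      rw [Measure.add_apply]
      exact le_self_add
    have hae := hvis A hAm hνA
    have hae' : ∀ᵐ ω ∂mi, ∃ n, T n ω ∈ A := by
      have : mi ≤ μ := by
        conv_rhs => rw [← e1]
        exact Measure.le_add_right le_rfl
      exact (Measure.absolutelyContinuous_of_le this).ae_le hae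
    have hz : mi univ = 0 := by
      have : mi (⋃ n, T n ⁻¹' A) = 0 := by
        refine measure_iUnion_null fun n => measure_mono_null ?_ (g1 n)
        exact preimage_mono (iInter_subset _ n)
      have h5 : mi {ω | ¬ ∃ n, T n ω ∈ A} = 0 := hae'
      refine measure_mono_null ?_ (measure_union_null this h5)
      intro ω _
      by_cases hω : ∃ n, T n ω ∈ A
      · left; obtain ⟨n, hn⟩ := hω; exact mem_iUnion.2 ⟨n, hn⟩
      · right; exact hω
    exact hne (masseq ▸ hz)
  have mi0 : mi = 0 := Measure.measure_univ_eq_zero.1 (masseq.trans vi0)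
  have vi0' : vi = 0 := Measure.measure_univ_eq_zero.1 vi0
  refine ⟨κ, ?_, ?_⟩
  · rw [mi0, zero_add] at e1; exact e1
  · rw [vi0', zero_add] at e2; exact e2

end Q297.Fill
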