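import Pool.Agent.Q292.GWS.Fixed

/-!
# The complex recursion on the tree, domination
-/

set_option autoImplicit false

namespace Pool.Agent.Q297.GA

open MeasureTheory ProbabilityTheory Filter Topology Q292.GWS
open scoped ENNReal

/-- the recursion `X = 1 - z + z ∏ X` with constant boundary value `x0` -/
noncomputable def xx (z x0 : ℂ) : ℕ → (Addr → ℕ) → ℂ
  | 0, _ => x0
  | n + 1, N => 1 - z + z * ∏ i ∈ Finset.range (N []), xx z x0 n (sub N i)

theorem xx_succ (z x0 : ℂ) (n : ℕ) (N : Addr → ℕ) :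
    xx z x0 (n + 1) N = 1 - z + z * ∏ i ∈ Finset.range (N []), xx z x0 n (sub N i) := rfl

theorem xx_real (p : unitInterval) (n : ℕ) : ∀ N : Addr → ℕ,
    xx (p : ℝ) (1 - (p : ℝ)) n N = ((1 - (p : ℝ) * (1 - q p n N) : ℝ) : ℂ) := by
  induction n with
  | zero => intro N; simp [xx, q_zero]
  | succ n ih =>
    intro N
    rw [xx_succ, q_succ]
    have : ∀ i, xx (p : ℝ) (1 - (p : ℝ)) n (sub N i) =
        ((1 - (p : ℝ) * (1 - q p n (sub N i)) : ℝ) : ℂ) := fun i => ih _
    simp only [this]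
    push_cast
    ring

/-- limits of the recursion on an open set -/
theorem limit_analytic (f : ℕ → ℂ → ℂ) (U : Set ℂ) (hU : IsOpen U)
    (hf : ∀ n, DifferentiableOn ℂ (f n) U) (u : ℕ → ℝ) (hu : Summable u)
    (hb : ∀ n, ∀ z ∈ U, ‖f (n + 1) z - f n z‖ ≤ u n) :
    ∃ h : ℂ → ℂ, DifferentiableOn ℂ h U ∧ ∀ z ∈ U, Tendsto (fun n => f n z) atTop (𝓝 (h z)) := by
  refine ⟨fun z => f 0 z + ∑' n, (f (n + 1) z - f n z), ?_, fun z hz => ?_⟩
  · exact (hf 0).add (Complex.differentiableOn_tsum_of_summable_norm hu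
      (fun n => (hf (n + 1)).sub (hf n)) hU hb)
  · have hs : Summable fun n => f (n + 1) z - f n z :=
      Summable.of_norm_bounded hu fun n => hb n z hz
    have h1 := hs.hasSum.tendsto_sum_nat
    have h2 : ∀ n, ∑ i ∈ Finset.range n, (f (i + 1) z - f i z) = f n z - f 0 z := fun n =>
      Finset.sum_range_sub (fun i => f i z) n
    simp only [h2] at h1
    have h3 := h1.const_add (f 0 z)
    simpa using h3

theorem xx_differentiable (U : Set ℂ) (Z X0 : ℂ → ℂ) (hZ : DifferentiableOn ℂ Z U)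
    (hX0 : DifferentiableOn ℂ X0 U) (n : ℕ) : ∀ N : Addr → ℕ,
    DifferentiableOn ℂ (fun y => xx (Z y) (X0 y) n N) U := by
  induction n with
  | zero => intro N; exact hX0
  | succ n ih =>
    intro N
    have h1 : DifferentiableOn ℂ
        (fun y => ∏ i ∈ Finset.range (N []), xx (Z y) (X0 y) n (sub N i)) U :=
      DifferentiableOn.fun_finsetProd fun i _ => ih (sub N i)
    exact ((differentiableOn_const 1).sub hZ).add (hZ.mul h1)

/-! ### integration over the tree -/

variable (μ : Measure ℕ) [IsProbabilityMeasure μ]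

theorem measurable_pair : Measurable fun N : Addr → ℕ => (N [], sub N) :=
  (measurable_pi_apply _).prodMk measurable_sub

theorem lintegral_split (H : ℕ → (ℕ → Addr → ℕ) → ℝ≥0∞) (hH : ∀ k, Measurable (H k)) :
    ∫⁻ N, H (N []) (sub N) ∂(gwLaw μ) =
      ∫⁻ k, ∫⁻ f, H k f ∂(Measure.infinitePi fun _ : ℕ => gwLaw μ) ∂μ := by
  have hG : Measurable fun z : ℕ × (ℕ → Addr → ℕ) => H z.1 z.2 :=
    measurable_from_prod_countable_right fun k => hH k
  have h1 : ∫⁻ N, H (N []) (sub N) ∂(gwLaw μ) =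
      ∫⁻ z, H z.1 z.2 ∂((gwLaw μ).map (fun N => (N [], sub N))) := by
    rw [lintegral_map hG measurable_pair]
  rw [h1, map_pair, lintegral_prod _ hG.aemeasurable]

theorem lintegral_prod_fam (F : ℕ → (Addr → ℕ) → ℝ≥0∞) (hF : ∀ i, Measurable (F i)) (k : ℕ) :
    ∫⁻ f, ∏ i ∈ Finset.range k, F i (f i) ∂(Measure.infinitePi fun _ : ℕ => gwLaw μ) =
      ∏ i ∈ Finset.range k, ∫⁻ N, F i N ∂(gwLaw μ) := by
  have hind : iIndepFun (fun (i : ℕ) (f : ℕ → Addr → ℕ) => F i (f i))
      (Measure.infinitePi fun _ : ℕ => gwLaw μ) :=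
    iIndepFun_infinitePi (P := fun _ : ℕ => gwLaw μ) (X := fun i ω => F i ω) hF
  rw [lintegral_prod_eq_prod_lintegral_of_indepFun (Finset.range k)
    (fun (i : ℕ) (f : ℕ → Addr → ℕ) => F i (f i)) hind
    (fun i => (hF i).comp (measurable_pi_apply i))]
  refine Finset.prod_congr rfl fun i _ => ?_
  have h := Measure.infinitePi_map_eval (fun _ : ℕ => gwLaw μ) i
  conv_rhs => rw [← h]
  rw [lintegral_map (hF i) (measurable_pi_apply i)]

/-- the dominating recursion -/
noncomputable def bb (β κ : ℝ≥0∞) : ℕ → (Addr → ℕ) → ℝ≥0∞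
  | 0, _ => β
  | n + 1, N => β + κ * ∏ i ∈ Finset.range (N []), bb β κ n (sub N i)

/-- the dominating recursion of the differences -/
noncomputable def dd (β κ : ℝ≥0∞) : ℕ → (Addr → ℕ) → ℝ≥0∞
  | 0, _ => 1
  | n + 1, N => κ * ∑ i ∈ Finset.range (N []), ∏ j ∈ Finset.range (N []),
      if j < i then bb β κ (n + 1) (sub N j) else if j = i then dd β κ n (sub N j)
        else bb β κ n (sub N j)

theorem bb_succ (β κ : ℝ≥0∞) (n : ℕ) (N : Addr → ℕ) :
    bb β κ (n + 1) N = β + κ * ∏ i ∈ Finset.range (N []), bb β κ n (sub N i) := rfl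

theorem dd_succ (β κ : ℝ≥0∞) (n : ℕ) (N : Addr → ℕ) :
    dd β κ (n + 1) N = κ * ∑ i ∈ Finset.range (N []), ∏ j ∈ Finset.range (N []),
      if j < i then bb β κ (n + 1) (sub N j) else if j = i then dd β κ n (sub N j)
        else bb β κ n (sub N j) := rfl

theorem meas_split {γ : Type*} [MeasurableSpace γ] (H : ℕ → (ℕ → Addr → ℕ) → γ)
    (hH : ∀ k, Measurable (H k)) : Measurable fun N : Addr → ℕ => H (N []) (sub N) := by
  have hG : Measurable fun z : ℕ × (ℕ → Addr → ℕ) => H z.1 z.2 :=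
    measurable_from_prod_countable_right fun k => hH k
  exact hG.comp measurable_pair

theorem bb_measurable (β κ : ℝ≥0∞) (n : ℕ) : Measurable (bb β κ n) := by
  induction n with
  | zero => exact measurable_const
  | succ n ih =>
    have e : bb β κ (n + 1) = fun N => (fun (k : ℕ) (f : ℕ → Addr → ℕ) =>
        β + κ * ∏ i ∈ Finset.range k, bb β κ n (f i)) (N []) (sub N) := by
      funext N
      rw [bb_succ]
    rw [e]
    exact meas_split (fun (k : ℕ) (f : ℕ → Addr → ℕ) =>
        β + κ * ∏ i ∈ Finset.range k, bb β κ n (f i)) fun k =>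
      measurable_const.add (measurable_const.mul
        (Finset.measurable_fun_prod _ fun i _ => ih.comp (measurable_pi_apply i)))

theorem mix_measurable {A B C : (Addr → ℕ) → ℝ≥0∞} (hA : Measurable A) (hB : Measurable B)
    (hC : Measurable C) (i j : ℕ) : Measurable fun N : Addr → ℕ =>
      if j < i then A N else if j = i then B N else C N := by
  split_ifs
  · exact hA
  · exact hB
  · exact hC

theorem dd_measurable (β κ : ℝ≥0∞) (n : ℕ) : Measurable (dd β κ n) := by
  induction n with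
  | zero => exact measurable_const
  | succ n ih =>
    have hA := bb_measurable β κ (n + 1)
    have hC := bb_measurable β κ n
    have e : dd β κ (n + 1) = fun N => (fun (k : ℕ) (f : ℕ → Addr → ℕ) =>
        κ * ∑ i ∈ Finset.range k, ∏ j ∈ Finset.range k,
      (fun M : Addr → ℕ => if j < i then bb β κ (n + 1) M else if j = i then dd β κ n M
        else bb β κ n M) (f j)) (N []) (sub N) := by
      funext N
      rw [dd_succ]
    rw [e]
    generalize bb β κ (n + 1) = A at hA ⊢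
    generalize bb β κ n = C at hC ⊢
    generalize dd β κ n = B at ih ⊢
    exact meas_split (fun (k : ℕ) (f : ℕ → Addr → ℕ) =>
        κ * ∑ i ∈ Finset.range k, ∏ j ∈ Finset.range k,
      (fun M : Addr → ℕ => if j < i then A M else if j = i then B M
        else C M) (f j)) fun k =>
      measurable_const.mul (Finset.measurable_fun_sum _ fun i _ =>
        Finset.measurable_fun_prod _ fun j _ =>
          (mix_measurable hA ih hC i j).comp (measurable_pi_apply j))

theorem bb_mean {β κ a : ℝ≥0∞} (h0 : β ≤ a) (h1 : β + κ * ∫⁻ k, a ^ k ∂μ ≤ a) (n : ℕ) :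
    ∫⁻ N, bb β κ n N ∂(gwLaw μ) ≤ a := by
  induction n with
  | zero => simpa [bb] using h0
  | succ n ih =>
    have e : ∫⁻ N, bb β κ (n + 1) N ∂(gwLaw μ) =
        β + κ * ∫⁻ k, (∫⁻ N, bb β κ n N ∂(gwLaw μ)) ^ k ∂μ := by
      have h2 := lintegral_split μ (fun k f => β + κ * ∏ i ∈ Finset.range k, bb β κ n (f i))
        (fun k => measurable_const.add (measurable_const.mul
          (Finset.measurable_fun_prod _ fun i _ =>
            (bb_measurable β κ n).comp (measurable_pi_apply i))))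
      refine h2.trans ?_
      have h3 : ∀ k : ℕ, ∫⁻ f, (β + κ * ∏ i ∈ Finset.range k, bb β κ n (f i))
          ∂(Measure.infinitePi fun _ : ℕ => gwLaw μ) =
          β + κ * (∫⁻ N, bb β κ n N ∂(gwLaw μ)) ^ k := by
        intro k
        have hm : Measurable fun f : ℕ → Addr → ℕ => ∏ i ∈ Finset.range k, bb β κ n (f i) :=
          Finset.measurable_fun_prod _ fun i _ =>
            (bb_measurable β κ n).comp (measurable_pi_apply i)
        rw [lintegral_add_left measurable_const, lintegral_const_mul _ hm,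
          lintegral_prod_fam μ (fun _ => bb β κ n) (fun _ => bb_measurable β κ n) k]
        simp
      simp only [h3]
      rw [lintegral_add_left measurable_const, lintegral_const_mul _ (measurable_of_countable _)]
      simp
    rw [e]
    refine le_trans ?_ h1
    gcongr

theorem mix_mean {A B C : (Addr → ℕ) → ℝ≥0∞} (hA : Measurable A) (hB : Measurable B)
    (hC : Measurable C) {a : ℝ≥0∞} (h1 : ∫⁻ N, A N ∂(gwLaw μ) ≤ a)
    (h2 : ∫⁻ N, C N ∂(gwLaw μ) ≤ a) (k i : ℕ) (hi : i ∈ Finset.range k) :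
    ∫⁻ f, (∏ j ∈ Finset.range k, (fun M : Addr → ℕ => if j < i then A M else if j = i then B M
      else C M) (f j)) ∂(Measure.infinitePi fun _ : ℕ => gwLaw μ) ≤
      a ^ (k - 1) * ∫⁻ N, B N ∂(gwLaw μ) := by
  rw [lintegral_prod_fam μ (fun j M => if j < i then A M else if j = i then B M else C M)
    (fun j => mix_measurable hA hB hC i j) k]
  rw [← Finset.mul_prod_erase _ _ hi]
  have h7 : ∫⁻ N, (if i < i then A N else if i = i then B N else C N) ∂(gwLaw μ) =
      ∫⁻ N, B N ∂(gwLaw μ) := by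
    simp
  rw [h7, mul_comm]
  refine mul_le_mul' ?_ le_rfl
  have h8 : ∏ x ∈ (Finset.range k).erase i, ∫⁻ N, (if x < i then A N
    else if x = i then B N else C N) ∂(gwLaw μ) ≤ ∏ x ∈ (Finset.range k).erase i, a := by
    refine Finset.prod_le_prod' fun x hx => ?_
    have hne : x ≠ i := (Finset.mem_erase.1 hx).1
    by_cases hxi : x < i
    · simp only [hxi, if_true]
      exact h1
    · simp only [hxi, if_false, hne]
      exact h2
  refine h8.trans ?_
  rw [Finset.prod_const, Finset.card_erase_of_mem hi, Finset.card_range]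

theorem mix_total {A B C : (Addr → ℕ) → ℝ≥0∞} (hA : Measurable A) (hB : Measurable B)
    (hC : Measurable C) {a : ℝ≥0∞} (h1 : ∫⁻ N, A N ∂(gwLaw μ) ≤ a)
    (h2 : ∫⁻ N, C N ∂(gwLaw μ) ≤ a) (κ : ℝ≥0∞) :
    ∫⁻ N, (κ * ∑ i ∈ Finset.range (N []), ∏ j ∈ Finset.range (N []),
      if j < i then A (sub N j) else if j = i then B (sub N j) else C (sub N j)) ∂(gwLaw μ) ≤
      (κ * ∫⁻ k : ℕ, (k : ℝ≥0∞) * a ^ (k - 1) ∂μ) * ∫⁻ N, B N ∂(gwLaw μ) := by
  have hmeas : ∀ k : ℕ, ∀ i ∈ Finset.range k, Measurable fun f : ℕ → Addr → ℕ =>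
      ∏ j ∈ Finset.range k, (fun M : Addr → ℕ => if j < i then A M else if j = i then B M
        else C M) (f j) := fun k i _ =>
    Finset.measurable_fun_prod _ fun j _ =>
      (mix_measurable hA hB hC i j).comp (measurable_pi_apply j)
  have h3 := lintegral_split μ (fun k f => κ * ∑ i ∈ Finset.range k, ∏ j ∈ Finset.range k,
      (fun M : Addr → ℕ => if j < i then A M else if j = i then B M else C M) (f j))
    (fun k => measurable_const.mul (Finset.measurable_fun_sum _ (hmeas k)))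
  refine h3.le.trans ?_
  have h4 : ∀ k : ℕ, ∫⁻ f, (κ * ∑ i ∈ Finset.range k, ∏ j ∈ Finset.range k,
      (fun M : Addr → ℕ => if j < i then A M else if j = i then B M else C M) (f j))
      ∂(Measure.infinitePi fun _ : ℕ => gwLaw μ) ≤
      κ * ((k : ℝ≥0∞) * a ^ (k - 1)) * ∫⁻ N, B N ∂(gwLaw μ) := by
    intro k
    rw [lintegral_const_mul _ (Finset.measurable_fun_sum _ (hmeas k)),
      lintegral_finsetSum _ (hmeas k)]
    calc κ * ∑ i ∈ Finset.range k, _
        ≤ κ * ∑ i ∈ Finset.range k, a ^ (k - 1) * ∫⁻ N, B N ∂(gwLaw μ) := by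
          gcongr with i hi
          exact mix_mean μ hA hB hC h1 h2 k i hi
      _ = κ * ((k : ℝ≥0∞) * a ^ (k - 1)) * ∫⁻ N, B N ∂(gwLaw μ) := by
          rw [Finset.sum_const, Finset.card_range, nsmul_eq_mul]
          ring
  refine (lintegral_mono h4).trans ?_
  rw [lintegral_mul_const _ (measurable_of_countable _),
    lintegral_const_mul _ (measurable_of_countable _)]

theorem dd_mean {β κ a : ℝ≥0∞} (h0 : β ≤ a) (h1 : β + κ * ∫⁻ k, a ^ k ∂μ ≤ a) (n : ℕ) :
    ∫⁻ N, dd β κ n N ∂(gwLaw μ) ≤ (κ * ∫⁻ k : ℕ, (k : ℝ≥0∞) * a ^ (k - 1) ∂μ) ^ n := by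
  induction n with
  | zero => simp [dd]
  | succ n ih =>
    simp only [dd_succ]
    refine (mix_total μ (bb_measurable β κ (n + 1)) (dd_measurable β κ n) (bb_measurable β κ n)
      (bb_mean μ h0 h1 (n + 1)) (bb_mean μ h0 h1 n) κ).trans ?_
    rw [pow_succ, mul_comm]
    exact mul_le_mul' ih le_rfl

/-- telescoping -/
theorem prod_diff (a b : ℕ → ℂ) (k : ℕ) :
    ‖∏ i ∈ Finset.range k, a i - ∏ i ∈ Finset.range k, b i‖ₑ ≤
      ∑ i ∈ Finset.range k, ∏ j ∈ Finset.range k,
        if j < i then ‖a j‖ₑ else if j = i then ‖a j - b j‖ₑ else ‖b j‖ₑ := by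
  induction k with
  | zero => simp
  | succ k ih =>
    rw [Finset.prod_range_succ, Finset.prod_range_succ, Finset.sum_range_succ]
    have e : (∏ i ∈ Finset.range k, a i) * a k - (∏ i ∈ Finset.range k, b i) * b k =
        (∏ i ∈ Finset.range k, a i - ∏ i ∈ Finset.range k, b i) * b k +
          (∏ i ∈ Finset.range k, a i) * (a k - b k) := by ring
    rw [e]
    refine (enorm_add_le _ _).trans ?_
    rw [enorm_mul, enorm_mul]
    refine add_le_add ?_ ?_
    · refine (mul_le_mul' ih le_rfl).trans ?_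
      rw [Finset.sum_mul]
      refine Finset.sum_le_sum fun i hi => ?_
      rw [Finset.prod_range_succ]
      have hik : i < k := Finset.mem_range.1 hi
      rw [if_neg (by omega : ¬ k < i), if_neg (by omega : ¬ k = i)]
    · rw [Finset.prod_range_succ, if_neg (lt_irrefl k), if_pos rfl]
      refine mul_le_mul' ?_ le_rfl
      have h1 : ∀ k : ℕ, ‖∏ i ∈ Finset.range k, a i‖ₑ = ∏ i ∈ Finset.range k, ‖a i‖ₑ := by
        intro k
        induction k with
        | zero => simp
        | succ k ih => rw [Finset.prod_range_succ, Finset.prod_range_succ, enorm_mul, ih]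
      rw [h1]
      apply le_of_eq
      refine Finset.prod_congr rfl fun j hj => ?_
      rw [if_pos (Finset.mem_range.1 hj)]

theorem enorm_prod (a : ℕ → ℂ) (k : ℕ) :
    ‖∏ i ∈ Finset.range k, a i‖ₑ = ∏ i ∈ Finset.range k, ‖a i‖ₑ := by
  induction k with
  | zero => simp
  | succ k ih => rw [Finset.prod_range_succ, Finset.prod_range_succ, enorm_mul, ih]

theorem xx_le_bb {β κ : ℝ≥0∞} {z x0 : ℂ} (h1 : ‖1 - z‖ₑ ≤ β) (h2 : ‖x0‖ₑ ≤ β) (h3 : ‖z‖ₑ ≤ κ)
    (n : ℕ) : ∀ N, ‖xx z x0 n N‖ₑ ≤ bb β κ n N := by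
  induction n with
  | zero => intro N; exact h2
  | succ n ih =>
    intro N
    rw [xx_succ]
    refine (enorm_add_le _ _).trans ?_
    rw [enorm_mul, enorm_prod]
    rw [bb_succ]
    exact add_le_add h1 (mul_le_mul' h3 (Finset.prod_le_prod' fun i _ => ih _))

theorem diff_le_dd {β κ : ℝ≥0∞} {z : ℂ} (h1 : ‖1 - z‖ₑ ≤ β) (h3 : ‖z‖ₑ ≤ κ) (hβ : β ≤ 1)
    (hκ : κ ≤ 1) (n : ℕ) : ∀ N, ‖xx z (1 - z) (n + 1) N - xx z (1 - z) n N‖ₑ ≤ dd β κ n N := by
  induction n with
  | zero =>
    intro N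
    have e : xx z (1 - z) (0 + 1) N - xx z (1 - z) 0 N =
        z * ∏ i ∈ Finset.range (N []), (1 - z) := by
      rw [xx_succ]
      simp only [xx]
      ring
    rw [e, enorm_mul, enorm_prod]
    change _ ≤ (1 : ℝ≥0∞)
    have h4 : ∏ i ∈ Finset.range (N []), ‖1 - z‖ₑ ≤ 1 :=
      Finset.prod_le_one' fun i _ => h1.trans hβ
    calc ‖z‖ₑ * ∏ i ∈ Finset.range (N []), ‖1 - z‖ₑ ≤ 1 * 1 := mul_le_mul' (h3.trans hκ) h4
      _ = 1 := one_mul 1
  | succ n ih =>
    intro N
    have e : xx z (1 - z) (n + 1 + 1) N - xx z (1 - z) (n + 1) N =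
        z * (∏ i ∈ Finset.range (N []), xx z (1 - z) (n + 1) (sub N i) -
          ∏ i ∈ Finset.range (N []), xx z (1 - z) n (sub N i)) := by
      rw [xx_succ z (1 - z) (n + 1), xx_succ z (1 - z) n N]
      ring
    rw [e, enorm_mul]
    rw [dd_succ]
    refine mul_le_mul' h3 ((prod_diff _ _ _).trans ?_)
    refine Finset.sum_le_sum fun i _ => Finset.prod_le_prod' fun j _ => ?_
    split_ifs
    · exact xx_le_bb h1 h1 h3 (n + 1) _
    · exact ih _
    · exact xx_le_bb h1 h1 h3 n _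

end Pool.Agent.Q297.GA
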