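import Pool.Agent.Q297.GA1

/-!
# Analyticity of the quenched survival function on the open interval
-/

set_option autoImplicit false

namespace Pool.Agent.Q297.GA

open MeasureTheory ProbabilityTheory Filter Topology Q292.GWS
open scoped ENNReal

variable (μ : Measure ℕ) [IsProbabilityMeasure μ]

/-- the generating function -/
noncomputable def ph (a : ℝ) : ℝ := ∫ k, a ^ k ∂μ

/-- its derivative -/
noncomputable def ph' (a : ℝ) : ℝ := ∫ k : ℕ, (k : ℝ) * a ^ (k - 1) ∂μ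

theorem ph_cont : ContinuousOn (ph μ) (Set.Icc 0 1) := by
  refine continuousOn_of_dominated (bound := fun _ : ℕ => (1 : ℝ)) (fun s hs => ?_)
    (fun s hs => ae_of_all _ fun k => ?_) (integrable_const _) (ae_of_all _ fun k => ?_)
  · exact (measurable_of_countable _).aestronglyMeasurable
  · rw [Real.norm_eq_abs, abs_of_nonneg (pow_nonneg hs.1 k)]
    exact pow_le_one₀ hs.1 hs.2
  · fun_prop

omit [IsProbabilityMeasure μ] in
theorem ph'_integrable (hI : Integrable (fun k : ℕ => (k : ℝ)) μ) {a : ℝ} (h0 : 0 ≤ a)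
    (h1 : a ≤ 1) : Integrable (fun k : ℕ => (k : ℝ) * a ^ (k - 1)) μ := by
  refine hI.mono' (measurable_of_countable _).aestronglyMeasurable (ae_of_all _ fun k => ?_)
  rw [Real.norm_eq_abs, abs_of_nonneg (by positivity)]
  exact mul_le_of_le_one_right (Nat.cast_nonneg k) (pow_le_one₀ h0 h1)

theorem pow_diff {a b : ℝ} (h0 : 0 ≤ a) (hab : a ≤ b) (k : ℕ) :
    (k : ℝ) * a ^ (k - 1) * (b - a) ≤ b ^ k - a ^ k := by
  induction k with
  | zero => simp
  | succ k ih =>
    have hb : 0 ≤ b := h0.trans hab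
    rcases Nat.eq_zero_or_pos k with rfl | hk
    · simp
    · obtain ⟨j, rfl⟩ : ∃ j, k = j + 1 := ⟨k - 1, by omega⟩
      simp only [Nat.add_sub_cancel] at ih ⊢
      push_cast at ih ⊢
      have h1 : a ^ (j + 1) ≤ b ^ (j + 1) := pow_le_pow_left₀ h0 hab _
      have h2 : 0 ≤ a ^ j := by positivity
      have e1 : b ^ (j + 1 + 1) - a ^ (j + 1 + 1) =
          a * (b ^ (j + 1) - a ^ (j + 1)) + (b - a) * b ^ (j + 1) := by ring
      rw [e1]
      have h3 : a * (((j : ℝ) + 1) * a ^ j * (b - a)) ≤ a * (b ^ (j + 1) - a ^ (j + 1)) :=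
        mul_le_mul_of_nonneg_left ih h0
      have h4 : (b - a) * a ^ (j + 1) ≤ (b - a) * b ^ (j + 1) :=
        mul_le_mul_of_nonneg_left h1 (by linarith)
      calc ((j : ℝ) + 1 + 1) * a ^ (j + 1) * (b - a)
          = a * (((j : ℝ) + 1) * a ^ j * (b - a)) + (b - a) * a ^ (j + 1) := by ring
        _ ≤ _ := add_le_add h3 h4

theorem exists_level (hI : Integrable (fun k : ℕ => (k : ℝ)) μ) {p : ℝ}
    (hp : 1 < p * ∫ k : ℕ, (k : ℝ) ∂μ) (hp0 : 0 < p) (hp1 : p < 1) :
    ∃ a : ℝ, 0 < a ∧ a < 1 ∧ 1 - p + p * ph μ a < a ∧ p * ph' μ a < 1 := by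
  set m := ∫ k : ℕ, (k : ℝ) ∂μ with hm
  have hnn : ∀ a : ℝ, 0 ≤ a → 0 ≤ ph μ a := fun a ha => integral_nonneg fun k => pow_nonneg ha k
  -- a point with `D > 0`
  obtain ⟨s, hs0, hs1, hs⟩ : ∃ s : ℝ, 0 < s ∧ s < 1 ∧ psi μ s < m - 1 / p := by
    have hc := (psi_cont μ hI) 0 ⟨le_rfl, zero_le_one⟩
    have hlt : psi μ 0 < m - 1 / p := by
      rw [psi_zero, sub_pos, div_lt_iff₀ hp0]
      linarith
    have h1 : ∀ᶠ s in 𝓝[Set.Icc 0 1] (0 : ℝ), psi μ s < m - 1 / p :=
      hc.tendsto.eventually (gt_mem_nhds hlt)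
    have h2 : ∀ᶠ s in 𝓝[>] (0 : ℝ), psi μ s < m - 1 / p := by
      have hle : 𝓝[Set.Ioo 0 1] (0 : ℝ) ≤ 𝓝[Set.Icc 0 1] 0 :=
        nhdsWithin_mono 0 Set.Ioo_subset_Icc_self
      rw [nhdsWithin_Ioo_eq_nhdsGT (show (0 : ℝ) < 1 by norm_num)] at hle
      exact h1.filter_mono hle
    have h3 : ∀ᶠ s in 𝓝[>] (0 : ℝ), s ∈ Set.Ioo (0 : ℝ) 1 := Ioo_mem_nhdsGT (by norm_num)
    obtain ⟨s, hs1, hs2⟩ := (h2.and h3).exists
    exact ⟨s, hs2.1, hs2.2, hs1⟩
  set D : ℝ → ℝ := fun a => a - (1 - p) - p * ph μ a with hD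
  have hDb : 0 < D (1 - s) := by
    have h1 := psi_mul μ hI hs0.le hs1.le
    have h2 : D (1 - s) = s * (p * (m - psi μ s) - 1) := by
      have : ph μ (1 - s) = 1 - s * (m - psi μ s) := by
        unfold ph; rw [h1]; ring
      simp only [hD, this]
      ring
    rw [h2]
    apply mul_pos hs0
    have h3 : 1 / p < m - psi μ s := by linarith
    rw [div_lt_iff₀ hp0] at h3
    linarith
  set b := 1 - s with hb
  have hb0 : 0 < b := by linarith
  have hb1 : b < 1 := by linarith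
  have hD0 : D 0 < 0 := by
    have h1 := hnn 0 le_rfl
    simp only [hD]
    nlinarith
  have hDc : ContinuousOn D (Set.Icc 0 b) := by
    have h1 : ContinuousOn (ph μ) (Set.Icc 0 b) :=
      (ph_cont μ).mono (Set.Icc_subset_Icc le_rfl hb1.le)
    exact (continuousOn_id.sub continuousOn_const).sub (continuousOn_const.mul h1)
  obtain ⟨a, ha, haD⟩ := intermediate_value_Icc hb0.le hDc
    (show D b / 2 ∈ Set.Icc (D 0) (D b) from ⟨by linarith, by linarith⟩)
  have hab : a < b := by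
    refine lt_of_le_of_ne ha.2 ?_
    rintro rfl
    linarith
  have ha0 : 0 < a := by
    refine lt_of_le_of_ne ha.1 ?_
    rintro rfl
    linarith
  have ha1 : a < 1 := by linarith
  refine ⟨a, ha0, ha1, ?_, ?_⟩
  · have : D a = a - (1 - p) - p * ph μ a := rfl
    linarith
  · have h1 : ph' μ a * (b - a) ≤ ph μ b - ph μ a := by
      unfold ph ph'
      rw [← integral_mul_const, ← integral_sub (pow_integrable μ hb0.le hb1.le)
        (pow_integrable μ ha0.le ha1.le)]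
      refine integral_mono ((ph'_integrable μ hI ha0.le ha1.le).mul_const _)
        ((pow_integrable μ hb0.le hb1.le).sub (pow_integrable μ ha0.le ha1.le)) fun k => ?_
      exact pow_diff ha0.le hab.le k
    have h2 : D b = b - (1 - p) - p * ph μ b := rfl
    have h3 : D a = a - (1 - p) - p * ph μ a := rfl
    have h4 : p * (ph' μ a * (b - a)) ≤ p * (ph μ b - ph μ a) :=
      mul_le_mul_of_nonneg_left h1 hp0.le
    have h5 : p * ph' μ a * (b - a) < 1 * (b - a) := by nlinarith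
    exact lt_of_mul_lt_mul_right h5 (by linarith)

theorem lint_pow {a : ℝ} (h0 : 0 ≤ a) (h1 : a ≤ 1) :
    ∫⁻ k : ℕ, (ENNReal.ofReal a) ^ k ∂μ = ENNReal.ofReal (ph μ a) := by
  unfold ph
  rw [ofReal_integral_eq_lintegral_ofReal (pow_integrable μ h0 h1)
    (ae_of_all _ fun k => pow_nonneg h0 k)]
  refine lintegral_congr fun k => ?_
  rw [ENNReal.ofReal_pow h0]

omit [IsProbabilityMeasure μ] in
theorem lint_pow' (hI : Integrable (fun k : ℕ => (k : ℝ)) μ) {a : ℝ} (h0 : 0 ≤ a) (h1 : a ≤ 1) :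
    ∫⁻ k : ℕ, (k : ℝ≥0∞) * (ENNReal.ofReal a) ^ (k - 1) ∂μ = ENNReal.ofReal (ph' μ a) := by
  unfold ph'
  rw [ofReal_integral_eq_lintegral_ofReal (ph'_integrable μ hI h0 h1)
    (ae_of_all _ fun k => by positivity)]
  refine lintegral_congr fun k => ?_
  rw [ENNReal.ofReal_mul (Nat.cast_nonneg k), ENNReal.ofReal_pow h0, ENNReal.ofReal_natCast]

/-- the real values of the limit -/
theorem real_limit {N : Addr → ℕ} {x : ℝ} (hx0 : 0 ≤ x) (hx1 : x ≤ 1) {h : ℂ}
    (hh : Tendsto (fun n => xx (x : ℂ) (1 - (x : ℂ)) n N) atTop (𝓝 h)) :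
    h = ((1 - x * quenched N x : ℝ) : ℂ) := by
  set p : unitInterval := ⟨x, hx0, hx1⟩ with hp
  have hpx : (p : ℝ) = x := rfl
  have h1 := tendsto_q p N
  have h2 : Tendsto (fun n => ((1 - (p : ℝ) * (1 - q p n N) : ℝ) : ℂ)) atTop
      (𝓝 ((1 - (p : ℝ) * (1 - (1 - (percLaw p).real {ω | (cluster N ω).Infinite})) : ℝ) : ℂ)) := by
    refine (Complex.continuous_ofReal.tendsto _).comp ?_
    exact ((h1.const_sub 1).const_mul (p : ℝ)).const_sub 1
  have h3 : (fun n => xx (x : ℂ) (1 - (x : ℂ)) n N) =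
      fun n => ((1 - (p : ℝ) * (1 - q p n N) : ℝ) : ℂ) := by
    funext n
    exact xx_real p n N
  rw [h3] at hh
  have h4 := tendsto_nhds_unique hh h2
  rw [h4]
  congr 1
  have h5 : quenched N x = (percLaw p).real {ω | (cluster N ω).Infinite} := by
    unfold quenched
    rw [Set.projIcc_of_mem _ ⟨hx0, hx1⟩]
  rw [h5, hpx]
  ring

theorem near_point (hI : Integrable (fun k : ℕ => (k : ℝ)) μ) {p : ℝ}
    (hp : 1 < p * ∫ k : ℕ, (k : ℝ) ∂μ) (hp0 : 0 < p) (hp1 : p < 1) :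
    ∃ d : ℝ, 0 < d ∧ ∀ᵐ N ∂(gwLaw μ), ∀ x ∈ Set.Ioo (p - d) (p + d),
      AnalyticAt ℝ (quenched N) x := by
  obtain ⟨a, ha0, ha1, hlev, hder⟩ := exists_level μ hI hp hp0 hp1
  have hph0 : 0 ≤ ph μ a := integral_nonneg fun k => pow_nonneg ha0.le k
  have hph1 : ph μ a ≤ 1 := by
    have h := integral_mono (pow_integrable μ ha0.le ha1.le) (integrable_const (1 : ℝ))
      fun k => pow_le_one₀ ha0.le ha1.le
    simpa [ph] using h
  have hph'0 : 0 ≤ ph' μ a := integral_nonneg fun k => by positivity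
  set d := min (min (1 - p) (p / 2)) (min ((a - (1 - p + p * ph μ a)) / 2)
    ((1 - p * ph' μ a) / (2 * (ph' μ a + 1)))) with hd
  have hd0 : 0 < d := by
    refine lt_min (lt_min (by linarith) (by linarith)) (lt_min (by linarith) ?_)
    apply div_pos (by linarith) (by linarith)
  have d1 : d ≤ 1 - p := (min_le_left _ _).trans (min_le_left _ _)
  have d2 : d ≤ p / 2 := (min_le_left _ _).trans (min_le_right _ _)
  have d3 : d ≤ (a - (1 - p + p * ph μ a)) / 2 := (min_le_right _ _).trans (min_le_left _ _)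
  have d4 : d ≤ (1 - p * ph' μ a) / (2 * (ph' μ a + 1)) :=
    (min_le_right _ _).trans (min_le_right _ _)
  rw [le_div_iff₀ (by linarith)] at d4
  set β : ℝ≥0∞ := ENNReal.ofReal (1 - p + d) with hβ
  set κ : ℝ≥0∞ := ENNReal.ofReal (p + d) with hκ
  set A : ℝ≥0∞ := ENNReal.ofReal a with hA
  have hβA : β ≤ A := ENNReal.ofReal_le_ofReal (by nlinarith [mul_nonneg hp0.le hph0])
  have hβ1 : β ≤ 1 := by
    rw [hβ, ← ENNReal.ofReal_one]
    exact ENNReal.ofReal_le_ofReal (by linarith)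
  have hκ1 : κ ≤ 1 := by
    rw [hκ, ← ENNReal.ofReal_one]
    exact ENNReal.ofReal_le_ofReal (by linarith)
  have hrec : β + κ * ∫⁻ k, A ^ k ∂μ ≤ A := by
    rw [hA, lint_pow μ ha0.le ha1.le, hβ, hκ, ← ENNReal.ofReal_mul (by linarith),
      ← ENNReal.ofReal_add (by linarith) (by positivity)]
    apply ENNReal.ofReal_le_ofReal
    nlinarith
  have hρ : κ * ∫⁻ k : ℕ, (k : ℝ≥0∞) * A ^ (k - 1) ∂μ < 1 := by
    rw [hA, lint_pow' μ hI ha0.le ha1.le, hκ, ← ENNReal.ofReal_mul (by linarith),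
      ← ENNReal.ofReal_one]
    apply (ENNReal.ofReal_lt_ofReal_iff one_pos).2
    nlinarith
  have hsum : ∫⁻ N, ∑' n, dd β κ n N ∂(gwLaw μ) ≠ ∞ := by
    rw [lintegral_tsum fun n => (dd_measurable β κ n).aemeasurable]
    refine ne_top_of_le_ne_top ?_ (ENNReal.tsum_le_tsum fun n => dd_mean μ hβA hrec n)
    rw [ENNReal.tsum_geometric]
    exact ENNReal.inv_ne_top.2 (tsub_pos_of_lt hρ).ne'
  refine ⟨d, hd0, ?_⟩
  have hae := ae_lt_top (Measurable.tsum fun n => dd_measurable β κ n) hsum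
  filter_upwards [hae] with N hN
  have hfin : ∀ n, dd β κ n N ≠ ∞ := fun n => ENNReal.ne_top_of_tsum_ne_top hN.ne n
  have hsummable : Summable fun n => (dd β κ n N).toReal := ENNReal.summable_toReal hN.ne
  set U : Set ℂ := Metric.ball (p : ℂ) d with hU
  have hUz : ∀ z ∈ U, ‖1 - z‖ₑ ≤ β ∧ ‖z‖ₑ ≤ κ := by
    intro z hz
    rw [hU, Metric.mem_ball, Complex.dist_eq] at hz
    constructor
    · rw [hβ, ← ofReal_norm]
      apply ENNReal.ofReal_le_ofReal
      have e : 1 - z = ((1 - p : ℝ) : ℂ) - (z - p) := by push_cast; ring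
      rw [e]
      refine (norm_sub_le _ _).trans ?_
      rw [Complex.norm_real, Real.norm_eq_abs, abs_of_pos (by linarith)]
      linarith
    · rw [hκ, ← ofReal_norm]
      apply ENNReal.ofReal_le_ofReal
      have e : z = ((p : ℝ) : ℂ) + (z - p) := by ring
      rw [e]
      refine (norm_add_le _ _).trans ?_
      rw [Complex.norm_real, Real.norm_eq_abs, abs_of_pos hp0]
      linarith
  obtain ⟨h, hh1, hh2⟩ := limit_analytic (fun n z => xx z (1 - z) n N) U Metric.isOpen_ball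
    (fun n => xx_differentiable U (fun z => z) (fun z => 1 - z) differentiableOn_id
      ((differentiableOn_const 1).sub differentiableOn_id) n N)
    (fun n => (dd β κ n N).toReal) hsummable (fun n z hz => by
      obtain ⟨h1, h2⟩ := hUz z hz
      have h3 := diff_le_dd h1 h2 hβ1 hκ1 n N
      rw [← ofReal_norm] at h3
      exact (ENNReal.ofReal_le_iff_le_toReal (hfin n)).1 h3)
  intro x hx
  have hmem : ∀ y ∈ Set.Ioo (p - d) (p + d), (y : ℂ) ∈ U ∧ 0 < y ∧ y ≤ 1 := by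
    intro y hy
    refine ⟨?_, by linarith [hy.1], by linarith [hy.2]⟩
    rw [hU, Metric.mem_ball, Complex.dist_eq, ← Complex.ofReal_sub, Complex.norm_real,
      Real.norm_eq_abs, abs_lt]
    constructor <;> linarith [hy.1, hy.2]
  have han : AnalyticAt ℝ (fun y : ℝ => (h y).re) x :=
    (hh1.analyticAt (Metric.isOpen_ball.mem_nhds (hmem x hx).1)).re_ofReal
  have han2 : AnalyticAt ℝ (fun y : ℝ => (1 - (h y).re) / y) x :=
    (analyticAt_const.sub han).div analyticAt_id (hmem x hx).2.1.ne'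
  refine han2.congr ?_
  filter_upwards [Ioo_mem_nhds hx.1 hx.2] with y hy
  obtain ⟨h1, h2, h3⟩ := hmem y hy
  have h4 := real_limit (N := N) h2.le h3 (hh2 y h1)
  rw [h4, Complex.ofReal_re]
  field_simp
  ring

end Pool.Agent.Q297.GA
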