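import Pool.Agent.Q297.GA2

/-!
# Second moments of the complex recursion
-/

set_option autoImplicit false

namespace Pool.Agent.Q297.GA

open MeasureTheory ProbabilityTheory Filter Topology Q292.GWS
open scoped ENNReal ComplexConjugate

variable (μ : Measure ℕ) [IsProbabilityMeasure μ]

/-- the complex generating function -/
noncomputable def phc (c : ℂ) : ℂ := ∫ k, c ^ k ∂μ

omit [IsProbabilityMeasure μ] in
theorem phc_ofReal (t : ℝ) : phc μ (t : ℂ) = (ph μ t : ℂ) := by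
  unfold phc ph
  rw [← integral_complex_ofReal]
  refine integral_congr_ae (ae_of_all _ fun k => ?_)
  push_cast
  rfl

theorem integral_prod_sub_c (φ : (Addr → ℕ) → ℂ) (hφ : Measurable φ) (k : ℕ) :
    ∫ f, ∏ i ∈ Finset.range k, φ (f i) ∂(Measure.infinitePi fun _ : ℕ => gwLaw μ) =
      (∫ N, φ N ∂(gwLaw μ)) ^ k := by
  have hind : iIndepFun (fun (i : Finset.range k) (f : ℕ → Addr → ℕ) => f i)
      (Measure.infinitePi fun _ : ℕ => gwLaw μ) := by
    have h := iIndepFun_infinitePi (P := fun _ : ℕ => gwLaw μ) (X := fun _ ω => ω)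
      (fun _ => measurable_id)
    exact h.precomp Subtype.val_injective
  have h1 := hind.integral_fun_prod_comp (𝕜 := ℂ) (f := fun _ => φ)
    (fun i => (measurable_pi_apply _).aemeasurable) (fun i => hφ.aestronglyMeasurable)
  have h2 : ∀ i : ℕ, ∫ f : ℕ → Addr → ℕ, φ (f i) ∂(Measure.infinitePi fun _ : ℕ => gwLaw μ) =
      ∫ N, φ N ∂(gwLaw μ) := by
    intro i
    conv_rhs => rw [← Measure.infinitePi_map_eval (fun _ : ℕ => gwLaw μ) i]
    rw [integral_map (measurable_pi_apply _).aemeasurable hφ.aestronglyMeasurable]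
  simp only [h2, Finset.prod_const, Finset.card_univ, Fintype.card_coe, Finset.card_range] at h1
  rw [← h1]
  refine integral_congr_ae (ae_of_all _ fun f => ?_)
  exact (Finset.prod_coe_sort (Finset.range k) fun i => φ (f i)).symm

theorem tree_integral (F : (Addr → ℕ) → ℂ) (hF : Measurable F) (hFi : Integrable F (gwLaw μ))
    {R : ℝ} (hR : ∫ N, ‖F N‖ ∂(gwLaw μ) ≤ R) (hR' : Integrable (fun k : ℕ => R ^ k) μ) :
    Integrable (fun N => ∏ i ∈ Finset.range (N []), F (sub N i)) (gwLaw μ) ∧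
      ∫ N, ∏ i ∈ Finset.range (N []), F (sub N i) ∂(gwLaw μ) =
        phc μ (∫ N, F N ∂(gwLaw μ)) := by
  have hR0 : 0 ≤ R := le_trans (integral_nonneg fun N => norm_nonneg _) hR
  set G : ℕ × (ℕ → Addr → ℕ) → ℂ := fun z => ∏ i ∈ Finset.range z.1, F (z.2 i) with hGdef
  have hG : Measurable G := by
    refine measurable_from_prod_countable_right fun k => ?_
    change Measurable fun y : ℕ → Addr → ℕ => ∏ i ∈ Finset.range k, F (y i)
    exact Finset.measurable_fun_prod _ fun i _ => hF.comp (measurable_pi_apply i)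
  have hGi : Integrable G (μ.prod (Measure.infinitePi fun _ : ℕ => gwLaw μ)) := by
    refine ⟨hG.aestronglyMeasurable, ?_⟩
    unfold HasFiniteIntegral
    rw [lintegral_prod _ hG.enorm.aemeasurable]
    have h1 : ∀ k : ℕ, ∫⁻ f, ‖G (k, f)‖ₑ ∂(Measure.infinitePi fun _ : ℕ => gwLaw μ) =
        (∫⁻ N, ‖F N‖ₑ ∂(gwLaw μ)) ^ k := by
      intro k
      have h2 : ∀ f : ℕ → Addr → ℕ, ‖G (k, f)‖ₑ = ∏ i ∈ Finset.range k, ‖F (f i)‖ₑ := fun f =>
        enorm_prod (fun i => F (f i)) k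
      simp only [h2]
      rw [lintegral_prod_fam μ (fun _ N => ‖F N‖ₑ) (fun _ => hF.enorm) k]
      simp
    simp only [h1]
    have h3 : ∫⁻ N, ‖F N‖ₑ ∂(gwLaw μ) ≤ ENNReal.ofReal R := by
      rw [← ofReal_integral_norm_eq_lintegral_enorm hFi]
      exact ENNReal.ofReal_le_ofReal hR
    calc ∫⁻ k : ℕ, (∫⁻ N, ‖F N‖ₑ ∂(gwLaw μ)) ^ k ∂μ
        ≤ ∫⁻ k : ℕ, ENNReal.ofReal (R ^ k) ∂μ := by
          refine lintegral_mono fun k => ?_
          rw [ENNReal.ofReal_pow hR0]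
          exact pow_le_pow_left' h3 k
      _ < ∞ := hR'.lintegral_lt_top
  have hmp := map_pair μ
  constructor
  · have h4 : Integrable G ((gwLaw μ).map (fun N => (N [], sub N))) := by
      rw [hmp]; exact hGi
    exact h4.comp_measurable measurable_pair
  · have h5 : ∫ N, ∏ i ∈ Finset.range (N []), F (sub N i) ∂(gwLaw μ) =
        ∫ z, G z ∂(μ.prod (Measure.infinitePi fun _ : ℕ => gwLaw μ)) := by
      rw [← hmp, integral_map measurable_pair.aemeasurable hG.aestronglyMeasurable]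
    rw [h5, integral_prod _ hGi]
    refine integral_congr_ae (ae_of_all _ fun k => ?_)
    exact integral_prod_sub_c μ F hF k

/-- the operator of the recursion -/
noncomputable def TT (z : ℂ) (F : (Addr → ℕ) → ℂ) (N : Addr → ℕ) : ℂ :=
  1 - z + z * ∏ i ∈ Finset.range (N []), F (sub N i)

theorem TT_measurable (z : ℂ) {F : (Addr → ℕ) → ℂ} (hF : Measurable F) : Measurable (TT z F) :=
  meas_split (fun (k : ℕ) (f : ℕ → Addr → ℕ) => 1 - z + z * ∏ i ∈ Finset.range k, F (f i)) fun _ =>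
    measurable_const.add (measurable_const.mul
      (Finset.measurable_fun_prod _ fun i _ => hF.comp (measurable_pi_apply i)))

/-- square integrable functions with a given mean -/
structure SQ (R : ℝ) (x0 : ℂ) (F : (Addr → ℕ) → ℂ) : Prop where
  meas : Measurable F
  int : Integrable (fun N => ‖F N‖ ^ 2) (gwLaw μ)
  le : ∫ N, ‖F N‖ ^ 2 ∂(gwLaw μ) ≤ R
  mean : ∫ N, F N ∂(gwLaw μ) = x0

instance : IsProbabilityMeasure (gwLaw μ) := by
  unfold gwLaw; infer_instance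

variable {μ}
variable {R : ℝ} {x0 : ℂ} {F G : (Addr → ℕ) → ℂ}

theorem SQ.integrable (h : SQ μ R x0 F) : Integrable F (gwLaw μ) := by
  refine ((integrable_const (1 : ℝ)).add h.int).mono' h.meas.aestronglyMeasurable
    (ae_of_all _ fun N => ?_)
  change ‖F N‖ ≤ 1 + ‖F N‖ ^ 2
  nlinarith [sq_nonneg (‖F N‖ - 1), norm_nonneg (F N)]

theorem SQ.norm_le (h : SQ μ R x0 F) (hR : 1 ≤ R) : ∫ N, ‖F N‖ ∂(gwLaw μ) ≤ R := by
  have h1 : ∫ N, ‖F N‖ ∂(gwLaw μ) ≤ ∫ N, (1 + ‖F N‖ ^ 2) / 2 ∂(gwLaw μ) := by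
    refine integral_mono h.integrable.norm
      (((integrable_const (1 : ℝ)).add h.int).div_const 2) fun N => ?_
    change ‖F N‖ ≤ (1 + ‖F N‖ ^ 2) / 2
    nlinarith [sq_nonneg (‖F N‖ - 1)]
  have h2 : ∫ N, (1 + ‖F N‖ ^ 2) / 2 ∂(gwLaw μ) = (1 + ∫ N, ‖F N‖ ^ 2 ∂(gwLaw μ)) / 2 := by
    rw [integral_div, integral_add (integrable_const _) h.int]
    simp
  have := h.le
  linarith

omit [IsProbabilityMeasure μ] in
theorem mul_integrable (h : SQ μ R x0 F) (h' : SQ μ R x0 G) :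
    Integrable (fun N => F N * conj (G N)) (gwLaw μ) := by
  refine (h.int.add h'.int).mono'
    (h.meas.mul (Complex.continuous_conj.measurable.comp h'.meas)).aestronglyMeasurable
    (ae_of_all _ fun N => ?_)
  change ‖F N * conj (G N)‖ ≤ ‖F N‖ ^ 2 + ‖G N‖ ^ 2
  rw [norm_mul, RCLike.norm_conj]
  nlinarith [sq_nonneg (‖F N‖ - ‖G N‖), sq_nonneg ‖F N‖, sq_nonneg ‖G N‖]

theorem mul_norm_le (h : SQ μ R x0 F) (h' : SQ μ R x0 G) :
    ∫ N, ‖F N * conj (G N)‖ ∂(gwLaw μ) ≤ R := by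
  have h1 : ∫ N, ‖F N * conj (G N)‖ ∂(gwLaw μ) ≤
      ∫ N, (‖F N‖ ^ 2 + ‖G N‖ ^ 2) / 2 ∂(gwLaw μ) := by
    refine integral_mono (mul_integrable h h').norm ((h.int.add h'.int).div_const 2) fun N => ?_
    change ‖F N * conj (G N)‖ ≤ (‖F N‖ ^ 2 + ‖G N‖ ^ 2) / 2
    rw [norm_mul, RCLike.norm_conj]
    nlinarith [sq_nonneg (‖F N‖ - ‖G N‖)]
  have h2 : ∫ N, (‖F N‖ ^ 2 + ‖G N‖ ^ 2) / 2 ∂(gwLaw μ) =
      (∫ N, ‖F N‖ ^ 2 ∂(gwLaw μ) + ∫ N, ‖G N‖ ^ 2 ∂(gwLaw μ)) / 2 := by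
    rw [integral_div, integral_add h.int h'.int]
  have := h.le
  have := h'.le
  linarith

/-- the image of the mixed moment -/
noncomputable def aa (μ : Measure ℕ) (z y t : ℂ) : ℂ :=
  (1 - z) * conj (1 - z) + (1 - z) * conj (z - y) + (z - y) * conj (1 - z) +
    z * conj z * phc μ t

theorem pair_step {z y : ℂ} (hR : 1 ≤ R) (hR' : Integrable (fun k : ℕ => R ^ k) μ)
    (hfix : z * phc μ (1 - y) = z - y) (h : SQ μ R (1 - y) F) (h' : SQ μ R (1 - y) G) :
    Integrable (fun N => TT z F N * conj (TT z G N)) (gwLaw μ) ∧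
      ∫ N, TT z F N * conj (TT z G N) ∂(gwLaw μ) =
        aa μ z y (∫ N, F N * conj (G N) ∂(gwLaw μ)) := by
  obtain ⟨iP, eP⟩ := tree_integral μ F h.meas h.integrable (h.norm_le hR) hR'
  obtain ⟨iQ, eQ⟩ := tree_integral μ G h'.meas h'.integrable (h'.norm_le hR) hR'
  obtain ⟨iM, eM⟩ := tree_integral μ (fun N => F N * conj (G N))
    (h.meas.mul (Complex.continuous_conj.measurable.comp h'.meas)) (mul_integrable h h')
    (mul_norm_le h h') hR'
  rw [h.mean] at eP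
  rw [h'.mean] at eQ
  set P : (Addr → ℕ) → ℂ := fun N => ∏ i ∈ Finset.range (N []), F (sub N i) with hP
  set Q : (Addr → ℕ) → ℂ := fun N => ∏ i ∈ Finset.range (N []), G (sub N i) with hQ
  have hPQ : (fun N : Addr → ℕ => ∏ i ∈ Finset.range (N []),
      (F (sub N i) * conj (G (sub N i)))) = fun N => P N * conj (Q N) := by
    funext N
    rw [Finset.prod_mul_distrib, hP, hQ]
    simp only [map_prod]
  rw [hPQ] at iM
  have eM' : ∫ N, P N * conj (Q N) ∂(gwLaw μ) = phc μ (∫ N, F N * conj (G N) ∂(gwLaw μ)) := by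
    rw [← eM]
    exact integral_congr_ae (ae_of_all _ fun N => (congrFun hPQ N).symm)
  have iQc : Integrable (fun N => conj (Q N)) (gwLaw μ) := by
    have := (LinearIsometryEquiv.integrable_comp_iff (Complex.conjLIE)).2 iQ
    exact this
  have eQc : ∫ N, conj (Q N) ∂(gwLaw μ) = conj (phc μ (1 - y)) := by
    rw [integral_conj, eQ]
  have e : (fun N => TT z F N * conj (TT z G N)) = fun N =>
      (((1 - z) * conj (1 - z) + (1 - z) * conj z * conj (Q N)) + z * conj (1 - z) * P N) +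
        z * conj z * (P N * conj (Q N)) := by
    funext N
    change (1 - z + z * P N) * conj (1 - z + z * Q N) = _
    simp only [map_add, _root_.map_sub, map_mul, map_one]
    ring
  have i1 : Integrable (fun N => (1 - z) * conj (1 - z) + (1 - z) * conj z * conj (Q N))
      (gwLaw μ) := (integrable_const _).add (iQc.const_mul _)
  have i2 : Integrable (fun N => ((1 - z) * conj (1 - z) + (1 - z) * conj z * conj (Q N)) +
      z * conj (1 - z) * P N) (gwLaw μ) := i1.add (iP.const_mul _)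
  have i3 : Integrable (fun N => z * conj z * (P N * conj (Q N))) (gwLaw μ) := iM.const_mul _
  rw [e]
  refine ⟨i2.add i3, ?_⟩
  have eP' : ∫ N, P N ∂(gwLaw μ) = phc μ (1 - y) := eP
  have j1 : ∫ N, z * conj z * (P N * conj (Q N)) ∂(gwLaw μ) =
      z * conj z * phc μ (∫ N, F N * conj (G N) ∂(gwLaw μ)) := by
    rw [integral_const_mul, eM']
  have j2 : ∫ N, z * conj (1 - z) * P N ∂(gwLaw μ) = z * conj (1 - z) * phc μ (1 - y) := by
    rw [integral_const_mul, eP']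
  have j3 : ∫ N, (1 - z) * conj z * conj (Q N) ∂(gwLaw μ) =
      (1 - z) * conj z * conj (phc μ (1 - y)) := by
    rw [integral_const_mul, eQc]
  rw [integral_add i2 i3, integral_add i1 (iP.const_mul _),
    integral_add (integrable_const _) (iQc.const_mul _), j1, j2, j3]
  unfold aa
  have hc : conj z * conj (phc μ (1 - y)) = conj (z - y) := by
    rw [← map_mul, hfix]
  simp only [integral_const, probReal_univ, one_smul]
  linear_combination (1 - z) * hc + conj (1 - z) * hfix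

theorem mean_step {z y : ℂ} (hR : 1 ≤ R) (hR' : Integrable (fun k : ℕ => R ^ k) μ)
    (hfix : z * phc μ (1 - y) = z - y) (h : SQ μ R (1 - y) F) :
    ∫ N, TT z F N ∂(gwLaw μ) = 1 - y := by
  obtain ⟨iP, eP⟩ := tree_integral μ F h.meas h.integrable (h.norm_le hR) hR'
  rw [h.mean] at eP
  unfold TT
  rw [integral_add (integrable_const _) (iP.const_mul _), integral_const_mul, eP, hfix]
  simp

/-- the real recursion of the second moments -/
noncomputable def ar (μ : Measure ℕ) (z y : ℂ) (t : ℝ) : ℝ :=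
  ‖1 - z‖ ^ 2 + 2 * ((1 - z) * conj (z - y)).re + ‖z‖ ^ 2 * ph μ t

omit [IsProbabilityMeasure μ] in
theorem aa_ofReal (z y : ℂ) (t : ℝ) : aa μ z y (t : ℂ) = (ar μ z y t : ℂ) := by
  unfold aa ar
  rw [phc_ofReal, Complex.mul_conj, Complex.mul_conj, Complex.normSq_eq_norm_sq,
    Complex.normSq_eq_norm_sq]
  have h1 : (1 - z) * conj (z - y) + (z - y) * conj (1 - z) =
      ((2 * ((1 - z) * conj (z - y)).re : ℝ) : ℂ) := by
    have h2 : (z - y) * conj (1 - z) = conj ((1 - z) * conj (z - y)) := by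
      rw [map_mul, Complex.conj_conj, mul_comm]
    rw [h2, Complex.add_conj]
  have e : ((‖1 - z‖ ^ 2 : ℝ) : ℂ) + (1 - z) * conj (z - y) + (z - y) * conj (1 - z) =
      ((‖1 - z‖ ^ 2 : ℝ) : ℂ) + ((1 - z) * conj (z - y) + (z - y) * conj (1 - z)) := by ring
  rw [e, h1]
  push_cast
  ring

omit [IsProbabilityMeasure μ] in
theorem ph_mono (hR' : Integrable (fun k : ℕ => R ^ k) μ) {s t : ℝ} (hs : 0 ≤ s) (hst : s ≤ t)
    (ht : t ≤ R) : ph μ s ≤ ph μ t := by
  have hi : ∀ u : ℝ, 0 ≤ u → u ≤ R → Integrable (fun k : ℕ => u ^ k) μ := by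
    intro u h0 h1
    refine hR'.mono' (measurable_of_countable _).aestronglyMeasurable (ae_of_all _ fun k => ?_)
    rw [Real.norm_eq_abs, abs_of_nonneg (pow_nonneg h0 k)]
    exact pow_le_pow_left₀ h0 h1 k
  exact integral_mono (hi s hs (hst.trans ht)) (hi t (hs.trans hst) ht)
    fun k => pow_le_pow_left₀ hs hst k

theorem norm_sq_integral (F : (Addr → ℕ) → ℂ) :
    ∫ N, F N * conj (F N) ∂(gwLaw μ) = ((∫ N, ‖F N‖ ^ 2 ∂(gwLaw μ) : ℝ) : ℂ) := by
  rw [← integral_complex_ofReal]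
  refine integral_congr_ae (ae_of_all _ fun N => ?_)
  change F N * conj (F N) = ((‖F N‖ ^ 2 : ℝ) : ℂ)
  rw [Complex.mul_conj, Complex.normSq_eq_norm_sq]

theorem SQ_step {z y : ℂ} (hR : 1 ≤ R) (hR' : Integrable (fun k : ℕ => R ^ k) μ)
    (hfix : z * phc μ (1 - y) = z - y) (har : ar μ z y R ≤ R) (h : SQ μ R (1 - y) F) :
    SQ μ R (1 - y) (TT z F) ∧ ∫ N, ‖TT z F N‖ ^ 2 ∂(gwLaw μ) =
      ar μ z y (∫ N, ‖F N‖ ^ 2 ∂(gwLaw μ)) := by
  obtain ⟨h1, h2⟩ := pair_step hR hR' hfix h h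
  rw [norm_sq_integral, norm_sq_integral, aa_ofReal] at h2
  have h3 : ∫ N, ‖TT z F N‖ ^ 2 ∂(gwLaw μ) = ar μ z y (∫ N, ‖F N‖ ^ 2 ∂(gwLaw μ)) := by
    exact_mod_cast h2
  have h4 : Integrable (fun N => ‖TT z F N‖ ^ 2) (gwLaw μ) := by
    refine h1.norm.congr (ae_of_all _ fun N => ?_)
    change ‖TT z F N * conj (TT z F N)‖ = ‖TT z F N‖ ^ 2
    rw [norm_mul, RCLike.norm_conj, sq]
  refine ⟨⟨TT_measurable z h.meas, h4, ?_, mean_step hR hR' hfix h⟩, h3⟩
  rw [h3]
  refine le_trans ?_ har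
  unfold ar
  have h5 : ph μ (∫ N, ‖F N‖ ^ 2 ∂(gwLaw μ)) ≤ ph μ R :=
    ph_mono hR' (integral_nonneg fun N => by positivity) h.le le_rfl
  have h6 : ‖z‖ ^ 2 * ph μ (∫ N, ‖F N‖ ^ 2 ∂(gwLaw μ)) ≤ ‖z‖ ^ 2 * ph μ R :=
    mul_le_mul_of_nonneg_left h5 (by positivity)
  linarith

end Pool.Agent.Q297.GA
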