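import Pool.Agent.Q297.GA3

/-!
# Geometric decay of the increments
-/

set_option autoImplicit false

namespace Pool.Agent.Q297.GA

open MeasureTheory ProbabilityTheory Filter Topology Q292.GWS
open scoped ENNReal ComplexConjugate

variable (μ : Measure ℕ) [IsProbabilityMeasure μ]

/-- the hypotheses on the pair `(z, y)` -/
structure OK (R ρ : ℝ) (z y : ℂ) : Prop where
  fix : z * phc μ (1 - y) = z - y
  ar_le : ar μ z y R ≤ R
  rho : ‖z‖ ^ 2 * ph' μ R ≤ ρ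
  start : ‖1 - y‖ ^ 2 ≤ R

/-- the hypotheses on the constants -/
structure Cst (R ρ : ℝ) : Prop where
  one_le : 1 ≤ R
  rho0 : 0 ≤ ρ
  rho1 : ρ < 1
  pw : Integrable (fun k : ℕ => R ^ k) μ
  pw' : Integrable (fun k : ℕ => (k : ℝ) * R ^ (k - 1)) μ

/-- second moments -/
noncomputable def al (z y : ℂ) : ℕ → ℝ
  | 0 => ‖1 - y‖ ^ 2
  | n + 1 => ar μ z y (al z y n)

theorem pow_diff' {s t b : ℝ} (hs : 0 ≤ s) (hst : s ≤ t) (htb : t ≤ b) (k : ℕ) :
    t ^ k - s ^ k ≤ (k : ℝ) * b ^ (k - 1) * (t - s) := by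
  induction k with
  | zero => simp
  | succ k ih =>
    have ht : 0 ≤ t := hs.trans hst
    have hb : 0 ≤ b := ht.trans htb
    rcases Nat.eq_zero_or_pos k with rfl | hk
    · simp
    · obtain ⟨j, rfl⟩ : ∃ j, k = j + 1 := ⟨k - 1, by omega⟩
      simp only [Nat.add_sub_cancel] at ih ⊢
      push_cast at ih ⊢
      have e1 : t ^ (j + 1 + 1) - s ^ (j + 1 + 1) =
          t * (t ^ (j + 1) - s ^ (j + 1)) + (t - s) * s ^ (j + 1) := by ring
      rw [e1]
      have h2 : 0 ≤ ((j : ℝ) + 1) * b ^ j * (t - s) :=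
        mul_nonneg (by positivity) (by linarith)
      have h3 : t * (t ^ (j + 1) - s ^ (j + 1)) ≤ b * (((j : ℝ) + 1) * b ^ j * (t - s)) :=
        (mul_le_mul_of_nonneg_left ih ht).trans (mul_le_mul_of_nonneg_right htb h2)
      have h4 : (t - s) * s ^ (j + 1) ≤ (t - s) * b ^ (j + 1) :=
        mul_le_mul_of_nonneg_left (pow_le_pow_left₀ hs (hst.trans htb) _) (by linarith)
      calc _ ≤ b * (((j : ℝ) + 1) * b ^ j * (t - s)) + (t - s) * b ^ (j + 1) := add_le_add h3 h4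
        _ = _ := by ring

variable {μ}
variable {R ρ : ℝ} {z y : ℂ} {F G : (Addr → ℕ) → ℂ}

omit [IsProbabilityMeasure μ] in
theorem ph_lip (hc : Cst μ R ρ) {s t : ℝ} (hs : 0 ≤ s) (hst : s ≤ t) (ht : t ≤ R) :
    ph μ t - ph μ s ≤ ph' μ R * (t - s) := by
  have hi : ∀ u : ℝ, 0 ≤ u → u ≤ R → Integrable (fun k : ℕ => u ^ k) μ := by
    intro u h0 h1
    refine hc.pw.mono' (measurable_of_countable _).aestronglyMeasurable (ae_of_all _ fun k => ?_)
    rw [Real.norm_eq_abs, abs_of_nonneg (pow_nonneg h0 k)]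
    exact pow_le_pow_left₀ h0 h1 k
  unfold ph ph'
  rw [← integral_sub (hi t (hs.trans hst) ht) (hi s hs (hst.trans ht)), ← integral_mul_const]
  exact integral_mono ((hi t (hs.trans hst) ht).sub (hi s hs (hst.trans ht)))
    (hc.pw'.mul_const _) fun k => pow_diff' hs hst ht k

omit [IsProbabilityMeasure μ] in
theorem ar_lip (hc : Cst μ R ρ) (h : OK μ R ρ z y) {s t : ℝ} (hs : 0 ≤ s) (hst : s ≤ t)
    (ht : t ≤ R) : ar μ z y t - ar μ z y s ≤ ρ * (t - s) := by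
  have h1 := ph_lip hc hs hst ht
  have h2 : ar μ z y t - ar μ z y s = ‖z‖ ^ 2 * (ph μ t - ph μ s) := by
    unfold ar; ring
  rw [h2]
  calc ‖z‖ ^ 2 * (ph μ t - ph μ s) ≤ ‖z‖ ^ 2 * (ph' μ R * (t - s)) :=
        mul_le_mul_of_nonneg_left h1 (by positivity)
    _ = ‖z‖ ^ 2 * ph' μ R * (t - s) := by ring
    _ ≤ ρ * (t - s) := mul_le_mul_of_nonneg_right h.rho (by linarith)

theorem xx_TT (z x0 : ℂ) (n : ℕ) : xx z x0 (n + 1) = TT z (xx z x0 n) := by
  funext N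
  rw [xx_succ]
  rfl

theorem SQ_xx (hc : Cst μ R ρ) (h : OK μ R ρ z y) (n : ℕ) :
    SQ μ R (1 - y) (xx z (1 - y) n) ∧
      ∫ N, ‖xx z (1 - y) n N‖ ^ 2 ∂(gwLaw μ) = al μ z y n := by
  induction n with
  | zero =>
    have e : xx z (1 - y) 0 = fun _ => 1 - y := rfl
    rw [e]
    refine ⟨⟨measurable_const, integrable_const _, ?_, by simp⟩, ?_⟩
    · simpa using h.start
    · simp [al]
  | succ n ih =>
    rw [xx_TT]
    obtain ⟨h1, h2⟩ := SQ_step hc.one_le hc.pw h.fix h.ar_le ih.1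
    refine ⟨h1, ?_⟩
    rw [h2, ih.2]
    rfl

theorem cross (hc : Cst μ R ρ) (h : OK μ R ρ z y) (Y : ℕ → (Addr → ℕ) → ℂ)
    (hY : ∀ n, SQ μ R (1 - y) (Y n)) (hs : ∀ n, Y (n + 1) = TT z (Y n)) (n : ℕ) :
    ∫ N, Y n N * conj (xx z (1 - y) n N) ∂(gwLaw μ) = (al μ z y n : ℂ) := by
  induction n with
  | zero =>
    have e : xx z (1 - y) 0 = fun _ => 1 - y := rfl
    rw [e, integral_mul_const, (hY 0).mean, Complex.mul_conj, Complex.normSq_eq_norm_sq]
    rfl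
  | succ n ih =>
    rw [hs, xx_TT]
    obtain ⟨-, h2⟩ := pair_step hc.one_le hc.pw h.fix (hY n) (SQ_xx hc h n).1
    rw [h2, ih, aa_ofReal]
    rfl

omit [IsProbabilityMeasure μ] in
theorem diff_sq {x0 : ℂ} (hF : SQ μ R x0 F) (hG : SQ μ R x0 G) {a : ℝ}
    (h1 : ∫ N, F N * conj (G N) ∂(gwLaw μ) = (a : ℂ)) (h2 : ∫ N, ‖G N‖ ^ 2 ∂(gwLaw μ) = a) :
    Integrable (fun N => ‖F N - G N‖ ^ 2) (gwLaw μ) ∧
    ∫ N, ‖F N - G N‖ ^ 2 ∂(gwLaw μ) = ∫ N, ‖F N‖ ^ 2 ∂(gwLaw μ) - a := by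
  have e : (fun N => ‖F N - G N‖ ^ 2) =
      fun N => (‖F N‖ ^ 2 + ‖G N‖ ^ 2) - 2 * (F N * conj (G N)).re := by
    funext N
    rw [← Complex.normSq_eq_norm_sq, Complex.normSq_sub, Complex.normSq_eq_norm_sq,
      Complex.normSq_eq_norm_sq]
  have i1 := mul_integrable hF hG
  have i2 : Integrable (fun N => (F N * conj (G N)).re) (gwLaw μ) := i1.re
  have e2 : ∫ N, (F N * conj (G N)).re ∂(gwLaw μ) = a := by
    have h3 := integral_re i1
    rw [h1] at h3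
    simpa using h3
  rw [e]
  have i3 : Integrable (fun N => ‖F N‖ ^ 2 + ‖G N‖ ^ 2) (gwLaw μ) := hF.int.add hG.int
  have i4 : Integrable (fun N => 2 * (F N * conj (G N)).re) (gwLaw μ) := i2.const_mul 2
  refine ⟨i3.sub i4, ?_⟩
  rw [integral_sub i3 i4, integral_add hF.int hG.int, integral_const_mul, e2, h2]
  ring

theorem al_mem (hc : Cst μ R ρ) (h : OK μ R ρ z y) (n : ℕ) : 0 ≤ al μ z y n ∧ al μ z y n ≤ R := by
  obtain ⟨h1, h2⟩ := SQ_xx hc h n
  rw [← h2]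
  exact ⟨integral_nonneg fun N => by positivity, h1.le⟩

theorem incr (hc : Cst μ R ρ) (h : OK μ R ρ z y) (n : ℕ) :
    Integrable (fun N => ‖xx z (1 - y) (n + 1) N - xx z (1 - y) n N‖ ^ 2) (gwLaw μ) ∧
    ∫ N, ‖xx z (1 - y) (n + 1) N - xx z (1 - y) n N‖ ^ 2 ∂(gwLaw μ) =
      al μ z y (n + 1) - al μ z y n := by
  have h1 := cross hc h (fun n => xx z (1 - y) (n + 1)) (fun n => (SQ_xx hc h (n + 1)).1)
    (fun n => xx_TT _ _ _) n
  have h2 := diff_sq (SQ_xx hc h (n + 1)).1 (SQ_xx hc h n).1 h1 (SQ_xx hc h n).2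
  rw [(SQ_xx hc h (n + 1)).2] at h2
  exact h2

theorem al_decay (hc : Cst μ R ρ) (h : OK μ R ρ z y) (n : ℕ) :
    0 ≤ al μ z y (n + 1) - al μ z y n ∧ al μ z y (n + 1) - al μ z y n ≤ R * ρ ^ n := by
  have hpos : ∀ n, 0 ≤ al μ z y (n + 1) - al μ z y n := fun n => by
    rw [← (incr hc h n).2]
    exact integral_nonneg fun N => by positivity
  refine ⟨hpos n, ?_⟩
  induction n with
  | zero =>
    have h1 := (al_mem hc h 1).2
    have h2 := (al_mem hc h 0).1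
    simp only [pow_zero, mul_one]
    linarith
  | succ n ih =>
    have h1 := ar_lip hc h (al_mem hc h n).1 (by linarith [hpos n]) (al_mem hc h (n + 1)).2
    have e1 : al μ z y (n + 1 + 1) = ar μ z y (al μ z y (n + 1)) := rfl
    have e2 : al μ z y (n + 1) = ar μ z y (al μ z y n) := rfl
    rw [e1]
    nth_rewrite 2 [e2]
    refine h1.trans ?_
    rw [pow_succ]
    nlinarith [hc.rho0]

/-- from second to first moments -/
theorem first_of_second {D : (Addr → ℕ) → ℂ} (hD : Measurable D)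
    (hi : Integrable (fun N => ‖D N‖ ^ 2) (gwLaw μ)) {s : ℝ} (hs : 0 < s)
    (h : ∫ N, ‖D N‖ ^ 2 ∂(gwLaw μ) ≤ s ^ 2) :
    ∫⁻ N, ‖D N‖ₑ ∂(gwLaw μ) ≤ ENNReal.ofReal s := by
  have hDi : Integrable D (gwLaw μ) := by
    refine ((integrable_const (1 : ℝ)).add hi).mono' hD.aestronglyMeasurable
      (ae_of_all _ fun N => ?_)
    change ‖D N‖ ≤ 1 + ‖D N‖ ^ 2
    nlinarith [sq_nonneg (‖D N‖ - 1), norm_nonneg (D N)]
  rw [← ofReal_integral_norm_eq_lintegral_enorm hDi]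
  apply ENNReal.ofReal_le_ofReal
  have h1 : ∫ N, ‖D N‖ ∂(gwLaw μ) ≤ ∫ N, (s / 2 + ‖D N‖ ^ 2 * (1 / (2 * s))) ∂(gwLaw μ) := by
    refine integral_mono hDi.norm ((integrable_const _).add (hi.mul_const _)) fun N => ?_
    change ‖D N‖ ≤ s / 2 + ‖D N‖ ^ 2 * (1 / (2 * s))
    have h2 : s / 2 + ‖D N‖ ^ 2 * (1 / (2 * s)) = (s ^ 2 + ‖D N‖ ^ 2) / (2 * s) := by
      field_simp
    rw [h2, le_div_iff₀ (by positivity)]
    nlinarith [sq_nonneg (s - ‖D N‖)]
  rw [integral_add (integrable_const _) (hi.mul_const _), integral_mul_const] at h1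
  simp only [integral_const, probReal_univ, one_smul] at h1
  have h3 : (∫ N, ‖D N‖ ^ 2 ∂(gwLaw μ)) * (1 / (2 * s)) ≤ s ^ 2 * (1 / (2 * s)) :=
    mul_le_mul_of_nonneg_right h (by positivity)
  have h4 : s ^ 2 * (1 / (2 * s)) = s / 2 := by field_simp
  linarith

theorem xx_measurable (z x0 : ℂ) (n : ℕ) : Measurable (xx z x0 n) := by
  induction n with
  | zero => exact measurable_const
  | succ n ih =>
    rw [xx_TT]
    exact TT_measurable z ih

theorem first_moment (hc : Cst μ R ρ) (h : OK μ R ρ z y) {σ : ℝ} (hσ : 0 < σ) (hσ2 : ρ ≤ σ ^ 2)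
    (n : ℕ) : ∫⁻ N, ‖xx z (1 - y) (n + 1) N - xx z (1 - y) n N‖ₑ ∂(gwLaw μ) ≤
      ENNReal.ofReal (R * σ ^ n) := by
  obtain ⟨h1, h2⟩ := incr hc h n
  have hR : 0 < R := by linarith [hc.one_le]
  have hm : Measurable fun N => xx z (1 - y) (n + 1) N - xx z (1 - y) n N :=
    (xx_measurable _ _ _).sub (xx_measurable _ _ _)
  refine first_of_second hm h1 (by positivity) ?_
  rw [h2]
  refine (al_decay hc h n).2.trans ?_
  have h3 : ρ ^ n ≤ (σ ^ 2) ^ n := pow_le_pow_left₀ hc.rho0 hσ2 n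
  have e : (R * σ ^ n) ^ 2 = R * (R * (σ ^ 2) ^ n) := by ring
  rw [e]
  have h4 : (σ ^ 2) ^ n ≤ R * (σ ^ 2) ^ n := le_mul_of_one_le_left (by positivity) hc.one_le
  exact mul_le_mul_of_nonneg_left (h3.trans h4) hR.le

/-- convergence to a fixed function -/
theorem to_fixed (hc : Cst μ R ρ) (h : OK μ R ρ z y) {X : (Addr → ℕ) → ℂ}
    (hX : SQ μ R (1 - y) X) (hfix : TT z X = X) :
    ∀ᵐ N ∂(gwLaw μ), Tendsto (fun n => xx z (1 - y) n N) atTop (𝓝 (X N)) := by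
  set ω := ∫ N, ‖X N‖ ^ 2 ∂(gwLaw μ) with hω
  have hωfix : ω = ar μ z y ω := by
    have h1 := (SQ_step hc.one_le hc.pw h.fix h.ar_le hX).2
    rw [hfix] at h1
    exact h1
  have h1 := fun n => cross hc h (fun _ => X) (fun _ => hX) (fun _ => hfix.symm) n
  have h2 := fun n => diff_sq hX (SQ_xx hc h n).1 (h1 n) (SQ_xx hc h n).2
  rw [← hω] at h2
  have hle : ∀ n, al μ z y n ≤ ω := by
    intro n
    have h3 : 0 ≤ ω - al μ z y n := by
      rw [← (h2 n).2]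
      exact integral_nonneg fun N => by positivity
    linarith
  have hdec : ∀ n, ω - al μ z y n ≤ R * ρ ^ n := by
    intro n
    induction n with
    | zero =>
      have := hX.le
      have := (al_mem hc h 0).1
      simp only [pow_zero, mul_one]
      linarith
    | succ n ih =>
      have h3 := ar_lip hc h (al_mem hc h n).1 (hle n) hX.le
      rw [← hωfix] at h3
      have e2 : al μ z y (n + 1) = ar μ z y (al μ z y n) := rfl
      rw [e2]
      refine h3.trans ?_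
      rw [pow_succ]
      nlinarith [hc.rho0]
  have hR : 0 < R := by linarith [hc.one_le]
  have hsum : ∫⁻ N, ∑' n, ENNReal.ofReal (‖X N - xx z (1 - y) n N‖ ^ 2) ∂(gwLaw μ) ≠ ∞ := by
    have hm : ∀ n, AEMeasurable (fun N => ENNReal.ofReal (‖X N - xx z (1 - y) n N‖ ^ 2))
        (gwLaw μ) := fun n =>
      ((hX.meas.sub (xx_measurable _ _ _)).norm.pow_const 2).ennreal_ofReal.aemeasurable
    rw [lintegral_tsum hm]
    have h4 : ∀ n, ∫⁻ N, ENNReal.ofReal (‖X N - xx z (1 - y) n N‖ ^ 2) ∂(gwLaw μ) ≤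
        ENNReal.ofReal (R * ρ ^ n) := by
      intro n
      rw [← ofReal_integral_eq_lintegral_ofReal (h2 n).1 (ae_of_all _ fun N => by positivity)]
      apply ENNReal.ofReal_le_ofReal
      rw [(h2 n).2]
      exact hdec n
    refine ne_top_of_le_ne_top ?_ (ENNReal.tsum_le_tsum h4)
    have h5 : Summable fun n : ℕ => R * ρ ^ n :=
      (summable_geometric_of_lt_one hc.rho0 hc.rho1).mul_left R
    rw [← ENNReal.ofReal_tsum_of_nonneg (fun n => mul_nonneg hR.le (pow_nonneg hc.rho0 n)) h5]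
    exact ENNReal.ofReal_ne_top
  have hmeas : Measurable fun N => ∑' n, ENNReal.ofReal (‖X N - xx z (1 - y) n N‖ ^ 2) :=
    Measurable.tsum fun n => ((hX.meas.sub (xx_measurable _ _ _)).norm.pow_const 2).ennreal_ofReal
  filter_upwards [ae_lt_top hmeas hsum] with N hN
  have h6 := ENNReal.tendsto_atTop_zero_of_tsum_ne_top hN.ne
  have h7 : Tendsto (fun n => ‖X N - xx z (1 - y) n N‖ ^ 2) atTop (𝓝 0) := by
    have := (ENNReal.tendsto_toReal ENNReal.zero_ne_top).comp h6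
    refine this.congr fun n => ?_
    exact ENNReal.toReal_ofReal (by positivity)
  have h8 : Tendsto (fun n => ‖X N - xx z (1 - y) n N‖) atTop (𝓝 0) := by
    have := (Real.continuous_sqrt.tendsto 0).comp h7
    rw [Real.sqrt_zero] at this
    refine this.congr fun n => ?_
    exact Real.sqrt_sq (norm_nonneg _)
  rw [tendsto_iff_norm_sub_tendsto_zero]
  refine h8.congr fun n => ?_
  rw [norm_sub_rev]

end Pool.Agent.Q297.GA
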