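import Pool.Agent.Q297.GA4

/-!
# Uniform convergence on a small disc
-/

set_option autoImplicit false

namespace Pool.Agent.Q297.GA

open MeasureTheory ProbabilityTheory Filter Topology Q292.GWS
open scoped ENNReal ComplexConjugate

theorem xx_joint (n : ℕ) :
    Measurable fun w : (ℂ × ℂ) × (Addr → ℕ) => xx w.1.1 w.1.2 n w.2 := by
  induction n with
  | zero => exact measurable_fst.snd
  | succ n ih =>
    have e : (fun w : (ℂ × ℂ) × (Addr → ℕ) => xx w.1.1 w.1.2 (n + 1) w.2) =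
        fun w => (fun v : ℕ × ((ℂ × ℂ) × (ℕ → Addr → ℕ)) => 1 - v.2.1.1 + v.2.1.1 *
          ∏ i ∈ Finset.range v.1, xx v.2.1.1 v.2.1.2 n (v.2.2 i)) (w.2 [], (w.1, sub w.2)) := by
      funext w
      rw [xx_succ]
    rw [e]
    have hG : Measurable (fun v : ℕ × ((ℂ × ℂ) × (ℕ → Addr → ℕ)) => 1 - v.2.1.1 + v.2.1.1 *
          ∏ i ∈ Finset.range v.1, xx v.2.1.1 v.2.1.2 n (v.2.2 i)) := by
      refine measurable_from_prod_countable_right fun k => ?_
      change Measurable fun v : (ℂ × ℂ) × (ℕ → Addr → ℕ) => 1 - v.1.1 + v.1.1 *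
          ∏ i ∈ Finset.range k, xx v.1.1 v.1.2 n (v.2 i)
      have hz : Measurable fun v : (ℂ × ℂ) × (ℕ → Addr → ℕ) => v.1.1 := measurable_fst.fst
      refine (measurable_const.sub hz).add (hz.mul ?_)
      refine Finset.measurable_fun_prod _ fun i _ => ?_
      have h1 : Measurable fun v : (ℂ × ℂ) × (ℕ → Addr → ℕ) => (v.1, v.2 i) :=
        measurable_fst.prodMk ((measurable_pi_apply i).comp measurable_snd)
      exact ih.comp h1
    refine hG.comp ?_
    refine Measurable.prodMk ((measurable_pi_apply _).comp measurable_snd) ?_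
    exact measurable_fst.prodMk (measurable_sub.comp measurable_snd)

theorem circle_bound {f : ℂ → ℂ} {δ : ℝ} (hδ : 0 < δ)
    (hf : DifferentiableOn ℂ f (Metric.closedBall 0 δ)) {w : ℂ} (hw : ‖w‖ ≤ δ / 2) :
    ‖f w‖ₑ ≤ ∫⁻ θ in Set.Ioc 0 (2 * Real.pi), ‖f (circleMap 0 δ θ)‖ₑ := by
  have hwb : w ∈ Metric.ball (0 : ℂ) δ := by
    rw [Metric.mem_ball, dist_zero_right]; linarith
  have h := hf.circleIntegral_sub_inv_smul hwb
  have h2 : ‖(2 * Real.pi * Complex.I : ℂ) • f w‖ₑ ≤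
      ∫⁻ θ in Set.Ioc 0 (2 * Real.pi), 2 * ‖f (circleMap 0 δ θ)‖ₑ := by
    rw [← h, circleIntegral, intervalIntegral.integral_of_le (by positivity)]
    refine (enorm_integral_le_lintegral_enorm _).trans ?_
    refine lintegral_mono fun θ => ?_
    change ‖deriv (circleMap 0 δ) θ • (circleMap 0 δ θ - w)⁻¹ • f (circleMap 0 δ θ)‖ₑ ≤
      2 * ‖f (circleMap 0 δ θ)‖ₑ
    rw [smul_eq_mul, smul_eq_mul, ← mul_assoc, enorm_mul]
    refine mul_le_mul' ?_ le_rfl
    rw [← ofReal_norm, norm_mul, norm_inv, deriv_circleMap, norm_mul, Complex.norm_I,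
      norm_circleMap_zero, mul_one, abs_of_pos hδ]
    have h3 : δ / 2 ≤ ‖circleMap 0 δ θ - w‖ := by
      have h4 := norm_sub_norm_le (circleMap 0 δ θ) w
      rw [norm_circleMap_zero, abs_of_pos hδ] at h4
      linarith
    have h5 : δ * ‖circleMap 0 δ θ - w‖⁻¹ ≤ 2 := by
      rw [← div_eq_mul_inv, div_le_iff₀ (by linarith)]
      linarith
    calc ENNReal.ofReal (δ * ‖circleMap 0 δ θ - w‖⁻¹) ≤ ENNReal.ofReal 2 :=
          ENNReal.ofReal_le_ofReal h5
      _ = 2 := by simp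
  rw [lintegral_const_mul' _ _ (by simp), smul_eq_mul, enorm_mul] at h2
  have h6 : (2 : ℝ≥0∞) ≤ ‖(2 * Real.pi * Complex.I : ℂ)‖ₑ := by
    rw [← ofReal_norm, norm_mul, norm_mul, Complex.norm_I, mul_one, Complex.norm_ofNat,
      Complex.norm_real, Real.norm_eq_abs, abs_of_pos Real.pi_pos]
    calc (2 : ℝ≥0∞) = ENNReal.ofReal 2 := by simp
      _ ≤ _ := ENNReal.ofReal_le_ofReal (by linarith [Real.pi_gt_three])
  have h7 : 2 * ‖f w‖ₑ ≤ 2 * ∫⁻ θ in Set.Ioc 0 (2 * Real.pi), ‖f (circleMap 0 δ θ)‖ₑ :=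
    (mul_le_mul' h6 le_rfl).trans h2
  exact (ENNReal.mul_le_mul_iff_right (by simp) (by simp)).1 h7

variable {μ : Measure ℕ} [IsProbabilityMeasure μ] {R ρ : ℝ}

theorem uniform (hc : Cst μ R ρ) {σ : ℝ} (hσ : 0 < σ) (hσ1 : σ < 1) (hσ2 : ρ ≤ σ ^ 2) {δ δ' : ℝ}
    (hδ : 0 < δ) (hδ' : δ < δ') (Z : ℂ → ℂ) (hZ : DifferentiableOn ℂ Z (Metric.ball 0 δ'))
    (hOK : ∀ y, ‖y‖ = δ → OK μ R ρ (Z y) y) :
    ∀ᵐ N ∂(gwLaw μ), ∃ h : ℂ → ℂ, DifferentiableOn ℂ h (Metric.ball 0 (δ / 2)) ∧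
      ∀ y ∈ Metric.ball (0 : ℂ) (δ / 2),
        Tendsto (fun n => xx (Z y) (1 - y) n N) atTop (𝓝 (h y)) := by
  have hcirc : ∀ θ, ‖circleMap 0 δ θ‖ = δ := fun θ => by
    rw [norm_circleMap_zero, abs_of_pos hδ]
  have hZc : Continuous fun θ => Z (circleMap 0 δ θ) :=
    hZ.continuousOn.comp_continuous (continuous_circleMap 0 δ) fun θ => by
      rw [Metric.mem_ball, dist_zero_right, hcirc]; exact hδ'
  set D : ℕ → (Addr → ℕ) → ℝ → ℂ := fun n N θ =>
    xx (Z (circleMap 0 δ θ)) (1 - circleMap 0 δ θ) (n + 1) N -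
      xx (Z (circleMap 0 δ θ)) (1 - circleMap 0 δ θ) n N with hD
  have hDm : ∀ n, Measurable (Function.uncurry (D n)) := by
    intro n
    have h1 : Measurable fun v : (Addr → ℕ) × ℝ =>
        ((Z (circleMap 0 δ v.2), 1 - circleMap 0 δ v.2), v.1) :=
      ((hZc.measurable.comp measurable_snd).prodMk (measurable_const.sub
        ((continuous_circleMap 0 δ).measurable.comp measurable_snd))).prodMk measurable_fst
    exact ((xx_joint (n + 1)).comp h1).sub ((xx_joint n).comp h1)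
  set I : ℕ → (Addr → ℕ) → ℝ≥0∞ := fun n N =>
    ∫⁻ θ in Set.Ioc 0 (2 * Real.pi), ‖D n N θ‖ₑ with hI
  have hIm : ∀ n, Measurable (I n) := fun n =>
    Measurable.lintegral_prod_right' (f := fun v : (Addr → ℕ) × ℝ => ‖D n v.1 v.2‖ₑ)
      (hDm n).enorm
  have hIint : ∀ n, ∫⁻ N, I n N ∂(gwLaw μ) ≤
      ENNReal.ofReal (R * σ ^ n) * ENNReal.ofReal (2 * Real.pi) := by
    intro n
    have h1 : ∫⁻ N, I n N ∂(gwLaw μ) =
        ∫⁻ θ in Set.Ioc 0 (2 * Real.pi), ∫⁻ N, ‖D n N θ‖ₑ ∂(gwLaw μ) :=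
      lintegral_lintegral_swap (hDm n).enorm.aemeasurable
    rw [h1]
    calc ∫⁻ θ in Set.Ioc 0 (2 * Real.pi), ∫⁻ N, ‖D n N θ‖ₑ ∂(gwLaw μ)
        ≤ ∫⁻ _ in Set.Ioc 0 (2 * Real.pi), ENNReal.ofReal (R * σ ^ n) := by
          refine lintegral_mono fun θ => ?_
          exact first_moment hc (hOK _ (hcirc θ)) hσ hσ2 n
      _ = _ := by
          rw [setLIntegral_const, Real.volume_Ioc, sub_zero]
  have hR : 0 < R := by linarith [hc.one_le]
  have hsum : ∫⁻ N, ∑' n, I n N ∂(gwLaw μ) ≠ ∞ := by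
    rw [lintegral_tsum fun n => (hIm n).aemeasurable]
    refine ne_top_of_le_ne_top ?_ (ENNReal.tsum_le_tsum hIint)
    rw [ENNReal.tsum_mul_right]
    refine ENNReal.mul_ne_top ?_ ENNReal.ofReal_ne_top
    have h5 : Summable fun n : ℕ => R * σ ^ n :=
      (summable_geometric_of_lt_one hσ.le hσ1).mul_left R
    rw [← ENNReal.ofReal_tsum_of_nonneg (fun n => by positivity) h5]
    exact ENNReal.ofReal_ne_top
  filter_upwards [ae_lt_top (Measurable.tsum hIm) hsum] with N hN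
  have hfin : ∀ n, I n N ≠ ∞ := fun n => ENNReal.ne_top_of_tsum_ne_top hN.ne n
  have hsummable : Summable fun n => (I n N).toReal := ENNReal.summable_toReal hN.ne
  have hdiff : ∀ n, DifferentiableOn ℂ (fun y => xx (Z y) (1 - y) n N) (Metric.ball 0 δ') :=
    fun n => xx_differentiable _ Z (fun y => 1 - y) hZ
      ((differentiableOn_const 1).sub differentiableOn_id) n N
  have hsub : Metric.closedBall (0 : ℂ) δ ⊆ Metric.ball 0 δ' :=
    Metric.closedBall_subset_ball hδ'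
  have hsub2 : Metric.ball (0 : ℂ) (δ / 2) ⊆ Metric.ball 0 δ' :=
    Metric.ball_subset_ball (by linarith)
  refine limit_analytic (fun n y => xx (Z y) (1 - y) n N) (Metric.ball 0 (δ / 2))
    Metric.isOpen_ball (fun n => (hdiff n).mono hsub2) (fun n => (I n N).toReal) hsummable
    (fun n y hy => ?_)
  rw [Metric.mem_ball, dist_zero_right] at hy
  have h8 := circle_bound hδ (f := fun y => xx (Z y) (1 - y) (n + 1) N - xx (Z y) (1 - y) n N)
    (((hdiff (n + 1)).sub (hdiff n)).mono hsub) hy.le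
  have h9 : ‖xx (Z y) (1 - y) (n + 1) N - xx (Z y) (1 - y) n N‖ₑ ≤ I n N := h8
  rw [← ofReal_norm] at h9
  exact (ENNReal.ofReal_le_iff_le_toReal (hfin n)).1 h9

end Pool.Agent.Q297.GA
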