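import Pool.Agent.Q297.GA5

/-!
# The parametrization of the critical point
-/

set_option autoImplicit false

namespace Pool.Agent.Q297.GA

open MeasureTheory ProbabilityTheory Filter Topology Q292.GWS
open scoped ENNReal ComplexConjugate

variable {μ : Measure ℕ}

theorem exists_radius {t : ℝ} (ht : 0 < t) (h : Integrable (fun k : ℕ => Real.exp (t * k)) μ) :
    ∃ r : ℝ, 1 < r ∧ Integrable (fun k : ℕ => (k : ℝ) * r ^ k) μ := by
  refine ⟨Real.exp (t / 2), Real.one_lt_exp_iff.2 (by positivity), ?_⟩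
  refine (h.const_mul (2 / t)).mono' (measurable_of_countable _).aestronglyMeasurable
    (ae_of_all _ fun k => ?_)
  rw [Real.norm_eq_abs, abs_of_nonneg (by positivity), ← Real.exp_nat_mul]
  have h1 : t / 2 * k ≤ Real.exp (t / 2 * k) := (Real.add_one_le_exp _).trans' (by linarith)
  have h2 : (k : ℝ) ≤ 2 / t * Real.exp (t / 2 * k) := by
    rw [div_mul_eq_mul_div, le_div_iff₀ ht]
    linarith
  have e : Real.exp (t * k) = Real.exp (t / 2 * k) * Real.exp (k * (t / 2)) := by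
    rw [← Real.exp_add]; ring_nf
  rw [e, ← mul_assoc]
  exact mul_le_mul_of_nonneg_right h2 (Real.exp_nonneg _)

theorem summable_real [IsFiniteMeasure μ] {f : ℕ → ℝ} (hf : Integrable f μ) (h0 : ∀ k, 0 ≤ f k) :
    Summable fun k => μ.real {k} * f k := by
  have h1 := hf.lintegral_lt_top
  rw [lintegral_countable'] at h1
  have h2 := ENNReal.summable_toReal h1.ne
  refine h2.congr fun k => ?_
  rw [ENNReal.toReal_mul, ENNReal.toReal_ofReal (h0 k), mul_comm]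
  rfl

/-- the function `y ↦ ∫ ∑_{i<k} (1-y)^i` -/
noncomputable def Ph (μ : Measure ℕ) (y : ℂ) : ℂ := ∫ k, ∑ i ∈ Finset.range k, (1 - y) ^ i ∂μ

theorem geo_bound {r : ℝ} {y : ℂ} (hr : 1 < r) (hy : ‖y‖ < r - 1) (k : ℕ) :
    ‖∑ i ∈ Finset.range k, (1 - y) ^ i‖ ≤ (k : ℝ) * r ^ k := by
  have h1 : ‖1 - y‖ ≤ r := by
    refine (norm_sub_le _ _).trans ?_
    rw [norm_one]; linarith
  refine (norm_sum_le _ _).trans ?_
  have h2 : ∀ i ∈ Finset.range k, ‖(1 - y) ^ i‖ ≤ r ^ k := by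
    intro i hi
    rw [norm_pow]
    exact (pow_le_pow_left₀ (norm_nonneg _) h1 i).trans
      (pow_le_pow_right₀ hr.le (Finset.mem_range.1 hi).le)
  refine (Finset.sum_le_sum h2).trans ?_
  rw [Finset.sum_const, Finset.card_range, nsmul_eq_mul]

theorem geo_integrable {r : ℝ} {y : ℂ} (hr : 1 < r) (hy : ‖y‖ < r - 1)
    (hI : Integrable (fun k : ℕ => (k : ℝ) * r ^ k) μ) :
    Integrable (fun k : ℕ => ∑ i ∈ Finset.range k, (1 - y) ^ i) μ :=
  hI.mono' (measurable_of_countable _).aestronglyMeasurable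
    (ae_of_all _ fun k => geo_bound hr hy k)

theorem Ph_diff [IsFiniteMeasure μ] {r : ℝ} (hr : 1 < r)
    (hI : Integrable (fun k : ℕ => (k : ℝ) * r ^ k) μ) :
    DifferentiableOn ℂ (Ph μ) (Metric.ball 0 (r - 1)) := by
  have h1 : DifferentiableOn ℂ
      (fun y : ℂ => ∑' k : ℕ, μ.real {k} • ∑ i ∈ Finset.range k, (1 - y) ^ i)
      (Metric.ball 0 (r - 1)) := by
    refine Complex.differentiableOn_tsum_of_summable_norm
      (summable_real hI fun k => by positivity) (fun k => ?_) Metric.isOpen_ball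
      fun k y hy => ?_
    · apply Differentiable.differentiableOn
      fun_prop
    · rw [Metric.mem_ball, dist_zero_right] at hy
      rw [norm_smul, Real.norm_eq_abs, abs_of_nonneg measureReal_nonneg]
      exact mul_le_mul_of_nonneg_left (geo_bound hr hy k) measureReal_nonneg
  refine h1.congr fun y hy => ?_
  rw [Metric.mem_ball, dist_zero_right] at hy
  exact integral_countable (geo_integrable hr hy hI)

theorem mul_Ph [IsProbabilityMeasure μ] {r : ℝ} {y : ℂ} (hr : 1 < r) (hy : ‖y‖ < r - 1)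
    (hI : Integrable (fun k : ℕ => (k : ℝ) * r ^ k) μ) : phc μ (1 - y) = 1 - y * Ph μ y := by
  have h1 : ∀ k : ℕ, (1 - y) ^ k = 1 - y * ∑ i ∈ Finset.range k, (1 - y) ^ i := by
    intro k
    have h := mul_neg_geom_sum (1 - y) k
    have e : 1 - (1 - y) = y := by ring
    rw [e] at h
    rw [h]; ring
  have h2 : phc μ (1 - y) = ∫ k, (1 - y * ∑ i ∈ Finset.range k, (1 - y) ^ i) ∂μ :=
    integral_congr_ae (ae_of_all _ fun k => h1 k)
  rw [h2, integral_sub (integrable_const _) ((geo_integrable hr hy hI).const_mul y),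
    integral_const_mul]
  simp [Ph]

theorem Ph_real {r : ℝ} (hr : 1 < r) (hI : Integrable (fun k : ℕ => (k : ℝ) * r ^ k) μ)
    {s : ℝ} (h0 : 0 ≤ s) (h1 : s ≤ 1) :
    Ph μ (s : ℂ) = ((∫ k : ℕ, (k : ℝ) ∂μ - psi μ s : ℝ) : ℂ) := by
  have hI1 : Integrable (fun k : ℕ => (k : ℝ)) μ := by
    refine hI.mono' (measurable_of_countable _).aestronglyMeasurable (ae_of_all _ fun k => ?_)
    rw [Real.norm_eq_abs, abs_of_nonneg (Nat.cast_nonneg k)]
    exact le_mul_of_one_le_right (Nat.cast_nonneg k) (one_le_pow₀ hr.le)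
  unfold psi
  rw [← integral_sub hI1 (hk_integrable μ hI1 h0 h1), ← integral_complex_ofReal]
  unfold Ph
  refine integral_congr_ae (ae_of_all _ fun k => ?_)
  change ∑ i ∈ Finset.range k, (1 - (s : ℂ)) ^ i = (((k : ℝ) - hk k s : ℝ) : ℂ)
  unfold hk
  push_cast
  ring

theorem mean_integrable {r : ℝ} (hr : 1 < r) (hI : Integrable (fun k : ℕ => (k : ℝ) * r ^ k) μ) :
    Integrable (fun k : ℕ => (k : ℝ)) μ := by
  refine hI.mono' (measurable_of_countable _).aestronglyMeasurable (ae_of_all _ fun k => ?_)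
  rw [Real.norm_eq_abs, abs_of_nonneg (Nat.cast_nonneg k)]
  exact le_mul_of_one_le_right (Nat.cast_nonneg k) (one_le_pow₀ hr.le)

/-- mass of the branching vertices -/
theorem psi_lower [IsProbabilityMeasure μ] (hI : Integrable (fun k : ℕ => (k : ℝ)) μ)
    (hm : 1 < ∫ k : ℕ, (k : ℝ) ∂μ) :
    ∃ c : ℝ, 0 < c ∧ ∀ s, 0 ≤ s → s ≤ 1 → c * s ≤ psi μ s := by
  refine ⟨μ.real {k : ℕ | 2 ≤ k}, ?_, fun s h0 h1 => ?_⟩
  · by_contra hcon
    have h2 : μ.real {k : ℕ | 2 ≤ k} = 0 := le_antisymm (not_lt.1 hcon) measureReal_nonneg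
    have h3 : μ {k : ℕ | 2 ≤ k} = 0 := (measureReal_eq_zero_iff).1 h2
    have h4 : ∀ᵐ k : ℕ ∂μ, (k : ℝ) ≤ 1 := by
      have : ∀ᵐ k ∂μ, k ∉ {k : ℕ | 2 ≤ k} := measure_eq_zero_iff_ae_notMem.1 h3
      filter_upwards [this] with k hk
      have : k ≤ 1 := by
        by_contra hk2
        exact hk (show 2 ≤ k by omega)
      exact_mod_cast this
    have h5 := integral_mono_ae hI (integrable_const (1 : ℝ)) h4
    simp only [integral_const, probReal_univ, one_smul] at h5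
    linarith
  · have e : μ.real {k : ℕ | 2 ≤ k} * s = ∫ k, Set.indicator {k : ℕ | 2 ≤ k} (fun _ => s) k ∂μ := by
      rw [integral_indicator_const _ (MeasurableSet.of_discrete), smul_eq_mul]
    rw [e]
    unfold psi
    refine integral_mono ((integrable_const s).indicator MeasurableSet.of_discrete)
      (hk_integrable μ hI h0 h1) fun k => ?_
    by_cases hk2 : 2 ≤ k
    · rw [Set.indicator_of_mem (by simpa using hk2)]
      unfold hk
      have h6 : ∑ i ∈ Finset.range k, (1 - (1 - s) ^ i) = k - ∑ i ∈ Finset.range k, (1 - s) ^ i := by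
        rw [Finset.sum_sub_distrib]; simp
      rw [← h6]
      have h7 : (1 - (1 - s) ^ 1) ≤ ∑ i ∈ Finset.range k, (1 - (1 - s) ^ i) :=
        Finset.single_le_sum (f := fun i => 1 - (1 - s) ^ i)
          (fun i _ => by
            have := pow_le_one₀ (n := i) (by linarith : 0 ≤ 1 - s) (by linarith)
            linarith) (Finset.mem_range.2 (by omega))
      linarith
    · rw [Set.indicator_of_notMem (by simpa using hk2)]
      exact hk_nonneg k h0 h1

theorem deriv_ne [IsProbabilityMeasure μ] {r : ℝ} (hr : 1 < r)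
    (hI : Integrable (fun k : ℕ => (k : ℝ) * r ^ k) μ) (hm : 1 < ∫ k : ℕ, (k : ℝ) ∂μ) :
    AnalyticAt ℝ (fun s : ℝ => (Ph μ (s : ℂ)).re) 0 ∧
      deriv (fun s : ℝ => (Ph μ (s : ℂ)).re) 0 ≠ 0 := by
  have han : AnalyticAt ℝ (fun s : ℝ => (Ph μ (s : ℂ)).re) 0 := by
    have h1 : AnalyticAt ℂ (Ph μ) ((0 : ℝ) : ℂ) := by
      refine (Ph_diff hr hI).analyticAt (Metric.isOpen_ball.mem_nhds ?_)
      rw [Complex.ofReal_zero]
      exact Metric.mem_ball_self (by linarith)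
    exact h1.re_ofReal
  refine ⟨han, ?_⟩
  obtain ⟨c, hc, hpsi⟩ := psi_lower (mean_integrable hr hI) hm
  have h2 := han.differentiableAt.hasDerivAt.tendsto_slope_zero_right
  have h3 : deriv (fun s : ℝ => (Ph μ (s : ℂ)).re) 0 ≤ -c := by
    refine le_of_tendsto h2 ?_
    filter_upwards [Ioo_mem_nhdsGT (show (0 : ℝ) < 1 by norm_num)] with s hs
    have h4 : (Ph μ ((0 + s : ℝ) : ℂ)).re = ∫ k : ℕ, (k : ℝ) ∂μ - psi μ s := by
      rw [zero_add, Ph_real hr hI hs.1.le hs.2.le, Complex.ofReal_re]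
    have h5 : (Ph μ ((0 : ℝ) : ℂ)).re = ∫ k : ℕ, (k : ℝ) ∂μ := by
      rw [Ph_real hr hI le_rfl zero_le_one, Complex.ofReal_re, psi_zero, sub_zero]
    rw [h4, h5, smul_eq_mul]
    have h6 := hpsi s hs.1.le hs.2.le
    rw [inv_mul_le_iff₀ hs.1]
    linarith
  linarith

theorem ph'_cont {r : ℝ} (hI : Integrable (fun k : ℕ => (k : ℝ) * r ^ k) μ) :
    ContinuousOn (ph' μ) (Set.Icc 1 r) := by
  refine continuousOn_of_dominated (bound := fun k : ℕ => (k : ℝ) * r ^ k) (fun s hs => ?_)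
    (fun s hs => ae_of_all _ fun k => ?_) hI (ae_of_all _ fun k => ?_)
  · exact (measurable_of_countable _).aestronglyMeasurable
  · have h1 : 1 ≤ r := hs.1.trans hs.2
    rw [Real.norm_eq_abs, abs_of_nonneg (mul_nonneg (Nat.cast_nonneg k)
      (pow_nonneg (zero_le_one.trans hs.1) _))]
    refine mul_le_mul_of_nonneg_left ?_ (Nat.cast_nonneg k)
    exact (pow_le_pow_left₀ (zero_le_one.trans hs.1) hs.2 _).trans
      (pow_le_pow_right₀ h1 (by omega))
  · fun_prop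

theorem pw_integrable [IsFiniteMeasure μ] {r R : ℝ} (hR : 1 ≤ R) (hRr : R ≤ r)
    (hI : Integrable (fun k : ℕ => (k : ℝ) * r ^ k) μ) :
    Integrable (fun k : ℕ => R ^ k) μ ∧ Integrable (fun k : ℕ => (k : ℝ) * R ^ (k - 1)) μ := by
  have h0 : 0 ≤ R := by linarith
  constructor
  · refine ((integrable_const (1 : ℝ)).add hI).mono'
      (measurable_of_countable _).aestronglyMeasurable (ae_of_all _ fun k => ?_)
    change ‖R ^ k‖ ≤ 1 + k * r ^ k
    rw [Real.norm_eq_abs, abs_of_nonneg (pow_nonneg h0 k)]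
    rcases Nat.eq_zero_or_pos k with rfl | hk
    · simp
    · have h1 : R ^ k ≤ r ^ k := pow_le_pow_left₀ h0 hRr k
      have h2 : (1 : ℝ) ≤ k := by exact_mod_cast hk
      have h3 : 0 ≤ r ^ k := pow_nonneg (h0.trans hRr) k
      nlinarith
  · refine hI.mono' (measurable_of_countable _).aestronglyMeasurable (ae_of_all _ fun k => ?_)
    rw [Real.norm_eq_abs, abs_of_nonneg (mul_nonneg (Nat.cast_nonneg k) (pow_nonneg h0 _))]
    refine mul_le_mul_of_nonneg_left ?_ (Nat.cast_nonneg k)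
    exact (pow_le_pow_left₀ h0 hRr _).trans (pow_le_pow_right₀ (hR.trans hRr) (by omega))

theorem exists_constants [IsProbabilityMeasure μ] {r : ℝ} (hr : 1 < r)
    (hI : Integrable (fun k : ℕ => (k : ℝ) * r ^ k) μ) (hm : 1 < ∫ k : ℕ, (k : ℝ) ∂μ) :
    ∃ R ρ σ δ : ℝ, Cst μ R ρ ∧ 0 < σ ∧ σ < 1 ∧ ρ ≤ σ ^ 2 ∧ 0 < δ ∧
      DifferentiableOn ℂ (fun y => 1 / Ph μ y) (Metric.ball 0 (2 * δ)) ∧
      ∀ y : ℂ, ‖y‖ ≤ δ → OK μ R ρ (1 / Ph μ y) y := by
  set m := ∫ k : ℕ, (k : ℝ) ∂μ with hmdef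
  have hm0 : 0 < m := by linarith
  set ρ : ℝ := (1 / m + 1) / 2 with hρ
  have hm1 : 1 / m < 1 := by rw [div_lt_one hm0]; exact hm
  have hρ1 : ρ < 1 := by rw [hρ]; linarith
  have hρm : 1 / m < ρ := by rw [hρ]; linarith
  have hρ0 : 0 < ρ := (by positivity : (0 : ℝ) < 1 / m).trans hρm
  have hph1 : ph' μ 1 = m := by
    unfold ph'
    simp only [one_pow, mul_one]
    rfl
  -- choice of `R`
  obtain ⟨R, hR1, hRr, hRρ⟩ : ∃ R, 1 < R ∧ R < r ∧ (1 / m) ^ 2 * ph' μ R < ρ := by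
    have h1 := (ph'_cont hI) 1 ⟨le_rfl, hr.le⟩
    have h2 : ph' μ 1 < ρ * m ^ 2 := by
      rw [hph1]
      have : 1 / m * m = 1 := by field_simp
      nlinarith
    have h3 : ∀ᶠ s in 𝓝[Set.Icc 1 r] (1 : ℝ), ph' μ s < ρ * m ^ 2 :=
      h1.tendsto.eventually (gt_mem_nhds h2)
    have h4 : ∀ᶠ s in 𝓝[>] (1 : ℝ), ph' μ s < ρ * m ^ 2 := by
      have hle : 𝓝[Set.Ioo 1 r] (1 : ℝ) ≤ 𝓝[Set.Icc 1 r] 1 :=
        nhdsWithin_mono 1 Set.Ioo_subset_Icc_self
      rw [nhdsWithin_Ioo_eq_nhdsGT hr] at hle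
      exact h3.filter_mono hle
    have h5 : ∀ᶠ s in 𝓝[>] (1 : ℝ), s ∈ Set.Ioo 1 r := Ioo_mem_nhdsGT hr
    obtain ⟨s, hs1, hs2⟩ := (h4.and h5).exists
    refine ⟨s, hs2.1, hs2.2, ?_⟩
    calc (1 / m) ^ 2 * ph' μ s < (1 / m) ^ 2 * (ρ * m ^ 2) :=
          mul_lt_mul_of_pos_left hs1 (by positivity)
      _ = ρ := by field_simp
  obtain ⟨hpw, hpw'⟩ := pw_integrable hR1.le hRr.le hI
  have hc : Cst μ R ρ := ⟨hR1.le, hρ0.le, hρ1, hpw, hpw'⟩
  have hPh0 : Ph μ 0 = (m : ℂ) := by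
    have := Ph_real hr hI (s := 0) le_rfl zero_le_one
    rw [psi_zero, sub_zero, Complex.ofReal_zero] at this
    exact this
  have hPh0' : Ph μ 0 ≠ 0 := by
    rw [hPh0]; exact_mod_cast hm0.ne'
  have hPc : ContinuousAt (Ph μ) 0 :=
    (Ph_diff hr hI).continuousOn.continuousAt
      (Metric.isOpen_ball.mem_nhds (Metric.mem_ball_self (by linarith)))
  have hZc : ContinuousAt (fun y => 1 / Ph μ y) 0 := continuousAt_const.div hPc hPh0'
  -- the strict inequalities at `0`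
  have hZ0 : 1 / Ph μ 0 = ((1 / m : ℝ) : ℂ) := by rw [hPh0]; push_cast; rfl
  have hn0 : ‖(((1 / m : ℝ)) : ℂ)‖ = 1 / m := by
    rw [Complex.norm_real, Real.norm_eq_abs, abs_of_pos (by positivity)]
  have hpair : ContinuousAt (fun y : ℂ => ((1 / Ph μ y, y) : ℂ × ℂ)) 0 := hZc.prodMk continuousAt_id
  have hc1 : Continuous fun v : ℂ × ℂ => ar μ v.1 v.2 R := by
    unfold ar
    fun_prop
  have hc2 : Continuous fun v : ℂ × ℂ => ‖v.1‖ ^ 2 * ph' μ R := by fun_prop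
  have hc3 : Continuous fun v : ℂ × ℂ => ‖1 - v.2‖ ^ 2 := by fun_prop
  have hphR : ph μ R - 1 ≤ ph' μ R * (R - 1) := by
    have h1 := ph_lip hc (s := 1) (t := R) zero_le_one hR1.le le_rfl
    have h2 : ph μ 1 = 1 := by simp [ph]
    rwa [h2] at h1
  have v1 : ar μ (1 / Ph μ 0) 0 R < R := by
    rw [hZ0]
    unfold ar
    have e1 : (1 : ℂ) - ((1 / m : ℝ) : ℂ) = ((1 - 1 / m : ℝ) : ℂ) := by push_cast; ring
    rw [hn0, e1, Complex.norm_real, Real.norm_eq_abs, sq_abs, sub_zero, Complex.conj_ofReal,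
      ← Complex.ofReal_mul, Complex.ofReal_re]
    have h1 : (1 / m) ^ 2 * (ph μ R - 1) ≤ (1 / m) ^ 2 * (ph' μ R * (R - 1)) :=
      mul_le_mul_of_nonneg_left hphR (by positivity)
    have h2 : (1 / m) ^ 2 * ph' μ R * (R - 1) < 1 * (R - 1) :=
      mul_lt_mul_of_pos_right (hRρ.trans hρ1) (by linarith)
    nlinarith
  have v2 : ‖1 / Ph μ 0‖ ^ 2 * ph' μ R < ρ := by
    rw [hZ0, hn0]; exact hRρ
  have v3 : ‖(1 : ℂ) - 0‖ ^ 2 < R := by
    rw [sub_zero, norm_one]; linarith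
  have w1 : ∀ᶠ y in 𝓝 (0 : ℂ), ar μ (1 / Ph μ y) y R < R :=
    (hc1.continuousAt.comp hpair).tendsto.eventually (gt_mem_nhds v1)
  have w2 : ∀ᶠ y in 𝓝 (0 : ℂ), ‖1 / Ph μ y‖ ^ 2 * ph' μ R < ρ :=
    (hc2.continuousAt.comp hpair).tendsto.eventually (gt_mem_nhds v2)
  have w3 : ∀ᶠ y in 𝓝 (0 : ℂ), ‖1 - y‖ ^ 2 < R :=
    (hc3.continuousAt.comp hpair).tendsto.eventually (gt_mem_nhds v3)
  have w4 : ∀ᶠ y in 𝓝 (0 : ℂ), Ph μ y ≠ 0 := hPc.eventually_ne hPh0'
  have w5 : ∀ᶠ y in 𝓝 (0 : ℂ), y ∈ Metric.ball (0 : ℂ) (r - 1) :=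
    Metric.isOpen_ball.mem_nhds (Metric.mem_ball_self (by linarith))
  obtain ⟨ε, hε, hall⟩ := Metric.eventually_nhds_iff_ball.1 (w1.and (w2.and (w3.and (w4.and w5))))
  refine ⟨R, ρ, Real.sqrt ρ, ε / 2, hc, Real.sqrt_pos.2 hρ0, ?_, ?_, by linarith, ?_, ?_⟩
  · rw [Real.sqrt_lt' one_pos]; simpa using hρ1
  · rw [Real.sq_sqrt hρ0.le]
  · have e : 2 * (ε / 2) = ε := by ring
    rw [e]
    refine DifferentiableOn.div (differentiableOn_const 1) ((Ph_diff hr hI).mono fun y hy =>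
      (hall y hy).2.2.2.2) fun y hy => (hall y hy).2.2.2.1
  · intro y hy
    have hyb : y ∈ Metric.ball (0 : ℂ) ε := by
      rw [Metric.mem_ball, dist_zero_right]; linarith
    obtain ⟨a1, a2, a3, a4, a5⟩ := hall y hyb
    refine ⟨?_, a1.le, a2.le, a3.le⟩
    rw [Metric.mem_ball, dist_zero_right] at a5
    rw [mul_Ph hr a5 hI]
    field_simp

end Pool.Agent.Q297.GA
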