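import Pool.Agent.Q297.GA6

/-!
# The main theorem
-/

set_option autoImplicit false

namespace Pool.Agent.Q297.GA

open MeasureTheory ProbabilityTheory Filter Topology Q292.GWS
open scoped ENNReal ComplexConjugate

variable {μ : Measure ℕ} [IsProbabilityMeasure μ]

theorem quenched_tendsto (p : unitInterval) (N : Addr → ℕ) :
    Tendsto (fun n => q p n N) atTop (𝓝 (1 - quenched N p)) := by
  have h1 := tendsto_q p N
  have h2 : quenched N p = (percLaw p).real {ω | (cluster N ω).Infinite} := by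
    unfold quenched
    rw [Set.projIcc_val]
  rw [h2]
  exact h1

theorem quenched_measurable (p : unitInterval) : Measurable fun N : Addr → ℕ => quenched N p := by
  have h3 : Measurable fun N : Addr → ℕ => 1 - quenched N p := by
    refine measurable_of_tendsto_metrizable (f := fun n => q p n) (fun n => q_measurable p n) ?_
    rw [tendsto_pi_nhds]
    exact fun N => quenched_tendsto p N
  have h4 : (fun N : Addr → ℕ => quenched N p) = fun N => 1 - (1 - quenched N p) := by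
    funext N; ring
  rw [h4]
  exact measurable_const.sub h3

theorem quenched_mem (x : ℝ) (N : Addr → ℕ) : 0 ≤ quenched N x ∧ quenched N x ≤ 1 :=
  ⟨measureReal_nonneg, measureReal_le_one⟩

theorem quenched_rec (p : unitInterval) (N : Addr → ℕ) :
    1 - quenched N p = ∏ i ∈ Finset.range (N []), (1 - (p : ℝ) * quenched (sub N i) p) := by
  have h1 : Tendsto (fun n => q p (n + 1) N) atTop (𝓝 (1 - quenched N p)) :=
    (tendsto_add_atTop_iff_nat 1).2 (quenched_tendsto p N)
  have h2 : Tendsto (fun n => ∏ i ∈ Finset.range (N []), (1 - (p : ℝ) * (1 - q p n (sub N i))))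
      atTop (𝓝 (∏ i ∈ Finset.range (N []),
        (1 - (p : ℝ) * (1 - (1 - quenched (sub N i) p))))) :=
    tendsto_finsetProd _ fun i _ =>
      (((quenched_tendsto p (sub N i)).const_sub 1).const_mul (p : ℝ)).const_sub 1
  have h3 := tendsto_nhds_unique (h2.congr fun n => (q_succ p n N).symm) h1
  rw [← h3]
  refine Finset.prod_congr rfl fun i _ => ?_
  ring

/-- identification of the limit at a real parameter -/
theorem identify {R ρ : ℝ} (hc : Cst μ R ρ) (p : unitInterval)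
    (hOK : OK μ R ρ ((p : ℝ) : ℂ) (((p : ℝ) * annealed μ p : ℝ) : ℂ)) :
    ∀ᵐ N ∂(gwLaw μ), Tendsto (fun n => xx ((p : ℝ) : ℂ)
      (1 - (((p : ℝ) * annealed μ p : ℝ) : ℂ)) n N) atTop
        (𝓝 ((1 - (p : ℝ) * quenched N p : ℝ) : ℂ)) := by
  have hmem : ∀ N : Addr → ℕ, 0 ≤ 1 - (p : ℝ) * quenched N p ∧
      1 - (p : ℝ) * quenched N p ≤ 1 := by
    intro N
    obtain ⟨h1, h2⟩ := quenched_mem p N
    have hp0 := p.2.1
    have hp1 := p.2.2
    constructor
    · nlinarith
    · nlinarith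
  have hmeas : Measurable fun N : Addr → ℕ => 1 - (p : ℝ) * quenched N p :=
    measurable_const.sub (measurable_const.mul (quenched_measurable p))
  set X : (Addr → ℕ) → ℂ := fun N => ((1 - (p : ℝ) * quenched N p : ℝ) : ℂ) with hX
  have hnorm : ∀ N, ‖X N‖ = 1 - (p : ℝ) * quenched N p := fun N => by
    rw [hX]
    simp only
    rw [Complex.norm_real, Real.norm_eq_abs, abs_of_nonneg (hmem N).1]
  have hSQ : SQ μ R (1 - (((p : ℝ) * annealed μ p : ℝ) : ℂ)) X := by
    refine ⟨Complex.measurable_ofReal.comp hmeas, ?_, ?_, ?_⟩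
    · simp only [hnorm]
      refine Integrable.of_bound (hmeas.pow_const 2).aestronglyMeasurable 1
        (ae_of_all _ fun N => ?_)
      rw [Real.norm_eq_abs, abs_of_nonneg (by positivity)]
      exact pow_le_one₀ (hmem N).1 (hmem N).2
    · simp only [hnorm]
      have h1 : ∫ N, (1 - (p : ℝ) * quenched N p) ^ 2 ∂(gwLaw μ) ≤ ∫ _, (1 : ℝ) ∂(gwLaw μ) := by
        refine integral_mono_of_nonneg (ae_of_all _ fun N => by positivity)
          (integrable_const _) (ae_of_all _ fun N => ?_)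
        exact pow_le_one₀ (hmem N).1 (hmem N).2
      simp only [integral_const, probReal_univ, one_smul] at h1
      exact h1.trans hc.one_le
    · have hqi : Integrable (fun N : Addr → ℕ => quenched N p) (gwLaw μ) := by
        refine Integrable.of_bound (quenched_measurable p).aestronglyMeasurable 1
          (ae_of_all _ fun N => ?_)
        rw [Real.norm_eq_abs, abs_of_nonneg (quenched_mem p N).1]
        exact (quenched_mem p N).2
      rw [hX]
      rw [integral_complex_ofReal, integral_sub (integrable_const _) (hqi.const_mul _),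
        integral_const_mul]
      simp [annealed]
  have hfix : TT ((p : ℝ) : ℂ) X = X := by
    funext N
    have h1 := quenched_rec p N
    have h2 : ((1 - quenched N p : ℝ) : ℂ) = ∏ i ∈ Finset.range (N []), X (sub N i) := by
      rw [h1, Complex.ofReal_prod]
    unfold TT
    rw [← h2, hX]
    push_cast
    ring
  exact to_fixed hc hOK hSQ hfix

/-- analyticity on the open interval -/
theorem open_interval (hI : Integrable (fun k : ℕ => (k : ℝ)) μ)
    (hm : 1 < ∫ k : ℕ, (k : ℝ) ∂μ) :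
    ∀ᵐ N ∂(gwLaw μ), ∀ x ∈ Set.Ioo (1 / ∫ k : ℕ, (k : ℝ) ∂μ) 1, AnalyticAt ℝ (quenched N) x := by
  set m := ∫ k : ℕ, (k : ℝ) ∂μ with hmdef
  have hm0 : 0 < m := by linarith
  have key : ∀ p ∈ Set.Ioo (1 / m) 1, ∃ d : ℝ, 0 < d ∧ ∀ᵐ N ∂(gwLaw μ),
      ∀ x ∈ Set.Ioo (p - d) (p + d), AnalyticAt ℝ (quenched N) x := by
    intro p hp
    have hp0 : 0 < p := (by positivity : (0 : ℝ) < 1 / m).trans hp.1
    refine near_point μ hI ?_ hp0 hp.2
    have := (div_lt_iff₀ hm0).1 hp.1
    exact this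
  choose! d hd hd2 using key
  obtain ⟨t, ht1, ht2, ht3⟩ := TopologicalSpace.countable_cover_nhdsWithin
    (f := fun p => Set.Ioo (p - d p) (p + d p)) (s := Set.Ioo (1 / m) 1) (fun p hp =>
      mem_nhdsWithin_of_mem_nhds (Ioo_mem_nhds (by linarith [hd p hp]) (by linarith [hd p hp])))
  have h1 : ∀ᵐ N ∂(gwLaw μ), ∀ p ∈ t, ∀ x ∈ Set.Ioo (p - d p) (p + d p),
      AnalyticAt ℝ (quenched N) x := (ae_ball_iff ht2).2 fun p hp => hd2 p (ht1 hp)
  filter_upwards [h1] with N hN x hx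
  obtain ⟨p, hp⟩ := Set.mem_iUnion.1 (ht3 hx)
  obtain ⟨hpt, hxp⟩ := Set.mem_iUnion.1 hp
  exact hN p hpt x hxp

theorem main {t : ℝ} (ht : 0 < t) (hexp : Integrable (fun k : ℕ => Real.exp (t * k)) μ)
    (hm : 1 < ∫ k : ℕ, (k : ℝ) ∂μ) :
    ∀ᵐ N ∂(gwLaw μ), ∃ a < 1 / ∫ k : ℕ, (k : ℝ) ∂μ, ∃ F : ℝ → ℝ,
      AnalyticOnNhd ℝ F (Set.Ioo a 1) ∧
        ∀ p ∈ Set.Ico (1 / ∫ k : ℕ, (k : ℝ) ∂μ) 1, quenched N p = F p := by
  obtain ⟨r, hr, hI⟩ := exists_radius ht hexp
  have hI1 := mean_integrable hr hI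
  obtain ⟨R, ρ, σ, δ, hc, hσ, hσ1, hσ2, hδ, hZd, hOK⟩ := exists_constants hr hI hm
  obtain ⟨c, hc0, hpsi⟩ := psi_lower hI1 hm
  obtain ⟨han, hder⟩ := deriv_ne hr hI hm
  have hunif := uniform hc hσ hσ1 hσ2 hδ (by linarith : δ < 2 * δ) (fun y => 1 / Ph μ y) hZd
    (fun y hy => hOK y hy.le)
  have hopen := open_interval hI1 hm
  set m := ∫ k : ℕ, (k : ℝ) ∂μ with hmdef
  have hm0 : 0 < m := by linarith
  have hpc0 : 0 < 1 / m := by positivity
  have hpc1 : 1 / m < 1 := by rw [div_lt_one hm0]; exact hm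
  set Φ : ℝ → ℝ := fun s => (Ph μ (s : ℂ)).re with hΦ
  set g := han.hasStrictDerivAt.localInverse _ _ _ hder with hg
  have hgan : AnalyticAt ℝ g (Φ 0) := han.analyticAt_localInverse hder
  have hgl : ∀ᶠ s in 𝓝 (0 : ℝ), g (Φ s) = s :=
    HasStrictDerivAt.eventually_left_inverse ..
  have hΦ0 : Φ 0 = m := by
    have := Ph_real hr hI (s := 0) le_rfl zero_le_one
    rw [hΦ]
    simp only
    rw [this, Complex.ofReal_re, psi_zero, sub_zero]
  -- facts about the real branch
  have hreal : ∀ p : ℝ, ∀ hp : p ∈ Set.Icc (1 / m) 1, 0 ≤ p * annealed μ p ∧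
      p * annealed μ p ≤ 1 ∧ psi μ (p * annealed μ p) = m - 1 / p ∧
      Ph μ ((p * annealed μ p : ℝ) : ℂ) = ((1 / p : ℝ) : ℂ) := by
    intro p hp
    have hp0 : 0 ≤ p := hpc0.le.trans hp.1
    set u : unitInterval := ⟨p, hp0, hp.2⟩ with hu
    have hup : (u : ℝ) = p := rfl
    have h1 := annealed_nonneg μ p
    have h2 : annealed μ p ≤ 1 := annealed_le_one μ u
    have h3 : 1 ≤ m * (u : ℝ) := by
      rw [hup]
      have := (div_le_iff₀ hm0).1 hp.1
      linarith
    have h4 := implicit μ hI1 u h3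
    rw [hup] at h4
    have h5 : 0 ≤ p * annealed μ p := mul_nonneg hp0 h1
    have h6 : p * annealed μ p ≤ 1 := mul_le_one₀ hp.2 h1 h2
    refine ⟨h5, h6, h4, ?_⟩
    rw [Ph_real hr hI h5 h6, h4]
    congr 1
    ring
  -- the branch tends to zero
  have hlim : Tendsto (fun p => p * annealed μ p) (𝓝[Set.Icc (1 / m) 1] (1 / m)) (𝓝 0) := by
    have h1 : Tendsto (fun p : ℝ => (m - 1 / p) / c) (𝓝[Set.Icc (1 / m) 1] (1 / m)) (𝓝 0) := by
      have h2 : ContinuousAt (fun p : ℝ => (m - 1 / p) / c) (1 / m) := by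
        refine ContinuousAt.div_const (continuousAt_const.sub
          (continuousAt_const.div continuousAt_id hpc0.ne')) c
      have h3 : (m - 1 / (1 / m)) / c = 0 := by
        rw [one_div_one_div, sub_self, zero_div]
      have h4 := h2.tendsto
      rw [h3] at h4
      exact h4.mono_left nhdsWithin_le_nhds
    refine squeeze_zero' ?_ ?_ h1
    · filter_upwards [self_mem_nhdsWithin] with p hp using (hreal p hp).1
    · filter_upwards [self_mem_nhdsWithin] with p hp
      obtain ⟨h5, h6, h7, -⟩ := hreal p hp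
      rw [le_div_iff₀ hc0, ← h7, mul_comm]
      exact hpsi _ h5 h6
  have hev : ∀ᶠ p in 𝓝[Set.Icc (1 / m) 1] (1 / m), p * annealed μ p < δ / 2 ∧
      g (1 / p) = p * annealed μ p := by
    have h1 : ∀ᶠ p in 𝓝[Set.Icc (1 / m) 1] (1 / m), p * annealed μ p < δ / 2 :=
      hlim.eventually (gt_mem_nhds (by positivity))
    have h2 : ∀ᶠ p in 𝓝[Set.Icc (1 / m) 1] (1 / m),
        g (Φ (p * annealed μ p)) = p * annealed μ p := hlim.eventually hgl
    filter_upwards [h1, h2, self_mem_nhdsWithin] with p hp1 hp2 hp3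
    refine ⟨hp1, ?_⟩
    have h3 : Φ (p * annealed μ p) = 1 / p := by
      rw [hΦ]
      simp only
      rw [(hreal p hp3).2.2.2, Complex.ofReal_re]
    rwa [h3] at hp2
  obtain ⟨e0, he0, hev2⟩ := Metric.mem_nhdsWithin_iff.1 hev
  set ε : ℝ := min e0 (1 - 1 / m) with hε
  have hε0 : 0 < ε := lt_min he0 (by linarith)
  have hnear : ∀ p ∈ Set.Ico (1 / m) (1 / m + ε), p < 1 ∧ p * annealed μ p < δ / 2 ∧
      g (1 / p) = p * annealed μ p := by
    intro p hp
    have h1 : p < 1 := by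
      have := min_le_right e0 (1 - 1 / m)
      linarith [hp.2]
    refine ⟨h1, hev2 ⟨?_, hp.1, h1.le⟩⟩
    rw [Metric.mem_ball, Real.dist_eq, abs_of_nonneg (by linarith [hp.1])]
    have := min_le_left e0 (1 - 1 / m)
    linarith [hp.2]
  -- identification on a countable set
  set S : Set ℝ := insert (1 / m) (Set.range ((↑) : ℚ → ℝ) ∩ Set.Ioo (1 / m) (1 / m + ε)) with hS
  have hSc : S.Countable := ((Set.countable_range _).mono Set.inter_subset_left).insert _
  have hSsub : ∀ p ∈ S, p ∈ Set.Ico (1 / m) (1 / m + ε) := by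
    intro p hp
    rcases hp with rfl | hp
    · exact ⟨le_rfl, by linarith⟩
    · exact ⟨hp.2.1.le, hp.2.2⟩
  have hid : ∀ p ∈ S, ∀ᵐ N ∂(gwLaw μ), Tendsto (fun n => xx (1 / Ph μ ((p * annealed μ p : ℝ) : ℂ))
      (1 - ((p * annealed μ p : ℝ) : ℂ)) n N) atTop (𝓝 ((1 - p * quenched N p : ℝ) : ℂ)) := by
    intro p hp
    have hp' := hSsub p hp
    obtain ⟨h1, h2, h3⟩ := hnear p hp'
    have hp0 : 0 < p := hpc0.trans_le hp'.1
    obtain ⟨h4, h5, h6, h7⟩ := hreal p ⟨hp'.1, h1.le⟩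
    have h8 : 1 / Ph μ ((p * annealed μ p : ℝ) : ℂ) = (p : ℂ) := by
      rw [h7]; push_cast; rw [one_div_one_div]
    rw [h8]
    set u : unitInterval := ⟨p, hp0.le, h1.le⟩ with hu
    have h9 := hOK ((p * annealed μ p : ℝ) : ℂ) (by
      rw [Complex.norm_real, Real.norm_eq_abs, abs_of_nonneg h4]; linarith)
    rw [h8] at h9
    exact identify hc u h9
  have hid2 := (ae_ball_iff hSc).2 hid
  filter_upwards [hunif, hopen, hid2] with N hN1 hN2 hN3
  obtain ⟨h, hh1, hh2⟩ := hN1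
  set Fl : ℝ → ℝ := fun p => (1 - (h ((g (1 / p) : ℝ) : ℂ)).re) / p with hFl
  have hFS : ∀ p ∈ S, quenched N p = Fl p := by
    intro p hp
    have hp' := hSsub p hp
    obtain ⟨h1, h2, h3⟩ := hnear p hp'
    have hp0 : 0 < p := hpc0.trans_le hp'.1
    obtain ⟨h4, h5, h6, h7⟩ := hreal p ⟨hp'.1, h1.le⟩
    have h8 : ((p * annealed μ p : ℝ) : ℂ) ∈ Metric.ball (0 : ℂ) (δ / 2) := by
      rw [Metric.mem_ball, dist_zero_right, Complex.norm_real, Real.norm_eq_abs,
        abs_of_nonneg h4]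
      exact h2
    have h9 := tendsto_nhds_unique (hh2 _ h8) (hN3 p hp)
    rw [hFl]
    simp only
    rw [h3, h9, Complex.ofReal_re]
    field_simp
    ring
  have hg0 : g m = 0 := by
    have := hgl.self_of_nhds
    rwa [hΦ0] at this
  have hFan : AnalyticAt ℝ Fl (1 / m) := by
    have h1 : AnalyticAt ℝ (fun p : ℝ => 1 / p) (1 / m) :=
      analyticAt_const.div analyticAt_id hpc0.ne'
    have h2 : AnalyticAt ℝ (fun p : ℝ => g (1 / p)) (1 / m) := by
      refine AnalyticAt.fun_comp (g := g) (f := fun p : ℝ => 1 / p) ?_ h1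
      rw [one_div_one_div, ← hΦ0]
      exact hgan
    have h3 : AnalyticAt ℝ (fun y : ℝ => (h y).re) (g (1 / (1 / m))) := by
      rw [one_div_one_div, hg0]
      refine AnalyticAt.re_ofReal ?_
      refine hh1.analyticAt (Metric.isOpen_ball.mem_nhds ?_)
      rw [Complex.ofReal_zero]
      exact Metric.mem_ball_self (by positivity)
    have h4 : AnalyticAt ℝ (fun p : ℝ => (h ((g (1 / p) : ℝ) : ℂ)).re) (1 / m) :=
      AnalyticAt.fun_comp (g := fun y : ℝ => (h y).re) (f := fun p : ℝ => g (1 / p)) h3 h2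
    exact (analyticAt_const.sub h4).div analyticAt_id hpc0.ne'
  obtain ⟨e1, he1, hFan2⟩ := Metric.eventually_nhds_iff_ball.1 hFan.eventually_analyticAt
  set η : ℝ := min e1 ε with hη
  have hη0 : 0 < η := lt_min he1 hε0
  have hFan3 : ∀ p ∈ Set.Ioo (1 / m - η) (1 / m + η), AnalyticAt ℝ Fl p := by
    intro p hp
    refine hFan2 p ?_
    rw [Metric.mem_ball, Real.dist_eq, abs_lt]
    have := min_le_left e1 ε
    constructor <;> linarith [hp.1, hp.2]
  have hagree : ∀ p ∈ Set.Ico (1 / m) (1 / m + η), quenched N p = Fl p := by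
    intro p hp
    rcases eq_or_lt_of_le hp.1 with h1 | h1
    · exact hFS p (by rw [← h1]; exact Set.mem_insert _ _)
    · have hηε := min_le_right e1 ε
      have hp1 : p < 1 := (hnear p ⟨hp.1, by linarith [hp.2]⟩).1
      have hU : p ∈ Set.Ioo (1 / m) (1 / m + η) := ⟨h1, hp.2⟩
      have hcl := (Rat.denseRange_cast (𝕜 := ℝ)).open_subset_closure_inter
        (isOpen_Ioo (a := 1 / m) (b := 1 / m + η)) hU
      have hne := mem_closure_iff_nhdsWithin_neBot.1 hcl
      have t1 : Tendsto (quenched N) (𝓝[Set.Ioo (1 / m) (1 / m + η) ∩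
          Set.range ((↑) : ℚ → ℝ)] p) (𝓝 (quenched N p)) :=
        (hN2 p ⟨h1, hp1⟩).continuousAt.tendsto.mono_left nhdsWithin_le_nhds
      have t2 : Tendsto Fl (𝓝[Set.Ioo (1 / m) (1 / m + η) ∩
          Set.range ((↑) : ℚ → ℝ)] p) (𝓝 (Fl p)) :=
        (hFan3 p ⟨by linarith, hp.2⟩).continuousAt.tendsto.mono_left nhdsWithin_le_nhds
      refine tendsto_nhds_unique t1 (t2.congr' ?_)
      filter_upwards [self_mem_nhdsWithin] with x hx
      refine (hFS x (Set.mem_insert_of_mem _ ⟨hx.2, hx.1.1, ?_⟩)).symm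
      linarith [hx.1.2]
  refine ⟨1 / m - η, by linarith, fun p => if p < 1 / m then Fl p else quenched N p, ?_, ?_⟩
  · intro p hp
    rcases lt_trichotomy p (1 / m) with h1 | h1 | h1
    · refine (hFan3 p ⟨hp.1, by linarith⟩).congr ?_
      filter_upwards [Iio_mem_nhds h1] with x hx
      rw [if_pos (Set.mem_Iio.1 hx)]
    · refine (hFan3 p ⟨hp.1, by linarith⟩).congr ?_
      filter_upwards [Ioo_mem_nhds hp.1 (by linarith : p < 1 / m + η)] with x hx
      by_cases h2 : x < 1 / m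
      · rw [if_pos h2]
      · rw [if_neg h2]
        exact (hagree x ⟨not_lt.1 h2, hx.2⟩).symm
    · refine (hN2 p ⟨h1, hp.2⟩).congr ?_
      filter_upwards [Ioi_mem_nhds h1] with x hx
      rw [if_neg (not_lt.2 (le_of_lt (Set.mem_Ioi.1 hx)))]
  · intro p hp
    exact (if_neg (not_lt.2 hp.1)).symm

end Pool.Agent.Q297.GA
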