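import Pool.Agent.Q297.FactorDefs
import Mathlib.GroupTheory.SpecificGroups.Dihedral

open MeasureTheory Q297.Factor

namespace Q297.Grr

/-- the group `ℤ × S₃` -/
abbrev V := Multiplicative ℤ × DihedralGroup 3

/-- the six generators -/
def gen : Fin 6 → V := ![
  (Multiplicative.ofAdd (-2), DihedralGroup.sr 0),
  (Multiplicative.ofAdd (-3), DihedralGroup.sr 1),
  (Multiplicative.ofAdd 0, DihedralGroup.r 1),
  (Multiplicative.ofAdd (-1), DihedralGroup.sr 2),
  (Multiplicative.ofAdd (-2), DihedralGroup.sr 1),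
  (Multiplicative.ofAdd (-1), DihedralGroup.r 1)]

/-- generators and inverses -/
def S : Finset V := Finset.univ.image gen ∪ Finset.univ.image (fun i => (gen i)⁻¹)

lemma gen_injective : Function.Injective gen := by
  have : ∀ i j, gen i = gen j → i = j := by decide +kernel
  exact fun i j => this i j

lemma gen_ne_inv : ∀ i j, gen i ≠ (gen j)⁻¹ := by decide +kernel

lemma S_card : S.card = 12 := by decide +kernel

lemma S_inv {x : V} (h : x ∈ S) : x⁻¹ ∈ S := by
  have : ∀ x ∈ S, x⁻¹ ∈ S := by decide +kernel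
  exact this x h

lemma one_notMem : (1 : V) ∉ S := by decide +kernel

lemma gen_mem (i : Fin 6) : gen i ∈ S := by
  unfold S; rw [Finset.mem_union]; left; exact Finset.mem_image_of_mem _ (Finset.mem_univ _)

/-- number of triangles on the edge `(1, s)` -/
def tri1 (s : V) : ℕ := (S.filter (fun x => x⁻¹ * s ∈ S)).card

/-- local invariant of the edge `(1, s)` -/
def lab1 (s : V) : ℕ :=
  ∑ x ∈ S.filter (fun x => x⁻¹ * s ∈ S), (tri1 x) ^ 2 * tri1 (x⁻¹ * s)

lemma lab1_inj : ∀ s ∈ S, ∀ s' ∈ S, tri1 s = tri1 s' → lab1 s = lab1 s' → s = s' := by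
  decide +kernel

/-- the Cayley graph -/
def G : SimpleGraph V where
  Adj u v := u⁻¹ * v ∈ S
  symm := by
    constructor
    intro u v h
    have := S_inv h
    rwa [mul_inv_rev, inv_inv] at this
  loopless := by
    constructor
    intro v h
    rw [inv_mul_cancel] at h
    exact one_notMem h

lemma adj_iff (u v : V) : G.Adj u v ↔ u⁻¹ * v ∈ S := Iff.rfl

instance : DecidableRel G.Adj := fun u v => inferInstanceAs (Decidable (u⁻¹ * v ∈ S))

/-- neighbours -/
def nb (u : V) : Finset V := S.map (mulLeftEmbedding u)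

lemma mem_nb (u v : V) : v ∈ nb u ↔ G.Adj u v := by
  rw [nb, Finset.mem_map, adj_iff]
  constructor
  · rintro ⟨x, hx, rfl⟩
    rwa [mulLeftEmbedding_apply, inv_mul_cancel_left]
  · intro h
    exact ⟨u⁻¹ * v, h, by rw [mulLeftEmbedding_apply, mul_inv_cancel_left]⟩

lemma regular (u : V) : (G.neighborSet u).encard = 2 * 6 := by
  have : G.neighborSet u = (nb u : Set V) := by
    ext v
    rw [SimpleGraph.mem_neighborSet, Finset.mem_coe, mem_nb]
  rw [this, Set.encard_coe_eq_coe_finsetCard, nb, Finset.card_map, S_card]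
  norm_num

/-- common neighbours -/
def com (u v : V) : Finset V := (nb u).filter (fun w => G.Adj w v)

lemma com_eq (u v : V) :
    com u v = (S.filter (fun x => x⁻¹ * (u⁻¹ * v) ∈ S)).map (mulLeftEmbedding u) := by
  rw [com, nb, Finset.filter_map]
  congr 1
  apply Finset.filter_congr
  intro x _
  rw [Function.comp_apply, mulLeftEmbedding_apply, adj_iff, mul_inv_rev, mul_assoc]

/-- number of triangles -/
def tri (u v : V) : ℕ := (com u v).card

lemma tri_eq (u v : V) : tri u v = tri1 (u⁻¹ * v) := by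
  rw [tri, com_eq, Finset.card_map, tri1]

/-- local invariant -/
def lab (u v : V) : ℕ := ∑ w ∈ com u v, (tri u w) ^ 2 * tri w v

lemma lab_eq (u v : V) : lab u v = lab1 (u⁻¹ * v) := by
  rw [lab, com_eq, Finset.sum_map, lab1]
  apply Finset.sum_congr rfl
  intro x _
  rw [mulLeftEmbedding_apply, tri_eq, tri_eq, inv_mul_cancel_left, mul_inv_rev, mul_assoc]

lemma com_aut (γ : G ≃g G) (u v : V) : com (γ u) (γ v) = (com u v).map γ.toEquiv.toEmbedding := by
  ext w
  simp only [com, Finset.mem_filter, mem_nb, Finset.mem_map_equiv]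
  constructor
  · rintro ⟨h1, h2⟩
    constructor
    · have := γ.symm.map_adj_iff.2 h1
      rw [RelIso.symm_apply_apply] at this
      exact this
    · have := γ.symm.map_adj_iff.2 h2
      rw [RelIso.symm_apply_apply] at this
      exact this
  · rintro ⟨h1, h2⟩
    constructor
    · have := γ.map_adj_iff.2 h1
      have h3 : γ (γ.toEquiv.symm w) = w := γ.toEquiv.apply_symm_apply w
      rwa [h3] at this
    · have := γ.map_adj_iff.2 h2
      have h3 : γ (γ.toEquiv.symm w) = w := γ.toEquiv.apply_symm_apply w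
      rwa [h3] at this

lemma tri_aut (γ : G ≃g G) (u v : V) : tri (γ u) (γ v) = tri u v := by
  rw [tri, tri, com_aut, Finset.card_map]

lemma lab_aut (γ : G ≃g G) (u v : V) : lab (γ u) (γ v) = lab u v := by
  rw [lab, lab, com_aut, Finset.sum_map]
  apply Finset.sum_congr rfl
  intro w _
  have h : ∀ w, γ.toEquiv.toEmbedding w = γ w := fun _ => rfl
  rw [h, tri_aut, tri_aut]

/-- automorphisms preserve the generators along the edges -/
lemma aut_gen (γ : G ≃g G) {u v : V} (h : G.Adj u v) : (γ u)⁻¹ * γ v = u⁻¹ * v := by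
  have h' : G.Adj (γ u) (γ v) := γ.map_adj_iff.2 h
  apply lab1_inj _ h' _ h
  · rw [← tri_eq, ← tri_eq, tri_aut]
  · rw [← lab_eq, ← lab_eq, lab_aut]

/-- left translation -/
def trans (g : V) : G ≃g G where
  toEquiv := Equiv.mulLeft g
  map_rel_iff' := by
    intro u v
    simp only [adj_iff, Equiv.coe_mulLeft, mul_inv_rev, mul_assoc, inv_mul_cancel_left]

lemma transitive (u v : V) : ∃ γ : G ≃g G, γ u = v :=
  ⟨trans (v * u⁻¹), by
    show v * u⁻¹ * u = v
    rw [inv_mul_cancel_right]⟩

/-- elements reachable from every point by right multiplication -/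
def R : Subgroup V where
  carrier := {x | ∀ u, G.Reachable u (u * x)}
  mul_mem' := by
    intro a b ha hb u
    have := (ha u).trans (hb (u * a))
    rwa [mul_assoc] at this
  one_mem' := by
    intro u
    rw [mul_one]
  inv_mem' := by
    intro a ha u
    have := (ha (u * a⁻¹)).symm
    rwa [inv_mul_cancel_right] at this

lemma gen_mem_R (i : Fin 6) : gen i ∈ R := by
  intro u
  apply SimpleGraph.Adj.reachable
  rw [adj_iff, inv_mul_cancel_left]
  exact gen_mem i

lemma trans_mem_R : ((Multiplicative.ofAdd 1, 1) : V) ∈ R := by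
  have h : ((Multiplicative.ofAdd 1, 1) : V) = gen 2 * (gen 5)⁻¹ := by decide +kernel
  rw [h]
  exact R.mul_mem (gen_mem_R 2) (R.inv_mem (gen_mem_R 5))

lemma r_mem_R : ((1, DihedralGroup.r 1) : V) ∈ R := gen_mem_R 2

lemma sr_mem_R : ((1, DihedralGroup.sr 2) : V) ∈ R := by
  have h : ((1, DihedralGroup.sr 2) : V) = gen 3 * (Multiplicative.ofAdd 1, 1) := by decide +kernel
  rw [h]
  exact R.mul_mem (gen_mem_R 3) trans_mem_R

lemma all_mem_R (x : V) : x ∈ R := by
  obtain ⟨n, s⟩ := x
  have h1 : ((n, s) : V) = (Multiplicative.ofAdd 1, 1) ^ (Multiplicative.toAdd n) * (1, s) := by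
    rw [Prod.pow_mk, Prod.mk_mul_mk, one_zpow, one_mul, mul_one, ← ofAdd_zsmul]
    simp
  have h2 : ∀ s : DihedralGroup 3, ((1, s) : V) = 1 ∨ ((1, s) : V) = (1, DihedralGroup.r 1) ∨
      ((1, s) : V) = (1, DihedralGroup.r 1) * (1, DihedralGroup.r 1) ∨
      ((1, s) : V) = (1, DihedralGroup.sr 2) ∨
      ((1, s) : V) = (1, DihedralGroup.sr 2) * (1, DihedralGroup.r 1) ∨
      ((1, s) : V) = (1, DihedralGroup.sr 2) * ((1, DihedralGroup.r 1) * (1, DihedralGroup.r 1)) := by
    decide +kernel
  rw [h1]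
  apply R.mul_mem (R.zpow_mem trans_mem_R _)
  rcases h2 s with h | h | h | h | h | h <;> rw [h]
  · exact R.one_mem
  · exact r_mem_R
  · exact R.mul_mem r_mem_R r_mem_R
  · exact sr_mem_R
  · exact R.mul_mem sr_mem_R r_mem_R
  · exact R.mul_mem sr_mem_R (R.mul_mem r_mem_R r_mem_R)

lemma connected : G.Connected := by
  refine ⟨fun u v => ?_⟩
  have := all_mem_R (u⁻¹ * v) u
  rwa [mul_inv_cancel_left] at this

open Classical in
/-- colour of an element -/
noncomputable def col (x : V) : Option (Fin 6) :=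
  if h : ∃ i, gen i = x then some h.choose else none

lemma col_eq_some (x : V) (i : Fin 6) : col x = some i ↔ gen i = x := by
  unfold col
  constructor
  · intro h
    split_ifs at h with h1
    have := Option.some_injective _ h
    rw [← this]
    exact h1.choose_spec
  · intro h
    have h1 : ∃ i, gen i = x := ⟨i, h⟩
    rw [dif_pos h1]
    congr 1
    apply gen_injective
    rw [h1.choose_spec, h]

lemma col_isSome (x : V) : (col x).isSome ↔ ∃ i, gen i = x := by
  rw [Option.isSome_iff_exists]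
  simp only [col_eq_some]

/-- the decoration -/
noncomputable def D (u v : V) : Option (Fin 6) := col (u⁻¹ * v)

lemma isSchreier : IsSchreier G 6 D := by
  refine ⟨?_, ?_, ?_⟩
  · intro u v h
    rw [D, col_isSome] at h
    obtain ⟨i, hi⟩ := h
    rw [adj_iff, ← hi]
    exact gen_mem i
  · intro u v h
    rw [D, D, col_isSome, col_isSome]
    rw [adj_iff, S, Finset.mem_union, Finset.mem_image, Finset.mem_image] at h
    have e : v⁻¹ * u = (u⁻¹ * v)⁻¹ := by rw [mul_inv_rev, inv_inv]
    rw [e]
    constructor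
    · rintro ⟨i, hi⟩ ⟨j, hj⟩
      apply gen_ne_inv i j
      rw [hi, hj, inv_inv]
    · intro h2
      rcases h with ⟨i, _, hi⟩ | ⟨i, _, hi⟩
      · exact ⟨i, hi⟩
      · exfalso
        apply h2
        exact ⟨i, by rw [← hi, inv_inv]⟩
  · intro u c
    constructor
    · refine ⟨u * gen c, ?_, ?_⟩
      · simp only [D, col_eq_some, inv_mul_cancel_left]
      · intro v hv
        simp only [D, col_eq_some] at hv
        rw [hv, mul_inv_cancel_left]
    · refine ⟨u * (gen c)⁻¹, ?_, ?_⟩
      · simp only [D, col_eq_some, mul_inv_rev, inv_inv, inv_mul_cancel_right]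
      · intro v hv
        simp only [D, col_eq_some] at hv
        rw [hv, mul_inv_rev, inv_inv, mul_inv_cancel_left]

lemma D_aut (γ : G ≃g G) (u v : V) : D (γ u) (γ v) = D u v := by
  by_cases h : G.Adj u v
  · rw [D, D, aut_gen γ h]
  · have h' : ¬ G.Adj (γ u) (γ v) := fun h1 => h (γ.map_adj_iff.1 h1)
    have h1 : ∀ u v, ¬ G.Adj u v → D u v = none := by
      intro u v h
      by_contra h2
      exact h (isSchreier.1 u v (Option.isSome_iff_ne_none.2 h2))
    rw [h1 _ _ h, h1 _ _ h']

lemma isFactor : IsFactor G (fun _ : V → unitInterval => D) := by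
  refine ⟨fun u v s => by simp, ?_⟩
  intro γ ω
  funext u v
  show D u v = D (γ.symm u) (γ.symm v)
  rw [D_aut]

lemma exists_path : ∃ p : ℤ → V, Function.Injective p ∧ ∀ n, D (p n) (p (n + 1)) = some 3 := by
  refine ⟨fun n => (gen 3) ^ n, ?_, ?_⟩
  · intro a b h
    have h1 : ((gen 3) ^ a).1 = ((gen 3) ^ b).1 := congrArg Prod.fst h
    rw [Prod.pow_fst, Prod.pow_fst] at h1
    have h2 : (gen 3).1 = Multiplicative.ofAdd (-1) := rfl
    rw [h2, ← ofAdd_zsmul, ← ofAdd_zsmul] at h1
    have h3 := Multiplicative.ofAdd.injective h1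
    simpa using h3
  · intro n
    rw [D, col_eq_some]
    show gen 3 = ((gen 3) ^ n)⁻¹ * (gen 3) ^ (n + 1)
    rw [zpow_add_one, inv_mul_cancel_left]

end Q297.Grr
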