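import Mathlib

/-!
# Words, averages over words, embedding counts
-/

set_option autoImplicit false

namespace Pool.Agent.Q297.JG

open Finset

/-- average over the words of length `n` -/
noncomputable def av : ℕ → (List Bool → ℝ) → ℝ
  | 0, F => F []
  | n + 1, F => (av n (fun X => F (true :: X)) + av n (fun X => F (false :: X))) / 2

/-- sum over the words of length `n` -/
noncomputable def ws : ℕ → (List Bool → ℝ) → ℝ
  | 0, F => F []
  | n + 1, F => ws n (fun X => F (true :: X)) + ws n (fun X => F (false :: X))

/-- sum over the words of length at most `L` with weight `v ^ length` -/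
noncomputable def gs (v : ℝ) : ℕ → (List Bool → ℝ) → ℝ
  | 0, F => F []
  | L + 1, F => F [] + v * (gs v L (fun X => F (true :: X)) + gs v L (fun X => F (false :: X)))

/-- number of embeddings of the second word into the first -/
noncomputable def zz : List Bool → List Bool → ℝ
  | _, [] => 1
  | [], _ :: _ => 0
  | c :: X, b :: Y => zz X (b :: Y) + if b = c then zz X Y else 0

theorem zz_nil (X : List Bool) : zz X [] = 1 := by
  cases X <;> simp [zz]

theorem zz_nil_cons (b : Bool) (Y : List Bool) : zz [] (b :: Y) = 0 := by
  simp [zz]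

theorem zz_cons (c : Bool) (X : List Bool) (b : Bool) (Y : List Bool) :
    zz (c :: X) (b :: Y) = zz X (b :: Y) + if b = c then zz X Y else 0 := by
  rw [zz]

theorem zz_nonneg : ∀ X Y : List Bool, 0 ≤ zz X Y := by
  intro X
  induction X with
  | nil => intro Y; cases Y <;> simp [zz]
  | cons c X ih =>
    intro Y
    cases Y with
    | nil => simp [zz]
    | cons b Y =>
      rw [zz_cons]
      have h1 := ih (b :: Y)
      have h2 := ih Y
      split_ifs <;> linarith

theorem zz_mono (c : Bool) (X Y : List Bool) : zz X Y ≤ zz (c :: X) Y := by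
  cases Y with
  | nil => rw [zz_nil, zz_nil]
  | cons b Y =>
    rw [zz_cons]
    have h2 := zz_nonneg X Y
    split_ifs <;> linarith

theorem zz_mono2 (c : Bool) (X Y : List Bool) : zz X Y ≤ zz (c :: X) (c :: Y) := by
  rw [zz_cons, if_pos rfl]
  have := zz_nonneg X (c :: Y)
  linarith

/-- the weighted sum over pairs of embeddings; `u` is the queue -/
noncomputable def aa (v : ℝ) : List Bool → List Bool → ℝ
  | [], [] => 1
  | [], _ :: _ => 0
  | c :: X, [] => (1 + v) * aa v X [] + 2 * v * aa v X [c]
  | c :: X, d :: u => aa v X (d :: u) + v * aa v X (d :: u ++ [c]) +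
      if d = c then aa v X u + v * aa v X (u ++ [c]) else 0

/-- first passage kernel: the queue becomes empty for the first time at the end of the word -/
noncomputable def kk (v : ℝ) : List Bool → List Bool → ℝ
  | [], [] => 1
  | [], _ :: _ => 0
  | _ :: _, [] => 0
  | c :: X, d :: u => kk v X (d :: u) + v * kk v X (d :: u ++ [c]) +
      if d = c then kk v X u + v * kk v X (u ++ [c]) else 0

theorem aa_cons_nil (v : ℝ) (c : Bool) (X : List Bool) :
    aa v (c :: X) [] = (1 + v) * aa v X [] + 2 * v * aa v X [c] := by
  rw [aa]

theorem aa_cons_cons (v : ℝ) (c : Bool) (X : List Bool) (d : Bool) (u : List Bool) :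
    aa v (c :: X) (d :: u) = aa v X (d :: u) + v * aa v X (d :: u ++ [c]) +
      if d = c then aa v X u + v * aa v X (u ++ [c]) else 0 := by
  rw [aa]

theorem kk_cons_cons (v : ℝ) (c : Bool) (X : List Bool) (d : Bool) (u : List Bool) :
    kk v (c :: X) (d :: u) = kk v X (d :: u) + v * kk v X (d :: u ++ [c]) +
      if d = c then kk v X u + v * kk v X (u ++ [c]) else 0 := by
  rw [kk]

theorem kk_cons_nil (v : ℝ) (c : Bool) (X : List Bool) : kk v (c :: X) [] = 0 := by
  rw [kk]

theorem aa_nonneg {v : ℝ} (hv : 0 ≤ v) : ∀ X u : List Bool, 0 ≤ aa v X u := by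
  intro X
  induction X with
  | nil => intro u; cases u <;> simp [aa]
  | cons c X ih =>
    intro u
    cases u with
    | nil =>
      rw [aa_cons_nil]
      have h1 := ih []
      have h2 := ih [c]
      positivity
    | cons d u =>
      rw [aa_cons_cons]
      have h1 := ih (d :: u)
      have h2 := ih (d :: u ++ [c])
      have h3 := ih u
      have h4 := ih (u ++ [c])
      split_ifs <;> positivity

theorem kk_nonneg {v : ℝ} (hv : 0 ≤ v) : ∀ X u : List Bool, 0 ≤ kk v X u := by
  intro X
  induction X with
  | nil => intro u; cases u <;> simp [kk]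
  | cons c X ih =>
    intro u
    cases u with
    | nil => rw [kk_cons_nil]
    | cons d u =>
      rw [kk_cons_cons]
      have h1 := ih (d :: u)
      have h2 := ih (d :: u ++ [c])
      have h3 := ih u
      have h4 := ih (u ++ [c])
      split_ifs <;> positivity

/-! ### linearity -/

theorem gs_add (v : ℝ) : ∀ (L : ℕ) (F G : List Bool → ℝ),
    gs v L (fun Y => F Y + G Y) = gs v L F + gs v L G := by
  intro L
  induction L with
  | zero => intro F G; rfl
  | succ L ih =>
    intro F G
    simp only [gs]
    rw [ih (fun X => F (true :: X)), ih (fun X => F (false :: X))]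
    ring

theorem gs_mul (v : ℝ) (a : ℝ) : ∀ (L : ℕ) (F : List Bool → ℝ),
    gs v L (fun Y => a * F Y) = a * gs v L F := by
  intro L
  induction L with
  | zero => intro F; rfl
  | succ L ih =>
    intro F
    simp only [gs]
    rw [ih (fun X => F (true :: X)), ih (fun X => F (false :: X))]
    ring

theorem gs_zero (v : ℝ) : ∀ (L : ℕ), gs v L (fun _ => 0) = 0 := by
  intro L
  have := gs_mul v 0 L (fun _ => 0)
  simpa using this

theorem gs_step (v : ℝ) (L : ℕ) (c : Bool) (X : List Bool) (Q : List Bool → ℝ) :
    gs v (L + 1) (fun Y => zz (c :: X) Y * Q Y) =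
      gs v (L + 1) (fun Y => zz X Y * Q Y) + v * gs v L (fun Y => zz X Y * Q (c :: Y)) := by
  simp only [gs, zz_nil, zz_cons]
  cases c
  · have h1 : (fun Y : List Bool => (zz X (true :: Y) + if true = false then zz X Y else 0) *
        Q (true :: Y)) = fun Y => zz X (true :: Y) * Q (true :: Y) := by
      funext Y; simp
    have h2 : (fun Y : List Bool => (zz X (false :: Y) + if false = false then zz X Y else 0) *
        Q (false :: Y)) = fun Y => zz X (false :: Y) * Q (false :: Y) + zz X Y * Q (false :: Y) := by
      funext Y; simp; ring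
    rw [h1, h2, gs_add]
    ring
  · have h1 : (fun Y : List Bool => (zz X (false :: Y) + if false = true then zz X Y else 0) *
        Q (false :: Y)) = fun Y => zz X (false :: Y) * Q (false :: Y) := by
      funext Y; simp
    have h2 : (fun Y : List Bool => (zz X (true :: Y) + if true = true then zz X Y else 0) *
        Q (true :: Y)) = fun Y => zz X (true :: Y) * Q (true :: Y) + zz X Y * Q (true :: Y) := by
      funext Y; simp; ring
    rw [h1, h2, gs_add]
    ring

theorem aa_eq (v : ℝ) : ∀ (X u : List Bool) (L : ℕ), X.length ≤ L →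
    aa v X u = gs v L (fun Y => zz X Y * zz X (u ++ Y)) := by
  intro X
  induction X with
  | nil =>
    intro u L _
    have hz : ∀ (b : Bool) (L : ℕ), gs v L (fun Y => zz [] (b :: Y) * zz [] (u ++ b :: Y)) = 0 := by
      intro b L
      have : (fun Y : List Bool => zz [] (b :: Y) * zz [] (u ++ b :: Y)) = fun _ => 0 := by
        funext Y; rw [zz_nil_cons]; ring
      rw [this, gs_zero]
    cases L with
    | zero => cases u <;> simp [gs, aa, zz]
    | succ L =>
      simp only [gs]
      rw [hz, hz]
      cases u <;> simp [aa, zz]
  | cons c X ih =>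
    intro u L hL
    cases L with
    | zero => simp at hL
    | succ L =>
      have hL' : X.length ≤ L := by simpa using hL
      rw [gs_step v L c X (fun Y => zz (c :: X) (u ++ Y))]
      cases u with
      | nil =>
        rw [aa_cons_nil]
        have e1 : (fun Y : List Bool => zz X Y * zz (c :: X) ([] ++ Y)) =
            fun Y => zz (c :: X) Y * zz X Y := by
          funext Y; rw [List.nil_append]; ring
        rw [e1, gs_step v L c X (fun Y => zz X Y)]
        have e2 : (fun Y : List Bool => zz X Y * zz (c :: X) ([] ++ c :: Y)) =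
            fun Y => zz X Y * zz X (c :: Y) + zz X Y * zz X Y := by
          funext Y; rw [List.nil_append, zz_cons, if_pos rfl]; ring
        rw [e2, gs_add]
        rw [ih [] (L + 1) (by omega), ih [c] L hL']
        have e3 : gs v (L + 1) (fun Y => zz X Y * zz X ([] ++ Y)) =
            gs v (L + 1) (fun Y => zz X Y * zz X Y) := by simp
        have e4 : gs v L (fun Y => zz X Y * zz X Y) =
            gs v (L + 1) (fun Y => zz X Y * zz X Y) := by
          have h1 := ih [] L hL'
          have h2 := ih [] (L + 1) (by omega)
          simp only [List.nil_append] at h1 h2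
          rw [← h1, h2]
        rw [e3, e4]
        simp only [List.cons_append, List.nil_append]
        ring
      | cons d u =>
        rw [aa_cons_cons]
        have e1 : (fun Y : List Bool => zz X Y * zz (c :: X) (d :: u ++ Y)) =
            fun Y => zz X Y * zz X (d :: u ++ Y) +
              (if d = c then 1 else 0) * (zz X Y * zz X (u ++ Y)) := by
          funext Y
          simp only [List.cons_append]
          rw [zz_cons]
          split_ifs <;> ring
        have e2 : (fun Y : List Bool => zz X Y * zz (c :: X) (d :: u ++ c :: Y)) =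
            fun Y => zz X Y * zz X (d :: u ++ [c] ++ Y) +
              (if d = c then 1 else 0) * (zz X Y * zz X (u ++ [c] ++ Y)) := by
          funext Y
          simp only [List.cons_append, List.append_assoc, List.nil_append]
          rw [zz_cons]
          split_ifs <;> ring
        rw [e1, e2, gs_add, gs_add, gs_mul, gs_mul]
        rw [← ih (d :: u) (L + 1) (by omega), ← ih u (L + 1) (by omega),
          ← ih (d :: u ++ [c]) L hL', ← ih (u ++ [c]) L hL']
        split_ifs <;> ring

/-! ### relation with the canonical sums -/

theorem ws_nonneg : ∀ (n : ℕ) (F : List Bool → ℝ), (∀ Y, 0 ≤ F Y) → 0 ≤ ws n F := by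
  intro n
  induction n with
  | zero => intro F h; exact h _
  | succ n ih =>
    intro F h
    have h1 := ih (fun X => F (true :: X)) fun Y => h _
    have h2 := ih (fun X => F (false :: X)) fun Y => h _
    simp only [ws]
    linarith

theorem ws_mono : ∀ (n : ℕ) (F G : List Bool → ℝ), (∀ Y, F Y ≤ G Y) → ws n F ≤ ws n G := by
  intro n
  induction n with
  | zero => intro F G h; exact h _
  | succ n ih =>
    intro F G h
    have h1 := ih (fun X => F (true :: X)) (fun X => G (true :: X)) fun Y => h _
    have h2 := ih (fun X => F (false :: X)) (fun X => G (false :: X)) fun Y => h _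
    simp only [ws]
    linarith

theorem gs_eq (v : ℝ) : ∀ (L : ℕ) (F : List Bool → ℝ),
    gs v L F = ∑ m ∈ range (L + 1), v ^ m * ws m F := by
  intro L
  induction L with
  | zero => intro F; simp [gs, ws]
  | succ L ih =>
    intro F
    simp only [gs]
    rw [ih, ih, Finset.sum_range_succ' (fun m => v ^ m * ws m F)]
    simp only [ws, pow_zero, one_mul]
    rw [mul_add, Finset.mul_sum, Finset.mul_sum, ← Finset.sum_add_distrib, add_comm]
    congr 1
    refine Finset.sum_congr rfl fun m _ => ?_
    ring

/-- canonical sum of the squares of the embedding counts -/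
noncomputable def sq (M : ℕ) (X : List Bool) : ℝ := ws M (fun Y => zz X Y ^ 2)

theorem aa_nil (v : ℝ) (X : List Bool) :
    aa v X [] = ∑ m ∈ range (X.length + 1), v ^ m * sq m X := by
  rw [aa_eq v X [] X.length le_rfl, gs_eq]
  refine Finset.sum_congr rfl fun m _ => ?_
  unfold sq
  congr 2
  funext Y
  rw [List.nil_append]
  ring

theorem sq_nonneg' (M : ℕ) (X : List Bool) : 0 ≤ sq M X :=
  ws_nonneg M _ fun _ => sq_nonneg _

theorem sq_mono (M : ℕ) (c : Bool) (X : List Bool) : sq M X ≤ sq M (c :: X) := by
  refine ws_mono M _ _ fun Y => ?_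
  have h1 := zz_mono c X Y
  have h2 := zz_nonneg X Y
  nlinarith

theorem sq_mono2 (M : ℕ) (c : Bool) (X : List Bool) : sq M X ≤ sq (M + 1) (c :: X) := by
  have key : ∀ b : Bool, 0 ≤ ws M (fun Y => zz (c :: X) (b :: Y) ^ 2) := fun b =>
    ws_nonneg M _ fun _ => sq_nonneg _
  have h : sq M X ≤ ws M (fun Y => zz (c :: X) (c :: Y) ^ 2) := by
    refine ws_mono M _ _ fun Y => ?_
    have h1 := zz_mono2 c X Y
    have h2 := zz_nonneg X Y
    nlinarith
  have h3 : sq (M + 1) (c :: X) = ws M (fun Y => zz (c :: X) (true :: Y) ^ 2) +
      ws M (fun Y => zz (c :: X) (false :: Y) ^ 2) := rfl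
  rw [h3]
  cases c
  · have := key true; linarith
  · have := key false; linarith

theorem sq_zero_of_lt : ∀ (X Y : List Bool), X.length < Y.length → zz X Y = 0 := by
  intro X
  induction X with
  | nil =>
    intro Y h
    cases Y with
    | nil => simp at h
    | cons b Y => exact zz_nil_cons _ _
  | cons c X ih =>
    intro Y h
    cases Y with
    | nil => simp at h
    | cons b Y =>
      rw [zz_cons, ih (b :: Y) (by simp at h ⊢; omega), ih Y (by simpa using h)]
      simp

end Pool.Agent.Q297.JG
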