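import Pool.Agent.Q297.JG1

/-!
# Averages over words
-/

set_option autoImplicit false

namespace Pool.Agent.Q297.JG

open Finset

theorem av_congr : ∀ (n : ℕ) (F G : List Bool → ℝ), (∀ X, X.length = n → F X = G X) →
    av n F = av n G := by
  intro n
  induction n with
  | zero => intro F G h; exact h [] rfl
  | succ n ih =>
    intro F G h
    simp only [av]
    rw [ih (fun X => F (true :: X)) (fun X => G (true :: X)) fun X hX => h _ (by simp [hX]),
      ih (fun X => F (false :: X)) (fun X => G (false :: X)) fun X hX => h _ (by simp [hX])]

theorem av_mono : ∀ (n : ℕ) (F G : List Bool → ℝ), (∀ X, X.length = n → F X ≤ G X) →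
    av n F ≤ av n G := by
  intro n
  induction n with
  | zero => intro F G h; exact h [] rfl
  | succ n ih =>
    intro F G h
    simp only [av]
    have h1 := ih (fun X => F (true :: X)) (fun X => G (true :: X)) fun X hX => h _ (by simp [hX])
    have h2 := ih (fun X => F (false :: X)) (fun X => G (false :: X)) fun X hX => h _ (by simp [hX])
    linarith

theorem av_add : ∀ (n : ℕ) (F G : List Bool → ℝ),
    av n (fun X => F X + G X) = av n F + av n G := by
  intro n
  induction n with
  | zero => intro F G; rfl
  | succ n ih =>
    intro F G
    simp only [av]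
    rw [ih (fun X => F (true :: X)), ih (fun X => F (false :: X))]
    ring

theorem av_mul : ∀ (n : ℕ) (a : ℝ) (F : List Bool → ℝ),
    av n (fun X => a * F X) = a * av n F := by
  intro n
  induction n with
  | zero => intro a F; rfl
  | succ n ih =>
    intro a F
    simp only [av]
    rw [ih a (fun X => F (true :: X)), ih a (fun X => F (false :: X))]
    ring

theorem av_const (n : ℕ) (a : ℝ) : av n (fun _ => a) = a := by
  induction n with
  | zero => rfl
  | succ n ih => simp only [av]; rw [ih]; ring

theorem av_nonneg (n : ℕ) (F : List Bool → ℝ) (h : ∀ X, X.length = n → 0 ≤ F X) :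
    0 ≤ av n F := by
  have := av_mono n (fun _ => 0) F h
  rwa [av_const] at this

theorem av_sum {ι : Type} (n : ℕ) (s : Finset ι) (F : ι → List Bool → ℝ) :
    av n (fun X => ∑ i ∈ s, F i X) = ∑ i ∈ s, av n (F i) := by
  classical
  induction s using Finset.induction_on with
  | empty => simp [av_const]
  | insert i s hi ih =>
    have : (fun X => ∑ j ∈ insert i s, F j X) = fun X => F i X + ∑ j ∈ s, F j X := by
      funext X; rw [Finset.sum_insert hi]
    rw [this, av_add, ih, Finset.sum_insert hi]

/-- splitting a word at `n` -/
theorem av_split : ∀ (n k : ℕ) (F : List Bool → List Bool → ℝ),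
    av (n + k) (fun X => F (X.take n) (X.drop n)) = av n (fun X1 => av k (fun X2 => F X1 X2)) := by
  intro n
  induction n with
  | zero => intro k F; simp [av]
  | succ n ih =>
    intro k F
    rw [show n + 1 + k = (n + k) + 1 by ring]
    simp only [av, List.take_succ_cons, List.drop_succ_cons]
    rw [ih k (fun X1 X2 => F (true :: X1) X2), ih k (fun X1 X2 => F (false :: X1) X2)]

theorem av_snoc : ∀ (n : ℕ) (F : List Bool → ℝ),
    av (n + 1) F = (av n (fun X => F (X ++ [true])) + av n (fun X => F (X ++ [false]))) / 2 := by
  intro n
  induction n with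
  | zero => intro F; simp [av]
  | succ n ih =>
    intro F
    have h1 : av (n + 1 + 1) F =
        (av (n + 1) (fun X => F (true :: X)) + av (n + 1) (fun X => F (false :: X))) / 2 := rfl
    rw [h1, ih (fun X => F (true :: X)), ih (fun X => F (false :: X))]
    simp only [av, List.cons_append]
    ring

theorem av_flip : ∀ (n : ℕ) (F : List Bool → ℝ),
    av n (fun X => F (X.map not)) = av n F := by
  intro n
  induction n with
  | zero => intro F; rfl
  | succ n ih =>
    intro F
    simp only [av, List.map_cons]
    rw [ih (fun X => F ((!true) :: X)), ih (fun X => F ((!false) :: X))]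
    simp only [Bool.not_true, Bool.not_false]
    ring

theorem aa_flip (v : ℝ) : ∀ X u : List Bool, aa v (X.map not) (u.map not) = aa v X u := by
  intro X
  induction X with
  | nil => intro u; cases u <;> simp [aa]
  | cons c X ih =>
    intro u
    cases u with
    | nil =>
      simp only [List.map_cons, List.map_nil]
      rw [aa_cons_nil, aa_cons_nil]
      have h1 := ih []
      have h2 := ih [c]
      simp only [List.map_cons, List.map_nil] at h1 h2
      rw [h1, h2]
    | cons d u =>
      simp only [List.map_cons]
      rw [aa_cons_cons, aa_cons_cons]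
      have h1 := ih (d :: u)
      have h2 := ih (d :: u ++ [c])
      have h3 := ih u
      have h4 := ih (u ++ [c])
      simp only [List.map_cons, List.map_append, List.map_nil] at h1 h2 h4
      rw [h1, h2, h3, h4]
      cases d <;> cases c <;> simp

theorem kk_flip (v : ℝ) : ∀ X u : List Bool, kk v (X.map not) (u.map not) = kk v X u := by
  intro X
  induction X with
  | nil => intro u; cases u <;> simp [kk]
  | cons c X ih =>
    intro u
    cases u with
    | nil =>
      simp only [List.map_cons, List.map_nil]
      rw [kk_cons_nil, kk_cons_nil]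
    | cons d u =>
      simp only [List.map_cons]
      rw [kk_cons_cons, kk_cons_cons]
      have h1 := ih (d :: u)
      have h2 := ih (d :: u ++ [c])
      have h3 := ih u
      have h4 := ih (u ++ [c])
      simp only [List.map_cons, List.map_append, List.map_nil] at h1 h2 h4
      rw [h1, h2, h3, h4]
      cases d <;> cases c <;> simp

/-! ### the averaged weights depend on the length of the queue only -/

/-- the transfer operator -/
noncomputable def tr (v : ℝ) (f : ℕ → ℝ) : ℕ → ℝ
  | 0 => (1 + v) * f 0 + 2 * v * f 1
  | s + 1 => (1 + v / 2) * f (s + 1) + f s / 2 + v * f (s + 2)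

noncomputable def an (v : ℝ) : ℕ → ℕ → ℝ
  | 0 => fun s => if s = 0 then 1 else 0
  | n + 1 => tr v (an v n)

/-- the transfer operator of the first passage kernel -/
noncomputable def tk (v : ℝ) (f : ℕ → ℝ) : ℕ → ℝ
  | 0 => 0
  | s + 1 => (1 + v / 2) * f (s + 1) + f s / 2 + v * f (s + 2)

noncomputable def kn (v : ℝ) : ℕ → ℕ → ℝ
  | 0 => fun s => if s = 0 then 1 else 0
  | n + 1 => tk v (kn v n)

theorem av_ite (n : ℕ) (p : Prop) [Decidable p] (F : List Bool → ℝ) :
    av n (fun X => if p then F X else 0) = if p then av n F else 0 := by
  split_ifs
  · rfl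
  · exact av_const n 0

theorem av_aa (v : ℝ) : ∀ (n : ℕ) (u : List Bool), av n (fun X => aa v X u) = an v n u.length := by
  intro n
  induction n with
  | zero => intro u; cases u <;> simp [av, aa, an]
  | succ n ih =>
    intro u
    cases u with
    | nil =>
      simp only [av, aa_cons_nil]
      rw [av_add, av_mul, av_mul, av_add, av_mul, av_mul, ih, ih, ih]
      simp only [List.length_nil, List.length_cons, an, tr]
      ring
    | cons d u =>
      simp only [av, aa_cons_cons]
      rw [av_add, av_add, av_mul, av_ite, av_add, av_mul, av_add, av_add, av_mul, av_ite, av_add,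
        av_mul, ih, ih, ih, ih, ih, ih]
      simp only [List.length_append, List.length_cons, List.length_nil, an, tr]
      cases d <;> simp <;> ring

theorem av_kk (v : ℝ) : ∀ (n : ℕ) (u : List Bool), av n (fun X => kk v X u) = kn v n u.length := by
  intro n
  induction n with
  | zero => intro u; cases u <;> simp [av, kk, kn]
  | succ n ih =>
    intro u
    cases u with
    | nil =>
      simp only [av, kk_cons_nil]
      rw [av_const]
      simp [kn, tk]
    | cons d u =>
      simp only [av, kk_cons_cons]
      rw [av_add, av_add, av_mul, av_ite, av_add, av_mul, av_add, av_add, av_mul, av_ite, av_add,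
        av_mul, ih, ih, ih, ih, ih, ih]
      simp only [List.length_append, List.length_cons, List.length_nil, kn, tk]
      cases d <;> simp <;> ring

theorem an_nonneg {v : ℝ} (hv : 0 ≤ v) (n s : ℕ) : 0 ≤ an v n s := by
  have h := av_aa v n (List.replicate s true)
  rw [List.length_replicate] at h
  rw [← h]
  exact av_nonneg n _ fun X _ => aa_nonneg hv X _

theorem kn_nonneg {v : ℝ} (hv : 0 ≤ v) (n s : ℕ) : 0 ≤ kn v n s := by
  have h := av_kk v n (List.replicate s true)
  rw [List.length_replicate] at h
  rw [← h]
  exact av_nonneg n _ fun X _ => kk_nonneg hv X _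

theorem an_zero_of_lt (v : ℝ) : ∀ (n s : ℕ), n < s → an v n s = 0 := by
  intro n
  induction n with
  | zero => intro s hs; simp [an]; omega
  | succ n ih =>
    intro s hs
    obtain ⟨s, rfl⟩ : ∃ t, s = t + 1 := ⟨s - 1, by omega⟩
    simp only [an, tr]
    rw [ih (s + 1) (by omega), ih s (by omega), ih (s + 2) (by omega)]
    ring

/-! ### the decomposition at the first time the queue is empty -/

theorem decomp (v : ℝ) : ∀ X u : List Bool,
    aa v X u = ∑ n ∈ range (X.length + 1), kk v (X.take n) u * aa v (X.drop n) [] := by
  intro X
  induction X with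
  | nil =>
    intro u
    cases u <;> simp [aa, kk]
  | cons c X ih =>
    intro u
    rw [List.length_cons, Finset.sum_range_succ']
    simp only [List.take_succ_cons, List.drop_succ_cons, List.take_zero, List.drop_zero]
    cases u with
    | nil =>
      have : ∀ n ∈ range (X.length + 1),
          kk v (c :: List.take n X) [] * aa v (List.drop n X) [] = 0 := by
        intro n _
        rw [kk_cons_nil, zero_mul]
      rw [Finset.sum_eq_zero this]
      simp [kk]
    | cons d u =>
      simp only [kk_cons_cons]
      have h0 : kk v [] (d :: u) = 0 := by simp [kk]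
      rw [h0, zero_mul, add_zero, aa_cons_cons, ih (d :: u), ih (d :: u ++ [c]), ih u,
        ih (u ++ [c])]
      by_cases hdc : d = c
      · simp only [if_pos hdc]
        rw [Finset.mul_sum, Finset.mul_sum, ← Finset.sum_add_distrib, ← Finset.sum_add_distrib,
          ← Finset.sum_add_distrib]
        exact Finset.sum_congr rfl fun n _ => by ring
      · simp only [if_neg hdc]
        rw [Finset.mul_sum, ← Finset.sum_add_distrib, add_zero]
        exact Finset.sum_congr rfl fun n _ => by ring

end Pool.Agent.Q297.JG
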