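import Pool.Agent.Q297.JG2

/-!
# The growth rate of the averaged weights
-/

set_option autoImplicit false

namespace Pool.Agent.Q297.JG

open Finset

/-- the parametrisation by `q` -/
noncomputable def vq (q : ℝ) : ℝ := 2 * (1 - q) ^ 2 / q
noncomputable def lq (q : ℝ) : ℝ := (2 - q) / q
noncomputable def tq (q : ℝ) : ℝ := q / (2 * (1 - q))

theorem vq_pos {q : ℝ} (h0 : 0 < q) (h1 : q < 1) : 0 < vq q := by
  unfold vq
  have : 0 < 1 - q := by linarith
  positivity

theorem lq_pos {q : ℝ} (h0 : 0 < q) (h1 : q < 1) : 1 < lq q := by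
  unfold lq
  rw [lt_div_iff₀ h0]
  linarith

theorem tq_pos {q : ℝ} (h0 : 0 < q) (h1 : q < 1) : 0 < tq q := by
  unfold tq
  have : 0 < 1 - q := by linarith
  positivity

theorem eig0 {q : ℝ} (h0 : 0 < q) (h1 : q < 1) :
    (1 + vq q) + 2 * vq q * tq q = lq q := by
  unfold vq tq lq
  have : 1 - q ≠ 0 := by linarith
  field_simp
  ring

theorem eig1 {q : ℝ} (h0 : 0 < q) (h1 : q < 1) :
    (1 + vq q / 2) * tq q + 1 / 2 + vq q * tq q ^ 2 = lq q * tq q := by
  unfold vq tq lq
  have : 1 - q ≠ 0 := by linarith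
  field_simp
  ring

theorem vtt {q : ℝ} (h0 : 0 < q) (h1 : q < 1) : 2 * vq q * tq q ^ 2 = q := by
  unfold vq tq
  have : 1 - q ≠ 0 := by linarith
  field_simp

theorem tr_eig {q : ℝ} (h0 : 0 < q) (h1 : q < 1) (s : ℕ) :
    tr (vq q) (fun s => tq q ^ s) s = lq q * tq q ^ s := by
  cases s with
  | zero => simp only [tr, pow_zero, pow_one]; rw [← eig0 h0 h1]; ring
  | succ s =>
    simp only [tr]
    have h := eig1 h0 h1
    calc (1 + vq q / 2) * tq q ^ (s + 1) + tq q ^ s / 2 + vq q * tq q ^ (s + 2)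
        = ((1 + vq q / 2) * tq q + 1 / 2 + vq q * tq q ^ 2) * tq q ^ s := by ring
      _ = lq q * tq q ^ (s + 1) := by rw [h]; ring

theorem tr_mono {v : ℝ} (hv : 0 ≤ v) (f g : ℕ → ℝ) (h : ∀ s, f s ≤ g s) (s : ℕ) :
    tr v f s ≤ tr v g s := by
  cases s with
  | zero =>
    simp only [tr]
    have := h 0
    have := h 1
    gcongr
  | succ s =>
    simp only [tr]
    have := h s
    have := h (s + 1)
    have := h (s + 2)
    gcongr

theorem tr_smul (v a : ℝ) (f : ℕ → ℝ) (s : ℕ) : tr v (fun s => a * f s) s = a * tr v f s := by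
  cases s <;> simp only [tr] <;> ring

theorem an_le {q : ℝ} (h0 : 0 < q) (h1 : q < 1) : ∀ (n s : ℕ),
    an (vq q) n s ≤ lq q ^ n * tq q ^ s := by
  intro n
  induction n with
  | zero =>
    intro s
    simp only [an, pow_zero, one_mul]
    split_ifs with h
    · subst h; simp
    · exact pow_nonneg (tq_pos h0 h1).le s
  | succ n ih =>
    intro s
    simp only [an]
    refine (tr_mono (vq_pos h0 h1).le _ _ ih s).trans ?_
    rw [tr_smul (vq q) (lq q ^ n) (fun s => tq q ^ s), tr_eig h0 h1]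
    rw [pow_succ]
    linarith [mul_assoc (lq q ^ n) (lq q) (tq q ^ s)]

/-- the reversing weights -/
noncomputable def mm (v : ℝ) (s : ℕ) : ℝ := if s = 0 then 1 else 2 * (2 * v) ^ s

theorem mm_nonneg {v : ℝ} (hv : 0 ≤ v) (s : ℕ) : 0 ≤ mm v s := by
  unfold mm; split_ifs <;> positivity

theorem green (v : ℝ) (f g : ℕ → ℝ) (L : ℕ) :
    ∑ s ∈ range (L + 1), mm v s * (tr v f s * g s - f s * tr v g s) =
      (2 * v) ^ (L + 1) * (f (L + 1) * g L - f L * g (L + 1)) := by
  induction L with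
  | zero => simp [mm, tr]; ring
  | succ L ih =>
    rw [Finset.sum_range_succ, ih]
    simp only [mm, Nat.add_eq_zero_iff, one_ne_zero, and_false, if_false, tr]
    ring

noncomputable def pp (v : ℝ) (L : ℕ) (f g : ℕ → ℝ) : ℝ :=
  ∑ s ∈ range (L + 1), mm v s * (f s * g s)

theorem pp_tr (v : ℝ) (f g : ℕ → ℝ) (L : ℕ) (h1 : f (L + 1) = 0) (h2 : f L = 0) :
    pp v L (tr v f) g = pp v L f (tr v g) := by
  have h := green v f g L
  rw [h1, h2] at h
  unfold pp
  rw [← sub_eq_zero, ← Finset.sum_sub_distrib]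
  rw [zero_mul, zero_mul, sub_zero, mul_zero] at h
  rw [← h]
  exact Finset.sum_congr rfl fun s _ => by ring

theorem pp_zero (v : ℝ) (f : ℕ → ℝ) (L : ℕ) : pp v L f (an v 0) = f 0 := by
  unfold pp
  rw [Finset.sum_range_succ']
  have : ∀ s ∈ range L, mm v (s + 1) * (f (s + 1) * an v 0 (s + 1)) = 0 := by
    intro s _
    simp [an]
  rw [Finset.sum_eq_zero this]
  simp [mm, an]

theorem pp_comm (v : ℝ) (f g : ℕ → ℝ) (L : ℕ) : pp v L f g = pp v L g f := by
  unfold pp
  exact Finset.sum_congr rfl fun s _ => by ring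

theorem pp_an (v : ℝ) (L : ℕ) : ∀ (k n : ℕ), n + k < L →
    pp v L (an v n) (an v k) = an v (n + k) 0 := by
  intro k
  induction k with
  | zero => intro n _; rw [pp_zero]; rfl
  | succ k ih =>
    intro n h
    have h1 : pp v L (an v n) (an v (k + 1)) = pp v L (an v (n + 1)) (an v k) := by
      change pp v L (an v n) (tr v (an v k)) = pp v L (tr v (an v n)) (an v k)
      rw [pp_tr]
      · exact an_zero_of_lt v n (L + 1) (by omega)
      · exact an_zero_of_lt v n L (by omega)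
    rw [h1, ih (n + 1) (by omega)]
    congr 1
    ring

theorem pp_h {q : ℝ} (h0 : 0 < q) (h1 : q < 1) (L : ℕ) : ∀ (n : ℕ), n ≤ L →
    pp (vq q) L (an (vq q) n) (fun s => tq q ^ s) = lq q ^ n := by
  intro n
  induction n with
  | zero =>
    intro _
    rw [pp_comm, pp_zero]
    simp
  | succ n ih =>
    intro h
    change pp (vq q) L (tr (vq q) (an (vq q) n)) _ = _
    rw [pp_tr _ _ _ _ (an_zero_of_lt _ _ _ (by omega)) (an_zero_of_lt _ _ _ (by omega))]
    have h2 : tr (vq q) (fun s => tq q ^ s) = fun s => lq q * tq q ^ s := by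
      funext s; exact tr_eig h0 h1 s
    rw [h2]
    have h3 : pp (vq q) L (an (vq q) n) (fun s => lq q * tq q ^ s) =
        lq q * pp (vq q) L (an (vq q) n) (fun s => tq q ^ s) := by
      unfold pp
      rw [Finset.mul_sum]
      exact Finset.sum_congr rfl fun s _ => by ring
    rw [h3, ih (by omega), pow_succ]
    ring

theorem pp_hh {q : ℝ} (h0 : 0 < q) (h1 : q < 1) (L : ℕ) :
    pp (vq q) L (fun s => tq q ^ s) (fun s => tq q ^ s) ≤ (1 + q) / (1 - q) := by
  unfold pp
  have hterm : ∀ s : ℕ, mm (vq q) (s + 1) * (tq q ^ (s + 1) * tq q ^ (s + 1)) = 2 * q * q ^ s := by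
    intro s
    simp only [mm, Nat.add_eq_zero_iff, one_ne_zero, and_false, if_false]
    calc 2 * (2 * vq q) ^ (s + 1) * (tq q ^ (s + 1) * tq q ^ (s + 1))
        = 2 * (2 * vq q * tq q ^ 2) ^ (s + 1) := by ring
      _ = 2 * q * q ^ s := by rw [vtt h0 h1, pow_succ]; ring
  rw [Finset.sum_range_succ']
  simp only [hterm]
  rw [← Finset.mul_sum]
  have hgeo : ∑ s ∈ range L, q ^ s ≤ 1 / (1 - q) := by
    rw [le_div_iff₀ (by linarith), geom_sum_mul_neg]
    have : 0 ≤ q ^ L := pow_nonneg h0.le L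
    linarith
  have h2 : 2 * q * ∑ s ∈ range L, q ^ s ≤ 2 * q * (1 / (1 - q)) := by gcongr
  have h3 : (1 + q) / (1 - q) = 2 * q * (1 / (1 - q)) + 1 := by
    have : 1 - q ≠ 0 := by linarith
    field_simp
    ring
  rw [h3]
  simp only [mm, if_true, pow_zero, mul_one]
  linarith

theorem cs (w f g : ℕ → ℝ) (hw : ∀ s, 0 ≤ w s) (s : Finset ℕ) :
    (∑ i ∈ s, w i * (f i * g i)) ^ 2 ≤
      (∑ i ∈ s, w i * (f i * f i)) * ∑ i ∈ s, w i * (g i * g i) := by
  have h := Finset.sum_mul_sq_le_sq_mul_sq s (fun i => Real.sqrt (w i) * f i)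
    (fun i => Real.sqrt (w i) * g i)
  have e1 : ∀ i, Real.sqrt (w i) * f i * (Real.sqrt (w i) * g i) = w i * (f i * g i) := by
    intro i
    have := Real.mul_self_sqrt (hw i)
    calc Real.sqrt (w i) * f i * (Real.sqrt (w i) * g i)
        = (Real.sqrt (w i) * Real.sqrt (w i)) * (f i * g i) := by ring
      _ = _ := by rw [this]
  have e2 : ∀ i, (Real.sqrt (w i) * f i) ^ 2 = w i * (f i * f i) := by
    intro i
    rw [mul_pow, Real.sq_sqrt (hw i)]; ring
  have e3 : ∀ i, (Real.sqrt (w i) * g i) ^ 2 = w i * (g i * g i) := by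
    intro i
    rw [mul_pow, Real.sq_sqrt (hw i)]; ring
  simp only [e1, e2, e3] at h
  exact h

theorem an_even_ge {q : ℝ} (h0 : 0 < q) (h1 : q < 1) (n : ℕ) :
    (1 - q) / (1 + q) * lq q ^ (2 * n) ≤ an (vq q) (2 * n) 0 := by
  have hq : 0 < 1 - q := by linarith
  have ha := pp_an (vq q) (2 * n + 1) n n (by omega)
  have hh := pp_h h0 h1 (2 * n + 1) n (by omega)
  have hc := cs (mm (vq q)) (an (vq q) n) (fun s => tq q ^ s) (mm_nonneg (vq_pos h0 h1).le)
    (range (2 * n + 1 + 1))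
  change (pp (vq q) (2 * n + 1) (an (vq q) n) (fun s => tq q ^ s)) ^ 2 ≤
    pp (vq q) (2 * n + 1) (an (vq q) n) (an (vq q) n) *
      pp (vq q) (2 * n + 1) (fun s => tq q ^ s) (fun s => tq q ^ s) at hc
  rw [ha, hh] at hc
  have hb := pp_hh h0 h1 (2 * n + 1)
  have hpos := an_nonneg (vq_pos h0 h1).le (n + n) 0
  have h2 : (lq q ^ n) ^ 2 ≤ an (vq q) (n + n) 0 * ((1 + q) / (1 - q)) :=
    hc.trans (mul_le_mul_of_nonneg_left hb hpos)
  have h3 : lq q ^ (2 * n) = (lq q ^ n) ^ 2 := by rw [← pow_mul, mul_comm]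
  rw [h3, show 2 * n = n + n by ring]
  calc (1 - q) / (1 + q) * (lq q ^ n) ^ 2
      ≤ (1 - q) / (1 + q) * (an (vq q) (n + n) 0 * ((1 + q) / (1 - q))) := by gcongr
    _ = an (vq q) (n + n) 0 := by
      have : 1 + q ≠ 0 := by linarith
      have : 1 - q ≠ 0 := by linarith
      field_simp

theorem an_succ_ge {v : ℝ} (hv : 0 ≤ v) (n : ℕ) : an v n 0 ≤ an v (n + 1) 0 := by
  simp only [an, tr]
  have h1 := an_nonneg hv n 0
  have h2 := an_nonneg hv n 1
  nlinarith [mul_nonneg hv h1, mul_nonneg hv h2]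

theorem an_ge {q : ℝ} (h0 : 0 < q) (h1 : q < 1) :
    ∃ c : ℝ, 0 < c ∧ ∀ n : ℕ, c * lq q ^ n ≤ an (vq q) n 0 := by
  have hq : 0 < 1 - q := by linarith
  have hl := lq_pos h0 h1
  have hl0 : 0 < lq q := by linarith
  refine ⟨(1 - q) / (1 + q) / lq q, by positivity, fun n => ?_⟩
  rcases Nat.even_or_odd n with ⟨k, hk⟩ | ⟨k, hk⟩
  · have h := an_even_ge h0 h1 k
    rw [show n = 2 * k by omega]
    refine le_trans ?_ h
    refine mul_le_mul_of_nonneg_right ?_ (by positivity)
    exact div_le_self (by positivity) hl.le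
  · have h := an_even_ge h0 h1 k
    have h2 := an_succ_ge (vq_pos h0 h1).le (2 * k)
    rw [show n = 2 * k + 1 by omega]
    refine le_trans ?_ (h.trans h2)
    rw [pow_succ]
    apply le_of_eq
    field_simp

/-! ### generating function of the first passage kernel -/

theorem kn_sum_le {v z t : ℝ} (hv : 0 ≤ v) (hz : 0 ≤ z) (ht : 0 ≤ t)
    (h : z * ((1 + v / 2) * t + 1 / 2 + v * t ^ 2) ≤ t) : ∀ (L s : ℕ),
    ∑ n ∈ range (L + 1), z ^ n * kn v n s ≤ t ^ s := by
  intro L
  induction L with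
  | zero =>
    intro s
    simp only [zero_add, range_one, sum_singleton, pow_zero, one_mul, kn]
    split_ifs with hs
    · subst hs; simp
    · positivity
  | succ L ih =>
    intro s
    rw [Finset.sum_range_succ']
    cases s with
    | zero =>
      have : ∀ n ∈ range (L + 1), z ^ (n + 1) * kn v (n + 1) 0 = 0 := by
        intro n _; simp [kn, tk]
      rw [Finset.sum_eq_zero this]
      simp [kn]
    | succ s =>
      have e : ∀ n, z ^ (n + 1) * kn v (n + 1) (s + 1) =
          z * ((1 + v / 2) * (z ^ n * kn v n (s + 1)) + (z ^ n * kn v n s) / 2 +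
            v * (z ^ n * kn v n (s + 2))) := by
        intro n
        simp only [kn, tk]
        ring
      have e0 : z ^ 0 * kn v 0 (s + 1) = 0 := by simp [kn]
      rw [e0, add_zero]
      simp only [e]
      rw [← Finset.mul_sum, Finset.sum_add_distrib, Finset.sum_add_distrib, ← Finset.mul_sum,
        ← Finset.mul_sum, ← Finset.sum_div]
      have i1 := ih (s + 1)
      have i2 := ih s
      have i3 := ih (s + 2)
      calc z * ((1 + v / 2) * ∑ n ∈ range (L + 1), z ^ n * kn v n (s + 1) +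
            (∑ n ∈ range (L + 1), z ^ n * kn v n s) / 2 +
            v * ∑ n ∈ range (L + 1), z ^ n * kn v n (s + 2))
          ≤ z * ((1 + v / 2) * t ^ (s + 1) + t ^ s / 2 + v * t ^ (s + 2)) := by gcongr
        _ = (z * ((1 + v / 2) * t + 1 / 2 + v * t ^ 2)) * t ^ s := by ring
        _ ≤ t * t ^ s := by gcongr
        _ = t ^ (s + 1) := by ring

theorem kn_sum_base {q : ℝ} (h0 : 0 < q) (h1 : q < 1) (L : ℕ) :
    ∑ n ∈ range (L + 1), (1 / lq q) ^ n * kn (vq q) n 1 ≤ tq q := by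
  have hl : 0 < lq q := lt_trans one_pos (lq_pos h0 h1)
  have h := kn_sum_le (z := 1 / lq q) (t := tq q) (vq_pos h0 h1).le (by positivity)
    (tq_pos h0 h1).le (by rw [eig1 h0 h1]; apply le_of_eq; field_simp) L 1
  rwa [pow_one] at h

/-- the generating function is finite beyond the inverse of the growth rate -/
theorem kn_sum_far {q : ℝ} (h0 : 0 < q) (h1 : q < 1) :
    ∃ z1 C : ℝ, 1 < z1 * lq q ∧ 0 < z1 ∧ 0 < C ∧
      ∀ L : ℕ, ∑ n ∈ range (L + 1), z1 ^ n * kn (vq q) n 1 ≤ C := by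
  have hv := vq_pos h0 h1
  have ht := tq_pos h0 h1
  have hl : 0 < lq q := lt_trans one_pos (lq_pos h0 h1)
  set v := vq q with hvdef
  set t := tq q with htdef
  have hvt : 2 * v * t ^ 2 = q := vtt h0 h1
  obtain ⟨t1, ht1⟩ : ∃ t1 : ℝ, t1 = (t + 1 / (2 * v * t)) / 2 := ⟨_, rfl⟩
  have ht1pos : 0 < t1 := by rw [ht1]; positivity
  have hprod : 2 * v * t * t1 = (q + 1) / 2 := by
    rw [ht1, ← hvt]
    field_simp
  have ht1t : t < t1 := by
    have h2 : 2 * v * t * t < 2 * v * t * t1 := by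
      rw [hprod]
      have : 2 * v * t * t = q := by rw [← hvt]; ring
      rw [this]; linarith
    exact lt_of_mul_lt_mul_left h2 (by positivity)
  set D := (1 + v / 2) * t1 + 1 / 2 + v * t1 ^ 2 with hD
  have hDpos : 0 < D := by positivity
  refine ⟨t1 / D, t1, ?_, by positivity, ht1pos, fun L => ?_⟩
  · rw [div_mul_eq_mul_div, one_lt_div hDpos, hD]
    -- t1 * lq > D, where lq = (1+v/2) + 1/(2t) + v t
    have hlq : lq q * t = (1 + v / 2) * t + 1 / 2 + v * t ^ 2 := (eig1 h0 h1).symm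
    have key : t * (t1 * lq q - ((1 + v / 2) * t1 + 1 / 2 + v * t1 ^ 2)) =
        (t1 - t) * (1 / 2 - v * t * t1) := by
      calc t * (t1 * lq q - ((1 + v / 2) * t1 + 1 / 2 + v * t1 ^ 2))
          = t1 * (lq q * t) - t * ((1 + v / 2) * t1 + 1 / 2 + v * t1 ^ 2) := by ring
        _ = _ := by rw [hlq]; ring
    have hpos : 0 < (t1 - t) * (1 / 2 - v * t * t1) := by
      apply mul_pos (by linarith)
      have : v * t * t1 = (q + 1) / 4 := by linarith
      rw [this]; linarith
    rw [← key] at hpos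
    have := (mul_pos_iff_of_pos_left ht).1 hpos
    linarith
  · have h := kn_sum_le (v := v) (z := t1 / D) (t := t1) hv.le (by positivity) ht1pos.le
      (by rw [← hD]; apply le_of_eq; field_simp) L 1
    rwa [pow_one] at h

end Pool.Agent.Q297.JG
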