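import Pool.Agent.Q297.JG3

/-!
# The tilted weights and the excursions of the queue
-/

set_option autoImplicit false

namespace Pool.Agent.Q297.JG

open Finset

/-- the spin of a letter -/
noncomputable def sg (b : Bool) : ℝ := if b then 1 else -1

/-- the tilt -/
noncomputable def wp (e : ℝ) : Bool → List Bool → ℝ
  | _, [] => 1
  | d, c :: X => (1 - e * (sg d * sg c)) * wp e c X

/-- sum of the products of consecutive spins -/
noncomputable def ts : Bool → List Bool → ℝ
  | _, [] => 0
  | d, c :: X => sg d * sg c + ts c X

def lst : Bool → List Bool → Bool
  | d, [] => d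
  | _, c :: X => lst c X

theorem sg_cases (d c : Bool) : sg d * sg c = 1 ∨ sg d * sg c = -1 := by
  cases d <;> cases c <;> simp [sg]

theorem sg_flip (d c : Bool) : sg (!d) * sg (!c) = sg d * sg c := by
  cases d <;> cases c <;> simp [sg]

theorem wp_flip (e : ℝ) : ∀ (X : List Bool) (d : Bool), wp e (!d) (X.map not) = wp e d X := by
  intro X
  induction X with
  | nil => intro d; rfl
  | cons c X ih =>
    intro d
    simp only [List.map_cons, wp]
    rw [ih c, sg_flip]

theorem wp_append (e : ℝ) : ∀ (X1 X2 : List Bool) (d : Bool),
    wp e d (X1 ++ X2) = wp e d X1 * wp e (lst d X1) X2 := by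
  intro X1
  induction X1 with
  | nil => intro X2 d; simp [wp, lst]
  | cons c X1 ih =>
    intro X2 d
    simp only [List.cons_append, wp, lst]
    rw [ih X2 c]
    ring

theorem wp_bound {e : ℝ} (h0 : 0 ≤ e) (h1 : e ≤ 1) : ∀ (X : List Bool) (d : Bool),
    0 ≤ wp e d X ∧ wp e d X ≤ (1 + e) ^ X.length ∧
      2 - (1 + e) ^ X.length ≤ wp e d X ∧
      wp e d X ≤ (1 + e) ^ X.length - X.length * e - e * ts d X := by
  intro X
  induction X with
  | nil => intro d; simp [wp, ts]; norm_num
  | cons c X ih =>
    intro d
    obtain ⟨i1, i2, i3, i4⟩ := ih c
    simp only [wp, ts, List.length_cons]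
    have hp : 1 ≤ (1 + e) ^ X.length := one_le_pow₀ (by linarith)
    push_cast
    rw [pow_succ]
    rcases sg_cases d c with h | h
    · rw [h]
      refine ⟨mul_nonneg (by linarith) i1, by nlinarith, by nlinarith, by nlinarith⟩
    · rw [h]
      refine ⟨mul_nonneg (by linarith) i1, by nlinarith, by nlinarith, by nlinarith⟩

/-! ### characters -/

noncomputable def chi (a x : Bool) : ℝ := if a then sg x else 1

noncomputable def ch : List Bool → List Bool → ℝ
  | a :: α, x :: u => chi a x * ch α u
  | [], _ => 1
  | _ :: _, [] => 1

theorem ch_cons (a : Bool) (α : List Bool) (x : Bool) (u : List Bool) :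
    ch (a :: α) (x :: u) = chi a x * ch α u := by rw [ch]

theorem ch_snoc : ∀ (α u : List Bool) (a x : Bool), α.length = u.length →
    ch (α ++ [a]) (u ++ [x]) = ch α u * chi a x := by
  intro α
  induction α with
  | nil =>
    intro u a x h
    cases u with
    | nil => simp [ch]
    | cons y u => simp at h
  | cons b α ih =>
    intro u a x h
    cases u with
    | nil => simp at h
    | cons y u =>
      simp only [List.cons_append]
      rw [ch_cons, ch_cons, ih u a x (by simpa using h)]
      ring

noncomputable def tt (v : ℝ) (n : ℕ) (α β : List Bool) (G : List Bool → List Bool) : ℝ :=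
  av α.length (fun u => av n (fun X => ch α u * ch β X * kk v X (G u)))

theorem tt_cons (v : ℝ) (n : ℕ) (a : Bool) (α β : List Bool) (G : List Bool → List Bool) :
    tt v n (a :: α) β G = (chi a true * tt v n α β (fun u => G (true :: u)) +
      chi a false * tt v n α β (fun u => G (false :: u))) / 2 := by
  unfold tt
  simp only [List.length_cons, av, ch_cons]
  congr 2
  · rw [← av_mul]
    congr 1; funext u; rw [← av_mul]; congr 1; funext X; ring
  · rw [← av_mul]
    congr 1; funext u; rw [← av_mul]; congr 1; funext X; ring

theorem tt_snoc (v : ℝ) (n : ℕ) (b : Bool) (α β : List Bool) (G : List Bool → List Bool) :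
    tt v n (α ++ [b]) β G = (chi b true * tt v n α β (fun u => G (u ++ [true])) +
      chi b false * tt v n α β (fun u => G (u ++ [false]))) / 2 := by
  unfold tt
  rw [List.length_append, List.length_singleton, av_snoc]
  congr 2
  · rw [← av_mul]
    refine av_congr _ _ _ fun u hu => ?_
    rw [← av_mul]; congr 1; funext X
    rw [ch_snoc α u b true hu.symm]; ring
  · rw [← av_mul]
    refine av_congr _ _ _ fun u hu => ?_
    rw [← av_mul]; congr 1; funext X
    rw [ch_snoc α u b false hu.symm]; ring

theorem tt_expand (v : ℝ) (n : ℕ) (b : Bool) (α β : List Bool) (d : Bool) :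
    tt v (n + 1) α (b :: β) (fun u => d :: u) =
      (chi b true * (tt v n α β (fun u => d :: u) + v * tt v n α β (fun u => d :: u ++ [true]) +
          if d = true then tt v n α β (fun u => u) + v * tt v n α β (fun u => u ++ [true]) else 0) +
        chi b false * (tt v n α β (fun u => d :: u) + v * tt v n α β (fun u => d :: u ++ [false]) +
          if d = false then tt v n α β (fun u => u) + v * tt v n α β (fun u => u ++ [false])
            else 0)) / 2 := by
  have key : ∀ c : Bool, av α.length (fun u => av n (fun X =>
      ch α u * (chi b c * ch β X) * kk v (c :: X) (d :: u))) =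
      chi b c * (tt v n α β (fun u => d :: u) + v * tt v n α β (fun u => d :: u ++ [c]) +
          if d = c then tt v n α β (fun u => u) + v * tt v n α β (fun u => u ++ [c]) else 0) := by
    intro c
    unfold tt
    by_cases hdc : d = c
    · rw [if_pos hdc, ← av_mul, ← av_mul, ← av_add, ← av_add, ← av_add, ← av_mul]
      congr 1
      funext u
      rw [← av_mul, ← av_mul, ← av_add, ← av_add, ← av_add, ← av_mul]
      congr 1
      funext X
      rw [kk_cons_cons, if_pos hdc]
      ring
    · rw [if_neg hdc, add_zero, ← av_mul, ← av_add, ← av_mul]
      congr 1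
      funext u
      rw [← av_mul, ← av_add, ← av_mul]
      congr 1
      funext X
      rw [kk_cons_cons, if_neg hdc]
      ring
  rw [← key true, ← key false]
  unfold tt
  have : (fun u : List Bool => av (n + 1) (fun X => ch α u * ch (b :: β) X * kk v X (d :: u))) =
      fun u => (1 / 2) * (av n (fun X => ch α u * (chi b true * ch β X) * kk v (true :: X) (d :: u)) +
        av n (fun X => ch α u * (chi b false * ch β X) * kk v (false :: X) (d :: u))) := by
    funext u
    simp only [av, ch_cons]
    ring
  rw [this, av_mul, av_add]
  ring

theorem tt_nonneg {v : ℝ} (hv : 0 ≤ v) : ∀ (n : ℕ) (α β : List Bool), β.length = n →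
    0 ≤ tt v n α β (fun u => u) := by
  intro n
  induction n with
  | zero =>
    intro α β hβ
    obtain rfl : β = [] := List.length_eq_zero_iff.1 hβ
    cases α with
    | nil => simp [tt, av, ch, kk]
    | cons a α =>
      have : tt v 0 (a :: α) [] (fun u => u) = av (a :: α).length (fun _ => 0) := by
        unfold tt
        refine av_congr _ _ _ fun u hu => ?_
        cases u with
        | nil => simp at hu
        | cons x u => simp [av, kk]
      rw [this, av_const]
  | succ n ih =>
    intro α β hβ
    cases β with
    | nil => simp at hβ
    | cons b β =>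
      have hβ' : β.length = n := by simpa using hβ
      cases α with
      | nil =>
        have : tt v (n + 1) [] (b :: β) (fun u => u) = 0 := by
          unfold tt
          simp only [List.length_nil, av, kk_cons_nil, mul_zero]
          rw [av_const]; ring
        rw [this]
      | cons a α =>
        rw [tt_cons v (n + 1) a α (b :: β), tt_expand, tt_expand]
        have H1 := ih (a :: α) β hβ'
        rw [tt_cons] at H1
        have H2 := ih (a :: α ++ [b]) β hβ'
        rw [tt_snoc, tt_cons, tt_cons] at H2
        have H3 := ih α β hβ'
        have H4 := ih (α ++ [xor a b]) β hβ'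
        rw [tt_snoc] at H4
        set A1 := tt v n α β (fun u => true :: u)
        set A0 := tt v n α β (fun u => false :: u)
        simp only [List.cons_append] at H2 ⊢
        set B11 := tt v n α β (fun u => true :: (u ++ [true]))
        set B10 := tt v n α β (fun u => true :: (u ++ [false]))
        set B01 := tt v n α β (fun u => false :: (u ++ [true]))
        set B00 := tt v n α β (fun u => false :: (u ++ [false]))
        set C := tt v n α β (fun u => u)
        set D1 := tt v n α β (fun u => u ++ [true])
        set D0 := tt v n α β (fun u => u ++ [false])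
        have H2' := mul_nonneg hv H2
        have H4' := mul_nonneg hv H4
        cases a <;> cases b <;>
          simp only [chi, sg, Bool.false_eq_true, Bool.true_eq_false, if_false, if_true,
            Bool.xor_false, Bool.xor_true, Bool.not_false, Bool.not_true, one_mul, neg_mul,
            Bool.bne_false, Bool.bne_true] at H1 H2' H4' ⊢ <;>
          nlinarith

/-! ### the sum of the products of consecutive spins is a sum of characters -/

def cl : ℕ → List (Bool × List Bool)
  | 0 => []
  | n + 1 => (true, true :: List.replicate n false) :: (cl n).map fun p => (false, p.1 :: p.2)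

theorem ch_replicate : ∀ (n : ℕ) (X : List Bool), ch (List.replicate n false) X = 1 := by
  intro n
  induction n with
  | zero => intro X; simp [ch]
  | succ n ih =>
    intro X
    cases X with
    | nil => simp [List.replicate_succ, ch]
    | cons x X => rw [List.replicate_succ, ch_cons, ih]; simp [chi]

theorem cl_length : ∀ (n : ℕ), ∀ p ∈ cl n, p.2.length = n := by
  intro n
  induction n with
  | zero => intro p hp; simp [cl] at hp
  | succ n ih =>
    intro p hp
    simp only [cl, List.mem_cons, List.mem_map] at hp
    rcases hp with rfl | ⟨p', hp', rfl⟩
    · simp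
    · simp [ih p' hp']

theorem ts_eq : ∀ (n : ℕ) (X : List Bool) (d : Bool), X.length = n →
    ts d X = ((cl n).map fun p => chi p.1 d * ch p.2 X).sum := by
  intro n
  induction n with
  | zero =>
    intro X d h
    obtain rfl : X = [] := List.length_eq_zero_iff.1 h
    simp [ts, cl]
  | succ n ih =>
    intro X d h
    cases X with
    | nil => simp at h
    | cons c X =>
      have hX : X.length = n := by simpa using h
      simp only [cl, List.map_cons, List.sum_cons, List.map_map, ts]
      rw [ih X c hX, ch_cons, ch_replicate]
      congr 1
      · simp [chi]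
      · congr 1
        apply List.map_congr_left
        intro p _
        simp only [Function.comp, ch_cons]
        simp [chi]

theorem av_list_sum (n : ℕ) (l : List (List Bool → ℝ)) :
    av n (fun X => (l.map fun f => f X).sum) = (l.map fun f => av n f).sum := by
  induction l with
  | nil => simp [av_const]
  | cons f l ih =>
    simp only [List.map_cons, List.sum_cons]
    rw [av_add, ih]

theorem ts_pos {v : ℝ} (hv : 0 ≤ v) (n : ℕ) :
    0 ≤ av n (fun X => ts true X * kk v X [true]) := by
  have hflip : av n (fun X => ts false X * kk v X [false]) =
      av n (fun X => ts true X * kk v X [true]) := by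
    rw [← av_flip n (fun X => ts false X * kk v X [false])]
    congr 1
    funext X
    have h1 := kk_flip v X [true]
    have h2 : ∀ (X : List Bool) (d : Bool), ts (!d) (X.map not) = ts d X := by
      intro X
      induction X with
      | nil => intro d; rfl
      | cons c X ih => intro d; simp only [List.map_cons, ts]; rw [ih c, sg_flip]
    have h3 := h2 X true
    simp only [List.map_cons, List.map_nil, Bool.not_true] at h1 h3
    rw [h1, h3]
  have key : ∀ d : Bool, av n (fun X => ts d X * kk v X [d]) =
      ((cl n).map fun p => chi p.1 d * av n (fun X => ch p.2 X * kk v X [d])).sum := by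
    intro d
    have h1 : av n (fun X => ts d X * kk v X [d]) =
        av n (fun X => (((cl n).map fun p => (fun X : List Bool =>
          chi p.1 d * (ch p.2 X * kk v X [d]))).map fun f => f X).sum) := by
      refine av_congr _ _ _ fun X hX => ?_
      rw [ts_eq n X d hX, List.map_map]
      rw [← List.sum_map_mul_right]
      congr 1
      apply List.map_congr_left
      intro p _
      simp only [Function.comp]
      ring
    rw [h1, av_list_sum, List.map_map]
    congr 1
    apply List.map_congr_left
    intro p _
    simp only [Function.comp]
    rw [av_mul]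
  have h2 : av n (fun X => ts true X * kk v X [true]) =
      ((cl n).map fun p => tt v n [p.1] p.2 (fun u => u)).sum := by
    have h3 : av n (fun X => ts true X * kk v X [true]) =
        (av n (fun X => ts true X * kk v X [true]) +
          av n (fun X => ts false X * kk v X [false])) / 2 := by rw [hflip]; ring
    rw [h3, key, key, ← List.sum_map_add, div_eq_mul_inv, ← List.sum_map_mul_right]
    congr 1
    apply List.map_congr_left
    intro p _
    rw [tt_cons]
    unfold tt
    simp only [List.length_nil, av, ch, one_mul]
    ring
  rw [h2]
  apply List.sum_nonneg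
  intro x hx
  rw [List.mem_map] at hx
  obtain ⟨p, hp, rfl⟩ := hx
  exact tt_nonneg hv n _ _ (cl_length n p hp)

end Pool.Agent.Q297.JG
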