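import Pool.Agent.Q297.JG4

/-!
# The tilted growth rate is strictly smaller to first order
-/

set_option autoImplicit false

namespace Pool.Agent.Q297.JG

open Finset

noncomputable def yy (v e : ℝ) (k : ℕ) : ℝ := av k (fun X => wp e true X * aa v X [])
noncomputable def rr (v e : ℝ) (k : ℕ) : ℝ := av k (fun X => wp e true X * aa v X [true])
noncomputable def ee (v e : ℝ) (n : ℕ) : ℝ := av n (fun X => wp e true X * kk v X [true])

theorem yy_any (v e : ℝ) (k : ℕ) (d : Bool) :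
    av k (fun X => wp e d X * aa v X []) = yy v e k := by
  cases d
  · rw [← av_flip k (fun X => wp e false X * aa v X [])]
    unfold yy
    congr 1
    funext X
    have h1 := aa_flip v X []
    have h2 := wp_flip e X true
    simp only [List.map_nil, Bool.not_true] at h1 h2
    rw [h1, h2]
  · rfl

theorem rr_any (v e : ℝ) (k : ℕ) (d : Bool) :
    av k (fun X => wp e d X * aa v X [d]) = rr v e k := by
  cases d
  · rw [← av_flip k (fun X => wp e false X * aa v X [false])]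
    unfold rr
    congr 1
    funext X
    have h1 := aa_flip v X [true]
    have h2 := wp_flip e X true
    simp only [List.map_cons, List.map_nil, Bool.not_true] at h1 h2
    rw [h1, h2]
  · rfl

theorem yy_succ (v e : ℝ) (k : ℕ) :
    yy v e (k + 1) = (1 + v) * yy v e k + 2 * v * rr v e k := by
  have key : ∀ c : Bool, av k (fun X => wp e true (c :: X) * aa v (c :: X) []) =
      (1 - e * (sg true * sg c)) * ((1 + v) * yy v e k + 2 * v * rr v e k) := by
    intro c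
    rw [← yy_any v e k c, ← rr_any v e k c, ← av_mul, ← av_mul, ← av_add, ← av_mul]
    congr 1
    funext X
    rw [aa_cons_nil]
    simp only [wp]
    ring
  have h : yy v e (k + 1) = (av k (fun X => wp e true (true :: X) * aa v (true :: X) []) +
      av k (fun X => wp e true (false :: X) * aa v (false :: X) [])) / 2 := rfl
  rw [h, key, key]
  simp only [sg, if_true, Bool.false_eq_true, if_false]
  ring

theorem rr_eq (v e : ℝ) (k : ℕ) :
    rr v e k = ∑ n ∈ range (k + 1), ee v e n * yy v e (k - n) := by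
  have h1 : rr v e k = av k (fun X => ∑ n ∈ range (k + 1),
      (wp e true (X.take n) * kk v (X.take n) [true]) *
        (wp e (lst true (X.take n)) (X.drop n) * aa v (X.drop n) [])) := by
    unfold rr
    refine av_congr _ _ _ fun X hX => ?_
    rw [decomp v X [true], hX, Finset.mul_sum]
    refine Finset.sum_congr rfl fun n _ => ?_
    have := wp_append e (X.take n) (X.drop n) true
    rw [List.take_append_drop] at this
    rw [this]
    ring
  rw [h1, av_sum]
  refine Finset.sum_congr rfl fun n hn => ?_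
  have hnk : n ≤ k := by
    have := Finset.mem_range.1 hn
    omega
  have h2 := av_split n (k - n) (fun X1 X2 => (wp e true X1 * kk v X1 [true]) *
        (wp e (lst true X1) X2 * aa v X2 []))
  rw [show n + (k - n) = k by omega] at h2
  rw [h2]
  have h3 : (fun X1 => av (k - n) (fun X2 => (wp e true X1 * kk v X1 [true]) *
        (wp e (lst true X1) X2 * aa v X2 []))) =
      fun X1 => yy v e (k - n) * (wp e true X1 * kk v X1 [true]) := by
    funext X1
    rw [av_mul, yy_any]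
    ring
  rw [h3, av_mul]
  unfold ee
  ring

theorem ee_nonneg {v e : ℝ} (hv : 0 ≤ v) (h0 : 0 ≤ e) (h1 : e ≤ 1) (n : ℕ) : 0 ≤ ee v e n :=
  av_nonneg n _ fun X _ => mul_nonneg (wp_bound h0 h1 X true).1 (kk_nonneg hv X _)

theorem yy_nonneg {v e : ℝ} (hv : 0 ≤ v) (h0 : 0 ≤ e) (h1 : e ≤ 1) (n : ℕ) : 0 ≤ yy v e n :=
  av_nonneg n _ fun X _ => mul_nonneg (wp_bound h0 h1 X true).1 (aa_nonneg hv X _)

theorem ee_zero (v e : ℝ) : ee v e 0 = 0 := by
  simp [ee, av, kk]

theorem ee_one (v e : ℝ) : ee v e 1 = (1 - e) / 2 := by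
  simp [ee, av, kk, wp, sg]

theorem kn_one (v : ℝ) : kn v 1 1 = 1 / 2 := by
  simp [kn, tk]

theorem ee_le {v e : ℝ} (hv : 0 ≤ v) (h0 : 0 ≤ e) (h1 : e ≤ 1) (n : ℕ) :
    ee v e n ≤ ((1 + e) ^ n - n * e) * kn v n 1 := by
  have h2 : ee v e n ≤ av n (fun X => ((1 + e) ^ n - n * e) * kk v X [true] +
      (-e) * (ts true X * kk v X [true])) := by
    refine av_mono _ _ _ fun X hX => ?_
    have h3 := (wp_bound h0 h1 X true).2.2.2
    rw [hX] at h3
    have h4 := kk_nonneg hv X [true]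
    calc wp e true X * kk v X [true]
        ≤ ((1 + e) ^ n - n * e - e * ts true X) * kk v X [true] :=
          mul_le_mul_of_nonneg_right h3 h4
      _ = _ := by ring
  rw [av_add, av_mul, av_mul, av_kk] at h2
  have h5 := ts_pos hv n
  simp only [List.length_cons, List.length_nil, zero_add] at h2
  nlinarith

/-! ### the numerical estimate -/

theorem num1 {e : ℝ} (h0 : 0 ≤ e) (n : ℕ) : (1 + e) ^ n ≤ 1 + n * e * (1 + e) ^ n := by
  induction n with
  | zero => simp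
  | succ n ih =>
    rw [pow_succ]
    push_cast
    have hp : 1 ≤ (1 + e) ^ n := one_le_pow₀ (by linarith)
    have hn : (0 : ℝ) ≤ n := Nat.cast_nonneg n
    have h : 0 ≤ ((n : ℝ) + 1) * e * (1 + e) ^ n * e := by positivity
    nlinarith

theorem num2 {e : ℝ} (h0 : 0 ≤ e) (n : ℕ) :
    (1 + e) ^ n ≤ 1 + n * e + (n : ℝ) ^ 2 * e ^ 2 * (1 + e) ^ n := by
  induction n with
  | zero => simp
  | succ n ih =>
    have h1 := num1 h0 n
    have hp : 1 ≤ (1 + e) ^ n := one_le_pow₀ (by linarith)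
    have hn : (0 : ℝ) ≤ n := Nat.cast_nonneg n
    have h2 : (1 + e) ^ (n + 1) = (1 + e) ^ n + e * (1 + e) ^ n := by ring
    have h3 : e * (1 + e) ^ n ≤ e * (1 + n * e * (1 + e) ^ n) := mul_le_mul_of_nonneg_left h1 h0
    have h4 : (1 + e) ^ n ≤ (1 + e) ^ (n + 1) := pow_le_pow_right₀ (by linarith) (by omega)
    have h5 : ((n : ℝ) ^ 2 + n) * e ^ 2 * (1 + e) ^ n ≤
        ((n + 1 : ℕ) : ℝ) ^ 2 * e ^ 2 * (1 + e) ^ (n + 1) := by
      push_cast
      have h6 : ((n : ℝ) ^ 2 + n) * e ^ 2 ≤ ((n : ℝ) + 1) ^ 2 * e ^ 2 := by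
        apply mul_le_mul_of_nonneg_right _ (sq_nonneg e)
        nlinarith
      exact mul_le_mul h6 h4 (by positivity) (by positivity)
    push_cast at h5 ⊢
    nlinarith

theorem num3 {e : ℝ} (h0 : 0 ≤ e) (h1 : e ≤ 1) (n : ℕ) :
    (1 + e ^ 2) ^ n * ((1 + e) ^ n - n * e) ≤
      1 + 3 * e ^ 2 * ((n : ℝ) ^ 3 * ((1 + e) * (1 + e ^ 2)) ^ n) := by
  rcases Nat.eq_zero_or_pos n with rfl | hn
  · simp
  have hn1 : (1 : ℝ) ≤ n := by exact_mod_cast hn
  set p := (1 + e) ^ n with hp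
  set y := (1 + e ^ 2) ^ n with hy
  have hp1 : 1 ≤ p := one_le_pow₀ (by linarith)
  have hy1 : 1 ≤ y := one_le_pow₀ (by nlinarith)
  have a1 : p - n * e ≤ 1 + (n : ℝ) ^ 2 * e ^ 2 * p := by
    have := num2 h0 n
    rw [← hp] at this
    linarith
  have a2 : y ≤ 1 + n * e ^ 2 * y := num1 (sq_nonneg e) n
  have a3 : 0 ≤ 1 + (n : ℝ) ^ 2 * e ^ 2 * p := by positivity
  have hpy : ((1 + e) * (1 + e ^ 2)) ^ n = p * y := by rw [mul_pow]
  rw [hpy]
  have he2 : e ^ 2 ≤ 1 := by nlinarith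
  have hpy1 : y ≤ p * y := by nlinarith
  have hpy2 : p ≤ p * y := by nlinarith
  have hn3 : (1 : ℝ) ≤ (n : ℝ) ^ 3 := one_le_pow₀ hn1
  have hn13 : (n : ℝ) ≤ (n : ℝ) ^ 3 := by nlinarith [mul_nonneg (by linarith : (0:ℝ) ≤ n) (by nlinarith : (0:ℝ) ≤ (n:ℝ) ^ 2 - 1)]
  have hn23 : (n : ℝ) ^ 2 ≤ (n : ℝ) ^ 3 := by nlinarith [sq_nonneg (n : ℝ)]
  calc y * (p - n * e) ≤ y * (1 + (n : ℝ) ^ 2 * e ^ 2 * p) :=
        mul_le_mul_of_nonneg_left a1 (by linarith)
    _ ≤ (1 + n * e ^ 2 * y) * (1 + (n : ℝ) ^ 2 * e ^ 2 * p) := mul_le_mul_of_nonneg_right a2 a3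
    _ = 1 + e ^ 2 * ((n : ℝ) * y) + e ^ 2 * ((n : ℝ) ^ 2 * p) +
        e ^ 2 * (e ^ 2 * ((n : ℝ) ^ 3 * (p * y))) := by ring
    _ ≤ 1 + e ^ 2 * ((n : ℝ) ^ 3 * (p * y)) + e ^ 2 * ((n : ℝ) ^ 3 * (p * y)) +
        e ^ 2 * (1 * ((n : ℝ) ^ 3 * (p * y))) := by gcongr
    _ = _ := by ring

theorem yy_bound {q : ℝ} (h0 : 0 < q) (h1 : q < 1) :
    ∃ e0 : ℝ, 0 < e0 ∧ e0 ≤ 1 / 2 ∧ ∀ e : ℝ, 0 < e → e ≤ e0 → ∀ k : ℕ,
      yy (vq q) e k ≤ (lq q / (1 + e ^ 2)) ^ k := by
  obtain ⟨z1, C1, hz, hz1, hC1, hsum⟩ := kn_sum_far h0 h1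
  have hv := vq_pos h0 h1
  have ht := tq_pos h0 h1
  have hl : 0 < lq q := lt_trans one_pos (lq_pos h0 h1)
  have hbase := kn_sum_base h0 h1
  have heig := eig0 h0 h1
  set v := vq q
  set t := tq q
  set l := lq q
  set ζ := z1 * l with hζ
  have hζ0 : 0 < ζ := by linarith
  have hr : |((1 + ζ) / 2) / ζ| < 1 := by
    rw [abs_of_pos (by positivity), div_lt_one hζ0]; linarith
  obtain ⟨C3, hC3⟩ := (tendsto_pow_const_mul_const_pow_of_abs_lt_one 3 hr).bddAbove_range
  have hC3' : ∀ n : ℕ, (n : ℝ) ^ 3 * ((1 + ζ) / 2) ^ n ≤ C3 * ζ ^ n := by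
    intro n
    have h := hC3 ⟨n, rfl⟩
    simp only at h
    rw [div_pow, ← mul_div_assoc, div_le_iff₀ (by positivity)] at h
    exact h
  have hC30 : 0 ≤ C3 := by
    have h := hC3 ⟨0, rfl⟩
    simpa using h
  set D := 6 * v * C3 * C1 + l with hD
  have hDpos : 0 < D := by positivity
  refine ⟨min (min (1 / 2) ((ζ - 1) / 6)) (min (2 * v * t / (1 + v)) (v / l / D)),
    ?_, (min_le_left _ _).trans (min_le_left _ _), ?_⟩
  · refine lt_min (lt_min (by norm_num) (by linarith)) (lt_min (by positivity) (by positivity))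
  intro e he0 he k
  have b1 : e ≤ 1 / 2 := he.trans ((min_le_left _ _).trans (min_le_left _ _))
  have b2 : e ≤ (ζ - 1) / 6 := he.trans ((min_le_left _ _).trans (min_le_right _ _))
  have b3 : e ≤ 2 * v * t / (1 + v) := he.trans ((min_le_right _ _).trans (min_le_left _ _))
  have b4 : e ≤ v / l / D := he.trans ((min_le_right _ _).trans (min_le_right _ _))
  have he1 : e ≤ 1 := by linarith
  have hξ : (1 + e) * (1 + e ^ 2) ≤ (1 + ζ) / 2 := by nlinarith [sq_nonneg e, mul_nonneg he0.le (sq_nonneg e)]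
  set μ := l / (1 + e ^ 2) with hμ
  have hy : 0 < 1 + e ^ 2 := by positivity
  have hμ0 : 0 < μ := by positivity
  have hμl : μ ≤ l := div_le_self hl.le (by nlinarith [sq_nonneg e])
  -- the termwise bound
  have hterm : ∀ n : ℕ, ee v e n * (1 / μ) ^ n ≤
      (1 / l) ^ n * kn v n 1 + 3 * C3 * e ^ 2 * (z1 ^ n * kn v n 1) := by
    intro n
    have hk := kn_nonneg hv.le n 1
    have e1 : (1 / μ) ^ n = (1 / l) ^ n * (1 + e ^ 2) ^ n := by
      rw [hμ, one_div_div, ← mul_pow]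
      congr 1
      field_simp
    have e2 : z1 ^ n = (1 / l) ^ n * ζ ^ n := by
      rw [hζ, ← mul_pow]
      congr 1
      field_simp
    rw [e1, e2]
    have h3 := num3 he0.le he1 n
    have h4 : (n : ℝ) ^ 3 * ((1 + e) * (1 + e ^ 2)) ^ n ≤ C3 * ζ ^ n := by
      refine le_trans ?_ (hC3' n)
      gcongr
    have h5 : (1 + e ^ 2) ^ n * ((1 + e) ^ n - n * e) ≤ 1 + 3 * e ^ 2 * (C3 * ζ ^ n) := by
      refine h3.trans ?_
      gcongr
    have hl1 : 0 ≤ (1 / l) ^ n := by positivity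
    calc ee v e n * ((1 / l) ^ n * (1 + e ^ 2) ^ n)
        ≤ (((1 + e) ^ n - n * e) * kn v n 1) * ((1 / l) ^ n * (1 + e ^ 2) ^ n) :=
          mul_le_mul_of_nonneg_right (ee_le hv.le he0.le he1 n) (by positivity)
      _ = ((1 + e ^ 2) ^ n * ((1 + e) ^ n - n * e)) * ((1 / l) ^ n * kn v n 1) := by ring
      _ ≤ (1 + 3 * e ^ 2 * (C3 * ζ ^ n)) * ((1 / l) ^ n * kn v n 1) :=
          mul_le_mul_of_nonneg_right h5 (by positivity)
      _ = _ := by ring
  have hterm1 : ee v e 1 * (1 / μ) ^ 1 ≤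
      (1 / l) ^ 1 * kn v 1 1 + 3 * C3 * e ^ 2 * (z1 ^ 1 * kn v 1 1) - e / (2 * l) := by
    -- direct computation
    have hk := kn_one v
    have e1 : (1 / μ) ^ 1 = (1 / l) ^ 1 * (1 + e ^ 2) ^ 1 := by
      rw [hμ, one_div_div, pow_one, pow_one, pow_one]
      field_simp
    have e2 : z1 ^ 1 = (1 / l) ^ 1 * ζ ^ 1 := by
      rw [hζ, pow_one, pow_one, pow_one]
      field_simp
    have h3 := num3 he0.le he1 1
    have h4 : ((1 : ℕ) : ℝ) ^ 3 * ((1 + e) * (1 + e ^ 2)) ^ 1 ≤ C3 * ζ ^ 1 := by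
      refine le_trans ?_ (hC3' 1)
      gcongr
    have h5 : (1 + e ^ 2) ^ 1 * ((1 + e) ^ 1 - (1 : ℕ) * e) ≤ 1 + 3 * e ^ 2 * (C3 * ζ ^ 1) := by
      refine h3.trans ?_
      gcongr
    rw [ee_one, hk, e1, e2]
    simp only [pow_one, Nat.cast_one, one_mul] at h5 ⊢
    have h6 : 1 + e ^ 2 ≤ 1 + 3 * e ^ 2 * (C3 * ζ) := by nlinarith
    have h7 : 0 < 1 / l := by positivity
    have h8 : e / (2 * l) = e / 2 * (1 / l) := by field_simp
    rw [h8]
    have h9 : (1 - e) / 2 * (1 + e ^ 2) ≤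
        (1 + 3 * e ^ 2 * (C3 * ζ)) / 2 - e / 2 := by nlinarith [mul_nonneg he0.le (sq_nonneg e)]
    calc (1 - e) / 2 * (1 / l * (1 + e ^ 2)) = ((1 - e) / 2 * (1 + e ^ 2)) * (1 / l) := by ring
      _ ≤ ((1 + 3 * e ^ 2 * (C3 * ζ)) / 2 - e / 2) * (1 / l) :=
          mul_le_mul_of_nonneg_right h9 h7.le
      _ = _ := by ring
  -- the sums
  have hS : ∀ k : ℕ, (1 + v) + 2 * v * ∑ n ∈ range (k + 1), ee v e n * (1 / μ) ^ n ≤ μ := by
    intro k
    rcases Nat.eq_zero_or_pos k with rfl | hk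
    · simp only [zero_add, range_one, sum_singleton, ee_zero, zero_mul, mul_zero, add_zero]
      rw [hμ, le_div_iff₀ hy]
      rw [le_div_iff₀ (by linarith)] at b3
      have : e ^ 2 ≤ e := by nlinarith
      nlinarith
    · have hsplit : ∑ n ∈ range (k + 1), ee v e n * (1 / μ) ^ n ≤
          ∑ n ∈ range (k + 1), ((1 / l) ^ n * kn v n 1 + 3 * C3 * e ^ 2 * (z1 ^ n * kn v n 1)) -
            e / (2 * l) := by
        have hmem : 1 ∈ range (k + 1) := by
          rw [Finset.mem_range]; omega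
        rw [← Finset.add_sum_erase _ _ hmem, ← Finset.add_sum_erase _
          (fun n => (1 / l) ^ n * kn v n 1 + 3 * C3 * e ^ 2 * (z1 ^ n * kn v n 1)) hmem]
        have hrest : ∑ n ∈ (range (k + 1)).erase 1, ee v e n * (1 / μ) ^ n ≤
            ∑ n ∈ (range (k + 1)).erase 1,
              ((1 / l) ^ n * kn v n 1 + 3 * C3 * e ^ 2 * (z1 ^ n * kn v n 1)) :=
          Finset.sum_le_sum fun n _ => hterm n
        linarith
      rw [Finset.sum_add_distrib, ← Finset.mul_sum] at hsplit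
      have s1 := hbase k
      have s2 := hsum k
      have s3 : 3 * C3 * e ^ 2 * ∑ n ∈ range (k + 1), z1 ^ n * kn v n 1 ≤
          3 * C3 * e ^ 2 * C1 := by gcongr
      have s4 : ∑ n ∈ range (k + 1), ee v e n * (1 / μ) ^ n ≤
          t + 3 * C3 * e ^ 2 * C1 - e / (2 * l) := by linarith
      have s5 : (1 + v) + 2 * v * ∑ n ∈ range (k + 1), ee v e n * (1 / μ) ^ n ≤
          (1 + v) + 2 * v * (t + 3 * C3 * e ^ 2 * C1 - e / (2 * l)) := by gcongr
      refine s5.trans ?_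
      have s6 : (1 + v) + 2 * v * (t + 3 * C3 * e ^ 2 * C1 - e / (2 * l)) =
          l + 6 * v * C3 * C1 * e ^ 2 - v / l * e := by
        rw [← heig]
        field_simp
        ring
      rw [s6]
      have s7 : l - l * e ^ 2 ≤ μ := by
        rw [hμ, le_div_iff₀ hy]
        nlinarith [mul_nonneg hl.le (mul_nonneg (sq_nonneg e) (sq_nonneg e))]
      have s8 : D * e ≤ v / l := by
        rw [le_div_iff₀ hDpos] at b4
        linarith
      have s9 : D * e ^ 2 ≤ v / l * e := by nlinarith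
      rw [hD] at s9
      nlinarith
  -- strong induction
  induction k using Nat.strong_induction_on with
  | _ k ih =>
    cases k with
    | zero => simp [yy, av, wp, aa]
    | succ k =>
      rw [yy_succ, rr_eq]
      have i1 : yy v e k ≤ μ ^ k := ih k (by omega)
      have i2 : ∑ n ∈ range (k + 1), ee v e n * yy v e (k - n) ≤
          μ ^ k * ∑ n ∈ range (k + 1), ee v e n * (1 / μ) ^ n := by
        rw [Finset.mul_sum]
        refine Finset.sum_le_sum fun n hn => ?_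
        have hnk : n ≤ k := by
          have := Finset.mem_range.1 hn
          omega
        have h1 := ih (k - n) (by omega)
        have h2 : μ ^ (k - n) = μ ^ k * (1 / μ) ^ n := by
          rw [one_div, inv_pow, pow_sub₀ _ hμ0.ne' hnk]
        calc ee v e n * yy v e (k - n) ≤ ee v e n * μ ^ (k - n) :=
              mul_le_mul_of_nonneg_left h1 (ee_nonneg hv.le he0.le he1 n)
          _ = _ := by rw [h2]; ring
      calc (1 + v) * yy v e k + 2 * v * ∑ n ∈ range (k + 1), ee v e n * yy v e (k - n)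
          ≤ (1 + v) * μ ^ k + 2 * v * (μ ^ k * ∑ n ∈ range (k + 1), ee v e n * (1 / μ) ^ n) := by
            gcongr
        _ = μ ^ k * ((1 + v) + 2 * v * ∑ n ∈ range (k + 1), ee v e n * (1 / μ) ^ n) := by ring
        _ ≤ μ ^ k * μ := mul_le_mul_of_nonneg_left (hS k) (by positivity)
        _ = μ ^ (k + 1) := by ring

end Pool.Agent.Q297.JG
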