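import Pool.Agent.Q297.JG5

/-!
# The canonical lower bound
-/

set_option autoImplicit false

namespace Pool.Agent.Q297.JG

open Finset Filter Topology

noncomputable def cc (N M : ℕ) : ℝ := av N (fun X => sq M X)

theorem cc_nonneg (N M : ℕ) : 0 ≤ cc N M := av_nonneg N _ fun X _ => sq_nonneg' M X

theorem an_eq (v : ℝ) (N : ℕ) : an v N 0 = ∑ M ∈ range (N + 1), v ^ M * cc N M := by
  have h := av_aa v N []
  simp only [List.length_nil] at h
  rw [← h]
  have h2 : av N (fun X => aa v X []) = av N (fun X => ∑ M ∈ range (N + 1), v ^ M * sq M X) :=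
    av_congr _ _ _ fun X hX => by rw [aa_nil, hX]
  rw [h2, av_sum]
  refine Finset.sum_congr rfl fun M _ => ?_
  rw [av_mul]
  rfl

theorem cc_step (N M : ℕ) : cc N M ≤ cc (N + 1) M := by
  have h : cc (N + 1) M = (av N (fun X => sq M (true :: X)) + av N (fun X => sq M (false :: X))) / 2 :=
    rfl
  have h1 : cc N M ≤ av N (fun X => sq M (true :: X)) :=
    av_mono _ _ _ fun X _ => sq_mono M true X
  have h2 : cc N M ≤ av N (fun X => sq M (false :: X)) :=
    av_mono _ _ _ fun X _ => sq_mono M false X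
  rw [h]; linarith

theorem cc_step2 (N M : ℕ) : cc N M ≤ cc (N + 1) (M + 1) := by
  have h : cc (N + 1) (M + 1) =
      (av N (fun X => sq (M + 1) (true :: X)) + av N (fun X => sq (M + 1) (false :: X))) / 2 := rfl
  have h1 : cc N M ≤ av N (fun X => sq (M + 1) (true :: X)) :=
    av_mono _ _ _ fun X _ => sq_mono2 M true X
  have h2 : cc N M ≤ av N (fun X => sq (M + 1) (false :: X)) :=
    av_mono _ _ _ fun X _ => sq_mono2 M false X
  rw [h]; linarith

theorem cc_add (N M : ℕ) : ∀ (n m : ℕ), m ≤ n → cc N M ≤ cc (N + n) (M + m) := by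
  intro n
  induction n with
  | zero => intro m hm; obtain rfl : m = 0 := by omega
            exact le_rfl
  | succ n ih =>
    intro m hm
    rcases Nat.lt_or_ge n m with h | h
    · obtain rfl : m = n + 1 := by omega
      exact (ih n le_rfl).trans (cc_step2 (N + n) (M + n))
    · exact (ih m h).trans (cc_step (N + n) (M + m))

/-! ### Chernoff bounds -/

theorem pow_exp {x : ℝ} (hx : 0 < x) (n : ℕ) : x ^ n = Real.exp (n * Real.log x) := by
  rw [Real.exp_nat_mul, Real.exp_log hx]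

theorem exp_lt_one' {x : ℝ} (hx : x < 0) : Real.exp x < 1 := by
  have := Real.exp_lt_exp.2 hx
  rwa [Real.exp_zero] at this

theorem slope_left {G : ℝ → ℝ} {D q a : ℝ} (h : HasDerivAt G D q) (hD : 0 < D) (ha : a < q) :
    ∃ x, a < x ∧ x < q ∧ G x < G q := by
  have h1 := hasDerivAt_iff_tendsto_slope.1 h
  have h2 : ∀ᶠ x in 𝓝[<] q, 0 < slope G q x :=
    (h1.mono_left (nhdsWithin_mono q fun x hx => ne_of_lt hx)).eventually (lt_mem_nhds hD)
  have h3 : ∀ᶠ x in 𝓝[<] q, x ∈ Set.Ioo a q := Ioo_mem_nhdsLT ha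
  obtain ⟨x, hx1, hx2⟩ := (h2.and h3).exists
  refine ⟨x, hx2.1, hx2.2, ?_⟩
  rw [slope_def_field] at hx1
  have hneg : x - q < 0 := by linarith [hx2.2]
  by_contra hcon
  have : (G x - G q) / (x - q) ≤ 0 :=
    div_nonpos_of_nonneg_of_nonpos (by linarith) hneg.le
  linarith

theorem slope_right {G : ℝ → ℝ} {D q a : ℝ} (h : HasDerivAt G D q) (hD : D < 0) (ha : q < a) :
    ∃ x, q < x ∧ x < a ∧ G x < G q := by
  have h1 := hasDerivAt_iff_tendsto_slope.1 h
  have h2 : ∀ᶠ x in 𝓝[>] q, slope G q x < 0 :=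
    (h1.mono_left (nhdsWithin_mono q fun x hx => ne_of_gt hx)).eventually (gt_mem_nhds hD)
  have h3 : ∀ᶠ x in 𝓝[>] q, x ∈ Set.Ioo q a := Ioo_mem_nhdsGT ha
  obtain ⟨x, hx1, hx2⟩ := (h2.and h3).exists
  refine ⟨x, hx2.1, hx2.2, ?_⟩
  rw [slope_def_field] at hx1
  have hpos : 0 < x - q := by linarith [hx2.1]
  by_contra hcon
  have : 0 ≤ (G x - G q) / (x - q) := div_nonneg (by linarith) hpos.le
  linarith

noncomputable def gq (β x : ℝ) : ℝ := Real.log (lq x) - β * Real.log (vq x)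

noncomputable def aq (q : ℝ) : ℝ := 2 * (1 - q) / ((2 - q) * (1 + q))

theorem gq_eq {β x : ℝ} (h0 : 0 < x) (h1 : x < 1) :
    gq β x = (Real.log (2 - x) - Real.log x - β * (2 * Real.log (1 - x) - Real.log x)) -
      β * Real.log 2 := by
  unfold gq lq vq
  have a1 : (2 - x) ≠ 0 := by linarith
  have a2 : (1 - x) ≠ 0 := by linarith
  rw [Real.log_div a1 h0.ne', Real.log_div (by positivity) h0.ne',
    Real.log_mul two_ne_zero (by positivity), Real.log_pow]
  push_cast
  ring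

theorem G_deriv {β q : ℝ} (h0 : 0 < q) (h1 : q < 1) :
    HasDerivAt (fun x => Real.log (2 - x) - Real.log x - β * (2 * Real.log (1 - x) - Real.log x))
      ((1 + q) / (q * (1 - q)) * (β - aq q)) q := by
  have d1 : HasDerivAt (fun x : ℝ => 2 - x) (-1) q := by
    simpa using (hasDerivAt_id q).const_sub 2
  have d2 : HasDerivAt (fun x : ℝ => 1 - x) (-1) q := by
    simpa using (hasDerivAt_id q).const_sub 1
  have l1 := d1.log (by linarith : (2 : ℝ) - q ≠ 0)
  have l2 := d2.log (by linarith : (1 : ℝ) - q ≠ 0)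
  have l3 := Real.hasDerivAt_log h0.ne'
  have h : HasDerivAt
      (fun x => Real.log (2 - x) - Real.log x - β * (2 * Real.log (1 - x) - Real.log x))
      (-1 / (2 - q) - q⁻¹ - β * (2 * (-1 / (1 - q)) - q⁻¹)) q :=
    (l1.sub l3).sub (((l2.const_mul 2).sub l3).const_mul β)
  refine h.congr_deriv ?_
  unfold aq
  have a1 : (2 - q) ≠ 0 := by linarith
  have a2 : (1 - q) ≠ 0 := by linarith
  have a3 : (1 + q) ≠ 0 := by linarith
  field_simp
  ring

theorem vq_anti {x y : ℝ} (h0 : 0 < x) (hxy : x < y) (h1 : y < 1) : vq y < vq x := by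
  unfold vq
  have : 0 < y := by linarith
  rw [div_lt_div_iff₀ this h0]
  have e1 : (1 - y) ^ 2 < (1 - x) ^ 2 := by
    apply pow_lt_pow_left₀ (by linarith) (by linarith) (by norm_num)
  have e2 : 0 < (1 - x) ^ 2 := by
    have : 0 < 1 - x := by linarith
    positivity
  nlinarith

/-- exponential bound of the part of the sum beyond `β N` -/
theorem tail {q q1 β : ℝ} (h0 : 0 < q) (h1 : q < 1) (h0' : 0 < q1) (h1' : q1 < 1) (N : ℕ)
    (s : Finset ℕ) (hs : s ⊆ range (N + 1))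
    (hside : ∀ M ∈ s, 0 ≤ ((M : ℝ) - β * N) * (Real.log (vq q1) - Real.log (vq q))) :
    ∑ M ∈ s, vq q ^ M * cc N M ≤ lq q ^ N * Real.exp (N * (gq β q1 - gq β q)) := by
  have hv := vq_pos h0 h1
  have hv1 := vq_pos h0' h1'
  have hl : 0 < lq q := lt_trans one_pos (lq_pos h0 h1)
  have hl1 : 0 < lq q1 := lt_trans one_pos (lq_pos h0' h1')
  have hpt : ∀ M ∈ s, vq q ^ M * cc N M ≤
      Real.exp (β * N * (Real.log (vq q) - Real.log (vq q1))) * (vq q1 ^ M * cc N M) := by
    intro M hM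
    have h := hside M hM
    rw [← mul_assoc]
    refine mul_le_mul_of_nonneg_right ?_ (cc_nonneg N M)
    have e1 : vq q ^ M = Real.exp (M * Real.log (vq q)) := pow_exp hv M
    have e2 : vq q1 ^ M = Real.exp (M * Real.log (vq q1)) := pow_exp hv1 M
    rw [e1, e2, ← Real.exp_add]
    apply Real.exp_le_exp.2
    nlinarith
  refine (Finset.sum_le_sum hpt).trans ?_
  rw [← Finset.mul_sum]
  have h2 : ∑ M ∈ s, vq q1 ^ M * cc N M ≤ an (vq q1) N 0 := by
    rw [an_eq]
    exact Finset.sum_le_sum_of_subset_of_nonneg hs fun M _ _ =>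
      mul_nonneg (by positivity) (cc_nonneg N M)
  have h3 := an_le h0' h1' N 0
  rw [pow_zero, mul_one] at h3
  refine (mul_le_mul_of_nonneg_left (h2.trans h3) (Real.exp_nonneg _)).trans ?_
  have e3 : lq q1 ^ N = Real.exp (N * Real.log (lq q1)) := pow_exp hl1 N
  have e4 : lq q ^ N = Real.exp (N * Real.log (lq q)) := pow_exp hl N
  rw [e3, e4, ← Real.exp_add, ← Real.exp_add]
  apply Real.exp_le_exp.2
  unfold gq
  apply le_of_eq
  ring

/-- the mass is carried by `M` close to `α N` -/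
theorem concentrated {q : ℝ} (h0 : 0 < q) (h1 : q < 1) (ρ : ℝ) (hρ : 0 < ρ) :
    ∃ c : ℝ, 0 < c ∧ ∃ N0 : ℕ, ∀ N : ℕ, N0 ≤ N → ∃ M : ℕ, M ≤ N ∧
      |(M : ℝ) - aq q * N| ≤ ρ * N ∧ c * lq q ^ N / (N + 1) ≤ vq q ^ M * cc N M := by
  have hl : 0 < lq q := lt_trans one_pos (lq_pos h0 h1)
  have hv := vq_pos h0 h1
  obtain ⟨c0, hc0, hge⟩ := an_ge h0 h1
  have hD : 0 < (1 + q) / (q * (1 - q)) := by
    have : 0 < 1 - q := by linarith
    positivity
  -- upper tail
  obtain ⟨q1, a1, a2, a3⟩ := slope_left (a := 0) (G_deriv (β := aq q + ρ) h0 h1)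
    (mul_pos hD (by linarith)) h0
  obtain ⟨q2, b1, b2, b3⟩ := slope_right (a := 1) (G_deriv (β := aq q - ρ) h0 h1)
    (mul_neg_of_pos_of_neg hD (by linarith)) h1
  have g1 : gq (aq q + ρ) q1 - gq (aq q + ρ) q < 0 := by
    rw [gq_eq a1 (by linarith), gq_eq h0 h1]; linarith
  have g2 : gq (aq q - ρ) q2 - gq (aq q - ρ) q < 0 := by
    rw [gq_eq (by linarith) b2, gq_eq h0 h1]; linarith
  set k1 := gq (aq q + ρ) q1 - gq (aq q + ρ) q with hk1
  set k2 := gq (aq q - ρ) q2 - gq (aq q - ρ) q with hk2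
  have t1 : Tendsto (fun N : ℕ => Real.exp (N * k1)) atTop (𝓝 0) := by
    have : (fun N : ℕ => Real.exp (N * k1)) = fun N : ℕ => Real.exp k1 ^ N := by
      funext N; rw [← Real.exp_nat_mul]
    rw [this]
    exact tendsto_pow_atTop_nhds_zero_of_lt_one (Real.exp_nonneg _) (exp_lt_one' g1)
  have t2 : Tendsto (fun N : ℕ => Real.exp (N * k2)) atTop (𝓝 0) := by
    have : (fun N : ℕ => Real.exp (N * k2)) = fun N : ℕ => Real.exp k2 ^ N := by
      funext N; rw [← Real.exp_nat_mul]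
    rw [this]
    exact tendsto_pow_atTop_nhds_zero_of_lt_one (Real.exp_nonneg _) (exp_lt_one' g2)
  obtain ⟨N1, hN1⟩ := (t1.eventually (gt_mem_nhds (show (0 : ℝ) < c0 / 4 by positivity))).exists_forall_of_atTop
  obtain ⟨N2, hN2⟩ := (t2.eventually (gt_mem_nhds (show (0 : ℝ) < c0 / 4 by positivity))).exists_forall_of_atTop
  refine ⟨c0 / 2, by positivity, max N1 N2, fun N hN => ?_⟩
  have e1 := hN1 N (le_trans (le_max_left _ _) hN)
  have e2 := hN2 N (le_trans (le_max_right _ _) hN)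
  set f : ℕ → ℝ := fun M => vq q ^ M * cc N M with hf
  have hf0 : ∀ M, 0 ≤ f M := fun M => mul_nonneg (by positivity) (cc_nonneg N M)
  set S1 := (range (N + 1)).filter fun M : ℕ => (aq q + ρ) * N < M with hS1
  set S2 := (range (N + 1)).filter fun M : ℕ => (M : ℝ) < (aq q - ρ) * N with hS2
  set S3 := (range (N + 1)).filter fun M : ℕ => |(M : ℝ) - aq q * N| ≤ ρ * N with hS3
  have hcover : range (N + 1) ⊆ (S1 ∪ S2) ∪ S3 := by
    intro M hM
    simp only [hS1, hS2, hS3, Finset.mem_union, Finset.mem_filter, hM, true_and]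
    by_cases c1 : (aq q + ρ) * N < M
    · left; left; exact c1
    · by_cases c2 : (M : ℝ) < (aq q - ρ) * N
      · left; right; exact c2
      · right
        rw [abs_le]
        constructor <;> linarith
  have hs1 : ∑ M ∈ S1, f M ≤ lq q ^ N * Real.exp (N * k1) := by
    refine tail h0 h1 a1 (by linarith) N S1 (Finset.filter_subset _ _) fun M hM => ?_
    have h := (Finset.mem_filter.1 hM).2
    have h' := Real.log_le_log hv (vq_anti a1 a2 h1).le
    apply mul_nonneg <;> linarith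
  have hs2 : ∑ M ∈ S2, f M ≤ lq q ^ N * Real.exp (N * k2) := by
    refine tail h0 h1 (by linarith) b2 N S2 (Finset.filter_subset _ _) fun M hM => ?_
    have h := (Finset.mem_filter.1 hM).2
    have h' := Real.log_le_log (vq_pos (by linarith) b2) (vq_anti h0 b1 b2).le
    apply mul_nonneg_of_nonpos_of_nonpos <;> linarith
  have htot : c0 * lq q ^ N ≤ ∑ M ∈ S1, f M + ∑ M ∈ S2, f M + ∑ M ∈ S3, f M := by
    refine (hge N).trans ?_
    rw [an_eq]
    calc ∑ M ∈ range (N + 1), f M ≤ ∑ M ∈ (S1 ∪ S2) ∪ S3, f M :=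
          Finset.sum_le_sum_of_subset_of_nonneg hcover fun M _ _ => hf0 M
      _ ≤ ∑ M ∈ S1 ∪ S2, f M + ∑ M ∈ S3, f M := by
          rw [← Finset.sum_union_inter]
          linarith [Finset.sum_nonneg fun (M : ℕ) (_ : M ∈ (S1 ∪ S2) ∩ S3) => hf0 M]
      _ ≤ _ := by
          have : ∑ M ∈ S1 ∪ S2, f M ≤ ∑ M ∈ S1, f M + ∑ M ∈ S2, f M := by
            rw [← Finset.sum_union_inter]
            linarith [Finset.sum_nonneg fun (M : ℕ) (_ : M ∈ S1 ∩ S2) => hf0 M]
          linarith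
  have hlN : 0 < lq q ^ N := by positivity
  have hS3sum : c0 / 2 * lq q ^ N ≤ ∑ M ∈ S3, f M := by
    have u1 : lq q ^ N * Real.exp (N * k1) ≤ lq q ^ N * (c0 / 4) :=
      mul_le_mul_of_nonneg_left e1.le hlN.le
    have u2 : lq q ^ N * Real.exp (N * k2) ≤ lq q ^ N * (c0 / 4) :=
      mul_le_mul_of_nonneg_left e2.le hlN.le
    nlinarith
  -- pigeonhole
  have hcard : (S3.card : ℝ) ≤ N + 1 := by
    have := Finset.card_le_card (Finset.filter_subset (fun M : ℕ => |(M : ℝ) - aq q * N| ≤ ρ * N)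
      (range (N + 1)))
    rw [Finset.card_range] at this
    exact_mod_cast this
  by_contra hcon
  push Not at hcon
  have hlt : ∀ M ∈ S3, f M < c0 / 2 * lq q ^ N / (N + 1) := by
    intro M hM
    have h := Finset.mem_filter.1 hM
    exact hcon M (by have := Finset.mem_range.1 h.1; omega) h.2
  have hne : S3.Nonempty := by
    by_contra hemp
    rw [Finset.not_nonempty_iff_eq_empty] at hemp
    rw [hemp, Finset.sum_empty] at hS3sum
    have : 0 < c0 / 2 * lq q ^ N := by positivity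
    linarith
  have hsum : ∑ M ∈ S3, f M < S3.card * (c0 / 2 * lq q ^ N / (N + 1)) := by
    rw [← nsmul_eq_mul, ← Finset.sum_const]
    exact Finset.sum_lt_sum_of_nonempty hne hlt
  have hN1' : (0 : ℝ) < N + 1 := by positivity
  have : S3.card * (c0 / 2 * lq q ^ N / (N + 1)) ≤ c0 / 2 * lq q ^ N := by
    calc S3.card * (c0 / 2 * lq q ^ N / (N + 1)) ≤ (N + 1) * (c0 / 2 * lq q ^ N / (N + 1)) := by
          gcongr
      _ = _ := by field_simp
  linarith

theorem aq_mem {q : ℝ} (h0 : 0 < q) (h1 : q < 1) : 0 < aq q ∧ aq q < 1 := by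
  unfold aq
  have a1 : 0 < 2 - q := by linarith
  have a2 : 0 < 1 - q := by linarith
  refine ⟨by positivity, ?_⟩
  rw [div_lt_one (by positivity)]
  nlinarith

theorem canon {q : ℝ} (h0 : 0 < q) (h1 : q < 1) (η : ℝ) (hη : 0 < η) :
    ∃ δ : ℝ, 0 < δ ∧ ∃ N0 : ℕ, ∀ N : ℕ, N0 ≤ N → ∀ M : ℕ, |(M : ℝ) - aq q * N| ≤ δ * N →
      Real.exp (-(η * N)) * lq q ^ N ≤ vq q ^ M * cc N M := by
  have hl1 := lq_pos h0 h1
  have hl : 0 < lq q := lt_trans one_pos hl1
  have hv := vq_pos h0 h1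
  obtain ⟨ha0, ha1⟩ := aq_mem h0 h1
  set α := aq q with hα
  set m0 := min α (1 - α) with hm0
  have hm0pos : 0 < m0 := lt_min ha0 (by linarith)
  have hm01 : m0 ≤ α := min_le_left _ _
  have hm02 : m0 ≤ 1 - α := min_le_right _ _
  have hloglpos : 0 ≤ Real.log (lq q) := Real.log_nonneg hl1.le
  set B := Real.log (lq q) + |Real.log (vq q)| + 1 with hB
  have hBpos : 0 < B := by positivity
  set κ := min (1 / 2) (η / (4 * B)) with hκ
  have hκ0 : 0 < κ := lt_min (by norm_num) (by positivity)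
  have hκ1 : κ ≤ 1 / 2 := min_le_left _ _
  have hκ2 : κ ≤ η / (4 * B) := min_le_right _ _
  set δ := κ * m0 / 4 with hδ
  have hδ0 : 0 < δ := by positivity
  obtain ⟨c, hc, N1, hN1⟩ := concentrated h0 h1 δ hδ0
  -- polynomial against exponential
  have hpoly : ∀ᶠ N : ℕ in atTop, ((N : ℝ) + 1) * Real.exp (-(3 / 4 * η * N)) ≤ c := by
    have hr : |Real.exp (-(3 / 4 * η))| < 1 := by
      rw [abs_of_pos (Real.exp_pos _)]
      exact exp_lt_one' (by nlinarith)
    have t1 := tendsto_pow_const_mul_const_pow_of_abs_lt_one 1 hr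
    have t2 := tendsto_pow_const_mul_const_pow_of_abs_lt_one 0 hr
    have t3 := t1.add t2
    rw [add_zero] at t3
    filter_upwards [t3.eventually (gt_mem_nhds hc)] with N hN
    have e : Real.exp (-(3 / 4 * η * N)) = Real.exp (-(3 / 4 * η)) ^ N := by
      rw [← Real.exp_nat_mul]; congr 1; ring
    rw [e]
    simp only [pow_one, pow_zero, one_mul] at hN
    linarith
  obtain ⟨N2, hN2⟩ := hpoly.exists_forall_of_atTop
  refine ⟨δ, hδ0, max (max (2 * N1) N2) (⌈4 / κ⌉₊ + 1), fun N hN M hM => ?_⟩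
  have c1 : 2 * N1 ≤ N := le_trans (le_trans (le_max_left _ _) (le_max_left _ _)) hN
  have c2 : N2 ≤ N := le_trans (le_trans (le_max_right _ _) (le_max_left _ _)) hN
  have c3 : ⌈4 / κ⌉₊ + 1 ≤ N := le_trans (le_max_right _ _) hN
  have c3' : 4 / κ ≤ N := by
    have h1 := Nat.le_ceil (4 / κ)
    have h2 : ((⌈4 / κ⌉₊ : ℕ) : ℝ) ≤ N := by exact_mod_cast (by omega : ⌈4 / κ⌉₊ ≤ N)
    linarith
  rw [div_le_iff₀ hκ0] at c3'
  set n := ⌊κ * N⌋₊ with hn
  have hn1 : (n : ℝ) ≤ κ * N := Nat.floor_le (by positivity)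
  have hn2 : κ * N < n + 1 := Nat.lt_floor_add_one _
  have hnN : n ≤ N := by
    have : (n : ℝ) ≤ N := by nlinarith
    exact_mod_cast this
  have hN' : N1 ≤ N - n := by
    have h2 : (2 : ℝ) * n ≤ N := by nlinarith
    have h3 : 2 * n ≤ N := by exact_mod_cast h2
    omega
  obtain ⟨M', hM'1, hM'2, hM'3⟩ := hN1 (N - n) hN'
  have hcast : ((N - n : ℕ) : ℝ) = N - n := by push_cast [Nat.cast_sub hnN]; ring
  rw [hcast] at hM'2 hM'3
  rw [abs_le] at hM hM'2
  have hnn : (0 : ℝ) ≤ n := Nat.cast_nonneg n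
  have hNn : (0 : ℝ) ≤ N := Nat.cast_nonneg N
  have hkey : 2 * δ * N ≤ m0 * n := by
    have : κ * N / 2 ≤ n := by linarith
    calc 2 * δ * N = m0 * (κ * N / 2) := by rw [hδ]; ring
      _ ≤ m0 * n := by gcongr
  have hδn : 0 ≤ δ * n := by positivity
  have hlow : (M' : ℝ) ≤ M := by nlinarith
  have hhigh : (M : ℝ) ≤ M' + n := by nlinarith
  have hlow' : M' ≤ M := by exact_mod_cast hlow
  have hhigh' : M ≤ M' + n := by exact_mod_cast hhigh
  obtain ⟨m, rfl⟩ : ∃ m, M = M' + m := ⟨M - M', by omega⟩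
  have hmn : m ≤ n := by omega
  have hcc : cc (N - n) M' ≤ cc N (M' + m) := by
    have h := cc_add (N - n) M' n m hmn
    rwa [show N - n + n = N by omega] at h
  have hvm : Real.exp (-(|Real.log (vq q)| * n)) ≤ vq q ^ m := by
    have e1 : vq q ^ m = Real.exp (m * Real.log (vq q)) := pow_exp hv m
    rw [e1]
    apply Real.exp_le_exp.2
    have h1 := neg_abs_le (Real.log (vq q))
    have h2 : (m : ℝ) ≤ n := by exact_mod_cast hmn
    have h3 : (0 : ℝ) ≤ m := Nat.cast_nonneg m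
    have h4 := abs_nonneg (Real.log (vq q))
    nlinarith
  have hln : lq q ^ N = lq q ^ (N - n) * lq q ^ n := by
    rw [← pow_add]; congr 1; omega
  have hln2 : lq q ^ n = Real.exp (Real.log (lq q) * n) := by
    rw [pow_exp hl n, mul_comm]
  have hpolyN := hN2 N c2
  have hvm' : 0 ≤ vq q ^ m := by positivity
  calc Real.exp (-(η * N)) * lq q ^ N
      = (Real.exp (-(η * N)) * Real.exp (Real.log (lq q) * n)) * lq q ^ (N - n) := by
        rw [hln, hln2]; ring
    _ ≤ (Real.exp (-(|Real.log (vq q)| * n)) * (Real.exp (-(3 / 4 * η * N)))) *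
          lq q ^ (N - n) := by
        refine mul_le_mul_of_nonneg_right ?_ (by positivity)
        rw [← Real.exp_add, ← Real.exp_add]
        apply Real.exp_le_exp.2
        have h1 : B * n ≤ η / 4 * N := by
          calc B * n ≤ B * (κ * N) := by gcongr
            _ ≤ B * (η / (4 * B) * N) := by gcongr
            _ = η / 4 * N := by field_simp
        have h2 : B * n = Real.log (lq q) * n + |Real.log (vq q)| * n + n := by rw [hB]; ring
        nlinarith
    _ ≤ vq q ^ m * (c / (N + 1)) * lq q ^ (N - n) := by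
        have h3 : Real.exp (-(3 / 4 * η * N)) ≤ c / (N + 1) := by
          rw [le_div_iff₀ (by positivity)]
          linarith
        gcongr
    _ ≤ vq q ^ m * (c * lq q ^ (N - n) / ((N : ℝ) - n + 1)) := by
        have h4 : (0 : ℝ) < (N : ℝ) - n + 1 := by
          have : (n : ℝ) ≤ N := by exact_mod_cast hnN
          linarith
        have h5 : c / (N + 1) ≤ c / ((N : ℝ) - n + 1) := by
          gcongr
          linarith
        calc vq q ^ m * (c / (N + 1)) * lq q ^ (N - n)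
            ≤ vq q ^ m * (c / ((N : ℝ) - n + 1)) * lq q ^ (N - n) := by gcongr
          _ = _ := by ring
    _ ≤ vq q ^ m * (vq q ^ M' * cc (N - n) M') := by gcongr
    _ ≤ vq q ^ m * (vq q ^ M' * cc N (M' + m)) := by gcongr
    _ = vq q ^ (M' + m) * cc N (M' + m) := by rw [pow_add]; ring

theorem exists_q {α : ℝ} (h0 : 0 < α) (h1 : α < 1) : ∃ q : ℝ, 0 < q ∧ q < 1 ∧ aq q = α := by
  have hcont : ContinuousOn aq (Set.Icc 0 1) := by
    unfold aq
    apply ContinuousOn.div (by fun_prop) (by fun_prop)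
    intro x hx
    have : 0 < (2 - x) * (1 + x) := mul_pos (by linarith [hx.2]) (by linarith [hx.1])
    exact this.ne'
  have h := intermediate_value_Icc' (zero_le_one) hcont
  have hv0 : aq 0 = 1 := by unfold aq; norm_num
  have hv1 : aq 1 = 0 := by unfold aq; norm_num
  rw [hv0, hv1] at h
  obtain ⟨q, hq, hqα⟩ := h ⟨h0.le, h1.le⟩
  refine ⟨q, lt_of_le_of_ne hq.1 ?_, lt_of_le_of_ne hq.2 ?_, hqα⟩
  · rintro rfl; rw [hv0] at hqα; linarith
  · rintro rfl; rw [hv1] at hqα; linarith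

end Pool.Agent.Q297.JG
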