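import Pool.Agent.Q297.JG6

/-!
# The planted random subsequence model
-/

set_option autoImplicit false

namespace Pool.Agent.Q297.JG

open Finset

/-- the strictly increasing maps `[M] → [N]` -/
abbrev Incr (M N : ℕ) : Type := {σ : Fin M → Fin N // StrictMono σ}

noncomputable instance instFintypeIncr (M N : ℕ) : Fintype (Incr M N) := Fintype.ofFinite _

/-- the number `Z_{X,Y}` of strictly increasing maps `σ` with `X_σ = Y` -/
noncomputable def embCount {N M : ℕ} (X : Fin N → Bool) (Y : Fin M → Bool) : ℕ :=
  Nat.card {σ : Incr M N // X ∘ σ.1 = Y}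

/-- the expectation of `F (X, Y)` under the planted law: `X` uniform on `{0,1}^N`, `σ` a uniform
strictly increasing map, `Y = X_σ` -/
noncomputable def planted (N M : ℕ) (F : (Fin N → Bool) → (Fin M → Bool) → ℝ) : ℝ :=
  (∑ X : Fin N → Bool, ∑ σ : Incr M N, F X (X ∘ σ.1)) / (2 ^ N * Nat.card (Incr M N))

/-! ### sums over words -/

theorem ofFn_consEquiv (n : ℕ) (b : Bool) (X : Fin n → Bool) :
    List.ofFn ((Fin.consEquiv fun _ => Bool) (b, X)) = b :: List.ofFn X := by
  rw [List.ofFn_succ]
  rfl

theorem sum_words : ∀ (n : ℕ), ∀ G : List Bool → ℝ,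
    ∑ X : Fin n → Bool, G (List.ofFn X) = 2 ^ n * av n G := by
  intro n
  induction n with
  | zero => intro G; simp [av]
  | succ n ih =>
    intro G
    rw [← (Fin.consEquiv fun _ => Bool).sum_comp, Fintype.sum_prod_type, Fintype.sum_bool]
    simp only [ofFn_consEquiv]
    rw [ih (fun X => G (true :: X)), ih (fun X => G (false :: X))]
    simp only [av]
    ring

theorem sum_words' : ∀ (n : ℕ), ∀ G : List Bool → ℝ,
    ∑ X : Fin n → Bool, G (List.ofFn X) = ws n G := by
  intro n
  induction n with
  | zero => intro G; simp [ws]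
  | succ n ih =>
    intro G
    rw [← (Fin.consEquiv fun _ => Bool).sum_comp, Fintype.sum_prod_type, Fintype.sum_bool]
    simp only [ofFn_consEquiv]
    rw [ih (fun X => G (true :: X)), ih (fun X => G (false :: X))]
    simp only [ws]

/-! ### sums over strictly increasing maps -/

def up {M N : ℕ} (σ : Incr M N) : Incr M (N + 1) :=
  ⟨fun i => (σ.1 i).succ, fun _ _ h => Fin.succ_lt_succ_iff.2 (σ.2 h)⟩

def co {M N : ℕ} (σ : Incr M N) : Incr (M + 1) (N + 1) :=
  ⟨Fin.cons 0 fun i => (σ.1 i).succ, by
    intro i j h
    induction i using Fin.cases with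
    | zero =>
      induction j using Fin.cases with
      | zero => exact absurd h (lt_irrefl _)
      | succ j => simp only [Fin.cons_zero, Fin.cons_succ]; exact Fin.succ_pos _
    | succ i =>
      induction j using Fin.cases with
      | zero => exact absurd h (not_lt_bot)
      | succ j =>
        simp only [Fin.cons_succ]
        exact Fin.succ_lt_succ_iff.2 (σ.2 (Fin.succ_lt_succ_iff.1 h))⟩

theorem up_inj {M N : ℕ} : Function.Injective (up (M := M) (N := N)) := by
  intro σ τ h
  apply Subtype.ext
  funext i
  have := congrFun (congrArg Subtype.val h) i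
  exact Fin.succ_injective _ this

theorem co_inj {M N : ℕ} : Function.Injective (co (M := M) (N := N)) := by
  intro σ τ h
  apply Subtype.ext
  funext i
  have := congrFun (congrArg Subtype.val h) i.succ
  simp only [co, Fin.cons_succ] at this
  exact Fin.succ_injective _ this

theorem sum_incr {M N : ℕ} (F : Incr (M + 1) (N + 1) → ℝ) :
    ∑ σ, F σ = ∑ σ : Incr (M + 1) N, F (up σ) + ∑ σ : Incr M N, F (co σ) := by
  classical
  have hdisj : Disjoint ((univ : Finset (Incr (M + 1) N)).image up)
      ((univ : Finset (Incr M N)).image co) := by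
    rw [Finset.disjoint_left]
    intro τ h1 h2
    rw [Finset.mem_image] at h1 h2
    obtain ⟨σ, _, rfl⟩ := h1
    obtain ⟨σ', _, h⟩ := h2
    have := congrFun (congrArg Subtype.val h) 0
    simp only [co, up, Fin.cons_zero] at this
    exact (Fin.succ_ne_zero _ this.symm).elim
  have hcov : (univ : Finset (Incr (M + 1) (N + 1))) =
      (univ : Finset (Incr (M + 1) N)).image up ∪ (univ : Finset (Incr M N)).image co := by
    symm
    rw [Finset.eq_univ_iff_forall]
    intro τ
    rw [Finset.mem_union, Finset.mem_image, Finset.mem_image]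
    by_cases h0 : τ.1 0 = 0
    · right
      have hpos : ∀ i : Fin M, τ.1 i.succ ≠ 0 := by
        intro i h
        have := τ.2 (Fin.succ_pos i)
        rw [h, h0] at this
        exact absurd this (lt_irrefl _)
      refine ⟨⟨fun i => (τ.1 i.succ).pred (hpos i), fun i j h => ?_⟩, Finset.mem_univ _, ?_⟩
      · simp only [Fin.pred_lt_pred_iff]
        exact τ.2 (Fin.succ_lt_succ_iff.2 h)
      · apply Subtype.ext
        funext i
        induction i using Fin.cases with
        | zero => simp [co, h0]
        | succ i => simp [co]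
    · left
      have hpos : ∀ i : Fin (M + 1), τ.1 i ≠ 0 := by
        intro i h
        have h1 : τ.1 0 ≤ τ.1 i := τ.2.monotone (Fin.zero_le i)
        rw [h] at h1
        exact h0 (le_antisymm h1 (Fin.zero_le _))
      refine ⟨⟨fun i => (τ.1 i).pred (hpos i), fun i j h => ?_⟩, Finset.mem_univ _, ?_⟩
      · simp only [Fin.pred_lt_pred_iff]
        exact τ.2 h
      · apply Subtype.ext
        funext i
        simp [up]
  rw [hcov, Finset.sum_union hdisj, Finset.sum_image fun a _ b _ h => up_inj h,
    Finset.sum_image fun a _ b _ h => co_inj h]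

theorem embCount_eq {N M : ℕ} (X : Fin N → Bool) (Y : Fin M → Bool) :
    (embCount X Y : ℝ) = ∑ σ : Incr M N, if X ∘ σ.1 = Y then 1 else 0 := by
  classical
  unfold embCount
  rw [Nat.card_eq_fintype_card, Fintype.card_subtype, Finset.sum_boole]

theorem embCount_zz : ∀ (N M : ℕ) (X : Fin N → Bool) (Y : Fin M → Bool),
    (embCount X Y : ℝ) = zz (List.ofFn X) (List.ofFn Y) := by
  intro N
  induction N with
  | zero =>
    intro M X Y
    cases M with
    | zero =>
      rw [embCount_eq]
      have h1 : ∀ σ : Incr 0 0, X ∘ σ.1 = Y := fun σ => funext fun i => i.elim0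
      have : Unique (Incr 0 0) :=
        { default := ⟨fun i => i.elim0, fun i => i.elim0⟩
          uniq := fun σ => Subtype.ext (funext fun i => i.elim0) }
      simp only [h1, if_true, Finset.sum_const, Finset.card_univ, nsmul_eq_mul, mul_one]
      rw [Fintype.card_unique]
      simp [zz_nil]
    | succ M =>
      rw [embCount_eq]
      have : IsEmpty (Incr (M + 1) 0) := ⟨fun σ => (σ.1 0).elim0⟩
      rw [Finset.univ_eq_empty, Finset.sum_empty, List.ofFn_zero, List.ofFn_succ, zz_nil_cons]
  | succ N ih =>
    intro M X Y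
    cases M with
    | zero =>
      rw [embCount_eq]
      have h1 : ∀ σ : Incr 0 (N + 1), X ∘ σ.1 = Y := fun σ => funext fun i => i.elim0
      have : Unique (Incr 0 (N + 1)) :=
        { default := ⟨fun i => i.elim0, fun i => i.elim0⟩
          uniq := fun σ => Subtype.ext (funext fun i => i.elim0) }
      simp only [h1, if_true, Finset.sum_const, Finset.card_univ, nsmul_eq_mul, mul_one]
      rw [Fintype.card_unique]
      simp [zz_nil]
    | succ M =>
      rw [embCount_eq, sum_incr]
      have e1 : ∀ σ : Incr (M + 1) N, (X ∘ (up σ).1 = Y) ↔ (fun i : Fin N => X i.succ) ∘ σ.1 = Y :=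
        fun σ => Iff.rfl
      have e2 : ∀ σ : Incr M N, (X ∘ (co σ).1 = Y) ↔
          (Y 0 = X 0 ∧ (fun i : Fin N => X i.succ) ∘ σ.1 = fun i : Fin M => Y i.succ) := by
        intro σ
        constructor
        · intro h
          refine ⟨?_, ?_⟩
          · have := congrFun h 0
            simp only [Function.comp, co, Fin.cons_zero] at this
            exact this.symm
          · funext i
            have := congrFun h i.succ
            simp only [Function.comp, co, Fin.cons_succ] at this
            exact this
        · rintro ⟨h1, h2⟩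
          funext i
          induction i using Fin.cases with
          | zero => simp only [Function.comp, co, Fin.cons_zero]; exact h1.symm
          | succ i =>
            have := congrFun h2 i
            simp only [Function.comp, co, Fin.cons_succ] at this ⊢
            exact this
      simp only [e1, e2]
      rw [List.ofFn_succ, List.ofFn_succ, zz_cons]
      have i1 := ih (M + 1) (fun i : Fin N => X i.succ) Y
      have i2 := ih M (fun i : Fin N => X i.succ) (fun i : Fin M => Y i.succ)
      rw [embCount_eq] at i1 i2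
      rw [← i2, i1, List.ofFn_succ]
      congr 1
      by_cases h : Y 0 = X 0
      · simp [h]
      · simp [h]

theorem embCount_pos {N M : ℕ} (X : Fin N → Bool) (σ : Incr M N) : 1 ≤ embCount X (X ∘ σ.1) := by
  unfold embCount
  have : Nonempty {τ : Incr M N // X ∘ τ.1 = X ∘ σ.1} := ⟨⟨σ, rfl⟩⟩
  exact Nat.card_pos

theorem planted_sq (N M : ℕ) (W : List Bool → ℝ) :
    ∑ X : Fin N → Bool, ∑ σ : Incr M N, W (List.ofFn X) * (embCount X (X ∘ σ.1) : ℝ) =
      2 ^ N * av N (fun X => W X * sq M X) := by
  rw [← sum_words N (fun X => W X * sq M X)]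
  refine Finset.sum_congr rfl fun X _ => ?_
  rw [← Finset.mul_sum]
  congr 1
  unfold sq
  rw [← sum_words' M (fun Y => zz (List.ofFn X) Y ^ 2)]
  have h1 : ∀ σ : Incr M N, (embCount X (X ∘ σ.1) : ℝ) =
      ∑ Y : Fin M → Bool, if X ∘ σ.1 = Y then (embCount X Y : ℝ) else 0 := by
    intro σ
    rw [Finset.sum_ite_eq]
    simp
  simp only [h1]
  rw [Finset.sum_comm]
  refine Finset.sum_congr rfl fun Y _ => ?_
  rw [← embCount_zz N M X Y]
  have h2 : ∀ σ : Incr M N, (if X ∘ σ.1 = Y then (embCount X Y : ℝ) else 0) =
      (embCount X Y : ℝ) * if X ∘ σ.1 = Y then 1 else 0 := by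
    intro σ
    split_ifs <;> ring
  simp only [h2]
  rw [← Finset.mul_sum, ← embCount_eq, pow_two]

/-! ### the weighted Jensen inequality -/

theorem av_log_wp {e : ℝ} (h0 : 0 < e) (h1 : e < 1) : ∀ (n : ℕ) (d : Bool),
    av n (fun X => Real.log (wp e d X)) = n * (Real.log (1 - e ^ 2) / 2) := by
  have hpos : ∀ (X : List Bool) (d : Bool), 0 < wp e d X := by
    intro X
    induction X with
    | nil => intro d; simp [wp]
    | cons c X ih =>
      intro d
      simp only [wp]
      refine mul_pos ?_ (ih c)
      rcases sg_cases d c with h | h <;> rw [h] <;> linarith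
  have hlog : Real.log (1 - e ^ 2) = Real.log (1 - e) + Real.log (1 + e) := by
    rw [← Real.log_mul (by linarith) (by linarith)]
    congr 1
    ring
  intro n
  induction n with
  | zero => intro d; simp [av, wp]
  | succ n ih =>
    intro d
    have key : ∀ c : Bool, av n (fun X => Real.log (wp e d (c :: X))) =
        Real.log (1 - e * (sg d * sg c)) + n * (Real.log (1 - e ^ 2) / 2) := by
      intro c
      have h2 : (fun X => Real.log (wp e d (c :: X))) =
          fun X => Real.log (1 - e * (sg d * sg c)) + Real.log (wp e c X) := by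
        funext X
        simp only [wp]
        rw [Real.log_mul _ (hpos X c).ne']
        rcases sg_cases d c with h | h <;> rw [h]
        · have : 0 < 1 - e * 1 := by linarith
          exact this.ne'
        · have : 0 < 1 - e * (-1) := by linarith
          exact this.ne'
      rw [h2, av_add, av_const, ih c]
    simp only [av]
    rw [key true, key false, hlog]
    push_cast
    cases d
    · simp only [sg, if_true, Bool.false_eq_true, if_false]
      have e1 : (1 : ℝ) - e * (-1 * 1) = 1 + e := by ring
      have e2 : (1 : ℝ) - e * (-1 * -1) = 1 - e := by ring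
      rw [e1, e2]
      ring
    · simp only [sg, if_true, Bool.false_eq_true, if_false]
      have e1 : (1 : ℝ) - e * (1 * 1) = 1 - e := by ring
      have e2 : (1 : ℝ) - e * (1 * -1) = 1 + e := by ring
      rw [e1, e2]
      ring

theorem incr_nonempty {M N : ℕ} (h : M ≤ N) : Nonempty (Incr M N) :=
  ⟨⟨Fin.castLE h, Fin.strictMono_castLE h⟩⟩

theorem wp_pos {e : ℝ} (h0 : 0 < e) (h1 : e < 1) : ∀ (X : List Bool) (d : Bool),
    0 < wp e d X := by
  intro X
  induction X with
  | nil => intro d; simp [wp]
  | cons c X ih =>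
    intro d
    simp only [wp]
    refine mul_pos ?_ (ih c)
    rcases sg_cases d c with h | h <;> rw [h] <;> linarith

/-- Jensen's inequality with the weight -/
theorem jensen {N M : ℕ} (hMN : M ≤ N) {e : ℝ} (h0 : 0 < e) (h1 : e < 1) :
    planted N M (fun X Y => Real.log (embCount X Y)) ≤
      Real.log (av N (fun X => wp e true X * sq M X) / Nat.card (Incr M N)) -
        N * (Real.log (1 - e ^ 2) / 2) := by
  have hne := incr_nonempty hMN
  have hcard : 0 < (Nat.card (Incr M N) : ℝ) := by
    have : 0 < Nat.card (Incr M N) := Nat.card_pos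
    exact_mod_cast this
  set K : ℝ := (Nat.card (Incr M N) : ℝ) with hK
  have h2 : (0 : ℝ) < 2 ^ N := by positivity
  set P : ℝ := av N (fun X => wp e true X * sq M X) / K with hP
  -- the sum of the weighted counts
  have hsum := planted_sq N M (wp e true)
  have hsumP : ∑ X : Fin N → Bool, ∑ σ : Incr M N,
      wp e true (List.ofFn X) * (embCount X (X ∘ σ.1) : ℝ) = 2 ^ N * K * P := by
    rw [hsum, hP]; field_simp
  have hZpos : ∀ (X : Fin N → Bool) (σ : Incr M N), (0 : ℝ) < embCount X (X ∘ σ.1) := by
    intro X σ
    have := embCount_pos X σ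
    exact_mod_cast this
  have hPpos : 0 < P := by
    have h3 : 0 < ∑ X : Fin N → Bool, ∑ σ : Incr M N,
        wp e true (List.ofFn X) * (embCount X (X ∘ σ.1) : ℝ) := by
      apply Finset.sum_pos
      · intro X _
        apply Finset.sum_pos
        · intro σ _
          exact mul_pos (wp_pos h0 h1 _ _) (hZpos X σ)
        · exact Finset.univ_nonempty
      · exact Finset.univ_nonempty
    rw [hsumP] at h3
    by_contra hcon
    push Not at hcon
    have : 2 ^ N * K * P ≤ 0 := mul_nonpos_of_nonneg_of_nonpos (by positivity) hcon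
    linarith
  have hpt : ∀ (X : Fin N → Bool) (σ : Incr M N), Real.log (embCount X (X ∘ σ.1)) ≤
      wp e true (List.ofFn X) * (embCount X (X ∘ σ.1) : ℝ) / P - 1 + Real.log P -
        Real.log (wp e true (List.ofFn X)) := by
    intro X σ
    have hw := wp_pos h0 h1 (List.ofFn X) true
    have hz := hZpos X σ
    have h3 := Real.log_le_sub_one_of_pos
      (show 0 < wp e true (List.ofFn X) * (embCount X (X ∘ σ.1) : ℝ) / P by positivity)
    rw [Real.log_div (mul_pos hw hz).ne' hPpos.ne', Real.log_mul hw.ne' hz.ne'] at h3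
    linarith
  have hcardK : ((Finset.univ : Finset (Incr M N)).card : ℝ) = K := by
    rw [hK, Finset.card_univ, Nat.card_eq_fintype_card]
  have htot : ∑ X : Fin N → Bool, ∑ σ : Incr M N, Real.log (embCount X (X ∘ σ.1)) ≤
      2 ^ N * K * (Real.log P - N * (Real.log (1 - e ^ 2) / 2)) := by
    calc ∑ X : Fin N → Bool, ∑ σ : Incr M N, Real.log (embCount X (X ∘ σ.1))
        ≤ ∑ X : Fin N → Bool, ∑ σ : Incr M N,
          (wp e true (List.ofFn X) * (embCount X (X ∘ σ.1) : ℝ) / P - 1 + Real.log P -
            Real.log (wp e true (List.ofFn X))) :=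
          Finset.sum_le_sum fun X _ => Finset.sum_le_sum fun σ _ => hpt X σ
      _ = (∑ X : Fin N → Bool, ∑ σ : Incr M N,
            wp e true (List.ofFn X) * (embCount X (X ∘ σ.1) : ℝ)) / P +
          ∑ X : Fin N → Bool, K * ((-1 + Real.log P) - Real.log (wp e true (List.ofFn X))) := by
          rw [Finset.sum_div, ← Finset.sum_add_distrib]
          refine Finset.sum_congr rfl fun X _ => ?_
          rw [Finset.sum_div, ← hcardK, ← nsmul_eq_mul, ← Finset.sum_const,
            ← Finset.sum_add_distrib]
          refine Finset.sum_congr rfl fun σ _ => ?_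
          ring
      _ = 2 ^ N * K + ∑ X : Fin N → Bool,
            K * ((-1 + Real.log P) - Real.log (wp e true (List.ofFn X))) := by
          rw [hsumP]
          congr 1
          field_simp
      _ = 2 ^ N * K * (Real.log P - N * (Real.log (1 - e ^ 2) / 2)) := by
          have h4 : ∑ X : Fin N → Bool,
              K * ((-1 + Real.log P) - Real.log (wp e true (List.ofFn X))) =
              2 ^ N * av N (fun X => K * ((-1 + Real.log P) - Real.log (wp e true X))) :=
            sum_words N (fun X => K * ((-1 + Real.log P) - Real.log (wp e true X)))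
          have h5 : av N (fun X => K * ((-1 + Real.log P) - Real.log (wp e true X))) =
              K * ((-1 + Real.log P) - N * (Real.log (1 - e ^ 2) / 2)) := by
            rw [av_mul, ← av_log_wp h0 h1 N true]
            have : (fun X => (-1 + Real.log P) - Real.log (wp e true X)) =
                fun X => (-1 + Real.log P) + (-1) * Real.log (wp e true X) := by
              funext X; ring
            rw [this, av_add, av_const, av_mul]
            ring
          rw [h4, h5]
          ring
  unfold planted
  rw [div_le_iff₀ (by positivity), mul_comm]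
  exact htot

theorem planted_mean {N M : ℕ} :
    planted N M (fun X Y => (embCount X Y : ℝ)) = cc N M / Nat.card (Incr M N) := by
  have h := planted_sq N M (fun _ => 1)
  simp only [one_mul] at h
  unfold planted
  rw [h]
  have h2 : (0 : ℝ) < 2 ^ N := by positivity
  unfold cc
  rw [mul_div_mul_left _ _ h2.ne']

theorem tilt_le {q e : ℝ} (h0 : 0 < q) (h1 : q < 1) (he0 : 0 ≤ e) (he1 : e ≤ 1) {N M : ℕ}
    (hMN : M ≤ N) :
    vq q ^ M * av N (fun X => wp e true X * sq M X) ≤ yy (vq q) e N := by
  have hv := vq_pos h0 h1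
  unfold yy
  rw [← av_mul]
  refine av_mono _ _ _ fun X hX => ?_
  have hw := (wp_bound he0 he1 X true).1
  have h : vq q ^ M * sq M X ≤ aa (vq q) X [] := by
    rw [aa_nil, hX]
    exact Finset.single_le_sum (f := fun m => vq q ^ m * sq m X)
      (fun m _ => mul_nonneg (by positivity) (sq_nonneg' m X))
      (Finset.mem_range.2 (by omega))
  calc vq q ^ M * (wp e true X * sq M X) = wp e true X * (vq q ^ M * sq M X) := by ring
    _ ≤ _ := mul_le_mul_of_nonneg_left h hw

/-- the strict gap, uniformly -/
theorem gap (α : ℝ) (hα0 : 0 < α) (hα1 : α < 1) :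
    ∃ c : ℝ, 0 < c ∧ ∃ δ : ℝ, 0 < δ ∧ ∃ N0 : ℕ, ∀ N M : ℕ, N0 ≤ N →
      |(M : ℝ) / N - α| ≤ δ →
      planted N M (fun X Y => Real.log (embCount X Y)) + c * N ≤
        Real.log (planted N M (fun X Y => (embCount X Y : ℝ))) := by
  obtain ⟨q, h0, h1, hq⟩ := exists_q hα0 hα1
  have hv := vq_pos h0 h1
  have hl : 0 < lq q := lt_trans one_pos (lq_pos h0 h1)
  obtain ⟨e, he0, he1, hy⟩ := yy_bound h0 h1
  have hy' := hy e he0 le_rfl
  set c0 := Real.log (1 + e ^ 2) + Real.log (1 - e ^ 2) / 2 with hc0
  have he2 : e ^ 2 ≤ 1 / 4 := by nlinarith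
  have he2' : 0 < e ^ 2 := by positivity
  have hc0pos : 0 < c0 := by
    have h3 : 2 * c0 = Real.log ((1 + e ^ 2) ^ 2 * (1 - e ^ 2)) := by
      rw [Real.log_mul (by positivity) (by linarith), Real.log_pow, hc0]
      push_cast
      ring
    have h4 : 1 < (1 + e ^ 2) ^ 2 * (1 - e ^ 2) := by
      nlinarith [mul_pos he2' he2', mul_pos (mul_pos he2' he2') he2']
    have h5 := Real.log_pos h4
    linarith
  obtain ⟨δ, hδ, N0, hcan⟩ := canon h0 h1 (c0 / 2) (by positivity)
  refine ⟨c0 / 2, by positivity, min δ (1 - α), lt_min hδ (by linarith), max N0 1,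
    fun N M hN hM => ?_⟩
  have hN0 : N0 ≤ N := le_trans (le_max_left _ _) hN
  have hN1 : 1 ≤ N := le_trans (le_max_right _ _) hN
  have hNpos : (0 : ℝ) < N := by exact_mod_cast hN1
  have hM1 : |(M : ℝ) / N - α| ≤ δ := hM.trans (min_le_left _ _)
  have hM2 : |(M : ℝ) / N - α| ≤ 1 - α := hM.trans (min_le_right _ _)
  have hMN : M ≤ N := by
    have h3 := (abs_le.1 hM2).2
    have h4 : (M : ℝ) / N ≤ 1 := by linarith
    rw [div_le_one hNpos] at h4
    exact_mod_cast h4
  have hM3 : |(M : ℝ) - aq q * N| ≤ δ * N := by
    rw [hq]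
    have h3 : (M : ℝ) - α * N = ((M : ℝ) / N - α) * N := by field_simp
    rw [h3, abs_mul, abs_of_pos hNpos]
    gcongr
  have hlow := hcan N hN0 M hM3
  have hup := (tilt_le h0 h1 he0.le (by linarith) hMN).trans (hy' N)
  have hne := incr_nonempty hMN
  have hcard : 0 < (Nat.card (Incr M N) : ℝ) := by
    have : 0 < Nat.card (Incr M N) := Nat.card_pos
    exact_mod_cast this
  have hj := jensen hMN he0 (by linarith : e < 1)
  rw [planted_mean]
  set T := av N (fun X => wp e true X * sq M X) with hT
  set K : ℝ := (Nat.card (Incr M N) : ℝ) with hK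
  have hvM : 0 < vq q ^ M := by positivity
  have hccpos : 0 < cc N M := by
    by_contra hcon
    push Not at hcon
    have h3 : vq q ^ M * cc N M ≤ 0 := mul_nonpos_of_nonneg_of_nonpos hvM.le hcon
    have h4 : 0 < Real.exp (-(c0 / 2 * N)) * lq q ^ N := by positivity
    linarith
  -- the tilted sum is small
  have hTle : T ≤ cc N M * (Real.exp (c0 / 2 * N) / (1 + e ^ 2) ^ N) := by
    have h3 : vq q ^ M * T ≤ vq q ^ M * (cc N M * (Real.exp (c0 / 2 * N) / (1 + e ^ 2) ^ N)) := by
      calc vq q ^ M * T ≤ (lq q / (1 + e ^ 2)) ^ N := hup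
        _ = (Real.exp (-(c0 / 2 * N)) * lq q ^ N) * (Real.exp (c0 / 2 * N) / (1 + e ^ 2) ^ N) := by
            rw [div_pow, Real.exp_neg]
            field_simp
        _ ≤ (vq q ^ M * cc N M) * (Real.exp (c0 / 2 * N) / (1 + e ^ 2) ^ N) := by gcongr
        _ = _ := by ring
    exact le_of_mul_le_mul_left h3 hvM
  have hTpos : 0 < T := by
    have hP : Real.log (T / K) = Real.log (T / K) := rfl
    by_contra hcon
    push Not at hcon
    -- `T` is a sum of positive terms
    have hsum := planted_sq N M (wp e true)
    have h3 : 0 < ∑ X : Fin N → Bool, ∑ σ : Incr M N,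
        wp e true (List.ofFn X) * (embCount X (X ∘ σ.1) : ℝ) := by
      apply Finset.sum_pos
      · intro X _
        apply Finset.sum_pos
        · intro σ _
          have h5 := embCount_pos X σ
          have h6 : (0 : ℝ) < embCount X (X ∘ σ.1) := by exact_mod_cast h5
          exact mul_pos (wp_pos he0 (by linarith) _ _) h6
        · exact Finset.univ_nonempty
      · exact Finset.univ_nonempty
    rw [hsum] at h3
    have : (2 : ℝ) ^ N * T ≤ 0 := mul_nonpos_of_nonneg_of_nonpos (by positivity) hcon
    linarith
  have hlogT : Real.log (T / K) ≤ Real.log (cc N M / K) + (c0 / 2 * N - N * Real.log (1 + e ^ 2)) := by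
    have h3 : T / K ≤ cc N M / K * (Real.exp (c0 / 2 * N) / (1 + e ^ 2) ^ N) := by
      rw [div_mul_eq_mul_div]
      gcongr
    have h4 := Real.log_le_log (by positivity) h3
    have h5 : Real.log (Real.exp (c0 / 2 * N) / (1 + e ^ 2) ^ N) =
        c0 / 2 * N - N * Real.log (1 + e ^ 2) := by
      rw [Real.log_div (Real.exp_pos _).ne' (by positivity), Real.log_exp, Real.log_pow]
    rw [Real.log_mul (by positivity) (by positivity), h5] at h4
    exact h4
  have hfin : c0 * N = N * Real.log (1 + e ^ 2) + N * (Real.log (1 - e ^ 2) / 2) := by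
    rw [hc0]; ring
  linarith

end Pool.Agent.Q297.JG
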