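import Pool.Agent.Q297.BlockIndep

open MeasureTheory ProbabilityTheory Filter Topology Finset

namespace Q297.Lac

/-- sums over finite nonempty subsets -/
def subsetSums (A : Set ℕ) : Set ℕ :=
  {s | ∃ F : Finset ℕ, F.Nonempty ∧ (F : Set ℕ) ⊆ A ∧ ∑ a ∈ F, a = s}

/-- counting function of subset sums -/
noncomputable def cnt (A : Set ℕ) (n : ℕ) : ℕ := (subsetSums A ∩ Set.Icc 1 n).ncard

lemma single_le_sum' {F : Finset ℕ} {a : ℕ} (ha : a ∈ F) : a ≤ ∑ x ∈ F, x :=
  Finset.single_le_sum (f := fun x => x) (fun _ _ => Nat.zero_le _) ha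

/-- deterministic counting bound -/
theorem cnt_le (A : Set ℕ) (hA : ∀ a ∈ A, 1 ≤ a) (N : ℕ) (T : Finset ℕ)
    (hT : ∀ a, a ∈ T ↔ a ∈ A ∧ a ≤ N) (hs : ∑ a ∈ T, a < 2 * N)
    (hgap : ∀ a ∈ A, ¬ (N < a ∧ a ≤ 4 * N)) : cnt A (4 * N) ≤ 2 * cnt A N + 1 := by
  classical
  set s := ∑ a ∈ T, a with hsdef
  set S1 := subsetSums A ∩ Set.Icc 1 N with hS1
  have hfin : S1.Finite := (Set.finite_Icc 1 N).subset Set.inter_subset_right
  have hsub : subsetSums A ∩ Set.Icc 1 (4 * N) ⊆ S1 ∪ (fun x => s - x) '' (insert 0 S1) := by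
    rintro y ⟨⟨F, hFn, hFA, hFy⟩, hy1, hy2⟩
    have hFT : F ⊆ T := by
      intro a ha
      rw [hT]
      have haA := hFA ha
      refine ⟨haA, ?_⟩
      have h1 : a ≤ y := by rw [← hFy]; exact single_le_sum' ha
      by_contra h2
      exact hgap a haA ⟨by omega, by omega⟩
    have hys : y ≤ s := by
      rw [← hFy]; exact Finset.sum_le_sum_of_subset hFT
    by_cases hyN : y ≤ N
    · left; exact ⟨⟨F, hFn, hFA, hFy⟩, hy1, hyN⟩
    · right
      have hsplit : ∑ a ∈ T \ F, a + ∑ a ∈ F, a = s := Finset.sum_sdiff hFT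
      refine ⟨s - y, ?_, by simp only; omega⟩
      by_cases h0 : s - y = 0
      · left; exact h0
      · right
        refine ⟨⟨T \ F, ?_, ?_, by omega⟩, by omega, by omega⟩
        · rw [Finset.nonempty_iff_ne_empty]
          intro he
          rw [he] at hsplit
          simp at hsplit
          omega
        · intro a ha
          have : a ∈ T := (Finset.mem_sdiff.1 (Finset.mem_coe.1 ha)).1
          exact ((hT a).1 this).1
  have hfin2 : ((fun x => s - x) '' (insert 0 S1)).Finite := (hfin.insert 0).image _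
  calc cnt A (4 * N) ≤ (S1 ∪ (fun x => s - x) '' (insert 0 S1)).ncard :=
        Set.ncard_le_ncard hsub (hfin.union hfin2)
    _ ≤ S1.ncard + ((fun x => s - x) '' (insert 0 S1)).ncard := Set.ncard_union_le _ _
    _ ≤ S1.ncard + (insert 0 S1).ncard :=
        Nat.add_le_add_left (Set.ncard_image_le (hfin.insert 0)) _
    _ ≤ S1.ncard + (S1.ncard + 1) :=
        Nat.add_le_add_left (Set.ncard_insert_le _ _) _
    _ = 2 * cnt A N + 1 := by unfold cnt; ring

/-- sparse scales -/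
def N : ℕ → ℕ
  | 0 => 1
  | (k + 1) => 160 * (N k) ^ 2

lemma N_pos (k : ℕ) : 1 ≤ N k := by
  induction k with
  | zero => simp [N]
  | succ k ih => simp only [N]; nlinarith

lemma N_succ_ge (k : ℕ) : 160 * N k ≤ N (k + 1) := by
  have := N_pos k
  simp only [N]; nlinarith

lemma N_ge (k : ℕ) : k + 1 ≤ N k := by
  induction k with
  | zero => simp [N]
  | succ k ih => have := N_succ_ge k; omega

lemma N_mono : Monotone N := monotone_nat_of_le_succ (fun k => by
  have := N_succ_ge k; omega)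

lemma N_tendsto : Tendsto N atTop atTop :=
  tendsto_atTop_mono (fun k => (by have := N_ge k; omega : k ≤ N k)) tendsto_id

/-- blocks -/
def B (k : ℕ) : Finset ℕ := Finset.Ioc (4 * N k) (4 * N (k + 1))

lemma B_disj : Pairwise (Function.onFun Disjoint B) := by
  have key : ∀ i j, i < j → Disjoint (B i) (B j) := by
    intro i j hij
    rw [Finset.disjoint_left]
    intro a ha hb
    simp only [B, Finset.mem_Ioc] at ha hb
    have := N_mono (show i + 1 ≤ j by omega)
    omega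
  intro i j hij
  rcases lt_or_gt_of_ne hij with h | h
  · exact key i j h
  · exact (key j i h).symm

section prob

variable {Ω : Type*} [MeasurableSpace Ω] {μ : Measure Ω} [IsProbabilityMeasure μ] {E : ℕ → Set Ω}

/-- membership indicator -/
noncomputable def f (E : ℕ → Set Ω) (i : ℕ) : Ω → ℝ := (E i).indicator fun _ => (1:ℝ)

lemma f_nonneg (i : ℕ) (ω : Ω) : 0 ≤ f E i ω := by
  unfold f; exact Set.indicator_nonneg (fun _ _ => zero_le_one) ω

lemma f_meas (hm : ∀ i, MeasurableSet (E i)) (i : ℕ) : Measurable (f E i) :=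
  measurable_const.indicator (hm i)

lemma log2_bound : (0.693:ℝ) < Real.log 2 := by
  have := Real.log_two_gt_d9; linarith

/-- the probabilities -/
noncomputable def p (i : ℕ) : ℝ := min 1 (1 / (i * Real.log 2))

lemma p_nonneg (i : ℕ) : 0 ≤ p i := by
  have := log2_bound
  unfold p; positivity

lemma p_le_two_div {i : ℕ} : p i ≤ 2 / i := by
  unfold p
  refine (min_le_right _ _).trans ?_
  rcases Nat.eq_zero_or_pos i with h | h
  · subst h; simp
  · have hi : (0:ℝ) < i := by exact_mod_cast h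
    have := log2_bound
    rw [div_le_div_iff₀ (by positivity) hi]
    nlinarith

lemma real_E (hp : ∀ i, 1 ≤ i → μ (E i) = ENNReal.ofReal (p i)) {i : ℕ} (hi : 1 ≤ i) :
    μ.real (E i) = p i := by
  rw [Measure.real, hp i hi, ENNReal.toReal_ofReal (p_nonneg i)]

lemma meas_zero (hm : ∀ i, MeasurableSet (E i))
    (hp : ∀ i, 1 ≤ i → μ (E i) = ENNReal.ofReal (p i)) {i : ℕ} (hi : 1 ≤ i) :
    1 - 2 / (i:ℝ) ≤ μ.real (f E i ⁻¹' {0}) := by
  have : f E i ⁻¹' {0} = (E i)ᶜ := by
    ext ω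
    simp only [f, Set.mem_preimage, Set.mem_singleton_iff, Set.mem_compl_iff]
    by_cases h : ω ∈ E i <;> simp [h]
  rw [this, probReal_compl_eq_one_sub (hm i), real_E hp hi]
  have := p_le_two_div (i := i)
  linarith

lemma prod_bound (N0 : ℕ) (hN : 3 ≤ N0) (m : ℕ) :
    ∏ i ∈ Finset.Ioc N0 (N0 + m), (1 - 2 / (i:ℝ)) =
      ((N0:ℝ) * (N0 - 1)) / (((N0:ℝ) + m) * ((N0:ℝ) + m - 1)) := by
  have h3 : (3:ℝ) ≤ N0 := by exact_mod_cast hN
  induction m with
  | zero =>
    have h1 : (N0:ℝ) ≠ 0 := by linarith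
    have h2 : (N0:ℝ) - 1 ≠ 0 := by linarith
    simp
    field_simp
  | succ m ih =>
    have hm0 : (0:ℝ) ≤ m := Nat.cast_nonneg m
    have : Finset.Ioc N0 (N0 + (m + 1)) = insert (N0 + m + 1) (Finset.Ioc N0 (N0 + m)) := by
      ext x; simp only [Finset.mem_Ioc, Finset.mem_insert]; omega
    rw [this, Finset.prod_insert (by simp), ih]
    have h1 : (N0:ℝ) + m ≠ 0 := by linarith
    have h2 : (N0:ℝ) + m - 1 ≠ 0 := by linarith
    have h4 : (N0:ℝ) + m + 1 ≠ 0 := by linarith
    push_cast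
    have e1 : (N0:ℝ) + (m + 1) = N0 + m + 1 := by ring
    rw [e1]
    have e2 : (N0:ℝ) + m + 1 - 1 = N0 + m := by ring
    rw [e2]
    field_simp
    ring

/-- the good event -/
def G (k : ℕ) : Set (B k → ℝ) :=
  {x | (∑ i : B k, if (i:ℕ) ≤ N (k + 1) then ((i:ℕ):ℝ) * x i else 0) < 1.9 * N (k + 1)} ∩
  {x | ∀ i : B k, N (k + 1) < i → x i = 0}

lemma G_meas (k : ℕ) : MeasurableSet (G k) := by
  apply MeasurableSet.inter
  · apply measurableSet_lt _ measurable_const
    apply Finset.measurable_sum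
    intro i _
    split_ifs
    · exact (measurable_pi_apply i).const_mul _
    · exact measurable_const
  · have : {x : B k → ℝ | ∀ i : B k, N (k + 1) < i → x i = 0} =
        ⋂ i : B k, {x : B k → ℝ | N (k + 1) < i → x i = 0} := by ext x; simp
    rw [this]
    apply MeasurableSet.iInter
    intro i
    by_cases h : N (k + 1) < i
    · simp only [h, forall_true_left]
      exact measurableSet_eq_fun (measurable_pi_apply i) measurable_const
    · simp [h]

/-- events -/
def Ev (E : ℕ → Set Ω) (k : ℕ) : Set Ω := {ω | (fun i : B k => f E i ω) ∈ G k}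

lemma mem_Ev_iff (k : ℕ) (ω : Ω) : ω ∈ Ev E k ↔
    (∑ i ∈ Finset.Ioc (4 * N k) (N (k + 1)), (i:ℝ) * f E i ω < 1.9 * N (k + 1)) ∧
    ∀ i ∈ Finset.Ioc (N (k + 1)) (4 * N (k + 1)), f E i ω = 0 := by
  have hN : 4 * N k ≤ N (k + 1) := by have := N_succ_ge k; omega
  have h1 : (∑ i : B k, if (i:ℕ) ≤ N (k + 1) then ((i:ℕ):ℝ) * f E i ω else 0) =
      ∑ i ∈ Finset.Ioc (4 * N k) (N (k + 1)), (i:ℝ) * f E i ω := by
    rw [Finset.sum_coe_sort (B k) (fun i : ℕ => if i ≤ N (k + 1) then (i:ℝ) * f E i ω else 0)]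
    rw [← Finset.sum_filter]
    apply Finset.sum_congr _ (fun _ _ => rfl)
    ext x
    simp only [B, Finset.mem_filter, Finset.mem_Ioc]
    omega
  unfold Ev G
  simp only [Set.mem_ofPred_eq, Set.mem_inter_iff]
  rw [h1]
  apply and_congr Iff.rfl
  constructor
  · intro h i hi
    rw [Finset.mem_Ioc] at hi
    exact h ⟨i, by simp only [B, Finset.mem_Ioc]; omega⟩ hi.1
  · intro h i hi
    apply h
    have := i.2
    simp only [B, Finset.mem_Ioc] at this
    rw [Finset.mem_Ioc]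
    exact ⟨hi, this.2⟩

lemma Ev_lower (hm : ∀ i, MeasurableSet (E i)) (hind : iIndepSet E μ)
    (hp : ∀ i, 1 ≤ i → μ (E i) = ENNReal.ofReal (p i)) (k : ℕ) :
    1 / 200 ≤ μ.real (Ev E k) := by
  have hf : iIndepFun (f E) μ := hind.iIndepFun_indicator
  have hfm := f_meas hm
  set M := N (k + 1) with hM
  have hM160 : 160 ≤ M := by have := N_succ_ge k; have := N_pos k; omega
  have hMR : (160:ℝ) ≤ M := by exact_mod_cast hM160
  set S := Finset.Ioc (4 * N k) M with hS
  set T := Finset.Ioc M (4 * M) with hT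
  have hST : Disjoint S T := by
    rw [Finset.disjoint_left]
    intro a ha hb
    rw [hS, Finset.mem_Ioc] at ha
    rw [hT, Finset.mem_Ioc] at hb
    omega
  have hI := hf.indepFun_finset S T hST hfm
  set U : Set Ω := {ω | ∑ i ∈ S, (i:ℝ) * f E i ω < 1.9 * M} with hU
  set V : Set Ω := {ω | ∀ i ∈ T, f E i ω = 0} with hV
  have hEv : Ev E k = U ∩ V := by
    ext ω
    rw [mem_Ev_iff]
    rfl
  have hprod : μ (U ∩ V) = μ U * μ V := by
    have hA : MeasurableSet {x : S → ℝ | ∑ i : S, ((i:ℕ):ℝ) * x i < 1.9 * M} := by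
      apply measurableSet_lt _ measurable_const
      apply Finset.measurable_sum
      intro i _
      exact (measurable_pi_apply i).const_mul _
    have hB : MeasurableSet {x : T → ℝ | ∀ i : T, x i = 0} := by
      have : {x : T → ℝ | ∀ i : T, x i = 0} = ⋂ i : T, {x : T → ℝ | x i = 0} := by ext x; simp
      rw [this]
      exact MeasurableSet.iInter (fun i => measurableSet_eq_fun (measurable_pi_apply i)
        measurable_const)
    have := hI.measure_inter_preimage_eq_mul _ _ hA hB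
    have e1 : (fun (a : Ω) (i : S) => f E i a) ⁻¹'
        {x : S → ℝ | ∑ i : S, ((i:ℕ):ℝ) * x i < 1.9 * M} = U := by
      ext ω
      simp only [Set.mem_preimage, Set.mem_ofPred_eq, hU]
      rw [Finset.sum_coe_sort S (fun i : ℕ => (i:ℝ) * f E i ω)]
    have e2 : (fun (a : Ω) (i : T) => f E i a) ⁻¹' {x : T → ℝ | ∀ i : T, x i = 0} = V := by
      ext ω
      simp [hV]
    rw [e1, e2] at this
    exact this
  -- lower bound for V
  have hVb : 1 / 32 ≤ μ.real V := by
    have e : V = ⋂ i ∈ T, f E i ⁻¹' {0} := by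
      ext ω; simp [hV]
    have hmul := hf.measure_inter_preimage_eq_mul T (sets := fun _ => {0})
      (fun i _ => measurableSet_singleton _)
    rw [Measure.real, e, hmul, ENNReal.toReal_prod]
    have hge : ∏ i ∈ T, (1 - 2 / (i:ℝ)) ≤ ∏ i ∈ T, (μ (f E i ⁻¹' {0})).toReal := by
      apply Finset.prod_le_prod
      · intro i hi
        rw [hT, Finset.mem_Ioc] at hi
        have hiR : (160:ℝ) ≤ i := by
          have : 160 ≤ i := by omega
          exact_mod_cast this
        have : 2 / (i:ℝ) ≤ 1 := by rw [div_le_one (by linarith)]; linarith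
        linarith
      · intro i hi
        rw [hT, Finset.mem_Ioc] at hi
        exact meas_zero hm hp (by omega)
    refine le_trans ?_ hge
    have e4 : 4 * M = M + 3 * M := by ring
    rw [hT, e4, prod_bound M (by omega)]
    push_cast
    have d1 : (0:ℝ) < ((M:ℝ) + 3 * M) * ((M:ℝ) + 3 * M - 1) := by
      apply mul_pos <;> linarith
    rw [div_le_div_iff₀ (by norm_num) d1]
    nlinarith
  -- lower bound for U
  have hUm : MeasurableSet U := by
    apply measurableSet_lt _ measurable_const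
    apply Finset.measurable_sum
    intro i _
    exact (hfm i).const_mul _
  have hUb : 6 / 25 ≤ μ.real U := by
    have hint : ∀ i ∈ S, Integrable (fun ω => (i:ℝ) * f E i ω) μ := by
      intro i _
      apply Integrable.const_mul
      exact (integrable_const (1:ℝ)).indicator (hm i)
    have hE : ∫ ω, ∑ i ∈ S, (i:ℝ) * f E i ω ∂μ ≤ M / Real.log 2 := by
      rw [integral_finsetSum S hint]
      have : ∀ i ∈ S, ∫ ω, (i:ℝ) * f E i ω ∂μ ≤ 1 / Real.log 2 := by
        intro i hi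
        rw [hS, Finset.mem_Ioc] at hi
        have hi1 : 1 ≤ i := by omega
        have hi0 : (0:ℝ) < i := by exact_mod_cast hi1
        rw [integral_const_mul]
        have : ∫ ω, f E i ω ∂μ = p i := by
          unfold f
          rw [integral_indicator_const (1:ℝ) (hm i), real_E hp hi1]; simp
        rw [this]
        have h1 : p i ≤ 1 / (i * Real.log 2) := min_le_right _ _
        have h2 : (i:ℝ) * (1 / (i * Real.log 2)) = 1 / Real.log 2 := by field_simp
        rw [← h2]
        exact mul_le_mul_of_nonneg_left h1 hi0.le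
      refine (Finset.sum_le_sum this).trans ?_
      rw [Finset.sum_const, nsmul_eq_mul]
      have hcard : (S.card : ℝ) ≤ M := by
        rw [hS, Nat.card_Ioc]
        exact_mod_cast Nat.sub_le _ _
      have hl := log2_bound
      rw [mul_one_div]
      gcongr
    have hmarkov := mul_meas_ge_le_integral_of_nonneg (μ := μ)
      (f := fun ω => ∑ i ∈ S, (i:ℝ) * f E i ω)
      (Filter.Eventually.of_forall (fun ω => Finset.sum_nonneg (fun i _ =>
        mul_nonneg (Nat.cast_nonneg i) (f_nonneg i ω))))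
      (integrable_finsetSum S hint) (1.9 * M)
    have hcompl : Uᶜ = {x | 1.9 * (M:ℝ) ≤ ∑ i ∈ S, (i:ℝ) * f E i x} := by
      ext ω; simp [hU, not_lt]
    have h1 : μ.real Uᶜ = 1 - μ.real U := probReal_compl_eq_one_sub hUm
    have h2 : 1.9 * (M:ℝ) * μ.real Uᶜ ≤ M / Real.log 2 := by
      rw [hcompl]; exact hmarkov.trans hE
    have hl := log2_bound
    have h3 : (M:ℝ) / Real.log 2 ≤ M / 0.693 := by gcongr
    have h4 : 1.9 * μ.real Uᶜ ≤ 1 / 0.693 := by
      have hM0 : (0:ℝ) < M := by linarith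
      have : (M:ℝ) * (1.9 * μ.real Uᶜ) ≤ M * (1 / 0.693) := by
        calc (M:ℝ) * (1.9 * μ.real Uᶜ) = 1.9 * (M:ℝ) * μ.real Uᶜ := by ring
          _ ≤ M / 0.693 := h2.trans h3
          _ = M * (1 / 0.693) := by ring
      exact le_of_mul_le_mul_left this hM0
    have h5 : (1:ℝ) / 0.693 ≤ 1.444 := by norm_num
    rw [h1] at h4
    linarith
  have hfinal : μ.real (Ev E k) = μ.real U * μ.real V := by
    rw [hEv, Measure.real, hprod, ENNReal.toReal_mul]; rfl
  rw [hfinal]
  have hV0 : 0 ≤ μ.real V := measureReal_nonneg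
  nlinarith

lemma ae_frequently (hm : ∀ i, MeasurableSet (E i)) (hind : iIndepSet E μ)
    (hp : ∀ i, 1 ≤ i → μ (E i) = ENNReal.ofReal (p i)) :
    ∀ᵐ ω ∂μ, ∃ᶠ k in atTop, ω ∈ Ev E k := by
  have hf : iIndepFun (f E) μ := hind.iIndepFun_indicator
  have hfm := f_meas hm
  have hEm : ∀ k, MeasurableSet (Ev E k) := by
    intro k
    have : Measurable (fun ω => (fun i : B k => f E i ω)) :=
      measurable_pi_lambda _ (fun i => hfm i)
    exact this (G_meas k)
  have hI : iIndepSet (Ev E) μ := Q297.Block.iIndepSet_blocks hf hfm B B_disj G G_meas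
  have hsum : ∑' k, μ (Ev E k) = ⊤ := by
    have h1 : ∀ k, ENNReal.ofReal (1 / 200) ≤ μ (Ev E k) := by
      intro k
      have := Ev_lower hm hind hp k
      rw [← ofReal_measureReal]
      exact ENNReal.ofReal_le_ofReal this
    have h2 : ∑' _ : ℕ, ENNReal.ofReal (1 / 200) = ⊤ := by
      apply ENNReal.tsum_const_eq_top_of_ne_zero
      simp
    exact top_le_iff.1 (h2 ▸ ENNReal.tsum_le_tsum h1)
  have := measure_limsup_eq_one hEm hI hsum
  have hms : MeasurableSet (limsup (Ev E) atTop) := MeasurableSet.measurableSet_limsup hEm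
  have hae : ∀ᵐ ω ∂μ, ω ∈ limsup (Ev E) atTop := by
    rw [ae_iff]
    have : {a | ¬a ∈ limsup (Ev E) atTop} = (limsup (Ev E) atTop)ᶜ := rfl
    rw [this, prob_compl_eq_zero_iff hms]
    assumption
  filter_upwards [hae] with ω hω
  rwa [mem_limsup_iff_frequently_mem] at hω

end prob

/-- the deterministic consequence of the good event -/
lemma good_event_cnt {Ω : Type*} [MeasurableSpace Ω] {E : ℕ → Set Ω} {k : ℕ} {ω : Ω} (h : ω ∈ Ev E k) :
    cnt {i | 1 ≤ i ∧ ω ∈ E i} (4 * N (k + 1)) ≤ 2 * cnt {i | 1 ≤ i ∧ ω ∈ E i} (N (k + 1)) + 1 := by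
  classical
  rw [mem_Ev_iff] at h
  obtain ⟨h1, h2⟩ := h
  set M := N (k + 1) with hM
  have hN : 4 * N k ≤ M := by have := N_succ_ge k; omega
  have hfi : ∀ i, f E i ω = if ω ∈ E i then 1 else 0 := by
    intro i; simp [f, Set.indicator_apply]
  apply cnt_le _ (fun a ha => ha.1) M ((Finset.Icc 1 M).filter (fun i => ω ∈ E i))
  · intro a
    simp only [Finset.mem_filter, Finset.mem_Icc, Set.mem_ofPred_eq]
    tauto
  · have hsplit : (Finset.Icc 1 M).filter (fun i => ω ∈ E i) =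
        (Finset.Icc 1 (4 * N k)).filter (fun i => ω ∈ E i) ∪
        (Finset.Ioc (4 * N k) M).filter (fun i => ω ∈ E i) := by
      ext x
      simp only [Finset.mem_union, Finset.mem_filter, Finset.mem_Icc, Finset.mem_Ioc]
      constructor
      · rintro ⟨⟨a1, a2⟩, a3⟩
        by_cases hx : x ≤ 4 * N k
        · left; exact ⟨⟨a1, hx⟩, a3⟩
        · right; exact ⟨⟨by omega, a2⟩, a3⟩
      · rintro (⟨⟨a1, a2⟩, a3⟩ | ⟨⟨a1, a2⟩, a3⟩)
        · exact ⟨⟨a1, by omega⟩, a3⟩
        · exact ⟨⟨by omega, a2⟩, a3⟩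
    have hA : ∑ a ∈ (Finset.Icc 1 (4 * N k)).filter (fun i => ω ∈ E i), a ≤ 16 * (N k) ^ 2 := by
      calc ∑ a ∈ (Finset.Icc 1 (4 * N k)).filter (fun i => ω ∈ E i), a
          ≤ ∑ a ∈ Finset.Icc 1 (4 * N k), a :=
            Finset.sum_le_sum_of_subset (Finset.filter_subset _ _)
        _ ≤ ∑ a ∈ Finset.Icc 1 (4 * N k), 4 * N k := by
            apply Finset.sum_le_sum
            intro a ha
            exact (Finset.mem_Icc.1 ha).2
        _ = 16 * (N k) ^ 2 := by simp; ring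
    have hBR : ((∑ a ∈ (Finset.Ioc (4 * N k) M).filter (fun i => ω ∈ E i), a : ℕ) : ℝ) <
        1.9 * M := by
      have : ((∑ a ∈ (Finset.Ioc (4 * N k) M).filter (fun i => ω ∈ E i), a : ℕ) : ℝ) =
          ∑ i ∈ Finset.Ioc (4 * N k) M, (i:ℝ) * f E i ω := by
        rw [Finset.sum_filter]
        push_cast
        apply Finset.sum_congr rfl
        intro i _
        rw [hfi]; split_ifs <;> simp
      rw [this]; exact h1
    have hunion : ∑ a ∈ (Finset.Icc 1 M).filter (fun i => ω ∈ E i), a ≤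
        ∑ a ∈ (Finset.Icc 1 (4 * N k)).filter (fun i => ω ∈ E i), a +
        ∑ a ∈ (Finset.Ioc (4 * N k) M).filter (fun i => ω ∈ E i), a := by
      rw [hsplit, Finset.sum_union]
      rw [Finset.disjoint_left]
      intro x hx hy
      simp only [Finset.mem_filter, Finset.mem_Icc, Finset.mem_Ioc] at hx hy
      omega
    have hMeq : M = 160 * (N k) ^ 2 := rfl
    have : ((∑ a ∈ (Finset.Icc 1 M).filter (fun i => ω ∈ E i), a : ℕ) : ℝ) < ((2 * M : ℕ) : ℝ) := by
      have c1 : ((∑ a ∈ (Finset.Icc 1 M).filter (fun i => ω ∈ E i), a : ℕ) : ℝ) ≤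
        ((∑ a ∈ (Finset.Icc 1 (4 * N k)).filter (fun i => ω ∈ E i), a +
        ∑ a ∈ (Finset.Ioc (4 * N k) M).filter (fun i => ω ∈ E i), a : ℕ) : ℝ) := by
          exact_mod_cast hunion
      have c2 : ((∑ a ∈ (Finset.Icc 1 (4 * N k)).filter (fun i => ω ∈ E i), a : ℕ) : ℝ) ≤
          16 * (N k : ℝ) ^ 2 := by exact_mod_cast hA
      have c3 : (M:ℝ) = 160 * (N k : ℝ) ^ 2 := by rw [hMeq]; push_cast; ring
      rw [Nat.cast_add] at c1
      push_cast at c1 c2 hBR ⊢
      linarith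
    exact_mod_cast this
  · rintro a ⟨ha1, haE⟩ ⟨ha2, ha3⟩
    have := h2 a (Finset.mem_Ioc.2 ⟨ha2, ha3⟩)
    rw [hfi, if_pos haE] at this
    exact one_ne_zero this

/-- deterministic non-convergence -/
lemma not_tendsto {c : ℕ → ℕ} (h : ∃ᶠ k in atTop, c (4 * N (k + 1)) ≤ 2 * c (N (k + 1)) + 1)
    {C : ℝ} (hC : 0 < C) :
    ¬ Tendsto (fun n : ℕ => √(Real.log n) * ((c n : ℝ) / n)) atTop (𝓝 C) := by
  intro hT
  have hN1 : Tendsto (fun k => N (k + 1)) atTop atTop := N_tendsto.comp (tendsto_add_atTop_nat 1)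
  have hN4 : Tendsto (fun k => 4 * N (k + 1)) atTop atTop :=
    tendsto_atTop_mono (fun k => (by omega : N (k + 1) ≤ 4 * N (k + 1))) hN1
  have hL := hT.comp hN4
  have hR := hT.comp hN1
  have hz : Tendsto (fun k => 1 / √((4 * N (k + 1) : ℕ) : ℝ)) atTop (𝓝 0) := by
    have h1 : Tendsto (fun k => √((4 * N (k + 1) : ℕ) : ℝ)) atTop atTop :=
      Real.tendsto_sqrt_atTop.comp (tendsto_natCast_atTop_atTop.comp hN4)
    have h2 := h1.inv_tendsto_atTop
    refine h2.congr (fun k => ?_)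
    simp only [Pi.inv_apply, one_div]
  have hR2 := (hR.const_mul (3/4 : ℝ)).add hz
  have hfreq : ∃ᶠ k in atTop, √(Real.log ((4 * N (k + 1) : ℕ) : ℝ)) *
      ((c (4 * N (k + 1)) : ℝ) / ((4 * N (k + 1) : ℕ) : ℝ)) ≤
      3/4 * (√(Real.log (N (k + 1) : ℝ)) * ((c (N (k + 1)) : ℝ) / (N (k + 1) : ℝ))) +
        1 / √((4 * N (k + 1) : ℕ) : ℝ) := by
    apply h.mono
    intro k hk
    set M := N (k + 1) with hM
    have hM160 : 160 ≤ M := by have := N_succ_ge k; have := N_pos k; omega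
    have hMR : (160:ℝ) ≤ M := by exact_mod_cast hM160
    have hM0 : (0:ℝ) < M := by linarith
    have hlog : √(Real.log ((4 * M : ℕ) : ℝ)) ≤ 3/2 * √(Real.log (M:ℝ)) := by
      have h1 : Real.log ((4 * M : ℕ) : ℝ) ≤ 2 * Real.log M := by
        have : Real.log ((M:ℝ)^2) = 2 * Real.log M := by rw [Real.log_pow]; norm_num
        rw [← this]
        apply Real.log_le_log
        · push_cast; positivity
        · push_cast; nlinarith
      have h2 : 0 ≤ Real.log (M:ℝ) := Real.log_nonneg (by linarith)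
      rw [Real.sqrt_le_iff]
      refine ⟨by positivity, ?_⟩
      rw [mul_pow, Real.sq_sqrt h2]
      linarith
    have hlog2 : √(Real.log ((4 * M : ℕ) : ℝ)) ≤ √((4 * M : ℕ) : ℝ) := by
      apply Real.sqrt_le_sqrt
      have := Real.log_le_sub_one_of_pos (x := ((4 * M : ℕ) : ℝ)) (by push_cast; positivity)
      linarith
    have hc : (c (4 * M) : ℝ) ≤ 2 * (c M : ℝ) + 1 := by exact_mod_cast hk
    have hc0 : (0:ℝ) ≤ c M := Nat.cast_nonneg _
    have hq : (c (4 * M) : ℝ) / ((4 * M : ℕ) : ℝ) ≤ (c M : ℝ) / M / 2 + 1 / ((4 * M : ℕ) : ℝ) := by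
      have : (c M : ℝ) / M / 2 + 1 / ((4 * M : ℕ) : ℝ) = (2 * (c M : ℝ) + 1) / ((4 * M : ℕ) : ℝ) := by
        push_cast; field_simp; ring
      rw [this]
      gcongr
    have hs0 : 0 ≤ √(Real.log ((4 * M : ℕ) : ℝ)) := Real.sqrt_nonneg _
    calc √(Real.log ((4 * M : ℕ) : ℝ)) * ((c (4 * M) : ℝ) / ((4 * M : ℕ) : ℝ))
        ≤ √(Real.log ((4 * M : ℕ) : ℝ)) * ((c M : ℝ) / M / 2 + 1 / ((4 * M : ℕ) : ℝ)) :=
          mul_le_mul_of_nonneg_left hq hs0
      _ = √(Real.log ((4 * M : ℕ) : ℝ)) * ((c M : ℝ) / M / 2) +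
          √(Real.log ((4 * M : ℕ) : ℝ)) * (1 / ((4 * M : ℕ) : ℝ)) := by ring
      _ ≤ (3/2 * √(Real.log (M:ℝ))) * ((c M : ℝ) / M / 2) +
          √((4 * M : ℕ) : ℝ) * (1 / ((4 * M : ℕ) : ℝ)) := by
          gcongr
      _ = 3/4 * (√(Real.log (M : ℝ)) * ((c M : ℝ) / (M : ℝ))) +
        1 / √((4 * M : ℕ) : ℝ) := by
          have hpos : 0 < √((4 * M : ℕ) : ℝ) := Real.sqrt_pos.2 (by push_cast; positivity)
          have e : √((4 * M : ℕ) : ℝ) * (1 / ((4 * M : ℕ) : ℝ)) = 1 / √((4 * M : ℕ) : ℝ) := by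
            have h5 : √((4 * M : ℕ) : ℝ) * √((4 * M : ℕ) : ℝ) = ((4 * M : ℕ) : ℝ) :=
              Real.mul_self_sqrt (by positivity)
            rw [mul_one_div, div_eq_div_iff (by push_cast; positivity) hpos.ne', h5, one_mul]
          rw [e]; ring
  have := le_of_tendsto_of_tendsto_of_frequently hL hR2 hfreq
  linarith

end Q297.Lac
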