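import Mathlib

/-!
# Weighted shifts with operator weights: the basic inequality of quadratic hyponormality
-/

set_option autoImplicit false

namespace Pool.Agent.Q297.Lpr

open scoped InnerProductSpace ComplexConjugate

variable {F : Type*} [NormedAddCommGroup F] [InnerProductSpace ℂ F] [CompleteSpace F]

/-- the space of square summable sequences in `F` -/
abbrev Seq (F : Type*) [NormedAddCommGroup F] [InnerProductSpace ℂ F] := lp (fun _ : ℕ => F) 2

/-- hyponormality -/
def Hypo {H : Type*} [NormedAddCommGroup H] [InnerProductSpace ℂ H] [CompleteSpace H]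
    (T : H →L[ℂ] H) : Prop :=
  (ContinuousLinearMap.adjoint T ∘L T - T ∘L ContinuousLinearMap.adjoint T).IsPositive

lemma Hypo.norm_le {H : Type*} [NormedAddCommGroup H] [InnerProductSpace ℂ H] [CompleteSpace H]
    {T : H →L[ℂ] H} (h : Hypo T) (f : H) : ‖ContinuousLinearMap.adjoint T f‖ ^ 2 ≤ ‖T f‖ ^ 2 := by
  have h1 := h.re_inner_nonneg_left f
  have h2 : (ContinuousLinearMap.adjoint T ∘L T - T ∘L ContinuousLinearMap.adjoint T) f =
      ContinuousLinearMap.adjoint T (T f) - T (ContinuousLinearMap.adjoint T f) := rfl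
  have e1 : ⟪ContinuousLinearMap.adjoint T (T f), f⟫_ℂ = ⟪T f, T f⟫_ℂ :=
    ContinuousLinearMap.adjoint_inner_left T f (T f)
  have e2 : ⟪T (ContinuousLinearMap.adjoint T f), f⟫_ℂ =
      ⟪ContinuousLinearMap.adjoint T f, ContinuousLinearMap.adjoint T f⟫_ℂ :=
    (ContinuousLinearMap.adjoint_inner_right T _ f).symm
  rw [h2, inner_sub_left, e1, e2, map_sub, inner_self_eq_norm_sq, inner_self_eq_norm_sq] at h1
  linarith

/-- `W` is the weighted shift with the operator weights `B` -/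
def IsShift (B : ℕ → F →ₗ[ℂ] F) (W : Seq F →L[ℂ] Seq F) : Prop :=
  ∀ f : Seq F, (W f) 0 = 0 ∧ ∀ n, (W f) (n + 1) = B n (f n)

omit [CompleteSpace F] in
lemma norm_sq_tsum (f : Seq F) : ‖f‖ ^ 2 = ∑' n, ‖f n‖ ^ 2 := by
  have h := lp.norm_rpow_eq_tsum (p := 2) (by norm_num) f
  simpa using h

omit [CompleteSpace F] in
lemma summable_sq (f : Seq F) : Summable fun n => ‖f n‖ ^ 2 := by
  have h := (lp.memℓp f).summable (by norm_num)
  simpa using h

lemma adj_apply {B : ℕ → F →ₗ[ℂ] F} (hB : ∀ n, (B n).IsSymmetric) {W : Seq F →L[ℂ] Seq F}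
    (hW : IsShift B W) (f : Seq F) (n : ℕ) :
    (ContinuousLinearMap.adjoint W f) n = B n (f (n + 1)) := by
  refine ext_inner_left ℂ fun (v : F) => ?_
  have h1 : W (lp.single 2 n v) = lp.single 2 (n + 1) (B n v) := by
    ext m
    cases m with
    | zero => rw [(hW _).1]; simp [lp.coeFn_single]
    | succ m =>
      rw [(hW _).2 m]
      simp only [lp.coeFn_single]
      by_cases h : m = n
      · subst h; simp
      · have h' : m + 1 ≠ n + 1 := by omega
        rw [Pi.single_eq_of_ne h, Pi.single_eq_of_ne h', map_zero]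
  have e1 : ⟪v, (ContinuousLinearMap.adjoint W f) n⟫_ℂ =
      ⟪(lp.single 2 n v : Seq F), ContinuousLinearMap.adjoint W f⟫_ℂ :=
    (lp.inner_single_left n v (ContinuousLinearMap.adjoint W f)).symm
  have e2 : ⟪(lp.single 2 n v : Seq F), ContinuousLinearMap.adjoint W f⟫_ℂ =
      ⟪W (lp.single 2 n v), f⟫_ℂ := ContinuousLinearMap.adjoint_inner_right W _ f
  have e3 : ⟪(lp.single 2 (n + 1) (B n v) : Seq F), f⟫_ℂ = ⟪B n v, f (n + 1)⟫_ℂ :=
    lp.inner_single_left (n + 1) (B n v) f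
  exact e1.trans (e2.trans ((congrArg (fun z => ⟪z, f⟫_ℂ) h1).trans (e3.trans (hB n v _))))

/-- the finitely supported sequence with the values `g n`, `n < N` -/
noncomputable def fs (N : ℕ) (g : ℕ → F) : Seq F := ∑ i ∈ Finset.range N, lp.single 2 i (g i)

omit [CompleteSpace F] in
lemma fs_apply (N : ℕ) (g : ℕ → F) (n : ℕ) : (fs N g) n = if n < N then g n else 0 := by
  unfold fs
  rw [lp.coeFn_sum, Finset.sum_apply]
  simp only [lp.coeFn_single]
  by_cases h : n < N
  · rw [if_pos h, Finset.sum_eq_single n]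
    · simp
    · intro b _ hb
      exact Pi.single_eq_of_ne (Ne.symm hb) _
    · intro h'
      exact absurd (Finset.mem_range.2 h) h'
  · rw [if_neg h]
    refine Finset.sum_eq_zero fun i hi => ?_
    have : i < N := Finset.mem_range.1 hi
    exact Pi.single_eq_of_ne (by omega) _

/-- **Basic inequality.** -/
theorem star_ineq {B : ℕ → F →ₗ[ℂ] F} (hB : ∀ n, (B n).IsSymmetric) {W : Seq F →L[ℂ] Seq F}
    (hW : IsShift B W) (lam : ℝ) (hy : Hypo (W + (lam : ℂ) • (W ∘L W))) (g : ℕ → F) (N : ℕ)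
    (hg : ∀ n, N ≤ n → g n = 0) (S : Finset ℕ) :
    ∑ n ∈ S, ‖B n (g (n + 1) + (lam : ℂ) • B (n + 1) (g (n + 2)))‖ ^ 2 ≤
      ‖B 0 (g 0)‖ ^ 2 + ∑ n ∈ Finset.range N, ‖B (n + 1) (g (n + 1) + (lam : ℂ) • B n (g n))‖ ^ 2 := by
  have hf : ∀ n, (fs N g) n = g n := by
    intro n
    rw [fs_apply]
    split_ifs with h
    · rfl
    · exact (hg n (by omega)).symm
  set f := fs N g with hfdef
  have h := hy.norm_le f
  have hadj : ∀ n, (ContinuousLinearMap.adjoint (W + (lam : ℂ) • (W ∘L W)) f) n =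
      B n (g (n + 1) + (lam : ℂ) • B (n + 1) (g (n + 2))) := by
    intro n
    rw [map_add, map_smulₛₗ, ContinuousLinearMap.adjoint_comp]
    simp only [Complex.conj_ofReal, add_apply,
      smul_apply, ContinuousLinearMap.comp_apply, lp.coeFn_add,
      lp.coeFn_smul, Pi.add_apply, Pi.smul_apply]
    rw [adj_apply hB hW, adj_apply hB hW, adj_apply hB hW, hf, hf, map_add, map_smul]
  have hT0 : ((W + (lam : ℂ) • (W ∘L W)) f) 0 = 0 := by
    simp only [add_apply,
      smul_apply, ContinuousLinearMap.comp_apply, lp.coeFn_add,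
      lp.coeFn_smul, Pi.add_apply, Pi.smul_apply]
    rw [(hW _).1, (hW _).1, smul_zero, add_zero]
  have hT1 : ((W + (lam : ℂ) • (W ∘L W)) f) 1 = B 0 (g 0) := by
    simp only [add_apply,
      smul_apply, ContinuousLinearMap.comp_apply, lp.coeFn_add,
      lp.coeFn_smul, Pi.add_apply, Pi.smul_apply]
    rw [(hW _).2 0, (hW _).2 0, (hW _).1, hf, map_zero, smul_zero, add_zero]
  have hT2 : ∀ n, ((W + (lam : ℂ) • (W ∘L W)) f) (n + 2) =
      B (n + 1) (g (n + 1) + (lam : ℂ) • B n (g n)) := by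
    intro n
    simp only [add_apply,
      smul_apply, ContinuousLinearMap.comp_apply, lp.coeFn_add,
      lp.coeFn_smul, Pi.add_apply, Pi.smul_apply]
    rw [(hW f).2 (n + 1), (hW (W f)).2 (n + 1), (hW f).2 n, hf, hf, map_add, map_smul]
  rw [norm_sq_tsum, norm_sq_tsum] at h
  have hL : ∑ n ∈ S, ‖B n (g (n + 1) + (lam : ℂ) • B (n + 1) (g (n + 2)))‖ ^ 2 ≤
      ∑' n, ‖(ContinuousLinearMap.adjoint (W + (lam : ℂ) • (W ∘L W)) f) n‖ ^ 2 := by
    have h1 := (summable_sq (ContinuousLinearMap.adjoint (W + (lam : ℂ) • (W ∘L W)) f)).sum_le_tsum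
      S (fun n _ => by positivity)
    refine le_trans (le_of_eq ?_) h1
    refine Finset.sum_congr rfl fun n _ => ?_
    rw [hadj]
  have hR : ∑' n, ‖((W + (lam : ℂ) • (W ∘L W)) f) n‖ ^ 2 =
      ‖B 0 (g 0)‖ ^ 2 + ∑ n ∈ Finset.range N,
        ‖B (n + 1) (g (n + 1) + (lam : ℂ) • B n (g n))‖ ^ 2 := by
    rw [tsum_eq_sum (s := Finset.range (N + 2))]
    · rw [Finset.sum_range_succ', Finset.sum_range_succ']
      simp only [zero_add]
      rw [hT0, hT1]
      simp only [norm_zero, ne_eq, OfNat.ofNat_ne_zero, not_false_eq_true, zero_pow, add_zero]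
      rw [add_comm]
      congr 1
      refine Finset.sum_congr rfl fun n _ => ?_
      rw [← hT2 n]
    · intro n hn
      have hn' : N + 2 ≤ n := by
        by_contra hc
        exact hn (Finset.mem_range.2 (by omega))
      obtain ⟨m, rfl⟩ : ∃ m, n = m + 2 := ⟨n - 2, by omega⟩
      rw [hT2, hg (m + 1) (by omega), hg m (by omega)]
      simp
  linarith

end Pool.Agent.Q297.Lpr
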