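import Pool.Agent.Q297.Lpr1

/-!
# Local propagation for an eigenvector
-/

set_option autoImplicit false

namespace Pool.Agent.Q297.Lpr

open scoped InnerProductSpace ComplexConjugate

variable {F : Type*} [NormedAddCommGroup F] [InnerProductSpace ℂ F] [CompleteSpace F]

/-- strictly positive symmetric operators -/
def SPos (T : F →ₗ[ℂ] F) : Prop := T.IsSymmetric ∧ ∀ x, x ≠ 0 → 0 < RCLike.re ⟪T x, x⟫_ℂ

omit [CompleteSpace F] in
lemma nsm (r : ℝ) (v : F) : ‖(r : ℂ) • v‖ ^ 2 = r ^ 2 * ‖v‖ ^ 2 := by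
  rw [norm_smul, Complex.norm_real, mul_pow, Real.norm_eq_abs, sq_abs]

omit [CompleteSpace F] in
lemma SPos.inj {T : F →ₗ[ℂ] F} (h : SPos T) {v : F} (hv : T v = 0) : v = 0 := by
  by_contra hc
  have := h.2 v hc
  rw [hv, inner_zero_left, map_zero] at this
  exact lt_irrefl _ this

omit [CompleteSpace F] in
lemma SPos.sq_eig {T : F →ₗ[ℂ] F} (h : SPos T) {c : ℝ} (hc : 0 < c) {x : F}
    (hx : T (T x) = ((c ^ 2 : ℝ) : ℂ) • x) : T x = (c : ℂ) • x := by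
  have hy : T (T x - (c : ℂ) • x) = -((c : ℂ) • (T x - (c : ℂ) • x)) := by
    rw [map_sub, hx, map_smul, smul_sub, smul_smul]
    push_cast
    rw [pow_two]
    abel
  by_contra hne
  have hne' : T x - (c : ℂ) • x ≠ 0 := fun h0 => hne (sub_eq_zero.1 h0)
  have h1 := h.2 _ hne'
  rw [hy, inner_neg_left, inner_smul_left, Complex.conj_ofReal, map_neg] at h1
  have h2 : RCLike.re ((c : ℂ) * ⟪T x - (c : ℂ) • x, T x - (c : ℂ) • x⟫_ℂ) =
      c * ‖T x - (c : ℂ) • x‖ ^ 2 := by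
    rw [← inner_self_eq_norm_sq (𝕜 := ℂ)]
    exact RCLike.re_ofReal_mul c _
  rw [h2] at h1
  have h3 : 0 ≤ c * ‖T x - (c : ℂ) • x‖ ^ 2 := by positivity
  linarith

/-- the test vector -/
noncomputable def tv (j : ℕ) (lam c : ℝ) (u x w : F) (n : ℕ) : F :=
  if n = j then ((lam ^ 2 : ℝ) : ℂ) • u
  else if n = j + 1 then ((-(lam * c) : ℝ) : ℂ) • x
  else if n = j + 2 then x
  else if n = j + 3 then ((-(lam * c) : ℝ) : ℂ) • x
  else if n = j + 4 then ((lam ^ 2 : ℝ) : ℂ) • w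
  else 0

omit [CompleteSpace F] in
lemma tv_0 {j : ℕ} (lam c : ℝ) (u x w : F) {n : ℕ} (h : n = j) :
    tv j lam c u x w n = ((lam ^ 2 : ℝ) : ℂ) • u := by
  unfold tv; rw [if_pos h]

omit [CompleteSpace F] in
lemma tv_1 {j : ℕ} (lam c : ℝ) (u x w : F) {n : ℕ} (h : n = j + 1) :
    tv j lam c u x w n = ((-(lam * c) : ℝ) : ℂ) • x := by
  unfold tv; rw [if_neg (by omega), if_pos h]

omit [CompleteSpace F] in
lemma tv_2 {j : ℕ} (lam c : ℝ) (u x w : F) {n : ℕ} (h : n = j + 2) :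
    tv j lam c u x w n = x := by
  unfold tv; rw [if_neg (by omega), if_neg (by omega), if_pos h]

omit [CompleteSpace F] in
lemma tv_3 {j : ℕ} (lam c : ℝ) (u x w : F) {n : ℕ} (h : n = j + 3) :
    tv j lam c u x w n = ((-(lam * c) : ℝ) : ℂ) • x := by
  unfold tv; rw [if_neg (by omega), if_neg (by omega), if_neg (by omega), if_pos h]

omit [CompleteSpace F] in
lemma tv_4 {j : ℕ} (lam c : ℝ) (u x w : F) {n : ℕ} (h : n = j + 4) :
    tv j lam c u x w n = ((lam ^ 2 : ℝ) : ℂ) • w := by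
  unfold tv; rw [if_neg (by omega), if_neg (by omega), if_neg (by omega), if_neg (by omega),
    if_pos h]

omit [CompleteSpace F] in
lemma tv_5 {j : ℕ} (lam c : ℝ) (u x w : F) {n : ℕ} (h : j + 5 ≤ n ∨ n < j) :
    tv j lam c u x w n = 0 := by
  unfold tv; rw [if_neg (by omega), if_neg (by omega), if_neg (by omega), if_neg (by omega),
    if_neg (by omega)]

omit [CompleteSpace F] in
lemma rsum {B : ℕ → F →ₗ[ℂ] F} {j : ℕ} {lam c : ℝ} {u x w : F}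
    (h1 : B (j + 1) x = (c : ℂ) • x) (h2 : B (j + 2) x = (c : ℂ) • x)
    (hu : B j u = ((c ^ 3 : ℝ) : ℂ) • x) (hw : w = (c : ℂ) • B (j + 3) x) :
    ‖B 0 (tv j lam c u x w 0)‖ ^ 2 + ∑ n ∈ Finset.range (j + 5),
      ‖B (n + 1) (tv j lam c u x w (n + 1) + (lam : ℂ) • B n (tv j lam c u x w n))‖ ^ 2 =
    lam ^ 4 * c ^ 6 * ‖x‖ ^ 2 + lam ^ 2 * c ^ 4 * (1 - lam ^ 2 * c ^ 2) ^ 2 * ‖x‖ ^ 2 +
      c ^ 2 * (1 - lam ^ 2 * c ^ 2) ^ 2 * ‖x‖ ^ 2 +
      lam ^ 6 * ‖B (j + 5) (B (j + 4) w)‖ ^ 2 := by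
  have hfirst : ‖B 0 (tv j lam c u x w 0)‖ ^ 2 + ∑ n ∈ Finset.range j,
      ‖B (n + 1) (tv j lam c u x w (n + 1) + (lam : ℂ) • B n (tv j lam c u x w n))‖ ^ 2 =
      lam ^ 4 * c ^ 6 * ‖x‖ ^ 2 := by
    have hval : ‖B j (((lam ^ 2 : ℝ) : ℂ) • u)‖ ^ 2 = lam ^ 4 * c ^ 6 * ‖x‖ ^ 2 := by
      rw [map_smul, hu, nsm, nsm]; ring
    cases j with
    | zero =>
      simp only [Finset.range_zero, Finset.sum_empty, add_zero]
      have : tv 0 lam c u x w 0 = ((lam ^ 2 : ℝ) : ℂ) • u := by simp [tv]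
      rw [this, hval]
    | succ i =>
      rw [Finset.sum_range_succ, Finset.sum_eq_zero, zero_add]
      · have e0 : tv (i + 1) lam c u x w 0 = 0 := by simp [tv]
        have e1 : tv (i + 1) lam c u x w (i + 1) = ((lam ^ 2 : ℝ) : ℂ) • u := by simp [tv]
        have e2 : tv (i + 1) lam c u x w i = 0 := by
          unfold tv
          rw [if_neg (by omega), if_neg (by omega), if_neg (by omega), if_neg (by omega),
            if_neg (by omega)]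
        rw [e0, e1, e2, map_zero, norm_zero, map_zero, smul_zero, add_zero, hval]
        ring
      · intro n hn
        have hn' : n < i := Finset.mem_range.1 hn
        have e1 : tv (i + 1) lam c u x w (n + 1) = 0 := by
          unfold tv
          rw [if_neg (by omega), if_neg (by omega), if_neg (by omega), if_neg (by omega),
            if_neg (by omega)]
        have e2 : tv (i + 1) lam c u x w n = 0 := by
          unfold tv
          rw [if_neg (by omega), if_neg (by omega), if_neg (by omega), if_neg (by omega),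
            if_neg (by omega)]
        rw [e1, e2]
        simp
  have t0 : tv j lam c u x w j = ((lam ^ 2 : ℝ) : ℂ) • u := tv_0 lam c u x w rfl
  have t1 : tv j lam c u x w (j + 1) = ((-(lam * c) : ℝ) : ℂ) • x := tv_1 lam c u x w rfl
  have t2 : tv j lam c u x w (j + 1 + 1) = x := tv_2 lam c u x w rfl
  have t3 : tv j lam c u x w (j + 2 + 1) = ((-(lam * c) : ℝ) : ℂ) • x := tv_3 lam c u x w rfl
  have t4 : tv j lam c u x w (j + 3 + 1) = ((lam ^ 2 : ℝ) : ℂ) • w := tv_4 lam c u x w rfl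
  have t5 : tv j lam c u x w (j + 4 + 1) = 0 := tv_5 lam c u x w (by omega)
  have t2' : tv j lam c u x w (j + 2) = x := tv_2 lam c u x w rfl
  have t3' : tv j lam c u x w (j + 3) = ((-(lam * c) : ℝ) : ℂ) • x := tv_3 lam c u x w rfl
  have t4' : tv j lam c u x w (j + 4) = ((lam ^ 2 : ℝ) : ℂ) • w := tv_4 lam c u x w rfl
  rw [Finset.sum_range_succ, Finset.sum_range_succ, Finset.sum_range_succ,
    Finset.sum_range_succ, Finset.sum_range_succ, ← add_assoc, ← add_assoc, ← add_assoc,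
    ← add_assoc, ← add_assoc, hfirst]
  have v0 : ‖B (j + 1) (tv j lam c u x w (j + 1) + (lam : ℂ) • B j (tv j lam c u x w j))‖ ^ 2 =
      lam ^ 2 * c ^ 4 * (1 - lam ^ 2 * c ^ 2) ^ 2 * ‖x‖ ^ 2 := by
    rw [t0, t1, map_smul, hu, smul_smul, smul_smul, ← add_smul, map_smul, h1, smul_smul]
    have : (((-(lam * c) : ℝ) : ℂ) + (lam : ℂ) * ((lam ^ 2 : ℝ) : ℂ) * ((c ^ 3 : ℝ) : ℂ)) *
        (c : ℂ) = (((-(lam * c) + lam * (lam ^ 2 * c ^ 3)) * c : ℝ) : ℂ) := by push_cast; ring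
    rw [this, nsm]
    ring
  have v1 : ‖B (j + 1 + 1) (tv j lam c u x w (j + 1 + 1) +
      (lam : ℂ) • B (j + 1) (tv j lam c u x w (j + 1)))‖ ^ 2 =
      c ^ 2 * (1 - lam ^ 2 * c ^ 2) ^ 2 * ‖x‖ ^ 2 := by
    rw [t1, t2, map_smul, h1, smul_smul, smul_smul, map_add, map_smul, h2, smul_smul, ← add_smul]
    have : (c : ℂ) + (lam : ℂ) * ((-(lam * c) : ℝ) : ℂ) * (c : ℂ) * (c : ℂ) =
        ((c + lam * (-(lam * c) * c) * c : ℝ) : ℂ) := by push_cast; ring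
    rw [this, nsm]
    ring
  have v2 : ‖B (j + 2 + 1) (tv j lam c u x w (j + 2 + 1) +
      (lam : ℂ) • B (j + 2) (tv j lam c u x w (j + 2)))‖ ^ 2 = 0 := by
    rw [t2', t3, h2, smul_smul, ← add_smul]
    have : ((-(lam * c) : ℝ) : ℂ) + (lam : ℂ) * (c : ℂ) = 0 := by push_cast; ring
    rw [this, zero_smul, map_zero, norm_zero]
    norm_num
  have v3 : ‖B (j + 3 + 1) (tv j lam c u x w (j + 3 + 1) +
      (lam : ℂ) • B (j + 3) (tv j lam c u x w (j + 3)))‖ ^ 2 = 0 := by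
    rw [t3', t4, hw, map_smul, smul_smul, smul_smul, ← add_smul]
    have : ((lam ^ 2 : ℝ) : ℂ) * (c : ℂ) + (lam : ℂ) * ((-(lam * c) : ℝ) : ℂ) = 0 := by
      push_cast; ring
    rw [this, zero_smul, map_zero, norm_zero]
    norm_num
  have v4 : ‖B (j + 4 + 1) (tv j lam c u x w (j + 4 + 1) +
      (lam : ℂ) • B (j + 4) (tv j lam c u x w (j + 4)))‖ ^ 2 =
      lam ^ 6 * ‖B (j + 5) (B (j + 4) w)‖ ^ 2 := by
    rw [t4', t5, zero_add]
    simp only [map_smul, smul_smul]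
    have : (lam : ℂ) * ((lam ^ 2 : ℝ) : ℂ) = ((lam ^ 3 : ℝ) : ℂ) := by push_cast; ring
    rw [this, nsm]
    ring
  rw [v0, v1, v2, v3, v4]
  ring

omit [CompleteSpace F] in
lemma lsum {B : ℕ → F →ₗ[ℂ] F} (hB : ∀ n, (B n).IsSymmetric) {j : ℕ} {lam c : ℝ} {u x w : F}
    (h1 : B (j + 1) x = (c : ℂ) • x) (h2 : B (j + 2) x = (c : ℂ) • x)
    (hw : w = (c : ℂ) • B (j + 3) x) :
    c ^ 2 * (1 - lam ^ 2 * c ^ 2) ^ 2 * ‖x‖ ^ 2 + lam ^ 2 * c ^ 4 * ‖x‖ ^ 2 -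
      2 * lam ^ 4 * c ^ 4 * ‖B (j + 3) x‖ ^ 2 +
      lam ^ 4 * c ^ 2 * ‖B (j + 3) (B (j + 3) x)‖ ^ 2 ≤
    ∑ n ∈ ({j + 1, j + 2, j + 3} : Finset ℕ),
      ‖B n (tv j lam c u x w (n + 1) + (lam : ℂ) • B (n + 1) (tv j lam c u x w (n + 2)))‖ ^ 2 := by
  have t2 : tv j lam c u x w (j + 1 + 1) = x := tv_2 lam c u x w rfl
  have t3 : tv j lam c u x w (j + 1 + 2) = ((-(lam * c) : ℝ) : ℂ) • x := tv_3 lam c u x w rfl
  have t3' : tv j lam c u x w (j + 2 + 1) = ((-(lam * c) : ℝ) : ℂ) • x := tv_3 lam c u x w rfl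
  have t4 : tv j lam c u x w (j + 2 + 2) = ((lam ^ 2 : ℝ) : ℂ) • w := tv_4 lam c u x w rfl
  have t4' : tv j lam c u x w (j + 3 + 1) = ((lam ^ 2 : ℝ) : ℂ) • w := tv_4 lam c u x w rfl
  have t5 : tv j lam c u x w (j + 3 + 2) = 0 := tv_5 lam c u x w (by omega)
  rw [Finset.sum_insert (by simp), Finset.sum_insert (by simp), Finset.sum_singleton]
  have v1 : ‖B (j + 1) (tv j lam c u x w (j + 1 + 1) +
      (lam : ℂ) • B (j + 1 + 1) (tv j lam c u x w (j + 1 + 2)))‖ ^ 2 =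
      c ^ 2 * (1 - lam ^ 2 * c ^ 2) ^ 2 * ‖x‖ ^ 2 := by
    have h2' : B (j + 1 + 1) x = (c : ℂ) • x := h2
    rw [t2, t3, map_smul, h2', smul_smul, smul_smul, map_add, map_smul, h1, smul_smul, ← add_smul]
    have : (c : ℂ) + (lam : ℂ) * ((-(lam * c) : ℝ) : ℂ) * (c : ℂ) * (c : ℂ) =
        ((c + lam * (-(lam * c) * c) * c : ℝ) : ℂ) := by push_cast; ring
    rw [this, nsm]
    ring
  have v3 : ‖B (j + 3) (tv j lam c u x w (j + 3 + 1) +
      (lam : ℂ) • B (j + 3 + 1) (tv j lam c u x w (j + 3 + 2)))‖ ^ 2 =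
      lam ^ 4 * c ^ 2 * ‖B (j + 3) (B (j + 3) x)‖ ^ 2 := by
    rw [t4', t5, map_zero, smul_zero, add_zero, hw, smul_smul, map_smul]
    have : ((lam ^ 2 : ℝ) : ℂ) * (c : ℂ) = ((lam ^ 2 * c : ℝ) : ℂ) := by push_cast; ring
    rw [this, nsm]
    ring
  have v2 : lam ^ 2 * c ^ 4 * ‖x‖ ^ 2 - 2 * lam ^ 4 * c ^ 4 * ‖B (j + 3) x‖ ^ 2 ≤
      ‖B (j + 2) (tv j lam c u x w (j + 2 + 1) +
      (lam : ℂ) • B (j + 2 + 1) (tv j lam c u x w (j + 2 + 2)))‖ ^ 2 := by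
    have e : B (j + 2) (tv j lam c u x w (j + 2 + 1) +
        (lam : ℂ) • B (j + 2 + 1) (tv j lam c u x w (j + 2 + 2))) =
        ((-(lam * c ^ 2) : ℝ) : ℂ) • x +
          ((lam ^ 3 * c : ℝ) : ℂ) • B (j + 2) (B (j + 3) (B (j + 3) x)) := by
      rw [t3', t4, hw, map_add, map_smul, h2, smul_smul, map_smul, map_smul, map_smul,
        map_smul, map_smul, smul_smul, smul_smul]
      congr 2
      · push_cast; ring
      · push_cast; ring
    rw [e, norm_add_sq (𝕜 := ℂ), nsm, nsm, inner_smul_left, inner_smul_right, Complex.conj_ofReal]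
    have i1 : ⟪x, B (j + 2) (B (j + 3) (B (j + 3) x))⟫_ℂ =
        (c : ℂ) * ⟪B (j + 3) x, B (j + 3) x⟫_ℂ := by
      rw [← hB (j + 2), h2, inner_smul_left, Complex.conj_ofReal, hB (j + 3)]
    have i2 : RCLike.re (((-(lam * c ^ 2) : ℝ) : ℂ) * (((lam ^ 3 * c : ℝ) : ℂ) *
        ⟪x, B (j + 2) (B (j + 3) (B (j + 3) x))⟫_ℂ)) =
        -(lam ^ 4 * c ^ 4 * ‖B (j + 3) x‖ ^ 2) := by
      rw [i1, ← inner_self_eq_norm_sq (𝕜 := ℂ)]
      have : ((-(lam * c ^ 2) : ℝ) : ℂ) * (((lam ^ 3 * c : ℝ) : ℂ) *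
          ((c : ℂ) * ⟪B (j + 3) x, B (j + 3) x⟫_ℂ)) =
          ((-(lam ^ 4 * c ^ 4) : ℝ) : ℂ) * ⟪B (j + 3) x, B (j + 3) x⟫_ℂ := by
        push_cast; ring
      rw [this]
      have h := RCLike.re_ofReal_mul (K := ℂ) (-(lam ^ 4 * c ^ 4)) ⟪B (j + 3) x, B (j + 3) x⟫_ℂ
      rw [show -(lam ^ 4 * c ^ 4 * RCLike.re ⟪B (j + 3) x, B (j + 3) x⟫_ℂ) =
        -(lam ^ 4 * c ^ 4) * RCLike.re ⟪B (j + 3) x, B (j + 3) x⟫_ℂ by ring, ← h]
      rfl
    rw [i2]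
    have : 0 ≤ (lam ^ 3 * c) ^ 2 * ‖B (j + 2) (B (j + 3) (B (j + 3) x))‖ ^ 2 := by positivity
    nlinarith [this]
  rw [v1, v3]
  linarith

omit [CompleteSpace F] in
lemma tv_support (j : ℕ) (lam c : ℝ) (u x w : F) : ∀ n, j + 5 ≤ n → tv j lam c u x w n = 0 := by
  intro n hn
  unfold tv
  rw [if_neg (by omega), if_neg (by omega), if_neg (by omega), if_neg (by omega),
    if_neg (by omega)]

omit [CompleteSpace F] in
lemma norm_diff {T : F →ₗ[ℂ] F} (hT : T.IsSymmetric) (c : ℝ) (x : F) :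
    ‖T (T x) - ((c ^ 2 : ℝ) : ℂ) • x‖ ^ 2 =
      ‖T (T x)‖ ^ 2 - 2 * c ^ 2 * ‖T x‖ ^ 2 + c ^ 4 * ‖x‖ ^ 2 := by
  rw [norm_sub_sq (𝕜 := ℂ), nsm, inner_smul_right, hT, ← inner_self_eq_norm_sq (𝕜 := ℂ) (T x)]
  have h := RCLike.re_ofReal_mul (K := ℂ) (c ^ 2) ⟪T x, T x⟫_ℂ
  have h' : RCLike.re (((c ^ 2 : ℝ) : ℂ) * ⟪T x, T x⟫_ℂ) = c ^ 2 * RCLike.re ⟪T x, T x⟫_ℂ := h
  rw [h']
  ring

end Pool.Agent.Q297.Lpr
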