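import Pool.Agent.Q297.Lpr2

/-!
# Local propagation for quadratically hyponormal matrix-valued weighted shifts
-/

set_option autoImplicit false

namespace Pool.Agent.Q297.Lpr

open scoped InnerProductSpace ComplexConjugate

variable {F : Type*} [NormedAddCommGroup F] [InnerProductSpace ℂ F] [CompleteSpace F]

lemma small {D K : ℝ} (hK : 0 ≤ K) (h : ∀ lam : ℝ, 0 < lam → D * lam ^ 4 ≤ lam ^ 6 * K) :
    D ≤ 0 := by
  by_contra hc
  push Not at hc
  set s := D / (2 * (K + 1)) with hs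
  have hs0 : 0 < s := by positivity
  have h1 := h (Real.sqrt s) (Real.sqrt_pos.2 hs0)
  have h2 : Real.sqrt s ^ 2 = s := Real.sq_sqrt hs0.le
  have h4 : Real.sqrt s ^ 4 = s ^ 2 := by
    rw [show Real.sqrt s ^ 4 = (Real.sqrt s ^ 2) ^ 2 by ring, h2]
  have h6 : Real.sqrt s ^ 6 = s ^ 3 := by
    rw [show Real.sqrt s ^ 6 = (Real.sqrt s ^ 2) ^ 3 by ring, h2]
  rw [h4, h6] at h1
  have h5 : D ≤ s * K := by
    have : s ^ 2 * D ≤ s ^ 2 * (s * K) := by nlinarith [h1]
    exact le_of_mul_le_mul_left this (by positivity)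
  have h7 : s * (2 * (K + 1)) = D := by
    rw [hs]; field_simp
  nlinarith

/-- the general hypothesis: quadratic hyponormality with real parameter -/
def Quad (W : Seq F →L[ℂ] Seq F) : Prop :=
  ∀ lam : ℝ, Hypo (W + (lam : ℂ) • (W ∘L W))

theorem key [FiniteDimensional ℂ F] {B : ℕ → F →ₗ[ℂ] F} (hB : ∀ n, SPos (B n))
    {W : Seq F →L[ℂ] Seq F} (hW : IsShift B W) (hy : Quad W) {j : ℕ} {c : ℝ} (hc : 0 < c) {x : F}
    (h1 : B (j + 1) x = (c : ℂ) • x) (h2 : B (j + 2) x = (c : ℂ) • x) :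
    B (j + 3) x = (c : ℂ) • x ∧ (1 ≤ j → B j x = (c : ℂ) • x) := by
  have hsym : ∀ n, (B n).IsSymmetric := fun n => (hB n).1
  have hinj : Function.Injective (B j) := by
    rw [← LinearMap.ker_eq_bot, LinearMap.ker_eq_bot']
    intro v hv
    exact (hB j).inj hv
  obtain ⟨u, hu⟩ := LinearMap.injective_iff_surjective.1 hinj (((c ^ 3 : ℝ) : ℂ) • x)
  obtain ⟨w, hw⟩ : ∃ w, w = (c : ℂ) • B (j + 3) x := ⟨_, rfl⟩
  set K := c ^ 8 * ‖x‖ ^ 2 + ‖B (j + 5) (B (j + 4) w)‖ ^ 2 with hK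
  have hK0 : 0 ≤ K := by positivity
  have hdiff := norm_diff (hsym (j + 3)) c x
  set D1 := ‖B (j + 3) (B (j + 3) x) - ((c ^ 2 : ℝ) : ℂ) • x‖ ^ 2 with hD1
  constructor
  · have h0 : c ^ 2 * D1 ≤ 0 := by
      refine small hK0 fun lam hlam => ?_
      have hs := star_ineq hsym hW lam (hy lam) (tv j lam c u x w) (j + 5)
        (tv_support j lam c u x w) {j + 1, j + 2, j + 3}
      rw [rsum h1 h2 hu hw] at hs
      have hl := (lsum hsym (u := u) (lam := lam) h1 h2 hw).trans hs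
      have e : c ^ 2 * D1 * lam ^ 4 = lam ^ 4 * c ^ 2 * ‖B (j + 3) (B (j + 3) x)‖ ^ 2 -
          2 * lam ^ 4 * c ^ 4 * ‖B (j + 3) x‖ ^ 2 + lam ^ 4 * c ^ 6 * ‖x‖ ^ 2 := by
        rw [hdiff]; ring
      rw [hK, e]
      linarith [hl]
    have h3 : D1 = 0 := by
      have : 0 ≤ D1 := by positivity
      nlinarith [sq_pos_of_pos hc]
    rw [hD1] at h3
    have h4 : B (j + 3) (B (j + 3) x) = ((c ^ 2 : ℝ) : ℂ) • x := by
      rw [← sub_eq_zero, ← norm_eq_zero]
      exact pow_eq_zero_iff (two_ne_zero) |>.1 h3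
    exact (hB (j + 3)).sq_eig hc h4
  · intro hj
    obtain ⟨i, rfl⟩ : ∃ i, j = i + 1 := ⟨j - 1, by omega⟩
    have h0 : ‖B i (u - (c : ℂ) • B (i + 1) x)‖ ^ 2 ≤ 0 := by
      refine small hK0 fun lam hlam => ?_
      have hs := star_ineq hsym hW lam (hy lam) (tv (i + 1) lam c u x w) (i + 1 + 5)
        (tv_support (i + 1) lam c u x w) (insert i {i + 1 + 1, i + 1 + 2, i + 1 + 3})
      rw [rsum h1 h2 hu hw, Finset.sum_insert (by simp; omega)] at hs
      have hl := (lsum hsym (u := u) (lam := lam) h1 h2 hw)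
      have e1 : ‖B i (tv (i + 1) lam c u x w (i + 1) +
          (lam : ℂ) • B (i + 1) (tv (i + 1) lam c u x w (i + 2)))‖ ^ 2 =
          lam ^ 4 * ‖B i (u - (c : ℂ) • B (i + 1) x)‖ ^ 2 := by
        rw [tv_0 lam c u x w rfl, tv_1 lam c u x w (n := i + 2) rfl]
        have : ((lam ^ 2 : ℝ) : ℂ) • u + (lam : ℂ) • B (i + 1) (((-(lam * c) : ℝ) : ℂ) • x) =
            ((lam ^ 2 : ℝ) : ℂ) • (u - (c : ℂ) • B (i + 1) x) := by
          rw [map_smul, smul_sub, smul_smul, smul_smul, sub_eq_add_neg, ← neg_smul]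
          congr 2
          push_cast
          ring
        rw [this, map_smul, nsm]
        ring
      rw [e1] at hs
      have hD1' : 0 ≤ D1 := by positivity
      have hD2 : 0 ≤ lam ^ 4 * c ^ 2 * D1 := by positivity
      have e : lam ^ 4 * c ^ 2 * D1 = lam ^ 4 * c ^ 2 * ‖B (i + 1 + 3) (B (i + 1 + 3) x)‖ ^ 2 -
          2 * lam ^ 4 * c ^ 4 * ‖B (i + 1 + 3) x‖ ^ 2 + lam ^ 4 * c ^ 6 * ‖x‖ ^ 2 := by
        rw [hdiff]; ring
      rw [e] at hD2
      rw [hK]
      linarith [hl, hs, hD2]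
    have h3 : B i (u - (c : ℂ) • B (i + 1) x) = 0 := by
      rw [← norm_eq_zero]
      exact pow_eq_zero_iff (two_ne_zero) |>.1 (le_antisymm h0 (by positivity))
    have h4 := (hB i).inj h3
    have h5 : u = (c : ℂ) • B (i + 1) x := sub_eq_zero.1 h4
    rw [h5, map_smul] at hu
    have hc' : (c : ℂ) ≠ 0 := by exact_mod_cast hc.ne'
    have h6 : B (i + 1) (B (i + 1) x) = ((c ^ 2 : ℝ) : ℂ) • x := by
      have : (c : ℂ) • B (i + 1) (B (i + 1) x) = (c : ℂ) • (((c ^ 2 : ℝ) : ℂ) • x) := by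
        rw [hu, smul_smul]
        congr 1
        push_cast
        ring
      exact (smul_right_injective F hc') this
    exact (hB (i + 1)).sq_eig hc h6

/-- propagation for an eigenvector -/
theorem prop_eig [FiniteDimensional ℂ F] {B : ℕ → F →ₗ[ℂ] F} (hB : ∀ n, SPos (B n))
    {W : Seq F →L[ℂ] Seq F} (hW : IsShift B W) (hy : Quad W) {j : ℕ} {c : ℝ} (hc : 0 < c) {x : F}
    (h1 : B (j + 1) x = (c : ℂ) • x) (h2 : B (j + 2) x = (c : ℂ) • x) (n : ℕ) (hn : 1 ≤ n) :
    B n x = (c : ℂ) • x := by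
  have hup : ∀ m, B (j + 1 + m) x = (c : ℂ) • x ∧ B (j + 2 + m) x = (c : ℂ) • x := by
    intro m
    induction m with
    | zero => exact ⟨h1, h2⟩
    | succ m ih =>
      refine ⟨?_, ?_⟩
      · have := ih.2
        rwa [show j + 1 + (m + 1) = j + 2 + m by omega]
      · have h3 := (key hB hW hy (j := j + m) hc (x := x)
          (by rw [show j + m + 1 = j + 1 + m by omega]; exact ih.1)
          (by rw [show j + m + 2 = j + 2 + m by omega]; exact ih.2)).1
        rwa [show j + 2 + (m + 1) = j + m + 3 by omega]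
  have hdown : ∀ m, m ≤ j → B (j - m + 1) x = (c : ℂ) • x ∧ B (j - m + 2) x = (c : ℂ) • x := by
    intro m
    induction m with
    | zero => intro _; exact ⟨h1, h2⟩
    | succ m ih =>
      intro hm
      obtain ⟨i1, i2⟩ := ih (by omega)
      refine ⟨?_, ?_⟩
      · have h3 := (key hB hW hy (j := j - m) hc (x := x) i1 i2).2 (by omega)
        rwa [show j - (m + 1) + 1 = j - m by omega]
      · rwa [show j - (m + 1) + 2 = j - m + 1 by omega]
  rcases le_total (j + 1) n with h | h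
  · have := (hup (n - (j + 1))).1
    rwa [show j + 1 + (n - (j + 1)) = n by omega] at this
  · have := (hdown (j + 1 - n) (by omega)).1
    rwa [show j - (j + 1 - n) + 1 = n by omega] at this

/-- the squares of the weights increase -/
lemma mono {B : ℕ → F →ₗ[ℂ] F} (hB : ∀ n, SPos (B n)) {W : Seq F →L[ℂ] Seq F} (hW : IsShift B W)
    (hy : Quad W) (n : ℕ) (v : F) : ‖B n v‖ ^ 2 ≤ ‖B (n + 1) v‖ ^ 2 := by
  have hs := star_ineq (fun n => (hB n).1) hW 0 (hy 0) (fun m => if m = n + 1 then v else 0)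
    (n + 2) (fun m hm => if_neg (by omega)) {n}
  simp only [Finset.sum_singleton, Complex.ofReal_zero, zero_smul, add_zero, if_true] at hs
  rw [if_neg (by omega), map_zero, norm_zero] at hs
  have h2 : ∑ m ∈ Finset.range (n + 2), ‖B (m + 1) (if m + 1 = n + 1 then v else 0)‖ ^ 2 =
      ‖B (n + 1) v‖ ^ 2 := by
    rw [Finset.sum_eq_single n]
    · simp
    · intro b _ hb
      rw [if_neg (by omega), map_zero, norm_zero]
      norm_num
    · intro h
      exact absurd (Finset.mem_range.2 (by omega)) h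
  rw [h2] at hs
  simpa using hs

/-- if two successive weights agree at `v`, they agree at the common value -/
lemma agree {B : ℕ → F →ₗ[ℂ] F} (hB : ∀ n, SPos (B n)) {W : Seq F →L[ℂ] Seq F} (hW : IsShift B W)
    (hy : Quad W) {n : ℕ} {v : F} (h : B n v = B (n + 1) v) :
    B n (B n v) = B (n + 1) (B n v) := by
  have hsym : ∀ n, (B n).IsSymmetric := fun n => (hB n).1
  -- for all y and real t: ‖B n (v + t y)‖² ≤ ‖B (n+1) (v + t y)‖²
  have hmain : ∀ y : F, RCLike.re ⟪B n (B n v) - B (n + 1) (B n v), y⟫_ℂ = 0 := by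
    intro y
    have h1 : ∀ t : ℝ, 0 ≤ -(2 * t * RCLike.re ⟪B n (B n v) - B (n + 1) (B n v), y⟫_ℂ) +
        t ^ 2 * (‖B (n + 1) y‖ ^ 2 - ‖B n y‖ ^ 2) := by
      intro t
      have hm := mono hB hW hy n (v + (t : ℂ) • y)
      rw [map_add, map_add, map_smul, map_smul, norm_add_sq (𝕜 := ℂ), norm_add_sq (𝕜 := ℂ), nsm,
        nsm, inner_smul_right, inner_smul_right, ← h] at hm
      have e1 : RCLike.re ((t : ℂ) * ⟪B n v, B n y⟫_ℂ) = t * RCLike.re ⟪B n (B n v), y⟫_ℂ := by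
        rw [← hsym n (B n v) y]
        exact RCLike.re_ofReal_mul (K := ℂ) t _
      have e2 : RCLike.re ((t : ℂ) * ⟪B n v, B (n + 1) y⟫_ℂ) =
          t * RCLike.re ⟪B (n + 1) (B n v), y⟫_ℂ := by
        rw [← hsym (n + 1) (B n v) y]
        exact RCLike.re_ofReal_mul (K := ℂ) t _
      rw [e1, e2] at hm
      rw [inner_sub_left, map_sub]
      linarith
    set a := RCLike.re ⟪B n (B n v) - B (n + 1) (B n v), y⟫_ℂ with ha
    set b := ‖B (n + 1) y‖ ^ 2 - ‖B n y‖ ^ 2 with hb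
    by_contra hne
    have hb1 : 0 < |b| + 1 := by positivity
    have h2 := h1 (a / (|b| + 1))
    have h3 : (a / (|b| + 1)) ^ 2 * b ≤ (a / (|b| + 1)) ^ 2 * |b| :=
      mul_le_mul_of_nonneg_left (le_abs_self b) (sq_nonneg _)
    have h4 : a / (|b| + 1) * (|b| + 1) = a := by field_simp
    have h5 : 0 < a ^ 2 := by positivity
    set s := a / (|b| + 1) with hs
    have h6 : a = s * (|b| + 1) := h4.symm
    rw [h6] at h2 h5
    have h7 : 0 < s ^ 2 := by
      by_contra hc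
      have : s = 0 := by
        have : s ^ 2 = 0 := le_antisymm (not_lt.1 hc) (sq_nonneg s)
        exact pow_eq_zero_iff (two_ne_zero) |>.1 this
      rw [this] at h5
      simp at h5
    nlinarith [abs_nonneg b]
  have h1 := hmain (B n (B n v) - B (n + 1) (B n v))
  rw [inner_self_eq_norm_sq] at h1
  have h2 : ‖B n (B n v) - B (n + 1) (B n v)‖ = 0 := pow_eq_zero_iff (two_ne_zero) |>.1 h1
  exact sub_eq_zero.1 (norm_eq_zero.1 h2)

end Pool.Agent.Q297.Lpr
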