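import Pool.Agent.Q297.Lpr3

/-!
# Local propagation for quadratically hyponormal matrix-valued weighted shifts: all vectors
-/

set_option autoImplicit false

namespace Pool.Agent.Q297.Lpr

open scoped InnerProductSpace ComplexConjugate

variable {F : Type*} [NormedAddCommGroup F] [InnerProductSpace ℂ F] [CompleteSpace F]

/-- **Local propagation.** -/
theorem propagation [FiniteDimensional ℂ F] {B : ℕ → F →ₗ[ℂ] F} (hB : ∀ n, SPos (B n))
    {W : Seq F →L[ℂ] Seq F} (hW : IsShift B W) (hy : Quad W) {k : ℕ} (hk : 1 ≤ k) {x : F}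
    (hx : B k x = B (k + 1) x) (n : ℕ) (hn : 1 ≤ n) : B n x = B 1 x := by
  obtain ⟨j, rfl⟩ : ∃ j, k = j + 1 := ⟨k - 1, by omega⟩
  set V : Submodule ℂ F := LinearMap.ker (B (j + 1) - B (j + 1 + 1)) with hV
  have hmem : ∀ v, v ∈ V ↔ B (j + 1) v = B (j + 1 + 1) v := by
    intro v
    rw [hV, LinearMap.mem_ker, LinearMap.sub_apply, sub_eq_zero]
  have hinv : ∀ v ∈ V, B (j + 1) v ∈ V := by
    intro v hv
    rw [hmem] at hv ⊢
    exact agree hB hW hy hv
  have hT : ((B (j + 1)).restrict hinv).IsSymmetric := (hB (j + 1)).1.restrict_invariant hinv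
  set b := hT.eigenvectorBasis rfl with hb
  have hbi : ∀ i, B n (b i : F) = B 1 (b i : F) := by
    intro i
    have h1 := hT.apply_eigenvectorBasis rfl i
    have h2 : B (j + 1) (b i : F) = ((hT.eigenvalues rfl i : ℝ) : ℂ) • (b i : F) := by
      have h3 := congrArg (fun v : V => (v : F)) h1
      exact h3
    have hne : (b i : F) ≠ 0 := by
      intro h0
      have h3 : b i = 0 := Subtype.ext h0
      have h4 := b.orthonormal.1 i
      rw [h3, norm_zero] at h4
      exact zero_ne_one h4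
    have hc : 0 < hT.eigenvalues rfl i := by
      have h3 := (hB (j + 1)).2 _ hne
      rw [h2, inner_smul_left, Complex.conj_ofReal] at h3
      have h4 : RCLike.re (((hT.eigenvalues rfl i : ℝ) : ℂ) * ⟪(b i : F), (b i : F)⟫_ℂ) =
          hT.eigenvalues rfl i * ‖(b i : F)‖ ^ 2 := by
        rw [← inner_self_eq_norm_sq (𝕜 := ℂ)]
        exact RCLike.re_ofReal_mul (K := ℂ) _ _
      rw [h4] at h3
      by_contra hc
      have : hT.eigenvalues rfl i * ‖(b i : F)‖ ^ 2 ≤ 0 :=
        mul_nonpos_of_nonpos_of_nonneg (not_lt.1 hc) (sq_nonneg _)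
      linarith
    have h5 : B (j + 2) (b i : F) = ((hT.eigenvalues rfl i : ℝ) : ℂ) • (b i : F) := by
      rw [← h2]
      exact ((hmem _).1 (b i).2).symm
    rw [prop_eig hB hW hy hc h2 h5 n hn, prop_eig hB hW hy hc h2 h5 1 le_rfl]
  have hxV : x ∈ V := (hmem x).2 hx
  have hsum : x = ∑ i, b.repr ⟨x, hxV⟩ i • (b i : F) := by
    have h1 := congrArg (fun v : V => (v : F)) (b.sum_repr ⟨x, hxV⟩)
    simp only [Submodule.coe_sum, Submodule.coe_smul] at h1
    exact h1.symm
  rw [hsum, map_sum, map_sum]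
  refine Finset.sum_congr rfl fun i _ => ?_
  rw [map_smul, map_smul, hbi i]

end Pool.Agent.Q297.Lpr
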