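import Pool.Agent.Q297.LsiPi

open MeasureTheory Filter Topology ProbabilityTheory

namespace Q297.Lsi

/-! ### The two-point inequality -/

lemma log_aux {t : ℝ} (h1 : t ≤ 1) : Real.log 2 - Real.log (1 + t ^ 2) ≤ 1 - t := by
  set k : ℝ → ℝ := fun t => 1 - t - Real.log 2 + Real.log (1 + t ^ 2) with hk
  have hd : ∀ t, HasDerivAt k (0 - 1 - 0 + (0 + 2 * t) / (1 + t ^ 2)) t := by
    intro t
    have hp : (1:ℝ) + t ^ 2 ≠ 0 := by positivity
    have h2 : HasDerivAt (fun t : ℝ => 1 + t ^ 2) (0 + 2 * t) t := by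
      have := (hasDerivAt_pow 2 t).const_add 1
      simpa using this
    exact (((hasDerivAt_const t (1:ℝ)).sub (hasDerivAt_id t)).sub (hasDerivAt_const t _)).add
      (h2.log hp)
  have hanti : Antitone k := by
    apply antitone_of_deriv_nonpos (fun t => (hd t).differentiableAt)
    intro t
    rw [(hd t).deriv]
    have hp : (0:ℝ) < 1 + t ^ 2 := by positivity
    have : (0 + 2 * t) / (1 + t ^ 2) ≤ 1 := by
      rw [div_le_one hp]
      nlinarith [sq_nonneg (t - 1)]
    linarith
  have := hanti h1
  simp only [hk] at this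
  norm_num at this
  linarith

/-- two-point entropy -/
noncomputable def ent2 (a b : ℝ) : ℝ :=
  (a ^ 2 * Real.log (a ^ 2) + b ^ 2 * Real.log (b ^ 2)) / 2 -
    ((a ^ 2 + b ^ 2) / 2) * Real.log ((a ^ 2 + b ^ 2) / 2)

lemma ent2_le_aux {a b : ℝ} (hb : 0 < b) (hab : b ≤ a) : ent2 a b ≤ (a - b) ^ 2 / 2 := by
  set H : ℝ → ℝ := fun x => (x - b) ^ 2 / 2 - ent2 x b with hH
  have hd : ∀ x, 0 < x → HasDerivAt H ((x - b) - x * (Real.log (x ^ 2) - Real.log ((x ^ 2 + b ^ 2) / 2))) x := by
    intro x hx
    have hx2 : x ^ 2 ≠ 0 := by positivity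
    have hm : (x ^ 2 + b ^ 2) / 2 ≠ 0 := by positivity
    have d1 : HasDerivAt (fun x : ℝ => x ^ 2) (2 * x) x := by
      simpa using hasDerivAt_pow 2 x
    have d2 : HasDerivAt (fun x : ℝ => (x ^ 2 + b ^ 2) / 2) (x) x := by
      have := (d1.add_const (b ^ 2)).div_const 2
      convert! this using 1
      ring
    have d3 : HasDerivAt (fun x : ℝ => (x - b) ^ 2 / 2) (x - b) x := by
      have := (((hasDerivAt_id x).sub_const b).pow 2).div_const 2
      convert! this using 1
      simp
    have d4 := d1.mul (d1.log hx2)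
    have d5 := d2.mul (d2.log hm)
    have d6 := ((d4.add_const (b ^ 2 * Real.log (b ^ 2))).div_const 2).sub d5
    have d7 := d3.sub d6
    refine d7.congr_deriv ?_
    field_simp
    ring
  have hmono : MonotoneOn H (Set.Ici b) := by
    apply monotoneOn_of_deriv_nonneg (convex_Ici b)
    · intro x hx
      exact (hd x (hb.trans_le hx)).continuousAt.continuousWithinAt
    · intro x hx
      rw [interior_Ici] at hx
      exact (hd x (hb.trans hx)).differentiableAt.differentiableWithinAt
    · intro x hx
      rw [interior_Ici] at hx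
      have hx0 : 0 < x := hb.trans hx
      rw [(hd x hx0).deriv]
      -- use the auxiliary inequality with t = b / x
      have ht1 : b / x ≤ 1 := by rw [div_le_one hx0]; exact hx.le
      have h1 := log_aux ht1
      have h2 : Real.log ((x ^ 2 + b ^ 2) / 2) = Real.log (x ^ 2) + Real.log (1 + (b / x) ^ 2) -
          Real.log 2 := by
        rw [← Real.log_mul (by positivity) (by positivity), ← Real.log_div (by positivity) (by norm_num)]
        congr 1
        field_simp
      rw [h2]
      have h3 := mul_le_mul_of_nonneg_left h1 hx0.le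
      have h4 : x * (1 - b / x) = x - b := by field_simp
      rw [h4] at h3
      nlinarith
  have h5 := hmono (Set.self_mem_Ici) (show a ∈ Set.Ici b from hab) hab
  have h6 : H b = 0 := by
    simp only [hH, ent2]
    have : (b ^ 2 + b ^ 2) / 2 = b ^ 2 := by ring
    rw [this]; ring
  rw [h6] at h5
  simp only [hH] at h5
  linarith

lemma ent2_le {a b : ℝ} (ha : 0 < a) (hb : 0 < b) : ent2 a b ≤ (a - b) ^ 2 / 2 := by
  rcases le_total b a with h | h
  · exact ent2_le_aux hb h
  · have := ent2_le_aux ha h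
    have e : ent2 a b = ent2 b a := by
      unfold ent2; ring_nf
    rw [e]
    refine this.trans (le_of_eq ?_)
    ring

/-! ### Rademacher measure -/

/-- the symmetric two-point measure -/
noncomputable def rad : Measure ℝ :=
  (2⁻¹ : ENNReal) • (Measure.dirac 1 + Measure.dirac (-1))

instance : IsProbabilityMeasure rad := ⟨by
  simp only [rad, Measure.smul_apply, Measure.coe_add, Pi.add_apply, measure_univ, smul_eq_mul]
  rw [one_add_one_eq_two]
  exact ENNReal.inv_mul_cancel (by simp) (by simp)⟩

lemma integral_rad (g : ℝ → ℝ) : ∫ x, g x ∂rad = (g 1 + g (-1)) / 2 := by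
  unfold rad
  rw [integral_smul_measure, integral_add_measure (integrable_dirac (by simp))
    (integrable_dirac (by simp)), integral_dirac, integral_dirac]
  simp
  ring

lemma rad_ae : ∀ᵐ x ∂rad, x = 1 ∨ x = -1 := by
  rw [ae_iff]
  simp only [rad, Measure.smul_apply, Measure.coe_add, Pi.add_apply, smul_eq_mul]
  rw [Measure.dirac_apply' _ ?_, Measure.dirac_apply' _ ?_]
  · simp
  · exact ((measurableSet_singleton (1:ℝ)).union (measurableSet_singleton (-1:ℝ))).compl
  · exact ((measurableSet_singleton (1:ℝ)).union (measurableSet_singleton (-1:ℝ))).compl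

lemma Ent_rad_le {g : ℝ → ℝ} (h1 : 0 < g 1) (h2 : 0 < g (-1)) :
    Ent rad (fun x => g x ^ 2) ≤ (g 1 - g (-1)) ^ 2 / 2 := by
  unfold Ent
  rw [integral_rad, integral_rad]
  exact ent2_le h1 h2

end Q297.Lsi
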