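import Pool.Agent.Q297.LsiPi
import Pool.Agent.Q297.LsiCube

open MeasureTheory Filter Topology ProbabilityTheory

namespace Q297.Lsi

/-- normalised sum -/
noncomputable def SN (N : ℕ) (x : Fin N → ℝ) : ℝ := (Real.sqrt N)⁻¹ * ∑ k, x k

lemma SN_meas (N : ℕ) : Measurable (SN N) := by
  unfold SN
  fun_prop

/-- the central limit theorem for the cube -/
lemma clt_rad (g : ℝ → ℝ) (hg : Continuous g) (C : ℝ) (hC : ∀ x, |g x| ≤ C) :
    Tendsto (fun N : ℕ => ∫ x, g (SN N x) ∂(Measure.pi (fun _ : Fin N => rad))) atTop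
      (𝓝 (∫ x, g x ∂(gaussianReal 0 1))) := by
  set P : Measure (ℕ → ℝ) := Measure.infinitePi (fun _ : ℕ => rad) with hP
  have hY : HasLaw (fun x : ℝ => x) (gaussianReal 0 1) (gaussianReal 0 1) :=
    ⟨by fun_prop, Measure.map_id⟩
  have hmp : ∀ i : ℕ, MeasurePreserving (fun ω : ℕ → ℝ => ω i) P rad := fun i =>
    measurePreserving_eval_infinitePi (fun _ : ℕ => rad) i
  have hint : ∀ (u : ℝ → ℝ) (hu : Continuous u) (i : ℕ), ∫ ω, u (ω i) ∂P = (u 1 + u (-1)) / 2 := by
    intro u hu i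
    rw [← integral_rad u, ← (hmp i).map_eq, integral_map (hmp i).measurable.aemeasurable
      hu.aestronglyMeasurable]
  have hind : iIndepFun (fun (i : ℕ) (ω : ℕ → ℝ) => ω i) P :=
    iIndepFun_infinitePi (P := fun _ : ℕ => rad) (X := fun _ x => x) (fun _ => measurable_id)
  have h := tendstoInDistribution_inv_sqrt_mul_sum (P := P) (P' := gaussianReal 0 1)
    (X := fun i ω => ω i) (Y := fun x : ℝ => x) hY
    (by have := hint (fun x => x) continuous_id 0; simpa using this)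
    (by
      have := hint (fun x => x ^ 2) (by fun_prop) 0
      simp only [Pi.pow_apply]
      rw [this]; norm_num)
    hind
    (fun i => ⟨(hmp i).aemeasurable, (hmp 0).aemeasurable, by rw [(hmp i).map_eq, (hmp 0).map_eq]⟩)
  have h2 := (ProbabilityMeasure.tendsto_iff_forall_integral_tendsto.1 h.tendsto)
    (BoundedContinuousFunction.ofNormedAddCommGroup g hg C (fun x => by
      rw [Real.norm_eq_abs]; exact hC x))
  simp only [ProbabilityMeasure.coe_mk, BoundedContinuousFunction.coe_ofNormedAddCommGroup] at h2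
  have h3 : ∫ x, g x ∂(Measure.map (fun x : ℝ => x) (gaussianReal 0 1)) =
      ∫ x, g x ∂(gaussianReal 0 1) := by
    rw [hY.map_eq]
  rw [h3] at h2
  refine h2.congr fun N => ?_
  have hpi : Measure.pi (fun _ : Fin N => rad) = P.map (fun ω (i : Fin N) => ω i.val) := by
    rw [hP, Measure.map_infinitePi_infinitePi_of_inj (P := fun _ : ℕ => rad)
      (f := fun i : Fin N => i.val) Fin.val_injective, Measure.infinitePi_eq_pi]
  have hm1 : Measurable (fun (ω : ℕ → ℝ) (i : Fin N) => ω i.val) := by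
    apply measurable_pi_lambda
    intro i
    exact measurable_pi_apply _
  have hm2 : Measurable (fun ω : ℕ → ℝ => (Real.sqrt N)⁻¹ * ∑ k ∈ Finset.range N, ω k) := by
    apply Measurable.const_mul
    apply Finset.measurable_fun_sum
    intro i _
    exact measurable_pi_apply _
  have hgm : Measurable (fun x : Fin N → ℝ => g (SN N x)) := hg.measurable.comp (SN_meas N)
  rw [hpi, integral_map hm2.aemeasurable hg.aestronglyMeasurable,
    integral_map hm1.aemeasurable hgm.aestronglyMeasurable]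
  refine integral_congr_ae (Eventually.of_forall fun ω => ?_)
  simp only [SN]
  rw [← Fin.sum_univ_eq_sum_range (fun k => ω k)]

/-- coordinates of the cube are a.e. signs -/
lemma pi_rad_ae (N : ℕ) : ∀ᵐ x ∂(Measure.pi (fun _ : Fin N => rad)), ∀ i, x i = 1 ∨ x i = -1 := by
  rw [ae_all_iff]
  intro i
  have := (measurePreserving_eval (fun _ : Fin N => rad) i).quasiMeasurePreserving.ae rad_ae
  exact this

lemma SN_upd {N : ℕ} (x : Fin N → ℝ) (i : Fin N) (t : ℝ) :
    SN N (Function.update x i t) = SN N x + (Real.sqrt N)⁻¹ * (t - x i) := by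
  unfold SN
  rw [Finset.sum_update_of_mem (Finset.mem_univ i), ← Finset.add_sum_erase Finset.univ x (Finset.mem_univ i),
    Finset.sdiff_singleton_eq_erase]
  ring

/-- the log-Sobolev inequality on the cube for functions of the normalised sum -/
lemma cube_lsi {f f' : ℝ → ℝ} {δ B L ε : ℝ} (hδ : 0 < δ) (hf : ∀ x, HasDerivAt f (f' x) x)
    (h1 : ∀ x, δ ≤ f x) (h2 : ∀ x, f x ≤ B) (h3 : Continuous f') (h4 : ∀ x, |f' x| ≤ L)
    (hε : 0 < ε) {N : ℕ} (hN : 0 < N)
    (h5 : ∀ u v, |u - v| ≤ 2 * (Real.sqrt N)⁻¹ → |f' u - f' v| ≤ ε) :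
    Ent (Measure.pi (fun _ : Fin N => rad)) (fun x => f (SN N x) ^ 2) ≤
      2 * ∫ x, f' (SN N x) ^ 2 ∂(Measure.pi (fun _ : Fin N => rad)) + 4 * ε * L + 2 * ε ^ 2 := by
  set ρ := Measure.pi (fun _ : Fin N => rad) with hρ
  have hfc : Continuous f := continuous_iff_continuousAt.2 fun x => (hf x).continuousAt
  have hL : 0 ≤ L := (abs_nonneg _).trans (h4 0)
  have hsN : 0 < Real.sqrt N := Real.sqrt_pos.2 (by exact_mod_cast hN)
  set s := (Real.sqrt N)⁻¹ with hs
  have hs0 : 0 < s := inv_pos.2 hsN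
  have hs2 : s ^ 2 * N = 1 := by
    rw [hs, inv_pow, Real.sq_sqrt (by positivity)]
    field_simp
  have hB : Bd (fun x : Fin N → ℝ => f (SN N x) ^ 2) (δ ^ 2) (B ^ 2) :=
    ⟨(hfc.measurable.comp (SN_meas N)).pow_const 2, by positivity,
      fun x => pow_le_pow_left₀ hδ.le (h1 _) 2,
      fun x => pow_le_pow_left₀ (hδ.le.trans (h1 _)) (h2 _) 2⟩
  have hmvt : ∀ a b : ℝ, b < a → ∃ ξ ∈ Set.Ioo b a, f a - f b = f' ξ * (a - b) := by
    intro a b hab
    obtain ⟨ξ, hξ, h⟩ := exists_hasDerivAt_eq_slope f f' hab hfc.continuousOn (fun x _ => hf x)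
    refine ⟨ξ, hξ, ?_⟩
    rw [h, div_mul_cancel₀ _ (by linarith : a - b ≠ 0).symm.symm]
  have hgi : Integrable (fun x : Fin N → ℝ => f' (SN N x) ^ 2) ρ :=
    int_of_bdd (B := L ^ 2) ((h3.measurable.comp (SN_meas N)).pow_const 2) fun x => by
      rw [abs_pow]; exact pow_le_pow_left₀ (abs_nonneg _) (h4 _) 2
  have hgi2 : Integrable (fun x : Fin N → ℝ => 2 * s ^ 2 * (|f' (SN N x)| + ε) ^ 2) ρ := by
    refine int_of_bdd (B := 2 * s ^ 2 * (L + ε) ^ 2)
      ((((h3.measurable.comp (SN_meas N)).abs.add_const ε).pow_const 2).const_mul _) fun x => ?_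
    rw [abs_of_nonneg (by positivity)]
    have := h4 (SN N x)
    gcongr
  have hcoord : ∀ i : Fin N, ∫ x, EntI (fun _ : Fin N => rad) (fun x => f (SN N x) ^ 2) i x ∂ρ ≤
      ∫ x, 2 * s ^ 2 * (|f' (SN N x)| + ε) ^ 2 ∂ρ := by
    intro i
    apply integral_mono_ae (EntI_int hB i) hgi2
    filter_upwards [pi_rad_ae N] with x hx
    unfold EntI
    refine (Ent_rad_le (g := fun t => f (SN N (Function.update x i t))) (hδ.trans_le (h1 _))
      (hδ.trans_le (h1 _))).trans ?_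
    simp only [SN_upd]
    rw [← hs]
    obtain ⟨ξ, hξ, hξ2⟩ := hmvt (SN N x + s * (1 - x i)) (SN N x + s * (-1 - x i)) (by nlinarith)
    rw [hξ2]
    have hd : |ξ - SN N x| ≤ 2 * s := by
      rw [abs_le]
      rcases hx i with h | h
      · rw [h] at hξ
        constructor <;> [linarith [hξ.1]; linarith [hξ.2]]
      · rw [h] at hξ
        constructor <;> [linarith [hξ.1]; linarith [hξ.2]]
    have h6 : |f' ξ| ≤ |f' (SN N x)| + ε := by
      have := h5 _ _ hd
      have h7 := abs_sub_abs_le_abs_sub (f' ξ) (f' (SN N x))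
      linarith
    have h8 : (f' ξ) ^ 2 ≤ (|f' (SN N x)| + ε) ^ 2 := by
      rw [← sq_abs]
      exact pow_le_pow_left₀ (abs_nonneg _) h6 2
    have e : SN N x + s * (1 - x i) - (SN N x + s * (-1 - x i)) = 2 * s := by ring
    rw [e]
    nlinarith [h8, sq_nonneg s]
  refine (Ent_pi (fun _ : Fin N => rad) hB).trans ?_
  refine (Finset.sum_le_sum fun i _ => hcoord i).trans ?_
  rw [Finset.sum_const, Finset.card_univ, Fintype.card_fin, nsmul_eq_mul, integral_const_mul]
  have e1 : (N : ℝ) * (2 * s ^ 2 * ∫ x, (|f' (SN N x)| + ε) ^ 2 ∂ρ) =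
      2 * ∫ x, (|f' (SN N x)| + ε) ^ 2 ∂ρ := by
    calc _ = 2 * (s ^ 2 * N) * ∫ x, (|f' (SN N x)| + ε) ^ 2 ∂ρ := by ring
      _ = _ := by rw [hs2, mul_one]
  rw [e1]
  have hgi3 : Integrable (fun x : Fin N → ℝ => f' (SN N x) ^ 2 + (2 * ε * L + ε ^ 2)) ρ :=
    hgi.add (integrable_const _)
  have h9 : ∫ x, (|f' (SN N x)| + ε) ^ 2 ∂ρ ≤ ∫ x, (f' (SN N x) ^ 2 + (2 * ε * L + ε ^ 2)) ∂ρ := by
    apply integral_mono_of_nonneg
    · exact Eventually.of_forall fun x => sq_nonneg _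
    · exact hgi3
    · refine Eventually.of_forall fun x => ?_
      simp only
      have := h4 (SN N x)
      nlinarith [sq_abs (f' (SN N x)), abs_nonneg (f' (SN N x))]
  rw [integral_add hgi (integrable_const _), integral_const, probReal_univ, one_smul] at h9
  linarith

/-- Gaussian LSI in dimension one, uniformly continuous derivative -/
lemma gauss_lsi_unif {f f' : ℝ → ℝ} {δ B L : ℝ} (hδ : 0 < δ) (hf : ∀ x, HasDerivAt f (f' x) x)
    (h1 : ∀ x, δ ≤ f x) (h2 : ∀ x, f x ≤ B) (h3 : UniformContinuous f') (h4 : ∀ x, |f' x| ≤ L) :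
    Ent (gaussianReal 0 1) (fun x => f x ^ 2) ≤ 2 * ∫ x, f' x ^ 2 ∂(gaussianReal 0 1) := by
  have hfc : Continuous f := continuous_iff_continuousAt.2 fun x => (hf x).continuousAt
  have hf'c : Continuous f' := h3.continuous
  have hL : 0 ≤ L := (abs_nonneg _).trans (h4 0)
  have hB0 : 0 ≤ B := hδ.le.trans ((h1 0).trans (h2 0))
  have hfp : ∀ x, 0 < f x := fun x => hδ.trans_le (h1 x)
  -- limits
  have l1 := clt_rad (fun x => f x ^ 2) (by fun_prop) (B ^ 2) (fun x => by
    rw [abs_pow, abs_of_pos (hfp x)]; exact pow_le_pow_left₀ (hfp x).le (h2 x) 2)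
  have l2 := clt_rad (fun x => f' x ^ 2) (by fun_prop) (L ^ 2) (fun x => by
    rw [abs_pow]; exact pow_le_pow_left₀ (abs_nonneg _) (h4 x) 2)
  have l3 := clt_rad (fun x => f x ^ 2 * Real.log (f x ^ 2))
    ((hfc.pow 2).mul ((hfc.pow 2).log fun x => (pow_pos (hfp x) 2).ne'))
    (B ^ 2 * (|Real.log (δ ^ 2)| + |Real.log (B ^ 2)|)) (fun x => by
      rw [abs_mul, abs_pow, abs_of_pos (hfp x)]
      have e1 : f x ^ 2 ≤ B ^ 2 := pow_le_pow_left₀ (hfp x).le (h2 x) 2
      have e2 : δ ^ 2 ≤ f x ^ 2 := pow_le_pow_left₀ hδ.le (h1 x) 2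
      exact mul_le_mul e1 (abs_log_le (by positivity) e2 e1) (abs_nonneg _) (by positivity))
  have hpos : (∫ x, f x ^ 2 ∂(gaussianReal 0 1)) ≠ 0 := by
    have hb : Bd (fun x => f x ^ 2) (δ ^ 2) (B ^ 2) := ⟨(hfc.pow 2).measurable, by positivity,
      fun x => pow_le_pow_left₀ hδ.le (h1 x) 2, fun x => pow_le_pow_left₀ (hfp x).le (h2 x) 2⟩
    have := hb.int_low (μ := gaussianReal 0 1)
    have h0 : 0 < δ ^ 2 := by positivity
    exact (h0.trans_le this).ne'
  have l4 : Tendsto (fun N : ℕ => Ent (Measure.pi (fun _ : Fin N => rad)) (fun x => f (SN N x) ^ 2))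
      atTop (𝓝 (Ent (gaussianReal 0 1) (fun x => f x ^ 2))) := by
    unfold Ent
    exact l3.sub (l1.mul (l1.log hpos))
  -- compare
  have key : ∀ ε : ℝ, 0 < ε → Ent (gaussianReal 0 1) (fun x => f x ^ 2) ≤
      2 * ∫ x, f' x ^ 2 ∂(gaussianReal 0 1) + 4 * ε * L + 2 * ε ^ 2 := by
    intro ε hε
    obtain ⟨η, hη, hη2⟩ := Metric.uniformContinuous_iff.1 h3 ε hε
    have ht : Tendsto (fun N : ℕ => 2 * (Real.sqrt N)⁻¹) atTop (𝓝 0) := by
      have := (tendsto_inv_atTop_zero.comp (Real.tendsto_sqrt_atTop.comp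
        (tendsto_natCast_atTop_atTop (R := ℝ)))).const_mul 2
      simpa using this
    refine le_of_tendsto_of_tendsto l4 (((l2.const_mul 2).add_const _).add_const _) ?_
    filter_upwards [ht.eventually (gt_mem_nhds hη), eventually_gt_atTop 0] with N hN hN0
    refine cube_lsi hδ hf h1 h2 hf'c h4 hε hN0 ?_
    intro u v huv
    have := hη2 (a := u) (b := v) (by rw [Real.dist_eq]; exact huv.trans_lt hN)
    rw [Real.dist_eq] at this
    exact this.le
  have lim : Tendsto (fun ε : ℝ => 2 * ∫ x, f' x ^ 2 ∂(gaussianReal 0 1) + 4 * ε * L + 2 * ε ^ 2)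
      (𝓝[>] 0) (𝓝 (2 * ∫ x, f' x ^ 2 ∂(gaussianReal 0 1) + 4 * 0 * L + 2 * 0 ^ 2)) := by
    refine Tendsto.mono_left ?_ nhdsWithin_le_nhds
    exact Continuous.tendsto (by fun_prop) 0
  have := ge_of_tendsto lim (by
    filter_upwards [self_mem_nhdsWithin] with ε hε
    exact key ε hε)
  simpa using this

end Q297.Lsi
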