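import Pool.Agent.Q297.LsiMaps

open MeasureTheory Filter Topology ProbabilityTheory

namespace Q297.Lsi

/-- the quantity `e^{-a} + (1-e^{-a}) e^{-v}` -/
noncomputable def W (a v : ℝ) : ℝ := Real.exp (-a) + (1 - Real.exp (-a)) * Real.exp (-v)

lemma one_sub_exp_pos {a : ℝ} (ha : 0 < a) : 0 < 1 - Real.exp (-a) := by
  have : Real.exp (-a) < 1 := Real.exp_lt_one_iff.2 (by linarith)
  linarith

lemma W_pos {a : ℝ} (ha : 0 < a) (v : ℝ) : 0 < W a v := by
  unfold W
  have := one_sub_exp_pos ha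
  positivity

/-- logarithmic ratio -/
noncomputable def kap (a v : ℝ) : ℝ := (1 - Real.exp (-a)) * Real.exp (-v) / W a v

lemma kap_pos {a : ℝ} (ha : 0 < a) (v : ℝ) : 0 < kap a v := by
  unfold kap
  have := one_sub_exp_pos ha
  have := W_pos ha v
  positivity

lemma kap_le_one {a : ℝ} (ha : 0 < a) (v : ℝ) : kap a v ≤ 1 := by
  unfold kap
  rw [div_le_one (W_pos ha v)]
  unfold W
  linarith [Real.exp_pos (-a)]

lemma kap_le {a : ℝ} (ha : 0 < a) (v : ℝ) : kap a v ≤ Real.exp (a - v) := by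
  unfold kap
  rw [div_le_iff₀ (W_pos ha v)]
  have h1 : Real.exp (-a) ≤ W a v := by
    unfold W
    have := one_sub_exp_pos ha
    have : 0 ≤ (1 - Real.exp (-a)) * Real.exp (-v) := by positivity
    linarith
  calc (1 - Real.exp (-a)) * Real.exp (-v) ≤ 1 * Real.exp (-v) :=
        mul_le_mul_of_nonneg_right (by linarith [Real.exp_pos (-a)]) (Real.exp_pos _).le
    _ = Real.exp (a - v) * Real.exp (-a) := by rw [one_mul, ← Real.exp_add]; ring_nf
    _ ≤ _ := mul_le_mul_of_nonneg_left h1 (Real.exp_pos _).le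

lemma v_kap {a : ℝ} (ha : 1 / 2 ≤ a) {v : ℝ} (hv : 0 ≤ v) : v * kap a v ^ 2 ≤ a := by
  have ha0 : 0 < a := by linarith
  rcases le_total v a with h | h
  · have h1 := kap_le_one ha0 v
    have h2 := kap_pos ha0 v
    have : kap a v ^ 2 ≤ 1 := by nlinarith
    nlinarith
  · have h1 := kap_le ha0 v
    have h2 := kap_pos ha0 v
    have h3 : kap a v ^ 2 ≤ Real.exp (a - v) ^ 2 := pow_le_pow_left₀ h2.le h1 2
    have h4 : Real.exp (a - v) ^ 2 = (Real.exp (2 * (v - a)))⁻¹ := by
      rw [← Real.exp_neg, ← Real.exp_nat_mul]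
      congr 1
      push_cast
      ring
    have h5 : 1 + 2 * (v - a) ≤ Real.exp (2 * (v - a)) := by
      have := Real.add_one_le_exp (2 * (v - a))
      linarith
    have h6 : (Real.exp (2 * (v - a)))⁻¹ ≤ (1 + 2 * (v - a))⁻¹ := inv_anti₀ (by linarith) h5
    calc v * kap a v ^ 2 ≤ v * (1 + 2 * (v - a))⁻¹ :=
          mul_le_mul_of_nonneg_left (h3.trans (h4.le.trans h6)) hv
      _ ≤ a := by
        rw [← div_eq_mul_inv, div_le_iff₀ (by linarith)]
        nlinarith

/-- the height map -/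
noncomputable def Y (a v : ℝ) : ℝ := 1 + 1 / a * Real.log (W a v)

lemma W_deriv (a v : ℝ) : HasDerivAt (W a) (-((1 - Real.exp (-a)) * Real.exp (-v))) v := by
  unfold W
  have h := (((hasDerivAt_neg v).exp).const_mul (1 - Real.exp (-a))).const_add (Real.exp (-a))
  refine h.congr_deriv ?_
  ring

lemma Y_deriv {a : ℝ} (ha : 0 < a) (v : ℝ) : HasDerivAt (Y a) (-(kap a v / a)) v := by
  unfold Y
  have h := (((W_deriv a v).log (W_pos ha v).ne').const_mul (1 / a)).const_add 1
  refine h.congr_deriv ?_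
  unfold kap
  ring

lemma W_cont (a : ℝ) : Continuous (W a) := by
  unfold W
  fun_prop

lemma kap_cont {a : ℝ} (ha : 0 < a) : Continuous (kap a) := by
  unfold kap
  exact (by fun_prop : Continuous fun v => (1 - Real.exp (-a)) * Real.exp (-v)).div (W_cont a)
    fun v => (W_pos ha v).ne'

lemma Y_cont {a : ℝ} (ha : 0 < a) : Continuous (Y a) :=
  continuous_iff_continuousAt.2 fun v => (Y_deriv ha v).continuousAt

/-- the map from the plane to `(0,1]` -/
noncomputable def TY (a : ℝ) (p : Fin 2 → ℝ) : ℝ := Y a ((p 0 ^ 2 + p 1 ^ 2) / 2)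

/-- partial derivatives of `TY` -/
noncomputable def DY (a : ℝ) (j : Fin 2) (p : Fin 2 → ℝ) : ℝ :=
  -(kap a ((p 0 ^ 2 + p 1 ^ 2) / 2) / a) * p j

lemma DY_sum {a : ℝ} (ha : 1 / 2 ≤ a) (p : Fin 2 → ℝ) : ∑ j, DY a j p ^ 2 ≤ 2 / a := by
  have ha0 : 0 < a := by linarith
  rw [Fin.sum_univ_two]
  unfold DY
  have h := v_kap ha (v := (p 0 ^ 2 + p 1 ^ 2) / 2) (by positivity)
  have e : (-(kap a ((p 0 ^ 2 + p 1 ^ 2) / 2) / a) * p 0) ^ 2 +
      (-(kap a ((p 0 ^ 2 + p 1 ^ 2) / 2) / a) * p 1) ^ 2 =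
      2 / a ^ 2 * ((p 0 ^ 2 + p 1 ^ 2) / 2 * kap a ((p 0 ^ 2 + p 1 ^ 2) / 2) ^ 2) := by
    field_simp
  rw [e]
  calc _ ≤ 2 / a ^ 2 * a := mul_le_mul_of_nonneg_left h (by positivity)
    _ = 2 / a := by field_simp

lemma TY_CC1 {a : ℝ} (ha : 1 / 2 ≤ a) : CC1 (TY a) (DY a) (Real.sqrt (2 / a)) := by
  have ha0 : 0 < a := by linarith
  refine ⟨?_, fun i => ?_, fun x i t => ?_, fun x i => ?_, fun i x => ?_⟩
  · unfold TY
    exact (Y_cont ha0).measurable.comp (by fun_prop)
  · unfold DY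
    exact (((kap_cont ha0).measurable.comp (by fun_prop)).div_const a).neg.mul (by fun_prop)
  · have hi : i = 0 ∨ i = 1 := by
      fin_cases i
      · left; rfl
      · right; rfl
    rcases hi with rfl | rfl
    · have h1 : HasDerivAt (fun s : ℝ => (s ^ 2 + x 1 ^ 2) / 2) t t := by
        have := (((hasDerivAt_id t).pow 2).add_const (x 1 ^ 2)).div_const 2
        refine this.congr_deriv ?_
        simp
      have h2 := (Y_deriv ha0 ((t ^ 2 + x 1 ^ 2) / 2)).comp t h1
      refine HasDerivAt.congr_deriv (f := fun s => TY a (Function.update x 0 s))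
        (f' := -(kap a ((t ^ 2 + x 1 ^ 2) / 2) / a) * t) ?_ ?_
      · refine h2.congr_of_eventuallyEq (Eventually.of_forall fun s => ?_)
        simp [TY]
      · simp [DY]
    · have h1 : HasDerivAt (fun s : ℝ => (x 0 ^ 2 + s ^ 2) / 2) t t := by
        have := (((hasDerivAt_id t).pow 2).const_add (x 0 ^ 2)).div_const 2
        refine this.congr_deriv ?_
        simp
      have h2 := (Y_deriv ha0 ((x 0 ^ 2 + t ^ 2) / 2)).comp t h1
      refine HasDerivAt.congr_deriv (f := fun s => TY a (Function.update x 1 s))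
        (f' := -(kap a ((x 0 ^ 2 + t ^ 2) / 2) / a) * t) ?_ ?_
      · refine h2.congr_of_eventuallyEq (Eventually.of_forall fun s => ?_)
        simp [TY]
      · simp [DY]
  · have hu : Continuous fun t => Function.update x i t := continuous_const.update i continuous_id
    unfold DY
    exact (((kap_cont ha0).comp (by fun_prop)).div_const a).neg.mul (by fun_prop)
  · apply Real.abs_le_sqrt
    have h := DY_sum ha x
    have h2 : DY a i x ^ 2 ≤ ∑ j, DY a j x ^ 2 :=
      Finset.single_le_sum (f := fun j => DY a j x ^ 2) (fun j _ => sq_nonneg _) (Finset.mem_univ i)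
    exact h2.trans h

/-! ### The law of the height -/

/-- normalising constant -/
noncomputable def cexp (a : ℝ) : ℝ := a * Real.exp (-a) / (1 - Real.exp (-a))

/-- measure on `(0,1)` with density proportional to `e^{ay}` -/
noncomputable def muA (a : ℝ) : Measure ℝ :=
  (volume.restrict (Set.Ioo (0:ℝ) 1)).withDensity (fun y => ENNReal.ofReal (cexp a * Real.exp (a * y)))

/-- radial height -/
noncomputable def Yr (a r : ℝ) : ℝ := Y a (r ^ 2 / 2)

lemma exp_aY {a : ℝ} (ha : 0 < a) (v : ℝ) : Real.exp (a * Y a v) = Real.exp a * W a v := by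
  unfold Y
  rw [mul_add, mul_one, Real.exp_add]
  congr 1
  rw [← mul_assoc, mul_one_div_cancel ha.ne', one_mul, Real.exp_log (W_pos ha v)]

lemma Yr_deriv {a : ℝ} (ha : 0 < a) (r : ℝ) : HasDerivAt (Yr a) (-(kap a (r ^ 2 / 2) / a) * r) r := by
  have h1 : HasDerivAt (fun s : ℝ => s ^ 2 / 2) r r := by
    have := ((hasDerivAt_id r).pow 2).div_const 2
    refine this.congr_deriv ?_
    simp
  exact HasDerivAt.comp (h₂ := Y a) r (Y_deriv ha (r ^ 2 / 2)) h1

lemma Yr_anti {a : ℝ} (ha : 0 < a) : StrictAntiOn (Yr a) (Set.Ioi 0) := by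
  apply strictAntiOn_of_deriv_neg (convex_Ioi 0)
  · exact fun r _ => (Yr_deriv ha r).continuousAt.continuousWithinAt
  · intro r hr
    rw [interior_Ioi] at hr
    rw [(Yr_deriv ha r).deriv]
    have := kap_pos ha (r ^ 2 / 2)
    have hr0 : 0 < r := hr
    have : 0 < kap a (r ^ 2 / 2) / a * r := by positivity
    linarith

lemma Yr_image {a : ℝ} (ha : 0 < a) : Yr a '' Set.Ioi 0 = Set.Ioo 0 1 := by
  have hq := one_sub_exp_pos ha
  ext y
  constructor
  · rintro ⟨r, hr, rfl⟩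
    have hr0 : 0 < r := hr
    have hv : 0 < r ^ 2 / 2 := by positivity
    have h1 : Real.exp (-a) < W a (r ^ 2 / 2) := by
      unfold W
      have : 0 < (1 - Real.exp (-a)) * Real.exp (-(r ^ 2 / 2)) := by positivity
      linarith
    have h2 : W a (r ^ 2 / 2) < 1 := by
      unfold W
      have : Real.exp (-(r ^ 2 / 2)) < 1 := Real.exp_lt_one_iff.2 (by linarith)
      nlinarith
    have h3 : -a < Real.log (W a (r ^ 2 / 2)) := by
      rw [Real.lt_log_iff_exp_lt (W_pos ha _)]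
      exact h1
    have h4 : Real.log (W a (r ^ 2 / 2)) < 0 := Real.log_neg (W_pos ha _) h2
    have e : Yr a r = 1 + 1 / a * Real.log (W a (r ^ 2 / 2)) := rfl
    rw [e]
    constructor
    · have : 1 / a * (-a) < 1 / a * Real.log (W a (r ^ 2 / 2)) :=
        mul_lt_mul_of_pos_left h3 (by positivity)
      have e2 : 1 / a * (-a) = -1 := by field_simp
      linarith
    · have : 1 / a * Real.log (W a (r ^ 2 / 2)) < 0 := mul_neg_of_pos_of_neg (by positivity) h4
      linarith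
  · rintro ⟨h0, h1⟩
    set w := Real.exp (a * (y - 1)) with hw
    have hw1 : w < 1 := Real.exp_lt_one_iff.2 (by nlinarith)
    have hw2 : Real.exp (-a) < w := Real.exp_lt_exp.2 (by nlinarith)
    set q := (w - Real.exp (-a)) / (1 - Real.exp (-a)) with hqd
    have hq0 : 0 < q := div_pos (by linarith) hq
    have hq1 : q < 1 := by rw [hqd, div_lt_one hq]; linarith
    have hl : 0 < -Real.log q := by linarith [Real.log_neg hq0 hq1]
    refine ⟨Real.sqrt (2 * (-Real.log q)), Real.sqrt_pos.2 (by linarith), ?_⟩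
    unfold Yr Y
    rw [Real.sq_sqrt (by linarith)]
    have e1 : W a (2 * -Real.log q / 2) = w := by
      unfold W
      rw [mul_div_cancel_left₀ _ (by norm_num : (2:ℝ) ≠ 0), neg_neg, Real.exp_log hq0, hqd]
      field_simp
      ring
    rw [e1, hw, Real.log_exp]
    field_simp
    ring

lemma lint_polar (g : ℝ → ENNReal) (hg : Measurable g) :
    ∫⁻ p, g ((p 0 ^ 2 + p 1 ^ 2) / 2) ∂(gpi 2) =
      ∫⁻ r in Set.Ioi (0:ℝ), ENNReal.ofReal (r * Real.exp (-(r ^ 2 / 2))) * g (r ^ 2 / 2) := by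
  have hmp := measurePreserving_finTwoArrow (gaussianReal 0 1)
  have hG : Measurable fun z : ℝ × ℝ => g ((z.1 ^ 2 + z.2 ^ 2) / 2) := hg.comp (by fun_prop)
  have e1 : ∫⁻ p, g ((p 0 ^ 2 + p 1 ^ 2) / 2) ∂(gpi 2) =
      ∫⁻ z, g ((z.1 ^ 2 + z.2 ^ 2) / 2) ∂((gaussianReal 0 1).prod (gaussianReal 0 1)) := by
    rw [← hmp.lintegral_comp hG]
    rfl
  rw [e1, gaussianReal_of_var_ne_zero 0 one_ne_zero, prod_withDensity (measurable_gaussianPDF 0 1)
    (measurable_gaussianPDF 0 1), lintegral_withDensity_eq_lintegral_mul _ (by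
      exact ((measurable_gaussianPDF 0 1).comp measurable_fst).mul
        ((measurable_gaussianPDF 0 1).comp measurable_snd)) hG, ← Measure.volume_eq_prod,
    ← lintegral_comp_polarCoord_symm, polarCoord_target, Measure.volume_eq_prod,
    ← Measure.prod_restrict]
  have e2 : ∀ p : ℝ × ℝ, p ∈ Set.Ioi (0:ℝ) ×ˢ Set.Ioo (-Real.pi) Real.pi → 
      ENNReal.ofReal p.1 • ((fun z : ℝ × ℝ => gaussianPDF 0 1 z.1 * gaussianPDF 0 1 z.2) *
        fun z : ℝ × ℝ => g ((z.1 ^ 2 + z.2 ^ 2) / 2)) (polarCoord.symm p) =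
      ENNReal.ofReal (2 * Real.pi)⁻¹ *
        (ENNReal.ofReal (p.1 * Real.exp (-(p.1 ^ 2 / 2))) * g (p.1 ^ 2 / 2)) := by
    intro p hp
    have hp1 : 0 < p.1 := hp.1
    have hpi : 0 < (2 * Real.pi)⁻¹ := by positivity
    simp only [polarCoord_symm_apply, Pi.mul_apply, smul_eq_mul]
    have e3 : ((p.1 * Real.cos p.2) ^ 2 + (p.1 * Real.sin p.2) ^ 2) / 2 = p.1 ^ 2 / 2 := by
      have := Real.cos_sq_add_sin_sq p.2
      rw [mul_pow, mul_pow, ← mul_add, this, mul_one]
    rw [e3, ← mul_assoc, ← mul_assoc (ENNReal.ofReal (2 * Real.pi)⁻¹)]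
    congr 1
    unfold gaussianPDF
    rw [← ENNReal.ofReal_mul (gaussianPDFReal_nonneg 0 1 _), ← ENNReal.ofReal_mul hp1.le,
      ← ENNReal.ofReal_mul hpi.le]
    congr 1
    unfold gaussianPDFReal
    simp only [NNReal.coe_one, mul_one, sub_zero]
    have e4 : Real.exp (-(p.1 * Real.cos p.2) ^ 2 / 2) * Real.exp (-(p.1 * Real.sin p.2) ^ 2 / 2) =
        Real.exp (-(p.1 ^ 2 / 2)) := by
      rw [← Real.exp_add, ← e3]
      congr 1
      ring
    have e5 : (Real.sqrt (2 * Real.pi))⁻¹ * (Real.sqrt (2 * Real.pi))⁻¹ = (2 * Real.pi)⁻¹ := by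
      rw [← mul_inv, Real.mul_self_sqrt (by positivity)]
    calc _ = ((Real.sqrt (2 * Real.pi))⁻¹ * (Real.sqrt (2 * Real.pi))⁻¹) * (p.1 *
          (Real.exp (-(p.1 * Real.cos p.2) ^ 2 / 2) * Real.exp (-(p.1 * Real.sin p.2) ^ 2 / 2))) := by
          ring
      _ = _ := by rw [e4, e5]
  have hm : Measurable fun r : ℝ => ENNReal.ofReal (r * Real.exp (-(r ^ 2 / 2))) * g (r ^ 2 / 2) :=
    (by fun_prop : Measurable fun r : ℝ => r * Real.exp (-(r ^ 2 / 2))).ennreal_ofReal.mul
      (hg.comp (by fun_prop))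
  rw [Measure.prod_restrict, setLIntegral_congr_fun (measurableSet_Ioi.prod measurableSet_Ioo) e2,
    ← Measure.prod_restrict, lintegral_prod _ (by
      exact (hm.comp measurable_fst).const_mul _ |>.aemeasurable)]
  simp only [lintegral_const, Measure.restrict_apply_univ, Real.volume_Ioo]
  have e6 : ENNReal.ofReal (2 * Real.pi)⁻¹ * ENNReal.ofReal (Real.pi - -Real.pi) = 1 := by
    rw [← ENNReal.ofReal_mul (by positivity)]
    have : (2 * Real.pi)⁻¹ * (Real.pi - -Real.pi) = 1 := by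
      field_simp
      ring
    rw [this, ENNReal.ofReal_one]
  refine lintegral_congr fun r => ?_
  rw [mul_right_comm, e6, one_mul]

lemma map_TY {a : ℝ} (ha : 1 / 2 ≤ a) : (gpi 2).map (TY a) = muA a := by
  have ha0 : 0 < a := by linarith
  refine Measure.ext_of_lintegral _ fun g hg => ?_
  have hgY : Measurable fun v => g (Y a v) := hg.comp (Y_cont ha0).measurable
  rw [lintegral_map hg (TY_CC1 ha).measF]
  have e1 : ∫⁻ p, g (TY a p) ∂(gpi 2) = ∫⁻ r in Set.Ioi (0:ℝ),
      ENNReal.ofReal (r * Real.exp (-(r ^ 2 / 2))) * g (Y a (r ^ 2 / 2)) :=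
    lint_polar (fun v => g (Y a v)) hgY
  rw [e1, muA, lintegral_withDensity_eq_lintegral_mul _ (by fun_prop) hg, ← Yr_image ha0,
    lintegral_image_eq_lintegral_abs_deriv_mul measurableSet_Ioi
      (fun r _ => (Yr_deriv ha0 r).hasDerivWithinAt) (Yr_anti ha0).injOn]
  refine setLIntegral_congr_fun measurableSet_Ioi fun r hr => ?_
  have hr0 : 0 < r := hr
  simp only [Pi.mul_apply]
  rw [← mul_assoc]
  congr 1
  rw [← ENNReal.ofReal_mul (abs_nonneg _)]
  congr 1
  have hk := kap_pos ha0 (r ^ 2 / 2)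
  have hW := W_pos ha0 (r ^ 2 / 2)
  have hq := one_sub_exp_pos ha0
  have e2 : |-(kap a (r ^ 2 / 2) / a) * r| = kap a (r ^ 2 / 2) / a * r := by
    rw [neg_mul, abs_neg, abs_of_pos (by positivity)]
  rw [e2]
  unfold Yr
  rw [exp_aY ha0]
  unfold cexp kap
  have e3 : Real.exp (-a) * Real.exp a = 1 := by rw [← Real.exp_add]; simp
  field_simp
  rw [e3]

instance isProb_muA_aux {a : ℝ} [Fact (1 / 2 ≤ a)] : IsProbabilityMeasure (muA a) := by
  rw [← map_TY Fact.out]
  exact Measure.isProbabilityMeasure_map (TY_CC1 Fact.out).measF.aemeasurable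

lemma isProb_muA {a : ℝ} (ha : 1 / 2 ≤ a) : IsProbabilityMeasure (muA a) := by
  rw [← map_TY ha]
  exact Measure.isProbabilityMeasure_map (TY_CC1 ha).measF.aemeasurable

/-- **log-Sobolev inequality for the truncated exponential distribution** -/
theorem lsi_muA {a : ℝ} (ha : 1 / 2 ≤ a) : LSI1 (muA a) (4 / a) := by
  have := lsi1_map (TY_CC1 ha) (DY_sum ha)
  rw [map_TY ha] at this
  have e : 2 * (2 / a) = 4 / a := by ring
  rwa [e] at this

end Q297.Lsi
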