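import Pool.Agent.Q297.LsiClt

open MeasureTheory Filter Topology ProbabilityTheory

namespace Q297.Lsi

/-- one-dimensional log-Sobolev inequality for bounded positive `C¹` functions -/
def LSI1 (μ : Measure ℝ) (C : ℝ) : Prop :=
  ∀ (f f' : ℝ → ℝ) (δ B L : ℝ), 0 < δ → (∀ x, HasDerivAt f (f' x) x) → (∀ x, δ ≤ f x) →
    (∀ x, f x ≤ B) → Continuous f' → (∀ x, |f' x| ≤ L) →
    Ent μ (fun x => f x ^ 2) ≤ C * ∫ x, f' x ^ 2 ∂μ

lemma tendsto_mul_arctan (x : ℝ) :
    Tendsto (fun k : ℕ => (k + 1 : ℝ) * Real.arctan (x / (k + 1))) atTop (𝓝 x) := by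
  have h := (Real.hasDerivAt_arctan 0)
  have h2 := hasDerivAt_iff_tendsto_slope_zero.1 h
  simp only [zero_add, Real.arctan_zero, sub_zero, smul_eq_mul] at h2
  rcases eq_or_ne x 0 with rfl | hx
  · simp
  · have ht : Tendsto (fun k : ℕ => x / ((k : ℝ) + 1)) atTop (𝓝[≠] 0) := by
      rw [tendsto_nhdsWithin_iff]
      constructor
      · have := tendsto_const_nhds (x := x).div_atTop
          (tendsto_atTop_add_const_right atTop (1:ℝ) (tendsto_natCast_atTop_atTop (R := ℝ)))
        exact this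
      · refine Eventually.of_forall fun k => ?_
        simp only [Set.mem_compl_iff, Set.mem_singleton_iff]
        positivity
    have h3 := (h2.comp ht).const_mul x
    norm_num at h3
    refine h3.congr fun k => ?_
    have hk : (0:ℝ) < k + 1 := by positivity
    field_simp

lemma gauss_lsi1 : LSI1 (gaussianReal 0 1) 2 := by
  intro f f' δ B L hδ hf h1 h2 h3 h4
  have hfc : Continuous f := continuous_iff_continuousAt.2 fun x => (hf x).continuousAt
  have hL : 0 ≤ L := (abs_nonneg _).trans (h4 0)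
  have hB0 : 0 ≤ B := hδ.le.trans ((h1 0).trans (h2 0))
  have hfp : ∀ x, 0 < f x := fun x => hδ.trans_le (h1 x)
  set τ : ℕ → ℝ → ℝ := fun k x => (k + 1 : ℝ) * Real.arctan (x / (k + 1)) with hτ
  set τ' : ℕ → ℝ → ℝ := fun k x => 1 / (1 + (x / (k + 1)) ^ 2) with hτ'
  have hτd : ∀ k x, HasDerivAt (τ k) (τ' k x) x := by
    intro k x
    have hk : (0:ℝ) < k + 1 := by positivity
    have h := ((Real.hasDerivAt_arctan (x / (k + 1))).comp x
      ((hasDerivAt_id x).div_const (k + 1 : ℝ))).const_mul (k + 1 : ℝ)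
    refine h.congr_deriv ?_
    simp only [hτ']
    field_simp
  have hτc : ∀ k, Continuous (τ k) := fun k =>
    continuous_iff_continuousAt.2 fun x => (hτd k x).continuousAt
  have hτ'c : ∀ k, Continuous (τ' k) := by
    intro k
    simp only [hτ']
    exact continuous_const.div (by fun_prop) fun x => by positivity
  have hτ'b : ∀ k x, |τ' k x| ≤ 1 := by
    intro k x
    simp only [hτ']
    rw [abs_of_pos (by positivity), div_le_one (by positivity)]
    nlinarith [sq_nonneg (x / (k + 1 : ℝ))]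
  have hτlim : ∀ x, Tendsto (fun k => τ k x) atTop (𝓝 x) := tendsto_mul_arctan
  have hτ'lim : ∀ x, Tendsto (fun k => τ' k x) atTop (𝓝 1) := by
    intro x
    have h0 : Tendsto (fun k : ℕ => x / ((k : ℝ) + 1)) atTop (𝓝 0) :=
      (tendsto_const_nhds (x := x)).div_atTop
          (tendsto_atTop_add_const_right atTop (1:ℝ) (tendsto_natCast_atTop_atTop (R := ℝ)))
    have : Tendsto (fun k : ℕ => (1:ℝ) / (1 + (x / ((k : ℝ) + 1)) ^ 2)) atTop (𝓝 (1 / (1 + 0 ^ 2))) :=
      ((tendsto_const_nhds (x := (1:ℝ))).div ((tendsto_const_nhds (x := (1:ℝ))).add (h0.pow 2))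
      (by norm_num))
    simpa [hτ'] using this
  -- the inequality for each k
  have key : ∀ k, Ent (gaussianReal 0 1) (fun x => f (τ k x) ^ 2) ≤
      2 * ∫ x, (f' (τ k x) * τ' k x) ^ 2 ∂(gaussianReal 0 1) := by
    intro k
    refine gauss_lsi_unif (f := fun x => f (τ k x)) (f' := fun x => f' (τ k x) * τ' k x)
      (L := L * 1) hδ (fun x => (hf (τ k x)).comp x (hτd k x)) (fun x => h1 _) (fun x => h2 _) ?_ ?_
    · refine Continuous.uniformContinuous_of_tendsto_cocompact
        ((h3.comp (hτc k)).mul (hτ'c k)) (x := 0) ?_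
      have ht : Tendsto (fun x => L * |τ' k x|) (cocompact ℝ) (𝓝 0) := by
        have hk : (0:ℝ) < k + 1 := by positivity
        have e1 : Tendsto (fun x : ℝ => 1 + (x / (k + 1)) ^ 2) (cocompact ℝ) atTop := by
          have e2 : Tendsto (fun x : ℝ => ‖x‖) (cocompact ℝ) atTop := tendsto_norm_cocompact_atTop
          have e3 : Tendsto (fun y : ℝ => 1 + (y / (k + 1)) ^ 2) atTop atTop := by
            apply tendsto_atTop_add_const_left
            exact (tendsto_pow_atTop (by norm_num)).comp (tendsto_id.atTop_div_const hk)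
          refine (e3.comp e2).congr fun x => ?_
          simp only [Function.comp, Real.norm_eq_abs]
          rw [div_pow, sq_abs, ← div_pow]
        have e4 : Tendsto (fun x => τ' k x) (cocompact ℝ) (𝓝 0) := by
          simp only [hτ']
          exact (tendsto_const_nhds (x := (1:ℝ))).div_atTop e1
        simpa using (e4.abs.const_mul L)
      refine squeeze_zero_norm (fun x => ?_) ht
      rw [Real.norm_eq_abs, abs_mul]
      exact mul_le_mul_of_nonneg_right (h4 _) (abs_nonneg _)
    · intro x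
      rw [abs_mul]
      exact mul_le_mul (h4 _) (hτ'b _ _) (abs_nonneg _) hL
  -- limits
  have g1 : ∀ x, Tendsto (fun k => f (τ k x) ^ 2) atTop (𝓝 (f x ^ 2)) := fun x =>
    (((hfc.tendsto x).comp (hτlim x))).pow 2
  have l1 : Tendsto (fun k => ∫ x, f (τ k x) ^ 2 ∂(gaussianReal 0 1)) atTop
      (𝓝 (∫ x, f x ^ 2 ∂(gaussianReal 0 1))) := by
    refine tendsto_integral_of_dominated_convergence (fun _ => B ^ 2) (fun k => ?_)
      (integrable_const _) (fun k => Eventually.of_forall fun x => ?_)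
      (Eventually.of_forall g1)
    · exact ((hfc.comp (hτc k)).pow 2).aestronglyMeasurable
    · rw [Real.norm_eq_abs, abs_pow, abs_of_pos (hfp _)]
      exact pow_le_pow_left₀ (hfp _).le (h2 _) 2
  have l2 : Tendsto (fun k => ∫ x, (f' (τ k x) * τ' k x) ^ 2 ∂(gaussianReal 0 1)) atTop
      (𝓝 (∫ x, f' x ^ 2 ∂(gaussianReal 0 1))) := by
    refine tendsto_integral_of_dominated_convergence (fun _ => L ^ 2) (fun k => ?_)
      (integrable_const _) (fun k => Eventually.of_forall fun x => ?_)
      (Eventually.of_forall fun x => ?_)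
    · exact (((h3.comp (hτc k)).mul (hτ'c k)).pow 2).aestronglyMeasurable
    · rw [Real.norm_eq_abs, abs_pow, abs_mul]
      refine pow_le_pow_left₀ (by positivity) ?_ 2
      calc _ ≤ L * 1 := mul_le_mul (h4 _) (hτ'b _ _) (abs_nonneg _) hL
        _ = L := mul_one L
    · have := ((((h3.tendsto x).comp (hτlim x))).mul (hτ'lim x)).pow 2
      simpa using this
  have l3 : Tendsto (fun k => ∫ x, f (τ k x) ^ 2 * Real.log (f (τ k x) ^ 2) ∂(gaussianReal 0 1)) atTop
      (𝓝 (∫ x, f x ^ 2 * Real.log (f x ^ 2) ∂(gaussianReal 0 1))) := by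
    refine tendsto_integral_of_dominated_convergence
      (fun _ => B ^ 2 * (|Real.log (δ ^ 2)| + |Real.log (B ^ 2)|)) (fun k => ?_)
      (integrable_const _) (fun k => Eventually.of_forall fun x => ?_)
      (Eventually.of_forall fun x => ?_)
    · exact (((hfc.comp (hτc k)).pow 2).measurable.mul
        ((hfc.comp (hτc k)).pow 2).measurable.log).aestronglyMeasurable
    · rw [Real.norm_eq_abs, abs_mul, abs_pow, abs_of_pos (hfp _)]
      have e1 : f (τ k x) ^ 2 ≤ B ^ 2 := pow_le_pow_left₀ (hfp _).le (h2 _) 2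
      have e2 : δ ^ 2 ≤ f (τ k x) ^ 2 := pow_le_pow_left₀ hδ.le (h1 _) 2
      exact mul_le_mul e1 (abs_log_le (by positivity) e2 e1) (abs_nonneg _) (by positivity)
    · exact (g1 x).mul ((g1 x).log (pow_pos (hfp x) 2).ne')
  have hpos : (∫ x, f x ^ 2 ∂(gaussianReal 0 1)) ≠ 0 := by
    have hb : Bd (fun x => f x ^ 2) (δ ^ 2) (B ^ 2) := ⟨(hfc.pow 2).measurable, by positivity,
      fun x => pow_le_pow_left₀ hδ.le (h1 x) 2, fun x => pow_le_pow_left₀ (hfp x).le (h2 x) 2⟩
    have := hb.int_low (μ := gaussianReal 0 1)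
    have h0 : 0 < δ ^ 2 := by positivity
    exact (h0.trans_le this).ne'
  have l4 : Tendsto (fun k => Ent (gaussianReal 0 1) (fun x => f (τ k x) ^ 2))
      atTop (𝓝 (Ent (gaussianReal 0 1) (fun x => f x ^ 2))) := by
    unfold Ent
    exact l3.sub (l1.mul (l1.log hpos))
  exact le_of_tendsto_of_tendsto' l4 (l2.const_mul 2) key

end Q297.Lsi
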