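import Pool.Agent.Q297.LsiExp

open MeasureTheory Filter Topology ProbabilityTheory

namespace Q297.Lsi

/-- the integrand of the variational formula -/
noncomputable def vari (m g : ℝ) : ℝ := g * Real.log g - g * Real.log m - g + m

lemma vari_nonneg {m g : ℝ} (hm : 0 < m) (hg : 0 < g) : 0 ≤ vari m g := by
  unfold vari
  have h := Real.log_le_sub_one_of_pos (show 0 < m / g by positivity)
  rw [Real.log_div hm.ne' hg.ne'] at h
  have h2 : g * (Real.log m - Real.log g) ≤ g * (m / g - 1) := mul_le_mul_of_nonneg_left h hg.le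
  have h3 : g * (m / g - 1) = m - g := by field_simp
  linarith

lemma Bd.int_mul_log {α : Type*} [MeasurableSpace α] {μ : Measure α} [IsProbabilityMeasure μ]
    {g : α → ℝ} {c C : ℝ} (h : Bd g c C) : Integrable (fun x => g x * Real.log (g x)) μ := by
  refine int_of_bdd (B := C * (|Real.log c| + |Real.log C|)) (h.meas.mul h.meas.log) fun x => ?_
  rw [abs_mul, abs_of_pos (h.fpos x)]
  exact mul_le_mul (h.up x) (abs_log_le h.pos (h.low x) (h.up x)) (abs_nonneg _)
    ((h.fpos x).le.trans (h.up x))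

lemma vari_int {α : Type*} [MeasurableSpace α] {μ : Measure α} [IsProbabilityMeasure μ]
    {g : α → ℝ} {c C : ℝ} (h : Bd g c C) (m : ℝ) : Integrable (fun x => vari m (g x)) μ := by
  unfold vari
  exact ((h.int_mul_log.sub (h.integrable.mul_const _)).sub h.integrable).add (integrable_const _)

lemma integral_vari {α : Type*} [MeasurableSpace α] {μ : Measure α} [IsProbabilityMeasure μ]
    {g : α → ℝ} {c C : ℝ} (h : Bd g c C) (m : ℝ) :
    ∫ x, vari m (g x) ∂μ = ∫ x, g x * Real.log (g x) ∂μ - (∫ x, g x ∂μ) * Real.log m -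
      (∫ x, g x ∂μ) + m := by
  unfold vari
  have i1 : Integrable (fun x => g x * Real.log (g x)) μ := h.int_mul_log
  have i2 : Integrable (fun x => g x * Real.log m) μ := h.integrable.mul_const _
  have i3 : Integrable (fun x => g x) μ := h.integrable
  have i4 : Integrable (fun x => g x * Real.log (g x) - g x * Real.log m) μ := i1.sub i2
  have i5 : Integrable (fun x => g x * Real.log (g x) - g x * Real.log m - g x) μ := i4.sub i3
  rw [integral_add i5 (integrable_const _), integral_sub i4 i3, integral_sub i1 i2,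
    integral_mul_const, integral_const, probReal_univ, one_smul]

lemma Ent_eq_vari {α : Type*} [MeasurableSpace α] {μ : Measure α} [IsProbabilityMeasure μ]
    {g : α → ℝ} {c C : ℝ} (h : Bd g c C) :
    Ent μ g = ∫ x, vari (∫ x, g x ∂μ) (g x) ∂μ := by
  rw [integral_vari h]
  unfold Ent
  ring

lemma Ent_le_vari {α : Type*} [MeasurableSpace α] {μ : Measure α} [IsProbabilityMeasure μ]
    {g : α → ℝ} {c C : ℝ} (h : Bd g c C) {m : ℝ} (hm : 0 < m) :
    Ent μ g ≤ ∫ x, vari m (g x) ∂μ := by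
  rw [integral_vari h]
  unfold Ent
  have h2 := vari_nonneg hm (h.pos.trans_le (h.int_low (μ := μ)))
  unfold vari at h2
  linarith

/-- integral comparison -/
lemma int_le_of_le {α : Type*} [MeasurableSpace α] {μ ν : Measure α} [IsFiniteMeasure μ]
    {A : ℝ} (hA : 0 ≤ A) (h : ν ≤ ENNReal.ofReal A • μ) {g : α → ℝ} (hg : ∀ x, 0 ≤ g x)
    (hi : Integrable g μ) : ∫ x, g x ∂ν ≤ A * ∫ x, g x ∂μ := by
  have h1 := integral_mono_measure h (Eventually.of_forall hg) (hi.smul_measure ENNReal.ofReal_ne_top)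
  rwa [integral_smul_measure, ENNReal.toReal_ofReal hA, smul_eq_mul] at h1

/-- **Holley–Stroock perturbation** -/
theorem holley {μ ν : Measure ℝ} [IsProbabilityMeasure μ] [IsProbabilityMeasure ν] {C A B : ℝ}
    (hA : 0 ≤ A) (hB : 0 ≤ B) (hC : 0 ≤ C)
    (h1 : ν ≤ ENNReal.ofReal A • μ) (h2 : μ ≤ ENNReal.ofReal B • ν) (h : LSI1 μ C) :
    LSI1 ν (A * B * C) := by
  intro f f' δ M L hδ hf g1 g2 g3 g4
  have hfc : Continuous f := continuous_iff_continuousAt.2 fun x => (hf x).continuousAt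
  have hb : Bd (fun x => f x ^ 2) (δ ^ 2) (M ^ 2) := ⟨hfc.measurable.pow_const 2, by positivity,
      fun x => pow_le_pow_left₀ hδ.le (g1 x) 2,
      fun x => pow_le_pow_left₀ (hδ.le.trans (g1 x)) (g2 x) 2⟩
  have hm : 0 < ∫ x, f x ^ 2 ∂μ := hb.pos.trans_le hb.int_low
  have hf'i : Integrable (fun x => f' x ^ 2) ν := 
    int_of_bdd (B := L ^ 2) (g3.measurable.pow_const 2) fun x => by
      rw [abs_pow]; exact pow_le_pow_left₀ (abs_nonneg _) (g4 x) 2
  calc Ent ν (fun x => f x ^ 2) ≤ ∫ x, vari (∫ x, f x ^ 2 ∂μ) (f x ^ 2) ∂ν := Ent_le_vari hb hm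
    _ ≤ A * ∫ x, vari (∫ x, f x ^ 2 ∂μ) (f x ^ 2) ∂μ :=
        int_le_of_le hA h1 (fun x => vari_nonneg hm (hb.fpos x)) (vari_int hb _)
    _ = A * Ent μ (fun x => f x ^ 2) := by rw [← Ent_eq_vari hb]
    _ ≤ A * (C * ∫ x, f' x ^ 2 ∂μ) :=
        mul_le_mul_of_nonneg_left (h f f' δ M L hδ hf g1 g2 g3 g4) hA
    _ ≤ A * (C * (B * ∫ x, f' x ^ 2 ∂ν)) := by
        refine mul_le_mul_of_nonneg_left (mul_le_mul_of_nonneg_left ?_ hC) hA
        exact int_le_of_le hB h2 (fun x => sq_nonneg _) hf'i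
    _ = A * B * C * ∫ x, f' x ^ 2 ∂ν := by ring

end Q297.Lsi
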