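import Pool.Agent.Q297.LsiMulti

open MeasureTheory Filter Topology ProbabilityTheory

namespace Q297.Lsi

/-- the standard Gaussian measure on `ℝⁿ` -/
noncomputable abbrev gpi (n : ℕ) : Measure (Fin n → ℝ) := Measure.pi (fun _ => gaussianReal 0 1)

/-- Gaussian log-Sobolev inequality on `ℝⁿ` -/
theorem gauss_lsi {n : ℕ} {F : (Fin n → ℝ) → ℝ} {D : Fin n → (Fin n → ℝ) → ℝ} {L B : ℝ}
    (hF : CC1 F D L) (h2 : ∀ x, |F x| ≤ B) :
    Ent (gpi n) (fun x => F x ^ 2) ≤ 2 * ∑ i, ∫ x, D i x ^ 2 ∂(gpi n) := by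
  rw [Finset.mul_sum]
  exact lsi_pi (fun _ => gaussianReal 0 1) (fun _ => by norm_num) (fun _ => gauss_lsi1) hF h2

lemma Ent_map {α β : Type*} [MeasurableSpace α] [MeasurableSpace β] {μ : Measure α} {T : α → β}
    (hT : Measurable T) {f : β → ℝ} (hf : Measurable f) :
    Ent (μ.map T) f = Ent μ (fun x => f (T x)) := by
  have h1 : ∫ y, f y * Real.log (f y) ∂(μ.map T) = ∫ x, f (T x) * Real.log (f (T x)) ∂μ :=
    integral_map hT.aemeasurable (hf.mul hf.log).aestronglyMeasurable
  unfold Ent
  rw [integral_map hT.aemeasurable hf.aestronglyMeasurable, h1]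

/-- log-Sobolev inequality for images of the Gaussian measure -/
theorem lsi1_map {n : ℕ} {T : (Fin n → ℝ) → ℝ} {D : Fin n → (Fin n → ℝ) → ℝ} {L κ : ℝ}
    (hT : CC1 T D L) (hκ : ∀ x, ∑ i, D i x ^ 2 ≤ κ) : LSI1 ((gpi n).map T) (2 * κ) := by
  intro f f' δ B M hδ hf h1 h2 h3 h4
  have hfc : Continuous f := continuous_iff_continuousAt.2 fun x => (hf x).continuousAt
  have hM : 0 ≤ M := (abs_nonneg _).trans (h4 0)
  rw [Ent_map hT.measF (hfc.measurable.pow_const 2)]
  have hG : CC1 (fun x => f (T x)) (fun i x => f' (T x) * D i x) (M * L) := by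
    refine ⟨hfc.measurable.comp hT.measF, fun i => ?_, fun x i t => ?_, fun x i => ?_, fun i x => ?_⟩
    · exact (h3.measurable.comp hT.measF).mul (hT.measD i)
    · exact (hf _).comp t (hT.deriv x i t)
    · have hc : Continuous (fun t => T (Function.update x i t)) :=
        continuous_iff_continuousAt.2 fun t => (hT.deriv x i t).continuousAt
      exact (h3.comp hc).mul (hT.cont x i)
    · rw [abs_mul]
      exact mul_le_mul (h4 _) (hT.bound i x) (abs_nonneg _) hM
  refine (gauss_lsi hG (B := B) (fun x => by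
    rw [abs_of_pos (hδ.trans_le (h1 _))]; exact h2 _)).trans ?_
  have hi : ∀ i, Integrable (fun x => (f' (T x) * D i x) ^ 2) (gpi n) := fun i =>
    int_of_bdd (B := (M * L) ^ 2) ((hG.measD i).pow_const 2) fun x => by
      rw [abs_pow]; exact pow_le_pow_left₀ (abs_nonneg _) (hG.bound i x) 2
  rw [mul_assoc, ← integral_finsetSum _ fun i _ => hi i]
  refine mul_le_mul_of_nonneg_left ?_ (by norm_num)
  rw [← integral_const_mul, integral_map hT.measF.aemeasurable (by
    exact ((h3.measurable.pow_const 2).const_mul κ).aestronglyMeasurable)]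
  apply integral_mono (integrable_finsetSum _ fun i _ => hi i)
  · refine int_of_bdd (B := |κ| * M ^ 2)
      (((h3.measurable.comp hT.measF).pow_const 2).const_mul κ) fun x => ?_
    rw [abs_mul, abs_pow]
    exact mul_le_mul_of_nonneg_left (pow_le_pow_left₀ (abs_nonneg _) (h4 _) 2) (abs_nonneg _)
  · intro x
    simp only [mul_pow]
    rw [← Finset.mul_sum, mul_comm]
    exact mul_le_mul_of_nonneg_right (hκ x) (sq_nonneg _)

/-! ### The Gaussian distribution function -/

/-- twice the Gaussian density -/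
noncomputable def psi' (x : ℝ) : ℝ := 2 * gaussianPDFReal 0 1 x

lemma psi'_cont : Continuous psi' := by
  unfold psi'
  exact continuous_const.mul (by unfold gaussianPDFReal; fun_prop)

lemma psi'_pos (x : ℝ) : 0 < psi' x := by
  unfold psi'
  have := gaussianPDFReal_pos 0 1 x one_ne_zero
  positivity

lemma psi'_le (x : ℝ) : psi' x ≤ 1 := by
  unfold psi'
  rw [gaussianPDFReal]
  simp only [NNReal.coe_one, mul_one, sub_zero]
  have h1 : Real.exp (-x ^ 2 / 2) ≤ 1 := by
    rw [Real.exp_le_one_iff]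
    nlinarith [sq_nonneg x]
  have h2 : 2 ≤ Real.sqrt (2 * Real.pi) := by
    apply Real.le_sqrt_of_sq_le
    nlinarith [Real.pi_gt_three]
  have h3 : (Real.sqrt (2 * Real.pi))⁻¹ ≤ 2⁻¹ := inv_anti₀ (by norm_num) h2
  have h4 : 0 < (Real.sqrt (2 * Real.pi))⁻¹ := by positivity
  nlinarith [Real.exp_pos (-x ^ 2 / 2)]

/-- the odd primitive of `psi'`: twice the distribution function minus one -/
noncomputable def psi (x : ℝ) : ℝ := ∫ t in (0:ℝ)..x, psi' t

lemma psi_deriv (x : ℝ) : HasDerivAt psi (psi' x) x :=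
  intervalIntegral.integral_hasDerivAt_right (psi'_cont.intervalIntegrable _ _)
    psi'_cont.stronglyMeasurable.stronglyMeasurableAtFilter psi'_cont.continuousAt

lemma psi_cont : Continuous psi := continuous_iff_continuousAt.2 fun x => (psi_deriv x).continuousAt

lemma psi_mono : StrictMono psi := by
  apply strictMono_of_deriv_pos
  intro x
  rw [(psi_deriv x).deriv]
  exact psi'_pos x

lemma psi'_int : Integrable psi' := (integrable_gaussianPDFReal 0 1).const_mul 2

lemma psi'_even (x : ℝ) : psi' (-x) = psi' x := by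
  unfold psi' gaussianPDFReal
  simp

lemma psi_odd (x : ℝ) : psi (-x) = - psi x := by
  unfold psi
  have := intervalIntegral.integral_comp_neg (a := 0) (b := x) psi'
  simp only [psi'_even, neg_zero] at this
  rw [this, intervalIntegral.integral_symm]
  
lemma psi'_Ioi : ∫ x in Set.Ioi (0:ℝ), psi' x = 1 := by
  have h1 : ∫ x, psi' x = 2 := by
    unfold psi'
    rw [integral_const_mul, integral_gaussianPDFReal_eq_one 0 one_ne_zero, mul_one]
  have h2 : ∫ x in Set.Iic (0:ℝ), psi' x = ∫ x in Set.Ioi (0:ℝ), psi' x := by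
    have := integral_comp_neg_Iic (0:ℝ) psi'
    simpa only [psi'_even, neg_zero] using this
  have h3 := intervalIntegral.integral_Iic_add_Ioi (b := (0:ℝ)) psi'_int.integrableOn psi'_int.integrableOn
  linarith

lemma psi_top : Tendsto psi atTop (𝓝 1) := by
  have := intervalIntegral_tendsto_integral_Ioi (0:ℝ) (psi'_int.integrableOn (s := Set.Ioi 0)) tendsto_id
  rwa [psi'_Ioi] at this

lemma psi_bot : Tendsto psi atBot (𝓝 (-1)) := by
  have := (psi_top.comp tendsto_neg_atBot_atTop).neg
  refine this.congr fun x => ?_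
  simp [psi_odd]

lemma psi_lt (x : ℝ) : psi x < 1 := by
  have h1 : psi x < psi (x + 1) := psi_mono (by linarith)
  have h2 : psi (x + 1) ≤ 1 := psi_mono.monotone.ge_of_tendsto psi_top (x + 1)
  linarith

lemma lt_psi (x : ℝ) : -1 < psi x := by
  have := psi_lt (-x)
  rw [psi_odd] at this
  linarith

lemma psi_abs (x : ℝ) : |psi x| ≤ 1 := abs_le.2 ⟨(lt_psi x).le, (psi_lt x).le⟩

lemma psi_range : psi '' Set.univ = Set.Ioo (-1) 1 := by
  ext y
  constructor
  · rintro ⟨x, -, rfl⟩
    exact ⟨lt_psi x, psi_lt x⟩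
  · rintro ⟨h1, h2⟩
    obtain ⟨a, ha⟩ := ((psi_bot.eventually (gt_mem_nhds h1)).exists)
    obtain ⟨b, hb⟩ := ((psi_top.eventually (lt_mem_nhds h2)).exists)
    have hab : a < b := psi_mono.lt_iff_lt.1 (ha.trans hb)
    obtain ⟨c, -, hc⟩ := intermediate_value_Icc hab.le psi_cont.continuousOn ⟨ha.le, hb.le⟩
    exact ⟨c, trivial, hc⟩

/-- uniform measure on `(-1,1)` -/
noncomputable def unif : Measure ℝ := (2⁻¹ : ENNReal) • volume.restrict (Set.Ioo (-1:ℝ) 1)

instance : IsProbabilityMeasure unif := ⟨by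
  unfold unif
  rw [Measure.smul_apply, Measure.restrict_apply_univ, Real.volume_Ioo]
  norm_num
  exact ENNReal.inv_mul_cancel (by simp) (by simp)⟩

lemma map_psi : (gaussianReal 0 1).map psi = unif := by
  refine Measure.ext_of_lintegral _ fun g hg => ?_
  have hgp : Measurable (fun x => g (psi x)) := hg.comp psi_cont.measurable
  rw [lintegral_map hg psi_cont.measurable, gaussianReal_of_var_ne_zero 0 one_ne_zero,
    lintegral_withDensity_eq_lintegral_mul _ (measurable_gaussianPDF 0 1) hgp]
  unfold unif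
  rw [lintegral_smul_measure, ← psi_range, lintegral_image_eq_lintegral_abs_deriv_mul
    MeasurableSet.univ (fun x _ => (psi_deriv x).hasDerivWithinAt) psi_mono.injective.injOn g,
    Measure.restrict_univ, smul_eq_mul, ← lintegral_const_mul _ (by
      exact (psi'_cont.measurable.abs.ennreal_ofReal).mul (hg.comp psi_cont.measurable))]
  refine lintegral_congr fun x => ?_
  simp only [Pi.mul_apply]
  rw [← mul_assoc]
  congr 1
  rw [abs_of_pos (psi'_pos x), psi', ENNReal.ofReal_mul (by norm_num), ← mul_assoc, gaussianPDF]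
  have : (2⁻¹ : ENNReal) * ENNReal.ofReal 2 = 1 := by
    rw [ENNReal.ofReal_ofNat]
    exact ENNReal.inv_mul_cancel (by simp) (by simp)
  rw [this, one_mul]

end Q297.Lsi
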