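import Pool.Agent.Q297.LsiGauss

open MeasureTheory Filter Topology ProbabilityTheory

namespace Q297.Lsi

/-- resampling one coordinate preserves a product measure -/
lemma update_mp {n : ℕ} (μ : Fin n → Measure ℝ) [∀ i, IsProbabilityMeasure (μ i)] (i : Fin n) :
    MeasurePreserving (fun p : (Fin n → ℝ) × ℝ => Function.update p.1 i p.2)
      ((Measure.pi μ).prod (μ i)) (Measure.pi μ) := by
  refine ⟨measurable_update', ?_⟩
  symm
  refine Measure.pi_eq fun s hs => ?_
  rw [Measure.map_apply measurable_update' (MeasurableSet.univ_pi hs)]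
  have : (fun p : (Fin n → ℝ) × ℝ => Function.update p.1 i p.2) ⁻¹' (Set.univ.pi s) =
      (Set.univ.pi (Function.update s i Set.univ)) ×ˢ (s i) := by
    ext ⟨x, t⟩
    simp only [Set.mem_preimage, Set.mem_pi, Set.mem_univ, true_implies, Set.mem_prod]
    constructor
    · intro h
      refine ⟨fun j => ?_, ?_⟩
      · by_cases hj : j = i
        · subst hj; simp
        · have := h j
          rw [Function.update_of_ne hj] at this ⊢
          exact this
      · have := h i
        rwa [Function.update_self] at this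
    · rintro ⟨h1, h2⟩ j
      by_cases hj : j = i
      · subst hj; simpa using h2
      · have := h1 j
        rw [Function.update_of_ne hj] at this ⊢
        exact this
  rw [this, Measure.prod_prod, Measure.pi_pi, ← Finset.mul_prod_erase Finset.univ _ (Finset.mem_univ i),
    ← Finset.mul_prod_erase Finset.univ (fun i => μ i (s i)) (Finset.mem_univ i),
    Function.update_self, measure_univ, one_mul, mul_comm]
  congr 1
  refine Finset.prod_congr rfl fun j hj => ?_
  rw [Function.update_of_ne (Finset.ne_of_mem_erase hj)]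

/-- coordinatewise `C¹` functions with bounded partial derivatives -/
structure CC1 {n : ℕ} (F : (Fin n → ℝ) → ℝ) (D : Fin n → (Fin n → ℝ) → ℝ) (L : ℝ) : Prop where
  measF : Measurable F
  measD : ∀ i, Measurable (D i)
  deriv : ∀ x i t, HasDerivAt (fun s => F (Function.update x i s)) (D i (Function.update x i t)) t
  cont : ∀ x i, Continuous (fun t => D i (Function.update x i t))
  bound : ∀ i x, |D i x| ≤ L

theorem lsi_pi_pos {n : ℕ} (μ : Fin n → Measure ℝ) [∀ i, IsProbabilityMeasure (μ i)]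
    {C : Fin n → ℝ} (hμ : ∀ i, LSI1 (μ i) (C i))
    {F : (Fin n → ℝ) → ℝ} {D : Fin n → (Fin n → ℝ) → ℝ} {L δ B : ℝ} (hF : CC1 F D L)
    (hδ : 0 < δ) (h1 : ∀ x, δ ≤ F x) (h2 : ∀ x, F x ≤ B) :
    Ent (Measure.pi μ) (fun x => F x ^ 2) ≤ ∑ i, C i * ∫ x, D i x ^ 2 ∂(Measure.pi μ) := by
  have hb : Bd (fun x => F x ^ 2) (δ ^ 2) (B ^ 2) := ⟨hF.measF.pow_const 2, by positivity,
      fun x => pow_le_pow_left₀ hδ.le (h1 x) 2,
      fun x => pow_le_pow_left₀ (hδ.le.trans (h1 x)) (h2 x) 2⟩
  refine (Ent_pi μ hb).trans (Finset.sum_le_sum fun i _ => ?_)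
  have hD2 : Integrable (fun x => D i x ^ 2) (Measure.pi μ) :=
    int_of_bdd (B := L ^ 2) ((hF.measD i).pow_const 2) fun x => by
      rw [abs_pow]; exact pow_le_pow_left₀ (abs_nonneg _) (hF.bound i x) 2
  have hD3 : Integrable (fun p : (Fin n → ℝ) × ℝ => D i (Function.update p.1 i p.2) ^ 2)
      ((Measure.pi μ).prod (μ i)) :=
    (update_mp μ i).integrable_comp_of_integrable (g := fun x => D i x ^ 2) hD2
  have e1 : ∫ x, D i x ^ 2 ∂(Measure.pi μ) =
      ∫ x, ∫ t, D i (Function.update x i t) ^ 2 ∂(μ i) ∂(Measure.pi μ) := by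
    rw [← integral_prod (fun p : (Fin n → ℝ) × ℝ => D i (Function.update p.1 i p.2) ^ 2) hD3]
    have := integral_map (μ := (Measure.pi μ).prod (μ i)) (f := fun x => D i x ^ 2)
      (update_mp μ i).measurable.aemeasurable (by
        rw [(update_mp μ i).map_eq]
        exact ((hF.measD i).pow_const 2).aestronglyMeasurable)
    rw [(update_mp μ i).map_eq] at this
    exact this
  rw [e1, ← integral_const_mul]
  apply integral_mono (EntI_int hb i)
  · exact hD3.integral_prod_left.const_mul _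
  · intro x
    exact hμ i (fun t => F (Function.update x i t)) (fun t => D i (Function.update x i t)) δ B L hδ
      (fun t => hF.deriv x i t) (fun t => h1 _) (fun t => h2 _) (hF.cont x i)
      (fun t => hF.bound i _)

/-- entropies of `F² + ε` converge -/
lemma Ent_tendsto {α : Type*} [MeasurableSpace α] {μ : Measure α} [IsProbabilityMeasure μ]
    {F : α → ℝ} {B : ℝ} (hF : Measurable F) (h2 : ∀ x, |F x| ≤ B) :
    Tendsto (fun k : ℕ => Ent μ (fun x => F x ^ 2 + 1 / ((k : ℝ) + 1))) atTop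
      (𝓝 (Ent μ (fun x => F x ^ 2))) := by
  have hF2 : ∀ x, F x ^ 2 ≤ B ^ 2 := fun x => by
    rw [← sq_abs]; exact pow_le_pow_left₀ (abs_nonneg _) (h2 x) 2
  have hk : ∀ k : ℕ, 0 < 1 / ((k : ℝ) + 1) := fun k => by positivity
  have hk1 : ∀ k : ℕ, 1 / ((k : ℝ) + 1) ≤ 1 := fun k => by
    rw [div_le_one (by positivity)]; linarith [(Nat.cast_nonneg k : (0:ℝ) ≤ k)]
  have hlim : Tendsto (fun k : ℕ => 1 / ((k : ℝ) + 1)) atTop (𝓝 0) :=
    tendsto_one_div_add_atTop_nhds_zero_nat
  have g1 : ∀ x, Tendsto (fun k : ℕ => F x ^ 2 + 1 / ((k : ℝ) + 1)) atTop (𝓝 (F x ^ 2)) := fun x => by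
    have := hlim.const_add (F x ^ 2)
    simpa using this
  have l1 : Tendsto (fun k : ℕ => ∫ x, (F x ^ 2 + 1 / ((k : ℝ) + 1)) ∂μ) atTop
      (𝓝 (∫ x, F x ^ 2 ∂μ)) := by
    refine tendsto_integral_of_dominated_convergence (fun _ => B ^ 2 + 1) (fun k => ?_)
      (integrable_const _) (fun k => Eventually.of_forall fun x => ?_)
      (Eventually.of_forall g1)
    · exact ((hF.pow_const 2).add_const _).aestronglyMeasurable
    · have := hk k
      rw [Real.norm_eq_abs, abs_of_pos (by positivity)]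
      exact add_le_add (hF2 x) (hk1 k)
  obtain ⟨M, hM⟩ := (isCompact_Icc (a := (0:ℝ)) (b := B ^ 2 + 1)).exists_bound_of_continuousOn
    (f := fun t => t * Real.log t) Real.continuous_mul_log.continuousOn
  have l3 : Tendsto (fun k : ℕ => ∫ x, (F x ^ 2 + 1 / ((k : ℝ) + 1)) *
      Real.log (F x ^ 2 + 1 / ((k : ℝ) + 1)) ∂μ) atTop
      (𝓝 (∫ x, F x ^ 2 * Real.log (F x ^ 2) ∂μ)) := by
    refine tendsto_integral_of_dominated_convergence (fun _ => M) (fun k => ?_)
      (integrable_const _) (fun k => Eventually.of_forall fun x => ?_)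
      (Eventually.of_forall fun x => ?_)
    · exact (Real.continuous_mul_log.measurable.comp
        ((hF.pow_const 2).add_const _)).aestronglyMeasurable
    · have := hk k
      exact hM _ ⟨by positivity, add_le_add (hF2 x) (hk1 k)⟩
    · exact (Real.continuous_mul_log.tendsto _).comp (g1 x)
  unfold Ent
  exact l3.sub ((Real.continuous_mul_log.tendsto _).comp l1)

/-- log-Sobolev inequality for product measures, bounded functions -/
theorem lsi_pi {n : ℕ} (μ : Fin n → Measure ℝ) [∀ i, IsProbabilityMeasure (μ i)]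
    {C : Fin n → ℝ} (hC : ∀ i, 0 ≤ C i) (hμ : ∀ i, LSI1 (μ i) (C i))
    {F : (Fin n → ℝ) → ℝ} {D : Fin n → (Fin n → ℝ) → ℝ} {L B : ℝ} (hF : CC1 F D L)
    (h2 : ∀ x, |F x| ≤ B) :
    Ent (Measure.pi μ) (fun x => F x ^ 2) ≤ ∑ i, C i * ∫ x, D i x ^ 2 ∂(Measure.pi μ) := by
  refine le_of_tendsto' (Ent_tendsto (μ := Measure.pi μ) hF.measF h2) fun k => ?_
  set ε : ℝ := 1 / ((k : ℝ) + 1) with hε
  have hε0 : 0 < ε := by positivity
  have hsq : ∀ x, Real.sqrt (F x ^ 2 + ε) ^ 2 = F x ^ 2 + ε := fun x =>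
    Real.sq_sqrt (by positivity)
  have hsp : ∀ x, 0 < Real.sqrt (F x ^ 2 + ε) := fun x => Real.sqrt_pos.2 (by positivity)
  have hratio : ∀ x, |F x / Real.sqrt (F x ^ 2 + ε)| ≤ 1 := by
    intro x
    rw [abs_div, abs_of_pos (hsp x), div_le_one (hsp x)]
    apply Real.abs_le_sqrt
    linarith
  have hG : CC1 (fun x => Real.sqrt (F x ^ 2 + ε))
      (fun i x => F x / Real.sqrt (F x ^ 2 + ε) * D i x) L := by
    refine ⟨((hF.measF.pow_const 2).add_const _).sqrt, fun i => ?_, fun x i t => ?_, fun x i => ?_,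
      fun i x => ?_⟩
    · exact (hF.measF.div ((hF.measF.pow_const 2).add_const _).sqrt).mul (hF.measD i)
    · have h := (((hF.deriv x i t).pow 2).add_const ε).sqrt (by
        simp only [Pi.pow_apply]
        positivity)
      refine h.congr_deriv ?_
      simp only [Pi.pow_apply]
      field_simp
      push_cast
      ring
    · have hc : Continuous (fun t => F (Function.update x i t)) :=
        continuous_iff_continuousAt.2 fun t => (hF.deriv x i t).continuousAt
      exact (hc.div ((hc.pow 2).add continuous_const).sqrt fun t => (hsp _).ne').mul (hF.cont x i)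
    · rw [abs_mul]
      calc _ ≤ 1 * L := mul_le_mul (hratio x) (hF.bound i x) (abs_nonneg _) zero_le_one
        _ = L := one_mul L
  have hb0 : ∀ x, F x ^ 2 ≤ B ^ 2 := fun x => by
    rw [← sq_abs]; exact pow_le_pow_left₀ (abs_nonneg _) (h2 x) 2
  have h := lsi_pi_pos μ hμ hG (δ := Real.sqrt ε) (B := Real.sqrt (B ^ 2 + ε)) (Real.sqrt_pos.2 hε0)
    (fun x => Real.sqrt_le_sqrt (by nlinarith [sq_nonneg (F x)]))
    (fun x => Real.sqrt_le_sqrt (by linarith [hb0 x]))
  simp only [hsq] at h
  refine h.trans (Finset.sum_le_sum fun i _ => mul_le_mul_of_nonneg_left ?_ (hC i))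
  apply integral_mono_of_nonneg
  · exact Eventually.of_forall fun x => sq_nonneg _
  · exact int_of_bdd (B := L ^ 2) ((hF.measD i).pow_const 2) fun x => by
      rw [abs_pow]; exact pow_le_pow_left₀ (abs_nonneg _) (hF.bound i x) 2
  · refine Eventually.of_forall fun x => ?_
    simp only
    rw [mul_pow, ← sq_abs (F x / Real.sqrt (F x ^ 2 + ε))]
    have h1 : |F x / Real.sqrt (F x ^ 2 + ε)| ^ 2 ≤ 1 := by
      have := pow_le_pow_left₀ (abs_nonneg _) (hratio x) 2
      simpa using this
    calc _ ≤ 1 * D i x ^ 2 := mul_le_mul_of_nonneg_right h1 (sq_nonneg _)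
      _ = _ := one_mul _

end Q297.Lsi
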