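import Pool.Agent.Q297.LsiTens

open MeasureTheory Filter Topology

namespace Q297.Lsi

variable {α : Type*} [MeasurableSpace α]

lemma Ent_mp {β : Type*} [MeasurableSpace β] {μ : Measure α} {ν : Measure β} {e : α ≃ᵐ β}
    (h : MeasurePreserving e μ ν) (f : β → ℝ) : Ent ν f = Ent μ (fun x => f (e x)) := by
  unfold Ent
  rw [h.integral_comp' (g := fun y => f y * Real.log (f y)), h.integral_comp' (g := f)]

/-- bound of the entropy -/
lemma Ent_abs_le {μ : Measure α} [IsProbabilityMeasure μ] {f : α → ℝ} {c C : ℝ} (h : Bd f c C) :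
    |Ent μ f| ≤ 2 * (C * (|Real.log c| + |Real.log C|)) := by
  obtain ⟨x0⟩ := Bd.cC (μ := μ) h
  have hC0 : 0 ≤ C := (h.fpos x0).le.trans (h.up x0)
  set B : ℝ := |Real.log c| + |Real.log C| with hB
  have h1 : |∫ x, f x * Real.log (f x) ∂μ| ≤ C * B := by
    have := norm_integral_le_of_norm_le_const (μ := μ) (C := C * B)
      (f := fun x => f x * Real.log (f x)) (Eventually.of_forall fun x => by
        rw [Real.norm_eq_abs, abs_mul]
        refine mul_le_mul ?_ (abs_log_le h.pos (h.low x) (h.up x)) (abs_nonneg _) hC0
        rw [abs_of_pos (h.fpos x)]; exact h.up x)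
    rwa [probReal_univ, mul_one] at this
  have h2 : |(∫ x, f x ∂μ) * Real.log (∫ x, f x ∂μ)| ≤ C * B := by
    rw [abs_mul]
    refine mul_le_mul ?_ (abs_log_le h.pos h.int_low h.int_up) (abs_nonneg _) hC0
    rw [abs_of_pos (h.pos.trans_le h.int_low)]
    exact h.int_up
  unfold Ent
  have := abs_sub (∫ x, f x * Real.log (f x) ∂μ) ((∫ x, f x ∂μ) * Real.log (∫ x, f x ∂μ))
  linarith

lemma Ent_meas {β : Type*} [MeasurableSpace β] {ν : Measure β} [IsProbabilityMeasure ν]
    {f : α × β → ℝ} (hf : Measurable f) : Measurable fun x => Ent ν (fun y => f (x, y)) := by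
  unfold Ent
  have h1 : Measurable fun x => ∫ y, f (x, y) * Real.log (f (x, y)) ∂ν :=
    meas_int_right (f := fun z : α × β => f z * Real.log (f z)) (hf.mul hf.log)
  have h2 : Measurable fun x => ∫ y, f (x, y) ∂ν := meas_int_right hf
  exact h1.sub (h2.mul h2.log)

/-- one-coordinate entropy -/
noncomputable def EntI {n : ℕ} (μ : Fin n → Measure α) (f : (Fin n → α) → ℝ) (i : Fin n)
    (x : Fin n → α) : ℝ := Ent (μ i) (fun t => f (Function.update x i t))

lemma EntI_meas {n : ℕ} {μ : Fin n → Measure α} [∀ i, IsProbabilityMeasure (μ i)]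
    {f : (Fin n → α) → ℝ} (hf : Measurable f) (i : Fin n) : Measurable (EntI μ f i) := by
  unfold EntI
  exact Ent_meas (f := fun p : (Fin n → α) × α => f (Function.update p.1 i p.2))
    (hf.comp measurable_update')

lemma Bd.upd {n : ℕ} {f : (Fin n → α) → ℝ} {c C : ℝ} (h : Bd f c C) (x : Fin n → α) (i : Fin n) :
    Bd (fun t => f (Function.update x i t)) c C :=
  ⟨h.meas.comp (measurable_update x), h.pos, fun _ => h.low _, fun _ => h.up _⟩

lemma EntI_int {n : ℕ} {μ : Fin n → Measure α} [∀ i, IsProbabilityMeasure (μ i)]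
    {f : (Fin n → α) → ℝ} {c C : ℝ} (h : Bd f c C) (i : Fin n) {ρ : Measure (Fin n → α)}
    [IsProbabilityMeasure ρ] : Integrable (EntI μ f i) ρ :=
  int_of_bdd (EntI_meas h.meas i) fun x => Ent_abs_le (h.upd x i)

/-- **Tensorisation of entropy.** -/
theorem Ent_pi {n : ℕ} (μ : Fin n → Measure α) [∀ i, IsProbabilityMeasure (μ i)]
    {f : (Fin n → α) → ℝ} {c C : ℝ} (h : Bd f c C) :
    Ent (Measure.pi μ) f ≤ ∑ i, ∫ x, EntI μ f i x ∂(Measure.pi μ) := by
  induction n with
  | zero =>
    rw [Finset.univ_eq_empty, Finset.sum_empty]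
    have hc : f = fun _ => f (fun i => i.elim0) := by
      funext x
      congr 1
      exact Subsingleton.elim _ _
    rw [hc]
    unfold Ent
    rw [integral_const, integral_const, probReal_univ, one_smul, one_smul, sub_self]
  | succ n ih =>
    set e := MeasurableEquiv.piFinSuccAbove (fun _ : Fin (n + 1) => α) 0 with he
    have hmp := measurePreserving_piFinSuccAbove μ 0
    have hsucc : (fun j : Fin n => μ ((0 : Fin (n + 1)).succAbove j)) = fun j => μ j.succ := by
      funext j; rw [Fin.zero_succAbove]
    rw [hsucc] at hmp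
    set ν := Measure.pi (fun j : Fin n => μ j.succ) with hν
    set F : α × (Fin n → α) → ℝ := fun p => f (Fin.cons p.1 p.2) with hF
    have hecons : ∀ x : Fin (n + 1) → α, Fin.cons (e x).1 (e x).2 = x := by
      intro x
      have : e x = (x 0, fun j => x j.succ) := by
        rw [he]
        ext
        · rfl
        · rfl
      rw [this]
      exact Fin.cons_self_tail x
    have hFe : ∀ x, F (e x) = f x := by
      intro x
      simp only [hF]
      rw [hecons]
    have hconsm : Measurable fun p : α × (Fin n → α) => (Fin.cons p.1 p.2 : Fin (n + 1) → α) := by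
      apply measurable_pi_lambda
      intro j
      refine Fin.cases ?_ (fun j => ?_) j
      · simpa using measurable_fst
      · simp only [Fin.cons_succ]
        exact (measurable_pi_apply j).comp measurable_snd
    have hFb : Bd F c C := ⟨h.meas.comp hconsm, h.pos, fun _ => h.low _, fun _ => h.up _⟩
    have h0 : Ent (Measure.pi μ) f = Ent ((μ 0).prod ν) F := by
      rw [Ent_mp hmp F]
      simp only [← he, hFe]
    rw [h0, Fin.sum_univ_succ]
    refine (Ent_prod (μ := μ 0) (ν := ν) hFb).trans (add_le_add (le_of_eq ?_) ?_)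
    · -- first coordinate
      have h1 : ∀ x, EntI μ f 0 x = (fun p : α × (Fin n → α) => Ent (μ 0) (fun t => F (t, p.2))) (e x) := by
        intro x
        unfold EntI
        simp only [hF]
        congr 1
        funext t
        congr 1
        have : (e x).2 = fun j => x j.succ := rfl
        rw [this]
        funext j
        refine Fin.cases ?_ (fun j => ?_) j
        · simp
        · simp
      simp_rw [h1]
      rw [hmp.integral_comp' (g := fun p : α × (Fin n → α) => Ent (μ 0) (fun t => F (t, p.2)))]
      have h2 := integral_fun_snd (μ := μ 0) (ν := ν) (f := fun y => Ent (μ 0) (fun t => F (t, y)))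
      rw [h2, probReal_univ, one_smul]
    · -- other coordinates
      have h1 : ∀ t : α, Ent ν (fun y => F (t, y)) ≤
          ∑ i : Fin n, ∫ y, EntI (fun j : Fin n => μ j.succ) (fun y => F (t, y)) i y ∂ν :=
        fun t => ih (fun j => μ j.succ) (hFb.secR t)
      have hgm : ∀ i : Fin n, Measurable fun p : α × (Fin n → α) =>
          EntI (fun j : Fin n => μ j.succ) (fun y => F (p.1, y)) i p.2 := by
        intro i
        unfold EntI
        refine Ent_meas (f := fun q : (α × (Fin n → α)) × α => F (q.1.1, Function.update q.1.2 i q.2)) ?_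
        apply hFb.meas.comp
        refine (measurable_fst.comp measurable_fst).prodMk ?_
        exact measurable_update'.comp ((measurable_snd.comp measurable_fst).prodMk measurable_snd)
      have hgi : ∀ i : Fin n, Integrable (fun p : α × (Fin n → α) =>
          EntI (fun j : Fin n => μ j.succ) (fun y => F (p.1, y)) i p.2) ((μ 0).prod ν) := fun i =>
        int_of_bdd (hgm i) fun p => Ent_abs_le ((hFb.secR p.1).upd p.2 i)
      have h2 : ∫ t, Ent ν (fun y => F (t, y)) ∂(μ 0) ≤
          ∫ t, ∑ i : Fin n, ∫ y, EntI (fun j : Fin n => μ j.succ) (fun y => F (t, y)) i y ∂ν ∂(μ 0) := by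
        apply integral_mono
        · exact int_of_bdd (Ent_meas hFb.meas) fun t => Ent_abs_le (hFb.secR t)
        · exact integrable_finsetSum _ fun i _ => (hgi i).integral_prod_left
        · exact h1
      refine h2.trans (le_of_eq ?_)
      rw [integral_finsetSum _ fun i _ => (hgi i).integral_prod_left]
      apply Finset.sum_congr rfl
      intro i _
      rw [← integral_prod _ (hgi i)]
      have h3 : ∀ x, EntI μ f i.succ x = (fun p : α × (Fin n → α) =>
          EntI (fun j : Fin n => μ j.succ) (fun y => F (p.1, y)) i p.2) (e x) := by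
        intro x
        unfold EntI
        simp only [hF]
        congr 1
        funext t
        rw [Fin.cons_update, hecons]
      simp_rw [h3]
      rw [hmp.integral_comp' (g := fun p : α × (Fin n → α) =>
          EntI (fun j : Fin n => μ j.succ) (fun y => F (p.1, y)) i p.2)]

end Q297.Lsi
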