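import Pool.Agent.Q297.LsiExp

open MeasureTheory Filter Topology ProbabilityTheory

namespace Q297.Lsi

/-- the cube `[-R,R]ⁿ` -/
def cube (n : ℕ) (R : ℝ) : Set (Fin n → ℝ) := Set.univ.pi fun _ => Set.Icc (-R) R

lemma cube_meas (n : ℕ) (R : ℝ) : MeasurableSet (cube n R) :=
  MeasurableSet.univ_pi fun _ => measurableSet_Icc

lemma mem_cube {n : ℕ} {R : ℝ} {x : Fin n → ℝ} : x ∈ cube n R ↔ ∀ i, |x i| ≤ R := by
  simp only [cube, Set.mem_pi, Set.mem_univ, true_implies, Set.mem_Icc, abs_le]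

lemma unif_eq : unif = (2⁻¹ : ENNReal) • volume.restrict (Set.Icc (-1:ℝ) 1) := by
  unfold unif
  rw [Measure.restrict_congr_set Ioo_ae_eq_Icc]

lemma pi_unif (n : ℕ) : (Measure.pi fun _ : Fin n => unif) =
    ((2⁻¹ : ENNReal) ^ n) • (volume.restrict (cube n 1)) := by
  refine Measure.pi_eq fun s hs => ?_
  rw [Measure.smul_apply, cube, volume_pi, Measure.restrict_pi_pi, Measure.pi_pi, smul_eq_mul]
  simp only [unif_eq, Measure.smul_apply, smul_eq_mul]
  rw [Finset.prod_mul_distrib, Finset.prod_const, Finset.card_univ, Fintype.card_fin]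

lemma map_psi_pi (n : ℕ) : (gpi n).map (fun w i => psi (w i)) = Measure.pi fun _ : Fin n => unif := by
  unfold gpi
  have hp : ∀ i : Fin n, AEMeasurable psi (gaussianReal 0 1) := fun _ => psi_cont.measurable.aemeasurable
  have : ∀ i : Fin n, SigmaFinite ((gaussianReal 0 1).map psi) := fun _ => by
    rw [map_psi]; infer_instance
  rw [Measure.pi_map_pi hp]
  simp only [map_psi]

lemma lint_cube_one (n : ℕ) (h : (Fin n → ℝ) → ENNReal) (hh : Measurable h) :
    ∫⁻ u in cube n 1, h u = 2 ^ n * ∫⁻ w, h (fun i => psi (w i)) ∂(gpi n) := by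
  have hm : Measurable (fun (w : Fin n → ℝ) i => psi (w i)) :=
    measurable_pi_lambda _ fun i => psi_cont.measurable.comp (measurable_pi_apply i)
  rw [← lintegral_map hh hm, map_psi_pi, pi_unif, lintegral_smul_measure, smul_eq_mul, ← mul_assoc,
    ← mul_pow, ENNReal.mul_inv_cancel (by simp) (by simp), one_pow, one_mul]

lemma lint_cube (n : ℕ) {R : ℝ} (hR : 0 < R) (h : (Fin n → ℝ) → ENNReal) (hh : Measurable h) :
    ∫⁻ x in cube n R, h x = ENNReal.ofReal (R ^ n) * ∫⁻ u in cube n 1, h (R • u) := by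
  have h1 := Measure.map_addHaar_smul (volume : Measure (Fin n → ℝ)) hR.ne'
  rw [Module.finrank_fin_fun] at h1
  have hind : Measurable ((cube n R).indicator h) := hh.indicator (cube_meas n R)
  have h2 : ∫⁻ u, (cube n R).indicator h (R • u) = ENNReal.ofReal (|(R ^ n)⁻¹|) *
      ∫⁻ x, (cube n R).indicator h x := by
    rw [← lintegral_map (f := (cube n R).indicator h) (g := fun u : Fin n → ℝ => R • u) hind
      (measurable_const_smul R), h1, lintegral_smul_measure, smul_eq_mul]
  have h3 : ∀ u, (cube n R).indicator h (R • u) = (cube n 1).indicator (fun u => h (R • u)) u := by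
    intro u
    have : R • u ∈ cube n R ↔ u ∈ cube n 1 := by
      rw [mem_cube, mem_cube]
      refine forall_congr' fun i => ?_
      rw [Pi.smul_apply, smul_eq_mul, abs_mul, abs_of_pos hR]
      constructor
      · intro h; nlinarith
      · intro h; nlinarith
    by_cases hu : u ∈ cube n 1
    · rw [Set.indicator_of_mem (this.2 hu), Set.indicator_of_mem hu]
    · rw [Set.indicator_of_notMem (fun h' => hu (this.1 h')), Set.indicator_of_notMem hu]
  simp only [h3] at h2
  rw [lintegral_indicator (cube_meas n R), lintegral_indicator (cube_meas n 1)] at h2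
  rw [h2, ← mul_assoc, ← ENNReal.ofReal_mul (by positivity), abs_of_pos (by positivity),
    mul_inv_cancel₀ (by positivity), ENNReal.ofReal_one, one_mul]

lemma lint_cube_gauss (n : ℕ) {R : ℝ} (hR : 0 < R) (h : (Fin n → ℝ) → ENNReal) (hh : Measurable h) :
    ∫⁻ x in cube n R, h x =
      ENNReal.ofReal ((2 * R) ^ n) * ∫⁻ w, h (fun i => R * psi (w i)) ∂(gpi n) := by
  rw [lint_cube n hR h hh, lint_cube_one n (fun u => h (R • u)) (hh.comp (measurable_const_smul R)),
    ← mul_assoc]
  congr 1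
  rw [mul_pow, ENNReal.ofReal_mul (by positivity), ENNReal.ofReal_pow (p := 2) (by norm_num),
    ENNReal.ofReal_ofNat, mul_comm]

/-- the slab with variable cubical sections -/
def slab (n : ℕ) (R : ℝ → ℝ) : Set (ℝ × (Fin n → ℝ)) :=
  {p | p.1 ∈ Set.Icc (0:ℝ) 1 ∧ ∀ i, |p.2 i| ≤ R p.1}

lemma slab_meas (n : ℕ) {R : ℝ → ℝ} (hR : Measurable R) : MeasurableSet (slab n R) := by
  have h1 : MeasurableSet {p : ℝ × (Fin n → ℝ) | p.1 ∈ Set.Icc (0:ℝ) 1} :=
    measurable_fst measurableSet_Icc
  have h2 : ∀ i : Fin n, MeasurableSet {p : ℝ × (Fin n → ℝ) | |p.2 i| ≤ R p.1} := fun i =>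
    measurableSet_le (by fun_prop) (hR.comp measurable_fst)
  have h3 : MeasurableSet (⋂ i : Fin n, {p : ℝ × (Fin n → ℝ) | |p.2 i| ≤ R p.1}) :=
    MeasurableSet.iInter h2
  have e : slab n R = {p : ℝ × (Fin n → ℝ) | p.1 ∈ Set.Icc (0:ℝ) 1} ∩
      ⋂ i : Fin n, {p : ℝ × (Fin n → ℝ) | |p.2 i| ≤ R p.1} := by
    ext p
    simp only [slab, Set.mem_ofPred_eq, Set.mem_inter_iff, Set.mem_iInter]
  rw [e]
  exact h1.inter h3

lemma lint_slab (n : ℕ) {R : ℝ → ℝ} (hR : Measurable R) (G : ℝ × (Fin n → ℝ) → ENNReal)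
    (hG : Measurable G) :
    ∫⁻ p in slab n R, G p = ∫⁻ y in Set.Ioo (0:ℝ) 1, ∫⁻ x in cube n (R y), G (y, x) := by
  rw [← lintegral_indicator (slab_meas n hR), Measure.volume_eq_prod,
    lintegral_prod _ (hG.indicator (slab_meas n hR)).aemeasurable,
    setLIntegral_congr Ioo_ae_eq_Icc, ← lintegral_indicator measurableSet_Icc]
  refine lintegral_congr fun y => ?_
  by_cases hy : y ∈ Set.Icc (0:ℝ) 1
  · rw [Set.indicator_of_mem hy, ← lintegral_indicator (cube_meas n (R y))]
    refine lintegral_congr fun x => ?_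
    have : (y, x) ∈ slab n R ↔ x ∈ cube n (R y) := by
      rw [mem_cube]
      simp only [slab, Set.mem_ofPred_eq]
      exact and_iff_right hy
    by_cases hx : x ∈ cube n (R y)
    · rw [Set.indicator_of_mem (this.2 hx), Set.indicator_of_mem hx]
    · rw [Set.indicator_of_notMem (fun h' => hx (this.1 h')), Set.indicator_of_notMem hx]
  · rw [Set.indicator_of_notMem hy]
    have : ∀ x, (slab n R).indicator G (y, x) = 0 := fun x => by
      apply Set.indicator_of_notMem
      intro h
      exact hy h.1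
    simp [this]

end Q297.Lsi
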