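import Mathlib

/-! Entropy and its tensorisation. -/

open MeasureTheory Filter Topology

namespace Q297.Lsi

/-- entropy functional -/
noncomputable def Ent {α : Type*} [MeasurableSpace α] (μ : Measure α) (f : α → ℝ) : ℝ :=
  (∫ x, f x * Real.log (f x) ∂μ) - (∫ x, f x ∂μ) * Real.log (∫ x, f x ∂μ)

/-- bounded measurable function with positive lower bound -/
structure Bd {α : Type*} [MeasurableSpace α] (f : α → ℝ) (c C : ℝ) : Prop where
  meas : Measurable f
  pos : 0 < c
  low : ∀ x, c ≤ f x
  up : ∀ x, f x ≤ C

section basic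

variable {α : Type*} [MeasurableSpace α] {μ : Measure α} [IsProbabilityMeasure μ] {f : α → ℝ}
  {c C : ℝ}

lemma Bd.fpos (h : Bd f c C) (x : α) : 0 < f x := h.pos.trans_le (h.low x)

omit [IsProbabilityMeasure μ] in
lemma Bd.cC [IsProbabilityMeasure μ] (_h : Bd f c C) : Nonempty α := by
  by_contra h
  rw [not_nonempty_iff] at h
  have h1 : μ Set.univ = 1 := measure_univ
  rw [Set.univ_eq_empty_iff.2 h, measure_empty] at h1
  exact zero_ne_one h1

lemma Bd.integrable (h : Bd f c C) : Integrable f μ :=
  Integrable.of_bound h.meas.aestronglyMeasurable C (Eventually.of_forall fun x => by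
    rw [Real.norm_eq_abs, abs_of_pos (h.fpos x)]; exact h.up x)

lemma Bd.int_low (h : Bd f c C) : c ≤ ∫ x, f x ∂μ := by
  have h1 : ∫ _, c ∂μ ≤ ∫ x, f x ∂μ := integral_mono (integrable_const _) h.integrable h.low
  rwa [integral_const, probReal_univ, one_smul] at h1

lemma Bd.int_up (h : Bd f c C) : ∫ x, f x ∂μ ≤ C := by
  have h1 : ∫ x, f x ∂μ ≤ ∫ _, C ∂μ := integral_mono h.integrable (integrable_const _) h.up
  rwa [integral_const, probReal_univ, one_smul] at h1

end basic

/-- bound for the logarithm of a function between `c` and `C` -/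
lemma abs_log_le {c C t : ℝ} (hc : 0 < c) (h1 : c ≤ t) (h2 : t ≤ C) :
    |Real.log t| ≤ |Real.log c| + |Real.log C| := by
  have ht : 0 < t := hc.trans_le h1
  have a1 := Real.log_le_log hc h1
  have a2 := Real.log_le_log ht h2
  rw [abs_le]
  constructor
  · have := neg_abs_le (Real.log c)
    have := abs_nonneg (Real.log C)
    linarith
  · have := le_abs_self (Real.log C)
    have := abs_nonneg (Real.log c)
    linarith

section two

variable {α β : Type*} [MeasurableSpace α] [MeasurableSpace β] {μ : Measure α} {ν : Measure β}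
  [IsProbabilityMeasure μ] [IsProbabilityMeasure ν] {f : α × β → ℝ} {c C : ℝ}

lemma meas_int_right (hf : Measurable f) : Measurable fun x => ∫ y, f (x, y) ∂ν :=
  (hf.stronglyMeasurable.integral_prod_right (f := fun x y => f (x, y))).measurable

lemma meas_int_left (hf : Measurable f) : Measurable fun y => ∫ x, f (x, y) ∂μ :=
  (hf.stronglyMeasurable.integral_prod_left (f := fun x y => f (x, y))).measurable

lemma Bd.secR (h : Bd f c C) (x : α) : Bd (fun y => f (x, y)) c C :=
  ⟨h.meas.comp measurable_prodMk_left, h.pos, fun _ => h.low _, fun _ => h.up _⟩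

lemma Bd.secL (h : Bd f c C) (y : β) : Bd (fun x => f (x, y)) c C :=
  ⟨h.meas.comp measurable_prodMk_right, h.pos, fun y => h.low _, fun y => h.up _⟩

lemma Bd.intR (h : Bd f c C) : Bd (fun x => ∫ y, f (x, y) ∂ν) c C :=
  ⟨meas_int_right h.meas, h.pos, fun x => (h.secR x).int_low, fun x => (h.secR x).int_up⟩

lemma Bd.intL (h : Bd f c C) : Bd (fun y => ∫ x, f (x, y) ∂μ) c C :=
  ⟨meas_int_left h.meas, h.pos, fun y => (h.secL y).int_low, fun y => (h.secL y).int_up⟩

/-- integrability of bounded measurable functions -/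
lemma int_of_bdd {γ : Type*} [MeasurableSpace γ] {ρ : Measure γ} [IsProbabilityMeasure ρ]
    {g : γ → ℝ} (hg : Measurable g) {B : ℝ} (hB : ∀ x, |g x| ≤ B) : Integrable g ρ :=
  Integrable.of_bound hg.aestronglyMeasurable B (Eventually.of_forall hB)

/-- **Subadditivity of the entropy** on a product of two spaces. -/
theorem Ent_prod (h : Bd f c C) :
    Ent (μ.prod ν) f ≤ (∫ y, Ent μ (fun x => f (x, y)) ∂ν) + ∫ x, Ent ν (fun y => f (x, y)) ∂μ := by
  set G : β → ℝ := fun y => ∫ x, f (x, y) ∂μ with hG
  set a : α → ℝ := fun x => ∫ y, f (x, y) ∂ν with ha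
  set A : ℝ := ∫ z, f z ∂(μ.prod ν) with hA
  have hGb : Bd G c C := h.intL
  have hab : Bd a c C := h.intR
  have hAlow : c ≤ A := h.int_low
  have hApos : 0 < A := h.pos.trans_le hAlow
  set B : ℝ := |Real.log c| + |Real.log C| with hB
  have hlogf : ∀ z, |Real.log (f z)| ≤ B := fun z => abs_log_le h.pos (h.low z) (h.up z)
  have hlogG : ∀ y, |Real.log (G y)| ≤ B := fun y => abs_log_le h.pos (hGb.low y) (hGb.up y)
  have hloga : ∀ x, |Real.log (a x)| ≤ B := fun x => abs_log_le h.pos (hab.low x) (hab.up x)
  have hfabs : ∀ z, |f z| ≤ C := fun z => by rw [abs_of_pos (h.fpos z)]; exact h.up z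
  have hC0 : 0 ≤ C := by
    obtain ⟨z⟩ := Bd.cC (μ := μ.prod ν) h
    exact (h.fpos z).le.trans (h.up z)
  have hmul : ∀ {s t : ℝ}, |s| ≤ C → |t| ≤ B → |s * t| ≤ C * B := by
    intro s t hs ht
    rw [abs_mul]
    exact mul_le_mul hs ht (abs_nonneg _) hC0
  have mlf : Measurable fun z : α × β => f z * Real.log (f z) := h.meas.mul h.meas.log
  have mlG : Measurable fun z : α × β => f z * Real.log (G z.2) :=
    h.meas.mul (hGb.meas.comp measurable_snd).log
  have mla : Measurable fun z : α × β => f z * Real.log (a z.1) :=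
    h.meas.mul (hab.meas.comp measurable_fst).log
  have ilf : Integrable (fun z : α × β => f z * Real.log (f z)) (μ.prod ν) :=
    int_of_bdd mlf fun z => hmul (hfabs z) (hlogf z)
  have ilG : Integrable (fun z : α × β => f z * Real.log (G z.2)) (μ.prod ν) :=
    int_of_bdd mlG fun z => hmul (hfabs z) (hlogG _)
  have ila : Integrable (fun z : α × β => f z * Real.log (a z.1)) (μ.prod ν) :=
    int_of_bdd mla fun z => hmul (hfabs z) (hloga _)
  -- first term
  have e1 : ∫ y, Ent μ (fun x => f (x, y)) ∂ν =
      (∫ z, f z * Real.log (f z) ∂(μ.prod ν)) - ∫ z, f z * Real.log (G z.2) ∂(μ.prod ν) := by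
    have isub : Integrable (fun z : α × β => f z * Real.log (f z) - f z * Real.log (G z.2))
      (μ.prod ν) := ilf.sub ilG
    rw [← integral_sub ilf ilG, integral_prod_symm _ isub]
    congr 1
    funext y
    unfold Ent
    have i1 : Integrable (fun x => f (x, y) * Real.log (f (x, y))) μ :=
      int_of_bdd (mlf.comp measurable_prodMk_right) fun x => hmul (hfabs _) (hlogf _)
    have i2 : Integrable (fun x => f (x, y) * Real.log (G y)) μ :=
      ((h.secL y).integrable).mul_const _
    show _ = ∫ x, (f (x, y) * Real.log (f (x, y)) - f (x, y) * Real.log (G y)) ∂μ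
    rw [integral_sub i1 i2, integral_mul_const]
  have e2 : ∫ x, Ent ν (fun y => f (x, y)) ∂μ =
      (∫ z, f z * Real.log (f z) ∂(μ.prod ν)) - ∫ z, f z * Real.log (a z.1) ∂(μ.prod ν) := by
    have isub : Integrable (fun z : α × β => f z * Real.log (f z) - f z * Real.log (a z.1))
      (μ.prod ν) := ilf.sub ila
    rw [← integral_sub ilf ila, integral_prod _ isub]
    congr 1
    funext x
    unfold Ent
    have i1 : Integrable (fun y => f (x, y) * Real.log (f (x, y))) ν :=
      int_of_bdd (mlf.comp measurable_prodMk_left) fun x => hmul (hfabs _) (hlogf _)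
    have i2 : Integrable (fun y => f (x, y) * Real.log (a x)) ν :=
      ((h.secR x).integrable).mul_const _
    show _ = ∫ y, (f (x, y) * Real.log (f (x, y)) - f (x, y) * Real.log (a x)) ∂ν
    rw [integral_sub i1 i2, integral_mul_const]
  rw [e1, e2]
  unfold Ent
  rw [← hA]
  -- the key inequality
  have key : 0 ≤ ∫ z, (f z * Real.log (f z) + f z * Real.log A - f z * Real.log (a z.1) -
      f z * Real.log (G z.2)) ∂(μ.prod ν) := by
    have hlow : ∀ z : α × β, f z - a z.1 * G z.2 / A ≤ f z * Real.log (f z) + f z * Real.log A -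
        f z * Real.log (a z.1) - f z * Real.log (G z.2) := by
      intro z
      have hf0 := h.fpos z
      have hg0 := hGb.fpos z.2
      have ha0 := hab.fpos z.1
      set q : ℝ := a z.1 * G z.2 / A / f z with hq
      have hqpos : 0 < q := by positivity
      have h1 := Real.log_le_sub_one_of_pos hqpos
      have h2 : Real.log q = Real.log (a z.1) + Real.log (G z.2) - Real.log A - Real.log (f z) := by
        rw [hq, Real.log_div (by positivity) hf0.ne', Real.log_div (by positivity) hApos.ne',
          Real.log_mul ha0.ne' hg0.ne']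
      have h3 : f z * q = a z.1 * G z.2 / A := by rw [hq]; field_simp
      have h4 := mul_le_mul_of_nonneg_left h1 hf0.le
      rw [h2] at h4
      have h5 : f z * (q - 1) = a z.1 * G z.2 / A - f z := by rw [mul_sub, h3]; ring
      rw [h5] at h4
      nlinarith
    have iprod : Integrable (fun z : α × β => a z.1 * G z.2) (μ.prod ν) :=
      hab.integrable.mul_prod hGb.integrable
    have i3 : Integrable (fun z : α × β => f z - a z.1 * G z.2 / A) (μ.prod ν) :=
      h.integrable.sub (iprod.div_const A)
    have i4 : Integrable (fun z : α × β => f z * Real.log (f z) + f z * Real.log A -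
        f z * Real.log (a z.1) - f z * Real.log (G z.2)) (μ.prod ν) :=
      ((ilf.add (h.integrable.mul_const _)).sub ila).sub ilG
    have hzero : ∫ z, (f z - a z.1 * G z.2 / A) ∂(μ.prod ν) = 0 := by
      rw [integral_sub h.integrable (iprod.div_const A), integral_div, integral_prod_mul]
      have h6 : ∫ x, a x ∂μ = A := by
        rw [hA, integral_prod _ h.integrable]
      have h7 : ∫ y, G y ∂ν = A := by
        rw [hA, integral_prod_symm _ h.integrable]
      rw [h6, h7, ← hA]
      field_simp
      ring
    calc (0:ℝ) = ∫ z, (f z - a z.1 * G z.2 / A) ∂(μ.prod ν) := hzero.symm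
      _ ≤ _ := integral_mono i3 i4 hlow
  have hsplit : ∫ z, (f z * Real.log (f z) + f z * Real.log A - f z * Real.log (a z.1) -
      f z * Real.log (G z.2)) ∂(μ.prod ν) =
      (∫ z, f z * Real.log (f z) ∂(μ.prod ν)) + A * Real.log A -
        (∫ z, f z * Real.log (a z.1) ∂(μ.prod ν)) - ∫ z, f z * Real.log (G z.2) ∂(μ.prod ν) := by
    have j1 : Integrable (fun z : α × β => f z * Real.log (f z) + f z * Real.log A) (μ.prod ν) :=
      ilf.add (h.integrable.mul_const _)
    have j2 : Integrable (fun z : α × β => f z * Real.log (f z) + f z * Real.log A -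
      f z * Real.log (a z.1)) (μ.prod ν) := j1.sub ila
    rw [integral_sub j2 ilG, integral_sub j1 ila, integral_add ilf (h.integrable.mul_const _),
      integral_mul_const]
  rw [hsplit] at key
  linarith

end two

end Q297.Lsi
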