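import Pool.Agent.Q297.MdsFirst

/-!
Point sets in general position.
-/

open Finset Matrix

namespace Pool.Agent.Q297.Mds

variable {F : Type*} [Field F] [Fintype F] [DecidableEq F] {k j : ℕ}

/-- The points lying on a hyperplane. -/
def zer (M : Fin j → (Fin k → F)) (a : Fin k → F) : Finset (Fin j) :=
  univ.filter (fun i => a ⬝ᵥ M i = 0)

/-- Every hyperplane contains fewer than `k` of the points. -/
def Good (M : Fin j → (Fin k → F)) : Prop :=
  ∀ a : Fin k → F, a ≠ 0 → (zer M a).card < k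

omit [Fintype F] in
lemma mem_zer (M : Fin j → (Fin k → F)) (a : Fin k → F) (i : Fin j) :
    i ∈ zer M a ↔ a ⬝ᵥ M i = 0 := by
  unfold zer
  rw [Finset.mem_filter]
  exact ⟨fun h => h.2, fun h => ⟨Finset.mem_univ _, h⟩⟩

lemma exists_normal (hk : 1 ≤ k) (M : Fin j → (Fin k → F)) (hM : Good M)
    (T : Finset (Fin j)) (hT : T.card = k - 1) : ∃ a : Fin k → F, a ≠ 0 ∧ zer M a = T := by
  have hc : Fintype.card T = k - 1 := by rw [Fintype.card_coe, hT]
  rcases annih_or (fun i : T => M i.1) (by omega) with ⟨a, ha, h⟩ | ⟨_, h⟩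
  · refine ⟨a, ha, ?_⟩
    symm
    apply Finset.eq_of_subset_of_card_le
    · intro i hi
      rw [mem_zer]
      exact h ⟨i, hi⟩
    · have := hM a ha
      omega
  · omega

/-- A normal vector of the hyperplane spanned by the points indexed by `T`. -/
noncomputable def nrm (M : Fin j → (Fin k → F)) (T : Finset (Fin j)) : Fin k → F :=
  open Classical in
  if h : ∃ a : Fin k → F, a ≠ 0 ∧ zer M a = T then Classical.choose h else 0

lemma nrm_spec (hk : 1 ≤ k) (M : Fin j → (Fin k → F)) (hM : Good M)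
    (T : Finset (Fin j)) (hT : T.card = k - 1) : nrm M T ≠ 0 ∧ zer M (nrm M T) = T := by
  have h := exists_normal hk M hM T hT
  unfold nrm
  rw [dif_pos h]
  exact Classical.choose_spec h

omit [Fintype F] in
lemma normal_unique (hk : 1 ≤ k) (hj : k ≤ j) (M : Fin j → (Fin k → F)) (hM : Good M)
    (a b : Fin k → F) (ha : (zer M a).card = k - 1) (hab : zer M a = zer M b) :
    ∃ c : F, b = c • a := by
  have h1 : ∃ i, i ∉ zer M a := by
    by_contra h
    push Not at h
    have h2 : (zer M a) = univ := Finset.eq_univ_iff_forall.2 h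
    rw [h2, Finset.card_univ, Fintype.card_fin] at ha
    omega
  obtain ⟨i, hi⟩ := h1
  have hi0 : a ⬝ᵥ M i ≠ 0 := fun h => hi ((mem_zer M a i).2 h)
  refine ⟨(b ⬝ᵥ M i) / (a ⬝ᵥ M i), ?_⟩
  by_contra hne
  have h3 := hM (b - ((b ⬝ᵥ M i) / (a ⬝ᵥ M i)) • a) (sub_ne_zero.2 hne)
  have h4 : insert i (zer M a) ⊆ zer M (b - ((b ⬝ᵥ M i) / (a ⬝ᵥ M i)) • a) := by
    intro l hl
    rw [mem_zer, sub_dotProduct, smul_dotProduct]
    rcases Finset.mem_insert.1 hl with rfl | hl
    · rw [smul_eq_mul, div_mul_cancel₀ _ hi0, sub_self]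
    · have h5 : a ⬝ᵥ M l = 0 := (mem_zer M a l).1 hl
      have h6 : b ⬝ᵥ M l = 0 := (mem_zer M b l).1 (hab ▸ hl)
      rw [h5, h6, smul_zero, sub_zero]
  have h5 := Finset.card_le_card h4
  rw [Finset.card_insert_of_notMem hi, ha] at h5
  omega

omit [Fintype F] in
lemma zer_cons (x : Fin k → F) (M : Fin j → (Fin k → F)) (a : Fin k → F) :
    (zer (Fin.cons x M : Fin (j+1) → (Fin k → F)) a).card
      = (if a ⬝ᵥ x = 0 then 1 else 0) + (zer M a).card := by
  unfold zer
  rw [Finset.card_filter, Finset.card_filter, Fin.sum_univ_succ]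
  simp

lemma good_cons (hk : 1 ≤ k) (hj : k ≤ j) (x : Fin k → F) (M : Fin j → (Fin k → F)) :
    Good (Fin.cons x M : Fin (j+1) → (Fin k → F)) ↔
      Good M ∧ hyp ((univ : Finset (Fin j)).powersetCard (k-1)) (nrm M) x = ∅ := by
  constructor
  · intro h
    have hM : Good M := by
      intro a ha
      have := h a ha
      rw [zer_cons] at this
      omega
    refine ⟨hM, ?_⟩
    unfold hyp
    rw [Finset.filter_eq_empty_iff]
    intro T hT hx
    obtain ⟨h1, h2⟩ := nrm_spec hk M hM T (Finset.mem_powersetCard.1 hT).2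
    have h3 := h _ h1
    rw [zer_cons, if_pos hx, h2, (Finset.mem_powersetCard.1 hT).2] at h3
    omega
  · rintro ⟨hM, hx⟩ a ha
    rw [zer_cons]
    have h1 := hM a ha
    by_cases hax : a ⬝ᵥ x = 0
    · rw [if_pos hax]
      by_contra hcon
      have hc : (zer M a).card = k - 1 := by omega
      obtain ⟨h2, h3⟩ := nrm_spec hk M hM (zer M a) hc
      obtain ⟨c, hcc⟩ := normal_unique hk hj M hM a (nrm M (zer M a)) hc h3.symm
      unfold hyp at hx
      rw [Finset.filter_eq_empty_iff] at hx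
      apply hx (Finset.mem_powersetCard.2 ⟨Finset.subset_univ _, hc⟩)
      rw [hcc, smul_dotProduct, hax, smul_zero]
    · rw [if_neg hax]
      omega

/-- The proportion of point sequences in general position. -/
noncomputable def gp (F : Type*) [Field F] [Fintype F] [DecidableEq F] (k j : ℕ) : ℝ :=
  open Classical in
  ((univ.filter (fun M : Fin j → (Fin k → F) => Good M)).card : ℝ)
    / ((Fintype.card F : ℝ) ^ k) ^ j

lemma gp_succ (hk : 1 ≤ k) (hj : k ≤ j) :
    gp F k (j+1) = (open Classical in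
      ∑ M ∈ univ.filter (fun M : Fin j → (Fin k → F) => Good M),
      ((univ.filter (fun x : Fin k → F =>
        hyp ((univ : Finset (Fin j)).powersetCard (k-1)) (nrm M) x = ∅)).card : ℝ)
          / (Fintype.card F : ℝ) ^ k) / ((Fintype.card F : ℝ) ^ k) ^ j := by
  classical
  unfold gp
  have h1 : (univ.filter (fun M : Fin (j+1) → (Fin k → F) => Good M)).card
      = ∑ M ∈ univ.filter (fun M : Fin j → (Fin k → F) => Good M),
        (univ.filter (fun x : Fin k → F =>
        hyp ((univ : Finset (Fin j)).powersetCard (k-1)) (nrm M) x = ∅)).card := by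
    have hmap : ∀ M' ∈ univ.filter (fun M : Fin (j+1) → (Fin k → F) => Good M),
        Fin.tail M' ∈ univ.filter (fun M : Fin j → (Fin k → F) => Good M) := by
      intro M' hM'
      have h2 := (Finset.mem_filter.1 hM').2
      rw [← Fin.cons_self_tail M', good_cons hk hj] at h2
      exact Finset.mem_filter.2 ⟨Finset.mem_univ _, h2.1⟩
    rw [Finset.card_eq_sum_card_fiberwise hmap]
    refine Finset.sum_congr rfl fun M hM => ?_
    refine Finset.card_bij' (fun M' _ => M' 0) (fun x _ => Fin.cons x M) ?_ ?_ ?_ ?_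
    · intro M' hM'
      obtain ⟨h2, h3⟩ := Finset.mem_filter.1 hM'
      have h4 := (Finset.mem_filter.1 h2).2
      rw [← Fin.cons_self_tail M', good_cons hk hj, h3] at h4
      exact Finset.mem_filter.2 ⟨Finset.mem_univ _, h4.2⟩
    · intro x hx
      refine Finset.mem_filter.2 ⟨Finset.mem_filter.2 ⟨Finset.mem_univ _, ?_⟩, ?_⟩
      · rw [good_cons hk hj]
        exact ⟨(Finset.mem_filter.1 hM).2, (Finset.mem_filter.1 hx).2⟩
      · exact Fin.tail_cons _ _
    · intro M' hM'
      obtain ⟨h2, h3⟩ := Finset.mem_filter.1 hM'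
      show Fin.cons (M' 0) M = M'
      rw [← h3]
      exact Fin.cons_self_tail M'
    · intro x hx
      rfl
  have h2 : ((univ.filter (fun M : Fin (j+1) → (Fin k → F) => Good M)).card : ℝ)
      = ∑ M ∈ univ.filter (fun M : Fin j → (Fin k → F) => Good M),
        ((univ.filter (fun x : Fin k → F =>
        hyp ((univ : Finset (Fin j)).powersetCard (k-1)) (nrm M) x = ∅)).card : ℝ) := by
    exact_mod_cast h1
  rw [h2, ← Finset.sum_div, div_div]
  congr 1
  rw [pow_succ]; ring

lemma gp_nonneg (F : Type*) [Field F] [Fintype F] [DecidableEq F] (k j : ℕ) : 0 ≤ gp F k j := by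
  unfold gp
  positivity

lemma gp_le_one (F : Type*) [Field F] [Fintype F] [DecidableEq F] (k j : ℕ) : gp F k j ≤ 1 := by
  classical
  unfold gp
  have hq0 : (0:ℝ) < Fintype.card F := by exact_mod_cast Fintype.card_pos
  rw [div_le_one (by positivity)]
  have h1 := Finset.card_le_univ (univ.filter (fun M : Fin j → (Fin k → F) => Good M))
  rw [Fintype.card_fun, Fintype.card_fun, Fintype.card_fin, Fintype.card_fin] at h1
  calc _ ≤ (((Fintype.card F ^ k) ^ j : ℕ) : ℝ) := by
        exact_mod_cast h1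
    _ = _ := by push_cast; ring

/-- One step of the recursion. -/
lemma gp_step (hk : 1 ≤ k) (hj : k ≤ j) (m : ℕ) (y : ℝ)
    (hy : y = (j.choose (k-1) : ℝ) / Fintype.card F) :
    |gp F k (j+1) - Real.exp (-y) * gp F k j|
      ≤ 2 * (y ^ (m+1) / (m+1).factorial)
        + ∑ r ∈ range (m+1), (r:ℝ) * (r - 1) * y ^ (r-1) / Fintype.card F
        + (m + 2) * ((open Classical in
          ∑ M ∈ univ.filter (fun M : Fin j → (Fin k → F) => Good M),
            dep ((univ : Finset (Fin j)).powersetCard (k-1)) (nrm M) m)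
              / ((Fintype.card F : ℝ) ^ k) ^ j) := by
  classical
  set q : ℝ := (Fintype.card F : ℝ) with hq
  have hq0 : 0 < q := by rw [hq]; exact_mod_cast Fintype.card_pos
  have hy0 : 0 ≤ y := by rw [hy]; positivity
  set 𝒯 := (univ : Finset (Fin j)).powersetCard (k-1) with h𝒯
  have hcard : y = (𝒯.card : ℝ) / (Fintype.card F : ℝ) := by
    rw [h𝒯, Finset.card_powersetCard, Finset.card_univ, Fintype.card_fin, hy, ← hq]
  set E := 2 * (y ^ (m+1) / (m+1).factorial)
        + ∑ r ∈ range (m+1), (r:ℝ) * (r - 1) * y ^ (r-1) / q with hE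
  have hE0 : 0 ≤ E := by
    rw [hE]
    have : 0 ≤ ∑ r ∈ range (m+1), (r:ℝ) * (r - 1) * y ^ (r-1) / q := by
      refine Finset.sum_nonneg fun r _ => ?_
      rcases Nat.eq_zero_or_pos r with h0 | h0
      · subst h0; simp
      · have : (0:ℝ) ≤ (r:ℝ) - 1 := by
          have : (1:ℝ) ≤ r := by exact_mod_cast h0
          linarith
        positivity
    positivity
  rw [gp_succ hk hj]
  set 𝒢 := univ.filter (fun M : Fin j → (Fin k → F) => Good M) with h𝒢
  have hgp : gp F k j = (∑ M ∈ 𝒢, (1:ℝ)) / (q ^ k) ^ j := by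
    unfold gp
    rw [Finset.sum_const, nsmul_eq_mul, mul_one]
  rw [hgp, ← mul_div_assoc, ← sub_div, Finset.mul_sum, ← Finset.sum_sub_distrib, abs_div,
    abs_of_nonneg (by positivity : 0 ≤ (q ^ k) ^ j)]
  have h1 : |∑ M ∈ 𝒢, (((univ.filter (fun x : Fin k → F => hyp 𝒯 (nrm M) x = ∅)).card : ℝ)
      / q ^ k - Real.exp (-y) * 1)| ≤ ∑ M ∈ 𝒢, (E + (m+2) * dep 𝒯 (nrm M) m) := by
    refine (Finset.abs_sum_le_sum_abs _ _).trans (Finset.sum_le_sum fun M _ => ?_)
    rw [mul_one]
    exact perM 𝒯 (nrm M) m y hcard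
  refine (div_le_div_of_nonneg_right h1 (by positivity)).trans ?_
  rw [Finset.sum_add_distrib, Finset.sum_const, nsmul_eq_mul, ← Finset.mul_sum, add_div]
  have h2 : (𝒢.card : ℝ) / (q ^ k) ^ j ≤ 1 := gp_le_one F k j
  have h3 : (𝒢.card : ℝ) / (q ^ k) ^ j * E ≤ 1 * E := mul_le_mul_of_nonneg_right h2 hE0
  have h4 : (𝒢.card : ℝ) * E / (q ^ k) ^ j = (𝒢.card : ℝ) / (q ^ k) ^ j * E := by ring
  rw [h4, mul_div_assoc]
  linarith

/-- Pairs of distinct hyperplanes are independent. -/
lemma ind_pair (hk : 1 ≤ k) (M : Fin j → (Fin k → F)) (hM : Good M)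
    (J : Finset (Finset (Fin j))) (hJ : J ⊆ (univ : Finset (Fin j)).powersetCard (k-1))
    (hc : J.card ≤ 2) : Ind (nrm M) J := by
  rw [ind_iff]
  intro f hf T hT
  have hspec : ∀ T ∈ J, nrm M T ≠ 0 ∧ zer M (nrm M T) = T := fun T hT =>
    nrm_spec hk M hM T (Finset.mem_powersetCard.1 (hJ hT)).2
  by_contra hne
  rcases (J.erase T).eq_empty_or_nonempty with he | ⟨T', hT'⟩
  · have : J = {T} := by
      rw [← Finset.insert_erase hT, he]
      rfl
    rw [this, Finset.sum_singleton] at hf
    rcases smul_eq_zero.1 hf with h | h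
    · exact hne h
    · exact (hspec T hT).1 h
  · have hT'J := Finset.mem_of_mem_erase hT'
    have hTT' : T' ≠ T := Finset.ne_of_mem_erase hT'
    have hJ2 : J = {T, T'} := by
      symm
      apply Finset.eq_of_subset_of_card_le
      · intro z hz
        rcases Finset.mem_insert.1 hz with rfl | hz
        · exact hT
        · rw [Finset.mem_singleton.1 hz]; exact hT'J
      · rw [Finset.card_pair hTT'.symm]; exact hc
    rw [hJ2, Finset.sum_pair hTT'.symm] at hf
    have hns : ¬ T' ⊆ T := by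
      intro hsub
      apply hTT'
      apply Finset.eq_of_subset_of_card_le hsub
      rw [(Finset.mem_powersetCard.1 (hJ hT)).2, (Finset.mem_powersetCard.1 (hJ hT'J)).2]
    obtain ⟨i, hi, hi'⟩ := Finset.not_subset.1 hns
    have h1 : nrm M T' ⬝ᵥ M i = 0 := by
      rw [← mem_zer, (hspec T' hT'J).2]; exact hi
    have h2 : nrm M T ⬝ᵥ M i ≠ 0 := by
      intro h
      rw [← mem_zer, (hspec T hT).2] at h
      exact hi' h
    have h3 := congrArg (fun z => z ⬝ᵥ M i) hf
    simp only [add_dotProduct, smul_dotProduct, h1,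
      zero_dotProduct, smul_eq_mul] at h3
    rw [mul_zero, add_zero] at h3
    rcases mul_eq_zero.1 h3 with h | h
    · exact hne h
    · exact h2 h

end Pool.Agent.Q297.Mds
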