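import Pool.Agent.Q297.MdsPerM

/-!
Circuits.
-/

open Finset Matrix

namespace Pool.Agent.Q297.Mds

variable {F : Type*} [Field F] [Fintype F] [DecidableEq F] {k : ℕ}
variable {α : Type*} [DecidableEq α]

omit [Fintype F] [DecidableEq F] [DecidableEq α] in
lemma ind_iff (v : α → (Fin k → F)) (I : Finset α) :
    Ind v I ↔ ∀ f : α → F, ∑ i ∈ I, f i • v i = 0 → ∀ i ∈ I, f i = 0 :=
  linearIndepOn_finset_iff

/-- A minimal dependent family. -/
def Circ (v : α → (Fin k → F)) (D : Finset α) : Prop :=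
  ¬ Ind v D ∧ ∀ T ∈ D, Ind v (D.erase T)

omit [Fintype F] [DecidableEq F] in
lemma exists_circ (v : α → (Fin k → F)) (J : Finset α) (hJ : ¬ Ind v J) :
    ∃ D ⊆ J, Circ v D := by
  obtain ⟨D, hDJ, hD⟩ := exists_minimal_le_of_wellFoundedLT (fun I : Finset α => ¬ Ind v I) J hJ
  refine ⟨D, hDJ, hD.prop, fun T hT => ?_⟩
  by_contra h
  have h1 : D ≤ D.erase T := hD.le_of_le h (Finset.erase_subset _ _)
  exact Finset.notMem_erase T D (h1 hT)

omit [Fintype F] [DecidableEq F] in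
lemma circ_rel (v : α → (Fin k → F)) (D : Finset α) (hD : Circ v D) :
    ∃ f : α → F, ∑ T ∈ D, f T • v T = 0 ∧ ∀ T ∈ D, f T ≠ 0 := by
  obtain ⟨h1, h2⟩ := hD
  rw [ind_iff] at h1
  push Not at h1
  obtain ⟨f, hf, T0, hT0, hf0⟩ := h1
  refine ⟨f, hf, fun T hT hfT => ?_⟩
  have h3 := (ind_iff v (D.erase T)).1 (h2 T hT) f (by
    rw [← Finset.add_sum_erase D _ hT, hfT, zero_smul, zero_add] at hf
    exact hf)
  apply hf0
  by_cases h : T0 = T
  · rw [h]; exact hfT
  · exact h3 T0 (Finset.mem_erase.2 ⟨h, hT0⟩)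

/-- The weighted number of circuits. -/
noncomputable def circW (𝒯 : Finset α) (v : α → (Fin k → F)) (m : ℕ) : ℝ :=
  open Classical in
  ∑ D ∈ 𝒯.powerset.filter (fun D => D.card ≤ m + 1 ∧ Circ v D),
    (Fintype.card F : ℝ) / (Fintype.card F : ℝ) ^ D.card

lemma dep_le (𝒯 : Finset α) (v : α → (Fin k → F)) (m : ℕ) (y Y : ℝ)
    (hy : y = 𝒯.card / Fintype.card F) (hY : 1 ≤ Y) (hyY : y ≤ Y) :
    dep 𝒯 v m ≤ (m + 2) * Y ^ (m+1) * circW 𝒯 v m := by
  classical
  set q : ℝ := (Fintype.card F : ℝ) with hq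
  have hq0 : 0 < q := by rw [hq]; exact_mod_cast Fintype.card_pos
  have hy0 : 0 ≤ y := by rw [hy]; positivity
  have hex : ∀ J : Finset α, ∃ D : Finset α, ¬ Ind v J → D ⊆ J ∧ Circ v D := by
    intro J
    by_cases h : Ind v J
    · exact ⟨∅, fun h' => absurd h h'⟩
    · obtain ⟨D, h1, h2⟩ := exists_circ v J h
      exact ⟨D, fun _ => ⟨h1, h2⟩⟩
  choose c hc using hex
  set A := 𝒯.powerset.filter (fun J => J.card ≤ m + 1 ∧ ¬ Ind v J) with hA
  set C := 𝒯.powerset.filter (fun D => D.card ≤ m + 1 ∧ Circ v D) with hC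
  set K := 𝒯.powerset.filter (fun I => I.card ≤ m + 1) with hK
  have h1 : dep 𝒯 v m = ∑ J ∈ A, (q / q ^ (c J).card) * (1 / q ^ (J \ c J).card) := by
    unfold dep
    refine Finset.sum_congr rfl fun J hJ => ?_
    have hJ2 := (Finset.mem_filter.1 hJ).2.2
    have h3 : J.card = (c J).card + (J \ c J).card := by
      have := Finset.card_sdiff_add_card_eq_card (hc J hJ2).1
      omega
    rw [h3, pow_add]
    rw [← hq]
    field_simp
  have h2 : ∑ J ∈ A, (q / q ^ (c J).card) * (1 / q ^ (J \ c J).card)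
      ≤ ∑ p ∈ C ×ˢ K, (q / q ^ p.1.card) * (1 / q ^ p.2.card) := by
    have hinj : Set.InjOn (fun J : Finset α => (c J, J \ c J)) (A : Set (Finset α)) := by
      intro J hJ J' hJ' h
      have hJ2 := (Finset.mem_filter.1 hJ).2.2
      have hJ'2 := (Finset.mem_filter.1 hJ').2.2
      obtain ⟨e1, e2⟩ := Prod.mk.inj h
      rw [← Finset.sdiff_union_of_subset (hc J hJ2).1,
        ← Finset.sdiff_union_of_subset (hc J' hJ'2).1, e2, e1]
    rw [← Finset.sum_image (f := fun p : Finset α × Finset α =>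
      (q / q ^ p.1.card) * (1 / q ^ p.2.card)) hinj]
    refine Finset.sum_le_sum_of_subset_of_nonneg ?_ fun _ _ _ => by positivity
    intro p hp
    obtain ⟨J, hJ, rfl⟩ := Finset.mem_image.1 hp
    obtain ⟨g1, g2, g3⟩ := Finset.mem_filter.1 hJ
    have g1 := Finset.mem_powerset.1 g1
    have g4 := hc J g3
    refine Finset.mem_product.2 ⟨Finset.mem_filter.2 ⟨Finset.mem_powerset.2 (g4.1.trans g1),
      (Finset.card_le_card g4.1).trans g2, g4.2⟩, Finset.mem_filter.2
      ⟨Finset.mem_powerset.2 (Finset.sdiff_subset.trans g1),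
      (Finset.card_le_card Finset.sdiff_subset).trans g2⟩⟩
  have h3 : ∑ p ∈ C ×ˢ K, (q / q ^ p.1.card) * (1 / q ^ p.2.card)
      = circW 𝒯 v m * ∑ I ∈ K, 1 / q ^ I.card := by
    unfold circW
    rw [Finset.sum_mul_sum, Finset.sum_product]
  have h4 : ∑ I ∈ K, 1 / q ^ I.card ≤ (m + 2) * Y ^ (m+1) := by
    have hmap : ∀ I ∈ K, I.card ∈ range (m+2) := by
      intro I hI
      rw [Finset.mem_range]
      have := (Finset.mem_filter.1 hI).2
      omega
    rw [← Finset.sum_fiberwise_of_maps_to hmap]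
    have h5 : ∀ r ∈ range (m+2), ∑ I ∈ K.filter (fun I => I.card = r), 1 / q ^ I.card
        ≤ Y ^ (m+1) := by
      intro r hr
      have h6 : ∀ I ∈ K.filter (fun I => I.card = r), 1 / q ^ I.card = 1 / q ^ r := by
        intro I hI
        rw [(Finset.mem_filter.1 hI).2]
      rw [Finset.sum_congr rfl h6, Finset.sum_const, nsmul_eq_mul]
      have h7 : (K.filter (fun I => I.card = r)).card ≤ 𝒯.card.choose r := by
        rw [← Finset.card_powersetCard]
        apply Finset.card_le_card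
        intro I hI
        obtain ⟨g1, g2⟩ := Finset.mem_filter.1 hI
        exact Finset.mem_powersetCard.2 ⟨Finset.mem_powerset.1 (Finset.mem_filter.1 g1).1, g2⟩
      have h8 : (𝒯.card.choose r : ℝ) ≤ (𝒯.card : ℝ) ^ r := by
        exact_mod_cast Nat.choose_le_pow _ _
      have h9 : ((K.filter (fun I => I.card = r)).card : ℝ) ≤ (𝒯.card : ℝ) ^ r :=
        le_trans (by exact_mod_cast h7) h8
      calc ((K.filter (fun I => I.card = r)).card : ℝ) * (1 / q ^ r)
          ≤ (𝒯.card : ℝ) ^ r * (1 / q ^ r) := mul_le_mul_of_nonneg_right h9 (by positivity)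
        _ = y ^ r := by rw [hy, div_pow]; ring
        _ ≤ Y ^ r := pow_le_pow_left₀ hy0 hyY r
        _ ≤ Y ^ (m+1) := pow_le_pow_right₀ hY (by rw [Finset.mem_range] at hr; omega)
    refine (Finset.sum_le_sum h5).trans ?_
    rw [Finset.sum_const, Finset.card_range, nsmul_eq_mul]
    push_cast
    linarith
  have hcw : 0 ≤ circW 𝒯 v m := by
    unfold circW
    exact Finset.sum_nonneg fun _ _ => by positivity
  rw [h1]
  refine h2.trans ?_
  rw [h3, mul_comm]
  exact mul_le_mul_of_nonneg_right h4 hcw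

lemma dep_one (𝒯 : Finset α) (v : α → (Fin k → F))
    (h : ∀ J ⊆ 𝒯, J.card ≤ 2 → Ind v J) : dep 𝒯 v 1 = 0 := by
  classical
  unfold dep
  apply Finset.sum_eq_zero
  intro J hJ
  obtain ⟨h1, h2, h3⟩ := Finset.mem_filter.1 hJ
  exact absurd (h J (Finset.mem_powerset.1 h1) h2) h3

end Pool.Agent.Q297.Mds
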