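import Mathlib

/-!
Random linear codes: minimum distance, MDS codes, the probability that a random code is MDS.
-/

namespace Pool.Agent.Q297.Mds

open Module

/-- The minimum Hamming distance of a linear code: the least Hamming distance between two
distinct codewords. -/
noncomputable def minDist {F : Type*} [Field F] {n : ℕ} (C : Submodule F (Fin n → F)) : ℕ :=
  open Classical in
  sInf {d : ℕ | ∃ x ∈ C, ∃ y ∈ C, x ≠ y ∧ hammingDist x y = d}

/-- A linear code of length `n` and dimension `k` is MDS if its minimum distance is
`n - k + 1`. -/
def IsMDS {F : Type*} [Field F] {n : ℕ} (C : Submodule F (Fin n → F)) : Prop :=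
  minDist C + finrank F C = n + 1

/-- The probability that a uniformly random `[n, k]` code over `F` is MDS. -/
noncomputable def mdsProb (F : Type*) [Field F] (n k : ℕ) : ℝ :=
  (Nat.card {C : Submodule F (Fin n → F) // finrank F C = k ∧ IsMDS C} : ℝ)
    / (Nat.card {C : Submodule F (Fin n → F) // finrank F C = k} : ℝ)

end Pool.Agent.Q297.Mds
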