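import Pool.Agent.Q297.MdsTel
import Pool.Agent.Q297.MdsDefs

/-!
MDS codes and duality.
-/

open Finset Matrix Module

namespace Pool.Agent.Q297.Mds

variable {F : Type*} [Field F] [Fintype F] [DecidableEq F] {k n : ℕ}

/-- The zeros of a word. -/
def zr (c : Fin n → F) : Finset (Fin n) := univ.filter (fun i => c i = 0)

/-- Every nonzero codeword has fewer than `k` zeros. -/
def Few (k : ℕ) (C : Submodule F (Fin n → F)) : Prop :=
  ∀ c ∈ C, c ≠ 0 → (zr c).card < k

omit [Field F] [Fintype F] [DecidableEq F] in
lemma hamming_inst (i1 i2 : (i : Fin n) → DecidableEq F) (x y : Fin n → F) :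
    @hammingDist (Fin n) (fun _ => F) _ i1 x y = @hammingDist (Fin n) (fun _ => F) _ i2 x y := by
  rw [Subsingleton.elim i1 i2]

omit [Fintype F] in
lemma minDist_eq (C : Submodule F (Fin n → F)) :
    minDist C = sInf {d : ℕ | ∃ x ∈ C, ∃ y ∈ C, x ≠ y ∧ hammingDist x y = d} := by
  unfold minDist
  apply congrArg sInf
  apply Set.ext
  intro d
  constructor
  · rintro ⟨x, hx, y, hy, hxy, h⟩
    exact ⟨x, hx, y, hy, hxy, (hamming_inst _ _ x y).trans h⟩
  · rintro ⟨x, hx, y, hy, hxy, h⟩
    exact ⟨x, hx, y, hy, hxy, (hamming_inst _ _ x y).trans h⟩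

omit [Fintype F] in
lemma dist_zr (x y : Fin n → F) :
    hammingDist x y + (zr (x - y)).card = n := by
  classical
  have h1 : hammingDist x y
      = (univ.filter (fun i => ¬ (x - y) i = 0)).card := by
    unfold hammingDist
    congr 1
    ext i
    simp only [Finset.mem_filter, Finset.mem_univ, true_and, Pi.sub_apply, sub_eq_zero, ne_eq]
  rw [h1, add_comm]
  unfold zr
  rw [Finset.card_filter_add_card_filter_not]
  rw [Finset.card_univ, Fintype.card_fin]

omit [Fintype F] in
lemma isMDS_iff (hk : 1 ≤ k) (hkn : k ≤ n) (C : Submodule F (Fin n → F))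
    (hC : finrank F C = k) : IsMDS C ↔ Few k C := by
  classical
  have hex : ∃ c ∈ C, c ≠ 0 ∧ k - 1 ≤ (zr c).card := by
    set f : C →ₗ[F] (Fin (k-1) → F) :=
      (LinearMap.funLeft F F (Fin.castLE (by omega : k - 1 ≤ n))).comp C.subtype with hf
    have h1 : LinearMap.ker f ≠ ⊥ := by
      apply LinearMap.ker_ne_bot_of_finrank_lt
      rw [finrank_fintype_fun_eq_card, Fintype.card_fin, hC]
      omega
    obtain ⟨c, hc, hc0⟩ := Submodule.exists_mem_ne_zero_of_ne_bot h1
    refine ⟨c.1, c.2, fun h => hc0 (Subtype.ext h), ?_⟩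
    have h2 : (univ : Finset (Fin (k-1))).map (Fin.castLEEmb (by omega : k - 1 ≤ n)) ⊆ zr c.1 := by
      intro i hi
      obtain ⟨l, _, rfl⟩ := Finset.mem_map.1 hi
      exact Finset.mem_filter.2 ⟨Finset.mem_univ _, congrFun (LinearMap.mem_ker.1 hc) l⟩
    have h3 := Finset.card_le_card h2
    rwa [Finset.card_map, Finset.card_univ, Fintype.card_fin] at h3
  unfold IsMDS
  rw [hC, minDist_eq]
  constructor
  · intro h c hc hc0
    have h1 : sInf {d : ℕ | ∃ x ∈ C, ∃ y ∈ C, x ≠ y ∧ hammingDist x y = d}
        ≤ hammingDist c 0 :=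
      Nat.sInf_le ⟨c, hc, 0, C.zero_mem, hc0, rfl⟩
    have h2 := dist_zr c 0
    rw [sub_zero] at h2
    omega
  · intro h
    obtain ⟨c, hc, hc0, hcz⟩ := hex
    have h1 : sInf {d : ℕ | ∃ x ∈ C, ∃ y ∈ C, x ≠ y ∧ hammingDist x y = d}
        ≤ hammingDist c 0 :=
      Nat.sInf_le ⟨c, hc, 0, C.zero_mem, hc0, rfl⟩
    have h2 := dist_zr c 0
    rw [sub_zero] at h2
    have h3 : n + 1 - k
        ≤ sInf {d : ℕ | ∃ x ∈ C, ∃ y ∈ C, x ≠ y ∧ hammingDist x y = d} := by
      refine le_csInf ⟨hammingDist c 0, c, hc, 0, C.zero_mem, hc0, rfl⟩ ?_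
      rintro d ⟨x, hx, y, hy, hxy, rfl⟩
      have h4 := h (x - y) (C.sub_mem hx hy) (sub_ne_zero.2 hxy)
      have h5 := dist_zr x y
      omega
    omega

omit [DecidableEq F] in
/-- Counting codes through their bases. -/
lemma fiber_count (P : Submodule F (Fin n → F) → Prop) :
    Nat.card {r : Fin k → (Fin n → F) // LinearIndependent F r ∧
        P (Submodule.span F (Set.range r))}
      = Nat.card {C : Submodule F (Fin n → F) // finrank F C = k ∧ P C}
        * ∏ i : Fin k, (Fintype.card F ^ k - Fintype.card F ^ i.val) := by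
  classical
  set X := {r : Fin k → (Fin n → F) // LinearIndependent F r ∧
        P (Submodule.span F (Set.range r))} with hX
  set Y := {C : Submodule F (Fin n → F) // finrank F C = k ∧ P C} with hY
  set f : X → Y := fun r => ⟨Submodule.span F (Set.range r.1), by
    rw [finrank_span_eq_card r.2.1, Fintype.card_fin], r.2.2⟩ with hf
  have : Finite (Submodule F (Fin n → F)) :=
    Finite.of_injective (fun C : Submodule F (Fin n → F) => (C : Set (Fin n → F)))
      SetLike.coe_injective
  have : Fintype Y := Fintype.ofFinite Y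
  rw [← Nat.card_congr (Equiv.sigmaFiberEquiv f), Nat.card_sigma]
  have h1 : ∀ C : Y, Nat.card {x : X // f x = C}
      = ∏ i : Fin k, (Fintype.card F ^ k - Fintype.card F ^ i.val) := by
    intro C
    have h2 := card_linearIndependent (K := F) (V := C.1) (k := k) (by rw [C.2.1])
    rw [C.2.1] at h2
    rw [← h2]
    refine Nat.card_congr
      { toFun := fun x => ⟨fun i => ⟨x.1.1 i, ?_⟩, ?_⟩
        invFun := fun s => ⟨⟨fun i => (s.1 i : Fin n → F), ?_, ?_⟩, ?_⟩
        left_inv := fun _ => rfl
        right_inv := fun _ => rfl }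
    · have h3 : Submodule.span F (Set.range x.1.1) = C.1 := congrArg Subtype.val x.2
      rw [← h3]
      exact Submodule.subset_span ⟨i, rfl⟩
    · apply LinearIndependent.of_comp C.1.subtype
      exact x.1.2.1
    · exact s.2.map' C.1.subtype (Submodule.ker_subtype _)
    · have h4 : LinearIndependent F (fun i => (s.1 i : Fin n → F)) :=
        s.2.map' C.1.subtype (Submodule.ker_subtype _)
      have h3 : Submodule.span F (Set.range (fun i => (s.1 i : Fin n → F))) = C.1 := by
        apply Submodule.eq_of_le_of_finrank_eq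
        · rw [Submodule.span_le]
          rintro _ ⟨i, rfl⟩
          exact (s.1 i).2
        · rw [finrank_span_eq_card h4, Fintype.card_fin, C.2.1]
      rw [h3]
      exact C.2.2
    · have h4 : LinearIndependent F (fun i => (s.1 i : Fin n → F)) :=
        s.2.map' C.1.subtype (Submodule.ker_subtype _)
      apply Subtype.ext
      show Submodule.span F (Set.range (fun i => (s.1 i : Fin n → F))) = C.1
      apply Submodule.eq_of_le_of_finrank_eq
      · rw [Submodule.span_le]
        rintro _ ⟨i, rfl⟩
        exact (s.1 i).2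
      · rw [finrank_span_eq_card h4, Fintype.card_fin, C.2.1]
  rw [Finset.sum_congr rfl fun C _ => h1 C, Finset.sum_const, smul_eq_mul,
    Finset.card_univ, Nat.card_eq_fintype_card]

omit [Fintype F] in
/-- Good columns mean independent rows spanning an MDS code. -/
lemma good_iff (hk : 1 ≤ k) (hkn : k ≤ n) (r : Fin k → (Fin n → F)) :
    Good (fun l i => r i l : Fin n → (Fin k → F)) ↔
      LinearIndependent F r ∧ Few k (Submodule.span F (Set.range r)) := by
  have hw : ∀ a : Fin k → F, ∀ l, (∑ i, a i • r i) l = a ⬝ᵥ (fun i => r i l) := by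
    intro a l
    simp [dotProduct, Finset.sum_apply]
  have hz : ∀ a : Fin k → F, zr (∑ i, a i • r i)
      = zer (fun l i => r i l : Fin n → (Fin k → F)) a := by
    intro a
    ext l
    unfold zr
    rw [Finset.mem_filter, mem_zer, hw]
    simp
  constructor
  · intro h
    constructor
    · rw [Fintype.linearIndependent_iff]
      intro a ha
      by_contra hne
      push Not at hne
      obtain ⟨i, hi⟩ := hne
      have h1 := h a (fun h0 => hi (by rw [h0]; rfl))
      rw [← hz, ha] at h1
      have h2 : zr (0 : Fin n → F) = univ := by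
        unfold zr
        exact Finset.filter_true_of_mem fun _ _ => rfl
      rw [h2, Finset.card_univ, Fintype.card_fin] at h1
      omega
    · intro c hc hc0
      obtain ⟨a, rfl⟩ := (Submodule.mem_span_range_iff_exists_fun F).1 hc
      rw [hz]
      apply h a
      rintro rfl
      apply hc0
      simp
  · rintro ⟨hli, hfew⟩ a ha
    rw [← hz]
    apply hfew
    · exact (Submodule.mem_span_range_iff_exists_fun F).2 ⟨a, rfl⟩
    · intro h0
      apply ha
      funext i
      exact Fintype.linearIndependent_iff.1 hli a h0 i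

lemma mds_card (hk : 1 ≤ k) (hkn : k ≤ n) :
    mdsProb F n k = gp F k n
      / ∏ i ∈ range k, (1 - (Fintype.card F : ℝ) ^ i / (Fintype.card F : ℝ) ^ n) := by
  classical
  have hq1 : 1 < Fintype.card F := Fintype.one_lt_card
  have hq0 : (0:ℝ) < Fintype.card F := by exact_mod_cast Fintype.card_pos
  have h1 := fiber_count (F := F) (k := k) (n := n) (Few k)
  have h2 := fiber_count (F := F) (k := k) (n := n) (fun _ => True)
  have e1 : Nat.card {C : Submodule F (Fin n → F) // finrank F C = k ∧ Few k C}
      = Nat.card {C : Submodule F (Fin n → F) // finrank F C = k ∧ IsMDS C} := by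
    apply Nat.card_congr
    refine Equiv.subtypeEquivRight fun C => ?_
    constructor
    · exact fun h => ⟨h.1, (isMDS_iff hk hkn C h.1).2 h.2⟩
    · exact fun h => ⟨h.1, (isMDS_iff hk hkn C h.1).1 h.2⟩
  have e2 : Nat.card {C : Submodule F (Fin n → F) // finrank F C = k ∧ True}
      = Nat.card {C : Submodule F (Fin n → F) // finrank F C = k} := by
    simp only [and_true]
  have e3 : Nat.card {r : Fin k → (Fin n → F) // LinearIndependent F r ∧ True}
      = Nat.card {r : Fin k → (Fin n → F) // LinearIndependent F r} := by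
    simp only [and_true]
  have e4 : Nat.card {r : Fin k → (Fin n → F) // LinearIndependent F r ∧
        Few k (Submodule.span F (Set.range r))}
      = (univ.filter (fun M : Fin n → (Fin k → F) => Good M)).card := by
    rw [← Fintype.card_coe, ← Nat.card_eq_fintype_card]
    refine Nat.card_congr
      { toFun := fun r => ⟨fun l i => r.1 i l, Finset.mem_filter.2 ⟨Finset.mem_univ _,
          (good_iff hk hkn r.1).2 r.2⟩⟩
        invFun := fun M => ⟨fun i l => M.1 l i,
          (good_iff hk hkn (fun i l => M.1 l i)).1 (Finset.mem_filter.1 M.2).2⟩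
        left_inv := fun _ => rfl
        right_inv := fun _ => rfl }
  rw [e1, e4] at h1
  rw [e2, e3] at h2
  set g := ∏ i : Fin k, (Fintype.card F ^ k - Fintype.card F ^ i.val) with hg
  have hg0 : 0 < g := by
    apply Finset.prod_pos
    intro i _
    apply Nat.sub_pos_of_lt
    exact Nat.pow_lt_pow_right hq1 i.2
  have hg0' : (0:ℝ) < g := by exact_mod_cast hg0
  have h1' : ((univ.filter (fun M : Fin n → (Fin k → F) => Good M)).card : ℝ)
      = (Nat.card {C : Submodule F (Fin n → F) // finrank F C = k ∧ IsMDS C} : ℝ) * g := by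
    exact_mod_cast h1
  have h2' : (Nat.card {r : Fin k → (Fin n → F) // LinearIndependent F r} : ℝ)
      = (Nat.card {C : Submodule F (Fin n → F) // finrank F C = k} : ℝ) * g := by
    exact_mod_cast h2
  rw [← card_li n hkn]
  unfold gp mdsProb
  rw [h1', h2']
  rw [div_div_div_cancel_right₀ (by positivity), mul_div_mul_right _ _ hg0'.ne']

/-- The dual code. -/
def perp (C : Submodule F (Fin n → F)) : Submodule F (Fin n → F) where
  carrier := {x | ∀ c ∈ C, c ⬝ᵥ x = 0}
  add_mem' := by
    intro x y hx hy c hc
    rw [dotProduct_add, hx c hc, hy c hc, add_zero]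
  zero_mem' := by
    intro c _
    exact dotProduct_zero c
  smul_mem' := by
    intro a x hx c hc
    rw [dotProduct_smul, hx c hc, smul_zero]

omit [DecidableEq F] in
lemma finrank_perp (C : Submodule F (Fin n → F)) :
    finrank F (perp C) + finrank F C = n := by
  classical
  set b := Module.finBasis F C with hb
  set u : Fin (finrank F C) → (Fin n → F) := fun i => (b i : Fin n → F) with hu
  have hli : LinearIndependent F u := b.linearIndependent.map' C.subtype (Submodule.ker_subtype _)
  have h1 := LinearMap.finrank_range_add_finrank_ker (evalMap u)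
  rw [LinearMap.range_eq_top.2 (evalMap_surj u hli), finrank_top,
    finrank_fintype_fun_eq_card, finrank_fintype_fun_eq_card,
    Fintype.card_fin, Fintype.card_fin] at h1
  have h2 : perp C = LinearMap.ker (evalMap u) := by
    ext x
    rw [LinearMap.mem_ker, funext_iff]
    constructor
    · intro h i
      exact h _ (b i).2
    · intro h c hc
      have h3 : (⟨c, hc⟩ : C) = ∑ i, b.repr ⟨c, hc⟩ i • b i := (b.sum_repr _).symm
      have h4 : c = ∑ i, b.repr ⟨c, hc⟩ i • u i := by
        have h5 := congrArg C.subtype h3
        rw [map_sum] at h5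
        simp only [map_smul] at h5
        exact h5
      rw [h4, sum_dotProduct]
      apply Finset.sum_eq_zero
      intro i _
      rw [smul_dotProduct]
      have h5 : u i ⬝ᵥ x = 0 := h i
      rw [h5, smul_zero]
  rw [h2]
  omega

omit [DecidableEq F] in
lemma perp_perp (C : Submodule F (Fin n → F)) : perp (perp C) = C := by
  symm
  apply Submodule.eq_of_le_of_finrank_eq
  · intro c hc x hx
    rw [dotProduct_comm]
    exact hx c hc
  · have h1 := finrank_perp C
    have h2 := finrank_perp (perp C)
    omega

lemma few_perp (hkn : k ≤ n) (C : Submodule F (Fin n → F)) (hC : finrank F C = k)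
    (h : Few k C) : Few (n - k) (perp C) := by
  classical
  intro y hy hy0
  by_contra hcon
  push Not at hcon
  set supp : Finset (Fin n) := univ.filter (fun i => y i ≠ 0) with hsupp
  have h1 : (zr y).card + supp.card = n := by
    unfold zr
    rw [hsupp]
    have := Finset.card_filter_add_card_filter_not (s := (univ : Finset (Fin n)))
      (fun i => y i = 0)
    rw [Finset.card_univ, Fintype.card_fin] at this
    exact this
  obtain ⟨S, hS1, hS2⟩ : ∃ S : Finset (Fin n), supp ⊆ S ∧ S.card = k := by
    obtain ⟨S, g1, _, g3⟩ := Finset.exists_subsuperset_card_eq (Finset.subset_univ supp)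
      (by omega : supp.card ≤ k) (by rw [Finset.card_univ, Fintype.card_fin]; exact hkn)
    exact ⟨S, g1, g3⟩
  set f : C →ₗ[F] (S → F) := (LinearMap.funLeft F F (fun i : S => (i : Fin n))).comp C.subtype
    with hf
  have hinj : Function.Injective f := by
    rw [← LinearMap.ker_eq_bot, Submodule.eq_bot_iff]
    intro c hc
    by_contra hne
    have h2 := h c.1 c.2 (fun h0 => hne (Subtype.ext h0))
    have h3 : S ⊆ zr c.1 := by
      intro i hi
      exact Finset.mem_filter.2 ⟨Finset.mem_univ _, congrFun (LinearMap.mem_ker.1 hc) ⟨i, hi⟩⟩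
    have := Finset.card_le_card h3
    omega
  have hsurj : Function.Surjective f :=
    (LinearMap.injective_iff_surjective_of_finrank_eq_finrank (by
      rw [finrank_fintype_fun_eq_card, Fintype.card_coe, hC, hS2])).1 hinj
  obtain ⟨l, hl⟩ : ∃ l, y l ≠ 0 := by
    by_contra h0
    push Not at h0
    exact hy0 (funext h0)
  have hlS : l ∈ S := hS1 (Finset.mem_filter.2 ⟨Finset.mem_univ _, hl⟩)
  obtain ⟨c, hc⟩ := hsurj (Pi.single ⟨l, hlS⟩ 1)
  have h2 : c.1 ⬝ᵥ y = 0 := hy c.1 c.2
  have h3 : c.1 ⬝ᵥ y = y l := by
    unfold dotProduct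
    rw [Finset.sum_eq_single l]
    · have : c.1 l = 1 := by
        have := congrFun hc ⟨l, hlS⟩
        rw [Pi.single_eq_same] at this
        exact this
      rw [this, one_mul]
    · intro i _ hil
      by_cases hi : i ∈ S
      · have : c.1 i = 0 := by
          have := congrFun hc ⟨i, hi⟩
          rw [Pi.single_eq_of_ne (by
            intro h0
            exact hil (congrArg Subtype.val h0))] at this
          exact this
        rw [this, zero_mul]
      · have : y i = 0 := by
          by_contra h0
          exact hi (hS1 (Finset.mem_filter.2 ⟨Finset.mem_univ _, h0⟩))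
        rw [this, mul_zero]
    · intro h0
      exact absurd (Finset.mem_univ _) h0
  rw [h3] at h2
  exact hl h2

omit [DecidableEq F] in
lemma mdsProb_dual (hk : 1 ≤ k) (hkn : k < n) : mdsProb F n k = mdsProb F n (n - k) := by
  classical
  unfold mdsProb
  congr 2
  · refine Nat.card_congr
      { toFun := fun C => ⟨perp C.1, ?_, ?_⟩
        invFun := fun C => ⟨perp C.1, ?_, ?_⟩
        left_inv := fun C => Subtype.ext (perp_perp C.1)
        right_inv := fun C => Subtype.ext (perp_perp C.1) }
    · have := finrank_perp C.1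
      rw [C.2.1] at this
      omega
    · have hf : finrank F (perp C.1) = n - k := by
        have := finrank_perp C.1
        rw [C.2.1] at this
        omega
      rw [isMDS_iff (by omega) (by omega) _ hf]
      exact few_perp hkn.le C.1 C.2.1 ((isMDS_iff hk hkn.le C.1 C.2.1).1 C.2.2)
    · have := finrank_perp C.1
      rw [C.2.1] at this
      omega
    · have hf : finrank F (perp C.1) = k := by
        have := finrank_perp C.1
        rw [C.2.1] at this
        omega
      rw [isMDS_iff hk hkn.le _ hf]
      have h1 := few_perp (by omega) C.1 C.2.1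
        ((isMDS_iff (by omega) (by omega) C.1 C.2.1).1 C.2.2)
      have h2 : n - (n - k) = k := by omega
      rwa [h2] at h1
  · refine Nat.card_congr
      { toFun := fun C => ⟨perp C.1, ?_⟩
        invFun := fun C => ⟨perp C.1, ?_⟩
        left_inv := fun C => Subtype.ext (perp_perp C.1)
        right_inv := fun C => Subtype.ext (perp_perp C.1) }
    · have := finrank_perp C.1
      rw [C.2] at this
      omega
    · have := finrank_perp C.1
      rw [C.2] at this
      omega

end Pool.Agent.Q297.Mds
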