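import Pool.Agent.Q297.MdsCirc

/-!
First moment of the number of circuits.
-/

open Finset Matrix

namespace Pool.Agent.Q297.Mds

variable {F : Type*} [Field F] [Fintype F] [DecidableEq F] {k j : ℕ}
variable {β : Type*} [Fintype β] [DecidableEq β]

lemma count_M (u : β → (Fin k → F)) (hu : ∀ b, Ind u (univ.erase b)) [Nonempty β]
    (S : β → Finset (Fin j)) (hS : ∀ b, (S b).card = k - 1) :
    ((univ.filter (fun M : Fin j → (Fin k → F) =>
        ∀ b, ∀ i ∈ S b, u b ⬝ᵥ M i = 0)).card : ℝ)
      ≤ ((Fintype.card F : ℝ) ^ k) ^ j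
          * (Fintype.card F : ℝ) ^ (univ.filter (fun i => ∀ b, i ∈ S b)).card
          / (Fintype.card F : ℝ) ^ (Fintype.card β * (k-1)) := by
  classical
  set q : ℝ := (Fintype.card F : ℝ) with hq
  have hq0 : 0 < q := by rw [hq]; exact_mod_cast Fintype.card_pos
  have e1 : (univ.filter (fun M : Fin j → (Fin k → F) =>
        ∀ b, ∀ i ∈ S b, u b ⬝ᵥ M i = 0))
      = Fintype.piFinset (fun i : Fin j =>
          univ.filter (fun x : Fin k → F => ∀ b, i ∈ S b → u b ⬝ᵥ x = 0)) := by
    ext M
    simp only [Finset.mem_filter, Finset.mem_univ, true_and, Fintype.mem_piFinset]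
    constructor
    · exact fun h i b hi => h b i hi
    · exact fun h b i hi => h i b hi
  rw [e1, Fintype.card_piFinset]
  push_cast
  set B : Fin j → Finset β := fun i => univ.filter (fun b => i ∈ S b) with hB
  have h1 : ∀ i : Fin j,
      ((univ.filter (fun x : Fin k → F => ∀ b, i ∈ S b → u b ⬝ᵥ x = 0)).card : ℝ)
        ≤ q ^ k / q ^ (B i).card * (if ∀ b, i ∈ S b then q else 1) := by
    intro i
    by_cases hi : ∀ b, i ∈ S b
    · rw [if_pos hi]
      obtain ⟨b0⟩ := (inferInstance : Nonempty β)
      have h2 := count_sub (univ : Finset β) u (univ.erase b0) (Finset.subset_univ _) (hu b0)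
      have h3 : (univ.filter (fun x : Fin k → F => ∀ b, i ∈ S b → u b ⬝ᵥ x = 0))
          ⊆ univ.filter (fun x : Fin k → F => univ.erase b0 ⊆ hyp univ u x) := by
        intro x hx
        rw [Finset.mem_filter] at hx ⊢
        exact ⟨hx.1, fun b _ => Finset.mem_filter.2 ⟨Finset.mem_univ _, hx.2 b (hi b)⟩⟩
      have h4 : ((univ.filter (fun x : Fin k → F => ∀ b, i ∈ S b → u b ⬝ᵥ x = 0)).card : ℝ)
          ≤ ((univ.filter (fun x : Fin k → F => univ.erase b0 ⊆ hyp univ u x)).card : ℝ) := by
        exact_mod_cast Finset.card_le_card h3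
      refine h4.trans (le_of_eq ?_)
      rw [h2]
      have h5 : (B i).card = (univ.erase b0).card + 1 := by
        rw [Finset.card_erase_add_one (Finset.mem_univ b0)]
        congr 1
        exact Finset.filter_true_of_mem fun b _ => hi b
      rw [h5, pow_succ, ← hq]
      field_simp
    · rw [if_neg hi, mul_one]
      push Not at hi
      obtain ⟨b0, hb0⟩ := hi
      have hsub : B i ⊆ univ.erase b0 := by
        intro b hb
        rw [Finset.mem_erase]
        refine ⟨?_, Finset.mem_univ _⟩
        rintro rfl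
        exact hb0 (Finset.mem_filter.1 hb).2
      have h2 := count_sub (univ : Finset β) u (B i) (Finset.subset_univ _) ((hu b0).mono hsub)
      rw [← hq] at h2
      rw [← h2]
      apply le_of_eq
      congr 2
      ext x
      rw [Finset.mem_filter, Finset.mem_filter]
      constructor
      · intro hx
        exact ⟨hx.1, fun b hb => Finset.mem_filter.2 ⟨Finset.mem_univ _,
          hx.2 b (Finset.mem_filter.1 hb).2⟩⟩
      · intro hx
        exact ⟨hx.1, fun b hb => (Finset.mem_filter.1 (hx.2
          (Finset.mem_filter.2 ⟨Finset.mem_univ _, hb⟩ : b ∈ B i))).2⟩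
  refine (Finset.prod_le_prod (fun _ _ => Nat.cast_nonneg _) fun i _ => h1 i).trans
    (le_of_eq ?_)
  rw [Finset.prod_mul_distrib, Finset.prod_div_distrib, Finset.prod_const, Finset.card_univ,
    Fintype.card_fin, Finset.prod_pow_eq_pow_sum]
  have h2 : ∑ i, (B i).card = Fintype.card β * (k-1) := by
    have h3 : ∑ i, (B i).card = ∑ b, (S b).card := by
      simp only [hB, Finset.card_filter]
      rw [Finset.sum_comm]
      refine Finset.sum_congr rfl fun b _ => ?_
      simp
    rw [h3]
    simp_rw [hS]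
    rw [Finset.sum_const, Finset.card_univ, smul_eq_mul]
  have h3 : ∏ i : Fin j, (if ∀ b, i ∈ S b then q else 1)
      = q ^ (univ.filter (fun i => ∀ b, i ∈ S b)).card := by
    rw [Finset.prod_ite, Finset.prod_const, Finset.prod_const_one, mul_one]
  rw [h2, h3]
  ring

lemma count_u [Nonempty β] :
    (((univ.filter (fun u : β → (Fin k → F) => ∑ b, u b = 0)).card : ℕ) : ℝ)
      ≤ ((Fintype.card F : ℝ) ^ k) ^ (Fintype.card β) / (Fintype.card F : ℝ) ^ k := by
  classical
  set q : ℝ := (Fintype.card F : ℝ) with hq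
  have hq0 : 0 < q := by rw [hq]; exact_mod_cast Fintype.card_pos
  obtain ⟨b0⟩ := (inferInstance : Nonempty β)
  have h1 : (univ.filter (fun u : β → (Fin k → F) => ∑ b, u b = 0)).card
      ≤ (univ : Finset ({b : β // b ≠ b0} → (Fin k → F))).card := by
    refine Finset.card_le_card_of_injOn (fun u b => u b.1) (fun _ _ => Finset.mem_coe.2
      (Finset.mem_univ _)) ?_
    intro u hu u' hu' h
    have hu := (Finset.mem_filter.1 (Finset.mem_coe.1 hu)).2
    have hu' := (Finset.mem_filter.1 (Finset.mem_coe.1 hu')).2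
    have h2 : ∀ b, b ≠ b0 → u b = u' b := fun b hb => congrFun h ⟨b, hb⟩
    funext b
    by_cases hb : b = b0
    · subst hb
      rw [← Finset.add_sum_erase univ u (Finset.mem_univ b)] at hu
      rw [← Finset.add_sum_erase univ u' (Finset.mem_univ b)] at hu'
      have h3 : ∑ x ∈ univ.erase b, u x = ∑ x ∈ univ.erase b, u' x :=
        Finset.sum_congr rfl fun x hx => h2 x (Finset.ne_of_mem_erase hx)
      rw [h3, ← hu'] at hu
      exact add_right_cancel hu
    · exact h2 b hb
  have h2 : (univ : Finset ({b : β // b ≠ b0} → (Fin k → F))).card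
      = (Fintype.card F ^ k) ^ (Fintype.card β - 1) := by
    rw [Finset.card_univ, Fintype.card_fun, Fintype.card_fun, Fintype.card_fin]
    congr 1
    rw [Fintype.card_subtype_compl]
    simp
  rw [h2] at h1
  have h3 : ((univ.filter (fun u : β → (Fin k → F) => ∑ b, u b = 0)).card : ℝ)
      ≤ (q ^ k) ^ (Fintype.card β - 1) := by
    rw [hq]; exact_mod_cast h1
  refine h3.trans (le_of_eq ?_)
  rw [eq_div_iff (by positivity), ← pow_succ]
  congr 1
  have : 0 < Fintype.card β := Fintype.card_pos
  omega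

/-- The number of point sets for which a given family of hyperplanes is a circuit. -/
lemma first_moment (D : Finset (Finset (Fin j))) (hD : D.Nonempty)
    (hcard : ∀ T ∈ D, T.card = k - 1)
    (v : (Fin j → (Fin k → F)) → Finset (Fin j) → (Fin k → F))
    (𝒢 : Finset (Fin j → (Fin k → F)))
    (hv : ∀ M ∈ 𝒢, ∀ T ∈ D, ∀ i ∈ T, v M T ⬝ᵥ M i = 0)
    (hc : ∀ M ∈ 𝒢, Circ (v M) D) (hv0 : ∀ M ∈ 𝒢, ∀ T ∈ D, v M T ≠ 0) :
    ((Fintype.card F : ℝ) - 1) * (𝒢.card : ℝ)
      ≤ (((Fintype.card F : ℝ) ^ k) ^ D.card / (Fintype.card F : ℝ) ^ k)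
        * (((Fintype.card F : ℝ) ^ k) ^ j
          * (Fintype.card F : ℝ) ^ (univ.filter (fun i => ∀ T ∈ D, i ∈ T)).card
          / (Fintype.card F : ℝ) ^ (D.card * (k-1))) := by
  classical
  set q : ℝ := (Fintype.card F : ℝ) with hq
  have hq0 : 0 < q := by rw [hq]; exact_mod_cast Fintype.card_pos
  have : Nonempty D := hD.to_subtype
  set U : Finset (D → (Fin k → F)) := univ.filter (fun u => ∑ b, u b = 0) with hU
  set R : (Fin j → (Fin k → F)) → (D → (Fin k → F)) → Prop := fun M u =>
    (∀ b : D, Ind u (univ.erase b)) ∧ ∀ b : D, ∀ i ∈ b.1, u b ⬝ᵥ M i = 0 with hR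
  -- upper bound
  have hup : ∀ u ∈ U, ((𝒢.filter (fun M => R M u)).card : ℝ)
      ≤ (q ^ k) ^ j * q ^ (univ.filter (fun i => ∀ T ∈ D, i ∈ T)).card
          / q ^ (D.card * (k-1)) := by
    intro u _
    by_cases hu : ∀ b : D, Ind u (univ.erase b)
    · have h1 := count_M u hu (fun b : D => b.1) (fun b => hcard b.1 b.2)
      rw [Fintype.card_coe] at h1
      have h2 : (𝒢.filter (fun M => R M u)).card
          ≤ (univ.filter (fun M : Fin j → (Fin k → F) =>
        ∀ b : D, ∀ i ∈ b.1, u b ⬝ᵥ M i = 0)).card := by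
        apply Finset.card_le_card
        intro M hM
        rw [Finset.mem_filter] at hM ⊢
        exact ⟨Finset.mem_univ _, hM.2.2⟩
      have h3 : (univ.filter (fun i : Fin j => ∀ b : D, i ∈ b.1))
          = univ.filter (fun i => ∀ T ∈ D, i ∈ T) := by
        ext i
        rw [Finset.mem_filter, Finset.mem_filter]
        exact ⟨fun h => ⟨h.1, fun T hT => h.2 ⟨T, hT⟩⟩, fun h => ⟨h.1, fun b => h.2 b.1 b.2⟩⟩
      rw [h3] at h1
      exact le_trans (by exact_mod_cast h2) h1
    · have h2 : 𝒢.filter (fun M => R M u) = ∅ := by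
        rw [Finset.filter_eq_empty_iff]
        intro M _ h
        exact hu h.1
      rw [h2, Finset.card_empty, Nat.cast_zero]
      positivity
  -- lower bound
  have hlow : ∀ M ∈ 𝒢, q - 1 ≤ ((U.filter (fun u => R M u)).card : ℝ) := by
    intro M hM
    obtain ⟨f, hf0, hf⟩ := circ_rel (v M) D (hc M hM)
    have h1 : (univ.filter (fun c : F => c ≠ 0)).card ≤ (U.filter (fun u => R M u)).card := by
      refine Finset.card_le_card_of_injOn (fun c (b : D) => (c * f b.1) • v M b.1) ?_ ?_
      · intro c hc'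
        have hc0 : c ≠ 0 := (Finset.mem_filter.1 (Finset.mem_coe.1 hc')).2
        refine Finset.mem_coe.2 (Finset.mem_filter.2 ⟨Finset.mem_filter.2
          ⟨Finset.mem_univ _, ?_⟩, ?_, ?_⟩)
        · have h2 : ∑ b : D, (c * f b.1) • v M b.1 = c • ∑ T ∈ D, f T • v M T := by
            rw [← Finset.sum_coe_sort D (fun T => f T • v M T), Finset.smul_sum]
            refine Finset.sum_congr rfl fun b _ => ?_
            rw [mul_smul]
          rw [h2, hf0, smul_zero]
        · intro b
          rw [ind_iff]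
          intro g hg i hi
          have h3 := (ind_iff (v M) (D.erase b.1)).1 ((hc M hM).2 b.1 b.2)
            (fun T => if hT : T ∈ D then g ⟨T, hT⟩ * (c * f T) else 0) ?_ i.1
            (Finset.mem_erase.2 ⟨fun h => (Finset.ne_of_mem_erase hi) (Subtype.ext h), i.2⟩)
          · simp only [i.2, dif_pos] at h3
            rcases mul_eq_zero.1 h3 with h4 | h4
            · exact h4
            · exact absurd h4 (mul_ne_zero hc0 (hf i.1 i.2))
          · rw [← hg]
            refine Finset.sum_bij' (fun T hT => (⟨T, Finset.mem_of_mem_erase hT⟩ : D))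
              (fun i _ => i.1) ?_ ?_ ?_ ?_ ?_
            · intro T hT
              rw [Finset.mem_erase]
              exact ⟨fun h => (Finset.ne_of_mem_erase hT) (congrArg Subtype.val h),
                Finset.mem_univ _⟩
            · intro i hi
              rw [Finset.mem_erase]
              exact ⟨fun h => (Finset.ne_of_mem_erase hi) (Subtype.ext h), i.2⟩
            · intro _ _; rfl
            · intro _ _; rfl
            · intro T hT
              have hT' := Finset.mem_of_mem_erase hT
              simp only [hT', dif_pos]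
              rw [mul_smul]
        · intro b i hi
          show ((c * f b.1) • v M b.1) ⬝ᵥ M i = 0
          rw [smul_dotProduct, hv M hM b.1 b.2 i hi, smul_zero]
      · intro c hc' c' hc'' h
        obtain ⟨b⟩ := (inferInstance : Nonempty D)
        have h2 : (c * f b.1) • v M b.1 = (c' * f b.1) • v M b.1 := congrFun h b
        have h3 := smul_left_injective F (hv0 M hM b.1 b.2) h2
        exact mul_right_cancel₀ (hf b.1 b.2) h3
    have h2 : (univ.filter (fun c : F => c ≠ 0)).card + 1 = Fintype.card F := by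
      rw [Finset.filter_ne', Finset.card_erase_add_one (Finset.mem_univ _), Finset.card_univ]
    have h3 : ((univ.filter (fun c : F => c ≠ 0)).card : ℝ) + 1 = q := by
      rw [hq, ← h2]; push_cast; ring
    have h4 : ((univ.filter (fun c : F => c ≠ 0)).card : ℝ)
        ≤ ((U.filter (fun u => R M u)).card : ℝ) := by exact_mod_cast h1
    linarith
  have h5 : ∑ M ∈ 𝒢, ((U.filter (fun u => R M u)).card : ℝ)
      = ∑ u ∈ U, ((𝒢.filter (fun M => R M u)).card : ℝ) := by
    have a1 : ∀ M ∈ 𝒢, ((U.filter (fun u => R M u)).card : ℝ)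
        = ∑ u ∈ U, if R M u then (1:ℝ) else 0 := fun M _ => by rw [Finset.sum_boole]
    have a2 : ∀ u ∈ U, ((𝒢.filter (fun M => R M u)).card : ℝ)
        = ∑ M ∈ 𝒢, if R M u then (1:ℝ) else 0 := fun u _ => by rw [Finset.sum_boole]
    rw [Finset.sum_congr rfl a1, Finset.sum_congr rfl a2, Finset.sum_comm]
  have h6 : (q - 1) * (𝒢.card : ℝ) ≤ ∑ M ∈ 𝒢, ((U.filter (fun u => R M u)).card : ℝ) := by
    calc (q - 1) * (𝒢.card : ℝ) = ∑ M ∈ 𝒢, (q - 1) := by
          rw [Finset.sum_const, nsmul_eq_mul]; ring
      _ ≤ _ := Finset.sum_le_sum hlow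
  have h7 := count_u (F := F) (k := k) (β := D)
  rw [Fintype.card_coe] at h7
  rw [h5] at h6
  refine h6.trans ((Finset.sum_le_sum hup).trans ?_)
  rw [Finset.sum_const, nsmul_eq_mul]
  exact mul_le_mul_of_nonneg_right h7 (by positivity)

end Pool.Agent.Q297.Mds
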