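import Mathlib

/-!
Linear algebra over finite fields: solutions of homogeneous systems.
-/

open Finset Matrix

namespace Pool.Agent.Q297.Mds

variable {F : Type*} [Field F] [Fintype F] [DecidableEq F] {k : ℕ}

/-- The evaluation map of a family of functionals. -/
def evalMap {ι : Type*} [Fintype ι] (u : ι → (Fin k → F)) : (Fin k → F) →ₗ[F] (ι → F) where
  toFun x i := u i ⬝ᵥ x
  map_add' x y := by funext i; exact dotProduct_add _ _ _
  map_smul' c x := by funext i; exact dotProduct_smul _ _ _

lemma evalMap_surj {ι : Type*} [Fintype ι] (u : ι → (Fin k → F))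
    (hu : LinearIndependent F u) : Function.Surjective (evalMap u) := by
  have h1 : (Matrix.of u).rank = Fintype.card ι := LinearIndependent.rank_matrix hu
  have h2 : Module.finrank F (LinearMap.range (evalMap u)) = Fintype.card ι := by
    rw [← h1]
    rfl
  rw [← LinearMap.range_eq_top]
  apply Submodule.eq_top_of_finrank_eq
  rw [h2, Module.finrank_fintype_fun_eq_card]

/-- Number of common zeros of linearly independent functionals. -/
lemma ker_count {ι : Type*} [Fintype ι] (u : ι → (Fin k → F))
    (hu : LinearIndependent F u) :
    ((univ.filter (fun x : Fin k → F => ∀ i, u i ⬝ᵥ x = 0)).card : ℝ)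
      = (Fintype.card F : ℝ) ^ k / (Fintype.card F : ℝ) ^ (Fintype.card ι) := by
  classical
  have hq : (0:ℝ) < Fintype.card F := by exact_mod_cast Fintype.card_pos
  have hle : Fintype.card ι ≤ k := by
    have := hu.fintype_card_le_finrank
    rwa [Module.finrank_fintype_fun_eq_card, Fintype.card_fin] at this
  have h1 : Module.finrank F (LinearMap.ker (evalMap u)) = k - Fintype.card ι := by
    have h2 := LinearMap.finrank_range_add_finrank_ker (evalMap u)
    rw [LinearMap.range_eq_top.2 (evalMap_surj u hu), finrank_top,
      Module.finrank_fintype_fun_eq_card, Module.finrank_fintype_fun_eq_card,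
      Fintype.card_fin] at h2
    omega
  have h3 : Fintype.card (LinearMap.ker (evalMap u)) = Fintype.card F ^ (k - Fintype.card ι) := by
    rw [← h1]
    exact Module.card_eq_pow_finrank
  have h4 : (univ.filter (fun x : Fin k → F => ∀ i, u i ⬝ᵥ x = 0)).card
      = Fintype.card (LinearMap.ker (evalMap u)) := by
    rw [← Fintype.card_coe]
    apply Fintype.card_congr
    refine Equiv.subtypeEquivRight fun x => ?_
    rw [Finset.mem_filter, LinearMap.mem_ker, funext_iff]
    simp only [Finset.mem_univ, true_and]
    rfl
  rw [h4, h3]
  push_cast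
  rw [eq_div_iff (by positivity), ← pow_add, Nat.sub_add_cancel hle]

/-- Few vectors have a common annihilator, unless they form a basis. -/
lemma annih_or {ι : Type*} [Fintype ι] (M : ι → (Fin k → F)) (hcard : Fintype.card ι ≤ k) :
    (∃ a : Fin k → F, a ≠ 0 ∧ ∀ i, a ⬝ᵥ M i = 0) ∨
      (LinearIndependent F M ∧ Fintype.card ι = k) := by
  classical
  by_cases h : ∃ a : Fin k → F, a ≠ 0 ∧ ∀ i, a ⬝ᵥ M i = 0
  · exact Or.inl h
  · right
    push Not at h
    have hinj : Function.Injective (evalMap M) := by
      rw [← LinearMap.ker_eq_bot, Submodule.eq_bot_iff]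
      intro a ha
      by_contra hne
      obtain ⟨i, hi⟩ := h a hne
      apply hi
      have := congrFun (LinearMap.mem_ker.1 ha) i
      rw [dotProduct_comm]
      exact this
    have hle := LinearMap.finrank_le_finrank_of_injective hinj
    rw [Module.finrank_fintype_fun_eq_card, Module.finrank_fintype_fun_eq_card,
      Fintype.card_fin] at hle
    have hc : Fintype.card ι = k := le_antisymm hcard hle
    refine ⟨?_, hc⟩
    have hsurj : Function.Surjective (evalMap M) :=
      (LinearMap.injective_iff_surjective_of_finrank_eq_finrank (by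
        rw [Module.finrank_fintype_fun_eq_card, Module.finrank_fintype_fun_eq_card,
          Fintype.card_fin, hc])).1 hinj
    rw [Fintype.linearIndependent_iff]
    intro c hc0 i
    obtain ⟨a, ha⟩ := hsurj (Pi.single i 1)
    have h1 : a ⬝ᵥ (∑ i, c i • M i) = 0 := by rw [hc0, dotProduct_zero]
    rw [dotProduct_sum] at h1
    have h2 : ∀ l, a ⬝ᵥ (c l • M l) = c l * (Pi.single i (1:F) : ι → F) l := by
      intro l
      rw [dotProduct_smul, smul_eq_mul]
      congr 1
      rw [← ha, dotProduct_comm]
      rfl
    simp_rw [h2] at h1
    simpa [Pi.single_apply] using h1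

end Pool.Agent.Q297.Mds
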