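import Pool.Agent.Q297.MdsCode

/-!
The Poisson limit.
-/

open Finset Matrix Module Filter Topology

namespace Pool.Agent.Q297.Mds

lemma choose_mono_half (n K : ℕ) : ∀ k, K ≤ k → 2 * k ≤ n → n.choose K ≤ n.choose k := by
  intro k hk
  induction k, hk using Nat.le_induction with
  | base => intro _; exact le_rfl
  | succ k hk ih =>
    intro h
    exact (ih (by omega)).trans (Nat.choose_le_succ_of_lt_half_left (by omega))

/-- In large dimension the field is much larger than any fixed power of the length. -/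
lemma q_large (n k K : ℕ) (q Λ : ℝ) (hK : K + 1 ≤ k) (hk : 2 * k ≤ n) (hq : 0 < q)
    (hΛ : (n.choose k : ℝ) / q ≤ Λ) :
    (n:ℝ) ^ K / q ≤ (Λ * ((K+1).factorial * 2 ^ (K+1))) / n := by
  have hn0 : 0 < n := by omega
  have hn : (0:ℝ) < n := by exact_mod_cast hn0
  have h1 : (n.choose (K+1) : ℝ) ≤ n.choose k := by
    exact_mod_cast choose_mono_half n (K+1) k hK hk
  have h2 := Nat.pow_le_choose (α := ℝ) (K+1) n
  have h3 : (n:ℝ) / 2 ≤ ((n + 1 - (K+1) : ℕ) : ℝ) := by
    rw [div_le_iff₀ (by norm_num)]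
    have : n ≤ (n + 1 - (K+1)) * 2 := by omega
    exact_mod_cast this
  have h4 : ((n:ℝ) / 2) ^ (K+1) / (K+1).factorial ≤ n.choose k := by
    refine le_trans ?_ (h2.trans h1)
    apply div_le_div_of_nonneg_right _ (by positivity)
    exact pow_le_pow_left₀ (by positivity) h3 _
  have h5 : (n.choose k : ℝ) ≤ Λ * q := (div_le_iff₀ hq).1 hΛ
  have h6 : ((n:ℝ) / 2) ^ (K+1) / (K+1).factorial ≤ Λ * q := h4.trans h5
  rw [div_pow, div_div, div_le_iff₀ (by positivity)] at h6
  rw [div_le_div_iff₀ hq hn]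
  calc (n:ℝ) ^ K * n = (n:ℝ) ^ (K+1) := by rw [pow_succ]
    _ ≤ Λ * q * (2 ^ (K+1) * (K+1).factorial) := h6
    _ = _ := by ring

/-- Transfer from point sets to codes. -/
lemma mds_near (F : Type*) [Field F] [Fintype F] [DecidableEq F] (k n : ℕ) (hk : 1 ≤ k)
    (hkn : k ≤ n) (hq : (4:ℝ) ≤ Fintype.card F) :
    |mdsProb F n k - gp F k n| ≤ 4 / Fintype.card F := by
  rw [mds_card hk hkn]
  obtain ⟨h1, h2, h3⟩ := li_bounds F k n hkn
  set p := ∏ i ∈ range k, (1 - (Fintype.card F : ℝ) ^ i / (Fintype.card F : ℝ) ^ n)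
  have hg0 := gp_nonneg F k n
  have hg1 := gp_le_one F k n
  have hq0 : (0:ℝ) < Fintype.card F := by linarith
  have h4 : 2 / (Fintype.card F : ℝ) ≤ 1 / 2 := by
    rw [div_le_iff₀ hq0]; linarith
  have h5 : (1:ℝ)/2 ≤ p := by linarith
  have h6 : gp F k n / p - gp F k n = gp F k n * ((1 - p) / p) := by
    field_simp
  have h7 : 0 ≤ (1 - p) / p := div_nonneg (by linarith) h3.le
  rw [h6, abs_of_nonneg (mul_nonneg hg0 h7)]
  have h8 : (1 - p) / p ≤ 4 / Fintype.card F := by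
    rw [div_le_iff₀ h3]
    have h9 : 4 / (Fintype.card F : ℝ) * (1/2) ≤ 4 / Fintype.card F * p :=
      mul_le_mul_of_nonneg_left h5 (by positivity)
    have h10 : 4 / (Fintype.card F : ℝ) * (1/2) = 2 / Fintype.card F := by ring
    linarith
  calc gp F k n * ((1 - p) / p) ≤ 1 * (4 / Fintype.card F) :=
        mul_le_mul hg1 h8 h7 zero_le_one
    _ = _ := one_mul _

/-- Uniform Poisson approximation for `2 k ≤ n`. -/
theorem mds_uniform (ε Λ : ℝ) (hε : 0 < ε) (hΛ0 : 0 < Λ) :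
    ∃ N : ℕ, ∀ (F : Type) [Field F] [Fintype F] (n k : ℕ), 1 ≤ k → 2 * k ≤ n → N ≤ n →
      (N : ℝ) ≤ Fintype.card F → (n.choose k : ℝ) / Fintype.card F ≤ Λ →
      |mdsProb F n k - Real.exp (- ((n.choose k : ℝ) / Fintype.card F))| ≤ ε := by
  -- choose the truncation level
  have ht : Tendsto (fun m : ℕ => Λ ^ m / (m.factorial : ℝ)) atTop (𝓝 0) :=
    FloorSemiring.tendsto_pow_div_factorial_atTop Λ
  obtain ⟨m, hm⟩ : ∃ m : ℕ, Λ ^ (m+1) / ((m+1).factorial : ℝ) ≤ ε / 8 := by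
    have h1 := (ht.eventually (gt_mem_nhds (by positivity : (0:ℝ) < ε / 8)))
    obtain ⟨N, hN⟩ := eventually_atTop.1 h1
    exact ⟨N, (hN (N+1) (by omega)).le⟩
  set C1 : ℝ := Λ * ((m+2+1).factorial * 2 ^ (m+2+1)) with hC1
  set C2 : ℝ := 5 * (m + 2) ^ 3 * (1 + Λ) ^ (m+1) * Λ with hC2
  have hC1p : 0 < C1 := by rw [hC1]; positivity
  have hC2p : 0 < C2 := by rw [hC2]; positivity
  obtain ⟨N1, hN1⟩ := exists_nat_gt (2 * C1)
  obtain ⟨N2, hN2⟩ := exists_nat_gt (4 * C2 * C1 / ε)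
  obtain ⟨N3, hN3⟩ := exists_nat_gt (14 / ε)
  obtain ⟨N4, hN4⟩ := exists_nat_gt (4 * Λ ^ 2 * (m + 2) / ε)
  refine ⟨max (max N1 N2) (max (max N3 N4) 4), ?_⟩
  intro F _ _ n k hk hkn hn hq hΛ
  classical
  have hn1 : (N1:ℝ) ≤ n := by
    exact_mod_cast (le_trans (le_trans (le_max_left _ _) (le_max_left _ _)) hn)
  have hn2 : (N2:ℝ) ≤ n := by
    exact_mod_cast (le_trans (le_trans (le_max_right _ _) (le_max_left _ _)) hn)
  have hn4 : (N4:ℝ) ≤ n := by
    exact_mod_cast (le_trans (le_trans (le_max_right _ _)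
      (le_trans (le_max_left _ _) (le_max_right _ _))) hn)
  have hq3 : (N3:ℝ) ≤ Fintype.card F := by
    refine le_trans ?_ hq
    exact_mod_cast (le_trans (le_max_left _ _) (le_trans (le_max_left _ _) (le_max_right _ _)))
  have hq4 : (4:ℝ) ≤ Fintype.card F := by
    refine le_trans ?_ hq
    exact_mod_cast (le_trans (le_max_right _ _) (le_max_right _ _))
  have hq0 : (0:ℝ) < Fintype.card F := by linarith
  have hnpos : (0:ℝ) < n := by
    have : 0 < n := by omega
    exact_mod_cast this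
  have h1 := mds_near F k n hk (by omega) hq4
  have h7q : 7 / (Fintype.card F : ℝ) ≤ ε / 2 := by
    rw [div_le_iff₀ hq0]
    have : 14 / ε < Fintype.card F := lt_of_lt_of_le hN3 hq3
    rw [div_lt_iff₀ hε] at this
    nlinarith
  have hsplit : (7:ℝ) / Fintype.card F = 4 / Fintype.card F + 3 / Fintype.card F := by ring
  have key : |gp F k n - Real.exp (- ((n.choose k : ℝ) / Fintype.card F))|
      ≤ ε / 2 + 3 / Fintype.card F := by
    rcases Nat.lt_or_ge k (m+2+1) with hc | hc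
    · refine (gp_small hk n (by omega) Λ hΛ0.le hΛ).trans ?_
      have h2 : Λ ^ 2 * ((k:ℝ) / n) ≤ ε / 2 := by
        have h3 : (k:ℝ) ≤ m + 2 := by
          have : (k:ℝ) ≤ ((m + 2 : ℕ) : ℝ) := by exact_mod_cast (by omega : k ≤ m + 2)
          push_cast at this; exact this
        have h4 : 4 * Λ ^ 2 * (m + 2) / ε < n := lt_of_lt_of_le hN4 hn4
        rw [div_lt_iff₀ hε] at h4
        rw [← mul_div_assoc, div_le_iff₀ hnpos]
        have h5 : Λ ^ 2 * (k:ℝ) ≤ Λ ^ 2 * (m + 2) := mul_le_mul_of_nonneg_left h3 (by positivity)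
        have h6 : 0 ≤ Λ ^ 2 * ((m:ℝ) + 2) := by positivity
        nlinarith
      linarith
    · have hρ := q_large n k (m+2) (Fintype.card F) Λ hc hkn hq0 hΛ
      rw [← hC1] at hρ
      have hρ2 : C1 / n ≤ 1 / 2 := by
        rw [div_le_iff₀ hnpos]
        linarith [lt_of_lt_of_le hN1 hn1]
      refine (gp_large hk n (by omega) m Λ (C1 / n) hΛ0.le hΛ hρ2 hρ).trans ?_
      rw [← hC2]
      have h2 : C2 * (C1 / n) ≤ ε / 4 := by
        have h4 : 4 * C2 * C1 / ε < n := lt_of_lt_of_le hN2 hn2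
        rw [div_lt_iff₀ hε] at h4
        rw [← mul_div_assoc, div_le_iff₀ hnpos]
        nlinarith
      linarith
  have h2 : mdsProb F n k - Real.exp (- ((n.choose k : ℝ) / Fintype.card F))
      = (mdsProb F n k - gp F k n)
        + (gp F k n - Real.exp (- ((n.choose k : ℝ) / Fintype.card F))) := by ring
  rw [h2]
  have h3 := abs_add_le (mdsProb F n k - gp F k n)
    (gp F k n - Real.exp (- ((n.choose k : ℝ) / Fintype.card F)))
  linarith

/-- Uniform Poisson approximation. -/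
theorem mds_uniform_all (ε Λ : ℝ) (hε : 0 < ε) (hΛ0 : 0 < Λ) :
    ∃ N : ℕ, ∀ (F : Type) [Field F] [Fintype F] (n k : ℕ), 1 ≤ k → k < n → N ≤ n →
      (N : ℝ) ≤ Fintype.card F → (n.choose k : ℝ) / Fintype.card F ≤ Λ →
      |mdsProb F n k - Real.exp (- ((n.choose k : ℝ) / Fintype.card F))| ≤ ε := by
  obtain ⟨N, hN⟩ := mds_uniform ε Λ hε hΛ0
  refine ⟨N, ?_⟩
  intro F _ _ n k hk hkn hn hq hΛ
  rcases Nat.lt_or_ge n (2 * k) with h | h
  · rw [mdsProb_dual hk hkn, ← Nat.choose_symm hkn.le]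
    exact hN F n (n-k) (by omega) (by omega) hn hq (by rw [Nat.choose_symm hkn.le]; exact hΛ)
  · exact hN F n k hk h hn hq hΛ

/-- The Poisson limit for the probability that a random linear code is MDS. -/
theorem mds_limit (lam : ℝ) (hlam : 0 < lam) (F : ℕ → Type) [∀ j, Field (F j)]
    [∀ j, Fintype (F j)] (n k : ℕ → ℕ) (hk : ∀ j, 1 ≤ k j) (hkn : ∀ j, k j ≤ n j)
    (hn : Tendsto n atTop atTop) (hq : Tendsto (fun j => Fintype.card (F j)) atTop atTop)
    (hlim : Tendsto (fun j => ((n j).choose (k j) : ℝ) / (Fintype.card (F j) : ℝ))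
      atTop (𝓝 lam)) :
    Tendsto (fun j => mdsProb (F j) (n j) (k j)) atTop (𝓝 (Real.exp (-lam))) := by
  have hqR : Tendsto (fun j => (Fintype.card (F j) : ℝ)) atTop atTop :=
    tendsto_natCast_atTop_atTop.comp hq
  have hexp : Tendsto (fun j => Real.exp (-(((n j).choose (k j) : ℝ)
      / (Fintype.card (F j) : ℝ)))) atTop (𝓝 (Real.exp (-lam))) :=
    (Real.continuous_exp.tendsto _).comp hlim.neg
  have hdiff : Tendsto (fun j => mdsProb (F j) (n j) (k j)
      - Real.exp (-(((n j).choose (k j) : ℝ) / (Fintype.card (F j) : ℝ)))) atTop (𝓝 0) := by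
    rw [Metric.tendsto_atTop']
    intro ε hε
    obtain ⟨N, hN⟩ := mds_uniform_all (ε/2) (lam + 1) (by positivity) (by linarith)
    have h1 : ∀ᶠ j in atTop, N ≤ n j := hn.eventually_ge_atTop N
    have h2 : ∀ᶠ j in atTop, (N:ℝ) ≤ Fintype.card (F j) := hqR.eventually_ge_atTop _
    have h3 : ∀ᶠ j in atTop, ((n j).choose (k j) : ℝ) / (Fintype.card (F j) : ℝ) < lam + 1 :=
      hlim.eventually (gt_mem_nhds (by linarith))
    have h4 : ∀ᶠ j in atTop, lam / 2 < ((n j).choose (k j) : ℝ) / (Fintype.card (F j) : ℝ) :=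
      hlim.eventually (lt_mem_nhds (by linarith))
    have h5 : ∀ᶠ j in atTop, 2 / lam ≤ (Fintype.card (F j) : ℝ) :=
      hqR.eventually_ge_atTop _
    obtain ⟨J, hJ⟩ := eventually_atTop.1 (h1.and (h2.and (h3.and (h4.and h5))))
    refine ⟨J, fun j hj => ?_⟩
    obtain ⟨g1, g2, g3, g4, g5⟩ := hJ j hj.le
    have hlt : k j < n j := by
      rcases lt_or_eq_of_le (hkn j) with h | h
      · exact h
      · exfalso
        rw [h, Nat.choose_self] at g4
        have hq0 : (0:ℝ) < Fintype.card (F j) := by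
          have : 0 < 2 / lam := by positivity
          linarith
        rw [lt_div_iff₀ hq0] at g4
        rw [div_le_iff₀ hlam] at g5
        push_cast at g4
        nlinarith
    have h6 := hN (F j) (n j) (k j) (hk j) hlt g1 g2 g3.le
    rw [Real.dist_eq, sub_zero]
    linarith
  have := hdiff.add hexp
  simpa using this

end Pool.Agent.Q297.Mds
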