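import Pool.Agent.Q297.MdsToggle
import Pool.Agent.Q297.MdsLin

/-!
The probability that a random vector avoids a family of hyperplanes.
-/

open Finset Matrix

namespace Pool.Agent.Q297.Mds

section choose

lemma pow_sub_desc (h : ℕ) : ∀ r : ℕ,
    (h:ℝ) ^ r - (h.descFactorial r : ℝ) ≤ (r:ℝ) * (r - 1) * (h:ℝ) ^ (r - 1)
      ∧ 0 ≤ (h:ℝ) ^ r - (h.descFactorial r : ℝ) := by
  intro r
  induction r with
  | zero => simp
  | succ r ih =>
    obtain ⟨ih1, ih2⟩ := ih
    have hd : (h.descFactorial (r+1) : ℝ) = ((h - r : ℕ) : ℝ) * (h.descFactorial r : ℝ) := by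
      rw [Nat.descFactorial_succ]; push_cast; ring
    have hdn : (0:ℝ) ≤ (h.descFactorial r : ℝ) := Nat.cast_nonneg _
    have hh : (0:ℝ) ≤ (h:ℝ) := Nat.cast_nonneg _
    have h1 : (h:ℝ) - r ≤ ((h - r : ℕ) : ℝ) := by
      have : h ≤ (h - r) + r := by omega
      have := (Nat.cast_le (α := ℝ)).2 this
      push_cast at this
      linarith
    have h2 : ((h - r : ℕ) : ℝ) ≤ h := by exact_mod_cast Nat.sub_le _ _
    constructor
    · rw [hd, pow_succ]
      rcases Nat.eq_zero_or_pos r with h0 | h0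
      · subst h0
        simp
      · have e1 : (h:ℝ) ^ (r + 1 - 1) = (h:ℝ) ^ (r-1) * h := by
          rw [← pow_succ]; congr 1; omega
        have e2 : (h:ℝ) ^ r = (h:ℝ) ^ (r-1) * h := by
          rw [← pow_succ]; congr 1; omega
        rw [e1]
        have h3 : ((h:ℝ) - r) * (h.descFactorial r : ℝ)
            ≤ ((h - r : ℕ) : ℝ) * (h.descFactorial r : ℝ) :=
          mul_le_mul_of_nonneg_right h1 hdn
        have h4 : (h.descFactorial r : ℝ) ≤ (h:ℝ) ^ (r-1) * h := by
          rw [← e2]; linarith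
        have h5 : ((h:ℝ) ^ r - (h.descFactorial r : ℝ)) * h
            ≤ ((r:ℝ) * (r - 1) * (h:ℝ) ^ (r - 1)) * h := mul_le_mul_of_nonneg_right ih1 hh
        have h6 : (r:ℝ) * (h.descFactorial r : ℝ) ≤ r * ((h:ℝ) ^ (r-1) * h) :=
          mul_le_mul_of_nonneg_left h4 (Nat.cast_nonneg _)
        have h7 : 0 ≤ (r:ℝ) * ((h:ℝ) ^ (r-1) * h) := by positivity
        push_cast
        nlinarith
    · rw [hd, pow_succ]
      have h3 : ((h - r : ℕ) : ℝ) * (h.descFactorial r : ℝ)
          ≤ h * (h.descFactorial r : ℝ) := mul_le_mul_of_nonneg_right h2 hdn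
      have h5 : (h.descFactorial r : ℝ) * h ≤ (h:ℝ) ^ r * h :=
        mul_le_mul_of_nonneg_right (by linarith) hh
      linarith

lemma choose_approx (h r : ℕ) :
    |(h.choose r : ℝ) - (h:ℝ) ^ r / r.factorial| ≤ (r:ℝ) * (r - 1) * (h:ℝ) ^ (r - 1) := by
  have h1 := pow_sub_desc h r
  have h2 : (h.choose r : ℝ) = (h.descFactorial r : ℝ) / r.factorial := by
    rw [eq_div_iff (by exact_mod_cast r.factorial_ne_zero)]
    rw [Nat.descFactorial_eq_factorial_mul_choose]
    push_cast; ring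
  have h3 : (1:ℝ) ≤ r.factorial := by exact_mod_cast Nat.succ_le_of_lt r.factorial_pos
  rw [h2, ← sub_div, abs_div, abs_of_nonneg (by linarith : (0:ℝ) ≤ (r.factorial : ℝ)),
    abs_sub_comm, abs_of_nonneg h1.2]
  exact (div_le_self h1.2 h3).trans h1.1

end choose

variable {F : Type*} [Field F] [Fintype F] [DecidableEq F] {k : ℕ}
variable {α : Type*} [DecidableEq α]

/-- Linear independence of a subfamily. -/
def Ind (v : α → (Fin k → F)) (I : Finset α) : Prop :=
  LinearIndependent F (fun i : I => v i)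

omit [Fintype F] [DecidableEq F] [DecidableEq α] in
lemma ind_empty (v : α → (Fin k → F)) : Ind v ∅ := by
  unfold Ind
  exact linearIndependent_empty_type

omit [Fintype F] [DecidableEq F] [DecidableEq α] in
lemma Ind.mono {v : α → (Fin k → F)} {I J : Finset α} (h : I ⊆ J) (hJ : Ind v J) : Ind v I := by
  unfold Ind at *
  exact hJ.comp (fun i : I => (⟨i.1, h i.2⟩ : J)) (by
    intro a b hab
    apply Subtype.ext
    exact congrArg (fun z : J => z.1) hab)

/-- The hyperplanes of the family containing `x`. -/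
def hyp (𝒯 : Finset α) (v : α → (Fin k → F)) (x : Fin k → F) : Finset α :=
  𝒯.filter (fun T => v T ⬝ᵥ x = 0)

lemma count_sub (𝒯 : Finset α) (v : α → (Fin k → F)) (I : Finset α) (hI : I ⊆ 𝒯)
    (h : Ind v I) :
    ((univ.filter (fun x : Fin k → F => I ⊆ hyp 𝒯 v x)).card : ℝ)
      = (Fintype.card F : ℝ) ^ k / (Fintype.card F : ℝ) ^ I.card := by
  have h1 := ker_count (fun i : I => v i) h
  rw [Fintype.card_coe] at h1
  rw [← h1]
  congr 2
  ext x
  rw [Finset.mem_filter, Finset.mem_filter]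
  constructor
  · intro hs
    exact ⟨hs.1, fun i => (Finset.mem_filter.1 (hs.2 i.2)).2⟩
  · intro hs
    exact ⟨hs.1, fun i hi => Finset.mem_filter.2 ⟨hI hi, hs.2 ⟨i, hi⟩⟩⟩

/-- The weighted number of dependent subfamilies. -/
noncomputable def dep (𝒯 : Finset α) (v : α → (Fin k → F)) (m : ℕ) : ℝ :=
  open Classical in
  ∑ J ∈ 𝒯.powerset.filter (fun J => J.card ≤ m + 1 ∧ ¬ Ind v J),
    (Fintype.card F : ℝ) / (Fintype.card F : ℝ) ^ J.card

lemma perM_main (𝒯 : Finset α) (v : α → (Fin k → F)) (m : ℕ) :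
    |((univ.filter (fun x : Fin k → F => hyp 𝒯 v x = ∅)).card : ℝ) /
          (Fintype.card F : ℝ) ^ k
        - open Classical in ∑ I ∈ 𝒯.powerset.filter (fun I => I.card ≤ m ∧ Ind v I),
            (-1:ℝ) ^ I.card / (Fintype.card F : ℝ) ^ I.card|
      ≤ (𝒯.card.choose (m+1) : ℝ) / (Fintype.card F : ℝ) ^ (m+1)
        + (m + 1) * dep 𝒯 v m := by
  classical
  set q : ℝ := (Fintype.card F : ℝ) with hq
  have hq0 : 0 < q := by rw [hq]; exact_mod_cast Fintype.card_pos
  have hqk : 0 < q ^ k := by positivity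
  -- the pointwise inequality
  have hpt : ∀ x : Fin k → F, _ := fun x =>
    toggle (hyp 𝒯 v x) (Ind v) (ind_empty v) (fun I J h => Ind.mono h) m
  have hsum := Finset.sum_le_sum (s := univ) fun x _ => hpt x
  have habs : |∑ x : Fin k → F, ((if hyp 𝒯 v x = ∅ then (1:ℝ) else 0)
        - ∑ I ∈ (hyp 𝒯 v x).powerset.filter (fun I => I.card ≤ m ∧ Ind v I),
            (-1:ℝ) ^ I.card)| ≤ _ := (Finset.abs_sum_le_sum_abs _ _).trans hsum
  rw [Finset.sum_sub_distrib, Finset.sum_add_distrib] at habs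
  have e1 : ∑ x : Fin k → F, (if hyp 𝒯 v x = ∅ then (1:ℝ) else 0)
      = ((univ.filter (fun x : Fin k → F => hyp 𝒯 v x = ∅)).card : ℝ) := by
    rw [Finset.sum_boole]
  have hswap : ∀ (P : Finset α → Prop) [DecidablePred P] (w : Finset α → ℝ),
      ∑ x : Fin k → F, ∑ I ∈ (hyp 𝒯 v x).powerset.filter P, w I
        = ∑ I ∈ 𝒯.powerset.filter P,
          w I * ((univ.filter (fun x : Fin k → F => I ⊆ hyp 𝒯 v x)).card : ℝ) := by
    intro P _ w
    have h1 : ∀ x : Fin k → F, ∑ I ∈ (hyp 𝒯 v x).powerset.filter P, w I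
        = ∑ I ∈ 𝒯.powerset.filter P, if I ⊆ hyp 𝒯 v x then w I else 0 := by
      intro x
      rw [← Finset.sum_filter, Finset.filter_filter]
      apply Finset.sum_congr _ fun _ _ => rfl
      ext I
      simp only [Finset.mem_filter, Finset.mem_powerset]
      constructor
      · intro h
        exact ⟨h.1.trans (Finset.filter_subset _ _), h.2, h.1⟩
      · intro h
        exact ⟨h.2.2, h.2.1⟩
    simp_rw [h1]
    rw [Finset.sum_comm]
    refine Finset.sum_congr rfl fun I _ => ?_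
    rw [← Finset.sum_filter, Finset.sum_const, nsmul_eq_mul, mul_comm]
  have e2 : ∑ x : Fin k → F,
      ∑ I ∈ (hyp 𝒯 v x).powerset.filter (fun I => I.card ≤ m ∧ Ind v I), (-1:ℝ) ^ I.card
      = q ^ k * ∑ I ∈ 𝒯.powerset.filter (fun I => I.card ≤ m ∧ Ind v I),
            (-1:ℝ) ^ I.card / q ^ I.card := by
    rw [hswap, Finset.mul_sum]
    refine Finset.sum_congr rfl fun I hI => ?_
    obtain ⟨h1, h2, h3⟩ := Finset.mem_filter.1 hI
    rw [count_sub 𝒯 v I (Finset.mem_powerset.1 h1) h3]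
    ring
  have e3 : ∑ x : Fin k → F,
      (((hyp 𝒯 v x).powerset.filter (fun J => J.card = m + 1 ∧ Ind v J)).card : ℝ)
      ≤ q ^ k * ((𝒯.card.choose (m+1) : ℝ) / q ^ (m+1)) := by
    have h1 : ∀ x : Fin k → F,
        (((hyp 𝒯 v x).powerset.filter (fun J => J.card = m + 1 ∧ Ind v J)).card : ℝ)
        = ∑ I ∈ (hyp 𝒯 v x).powerset.filter (fun J => J.card = m + 1 ∧ Ind v J), (1:ℝ) := by
      intro x; simp
    simp_rw [h1]
    rw [hswap]
    have h2 : ∑ I ∈ 𝒯.powerset.filter (fun J => J.card = m + 1 ∧ Ind v J),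
        (1:ℝ) * ((univ.filter (fun x : Fin k → F => I ⊆ hyp 𝒯 v x)).card : ℝ)
        = ∑ I ∈ 𝒯.powerset.filter (fun J => J.card = m + 1 ∧ Ind v J),
          q ^ k / q ^ (m+1) := by
      refine Finset.sum_congr rfl fun I hI => ?_
      obtain ⟨h1, h2, h3⟩ := Finset.mem_filter.1 hI
      rw [count_sub 𝒯 v I (Finset.mem_powerset.1 h1) h3, h2, one_mul]
    rw [h2, Finset.sum_const, nsmul_eq_mul]
    have h3 : (𝒯.powerset.filter (fun J => J.card = m + 1 ∧ Ind v J)).card
        ≤ 𝒯.card.choose (m+1) := by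
      rw [← Finset.card_powersetCard]
      apply Finset.card_le_card
      intro J hJ
      obtain ⟨h1, h2, _⟩ := Finset.mem_filter.1 hJ
      exact Finset.mem_powersetCard.2 ⟨Finset.mem_powerset.1 h1, h2⟩
    have h4 : ((𝒯.powerset.filter (fun J => J.card = m + 1 ∧ Ind v J)).card : ℝ)
        ≤ 𝒯.card.choose (m+1) := by exact_mod_cast h3
    calc _ ≤ (𝒯.card.choose (m+1) : ℝ) * (q ^ k / q ^ (m+1)) :=
          mul_le_mul_of_nonneg_right h4 (by positivity)
      _ = _ := by ring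
  have e4 : ∑ x : Fin k → F,
      ((((hyp 𝒯 v x).powerset ×ˢ (hyp 𝒯 v x)).filter (fun p => p.1.card ≤ m ∧ Ind v p.1 ∧
            p.2 ∉ p.1 ∧ ¬ Ind v (insert p.2 p.1))).card : ℝ)
      ≤ q ^ k * ((m + 1) * dep 𝒯 v m) := by
    set S := (𝒯.powerset ×ˢ 𝒯).filter (fun p => p.1.card ≤ m ∧ Ind v p.1 ∧
            p.2 ∉ p.1 ∧ ¬ Ind v (insert p.2 p.1)) with hS
    have h1 : ∀ x : Fin k → F,
        ((((hyp 𝒯 v x).powerset ×ˢ (hyp 𝒯 v x)).filter (fun p => p.1.card ≤ m ∧ Ind v p.1 ∧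
            p.2 ∉ p.1 ∧ ¬ Ind v (insert p.2 p.1))).card : ℝ)
        ≤ ∑ p ∈ S, if p.1 ⊆ hyp 𝒯 v x then (1:ℝ) else 0 := by
      intro x
      rw [Finset.sum_boole]
      have : ((hyp 𝒯 v x).powerset ×ˢ (hyp 𝒯 v x)).filter (fun p => p.1.card ≤ m ∧
          Ind v p.1 ∧ p.2 ∉ p.1 ∧ ¬ Ind v (insert p.2 p.1))
          ⊆ S.filter (fun p => p.1 ⊆ hyp 𝒯 v x) := by
        intro p hp
        simp only [Finset.mem_filter, Finset.mem_product, Finset.mem_powerset, hS] at hp ⊢
        have hsub : hyp 𝒯 v x ⊆ 𝒯 := Finset.filter_subset _ _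
        exact ⟨⟨⟨hp.1.1.trans hsub, hsub hp.1.2⟩, hp.2⟩, hp.1.1⟩
      exact_mod_cast Finset.card_le_card this
    refine (Finset.sum_le_sum fun x _ => h1 x).trans ?_
    rw [Finset.sum_comm]
    have h2 : ∀ p ∈ S, ∑ x : Fin k → F, (if p.1 ⊆ hyp 𝒯 v x then (1:ℝ) else 0)
        = q ^ k * (q / q ^ (insert p.2 p.1).card) := by
      intro p hp
      simp only [Finset.mem_filter, Finset.mem_product, Finset.mem_powerset, hS] at hp
      rw [Finset.sum_boole, count_sub 𝒯 v p.1 hp.1.1 hp.2.2.1,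
        Finset.card_insert_of_notMem hp.2.2.2.1, pow_succ]
      rw [← hq]
      field_simp
    rw [Finset.sum_congr rfl h2, ← Finset.mul_sum]
    refine mul_le_mul_of_nonneg_left ?_ hqk.le
    -- group by the union
    have h3 : ∀ p ∈ S, insert p.2 p.1 ∈
        𝒯.powerset.filter (fun J => J.card ≤ m + 1 ∧ ¬ Ind v J) := by
      intro p hp
      simp only [Finset.mem_filter, Finset.mem_product, Finset.mem_powerset, hS] at hp ⊢
      exact ⟨Finset.insert_subset hp.1.2 hp.1.1,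
        by rw [Finset.card_insert_of_notMem hp.2.2.2.1]; omega, hp.2.2.2.2⟩
    rw [← Finset.sum_fiberwise_of_maps_to h3]
    unfold dep
    rw [Finset.mul_sum]
    refine Finset.sum_le_sum fun J hJ => ?_
    have h4 : ∀ p ∈ S.filter (fun p => insert p.2 p.1 = J),
        q / q ^ (insert p.2 p.1).card = q / q ^ J.card := by
      intro p hp
      rw [(Finset.mem_filter.1 hp).2]
    rw [Finset.sum_congr rfl h4, Finset.sum_const, nsmul_eq_mul]
    refine mul_le_mul_of_nonneg_right ?_ (by positivity)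
    have h5 : (S.filter (fun p => insert p.2 p.1 = J)).card ≤ J.card := by
      refine Finset.card_le_card_of_injOn (fun p => p.2) ?_ ?_
      · intro p hp
        simp only [Finset.coe_filter, Set.mem_ofPred_eq] at hp
        show p.2 ∈ J
        rw [← hp.2]
        exact Finset.mem_insert_self _ _
      · intro p hp p' hp' h
        simp only [Finset.coe_filter, Set.mem_ofPred_eq, hS, Finset.mem_filter] at hp hp'
        have e1 := Finset.erase_insert hp.1.2.2.2.1
        have e2 := Finset.erase_insert hp'.1.2.2.2.1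
        have h' : p.2 = p'.2 := h
        refine Prod.ext ?_ h'
        rw [← e1, ← e2, hp.2, hp'.2, h']
    have h6 : J.card ≤ m + 1 := (Finset.mem_filter.1 hJ).2.1
    have h7 : (S.filter (fun p => insert p.2 p.1 = J)).card ≤ m + 1 := h5.trans h6
    exact_mod_cast h7
  rw [e1, e2] at habs
  have hfin := habs.trans (add_le_add e3 e4)
  rw [← mul_add] at hfin
  have h8 : |((univ.filter (fun x : Fin k → F => hyp 𝒯 v x = ∅)).card : ℝ) / q ^ k
        - ∑ I ∈ 𝒯.powerset.filter (fun I => I.card ≤ m ∧ Ind v I),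
            (-1:ℝ) ^ I.card / q ^ I.card| * q ^ k
      = |((univ.filter (fun x : Fin k → F => hyp 𝒯 v x = ∅)).card : ℝ)
        - q ^ k * ∑ I ∈ 𝒯.powerset.filter (fun I => I.card ≤ m ∧ Ind v I),
            (-1:ℝ) ^ I.card / q ^ I.card| := by
    rw [← abs_of_pos hqk, ← abs_mul, abs_of_pos hqk]
    congr 1
    field_simp
  rw [← h8] at hfin
  rw [mul_comm (q ^ k)] at hfin
  exact le_of_mul_le_mul_right hfin hqk

/-- The avoidance probability is close to the Poisson value. -/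
lemma perM (𝒯 : Finset α) (v : α → (Fin k → F)) (m : ℕ) (y : ℝ)
    (hy : y = 𝒯.card / Fintype.card F) :
    |((univ.filter (fun x : Fin k → F => hyp 𝒯 v x = ∅)).card : ℝ) /
          (Fintype.card F : ℝ) ^ k - Real.exp (-y)|
      ≤ 2 * (y ^ (m+1) / (m+1).factorial)
        + ∑ r ∈ range (m+1), (r:ℝ) * (r - 1) * y ^ (r-1) / Fintype.card F
        + (m + 2) * dep 𝒯 v m := by
  classical
  set q : ℝ := (Fintype.card F : ℝ) with hq
  have hq0 : 0 < q := by rw [hq]; exact_mod_cast Fintype.card_pos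
  have hq1 : 1 ≤ q := by rw [hq]; exact_mod_cast Fintype.card_pos
  have hy0 : 0 ≤ y := by rw [hy]; positivity
  have h1 := perM_main 𝒯 v m
  rw [← hq] at h1
  have h2 := exp_taylor m hy0
  -- binomial bound
  have h3 : (𝒯.card.choose (m+1) : ℝ) / q ^ (m+1) ≤ y ^ (m+1) / (m+1).factorial := by
    have h5 : (𝒯.card.choose (m+1) : ℝ) ≤ (𝒯.card : ℝ) ^ (m+1) / (m+1).factorial :=
      Nat.choose_le_pow_div (m+1) 𝒯.card
    rw [hy, div_pow, div_div, mul_comm (q ^ (m+1)), ← div_div]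
    exact div_le_div_of_nonneg_right h5 (by positivity)
  -- the main sums
  have h4 : |∑ I ∈ 𝒯.powerset.filter (fun I => I.card ≤ m ∧ Ind v I),
            (-1:ℝ) ^ I.card / q ^ I.card
        - ∑ I ∈ 𝒯.powerset.filter (fun I => I.card ≤ m), (-1:ℝ) ^ I.card / q ^ I.card|
      ≤ dep 𝒯 v m := by
    have h5 : 𝒯.powerset.filter (fun I => I.card ≤ m ∧ Ind v I)
        = (𝒯.powerset.filter (fun I => I.card ≤ m)).filter (fun I => Ind v I) := by
      rw [Finset.filter_filter]
    rw [h5, ← Finset.sum_filter_add_sum_filter_not (𝒯.powerset.filter (fun I => I.card ≤ m))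
      (fun I => Ind v I) (fun I => (-1:ℝ) ^ I.card / q ^ I.card)]
    rw [sub_add_cancel_left, abs_neg]
    refine (Finset.abs_sum_le_sum_abs _ _).trans ?_
    have h6 : ∀ I ∈ (𝒯.powerset.filter (fun I => I.card ≤ m)).filter (fun I => ¬ Ind v I),
        |(-1:ℝ) ^ I.card / q ^ I.card| ≤ q / q ^ I.card := by
      intro I _
      rw [abs_div, abs_pow, abs_neg, abs_one, one_pow, abs_of_nonneg (by positivity)]
      exact div_le_div_of_nonneg_right hq1 (by positivity)
    refine (Finset.sum_le_sum h6).trans ?_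
    unfold dep
    refine Finset.sum_le_sum_of_subset_of_nonneg ?_ fun _ _ _ => by positivity
    intro I hI
    simp only [Finset.mem_filter] at hI ⊢
    exact ⟨hI.1.1, by omega, hI.2⟩
  have h5 : ∑ I ∈ 𝒯.powerset.filter (fun I => I.card ≤ m), (-1:ℝ) ^ I.card / q ^ I.card
      = ∑ r ∈ range (m+1), (-1:ℝ) ^ r * ((𝒯.card.choose r : ℝ) / q ^ r) := by
    have hmap : ∀ I ∈ 𝒯.powerset.filter (fun I => I.card ≤ m), I.card ∈ range (m+1) := by
      intro I hI
      rw [Finset.mem_range]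
      have := (Finset.mem_filter.1 hI).2
      omega
    rw [← Finset.sum_fiberwise_of_maps_to hmap]
    refine Finset.sum_congr rfl fun r hr => ?_
    have h6 : ∀ I ∈ (𝒯.powerset.filter (fun I => I.card ≤ m)).filter (fun I => I.card = r),
        (-1:ℝ) ^ I.card / q ^ I.card = (-1:ℝ) ^ r / q ^ r := by
      intro I hI
      rw [(Finset.mem_filter.1 hI).2]
    rw [Finset.sum_congr rfl h6, Finset.sum_const, nsmul_eq_mul]
    have h7 : (𝒯.powerset.filter (fun I => I.card ≤ m)).filter (fun I => I.card = r)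
        = 𝒯.powersetCard r := by
      ext I
      simp only [Finset.mem_filter, Finset.mem_powerset, Finset.mem_powersetCard]
      rw [Finset.mem_range] at hr
      constructor
      · exact fun h => ⟨h.1.1, h.2⟩
      · exact fun h => ⟨⟨h.1, by omega⟩, h.2⟩
    rw [h7, Finset.card_powersetCard]
    ring
  have h6 : |∑ r ∈ range (m+1), (-1:ℝ) ^ r * ((𝒯.card.choose r : ℝ) / q ^ r)
        - ∑ r ∈ range (m+1), (-1:ℝ) ^ r * (y ^ r / r.factorial)|
      ≤ ∑ r ∈ range (m+1), (r:ℝ) * (r - 1) * y ^ (r-1) / q := by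
    rw [← Finset.sum_sub_distrib]
    refine (Finset.abs_sum_le_sum_abs _ _).trans (Finset.sum_le_sum fun r _ => ?_)
    rw [← mul_sub, abs_mul, abs_pow, abs_neg, abs_one, one_pow, one_mul]
    have h7 := choose_approx 𝒯.card r
    have h8 : (𝒯.card.choose r : ℝ) / q ^ r - y ^ r / r.factorial
        = ((𝒯.card.choose r : ℝ) - (𝒯.card : ℝ) ^ r / r.factorial) / q ^ r := by
      rw [hy, div_pow, sub_div]
      congr 1
      rw [div_div, div_div, mul_comm]
    rw [h8, abs_div, abs_of_nonneg (by positivity : (0:ℝ) ≤ q ^ r)]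
    rcases Nat.eq_zero_or_pos r with h0 | h0
    · subst h0; simp
    · have h9 : (r:ℝ) * (r - 1) * y ^ (r-1) / q
          = (r:ℝ) * (r - 1) * (𝒯.card : ℝ) ^ (r - 1) / q ^ r := by
        rw [hy, div_pow]
        have : q ^ r = q ^ (r-1) * q := by rw [← pow_succ]; congr 1; omega
        rw [this]
        field_simp
      rw [h9]
      exact div_le_div_of_nonneg_right h7 (by positivity)
  set A := ((univ.filter (fun x : Fin k → F => hyp 𝒯 v x = ∅)).card : ℝ) / q ^ k
  set S1 := ∑ I ∈ 𝒯.powerset.filter (fun I => I.card ≤ m ∧ Ind v I),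
            (-1:ℝ) ^ I.card / q ^ I.card
  rw [h5] at h4
  set S2 := ∑ r ∈ range (m+1), (-1:ℝ) ^ r * ((𝒯.card.choose r : ℝ) / q ^ r)
  set S3 := ∑ r ∈ range (m+1), (-1:ℝ) ^ r * (y ^ r / r.factorial)
  have t1 : A - Real.exp (-y) = (A - S1) + (S1 - S2) + (S2 - S3) - (Real.exp (-y) - S3) := by
    ring
  rw [t1]
  have t2 := abs_sub ((A - S1) + (S1 - S2) + (S2 - S3)) (Real.exp (-y) - S3)
  have t3 := abs_add_le ((A - S1) + (S1 - S2)) (S2 - S3)
  have t4 := abs_add_le (A - S1) (S1 - S2)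
  have t5 : ((m:ℝ) + 2) * dep 𝒯 v m = (m + 1) * dep 𝒯 v m + dep 𝒯 v m := by ring
  rw [t5]
  linarith

end Pool.Agent.Q297.Mds
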