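import Pool.Agent.Q297.MdsArc

/-!
Summing the circuit bounds.
-/

open Finset Matrix

namespace Pool.Agent.Q297.Mds

/-- The number of small families of sets with a prescribed size of intersection. -/
lemma count_families (j k t m : ℕ) (ht : t + 1 < k) (hkj : k ≤ j) :
    ((((univ : Finset (Fin j)).powersetCard (k-1)).powerset.filter
        (fun D : Finset (Finset (Fin j)) => D.card ≤ m + 1 ∧
          (univ.filter (fun i => ∀ T ∈ D, i ∈ T)).card = t)).card : ℝ)
      ≤ (m + 2) * (j.choose (k-1) : ℝ) * ((j:ℝ) ^ (m+2)) ^ (k - 1 - t) := by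
  classical
  set 𝒯 := (univ : Finset (Fin j)).powersetCard (k-1) with h𝒯
  set d := k - 1 - t with hd
  have hj1 : 1 ≤ j := by omega
  have hj1' : (1:ℝ) ≤ j := by exact_mod_cast hj1
  set W : Finset (Fin j) → Finset (Finset (Finset (Fin j))) := fun R =>
    (𝒯.filter (fun T => R ⊆ T)).powerset.filter (fun D => D.card ≤ m + 1) with hW
  have hsub : 𝒯.powerset.filter
        (fun D : Finset (Finset (Fin j)) => D.card ≤ m + 1 ∧
          (univ.filter (fun i => ∀ T ∈ D, i ∈ T)).card = t)
      ⊆ ((univ : Finset (Fin j)).powersetCard t).biUnion W := by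
    intro D hD
    obtain ⟨h1, h2, h3⟩ := Finset.mem_filter.1 hD
    refine Finset.mem_biUnion.2 ⟨univ.filter (fun i => ∀ T ∈ D, i ∈ T),
      Finset.mem_powersetCard.2 ⟨Finset.subset_univ _, h3⟩, ?_⟩
    refine Finset.mem_filter.2 ⟨Finset.mem_powerset.2 fun T hT => ?_, h2⟩
    refine Finset.mem_filter.2 ⟨Finset.mem_powerset.1 h1 hT, fun i hi => ?_⟩
    exact (Finset.mem_filter.1 hi).2 T hT
  -- size of each piece
  have hR : ∀ R ∈ (univ : Finset (Fin j)).powersetCard t,
      ((W R).card : ℝ) ≤ (m + 2) * ((j:ℝ) ^ d) ^ (m+1) := by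
    intro R hR
    have hRt : R.card = t := (Finset.mem_powersetCard.1 hR).2
    set N := 𝒯.filter (fun T => R ⊆ T) with hN
    have h1 : N.card ≤ j ^ d := by
      have h2 : N.card ≤ ((univ : Finset (Fin j)).powersetCard d).card := by
        refine Finset.card_le_card_of_injOn (fun T => T \ R) ?_ ?_
        · intro T hT
          obtain ⟨h3, h4⟩ := Finset.mem_filter.1 (Finset.mem_coe.1 hT)
          refine Finset.mem_coe.2 (Finset.mem_powersetCard.2 ⟨Finset.subset_univ _, ?_⟩)
          have h5 := Finset.card_sdiff_add_card_eq_card h4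
          have h6 := (Finset.mem_powersetCard.1 h3).2
          show (T \ R).card = d
          omega
        · intro T hT T' hT' h
          have h4 := (Finset.mem_filter.1 (Finset.mem_coe.1 hT)).2
          have h4' := (Finset.mem_filter.1 (Finset.mem_coe.1 hT')).2
          have h5 : T \ R = T' \ R := h
          rw [← Finset.sdiff_union_of_subset h4, ← Finset.sdiff_union_of_subset h4', h5]
      rw [Finset.card_powersetCard, Finset.card_univ, Fintype.card_fin] at h2
      exact h2.trans (Nat.choose_le_pow _ _)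
    have hmap : ∀ D ∈ W R, D.card ∈ range (m+2) := by
      intro D hD
      rw [Finset.mem_range]
      have := (Finset.mem_filter.1 hD).2
      omega
    rw [Finset.card_eq_sum_card_fiberwise hmap]
    push_cast
    have h3 : ∀ r ∈ range (m+2), (((W R).filter (fun D => D.card = r)).card : ℝ)
        ≤ ((j:ℝ) ^ d) ^ (m+1) := by
      intro r hr
      have h4 : ((W R).filter (fun D => D.card = r)).card ≤ N.card.choose r := by
        rw [← Finset.card_powersetCard]
        apply Finset.card_le_card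
        intro D hD
        obtain ⟨g1, g2⟩ := Finset.mem_filter.1 hD
        exact Finset.mem_powersetCard.2 ⟨Finset.mem_powerset.1 (Finset.mem_filter.1 g1).1, g2⟩
      have h5 : ((W R).filter (fun D => D.card = r)).card ≤ (j ^ d) ^ (m+1) := by
        refine h4.trans ((Nat.choose_le_pow _ _).trans ((Nat.pow_le_pow_left h1 r).trans ?_))
        apply Nat.pow_le_pow_right (Nat.pow_pos (by omega))
        rw [Finset.mem_range] at hr
        omega
      exact_mod_cast h5
    refine (Finset.sum_le_sum h3).trans ?_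
    rw [Finset.sum_const, Finset.card_range, nsmul_eq_mul]
    push_cast
    exact le_rfl
  have h1 : ((𝒯.powerset.filter
        (fun D : Finset (Finset (Fin j)) => D.card ≤ m + 1 ∧
          (univ.filter (fun i => ∀ T ∈ D, i ∈ T)).card = t)).card : ℝ)
      ≤ ∑ R ∈ (univ : Finset (Fin j)).powersetCard t, ((W R).card : ℝ) := by
    have := (Finset.card_le_card hsub).trans Finset.card_biUnion_le
    exact_mod_cast this
  refine h1.trans ((Finset.sum_le_sum hR).trans ?_)
  rw [Finset.sum_const, Finset.card_powersetCard, Finset.card_univ, Fintype.card_fin,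
    nsmul_eq_mul]
  have h2 : j.choose t ≤ j.choose (k-1) * j ^ d := by
    have h3 : j.choose (k-1) * (k-1).choose t = j.choose t * (j - t).choose (k - 1 - t) :=
      Nat.choose_mul (by omega)
    have h4 : 1 ≤ (j - t).choose (k - 1 - t) := Nat.choose_pos (by omega)
    have h5 : (k-1).choose t ≤ j ^ d := by
      have : (k-1).choose t = (k-1).choose d := by
        rw [hd]; exact (Nat.choose_symm (by omega)).symm
      rw [this]
      exact (Nat.choose_le_pow _ _).trans (Nat.pow_le_pow_left (by omega) _)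
    calc j.choose t = j.choose t * 1 := (mul_one _).symm
      _ ≤ j.choose t * (j - t).choose (k - 1 - t) := Nat.mul_le_mul_left _ h4
      _ = j.choose (k-1) * (k-1).choose t := h3.symm
      _ ≤ _ := Nat.mul_le_mul_left _ h5
  have h3 : (j.choose t : ℝ) ≤ j.choose (k-1) * (j:ℝ) ^ d := by exact_mod_cast h2
  have h4 : ((j:ℝ) ^ (m+2)) ^ d = (j:ℝ) ^ d * ((j:ℝ) ^ d) ^ (m+1) := by
    rw [← pow_succ', ← pow_mul, ← pow_mul]
    congr 1
    ring
  rw [h4]
  calc (j.choose t : ℝ) * ((m + 2) * ((j:ℝ) ^ d) ^ (m+1))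
      ≤ (j.choose (k-1) * (j:ℝ) ^ d) * ((m + 2) * ((j:ℝ) ^ d) ^ (m+1)) :=
        mul_le_mul_of_nonneg_right h3 (by positivity)
    _ = _ := by ring

lemma geom_small {ρ : ℝ} (h0 : 0 ≤ ρ) (h1 : ρ ≤ 1 / 2) (n : ℕ) :
    ∑ t ∈ range n, ρ ^ (n - t) ≤ 2 * ρ := by
  have h2 : ∀ n : ℕ, ∑ t ∈ range n, ρ ^ (n - t) ≤ 2 * ρ := by
    intro n
    induction n with
    | zero => simp; exact h0
    | succ n ih =>
      rw [Finset.sum_range_succ]
      have h3 : ∑ t ∈ range n, ρ ^ (n + 1 - t) = ρ * ∑ t ∈ range n, ρ ^ (n - t) := by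
        rw [Finset.mul_sum]
        refine Finset.sum_congr rfl fun t ht => ?_
        rw [Finset.mem_range] at ht
        rw [← pow_succ']
        congr 1
        omega
      rw [h3, Nat.add_sub_cancel_left, pow_one]
      nlinarith
  exact h2 n

variable {F : Type*} [Field F] [Fintype F] [DecidableEq F] {k j : ℕ}

lemma circ_term (hk : 1 ≤ k) (m : ℕ) (D : Finset (Finset (Fin j)))
    (hD : D ∈ ((univ : Finset (Fin j)).powersetCard (k-1)).powerset) :
    (open Classical in
      (Fintype.card F : ℝ) / (Fintype.card F : ℝ) ^ D.card *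
      ((univ.filter (fun M : Fin j → (Fin k → F) => Good M ∧ Circ (nrm M) D)).card : ℝ)
        / ((Fintype.card F : ℝ) ^ k) ^ j)
      ≤ if (univ.filter (fun i => ∀ T ∈ D, i ∈ T)).card + 1 < k then
          2 * (Fintype.card F : ℝ) ^ (univ.filter (fun i => ∀ T ∈ D, i ∈ T)).card
            / (Fintype.card F : ℝ) ^ k
        else 0 := by
  classical
  set q : ℝ := (Fintype.card F : ℝ) with hq
  have hq0 : 0 < q := by rw [hq]; exact_mod_cast Fintype.card_pos
  have hq2 : 2 ≤ q := by
    rw [hq]; exact_mod_cast Fintype.one_lt_card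
  set 𝒢 := univ.filter (fun M : Fin j → (Fin k → F) => Good M ∧ Circ (nrm M) D) with h𝒢
  have hcard : ∀ T ∈ D, T.card = k - 1 := fun T hT =>
    (Finset.mem_powersetCard.1 (Finset.mem_powerset.1 hD hT)).2
  set t := (univ.filter (fun i : Fin j => ∀ T ∈ D, i ∈ T)).card with ht
  by_cases hD2 : 2 ≤ D.card
  · have hDne : D.Nonempty := Finset.card_pos.1 (by omega)
    have ht2 : t + 1 < k := by
      obtain ⟨T, hT, T', hT', hne⟩ := Finset.one_lt_card.1 (show 1 < D.card by omega)
      have h1 : (univ.filter (fun i : Fin j => ∀ T ∈ D, i ∈ T)) ⊆ T ∩ T' := by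
        intro i hi
        have := (Finset.mem_filter.1 hi).2
        exact Finset.mem_inter.2 ⟨this T hT, this T' hT'⟩
      have h2 : T ∩ T' ⊂ T := by
        refine Finset.ssubset_iff_subset_ne.2 ⟨Finset.inter_subset_left, fun h => hne ?_⟩
        have h3 : T ⊆ T' := Finset.inter_eq_left.1 h
        exact Finset.eq_of_subset_of_card_le h3 (by rw [hcard T hT, hcard T' hT'])
      have h3 := Finset.card_lt_card h2
      have h4 := Finset.card_le_card h1
      rw [hcard T hT] at h3
      omega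
    rw [if_pos ht2]
    have h1 := first_moment D hDne hcard nrm 𝒢 (fun M hM T hT i hi => by
        have h2 := nrm_spec hk M (Finset.mem_filter.1 hM).2.1 T (hcard T hT)
        rw [← mem_zer, h2.2]; exact hi)
      (fun M hM => (Finset.mem_filter.1 hM).2.2)
      (fun M hM T hT => (nrm_spec hk M (Finset.mem_filter.1 hM).2.1 T (hcard T hT)).1)
    rw [← hq, ← ht] at h1
    have h2 : (q ^ k) ^ D.card / q ^ k * ((q ^ k) ^ j * q ^ t / q ^ (D.card * (k-1)))
        = (q ^ k) ^ j * (q ^ D.card * q ^ t / q ^ k) := by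
      have h3 : (q ^ k) ^ D.card = q ^ D.card * q ^ (D.card * (k-1)) := by
        rw [← pow_mul, ← pow_add]
        congr 1
        obtain ⟨k', rfl⟩ : ∃ k', k = k' + 1 := ⟨k - 1, by omega⟩
        simp only [Nat.add_sub_cancel]
        ring
      rw [h3]
      field_simp
    rw [h2] at h1
    have h4 : q ≤ 2 * (q - 1) := by linarith
    have h5 : q * (𝒢.card : ℝ) ≤ 2 * ((q ^ k) ^ j * (q ^ D.card * q ^ t / q ^ k)) := by
      have : (0:ℝ) ≤ 𝒢.card := Nat.cast_nonneg _
      nlinarith
    rw [div_le_iff₀ (by positivity), div_mul_eq_mul_div, div_le_iff₀ (by positivity)]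
    calc q * (𝒢.card : ℝ) ≤ 2 * ((q ^ k) ^ j * (q ^ D.card * q ^ t / q ^ k)) := h5
      _ = _ := by ring
  · have h1 : 𝒢 = ∅ := by
      rw [h𝒢, Finset.filter_eq_empty_iff]
      intro M _ h
      exact h.2.1 (ind_pair hk M h.1 D (Finset.mem_powerset.1 hD) (by omega))
    rw [h1, Finset.card_empty, Nat.cast_zero, mul_zero, zero_div]
    split_ifs
    · positivity
    · exact le_rfl

lemma circ_sum (hk : 1 ≤ k) (hj : k ≤ j) (m : ℕ)
    (hρ : (j:ℝ) ^ (m+2) / Fintype.card F ≤ 1 / 2) :
    (open Classical in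
      (∑ M ∈ univ.filter (fun M : Fin j → (Fin k → F) => Good M),
        circW ((univ : Finset (Fin j)).powersetCard (k-1)) (nrm M) m)
          / ((Fintype.card F : ℝ) ^ k) ^ j)
      ≤ 4 * (m + 2) * ((j.choose (k-1) : ℝ) / Fintype.card F)
          * ((j:ℝ) ^ (m+2) / Fintype.card F) := by
  classical
  set q : ℝ := (Fintype.card F : ℝ) with hq
  have hq0 : 0 < q := by rw [hq]; exact_mod_cast Fintype.card_pos
  set 𝒯 := (univ : Finset (Fin j)).powersetCard (k-1) with h𝒯
  set 𝒢 := univ.filter (fun M : Fin j → (Fin k → F) => Good M) with h𝒢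
  set S := 𝒯.powerset.filter (fun D => D.card ≤ m + 1) with hS
  set tt : Finset (Finset (Fin j)) → ℕ := fun D =>
    (univ.filter (fun i : Fin j => ∀ T ∈ D, i ∈ T)).card with htt
  have h1 : ∀ M : Fin j → (Fin k → F), circW 𝒯 (nrm M) m
      = ∑ D ∈ S, if Circ (nrm M) D then q / q ^ D.card else 0 := by
    intro M
    unfold circW
    rw [← Finset.sum_filter, hS, Finset.filter_filter]
  have h2 : (∑ M ∈ 𝒢, circW 𝒯 (nrm M) m) / (q ^ k) ^ j
      = ∑ D ∈ S, (q / q ^ D.card *
      ((univ.filter (fun M : Fin j → (Fin k → F) => Good M ∧ Circ (nrm M) D)).card : ℝ)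
        / (q ^ k) ^ j) := by
    simp_rw [h1]
    rw [Finset.sum_comm, Finset.sum_div]
    refine Finset.sum_congr rfl fun D _ => ?_
    rw [← Finset.sum_filter, Finset.sum_const, nsmul_eq_mul, h𝒢, Finset.filter_filter]
    ring
  rw [h2]
  have h3 : ∀ D ∈ S, (q / q ^ D.card *
      ((univ.filter (fun M : Fin j → (Fin k → F) => Good M ∧ Circ (nrm M) D)).card : ℝ)
        / (q ^ k) ^ j) ≤ if tt D + 1 < k then 2 * q ^ tt D / q ^ k else 0 := fun D hD =>
    circ_term hk m D (Finset.mem_filter.1 hD).1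
  refine (Finset.sum_le_sum h3).trans ?_
  rw [← Finset.sum_filter]
  have hmap : ∀ D ∈ S.filter (fun D => tt D + 1 < k), tt D ∈ range (k-1) := by
    intro D hD
    rw [Finset.mem_range]
    have := (Finset.mem_filter.1 hD).2
    omega
  rw [← Finset.sum_fiberwise_of_maps_to hmap]
  have h4 : ∀ t ∈ range (k-1), ∑ D ∈ (S.filter (fun D => tt D + 1 < k)).filter
      (fun D => tt D = t), 2 * q ^ tt D / q ^ k
      ≤ (2 * (m + 2) * ((j.choose (k-1) : ℝ) / q)) * ((j:ℝ) ^ (m+2) / q) ^ (k - 1 - t) := by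
    intro t ht
    rw [Finset.mem_range] at ht
    have h5 : ∀ D ∈ (S.filter (fun D => tt D + 1 < k)).filter (fun D => tt D = t),
        2 * q ^ tt D / q ^ k = 2 * q ^ t / q ^ k := by
      intro D hD
      rw [(Finset.mem_filter.1 hD).2]
    rw [Finset.sum_congr rfl h5, Finset.sum_const, nsmul_eq_mul]
    have h6 := count_families j k t m (by omega) hj
    have h7 : (((S.filter (fun D => tt D + 1 < k)).filter (fun D => tt D = t)).card : ℝ)
        ≤ (m + 2) * (j.choose (k-1) : ℝ) * ((j:ℝ) ^ (m+2)) ^ (k - 1 - t) := by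
      refine le_trans ?_ h6
      have : (S.filter (fun D => tt D + 1 < k)).filter (fun D => tt D = t)
          ⊆ 𝒯.powerset.filter (fun D => D.card ≤ m + 1 ∧ tt D = t) := by
        intro D hD
        obtain ⟨g1, g2⟩ := Finset.mem_filter.1 hD
        obtain ⟨g3, _⟩ := Finset.mem_filter.1 g1
        obtain ⟨g4, g5⟩ := Finset.mem_filter.1 g3
        exact Finset.mem_filter.2 ⟨g4, g5, g2⟩
      exact_mod_cast Finset.card_le_card this
    have h8 : q ^ k = q * q ^ (k - 1 - t) * q ^ t := by
      rw [mul_assoc, ← pow_add, ← pow_succ']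
      congr 1
      omega
    calc (((S.filter (fun D => tt D + 1 < k)).filter (fun D => tt D = t)).card : ℝ)
          * (2 * q ^ t / q ^ k)
        ≤ ((m + 2) * (j.choose (k-1) : ℝ) * ((j:ℝ) ^ (m+2)) ^ (k - 1 - t))
          * (2 * q ^ t / q ^ k) := mul_le_mul_of_nonneg_right h7 (by positivity)
      _ = _ := by
          rw [h8, div_pow]
          field_simp
  refine (Finset.sum_le_sum h4).trans ?_
  rw [← Finset.mul_sum]
  have h9 := geom_small (ρ := (j:ℝ) ^ (m+2) / q) (by positivity) hρ (k-1)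
  calc (2 * (m + 2) * ((j.choose (k-1) : ℝ) / q)) * ∑ t ∈ range (k-1),
          ((j:ℝ) ^ (m+2) / q) ^ (k - 1 - t)
      ≤ (2 * (m + 2) * ((j.choose (k-1) : ℝ) / q)) * (2 * ((j:ℝ) ^ (m+2) / q)) :=
        mul_le_mul_of_nonneg_left h9 (by positivity)
    _ = _ := by ring

end Pool.Agent.Q297.Mds
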