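import Pool.Agent.Q297.MdsSum

/-!
Telescoping.
-/

open Finset Matrix

namespace Pool.Agent.Q297.Mds

variable {F : Type*} [Field F] [Fintype F] [DecidableEq F] {k j : ℕ}

/-- The expected number of bad hyperplanes through a new point. -/
noncomputable def yy (F : Type*) [Fintype F] (k j : ℕ) : ℝ :=
  (j.choose (k-1) : ℝ) / Fintype.card F

lemma yy_nonneg (F : Type*) [Fintype F] (k j : ℕ) : 0 ≤ yy F k j := by
  unfold yy; positivity

lemma gp_err (hk : 1 ≤ k) (hj : k ≤ j) (m : ℕ) (Y ρ : ℝ) (hY : 1 ≤ Y)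
    (hyY : yy F k j ≤ Y) (hρ2 : ρ ≤ 1 / 2) (hρ : (j:ℝ) ^ (m+2) / Fintype.card F ≤ ρ) :
    |gp F k (j+1) - Real.exp (- yy F k j) * gp F k j|
      ≤ 2 * (yy F k j ^ (m+1) / (m+1).factorial)
        + 5 * (m + 2) ^ 3 * Y ^ (m+1) * yy F k j * ρ := by
  classical
  have hq0 : (0:ℝ) < Fintype.card F := by exact_mod_cast Fintype.card_pos
  have hy0 := yy_nonneg F k j
  set y := yy F k j with hy
  have hρ0 : 0 ≤ ρ := le_trans (by positivity) hρ
  have hqρ : 1 / (Fintype.card F : ℝ) ≤ ρ := by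
    refine le_trans ?_ hρ
    apply div_le_div_of_nonneg_right _ hq0.le
    have : (1:ℝ) ≤ j := by exact_mod_cast hk.trans hj
    exact one_le_pow₀ this
  have h1 := gp_step (F := F) hk hj m y hy
  refine h1.trans ?_
  have h2 : ∑ r ∈ range (m+1), (r:ℝ) * (r - 1) * y ^ (r-1) / Fintype.card F
      ≤ (m + 2) ^ 3 * Y ^ (m+1) * y * ρ := by
    have h3 : ∀ r ∈ range (m+1), (r:ℝ) * (r - 1) * y ^ (r-1) / Fintype.card F
        ≤ (m + 2) ^ 2 * Y ^ (m+1) * y * ρ := by
      intro r hr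
      rw [Finset.mem_range] at hr
      rcases Nat.lt_or_ge r 2 with h0 | h0
      · have : (r:ℝ) * (r - 1) = 0 := by
          interval_cases r <;> simp
        rw [this]
        simp only [zero_mul, zero_div]
        positivity
      · have e1 : y ^ (r - 1) = y ^ (r - 2) * y := by
          rw [← pow_succ]; congr 1; omega
        have e2 : y ^ (r - 2) ≤ Y ^ (m+1) :=
          (pow_le_pow_left₀ hy0 hyY _).trans (pow_le_pow_right₀ hY (by omega))
        have e3 : (r:ℝ) * (r - 1) ≤ (m + 2) ^ 2 := by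
          have h4 : (r:ℝ) ≤ m + 2 := by
            have : (r:ℝ) ≤ ((m + 2 : ℕ) : ℝ) := by exact_mod_cast (by omega : r ≤ m + 2)
            push_cast at this; exact this
          have h5 : (2:ℝ) ≤ r := by exact_mod_cast h0
          nlinarith
        have e4 : 0 ≤ (r:ℝ) * (r - 1) := by
          have h5 : (2:ℝ) ≤ r := by exact_mod_cast h0
          nlinarith
        rw [e1]
        calc (r:ℝ) * (r - 1) * (y ^ (r - 2) * y) / Fintype.card F
            = ((r:ℝ) * (r - 1)) * y ^ (r - 2) * y * (1 / Fintype.card F) := by ring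
          _ ≤ (m + 2) ^ 2 * Y ^ (m+1) * y * ρ := by
              apply mul_le_mul _ hqρ (by positivity) (by positivity)
              apply mul_le_mul_of_nonneg_right _ hy0
              exact mul_le_mul e3 e2 (by positivity) (by positivity)
    refine (Finset.sum_le_sum h3).trans ?_
    rw [Finset.sum_const, Finset.card_range, nsmul_eq_mul]
    push_cast
    have h4 : ((m:ℝ) + 1) * ((m + 2) ^ 2 * Y ^ (m+1) * y * ρ)
        ≤ (m + 2) * ((m + 2) ^ 2 * Y ^ (m+1) * y * ρ) :=
      mul_le_mul_of_nonneg_right (by linarith) (by positivity)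
    calc _ ≤ _ := h4
      _ = _ := by ring
  set 𝒯 := (univ : Finset (Fin j)).powersetCard (k-1) with h𝒯
  have hcard : y = (𝒯.card : ℝ) / (Fintype.card F : ℝ) := by
    rw [h𝒯, Finset.card_powersetCard, Finset.card_univ, Fintype.card_fin, hy]
    rfl
  have h3 : (∑ M ∈ univ.filter (fun M : Fin j → (Fin k → F) => Good M),
            dep 𝒯 (nrm M) m) / ((Fintype.card F : ℝ) ^ k) ^ j
      ≤ 4 * (m + 2) ^ 2 * Y ^ (m+1) * y * ρ := by
    have h4 : ∑ M ∈ univ.filter (fun M : Fin j → (Fin k → F) => Good M),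
            dep 𝒯 (nrm M) m
        ≤ ((m + 2) * Y ^ (m+1)) * ∑ M ∈ univ.filter (fun M : Fin j → (Fin k → F) => Good M),
            circW 𝒯 (nrm M) m := by
      rw [Finset.mul_sum]
      exact Finset.sum_le_sum fun M _ => dep_le 𝒯 (nrm M) m y Y hcard hY hyY
    have h5 := circ_sum (F := F) hk hj m (hρ.trans hρ2)
    rw [← h𝒯] at h5
    calc _ ≤ (((m + 2) * Y ^ (m+1)) *
          ∑ M ∈ univ.filter (fun M : Fin j → (Fin k → F) => Good M),
            circW 𝒯 (nrm M) m) / ((Fintype.card F : ℝ) ^ k) ^ j :=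
          div_le_div_of_nonneg_right h4 (by positivity)
      _ = ((m + 2) * Y ^ (m+1)) *
          ((∑ M ∈ univ.filter (fun M : Fin j → (Fin k → F) => Good M),
            circW 𝒯 (nrm M) m) / ((Fintype.card F : ℝ) ^ k) ^ j) := by ring
      _ ≤ ((m + 2) * Y ^ (m+1)) * (4 * (m + 2) * ((j.choose (k-1) : ℝ) / Fintype.card F)
          * ((j:ℝ) ^ (m+2) / Fintype.card F)) := mul_le_mul_of_nonneg_left h5 (by positivity)
      _ ≤ ((m + 2) * Y ^ (m+1)) * (4 * (m + 2) * y * ρ) := by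
          apply mul_le_mul_of_nonneg_left _ (by positivity)
          apply mul_le_mul_of_nonneg_left hρ (by positivity)
      _ = _ := by ring
  have h4 : ((m:ℝ) + 2) * ((∑ M ∈ univ.filter (fun M : Fin j → (Fin k → F) => Good M),
            dep 𝒯 (nrm M) m) / ((Fintype.card F : ℝ) ^ k) ^ j)
      ≤ (m + 2) * (4 * (m + 2) ^ 2 * Y ^ (m+1) * y * ρ) :=
    mul_le_mul_of_nonneg_left h3 (by positivity)
  calc _ ≤ 2 * (y ^ (m+1) / (m+1).factorial) + (m + 2) ^ 3 * Y ^ (m+1) * y * ρ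
        + (m + 2) * (4 * (m + 2) ^ 2 * Y ^ (m+1) * y * ρ) :=
        add_le_add (add_le_add le_rfl h2) h4
    _ = _ := by ring

lemma gp_err_one (hk : 1 ≤ k) (hj : k ≤ j) :
    |gp F k (j+1) - Real.exp (- yy F k j) * gp F k j| ≤ yy F k j ^ 2 := by
  classical
  have h1 := gp_step (F := F) hk hj 1 (yy F k j) rfl
  have h2 : ∑ M ∈ univ.filter (fun M : Fin j → (Fin k → F) => Good M),
            dep ((univ : Finset (Fin j)).powersetCard (k-1)) (nrm M) 1 = 0 := by
    apply Finset.sum_eq_zero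
    intro M hM
    exact dep_one _ _ fun J hJ hc => ind_pair hk M (Finset.mem_filter.1 hM).2 J hJ hc
  rw [h2] at h1
  refine h1.trans (le_of_eq ?_)
  simp [Finset.sum_range_succ]
  ring

lemma tel (e : ℕ → ℝ) (he : ∀ j, k ≤ j →
      |gp F k (j+1) - Real.exp (- yy F k j) * gp F k j| ≤ e j) (n : ℕ) (hn : k ≤ n) :
    |gp F k n - Real.exp (- ∑ j ∈ Ico k n, yy F k j) * gp F k k| ≤ ∑ j ∈ Ico k n, e j := by
  induction n, hn using Nat.le_induction with
  | base => simp
  | succ n hn ih =>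
    rw [Finset.sum_Ico_succ_top hn, Finset.sum_Ico_succ_top hn]
    have h1 := he n hn
    have h2 : gp F k (n+1) - Real.exp (-(∑ j ∈ Ico k n, yy F k j + yy F k n)) * gp F k k
        = (gp F k (n+1) - Real.exp (- yy F k n) * gp F k n)
          + Real.exp (- yy F k n)
            * (gp F k n - Real.exp (- ∑ j ∈ Ico k n, yy F k j) * gp F k k) := by
      rw [neg_add, Real.exp_add]; ring
    rw [h2]
    refine (abs_add_le _ _).trans ?_
    rw [abs_mul, abs_of_pos (Real.exp_pos _)]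
    have h3 : Real.exp (- yy F k n) ≤ 1 := by
      rw [Real.exp_le_one_iff]
      have := yy_nonneg F k n
      linarith
    have h4 := mul_le_mul h3 ih (abs_nonneg _) zero_le_one
    linarith

lemma sum_yy (hk : 1 ≤ k) (n : ℕ) (hn : k ≤ n) :
    ∑ j ∈ Ico k n, yy F k j = (n.choose k : ℝ) / Fintype.card F - 1 / Fintype.card F := by
  induction n, hn using Nat.le_induction with
  | base => simp
  | succ n hn ih =>
    rw [Finset.sum_Ico_succ_top hn, ih]
    obtain ⟨k', rfl⟩ : ∃ k', k = k' + 1 := ⟨k - 1, by omega⟩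
    unfold yy
    rw [Nat.choose_succ_succ' n k', Nat.add_sub_cancel]
    push_cast
    ring

/-- Weierstrass product inequality. -/
lemma prod_one_sub (m : ℕ) (f : ℕ → ℝ) (h0 : ∀ i, 0 ≤ f i) (h1 : ∀ i < m, f i ≤ 1) :
    1 - ∑ i ∈ range m, f i ≤ ∏ i ∈ range m, (1 - f i)
      ∧ 0 ≤ ∏ i ∈ range m, (1 - f i) ∧ ∏ i ∈ range m, (1 - f i) ≤ 1 := by
  induction m with
  | zero => simp
  | succ m ih =>
    obtain ⟨i1, i2, i3⟩ := ih fun i hi => h1 i (by omega)
    rw [Finset.sum_range_succ, Finset.prod_range_succ]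
    have h2 := h0 m
    have h3 := h1 m (by omega)
    have h4 : 0 ≤ ∑ i ∈ range m, f i := Finset.sum_nonneg fun i _ => h0 i
    refine ⟨?_, ?_, ?_⟩
    · nlinarith
    · exact mul_nonneg i2 (by linarith)
    · nlinarith

/-- Sum of the inverse powers. -/
lemma geom_q (q : ℝ) (hq : 2 ≤ q) (k : ℕ) : ∑ i ∈ range k, q ^ i / q ^ k ≤ 2 / q := by
  have hq0 : 0 < q := by linarith
  rw [← Finset.sum_div, div_le_div_iff₀ (by positivity) hq0]
  have h1 : (∑ i ∈ range k, q ^ i) * (q - 1) = q ^ k - 1 := by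
    rw [geom_sum_mul]
  have h2 : 0 ≤ ∑ i ∈ range k, q ^ i := Finset.sum_nonneg fun _ _ => by positivity
  nlinarith

omit [DecidableEq F] in
/-- For `k` points in dimension `k`, general position is linear independence. -/
lemma good_iff_rows [DecidableEq F] (M : Fin k → (Fin k → F)) :
    Good M ↔ LinearIndependent F (fun i l => M l i) := by
  rw [Fintype.linearIndependent_iff]
  have hw : ∀ a : Fin k → F, ∑ i, a i • (fun l => M l i) = fun l => a ⬝ᵥ M l := by
    intro a
    funext l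
    simp [dotProduct, Finset.sum_apply]
  constructor
  · intro h a ha
    rw [hw] at ha
    by_contra hne
    push Not at hne
    obtain ⟨i, hi⟩ := hne
    have h1 := h a (fun h0 => hi (by rw [h0]; rfl))
    have h2 : zer M a = univ := by
      rw [Finset.eq_univ_iff_forall]
      intro l
      rw [mem_zer]
      exact congrFun ha l
    rw [h2, Finset.card_univ, Fintype.card_fin] at h1
    omega
  · intro h a ha
    by_contra hcon
    have h2 : zer M a = univ := by
      rw [← Finset.card_eq_iff_eq_univ, Fintype.card_fin]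
      have := Finset.card_le_univ (zer M a)
      rw [Fintype.card_fin] at this
      omega
    apply ha
    funext i
    apply h a
    rw [hw]
    funext l
    exact (mem_zer M a l).1 (by rw [h2]; exact Finset.mem_univ _)

/-- The number of linearly independent `k`-tuples of vectors of `F ^ n`. -/
lemma card_li (n : ℕ) (hkn : k ≤ n) :
    (Nat.card {s : Fin k → (Fin n → F) // LinearIndependent F s} : ℝ)
      / ((Fintype.card F : ℝ) ^ k) ^ n
      = ∏ i ∈ range k, (1 - (Fintype.card F : ℝ) ^ i / (Fintype.card F : ℝ) ^ n) := by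
  have hq0 : (0:ℝ) < Fintype.card F := by exact_mod_cast Fintype.card_pos
  have hn : Module.finrank F (Fin n → F) = n := by
    rw [Module.finrank_fintype_fun_eq_card, Fintype.card_fin]
  rw [card_linearIndependent (by rw [hn]; exact hkn), hn]
  push_cast
  rw [← pow_mul, mul_comm k n, pow_mul]
  rw [Finset.prod_range (fun i => (1 - (Fintype.card F : ℝ) ^ i / (Fintype.card F : ℝ) ^ n))]
  have h1 : ((Fintype.card F : ℝ) ^ n) ^ k = ∏ i : Fin k, (Fintype.card F : ℝ) ^ n := by
    rw [Finset.prod_const, Finset.card_univ, Fintype.card_fin]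
  rw [h1, ← Finset.prod_div_distrib]
  refine Finset.prod_congr rfl fun i _ => ?_
  have h2 : Fintype.card F ^ (i:ℕ) ≤ Fintype.card F ^ n :=
    Nat.pow_le_pow_right Fintype.card_pos (by omega)
  rw [Nat.cast_sub h2]
  push_cast
  rw [sub_div, div_self (by positivity)]

lemma li_bounds (F : Type*) [Field F] [Fintype F] (k n : ℕ) (hkn : k ≤ n) :
    1 - 2 / (Fintype.card F : ℝ)
        ≤ ∏ i ∈ range k, (1 - (Fintype.card F : ℝ) ^ i / (Fintype.card F : ℝ) ^ n)
      ∧ ∏ i ∈ range k, (1 - (Fintype.card F : ℝ) ^ i / (Fintype.card F : ℝ) ^ n) ≤ 1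
      ∧ 0 < ∏ i ∈ range k, (1 - (Fintype.card F : ℝ) ^ i / (Fintype.card F : ℝ) ^ n) := by
  have hq2 : (2:ℝ) ≤ Fintype.card F := by
    exact_mod_cast Fintype.one_lt_card
  set q : ℝ := (Fintype.card F : ℝ) with hq
  have hq0 : 0 < q := by linarith
  have hlt : ∀ i < k, q ^ i / q ^ n < 1 := by
    intro i hi
    rw [div_lt_one (by positivity)]
    exact pow_lt_pow_right₀ (by linarith) (by omega)
  have h1 := prod_one_sub k (fun i => q ^ i / q ^ n) (fun i => by positivity)
    (fun i hi => (hlt i hi).le)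
  refine ⟨?_, h1.2.2, ?_⟩
  · refine le_trans ?_ h1.1
    have h2 : ∑ i ∈ range k, q ^ i / q ^ n ≤ ∑ i ∈ range k, q ^ i / q ^ k := by
      refine Finset.sum_le_sum fun i _ => ?_
      apply div_le_div_of_nonneg_left (by positivity) (by positivity)
      exact pow_le_pow_right₀ (by linarith) hkn
    have h3 := geom_q q hq2 k
    linarith
  · apply Finset.prod_pos
    intro i hi
    rw [Finset.mem_range] at hi
    have := hlt i hi
    linarith

lemma gp_kk : gp F k k
    = ∏ i ∈ range k, (1 - (Fintype.card F : ℝ) ^ i / (Fintype.card F : ℝ) ^ k) := by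
  classical
  rw [← card_li (F := F) (k := k) k le_rfl]
  unfold gp
  congr 1
  have h1 : (univ.filter (fun M : Fin k → (Fin k → F) => Good M)).card
      = Nat.card {s : Fin k → (Fin k → F) // LinearIndependent F s} := by
    rw [← Fintype.card_coe, ← Nat.card_eq_fintype_card]
    refine Nat.card_congr
      { toFun := fun M => ⟨fun i l => M.1 l i,
          (good_iff_rows M.1).1 (Finset.mem_filter.1 M.2).2⟩
        invFun := fun s => ⟨fun l i => s.1 i l,
          Finset.mem_filter.2 ⟨Finset.mem_univ _, (good_iff_rows _).2 s.2⟩⟩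
        left_inv := fun _ => rfl
        right_inv := fun _ => rfl }
  exact_mod_cast h1

/-- The general estimate. -/
lemma gp_final (hk : 1 ≤ k) (e : ℕ → ℝ) (he : ∀ j, k ≤ j →
      |gp F k (j+1) - Real.exp (- yy F k j) * gp F k j| ≤ e j) (n : ℕ) (hn : k ≤ n) :
    |gp F k n - Real.exp (- ((n.choose k : ℝ) / Fintype.card F))|
      ≤ ∑ j ∈ Ico k n, e j + 3 / Fintype.card F := by
  have h1 := tel e he n hn
  have h2 := sum_yy (F := F) hk n hn
  set q : ℝ := (Fintype.card F : ℝ) with hq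
  have hq0 : 0 < q := by rw [hq]; exact_mod_cast Fintype.card_pos
  set s := ∑ j ∈ Ico k n, yy F k j with hs
  have hs0 : 0 ≤ s := Finset.sum_nonneg fun j _ => yy_nonneg F k j
  have hkk := li_bounds F k k le_rfl
  rw [← gp_kk, ← hq] at hkk
  have h3 : (n.choose k : ℝ) / q = s + 1 / q := by rw [h2]; ring
  rw [h3]
  have h4 : Real.exp (-s) ≤ 1 := by rw [Real.exp_le_one_iff]; linarith
  have h5 : 0 < Real.exp (-s) := Real.exp_pos _
  have h6 : Real.exp (-(s + 1/q)) = Real.exp (-s) * Real.exp (-(1/q)) := by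
    rw [neg_add, Real.exp_add]
  have h7 : 1 - 1 / q ≤ Real.exp (-(1/q)) := by
    have := Real.add_one_le_exp (-(1/q))
    linarith
  have h8 : Real.exp (-(1/q)) ≤ 1 := by
    rw [Real.exp_le_one_iff]
    have : 0 < 1 / q := by positivity
    linarith
  have h9 : gp F k n - Real.exp (-(s + 1/q))
      = (gp F k n - Real.exp (-s) * gp F k k) + Real.exp (-s) * (gp F k k - Real.exp (-(1/q))) := by
    rw [h6]; ring
  rw [h9]
  refine (abs_add_le _ _).trans (add_le_add h1 ?_)
  rw [abs_mul, abs_of_pos h5]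
  have h10 : |gp F k k - Real.exp (-(1/q))| ≤ 3 / q := by
    have hp : 0 < 1 / q := by positivity
    have e2 : 2 / q = 2 * (1 / q) := by ring
    have e3 : 3 / q = 3 * (1 / q) := by ring
    rw [e2] at hkk
    rw [e3, abs_le]
    constructor
    · linarith [hkk.1]
    · linarith [hkk.2.1]
  calc Real.exp (-s) * |gp F k k - Real.exp (-(1/q))| ≤ 1 * (3 / q) :=
        mul_le_mul h4 h10 (abs_nonneg _) zero_le_one
    _ = 3 / q := one_mul _

/-- Bounds of the individual terms. -/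
lemma yy_le (hk : 1 ≤ k) (n : ℕ) (hj : k ≤ j) (hjn : j < n) (Λ : ℝ)
    (hΛ : (n.choose k : ℝ) / Fintype.card F ≤ Λ) : yy F k j ≤ Λ := by
  have h1 := sum_yy (F := F) hk n (by omega)
  have h2 : yy F k j ≤ ∑ j ∈ Ico k n, yy F k j :=
    Finset.single_le_sum (fun i _ => yy_nonneg F k i) (Finset.mem_Ico.2 ⟨hj, hjn⟩)
  have hq0 : (0:ℝ) < 1 / Fintype.card F := by
    have : (0:ℝ) < Fintype.card F := by exact_mod_cast Fintype.card_pos
    positivity
  linarith

lemma yy_le_ratio (hk : 1 ≤ k) (n : ℕ) (hjn : j < n) (Λ : ℝ)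
    (hΛ : (n.choose k : ℝ) / Fintype.card F ≤ Λ) : yy F k j ≤ Λ * (k / n) := by
  have hq0 : (0:ℝ) < Fintype.card F := by exact_mod_cast Fintype.card_pos
  obtain ⟨k', rfl⟩ : ∃ k', k = k' + 1 := ⟨k - 1, by omega⟩
  obtain ⟨n', rfl⟩ : ∃ n', n = n' + 1 := ⟨n - 1, by omega⟩
  have h1 : j.choose k' ≤ n'.choose k' := Nat.choose_le_choose _ (by omega)
  have h2 : (n'+1) * n'.choose k' = (n'+1).choose (k'+1) * (k'+1) :=
    Nat.add_one_mul_choose_eq n' k'
  have h2' : ((n':ℝ)+1) * n'.choose k' = (n'+1).choose (k'+1) * ((k':ℝ)+1) := by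
    exact_mod_cast h2
  have h1' : (j.choose k' : ℝ) ≤ n'.choose k' := by exact_mod_cast h1
  unfold yy
  simp only [Nat.add_sub_cancel]
  push_cast
  have hn0 : (0:ℝ) < (n':ℝ) + 1 := by positivity
  rw [div_le_iff₀ hq0] at hΛ
  rw [div_le_iff₀ hq0]
  have h3 : (n'.choose k' : ℝ) = (n'+1).choose (k'+1) * (((k':ℝ)+1) / ((n':ℝ)+1)) := by
    field_simp
    linarith
  calc (j.choose k' : ℝ) ≤ (n'+1).choose (k'+1) * (((k':ℝ)+1) / ((n':ℝ)+1)) := by
        rw [← h3]; exact h1'
    _ ≤ (Λ * Fintype.card F) * (((k':ℝ)+1) / ((n':ℝ)+1)) :=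
        mul_le_mul_of_nonneg_right hΛ (by positivity)
    _ = _ := by ring

/-- Estimate for small dimension. -/
lemma gp_small (hk : 1 ≤ k) (n : ℕ) (hn : k ≤ n) (Λ : ℝ) (hΛ0 : 0 ≤ Λ)
    (hΛ : (n.choose k : ℝ) / Fintype.card F ≤ Λ) :
    |gp F k n - Real.exp (- ((n.choose k : ℝ) / Fintype.card F))|
      ≤ Λ ^ 2 * (k / n) + 3 / Fintype.card F := by
  refine (gp_final hk (fun j => yy F k j ^ 2) (fun j hj => gp_err_one hk hj) n hn).trans ?_
  have h1 : ∑ j ∈ Ico k n, yy F k j ^ 2 ≤ ∑ j ∈ Ico k n, (Λ * (k / n)) * yy F k j := by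
    refine Finset.sum_le_sum fun j hj => ?_
    rw [sq]
    exact mul_le_mul_of_nonneg_right (yy_le_ratio hk n (Finset.mem_Ico.1 hj).2 Λ hΛ)
      (yy_nonneg F k j)
  rw [← Finset.mul_sum, sum_yy hk n hn] at h1
  have hq0 : (0:ℝ) < 1 / Fintype.card F := by
    have : (0:ℝ) < Fintype.card F := by exact_mod_cast Fintype.card_pos
    positivity
  have h2 : (Λ * (k / n)) * ((n.choose k : ℝ) / Fintype.card F - 1 / Fintype.card F)
      ≤ (Λ * (k / n)) * Λ :=
    mul_le_mul_of_nonneg_left (by linarith) (by positivity)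
  have h3 : (Λ * ((k:ℝ) / n)) * Λ = Λ ^ 2 * (k / n) := by ring
  linarith

/-- Estimate for large dimension. -/
lemma gp_large (hk : 1 ≤ k) (n : ℕ) (hn : k ≤ n) (m : ℕ) (Λ ρ : ℝ) (hΛ0 : 0 ≤ Λ)
    (hΛ : (n.choose k : ℝ) / Fintype.card F ≤ Λ) (hρ2 : ρ ≤ 1 / 2)
    (hρ : (n:ℝ) ^ (m+2) / Fintype.card F ≤ ρ) :
    |gp F k n - Real.exp (- ((n.choose k : ℝ) / Fintype.card F))|
      ≤ 2 * (Λ ^ (m+1) / (m+1).factorial) + 5 * (m + 2) ^ 3 * (1 + Λ) ^ (m+1) * Λ * ρ
        + 3 / Fintype.card F := by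
  have hq0 : (0:ℝ) < Fintype.card F := by exact_mod_cast Fintype.card_pos
  have hρ0 : 0 ≤ ρ := le_trans (by positivity) hρ
  -- use the error sequence cut off at n
  set e : ℕ → ℝ := fun j => if j < n then
      (2 * (Λ ^ m / (m+1).factorial) + 5 * (m + 2) ^ 3 * (1 + Λ) ^ (m+1) * ρ) * yy F k j
      else |gp F k (j+1) - Real.exp (- yy F k j) * gp F k j| with he
  have h1 : ∀ j, k ≤ j → |gp F k (j+1) - Real.exp (- yy F k j) * gp F k j| ≤ e j := by
    intro j hj
    simp only [he]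
    split_ifs with hjn
    · have hy := yy_le (F := F) hk n hj hjn Λ hΛ
      have hy0 := yy_nonneg F k j
      have h2 := gp_err (F := F) hk hj m (1 + Λ) ρ (by linarith) (by linarith) hρ2 (by
        refine le_trans ?_ hρ
        apply div_le_div_of_nonneg_right _ hq0.le
        have : (j:ℝ) ≤ n := by exact_mod_cast hjn.le
        exact pow_le_pow_left₀ (Nat.cast_nonneg _) this _)
      refine h2.trans ?_
      have h3 : yy F k j ^ (m+1) ≤ Λ ^ m * yy F k j := by
        rw [pow_succ]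
        exact mul_le_mul_of_nonneg_right (pow_le_pow_left₀ hy0 hy m) hy0
      have h4 : yy F k j ^ (m+1) / (m+1).factorial ≤ Λ ^ m * yy F k j / (m+1).factorial :=
        div_le_div_of_nonneg_right h3 (by positivity)
      calc _ ≤ 2 * (Λ ^ m * yy F k j / (m+1).factorial)
            + 5 * (m + 2) ^ 3 * (1 + Λ) ^ (m+1) * yy F k j * ρ := by linarith
        _ = _ := by ring
    · exact le_rfl
  refine (gp_final hk e h1 n hn).trans ?_
  have h2 : ∑ j ∈ Ico k n, e j = (2 * (Λ ^ m / (m+1).factorial)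
      + 5 * (m + 2) ^ 3 * (1 + Λ) ^ (m+1) * ρ) * ∑ j ∈ Ico k n, yy F k j := by
    rw [Finset.mul_sum]
    refine Finset.sum_congr rfl fun j hj => ?_
    simp only [he]
    rw [if_pos (Finset.mem_Ico.1 hj).2]
  rw [h2, sum_yy hk n hn]
  have hq1 : (0:ℝ) < 1 / Fintype.card F := by positivity
  have h3 : (2 * (Λ ^ m / (m+1).factorial) + 5 * (m + 2) ^ 3 * (1 + Λ) ^ (m+1) * ρ)
        * ((n.choose k : ℝ) / Fintype.card F - 1 / Fintype.card F)
      ≤ (2 * (Λ ^ m / (m+1).factorial) + 5 * (m + 2) ^ 3 * (1 + Λ) ^ (m+1) * ρ) * Λ :=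
    mul_le_mul_of_nonneg_left (by linarith) (by positivity)
  have h4 : (2 * (Λ ^ m / (m+1).factorial) + 5 * (m + 2) ^ 3 * (1 + Λ) ^ (m+1) * ρ) * Λ
      = 2 * (Λ ^ (m+1) / (m+1).factorial) + 5 * (m + 2) ^ 3 * (1 + Λ) ^ (m+1) * Λ * ρ := by
    rw [pow_succ Λ m]
    ring
  linarith

end Pool.Agent.Q297.Mds
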