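import Mathlib

/-!
A Bonferroni type inequality for simplicial complexes and Taylor bounds for the exponential.
-/

open Finset

namespace Pool.Agent.Q297.Mds

lemma toggle {α : Type*} [DecidableEq α] (B : Finset α) (ind : Finset α → Prop)
    [DecidablePred ind] (h0 : ind ∅) (hered : ∀ I J, I ⊆ J → ind J → ind I) (m : ℕ) :
    |(if B = ∅ then (1:ℝ) else 0)
        - ∑ I ∈ B.powerset.filter (fun I => I.card ≤ m ∧ ind I), (-1:ℝ) ^ I.card|
      ≤ ((B.powerset.filter (fun J => J.card = m + 1 ∧ ind J)).card : ℝ)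
        + (((B.powerset ×ˢ B).filter (fun p => p.1.card ≤ m ∧ ind p.1 ∧ p.2 ∉ p.1 ∧
            ¬ ind (insert p.2 p.1))).card : ℝ) := by
  rcases B.eq_empty_or_nonempty with hB | ⟨b0, hb0⟩
  · subst hB
    have e : (∅ : Finset α).powerset.filter (fun I => I.card ≤ m ∧ ind I) = {∅} := by
      ext I
      simp only [Finset.mem_filter, Finset.powerset_empty, Finset.mem_singleton]
      constructor
      · exact fun h => h.1
      · rintro rfl
        exact ⟨rfl, by simp, h0⟩
    rw [e]
    simp only [if_true, Finset.sum_singleton, Finset.card_empty, pow_zero, sub_self, abs_zero]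
    positivity
  · have hne : B ≠ ∅ := Finset.ne_empty_of_mem hb0
    rw [if_neg hne, zero_sub, abs_neg]
    set 𝓕 := B.powerset.filter (fun I => I.card ≤ m ∧ ind I) with h𝓕
    set 𝓕0 := 𝓕.filter (fun I => b0 ∉ I) with h𝓕0
    set Q : Finset α → Prop := fun I => I.card + 1 ≤ m ∧ ind (insert b0 I) with hQ
    -- split the sum
    have hsplit : ∑ I ∈ 𝓕, (-1:ℝ) ^ I.card
        = ∑ I ∈ 𝓕0, (-1:ℝ) ^ I.card + ∑ I ∈ 𝓕.filter (fun I => ¬ (b0 ∉ I)), (-1:ℝ) ^ I.card :=
      (Finset.sum_filter_add_sum_filter_not _ _ _).symm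
    have hsecond : ∑ I ∈ 𝓕.filter (fun I => ¬ (b0 ∉ I)), (-1:ℝ) ^ I.card
        = ∑ I ∈ 𝓕0.filter (fun I => I.card + 1 ≤ m ∧ ind (insert b0 I)),
            -(-1:ℝ) ^ I.card := by
      refine Finset.sum_bij' (fun I _ => I.erase b0) (fun I _ => insert b0 I) ?_ ?_ ?_ ?_ ?_
      · intro I hI
        simp only [h𝓕0, h𝓕, Finset.mem_filter, Finset.mem_powerset, not_not] at hI ⊢
        obtain ⟨⟨hIB, hc, hind⟩, hb⟩ := hI
        have h1 : (I.erase b0).card + 1 = I.card := Finset.card_erase_add_one hb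
        refine ⟨⟨⟨(Finset.erase_subset _ _).trans hIB, by omega,
          hered _ _ (Finset.erase_subset _ _) hind⟩, Finset.notMem_erase _ _⟩, by omega, ?_⟩
        rw [Finset.insert_erase hb]; exact hind
      · intro I hI
        simp only [h𝓕0, h𝓕, Finset.mem_filter, Finset.mem_powerset, not_not] at hI ⊢
        obtain ⟨⟨⟨hIB, _, _⟩, hb⟩, hc, hind⟩ := hI
        refine ⟨⟨Finset.insert_subset hb0 hIB, ?_, hind⟩, Finset.mem_insert_self _ _⟩
        rw [Finset.card_insert_of_notMem hb]; exact hc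
      · intro I hI
        simp only [Finset.mem_filter, not_not] at hI
        exact Finset.insert_erase hI.2
      · intro I hI
        simp only [h𝓕0, Finset.mem_filter] at hI
        exact Finset.erase_insert hI.1.2
      · intro I hI
        simp only [Finset.mem_filter, not_not] at hI
        have : I.card = (I.erase b0).card + 1 := (Finset.card_erase_add_one hI.2).symm
        rw [this, pow_succ]
        ring
    have hrest : ∑ I ∈ 𝓕, (-1:ℝ) ^ I.card
        = ∑ I ∈ 𝓕0.filter (fun I => ¬ (I.card + 1 ≤ m ∧ ind (insert b0 I))),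
          (-1:ℝ) ^ I.card := by
      rw [hsplit, hsecond, Finset.sum_neg_distrib,
        ← Finset.sum_filter_add_sum_filter_not 𝓕0
          (fun I => (I.card + 1 ≤ m ∧ ind (insert b0 I)))]
      ring
    rw [hrest]
    have h1 : |∑ I ∈ 𝓕0.filter (fun I => ¬ (I.card + 1 ≤ m ∧ ind (insert b0 I))),
          (-1:ℝ) ^ I.card|
        ≤ ((𝓕0.filter (fun I => ¬ (I.card + 1 ≤ m ∧ ind (insert b0 I)))).card : ℝ) := by
      refine (Finset.abs_sum_le_sum_abs _ _).trans ?_
      refine (Finset.sum_le_sum fun I _ => ?_ : _ ≤ ∑ I ∈ _, (1:ℝ)).trans ?_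
      · rw [abs_pow, abs_neg, abs_one, one_pow]
      · rw [Finset.sum_const, nsmul_eq_mul, mul_one]
    refine h1.trans ?_
    have hsub : 𝓕0.filter (fun I => ¬ (I.card + 1 ≤ m ∧ ind (insert b0 I)))
        ⊆ 𝓕0.filter (fun I => I.card = m ∧ ind (insert b0 I)) ∪
          𝓕0.filter (fun I => ¬ ind (insert b0 I)) := by
      intro I hI
      simp only [h𝓕0, h𝓕, Finset.mem_filter, Finset.mem_union] at hI ⊢
      obtain ⟨⟨⟨h1, h2, h3⟩, h4⟩, h5⟩ := hI
      by_cases h6 : ind (insert b0 I)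
      · left
        refine ⟨⟨⟨h1, h2, h3⟩, h4⟩, ?_, h6⟩
        by_contra h7
        exact h5 ⟨by omega, h6⟩
      · right
        exact ⟨⟨⟨h1, h2, h3⟩, h4⟩, h6⟩
    have hc1 := (Finset.card_le_card hsub).trans (Finset.card_union_le _ _)
    have hA : (𝓕0.filter (fun I => I.card = m ∧ ind (insert b0 I))).card
        ≤ (B.powerset.filter (fun J => J.card = m + 1 ∧ ind J)).card := by
      refine Finset.card_le_card_of_injOn (fun I => insert b0 I) ?_ ?_
      · intro I hI
        simp only [h𝓕0, h𝓕, Finset.coe_filter, Finset.mem_filter, Finset.mem_powerset,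
          Set.mem_ofPred_eq] at hI ⊢
        obtain ⟨⟨⟨h1, h2, h3⟩, h4⟩, h5, h6⟩ := hI
        exact ⟨Finset.insert_subset hb0 h1, by rw [Finset.card_insert_of_notMem h4, h5], h6⟩
      · intro I hI J hJ hIJ
        simp only [h𝓕0, Finset.coe_filter, Finset.mem_filter, Set.mem_ofPred_eq] at hI hJ
        have e1 := Finset.erase_insert hI.1.2
        have e2 := Finset.erase_insert hJ.1.2
        rw [← e1, ← e2]
        exact congrArg (fun X => Finset.erase X b0) hIJ
    have hBd : (𝓕0.filter (fun I => ¬ ind (insert b0 I))).card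
        ≤ ((B.powerset ×ˢ B).filter (fun p => p.1.card ≤ m ∧ ind p.1 ∧ p.2 ∉ p.1 ∧
            ¬ ind (insert p.2 p.1))).card := by
      refine Finset.card_le_card_of_injOn (fun I => (I, b0)) ?_ ?_
      · intro I hI
        simp only [h𝓕0, h𝓕, Finset.coe_filter, Finset.mem_filter, Finset.mem_powerset,
          Set.mem_ofPred_eq, Finset.mem_product] at hI ⊢
        obtain ⟨⟨⟨h1, h2, h3⟩, h4⟩, h5⟩ := hI
        exact ⟨⟨h1, hb0⟩, h2, h3, h4, h5⟩
      · intro I _ J _ hIJ
        exact (Prod.mk.inj hIJ).1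
    have hc2 := hc1.trans (add_le_add hA hBd)
    exact_mod_cast hc2

/-- Alternating Taylor bounds for `exp (-y)`. -/
lemma exp_alt (m : ℕ) : ∀ y : ℝ, 0 ≤ y →
    0 ≤ (-1:ℝ) ^ (m+1) * (Real.exp (-y) - ∑ r ∈ range (m+1), (-y) ^ r / r.factorial) := by
  induction m with
  | zero =>
    intro y hy
    simp
    exact hy
  | succ m ih =>
    intro y hy
    set g : ℝ → ℝ := fun y =>
      (-1:ℝ) ^ (m+1+1) * (Real.exp (-y) - ∑ r ∈ range (m+1+1), (-y) ^ r / r.factorial) with hg
    have hder : ∀ x, HasDerivAt g ((-1:ℝ) ^ (m+1) *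
        (Real.exp (-x) - ∑ r ∈ range (m+1), (-x) ^ r / r.factorial)) x := by
      intro x
      have h1 : HasDerivAt (fun y : ℝ => Real.exp (-y)) (-Real.exp (-x)) x :=
        ((hasDerivAt_neg x).exp).congr_deriv (by ring)
      have h2 : HasDerivAt (fun y : ℝ => ∑ r ∈ range (m+1+1), (-y) ^ r / r.factorial)
          (-∑ r ∈ range (m+1), (-x) ^ r / r.factorial) x := by
        have h3 : ∀ r : ℕ, HasDerivAt (fun y : ℝ => (-y) ^ r / (r.factorial : ℝ))
            ((r * (-x) ^ (r-1) * (-1)) / r.factorial) x := by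
          intro r
          exact (((hasDerivAt_neg x).pow r).div_const _)
        have h4 := HasDerivAt.fun_sum (u := range (m+1+1)) (fun r _ => h3 r)
        refine h4.congr_deriv ?_
        rw [Finset.sum_range_succ' (fun r : ℕ =>
          ((r:ℝ) * (-x) ^ (r-1) * (-1)) / (r.factorial : ℝ)) (m+1)]
        simp only [Nat.cast_zero, zero_mul, zero_div, add_zero]
        rw [← Finset.sum_neg_distrib]
        refine Finset.sum_congr rfl fun r _ => ?_
        rw [Nat.factorial_succ]
        push_cast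
        have : (r.factorial : ℝ) ≠ 0 := by exact_mod_cast r.factorial_ne_zero
        have h5 : (r:ℝ) + 1 ≠ 0 := by positivity
        field_simp
      have h6 := (h1.sub h2).const_mul ((-1:ℝ) ^ (m+1+1))
      exact h6.congr_deriv (by ring)
    have hmono : MonotoneOn g (Set.Ici 0) := by
      refine monotoneOn_of_deriv_nonneg (convex_Ici 0) ?_ ?_ ?_
      · exact (continuous_iff_continuousAt.2 fun x => (hder x).continuousAt).continuousOn
      · exact fun x _ => (hder x).differentiableAt.differentiableWithinAt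
      · intro x hx
        rw [interior_Ici] at hx
        rw [(hder x).deriv]
        exact ih x (le_of_lt hx)
    have h0 : g 0 = 0 := by
      simp only [hg]
      rw [Finset.sum_range_succ']
      simp
    have := hmono (Set.mem_Ici.2 le_rfl) (Set.mem_Ici.2 hy) hy
    rw [h0] at this
    exact this

lemma exp_taylor (m : ℕ) {y : ℝ} (hy : 0 ≤ y) :
    |Real.exp (-y) - ∑ r ∈ range (m+1), (-1:ℝ) ^ r * (y ^ r / r.factorial)|
      ≤ y ^ (m+1) / (m+1).factorial := by
  have e : ∀ n, ∑ r ∈ range n, (-1:ℝ) ^ r * (y ^ r / r.factorial)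
      = ∑ r ∈ range n, (-y) ^ r / r.factorial := by
    intro n
    refine Finset.sum_congr rfl fun r _ => ?_
    rw [neg_pow]; ring
  rw [e]
  have h1 := exp_alt m y hy
  have h2 := exp_alt (m+1) y hy
  rw [Finset.sum_range_succ _ (m+1)] at h2
  set D := Real.exp (-y) - ∑ r ∈ range (m+1), (-y) ^ r / r.factorial with hD
  have h3 : Real.exp (-y) - (∑ r ∈ range (m+1), (-y) ^ r / r.factorial
      + (-y) ^ (m+1) / (m+1).factorial) = D - (-y) ^ (m+1) / (m+1).factorial := by
    rw [hD]; ring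
  rw [h3] at h2
  have h4 : (-1:ℝ) ^ (m+1+1) * (D - (-y) ^ (m+1) / (m+1).factorial)
      = y ^ (m+1) / (m+1).factorial - (-1:ℝ) ^ (m+1) * D := by
    have hs : (-1:ℝ) ^ (m+1) * (-1:ℝ) ^ (m+1) = 1 := by
      rw [← mul_pow]; norm_num
    rw [neg_pow y (m+1), pow_succ (-1:ℝ) (m+1)]
    have : (-1:ℝ) ^ (m+1) * -1 * (D - (-1) ^ (m+1) * y ^ (m+1) / (m+1).factorial)
        = ((-1:ℝ) ^ (m+1) * (-1:ℝ) ^ (m+1)) * (y ^ (m+1) / (m+1).factorial)
          - (-1:ℝ) ^ (m+1) * D := by ring
    rw [this, hs, one_mul]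
  rw [h4] at h2
  have h5 : |D| = (-1:ℝ) ^ (m+1) * D := by
    rcases Nat.even_or_odd (m+1) with he | ho
    · rw [he.neg_one_pow, one_mul] at h1 ⊢
      exact abs_of_nonneg h1
    · rw [ho.neg_one_pow] at h1 ⊢
      have : D ≤ 0 := by linarith
      rw [abs_of_nonpos this]; ring
  rw [h5]
  linarith

end Pool.Agent.Q297.Mds
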