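import Mathlib

open MeasureTheory

namespace Q297.Mix

/-- density of the normal law `N(z, I_d)` at `x` -/
noncomputable def normalDensity {d : ℕ} (z x : EuclideanSpace ℝ (Fin d)) : ℝ :=
  (2 * Real.pi) ^ (-(d : ℝ) / 2) * Real.exp (-‖x - z‖ ^ 2 / 2)

/-- density of the Gaussian mixture `π * N(0, I_d)` -/
noncomputable def mixture {d : ℕ} (π : Measure (EuclideanSpace ℝ (Fin d)))
    (x : EuclideanSpace ℝ (Fin d)) : ℝ := ∫ z, normalDensity z x ∂π

/-- Kullback-Leibler divergence of densities -/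
noncomputable def KL {d : ℕ} (f g : EuclideanSpace ℝ (Fin d) → ℝ) : ℝ :=
  ∫ x, f x * Real.log (f x / g x)

/-- squared Hellinger distance of densities (no factor `1/2`) -/
noncomputable def H2 {d : ℕ} (f g : EuclideanSpace ℝ (Fin d) → ℝ) : ℝ :=
  ∫ x, (Real.sqrt (f x) - Real.sqrt (g x)) ^ 2

/-- chi-squared divergence of densities -/
noncomputable def chi2 {d : ℕ} (f g : EuclideanSpace ℝ (Fin d) → ℝ) : ℝ :=
  ∫ x, (f x - g x) ^ 2 / g x

end Q297.Mix
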