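import Pool.Agent.Q297.LsiMaps

open MeasureTheory Filter Topology ProbabilityTheory
open scoped RealInnerProductSpace

namespace Q297.Mix

open Q297.Lsi

/-- coordinates of a functional are square summable to the square of the norm -/
lemma sum_sq_le {n : ℕ} (L : EuclideanSpace ℝ (Fin n) →L[ℝ] ℝ) :
    ∑ j, (L (EuclideanSpace.single j 1)) ^ 2 ≤ ‖L‖ ^ 2 := by
  set v : EuclideanSpace ℝ (Fin n) := WithLp.toLp 2 (fun j => L (EuclideanSpace.single j 1)) with hv
  have h1 : v = ∑ j, (L (EuclideanSpace.single j 1)) • EuclideanSpace.single j (1:ℝ) := by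
    ext i
    simp [hv]
    rw [Finset.sum_eq_single i]
    · simp
    · intro j _ hj
      rw [Pi.single_eq_of_ne (Ne.symm hj)]
      simp
    · simp
  have h2 : L v = ∑ j, (L (EuclideanSpace.single j 1)) ^ 2 := by
    rw [h1, map_sum]
    refine Finset.sum_congr rfl fun j _ => ?_
    rw [map_smul, smul_eq_mul, sq]
  have h3 : ‖v‖ ^ 2 = ∑ j, (L (EuclideanSpace.single j 1)) ^ 2 := by
    rw [EuclideanSpace.norm_sq_eq]
    simp [hv]
  set S := ∑ j, (L (EuclideanSpace.single j 1)) ^ 2 with hS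
  have hS0 : 0 ≤ S := Finset.sum_nonneg fun j _ => sq_nonneg _
  have h4 : S ≤ ‖L‖ * ‖v‖ := by
    rw [← h2]
    exact (le_abs_self _).trans (L.le_opNorm v)
  rcases hS0.eq_or_lt with h0 | h0
  · rw [← h0]; positivity
  · have h5 : S ^ 2 ≤ ‖L‖ ^ 2 * S := by
      calc S ^ 2 ≤ (‖L‖ * ‖v‖) ^ 2 := pow_le_pow_left₀ hS0 h4 2
        _ = ‖L‖ ^ 2 * S := by rw [mul_pow, h3]
    nlinarith

variable {d : ℕ}

/-- the Gaussian density on `ℝᵈ` as a product -/
lemma gpi_eq : gpi d = (volume : Measure (Fin d → ℝ)).withDensity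
    (fun w => ENNReal.ofReal (∏ i, gaussianPDFReal 0 1 (w i))) := by
  have hcont : Continuous fun w : Fin d → ℝ => ∏ i, gaussianPDFReal 0 1 (w i) := by
    unfold gaussianPDFReal
    fun_prop
  have hint1 : Integrable (gaussianPDFReal 0 1) := integrable_gaussianPDFReal 0 1
  refine Measure.pi_eq fun s hs => ?_
  rw [withDensity_apply _ (MeasurableSet.univ_pi hs), volume_pi, Measure.restrict_pi_pi,
    ← ofReal_integral_eq_lintegral_ofReal,
    integral_fintype_prod_eq_prod (f := fun _ t => gaussianPDFReal 0 1 t),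
    ENNReal.ofReal_prod_of_nonneg]
  · refine Finset.prod_congr rfl fun i _ => ?_
    rw [gaussianReal_apply_eq_integral 0 one_ne_zero]
  · intro i _
    exact integral_nonneg fun t => gaussianPDFReal_nonneg 0 1 t
  · exact Integrable.fintype_prod (f := fun _ t => gaussianPDFReal 0 1 t) fun i =>
      hint1.mono_measure Measure.restrict_le_self
  · exact Eventually.of_forall fun w => Finset.prod_nonneg fun i _ => gaussianPDFReal_nonneg 0 1 _

/-- Gaussian density with mean `z` and identity covariance -/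
noncomputable def phi (z x : EuclideanSpace ℝ (Fin d)) : ℝ :=
  (Real.sqrt (2 * Real.pi))⁻¹ ^ d * Real.exp (-(‖x - z‖ ^ 2 / 2))

lemma phi_pos (z x : EuclideanSpace ℝ (Fin d)) : 0 < phi z x := by
  unfold phi
  positivity

lemma phi_cont2 : Continuous fun p : EuclideanSpace ℝ (Fin d) × EuclideanSpace ℝ (Fin d) =>
    phi p.1 p.2 := by
  unfold phi
  fun_prop

/-- the map to the Gaussian with mean `z` -/
noncomputable def sh (z : EuclideanSpace ℝ (Fin d)) (w : Fin d → ℝ) : EuclideanSpace ℝ (Fin d) :=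
  z + WithLp.toLp 2 w

lemma sh_cont (z : EuclideanSpace ℝ (Fin d)) : Continuous (sh z) := by
  unfold sh
  exact continuous_const.add (PiLp.continuous_toLp 2 _)

lemma sh_mp (z : EuclideanSpace ℝ (Fin d)) : MeasurePreserving (sh z) volume volume :=
  (measurePreserving_add_left volume z).comp (PiLp.volume_preserving_toLp (Fin d))

/-- Gaussian measure with mean `z` -/
noncomputable def gam (z : EuclideanSpace ℝ (Fin d)) : Measure (EuclideanSpace ℝ (Fin d)) :=
  (gpi d).map (sh z)

instance (z : EuclideanSpace ℝ (Fin d)) : IsProbabilityMeasure (gam z) :=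
  Measure.isProbabilityMeasure_map (sh_cont z).measurable.aemeasurable

lemma phi_sh (z : EuclideanSpace ℝ (Fin d)) (w : Fin d → ℝ) :
    phi z (sh z w) = ∏ i, gaussianPDFReal 0 1 (w i) := by
  unfold phi sh gaussianPDFReal
  simp only [NNReal.coe_one, mul_one, sub_zero, add_sub_cancel_left]
  rw [Finset.prod_mul_distrib, Finset.prod_const, Finset.card_univ, Fintype.card_fin,
    ← Real.exp_sum, EuclideanSpace.norm_sq_eq]
  congr 2
  rw [← Finset.sum_div, Finset.sum_neg_distrib, neg_div]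
  simp [sq_abs]

lemma phi_cont (z : EuclideanSpace ℝ (Fin d)) : Continuous (phi z) := by
  unfold phi
  fun_prop

lemma lint_gam (z : EuclideanSpace ℝ (Fin d)) (F : EuclideanSpace ℝ (Fin d) → ENNReal)
    (hF : Measurable F) : ∫⁻ x, F x ∂(gam z) = ∫⁻ x, ENNReal.ofReal (phi z x) * F x := by
  have hcont : Continuous fun w : Fin d → ℝ => ∏ i, gaussianPDFReal 0 1 (w i) := by
    unfold gaussianPDFReal
    fun_prop
  have hFs : Measurable fun w => F (sh z w) := hF.comp (sh_cont z).measurable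
  have hm : Measurable fun x => ENNReal.ofReal (phi z x) * F x :=
    (phi_cont z).measurable.ennreal_ofReal.mul hF
  have h1 : ∫⁻ w, ENNReal.ofReal (phi z (sh z w)) * F (sh z w) = ∫⁻ x, ENNReal.ofReal (phi z x) * F x :=
    (sh_mp z).lintegral_comp hm
  rw [← h1, gam, lintegral_map hF (sh_cont z).measurable, gpi_eq]
  have h2 : ∫⁻ w, F (sh z w) ∂((volume : Measure (Fin d → ℝ)).withDensity
      (fun w => ENNReal.ofReal (∏ i, gaussianPDFReal 0 1 (w i)))) =
      ∫⁻ w, ((fun w : Fin d → ℝ => ENNReal.ofReal (∏ i, gaussianPDFReal 0 1 (w i))) *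
        fun w : Fin d → ℝ => F (sh z w)) w :=
    lintegral_withDensity_eq_lintegral_mul (volume : Measure (Fin d → ℝ))
      hcont.measurable.ennreal_ofReal hFs
  rw [h2]
  refine lintegral_congr fun w => ?_
  simp only [Pi.mul_apply, phi_sh]

/-- Gaussian log-Sobolev inequality for `C¹` functions -/
theorem gam_lsi (z : EuclideanSpace ℝ (Fin d)) {u : EuclideanSpace ℝ (Fin d) → ℝ}
    {u' : EuclideanSpace ℝ (Fin d) → (EuclideanSpace ℝ (Fin d) →L[ℝ] ℝ)}
    (hu : ∀ x, HasFDerivAt u (u' x) x) (hc : Continuous u') {B L : ℝ} (hB : ∀ x, |u x| ≤ B)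
    (hL : ∀ x, ‖u' x‖ ≤ L) :
    Ent (gam z) (fun x => u x ^ 2) ≤ 2 * ∫ x, ‖u' x‖ ^ 2 ∂(gam z) := by
  have huc : Continuous u := continuous_iff_continuousAt.2 fun x => (hu x).continuousAt
  have hder : ∀ (w : Fin d → ℝ) (i : Fin d) (t : ℝ),
      HasDerivAt (fun s => sh z (Function.update w i s)) (EuclideanSpace.single i (1:ℝ)) t := by
    intro w i t
    have h1 : HasDerivAt (fun s => Function.update w i s) (Pi.single i (1:ℝ)) t :=
      hasDerivAt_update w i t
    have h2 := ((PiLp.continuousLinearEquiv 2 ℝ (fun _ : Fin d => ℝ)).symm :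
      (Fin d → ℝ) →L[ℝ] EuclideanSpace ℝ (Fin d)).hasFDerivAt.comp_hasDerivAt t h1
    exact h2.const_add z
  have hCC : CC1 (fun w => u (sh z w)) (fun i w => u' (sh z w) (EuclideanSpace.single i 1)) L := by
    refine ⟨(huc.comp (sh_cont z)).measurable, fun i => ?_, fun w i t => ?_, fun w i => ?_, fun i w => ?_⟩
    · exact ((hc.comp (sh_cont z)).clm_apply continuous_const).measurable
    · exact (hu _).comp_hasDerivAt t (hder w i t)
    · exact ((hc.comp ((sh_cont z).comp (continuous_const.update i continuous_id))).clm_apply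
        continuous_const)
    · have := (u' (sh z w)).le_opNorm (EuclideanSpace.single i (1:ℝ))
      rw [Real.norm_eq_abs, PiLp.norm_single, norm_one, mul_one] at this
      exact this.trans (hL _)
  have h := gauss_lsi hCC (B := B) fun w => hB _
  have hc2 : Continuous fun x => ‖u' x‖ ^ 2 := hc.norm.pow 2
  rw [gam, Ent_map (sh_cont z).measurable (huc.measurable.pow_const 2), integral_map
    (sh_cont z).measurable.aemeasurable hc2.aestronglyMeasurable]
  refine h.trans (mul_le_mul_of_nonneg_left ?_ (by norm_num))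
  have hi : ∀ i, Integrable (fun w => (u' (sh z w) (EuclideanSpace.single i 1)) ^ 2) (gpi d) :=
    fun i => int_of_bdd (B := L ^ 2) ((hCC.measD i).pow_const 2) fun x => by
      rw [abs_pow]; exact pow_le_pow_left₀ (abs_nonneg _) (hCC.bound i x) 2
  rw [← integral_finsetSum _ fun i _ => hi i]
  apply integral_mono (integrable_finsetSum _ fun i _ => hi i)
  · refine int_of_bdd (B := L ^ 2) ((hc.comp (sh_cont z)).norm.pow 2).measurable fun x => ?_
    rw [abs_of_nonneg (by positivity)]
    exact pow_le_pow_left₀ (norm_nonneg _) (hL _) 2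
  · intro w
    exact sum_sq_le _

/-- exponential moments -/
lemma lint_exp_gam (z a : EuclideanSpace ℝ (Fin d)) :
    ∫⁻ x, ENNReal.ofReal (Real.exp ⟪a, x⟫) ∂(gam z) =
      ENNReal.ofReal (Real.exp (⟪a, z⟫ + ‖a‖ ^ 2 / 2)) := by
  have hc : Continuous fun x : EuclideanSpace ℝ (Fin d) => Real.exp ⟪a, x⟫ := by fun_prop
  have h1 : ∀ x, phi z x * Real.exp ⟪a, x⟫ = Real.exp (⟪a, z⟫ + ‖a‖ ^ 2 / 2) * phi (z + a) x := by
    intro x
    unfold phi
    have e : ‖x - (z + a)‖ ^ 2 = ‖x - z‖ ^ 2 - 2 * ⟪a, x - z⟫ + ‖a‖ ^ 2 := by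
      have : x - (z + a) = (x - z) - a := by abel
      rw [this, norm_sub_sq_real, real_inner_comm]
    have e2 : ⟪a, x - z⟫ = ⟪a, x⟫ - ⟪a, z⟫ := inner_sub_right _ _ _
    rw [e, e2, mul_assoc, ← Real.exp_add, mul_left_comm, ← Real.exp_add]
    congr 2
    ring
  have hc3 : Measurable fun x : EuclideanSpace ℝ (Fin d) => ENNReal.ofReal (Real.exp ⟪a, x⟫) :=
    hc.measurable.ennreal_ofReal
  rw [lint_gam z _ hc3]
  have h2 : ∀ x, ENNReal.ofReal (phi z x) * ENNReal.ofReal (Real.exp ⟪a, x⟫) =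
      ENNReal.ofReal (Real.exp (⟪a, z⟫ + ‖a‖ ^ 2 / 2)) * (ENNReal.ofReal (phi (z + a) x) * 1) := by
    intro x
    rw [← ENNReal.ofReal_mul (phi_pos z x).le, h1, ENNReal.ofReal_mul (Real.exp_pos _).le, mul_one]
  simp only [h2]
  rw [lintegral_const_mul]
  · rw [← lint_gam (z + a) (fun _ => 1) measurable_const]
    simp
  · exact (phi_cont (z + a)).measurable.ennreal_ofReal.mul measurable_const

end Q297.Mix
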