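import Pool.Agent.Q297.MixGauss

open MeasureTheory Filter Topology ProbabilityTheory
open scoped RealInnerProductSpace

namespace Q297.Mix

open Q297.Lsi

/-- positive part composition -/
lemma hasDerivAt_pos {φ φ' : ℝ → ℝ} (h : ∀ t, HasDerivAt φ (φ' t) t) (h0 : φ 0 = 0)
    (h0' : φ' 0 = 0) (t : ℝ) : HasDerivAt (fun t => φ (max t 0)) (φ' (max t 0)) t := by
  rcases lt_trichotomy t 0 with ht | ht | ht
  · rw [max_eq_right ht.le, h0']
    refine (hasDerivAt_const t (0:ℝ)).congr_of_eventuallyEq ?_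
    filter_upwards [gt_mem_nhds ht] with s hs
    rw [max_eq_right hs.le, h0]
  · subst ht
    rw [max_self, h0', hasDerivAt_iff_isLittleO_nhds_zero]
    have h1 := (hasDerivAt_iff_isLittleO_nhds_zero.1 (h 0))
    simp only [zero_add, h0, h0', sub_zero, smul_zero, max_self] at h1 ⊢
    rw [Asymptotics.isLittleO_iff] at h1 ⊢
    intro c hc
    have h2 := h1 hc
    filter_upwards [h2] with s hs
    rcases le_total s 0 with hs0 | hs0
    · rw [max_eq_right hs0, h0, norm_zero]
      positivity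
    · rw [max_eq_left hs0]
      exact hs
  · rw [max_eq_left ht.le]
    refine (h t).congr_of_eventuallyEq ?_
    filter_upwards [lt_mem_nhds ht] with s hs
    rw [max_eq_left hs.le]

/-- entropy of a function supported on a small set -/
lemma ent_supp {α : Type*} [MeasurableSpace α] {μ : Measure α} [IsProbabilityMeasure μ]
    {v : α → ℝ} {B : ℝ} (hv : Measurable v) (h0 : ∀ x, 0 ≤ v x) (hB : ∀ x, v x ≤ B) {A : Set α}
    (hA : MeasurableSet A) (hvA : ∀ x, x ∉ A → v x = 0) (hp : 0 < μ.real A) :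
    (∫ x, v x ∂μ) * (-Real.log (μ.real A)) ≤ Ent μ v := by
  have iv : Integrable v μ := int_of_bdd (B := B) hv fun x => by rw [abs_of_nonneg (h0 x)]; exact hB x
  obtain ⟨M, hM⟩ := (isCompact_Icc (a := (0:ℝ)) (b := B)).exists_bound_of_continuousOn
    (f := fun t => t * Real.log t) Real.continuous_mul_log.continuousOn
  have ivl : Integrable (fun x => v x * Real.log (v x)) μ :=
    int_of_bdd (B := M) (Real.continuous_mul_log.measurable.comp hv) fun x => hM _ ⟨h0 x, hB x⟩
  set m := ∫ x, v x ∂μ with hm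
  have hm0 : 0 ≤ m := integral_nonneg h0
  set p := μ.real A with hpd
  rcases hm0.eq_or_lt with hz | hpos
  · have hae : v =ᵐ[μ] 0 := (integral_eq_zero_iff_of_nonneg h0 iv).1 (hm.symm.trans hz.symm)
    have h1 : ∫ x, v x * Real.log (v x) ∂μ = 0 := by
      rw [← integral_zero α ℝ (μ := μ)]
      refine integral_congr_ae ?_
      filter_upwards [hae] with x hx
      rw [hx]; simp
    unfold Ent
    rw [← hm, ← hz, h1]
    simp
  · set c := m / p with hc
    have hc0 : 0 < c := by positivity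
    have hpt : ∀ x, v x * Real.log c + v x - A.indicator (fun _ => c) x ≤ v x * Real.log (v x) := by
      intro x
      by_cases hx : x ∈ A
      · rw [Set.indicator_of_mem hx]
        rcases (h0 x).eq_or_lt with h | h
        · rw [← h]; simp only [zero_mul, add_zero, zero_sub]; linarith
        · have h3 := Real.log_le_sub_one_of_pos (show 0 < c / v x by positivity)
          rw [Real.log_div hc0.ne' h.ne'] at h3
          have h4 : v x * (Real.log c - Real.log (v x)) ≤ v x * (c / v x - 1) :=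
            mul_le_mul_of_nonneg_left h3 h.le
          have h5 : v x * (c / v x - 1) = c - v x := by field_simp
          linarith
      · rw [Set.indicator_of_notMem hx, hvA x hx]
        simp
    have i1 : Integrable (fun x => v x * Real.log c) μ := iv.mul_const _
    have i2 : Integrable (fun x => v x * Real.log c + v x) μ := i1.add iv
    have i3 : Integrable (A.indicator (fun _ => c)) μ := (integrable_const c).indicator hA
    have h6 := integral_mono (i2.sub i3) ivl hpt
    simp only [Pi.sub_apply] at h6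
    rw [integral_sub i2 i3, integral_add i1 iv, integral_mul_const, integral_indicator hA,
      setIntegral_const, ← hm, ← hpd, smul_eq_mul] at h6
    have h7 : p * c = m := by rw [hc]; field_simp
    unfold Ent
    rw [← hm]
    have h8 : Real.log c = Real.log m - Real.log p := by rw [hc, Real.log_div hpos.ne' hp.ne']
    rw [h8] at h6
    linarith

variable {d : ℕ}

/-- a measure satisfying the log-Sobolev inequality with constant two -/
def LSI2 (μ : Measure (EuclideanSpace ℝ (Fin d))) : Prop :=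
  ∀ (u : EuclideanSpace ℝ (Fin d) → ℝ)
    (u' : EuclideanSpace ℝ (Fin d) → (EuclideanSpace ℝ (Fin d) →L[ℝ] ℝ)) (B L : ℝ),
    (∀ x, HasFDerivAt u (u' x) x) → Continuous u' → (∀ x, |u x| ≤ B) → (∀ x, ‖u' x‖ ≤ L) →
    Ent μ (fun x => u x ^ 2) ≤ 2 * ∫ x, ‖u' x‖ ^ 2 ∂μ

/-- the basic inequality for functions of `S` supported on `S > 0` -/
lemma basic {μ : Measure (EuclideanSpace ℝ (Fin d))} [IsProbabilityMeasure μ] (hμ : LSI2 μ)
    {S : EuclideanSpace ℝ (Fin d) → ℝ}
    {S' : EuclideanSpace ℝ (Fin d) → (EuclideanSpace ℝ (Fin d) →L[ℝ] ℝ)}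
    (hS : ∀ x, HasFDerivAt S (S' x) x) (hc : Continuous S') {B M : ℝ} (hB : ∀ x, |S x| ≤ B)
    (hM : 0 < M) (hL : ∀ x, ‖S' x‖ ≤ 2 * M) (hp0 : 0 < μ.real {x | 0 < S x})
    (hp : μ.real {x | 0 < S x} ≤ Real.exp (-(8 * M ^ 2)))
    {φ φ' : ℝ → ℝ} (h : ∀ t, HasDerivAt φ (φ' t) t) (hφc : Continuous φ') (h0 : φ 0 = 0)
    (h0' : φ' 0 = 0) :
    ∫ x, φ (max (S x) 0) ^ 2 ∂μ ≤ ∫ x, φ' (max (S x) 0) ^ 2 ∂μ := by
  have hSc : Continuous S := continuous_iff_continuousAt.2 fun x => (hS x).continuousAt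
  have hφcc : Continuous φ := continuous_iff_continuousAt.2 fun x => (h x).continuousAt
  have hB0 : 0 ≤ B := (abs_nonneg _).trans (hB 0)
  have hmem : ∀ x, max (S x) 0 ∈ Set.Icc (0:ℝ) B := fun x =>
    ⟨le_max_right _ _, max_le ((le_abs_self _).trans (hB x)) hB0⟩
  obtain ⟨K, hK⟩ := (isCompact_Icc (a := (0:ℝ)) (b := B)).exists_bound_of_continuousOn
    (f := φ) hφcc.continuousOn
  obtain ⟨K', hK'⟩ := (isCompact_Icc (a := (0:ℝ)) (b := B)).exists_bound_of_continuousOn
    (f := φ') hφc.continuousOn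
  have hK'0 : 0 ≤ K' := (norm_nonneg _).trans (hK' _ (hmem 0))
  have hmax : Continuous fun x => max (S x) 0 := hSc.max continuous_const
  have hA : MeasurableSet {x | 0 < S x} := measurableSet_lt measurable_const hSc.measurable
  have h1 := hμ (fun x => φ (max (S x) 0)) (fun x => φ' (max (S x) 0) • S' x) K (K' * (2 * M))
    (fun x => (hasDerivAt_pos h h0 h0' (S x)).comp_hasFDerivAt x (hS x))
    ((hφc.comp hmax).smul hc) (fun x => hK _ (hmem x)) (fun x => by
      rw [norm_smul]
      exact mul_le_mul (hK' _ (hmem x)) (hL x) (norm_nonneg _) hK'0)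
  have h2 := ent_supp (μ := μ) (v := fun x => φ (max (S x) 0) ^ 2) (B := K ^ 2)
    ((hφcc.comp hmax).measurable.pow_const 2) (fun x => sq_nonneg _) (fun x => by
      rw [← sq_abs]
      exact pow_le_pow_left₀ (abs_nonneg _) (hK _ (hmem x)) 2) hA (fun x hx => by
      have : S x ≤ 0 := not_lt.1 hx
      rw [max_eq_right this, h0]; ring) hp0
  have h3 : 8 * M ^ 2 ≤ -Real.log (μ.real {x | 0 < S x}) := by
    have := Real.log_le_log hp0 hp
    rw [Real.log_exp] at this
    linarith
  have hnn : 0 ≤ ∫ x, φ (max (S x) 0) ^ 2 ∂μ := integral_nonneg fun x => sq_nonneg _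
  have i1 : Integrable (fun x => φ' (max (S x) 0) ^ 2) μ :=
    int_of_bdd (B := K' ^ 2) ((hφc.comp hmax).measurable.pow_const 2) fun x => by
      rw [abs_pow]
      exact pow_le_pow_left₀ (abs_nonneg _) (hK' _ (hmem x)) 2
  have h4 : ∫ x, ‖φ' (max (S x) 0) • S' x‖ ^ 2 ∂μ ≤ ∫ x, 4 * M ^ 2 * φ' (max (S x) 0) ^ 2 ∂μ := by
    apply integral_mono_of_nonneg (Eventually.of_forall fun x => by positivity) (i1.const_mul _)
    refine Eventually.of_forall fun x => ?_
    simp only
    rw [norm_smul, mul_pow, Real.norm_eq_abs, sq_abs]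
    have h5 : ‖S' x‖ ^ 2 ≤ (2 * M) ^ 2 := pow_le_pow_left₀ (norm_nonneg _) (hL x) 2
    nlinarith [sq_nonneg (φ' (max (S x) 0))]
  rw [integral_const_mul] at h4
  have h6 : (∫ x, φ (max (S x) 0) ^ 2 ∂μ) * (8 * M ^ 2) ≤
      (∫ x, φ (max (S x) 0) ^ 2 ∂μ) * (-Real.log (μ.real {x | 0 < S x})) :=
    mul_le_mul_of_nonneg_left h3 hnn
  have h7 : (∫ x, φ (max (S x) 0) ^ 2 ∂μ) * (8 * M ^ 2) ≤
      (∫ x, φ' (max (S x) 0) ^ 2 ∂μ) * (8 * M ^ 2) := by linarith
  exact le_of_mul_le_mul_right h7 (by positivity)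

/-- **Exponential integrability on the set where `S` is positive.** -/
theorem exp_bound {μ : Measure (EuclideanSpace ℝ (Fin d))} [IsProbabilityMeasure μ] (hμ : LSI2 μ)
    {S : EuclideanSpace ℝ (Fin d) → ℝ}
    {S' : EuclideanSpace ℝ (Fin d) → (EuclideanSpace ℝ (Fin d) →L[ℝ] ℝ)}
    (hS : ∀ x, HasFDerivAt S (S' x) x) (hc : Continuous S') {B M : ℝ} (hB : ∀ x, |S x| ≤ B)
    (hM : 0 < M) (hL : ∀ x, ‖S' x‖ ≤ 2 * M)
    (hp : μ.real {x | 0 < S x} ≤ Real.exp (-(8 * M ^ 2))) :
    ∫ x in {x | 0 < S x}, Real.exp (S x) ∂μ ≤ 10 * μ.real {x | 0 < S x} := by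
  have hSc : Continuous S := continuous_iff_continuousAt.2 fun x => (hS x).continuousAt
  have hA : MeasurableSet {x | 0 < S x} := measurableSet_lt measurable_const hSc.measurable
  rcases (measureReal_nonneg (μ := μ) (s := {x | 0 < S x})).eq_or_lt with hz | hp0
  · have : μ {x | 0 < S x} = 0 := (measureReal_eq_zero_iff (by finiteness)).1 hz.symm
    rw [Measure.restrict_zero_set this, integral_zero_measure, ← hz]
    simp
  set p := μ.real {x | 0 < S x} with hpd
  have hmax : Continuous fun x => max (S x) 0 := hSc.max continuous_const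
  have hB0 : 0 ≤ B := (abs_nonneg _).trans (hB 0)
  have hmem : ∀ x, max (S x) 0 ∈ Set.Icc (0:ℝ) B := fun x =>
    ⟨le_max_right _ _, max_le ((le_abs_self _).trans (hB x)) hB0⟩
  have bint : ∀ g : ℝ → ℝ, Continuous g → Integrable (fun x => g (max (S x) 0)) μ := by
    intro g hg
    obtain ⟨K, hK⟩ := (isCompact_Icc (a := (0:ℝ)) (b := B)).exists_bound_of_continuousOn
      (f := g) hg.continuousOn
    exact int_of_bdd (B := K) (hg.comp hmax).measurable fun x => hK _ (hmem x)
  have i1 : Integrable (Set.indicator {x | 0 < S x} (fun _ => (1:ℝ))) μ :=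
    (integrable_const 1).indicator hA
  have e1 : ∫ x, Set.indicator {x | 0 < S x} (fun _ => (1:ℝ)) x ∂μ = p := by
    rw [integral_indicator hA, setIntegral_const, smul_eq_mul, mul_one]
  -- step 1
  have s1 : ∫ x, (Real.sqrt (1 + (max (S x) 0) ^ 2) - 1) ^ 2 ∂μ ≤ p := by
    have hd : ∀ t : ℝ, HasDerivAt (fun t => Real.sqrt (1 + t ^ 2) - 1) (t / Real.sqrt (1 + t ^ 2)) t := by
      intro t
      have h1 : HasDerivAt (fun t : ℝ => 1 + t ^ 2) (2 * t) t := by
        have := ((hasDerivAt_id t).pow 2).const_add 1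
        refine this.congr_deriv ?_
        simp
      have h2 := (h1.sqrt (by positivity)).sub_const 1
      refine h2.congr_deriv ?_
      have : 0 < Real.sqrt (1 + t ^ 2) := Real.sqrt_pos.2 (by positivity)
      field_simp
    have hcd : Continuous fun t : ℝ => t / Real.sqrt (1 + t ^ 2) :=
      continuous_id.div (by fun_prop) fun t => (Real.sqrt_pos.2 (by positivity)).ne'
    have h := basic hμ hS hc hB hM hL hp0 hp hd hcd (by simp) (by simp)
    refine h.trans ?_
    rw [← e1]
    apply integral_mono (bint (fun t => (t / Real.sqrt (1 + t ^ 2)) ^ 2) (hcd.pow 2)) i1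
    intro x
    simp only
    by_cases hx : x ∈ {x | 0 < S x}
    · rw [Set.indicator_of_mem hx, div_pow, Real.sq_sqrt (by positivity), div_le_one (by positivity)]
      linarith
    · have : S x ≤ 0 := not_lt.1 hx
      rw [Set.indicator_of_notMem hx, max_eq_right this]
      simp
  -- step 2
  have s2 : ∫ x, (max (S x) 0) ^ 2 ∂μ ≤ 4 * p := by
    have hpt : ∀ x, (max (S x) 0) ^ 2 ≤ 2 * (Real.sqrt (1 + (max (S x) 0) ^ 2) - 1) ^ 2 +
        2 * Set.indicator {x | 0 < S x} (fun _ => (1:ℝ)) x := by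
      intro x
      by_cases hx : x ∈ {x | 0 < S x}
      · rw [Set.indicator_of_mem hx]
        have hs0 : 0 ≤ Real.sqrt (1 + (max (S x) 0) ^ 2) := Real.sqrt_nonneg _
        have hs1 : Real.sqrt (1 + (max (S x) 0) ^ 2) ^ 2 = 1 + (max (S x) 0) ^ 2 :=
          Real.sq_sqrt (by positivity)
        nlinarith [sq_nonneg (Real.sqrt (1 + (max (S x) 0) ^ 2) - 2)]
      · have : S x ≤ 0 := not_lt.1 hx
        rw [Set.indicator_of_notMem hx, max_eq_right this]
        simp
    have j1 : Integrable (fun x => 2 * (Real.sqrt (1 + (max (S x) 0) ^ 2) - 1) ^ 2) μ :=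
      bint (fun t => 2 * (Real.sqrt (1 + t ^ 2) - 1) ^ 2) (by fun_prop)
    have j2 : Integrable (fun x => 2 * Set.indicator {x | 0 < S x} (fun _ => (1:ℝ)) x) μ :=
      i1.const_mul 2
    have h := integral_mono (bint (fun t => t ^ 2) (by fun_prop)) (j1.add j2) hpt
    simp only [Pi.add_apply] at h
    rw [integral_add j1 j2, integral_const_mul, integral_const_mul, e1] at h
    linarith
  -- step 3
  have s3 : ∫ x, (Real.exp (max (S x) 0 / 2) - 1) ^ 2 ∂μ ≤ 4 * p := by
    have hd : ∀ t : ℝ, HasDerivAt (fun t => Real.exp (t / 2) - 1 - t / 2) ((Real.exp (t / 2) - 1) / 2) t := by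
      intro t
      have h1 : HasDerivAt (fun t : ℝ => t / 2) (1 / 2) t := (hasDerivAt_id t).div_const 2
      have h2 := (h1.exp.sub_const 1).sub h1
      refine h2.congr_deriv ?_
      ring
    have h := basic hμ hS hc hB hM hL hp0 hp hd (by fun_prop) (by simp) (by simp)
    have k1 : Integrable (fun x => (Real.exp (max (S x) 0 / 2) - 1) ^ 2) μ :=
      bint (fun t => (Real.exp (t / 2) - 1) ^ 2) (by fun_prop)
    have k2 : Integrable (fun x => (Real.exp (max (S x) 0 / 2) - 1 - max (S x) 0 / 2) ^ 2) μ :=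
      bint (fun t => (Real.exp (t / 2) - 1 - t / 2) ^ 2) (by fun_prop)
    have k3 : Integrable (fun x => (max (S x) 0) ^ 2) μ := bint (fun t => t ^ 2) (by fun_prop)
    have hpt : ∀ x, 1 / 2 * (Real.exp (max (S x) 0 / 2) - 1) ^ 2 ≤
        (Real.exp (max (S x) 0 / 2) - 1 - max (S x) 0 / 2) ^ 2 + 1 / 4 * (max (S x) 0) ^ 2 := by
      intro x
      nlinarith [sq_nonneg (Real.exp (max (S x) 0 / 2) - 1 - max (S x) 0)]
    have k4 : Integrable (fun x => 1 / 4 * (max (S x) 0) ^ 2) μ := k3.const_mul _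
    have h2 := integral_mono (k1.const_mul (1 / 2)) (k2.add k4) hpt
    simp only [Pi.add_apply] at h2
    rw [integral_add k2 k4, integral_const_mul, integral_const_mul] at h2
    have h3 : ∫ x, ((Real.exp (max (S x) 0 / 2) - 1) / 2) ^ 2 ∂μ =
        1 / 4 * ∫ x, (Real.exp (max (S x) 0 / 2) - 1) ^ 2 ∂μ := by
      rw [← integral_const_mul]
      congr 1
      funext x
      ring
    rw [h3] at h
    linarith
  -- step 4
  rw [← integral_indicator hA]
  have hpt : ∀ x, Set.indicator {x | 0 < S x} (fun x => Real.exp (S x)) x ≤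
      2 * (Real.exp (max (S x) 0 / 2) - 1) ^ 2 + 2 * Set.indicator {x | 0 < S x} (fun _ => (1:ℝ)) x := by
    intro x
    by_cases hx : x ∈ {x | 0 < S x}
    · rw [Set.indicator_of_mem hx, Set.indicator_of_mem hx, max_eq_left (le_of_lt hx)]
      have e : Real.exp (S x) = Real.exp (S x / 2) ^ 2 := by
        rw [← Real.exp_nat_mul]; congr 1; push_cast; ring
      rw [e]
      nlinarith [sq_nonneg (Real.exp (S x / 2) - 2)]
    · rw [Set.indicator_of_notMem hx, Set.indicator_of_notMem hx]
      positivity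
  have j1 : Integrable (fun x => 2 * (Real.exp (max (S x) 0 / 2) - 1) ^ 2) μ :=
    bint (fun t => 2 * (Real.exp (t / 2) - 1) ^ 2) (by fun_prop)
  have j2 : Integrable (fun x => 2 * Set.indicator {x | 0 < S x} (fun _ => (1:ℝ)) x) μ :=
    i1.const_mul 2
  have h := integral_mono_of_nonneg (μ := μ) (f := Set.indicator {x | 0 < S x} (fun x => Real.exp (S x)))
    (Eventually.of_forall fun x => Set.indicator_nonneg (fun _ _ => (Real.exp_pos _).le) _)
    (j1.add j2) (Eventually.of_forall hpt)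
  simp only [Pi.add_apply] at h
  rw [integral_add j1 j2, integral_const_mul, integral_const_mul, e1] at h
  linarith

end Q297.Mix
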