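import Pool.Agent.Q297.MixReg

open MeasureTheory Filter Topology ProbabilityTheory
open scoped RealInnerProductSpace

namespace Q297.Mix

variable {d : ℕ} {π η : Measure (EuclideanSpace ℝ (Fin d))} [IsProbabilityMeasure π]
  [IsProbabilityMeasure η] {M : ℝ}

/-- log-likelihood ratio -/
noncomputable def llr (π η : Measure (EuclideanSpace ℝ (Fin d))) (x : EuclideanSpace ℝ (Fin d)) : ℝ :=
  Real.log (LL π x) - Real.log (LL η x)

/-- derivative of the log-likelihood ratio -/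
noncomputable def llr' (π η : Measure (EuclideanSpace ℝ (Fin d))) (x : EuclideanSpace ℝ (Fin d)) :
    EuclideanSpace ℝ (Fin d) →L[ℝ] ℝ :=
  (LL π x)⁻¹ • LL' π x - (LL η x)⁻¹ • LL' η x

lemma llr_hasFDerivAt (hπ : ∀ᵐ z ∂π, ‖z‖ ≤ M) (hη : ∀ᵐ z ∂η, ‖z‖ ≤ M)
    (x : EuclideanSpace ℝ (Fin d)) : HasFDerivAt (llr π η) (llr' π η x) x := by
  unfold llr llr'
  exact ((LL_hasFDerivAt hπ x).log (LL_pos hπ x).ne').sub
    ((LL_hasFDerivAt hη x).log (LL_pos hη x).ne')

lemma llr'_cont (hπ : ∀ᵐ z ∂π, ‖z‖ ≤ M) (hη : ∀ᵐ z ∂η, ‖z‖ ≤ M) : Continuous (llr' π η) := by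
  unfold llr'
  exact (((LL_cont hπ).inv₀ fun x => (LL_pos hπ x).ne').smul (LL'_cont hπ)).sub
    (((LL_cont hη).inv₀ fun x => (LL_pos hη x).ne').smul (LL'_cont hη))

lemma llr'_norm (hπ : ∀ᵐ z ∂π, ‖z‖ ≤ M) (hη : ∀ᵐ z ∂η, ‖z‖ ≤ M)
    (x : EuclideanSpace ℝ (Fin d)) : ‖llr' π η x‖ ≤ 2 * M := by
  unfold llr'
  have h1 : ‖(LL π x)⁻¹ • LL' π x‖ ≤ M := by
    have hp := LL_pos hπ x
    rw [norm_smul, norm_inv, Real.norm_eq_abs, abs_of_pos hp]
    calc (LL π x)⁻¹ * ‖LL' π x‖ ≤ (LL π x)⁻¹ * (M * LL π x) :=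
          mul_le_mul_of_nonneg_left (LL'_norm hπ x) (inv_pos.2 hp).le
      _ = M := by field_simp
  have h2 : ‖(LL η x)⁻¹ • LL' η x‖ ≤ M := by
    have hp := LL_pos hη x
    rw [norm_smul, norm_inv, Real.norm_eq_abs, abs_of_pos hp]
    calc (LL η x)⁻¹ * ‖LL' η x‖ ≤ (LL η x)⁻¹ * (M * LL η x) :=
          mul_le_mul_of_nonneg_left (LL'_norm hη x) (inv_pos.2 hp).le
      _ = M := by field_simp
  calc _ ≤ ‖(LL π x)⁻¹ • LL' π x‖ + ‖(LL η x)⁻¹ • LL' η x‖ := norm_sub_le _ _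
    _ ≤ 2 * M := by linarith

lemma llr_cont (hπ : ∀ᵐ z ∂π, ‖z‖ ≤ M) (hη : ∀ᵐ z ∂η, ‖z‖ ≤ M) : Continuous (llr π η) :=
  continuous_iff_continuousAt.2 fun x => (llr_hasFDerivAt hπ hη x).continuousAt

lemma exp_llr (hπ : ∀ᵐ z ∂π, ‖z‖ ≤ M) (hη : ∀ᵐ z ∂η, ‖z‖ ≤ M) (x : EuclideanSpace ℝ (Fin d)) :
    Real.exp (llr π η x) = LL π x * (LL η x)⁻¹ := by
  unfold llr
  rw [Real.exp_sub, Real.exp_log (LL_pos hπ x), Real.exp_log (LL_pos hη x), div_eq_mul_inv]

lemma gam_LSI2 (z : EuclideanSpace ℝ (Fin d)) : LSI2 (gam z) :=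
  fun _ _ _ _ hu hc hB hL => gam_lsi z hu hc hB hL

/-- mean of the likelihood ratio -/
lemma lint_ratio (hπ : ∀ᵐ z ∂π, ‖z‖ ≤ M) (hη : ∀ᵐ z ∂η, ‖z‖ ≤ M) {z : EuclideanSpace ℝ (Fin d)}
    (hz : ‖z‖ ≤ M) :
    ∫⁻ x, ENNReal.ofReal (Real.exp (llr π η x)) ∂(gam z) ≤ ENNReal.ofReal (Real.exp (4 * M ^ 2)) := by
  have hek : ∀ a : EuclideanSpace ℝ (Fin d), Measurable fun x => ENNReal.ofReal (ek x a) :=
    fun a => (ek_cont_x a).measurable.ennreal_ofReal
  -- pointwise bound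
  have h1 : ∀ x, ENNReal.ofReal (Real.exp (llr π η x)) ≤
      ∫⁻ w, ∫⁻ v, ENNReal.ofReal (ek x w * (ek x v)⁻¹) ∂η ∂π := by
    intro x
    rw [exp_llr hπ hη x, ENNReal.ofReal_mul (LL_pos hπ x).le]
    have e1 : ENNReal.ofReal (LL π x) = ∫⁻ w, ENNReal.ofReal (ek x w) ∂π :=
      ofReal_integral_eq_lintegral_ofReal (ek_int hπ x) (Eventually.of_forall fun z => (ek_pos x z).le)
    rw [e1]
    calc (∫⁻ w, ENNReal.ofReal (ek x w) ∂π) * ENNReal.ofReal (LL η x)⁻¹
        ≤ (∫⁻ w, ENNReal.ofReal (ek x w) ∂π) * ∫⁻ v, ENNReal.ofReal (ek x v)⁻¹ ∂η := by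
          gcongr
          exact inv_LL_le hη x
      _ = ∫⁻ w, ENNReal.ofReal (ek x w) * ∫⁻ v, ENNReal.ofReal (ek x v)⁻¹ ∂η ∂π := by
          rw [lintegral_mul_const _ (ek_cont_z x).measurable.ennreal_ofReal]
      _ = _ := by
          refine lintegral_congr fun w => ?_
          have hmi : Measurable fun v => ENNReal.ofReal (ek x v)⁻¹ :=
            ((ek_cont_z x).inv₀ fun z => (ek_pos x z).ne').measurable.ennreal_ofReal
          rw [← lintegral_const_mul _ hmi]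
          refine lintegral_congr fun v => ?_
          rw [ENNReal.ofReal_mul (ek_pos x w).le]
  have hc3 : Continuous fun p : (EuclideanSpace ℝ (Fin d) × EuclideanSpace ℝ (Fin d)) ×
      EuclideanSpace ℝ (Fin d) => ek p.1.1 p.1.2 * (ek p.1.1 p.2)⁻¹ := by
    unfold ek
    refine Continuous.mul (by fun_prop) (Continuous.inv₀ (by fun_prop) fun p => (Real.exp_pos _).ne')
  have hm3 : Measurable fun p : (EuclideanSpace ℝ (Fin d) × EuclideanSpace ℝ (Fin d)) ×
      EuclideanSpace ℝ (Fin d) => ENNReal.ofReal (ek p.1.1 p.1.2 * (ek p.1.1 p.2)⁻¹) :=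
    hc3.measurable.ennreal_ofReal
  have hm2 : Measurable fun p : EuclideanSpace ℝ (Fin d) × EuclideanSpace ℝ (Fin d) =>
      ∫⁻ v, ENNReal.ofReal (ek p.1 p.2 * (ek p.1 v)⁻¹) ∂η :=
    hm3.lintegral_prod_right'
  refine (lintegral_mono h1).trans ?_
  rw [lintegral_lintegral_swap hm2.aemeasurable]
  -- inner swap
  have h2 : ∀ᵐ w ∂π, ∫⁻ x, ∫⁻ v, ENNReal.ofReal (ek x w * (ek x v)⁻¹) ∂η ∂(gam z) ≤
      ENNReal.ofReal (Real.exp (4 * M ^ 2)) := by
    filter_upwards [hπ] with w hw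
    have hm4 : Measurable fun p : EuclideanSpace ℝ (Fin d) × EuclideanSpace ℝ (Fin d) =>
        ENNReal.ofReal (ek p.1 w * (ek p.1 p.2)⁻¹) := by
      have hc4 : Continuous fun p : EuclideanSpace ℝ (Fin d) × EuclideanSpace ℝ (Fin d) =>
          ek p.1 w * (ek p.1 p.2)⁻¹ := by
        unfold ek
        refine Continuous.mul (by fun_prop) (Continuous.inv₀ (by fun_prop) fun p => (Real.exp_pos _).ne')
      exact hc4.measurable.ennreal_ofReal
    rw [lintegral_lintegral_swap hm4.aemeasurable]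
    have h3 : ∀ᵐ v ∂η, ∫⁻ x, ENNReal.ofReal (ek x w * (ek x v)⁻¹) ∂(gam z) ≤
        ENNReal.ofReal (Real.exp (4 * M ^ 2)) := by
      filter_upwards [hη] with v hv
      have e1 : ∀ x, ek x w * (ek x v)⁻¹ =
          Real.exp (‖v‖ ^ 2 / 2 - ‖w‖ ^ 2 / 2) * Real.exp ⟪w - v, x⟫ := by
        intro x
        unfold ek
        rw [← Real.exp_neg, ← Real.exp_add, ← Real.exp_add, inner_sub_left]
        congr 1
        ring
      simp only [e1]
      have e2 : ∀ x : EuclideanSpace ℝ (Fin d), ENNReal.ofReal (Real.exp (‖v‖ ^ 2 / 2 - ‖w‖ ^ 2 / 2) *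
          Real.exp ⟪w - v, x⟫) = ENNReal.ofReal (Real.exp (‖v‖ ^ 2 / 2 - ‖w‖ ^ 2 / 2)) *
          ENNReal.ofReal (Real.exp ⟪w - v, x⟫) := fun x => ENNReal.ofReal_mul (Real.exp_pos _).le
      simp only [e2]
      have hcm : Measurable fun x : EuclideanSpace ℝ (Fin d) => ENNReal.ofReal (Real.exp ⟪w - v, x⟫) :=
        (by fun_prop : Continuous fun x : EuclideanSpace ℝ (Fin d) =>
          Real.exp ⟪w - v, x⟫).measurable.ennreal_ofReal
      rw [lintegral_const_mul _ hcm, lint_exp_gam, ← ENNReal.ofReal_mul (Real.exp_pos _).le,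
        ← Real.exp_add]
      apply ENNReal.ofReal_le_ofReal
      apply Real.exp_le_exp.2
      have e3 : ‖v‖ ^ 2 / 2 - ‖w‖ ^ 2 / 2 + (⟪w - v, z⟫ + ‖w - v‖ ^ 2 / 2) = ⟪w - v, z - v⟫ := by
        rw [norm_sub_sq_real, inner_sub_left, inner_sub_left, inner_sub_right, inner_sub_right,
          real_inner_self_eq_norm_sq]
        ring
      rw [e3]
      have h4 : ⟪w - v, z - v⟫ ≤ ‖w - v‖ * ‖z - v‖ := real_inner_le_norm _ _
      have h5 : ‖w - v‖ ≤ 2 * M := (norm_sub_le _ _).trans (by linarith)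
      have h6 : ‖z - v‖ ≤ 2 * M := (norm_sub_le _ _).trans (by linarith)
      have h7 : ‖w - v‖ * ‖z - v‖ ≤ (2 * M) * (2 * M) :=
        mul_le_mul h5 h6 (norm_nonneg _) ((norm_nonneg _).trans h5)
      nlinarith
    calc ∫⁻ v, ∫⁻ x, ENNReal.ofReal (ek x w * (ek x v)⁻¹) ∂(gam z) ∂η
        ≤ ∫⁻ _, ENNReal.ofReal (Real.exp (4 * M ^ 2)) ∂η := lintegral_mono_ae h3
      _ = _ := by simp
  calc ∫⁻ w, ∫⁻ x, ∫⁻ v, ENNReal.ofReal (ek x w * (ek x v)⁻¹) ∂η ∂(gam z) ∂π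
      ≤ ∫⁻ _, ENNReal.ofReal (Real.exp (4 * M ^ 2)) ∂π := lintegral_mono_ae h2
    _ = _ := by simp

/-- the exceptional set -/
def bad (π η : Measure (EuclideanSpace ℝ (Fin d))) (R : ℝ) : Set (EuclideanSpace ℝ (Fin d)) :=
  {x | Real.log R < llr π η x}

lemma bad_meas (hπ : ∀ᵐ z ∂π, ‖z‖ ≤ M) (hη : ∀ᵐ z ∂η, ‖z‖ ≤ M) (R : ℝ) :
    MeasurableSet (bad π η R) :=
  measurableSet_lt measurable_const (llr_cont hπ hη).measurable

lemma bad_small (hπ : ∀ᵐ z ∂π, ‖z‖ ≤ M) (hη : ∀ᵐ z ∂η, ‖z‖ ≤ M) {z : EuclideanSpace ℝ (Fin d)}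
    (hz : ‖z‖ ≤ M) {R : ℝ} (hR : Real.exp (12 * M ^ 2) ≤ R) :
    (gam z).real (bad π η R) ≤ Real.exp (-(8 * M ^ 2)) := by
  have hR0 : 0 < R := (Real.exp_pos _).trans_le hR
  have h1 : ENNReal.ofReal R * (gam z) (bad π η R) ≤ ENNReal.ofReal (Real.exp (4 * M ^ 2)) := by
    calc ENNReal.ofReal R * (gam z) (bad π η R) = ∫⁻ _ in bad π η R, ENNReal.ofReal R ∂(gam z) := by
          simp
      _ ≤ ∫⁻ x in bad π η R, ENNReal.ofReal (Real.exp (llr π η x)) ∂(gam z) := by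
          refine setLIntegral_mono' (bad_meas hπ hη R) fun x hx => ?_
          apply ENNReal.ofReal_le_ofReal
          have hx' : Real.log R < llr π η x := hx
          calc R = Real.exp (Real.log R) := (Real.exp_log hR0).symm
            _ ≤ _ := Real.exp_le_exp.2 hx'.le
      _ ≤ ∫⁻ x, ENNReal.ofReal (Real.exp (llr π η x)) ∂(gam z) := setLIntegral_le_lintegral _ _
      _ ≤ _ := lint_ratio hπ hη hz
  have h2 : R * (gam z).real (bad π η R) ≤ Real.exp (4 * M ^ 2) := by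
    have h3 : ENNReal.ofReal (R * (gam z).real (bad π η R)) ≤ ENNReal.ofReal (Real.exp (4 * M ^ 2)) := by
      rw [ENNReal.ofReal_mul hR0.le, ofReal_measureReal (by finiteness)]
      exact h1
    exact (ENNReal.ofReal_le_ofReal_iff (Real.exp_pos _).le).1 h3
  have h4 : Real.exp (12 * M ^ 2) * (gam z).real (bad π η R) ≤ Real.exp (4 * M ^ 2) :=
    (mul_le_mul_of_nonneg_right hR measureReal_nonneg).trans h2
  have h5 : Real.exp (-(8 * M ^ 2)) = Real.exp (4 * M ^ 2) / Real.exp (12 * M ^ 2) := by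
    rw [← Real.exp_sub]; congr 1; ring
  rw [h5, le_div_iff₀ (Real.exp_pos _), mul_comm]
  exact h4

/-- exponential moment of the ratio on the exceptional set -/
lemma bad_exp (hM : 0 < M) (hπ : ∀ᵐ z ∂π, ‖z‖ ≤ M) (hη : ∀ᵐ z ∂η, ‖z‖ ≤ M)
    {z : EuclideanSpace ℝ (Fin d)} (hz : ‖z‖ ≤ M) {R : ℝ} (hR : Real.exp (12 * M ^ 2) ≤ R) :
    ∫⁻ x in bad π η R, ENNReal.ofReal (Real.exp (llr π η x)) ∂(gam z) ≤
      ENNReal.ofReal (10 * R) * (gam z) (bad π η R) := by
  have hR0 : 0 < R := (Real.exp_pos _).trans_le hR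
  set s : EuclideanSpace ℝ (Fin d) → ℝ := fun x => llr π η x - Real.log R with hs
  have hbad : ∀ x, x ∈ bad π η R ↔ 0 < s x := fun x => by
    simp only [bad, hs, Set.mem_ofPred_eq, sub_pos]
  have hscont : Continuous s := (llr_cont hπ hη).sub continuous_const
  -- truncations
  set S : ℕ → EuclideanSpace ℝ (Fin d) → ℝ := fun k x => (k + 1 : ℝ) * Real.arctan (s x / (k + 1)) with hS
  set S' : ℕ → EuclideanSpace ℝ (Fin d) → (EuclideanSpace ℝ (Fin d) →L[ℝ] ℝ) :=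
    fun k x => (1 / (1 + (s x / (k + 1)) ^ 2)) • llr' π η x with hS'
  have hSd : ∀ k x, HasFDerivAt (S k) (S' k x) x := by
    intro k x
    have hk : (0:ℝ) < k + 1 := by positivity
    have h1 : HasDerivAt (fun t : ℝ => (k + 1 : ℝ) * Real.arctan (t / (k + 1)))
        (1 / (1 + (s x / (k + 1)) ^ 2)) (s x) := by
      have h := ((Real.hasDerivAt_arctan (s x / (k + 1))).comp (s x)
        ((hasDerivAt_id (s x)).div_const (k + 1 : ℝ))).const_mul (k + 1 : ℝ)
      refine h.congr_deriv ?_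
      field_simp
    exact h1.comp_hasFDerivAt x ((llr_hasFDerivAt hπ hη x).sub_const (Real.log R))
  have hS'c : ∀ k, Continuous (S' k) := by
    intro k
    have h1 : Continuous fun x => 1 / (1 + (s x / (k + 1 : ℝ)) ^ 2) :=
      continuous_const.div (continuous_const.add ((hscont.div_const _).pow 2)) fun x => by positivity
    exact h1.smul (llr'_cont hπ hη)
  have hSb : ∀ k x, |S k x| ≤ (k + 1 : ℝ) * (Real.pi / 2) := by
    intro k x
    simp only [hS]
    rw [abs_mul, abs_of_pos (by positivity : (0:ℝ) < k + 1)]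
    refine mul_le_mul_of_nonneg_left ?_ (by positivity)
    exact abs_le.2 ⟨(Real.neg_pi_div_two_lt_arctan _).le, (Real.arctan_lt_pi_div_two _).le⟩
  have hS'n : ∀ k x, ‖S' k x‖ ≤ 2 * M := by
    intro k x
    simp only [hS']
    rw [norm_smul, Real.norm_eq_abs, abs_of_pos (by positivity)]
    have h1 : 1 / (1 + (s x / (k + 1 : ℝ)) ^ 2) ≤ 1 := by
      rw [div_le_one (by positivity)]
      nlinarith [sq_nonneg (s x / (k + 1 : ℝ))]
    calc _ ≤ 1 * (2 * M) := mul_le_mul h1 (llr'_norm hπ hη x) (norm_nonneg _) zero_le_one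
      _ = _ := one_mul _
  have hset : ∀ k, {x | 0 < S k x} = bad π η R := by
    intro k
    ext x
    rw [hbad]
    simp only [hS, Set.mem_ofPred_eq]
    have hk : (0:ℝ) < k + 1 := by positivity
    rw [mul_pos_iff_of_pos_left hk, Real.arctan_pos, div_pos_iff_of_pos_right hk]
  have hkey : ∀ k, ∫⁻ x in bad π η R, ENNReal.ofReal (Real.exp (S k x)) ∂(gam z) ≤
      ENNReal.ofReal 10 * (gam z) (bad π η R) := by
    intro k
    have h1 := exp_bound (gam_LSI2 z) (hSd k) (hS'c k) (hSb k) hM (hS'n k) (by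
      rw [hset]; exact bad_small hπ hη hz hR)
    rw [hset] at h1
    have hSc : Continuous (S k) := continuous_iff_continuousAt.2 fun x => (hSd k x).continuousAt
    have hi : Integrable (fun x => Real.exp (S k x)) ((gam z).restrict (bad π η R)) := by
      refine Integrable.of_bound (by fun_prop) (Real.exp ((k + 1 : ℝ) * (Real.pi / 2))) ?_
      refine Eventually.of_forall fun x => ?_
      rw [Real.norm_eq_abs, abs_of_pos (Real.exp_pos _)]
      exact Real.exp_le_exp.2 ((le_abs_self _).trans (hSb k x))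
    rw [← ofReal_integral_eq_lintegral_ofReal hi (Eventually.of_forall fun x => (Real.exp_pos _).le)]
    calc ENNReal.ofReal (∫ x in bad π η R, Real.exp (S k x) ∂(gam z))
        ≤ ENNReal.ofReal (10 * (gam z).real (bad π η R)) := ENNReal.ofReal_le_ofReal h1
      _ = _ := by rw [ENNReal.ofReal_mul (by norm_num), ofReal_measureReal (by finiteness)]
  -- Fatou
  have hlim : ∀ x, Tendsto (fun k => ENNReal.ofReal (Real.exp (S k x))) atTop
      (𝓝 (ENNReal.ofReal (Real.exp (s x)))) := fun x =>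
    (ENNReal.continuous_ofReal.tendsto _).comp ((Real.continuous_exp.tendsto _).comp
      (Q297.Lsi.tendsto_mul_arctan (s x)))
  have hfat : ∫⁻ x in bad π η R, ENNReal.ofReal (Real.exp (s x)) ∂(gam z) ≤
      ENNReal.ofReal 10 * (gam z) (bad π η R) := by
    calc ∫⁻ x in bad π η R, ENNReal.ofReal (Real.exp (s x)) ∂(gam z)
        = ∫⁻ x in bad π η R, liminf (fun k => ENNReal.ofReal (Real.exp (S k x))) atTop ∂(gam z) := by
          refine lintegral_congr fun x => ?_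
          exact (hlim x).liminf_eq.symm
      _ ≤ liminf (fun k => ∫⁻ x in bad π η R, ENNReal.ofReal (Real.exp (S k x)) ∂(gam z)) atTop := by
          refine lintegral_liminf_le fun k => ?_
          have hSc : Continuous (S k) := continuous_iff_continuousAt.2 fun x => (hSd k x).continuousAt
          exact (by fun_prop : Continuous fun x => Real.exp (S k x)).measurable.ennreal_ofReal
      _ ≤ _ := by
          refine (liminf_le_liminf (Eventually.of_forall hkey)).trans ?_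
          simp
  have e : ∀ x, ENNReal.ofReal (Real.exp (llr π η x)) =
      ENNReal.ofReal R * ENNReal.ofReal (Real.exp (s x)) := by
    intro x
    rw [← ENNReal.ofReal_mul hR0.le]
    congr 1
    simp only [hs]
    rw [Real.exp_sub, Real.exp_log hR0]
    field_simp
  simp only [e]
  rw [lintegral_const_mul _ (by fun_prop : Measurable fun x => ENNReal.ofReal (Real.exp (s x)))]
  calc ENNReal.ofReal R * ∫⁻ x in bad π η R, ENNReal.ofReal (Real.exp (s x)) ∂(gam z)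
      ≤ ENNReal.ofReal R * (ENNReal.ofReal 10 * (gam z) (bad π η R)) := by gcongr
    _ = _ := by rw [← mul_assoc, ← ENNReal.ofReal_mul hR0.le, mul_comm R 10]

end Q297.Mix
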