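import Pool.Agent.Q297.MixDefs
import Pool.Agent.Q297.MixRatio

open MeasureTheory Filter Topology ProbabilityTheory
open scoped RealInnerProductSpace

namespace Q297.Mix

variable {d : ℕ} {π η : Measure (EuclideanSpace ℝ (Fin d))} [IsProbabilityMeasure π]
  [IsProbabilityMeasure η] {M : ℝ}

lemma normalDensity_eq (z x : EuclideanSpace ℝ (Fin d)) : normalDensity z x = phi z x := by
  unfold normalDensity phi
  congr 1
  · have hpi : 0 < 2 * Real.pi := by positivity
    rw [Real.sqrt_eq_rpow, ← Real.rpow_neg hpi.le, ← Real.rpow_natCast, ← Real.rpow_mul hpi.le]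
    congr 1
    ring
  · congr 1
    ring

/-- common factor -/
noncomputable def cd (x : EuclideanSpace ℝ (Fin d)) : ℝ :=
  (Real.sqrt (2 * Real.pi))⁻¹ ^ d * Real.exp (-(‖x‖ ^ 2 / 2))

lemma cd_pos (x : EuclideanSpace ℝ (Fin d)) : 0 < cd x := by
  unfold cd
  positivity

lemma phi_eq (z x : EuclideanSpace ℝ (Fin d)) : phi z x = cd x * ek x z := by
  unfold phi cd ek
  rw [mul_assoc, ← Real.exp_add, norm_sub_sq_real, real_inner_comm]
  congr 2
  ring

lemma mixture_eq (x : EuclideanSpace ℝ (Fin d)) : mixture π x = cd x * LL π x := by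
  unfold mixture LL
  rw [← integral_const_mul]
  congr 1
  funext z
  rw [normalDensity_eq, phi_eq]

lemma mixture_pos (hπ : ∀ᵐ z ∂π, ‖z‖ ≤ M) (x : EuclideanSpace ℝ (Fin d)) : 0 < mixture π x := by
  rw [mixture_eq]
  exact mul_pos (cd_pos x) (LL_pos hπ x)

lemma cd_cont : Continuous (cd : EuclideanSpace ℝ (Fin d) → ℝ) := by
  unfold cd
  fun_prop

lemma mixture_cont (hπ : ∀ᵐ z ∂π, ‖z‖ ≤ M) : Continuous (mixture π) := by
  have : mixture π = fun x => cd x * LL π x := by
    funext x; exact mixture_eq x
  rw [this]
  exact cd_cont.mul (LL_cont hπ)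

lemma ofReal_mixture (hπ : ∀ᵐ z ∂π, ‖z‖ ≤ M) (x : EuclideanSpace ℝ (Fin d)) :
    ENNReal.ofReal (mixture π x) = ∫⁻ z, ENNReal.ofReal (phi z x) ∂π := by
  have e : mixture π x = ∫ z, phi z x ∂π := by
    unfold mixture
    congr 1
    funext z
    exact normalDensity_eq z x
  have hi : Integrable (fun z => phi z x) π := by
    have := (ek_int hπ x).const_mul (cd x)
    refine this.congr (Eventually.of_forall fun z => ?_)
    exact (phi_eq z x).symm
  rw [e, ofReal_integral_eq_lintegral_ofReal hi (Eventually.of_forall fun z => (phi_pos z x).le)]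

lemma phi_cont_z (x : EuclideanSpace ℝ (Fin d)) : Continuous fun z => phi z x := by
  unfold phi
  fun_prop

lemma phi_cont_sw : Continuous fun p : EuclideanSpace ℝ (Fin d) × EuclideanSpace ℝ (Fin d) =>
    phi p.2 p.1 := by
  unfold phi
  fun_prop

/-- integration against the mixture -/
lemma lint_mixture (hπ : ∀ᵐ z ∂π, ‖z‖ ≤ M) {F : EuclideanSpace ℝ (Fin d) → ENNReal}
    (hF : Measurable F) {A : Set (EuclideanSpace ℝ (Fin d))} (hA : MeasurableSet A) :
    ∫⁻ x in A, ENNReal.ofReal (mixture π x) * F x = ∫⁻ z, ∫⁻ x in A, F x ∂(gam z) ∂π := by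
  have h1 : ∀ x, ENNReal.ofReal (mixture π x) * A.indicator F x =
      ∫⁻ z, ENNReal.ofReal (phi z x) * A.indicator F x ∂π := by
    intro x
    rw [ofReal_mixture hπ x, lintegral_mul_const]
    exact (phi_cont_z x).measurable.ennreal_ofReal
  have h2 : ∫⁻ x in A, ENNReal.ofReal (mixture π x) * F x =
      ∫⁻ x, ENNReal.ofReal (mixture π x) * A.indicator F x := by
    rw [← lintegral_indicator hA]
    refine lintegral_congr fun x => ?_
    by_cases hx : x ∈ A
    · rw [Set.indicator_of_mem hx, Set.indicator_of_mem hx]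
    · rw [Set.indicator_of_notMem hx, Set.indicator_of_notMem hx, mul_zero]
  rw [h2]
  simp only [h1]
  have hmF : Measurable (A.indicator F) := hF.indicator hA
  have hm : Measurable fun p : EuclideanSpace ℝ (Fin d) × EuclideanSpace ℝ (Fin d) =>
      ENNReal.ofReal (phi p.2 p.1) * A.indicator F p.1 := by
    exact phi_cont_sw.measurable.ennreal_ofReal.mul (hmF.comp measurable_fst)
  rw [lintegral_lintegral_swap hm.aemeasurable]
  refine lintegral_congr fun z => ?_
  rw [← lintegral_indicator hA, lint_gam z _ hmF]

lemma lint_mixture_univ (hπ : ∀ᵐ z ∂π, ‖z‖ ≤ M) :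
    ∫⁻ x, ENNReal.ofReal (mixture π x) = 1 := by
  have h := lint_mixture hπ (F := fun _ => 1) measurable_const MeasurableSet.univ
  simpa using h

/-- the key inequality integrated over the mixing measure -/
lemma bad_mixture (hM : 0 < M) (hπ : ∀ᵐ z ∂π, ‖z‖ ≤ M) (hη : ∀ᵐ z ∂η, ‖z‖ ≤ M) {R : ℝ}
    (hR : Real.exp (12 * M ^ 2) ≤ R) :
    ∫⁻ x in bad π η R, ENNReal.ofReal (mixture π x) * ENNReal.ofReal (Real.exp (llr π η x)) ≤
      ENNReal.ofReal (10 * R) * ∫⁻ x in bad π η R, ENNReal.ofReal (mixture π x) := by
  have hA := bad_meas hπ hη R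
  have hmE : Measurable fun x => ENNReal.ofReal (Real.exp (llr π η x)) :=
    ((llr_cont hπ hη).rexp).measurable.ennreal_ofReal
  rw [lint_mixture hπ hmE hA]
  have h2 : ∫⁻ x in bad π η R, ENNReal.ofReal (mixture π x) = ∫⁻ z, (gam z) (bad π η R) ∂π := by
    have h3 := lint_mixture hπ (F := fun _ => 1) measurable_const hA
    simpa using h3
  rw [h2, ← lintegral_const_mul']
  · refine lintegral_mono_ae ?_
    filter_upwards [hπ] with z hz
    exact bad_exp hM hπ hη hz hR
  · exact ENNReal.ofReal_ne_top

lemma ratio_eq (hπ : ∀ᵐ z ∂π, ‖z‖ ≤ M) (hη : ∀ᵐ z ∂η, ‖z‖ ≤ M) (x : EuclideanSpace ℝ (Fin d)) :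
    mixture π x = Real.exp (llr π η x) * mixture η x := by
  rw [exp_llr hπ hη, mixture_eq, mixture_eq]
  have := LL_pos hη x
  field_simp

/-- the comparison of the chi-squared divergence with the Hellinger distance, `lintegral` form -/
lemma chi_le (hM : 0 < M) (hπ : ∀ᵐ z ∂π, ‖z‖ ≤ M) (hη : ∀ᵐ z ∂η, ‖z‖ ≤ M) {R : ℝ}
    (hR : Real.exp (12 * M ^ 2) ≤ R) (hR4 : 4 ≤ R) :
    ∫⁻ x, ENNReal.ofReal ((mixture π x - mixture η x) ^ 2 / mixture η x) ≤
      ENNReal.ofReal (40 * R) *
        ∫⁻ x, ENNReal.ofReal ((Real.sqrt (mixture π x) - Real.sqrt (mixture η x)) ^ 2) := by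
  have hA := bad_meas hπ hη R
  have hR0 : 0 < R := by linarith
  have hcπ := mixture_cont hπ
  have hcη := mixture_cont hη
  set Hf : EuclideanSpace ℝ (Fin d) → ENNReal := fun x =>
    ENNReal.ofReal ((Real.sqrt (mixture π x) - Real.sqrt (mixture η x)) ^ 2) with hHf
  have hHm : Measurable Hf := by
    have : Continuous fun x => (Real.sqrt (mixture π x) - Real.sqrt (mixture η x)) ^ 2 := by fun_prop
    exact this.measurable.ennreal_ofReal
  rw [← lintegral_add_compl _ hA, ← lintegral_add_compl (μ := volume) Hf hA, mul_add]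
  gcongr
  · -- on the bad set
    calc ∫⁻ x in bad π η R, ENNReal.ofReal ((mixture π x - mixture η x) ^ 2 / mixture η x)
        ≤ ∫⁻ x in bad π η R, ENNReal.ofReal (mixture π x) * ENNReal.ofReal (Real.exp (llr π η x)) := by
          refine setLIntegral_mono' hA fun x hx => ?_
          have hp := mixture_pos hπ x
          have hq := mixture_pos hη x
          rw [← ENNReal.ofReal_mul hp.le]
          apply ENNReal.ofReal_le_ofReal
          set r := Real.exp (llr π η x) with hr
          have hrR : R < r := by
            have hx' : Real.log R < llr π η x := hx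
            have := Real.exp_lt_exp.2 hx'
            rwa [Real.exp_log hR0] at this
          have e := ratio_eq hπ hη x
          rw [← hr] at e
          rw [e]
          have e2 : (r * mixture η x - mixture η x) ^ 2 / mixture η x = (r - 1) ^ 2 * mixture η x := by
            field_simp
          rw [e2]
          have : (r - 1) ^ 2 ≤ r * r := by nlinarith
          nlinarith
      _ ≤ ENNReal.ofReal (10 * R) * ∫⁻ x in bad π η R, ENNReal.ofReal (mixture π x) :=
          bad_mixture hM hπ hη hR
      _ ≤ ENNReal.ofReal (10 * R) * ∫⁻ x in bad π η R, ENNReal.ofReal 4 * Hf x := by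
          gcongr ENNReal.ofReal (10 * R) * ?_
          refine setLIntegral_mono' hA fun x hx => ?_
          have hp := mixture_pos hπ x
          have hq := mixture_pos hη x
          simp only [hHf]
          rw [← ENNReal.ofReal_mul (by norm_num)]
          apply ENNReal.ofReal_le_ofReal
          set r := Real.exp (llr π η x) with hr
          have hrR : R < r := by
            have hx' : Real.log R < llr π η x := hx
            have := Real.exp_lt_exp.2 hx'
            rwa [Real.exp_log hR0] at this
          have e := ratio_eq hπ hη x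
          rw [← hr] at e
          have h4q : 4 * mixture η x ≤ mixture π x := by rw [e]; nlinarith
          have hs : 2 * Real.sqrt (mixture η x) ≤ Real.sqrt (mixture π x) := by
            apply Real.le_sqrt_of_sq_le
            rw [mul_pow, Real.sq_sqrt hq.le]
            linarith
          have hs0 : 0 ≤ Real.sqrt (mixture η x) := Real.sqrt_nonneg _
          have hs2 : Real.sqrt (mixture π x) ^ 2 = mixture π x := Real.sq_sqrt hp.le
          nlinarith
      _ = ENNReal.ofReal (40 * R) * ∫⁻ x in bad π η R, Hf x := by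
          rw [lintegral_const_mul _ hHm, ← mul_assoc, ← ENNReal.ofReal_mul (by positivity)]
          congr 2
          ring
  · -- off the bad set
    rw [← lintegral_const_mul _ hHm]
    refine setLIntegral_mono' hA.compl fun x hx => ?_
    have hp := mixture_pos hπ x
    have hq := mixture_pos hη x
    simp only [hHf]
    rw [← ENNReal.ofReal_mul (by positivity)]
    apply ENNReal.ofReal_le_ofReal
    set r := Real.exp (llr π η x) with hr
    have hrR : r ≤ R := by
      have hx' : llr π η x ≤ Real.log R := not_lt.1 hx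
      have := Real.exp_le_exp.2 hx'
      rwa [Real.exp_log hR0] at this
    have e := ratio_eq hπ hη x
    rw [← hr] at e
    set a := Real.sqrt (mixture π x) with ha
    set b := Real.sqrt (mixture η x) with hb
    have hb0 : 0 < b := Real.sqrt_pos.2 hq
    have ha0 : 0 ≤ a := Real.sqrt_nonneg _
    have ha2 : mixture π x = a ^ 2 := (Real.sq_sqrt hp.le).symm
    have hb2 : mixture η x = b ^ 2 := (Real.sq_sqrt hq.le).symm
    rw [ha2, hb2]
    rw [ha2, hb2] at e
    rw [div_le_iff₀ (by positivity)]
    have h1 : (a ^ 2 - b ^ 2) ^ 2 = (a - b) ^ 2 * (a + b) ^ 2 := by ring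
    have h2 : (a + b) ^ 2 ≤ 40 * R * b ^ 2 := by
      have h3 : (a + b) ^ 2 ≤ 2 * a ^ 2 + 2 * b ^ 2 := by nlinarith [sq_nonneg (a - b)]
      have h4 : a ^ 2 ≤ R * b ^ 2 := by rw [e]; exact mul_le_mul_of_nonneg_right hrR (sq_nonneg _)
      nlinarith [sq_nonneg b]
    rw [h1]
    calc (a - b) ^ 2 * (a + b) ^ 2 ≤ (a - b) ^ 2 * (40 * R * b ^ 2) :=
          mul_le_mul_of_nonneg_left h2 (sq_nonneg _)
      _ = _ := by ring

/-- **Main theorem**: all integrals are finite and the comparisons hold. -/
theorem main (hM : 0 < M) (hπ : ∀ᵐ z ∂π, ‖z‖ ≤ M) (hη : ∀ᵐ z ∂η, ‖z‖ ≤ M) :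
    Integrable (fun x => (mixture π x - mixture η x) ^ 2 / mixture η x) ∧
    Integrable (fun x => mixture π x * Real.log (mixture π x / mixture η x)) ∧
    Integrable (fun x => (Real.sqrt (mixture π x) - Real.sqrt (mixture η x)) ^ 2) ∧
    chi2 (mixture π) (mixture η) ≤
      40 * max 4 (Real.exp (12 * M ^ 2)) * H2 (mixture π) (mixture η) ∧
    KL (mixture π) (mixture η) ≤ chi2 (mixture π) (mixture η) := by
  set R := max 4 (Real.exp (12 * M ^ 2)) with hR
  have hR1 : Real.exp (12 * M ^ 2) ≤ R := le_max_right _ _
  have hR4 : 4 ≤ R := le_max_left _ _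
  have hcπ := mixture_cont hπ
  have hcη := mixture_cont hη
  have h1π := lint_mixture_univ hπ
  have h1η := lint_mixture_univ hη
  have hiπ : Integrable (mixture π) := by
    refine ⟨hcπ.aestronglyMeasurable, ?_⟩
    rw [hasFiniteIntegral_iff_ofReal (Eventually.of_forall fun x => (mixture_pos hπ x).le), h1π]
    exact ENNReal.one_lt_top
  have hiη : Integrable (mixture η) := by
    refine ⟨hcη.aestronglyMeasurable, ?_⟩
    rw [hasFiniteIntegral_iff_ofReal (Eventually.of_forall fun x => (mixture_pos hη x).le), h1η]
    exact ENNReal.one_lt_top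
  have hint1 : ∫ x, mixture π x = 1 := by
    rw [integral_eq_lintegral_of_nonneg_ae (Eventually.of_forall fun x => (mixture_pos hπ x).le)
      hcπ.aestronglyMeasurable, h1π, ENNReal.toReal_one]
  have hint2 : ∫ x, mixture η x = 1 := by
    rw [integral_eq_lintegral_of_nonneg_ae (Eventually.of_forall fun x => (mixture_pos hη x).le)
      hcη.aestronglyMeasurable, h1η, ENNReal.toReal_one]
  have hcH : Continuous fun x => (Real.sqrt (mixture π x) - Real.sqrt (mixture η x)) ^ 2 := by fun_prop
  have hcC : Continuous fun x => (mixture π x - mixture η x) ^ 2 / mixture η x :=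
    ((hcπ.sub hcη).pow 2).div hcη fun x => (mixture_pos hη x).ne'
  have hcK : Continuous fun x => mixture π x * Real.log (mixture π x / mixture η x) :=
    hcπ.mul ((hcπ.div hcη fun x => (mixture_pos hη x).ne').log fun x =>
      (div_pos (mixture_pos hπ x) (mixture_pos hη x)).ne')
  have iH : Integrable (fun x => (Real.sqrt (mixture π x) - Real.sqrt (mixture η x)) ^ 2) := by
    refine (hiπ.add hiη).mono' hcH.aestronglyMeasurable (Eventually.of_forall fun x => ?_)
    rw [Real.norm_eq_abs, abs_of_nonneg (sq_nonneg _), Pi.add_apply]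
    have hp := (mixture_pos hπ x).le
    have hq := (mixture_pos hη x).le
    have e1 := Real.sq_sqrt hp
    have e2 := Real.sq_sqrt hq
    nlinarith [mul_nonneg (Real.sqrt_nonneg (mixture π x)) (Real.sqrt_nonneg (mixture η x))]
  have hchi := chi_le hM hπ hη hR1 hR4
  have nnC : ∀ x, 0 ≤ (mixture π x - mixture η x) ^ 2 / mixture η x := fun x =>
    div_nonneg (sq_nonneg _) (mixture_pos hη x).le
  have eH : ∫⁻ x, ENNReal.ofReal ((Real.sqrt (mixture π x) - Real.sqrt (mixture η x)) ^ 2) =
      ENNReal.ofReal (H2 (mixture π) (mixture η)) := by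
    unfold H2
    rw [ofReal_integral_eq_lintegral_ofReal iH (Eventually.of_forall fun x => sq_nonneg _)]
  rw [eH, ← ENNReal.ofReal_mul (by positivity)] at hchi
  have iC : Integrable (fun x => (mixture π x - mixture η x) ^ 2 / mixture η x) := by
    refine ⟨hcC.aestronglyMeasurable, ?_⟩
    rw [hasFiniteIntegral_iff_ofReal (Eventually.of_forall nnC)]
    exact hchi.trans_lt ENNReal.ofReal_lt_top
  have hH0 : 0 ≤ H2 (mixture π) (mixture η) := integral_nonneg fun x => sq_nonneg _
  have hC : chi2 (mixture π) (mixture η) ≤ 40 * R * H2 (mixture π) (mixture η) := by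
    rw [← ofReal_integral_eq_lintegral_ofReal iC (Eventually.of_forall nnC)] at hchi
    exact (ENNReal.ofReal_le_ofReal_iff (by positivity)).1 hchi
  -- pointwise bounds for KL
  have hup : ∀ x, mixture π x * Real.log (mixture π x / mixture η x) ≤
      (mixture π x - mixture η x) ^ 2 / mixture η x + (mixture π x - mixture η x) := by
    intro x
    have hp := mixture_pos hπ x
    have hq := mixture_pos hη x
    have h1 := Real.log_le_sub_one_of_pos (div_pos hp hq)
    have h2 : mixture π x * Real.log (mixture π x / mixture η x) ≤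
        mixture π x * (mixture π x / mixture η x - 1) := mul_le_mul_of_nonneg_left h1 hp.le
    have h3 : mixture π x * (mixture π x / mixture η x - 1) =
        (mixture π x - mixture η x) ^ 2 / mixture η x + (mixture π x - mixture η x) := by
      field_simp
      ring
    linarith
  have hlow : ∀ x, mixture π x - mixture η x ≤
      mixture π x * Real.log (mixture π x / mixture η x) := by
    intro x
    have hp := mixture_pos hπ x
    have hq := mixture_pos hη x
    have h1 := Real.log_le_sub_one_of_pos (div_pos hq hp)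
    have h2 : Real.log (mixture η x / mixture π x) = -Real.log (mixture π x / mixture η x) := by
      rw [← Real.log_inv, inv_div]
    rw [h2] at h1
    have h3 : mixture π x * (-Real.log (mixture π x / mixture η x)) ≤
        mixture π x * (mixture η x / mixture π x - 1) := mul_le_mul_of_nonneg_left h1 hp.le
    have h4 : mixture π x * (mixture η x / mixture π x - 1) = mixture η x - mixture π x := by
      field_simp
    linarith
  have iD : Integrable (fun x => mixture π x - mixture η x) := hiπ.sub hiη
  have iCD : Integrable (fun x => (mixture π x - mixture η x) ^ 2 / mixture η x +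
      (mixture π x - mixture η x)) := iC.add iD
  have iK : Integrable (fun x => mixture π x * Real.log (mixture π x / mixture η x)) := by
    refine (iCD.abs.add iD.abs).mono' hcK.aestronglyMeasurable (Eventually.of_forall fun x => ?_)
    rw [Real.norm_eq_abs, abs_le]
    simp only [Pi.add_apply]
    constructor
    · have h1 := neg_abs_le (mixture π x - mixture η x)
      have h2 := abs_nonneg ((mixture π x - mixture η x) ^ 2 / mixture η x +
        (mixture π x - mixture η x))
      linarith [hlow x]
    · have h1 := le_abs_self ((mixture π x - mixture η x) ^ 2 / mixture η x +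
        (mixture π x - mixture η x))
      have h2 := abs_nonneg (mixture π x - mixture η x)
      linarith [hup x]
  refine ⟨iC, iK, iH, hC, ?_⟩
  unfold KL chi2
  have h := integral_mono iK iCD hup
  rw [integral_add iC iD, integral_sub hiπ hiη, hint1, hint2, sub_self, add_zero] at h
  exact h

end Q297.Mix
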