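import Pool.Agent.Q297.MixKey

open MeasureTheory Filter Topology ProbabilityTheory
open scoped RealInnerProductSpace

namespace Q297.Mix

variable {d : ℕ}

/-- exponential kernel -/
noncomputable def ek (x z : EuclideanSpace ℝ (Fin d)) : ℝ := Real.exp (⟪z, x⟫ - ‖z‖ ^ 2 / 2)

lemma ek_pos (x z : EuclideanSpace ℝ (Fin d)) : 0 < ek x z := Real.exp_pos _

lemma ek_cont2 : Continuous fun p : EuclideanSpace ℝ (Fin d) × EuclideanSpace ℝ (Fin d) =>
    ek p.1 p.2 := by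
  unfold ek
  fun_prop

lemma ek_cont_z (x : EuclideanSpace ℝ (Fin d)) : Continuous fun z => ek x z := by
  unfold ek
  fun_prop

lemma ek_cont_x (z : EuclideanSpace ℝ (Fin d)) : Continuous fun x => ek x z := by
  unfold ek
  fun_prop

lemma ek_le {M : ℝ} {x z : EuclideanSpace ℝ (Fin d)} (hz : ‖z‖ ≤ M) :
    ek x z ≤ Real.exp (M * ‖x‖) := by
  unfold ek
  apply Real.exp_le_exp.2
  have h1 : ⟪z, x⟫ ≤ ‖z‖ * ‖x‖ := real_inner_le_norm z x
  have h2 : ‖z‖ * ‖x‖ ≤ M * ‖x‖ := mul_le_mul_of_nonneg_right hz (norm_nonneg _)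
  have h3 : 0 ≤ ‖z‖ ^ 2 / 2 := by positivity
  linarith

/-- derivative kernel -/
noncomputable def ek' (x z : EuclideanSpace ℝ (Fin d)) : EuclideanSpace ℝ (Fin d) →L[ℝ] ℝ :=
  ek x z • innerSL ℝ z

lemma ek_hasFDerivAt (x z : EuclideanSpace ℝ (Fin d)) : HasFDerivAt (fun x => ek x z) (ek' x z) x := by
  unfold ek ek'
  have h1 : HasFDerivAt (fun x : EuclideanSpace ℝ (Fin d) => ⟪z, x⟫) (innerSL ℝ z) x :=
    (innerSL ℝ z).hasFDerivAt
  exact (h1.sub_const (‖z‖ ^ 2 / 2)).exp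

lemma ek'_norm (x z : EuclideanSpace ℝ (Fin d)) : ‖ek' x z‖ = ek x z * ‖z‖ := by
  unfold ek'
  rw [norm_smul, innerSL_apply_norm, Real.norm_eq_abs, abs_of_pos (ek_pos x z)]

lemma ek'_cont2 : Continuous fun p : EuclideanSpace ℝ (Fin d) × EuclideanSpace ℝ (Fin d) =>
    ek' p.1 p.2 := by
  unfold ek'
  exact ek_cont2.smul ((innerSL ℝ).continuous.comp continuous_snd)

lemma ek'_cont_z (x : EuclideanSpace ℝ (Fin d)) : Continuous fun z => ek' x z :=
  ek'_cont2.comp (continuous_const.prodMk continuous_id)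

lemma ek'_cont_x (z : EuclideanSpace ℝ (Fin d)) : Continuous fun x => ek' x z :=
  ek'_cont2.comp (continuous_id.prodMk continuous_const)

/-- Laplace type transform of the mixing measure -/
noncomputable def LL (ν : Measure (EuclideanSpace ℝ (Fin d))) (x : EuclideanSpace ℝ (Fin d)) : ℝ :=
  ∫ z, ek x z ∂ν

/-- its derivative -/
noncomputable def LL' (ν : Measure (EuclideanSpace ℝ (Fin d))) (x : EuclideanSpace ℝ (Fin d)) :
    EuclideanSpace ℝ (Fin d) →L[ℝ] ℝ := ∫ z, ek' x z ∂ν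

variable {ν : Measure (EuclideanSpace ℝ (Fin d))} [IsProbabilityMeasure ν] {M : ℝ}

lemma ek_int (hM : ∀ᵐ z ∂ν, ‖z‖ ≤ M) (x : EuclideanSpace ℝ (Fin d)) :
    Integrable (fun z => ek x z) ν := by
  refine Integrable.of_bound (ek_cont_z x).aestronglyMeasurable (Real.exp (M * ‖x‖)) ?_
  filter_upwards [hM] with z hz
  rw [Real.norm_eq_abs, abs_of_pos (ek_pos x z)]
  exact ek_le hz

lemma ek'_int (hM : ∀ᵐ z ∂ν, ‖z‖ ≤ M) (x : EuclideanSpace ℝ (Fin d)) :
    Integrable (fun z => ek' x z) ν := by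
  refine Integrable.of_bound (ek'_cont_z x).aestronglyMeasurable (Real.exp (M * ‖x‖) * M) ?_
  filter_upwards [hM] with z hz
  rw [ek'_norm]
  exact mul_le_mul (ek_le hz) hz (norm_nonneg _) (Real.exp_pos _).le

lemma LL_pos (hM : ∀ᵐ z ∂ν, ‖z‖ ≤ M) (x : EuclideanSpace ℝ (Fin d)) : 0 < LL ν x := by
  unfold LL
  rw [integral_pos_iff_support_of_nonneg (fun z => (ek_pos x z).le) (ek_int hM x)]
  have : Function.support (fun z => ek x z) = Set.univ := by
    ext z
    simp [(ek_pos x z).ne']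
  rw [this, measure_univ]
  exact one_pos

lemma LL_hasFDerivAt (hM : ∀ᵐ z ∂ν, ‖z‖ ≤ M) (x : EuclideanSpace ℝ (Fin d)) :
    HasFDerivAt (LL ν) (LL' ν x) x := by
  have hM0 : 0 ≤ M := by
    obtain ⟨z, hz⟩ := hM.exists
    exact (norm_nonneg _).trans hz
  unfold LL LL'
  refine hasFDerivAt_integral_of_dominated_of_fderiv_le (F := fun x z => ek x z)
    (F' := fun x z => ek' x z) (bound := fun _ => Real.exp (M * (‖x‖ + 1)) * M)
    (Metric.ball_mem_nhds x one_pos) (Eventually.of_forall fun y => (ek_cont_z y).aestronglyMeasurable)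
    (ek_int hM x) (ek'_cont_z x).aestronglyMeasurable ?_ (integrable_const _)
    (Eventually.of_forall fun z y _ => ek_hasFDerivAt y z)
  filter_upwards [hM] with z hz y hy
  rw [ek'_norm]
  have h1 : ‖y‖ ≤ ‖x‖ + 1 := by
    have h2 : ‖y - x‖ < 1 := by rwa [Metric.mem_ball, dist_eq_norm] at hy
    have h3 : ‖y‖ ≤ ‖x‖ + ‖y - x‖ := by
      have := norm_add_le x (y - x)
      rwa [add_sub_cancel] at this
    linarith
  refine mul_le_mul ((ek_le hz).trans ?_) hz (norm_nonneg _) (Real.exp_pos _).le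
  exact Real.exp_le_exp.2 (mul_le_mul_of_nonneg_left h1 hM0)

lemma LL'_cont (hM : ∀ᵐ z ∂ν, ‖z‖ ≤ M) : Continuous (LL' ν) := by
  have hM0 : 0 ≤ M := by
    obtain ⟨z, hz⟩ := hM.exists
    exact (norm_nonneg _).trans hz
  rw [continuous_iff_continuousAt]
  intro x
  unfold LL'
  refine continuousAt_of_dominated (bound := fun _ => Real.exp (M * (‖x‖ + 1)) * M)
    (Eventually.of_forall fun y => (ek'_cont_z y).aestronglyMeasurable) ?_ (integrable_const _)
    (Eventually.of_forall fun z => (ek'_cont_x z).continuousAt)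
  filter_upwards [Metric.ball_mem_nhds x one_pos] with y hy
  filter_upwards [hM] with z hz
  rw [ek'_norm]
  have h1 : ‖y‖ ≤ ‖x‖ + 1 := by
    have h2 : ‖y - x‖ < 1 := by rwa [Metric.mem_ball, dist_eq_norm] at hy
    have h3 : ‖y‖ ≤ ‖x‖ + ‖y - x‖ := by
      have := norm_add_le x (y - x)
      rwa [add_sub_cancel] at this
    linarith
  refine mul_le_mul ((ek_le hz).trans ?_) hz (norm_nonneg _) (Real.exp_pos _).le
  exact Real.exp_le_exp.2 (mul_le_mul_of_nonneg_left h1 hM0)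

lemma LL_cont (hM : ∀ᵐ z ∂ν, ‖z‖ ≤ M) : Continuous (LL ν) :=
  continuous_iff_continuousAt.2 fun x => (LL_hasFDerivAt hM x).continuousAt

lemma LL'_norm (hM : ∀ᵐ z ∂ν, ‖z‖ ≤ M) (x : EuclideanSpace ℝ (Fin d)) :
    ‖LL' ν x‖ ≤ M * LL ν x := by
  unfold LL' LL
  rw [← integral_const_mul]
  refine norm_integral_le_of_norm_le ((ek_int hM x).const_mul M) ?_
  filter_upwards [hM] with z hz
  rw [ek'_norm, mul_comm]
  exact mul_le_mul_of_nonneg_right hz (ek_pos x z).le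

/-- Jensen for the reciprocal -/
lemma inv_LL_le (hM : ∀ᵐ z ∂ν, ‖z‖ ≤ M) (x : EuclideanSpace ℝ (Fin d)) :
    ENNReal.ofReal (LL ν x)⁻¹ ≤ ∫⁻ z, ENNReal.ofReal (ek x z)⁻¹ ∂ν := by
  have hL := LL_pos hM x
  have hlow : ∀ᵐ z ∂ν, (ek x z)⁻¹ ≤ Real.exp (M * ‖x‖ + M ^ 2 / 2) := by
    filter_upwards [hM] with z hz
    unfold ek
    rw [← Real.exp_neg]
    apply Real.exp_le_exp.2
    have h1 : -⟪z, x⟫ ≤ ‖z‖ * ‖x‖ := by
      have := abs_real_inner_le_norm z x
      linarith [neg_abs_le ⟪z, x⟫]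
    have h2 : ‖z‖ * ‖x‖ ≤ M * ‖x‖ := mul_le_mul_of_nonneg_right hz (norm_nonneg _)
    have h3 : ‖z‖ ^ 2 ≤ M ^ 2 := pow_le_pow_left₀ (norm_nonneg _) hz 2
    linarith
  have hi : Integrable (fun z => (ek x z)⁻¹) ν := by
    refine Integrable.of_bound ((ek_cont_z x).inv₀ fun z => (ek_pos x z).ne').aestronglyMeasurable
      (Real.exp (M * ‖x‖ + M ^ 2 / 2)) ?_
    filter_upwards [hlow] with z hz
    rw [Real.norm_eq_abs, abs_of_pos (inv_pos.2 (ek_pos x z))]
    exact hz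
  rw [← ofReal_integral_eq_lintegral_ofReal hi (Eventually.of_forall fun z => (inv_pos.2 (ek_pos x z)).le)]
  apply ENNReal.ofReal_le_ofReal
  set c := LL ν x with hc
  have h1 : ∀ z, 2 ≤ c⁻¹ * ek x z + c * (ek x z)⁻¹ := by
    intro z
    have he := ek_pos x z
    have h2 : 0 ≤ (c - ek x z) ^ 2 / (c * ek x z) := by positivity
    have h3 : c⁻¹ * ek x z + c * (ek x z)⁻¹ - 2 = (c - ek x z) ^ 2 / (c * ek x z) := by
      field_simp
      ring
    linarith
  have j1 : Integrable (fun z => c⁻¹ * ek x z) ν := (ek_int hM x).const_mul _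
  have j2 : Integrable (fun z => c * (ek x z)⁻¹) ν := hi.const_mul _
  have h4 := integral_mono (integrable_const (2:ℝ)) (j1.add j2) h1
  simp only [Pi.add_apply] at h4
  rw [integral_const, probReal_univ, one_smul, integral_add j1 j2, integral_const_mul,
    integral_const_mul] at h4
  have h5 : c⁻¹ * ∫ z, ek x z ∂ν = 1 := by
    change c⁻¹ * c = 1
    exact inv_mul_cancel₀ hL.ne'
  rw [h5] at h4
  have h6 : 1 ≤ c * ∫ z, (ek x z)⁻¹ ∂ν := by linarith
  rw [← div_le_iff₀' hL] at h6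
  simpa using h6

end Q297.Mix
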