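import Pool.Agent.Q297.PlantB

/-!
A two-sided Brownian motion has no time from which all windows have nonnegative increments.
-/

open MeasureTheory ProbabilityTheory Set Filter Topology
open scoped ENNReal NNReal
open Q297.PathC Q297.Prepend Q297.TwoS

namespace Q297.Win

/-- some increment started in `[0, η]` is nonnegative -/
def V (η P Q : ℝ) : Set Path2 := {y | ∃ s ∈ Icc 0 η, 0 ≤ y (s + Q) - y (s + P)}

/-- a dense sequence of `[0, 1]` -/
noncomputable def dd (i : ℕ) : ℝ := (TopologicalSpace.denseSeq (Icc (0 : ℝ) 1) i : ℝ)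

lemma dd_mem (i : ℕ) : dd i ∈ Icc (0 : ℝ) 1 := (TopologicalSpace.denseSeq (Icc (0 : ℝ) 1) i).2

/-- the increments along the dense sequence -/
noncomputable def Xv (η P Q : ℝ) (i : ℕ) (y : Path2) : ℝ := y (η * dd i + Q) - y (η * dd i + P)

def 𝒜 : Set (ℕ → ℝ) := {f | ∀ m : ℕ, ∃ i, -(1 / ((m : ℝ) + 1)) < f i}

lemma 𝒜_meas : MeasurableSet 𝒜 := by
  have : 𝒜 = ⋂ m : ℕ, ⋃ i : ℕ, {f : ℕ → ℝ | -(1 / ((m : ℝ) + 1)) < f i} := by
    ext f; simp [𝒜]
  rw [this]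
  exact MeasurableSet.iInter fun m => MeasurableSet.iUnion fun i =>
    measurableSet_lt measurable_const (measurable_pi_apply i)

lemma V_eq {η P Q : ℝ} (hη : 0 ≤ η) : V η P Q = {y | (fun i => Xv η P Q i y) ∈ 𝒜} := by
  ext y
  have hg : Continuous (fun c : Icc (0 : ℝ) 1 => y (η * (c : ℝ) + Q) - y (η * c + P)) := by fun_prop
  constructor
  · rintro ⟨s, hs, h0⟩ m
    obtain ⟨c, hc⟩ : ∃ c : Icc (0 : ℝ) 1, s = η * c := by
      rcases eq_or_lt_of_le hη with h | h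
      · refine ⟨⟨0, by simp⟩, ?_⟩
        have h1 := hs.1
        have h2 := hs.2
        rw [← h] at h2
        simp [le_antisymm h2 h1]
      · refine ⟨⟨s / η, div_nonneg hs.1 hη, (div_le_one h).2 hs.2⟩, ?_⟩
        show s = η * (s / η)
        field_simp
    have hopen : IsOpen {c : Icc (0 : ℝ) 1 | -(1 / ((m : ℝ) + 1)) < y (η * (c : ℝ) + Q) - y (η * c + P)} :=
      isOpen_lt continuous_const hg
    obtain ⟨z, hz1, ⟨i, rfl⟩⟩ := (TopologicalSpace.denseRange_denseSeq (Icc (0 : ℝ) 1)).inter_open_nonempty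
      _ hopen ⟨c, by
        show -(1 / ((m : ℝ) + 1)) < y (η * (c : ℝ) + Q) - y (η * c + P)
        rw [← hc]
        have : (0 : ℝ) < 1 / ((m : ℝ) + 1) := by positivity
        linarith⟩
    exact ⟨i, hz1⟩
  · intro h
    obtain ⟨c, -, hc⟩ := isCompact_univ.exists_isMaxOn (univ_nonempty (α := Icc (0 : ℝ) 1))
      hg.continuousOn
    refine ⟨η * c, ⟨mul_nonneg hη c.2.1, mul_le_of_le_one_right hη c.2.2⟩, ?_⟩
    refine le_of_forall_pos_lt_add fun ε hε => ?_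
    obtain ⟨m, hm⟩ := exists_nat_one_div_lt hε
    obtain ⟨i, hi⟩ := h m
    have h1 : Xv η P Q i y ≤ y (η * (c : ℝ) + Q) - y (η * c + P) :=
      hc (mem_univ (TopologicalSpace.denseSeq (Icc (0 : ℝ) 1) i))
    linarith

lemma Xv_meas (η P Q : ℝ) : Measurable (fun y i => Xv η P Q i y) :=
  measurable_pi_lambda _ fun i => (measurable_eval _).sub (measurable_eval _)

lemma V_meas {η P Q : ℝ} (hη : 0 ≤ η) : MeasurableSet (V η P Q) := by
  rw [V_eq hη]
  exact (Xv_meas η P Q) 𝒜_meas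

lemma V_mono {η η' P Q : ℝ} (h : η ≤ η') : V η P Q ⊆ V η' P Q := by
  rintro y ⟨s, hs, h0⟩
  exact ⟨s, ⟨hs.1, hs.2.trans h⟩, h0⟩

/-- Brownian scaling -/
lemma scale {Ω : Type*} {mΩ : MeasurableSpace Ω} {P : Measure Ω} {Y : ℝ → Ω → ℝ} (hY : BM2 Y P)
    {c : ℝ} (hc : 0 < c) : BM2 (fun t ω => (√c)⁻¹ * Y (c * t) ω) P := by
  have h := hY.lin (ι := Fin 1) (fun _ => ![(√c)⁻¹]) (fun t => ![c * t]) (by
    intro u t
    simp only [Fin.sum_univ_one, Matrix.cons_val_zero]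
    rw [← mul_sub, abs_mul, abs_mul, abs_mul, abs_of_pos hc]
    have : (√c)⁻¹ * (√c)⁻¹ = c⁻¹ := by rw [← mul_inv, Real.mul_self_sqrt hc.le]
    rw [this]
    field_simp)
  refine h.congr fun t => ae_of_all _ fun ω => ?_
  simp

/-- the scaled path -/
noncomputable def sc (c : ℝ) (y : Path2) : Path2 := ⟨fun t => (√c)⁻¹ * y (c * t), by fun_prop⟩

lemma sc_meas (c : ℝ) : Measurable (sc c) := measurable_of_eval fun _ => (measurable_eval _).const_mul _

variable {W : Measure Path} (hW : IsBrownianReal (fun (t : ℝ≥0) (x : Path) => x t) W)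

include hW

lemma V_shift {η P Q : ℝ} (hη : 0 ≤ η) : W2 W (V η P Q) = W2 W (V η 0 (Q - P)) := by
  conv_rhs => rw [← map_th hW P]
  rw [Measure.map_apply (th_meas P) (V_meas hη)]
  congr 1
  ext y
  simp only [V, mem_preimage, mem_ofPred_eq, th_apply]
  constructor
  · rintro ⟨s, hs, h0⟩
    refine ⟨s, hs, ?_⟩
    rw [show P + (s + (Q - P)) = s + Q by ring, show P + (s + 0) = s + P by ring]
    linarith
  · rintro ⟨s, hs, h0⟩
    refine ⟨s, hs, ?_⟩
    rw [show P + (s + (Q - P)) = s + Q by ring, show P + (s + 0) = s + P by ring] at h0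
    linarith

lemma V_scale {κ δ : ℝ} (hκ : 0 ≤ κ) (hδ : 0 < δ) : W2 W (V (κ * δ) 0 δ) = W2 W (V κ 0 1) := by
  have h1 : (W2 W).map (sc δ) = W2 W := law_unique hW (sc_meas δ) (scale (W2_bm2 hW) hδ)
  conv_rhs => rw [← h1]
  rw [Measure.map_apply (sc_meas δ) (V_meas hκ)]
  congr 1
  have hs0 : 0 < (√δ)⁻¹ := by positivity
  ext y
  simp only [V, mem_preimage, mem_ofPred_eq]
  constructor
  · rintro ⟨s, hs, h0⟩
    refine ⟨s / δ, ⟨div_nonneg hs.1 hδ.le, (div_le_iff₀ hδ).2 hs.2⟩, ?_⟩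
    show 0 ≤ (√δ)⁻¹ * y (δ * (s / δ + 1)) - (√δ)⁻¹ * y (δ * (s / δ + 0))
    rw [show δ * (s / δ + 1) = s + δ by field_simp, show δ * (s / δ + 0) = s + 0 by rw [add_zero, add_zero]; field_simp,
      ← mul_sub]
    exact mul_nonneg hs0.le h0
  · rintro ⟨s, hs, h0⟩
    refine ⟨s * δ, ⟨mul_nonneg hs.1 hδ.le, mul_le_mul_of_nonneg_right hs.2 hδ.le⟩, ?_⟩
    have h2 : 0 ≤ (√δ)⁻¹ * y (δ * (s + 1)) - (√δ)⁻¹ * y (δ * (s + 0)) := h0
    rw [← mul_sub] at h2
    have h3 := nonneg_of_mul_nonneg_right h2 hs0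
    rw [show s * δ + δ = δ * (s + 1) by ring, show s * δ + 0 = δ * (s + 0) by ring]
    exact h3

lemma exists_kap : ∃ κ : ℝ, 0 < κ ∧ κ ≤ 1 ∧ W2 W (V κ 0 1) ≤ 57 / 100 := by
  have hWp := isProb hW
  have h1 : Tendsto (fun j : ℕ => W2 W (V (1 / ((j : ℝ) + 1)) 0 1)) atTop
      (𝓝 (W2 W (⋂ j : ℕ, V (1 / ((j : ℝ) + 1)) 0 1))) := by
    refine tendsto_measure_iInter_atTop (fun j => (V_meas (by positivity)).nullMeasurableSet) ?_
      ⟨0, measure_ne_top _ _⟩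
    intro a b hab
    refine V_mono ?_
    exact Nat.one_div_le_one_div hab
  have h2 : (⋂ j : ℕ, V (1 / ((j : ℝ) + 1)) 0 1) ⊆ {y : Path2 | 0 ≤ y 1 - y 0} := by
    intro y hy
    have h3 : ∀ j : ℕ, ∃ s ∈ Icc (0 : ℝ) (1 / ((j : ℝ) + 1)), 0 ≤ y (s + 1) - y (s + 0) := fun j =>
      mem_iInter.1 hy j
    choose s hs hs0 using h3
    have h4 : Tendsto s atTop (𝓝 0) :=
      squeeze_zero (fun j => (hs j).1) (fun j => (hs j).2) tendsto_one_div_add_atTop_nhds_zero_nat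
    have h5 : Tendsto (fun j => y (s j + 1) - y (s j + 0)) atTop (𝓝 (y (0 + 1) - y (0 + 0))) := by
      have hc : Continuous (fun u : ℝ => y (u + 1) - y (u + 0)) := by fun_prop
      exact (hc.tendsto 0).comp h4
    have h6 := ge_of_tendsto' h5 hs0
    simpa using h6
  have h3 : W2 W {y : Path2 | 0 ≤ y 1 - y 0} = 1 / 2 := incr_half (W2_bm2 hW) (by norm_num)
  have h4 : W2 W (⋂ j : ℕ, V (1 / ((j : ℝ) + 1)) 0 1) < 57 / 100 := by
    refine ((measure_mono h2).trans_eq h3).trans_lt ?_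
    rw [ENNReal.div_lt_iff (by norm_num) (by norm_num)]
    have : (57 / 100 : ℝ≥0∞) * 2 = 114 / 100 := by
      rw [← ENNReal.mul_div_right_comm]; norm_num
    rw [this, ENNReal.lt_div_iff_mul_lt (by norm_num) (by norm_num)]
    norm_num
  obtain ⟨j, hj⟩ := (h1.eventually (gt_mem_nhds h4)).exists
  refine ⟨1 / ((j : ℝ) + 1), by positivity, ?_, hj.le⟩
  rw [div_le_one (by positivity)]
  have : (0 : ℝ) ≤ j := Nat.cast_nonneg j
  linarith

lemma V_indep {η : ℝ} (hη0 : 0 ≤ η) (hη : η ≤ 1) :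
    iIndepFun (fun (w : Ix) (y : Path2) (i : ℕ) => Xv η (Pw w) (Qw w) i y) (W2 W) := by
  have hB := W2_bm2 hW
  apply IsGaussianProcess.iIndepFun_of_covariance_eq_zero
    (X := fun (w : Ix) (i : ℕ) (y : Path2) => Xv η (Pw w) (Qw w) i y)
  · have h := gp_lin hB.gauss (T := (Σ _ : Ix, ℕ)) (ι := Fin 2) (fun _ => ![1, -1])
      (fun p => ![η * dd p.2 + Qw p.1, η * dd p.2 + Pw p.1])
    refine h.congr fun t => ae_of_all _ fun ω => ?_
    simp [Fin.sum_univ_two, sub_eq_add_neg, Xv]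
  · intro w i
    exact ((measurable_eval _).sub (measurable_eval _)).aemeasurable
  · intro w w' hne i i'
    unfold Xv
    rw [hB.cov_incr]
    have h1 := sep hne
    have d1 := dl_le w.1
    have d2 := dl_le w'.1
    have p1 := PQ w
    have p2 := PQ w'
    have e1 := mul_nonneg hη0 (dd_mem i).1
    have e2 := mul_nonneg hη0 (dd_mem i').1
    have e3 : η * dd i ≤ 1 := (mul_le_of_le_one_right hη0 (dd_mem i).2).trans hη
    have e4 : η * dd i' ≤ 1 := (mul_le_of_le_one_right hη0 (dd_mem i').2).trans hη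
    have q1 : Qw w = Pw w + dl w.1 := rfl
    have q2 : Qw w' = Pw w' + dl w'.1 := rfl
    rcases le_total (Pw w) (Pw w') with hle | hle
    · rw [abs_of_nonpos (by linarith)] at h1
      rw [abs_of_nonpos (by linarith), abs_of_nonpos (by linarith), abs_of_nonpos (by linarith),
        abs_of_nonpos (by linarith)]
      ring
    · rw [abs_of_nonneg (by linarith)] at h1
      rw [abs_of_nonneg (by linarith), abs_of_nonneg (by linarith), abs_of_nonneg (by linarith),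
        abs_of_nonneg (by linarith)]
      ring

lemma V_all {κ : ℝ} (hκ0 : 0 < κ) (hκ1 : κ ≤ 1) (hκ : W2 W (V κ 0 1) ≤ 57 / 100) (n : ℕ) :
    W2 W (⋂ w ∈ G n, V (κ * (1 / 3) ^ n) (Pw w) (Qw w)) ≤ (57 / 100) ^ (2 * n) := by
  have hη0 : 0 ≤ κ * (1 / 3) ^ n := by positivity
  have hη1 : κ * (1 / 3) ^ n ≤ 1 :=
    mul_le_one₀ hκ1 (by positivity) (pow_le_one₀ (by norm_num) (by norm_num))
  have h1 := (V_indep hW hη0 hη1).measure_inter_preimage_eq_mul (G n) (sets := fun _ => 𝒜)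
    (fun _ _ => 𝒜_meas)
  have h2 : ∀ w : Ix, V (κ * (1 / 3) ^ n) (Pw w) (Qw w) =
      (fun (y : Path2) (i : ℕ) => Xv (κ * (1 / 3) ^ n) (Pw w) (Qw w) i y) ⁻¹' 𝒜 := fun w => V_eq hη0
  have h3 : (⋂ w ∈ G n, V (κ * (1 / 3) ^ n) (Pw w) (Qw w)) = ⋂ w ∈ G n,
      (fun (y : Path2) (i : ℕ) => Xv (κ * (1 / 3) ^ n) (Pw w) (Qw w) i y) ⁻¹' 𝒜 := by
    refine iInter_congr fun w => iInter_congr fun _ => h2 w
  rw [h3, h1]
  have h4 : ∀ w ∈ G n, W2 W ((fun (y : Path2) (i : ℕ) => Xv (κ * (1 / 3) ^ n) (Pw w) (Qw w) i y) ⁻¹' 𝒜) ≤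
      57 / 100 := by
    intro w hw
    rw [← h2, V_shift hW hη0]
    have e : Qw w - Pw w = dl w.1 := by unfold Qw; ring
    rw [e]
    have h5 : κ * (1 / 3) ^ n ≤ κ * dl w.1 := by
      refine mul_le_mul_of_nonneg_left ?_ hκ0.le
      unfold dl
      exact pow_le_pow_of_le_one (by norm_num) (by norm_num) (by rw [mem_G] at hw; omega)
    refine (measure_mono (V_mono h5)).trans ?_
    rw [V_scale hW hκ0.le (dl_pos _)]
    exact hκ
  refine (Finset.prod_le_pow_card _ _ _ h4).trans_eq ?_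
  congr 1
  simp [G, mul_comm]

/-- **No exceptional times.** -/
theorem null_exc (M : ℕ) :
    W2 W {y | ∃ s ∈ Icc (-(M : ℝ)) M, ∀ w, 0 ≤ y (s + Qw w) - y (s + Pw w)} = 0 := by
  obtain ⟨κ, hκ0, hκ1, hκ⟩ := exists_kap hW
  set B : ℕ → Set Path2 := fun n => ⋂ w ∈ G n, V (κ * (1 / 3) ^ n) (Pw w) (Qw w) with hB
  have hBm : ∀ n, MeasurableSet (B n) := fun n =>
    Finset.measurableSet_biInter _ fun w _ => V_meas (by positivity)
  have hmain : ∀ n : ℕ, W2 W {y | ∃ s ∈ Icc (-(M : ℝ)) M, ∀ w, 0 ≤ y (s + Qw w) - y (s + Pw w)} ≤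
      (⌈2 * (M : ℝ) / κ * 3 ^ n⌉₊ + 1 : ℕ) * (57 / 100) ^ (2 * n) := by
    intro n
    set η : ℝ := κ * (1 / 3) ^ n with hη
    have hη0 : 0 < η := by positivity
    set Jn : ℕ := ⌈2 * (M : ℝ) / κ * 3 ^ n⌉₊ + 1 with hJn
    have hsub : {y : Path2 | ∃ s ∈ Icc (-(M : ℝ)) M, ∀ w, 0 ≤ y (s + Qw w) - y (s + Pw w)} ⊆
        ⋃ j ∈ Finset.range Jn, th (-(M : ℝ) + j * η) ⁻¹' B n := by
      rintro y ⟨s, hs, hy⟩
      set j : ℕ := ⌊(s + M) / η⌋₊ with hj
      have h0 : 0 ≤ (s + M) / η := div_nonneg (by linarith [hs.1]) hη0.le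
      have h1 : (j : ℝ) ≤ (s + M) / η := Nat.floor_le h0
      have h2 : (s + M) / η < j + 1 := Nat.lt_floor_add_one _
      have h1' : (j : ℝ) * η ≤ s + M := (le_div_iff₀ hη0).1 h1
      have h2' : s + M < (j + 1) * η := (div_lt_iff₀ hη0).1 h2
      have hjJ : j < Jn := by
        have h3 : (s + M) / η ≤ 2 * (M : ℝ) / κ * 3 ^ n := by
          rw [div_le_iff₀ hη0, hη]
          have : 2 * (M : ℝ) / κ * 3 ^ n * (κ * (1 / 3) ^ n) = 2 * M := by
            rw [one_div, inv_pow]; field_simp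
          rw [this]
          linarith [hs.2]
        have h4 : j ≤ ⌈2 * (M : ℝ) / κ * 3 ^ n⌉₊ := by
          have := (h1.trans h3).trans (Nat.le_ceil _)
          exact_mod_cast this
        omega
      simp only [mem_iUnion, Finset.mem_range]
      refine ⟨j, hjJ, ?_⟩
      rw [mem_preimage, hB]
      simp only [mem_iInter]
      intro w _
      refine ⟨s - (-(M : ℝ) + j * η), ⟨by linarith, by linarith⟩, ?_⟩
      simp only [th_apply]
      rw [show -(M : ℝ) + j * η + (s - (-(M : ℝ) + j * η) + Qw w) = s + Qw w by ring,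
        show -(M : ℝ) + j * η + (s - (-(M : ℝ) + j * η) + Pw w) = s + Pw w by ring]
      linarith [hy w]
    refine (measure_mono hsub).trans ((measure_biUnion_finset_le _ _).trans ?_)
    have h5 : ∀ j ∈ Finset.range Jn, W2 W (th (-(M : ℝ) + j * η) ⁻¹' B n) ≤ (57 / 100) ^ (2 * n) := by
      intro j _
      rw [← Measure.map_apply (th_meas _) (hBm n), map_th hW]
      exact V_all hW hκ0 hκ1 hκ n
    refine (Finset.sum_le_sum h5).trans_eq ?_
    rw [Finset.sum_const, Finset.card_range, nsmul_eq_mul]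
  refine le_antisymm ?_ zero_le
  have hlim : Tendsto (fun n : ℕ => ((⌈2 * (M : ℝ) / κ * 3 ^ n⌉₊ + 1 : ℕ) : ℝ≥0∞) *
      (57 / 100) ^ (2 * n)) atTop (𝓝 0) := by
    have hreal : Tendsto (fun n : ℕ => (2 * (M : ℝ) / κ + 2) * (9747 / 10000 : ℝ) ^ n) atTop (𝓝 0) := by
      have := (tendsto_pow_atTop_nhds_zero_of_lt_one (by norm_num : (0 : ℝ) ≤ 9747 / 10000)
        (by norm_num)).const_mul (2 * (M : ℝ) / κ + 2)
      simpa using this
    have h6 := ENNReal.tendsto_ofReal hreal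
    rw [ENNReal.ofReal_zero] at h6
    refine tendsto_of_tendsto_of_tendsto_of_le_of_le tendsto_const_nhds h6 (fun _ => zero_le) ?_
    intro n
    have e1 : ((57 : ℝ≥0∞) / 100) ^ (2 * n) = ENNReal.ofReal ((57 / 100) ^ (2 * n)) := by
      rw [ENNReal.ofReal_pow (by norm_num), ENNReal.ofReal_div_of_pos (by norm_num)]
      norm_num
    have e2 : ((⌈2 * (M : ℝ) / κ * 3 ^ n⌉₊ + 1 : ℕ) : ℝ≥0∞) =
        ENNReal.ofReal ((⌈2 * (M : ℝ) / κ * 3 ^ n⌉₊ + 1 : ℕ) : ℝ) := by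
      rw [ENNReal.ofReal_natCast]
    show ((⌈2 * (M : ℝ) / κ * 3 ^ n⌉₊ + 1 : ℕ) : ℝ≥0∞) * (57 / 100) ^ (2 * n) ≤
      ENNReal.ofReal ((2 * (M : ℝ) / κ + 2) * (9747 / 10000 : ℝ) ^ n)
    rw [e1, e2, ← ENNReal.ofReal_mul (Nat.cast_nonneg _)]
    apply ENNReal.ofReal_le_ofReal
    have h7 : (⌈2 * (M : ℝ) / κ * 3 ^ n⌉₊ : ℝ) ≤ 2 * (M : ℝ) / κ * 3 ^ n + 1 :=
      (Nat.ceil_lt_add_one (by positivity)).le
    have h8 : (1 : ℝ) ≤ 3 ^ n := one_le_pow₀ (by norm_num)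
    have h9 : ((57 : ℝ) / 100) ^ (2 * n) = (3249 / 10000) ^ n := by
      rw [pow_mul]; norm_num
    push_cast
    rw [h9]
    calc ((⌈2 * (M : ℝ) / κ * 3 ^ n⌉₊ : ℝ) + 1) * (3249 / 10000) ^ n
        ≤ ((2 * (M : ℝ) / κ + 2) * 3 ^ n) * (3249 / 10000) ^ n := by
          refine mul_le_mul_of_nonneg_right ?_ (by positivity)
          nlinarith
      _ = (2 * (M : ℝ) / κ + 2) * (9747 / 10000 : ℝ) ^ n := by
          rw [mul_assoc, ← mul_pow]; norm_num
  exact ge_of_tendsto' hlim hmain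

end Q297.Win
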