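import Pool.Agent.Q297.No2

/-!
A forward and backward Brownian motion with an independence time that is not a two-sided Brownian
motion.
-/

open MeasureTheory ProbabilityTheory Set Filter Topology
open scoped ENNReal NNReal
open Q297.PathC Q297.Prepend Q297.TwoS

namespace Q297.Win

section Defs

variable {Ω : Type*} [MeasurableSpace Ω]

/-- forward Brownian motion -/
def FBM (X : ℝ → Ω → ℝ) (P : Measure Ω) : Prop :=
  ∃ S : ℕ → Ω → ℝ, (∀ n, Measurable (S n)) ∧ (∀ᵐ ω ∂P, Tendsto (fun n => S n ω) atTop atBot) ∧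
    ∀ n, IsBrownianReal (fun (t : ℝ≥0) ω => X (S n ω + t) ω - X (S n ω) ω) P

/-- backward Brownian motion -/
def BBM (X : ℝ → Ω → ℝ) (P : Measure Ω) : Prop := FBM (fun t => X (-t)) P

/-- the processes seen from `T` forward and backward are independent -/
def IndepAt (X : ℝ → Ω → ℝ) (T : Ω → ℝ) (P : Measure Ω) : Prop :=
  IndepFun (fun ω (t : ℝ≥0) => X (T ω + t) ω - X (T ω) ω)
    (fun ω (t : ℝ≥0) => X (T ω - t) ω - X (T ω) ω) P

/-- two-sided Brownian motion -/
def TwoBM (X : ℝ → Ω → ℝ) (P : Measure Ω) : Prop :=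
  ∃ S : Ω → ℝ, Measurable S ∧ IsBrownianReal (fun (t : ℝ≥0) ω => X (S ω + t) ω - X (S ω) ω) P ∧
    IsBrownianReal (fun (t : ℝ≥0) ω => X (S ω - t) ω - X (S ω) ω) P ∧ IndepAt X S P

end Defs

section Aux

variable {Ω : Type*} {mΩ : MeasurableSpace Ω} {P : Measure Ω}

lemma indep_path {F1 F2 : Ω → Path} :
    IndepFun (fun ω (t : ℝ≥0) => F1 ω t) (fun ω (t : ℝ≥0) => F2 ω t) P ↔ IndepFun F1 F2 P := by
  rw [IndepFun_iff_Indep, IndepFun_iff_Indep]
  have e : ∀ F : Ω → Path, MeasurableSpace.comap F (instMS : MeasurableSpace Path) =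
      MeasurableSpace.comap (fun ω (t : ℝ≥0) => F ω t) MeasurableSpace.pi := by
    intro F
    rw [instMS_eq, MeasurableSpace.comap_comp]; rfl
  rw [e F1, e F2]

variable {W : Measure Path} (hW : IsBrownianReal (fun (t : ℝ≥0) (x : Path) => x t) W)

include hW

lemma bm_of_law {F : Ω → Path} (hF : Measurable F) (h : P.map F = W) :
    IsBrownianReal (fun (t : ℝ≥0) ω => F ω t) P := by
  refine ⟨⟨fun I => ?_⟩, ae_of_all _ fun ω => (F ω).continuous⟩
  have hm : Measurable (fun x : Path => I.restrict (fun t => x t)) :=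
    measurable_pi_lambda _ fun t => measurable_eval t.1
  refine ⟨(hm.comp hF).aemeasurable, ?_⟩
  have h1 := (hW.hasLaw I).map_eq
  rw [← h1, ← h, Measure.map_map hm hF]
  rfl

lemma map_neg1 : W.map neg1 = W := by
  refine law_unique1 hW neg1_meas ?_
  exact hW.toIsPreBrownianReal.neg.congr fun t => ae_of_all _ fun ω => rfl

/-- no process with the law of the planted path is a two-sided Brownian motion -/
lemma not_two {X : ℝ → Ω → ℝ} (hc : ∀ ω, Continuous fun t => X t ω) (hm : ∀ t, Measurable (X t))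
    (hlaw : P.map (fun ω => (⟨fun t => X t ω, hc ω⟩ : Path2)) = muX W) : ¬ TwoBM X P := by
  rintro ⟨S, hS, h1, h2, h3⟩
  have hWp := isProb hW
  have hP := h1.isGaussianProcess.isProbabilityMeasure
  set Z : Ω → Path2 := fun ω => ⟨fun t => X t ω, hc ω⟩ with hZ
  have hZm : Measurable Z := measurable_of_eval fun t => hm t
  have hth : Measurable (fun p : ℝ × Path2 => th p.1 p.2) := by
    refine measurable_of_eval fun u => ?_
    have h0 := ev_meas 0
    simp only [add_zero] at h0
    exact (ev_meas u).sub h0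
  set Y : Ω → Path2 := fun ω => th (S ω) (Z ω) with hY
  have hYm : Measurable Y := hth.comp (hS.prodMk hZm)
  have mf : Measurable (fun ω => fwd (Y ω)) := fwd_meas.comp hYm
  have mb : Measurable (fun ω => bwd (Y ω)) := bwd_meas.comp hYm
  have ef : ∀ ω (t : ℝ≥0), fwd (Y ω) t = X (S ω + t) ω - X (S ω) ω := by
    intro ω t
    show (X (S ω + t) ω - X (S ω) ω) - (X (S ω + 0) ω - X (S ω) ω) = _
    rw [add_zero]; ring
  have eb : ∀ ω (t : ℝ≥0), bwd (Y ω) t = X (S ω - t) ω - X (S ω) ω := by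
    intro ω t
    show (X (S ω + -t) ω - X (S ω) ω) - (X (S ω + 0) ω - X (S ω) ω) = _
    rw [add_zero, ← sub_eq_add_neg]; ring
  have lf : P.map (fun ω => fwd (Y ω)) = W :=
    law_unique1 hW mf (h1.toIsPreBrownianReal.congr fun t => ae_of_all _ fun ω => (ef ω t).symm)
  have lb : P.map (fun ω => bwd (Y ω)) = W :=
    law_unique1 hW mb (h2.toIsPreBrownianReal.congr fun t => ae_of_all _ fun ω => (eb ω t).symm)
  have hi : IndepFun (fun ω => bwd (Y ω)) (fun ω => fwd (Y ω)) P := by
    refine IndepFun.symm ?_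
    rw [← indep_path]
    simp only [ef, eb]
    exact h3
  have lY : P.map Y = W2 W := by
    unfold W2
    have h4 := (indepFun_iff_map_prod_eq_prod_map_map mb.aemeasurable mf.aemeasurable).1 hi
    rw [lf, lb] at h4
    rw [← h4, Measure.map_map glue_meas (mb.prodMk mf)]
    congr 1
    funext ω
    simp only [Function.comp, glue_bwd_fwd]
    ext t
    simp [hY]
  -- the windows of `X`
  have hgood : ∀ᵐ ω ∂P, ∀ w, 0 ≤ inc w (Z ω) := by
    have hms : MeasurableSet {y : Path2 | ∀ w, 0 ≤ inc w y} := by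
      have : {y : Path2 | ∀ w, 0 ≤ inc w y} = ⋂ w, {y | 0 ≤ inc w y} := by ext y; simp
      rw [this]
      exact MeasurableSet.iInter fun w => measurableSet_le measurable_const (inc_meas w)
    have h5 : ∀ᵐ y ∂(muX W), ∀ w, 0 ≤ inc w y := by
      unfold muX
      exact (ae_map_iff R_meas.aemeasurable hms).2 (ae_of_all _ fun y w => inc_R w y)
    rw [← hlaw] at h5
    exact (ae_map_iff hZm.aemeasurable hms).1 h5
  have hM : ∀ M : ℕ, P {ω | |S ω| ≤ M} = 0 := by
    intro M
    have h6 : {ω | |S ω| ≤ M} ≤ᵐ[P] Y ⁻¹' {y | ∃ s ∈ Icc (-(M : ℝ)) M, ∀ w,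
        0 ≤ y (s + Qw w) - y (s + Pw w)} := by
      filter_upwards [hgood] with ω hω hSM
      have h7 := abs_le.1 (show |S ω| ≤ M from hSM)
      refine ⟨-S ω, ⟨by linarith, by linarith⟩, fun w => ?_⟩
      have h8 := hω w
      show 0 ≤ (X (S ω + (-S ω + Qw w)) ω - X (S ω) ω) - (X (S ω + (-S ω + Pw w)) ω - X (S ω) ω)
      rw [show S ω + (-S ω + Qw w) = Qw w by ring, show S ω + (-S ω + Pw w) = Pw w by ring]
      have h9 : inc w (Z ω) = X (Qw w) ω - X (Pw w) ω := rfl
      rw [h9] at h8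
      linarith
    have h10 := measure_mono_ae h6
    have h11 := Measure.le_map_apply (μ := P) hYm.aemeasurable
      {y | ∃ s ∈ Icc (-(M : ℝ)) M, ∀ w, 0 ≤ y (s + Qw w) - y (s + Pw w)}
    rw [lY, null_exc hW M] at h11
    exact le_antisymm (h10.trans h11) zero_le
  have hU : (univ : Set Ω) = ⋃ M : ℕ, {ω | |S ω| ≤ M} := by
    ext ω
    simp only [mem_univ, mem_iUnion, mem_ofPred_eq, true_iff]
    exact exists_nat_ge _
  have h12 : P univ = 0 := by
    rw [hU]
    exact measure_iUnion_null hM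
  rw [measure_univ] at h12
  exact one_ne_zero h12

end Aux

/-- **Main theorem.** -/
theorem main : ∃ (Ω : Type) (_ : MeasurableSpace Ω) (P : Measure Ω) (_ : IsProbabilityMeasure P)
    (X : ℝ → Ω → ℝ), (∀ t, Measurable (X t)) ∧ (∀ ω, Continuous fun t => X t ω) ∧
      FBM X P ∧ BBM X P ∧ (∃ T : Ω → ℝ, Measurable T ∧ IndepAt X T P) ∧
      ∀ (Ω' : Type) (_ : MeasurableSpace Ω') (P' : Measure Ω') (X' : ℝ → Ω' → ℝ),
        (∀ t, Measurable (X' t)) → (∀ ω, Continuous fun t => X' t ω) →
        P'.map (fun ω t => X' t ω) = P.map (fun ω t => X t ω) → ¬ TwoBM X' P' := by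
  obtain ⟨W, hW⟩ := Q297.Bm.exists_wiener
  have hWp := isProb hW
  set P : Measure ((Path2 × ℝ) × ℝ) := ((muX W).prod lam).prod lam with hPdef
  have hPp : IsProbabilityMeasure P := by rw [hPdef]; infer_instance
  have hfst : P.map (fun ω => ω.1.1) = muX W := by
    have h1 : P.map Prod.fst = (muX W).prod lam := measurePreserving_fst.map_eq
    have h2 : ((muX W).prod lam).map Prod.fst = muX W := measurePreserving_fst.map_eq
    have h3 : (fun ω : (Path2 × ℝ) × ℝ => ω.1.1) = Prod.fst ∘ Prod.fst := rfl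
    rw [h3, ← Measure.map_map measurable_fst measurable_fst, h1, h2]
  -- the random indices
  have hJ : ∀ n : ℕ, ∃ J : (Path2 × ℝ) × ℝ → ℕ, Measurable J ∧
      P.map (fun p => T n (J p) p.1) = W := by
    intro n
    obtain ⟨κ, hκ1, hκ2⟩ := exists_kappa hW n
    obtain ⟨J, hJm, hJ⟩ := select ((muX W).prod lam) κ hκ1 (T n) (T_meas n)
    exact ⟨J, hJm, hJ.trans hκ2⟩
  choose J hJm hJlaw using hJ
  have hTm : ∀ n, Measurable (fun p : (Path2 × ℝ) × ℝ => T n (J n p) p.1) := by
    intro n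
    have h1 : Measurable (fun q : ℕ × (Path2 × ℝ) => T n q.1 q.2) :=
      measurable_from_prod_countable_right (T_meas n)
    exact h1.comp ((hJm n).prodMk measurable_fst)
  -- the mirror
  let ρ : (Path2 × ℝ) × ℝ → (Path2 × ℝ) × ℝ := fun p => ((rev p.1.1, p.1.2), p.2)
  have hρm : Measurable ρ :=
    (((rev_meas.comp (measurable_fst.comp measurable_fst)).prodMk
      (measurable_snd.comp measurable_fst)).prodMk measurable_snd)
  have hρ : P.map ρ = P := by
    have h1 : ρ = Prod.map (Prod.map rev id) id := rfl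
    rw [h1, hPdef, ← Measure.map_prod_map _ _ (rev_meas.prodMap measurable_id) measurable_id,
      ← Measure.map_prod_map _ _ rev_meas measurable_id, map_rev_muX hW, Measure.map_id]
  refine ⟨(Path2 × ℝ) × ℝ, inferInstance, P, hPp, fun t ω => ω.1.1 t,
    fun t => (measurable_eval t).comp (measurable_fst.comp measurable_fst),
    fun ω => ω.1.1.continuous, ?_, ?_, ?_, ?_⟩
  · refine ⟨fun n ω => -(((n + J n ω : ℕ) : ℝ) + ω.1.2), fun n => ?_, ?_, fun n => ?_⟩
    · have h1 : Measurable (fun ω => ((n + J n ω : ℕ) : ℝ)) :=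
        (measurable_from_nat (f := fun j : ℕ => ((n + j : ℕ) : ℝ))).comp (hJm n)
      exact (h1.add (measurable_snd.comp measurable_fst)).neg
    · refine ae_of_all _ fun ω => ?_
      have h1 : Tendsto (fun n : ℕ => -(n : ℝ) + -ω.1.2) atTop atBot :=
        tendsto_atBot_add_const_right _ _
          (tendsto_neg_atTop_atBot.comp tendsto_natCast_atTop_atTop)
      refine tendsto_atBot_mono (fun n => ?_) h1
      push_cast
      have : (0 : ℝ) ≤ J n ω := Nat.cast_nonneg _
      linarith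
    · exact bm_of_law hW (hTm n) (hJlaw n)
  · refine ⟨fun n ω => -(((n + J n (ρ ω) : ℕ) : ℝ) + ω.1.2), fun n => ?_, ?_, fun n => ?_⟩
    · have h1 : Measurable (fun ω => ((n + J n (ρ ω) : ℕ) : ℝ)) :=
        (measurable_from_nat (f := fun j : ℕ => ((n + j : ℕ) : ℝ))).comp ((hJm n).comp hρm)
      exact (h1.add (measurable_snd.comp measurable_fst)).neg
    · refine ae_of_all _ fun ω => ?_
      have h1 : Tendsto (fun n : ℕ => -(n : ℝ) + -ω.1.2) atTop atBot :=
        tendsto_atBot_add_const_right _ _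
          (tendsto_neg_atTop_atBot.comp tendsto_natCast_atTop_atTop)
      refine tendsto_atBot_mono (fun n => ?_) h1
      push_cast
      have : (0 : ℝ) ≤ J n (ρ ω) := Nat.cast_nonneg _
      linarith
    · have hF : Measurable (fun ω => neg1 (T n (J n (ρ ω)) (ρ ω).1)) :=
        neg1_meas.comp ((hTm n).comp hρm)
      have hl : P.map (fun ω => neg1 (T n (J n (ρ ω)) (ρ ω).1)) = W := by
        have e : (fun ω => neg1 (T n (J n (ρ ω)) (ρ ω).1)) =
            neg1 ∘ ((fun p : (Path2 × ℝ) × ℝ => T n (J n p) p.1) ∘ ρ) := rfl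
        rw [e, ← Measure.map_map neg1_meas ((hTm n).comp hρm), ← Measure.map_map (hTm n) hρm, hρ,
          hJlaw n, map_neg1 hW]
      have h1 := bm_of_law hW hF hl
      refine ⟨h1.toIsPreBrownianReal.congr fun t => ae_of_all _ fun ω => ?_, ?_⟩
      · show -(-ω.1.1 (-(-(((n + J n (ρ ω) : ℕ) : ℝ) + ω.1.2) + t)) -
          -ω.1.1 (-(-(((n + J n (ρ ω) : ℕ) : ℝ) + ω.1.2)))) = _
        ring
      · refine ae_of_all _ fun ω => ?_
        have := ω.1.1.continuous
        fun_prop
  · refine ⟨fun _ => 0, measurable_const, ?_⟩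
    unfold IndepAt
    have h1 := (indep_planted hW).symm
    have h2 : IndepFun (fun ω : (Path2 × ℝ) × ℝ => fwd ω.1.1) (fun ω => bwd ω.1.1) P := by
      have hm : Measurable (fun ω : (Path2 × ℝ) × ℝ => ω.1.1) := measurable_fst.comp measurable_fst
      have mf : Measurable (fun ω : (Path2 × ℝ) × ℝ => fwd ω.1.1) := fwd_meas.comp hm
      have mb : Measurable (fun ω : (Path2 × ℝ) × ℝ => bwd ω.1.1) := bwd_meas.comp hm
      rw [indepFun_iff_map_prod_eq_prod_map_map mf.aemeasurable mb.aemeasurable]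
      have h3 := (indepFun_iff_map_prod_eq_prod_map_map fwd_meas.aemeasurable
        bwd_meas.aemeasurable).1 h1
      rw [← hfst, Measure.map_map (fwd_meas.prodMk bwd_meas) hm, Measure.map_map fwd_meas hm,
        Measure.map_map bwd_meas hm] at h3
      exact h3
    have h4 := indep_path.2 h2
    convert h4 using 1
    · funext ω t
      simp
    · funext ω t
      simp
  · intro Ω' _ P' X' hX'm hX'c hlaw
    refine not_two hW hX'c hX'm ?_
    have hZ : Measurable (fun ω => (⟨fun t => X' t ω, hX'c ω⟩ : Path2)) :=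
      measurable_of_eval fun t => hX'm t
    have hm : Measurable (fun ω : (Path2 × ℝ) × ℝ => ω.1.1) := measurable_fst.comp measurable_fst
    apply measure_ext
    rw [Measure.map_map measurable_coe hZ, ← hfst, Measure.map_map measurable_coe hm]
    exact hlaw

end Q297.Win
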