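import Mathlib

/-!
Nuclear norm of real matrices: duality, attained dual certificates, factorizations.
-/

open Matrix Finset

namespace Pool.Agent.Q297.Nuc

/-- The nuclear norm: the sum of the singular values (square roots of the eigenvalues of
`Aᵀ A`). -/
noncomputable def nuc {m n : ℕ} (A : Matrix (Fin m) (Fin n) ℝ) : ℝ :=
  ∑ i, Real.sqrt ((isHermitian_conjTranspose_mul_self A).eigenvalues i)

variable {m n : ℕ}

lemma svd (X : Matrix (Fin m) (Fin n) ℝ) : ∃ (v : Fin n → Fin n → ℝ) (lam : Fin n → ℝ),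
    (∀ i, 0 ≤ lam i) ∧ nuc X = ∑ i, Real.sqrt (lam i) ∧
    (∀ i j, v i ⬝ᵥ v j = if i = j then 1 else 0) ∧
    (∀ b b', ∑ i, v i b * v i b' = if b = b' then 1 else 0) ∧
    (∀ i j, (X *ᵥ v i) ⬝ᵥ (X *ᵥ v j) = if i = j then lam i else 0) ∧
    Fintype.card {i // lam i ≠ 0} = X.rank := by
  set hX := isHermitian_conjTranspose_mul_self X with hXdef
  set U : Matrix (Fin n) (Fin n) ℝ := (hX.eigenvectorUnitary : Matrix (Fin n) (Fin n) ℝ) with hU
  have hU1 : Uᵀ * U = 1 := by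
    have := Unitary.coe_star_mul_self hX.eigenvectorUnitary
    rw [star_eq_conjTranspose, conjTranspose_eq_transpose_of_trivial] at this
    exact this
  have hU2 : U * Uᵀ = 1 := mul_eq_one_comm.1 hU1
  have horth : ∀ i j, (fun b => U b i) ⬝ᵥ (fun b => U b j) = if i = j then 1 else 0 := by
    intro i j
    have := congrFun (congrFun hU1 i) j
    rw [Matrix.mul_apply, Matrix.one_apply] at this
    exact this
  refine ⟨fun i b => U b i, hX.eigenvalues, ?_, rfl, horth, ?_, ?_, ?_⟩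
  · exact (posSemidef_conjTranspose_mul_self X).eigenvalues_nonneg
  · intro b b'
    have := congrFun (congrFun hU2 b) b'
    rw [Matrix.mul_apply, Matrix.one_apply] at this
    exact this
  · intro i j
    have heig : (Xᴴ * X) *ᵥ (fun b => U b i) = hX.eigenvalues i • (fun b => U b i) := by
      have h := hX.mulVec_eigenvectorBasis i
      have e : (⇑(hX.eigenvectorBasis i) : Fin n → ℝ) = fun b => U b i := by
        funext b
        exact (hX.eigenvectorUnitary_apply b i).symm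
      rw [e] at h
      exact h
    rw [dotProduct_mulVec, ← mulVec_transpose, mulVec_mulVec,
      ← conjTranspose_eq_transpose_of_trivial, heig, smul_dotProduct, horth, smul_eq_mul]
    split_ifs <;> simp
  · rw [← rank_conjTranspose_mul_self X, hX.rank_eq_card_non_zero_eigs]

/-- Entrywise inner product of matrices. -/
def ip (X W : Matrix (Fin m) (Fin n) ℝ) : ℝ := ∑ a, ∑ b, X a b * W a b

/-- Contraction. -/
def IsContr (W : Matrix (Fin m) (Fin n) ℝ) : Prop :=
  ∀ y : Fin n → ℝ, ∑ a, (W *ᵥ y) a ^ 2 ≤ ∑ b, y b ^ 2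

lemma dot_self (x : Fin m → ℝ) : x ⬝ᵥ x = ∑ a, x a ^ 2 := by
  unfold dotProduct
  exact Finset.sum_congr rfl fun a _ => by ring

lemma ip_eq_sum {v : Fin n → Fin n → ℝ}
    (hv : ∀ b b', ∑ i, v i b * v i b' = if b = b' then 1 else 0)
    (X W : Matrix (Fin m) (Fin n) ℝ) : ip X W = ∑ i, (X *ᵥ v i) ⬝ᵥ (W *ᵥ v i) := by
  have h1 : ∀ i, (X *ᵥ v i) ⬝ᵥ (W *ᵥ v i)
      = ∑ a, ∑ b, ∑ b', X a b * W a b' * (v i b * v i b') := by
    intro i
    unfold dotProduct mulVec dotProduct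
    refine Finset.sum_congr rfl fun a _ => ?_
    rw [Finset.sum_mul_sum]
    refine Finset.sum_congr rfl fun b _ => Finset.sum_congr rfl fun b' _ => ?_
    ring
  simp_rw [h1]
  rw [Finset.sum_comm]
  unfold ip
  refine Finset.sum_congr rfl fun a _ => ?_
  rw [Finset.sum_comm]
  refine Finset.sum_congr rfl fun b _ => ?_
  rw [Finset.sum_comm]
  simp_rw [← Finset.mul_sum, hv]
  simp

lemma ip_le_nuc (X W : Matrix (Fin m) (Fin n) ℝ) (hW : IsContr W) : ip X W ≤ nuc X := by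
  obtain ⟨v, lam, hlam, hnuc, horth, hcomp, hXv, -⟩ := svd X
  rw [ip_eq_sum hcomp, hnuc]
  refine Finset.sum_le_sum fun i _ => ?_
  have h1 : ((X *ᵥ v i) ⬝ᵥ (W *ᵥ v i)) ^ 2 ≤ lam i := by
    have h2 : ((X *ᵥ v i) ⬝ᵥ (W *ᵥ v i)) ^ 2
        ≤ (∑ a, (X *ᵥ v i) a ^ 2) * (∑ a, (W *ᵥ v i) a ^ 2) :=
      Finset.sum_mul_sq_le_sq_mul_sq _ _ _
    have h3 : ∑ a, (X *ᵥ v i) a ^ 2 = lam i := by
      rw [← dot_self, hXv, if_pos rfl]
    have h4 : ∑ a, (W *ᵥ v i) a ^ 2 ≤ 1 := by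
      refine (hW (v i)).trans ?_
      rw [← dot_self, horth, if_pos rfl]
    rw [h3] at h2
    calc _ ≤ lam i * ∑ a, (W *ᵥ v i) a ^ 2 := h2
      _ ≤ lam i * 1 := mul_le_mul_of_nonneg_left h4 (hlam i)
      _ = lam i := mul_one _
  exact Real.le_sqrt_of_sq_le h1

lemma exists_cert (X : Matrix (Fin m) (Fin n) ℝ) :
    ∃ W : Matrix (Fin m) (Fin n) ℝ, IsContr W ∧ ip X W = nuc X ∧
      ∑ a, ∑ b, W a b ^ 2 ≤ X.rank := by
  obtain ⟨v, lam, hlam, hnuc, horth, hcomp, hXv, hrank⟩ := svd X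
  -- coefficients
  let c : Fin n → ℝ := fun i => if lam i = 0 then 0 else (Real.sqrt (lam i))⁻¹
  let W : Matrix (Fin m) (Fin n) ℝ := fun a b => ∑ i, c i * (X *ᵥ v i) a * v i b
  have hWy : ∀ (y : Fin n → ℝ) (a : Fin m), (W *ᵥ y) a
      = ∑ i, (c i * (v i ⬝ᵥ y)) * (X *ᵥ v i) a := by
    intro y a
    obtain ⟨g, hg⟩ : ∃ g : Fin n → ℝ, ∀ i, g i = (X *ᵥ v i) a := ⟨_, fun _ => rfl⟩
    have e1 : (W *ᵥ y) a = ∑ b, (∑ i, c i * g i * v i b) * y b := by
      show ∑ b, W a b * y b = _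
      refine Finset.sum_congr rfl fun b _ => ?_
      simp only [W, hg]
    have e2 : ∀ i, v i ⬝ᵥ y = ∑ b, v i b * y b := fun i => rfl
    rw [e1]
    simp_rw [← hg, e2, Finset.sum_mul]
    rw [Finset.sum_comm]
    refine Finset.sum_congr rfl fun i _ => ?_
    rw [Finset.mul_sum, Finset.sum_mul]
    refine Finset.sum_congr rfl fun b _ => ?_
    ring
  have hWv : ∀ j, W *ᵥ v j = c j • (X *ᵥ v j) := by
    intro j
    funext a
    rw [hWy]
    simp_rw [horth]
    simp
  have hc1 : ∀ i, c i ^ 2 * lam i ≤ 1 := by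
    intro i
    simp only [c]
    split_ifs with h
    · rw [h]; norm_num
    · have hpos : 0 < lam i := lt_of_le_of_ne (hlam i) (Ne.symm h)
      rw [inv_pow, Real.sq_sqrt (hlam i), inv_mul_cancel₀ h]
  refine ⟨W, ?_, ?_, ?_⟩
  · intro y
    have h1 : ∑ a, (W *ᵥ y) a ^ 2 = ∑ i, (c i * (v i ⬝ᵥ y)) ^ 2 * lam i := by
      have h2 : ∀ a, (W *ᵥ y) a ^ 2 = ∑ i, ∑ j, (c i * (v i ⬝ᵥ y)) * (c j * (v j ⬝ᵥ y)) *
          ((X *ᵥ v i) a * (X *ᵥ v j) a) := by
        intro a
        rw [hWy, sq, Finset.sum_mul_sum]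
        refine Finset.sum_congr rfl fun i _ => Finset.sum_congr rfl fun j _ => ?_
        ring
      simp_rw [h2]
      rw [Finset.sum_comm]
      refine Finset.sum_congr rfl fun i _ => ?_
      rw [Finset.sum_comm]
      simp_rw [← Finset.mul_sum]
      have h3 : ∀ j, ∑ a, (X *ᵥ v i) a * (X *ᵥ v j) a = if i = j then lam i else 0 :=
        fun j => hXv i j
      simp_rw [h3]
      simp only [mul_ite, mul_zero, Finset.sum_ite_eq, Finset.mem_univ, if_true]
      ring
    rw [h1]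
    have h4 : ∑ b, y b ^ 2 = ∑ i, (v i ⬝ᵥ y) ^ 2 := by
      have h5 : ∀ i, (v i ⬝ᵥ y) ^ 2 = ∑ b, ∑ b', y b * y b' * (v i b * v i b') := by
        intro i
        unfold dotProduct
        rw [sq, Finset.sum_mul_sum]
        refine Finset.sum_congr rfl fun b _ => Finset.sum_congr rfl fun b' _ => ?_
        ring
      simp_rw [h5]
      rw [Finset.sum_comm]
      refine Finset.sum_congr rfl fun b _ => ?_
      rw [Finset.sum_comm]
      simp_rw [← Finset.mul_sum, hcomp]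
      simp only [mul_ite, mul_zero, mul_one, Finset.sum_ite_eq, Finset.mem_univ, if_true]
      ring
    rw [h4]
    refine Finset.sum_le_sum fun i _ => ?_
    calc (c i * (v i ⬝ᵥ y)) ^ 2 * lam i = (c i ^ 2 * lam i) * (v i ⬝ᵥ y) ^ 2 := by ring
      _ ≤ 1 * (v i ⬝ᵥ y) ^ 2 := mul_le_mul_of_nonneg_right (hc1 i) (sq_nonneg _)
      _ = _ := one_mul _
  · rw [ip_eq_sum hcomp, hnuc]
    refine Finset.sum_congr rfl fun i _ => ?_
    rw [hWv, dotProduct_smul, hXv, if_pos rfl, smul_eq_mul]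
    simp only [c]
    split_ifs with h
    · rw [h]; simp
    · have hpos : 0 < lam i := lt_of_le_of_ne (hlam i) (Ne.symm h)
      have hs : Real.sqrt (lam i) ≠ 0 := (Real.sqrt_pos.2 hpos).ne'
      rw [inv_mul_eq_iff_eq_mul₀ hs, Real.mul_self_sqrt (hlam i)]
  · have h1 : ∑ a, ∑ b, W a b ^ 2 = ∑ i, c i ^ 2 * lam i := by
      have h2 : ∑ a, ∑ b, W a b ^ 2 = ip W W := by
        unfold ip
        exact Finset.sum_congr rfl fun a _ => Finset.sum_congr rfl fun b _ => by ring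
      rw [h2, ip_eq_sum hcomp]
      refine Finset.sum_congr rfl fun i _ => ?_
      rw [hWv, dotProduct_smul, smul_dotProduct, hXv, if_pos rfl, smul_eq_mul, smul_eq_mul]
      ring
    rw [h1, ← hrank, Fintype.card_subtype, Finset.card_filter]
    push_cast
    refine Finset.sum_le_sum fun i _ => ?_
    by_cases h : lam i = 0
    · simp [h]
    · rw [if_pos h]; exact hc1 i

lemma nuc_nonneg (X : Matrix (Fin m) (Fin n) ℝ) : 0 ≤ nuc X :=
  Finset.sum_nonneg fun _ _ => Real.sqrt_nonneg _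

lemma nuc_sub_le (X Y : Matrix (Fin m) (Fin n) ℝ) : nuc (X - Y) ≤ nuc X + nuc Y := by
  obtain ⟨W, hW, hip, -⟩ := exists_cert (X - Y)
  have hneg : IsContr (-W) := by
    intro y
    have : ∀ a, ((-W) *ᵥ y) a ^ 2 = (W *ᵥ y) a ^ 2 := by
      intro a
      rw [neg_mulVec, Pi.neg_apply]; ring
    simp_rw [this]
    exact hW y
  have h1 := ip_le_nuc X W hW
  have h2 := ip_le_nuc Y (-W) hneg
  have h3 : ip (X - Y) W = ip X W + ip Y (-W) := by
    unfold ip
    rw [← Finset.sum_add_distrib]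
    refine Finset.sum_congr rfl fun a _ => ?_
    rw [← Finset.sum_add_distrib]
    refine Finset.sum_congr rfl fun b _ => ?_
    rw [Matrix.sub_apply, Matrix.neg_apply]
    ring
  rw [← hip, h3]
  exact add_le_add h1 h2

/-- Factorization with normalized factors. -/
lemma decomp (X : Matrix (Fin m) (Fin n) ℝ) (hm : 0 < m) (hn : 0 < n) :
    ∃ (s : Fin n → ℝ) (p : Fin n → Fin m → ℝ) (q : Fin n → Fin n → ℝ),
      (∀ i, 0 ≤ s i) ∧ ∑ i, s i = nuc X / Real.sqrt (m * n) ∧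
      (∀ a b, X a b = ∑ i, p i a * q i b) ∧
      (∀ i, ∑ a, p i a ^ 2 = m * s i) ∧ (∀ i, ∑ b, q i b ^ 2 = n * s i) ∧
      (∀ i j, i ≠ j → ∑ b, q i b * q j b = 0) := by
  obtain ⟨v, lam, hlam, hnuc, horth, hcomp, hXv, hrank⟩ := svd X
  have hm' : (0:ℝ) < m := by exact_mod_cast hm
  have hn' : (0:ℝ) < n := by exact_mod_cast hn
  have hmn : 0 < Real.sqrt (m * n) := Real.sqrt_pos.2 (mul_pos hm' hn')
  set σ : Fin n → ℝ := fun i => Real.sqrt (lam i) with hσ
  set s : Fin n → ℝ := fun i => σ i / Real.sqrt (m * n) with hs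
  have hσ0 : ∀ i, 0 ≤ σ i := fun i => Real.sqrt_nonneg _
  have hs0 : ∀ i, 0 ≤ s i := fun i => div_nonneg (hσ0 i) hmn.le
  refine ⟨s, fun i a => Real.sqrt (s i) * Real.sqrt m * (X *ᵥ v i) a / σ i,
    fun i b => Real.sqrt (s i) * Real.sqrt n * v i b, hs0, ?_, ?_, ?_, ?_, ?_⟩
  · rw [hnuc, Finset.sum_div]
  · intro a b
    have h1 : X a b = ∑ i, (X *ᵥ v i) a * v i b := by
      unfold mulVec dotProduct
      simp_rw [Finset.sum_mul]
      rw [Finset.sum_comm]
      simp_rw [mul_assoc, ← Finset.mul_sum, hcomp]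
      simp
    rw [h1]
    refine Finset.sum_congr rfl fun i _ => ?_
    by_cases h0 : σ i = 0
    · have hl : lam i = 0 := by
        have := Real.sqrt_eq_zero (hlam i)
        exact this.1 h0
      have h2 : ∑ a, (X *ᵥ v i) a ^ 2 = 0 := by
        rw [← dot_self, hXv, if_pos rfl, hl]
      have h3 := (Finset.sum_eq_zero_iff_of_nonneg (fun a _ => sq_nonneg ((X *ᵥ v i) a))).1 h2 a
        (Finset.mem_univ a)
      have h4 : (X *ᵥ v i) a = 0 := by
        exact pow_eq_zero_iff (two_ne_zero) |>.1 h3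
      simp [h4]
    · have e : Real.sqrt (s i) * Real.sqrt m * (X *ᵥ v i) a / σ i *
          (Real.sqrt (s i) * Real.sqrt n * v i b)
          = (Real.sqrt (s i) * Real.sqrt (s i)) * (Real.sqrt m * Real.sqrt n) *
            ((X *ᵥ v i) a * v i b) / σ i := by ring
      rw [e, Real.mul_self_sqrt (hs0 i), ← Real.sqrt_mul hm'.le]
      simp only [hs]
      field_simp
  · intro i
    have e : ∀ a, (Real.sqrt (s i) * Real.sqrt m * (X *ᵥ v i) a / σ i) ^ 2
        = (s i * m / σ i ^ 2) * (X *ᵥ v i) a ^ 2 := by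
      intro a
      rw [div_pow, mul_pow, mul_pow, Real.sq_sqrt (hs0 i), Real.sq_sqrt hm'.le]
      ring
    simp_rw [e]
    rw [← Finset.mul_sum, ← dot_self, hXv, if_pos rfl]
    by_cases h0 : σ i = 0
    · have hl : lam i = 0 := (Real.sqrt_eq_zero (hlam i)).1 h0
      have hsi : s i = 0 := by simp only [hs]; rw [h0, zero_div]
      rw [hl, hsi]; ring
    · have h5 : σ i ^ 2 = lam i := Real.sq_sqrt (hlam i)
      rw [h5]
      have h6 : lam i ≠ 0 := by
        rw [← h5]; exact pow_ne_zero 2 h0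
      field_simp
  · intro i
    have e : ∀ b, (Real.sqrt (s i) * Real.sqrt n * v i b) ^ 2 = (s i * n) * v i b ^ 2 := by
      intro b
      rw [mul_pow, mul_pow, Real.sq_sqrt (hs0 i), Real.sq_sqrt hn'.le]
    simp_rw [e]
    rw [← Finset.mul_sum, ← dot_self, horth, if_pos rfl]
    ring
  · intro i j hij
    have e : ∀ b, (Real.sqrt (s i) * Real.sqrt n * v i b) * (Real.sqrt (s j) * Real.sqrt n * v j b)
        = (Real.sqrt (s i) * Real.sqrt n * (Real.sqrt (s j) * Real.sqrt n)) * (v i b * v j b) := by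
      intro b; ring
    simp_rw [e]
    rw [← Finset.mul_sum]
    have : ∑ b, v i b * v j b = 0 := by
      have h := horth i j
      rw [if_neg hij] at h
      exact h
    rw [this, mul_zero]

end Pool.Agent.Q297.Nuc
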