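import Pool.Agent.Q297.NucBasic

/-!
The core estimate: a matrix vanishing on the revealed entries is small on a large product set.
-/

open Matrix Finset

namespace Pool.Agent.Q297.Nuc

variable {m n : ℕ}

/-- Sum of the squares of the entries. -/
def sq2 (X : Matrix (Fin m) (Fin n) ℝ) : ℝ := ∑ a, ∑ b, X a b ^ 2

lemma markov {k : ℕ} (f : Fin k → ℝ) (hf : ∀ a, 0 ≤ f a) {c : ℝ} :
    c * (univ.filter (fun a => c < f a)).card ≤ ∑ a, f a := by
  have h1 : ∑ a ∈ univ.filter (fun a => c < f a), c ≤ ∑ a ∈ univ.filter (fun a => c < f a), f a :=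
    Finset.sum_le_sum fun a ha => (Finset.mem_filter.1 ha).2.le
  rw [Finset.sum_const, nsmul_eq_mul] at h1
  have h2 : ∑ a ∈ univ.filter (fun a => c < f a), f a ≤ ∑ a, f a :=
    Finset.sum_le_sum_of_subset_of_nonneg (Finset.filter_subset _ _) fun a _ _ => hf a
  linarith

lemma rank_le_types {T : Type*} [Fintype T] [DecidableEq T] (G : Matrix (Fin m) (Fin n) ℝ)
    (Gr : Finset (Fin m)) (τ : Fin m → T) (g : T → Fin n → ℝ)
    (h : ∀ a b, G a b = if a ∈ Gr then g (τ a) b else 0) : G.rank ≤ Fintype.card T := by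
  let Sm : Matrix (Fin m) T ℝ := fun a x => if a ∈ Gr ∧ τ a = x then 1 else 0
  let g' : Matrix T (Fin n) ℝ := fun x b => g x b
  have e : G = Sm * g' := by
    ext a b
    rw [Matrix.mul_apply, h]
    simp only [Sm, g']
    by_cases ha : a ∈ Gr
    · simp [ha]
    · simp [ha]
  rw [e]
  exact (Matrix.rank_mul_le_left _ _).trans (Matrix.rank_le_card_width _)

lemma cs_entry {I : Finset (Fin n)} (x y : Fin n → ℝ) {c : ℝ} (hc : 0 ≤ c)
    (hx : ∑ i ∈ I, x i ^ 2 ≤ c) (hy : ∑ i ∈ I, y i ^ 2 ≤ c) :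
    (∑ i ∈ I, x i * y i) ^ 2 ≤ c ^ 2 := by
  calc (∑ i ∈ I, x i * y i) ^ 2 ≤ (∑ i ∈ I, x i ^ 2) * (∑ i ∈ I, y i ^ 2) :=
        Finset.sum_mul_sq_le_sq_mul_sq _ _ _
    _ ≤ c * c := mul_le_mul hx hy (Finset.sum_nonneg fun i _ => sq_nonneg _) hc
    _ = c ^ 2 := by ring

lemma frob_part {s : Fin n → ℝ} {p : Fin n → Fin m → ℝ} {q : Fin n → Fin n → ℝ}
    (hp : ∀ i, ∑ a, p i a ^ 2 = m * s i) (hq : ∀ i, ∑ b, q i b ^ 2 = n * s i)
    (horth : ∀ i j, i ≠ j → ∑ b, q i b * q j b = 0) (I : Finset (Fin n)) :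
    ∑ a, ∑ b, (∑ i ∈ I, p i a * q i b) ^ 2 = m * n * ∑ i ∈ I, s i ^ 2 := by
  have h1 : ∀ a, ∑ b, (∑ i ∈ I, p i a * q i b) ^ 2 = ∑ i ∈ I, p i a ^ 2 * (n * s i) := by
    intro a
    have h2 : ∀ b, (∑ i ∈ I, p i a * q i b) ^ 2
        = ∑ i ∈ I, ∑ j ∈ I, (p i a * p j a) * (q i b * q j b) := by
      intro b
      rw [sq, Finset.sum_mul_sum]
      exact Finset.sum_congr rfl fun i _ => Finset.sum_congr rfl fun j _ => by ring
    simp_rw [h2]
    rw [Finset.sum_comm]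
    refine Finset.sum_congr rfl fun i hi => ?_
    rw [Finset.sum_comm]
    simp_rw [← Finset.mul_sum]
    rw [Finset.sum_eq_single i]
    · have : ∑ b, q i b * q i b = n * s i := by
        rw [← hq i]
        exact Finset.sum_congr rfl fun b _ => by ring
      rw [this]; ring
    · intro j _ hji
      rw [horth i j (Ne.symm hji), mul_zero]
    · intro h; exact absurd hi h
  simp_rw [h1]
  rw [Finset.sum_comm, Finset.mul_sum]
  refine Finset.sum_congr rfl fun i _ => ?_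
  rw [← Finset.sum_mul, hp]
  ring

lemma round_entry {p q h w : ℝ} (hh : 0 < h) (hw : 0 ≤ w) (hp : |p| ≤ w) (hq : |q| ≤ w) :
    |p * q - (h * ⌊p / h⌋) * (h * ⌊q / h⌋)| ≤ h * (2 * w + h) := by
  have h1 : ∀ x : ℝ, |x - h * ⌊x / h⌋| ≤ h := by
    intro x
    have h2 := Int.floor_le (x / h)
    have h3 := Int.lt_floor_add_one (x / h)
    rw [le_div_iff₀ hh] at h2
    rw [div_lt_iff₀ hh] at h3
    rw [abs_le]
    constructor <;> nlinarith
  have hp1 := h1 p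
  have hq1 := h1 q
  set r := h * (⌊p / h⌋ : ℝ) with hr
  set r' := h * (⌊q / h⌋ : ℝ) with hr'
  have e : p * q - r * r' = (p - r) * q + r * (q - r') := by ring
  have h4 : |r| ≤ w + h := by
    have : r = p - (p - r) := by ring
    rw [this]
    exact (abs_sub _ _).trans (add_le_add hp hp1)
  rw [e]
  calc |(p - r) * q + r * (q - r')| ≤ |(p - r) * q| + |r * (q - r')| := abs_add_le _ _
    _ = |p - r| * |q| + |r| * |q - r'| := by rw [abs_mul, abs_mul]
    _ ≤ h * w + (w + h) * h := by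
        gcongr
    _ = h * (2 * w + h) := by ring

/-- Core estimate. -/
lemma core (hm : 0 < m) (hn : 0 < n) (D P : Matrix (Fin m) (Fin n) ℝ)
    (hP : ∀ a b, P a b = 0 ∨ P a b = 1) (hDP : ∀ a b, P a b = 1 → D a b = 0)
    {s : Fin n → ℝ} {p : Fin n → Fin m → ℝ} {q : Fin n → Fin n → ℝ} (hs : ∀ i, 0 ≤ s i)
    (hD : ∀ a b, D a b = ∑ i, p i a * q i b)
    (hp : ∀ i, ∑ a, p i a ^ 2 = m * s i) (hq : ∀ i, ∑ b, q i b ^ 2 = n * s i)
    (horth : ∀ i j, i ≠ j → ∑ b, q i b * q j b = 0)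
    {B κ M t t' h : ℝ} {R z Q : ℕ} (hB : ∑ i, s i ≤ B) (hκ : 0 < κ) (hM : 0 < M)
    (ht' : 0 < t') (htt : t' ≤ t) (hh : 0 < h)
    (hmid : ∑ i ∈ univ.filter (fun i => t' < s i ∧ s i ≤ t), s i ≤ κ ^ 2)
    (hR : B / t ≤ R) (hround : R * (h * (2 * Real.sqrt M + h)) ≤ κ / 2)
    (hz : Real.sqrt M / h + 1 ≤ z) (hQ : (2 * z + 1) ^ R ≤ Q) {δ ε : ℝ}
    (hRP : ∀ G : Matrix (Fin m) (Fin n) ℝ, (∀ a b, G a b = 0 ∨ G a b = 1) → G.rank ≤ Q →
      ∑ a, ∑ b, (G a b * P a b) ^ 2 ≤ δ * (m * n) → ∑ a, ∑ b, G a b ^ 2 ≤ ε * (m * n))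
    (ht1 : t' * B ≤ κ ^ 2) (ht2 : t' * B ≤ 9 / 4 * κ ^ 2 * δ) (hε : M ^ 2 * ε ≤ κ ^ 2) :
    ∃ (Gr : Finset (Fin m)) (Gc : Finset (Fin n)),
      ((Grᶜ.card : ℝ) ≤ (B / M + κ) * m) ∧ ((Gcᶜ.card : ℝ) ≤ (B / M + κ) * n) ∧
      ∑ a ∈ Gr, ∑ b ∈ Gc, D a b ^ 2 ≤ 46 * κ ^ 2 * (m * n) := by
  have hm' : (0:ℝ) < m := by exact_mod_cast hm
  have hn' : (0:ℝ) < n := by exact_mod_cast hn
  have hmn : (0:ℝ) < m * n := mul_pos hm' hn'
  have ht : 0 < t := ht'.trans_le htt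
  set I1 : Finset (Fin n) := univ.filter (fun i => t < s i) with hI1
  set I2 : Finset (Fin n) := univ.filter (fun i => t' < s i ∧ s i ≤ t) with hI2
  set I3 : Finset (Fin n) := univ.filter (fun i => s i ≤ t') with hI3
  have hsplit : ∀ f : Fin n → ℝ, ∑ i, f i = ∑ i ∈ I1, f i + ∑ i ∈ I2, f i + ∑ i ∈ I3, f i := by
    intro f
    rw [hI1, hI2, hI3, Finset.sum_filter, Finset.sum_filter, Finset.sum_filter,
      ← Finset.sum_add_distrib, ← Finset.sum_add_distrib]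
    refine Finset.sum_congr rfl fun i _ => ?_
    by_cases h1 : t < s i
    · have h2 : ¬ (t' < s i ∧ s i ≤ t) := fun h => absurd h.2 (not_le.2 h1)
      have h3 : ¬ (s i ≤ t') := not_le.2 (htt.trans_lt h1)
      simp [h1, h2, h3]
    · by_cases h4 : s i ≤ t'
      · have h2 : ¬ (t' < s i ∧ s i ≤ t) := fun h => absurd h.1 (not_lt.2 h4)
        simp [h1, h2, h4]
      · have h2 : t' < s i ∧ s i ≤ t := ⟨not_le.1 h4, not_lt.1 h1⟩
        simp [h1, h2, h4]
  set C : Fin m → Fin n → ℝ := fun a b => ∑ i ∈ I1, p i a * q i b with hC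
  set E1 : Fin m → Fin n → ℝ := fun a b => ∑ i ∈ I2, p i a * q i b with hE1
  set E2 : Fin m → Fin n → ℝ := fun a b => ∑ i ∈ I3, p i a * q i b with hE2
  have hDs : ∀ a b, D a b = C a b + E1 a b + E2 a b := fun a b => by
    rw [hD, hsplit]
  have hBpos : 0 ≤ B := (Finset.sum_nonneg fun i _ => hs i).trans hB
  have hsub : ∀ I : Finset (Fin n), ∑ i ∈ I, s i ≤ B := fun I =>
    (Finset.sum_le_sum_of_subset_of_nonneg (Finset.subset_univ I) fun i _ _ => hs i).trans hB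
  -- good rows and columns
  set Gr : Finset (Fin m) := univ.filter
    (fun a => ∑ i ∈ I1, p i a ^ 2 ≤ M ∧ ∑ i ∈ I2, p i a ^ 2 ≤ κ) with hGr
  set Gc : Finset (Fin n) := univ.filter
    (fun b => ∑ i ∈ I1, q i b ^ 2 ≤ M ∧ ∑ i ∈ I2, q i b ^ 2 ≤ κ) with hGc
  have hbad : ∀ (k : ℕ) (f : Fin n → Fin k → ℝ), (∀ i, ∑ a, f i a ^ 2 = k * s i) →
      (((univ.filter (fun a => ∑ i ∈ I1, f i a ^ 2 ≤ M ∧ ∑ i ∈ I2, f i a ^ 2 ≤ κ))ᶜ.card : ℕ) : ℝ)
        ≤ (B / M + κ) * k := by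
    intro k f hf
    have hk0 : (0:ℝ) ≤ k := Nat.cast_nonneg k
    have hsubset : (univ.filter (fun a => ∑ i ∈ I1, f i a ^ 2 ≤ M ∧ ∑ i ∈ I2, f i a ^ 2 ≤ κ))ᶜ
        ⊆ univ.filter (fun a => M < ∑ i ∈ I1, f i a ^ 2) ∪
          univ.filter (fun a => κ < ∑ i ∈ I2, f i a ^ 2) := by
      intro a ha
      rw [Finset.mem_compl, Finset.mem_filter] at ha
      rw [Finset.mem_union, Finset.mem_filter, Finset.mem_filter]
      by_contra hcon
      push Not at hcon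
      exact ha ⟨Finset.mem_univ _, hcon.1 (Finset.mem_univ _), hcon.2 (Finset.mem_univ _)⟩
    have hc1 := Finset.card_le_card hsubset
    have hc2 := Finset.card_union_le (univ.filter (fun a => M < ∑ i ∈ I1, f i a ^ 2))
      (univ.filter (fun a => κ < ∑ i ∈ I2, f i a ^ 2))
    have hm1 := markov (fun a => ∑ i ∈ I1, f i a ^ 2)
      (fun a => Finset.sum_nonneg fun i _ => sq_nonneg _) (c := M)
    have hm2 := markov (fun a => ∑ i ∈ I2, f i a ^ 2)
      (fun a => Finset.sum_nonneg fun i _ => sq_nonneg _) (c := κ)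
    have hs1 : ∑ a, ∑ i ∈ I1, f i a ^ 2 ≤ k * B := by
      rw [Finset.sum_comm]
      simp_rw [hf]
      rw [← Finset.mul_sum]
      exact mul_le_mul_of_nonneg_left (hsub I1) hk0
    have hs2 : ∑ a, ∑ i ∈ I2, f i a ^ 2 ≤ k * κ ^ 2 := by
      rw [Finset.sum_comm]
      simp_rw [hf]
      rw [← Finset.mul_sum]
      exact mul_le_mul_of_nonneg_left hmid hk0
    have hd1 : ((univ.filter (fun a => M < ∑ i ∈ I1, f i a ^ 2)).card : ℝ) ≤ B / M * k := by
      rw [div_mul_eq_mul_div, le_div_iff₀ hM]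
      have := hm1.trans hs1
      linarith
    have hd2 : ((univ.filter (fun a => κ < ∑ i ∈ I2, f i a ^ 2)).card : ℝ) ≤ κ * k := by
      have := hm2.trans hs2
      have h5 : κ * ((univ.filter (fun a => κ < ∑ i ∈ I2, f i a ^ 2)).card : ℝ) ≤ κ * (κ * k) := by
        calc _ ≤ k * κ ^ 2 := this
          _ = κ * (κ * k) := by ring
      exact le_of_mul_le_mul_left h5 hκ
    have hc3 : (((univ.filter (fun a => ∑ i ∈ I1, f i a ^ 2 ≤ M ∧
        ∑ i ∈ I2, f i a ^ 2 ≤ κ))ᶜ.card : ℕ) : ℝ)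
        ≤ ((univ.filter (fun a => M < ∑ i ∈ I1, f i a ^ 2)).card : ℝ)
          + ((univ.filter (fun a => κ < ∑ i ∈ I2, f i a ^ 2)).card : ℝ) := by
      exact_mod_cast hc1.trans hc2
    linarith
  refine ⟨Gr, Gc, hbad m p hp, hbad n q hq, ?_⟩
  -- cardinality of I1
  have hcard : I1.card ≤ R := by
    have h1 : t * I1.card ≤ B := by
      have h2 : ∑ i ∈ I1, t ≤ ∑ i ∈ I1, s i :=
        Finset.sum_le_sum fun i hi => (Finset.mem_filter.1 hi).2.le
      rw [Finset.sum_const, nsmul_eq_mul] at h2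
      linarith [hsub I1]
    have h3 : (I1.card : ℝ) ≤ B / t := by
      rw [le_div_iff₀ ht]; linarith
    exact_mod_cast h3.trans hR
  -- entry bounds
  have hcoef : ∀ {k : ℕ} (f : Fin n → Fin k → ℝ) (a : Fin k), ∑ i ∈ I1, f i a ^ 2 ≤ M →
      ∀ i ∈ I1, |f i a| ≤ Real.sqrt M := by
    intro k f a ha i hi
    apply Real.abs_le_sqrt
    exact (Finset.single_le_sum (f := fun i => f i a ^ 2) (fun i _ => sq_nonneg _) hi).trans ha
  -- rounded matrix
  set rp : Fin n → Fin m → ℝ := fun i a => h * (⌊p i a / h⌋ : ℝ) with hrp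
  set rq : Fin n → Fin n → ℝ := fun i b => h * (⌊q i b / h⌋ : ℝ) with hrq
  set Cr : Fin m → Fin n → ℝ := fun a b => ∑ i ∈ I1, rp i a * rq i b with hCr
  have hdiff : ∀ a ∈ Gr, ∀ b ∈ Gc, |C a b - Cr a b| ≤ κ / 2 := by
    intro a ha b hb
    have ha1 := (Finset.mem_filter.1 ha).2.1
    have hb1 := (Finset.mem_filter.1 hb).2.1
    have e : C a b - Cr a b = ∑ i ∈ I1, (p i a * q i b - rp i a * rq i b) := by
      rw [hC, hCr, Finset.sum_sub_distrib]
    rw [e]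
    refine (Finset.abs_sum_le_sum_abs _ _).trans ?_
    calc ∑ i ∈ I1, |p i a * q i b - rp i a * rq i b|
        ≤ ∑ i ∈ I1, h * (2 * Real.sqrt M + h) :=
          Finset.sum_le_sum fun i hi => round_entry hh (Real.sqrt_nonneg _)
            (hcoef p a ha1 i hi) (hcoef q b hb1 i hi)
      _ = I1.card * (h * (2 * Real.sqrt M + h)) := by rw [Finset.sum_const, nsmul_eq_mul]
      _ ≤ R * (h * (2 * Real.sqrt M + h)) := by
          have : (0:ℝ) ≤ h * (2 * Real.sqrt M + h) := by positivity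
          have h2 : (I1.card : ℝ) ≤ R := by exact_mod_cast hcard
          exact mul_le_mul_of_nonneg_right h2 this
      _ ≤ κ / 2 := hround
  have hE1b : ∀ a ∈ Gr, ∀ b ∈ Gc, E1 a b ^ 2 ≤ κ ^ 2 := by
    intro a ha b hb
    exact cs_entry (I := I2) (fun i => p i a) (fun i => q i b) hκ.le
      (Finset.mem_filter.1 ha).2.2 (Finset.mem_filter.1 hb).2.2
  have hCb : ∀ a ∈ Gr, ∀ b ∈ Gc, C a b ^ 2 ≤ M ^ 2 := by
    intro a ha b hb
    exact cs_entry (I := I1) (fun i => p i a) (fun i => q i b) hM.le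
      (Finset.mem_filter.1 ha).2.1 (Finset.mem_filter.1 hb).2.1
  have hE2f : ∑ a, ∑ b, E2 a b ^ 2 ≤ (t' * B) * (m * n) := by
    have h1 : ∑ a, ∑ b, E2 a b ^ 2 = m * n * ∑ i ∈ I3, s i ^ 2 := frob_part hp hq horth I3
    have h2 : ∑ i ∈ I3, s i ^ 2 ≤ t' * B := by
      calc ∑ i ∈ I3, s i ^ 2 ≤ ∑ i ∈ I3, t' * s i := by
            refine Finset.sum_le_sum fun i hi => ?_
            have h3 := (Finset.mem_filter.1 hi).2
            rw [sq]
            exact mul_le_mul_of_nonneg_right h3 (hs i)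
        _ = t' * ∑ i ∈ I3, s i := by rw [Finset.mul_sum]
        _ ≤ t' * B := mul_le_mul_of_nonneg_left (hsub I3) ht'.le
    rw [h1]
    calc (m:ℝ) * n * ∑ i ∈ I3, s i ^ 2 ≤ m * n * (t' * B) :=
          mul_le_mul_of_nonneg_left h2 hmn.le
      _ = _ := by ring
  -- the 0-1 matrix
  classical
  set G : Matrix (Fin m) (Fin n) ℝ :=
    fun a b => if a ∈ Gr ∧ b ∈ Gc ∧ 3 * κ < |Cr a b| then 1 else 0 with hG
  have hG01 : ∀ a b, G a b = 0 ∨ G a b = 1 := by
    intro a b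
    simp only [hG]
    split_ifs
    · exact Or.inr rfl
    · exact Or.inl rfl
  have hGrank : G.rank ≤ Q := by
    let T := ({i // i ∈ I1} → {x : ℤ // x ∈ Finset.Icc (-(z:ℤ)) z})
    have hzz : (-(z:ℤ)) ≤ z := by omega
    let τ : Fin m → T := fun a i => ⟨max (-(z:ℤ)) (min z ⌊p i.1 a / h⌋), by
      rw [Finset.mem_Icc]
      exact ⟨le_max_left _ _, max_le hzz (min_le_left _ _)⟩⟩
    let g : T → Fin n → ℝ := fun x b =>
      if b ∈ Gc ∧ 3 * κ < |∑ i : {i // i ∈ I1}, (h * ((x i).1 : ℝ)) * rq i.1 b| then 1 else 0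
    have hcardT : Fintype.card T ≤ Q := by
      have h1 : Fintype.card T = (2 * z + 1) ^ I1.card := by
        simp only [T]
        rw [Fintype.card_fun, Fintype.card_coe, Fintype.card_coe, Int.card_Icc]
        congr 1
        omega
      rw [h1]
      exact (Nat.pow_le_pow_right (by omega) hcard).trans hQ
    refine (rank_le_types G Gr τ g ?_).trans hcardT
    intro a b
    by_cases ha : a ∈ Gr
    · rw [if_pos ha]
      have ha1 := (Finset.mem_filter.1 ha).2.1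
      have hτ : ∀ i : {i // i ∈ I1}, ((τ a i).1 : ℝ) = (⌊p i.1 a / h⌋ : ℝ) := by
        intro i
        have h1 := hcoef p a ha1 i.1 i.2
        have h2 : |p i.1 a / h| ≤ Real.sqrt M / h := by
          rw [abs_div, abs_of_pos hh]
          exact div_le_div_of_nonneg_right h1 hh.le
        have h3 : (⌊p i.1 a / h⌋ : ℝ) ≤ z := by
          have := Int.floor_le (p i.1 a / h)
          have h4 := (abs_le.1 h2).2
          linarith
        have h5 : (-(z:ℝ)) ≤ ⌊p i.1 a / h⌋ := by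
          have := Int.lt_floor_add_one (p i.1 a / h)
          have h4 := (abs_le.1 h2).1
          linarith
        have h3' : ⌊p i.1 a / h⌋ ≤ (z:ℤ) := by exact_mod_cast h3
        have h5' : (-(z:ℤ)) ≤ ⌊p i.1 a / h⌋ := by exact_mod_cast h5
        have h6 : (τ a i).1 = ⌊p i.1 a / h⌋ := by
          show max (-(z:ℤ)) (min (z:ℤ) ⌊p i.1 a / h⌋) = _
          rw [min_eq_right h3', max_eq_right h5']
        rw [h6]
      have hsum : ∑ i : {i // i ∈ I1}, (h * ((τ a i).1 : ℝ)) * rq i.1 b = Cr a b := by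
        have h7 : ∀ i : {i // i ∈ I1}, (h * ((τ a i).1 : ℝ)) * rq i.1 b
            = rp i.1 a * rq i.1 b := by
          intro i
          rw [hτ i]
        rw [Finset.sum_congr rfl fun i _ => h7 i]
        exact Finset.sum_coe_sort I1 (fun i => rp i a * rq i b)
      show (if a ∈ Gr ∧ b ∈ Gc ∧ 3 * κ < |Cr a b| then (1:ℝ) else 0)
        = if b ∈ Gc ∧ 3 * κ < |∑ i : {i // i ∈ I1}, (h * ((τ a i).1 : ℝ)) * rq i.1 b|
          then 1 else 0
      rw [hsum]
      simp only [ha, true_and]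
    · rw [if_neg ha]
      show (if a ∈ Gr ∧ b ∈ Gc ∧ 3 * κ < |Cr a b| then (1:ℝ) else 0) = 0
      rw [if_neg (fun h => ha h.1)]
  have hGP : ∑ a, ∑ b, (G a b * P a b) ^ 2 ≤ δ * (m * n) := by
    have h1 : ∀ a b, (G a b * P a b) ^ 2 * (9 / 4 * κ ^ 2) ≤ E2 a b ^ 2 := by
      intro a b
      by_cases hcond : a ∈ Gr ∧ b ∈ Gc ∧ 3 * κ < |Cr a b|
      · rcases hP a b with h0 | h0
        · rw [h0, mul_zero]
          have := sq_nonneg (E2 a b)
          simpa using this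
        · have hG1 : G a b = 1 := if_pos hcond
          rw [hG1, h0]
          obtain ⟨ha, hb, h3⟩ := hcond
          have h4 := hDs a b
          rw [hDP a b h0] at h4
          have h5 := hdiff a ha b hb
          have h6 := abs_le_of_sq_le_sq (hE1b a ha b hb) hκ.le
          have h7 : |Cr a b| ≤ |C a b| + κ / 2 := by
            have : Cr a b = C a b - (C a b - Cr a b) := by ring
            rw [this]
            exact (abs_sub _ _).trans (by linarith)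
          have h8 : C a b = -(E1 a b) - E2 a b := by linarith
          have h9 : |C a b| ≤ κ + |E2 a b| := by
            rw [h8]
            refine (abs_sub _ _).trans ?_
            rw [abs_neg]
            have : |E1 a b| ≤ κ := h6
            linarith
          have h10 : 3 / 2 * κ ≤ |E2 a b| := by linarith
          have h11 : (3 / 2 * κ) ^ 2 ≤ |E2 a b| ^ 2 := by
            gcongr
          rw [sq_abs] at h11
          nlinarith
      · have hG0 : G a b = 0 := if_neg hcond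
        rw [hG0, zero_mul]
        have := sq_nonneg (E2 a b)
        simpa using this
    have h2 : (∑ a, ∑ b, (G a b * P a b) ^ 2) * (9 / 4 * κ ^ 2) ≤ ∑ a, ∑ b, E2 a b ^ 2 := by
      rw [Finset.sum_mul]
      refine Finset.sum_le_sum fun a _ => ?_
      rw [Finset.sum_mul]
      exact Finset.sum_le_sum fun b _ => h1 a b
    have h3 : (∑ a, ∑ b, (G a b * P a b) ^ 2) * (9 / 4 * κ ^ 2)
        ≤ (δ * (m * n)) * (9 / 4 * κ ^ 2) := by
      refine h2.trans (hE2f.trans ?_)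
      calc t' * B * (m * n) ≤ (9 / 4 * κ ^ 2 * δ) * (m * n) :=
            mul_le_mul_of_nonneg_right ht2 hmn.le
        _ = _ := by ring
    exact le_of_mul_le_mul_right h3 (by positivity)
  have hGε := hRP G hG01 hGrank hGP
  -- final sum
  have hent : ∀ a ∈ Gr, ∀ b ∈ Gc, D a b ^ 2
      ≤ 3 * (49 / 4 * κ ^ 2 + M ^ 2 * G a b ^ 2 + κ ^ 2 + E2 a b ^ 2) := by
    intro a ha b hb
    have hC2 : C a b ^ 2 ≤ 49 / 4 * κ ^ 2 + M ^ 2 * G a b ^ 2 := by
      by_cases hcond : 3 * κ < |Cr a b|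
      · have hG1 : G a b = 1 := if_pos ⟨ha, hb, hcond⟩
        rw [hG1]
        have := hCb a ha b hb
        nlinarith [sq_nonneg κ]
      · have hG0 : G a b = 0 := if_neg (fun h => hcond h.2.2)
        rw [hG0]
        have h5 := hdiff a ha b hb
        have h7 : |C a b| ≤ 7 / 2 * κ := by
          have : C a b = Cr a b + (C a b - Cr a b) := by ring
          rw [this]
          refine (abs_add_le _ _).trans ?_
          have := not_lt.1 hcond
          linarith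
        have h8 : |C a b| ^ 2 ≤ (7 / 2 * κ) ^ 2 := by gcongr
        rw [sq_abs] at h8
        nlinarith
    have h1 := hE1b a ha b hb
    rw [hDs]
    nlinarith [sq_nonneg (C a b - E1 a b), sq_nonneg (C a b - E2 a b),
      sq_nonneg (E1 a b - E2 a b)]
  have hfin : ∑ a ∈ Gr, ∑ b ∈ Gc, D a b ^ 2
      ≤ ∑ a, ∑ b, 3 * (49 / 4 * κ ^ 2 + M ^ 2 * G a b ^ 2 + κ ^ 2 + E2 a b ^ 2) := by
    have hnn : ∀ a b, 0 ≤ 3 * (49 / 4 * κ ^ 2 + M ^ 2 * G a b ^ 2 + κ ^ 2 + E2 a b ^ 2) := by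
      intro a b; positivity
    calc ∑ a ∈ Gr, ∑ b ∈ Gc, D a b ^ 2
        ≤ ∑ a ∈ Gr, ∑ b ∈ Gc, 3 * (49 / 4 * κ ^ 2 + M ^ 2 * G a b ^ 2 + κ ^ 2 + E2 a b ^ 2) :=
          Finset.sum_le_sum fun a ha => Finset.sum_le_sum fun b hb => hent a ha b hb
      _ ≤ ∑ a ∈ Gr, ∑ b, 3 * (49 / 4 * κ ^ 2 + M ^ 2 * G a b ^ 2 + κ ^ 2 + E2 a b ^ 2) :=
          Finset.sum_le_sum fun a _ => Finset.sum_le_sum_of_subset_of_nonneg
            (Finset.subset_univ _) fun b _ _ => hnn a b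
      _ ≤ _ := Finset.sum_le_sum_of_subset_of_nonneg (Finset.subset_univ _)
            fun a _ _ => Finset.sum_nonneg fun b _ => hnn a b
  refine hfin.trans ?_
  have e : ∑ a, ∑ b, 3 * (49 / 4 * κ ^ 2 + M ^ 2 * G a b ^ 2 + κ ^ 2 + E2 a b ^ 2)
      = 3 * (53 / 4 * κ ^ 2) * (m * n) + 3 * M ^ 2 * (∑ a, ∑ b, G a b ^ 2)
        + 3 * ∑ a, ∑ b, E2 a b ^ 2 := by
    have e1 : ∀ a b, 3 * (49 / 4 * κ ^ 2 + M ^ 2 * G a b ^ 2 + κ ^ 2 + E2 a b ^ 2)
        = 3 * (53 / 4 * κ ^ 2) + 3 * M ^ 2 * G a b ^ 2 + 3 * E2 a b ^ 2 := by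
      intro a b; ring
    simp_rw [e1, Finset.sum_add_distrib, ← Finset.mul_sum]
    simp only [Finset.sum_const, Finset.card_univ, Fintype.card_fin, nsmul_eq_mul]
    ring
  rw [e]
  have h1 : M ^ 2 * ∑ a, ∑ b, G a b ^ 2 ≤ κ ^ 2 * (m * n) := by
    calc M ^ 2 * ∑ a, ∑ b, G a b ^ 2 ≤ M ^ 2 * (ε * (m * n)) :=
          mul_le_mul_of_nonneg_left hGε (sq_nonneg _)
      _ = (M ^ 2 * ε) * (m * n) := by ring
      _ ≤ κ ^ 2 * (m * n) := mul_le_mul_of_nonneg_right hε hmn.le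
  have h2 : ∑ a, ∑ b, E2 a b ^ 2 ≤ κ ^ 2 * (m * n) :=
    hE2f.trans (mul_le_mul_of_nonneg_right ht1 hmn.le)
  nlinarith [mul_pos (pow_pos hκ 2) hmn]

end Pool.Agent.Q297.Nuc
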