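import Pool.Agent.Q297.NucBasic

/-!
Definitions for MP_afaa81: stable recovery and nuclear norm minimisers.
-/

open Matrix Finset Filter

namespace Pool.Agent.Q297.Nuc

/-- The normalized Frobenius norm `(1/(mn) ∑ a_{ij}^2)^{1/2}`. -/
noncomputable def nF {m n : ℕ} (A : Matrix (Fin m) (Fin n) ℝ) : ℝ :=
  Real.sqrt ((1 / ((m : ℝ) * n)) * ∑ a, ∑ b, A a b ^ 2)

/-- Binary matrices. -/
def IsBinary {m n : ℕ} (P : Matrix (Fin m) (Fin n) ℝ) : Prop := ∀ a b, P a b = 0 ∨ P a b = 1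

/-- The sequence of binary matrices `P k` admits stable recovery of low rank matrices. -/
def StableRecovery (m n : ℕ → ℕ) (P : ∀ k, Matrix (Fin (m k)) (Fin (n k)) ℝ) : Prop :=
  ∀ (K : ℕ) (L ε : ℝ), 0 < K → 0 < L → 0 < ε → ∃ δ > 0,
    ∀ A B : ∀ k, Matrix (Fin (m k)) (Fin (n k)) ℝ,
      (∀ k, (A k).rank ≤ K ∧ (B k).rank ≤ K) →
      (∀ k a b, |A k a b| ≤ L ∧ |B k a b| ≤ L) →
      limsup (fun k => nF ((A k - B k) ⊙ P k)) atTop ≤ δ →
      limsup (fun k => nF (A k - B k)) atTop ≤ ε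

/-- `X` is a nuclear norm minimiser for `(A, P)`: it minimises the nuclear norm over all
matrices with the same revealed entries as `A` (no bound on the entries is imposed). -/
def IsNucMin {m n : ℕ} (A P X : Matrix (Fin m) (Fin n) ℝ) : Prop :=
  X ⊙ P = A ⊙ P ∧ ∀ Y : Matrix (Fin m) (Fin n) ℝ, Y ⊙ P = A ⊙ P → nuc X ≤ nuc Y

end Pool.Agent.Q297.Nuc
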