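import Pool.Agent.Q297.NucCore

/-!
From the estimate on a large product set to the whole matrix, using minimality.
-/

open Matrix Finset

namespace Pool.Agent.Q297.Nuc

variable {m n : ℕ}

lemma cs2 (f g : Fin m → Fin n → ℝ) :
    (∑ a, ∑ b, f a b * g a b) ^ 2 ≤ (∑ a, ∑ b, f a b ^ 2) * (∑ a, ∑ b, g a b ^ 2) := by
  have h := Finset.sum_mul_sq_le_sq_mul_sq (univ : Finset (Fin m × Fin n))
    (fun x => f x.1 x.2) (fun x => g x.1 x.2)
  simp only [Fintype.sum_prod_type] at h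
  exact h

lemma pinch_rows (X W1 : Matrix (Fin m) (Fin n) ℝ) (hW1 : IsContr W1) (S : Finset (Fin m))
    (hsup : ∀ a, a ∉ S → ∀ b, W1 a b = 0) :
    (ip X W1) ^ 2 + ∑ a ∈ Sᶜ, ∑ b, X a b ^ 2 ≤ (nuc X) ^ 2 := by
  classical
  set x := ip X W1 with hx
  set z2 := ∑ a ∈ Sᶜ, ∑ b, X a b ^ 2 with hz2
  have hz0 : 0 ≤ z2 := Finset.sum_nonneg fun a _ => Finset.sum_nonneg fun b _ => sq_nonneg _
  rcases eq_or_lt_of_le (show 0 ≤ x ^ 2 + z2 by positivity) with h0 | hpos
  · rw [← h0]; positivity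
  set r := Real.sqrt (x ^ 2 + z2) with hr
  have hrpos : 0 < r := Real.sqrt_pos.2 hpos
  have hr2 : r ^ 2 = x ^ 2 + z2 := Real.sq_sqrt hpos.le
  let Z : Matrix (Fin m) (Fin n) ℝ := fun a b => if a ∈ S then 0 else X a b
  let W' : Matrix (Fin m) (Fin n) ℝ := fun a b => r⁻¹ * (x * W1 a b + Z a b)
  have hWy : ∀ (y : Fin n → ℝ) (a : Fin m), (W' *ᵥ y) a
      = r⁻¹ * (x * (W1 *ᵥ y) a + ∑ b, Z a b * y b) := by
    intro y a
    show ∑ b, W' a b * y b = r⁻¹ * (x * (∑ b, W1 a b * y b) + ∑ b, Z a b * y b)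
    rw [Finset.mul_sum, ← Finset.sum_add_distrib, Finset.mul_sum]
    refine Finset.sum_congr rfl fun b _ => ?_
    simp only [W']
    ring
  have hcontr : IsContr W' := by
    intro y
    have hY0 : 0 ≤ ∑ b, y b ^ 2 := Finset.sum_nonneg fun b _ => sq_nonneg _
    have h1 : ∀ a, (W' *ᵥ y) a ^ 2 ≤ (r⁻¹) ^ 2 * (x ^ 2 * (W1 *ᵥ y) a ^ 2
        + (if a ∈ S then 0 else (∑ b, X a b ^ 2)) * ∑ b, y b ^ 2) := by
      intro a
      rw [hWy, mul_pow]
      refine mul_le_mul_of_nonneg_left ?_ (sq_nonneg _)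
      by_cases ha : a ∈ S
      · have h2 : ∑ b, Z a b * y b = 0 := by
          refine Finset.sum_eq_zero fun b _ => ?_
          simp only [Z, ha, if_true, zero_mul]
        rw [h2, if_pos ha, add_zero, zero_mul, add_zero, mul_pow]
      · have h2 : (W1 *ᵥ y) a = 0 := by
          show ∑ b, W1 a b * y b = 0
          refine Finset.sum_eq_zero fun b _ => ?_
          rw [hsup a ha b, zero_mul]
        have h3 : ∑ b, Z a b * y b = ∑ b, X a b * y b := by
          refine Finset.sum_congr rfl fun b _ => ?_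
          simp only [Z, ha, if_false]
        rw [h2, h3, if_neg ha, mul_zero, zero_add]
        have := Finset.sum_mul_sq_le_sq_mul_sq univ (fun b => X a b) y
        simpa using this
    calc ∑ a, (W' *ᵥ y) a ^ 2
        ≤ ∑ a, (r⁻¹) ^ 2 * (x ^ 2 * (W1 *ᵥ y) a ^ 2
          + (if a ∈ S then 0 else (∑ b, X a b ^ 2)) * ∑ b, y b ^ 2) :=
          Finset.sum_le_sum fun a _ => h1 a
      _ = (r⁻¹) ^ 2 * (x ^ 2 * (∑ a, (W1 *ᵥ y) a ^ 2) + z2 * ∑ b, y b ^ 2) := by
          rw [← Finset.mul_sum, Finset.sum_add_distrib, ← Finset.mul_sum, ← Finset.sum_mul]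
          congr 3
          rw [hz2]
          have : ∀ a, (if a ∈ S then (0:ℝ) else (∑ b, X a b ^ 2))
              = if a ∈ Sᶜ then (∑ b, X a b ^ 2) else 0 := by
            intro a
            by_cases ha : a ∈ S <;> simp [ha]
          simp_rw [this]
          rw [Finset.sum_ite_mem, Finset.univ_inter]
      _ ≤ (r⁻¹) ^ 2 * (x ^ 2 * (∑ b, y b ^ 2) + z2 * ∑ b, y b ^ 2) := by
          have := hW1 y
          gcongr
      _ = (r⁻¹) ^ 2 * r ^ 2 * ∑ b, y b ^ 2 := by rw [hr2]; ring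
      _ = ∑ b, y b ^ 2 := by
          rw [← mul_pow, inv_mul_cancel₀ hrpos.ne', one_pow, one_mul]
  have hip : ip X W' = r := by
    have h1 : ip X W' = r⁻¹ * (x * ip X W1 + ∑ a, ∑ b, X a b * Z a b) := by
      unfold ip
      rw [Finset.mul_sum, ← Finset.sum_add_distrib, Finset.mul_sum]
      refine Finset.sum_congr rfl fun a _ => ?_
      rw [Finset.mul_sum, ← Finset.sum_add_distrib, Finset.mul_sum]
      refine Finset.sum_congr rfl fun b _ => ?_
      simp only [W']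
      ring
    have h2 : ∑ a, ∑ b, X a b * Z a b = z2 := by
      rw [hz2]
      have : ∀ a, ∑ b, X a b * Z a b = if a ∈ Sᶜ then (∑ b, X a b ^ 2) else 0 := by
        intro a
        by_cases ha : a ∈ S
        · simp [Z, ha]
        · simp [Z, ha, sq]
      simp_rw [this]
      rw [Finset.sum_ite_mem, Finset.univ_inter]
    rw [h1, h2, ← hx]
    have : x * x + z2 = r ^ 2 := by rw [hr2]; ring
    rw [this]
    field_simp
  have h5 := ip_le_nuc X W' hcontr
  rw [hip] at h5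
  rw [← hr2]
  gcongr

lemma pinch_cols (X W1 : Matrix (Fin m) (Fin n) ℝ) (hW1 : IsContr W1) (S : Finset (Fin n))
    (hsup : ∀ a, ∀ b, b ∉ S → W1 a b = 0) :
    (ip X W1) ^ 2 + ∑ a, ∑ b ∈ Sᶜ, X a b ^ 2 ≤ (nuc X) ^ 2 := by
  classical
  set x := ip X W1 with hx
  set z2 := ∑ a, ∑ b ∈ Sᶜ, X a b ^ 2 with hz2
  have hz0 : 0 ≤ z2 := Finset.sum_nonneg fun a _ => Finset.sum_nonneg fun b _ => sq_nonneg _
  rcases eq_or_lt_of_le (show 0 ≤ x ^ 2 + z2 by positivity) with h0 | hpos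
  · rw [← h0]; positivity
  set r := Real.sqrt (x ^ 2 + z2) with hr
  have hrpos : 0 < r := Real.sqrt_pos.2 hpos
  have hr2 : r ^ 2 = x ^ 2 + z2 := Real.sq_sqrt hpos.le
  let Z : Matrix (Fin m) (Fin n) ℝ := fun a b => if b ∈ S then 0 else X a b
  let W' : Matrix (Fin m) (Fin n) ℝ := fun a b => r⁻¹ * (x * W1 a b + Z a b)
  have hcontr : IsContr W' := by
    intro y
    set y1 : Fin n → ℝ := fun b => if b ∈ S then y b else 0 with hy1
    set y2 : Fin n → ℝ := fun b => if b ∈ S then 0 else y b with hy2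
    have hYsum : ∑ b, y b ^ 2 = ∑ b, y1 b ^ 2 + ∑ b, y2 b ^ 2 := by
      rw [← Finset.sum_add_distrib]
      refine Finset.sum_congr rfl fun b _ => ?_
      by_cases hb : b ∈ S <;> simp [hy1, hy2, hb]
    set Y1 := ∑ b, y1 b ^ 2 with hY1
    set Y2 := ∑ b, y2 b ^ 2 with hY2
    have hY10 : 0 ≤ Y1 := Finset.sum_nonneg fun b _ => sq_nonneg _
    have hY20 : 0 ≤ Y2 := Finset.sum_nonneg fun b _ => sq_nonneg _
    set α : Fin m → ℝ := fun a => (W1 *ᵥ y1) a with hα
    set γ : Fin m → ℝ := fun a => ∑ b, Z a b * y2 b with hγ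
    have hWy : ∀ a : Fin m, (W' *ᵥ y) a = r⁻¹ * (x * α a + γ a) := by
      intro a
      show ∑ b, W' a b * y b = r⁻¹ * (x * (∑ b, W1 a b * y1 b) + ∑ b, Z a b * y2 b)
      rw [Finset.mul_sum, ← Finset.sum_add_distrib, Finset.mul_sum]
      refine Finset.sum_congr rfl fun b _ => ?_
      by_cases hb : b ∈ S
      · simp only [W', Z, hy1, hy2, hb, if_true]
        ring
      · simp only [W', Z, hy1, hy2, hb, if_false, hsup a b hb]
        ring
    have hα2 : ∑ a, α a ^ 2 ≤ Y1 := hW1 y1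
    have hγ2 : ∑ a, γ a ^ 2 ≤ z2 * Y2 := by
      have h1 : ∀ a, γ a ^ 2 ≤ (∑ b ∈ Sᶜ, X a b ^ 2) * Y2 := by
        intro a
        have h2 := Finset.sum_mul_sq_le_sq_mul_sq univ (fun b => Z a b) y2
        have h3 : ∑ b, Z a b ^ 2 = ∑ b ∈ Sᶜ, X a b ^ 2 := by
          have : ∀ b, Z a b ^ 2 = if b ∈ Sᶜ then X a b ^ 2 else 0 := by
            intro b
            by_cases hb : b ∈ S <;> simp [Z, hb]
          simp_rw [this]
          rw [Finset.sum_ite_mem, Finset.univ_inter]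
        rw [h3] at h2
        exact h2
      calc ∑ a, γ a ^ 2 ≤ ∑ a, (∑ b ∈ Sᶜ, X a b ^ 2) * Y2 := Finset.sum_le_sum fun a _ => h1 a
        _ = z2 * Y2 := by rw [← Finset.sum_mul]
    have hcross : 2 * x * ∑ a, α a * γ a ≤ x ^ 2 * Y2 + z2 * Y1 := by
      have h1 : (∑ a, α a * γ a) ^ 2 ≤ Y1 * (z2 * Y2) :=
        (Finset.sum_mul_sq_le_sq_mul_sq _ _ _).trans
          (mul_le_mul hα2 hγ2 (Finset.sum_nonneg fun a _ => sq_nonneg _) hY10)
      have h2 : (2 * x * ∑ a, α a * γ a) ^ 2 ≤ (x ^ 2 * Y2 + z2 * Y1) ^ 2 := by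
        calc (2 * x * ∑ a, α a * γ a) ^ 2 = 4 * x ^ 2 * (∑ a, α a * γ a) ^ 2 := by ring
          _ ≤ 4 * x ^ 2 * (Y1 * (z2 * Y2)) := by gcongr
          _ ≤ (x ^ 2 * Y2 + z2 * Y1) ^ 2 := by nlinarith [sq_nonneg (x ^ 2 * Y2 - z2 * Y1)]
      exact (le_abs_self _).trans (abs_le_of_sq_le_sq h2 (by positivity))
    have hsum : ∑ a, (x * α a + γ a) ^ 2 ≤ r ^ 2 * (Y1 + Y2) := by
      have h1 : ∑ a, (x * α a + γ a) ^ 2
          = x ^ 2 * ∑ a, α a ^ 2 + 2 * x * ∑ a, α a * γ a + ∑ a, γ a ^ 2 := by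
        rw [Finset.mul_sum, Finset.mul_sum, ← Finset.sum_add_distrib, ← Finset.sum_add_distrib]
        exact Finset.sum_congr rfl fun a _ => by ring
      rw [h1, hr2]
      have h2 : x ^ 2 * ∑ a, α a ^ 2 ≤ x ^ 2 * Y1 := by gcongr
      nlinarith
    calc ∑ a, (W' *ᵥ y) a ^ 2 = (r⁻¹) ^ 2 * ∑ a, (x * α a + γ a) ^ 2 := by
          rw [Finset.mul_sum]
          refine Finset.sum_congr rfl fun a _ => ?_
          rw [hWy, mul_pow]
      _ ≤ (r⁻¹) ^ 2 * (r ^ 2 * (Y1 + Y2)) := by gcongr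
      _ = Y1 + Y2 := by
          rw [← mul_assoc, ← mul_pow, inv_mul_cancel₀ hrpos.ne', one_pow, one_mul]
      _ = ∑ b, y b ^ 2 := hYsum.symm
  have hip : ip X W' = r := by
    have h1 : ip X W' = r⁻¹ * (x * ip X W1 + ∑ a, ∑ b, X a b * Z a b) := by
      unfold ip
      rw [Finset.mul_sum, ← Finset.sum_add_distrib, Finset.mul_sum]
      refine Finset.sum_congr rfl fun a _ => ?_
      rw [Finset.mul_sum, ← Finset.sum_add_distrib, Finset.mul_sum]
      refine Finset.sum_congr rfl fun b _ => ?_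
      simp only [W']
      ring
    have h2 : ∑ a, ∑ b, X a b * Z a b = z2 := by
      rw [hz2]
      refine Finset.sum_congr rfl fun a _ => ?_
      have : ∀ b, X a b * Z a b = if b ∈ Sᶜ then X a b ^ 2 else 0 := by
        intro b
        by_cases hb : b ∈ S
        · simp [Z, hb]
        · simp [Z, hb, sq]
      simp_rw [this]
      rw [Finset.sum_ite_mem, Finset.univ_inter]
    rw [h1, h2, ← hx]
    have : x * x + z2 = r ^ 2 := by rw [hr2]; ring
    rw [this]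
    field_simp
  have h5 := ip_le_nuc X W' hcontr
  rw [hip] at h5
  rw [← hr2]
  gcongr

lemma nuc_le_of_bound {A : Matrix (Fin m) (Fin n) ℝ} {K : ℕ} {L : ℝ} (hL : 0 ≤ L)
    (hrank : A.rank ≤ K) (hA : ∀ a b, |A a b| ≤ L) :
    nuc A ≤ Real.sqrt K * L * Real.sqrt (m * n) := by
  obtain ⟨W, hW, hip, hWF⟩ := exists_cert A
  have h1 := cs2 (fun a b => A a b) (fun a b => W a b)
  have h2 : ∑ a, ∑ b, A a b ^ 2 ≤ L ^ 2 * (m * n) := by
    calc ∑ a, ∑ b, A a b ^ 2 ≤ ∑ a : Fin m, ∑ b : Fin n, L ^ 2 :=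
          Finset.sum_le_sum fun a _ => Finset.sum_le_sum fun b _ => by
            rw [← sq_abs]; exact pow_le_pow_left₀ (abs_nonneg _) (hA a b) 2
      _ = L ^ 2 * (m * n) := by
          simp only [Finset.sum_const, Finset.card_univ, Fintype.card_fin, nsmul_eq_mul]
          ring
  have h3 : ∑ a, ∑ b, W a b ^ 2 ≤ K := hWF.trans (by exact_mod_cast hrank)
  have h4 : (nuc A) ^ 2 ≤ (Real.sqrt K * L * Real.sqrt (m * n)) ^ 2 := by
    rw [mul_pow, mul_pow, Real.sq_sqrt (Nat.cast_nonneg K),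
      Real.sq_sqrt (by positivity)]
    rw [← hip]
    calc (ip A W) ^ 2 ≤ (∑ a, ∑ b, A a b ^ 2) * (∑ a, ∑ b, W a b ^ 2) := h1
      _ ≤ (L ^ 2 * (m * n)) * K :=
          mul_le_mul h2 h3 (Finset.sum_nonneg fun a _ => Finset.sum_nonneg fun b _ => sq_nonneg _)
            (by positivity)
      _ = _ := by ring
  exact abs_le_of_sq_le_sq h4 (by positivity) |> (le_abs_self _).trans

lemma restrict_contr {W : Matrix (Fin m) (Fin n) ℝ} (hW : IsContr W) (Gr : Finset (Fin m))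
    (Gc : Finset (Fin n)) :
    IsContr (fun a b => if a ∈ Gr ∧ b ∈ Gc then W a b else 0) := by
  classical
  intro y
  set y1 : Fin n → ℝ := fun b => if b ∈ Gc then y b else 0 with hy1
  have h1 : ∀ a, ((fun a b => if a ∈ Gr ∧ b ∈ Gc then W a b else 0 :
      Matrix (Fin m) (Fin n) ℝ) *ᵥ y) a ^ 2 ≤ (W *ᵥ y1) a ^ 2 := by
    intro a
    by_cases ha : a ∈ Gr
    · apply le_of_eq
      congr 1
      show ∑ b, (if a ∈ Gr ∧ b ∈ Gc then W a b else 0) * y b = ∑ b, W a b * y1 b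
      refine Finset.sum_congr rfl fun b _ => ?_
      by_cases hb : b ∈ Gc <;> simp [hy1, ha, hb]
    · have : ((fun a b => if a ∈ Gr ∧ b ∈ Gc then W a b else 0 :
          Matrix (Fin m) (Fin n) ℝ) *ᵥ y) a = 0 := by
        show ∑ b, (if a ∈ Gr ∧ b ∈ Gc then W a b else 0) * y b = 0
        refine Finset.sum_eq_zero fun b _ => ?_
        simp [ha]
      rw [this, zero_pow two_ne_zero]
      positivity
  calc _ ≤ ∑ a, (W *ᵥ y1) a ^ 2 := Finset.sum_le_sum fun a _ => h1 a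
    _ ≤ ∑ b, y1 b ^ 2 := hW y1
    _ ≤ ∑ b, y b ^ 2 := by
        refine Finset.sum_le_sum fun b _ => ?_
        by_cases hb : b ∈ Gc
        · simp [hy1, hb]
        · have := sq_nonneg (y b)
          simpa [hy1, hb] using this

lemma endgame (hm : 0 < m) (hn : 0 < n) (A X : Matrix (Fin m) (Fin n) ℝ) {K : ℕ} {L : ℝ}
    (hL : 0 ≤ L) (hrank : A.rank ≤ K) (hA : ∀ a b, |A a b| ≤ L) (hmin : nuc X ≤ nuc A)
    (Gr : Finset (Fin m)) (Gc : Finset (Fin n)) {β γ : ℝ} (hβ : 0 ≤ β) (hγ : 0 ≤ γ)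
    (hr : (Grᶜ.card : ℝ) ≤ β * m) (hc : (Gcᶜ.card : ℝ) ≤ β * n)
    (hD : ∑ a ∈ Gr, ∑ b ∈ Gc, (X a b - A a b) ^ 2 ≤ γ ^ 2 * (m * n)) :
    ∑ a, ∑ b, (X a b - A a b) ^ 2
      ≤ (γ ^ 2 + 8 * (Real.sqrt K * (L * Real.sqrt (2 * β) + γ)) * (Real.sqrt K * L)
          + 4 * β * L ^ 2) * (m * n) := by
  classical
  have hm' : (0:ℝ) < m := by exact_mod_cast hm
  have hn' : (0:ℝ) < n := by exact_mod_cast hn
  set V : ℝ := m * n with hV
  have hVpos : 0 < V := mul_pos hm' hn'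
  obtain ⟨W, hW, hip, hWF⟩ := exists_cert A
  have hWK : ∑ a, ∑ b, W a b ^ 2 ≤ K := hWF.trans (by exact_mod_cast hrank)
  have hWK0 : 0 ≤ ∑ a, ∑ b, W a b ^ 2 :=
    Finset.sum_nonneg fun a _ => Finset.sum_nonneg fun b _ => sq_nonneg _
  set W1 : Matrix (Fin m) (Fin n) ℝ := fun a b => if a ∈ Gr ∧ b ∈ Gc then W a b else 0 with hW1
  have hW1c : IsContr W1 := restrict_contr hW Gr Gc
  -- indicator of the bad set
  set bad : Fin m → Fin n → ℝ := fun a b => if a ∈ Gr ∧ b ∈ Gc then 0 else 1 with hbad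
  have hbadcount : ∑ a, ∑ b, bad a b ≤ 2 * β * V := by
    have h1 : ∀ a b, bad a b ≤ (if a ∈ Grᶜ then 1 else 0) + (if b ∈ Gcᶜ then (1:ℝ) else 0) := by
      intro a b
      simp only [hbad]
      by_cases ha : a ∈ Gr <;> by_cases hb : b ∈ Gc <;> simp [ha, hb]
    calc ∑ a, ∑ b, bad a b
        ≤ ∑ a, ∑ b, ((if a ∈ Grᶜ then 1 else 0) + (if b ∈ Gcᶜ then (1:ℝ) else 0)) :=
          Finset.sum_le_sum fun a _ => Finset.sum_le_sum fun b _ => h1 a b
      _ = Grᶜ.card * n + m * Gcᶜ.card := by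
          simp_rw [Finset.sum_add_distrib]
          simp only [Finset.sum_const, Finset.card_univ, Fintype.card_fin, nsmul_eq_mul,
            Finset.sum_ite_mem, Finset.univ_inter, mul_one]
          rw [← Finset.mul_sum]
          simp only [Finset.sum_ite_mem, Finset.univ_inter, Finset.sum_const, nsmul_eq_mul,
            mul_one]
          ring
      _ ≤ (β * m) * n + m * (β * n) := by gcongr
      _ = 2 * β * V := by rw [hV]; ring
  have hAbad : ∑ a, ∑ b, (A a b * bad a b) ^ 2 ≤ L ^ 2 * (2 * β * V) := by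
    calc ∑ a, ∑ b, (A a b * bad a b) ^ 2 ≤ ∑ a, ∑ b, L ^ 2 * bad a b := by
          refine Finset.sum_le_sum fun a _ => Finset.sum_le_sum fun b _ => ?_
          have h1 : A a b ^ 2 ≤ L ^ 2 := by
            rw [← sq_abs]; exact pow_le_pow_left₀ (abs_nonneg _) (hA a b) 2
          by_cases h : a ∈ Gr ∧ b ∈ Gc
          · simp [hbad, h]
          · simp only [hbad, h, if_false]; linarith
      _ = L ^ 2 * ∑ a, ∑ b, bad a b := by simp_rw [← Finset.mul_sum]
      _ ≤ L ^ 2 * (2 * β * V) := by gcongr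
  -- lower bound for ip X W1
  set ζ : ℝ := Real.sqrt K * (L * Real.sqrt (2 * β) + γ) with hζ
  have hζ0 : 0 ≤ ζ := by positivity
  have hx : nuc A - ζ * Real.sqrt V ≤ ip X W1 := by
    have e : ip X W1 = ip A W - (∑ a, ∑ b, (A a b * bad a b) * W a b)
        + ∑ a, ∑ b, ((X a b - A a b) * (1 - bad a b)) * W a b := by
      unfold ip
      rw [← Finset.sum_sub_distrib, ← Finset.sum_add_distrib]
      refine Finset.sum_congr rfl fun a _ => ?_
      rw [← Finset.sum_sub_distrib, ← Finset.sum_add_distrib]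
      refine Finset.sum_congr rfl fun b _ => ?_
      by_cases h : a ∈ Gr ∧ b ∈ Gc
      · have e1 : W1 a b = W a b := if_pos h
        have e2 : bad a b = 0 := if_pos h
        rw [e1, e2]
        ring
      · have e1 : W1 a b = 0 := if_neg h
        have e2 : bad a b = 1 := if_neg h
        rw [e1, e2]
        ring
    have h1 : |∑ a, ∑ b, (A a b * bad a b) * W a b|
        ≤ Real.sqrt K * (L * Real.sqrt (2 * β)) * Real.sqrt V := by
      apply abs_le_of_sq_le_sq _ (by positivity)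
      have h2 := cs2 (fun a b => A a b * bad a b) (fun a b => W a b)
      rw [mul_pow, mul_pow, mul_pow, Real.sq_sqrt (Nat.cast_nonneg K),
        Real.sq_sqrt (by positivity), Real.sq_sqrt hVpos.le]
      calc _ ≤ (∑ a, ∑ b, (A a b * bad a b) ^ 2) * (∑ a, ∑ b, W a b ^ 2) := h2
        _ ≤ (L ^ 2 * (2 * β * V)) * K := mul_le_mul hAbad hWK hWK0 (by positivity)
        _ = _ := by ring
    have hDsum : ∑ a, ∑ b, ((X a b - A a b) * (1 - bad a b)) ^ 2 ≤ γ ^ 2 * V := by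
      have h3 : ∑ a, ∑ b, ((X a b - A a b) * (1 - bad a b)) ^ 2
          = ∑ a ∈ Gr, ∑ b ∈ Gc, (X a b - A a b) ^ 2 := by
        have h4 : ∀ a, ∑ b, ((X a b - A a b) * (1 - bad a b)) ^ 2
            = if a ∈ Gr then ∑ b ∈ Gc, (X a b - A a b) ^ 2 else 0 := by
          intro a
          by_cases ha : a ∈ Gr
          · rw [if_pos ha]
            have h5 : ∀ b, ((X a b - A a b) * (1 - bad a b)) ^ 2
                = if b ∈ Gc then (X a b - A a b) ^ 2 else 0 := by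
              intro b
              by_cases hb : b ∈ Gc <;> simp [hbad, ha, hb]
            simp_rw [h5]
            rw [Finset.sum_ite_mem, Finset.univ_inter]
          · rw [if_neg ha]
            refine Finset.sum_eq_zero fun b _ => ?_
            simp [hbad, ha]
        simp_rw [h4]
        rw [Finset.sum_ite_mem, Finset.univ_inter]
      rw [h3]
      exact hD
    have h6 : |∑ a, ∑ b, ((X a b - A a b) * (1 - bad a b)) * W a b|
        ≤ Real.sqrt K * γ * Real.sqrt V := by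
      apply abs_le_of_sq_le_sq _ (by positivity)
      have h2 := cs2 (fun a b => (X a b - A a b) * (1 - bad a b)) (fun a b => W a b)
      rw [mul_pow, mul_pow, Real.sq_sqrt (Nat.cast_nonneg K), Real.sq_sqrt hVpos.le]
      calc _ ≤ (∑ a, ∑ b, ((X a b - A a b) * (1 - bad a b)) ^ 2) * (∑ a, ∑ b, W a b ^ 2) := h2
        _ ≤ (γ ^ 2 * V) * K := mul_le_mul hDsum hWK hWK0 (by positivity)
        _ = _ := by ring
    have h7 := (abs_le.1 h1).2
    have h8 := (abs_le.1 h6).1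
    rw [e, hip, hζ]
    nlinarith
  -- nuclear norm bound
  have hN : nuc A ≤ Real.sqrt K * L * Real.sqrt V := nuc_le_of_bound hL hrank hA
  have hNA0 := nuc_nonneg A
  have hsqV : Real.sqrt V * Real.sqrt V = V := Real.mul_self_sqrt hVpos.le
  have hgap : (nuc X) ^ 2 - (ip X W1) ^ 2 ≤ 2 * ζ * (Real.sqrt K * L) * V := by
    have h1 : (nuc X) ^ 2 ≤ (nuc A) ^ 2 := pow_le_pow_left₀ (nuc_nonneg X) hmin 2
    have h2 : (nuc A) ^ 2 - (ip X W1) ^ 2 ≤ 2 * (ζ * Real.sqrt V) * nuc A := by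
      have hz' : 0 ≤ ζ * Real.sqrt V := by positivity
      by_cases h3 : 0 ≤ nuc A - ζ * Real.sqrt V
      · have h4 : (nuc A - ζ * Real.sqrt V) ^ 2 ≤ (ip X W1) ^ 2 := pow_le_pow_left₀ h3 hx 2
        nlinarith [sq_nonneg (ζ * Real.sqrt V)]
      · have h5 := not_le.1 h3
        nlinarith [sq_nonneg (ip X W1)]
    have h6 : 2 * (ζ * Real.sqrt V) * nuc A
        ≤ 2 * (ζ * Real.sqrt V) * (Real.sqrt K * L * Real.sqrt V) := by
      gcongr
    have h7 : 2 * (ζ * Real.sqrt V) * (Real.sqrt K * L * Real.sqrt V)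
        = 2 * ζ * (Real.sqrt K * L) * V := by
      calc _ = 2 * ζ * (Real.sqrt K * L) * (Real.sqrt V * Real.sqrt V) := by ring
        _ = _ := by rw [hsqV]
    linarith
  have hrows := pinch_rows X W1 hW1c Gr (fun a ha b => by simp [hW1, ha])
  have hcols := pinch_cols X W1 hW1c Gc (fun a b hb => by simp [hW1, hb])
  -- final
  have hXbad : ∑ a, ∑ b, X a b ^ 2 * bad a b ≤ 4 * ζ * (Real.sqrt K * L) * V := by
    have h1 : ∑ a, ∑ b, X a b ^ 2 * bad a b
        ≤ ∑ a ∈ Grᶜ, ∑ b, X a b ^ 2 + ∑ a, ∑ b ∈ Gcᶜ, X a b ^ 2 := by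
      have h2 : ∑ a ∈ Grᶜ, ∑ b, X a b ^ 2 = ∑ a, ∑ b, (if a ∈ Grᶜ then X a b ^ 2 else 0) := by
        have : ∀ a, ∑ b, (if a ∈ Grᶜ then X a b ^ 2 else 0)
            = if a ∈ Grᶜ then ∑ b, X a b ^ 2 else 0 := by
          intro a
          by_cases ha : a ∈ Grᶜ
          · simp only [ha, if_true]
          · simp only [ha, if_false, Finset.sum_const_zero]
        simp_rw [this]
        rw [Finset.sum_ite_mem, Finset.univ_inter]
      have h3 : ∑ a, ∑ b ∈ Gcᶜ, X a b ^ 2 = ∑ a, ∑ b, (if b ∈ Gcᶜ then X a b ^ 2 else 0) := by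
        refine Finset.sum_congr rfl fun a _ => ?_
        rw [Finset.sum_ite_mem, Finset.univ_inter]
      rw [h2, h3, ← Finset.sum_add_distrib]
      refine Finset.sum_le_sum fun a _ => ?_
      rw [← Finset.sum_add_distrib]
      refine Finset.sum_le_sum fun b _ => ?_
      have h4 := sq_nonneg (X a b)
      by_cases ha : a ∈ Gr <;> by_cases hb : b ∈ Gc <;> simp [hbad, ha, hb]
      exact h4
    linarith
  have hsplit : ∑ a, ∑ b, (X a b - A a b) ^ 2
      ≤ ∑ a ∈ Gr, ∑ b ∈ Gc, (X a b - A a b) ^ 2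
        + 2 * (∑ a, ∑ b, X a b ^ 2 * bad a b) + 2 * (∑ a, ∑ b, (A a b * bad a b) ^ 2) := by
    have h3 : ∑ a ∈ Gr, ∑ b ∈ Gc, (X a b - A a b) ^ 2
        = ∑ a, ∑ b, (X a b - A a b) ^ 2 * (1 - bad a b) := by
      have h4 : ∀ a, ∑ b, (X a b - A a b) ^ 2 * (1 - bad a b)
          = if a ∈ Gr then ∑ b ∈ Gc, (X a b - A a b) ^ 2 else 0 := by
        intro a
        by_cases ha : a ∈ Gr
        · rw [if_pos ha]
          have h5 : ∀ b, (X a b - A a b) ^ 2 * (1 - bad a b)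
              = if b ∈ Gc then (X a b - A a b) ^ 2 else 0 := by
            intro b
            by_cases hb : b ∈ Gc <;> simp [hbad, ha, hb]
          simp_rw [h5]
          rw [Finset.sum_ite_mem, Finset.univ_inter]
        · rw [if_neg ha]
          refine Finset.sum_eq_zero fun b _ => ?_
          simp [hbad, ha]
      simp_rw [h4]
      rw [Finset.sum_ite_mem, Finset.univ_inter]
    rw [h3, Finset.mul_sum, Finset.mul_sum, ← Finset.sum_add_distrib, ← Finset.sum_add_distrib]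
    refine Finset.sum_le_sum fun a _ => ?_
    rw [Finset.mul_sum, Finset.mul_sum, ← Finset.sum_add_distrib, ← Finset.sum_add_distrib]
    refine Finset.sum_le_sum fun b _ => ?_
    by_cases h : a ∈ Gr ∧ b ∈ Gc
    · have e2 : bad a b = 0 := if_pos h
      rw [e2]
      nlinarith
    · have e2 : bad a b = 1 := if_neg h
      rw [e2]
      nlinarith [sq_nonneg (X a b + A a b)]
  calc ∑ a, ∑ b, (X a b - A a b) ^ 2
      ≤ γ ^ 2 * V + 2 * (4 * ζ * (Real.sqrt K * L) * V) + 2 * (L ^ 2 * (2 * β * V)) := by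
        linarith
    _ = (γ ^ 2 + 8 * ζ * (Real.sqrt K * L) + 4 * β * L ^ 2) * V := by ring

end Pool.Agent.Q297.Nuc
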