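import Pool.Agent.Q297.NucEnd
import Pool.Agent.Q297.NucDefs

/-!
Universal recovery by unconstrained nuclear norm minimisation.
-/

open Matrix Finset Filter Topology

namespace Pool.Agent.Q297.Nuc

lemma nF_le_iff {m n : ℕ} (hm : 0 < m) (hn : 0 < n) (A : Matrix (Fin m) (Fin n) ℝ) {c : ℝ}
    (hc : 0 ≤ c) : nF A ≤ c ↔ ∑ a, ∑ b, A a b ^ 2 ≤ c ^ 2 * (m * n) := by
  have hm' : (0:ℝ) < m := by exact_mod_cast hm
  have hn' : (0:ℝ) < n := by exact_mod_cast hn
  have hmn : (0:ℝ) < m * n := mul_pos hm' hn'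
  unfold nF
  rw [Real.sqrt_le_left hc, one_div, inv_mul_le_iff₀ hmn]
  constructor <;> intro h <;> linarith

lemma nF_nonneg {m n : ℕ} (A : Matrix (Fin m) (Fin n) ℝ) : 0 ≤ nF A := Real.sqrt_nonneg _

lemma nF_zero {m n : ℕ} : nF (0 : Matrix (Fin m) (Fin n) ℝ) = 0 := by
  unfold nF
  simp

lemma nF_01 {m n : ℕ} (G : Matrix (Fin m) (Fin n) ℝ) (hG : ∀ a b, G a b = 0 ∨ G a b = 1) :
    nF G ≤ 1 := by
  unfold nF
  refine Real.sqrt_le_one.2 ?_
  have h1 : ∑ a, ∑ b, G a b ^ 2 ≤ (m:ℝ) * n := by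
    calc ∑ a, ∑ b, G a b ^ 2 ≤ ∑ a : Fin m, ∑ b : Fin n, (1:ℝ) := by
          refine Finset.sum_le_sum fun a _ => Finset.sum_le_sum fun b _ => ?_
          rcases hG a b with h | h <;> rw [h] <;> norm_num
      _ = m * n := by simp
  have h0 : (0:ℝ) ≤ m * n := by positivity
  rcases eq_or_lt_of_le h0 with h | h
  · rw [← h]; simp
  · rw [one_div, inv_mul_le_iff₀ h, mul_one]
    exact h1

lemma uniform {m n : ℕ → ℕ} {P : ∀ k, Matrix (Fin (m k)) (Fin (n k)) ℝ}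
    (hstab : StableRecovery m n P) (Q : ℕ) {ε' : ℝ} (hε' : 0 < ε') :
    ∃ δ : ℝ, 0 < δ ∧ ∃ k0 : ℕ, ∀ k ≥ k0, ∀ G : Matrix (Fin (m k)) (Fin (n k)) ℝ,
      (∀ a b, G a b = 0 ∨ G a b = 1) → G.rank ≤ Q → nF (G ⊙ P k) ≤ δ → nF G ≤ ε' := by
  classical
  obtain ⟨δ, hδ, H⟩ := hstab (max Q 1) 1 (ε' / 2) (by positivity) one_pos (by positivity)
  refine ⟨δ, hδ, ?_⟩
  by_contra hcon
  push Not at hcon
  let bad : ∀ k, Matrix (Fin (m k)) (Fin (n k)) ℝ → Prop := fun k G =>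
    (∀ a b, G a b = 0 ∨ G a b = 1) ∧ G.rank ≤ Q ∧ nF (G ⊙ P k) ≤ δ ∧ ε' < nF G
  let A : ∀ k, Matrix (Fin (m k)) (Fin (n k)) ℝ := fun k =>
    if h : ∃ G, bad k G then h.choose else 0
  have hA01 : ∀ k a b, A k a b = 0 ∨ A k a b = 1 := by
    intro k a b
    by_cases h : ∃ G, bad k G
    · have e : A k = h.choose := dif_pos h
      rw [e]; exact h.choose_spec.1 a b
    · have e : A k = 0 := dif_neg h
      rw [e]; exact Or.inl rfl
  have hAδ : ∀ k, nF (A k ⊙ P k) ≤ δ := by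
    intro k
    by_cases h : ∃ G, bad k G
    · have e : A k = h.choose := dif_pos h
      rw [e]; exact h.choose_spec.2.2.1
    · have e : A k = 0 := dif_neg h
      rw [e, Matrix.zero_hadamard, nF_zero]; exact hδ.le
  have hArank : ∀ k, (A k).rank ≤ max Q 1 := by
    intro k
    by_cases h : ∃ G, bad k G
    · have e : A k = h.choose := dif_pos h
      rw [e]; exact h.choose_spec.2.1.trans (le_max_left _ _)
    · have e : A k = 0 := dif_neg h
      rw [e, Matrix.rank_zero]; exact Nat.zero_le _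
  have hH := H A (fun _ => 0) (fun k => ⟨hArank k, by rw [Matrix.rank_zero]; exact Nat.zero_le _⟩)
    (fun k a b => ⟨by rcases hA01 k a b with h | h <;> rw [h] <;> norm_num, by simp⟩)
  simp only [sub_zero] at hH
  have hlim1 : limsup (fun k => nF (A k ⊙ P k)) atTop ≤ δ := by
    refine limsup_le_of_le ?_ (Eventually.of_forall hAδ)
    exact isCoboundedUnder_le_of_le atTop (x := 0) (fun k => nF_nonneg _)
  have h1 := hH hlim1
  have hfreq : ∃ᶠ k in atTop, ε' ≤ nF (A k) := by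
    rw [frequently_atTop]
    intro k0
    obtain ⟨k, hk, G, hG1, hG2, hG3, hG4⟩ := hcon k0
    refine ⟨k, hk, ?_⟩
    have h : ∃ G, bad k G := ⟨G, hG1, hG2, hG3, hG4⟩
    have e : A k = h.choose := dif_pos h
    rw [e]; exact h.choose_spec.2.2.2.le
  have h2 : ε' ≤ limsup (fun k => nF (A k)) atTop := by
    refine le_limsup_of_frequently_le hfreq ?_
    exact isBoundedUnder_of ⟨1, fun k => nF_01 _ (hA01 k)⟩
  linarith

lemma exists_block {n : ℕ} (s : Fin n → ℝ) (hs : ∀ i, 0 ≤ s i) (T : ℕ → ℝ)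
    (hT : Antitone T) {J : ℕ} {c : ℝ} (hJ : ∑ i, s i < J * c) :
    ∃ j < J, ∑ i ∈ univ.filter (fun i => T (j+1) < s i ∧ s i ≤ T j), s i ≤ c := by
  by_contra hcon
  push Not at hcon
  have h1 : ∑ j ∈ Finset.range J, c
      ≤ ∑ j ∈ Finset.range J, ∑ i ∈ univ.filter (fun i => T (j+1) < s i ∧ s i ≤ T j), s i :=
    Finset.sum_le_sum fun j hj => (hcon j (Finset.mem_range.1 hj)).le
  rw [Finset.sum_const, Finset.card_range, nsmul_eq_mul] at h1
  have h2 : ∑ j ∈ Finset.range J, ∑ i ∈ univ.filter (fun i => T (j+1) < s i ∧ s i ≤ T j), s i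
      ≤ ∑ i, s i := by
    simp_rw [Finset.sum_filter]
    rw [Finset.sum_comm]
    refine Finset.sum_le_sum fun i _ => ?_
    rw [← Finset.sum_filter, Finset.sum_const, nsmul_eq_mul]
    have h3 : (Finset.filter (fun j => T (j+1) < s i ∧ s i ≤ T j) (Finset.range J)).card ≤ 1 := by
      rw [Finset.card_le_one]
      intro j hj j' hj'
      rw [Finset.mem_filter] at hj hj'
      by_contra hne
      rcases lt_or_gt_of_ne hne with h | h
      · have := hT (show j + 1 ≤ j' by omega)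
        linarith [hj.2.1, hj'.2.2]
      · have := hT (show j' + 1 ≤ j by omega)
        linarith [hj'.2.1, hj.2.2]
    have h4 : ((Finset.filter (fun j => T (j+1) < s i ∧ s i ≤ T j) (Finset.range J)).card : ℝ)
        ≤ 1 := by exact_mod_cast h3
    nlinarith [hs i]
  linarith

theorem main {m n : ℕ → ℕ} (hm : Tendsto m atTop atTop) (hn : Tendsto n atTop atTop)
    {P : ∀ k, Matrix (Fin (m k)) (Fin (n k)) ℝ} (hP : ∀ k, IsBinary (P k))
    (hstab : StableRecovery m n P) {A X : ∀ k, Matrix (Fin (m k)) (Fin (n k)) ℝ} {K : ℕ} {L : ℝ}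
    (hrank : ∀ k, (A k).rank ≤ K) (hA : ∀ k a b, |A k a b| ≤ L)
    (hX : ∀ k, IsNucMin (A k) (P k) (X k)) :
    Tendsto (fun k => nF (X k - A k)) atTop (𝓝 0) := by
  rw [Metric.tendsto_atTop]
  intro η hη
  -- constants
  set L1 : ℝ := |L| + 1 with hL1
  have hL1pos : 0 < L1 := by positivity
  have hA1 : ∀ k a b, |A k a b| ≤ L1 := fun k a b =>
    (hA k a b).trans ((le_abs_self L).trans (by linarith))
  set N : ℝ := Real.sqrt K * L1 with hN
  have hN0 : 0 ≤ N := by positivity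
  set B : ℝ := 2 * N + 1 with hB
  have hBpos : 0 < B := by positivity
  set C0 : ℝ := 49 + 8 * K * L1 * (2 * L1 + 7) + 8 * L1 ^ 2 with hC0
  have hC0pos : 0 < C0 := by positivity
  set g : ℝ := min 1 (η ^ 2 / (4 * C0)) with hg
  have hgpos : 0 < g := lt_min one_pos (by positivity)
  have hg1 : g ≤ 1 := min_le_left _ _
  have hgC : g * C0 ≤ η ^ 2 / 4 := by
    have : g ≤ η ^ 2 / (4 * C0) := min_le_right _ _
    calc g * C0 ≤ η ^ 2 / (4 * C0) * C0 := mul_le_mul_of_nonneg_right this hC0pos.le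
      _ = η ^ 2 / 4 := by field_simp
  set κ : ℝ := g ^ 2 with hκ
  have hκpos : 0 < κ := by positivity
  set M : ℝ := B / κ with hM
  have hMpos : 0 < M := by positivity
  set ε' : ℝ := κ / M with hε'
  have hε'pos : 0 < ε' := by positivity
  choose δ hδ k0 hk0 using fun Q : ℕ => uniform hstab Q hε'pos
  -- scale functions
  let R : ℝ → ℕ := fun t => ⌈B / t⌉₊
  let h : ℝ → ℝ := fun t => min 1 (κ / (2 * (R t + 1) * (2 * Real.sqrt M + 1)))
  let z : ℝ → ℕ := fun t => ⌈Real.sqrt M / h t + 1⌉₊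
  let Q : ℝ → ℕ := fun t => (2 * z t + 1) ^ R t
  have hh : ∀ t, 0 < h t := fun t => lt_min one_pos (by positivity)
  have hround : ∀ t, (R t : ℝ) * (h t * (2 * Real.sqrt M + h t)) ≤ κ / 2 := by
    intro t
    have h1 : h t ≤ 1 := min_le_left _ _
    have h2 : h t ≤ κ / (2 * (R t + 1) * (2 * Real.sqrt M + 1)) := min_le_right _ _
    have hs : 0 ≤ Real.sqrt M := Real.sqrt_nonneg _
    have hR0 : (0:ℝ) ≤ R t := Nat.cast_nonneg _
    have h0 := (hh t).le
    calc (R t : ℝ) * (h t * (2 * Real.sqrt M + h t))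
        ≤ (R t + 1) * (κ / (2 * (R t + 1) * (2 * Real.sqrt M + 1)) * (2 * Real.sqrt M + 1)) := by
          gcongr
          linarith
      _ = κ / 2 := by
          have h3 : (2 * Real.sqrt M + 1) ≠ 0 := by positivity
          have h4 : ((R t : ℝ) + 1) ≠ 0 := by positivity
          field_simp
  let step : ℝ → ℝ := fun t =>
    min t (min (κ ^ 2 / B) (9 / 4 * κ ^ 2 * (δ (Q t)) ^ 2 / B))
  let T : ℕ → ℝ := fun j => Nat.rec 1 (fun _ t => step t) j
  have hT0 : T 0 = 1 := rfl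
  have hTs : ∀ j, T (j+1) = step (T j) := fun j => rfl
  have hTpos : ∀ j, 0 < T j := by
    intro j
    induction j with
    | zero => rw [hT0]; exact one_pos
    | succ j ih =>
      rw [hTs]
      have := hδ (Q (T j))
      exact lt_min ih (lt_min (by positivity) (by positivity))
  have hTle : ∀ j, T (j+1) ≤ T j := fun j => by rw [hTs]; exact min_le_left _ _
  have hTanti : Antitone T := antitone_nat_of_succ_le hTle
  let J : ℕ := ⌈B / κ ^ 2⌉₊ + 1
  have hJ : B < J * κ ^ 2 := by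
    have h1 : B / κ ^ 2 ≤ ⌈B / κ ^ 2⌉₊ := Nat.le_ceil _
    have h2 : (0:ℝ) < κ ^ 2 := by positivity
    rw [div_le_iff₀ h2] at h1
    have h3 : (J : ℝ) = ⌈B / κ ^ 2⌉₊ + 1 := by simp only [J]; push_cast; ring
    rw [h3]
    linarith
  let k1 : ℕ := (Finset.range J).sup (fun j => k0 (Q (T j)))
  obtain ⟨km, hkm⟩ := Filter.eventually_atTop.1 (hm.eventually_gt_atTop 0)
  obtain ⟨kn, hkn⟩ := Filter.eventually_atTop.1 (hn.eventually_gt_atTop 0)
  refine ⟨max k1 (max km kn), fun k hk => ?_⟩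
  have hk1 : k1 ≤ k := (le_max_left _ _).trans hk
  have hmk : 0 < m k := hkm k ((le_max_left _ _).trans ((le_max_right _ _).trans hk))
  have hnk : 0 < n k := hkn k ((le_max_right _ _).trans ((le_max_right _ _).trans hk))
  have hm' : (0:ℝ) < m k := by exact_mod_cast hmk
  have hn' : (0:ℝ) < n k := by exact_mod_cast hnk
  have hmn : (0:ℝ) < m k * n k := mul_pos hm' hn'
  rw [Real.dist_eq, sub_zero, abs_of_nonneg (nF_nonneg _)]
  suffices hsuff : nF (X k - A k) ≤ η / 2 by linarith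
  rw [nF_le_iff hmk hnk _ (by positivity)]
  -- minimality
  have hmin : nuc (X k) ≤ nuc (A k) := (hX k).2 (A k) rfl
  have hnucA : nuc (A k) ≤ N * Real.sqrt (m k * n k) := nuc_le_of_bound hL1pos.le (hrank k) (hA1 k)
  obtain ⟨s, p, q, hs, hsum, hD, hp, hq, horth⟩ := decomp (X k - A k) hmk hnk
  have hsumB : ∑ i, s i ≤ B := by
    rw [hsum, div_le_iff₀ (Real.sqrt_pos.2 hmn)]
    have h1 := nuc_sub_le (X k) (A k)
    have h2 : 0 ≤ Real.sqrt (m k * n k) := Real.sqrt_nonneg _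
    calc nuc (X k - A k) ≤ 2 * (N * Real.sqrt (m k * n k)) := by linarith
      _ ≤ B * Real.sqrt (m k * n k) := by rw [hB]; nlinarith
  obtain ⟨j, hjJ, hblock⟩ := exists_block s hs T hTanti (lt_of_le_of_lt hsumB hJ)
  have hkj : k0 (Q (T j)) ≤ k :=
    (Finset.le_sup (f := fun j => k0 (Q (T j))) (Finset.mem_range.2 hjJ)).trans hk1
  have hDP : ∀ a b, P k a b = 1 → (X k - A k) a b = 0 := by
    intro a b hab
    have h1 := congrFun (congrFun (hX k).1 a) b
    rw [Matrix.hadamard_apply, Matrix.hadamard_apply, hab, mul_one, mul_one] at h1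
    rw [Matrix.sub_apply, h1, sub_self]
  have hRP : ∀ G : Matrix (Fin (m k)) (Fin (n k)) ℝ, (∀ a b, G a b = 0 ∨ G a b = 1) →
      G.rank ≤ Q (T j) →
      ∑ a, ∑ b, (G a b * P k a b) ^ 2 ≤ (δ (Q (T j))) ^ 2 * (m k * n k) →
      ∑ a, ∑ b, G a b ^ 2 ≤ ε' ^ 2 * (m k * n k) := by
    intro G hG01 hGr hGP
    have h1 := hk0 (Q (T j)) k hkj G hG01 hGr
    rw [nF_le_iff hmk hnk _ (hδ _).le, nF_le_iff hmk hnk _ hε'pos.le] at h1
    exact h1 hGP
  have hstep1 : T (j+1) ≤ κ ^ 2 / B := by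
    rw [hTs]; exact (min_le_right _ _).trans (min_le_left _ _)
  have hstep2 : T (j+1) ≤ 9 / 4 * κ ^ 2 * (δ (Q (T j))) ^ 2 / B := by
    rw [hTs]; exact (min_le_right _ _).trans (min_le_right _ _)
  have hMε : M ^ 2 * ε' ^ 2 ≤ κ ^ 2 := by
    apply le_of_eq
    rw [hε']
    field_simp
  obtain ⟨Gr, Gc, hGr, hGc, hgood⟩ := core hmk hnk (X k - A k) (P k) (hP k) hDP hs hD hp hq horth
    (B := B) (κ := κ) (M := M) (t := T j) (t' := T (j+1)) (h := h (T j)) (R := R (T j))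
    (z := z (T j)) (Q := Q (T j)) hsumB hκpos hMpos (hTpos (j+1)) (hTle j) (hh _) hblock
    (Nat.le_ceil _) (hround _) (Nat.le_ceil _) le_rfl hRP
    (by rw [le_div_iff₀ hBpos] at hstep1; exact hstep1)
    (by rw [le_div_iff₀ hBpos] at hstep2; exact hstep2) hMε
  have hβ : B / M + κ = 2 * κ := by
    rw [hM]
    field_simp
    ring
  rw [hβ] at hGr hGc
  have hgood' : ∑ a ∈ Gr, ∑ b ∈ Gc, (X k a b - A k a b) ^ 2 ≤ (7 * κ) ^ 2 * (m k * n k) := by
    have h1 : 46 * κ ^ 2 * ((m k : ℝ) * n k) ≤ (7 * κ) ^ 2 * (m k * n k) := by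
      apply mul_le_mul_of_nonneg_right _ hmn.le
      nlinarith [sq_nonneg κ]
    exact le_trans hgood h1
  have hend := endgame hmk hnk (A k) (X k) hL1pos.le (hrank k) (hA1 k) hmin Gr Gc
    (β := 2 * κ) (γ := 7 * κ) (by positivity) (by positivity) hGr hGc hgood'
  have hsqrt : Real.sqrt (2 * (2 * κ)) = 2 * g := by
    have : 2 * (2 * κ) = (2 * g) ^ 2 := by rw [hκ]; ring
    rw [this, Real.sqrt_sq (by positivity)]
  have hKK : Real.sqrt K * Real.sqrt K = K := Real.mul_self_sqrt (Nat.cast_nonneg K)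
  have hcoef : (7 * κ) ^ 2 + 8 * (Real.sqrt K * (L1 * Real.sqrt (2 * (2 * κ)) + 7 * κ)) *
      (Real.sqrt K * L1) + 4 * (2 * κ) * L1 ^ 2 ≤ (η / 2) ^ 2 := by
    rw [hsqrt]
    have e : (7 * κ) ^ 2 + 8 * (Real.sqrt K * (L1 * (2 * g) + 7 * κ)) * (Real.sqrt K * L1)
        + 4 * (2 * κ) * L1 ^ 2
        = 49 * κ ^ 2 + 8 * (Real.sqrt K * Real.sqrt K) * L1 * (2 * L1 * g + 7 * κ)
          + 8 * κ * L1 ^ 2 := by ring
    rw [e, hKK]
    have h1 : κ ≤ g := by rw [hκ]; nlinarith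
    have h2 : κ ^ 2 ≤ g := by nlinarith
    have hK0 : (0:ℝ) ≤ K := Nat.cast_nonneg K
    calc 49 * κ ^ 2 + 8 * K * L1 * (2 * L1 * g + 7 * κ) + 8 * κ * L1 ^ 2
        ≤ 49 * g + 8 * K * L1 * (2 * L1 * g + 7 * g) + 8 * g * L1 ^ 2 := by gcongr
      _ = g * C0 := by rw [hC0]; ring
      _ ≤ η ^ 2 / 4 := hgC
      _ = (η / 2) ^ 2 := by ring
  exact hend.trans (mul_le_mul_of_nonneg_right hcoef hmn.le)

end Pool.Agent.Q297.Nuc
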