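import Mathlib

/-!
Characters of the torus `(ℝ/ℤ)^3`, Fejér kernels and their `L¹` modulus of continuity.
-/

open MeasureTheory ProbabilityTheory Set Filter Topology
open scoped ENNReal NNReal ComplexConjugate

namespace Q297.Oc

/-- the flat torus -/
abbrev T3 := Fin 3 → UnitAddCircle

/-- the Haar probability measure -/
noncomputable def leb : Measure T3 := Measure.pi fun _ => AddCircle.haarAddCircle

instance : IsProbabilityMeasure leb := by unfold leb; infer_instance

instance : leb.IsAddHaarMeasure := by unfold leb; infer_instance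

/-- frequencies -/
abbrev Fr := Fin 3 → ℤ

/-- characters -/
noncomputable def e (p : Fr) (x : T3) : ℂ := ∏ i, fourier (p i) (x i)

@[fun_prop]
lemma e_cont (p : Fr) : Continuous (e p) := by unfold e; fun_prop

lemma e_zero (x : T3) : e 0 x = 1 := by simp [e]

lemma e_add (p q : Fr) (x : T3) : e (p + q) x = e p x * e q x := by
  simp only [e, Pi.add_apply, fourier_add, ← Finset.prod_mul_distrib]

lemma e_neg (p : Fr) (x : T3) : e (-p) x = conj (e p x) := by
  simp only [e, Pi.neg_apply, fourier_neg, map_prod]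

lemma e_at_zero (p : Fr) : e p 0 = 1 := by simp [e]

lemma e_add' (p : Fr) (x y : T3) : e p (x + y) = e p x * e p y := by
  simp only [e, Pi.add_apply, fourier_apply, smul_add, AddCircle.toCircle_add, Circle.coe_mul,
    ← Finset.prod_mul_distrib]

lemma e_norm (p : Fr) (x : T3) : ‖e p x‖ = 1 := by
  simp only [e, fourier_apply, norm_prod, Circle.norm_coe, Finset.prod_const_one]

lemma e_mul_conj (p : Fr) (x : T3) : e p x * conj (e p x) = 1 := by
  rw [Complex.mul_conj, Complex.normSq_eq_norm_sq, e_norm]; simp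

lemma e_neg' (p : Fr) (x : T3) : e p (-x) = conj (e p x) := by
  have h1 : e p (x + -x) = e p x * e p (-x) := e_add' p x (-x)
  rw [add_neg_cancel, e_at_zero] at h1
  have h2 := e_mul_conj p x
  have h3 : e p x ≠ 0 := by
    intro h; rw [h] at h2; simp at h2
  exact mul_left_cancel₀ h3 (h1.symm.trans h2.symm)

lemma e_sub' (p : Fr) (x y : T3) : e p (x - y) = e p x * conj (e p y) := by
  rw [sub_eq_add_neg, e_add', e_neg']

lemma e_sub (p q : Fr) (x : T3) : e (p - q) x = e p x * conj (e q x) := by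
  rw [sub_eq_add_neg, e_add, e_neg]

lemma four_int (n : ℤ) : ∫ x : UnitAddCircle, fourier n x ∂AddCircle.haarAddCircle =
    if n = 0 then 1 else 0 := by
  split_ifs with h
  · simp [h]
  · exact integral_eq_zero_of_add_right_eq_neg (μ := AddCircle.haarAddCircle)
      (fourier_add_half_inv_index h (by norm_num))

lemma e_int (p : Fr) : ∫ x, e p x ∂leb = if p = 0 then 1 else 0 := by
  unfold e leb
  rw [integral_fintype_prod_eq_prod (μ := fun _ => AddCircle.haarAddCircle)
    (f := fun i (x : UnitAddCircle) => (fourier (p i) x : ℂ))]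
  simp_rw [four_int]
  split_ifs with h
  · subst h; simp
  · obtain ⟨i, hi⟩ : ∃ i, p i ≠ 0 := by
      by_contra hc
      push Not at hc
      exact h (funext hc)
    exact Finset.prod_eq_zero (Finset.mem_univ i) (by simp [hi])

/-- continuous functions are integrable -/
lemma int_of_cont {E : Type*} [NormedAddCommGroup E] {f : T3 → E} (hf : Continuous f) :
    Integrable f leb :=
  hf.integrable_of_hasCompactSupport (HasCompactSupport.of_compactSpace _)

/-- Parseval for finite sums -/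
lemma parseval (s : Finset Fr) (c : Fr → ℂ) :
    ∫ x, ‖∑ j ∈ s, c j * e j x‖ ^ 2 ∂leb = ∑ j ∈ s, ‖c j‖ ^ 2 := by
  have h1 : ∀ x, ((‖∑ j ∈ s, c j * e j x‖ ^ 2 : ℝ) : ℂ) =
      ∑ j ∈ s, ∑ k ∈ s, c j * conj (c k) * e (j - k) x := by
    intro x
    have h2 : ((‖∑ j ∈ s, c j * e j x‖ ^ 2 : ℝ) : ℂ) =
        (∑ j ∈ s, c j * e j x) * conj (∑ j ∈ s, c j * e j x) := by
      rw [Complex.mul_conj, Complex.normSq_eq_norm_sq]
    rw [h2, map_sum, Finset.sum_mul_sum]
    refine Finset.sum_congr rfl fun j _ => Finset.sum_congr rfl fun k _ => ?_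
    rw [map_mul, e_sub]; ring
  have h3 : ((∫ x, ‖∑ j ∈ s, c j * e j x‖ ^ 2 ∂leb : ℝ) : ℂ) =
      ((∑ j ∈ s, ‖c j‖ ^ 2 : ℝ) : ℂ) := by
    rw [← integral_complex_ofReal]
    simp_rw [h1]
    rw [integral_finsetSum _ (fun j _ => int_of_cont (by fun_prop))]
    push_cast
    refine Finset.sum_congr rfl fun j hj => ?_
    rw [integral_finsetSum _ (fun k _ => int_of_cont (by fun_prop))]
    simp_rw [integral_const_mul, e_int, sub_eq_zero]
    simp only [mul_ite, mul_one, mul_zero]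
    rw [Finset.sum_ite_eq s j, if_pos hj, Complex.mul_conj, Complex.normSq_eq_norm_sq]
    push_cast; rfl
  exact_mod_cast h3

/-- cubes of frequencies -/
noncomputable def cube (N : ℕ) : Finset Fr := Fintype.piFinset fun _ => Finset.Ico (0 : ℤ) N

lemma card_cube (N : ℕ) : (cube N).card = N ^ 3 := by
  unfold cube
  rw [Fintype.card_piFinset]
  simp

/-- symmetric boxes of frequencies -/
noncomputable def box (N : ℕ) : Finset Fr := Fintype.piFinset fun _ => Finset.Icc (-(N : ℤ)) N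

/-- Dirichlet sums -/
noncomputable def D (N : ℕ) (x : T3) : ℂ := ∑ j ∈ cube N, e j x

@[fun_prop]
lemma D_cont (N : ℕ) : Continuous (D N) := by unfold D; fun_prop

/-- Fejér kernels -/
noncomputable def K (N : ℕ) (x : T3) : ℝ := ‖D N x‖ ^ 2 / (N : ℝ) ^ 3

@[fun_prop]
lemma K_cont (N : ℕ) : Continuous (K N) := by unfold K; fun_prop

lemma K_nonneg (N : ℕ) (x : T3) : 0 ≤ K N x := by unfold K; positivity

lemma int_D (N : ℕ) : ∫ x, ‖D N x‖ ^ 2 ∂leb = (N : ℝ) ^ 3 := by
  have := parseval (cube N) (fun _ => 1)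
  simp only [one_mul, norm_one, one_pow, Finset.sum_const, card_cube, nsmul_eq_mul, mul_one] at this
  unfold D
  rw [this]; push_cast; rfl

lemma int_K {N : ℕ} (hN : 0 < N) : ∫ x, K N x ∂leb = 1 := by
  unfold K
  rw [integral_div, int_D]
  exact div_self (by positivity)

/-- the `L¹` modulus of continuity of the Fejér kernel -/
lemma K_mod {N : ℕ} (hN : 0 < N) (h : T3) {δ : ℝ} (hδ : 0 < δ)
    (hh : ∀ j ∈ cube N, ‖e j h - 1‖ ≤ δ) : ∫ x, |K N (x + h) - K N x| ∂leb ≤ 2 * δ := by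
  have hN3 : (0 : ℝ) < (N : ℝ) ^ 3 := by positivity
  have h1 : ∫ x, ‖D N (x + h) - D N x‖ ^ 2 ∂leb ≤ (N : ℝ) ^ 3 * δ ^ 2 := by
    have h2 : ∀ x, D N (x + h) - D N x = ∑ j ∈ cube N, (e j h - 1) * e j x := by
      intro x
      unfold D
      rw [← Finset.sum_sub_distrib]
      refine Finset.sum_congr rfl fun j _ => ?_
      rw [e_add']; ring
    simp_rw [h2]
    rw [parseval]
    calc ∑ j ∈ cube N, ‖e j h - 1‖ ^ 2 ≤ ∑ _j ∈ cube N, δ ^ 2 :=
          Finset.sum_le_sum fun j hj => pow_le_pow_left₀ (norm_nonneg _) (hh j hj) 2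
      _ = (N : ℝ) ^ 3 * δ ^ 2 := by rw [Finset.sum_const, card_cube]; simp
  have h3 : ∫ x, ‖D N (x + h)‖ ^ 2 ∂leb = (N : ℝ) ^ 3 := by
    rw [integral_add_right_eq_self (fun x => ‖D N x‖ ^ 2) h, int_D]
  have h4 : ∀ x, |K N (x + h) - K N x| ≤
      (‖D N (x + h) - D N x‖ ^ 2 * δ⁻¹ + (‖D N (x + h)‖ ^ 2 + ‖D N x‖ ^ 2) * (δ / 2)) /
        (N : ℝ) ^ 3 := by
    intro x
    unfold K
    rw [← sub_div, abs_div, abs_of_pos hN3]
    refine div_le_div_of_nonneg_right ?_ hN3.le
    set a := ‖D N (x + h)‖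
    set b := ‖D N x‖
    set d := ‖D N (x + h) - D N x‖
    have hab : |a - b| ≤ d := abs_norm_sub_norm_le _ _
    have ha : 0 ≤ a := norm_nonneg _
    have hb : 0 ≤ b := norm_nonneg _
    have hd : 0 ≤ d := norm_nonneg _
    have h5 : |a ^ 2 - b ^ 2| ≤ d * (a + b) := by
      have : a ^ 2 - b ^ 2 = (a - b) * (a + b) := by ring
      rw [this, abs_mul, abs_of_nonneg (by positivity : 0 ≤ a + b)]
      exact mul_le_mul_of_nonneg_right hab (by positivity)
    have h6 : d * (a + b) ≤ d ^ 2 * δ⁻¹ + (a + b) ^ 2 * (δ / 4) := by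
      have h7 : 0 ≤ (d - (a + b) * (δ / 2)) ^ 2 * δ⁻¹ := by positivity
      have h8 : (d - (a + b) * (δ / 2)) ^ 2 * δ⁻¹ =
          d ^ 2 * δ⁻¹ - d * (a + b) + (a + b) ^ 2 * (δ / 4) := by
        field_simp
        ring
      linarith
    have h9 : (a + b) ^ 2 * (δ / 4) ≤ (a ^ 2 + b ^ 2) * (δ / 2) := by
      nlinarith [sq_nonneg (a - b)]
    linarith
  have hI : Integrable (fun x => (‖D N (x + h) - D N x‖ ^ 2 * δ⁻¹ +
      (‖D N (x + h)‖ ^ 2 + ‖D N x‖ ^ 2) * (δ / 2)) / (N : ℝ) ^ 3) leb := int_of_cont (by fun_prop)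
  calc ∫ x, |K N (x + h) - K N x| ∂leb ≤ ∫ x, (‖D N (x + h) - D N x‖ ^ 2 * δ⁻¹ +
      (‖D N (x + h)‖ ^ 2 + ‖D N x‖ ^ 2) * (δ / 2)) / (N : ℝ) ^ 3 ∂leb :=
        integral_mono (int_of_cont (by fun_prop)) hI h4
    _ = ((∫ x, ‖D N (x + h) - D N x‖ ^ 2 ∂leb) * δ⁻¹ +
        ((N : ℝ) ^ 3 + (N : ℝ) ^ 3) * (δ / 2)) / (N : ℝ) ^ 3 := by
        rw [integral_div, integral_add (int_of_cont (by fun_prop)) (int_of_cont (by fun_prop)),
          integral_mul_const, integral_mul_const,
          integral_add (int_of_cont (by fun_prop)) (int_of_cont (by fun_prop)), h3, int_D]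
    _ ≤ ((N : ℝ) ^ 3 * δ ^ 2 * δ⁻¹ + ((N : ℝ) ^ 3 + (N : ℝ) ^ 3) * (δ / 2)) / (N : ℝ) ^ 3 := by
        gcongr
    _ = 2 * δ := by field_simp; ring

/-! ### coefficients -/

/-- the coefficients of the Fejér kernel -/
noncomputable def w (N : ℕ) (m : Fr) : ℝ :=
  (((cube N ×ˢ cube N).filter fun q => q.1 - q.2 = m).card : ℝ) / (N : ℝ) ^ 3

lemma w_nonneg (N : ℕ) (m : Fr) : 0 ≤ w N m := by unfold w; positivity

lemma mem_cube {N : ℕ} {j : Fr} : j ∈ cube N ↔ ∀ i, 0 ≤ j i ∧ j i < N := by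
  simp [cube]

lemma mem_box {N : ℕ} {j : Fr} : j ∈ box N ↔ ∀ i, -(N : ℤ) ≤ j i ∧ j i ≤ N := by
  simp [box]

lemma sub_mem {N : ℕ} {j k : Fr} (hj : j ∈ cube N) (hk : k ∈ cube N) : j - k ∈ box N := by
  rw [mem_cube] at hj hk
  rw [mem_box]
  intro i
  have h1 := hj i
  have h2 := hk i
  simp only [Pi.sub_apply]
  omega

lemma w_zero_of_notMem {N : ℕ} {m : Fr} (hm : m ∉ box N) : w N m = 0 := by
  unfold w
  rw [Finset.card_eq_zero.2, Nat.cast_zero, zero_div]
  rw [Finset.filter_eq_empty_iff]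
  intro q hq h
  rw [Finset.mem_product] at hq
  exact hm (h ▸ sub_mem hq.1 hq.2)

lemma w_le_one {N : ℕ} (hN : 0 < N) (m : Fr) : w N m ≤ 1 := by
  unfold w
  rw [div_le_one (by positivity)]
  have : ((cube N ×ˢ cube N).filter fun q => q.1 - q.2 = m).card ≤ (cube N).card := by
    refine Finset.card_le_card_of_injOn (fun q => q.2) ?_ ?_
    · intro q hq
      simp only [Finset.coe_filter, Finset.mem_product, mem_ofPred_eq] at hq
      exact hq.1.2
    · intro q hq r hr h
      simp only [Finset.coe_filter, Finset.mem_product, mem_ofPred_eq] at hq hr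
      have h' : q.2 = r.2 := h
      refine Prod.ext ?_ h'
      rw [← sub_add_cancel q.1 q.2, ← sub_add_cancel r.1 r.2, hq.2, hr.2, h']
  rw [card_cube] at this
  exact_mod_cast this

lemma w_at_zero {N : ℕ} (hN : 0 < N) : w N 0 = 1 := by
  refine le_antisymm (w_le_one hN 0) ?_
  unfold w
  rw [le_div_iff₀ (by positivity), one_mul]
  have : (cube N).card ≤ ((cube N ×ˢ cube N).filter fun q => q.1 - q.2 = 0).card := by
    refine Finset.card_le_card_of_injOn (fun q => (q, q)) ?_ ?_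
    · intro q hq
      simp only [Finset.coe_filter, Finset.mem_product, mem_ofPred_eq, sub_self, and_true]
      exact ⟨hq, hq⟩
    · intro q _ r _ h
      exact (Prod.ext_iff.1 h).1
  rw [card_cube] at this
  exact_mod_cast this

lemma w_neg (N : ℕ) (m : Fr) : w N (-m) = w N m := by
  unfold w
  congr 2
  refine Finset.card_bij (fun q _ => (q.2, q.1)) ?_ ?_ ?_
  · intro q hq
    simp only [Finset.mem_filter, Finset.mem_product] at hq ⊢
    refine ⟨⟨hq.1.2, hq.1.1⟩, ?_⟩
    rw [← neg_sub, hq.2, neg_neg]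
  · intro q _ r _ h
    rw [Prod.ext_iff] at h ⊢
    exact ⟨h.2, h.1⟩
  · intro q hq
    simp only [Finset.mem_filter, Finset.mem_product] at hq
    refine ⟨(q.2, q.1), ?_, rfl⟩
    simp only [Finset.mem_filter, Finset.mem_product]
    refine ⟨⟨hq.1.2, hq.1.1⟩, ?_⟩
    rw [← neg_sub, hq.2]

lemma w_lower {L : ℕ} (hL : 0 < L) {m : Fr} (hm : ∀ i, 2 * (L : ℤ) ≤ m i ∧ m i < 3 * L) :
    1 / 64 ≤ w (4 * L) m := by
  unfold w
  rw [le_div_iff₀ (by positivity)]
  have : (cube L).card ≤ ((cube (4 * L) ×ˢ cube (4 * L)).filter fun q => q.1 - q.2 = m).card := by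
    refine Finset.card_le_card_of_injOn (fun q => (q + m, q)) ?_ ?_
    · intro q hq
      have hq' := mem_cube.1 (Finset.mem_coe.1 hq)
      simp only [Finset.coe_filter, Finset.mem_product, mem_ofPred_eq, add_sub_cancel_left, and_true]
      constructor
      · rw [mem_cube]
        intro i
        have h1 := hq' i
        have h2 := hm i
        simp only [Pi.add_apply]
        push_cast
        omega
      · rw [mem_cube]
        intro i
        have h1 := hq' i
        push_cast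
        omega
    · intro q _ r _ h
      exact (Prod.ext_iff.1 h).2
  rw [card_cube] at this
  have h2 : ((L : ℝ)) ^ 3 ≤
      (((cube (4 * L) ×ˢ cube (4 * L)).filter fun q => q.1 - q.2 = m).card : ℝ) := by
    exact_mod_cast this
  push_cast
  nlinarith

lemma w_upper {L : ℕ} {m : Fr} (hm : ∀ i, 2 * (L : ℤ) ≤ m i ∧ m i < 3 * L) :
    w (2 * L) m = 0 := by
  unfold w
  rw [Finset.card_eq_zero.2, Nat.cast_zero, zero_div]
  rw [Finset.filter_eq_empty_iff]
  intro q hq h
  rw [Finset.mem_product] at hq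
  have h1 := mem_cube.1 hq.1 0
  have h2 := mem_cube.1 hq.2 0
  have h3 := hm 0
  have h4 : q.1 0 - q.2 0 = m 0 := by rw [← h]; rfl
  push_cast at h1 h2
  omega

lemma K_exp {N : ℕ} (x : T3) {M : Finset Fr} (hM : box N ⊆ M) :
    (K N x : ℂ) = ∑ m ∈ M, (w N m : ℂ) * e m x := by
  have h2 : ((‖D N x‖ ^ 2 : ℝ) : ℂ) = D N x * conj (D N x) := by
    rw [Complex.mul_conj, Complex.normSq_eq_norm_sq]
  have h3 : D N x * conj (D N x) = ∑ q ∈ cube N ×ˢ cube N, e (q.1 - q.2) x := by
    unfold D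
    rw [map_sum, Finset.sum_mul_sum, Finset.sum_product]
    exact Finset.sum_congr rfl fun j _ => Finset.sum_congr rfl fun k _ => (e_sub j k x).symm
  have h4 : ∑ q ∈ cube N ×ˢ cube N, e (q.1 - q.2) x =
      ∑ m ∈ M, ∑ q ∈ (cube N ×ˢ cube N).filter (fun q => q.1 - q.2 = m), e (q.1 - q.2) x := by
    refine (Finset.sum_fiberwise_of_maps_to ?_ _).symm
    intro q hq
    rw [Finset.mem_product] at hq
    exact hM (sub_mem hq.1 hq.2)
  unfold K
  push_cast
  have h5 : ((‖D N x‖ : ℂ)) ^ 2 = ((‖D N x‖ ^ 2 : ℝ) : ℂ) := by push_cast; rfl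
  rw [h5, h2, h3, h4, Finset.sum_div]
  refine Finset.sum_congr rfl fun m _ => ?_
  have h6 : ∑ q ∈ (cube N ×ˢ cube N).filter (fun q => q.1 - q.2 = m), e (q.1 - q.2) x =
      ∑ _q ∈ (cube N ×ˢ cube N).filter (fun q => q.1 - q.2 = m), e m x :=
    Finset.sum_congr rfl fun q hq => by rw [(Finset.mem_filter.1 hq).2]
  rw [h6, Finset.sum_const, nsmul_eq_mul]
  unfold w
  push_cast
  ring

/-- the kernel at the scale `L` -/
noncomputable def ψ (L : ℕ) (x : T3) : ℝ := K (4 * L) x - K (2 * L) x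

@[fun_prop]
lemma ψ_cont (L : ℕ) : Continuous (ψ L) := by unfold ψ; fun_prop

/-- the coefficients of the kernel at the scale `L` -/
noncomputable def a (L : ℕ) (m : Fr) : ℝ := w (4 * L) m - w (2 * L) m

lemma box_mono {N M : ℕ} (h : N ≤ M) : box N ⊆ box M := by
  intro j hj
  rw [mem_box] at hj ⊢
  intro i
  have := hj i
  omega

lemma ψ_exp (L : ℕ) (x : T3) : (ψ L x : ℂ) = ∑ m ∈ box (4 * L), (a L m : ℂ) * e m x := by
  unfold ψ a
  push_cast
  rw [K_exp x (subset_refl _), K_exp x (box_mono (by omega : 2 * L ≤ 4 * L)),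
    ← Finset.sum_sub_distrib]
  exact Finset.sum_congr rfl fun m _ => by ring

lemma a_abs {L : ℕ} (hL : 0 < L) (m : Fr) : |a L m| ≤ 1 := by
  unfold a
  have h1 := w_nonneg (4 * L) m
  have h2 := w_nonneg (2 * L) m
  have h3 := w_le_one (by omega : 0 < 4 * L) m
  have h4 := w_le_one (by omega : 0 < 2 * L) m
  rw [abs_le]
  constructor <;> linarith

lemma a_zero {L : ℕ} (hL : 0 < L) : a L 0 = 0 := by
  unfold a
  rw [w_at_zero (by omega), w_at_zero (by omega), sub_self]

lemma a_neg (L : ℕ) (m : Fr) : a L (-m) = a L m := by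
  unfold a; rw [w_neg, w_neg]

lemma a_notMem {L : ℕ} {m : Fr} (hm : m ∉ box (4 * L)) : a L m = 0 := by
  unfold a
  rw [w_zero_of_notMem hm, w_zero_of_notMem (fun h => hm (box_mono (by omega) h)), sub_zero]

lemma a_lower {L : ℕ} (hL : 0 < L) {m : Fr} (hm : ∀ i, 2 * (L : ℤ) ≤ m i ∧ m i < 3 * L) :
    1 / 64 ≤ a L m := by
  unfold a
  rw [w_upper hm, sub_zero]
  exact w_lower hL hm

lemma ψ_l1 {L : ℕ} (hL : 0 < L) : ∫ x, |ψ L x| ∂leb ≤ 2 := by
  have h1 : ∀ x, |ψ L x| ≤ K (4 * L) x + K (2 * L) x := by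
    intro x
    unfold ψ
    have h1 := K_nonneg (4 * L) x
    have h2 := K_nonneg (2 * L) x
    rw [abs_le]
    constructor <;> linarith
  calc ∫ x, |ψ L x| ∂leb ≤ ∫ x, (K (4 * L) x + K (2 * L) x) ∂leb :=
        integral_mono (int_of_cont (by fun_prop)) (int_of_cont (by fun_prop)) h1
    _ = 2 := by
        rw [integral_add (int_of_cont (by fun_prop)) (int_of_cont (by fun_prop)),
          int_K (by omega), int_K (by omega)]
        norm_num

end Q297.Oc
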