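import Pool.Agent.Q297.OcA

/-!
The Hölder test function and the transport cost.
-/

open MeasureTheory ProbabilityTheory Set Filter Topology
open scoped ENNReal NNReal ComplexConjugate

namespace Q297.Oc

/-- the quotient Euclidean distance on the torus -/
noncomputable def tdist (x y : T3) : ℝ := Real.sqrt (∑ i, ‖x i - y i‖ ^ 2)

@[fun_prop]
lemma tdist_cont : Continuous (fun z : T3 × T3 => tdist z.1 z.2) := by unfold tdist; fun_prop

lemma tdist_nonneg (x y : T3) : 0 ≤ tdist x y := Real.sqrt_nonneg _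

lemma tdist_self (x : T3) : tdist x x = 0 := by simp [tdist]

lemma eq_of_tdist {x y : T3} (h : tdist x y = 0) : x = y := by
  unfold tdist at h
  rw [Real.sqrt_eq_zero (by positivity)] at h
  rw [Finset.sum_eq_zero_iff_of_nonneg (fun i _ => by positivity)] at h
  funext i
  have := h i (Finset.mem_univ i)
  rw [sq_eq_zero_iff, norm_eq_zero, sub_eq_zero] at this
  exact this

lemma four_sub (n : ℤ) (x : UnitAddCircle) :
    ‖fourier n x - 1‖ ≤ 2 * Real.pi * |(n : ℝ)| * ‖x‖ := by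
  obtain ⟨r0, rfl⟩ := QuotientAddGroup.mk_surjective x
  set r : ℝ := r0 - round r0 with hr
  have h1 : (QuotientAddGroup.mk r0 : UnitAddCircle) = (r : UnitAddCircle) := by
    rw [hr]
    have h2 : ((round r0 : ℤ) : ℝ) = (round r0 : ℤ) • (1 : ℝ) := by simp
    have h3 : (((round r0 : ℤ) : ℝ) : UnitAddCircle) = 0 := by
      rw [AddCircle.coe_eq_zero_iff]
      exact ⟨round r0, by simp⟩
    rw [AddCircle.coe_sub, h3, sub_zero]
  have h2 : ‖(QuotientAddGroup.mk r0 : UnitAddCircle)‖ = |r| := UnitAddCircle.norm_eq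
  rw [h2, h1, fourier_coe_apply]
  have h3 : (2 * Real.pi * Complex.I * n * r / ((1 : ℝ) : ℂ) : ℂ) =
      Complex.I * ((2 * Real.pi * n * r : ℝ) : ℂ) := by push_cast; ring
  rw [h3]
  refine Real.norm_exp_I_mul_ofReal_sub_one_le.trans ?_
  rw [Real.norm_eq_abs, abs_mul, abs_mul, abs_mul, abs_of_pos Real.pi_pos, abs_two]

lemma prod_sub_one {s : Finset (Fin 3)} (z : Fin 3 → ℂ) (hz : ∀ i, ‖z i‖ = 1) :
    ‖∏ i ∈ s, z i - 1‖ ≤ ∑ i ∈ s, ‖z i - 1‖ := by
  classical
  induction s using Finset.induction_on with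
  | empty => simp
  | insert i s hi ih =>
    rw [Finset.prod_insert hi, Finset.sum_insert hi]
    have h1 : z i * ∏ i ∈ s, z i - 1 = (z i - 1) * ∏ i ∈ s, z i + (∏ i ∈ s, z i - 1) := by ring
    rw [h1]
    refine (norm_add_le _ _).trans ?_
    rw [norm_mul, norm_prod, Finset.prod_congr rfl (fun j _ => hz j), Finset.prod_const_one, mul_one]
    linarith

lemma e_sub_one {N : ℕ} {j : Fr} (hj : j ∈ cube N) (x y : T3) :
    ‖e j (x - y) - 1‖ ≤ 13 * N * tdist x y := by
  have h1 : ‖e j (x - y) - 1‖ ≤ ∑ i, ‖(fourier (j i) ((x - y) i) : ℂ) - 1‖ := by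
    unfold e
    exact prod_sub_one (s := Finset.univ) _ (fun i => by
      rw [fourier_apply, Circle.norm_coe])
  have h2 : ∀ i, ‖(fourier (j i) ((x - y) i) : ℂ) - 1‖ ≤ 2 * Real.pi * N * ‖x i - y i‖ := by
    intro i
    refine (four_sub _ _).trans ?_
    have hji := mem_cube.1 hj i
    have h3 : |((j i : ℤ) : ℝ)| ≤ N := by
      rw [abs_of_nonneg (by exact_mod_cast hji.1)]
      exact_mod_cast hji.2.le
    rw [Pi.sub_apply]
    gcongr
  have h3 : (∑ i, ‖x i - y i‖) ≤ 2 * tdist x y := by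
    refine abs_le_of_sq_le_sq' ?_ (by have := tdist_nonneg x y; positivity) |>.2
    rw [mul_pow]
    unfold tdist
    rw [Real.sq_sqrt (by positivity)]
    simp only [Fin.sum_univ_three]
    nlinarith [sq_nonneg (‖x 0 - y 0‖ - ‖x 1 - y 1‖), sq_nonneg (‖x 0 - y 0‖ - ‖x 2 - y 2‖),
      sq_nonneg (‖x 1 - y 1‖ - ‖x 2 - y 2‖), sq_nonneg ‖x 0 - y 0‖, sq_nonneg ‖x 1 - y 1‖,
      sq_nonneg ‖x 2 - y 2‖]
  have hpi := Real.pi_lt_d2
  have hpi' := Real.pi_pos
  calc ‖e j (x - y) - 1‖ ≤ ∑ i, 2 * Real.pi * N * ‖x i - y i‖ :=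
        h1.trans (Finset.sum_le_sum fun i _ => h2 i)
    _ = 2 * Real.pi * N * ∑ i, ‖x i - y i‖ := by rw [Finset.mul_sum]
    _ ≤ 2 * Real.pi * N * (2 * tdist x y) := by gcongr
    _ = (4 * Real.pi) * (N * tdist x y) := by ring
    _ ≤ 13 * (N * tdist x y) := by
        have := tdist_nonneg x y
        have h4 : 4 * Real.pi ≤ 13 := by linarith
        gcongr
    _ = _ := by ring

lemma K_mod' {N : ℕ} (hN : 0 < N) (y y' : T3) :
    ∫ x, |K N (x - y) - K N (x - y')| ∂leb ≤ 26 * N * tdist y y' := by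
  rcases (tdist_nonneg y y').lt_or_eq with h | h
  · have h1 : ∫ x, |K N (x - y) - K N (x - y')| ∂leb =
        ∫ x, |K N (x + (y' - y)) - K N x| ∂leb := by
      rw [← integral_sub_right_eq_self (fun x => |K N (x + (y' - y)) - K N x|) y']
      refine integral_congr_ae (ae_of_all _ fun x => ?_)
      show |_| = |_|
      congr 3
      abel
    rw [h1]
    have hd : tdist y' y = tdist y y' := by
      unfold tdist; simp_rw [norm_sub_rev]
    refine (K_mod hN (y' - y) (δ := 13 * N * tdist y y') (by positivity) ?_).trans (by linarith)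
    intro j hj
    rw [← hd]
    exact e_sub_one hj y' y
  · have : y = y' := eq_of_tdist h.symm
    subst this
    simp [← h]

lemma ψ_mod {L : ℕ} (hL : 0 < L) (y y' : T3) :
    ∫ x, |ψ L (x - y) - ψ L (x - y')| ∂leb ≤ 156 * L * tdist y y' := by
  have h1 : ∀ x, |ψ L (x - y) - ψ L (x - y')| ≤ |K (4 * L) (x - y) - K (4 * L) (x - y')| +
      |K (2 * L) (x - y) - K (2 * L) (x - y')| := by
    intro x
    unfold ψ
    refine le_trans (le_of_eq ?_) (abs_sub _ _)
    congr 1
    ring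
  have h2 := K_mod' (by omega : 0 < 4 * L) y y'
  have h3 := K_mod' (by omega : 0 < 2 * L) y y'
  calc ∫ x, |ψ L (x - y) - ψ L (x - y')| ∂leb ≤ ∫ x, (|K (4 * L) (x - y) - K (4 * L) (x - y')| +
      |K (2 * L) (x - y) - K (2 * L) (x - y')|) ∂leb :=
        integral_mono (int_of_cont (by fun_prop)) (int_of_cont (by fun_prop)) h1
    _ = ∫ x, |K (4 * L) (x - y) - K (4 * L) (x - y')| ∂leb +
        ∫ x, |K (2 * L) (x - y) - K (2 * L) (x - y')| ∂leb :=
        integral_add (int_of_cont (by fun_prop)) (int_of_cont (by fun_prop))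
    _ ≤ _ := by push_cast at h2 h3; linarith

/-- the building blocks of the test function -/
noncomputable def g (s : ℕ → T3 → ℝ) (k : ℕ) (y : T3) : ℝ :=
  ∫ x, ψ (2 ^ k) (x - y) * s k x ∂leb

/-- the test function -/
noncomputable def f (s : ℕ → T3 → ℝ) (n : ℕ) (y : T3) : ℝ :=
  ∑ k ∈ Finset.range n, (√2)⁻¹ ^ k * g s k y

lemma int_mul {h : T3 → ℝ} (hh : Continuous h) {s : T3 → ℝ} (hs : Measurable s)
    (hs1 : ∀ x, |s x| ≤ 1) : Integrable (fun x => h x * s x) leb :=
  (int_of_cont hh).mul_bdd (c := 1) hs.aestronglyMeasurable (ae_of_all _ hs1)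

lemma g_mod {s : ℕ → T3 → ℝ} (hs : ∀ k, Measurable (s k)) (hs1 : ∀ k x, |s k x| ≤ 1) (k : ℕ)
    (y y' : T3) : |g s k y - g s k y'| ≤ 156 * min 1 (2 ^ k * tdist y y') := by
  have h1 : |g s k y - g s k y'| ≤ ∫ x, |ψ (2 ^ k) (x - y) - ψ (2 ^ k) (x - y')| ∂leb := by
    unfold g
    rw [← integral_sub (int_mul (by fun_prop) (hs k) (hs1 k)) (int_mul (by fun_prop) (hs k) (hs1 k))]
    refine (abs_integral_le_integral_abs).trans ?_
    have hcc : Continuous fun x => ψ (2 ^ k) (x - y) - ψ (2 ^ k) (x - y') := by fun_prop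
    refine integral_mono ?_ (int_of_cont hcc.abs) ?_
    · exact ((int_mul (by fun_prop) (hs k) (hs1 k)).sub
        (int_mul (by fun_prop) (hs k) (hs1 k))).abs
    · intro x
      show |_| ≤ |_|
      rw [← sub_mul, abs_mul]
      calc _ ≤ |ψ (2 ^ k) (x - y) - ψ (2 ^ k) (x - y')| * 1 := by gcongr; exact hs1 k x
        _ = _ := mul_one _
  have hpos : 0 < 2 ^ k := by positivity
  have h2 := ψ_mod hpos y y'
  have h3 : ∫ x, |ψ (2 ^ k) (x - y) - ψ (2 ^ k) (x - y')| ∂leb ≤ 4 := by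
    have hcc : Continuous fun x => ψ (2 ^ k) (x - y) - ψ (2 ^ k) (x - y') := by fun_prop
    calc _ ≤ ∫ x, (|ψ (2 ^ k) (x - y)| + |ψ (2 ^ k) (x - y')|) ∂leb :=
          integral_mono (int_of_cont hcc.abs) (int_of_cont (by fun_prop))
            (fun x => abs_sub _ _)
      _ = ∫ x, |ψ (2 ^ k) x| ∂leb + ∫ x, |ψ (2 ^ k) x| ∂leb := by
          rw [integral_add (int_of_cont (by fun_prop)) (int_of_cont (by fun_prop)),
            integral_sub_right_eq_self (fun x => |ψ (2 ^ k) x|) y,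
            integral_sub_right_eq_self (fun x => |ψ (2 ^ k) x|) y']
      _ ≤ 4 := by have := ψ_l1 hpos; linarith
  push_cast at h2
  rcases min_cases 1 (2 ^ k * tdist y y') with h | h
  · rw [h.1]; linarith
  · rw [h.1]; linarith

lemma tele {u : ℝ} (hu : 0 ≤ u) (d : ℝ) (hud : u ^ 2 = d) (hu0 : 0 < u) :
    u⁻¹ * min 1 d ≤ 16 * (√2 * u / (1 + √2 * u) - u / (1 + u)) := by
  have hr2 : (√2) ^ 2 = 2 := Real.sq_sqrt (by norm_num)
  have hr1 : 1.4 < √2 := by
    rw [show (1.4 : ℝ) = √(1.4 ^ 2) by rw [Real.sqrt_sq (by norm_num)]]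
    exact Real.sqrt_lt_sqrt (by norm_num) (by norm_num)
  have hr1' : √2 < 1.5 := by
    rw [show (1.5 : ℝ) = √(1.5 ^ 2) by rw [Real.sqrt_sq (by norm_num)]]
    exact Real.sqrt_lt_sqrt (by norm_num) (by norm_num)
  have h1 : √2 * u / (1 + √2 * u) - u / (1 + u) = (√2 - 1) * u / ((1 + u) * (1 + √2 * u)) := by
    field_simp
    ring
  have h2 : (1 : ℝ) / 4 * (u / (1 + u) ^ 2) ≤ (√2 - 1) * u / ((1 + u) * (1 + √2 * u)) := by
    rw [← mul_div_assoc, div_le_div_iff₀ (by positivity) (by positivity)]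
    have h3 : 1 / 4 * (1 + √2 * u) ≤ (√2 - 1) * (1 + u) := by nlinarith
    calc 1 / 4 * u * ((1 + u) * (1 + √2 * u)) = (1 / 4 * (1 + √2 * u)) * (u * (1 + u)) := by ring
      _ ≤ ((√2 - 1) * (1 + u)) * (u * (1 + u)) := by gcongr
      _ = _ := by ring
  have h3 : u⁻¹ * min 1 d ≤ 4 * (u / (1 + u) ^ 2) := by
    rw [← hud]
    rcases le_total 1 (u ^ 2) with h | h
    · rw [min_eq_left h, mul_one, inv_eq_one_div, ← mul_div_assoc,
        div_le_div_iff₀ hu0 (by positivity)]
      have : 1 ≤ u := by nlinarith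
      nlinarith
    · rw [min_eq_right h, ← mul_div_assoc]
      have h4 : u⁻¹ * u ^ 2 = u := by field_simp
      rw [h4, le_div_iff₀ (by positivity)]
      have : u ≤ 1 := by nlinarith
      nlinarith [mul_nonneg hu hu]
  rw [h1]
  linarith

lemma sum_tele {d : ℝ} (hd : 0 ≤ d) (n : ℕ) :
    ∑ k ∈ Finset.range n, (√2)⁻¹ ^ k * min 1 (2 ^ k * d) ≤ 16 * √d := by
  rcases hd.lt_or_eq with hd | hd
  · have hsd : 0 < √d := Real.sqrt_pos.2 hd
    have h1 : ∀ k : ℕ, (√2)⁻¹ ^ k * min 1 (2 ^ k * d) ≤ √d * (16 * ((√2) ^ (k + 1) * √d /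
        (1 + (√2) ^ (k + 1) * √d) - (√2) ^ k * √d / (1 + (√2) ^ k * √d))) := by
      intro k
      have h2 := tele (u := (√2) ^ k * √d) (by positivity) (2 ^ k * d)
        (by rw [mul_pow, Real.sq_sqrt hd.le, ← pow_mul, mul_comm k 2, pow_mul,
          Real.sq_sqrt (by norm_num)]) (by positivity)
      have h3 : (√2) ^ (k + 1) * √d = √2 * ((√2) ^ k * √d) := by ring
      rw [h3]
      have h4 : (√2)⁻¹ ^ k * min 1 (2 ^ k * d) =
          √d * (((√2) ^ k * √d)⁻¹ * min 1 (2 ^ k * d)) := by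
        rw [mul_inv, inv_pow]
        field_simp
      rw [h4]
      exact mul_le_mul_of_nonneg_left h2 hsd.le
    calc _ ≤ ∑ k ∈ Finset.range n, √d * (16 * ((√2) ^ (k + 1) * √d /
        (1 + (√2) ^ (k + 1) * √d) - (√2) ^ k * √d / (1 + (√2) ^ k * √d))) :=
          Finset.sum_le_sum fun k _ => h1 k
      _ = √d * (16 * ((√2) ^ n * √d / (1 + (√2) ^ n * √d) -
          (√2) ^ 0 * √d / (1 + (√2) ^ 0 * √d))) := by
          rw [← Finset.mul_sum, ← Finset.mul_sum,
            Finset.sum_range_sub (fun k => (√2) ^ k * √d / (1 + (√2) ^ k * √d))]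
      _ ≤ √d * (16 * 1) := by
          have h5 : (√2) ^ n * √d / (1 + (√2) ^ n * √d) ≤ 1 := by
            rw [div_le_one (by positivity)]; linarith
          have h6 : 0 ≤ (√2) ^ 0 * √d / (1 + (√2) ^ 0 * √d) := by positivity
          gcongr
          linarith
      _ = _ := by ring
  · rw [← hd]
    simp

/-- the test function is Hölder with an absolute constant -/
lemma f_holder {s : ℕ → T3 → ℝ} (hs : ∀ k, Measurable (s k)) (hs1 : ∀ k x, |s k x| ≤ 1) (n : ℕ)
    (y y' : T3) : |f s n y - f s n y'| ≤ 2496 * √(tdist y y') := by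
  unfold f
  rw [← Finset.sum_sub_distrib]
  calc _ ≤ ∑ k ∈ Finset.range n, |(√2)⁻¹ ^ k * g s k y - (√2)⁻¹ ^ k * g s k y'| :=
        Finset.abs_sum_le_sum_abs _ _
    _ ≤ ∑ k ∈ Finset.range n, 156 * ((√2)⁻¹ ^ k * min 1 (2 ^ k * tdist y y')) := by
        refine Finset.sum_le_sum fun k _ => ?_
        have h1 := g_mod hs hs1 k y y'
        generalize g s k y = u at h1 ⊢
        generalize g s k y' = v at h1 ⊢
        generalize min 1 (2 ^ k * tdist y y') = q at h1 ⊢
        have h2 : (0 : ℝ) ≤ (√2)⁻¹ ^ k := by positivity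
        generalize (√2)⁻¹ ^ k = r at h2 ⊢
        have h3 : r * u - r * v = r * (u - v) := by ring
        rw [h3, abs_mul, abs_of_nonneg h2]
        calc r * |u - v| ≤ r * (156 * q) := mul_le_mul_of_nonneg_left h1 h2
          _ = _ := by ring
    _ ≤ 156 * (16 * √(tdist y y')) := by
        rw [← Finset.mul_sum]
        exact mul_le_mul_of_nonneg_left (sum_tele (tdist_nonneg y y') n) (by norm_num)
    _ = _ := by ring

lemma f_cont {s : ℕ → T3 → ℝ} (hs : ∀ k, Measurable (s k)) (hs1 : ∀ k x, |s k x| ≤ 1) (n : ℕ) :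
    Continuous (f s n) := by
  rw [continuous_iff_continuousAt]
  intro y
  rw [ContinuousAt, tendsto_iff_dist_tendsto_zero]
  have h1 : Tendsto (fun x => 2496 * √(tdist x y)) (𝓝 y) (𝓝 0) := by
    have h3 : Continuous (fun x : T3 => tdist x y) := by unfold tdist; fun_prop
    have h2 : Continuous (fun x : T3 => 2496 * √(tdist x y)) :=
      continuous_const.mul (Real.continuous_sqrt.comp h3)
    have h4 : 2496 * √(tdist y y) = 0 := by rw [tdist_self, Real.sqrt_zero, mul_zero]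
    have h5 := h2.tendsto y
    rwa [h4] at h5
  refine squeeze_zero (fun x => dist_nonneg) (fun x => ?_) h1
  rw [Real.dist_eq]
  exact f_holder hs hs1 n x y

/-- couplings -/
def Coupl (μ ν : Measure T3) : Set (Measure (T3 × T3)) :=
  {π | π.map Prod.fst = μ ∧ π.map Prod.snd = ν}

/-- the transport cost of exponent `p` -/
noncomputable def cost (p : ℝ) (μ ν : Measure T3) : ℝ≥0∞ :=
  ⨅ π ∈ Coupl μ ν, ∫⁻ z, ENNReal.ofReal (tdist z.1 z.2 ^ p) ∂π

lemma kant {F : T3 → ℝ} {C : ℝ} (hC : 0 < C) (hF : Continuous F)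
    (hH : ∀ y y', |F y - F y'| ≤ C * √(tdist y y'))
    {μ ν : Measure T3} [IsFiniteMeasure μ] [IsFiniteMeasure ν] :
    ENNReal.ofReal (∫ x, F x ∂μ - ∫ x, F x ∂ν) ≤ ENNReal.ofReal C * cost (1 / 2) μ ν := by
  unfold cost
  have hC0 : ENNReal.ofReal C ≠ 0 := by simpa using hC
  rw [ENNReal.mul_iInf_of_ne hC0 (by simp)]
  · refine le_iInf fun π => ?_
    by_cases hπ : π ∈ Coupl μ ν
    · simp only [hπ, iInf_pos]
      have hfin : IsFiniteMeasure π := by
        refine ⟨?_⟩
        have h1 : π univ = μ univ := by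
          rw [← hπ.1, Measure.map_apply measurable_fst MeasurableSet.univ, preimage_univ]
        rw [h1]
        exact measure_lt_top _ _
      have hc1 : Continuous fun z : T3 × T3 => F z.1 := by fun_prop
      have hc2 : Continuous fun z : T3 × T3 => F z.2 := by fun_prop
      have hi : ∀ {H : T3 × T3 → ℝ}, Continuous H → Integrable H π := fun h =>
        h.integrable_of_hasCompactSupport (HasCompactSupport.of_compactSpace _)
      have h1 : ∫ x, F x ∂μ = ∫ z, F z.1 ∂π := by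
        rw [← hπ.1, integral_map measurable_fst.aemeasurable hF.aestronglyMeasurable]
      have h2 : ∫ x, F x ∂ν = ∫ z, F z.2 ∂π := by
        rw [← hπ.2, integral_map measurable_snd.aemeasurable hF.aestronglyMeasurable]
      have hcs : Continuous fun z : T3 × T3 => C * √(tdist z.1 z.2) := by fun_prop
      have h3 : ∫ x, F x ∂μ - ∫ x, F x ∂ν ≤ ∫ z, C * √(tdist z.1 z.2) ∂π := by
        rw [h1, h2, ← integral_sub (hi hc1) (hi hc2)]
        refine integral_mono ((hi hc1).sub (hi hc2)) (hi hcs) fun z => ?_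
        exact (le_abs_self _).trans (hH z.1 z.2)
      refine (ENNReal.ofReal_le_ofReal h3).trans ?_
      rw [ofReal_integral_eq_lintegral_ofReal (hi hcs) (ae_of_all _ fun z => by positivity),
        ← lintegral_const_mul _ (by
          have : Continuous fun z : T3 × T3 => tdist z.1 z.2 ^ ((1 : ℝ) / 2) := by
            simp_rw [← Real.sqrt_eq_rpow]; fun_prop
          exact (ENNReal.continuous_ofReal.comp this).measurable)]
      refine lintegral_mono fun z => ?_
      simp only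
      rw [ENNReal.ofReal_mul hC.le, ← Real.sqrt_eq_rpow]
    · simp only [hπ, iInf_neg, not_false_iff]
      rw [ENNReal.mul_top hC0]
      exact le_top

end Q297.Oc
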