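import Pool.Agent.Q297.OcA

/-!
The lattice sum `∑ 1/|m|²` over a box.
-/

open MeasureTheory ProbabilityTheory Set Filter Topology
open scoped ENNReal NNReal ComplexConjugate

namespace Q297.Oc

/-- the eigenvalue of the frequency `m` -/
noncomputable def lam (m : Fr) : ℝ := 2 * Real.pi ^ 2 * ∑ i, ((m i : ℤ) : ℝ) ^ 2

lemma lam_nonneg (m : Fr) : 0 ≤ lam m := by unfold lam; positivity

lemma lam_zero : lam 0 = 0 := by simp [lam]

lemma lam_neg (m : Fr) : lam (-m) = lam m := by simp [lam]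

lemma pi_sq : 9 < Real.pi ^ 2 := by nlinarith [Real.pi_gt_three]

lemma lam_ge {m : Fr} (hm : m ≠ 0) : 18 ≤ lam m := by
  obtain ⟨i, hi⟩ : ∃ i, m i ≠ 0 := by
    by_contra hc
    push Not at hc
    exact hm (funext hc)
  have h1 : (1 : ℝ) ≤ ((m i : ℤ) : ℝ) ^ 2 := by
    have : (1 : ℤ) ≤ (m i) ^ 2 := by
      have := sq_nonneg (m i)
      have h2 : (m i) ^ 2 ≠ 0 := pow_ne_zero 2 hi
      omega
    exact_mod_cast this
  have h2 : ((m i : ℤ) : ℝ) ^ 2 ≤ ∑ i, ((m i : ℤ) : ℝ) ^ 2 :=
    Finset.single_le_sum (f := fun i => ((m i : ℤ) : ℝ) ^ 2) (fun i _ => by positivity)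
      (Finset.mem_univ i)
  have h3 := pi_sq
  unfold lam
  nlinarith

lemma lam_pos {m : Fr} (hm : m ≠ 0) : 0 < lam m := by linarith [lam_ge hm]

lemma card_box (N : ℕ) : (box N).card = (2 * N + 1) ^ 3 := by
  unfold box
  rw [Fintype.card_piFinset]
  simp only [Int.card_Icc, Finset.prod_const, Finset.card_univ, Fintype.card_fin]
  congr 1
  omega

lemma sum_le (N : ℕ) : ∑ m ∈ (box N).erase 0, (lam m)⁻¹ ≤ 2 * N := by
  induction N with
  | zero =>
    have : (box 0).erase 0 = ∅ := by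
      ext m
      simp only [Finset.mem_erase, mem_box, Finset.notMem_empty, iff_false, not_and]
      intro hm h
      apply hm
      funext i
      have := h i
      simp only [Nat.cast_zero, neg_zero] at this
      show m i = 0
      omega
    rw [this]
    simp
  | succ N ih =>
    have hsub : (box N).erase 0 ⊆ (box (N + 1)).erase 0 :=
      Finset.erase_subset_erase _ (box_mono (by omega))
    rw [← Finset.sum_sdiff hsub]
    have h1 : ∀ m ∈ (box (N + 1)).erase 0 \ (box N).erase 0,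
        (lam m)⁻¹ ≤ (18 * ((N : ℝ) + 1) ^ 2)⁻¹ := by
      intro m hm
      simp only [Finset.mem_sdiff, Finset.mem_erase, not_and] at hm
      have hm2 : m ∉ box N := hm.2 hm.1.1
      rw [mem_box] at hm2
      push Not at hm2
      obtain ⟨i, hi⟩ := hm2
      have h3 : ((N : ℝ) + 1) ^ 2 ≤ ((m i : ℤ) : ℝ) ^ 2 := by
        have h4 : ((N : ℤ) + 1) ^ 2 ≤ (m i) ^ 2 := by
          by_cases hc : -(N : ℤ) ≤ m i
          · have := hi hc
            nlinarith
          · push Not at hc
            nlinarith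
        exact_mod_cast h4
      have h2 : ((m i : ℤ) : ℝ) ^ 2 ≤ ∑ i, ((m i : ℤ) : ℝ) ^ 2 :=
        Finset.single_le_sum (f := fun i => ((m i : ℤ) : ℝ) ^ 2) (fun i _ => by positivity)
          (Finset.mem_univ i)
      apply inv_anti₀ (by positivity)
      have h5 := pi_sq
      unfold lam
      nlinarith [sq_nonneg ((N : ℝ) + 1)]
    have hcard : (((box (N + 1)).erase 0 \ (box N).erase 0).card : ℝ) =
        (2 * ((N : ℝ) + 1) + 1) ^ 3 - (2 * (N : ℝ) + 1) ^ 3 := by
      rw [Finset.cast_card_sdiff hsub]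
      have h0 : ∀ N, (0 : Fr) ∈ box N := by
        intro N
        rw [mem_box]
        intro i
        simp
      rw [Finset.card_erase_of_mem (h0 _), Finset.card_erase_of_mem (h0 _), card_box, card_box]
      have h1 : 1 ≤ (2 * (N + 1) + 1) ^ 3 := Nat.one_le_pow _ _ (by omega)
      have h2 : 1 ≤ (2 * N + 1) ^ 3 := Nat.one_le_pow _ _ (by omega)
      push_cast [Nat.cast_sub h1, Nat.cast_sub h2]
      ring
    have h6 : ∑ m ∈ (box (N + 1)).erase 0 \ (box N).erase 0, (lam m)⁻¹ ≤ 2 := by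
      refine (Finset.sum_le_sum h1).trans ?_
      rw [Finset.sum_const, nsmul_eq_mul, hcard, ← div_eq_mul_inv, div_le_iff₀ (by positivity)]
      have : (0 : ℝ) ≤ N := Nat.cast_nonneg N
      nlinarith
    push_cast
    linarith

end Q297.Oc
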