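import Pool.Agent.Q297.OcC

/-!
The recursion for the mixed moments of additive functionals of Brownian motion on the torus.
-/

open MeasureTheory ProbabilityTheory Set Filter Topology
open scoped ENNReal NNReal ComplexConjugate

namespace Q297.Oc

/-- additive functional of the path `c` -/
noncomputable def Ff (ψ : T3 → ℂ) (c : ℝ → T3) (t : ℝ) : ℂ := ∫ u in (0:ℝ)..t, ψ (c u)

lemma Ff_deriv {ψ : T3 → ℂ} (hψ : Continuous ψ) {c : ℝ → T3} (hc : Continuous c) (t : ℝ) :
    HasDerivAt (Ff ψ c) (ψ (c t)) t :=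
  ((hψ.comp hc).integral_hasStrictDerivAt 0 t).hasDerivAt

lemma Ff_cont {ψ : T3 → ℂ} (hψ : Continuous ψ) {c : ℝ → T3} (hc : Continuous c) :
    Continuous (Ff ψ c) :=
  continuous_iff_continuousAt.2 fun t => (Ff_deriv hψ hc t).continuousAt

lemma Ff_bound {ψ : T3 → ℂ} {C : ℝ} (hC : ∀ x, ‖ψ x‖ ≤ C) (c : ℝ → T3) (t : ℝ) :
    ‖Ff ψ c t‖ ≤ C * |t| := by
  have := intervalIntegral.norm_integral_le_of_norm_le_const (a := 0) (b := t) (C := C)
    (f := fun u => ψ (c u)) (fun x _ => hC _)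
  rwa [sub_zero] at this

lemma Ff_zero (ψ : T3 → ℂ) (c : ℝ → T3) : Ff ψ c 0 = 0 := by simp [Ff]

lemma Ff_pow {ψ : T3 → ℂ} (hψ : Continuous ψ) {c : ℝ → T3} (hc : Continuous c) (n : ℕ) (t : ℝ) :
    Ff ψ c t ^ (n + 1) = ∫ s in (0:ℝ)..t, ((n + 1 : ℕ) : ℂ) * (Ff ψ c s ^ n * ψ (c s)) := by
  have h1 : ∀ x ∈ uIcc (0:ℝ) t, HasDerivAt (fun s => Ff ψ c s ^ (n + 1))
      (((n + 1 : ℕ) : ℂ) * (Ff ψ c x ^ n * ψ (c x))) x := by
    intro x _
    have h0 := (Ff_deriv hψ hc x).pow (n + 1)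
    refine h0.congr_deriv ?_
    have e1 : n + 1 - 1 = n := by omega
    rw [e1]
    ring
  have h2 : Continuous fun s => ((n + 1 : ℕ) : ℂ) * (Ff ψ c s ^ n * ψ (c s)) := by
    have := Ff_cont hψ hc
    fun_prop
  rw [intervalIntegral.integral_eq_sub_of_hasDerivAt h1 (h2.intervalIntegrable _ _), Ff_zero]
  simp

lemma meas_int {Y : Type*} [MeasurableSpace Y] {h : ℝ → Y → ℂ} (hm : ∀ t, Measurable (h t))
    (hc : ∀ y, Continuous fun t => h t y) (t : ℝ) :
    Measurable (fun y => ∫ s in (0:ℝ)..t, h s y) := by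
  have h1 : Measurable (Function.uncurry h) := measurable_uncurry_of_continuous_of_measurable hc hm
  have h2 : ∀ S : Set ℝ, Measurable (fun y => ∫ s in S, h s y) := by
    intro S
    have h3 := (h1.stronglyMeasurable).integral_prod_left' (μ := volume.restrict S)
    exact h3.measurable
  unfold intervalIntegral
  exact (h2 _).sub (h2 _)

lemma Ff_meas {Y : Type*} [MeasurableSpace Y] {ψ : T3 → ℂ} (hψ : Continuous ψ) {c : ℝ → Y → T3}
    (hm : ∀ t, Measurable (c t)) (hc : ∀ y, Continuous fun t => c t y) (t : ℝ) :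
    Measurable fun y => Ff ψ (fun u => c u y) t :=
  meas_int (h := fun u y => ψ (c u y)) (fun u => hψ.measurable.comp (hm u))
    (fun y => hψ.comp (hc y)) t

/-- the process `x - b` -/
lemma pr_meas {Y : Type*} [MeasurableSpace Y] {b : ℝ → Y → T3} (hm : ∀ t, Measurable (b t))
    (t : ℝ) : Measurable fun y : Y × T3 => y.2 - b t y.1 :=
  measurable_snd.sub ((hm t).comp measurable_fst)

lemma G_meas {Y : Type*} [MeasurableSpace Y] {ψ : T3 → ℂ} (hψ : Continuous ψ) {b : ℝ → Y → T3}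
    (hm : ∀ t, Measurable (b t)) (hc : ∀ y, Continuous fun t => b t y) (p : Fr) (n : ℕ) (s : ℝ) :
    Measurable fun y => ∫ x, e p (x - b s y) *
      (Ff ψ (fun u => x - b u y) s ^ n * ψ (x - b s y)) ∂leb := by
  have h1 : Measurable fun y : Y × T3 => e p (y.2 - b s y.1) *
      (Ff ψ (fun u => y.2 - b u y.1) s ^ n * ψ (y.2 - b s y.1)) := by
    have h2 : Measurable fun y : Y × T3 => Ff ψ (fun u => y.2 - b u y.1) s :=
      Ff_meas hψ (c := fun u (y : Y × T3) => y.2 - b u y.1) (pr_meas hm)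
        (fun y => continuous_const.sub (hc y.1)) s
    exact ((e_cont p).measurable.comp (pr_meas hm s)).mul
      ((h2.pow_const n).mul (hψ.measurable.comp (pr_meas hm s)))
  exact (h1.stronglyMeasurable.integral_prod_right' (ν := leb)).measurable

/-- the Markov property used below -/
structure Mk {Ω : Type*} [mΩ : MeasurableSpace Ω] (P : Measure Ω) (b : ℝ → Ω → T3)
    (F : ℝ → MeasurableSpace Ω) : Prop where
  le : ∀ s, F s ≤ mΩ
  meas : ∀ u s, u ≤ s → Measurable[F s] (b u)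
  cont : ∀ ω, Continuous fun t => b t ω
  inc : ∀ s t, 0 ≤ s → s ≤ t → ∀ (p : Fr) (G : Ω → ℂ), Measurable[F s] G →
    ∫ ω, conj (e p (b t ω - b s ω)) * G ω ∂P =
      (Real.exp (-(lam p * (t - s))) : ℂ) * ∫ ω, G ω ∂P

section Proc

variable {Ω : Type*} [mΩ : MeasurableSpace Ω] {P : Measure Ω} [IsProbabilityMeasure P]
  {b : ℝ → Ω → T3} {F : ℝ → MeasurableSpace Ω} {ψ : T3 → ℂ}

lemma Mk.bm (h : Mk P b F) (t : ℝ) : Measurable (b t) := (h.meas t t le_rfl).mono (h.le t) le_rfl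

/-- mixed moments -/
noncomputable def A (ψ : T3 → ℂ) (b : ℝ → Ω → T3) (P : Measure Ω) (n : ℕ) (p : Fr) (t : ℝ) : ℂ :=
  ∫ ω, ∫ x, e p (x - b t ω) * Ff ψ (fun u => x - b u ω) t ^ n ∂leb ∂P

lemma Mk.step (h : Mk P b F) (hψ : Continuous ψ) (p : Fr) (n : ℕ) {s t : ℝ} (hs : 0 ≤ s)
    (hst : s ≤ t) :
    ∫ ω, ∫ x, e p (x - b t ω) * (Ff ψ (fun u => x - b u ω) s ^ n * ψ (x - b s ω)) ∂leb ∂P =
      (Real.exp (-(lam p * (t - s))) : ℂ) *
        ∫ ω, ∫ x, e p (x - b s ω) * (Ff ψ (fun u => x - b u ω) s ^ n * ψ (x - b s ω)) ∂leb ∂P := by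
  have hG : Measurable[F s] (fun ω => ∫ x, e p (x - b s ω) *
      (Ff ψ (fun u => x - b u ω) s ^ n * ψ (x - b s ω)) ∂leb) := by
    have h1 := @G_meas Ω (F s) ψ hψ (fun u ω => b (min u s) ω)
      (fun u => h.meas _ _ (min_le_right _ _))
      (fun ω => (h.cont ω).comp (continuous_id.min continuous_const)) p n s
    have h2 : (fun ω => ∫ x, e p (x - b s ω) *
        (Ff ψ (fun u => x - b u ω) s ^ n * ψ (x - b s ω)) ∂leb) =
        fun ω => ∫ x, e p (x - b (min s s) ω) *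
          (Ff ψ (fun u => x - b (min u s) ω) s ^ n * ψ (x - b (min s s) ω)) ∂leb := by
      funext ω
      have h3 : ∀ x, Ff ψ (fun u => x - b u ω) s = Ff ψ (fun u => x - b (min u s) ω) s := by
        intro x
        unfold Ff
        refine intervalIntegral.integral_congr fun u hu => ?_
        rw [uIcc_of_le hs] at hu
        show ψ (x - b u ω) = ψ (x - b (min u s) ω)
        rw [min_eq_left hu.2]
      simp_rw [h3, min_self]
    rw [h2]
    exact h1
  rw [← h.inc s t hs hst p _ hG]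
  refine integral_congr_ae (ae_of_all _ fun ω => ?_)
  show ∫ x, _ ∂leb = _ * ∫ x, _ ∂leb
  rw [← integral_const_mul]
  refine integral_congr_ae (ae_of_all _ fun x => ?_)
  dsimp only
  have h4 : x - b t ω = (x - b s ω) - (b t ω - b s ω) := by abel
  rw [h4, e_sub']
  ring

lemma bdd_of_cont (hψ : Continuous ψ) : ∃ C, 0 ≤ C ∧ ∀ x, ‖ψ x‖ ≤ C := by
  obtain ⟨C, hC⟩ := isCompact_univ.exists_bound_of_continuousOn (f := ψ) hψ.continuousOn
  exact ⟨C, (norm_nonneg _).trans (hC 0 (mem_univ _)), fun x => hC x (mem_univ _)⟩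

lemma Mk.jm (h : Mk P b F) (hψ : Continuous ψ) (p : Fr) (n : ℕ) (t : ℝ) (s : ℝ) :
    Measurable fun y : Ω × T3 => e p (y.2 - b t y.1) *
      (Ff ψ (fun u => y.2 - b u y.1) s ^ n * ψ (y.2 - b s y.1)) := by
  have h2 : Measurable fun y : Ω × T3 => Ff ψ (fun u => y.2 - b u y.1) s :=
    Ff_meas hψ (c := fun u (y : Ω × T3) => y.2 - b u y.1) (pr_meas h.bm)
      (fun y => continuous_const.sub (h.cont y.1)) s
  exact ((e_cont p).measurable.comp (pr_meas h.bm t)).mul
    ((h2.pow_const n).mul (hψ.measurable.comp (pr_meas h.bm s)))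

lemma Mk.jint (h : Mk P b F) (hψ : Continuous ψ) (p : Fr) (n : ℕ) (t : ℝ) (s : ℝ) :
    Integrable (fun y : Ω × T3 => e p (y.2 - b t y.1) *
      (Ff ψ (fun u => y.2 - b u y.1) s ^ n * ψ (y.2 - b s y.1))) (P.prod leb) := by
  obtain ⟨C, hC0, hC⟩ := bdd_of_cont hψ
  refine Integrable.of_bound (h.jm hψ p n t s).aestronglyMeasurable ((C * |s|) ^ n * C)
    (ae_of_all _ fun y => ?_)
  rw [norm_mul, norm_mul, norm_pow, e_norm, one_mul]
  have h1 := Ff_bound hC (fun u => y.2 - b u y.1) s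
  have h2 := hC (y.2 - b s y.1)
  gcongr

lemma Mk.jm' (h : Mk P b F) (hψ : Continuous ψ) (p : Fr) (n : ℕ) (t : ℝ) (s : ℝ) :
    Measurable fun y : Ω × T3 => e p (y.2 - b t y.1) *
      Ff ψ (fun u => y.2 - b u y.1) s ^ n := by
  have h2 : Measurable fun y : Ω × T3 => Ff ψ (fun u => y.2 - b u y.1) s :=
    Ff_meas hψ (c := fun u (y : Ω × T3) => y.2 - b u y.1) (pr_meas h.bm)
      (fun y => continuous_const.sub (h.cont y.1)) s
  exact ((e_cont p).measurable.comp (pr_meas h.bm t)).mul (h2.pow_const n)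

lemma Mk.jint' (h : Mk P b F) (hψ : Continuous ψ) (p : Fr) (n : ℕ) (t : ℝ) (s : ℝ) :
    Integrable (fun y : Ω × T3 => e p (y.2 - b t y.1) *
      Ff ψ (fun u => y.2 - b u y.1) s ^ n) (P.prod leb) := by
  obtain ⟨C, hC0, hC⟩ := bdd_of_cont hψ
  refine Integrable.of_bound (h.jm' hψ p n t s).aestronglyMeasurable ((C * |s|) ^ n)
    (ae_of_all _ fun y => ?_)
  rw [norm_mul, norm_pow, e_norm, one_mul]
  have h1 := Ff_bound hC (fun u => y.2 - b u y.1) s
  gcongr

/-- the recursion -/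
theorem Mk.recur (h : Mk P b F) (M : Finset Fr) (a : Fr → ℂ)
    (hψ : ∀ x, ψ x = ∑ m ∈ M, a m * e m x) (p : Fr) (n : ℕ) {t : ℝ} (ht : 0 ≤ t) :
    A ψ b P (n + 1) p t = ((n + 1 : ℕ) : ℂ) * ∫ s in (0:ℝ)..t,
      (Real.exp (-(lam p * (t - s))) : ℂ) * ∑ m ∈ M, a m * A ψ b P n (p + m) s := by
  have hψc : Continuous ψ := by
    have : ψ = fun x => ∑ m ∈ M, a m * e m x := funext hψ
    rw [this]; fun_prop
  obtain ⟨C, hC0, hC⟩ := bdd_of_cont hψc
  set H : ℝ → Ω × T3 → ℂ := fun s y => e p (y.2 - b t y.1) *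
      (Ff ψ (fun u => y.2 - b u y.1) s ^ n * ψ (y.2 - b s y.1)) with hH
  have hHc : ∀ y, Continuous fun s => H s y := by
    intro y
    have h1 : Continuous fun u => y.2 - b u y.1 := continuous_const.sub (h.cont y.1)
    have h2 := Ff_cont hψc h1
    have h3 : Continuous fun s => ψ (y.2 - b s y.1) := hψc.comp h1
    exact continuous_const.mul ((h2.pow n).mul h3)
  have hHu : Measurable (Function.uncurry H) :=
    measurable_uncurry_of_continuous_of_measurable hHc (fun s => h.jm hψc p n t s)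
  have hHb : ∀ s y, ‖H s y‖ ≤ (C * |s|) ^ n * C := by
    intro s y
    rw [hH]
    simp only
    rw [norm_mul, norm_mul, norm_pow, e_norm, one_mul]
    have h1 := Ff_bound hC (fun u => y.2 - b u y.1) s
    have h2 := hC (y.2 - b s y.1)
    gcongr
  have hHi : Integrable (Function.uncurry H) ((volume.restrict (uIoc 0 t)).prod (P.prod leb)) := by
    have h1 : Integrable (fun s : ℝ => (C * |s|) ^ n * C) (volume.restrict (uIoc 0 t)) := by
      have h2 : Continuous (fun s : ℝ => (C * |s|) ^ n * C) := by fun_prop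
      have h3 := h2.intervalIntegrable (μ := volume) 0 t
      rw [intervalIntegrable_iff] at h3
      exact h3
    refine (h1.comp_fst (P.prod leb)).mono' hHu.aestronglyMeasurable (ae_of_all _ fun z => ?_)
    exact hHb z.1 z.2
  -- expansion of the power
  have h1 : A ψ b P (n + 1) p t =
      ∫ y, (((n + 1 : ℕ) : ℂ) * (∫ s in (0:ℝ)..t, H s y)) ∂(P.prod leb) := by
    have h2 : A ψ b P (n + 1) p t = ∫ y : Ω × T3, e p (y.2 - b t y.1) *
        Ff ψ (fun u => y.2 - b u y.1) t ^ (n + 1) ∂(P.prod leb) := by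
      unfold A
      rw [integral_prod _ (h.jint' hψc p (n + 1) t t)]
    rw [h2]
    refine integral_congr_ae (ae_of_all _ fun y => ?_)
    dsimp only
    have h3 : Continuous fun u => y.2 - b u y.1 := continuous_const.sub (h.cont y.1)
    rw [Ff_pow hψc h3 n t, intervalIntegral.integral_const_mul, ← mul_assoc,
      mul_comm (e p (y.2 - b t y.1)) _, mul_assoc, ← intervalIntegral.integral_const_mul]
  rw [h1, integral_const_mul, ← intervalIntegral_integral_swap hHi]
  congr 1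
  refine intervalIntegral.integral_congr fun s hs => ?_
  rw [uIcc_of_le ht] at hs
  show ∫ y, H s y ∂(P.prod leb) = _
  rw [hH]
  simp only
  rw [integral_prod _ (h.jint hψc p n t s)]
  simp only
  rw [h.step hψc p n hs.1 hs.2]
  congr 1
  -- linearity
  have h5 : ∀ (ω : Ω) (x : T3), e p (x - b s ω) * (Ff ψ (fun u => x - b u ω) s ^ n * ψ (x - b s ω)) =
      ∑ m ∈ M, a m * (e (p + m) (x - b s ω) * Ff ψ (fun u => x - b u ω) s ^ n) := by
    intro ω x
    rw [hψ (x - b s ω), Finset.mul_sum, Finset.mul_sum]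
    refine Finset.sum_congr rfl fun m _ => ?_
    rw [e_add]; ring
  simp_rw [h5]
  have h6 : ∀ m, Integrable (fun y : Ω × T3 => e (p + m) (y.2 - b s y.1) *
      Ff ψ (fun u => y.2 - b u y.1) s ^ n) (P.prod leb) := fun m => h.jint' hψc (p + m) n s s
  have h7 : ∫ y : Ω × T3, ∑ m ∈ M, a m * (e (p + m) (y.2 - b s y.1) *
      Ff ψ (fun u => y.2 - b u y.1) s ^ n) ∂(P.prod leb) = ∑ m ∈ M, a m * A ψ b P n (p + m) s := by
    rw [integral_finsetSum _ (fun m _ => (h6 m).const_mul _)]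
    refine Finset.sum_congr rfl fun m _ => ?_
    rw [integral_const_mul, integral_prod _ (h6 m)]
    rfl
  rw [← h7, integral_prod]
  exact integrable_finsetSum _ (fun m _ => (h6 m).const_mul _)

lemma A_zero (b : ℝ → Ω → T3) (P : Measure Ω) [IsProbabilityMeasure P] (p : Fr) (t : ℝ) :
    A ψ b P 0 p t = if p = 0 then 1 else 0 := by
  unfold A
  have h1 : ∀ ω, ∫ x, e p (x - b t ω) * Ff ψ (fun u => x - b u ω) t ^ 0 ∂leb =
      if p = 0 then 1 else 0 := by
    intro ω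
    simp_rw [pow_zero, mul_one]
    rw [integral_sub_right_eq_self (fun x => e p x) (b t ω), e_int]
  simp_rw [h1]
  simp

end Proc

end Q297.Oc
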