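import Pool.Agent.Q297.OcD

/-!
The second and fourth moments of the additive functionals at the scale `L`.
-/

open MeasureTheory ProbabilityTheory Set Filter Topology
open scoped ENNReal NNReal ComplexConjugate

namespace Q297.Oc

/-- the time weight -/
noncomputable def q (p : Fr) (t : ℝ) : ℝ := ∫ s in (0:ℝ)..t, Real.exp (-(lam p * (t - s)))

/-- the bound of the time weight -/
noncomputable def tau (T : ℝ) (p : Fr) : ℝ := if p = 0 then T else (lam p)⁻¹

lemma tau_nonneg {T : ℝ} (hT : 0 ≤ T) (p : Fr) : 0 ≤ tau T p := by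
  unfold tau
  split_ifs
  · exact hT
  · exact inv_nonneg.2 (lam_nonneg p)

lemma q_eq {p : Fr} (hp : p ≠ 0) (t : ℝ) :
    q p t = (1 - Real.exp (-(lam p * t))) * (lam p)⁻¹ := by
  have hl := lam_pos hp
  unfold q
  have h1 : ∀ s ∈ uIcc (0:ℝ) t, HasDerivAt (fun s => Real.exp (-(lam p * (t - s))) * (lam p)⁻¹)
      (Real.exp (-(lam p * (t - s)))) s := by
    intro s _
    have h2 : HasDerivAt (fun s => -(lam p * (t - s))) (lam p) s := by
      have := (((hasDerivAt_id s).const_sub t).const_mul (lam p)).neg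
      refine this.congr_deriv ?_
      ring
    have h3 := (h2.exp).mul_const (lam p)⁻¹
    refine h3.congr_deriv ?_
    field_simp
  rw [intervalIntegral.integral_eq_sub_of_hasDerivAt h1
    (Continuous.intervalIntegrable (by fun_prop) _ _)]
  simp only [sub_self, mul_zero, neg_zero, Real.exp_zero, sub_zero]
  ring

lemma q_zero (t : ℝ) : q 0 t = t := by
  unfold q
  simp [lam_zero]

lemma q_nonneg (p : Fr) {t : ℝ} (ht : 0 ≤ t) : 0 ≤ q p t :=
  intervalIntegral.integral_nonneg ht fun _ _ => (Real.exp_pos _).le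

lemma q_le (p : Fr) {t T : ℝ} (ht : t ≤ T) : q p t ≤ tau T p := by
  unfold tau
  split_ifs with h
  · subst h; rw [q_zero]; exact ht
  · rw [q_eq h]
    have h1 := lam_pos h
    have h2 := Real.exp_pos (-(lam p * t))
    have h3 : 0 < (lam p)⁻¹ := inv_pos.2 h1
    nlinarith

lemma q_cont (p : Fr) : Continuous (q p) := by
  by_cases h : p = 0
  · subst h
    have : q 0 = fun t => t := funext q_zero
    rw [this]; fun_prop
  · have : q p = fun t => (1 - Real.exp (-(lam p * t))) * (lam p)⁻¹ := funext (q_eq h)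
    rw [this]; fun_prop

lemma int_q {p : Fr} (hp : p ≠ 0) {T : ℝ} (hT : 1 ≤ T) :
    T / 2 * (lam p)⁻¹ ≤ ∫ s in (0:ℝ)..T, q p s := by
  have hl := lam_ge hp
  have hl0 := lam_pos hp
  have h0 : (lam p)⁻¹ ≤ 1 / 18 := by
    rw [inv_eq_one_div]
    exact div_le_div_of_nonneg_left (by norm_num) (by norm_num) hl
  have h0' : 0 < (lam p)⁻¹ := inv_pos.2 hl0
  simp_rw [q_eq hp]
  have h1 : ∀ s ∈ uIcc (0:ℝ) T, HasDerivAt
      (fun s => (s + Real.exp (-(lam p * s)) * (lam p)⁻¹) * (lam p)⁻¹)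
      ((1 - Real.exp (-(lam p * s))) * (lam p)⁻¹) s := by
    intro s _
    have h2 : HasDerivAt (fun s => -(lam p * s)) (-(lam p)) s := by
      have := ((hasDerivAt_id s).const_mul (lam p)).neg
      refine this.congr_deriv ?_
      ring
    have h3 := ((hasDerivAt_id s).add ((h2.exp).mul_const (lam p)⁻¹)).mul_const (lam p)⁻¹
    refine h3.congr_deriv ?_
    field_simp
    ring
  rw [intervalIntegral.integral_eq_sub_of_hasDerivAt h1
    (Continuous.intervalIntegrable (by fun_prop) _ _)]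
  simp only [mul_zero, neg_zero, Real.exp_zero, zero_add, one_mul]
  have h4 := Real.exp_pos (-(lam p * T))
  rw [← sub_mul]
  refine mul_le_mul_of_nonneg_right ?_ h0'.le
  have h5 : 0 ≤ Real.exp (-(lam p * T)) * (lam p)⁻¹ := by positivity
  linarith

section Proc

variable {Ω : Type*} [mΩ : MeasurableSpace Ω] {P : Measure Ω} [IsProbabilityMeasure P]
  {b : ℝ → Ω → T3} {F : ℝ → MeasurableSpace Ω}

/-- the complex kernel -/
noncomputable def ψc (L : ℕ) (x : T3) : ℂ := (ψ L x : ℂ)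

lemma ψc_exp (L : ℕ) (x : T3) : ψc L x = ∑ m ∈ box (4 * L), (a L m : ℂ) * e m x := ψ_exp L x

lemma step_norm (h : Mk P b F) (L : ℕ) (p : Fr) (n : ℕ) {t T B : ℝ} (ht : 0 ≤ t) (htT : t ≤ T)
    (hB0 : 0 ≤ B)
    (hB : ∀ s, 0 ≤ s → s ≤ T → ∑ m ∈ box (4 * L), |a L m| * ‖A (ψc L) b P n (p + m) s‖ ≤ B) :
    ‖A (ψc L) b P (n + 1) p t‖ ≤ (n + 1) * (tau T p * B) := by
  rw [h.recur (box (4 * L)) (fun m => (a L m : ℂ)) (ψc_exp L) p n ht, norm_mul]
  have h1 : ‖((n + 1 : ℕ) : ℂ)‖ = (n : ℝ) + 1 := by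
    rw [Complex.norm_natCast]; push_cast; rfl
  rw [h1]
  refine mul_le_mul_of_nonneg_left ?_ (by positivity)
  have h2 : ∀ s ∈ Ioc (0:ℝ) t, ‖(Real.exp (-(lam p * (t - s))) : ℂ) *
      ∑ m ∈ box (4 * L), (a L m : ℂ) * A (ψc L) b P n (p + m) s‖ ≤
      Real.exp (-(lam p * (t - s))) * B := by
    intro s hs
    rw [norm_mul, Complex.norm_real, Real.norm_eq_abs, abs_of_pos (Real.exp_pos _)]
    refine mul_le_mul_of_nonneg_left ?_ (Real.exp_pos _).le
    refine (norm_sum_le _ _).trans (le_trans (le_of_eq ?_) (hB s hs.1.le (hs.2.trans htT)))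
    refine Finset.sum_congr rfl fun m _ => ?_
    rw [norm_mul, Complex.norm_real, Real.norm_eq_abs]
  have h3 : ‖∫ s in (0:ℝ)..t, (Real.exp (-(lam p * (t - s))) : ℂ) *
      ∑ m ∈ box (4 * L), (a L m : ℂ) * A (ψc L) b P n (p + m) s‖ ≤
      ∫ s in (0:ℝ)..t, Real.exp (-(lam p * (t - s))) * B :=
    intervalIntegral.norm_integral_le_of_norm_le ht (ae_of_all _ h2)
      (Continuous.intervalIntegrable (by fun_prop) _ _)
  refine h3.trans ?_
  rw [intervalIntegral.integral_mul_const]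
  exact mul_le_mul_of_nonneg_right (q_le p htT) hB0

lemma A_one (h : Mk P b F) (L : ℕ) (p : Fr) {t : ℝ} (ht : 0 ≤ t) :
    A (ψc L) b P 1 p t = (a L p : ℂ) * (q p t : ℂ) := by
  have h0 := h.recur (box (4 * L)) (fun m => (a L m : ℂ)) (ψc_exp L) p 0 ht
  rw [zero_add] at h0
  rw [h0]
  have h1 : ∀ s, ∑ m ∈ box (4 * L), (a L m : ℂ) * A (ψc L) b P 0 (p + m) s = (a L p : ℂ) := by
    intro s
    have h2 : ∀ m, (a L m : ℂ) * A (ψc L) b P 0 (p + m) s = if m = -p then (a L p : ℂ) else 0 := by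
      intro m
      rw [A_zero]
      by_cases hm : m = -p
      · subst hm
        simp [a_neg]
      · have : p + m ≠ 0 := fun hc => hm (by rw [← neg_eq_of_add_eq_zero_right hc])
        simp [this, hm]
    simp_rw [h2]
    rw [Finset.sum_ite_eq']
    split_ifs with h3
    · rfl
    · have : a L p = 0 := by rw [← a_neg]; exact a_notMem h3
      rw [this]; simp
  simp_rw [h1]
  rw [intervalIntegral.integral_mul_const]
  unfold q
  rw [← intervalIntegral.integral_ofReal]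
  simp only [Nat.cast_one, one_mul]
  ring

lemma sum_shift (M E : Finset Fr) (p : Fr) (u : Fr → ℝ) (hu : ∀ q, 0 ≤ u q) :
    ∑ m ∈ M, (if p + m ∈ E then u (p + m) else 0) ≤ ∑ q ∈ E, u q := by
  classical
  have h1 : ∑ m ∈ M, (if p + m ∈ E then u (p + m) else 0) =
      ∑ q ∈ M.image (fun m => p + m), (if q ∈ E then u q else 0) := by
    rw [Finset.sum_image]
    intro x _ y _ hxy
    exact add_left_cancel hxy
  rw [h1, Finset.sum_ite_mem]
  exact Finset.sum_le_sum_of_subset_of_nonneg Finset.inter_subset_right fun q _ _ => hu q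

/-- the lattice sum -/
noncomputable def S (N : ℕ) : ℝ := ∑ m ∈ (box N).erase 0, (lam m)⁻¹

lemma S_nonneg (N : ℕ) : 0 ≤ S N := Finset.sum_nonneg fun m _ => inv_nonneg.2 (lam_nonneg m)

lemma A_two (h : Mk P b F) {L : ℕ} (hL : 0 < L) (p : Fr) {t T : ℝ} (ht : 0 ≤ t) (htT : t ≤ T) :
    ‖A (ψc L) b P 2 p t‖ ≤ 2 * (tau T p * S (4 * L)) := by
  have := step_norm h L p 1 ht htT (S_nonneg (4 * L)) ?_
  · norm_num at this
    exact this
  intro s hs hsT
  refine le_trans (Finset.sum_le_sum fun m _ => ?_) (sum_shift (box (4 * L)) ((box (4 * L)).erase 0)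
    p (fun q => (lam q)⁻¹) (fun q => inv_nonneg.2 (lam_nonneg q)))
  rw [A_one h L _ hs, norm_mul, Complex.norm_real, Complex.norm_real, Real.norm_eq_abs,
    Real.norm_eq_abs]
  have ha := a_abs hL m
  split_ifs with hm
  · rw [Finset.mem_erase] at hm
    have h1 := q_le (p + m) hsT
    have h2 := q_nonneg (p + m) hs
    have h3 := a_abs hL (p + m)
    unfold tau at h1
    rw [if_neg hm.1] at h1
    rw [abs_of_nonneg h2]
    calc |a L m| * (|a L (p + m)| * q (p + m) s) ≤ 1 * (1 * (lam (p + m))⁻¹) := by gcongr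
      _ = _ := by ring
  · have : a L (p + m) = 0 := by
      rw [Finset.mem_erase, not_and_or, not_not] at hm
      rcases hm with hm | hm
      · rw [hm, a_zero hL]
      · exact a_notMem hm
    rw [this]; simp

lemma A_three (h : Mk P b F) {L : ℕ} (hL : 0 < L) {p : Fr} (hp : p ∈ box (4 * L)) {t T : ℝ}
    (ht : 0 ≤ t) (htT : t ≤ T) :
    ‖A (ψc L) b P 3 p t‖ ≤ 3 * (tau T p * (2 * S (4 * L) * (T + S (8 * L)))) := by
  have hT : 0 ≤ T := ht.trans htT
  have hS := S_nonneg (4 * L)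
  have hS' := S_nonneg (8 * L)
  have := step_norm h L p 2 (B := 2 * S (4 * L) * (T + S (8 * L))) ht htT (by positivity) ?_
  · norm_num at this
    exact this
  intro s hs hsT
  have h1 : ∀ m ∈ box (4 * L), |a L m| * ‖A (ψc L) b P 2 (p + m) s‖ ≤
      2 * S (4 * L) * (if p + m ∈ box (8 * L) then tau T (p + m) else 0) := by
    intro m hm
    have h2 : p + m ∈ box (8 * L) := by
      rw [mem_box] at hp hm ⊢
      intro i
      have h3 := hp i
      have h4 := hm i
      simp only [Pi.add_apply]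
      push_cast at h3 h4 ⊢
      omega
    rw [if_pos h2]
    have h3 := A_two h hL (p + m) hs hsT
    have h4 := a_abs hL m
    calc |a L m| * ‖A (ψc L) b P 2 (p + m) s‖ ≤ 1 * (2 * (tau T (p + m) * S (4 * L))) := by
          gcongr
      _ = _ := by ring
  refine (Finset.sum_le_sum h1).trans ?_
  rw [← Finset.mul_sum]
  refine mul_le_mul_of_nonneg_left ?_ (by positivity)
  refine (sum_shift (box (4 * L)) (box (8 * L)) p (tau T) (tau_nonneg hT)).trans (le_of_eq ?_)
  have h0 : (0 : Fr) ∈ box (8 * L) := by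
    rw [mem_box]; intro i; simp
  rw [← Finset.add_sum_erase _ _ h0]
  have h2 : tau T 0 = T := by simp [tau]
  rw [h2]
  congr 1
  unfold S
  refine Finset.sum_congr rfl fun m hm => ?_
  rw [Finset.mem_erase] at hm
  simp [tau, hm.1]

lemma A_four (h : Mk P b F) {L : ℕ} (hL : 0 < L) {T : ℝ} (hT : 0 ≤ T) :
    ‖A (ψc L) b P 4 0 T‖ ≤ 24 * T * S (4 * L) ^ 2 * (T + S (8 * L)) := by
  have hS := S_nonneg (4 * L)
  have hS' := S_nonneg (8 * L)
  have := step_norm h L 0 3 (B := 6 * S (4 * L) ^ 2 * (T + S (8 * L))) hT le_rfl (by positivity) ?_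
  · refine this.trans (le_of_eq ?_)
    have h2 : tau T 0 = T := by simp [tau]
    rw [h2]
    push_cast
    ring
  intro s hs hsT
  have h1 : ∀ m ∈ box (4 * L), |a L m| * ‖A (ψc L) b P 3 (0 + m) s‖ ≤
      if m ∈ (box (4 * L)).erase 0 then 6 * S (4 * L) * (T + S (8 * L)) * (lam m)⁻¹ else 0 := by
    intro m hm
    rw [zero_add]
    by_cases h0 : m = 0
    · subst h0
      rw [a_zero hL]; simp
    · have h2 : m ∈ (box (4 * L)).erase 0 := Finset.mem_erase.2 ⟨h0, hm⟩
      rw [if_pos h2]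
      have h3 := A_three h hL hm hs hsT
      have h4 := a_abs hL m
      have h5 : tau T m = (lam m)⁻¹ := by simp [tau, h0]
      rw [h5] at h3
      calc |a L m| * ‖A (ψc L) b P 3 m s‖ ≤
            1 * (3 * ((lam m)⁻¹ * (2 * S (4 * L) * (T + S (8 * L))))) := by gcongr
        _ = _ := by ring
  refine (Finset.sum_le_sum h1).trans ?_
  rw [Finset.sum_ite_mem, Finset.inter_eq_right.2 (Finset.erase_subset _ _), ← Finset.mul_sum]
  refine le_of_eq ?_
  unfold S
  ring

lemma A_two_lower (h : Mk P b F) {L : ℕ} (hL : 0 < L) {T : ℝ} (hT : 1 ≤ T) :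
    ∃ r : ℝ, A (ψc L) b P 2 0 T = (r : ℂ) ∧ T * L / 2211840 ≤ r := by
  have hT0 : 0 ≤ T := by linarith
  have h0 := h.recur (box (4 * L)) (fun m => (a L m : ℂ)) (ψc_exp L) 0 1 hT0
  have h1 : ∀ s, 0 ≤ s → (Real.exp (-(lam 0 * (T - s))) : ℂ) *
      ∑ m ∈ box (4 * L), (a L m : ℂ) * A (ψc L) b P 1 (0 + m) s =
      ((∑ m ∈ box (4 * L), (a L m) ^ 2 * q m s : ℝ) : ℂ) := by
    intro s hs
    rw [lam_zero]
    simp only [zero_mul, neg_zero, Real.exp_zero, Complex.ofReal_one, one_mul]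
    push_cast
    refine Finset.sum_congr rfl fun m _ => ?_
    rw [zero_add, A_one h L m hs]
    ring
  have h2 : ∫ s in (0:ℝ)..T, (Real.exp (-(lam 0 * (T - s))) : ℂ) *
      ∑ m ∈ box (4 * L), (a L m : ℂ) * A (ψc L) b P 1 (0 + m) s =
      ((∫ s in (0:ℝ)..T, ∑ m ∈ box (4 * L), (a L m) ^ 2 * q m s : ℝ) : ℂ) := by
    rw [← intervalIntegral.integral_ofReal]
    refine intervalIntegral.integral_congr fun s hs => ?_
    rw [uIcc_of_le hT0] at hs
    exact h1 s hs.1
  rw [h2] at h0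
  refine ⟨2 * ∫ s in (0:ℝ)..T, ∑ m ∈ box (4 * L), (a L m) ^ 2 * q m s, ?_, ?_⟩
  · rw [h0]; push_cast; ring
  have h3 : ∫ s in (0:ℝ)..T, ∑ m ∈ box (4 * L), (a L m) ^ 2 * q m s =
      ∑ m ∈ box (4 * L), (a L m) ^ 2 * ∫ s in (0:ℝ)..T, q m s := by
    rw [intervalIntegral.integral_finsetSum]
    · exact Finset.sum_congr rfl fun m _ => by rw [intervalIntegral.integral_const_mul]
    · intro m _
      exact (continuous_const.mul (q_cont m)).intervalIntegrable _ _
  rw [h3]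
  -- the good frequencies
  set R : Finset Fr := Fintype.piFinset fun _ => Finset.Ico (2 * (L : ℤ)) (3 * L) with hR
  have hRm : ∀ m, m ∈ R ↔ ∀ i, 2 * (L : ℤ) ≤ m i ∧ m i < 3 * L := by
    intro m; simp [hR]
  have hRc : (R.card : ℝ) = (L : ℝ) ^ 3 := by
    rw [hR, Fintype.card_piFinset]
    simp only [Int.card_Ico, Finset.prod_const, Finset.card_univ, Fintype.card_fin]
    have : (3 * (L : ℤ) - 2 * L).toNat = L := by omega
    rw [this]; push_cast; rfl
  have hRs : R ⊆ box (4 * L) := by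
    intro m hm
    rw [hRm] at hm
    rw [mem_box]
    intro i
    have := hm i
    push_cast
    omega
  have hLr : (0 : ℝ) < L := by exact_mod_cast hL
  have h4 : ∀ m ∈ R, T / (2 * 4096 * (540 * (L : ℝ) ^ 2)) ≤
      (a L m) ^ 2 * ∫ s in (0:ℝ)..T, q m s := by
    intro m hm
    rw [hRm] at hm
    have hm0 : m ≠ 0 := by
      intro hc
      have := (hm 0).1
      rw [hc] at this
      simp only [Pi.zero_apply] at this
      omega
    have h5 := int_q hm0 hT
    have h6 := a_lower hL hm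
    have h7 : (1 / 64 : ℝ) ^ 2 ≤ (a L m) ^ 2 := by gcongr
    have h8 : lam m ≤ 540 * (L : ℝ) ^ 2 := by
      unfold lam
      have h9 : ∀ i, ((m i : ℤ) : ℝ) ^ 2 ≤ 9 * (L : ℝ) ^ 2 := by
        intro i
        have h10 : (0 : ℝ) ≤ ((m i : ℤ) : ℝ) := by
          have := (hm i).1
          exact_mod_cast (by omega : (0 : ℤ) ≤ m i)
        have h11 : ((m i : ℤ) : ℝ) ≤ 3 * L := by exact_mod_cast (hm i).2.le
        nlinarith
      have h10 : ∑ i, ((m i : ℤ) : ℝ) ^ 2 ≤ 27 * (L : ℝ) ^ 2 := by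
        rw [Fin.sum_univ_three]
        linarith [h9 0, h9 1, h9 2]
      have h12 : Real.pi ^ 2 ≤ 10 := by
        have := Real.pi_lt_d2
        have := Real.pi_pos
        nlinarith
      calc 2 * Real.pi ^ 2 * ∑ i, ((m i : ℤ) : ℝ) ^ 2 ≤ 2 * 10 * (27 * (L : ℝ) ^ 2) := by gcongr
        _ = _ := by ring
    have h9 : (540 * (L : ℝ) ^ 2)⁻¹ ≤ (lam m)⁻¹ := inv_anti₀ (lam_pos hm0) h8
    calc T / (2 * 4096 * (540 * (L : ℝ) ^ 2)) = (1 / 64) ^ 2 * (T / 2 * (540 * (L : ℝ) ^ 2)⁻¹) := by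
          field_simp
          norm_num
      _ ≤ (a L m) ^ 2 * (T / 2 * (lam m)⁻¹) := by gcongr
      _ ≤ _ := by gcongr
  have h5 : ∑ m ∈ R, (a L m) ^ 2 * ∫ s in (0:ℝ)..T, q m s ≤
      ∑ m ∈ box (4 * L), (a L m) ^ 2 * ∫ s in (0:ℝ)..T, q m s := by
    refine Finset.sum_le_sum_of_subset_of_nonneg hRs fun m _ _ => ?_
    have : 0 ≤ ∫ s in (0:ℝ)..T, q m s :=
      intervalIntegral.integral_nonneg hT0 fun s hs => q_nonneg m hs.1
    positivity
  have h6 : ∑ _m ∈ R, T / (2 * 4096 * (540 * (L : ℝ) ^ 2)) ≤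
      ∑ m ∈ R, (a L m) ^ 2 * ∫ s in (0:ℝ)..T, q m s := Finset.sum_le_sum h4
  rw [Finset.sum_const, nsmul_eq_mul, hRc] at h6
  have h7 : (L : ℝ) ^ 3 * (T / (2 * 4096 * (540 * (L : ℝ) ^ 2))) = T * L / 4423680 := by
    field_simp
    norm_num
  rw [h7] at h6
  linarith

/-- the real additive functional -/
noncomputable def Fre (L : ℕ) (b : ℝ → Ω → T3) (T : ℝ) (ω : Ω) (x : T3) : ℝ :=
  ∫ u in (0:ℝ)..T, ψ L (x - b u ω)

lemma Ff_re (L : ℕ) (b : ℝ → Ω → T3) (T : ℝ) (ω : Ω) (x : T3) :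
    Ff (ψc L) (fun u => x - b u ω) T = (Fre L b T ω x : ℂ) := by
  unfold Ff Fre ψc
  rw [← intervalIntegral.integral_ofReal]

lemma Fre_meas (h : Mk P b F) (L : ℕ) (T : ℝ) :
    Measurable fun y : Ω × T3 => Fre L b T y.1 y.2 := by
  have h1 : Measurable fun y : Ω × T3 => Ff (ψc L) (fun u => y.2 - b u y.1) T := by
    refine Ff_meas (ψ := ψc L) ?_ (c := fun u (y : Ω × T3) => y.2 - b u y.1) (pr_meas h.bm)
      (fun y => continuous_const.sub (h.cont y.1)) T
    unfold ψc; fun_prop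
  have h2 : (fun y : Ω × T3 => Fre L b T y.1 y.2) =
      fun y => (Ff (ψc L) (fun u => y.2 - b u y.1) T).re := by
    funext y; rw [Ff_re]; simp
  rw [h2]
  exact Complex.measurable_re.comp h1

lemma Fre_bdd (L : ℕ) (b : ℝ → Ω → T3) (T : ℝ) : ∃ C, 0 ≤ C ∧ ∀ ω x, |Fre L b T ω x| ≤ C := by
  obtain ⟨C, hC0, hC⟩ := bdd_of_cont (ψ := ψc L) (by unfold ψc; fun_prop)
  refine ⟨C * |T|, by positivity, fun ω x => ?_⟩
  have := Ff_bound hC (fun u => x - b u ω) T
  rw [Ff_re, Complex.norm_real, Real.norm_eq_abs] at this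
  exact this

lemma Fre_int (h : Mk P b F) (L : ℕ) (T : ℝ) (n : ℕ) :
    Integrable (fun y : Ω × T3 => Fre L b T y.1 y.2 ^ n) (P.prod leb) := by
  obtain ⟨C, hC0, hC⟩ := Fre_bdd L b T
  refine Integrable.of_bound ((Fre_meas h L T).pow_const n).aestronglyMeasurable (C ^ n)
    (ae_of_all _ fun y => ?_)
  rw [norm_pow, Real.norm_eq_abs]
  have := hC y.1 y.2
  gcongr

lemma A_moment (h : Mk P b F) (L : ℕ) (T : ℝ) (n : ℕ) :
    A (ψc L) b P n 0 T = ((∫ y, Fre L b T y.1 y.2 ^ n ∂(P.prod leb) : ℝ) : ℂ) := by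
  rw [← integral_complex_ofReal, integral_prod]
  · unfold A
    refine integral_congr_ae (ae_of_all _ fun ω => ?_)
    refine integral_congr_ae (ae_of_all _ fun x => ?_)
    dsimp only
    rw [e_zero, Ff_re, one_mul]
    push_cast
    rfl
  · exact (Fre_int h L T n).ofReal

/-- the constant of the first absolute moment -/
noncomputable def γ : ℝ := (1 / 2211840) / 2 * √((1 / 2211840) / (2 * 26112))

lemma γ_pos : 0 < γ := by unfold γ; positivity

/-- the first absolute moment -/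
theorem first_moment (h : Mk P b F) {L : ℕ} (hL : 0 < L) {T : ℝ} (hT : 1 ≤ T) (hLT : (L : ℝ) ≤ T) :
    γ * √(T * L) ≤ ∫ y, |Fre L b T y.1 y.2| ∂(P.prod leb) := by
  have hT0 : 0 < T := by linarith
  have hLr : (0 : ℝ) < L := by exact_mod_cast hL
  set m2 := ∫ y, Fre L b T y.1 y.2 ^ 2 ∂(P.prod leb) with hm2
  set m4 := ∫ y, Fre L b T y.1 y.2 ^ 4 ∂(P.prod leb) with hm4
  have h2 : T * L / 2211840 ≤ m2 := by
    obtain ⟨r, hr1, hr2⟩ := A_two_lower h hL hT
    rw [A_moment h L T 2] at hr1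
    have : m2 = r := by exact_mod_cast hr1
    rw [this]; exact hr2
  have h4 : m4 ≤ 26112 * (T * L) ^ 2 := by
    have h5 := A_four h hL hT0.le
    rw [A_moment h L T 4, Complex.norm_real, Real.norm_eq_abs] at h5
    refine (le_abs_self _).trans (h5.trans ?_)
    have h6 : S (4 * L) ≤ 8 * L := by
      have := sum_le (4 * L)
      push_cast at this
      unfold S; linarith
    have h7 : S (8 * L) ≤ 16 * L := by
      have := sum_le (8 * L)
      push_cast at this
      unfold S; linarith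
    have hS := S_nonneg (4 * L)
    have hS' := S_nonneg (8 * L)
    calc 24 * T * S (4 * L) ^ 2 * (T + S (8 * L)) ≤ 24 * T * (8 * L) ^ 2 * (T + 16 * T) := by
          have : S (8 * L) ≤ 16 * T := by linarith
          gcongr
      _ = 26112 * (T * L) ^ 2 := by ring
  -- the truncation level
  set Λ : ℝ := √((2 * 26112) * 2211840 * (T * L)) with hΛ
  have hΛ0 : 0 < Λ := by rw [hΛ]; positivity
  have hΛ2 : Λ ^ 2 = (2 * 26112) * 2211840 * (T * L) := by
    rw [hΛ]; exact Real.sq_sqrt (by positivity)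
  have h5 : ∀ y : ℝ, (y ^ 2 - y ^ 4 / Λ ^ 2) / Λ ≤ |y| := by
    intro y
    rw [div_le_iff₀ hΛ0]
    have e1 : y ^ 4 / Λ ^ 2 = (|y| ^ 2 / Λ) ^ 2 := by
      rw [div_pow, sq_abs]
      ring
    have e2 : y ^ 2 = |y| ^ 2 := (sq_abs y).symm
    rw [e1, e2]
    have hy := abs_nonneg y
    set z := |y| with hz
    rcases le_total z Λ with hc | hc
    · have : 0 ≤ (z ^ 2 / Λ) ^ 2 := by positivity
      nlinarith
    · have : z ≤ z ^ 2 / Λ := by
        rw [le_div_iff₀ hΛ0]; nlinarith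
      nlinarith [mul_nonneg hy hΛ0.le]
  have hI : Integrable (fun y : Ω × T3 => (Fre L b T y.1 y.2 ^ 2 -
      Fre L b T y.1 y.2 ^ 4 / Λ ^ 2) / Λ) (P.prod leb) :=
    ((Fre_int h L T 2).sub ((Fre_int h L T 4).div_const _)).div_const _
  have hI1 : Integrable (fun y : Ω × T3 => |Fre L b T y.1 y.2|) (P.prod leb) := by
    have := Fre_int h L T 1
    simp only [pow_one] at this
    exact this.abs
  have h6 : (m2 - m4 / Λ ^ 2) / Λ ≤ ∫ y, |Fre L b T y.1 y.2| ∂(P.prod leb) := by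
    have h7 := integral_mono hI hI1 (fun y => h5 (Fre L b T y.1 y.2))
    rw [integral_div, integral_sub (Fre_int h L T 2) ((Fre_int h L T 4).div_const _),
      integral_div] at h7
    exact h7
  refine le_trans ?_ h6
  have h8 : m4 / Λ ^ 2 ≤ T * L / (2 * 2211840) := by
    rw [hΛ2, div_le_div_iff₀ (by positivity) (by positivity)]
    nlinarith
  have h9 : T * L / (2 * 2211840) / Λ ≤ (m2 - m4 / Λ ^ 2) / Λ := by
    refine div_le_div_of_nonneg_right ?_ hΛ0.le
    have : T * L / 2211840 = 2 * (T * L / (2 * 2211840)) := by ring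
    linarith
  refine le_trans (le_of_eq ?_) h9
  rw [eq_div_iff hΛ0.ne', hΛ]
  unfold γ
  have e1 : √(1 / 2211840 / (2 * 26112)) * √(2 * 26112 * 2211840 * (T * L)) = √(T * L) := by
    rw [← Real.sqrt_mul (by positivity)]
    congr 1
    field_simp
  have e2 : √(T * L) * √(T * L) = T * L := Real.mul_self_sqrt (by positivity)
  calc 1 / 2211840 / 2 * √(1 / 2211840 / (2 * 26112)) * √(T * L) *
        √(2 * 26112 * 2211840 * (T * L)) =
        1 / 2211840 / 2 * √(T * L) *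
          (√(1 / 2211840 / (2 * 26112)) * √(2 * 26112 * 2211840 * (T * L))) := by ring
    _ = 1 / 2211840 / 2 * (√(T * L) * √(T * L)) := by rw [e1]; ring
    _ = T * L / (2 * 2211840) := by rw [e2]; ring

end Proc

end Q297.Oc
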