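import Pool.Agent.Q297.OcE
import Pool.Agent.Q297.OcB

/-!
The lower bound for the transport cost of the occupation measure.
-/

open MeasureTheory ProbabilityTheory Set Filter Topology
open scoped ENNReal NNReal ComplexConjugate

namespace Q297.Oc

lemma ψ_mean {L : ℕ} (hL : 0 < L) (x : T3) : ∫ y, ψ L (x - y) ∂leb = 0 := by
  have h1 : ((∫ y, ψ L (x - y) ∂leb : ℝ) : ℂ) = 0 := by
    rw [← integral_complex_ofReal]
    simp_rw [ψ_exp]
    rw [integral_finsetSum _ (fun m _ => int_of_cont (by fun_prop))]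
    refine Finset.sum_eq_zero fun m _ => ?_
    have h2 : ∀ y, (a L m : ℂ) * e m (x - y) = (a L m : ℂ) * e m x * e (-m) y := by
      intro y
      rw [e_sub', e_neg]; ring
    simp_rw [h2]
    rw [integral_const_mul, e_int]
    by_cases hm : m = 0
    · subst hm; rw [a_zero hL]; simp
    · have : -m ≠ 0 := fun hc => hm (neg_eq_zero.1 hc)
      simp [this]
  exact_mod_cast h1

section Path

variable {β : ℝ → T3} {T : ℝ}

/-- the occupation measure of a path -/
noncomputable def occP (β : ℝ → T3) (T : ℝ) : Measure T3 := (volume.restrict (Icc 0 T)).map β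

/-- the real additive functional of a path -/
noncomputable def Fp (L : ℕ) (β : ℝ → T3) (T : ℝ) (x : T3) : ℝ := ∫ u in (0:ℝ)..T, ψ L (x - β u)

lemma Fp_meas (hβ : Continuous β) (L : ℕ) (T : ℝ) : Measurable (Fp L β T) := by
  have h1 : Measurable fun x : T3 => Ff (ψc L) (fun u => x - β u) T :=
    Ff_meas (ψ := ψc L) (by unfold ψc; fun_prop) (c := fun u (x : T3) => x - β u)
      (fun u => measurable_id.sub measurable_const)
      (fun x => continuous_const.sub hβ) T
  have h2 : Fp L β T = fun x => (Ff (ψc L) (fun u => x - β u) T).re := by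
    funext x
    unfold Fp Ff ψc
    rw [← Complex.ofReal_re (∫ u in (0:ℝ)..T, ψ L (x - β u)), ← intervalIntegral.integral_ofReal]
  rw [h2]
  exact Complex.measurable_re.comp h1

lemma joint_int (hβ : Continuous β) (L : ℕ) (T : ℝ) {s : T3 → ℝ} (hs : Measurable s)
    (hs1 : ∀ x, |s x| ≤ 1) : Integrable (Function.uncurry fun (u : ℝ) (x : T3) => ψ L (x - β u) * s x)
      ((volume.restrict (uIoc 0 T)).prod leb) := by
  obtain ⟨C, hC0, hC⟩ := bdd_of_cont (ψ := ψc L) (by unfold ψc; fun_prop)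
  have hm : Measurable (Function.uncurry fun (u : ℝ) (x : T3) => ψ L (x - β u) * s x) := by
    have h1 : Continuous fun z : ℝ × T3 => ψ L (z.2 - β z.1) := by fun_prop
    exact h1.measurable.mul (hs.comp measurable_snd)
  have hfr : IsFiniteMeasure (volume.restrict (uIoc 0 T)) := by
    refine ⟨?_⟩
    rw [Measure.restrict_apply_univ, Set.uIoc, Real.volume_Ioc]
    exact ENNReal.ofReal_lt_top
  refine Integrable.of_bound hm.aestronglyMeasurable C (ae_of_all _ fun z => ?_)
  have h1 := hC (z.2 - β z.1)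
  unfold ψc at h1
  rw [Complex.norm_real, Real.norm_eq_abs] at h1
  show |ψ L (z.2 - β z.1) * s z.2| ≤ C
  rw [abs_mul]
  calc |ψ L (z.2 - β z.1)| * |s z.2| ≤ C * 1 := by gcongr; exact hs1 _
    _ = C := mul_one _

lemma int_g (hβ : Continuous β) (hT : 0 ≤ T) {s : ℕ → T3 → ℝ} (hs : ∀ k, Measurable (s k))
    (hs1 : ∀ k x, |s k x| ≤ 1) (k : ℕ) :
    ∫ x, g s k x ∂(occP β T) = ∫ x, Fp (2 ^ k) β T x * s k x ∂leb := by
  have hgc : Continuous (g s k) := by
    rw [continuous_iff_continuousAt]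
    intro y
    rw [ContinuousAt, tendsto_iff_dist_tendsto_zero]
    have h3 : Continuous (fun x : T3 => tdist x y) := by unfold tdist; fun_prop
    have h2 : Continuous (fun x : T3 => 156 * (2 ^ k * tdist x y)) :=
      continuous_const.mul (continuous_const.mul h3)
    have h4 : 156 * (2 ^ k * tdist y y) = 0 := by rw [tdist_self, mul_zero, mul_zero]
    have h5 := h2.tendsto y
    rw [h4] at h5
    refine squeeze_zero (fun x => dist_nonneg) (fun x => ?_) h5
    rw [Real.dist_eq]
    refine (g_mod hs hs1 k x y).trans ?_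
    exact mul_le_mul_of_nonneg_left (min_le_right _ _) (by norm_num)
  unfold occP
  rw [integral_map hβ.measurable.aemeasurable hgc.aestronglyMeasurable,
    integral_Icc_eq_integral_Ioc, ← intervalIntegral.integral_of_le hT]
  unfold g
  rw [intervalIntegral_integral_swap (joint_int hβ (2 ^ k) T (hs k) (hs1 k))]
  refine integral_congr_ae (ae_of_all _ fun x => ?_)
  dsimp only
  unfold Fp
  rw [intervalIntegral.integral_mul_const]

lemma int_g_leb {s : ℕ → T3 → ℝ} (hs : ∀ k, Measurable (s k)) (hs1 : ∀ k x, |s k x| ≤ 1) (k : ℕ) :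
    ∫ y, g s k y ∂leb = 0 := by
  unfold g
  have hpos : 0 < 2 ^ k := by positivity
  obtain ⟨C, hC0, hC⟩ := bdd_of_cont (ψ := ψc (2 ^ k)) (by unfold ψc; fun_prop)
  have hI : Integrable (Function.uncurry fun (y x : T3) => ψ (2 ^ k) (x - y) * s k x)
      (leb.prod leb) := by
    have hm : Measurable (Function.uncurry fun (y x : T3) => ψ (2 ^ k) (x - y) * s k x) := by
      have h1 : Continuous fun z : T3 × T3 => ψ (2 ^ k) (z.2 - z.1) := by fun_prop
      exact h1.measurable.mul ((hs k).comp measurable_snd)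
    refine Integrable.of_bound hm.aestronglyMeasurable C (ae_of_all _ fun z => ?_)
    have h1 := hC (z.2 - z.1)
    unfold ψc at h1
    rw [Complex.norm_real, Real.norm_eq_abs] at h1
    show |ψ (2 ^ k) (z.2 - z.1) * s k z.2| ≤ C
    rw [abs_mul]
    calc |ψ (2 ^ k) (z.2 - z.1)| * |s k z.2| ≤ C * 1 := by gcongr; exact hs1 _ _
      _ = C := mul_one _
  rw [integral_integral_swap hI]
  have : ∀ x, ∫ y, ψ (2 ^ k) (x - y) * s k x ∂leb = 0 := by
    intro x
    rw [integral_mul_const, ψ_mean hpos, zero_mul]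
  simp_rw [this]
  simp

lemma occP_univ (hβ : Continuous β) : occP β T univ = ENNReal.ofReal T := by
  unfold occP
  rw [Measure.map_apply hβ.measurable MeasurableSet.univ]
  simp

/-- the lower bound along a path -/
theorem path_lower (hβ : Continuous β) (hT : 0 ≤ T) (n : ℕ) :
    ENNReal.ofReal (∑ k ∈ Finset.range n, (√2)⁻¹ ^ k * ∫ x, |Fp (2 ^ k) β T x| ∂leb) ≤
      ENNReal.ofReal 2496 * cost (1 / 2) (occP β T) (occP β T univ • leb) := by
  set s : ℕ → T3 → ℝ := fun k x => Real.sign (Fp (2 ^ k) β T x) with hs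
  have hsm : ∀ k, Measurable (s k) := fun k => by
    have h1 : Measurable Real.sign := by
      unfold Real.sign
      exact Measurable.ite (measurableSet_lt measurable_id measurable_const) measurable_const
        (Measurable.ite (measurableSet_lt measurable_const measurable_id) measurable_const
          measurable_const)
    exact h1.comp (Fp_meas hβ _ _)
  have hs1 : ∀ k x, |s k x| ≤ 1 := by
    intro k x
    rw [hs]
    simp only
    rcases Real.sign_apply_eq (Fp (2 ^ k) β T x) with h | h | h <;> rw [h] <;> simp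
  have hfin : IsFiniteMeasure (occP β T) := by
    refine ⟨?_⟩
    rw [occP_univ hβ]; exact ENNReal.ofReal_lt_top
  have hfin2 : IsFiniteMeasure (occP β T univ • leb) := by
    refine ⟨?_⟩
    rw [occP_univ hβ]
    simp
  have h1 := kant (by norm_num : (0:ℝ) < 2496) (f_cont hsm hs1 n) (f_holder hsm hs1 n)
    (μ := occP β T) (ν := occP β T univ • leb)
  have hgc : ∀ k, Continuous (g s k) := by
    intro k
    have h5 : g s k = fun y => (√2) ^ k * (f s (k + 1) y - f s k y) := by
      funext y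
      unfold f
      rw [Finset.sum_range_succ]
      have : (√2) ^ k * (√2)⁻¹ ^ k = 1 := by
        rw [← mul_pow, mul_inv_cancel₀ (by positivity), one_pow]
      have h6 : (√2) ^ k * (∑ x ∈ Finset.range k, (√2)⁻¹ ^ x * g s x y + (√2)⁻¹ ^ k * g s k y -
        ∑ x ∈ Finset.range k, (√2)⁻¹ ^ x * g s x y) = ((√2) ^ k * (√2)⁻¹ ^ k) * g s k y := by ring
      rw [h6, this, one_mul]
    rw [h5]
    exact continuous_const.mul ((f_cont hsm hs1 (k + 1)).sub (f_cont hsm hs1 k))
  have hi : ∀ {H : T3 → ℝ} {μ : Measure T3} [IsFiniteMeasure μ], Continuous H → Integrable H μ :=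
    fun h => h.integrable_of_hasCompactSupport (HasCompactSupport.of_compactSpace _)
  have hci : ∀ k, Continuous fun x => (√2)⁻¹ ^ k * g s k x := fun k =>
    continuous_const.mul (hgc k)
  have h2 : ∫ x, f s n x ∂(occP β T) =
      ∑ k ∈ Finset.range n, (√2)⁻¹ ^ k * ∫ x, |Fp (2 ^ k) β T x| ∂leb := by
    unfold f
    rw [integral_finsetSum _ (fun k _ => hi (hci k))]
    refine Finset.sum_congr rfl fun k _ => ?_
    rw [integral_const_mul, int_g hβ hT hsm hs1 k]
    congr 1
    refine integral_congr_ae (ae_of_all _ fun x => ?_)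
    rw [hs]
    dsimp only
    generalize Fp (2 ^ k) β T x = z
    rcases lt_trichotomy z 0 with hz | hz | hz
    · rw [Real.sign_of_neg hz, abs_of_neg hz]; ring
    · rw [hz]; simp
    · rw [Real.sign_of_pos hz, abs_of_pos hz]; ring
  have h3 : ∫ x, f s n x ∂(occP β T univ • leb) = 0 := by
    rw [integral_smul_measure]
    unfold f
    rw [integral_finsetSum _ (fun k _ => hi (hci k))]
    have : ∑ k ∈ Finset.range n, ∫ x, (√2)⁻¹ ^ k * g s k x ∂leb = 0 := by
      refine Finset.sum_eq_zero fun k _ => ?_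
      rw [integral_const_mul, int_g_leb hsm hs1 k, mul_zero]
    rw [this, smul_zero]
  rw [h2, h3, sub_zero] at h1
  exact h1

end Path

section Proc

variable {Ω : Type*} [mΩ : MeasurableSpace Ω] {P : Measure Ω} [IsProbabilityMeasure P]
  {b : ℝ → Ω → T3} {F : ℝ → MeasurableSpace Ω}

theorem main_mk (h : Mk P b F) {T : ℝ} (hT : 1 ≤ T) :
    ENNReal.ofReal (γ / 2496 * (√T * Real.log T)) ≤
      ∫⁻ ω, cost (1 / 2) (occP (fun t => b t ω) T) (occP (fun t => b t ω) T univ • leb) ∂P := by
  have hT0 : 0 < T := by linarith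
  set n := Nat.log 2 ⌊T⌋₊ + 1 with hn
  have hfl : 1 ≤ ⌊T⌋₊ := Nat.le_floor (by exact_mod_cast hT)
  have hk : ∀ k ∈ Finset.range n, ((2 ^ k : ℕ) : ℝ) ≤ T := by
    intro k hk
    rw [Finset.mem_range] at hk
    have h1 : 2 ^ k ≤ ⌊T⌋₊ := by
      calc 2 ^ k ≤ 2 ^ Nat.log 2 ⌊T⌋₊ := Nat.pow_le_pow_right (by norm_num) (by omega)
        _ ≤ ⌊T⌋₊ := Nat.pow_log_le_self 2 (by omega)
    calc ((2 ^ k : ℕ) : ℝ) ≤ (⌊T⌋₊ : ℝ) := by exact_mod_cast h1
      _ ≤ T := Nat.floor_le hT0.le
  have hlog : Real.log T ≤ n := by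
    have h1 : ⌊T⌋₊ < 2 ^ n := Nat.lt_pow_succ_log_self (by norm_num) _
    have h2 : T < 2 ^ n := by
      have h3 := Nat.lt_floor_add_one T
      have h4 : (⌊T⌋₊ : ℝ) + 1 ≤ 2 ^ n := by exact_mod_cast h1
      linarith
    calc Real.log T ≤ Real.log (2 ^ n) := Real.log_le_log hT0 h2.le
      _ = n * Real.log 2 := by rw [Real.log_pow]
      _ ≤ n * 1 := by
        have := Real.log_two_lt_d9
        gcongr
        linarith
      _ = n := mul_one _
  have h1 : ∀ ω, ENNReal.ofReal (∑ k ∈ Finset.range n,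
      (√2)⁻¹ ^ k * ∫ x, |Fre (2 ^ k) b T ω x| ∂leb) ≤
      ENNReal.ofReal 2496 * cost (1 / 2) (occP (fun t => b t ω) T)
        (occP (fun t => b t ω) T univ • leb) :=
    fun ω => path_lower (h.cont ω) hT0.le n
  have hm : Measurable fun ω => ∑ k ∈ Finset.range n,
      (√2)⁻¹ ^ k * ∫ x, |Fre (2 ^ k) b T ω x| ∂leb := by
    refine Finset.measurable_sum _ fun k _ => measurable_const.mul ?_
    have h2 : Measurable fun y : Ω × T3 => |Fre (2 ^ k) b T y.1 y.2| := (Fre_meas h _ T).abs
    exact (h2.stronglyMeasurable.integral_prod_right' (ν := leb)).measurable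
  have hI : ∀ k, Integrable (fun y : Ω × T3 => |Fre (2 ^ k) b T y.1 y.2|) (P.prod leb) := by
    intro k
    have := Fre_int h (2 ^ k) T 1
    simp only [pow_one] at this
    exact this.abs
  have hI2 : ∀ k, Integrable (fun ω => (√2)⁻¹ ^ k * ∫ x, |Fre (2 ^ k) b T ω x| ∂leb) P := by
    intro k
    exact (hI k).integral_prod_left.const_mul _
  have h2 : γ * √T * n ≤ ∫ ω, ∑ k ∈ Finset.range n,
      (√2)⁻¹ ^ k * ∫ x, |Fre (2 ^ k) b T ω x| ∂leb ∂P := by
    rw [integral_finsetSum _ (fun k _ => hI2 k)]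
    have h3 : ∀ k ∈ Finset.range n, γ * √T ≤
        ∫ ω, (√2)⁻¹ ^ k * ∫ x, |Fre (2 ^ k) b T ω x| ∂leb ∂P := by
      intro k hk'
      have h4 := first_moment h (L := 2 ^ k) (by positivity) hT (hk k hk')
      rw [integral_const_mul, ← integral_prod _ (hI k)]
      have h5 : γ * √T = (√2)⁻¹ ^ k * (γ * √(T * ((2 ^ k : ℕ) : ℝ))) := by
        have h6 : √(T * ((2 ^ k : ℕ) : ℝ)) = √T * (√2) ^ k := by
          rw [Real.sqrt_mul hT0.le]
          congr 1
          push_cast
          rw [Real.sqrt_eq_iff_mul_self_eq (by positivity) (by positivity), ← mul_pow,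
            Real.mul_self_sqrt (by norm_num)]
        rw [h6]
        have h7 : (√2)⁻¹ ^ k * (√2) ^ k = 1 := by
          rw [← mul_pow, inv_mul_cancel₀ (by positivity), one_pow]
        calc γ * √T = γ * √T * 1 := (mul_one _).symm
          _ = γ * √T * ((√2)⁻¹ ^ k * (√2) ^ k) := by rw [h7]
          _ = _ := by ring
      rw [h5]
      exact mul_le_mul_of_nonneg_left h4 (by positivity)
    calc γ * √T * n = ∑ _k ∈ Finset.range n, γ * √T := by
          rw [Finset.sum_const, Finset.card_range, nsmul_eq_mul]; ring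
      _ ≤ _ := Finset.sum_le_sum h3
  have h3 : ENNReal.ofReal (γ * √T * n) ≤ ENNReal.ofReal 2496 *
      ∫⁻ ω, cost (1 / 2) (occP (fun t => b t ω) T) (occP (fun t => b t ω) T univ • leb) ∂P := by
    calc ENNReal.ofReal (γ * √T * n) ≤ ENNReal.ofReal (∫ ω, ∑ k ∈ Finset.range n,
      (√2)⁻¹ ^ k * ∫ x, |Fre (2 ^ k) b T ω x| ∂leb ∂P) := ENNReal.ofReal_le_ofReal h2
      _ = ∫⁻ ω, ENNReal.ofReal (∑ k ∈ Finset.range n,
          (√2)⁻¹ ^ k * ∫ x, |Fre (2 ^ k) b T ω x| ∂leb) ∂P := by
          refine ofReal_integral_eq_lintegral_ofReal (integrable_finsetSum _ fun k _ => hI2 k)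
            (ae_of_all _ fun ω => ?_)
          refine Finset.sum_nonneg fun k _ => mul_nonneg (by positivity) ?_
          exact integral_nonneg fun x => abs_nonneg _
      _ = ∫⁻ ω, ENNReal.ofReal 2496 * ((ENNReal.ofReal 2496)⁻¹ *
          ENNReal.ofReal (∑ k ∈ Finset.range n,
          (√2)⁻¹ ^ k * ∫ x, |Fre (2 ^ k) b T ω x| ∂leb)) ∂P := by
          refine lintegral_congr fun ω => ?_
          rw [← mul_assoc, ENNReal.mul_inv_cancel (by simp) (by simp), one_mul]
      _ = ENNReal.ofReal 2496 * ∫⁻ ω, ((ENNReal.ofReal 2496)⁻¹ *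
          ENNReal.ofReal (∑ k ∈ Finset.range n,
          (√2)⁻¹ ^ k * ∫ x, |Fre (2 ^ k) b T ω x| ∂leb)) ∂P := by
          rw [lintegral_const_mul]
          exact measurable_const.mul hm.ennreal_ofReal
      _ ≤ _ := by
          gcongr with ω
          rw [mul_comm, ← div_eq_mul_inv]
          exact ENNReal.div_le_of_le_mul' (h1 ω)
  have h4 : ENNReal.ofReal (γ / 2496 * (√T * Real.log T)) ≤
      (ENNReal.ofReal 2496)⁻¹ * ENNReal.ofReal (γ * √T * n) := by
    rw [← ENNReal.ofReal_inv_of_pos (by norm_num), ← ENNReal.ofReal_mul (by norm_num)]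
    refine ENNReal.ofReal_le_ofReal ?_
    have h5 : √T * Real.log T ≤ √T * n := by gcongr
    have h6 := γ_pos
    calc γ / 2496 * (√T * Real.log T) ≤ γ / 2496 * (√T * n) := by gcongr
      _ = _ := by ring
  refine h4.trans ?_
  rw [mul_comm, ← div_eq_mul_inv]
  exact ENNReal.div_le_of_le_mul' h3

end Proc

end Q297.Oc
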