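import Pool.Agent.Q297.OcF

/-!
Stationary Brownian motion on the torus has the Markov property used in the moment recursion.
-/

open MeasureTheory ProbabilityTheory Set Filter Topology
open scoped ENNReal NNReal ComplexConjugate

namespace Q297.Oc

/-- the projection -/
noncomputable def toT (v : Fin 3 → ℝ) : T3 := fun i => ((v i : ℝ) : UnitAddCircle)

lemma coe_cont : Continuous (fun x : ℝ => (x : UnitAddCircle)) := AddCircle.continuous_mk' 1

lemma toT_cont : Continuous toT :=
  continuous_pi fun i => coe_cont.comp (continuous_apply i)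

lemma toT_sub (v w : Fin 3 → ℝ) : toT (v - w) = toT v - toT w := by
  funext i
  simp only [toT, Pi.sub_apply, AddCircle.coe_sub]

lemma gauss_four (n : ℤ) (v : ℝ≥0) :
    ∫ x : ℝ, conj (fourier n (x : UnitAddCircle)) ∂(gaussianReal 0 v) =
      Complex.exp (-(2 * Real.pi ^ 2 * (n : ℂ) ^ 2 * v)) := by
  have h1 : ∀ x : ℝ, conj (fourier n (x : UnitAddCircle)) =
      Complex.exp (((-(2 * Real.pi * n) : ℝ) : ℂ) * x * Complex.I) := by
    intro x
    rw [fourier_coe_apply, ← Complex.exp_conj]
    congr 1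
    simp only [map_mul, Complex.conj_I, Complex.conj_ofReal, map_ofNat, map_intCast,
      Complex.ofReal_one, div_one]
    push_cast
    ring
  simp_rw [h1]
  rw [← charFun_apply_real, charFun_gaussianReal]
  congr 1
  push_cast
  ring

lemma gauss_char (p : Fr) (v : ℝ≥0) :
    ∫ x, conj (e p (toT x)) ∂(Measure.pi fun _ : Fin 3 => gaussianReal 0 v) =
      (Real.exp (-(lam p * v)) : ℂ) := by
  have h1 : ∀ x : Fin 3 → ℝ, conj (e p (toT x)) =
      ∏ i, conj (fourier (p i) ((x i : ℝ) : UnitAddCircle)) := by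
    intro x
    unfold e toT
    rw [map_prod]
  simp_rw [h1]
  rw [integral_fintype_prod_eq_prod (μ := fun _ : Fin 3 => gaussianReal 0 v)
    (f := fun i (x : ℝ) => conj (fourier (p i) (x : UnitAddCircle) : ℂ))]
  simp_rw [gauss_four]
  rw [← Complex.exp_sum]
  push_cast
  congr 1
  unfold lam
  push_cast
  rw [Finset.sum_neg_distrib, Finset.mul_sum, Finset.sum_mul]

lemma e_meas (p : Fr) : Measurable fun x : Fin 3 → ℝ => conj (e p (toT x)) :=
  (Complex.continuous_conj.comp ((e_cont p).comp toT_cont)).measurable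

/-- the Markov property from the filtration -/
theorem mk_of_bm {Ω : Type*} [mΩ : MeasurableSpace Ω] {P : Measure Ω} [IsProbabilityMeasure P]
    {B : ℝ≥0 → Ω → T3} {𝓕 : Filtration ℝ≥0 mΩ} {X : ℝ≥0 → Ω → Fin 3 → ℝ}
    (h0 : Measurable[𝓕 0] (B 0)) (hX : ∀ t, Measurable[𝓕 t] (X t))
    (hc : ∀ ω, Continuous fun t => X t ω)
    (hi : ∀ s t, s ≤ t → Indep (MeasurableSpace.comap (fun ω => X t ω - X s ω) inferInstance)
      (𝓕 s) P ∧ P.map (fun ω => X t ω - X s ω) = Measure.pi fun _ => gaussianReal 0 (t - s))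
    (hB : ∀ t ω, B t ω = B 0 ω + toT (X t ω)) :
    Mk P (fun t ω => B t.toNNReal ω) (fun s => 𝓕 s.toNNReal) where
  le := fun s => 𝓕.le _
  meas := by
    intro u s hus
    have hle : u.toNNReal ≤ s.toNNReal := Real.toNNReal_le_toNNReal hus
    have h1 : Measurable[𝓕 s.toNNReal] (B 0) := h0.mono (𝓕.mono zero_le) le_rfl
    have h2 : Measurable[𝓕 s.toNNReal] (X u.toNNReal) := (hX _).mono (𝓕.mono hle) le_rfl
    have h3 : B u.toNNReal = fun ω => B 0 ω + toT (X u.toNNReal ω) := funext fun ω => hB _ ω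
    show Measurable[𝓕 s.toNNReal] (B u.toNNReal)
    rw [h3]
    exact h1.add (toT_cont.measurable.comp h2)
  cont := by
    intro ω
    have h3 : (fun t : ℝ => B t.toNNReal ω) = fun t => B 0 ω + toT (X t.toNNReal ω) :=
      funext fun t => hB _ ω
    rw [h3]
    exact continuous_const.add (toT_cont.comp ((hc ω).comp continuous_real_toNNReal))
  inc := by
    intro s t hs hst p G hG
    have hle : s.toNNReal ≤ t.toNNReal := Real.toNNReal_le_toNNReal hst
    obtain ⟨h1, h2⟩ := hi _ _ hle
    have hXm : ∀ u, Measurable (X u) := fun u => (hX u).mono (𝓕.le u) le_rfl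
    have hYm : Measurable fun ω => X t.toNNReal ω - X s.toNNReal ω := (hXm _).sub (hXm _)
    have hGm : Measurable G := hG.mono (𝓕.le _) le_rfl
    have h3 : IndepFun (fun ω => X t.toNNReal ω - X s.toNNReal ω) G P := by
      rw [IndepFun_iff_Indep]
      exact indep_of_indep_of_le_right h1 hG.comap_le
    have h4 : ∀ ω, conj (e p (B t.toNNReal ω - B s.toNNReal ω)) * G ω =
        (fun x : Fin 3 → ℝ => conj (e p (toT x))) (X t.toNNReal ω - X s.toNNReal ω) *
          (fun z : ℂ => z) (G ω) := by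
      intro ω
      dsimp only
      rw [toT_sub, hB t.toNNReal ω, hB s.toNNReal ω]
      congr 3
      abel
    simp_rw [h4]
    have h7 := h3.integral_fun_comp_mul_comp (f := fun x : Fin 3 → ℝ => conj (e p (toT x)))
      (g := fun z : ℂ => z) hYm.aemeasurable hGm.aemeasurable
      (e_meas p).aestronglyMeasurable measurable_id.aestronglyMeasurable
    rw [h7]
    congr 1
    have h5 : ∫ ω, (fun x : Fin 3 → ℝ => conj (e p (toT x)))
        (X t.toNNReal ω - X s.toNNReal ω) ∂P =
        ∫ x, conj (e p (toT x)) ∂(P.map fun ω => X t.toNNReal ω - X s.toNNReal ω) :=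
      (integral_map hYm.aemeasurable (e_meas p).aestronglyMeasurable).symm
    rw [h5, h2, gauss_char]
    have h6 : ((t.toNNReal - s.toNNReal : ℝ≥0) : ℝ) = t - s := by
      rw [NNReal.coe_sub hle, Real.coe_toNNReal _ (hs.trans hst), Real.coe_toNNReal _ hs]
    rw [h6]

end Q297.Oc
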