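import Mathlib

/-!
# The combinatorial inequality for 100 clusters of two points
-/

open Finset

namespace Pool.Agent.Q297.Pair

set_option linter.unusedSectionVars false

variable {ι : Type} [Fintype ι] [DecidableEq ι]

/-- the two-level distance; `bar` is the partner map -/
noncomputable def dd (bar : ι → ι) (u v : ι) : ℝ :=
  if u = v then 0 else if v = bar u then 1 else 2
/-- the weights -/
noncomputable def ww (bar : ι → ι) (x y : ι) : ℝ :=
  if x = y then 0 else if y = bar x then 198 else 3

section
variable {bar : ι → ι}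

lemma dd_symm (bar_bar : ∀ x, bar (bar x) = x) (u v : ι) : dd bar u v = dd bar v u := by
  unfold dd
  by_cases h : u = v
  · simp [h]
  · have h' : ¬ v = u := fun e => h e.symm
    by_cases hb : v = bar u
    · have : u = bar v := by rw [hb, bar_bar]
      rw [if_neg h, if_neg h', if_pos hb, if_pos this]
    · have : ¬ u = bar v := fun e => hb (by rw [e, bar_bar])
      rw [if_neg h, if_neg h', if_neg hb, if_neg this]

lemma ww_symm (bar_bar : ∀ x, bar (bar x) = x) (u v : ι) : ww bar u v = ww bar v u := by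
  unfold ww
  by_cases h : u = v
  · simp [h]
  · have h' : ¬ v = u := fun e => h e.symm
    by_cases hb : v = bar u
    · have : u = bar v := by rw [hb, bar_bar]
      rw [if_neg h, if_neg h', if_pos hb, if_pos this]
    · have : ¬ u = bar v := fun e => hb (by rw [e, bar_bar])
      rw [if_neg h, if_neg h', if_neg hb, if_neg this]

lemma dd_nonneg (u v : ι) : 0 ≤ dd bar u v := by unfold dd; split_ifs <;> norm_num
lemma ww_nonneg (u v : ι) : 0 ≤ ww bar u v := by unfold ww; split_ifs <;> norm_num
lemma one_le_dd {u v : ι} (h : u ≠ v) : 1 ≤ dd bar u v := by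
  unfold dd; rw [if_neg h]; split_ifs <;> norm_num
lemma three_le_ww {u v : ι} (h : u ≠ v) : 3 ≤ ww bar u v := by
  unfold ww; rw [if_neg h]; split_ifs <;> norm_num


/-- the total weighted cost of a configuration -/
noncomputable def tot (bar : ι → ι) (z : ι → ι) : ℝ :=
  ∑ x, ∑ y, ww bar x y * dd bar (z x) (z y)

/-- number of points sent to their partner -/
noncomputable def cnt (bar : ι → ι) (z : ι → ι) : ℝ := ∑ x, (if z x = bar x then (1 : ℝ) else 0)

lemma cnt_nonneg (z : ι → ι) : 0 ≤ cnt bar z :=
  Finset.sum_nonneg (fun x _ => by split_ifs <;> norm_num)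

lemma term_nonneg (z : ι → ι) (x y : ι) : 0 ≤ ww bar x y * dd bar (z x) (z y) :=
  mul_nonneg (ww_nonneg _ _) (dd_nonneg _ _)

/-- crude bound by the mode -/
lemma tot_ge_mode (card_idx : Fintype.card ι = 200) (z : ι → ι) (v : ι)
    (hv : ∀ u, (univ.filter (fun x => z x = u)).card ≤ (univ.filter (fun x => z x = v)).card) :
    600 * ((univ.filter (fun x => z x ≠ v)).card : ℝ) ≤ tot bar z := by
  have hcard : ∀ u : ι, ((univ.filter (fun x => z x = u)).card : ℝ)
      + ((univ.filter (fun x => z x ≠ u)).card : ℝ) = 200 := by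
    intro u
    have := Finset.card_filter_add_card_filter_not (s := (univ : Finset ι)) (fun x => z x = u)
    rw [Finset.card_univ, card_idx] at this
    exact_mod_cast this
  have hx : ∀ x : ι, 3 * ((univ.filter (fun x => z x ≠ v)).card : ℝ)
      ≤ ∑ y, ww bar x y * dd bar (z x) (z y) := by
    intro x
    have h1 : ((univ.filter (fun x => z x ≠ v)).card : ℝ)
        ≤ ((univ.filter (fun y => z y ≠ z x)).card : ℝ) := by
      have a := hcard v
      have b := hcard (z x)
      have c : ((univ.filter (fun y => z y = z x)).card : ℝ)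
        ≤ ((univ.filter (fun y => z y = v)).card : ℝ) := by exact_mod_cast hv (z x)
      linarith
    have h2 : (3 : ℝ) * ((univ.filter (fun y => z y ≠ z x)).card : ℝ)
        ≤ ∑ y ∈ univ.filter (fun y => z y ≠ z x), ww bar x y * dd bar (z x) (z y) := by
      have : ∑ y ∈ univ.filter (fun y => z y ≠ z x), (3 : ℝ)
          ≤ ∑ y ∈ univ.filter (fun y => z y ≠ z x), ww bar x y * dd bar (z x) (z y) := by
        apply Finset.sum_le_sum
        intro y hy
        rw [Finset.mem_filter] at hy
        have hxy : x ≠ y := fun e => hy.2 (by rw [e])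
        have a := three_le_ww (bar := bar) hxy
        have b := one_le_dd (bar := bar) (u := z x) (v := z y) (fun e => hy.2 e.symm)
        nlinarith
      rw [Finset.sum_const, nsmul_eq_mul] at this
      linarith
    have h3 : ∑ y ∈ univ.filter (fun y => z y ≠ z x), ww bar x y * dd bar (z x) (z y)
        ≤ ∑ y, ww bar x y * dd bar (z x) (z y) :=
      Finset.sum_le_univ_sum_of_nonneg (fun y => term_nonneg z x y)
    linarith
  unfold tot
  have : ∑ x : ι, (3 * ((univ.filter (fun x => z x ≠ v)).card : ℝ))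
      ≤ ∑ x, ∑ y, ww bar x y * dd bar (z x) (z y) := Finset.sum_le_sum (fun x _ => hx x)
  rw [Finset.sum_const, Finset.card_univ, card_idx, nsmul_eq_mul] at this
  push_cast at this
  linarith

/-- the sum of weights from a deviator to the non-deviators -/
lemma sum_ww (card_idx : Fintype.card ι = 200) (S : Finset ι) (x : ι) (hx : x ∈ S) :
    ∑ y ∈ Sᶜ, ww bar x y = 3 * (200 - (S.card : ℝ)) + (if bar x ∈ S then 0 else 195) := by
  have h1 : ∀ y ∈ Sᶜ, ww bar x y = 3 + (if y = bar x then (195 : ℝ) else 0) := by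
    intro y hy
    have hne : x ≠ y := by
      intro e
      rw [← e, Finset.mem_compl] at hy
      exact hy hx
    unfold ww
    rw [if_neg hne]
    split_ifs <;> norm_num
  rw [Finset.sum_congr rfl h1, Finset.sum_add_distrib, Finset.sum_const, Finset.sum_ite_eq',
    Finset.card_compl, card_idx, nsmul_eq_mul]
  have hle : S.card ≤ 200 := by
    have := Finset.card_le_univ S
    rwa [card_idx] at this
  rw [Nat.cast_sub hle]
  have : (if bar x ∈ Sᶜ then (195 : ℝ) else 0) = (if bar x ∈ S then (0 : ℝ) else 195) := by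
    by_cases h : bar x ∈ S
    · simp [h]
    · simp [h]
  rw [this]
  push_cast
  ring

/-- cut bound -/
lemma tot_ge_cut (card_idx : Fintype.card ι = 200)
    (bar_bar : ∀ x, bar (bar x) = x) (z : ι → ι) (v : ι) :
    2 * ∑ x ∈ univ.filter (fun x => z x ≠ v),
      dd bar (z x) v * (3 * (200 - ((univ.filter (fun x => z x ≠ v)).card : ℝ))
        + (if z (bar x) ≠ v then 0 else 195)) ≤ tot bar z := by
  set S := univ.filter (fun x => z x ≠ v) with hS
  have hmem : ∀ x, x ∈ S ↔ z x ≠ v := by intro x; simp [hS]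
  have e1 : ∀ x ∈ S, ∑ y ∈ Sᶜ, ww bar x y * dd bar (z x) (z y)
      = dd bar (z x) v * (3 * (200 - (S.card : ℝ)) + (if z (bar x) ≠ v then 0 else 195)) := by
    intro x hx
    have : ∀ y ∈ Sᶜ, ww bar x y * dd bar (z x) (z y) = dd bar (z x) v * ww bar x y := by
      intro y hy
      have : z y = v := by
        rw [Finset.mem_compl, hmem] at hy
        exact not_not.mp hy
      rw [this]; ring
    rw [Finset.sum_congr rfl this, ← Finset.mul_sum, sum_ww card_idx S x hx]
    simp only [hmem]
  have e2 : tot bar z = ∑ x ∈ S, ∑ y, ww bar x y * dd bar (z x) (z y)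
      + ∑ x ∈ Sᶜ, ∑ y, ww bar x y * dd bar (z x) (z y) := by
    unfold tot
    rw [Finset.sum_add_sum_compl]
  have e3 : ∑ x ∈ S, ∑ y ∈ Sᶜ, ww bar x y * dd bar (z x) (z y)
      ≤ ∑ x ∈ S, ∑ y, ww bar x y * dd bar (z x) (z y) :=
    Finset.sum_le_sum (fun x _ => Finset.sum_le_univ_sum_of_nonneg (fun y => term_nonneg z x y))
  have e4 : ∑ x ∈ Sᶜ, ∑ y ∈ S, ww bar x y * dd bar (z x) (z y)
      ≤ ∑ x ∈ Sᶜ, ∑ y, ww bar x y * dd bar (z x) (z y) :=
    Finset.sum_le_sum (fun x _ => Finset.sum_le_univ_sum_of_nonneg (fun y => term_nonneg z x y))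
  have e5 : ∑ x ∈ Sᶜ, ∑ y ∈ S, ww bar x y * dd bar (z x) (z y)
      = ∑ x ∈ S, ∑ y ∈ Sᶜ, ww bar x y * dd bar (z x) (z y) := by
    rw [Finset.sum_comm]
    refine Finset.sum_congr rfl (fun x _ => Finset.sum_congr rfl (fun y _ => ?_))
    rw [ww_symm bar_bar, dd_symm bar_bar]
  have e6 : ∑ x ∈ S, ∑ y ∈ Sᶜ, ww bar x y * dd bar (z x) (z y)
      = ∑ x ∈ S, dd bar (z x) v * (3 * (200 - (S.card : ℝ)) + (if z (bar x) ≠ v then 0 else 195)) :=
    Finset.sum_congr rfl e1
  rw [← e6]
  linarith

/-- **The combinatorial inequality.** -/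
theorem comb (card_idx : Fintype.card ι = 200) (bar_bar : ∀ x, bar (bar x) = x)
    (bar_ne : ∀ x, bar x ≠ x) (z : ι → ι) (hz : ∀ x, z x ≠ x) : 1560 * (3 - cnt bar z) ≤ tot bar z := by
  have hc0 := cnt_nonneg (bar := bar) z
  have hne : Nonempty ι := Fintype.card_pos_iff.1 (by omega)
  obtain ⟨v, -, hv⟩ := Finset.exists_max_image (univ : Finset ι)
    (fun u => (univ.filter (fun x => z x = u)).card) Finset.univ_nonempty
  have hv' : ∀ u, (univ.filter (fun x => z x = u)).card
      ≤ (univ.filter (fun x => z x = v)).card := fun u => hv u (Finset.mem_univ u)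
  have hmode := tot_ge_mode (bar := bar) card_idx z v hv'
  have hcut := tot_ge_cut card_idx bar_bar z v
  set S := univ.filter (fun x => z x ≠ v) with hS
  have hmem : ∀ x, x ∈ S ↔ z x ≠ v := by intro x; simp [hS]
  by_cases h8 : 8 ≤ S.card
  · have : (8 : ℝ) ≤ S.card := by exact_mod_cast h8
    nlinarith
  have hs7 : (S.card : ℝ) ≤ 7 := by
    have : S.card ≤ 7 := by omega
    exact_mod_cast this
  have hfn : ∀ x ∈ S, 0 ≤ dd bar (z x) v * (3 * (200 - (S.card : ℝ))
      + (if z (bar x) ≠ v then 0 else 195)) := by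
    intro x _
    apply mul_nonneg (dd_nonneg _ _)
    have : (0 : ℝ) ≤ (if z (bar x) ≠ v then (0 : ℝ) else 195) := by split_ifs <;> norm_num
    linarith
  by_cases h5 : 6 ≤ S.card
  · have h5' : (6 : ℝ) ≤ S.card := by exact_mod_cast h5
    have : ∑ x ∈ S, (579 : ℝ) ≤ ∑ x ∈ S, dd bar (z x) v * (3 * (200 - (S.card : ℝ))
        + (if z (bar x) ≠ v then 0 else 195)) := by
      apply Finset.sum_le_sum
      intro x hx
      have a : 1 ≤ dd bar (z x) v := one_le_dd ((hmem x).1 hx)
      have b : (0 : ℝ) ≤ (if z (bar x) ≠ v then (0 : ℝ) else 195) := by split_ifs <;> norm_num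
      nlinarith
    rw [Finset.sum_const, nsmul_eq_mul] at this
    nlinarith
  have hs5 : (S.card : ℝ) ≤ 5 := by
    have : S.card ≤ 5 := by omega
    exact_mod_cast this
  have hvS : v ∈ S := (hmem v).2 (hz v)
  have hfsum : ∀ T : Finset ι, T ⊆ S → ∑ x ∈ T, dd bar (z x) v * (3 * (200 - (S.card : ℝ))
        + (if z (bar x) ≠ v then 0 else 195))
      ≤ ∑ x ∈ S, dd bar (z x) v * (3 * (200 - (S.card : ℝ))
        + (if z (bar x) ≠ v then 0 else 195)) := by
    intro T hT
    exact Finset.sum_le_sum_of_subset_of_nonneg hT (fun x hx _ => hfn x hx)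
  by_cases hb : z (bar v) = v
  · -- the partner of `v` is not a deviator
    have h1 := hfsum {v} (by simpa using hvS)
    rw [Finset.sum_singleton, if_neg (not_not.mpr hb)] at h1
    have hcb : 1 + (if z v = bar v then (1 : ℝ) else 0) ≤ cnt bar z := by
      have : ∑ x ∈ ({bar v, v} : Finset ι), (if z x = bar x then (1 : ℝ) else 0) ≤ cnt bar z :=
        Finset.sum_le_univ_sum_of_nonneg (fun x => by split_ifs <;> norm_num)
      rw [Finset.sum_pair (bar_ne v)] at this
      rw [if_pos (by rw [hb, bar_bar])] at this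
      exact this
    by_cases hzv : z v = bar v
    · rw [if_pos hzv] at hcb
      have hd : dd bar (z v) v = 1 := by
        rw [hzv]; unfold dd
        rw [if_neg (bar_ne v), if_pos (by rw [bar_bar])]
      rw [hd] at h1
      nlinarith
    · rw [if_neg hzv] at hcb
      have hd : dd bar (z v) v = 2 := by
        unfold dd
        rw [if_neg (hz v), if_neg]
        intro e
        exact hzv (by have h := congrArg bar e; rw [bar_bar] at h; exact h.symm)
      rw [hd] at h1
      nlinarith
  · have hbS : bar v ∈ S := (hmem _).2 hb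
    have h1 := hfsum {bar v, v} (by
      intro x hx
      rw [Finset.mem_insert, Finset.mem_singleton] at hx
      rcases hx with h | h <;> rw [h] <;> assumption)
    rw [Finset.sum_pair (bar_ne v), bar_bar, if_pos hb, if_pos (hz v)] at h1
    have hdb : dd bar (z (bar v)) v = 2 := by
      unfold dd
      rw [if_neg hb, if_neg]
      intro e
      have : z (bar v) = bar v := by
        have h := congrArg bar e
        rw [bar_bar] at h
        exact h.symm
      exact hz _ this
    rw [hdb] at h1
    by_cases hzv : z v = bar v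
    · have hd : dd bar (z v) v = 1 := by
        rw [hzv]; unfold dd
        rw [if_neg (bar_ne v), if_pos (by rw [bar_bar])]
      have hcb : (1 : ℝ) ≤ cnt bar z := by
        have : ∑ x ∈ ({v} : Finset ι), (if z x = bar x then (1 : ℝ) else 0) ≤ cnt bar z :=
          Finset.sum_le_univ_sum_of_nonneg (fun x => by split_ifs <;> norm_num)
        rw [Finset.sum_singleton, if_pos hzv] at this
        exact this
      rw [hd] at h1
      nlinarith
    · have hd : dd bar (z v) v = 2 := by
        unfold dd
        rw [if_neg (hz v), if_neg]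
        intro e
        exact hzv (by have h := congrArg bar e; rw [bar_bar] at h; exact h.symm)
      rw [hd] at h1
      nlinarith

end

end Pool.Agent.Q297.Pair
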