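import Mathlib
import Pool.Agent.Q297.PairComb

/-!
# Lower bound for the optimal pairwise coupling ratio
-/

open MeasureTheory Set
open scoped ENNReal unitInterval

namespace Pool.Agent.Q297.Pair

/-- The cost `|x - y| ^ q`. -/
noncomputable def cost (q x y : ℝ) : ℝ≥0∞ := ENNReal.ofReal (|x - y| ^ q)

/-- The optimal transport cost of two measures on the line for the cost `|x - y| ^ q`. -/
noncomputable def optCost (q : ℝ) (P Q : Measure ℝ) : ℝ≥0∞ :=
  ⨅ π : Measure (ℝ × ℝ), ⨅ _ : π.map Prod.fst = P ∧ π.map Prod.snd = Q,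
    ∫⁻ z, cost q z.1 z.2 ∂π

/-- A coupling of all Borel probability measures on the line on the space `([0,1], Lebesgue)`. -/
def IsCoupling (X : ProbabilityMeasure ℝ → unitInterval → ℝ) : Prop :=
  ∀ P : ProbabilityMeasure ℝ, AEMeasurable (X P) (volume : Measure unitInterval) ∧
    Measure.map (X P) (volume : Measure unitInterval) = (P : Measure ℝ)

/-- The pairwise coupling ratio of a coupling. -/
noncomputable def ratio (q : ℝ) (X : ProbabilityMeasure ℝ → unitInterval → ℝ) : ℝ≥0∞ :=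
  sInf {r : ℝ≥0∞ | 1 ≤ r ∧ r < ⊤ ∧ ∀ P Q : ProbabilityMeasure ℝ,
    ∫⁻ ω : unitInterval, cost q (X P ω) (X Q ω) ≤ r * optCost q (P : Measure ℝ) (Q : Measure ℝ)}

/-- The optimal pairwise coupling ratio. -/
noncomputable def optRatio (q : ℝ) : ℝ≥0∞ :=
  ⨅ X : ProbabilityMeasure ℝ → unitInterval → ℝ, ⨅ _ : IsCoupling X, ratio q X

section
variable {ι : Type} [Fintype ι] [DecidableEq ι]

/-- uniform distribution on all points but one -/
noncomputable def unif (pos : ι → ℝ) (x : ι) : Measure ℝ :=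
  ∑ u ∈ Finset.univ.erase x, (199 : ℝ≥0∞)⁻¹ • Measure.dirac (pos u)

lemma unif_apply (pos : ι → ℝ) (x : ι) (s : Set ℝ) :
    unif pos x s = ∑ u ∈ Finset.univ.erase x, (199 : ℝ≥0∞)⁻¹ * s.indicator 1 (pos u) := by
  unfold unif
  rw [Measure.finsetSum_apply]
  refine Finset.sum_congr rfl (fun u _ => ?_)
  rw [Measure.smul_apply, Measure.dirac_apply, smul_eq_mul]

lemma unif_prob (card_idx : Fintype.card ι = 200) (pos : ι → ℝ) (x : ι) :
    IsProbabilityMeasure (unif pos x) := by
  constructor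
  rw [unif_apply]
  simp only [Set.indicator_univ, Pi.one_apply, mul_one]
  rw [Finset.sum_const, Finset.card_erase_of_mem (Finset.mem_univ x), Finset.card_univ, card_idx]
  norm_num
  exact ENNReal.mul_inv_cancel (by norm_num) (by norm_num)

lemma optCost_le (pos : ι → ℝ) {q : ℝ} (hq : 0 < q) {x y : ι} (hxy : x ≠ y) :
    optCost q (unif pos x) (unif pos y) ≤ (199 : ℝ≥0∞)⁻¹ * cost q (pos y) (pos x) := by
  unfold optCost
  refine le_trans (iInf₂_le (∑ u ∈ Finset.univ.erase x,
    (199 : ℝ≥0∞)⁻¹ • Measure.dirac (pos u, pos (Equiv.swap x y u))) ⟨?_, ?_⟩) ?_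
  rotate_left
  · rw [Measure.map_finset_sum measurable_fst.aemeasurable]
    unfold unif
    refine Finset.sum_congr rfl (fun u _ => ?_)
    rw [Measure.map_smul, Measure.map_dirac' measurable_fst]
  · rw [Measure.map_finset_sum measurable_snd.aemeasurable]
    unfold unif
    refine Finset.sum_equiv (Equiv.swap x y) ?_ ?_
    · intro i
      rw [Finset.mem_erase, Finset.mem_erase]
      constructor
      · rintro ⟨h, -⟩
        refine ⟨fun e => h ?_, Finset.mem_univ _⟩
        have := congrArg (Equiv.swap x y) e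
        rw [Equiv.swap_apply_self, Equiv.swap_apply_right] at this
        exact this
      · rintro ⟨h, -⟩
        refine ⟨fun e => h ?_, Finset.mem_univ _⟩
        rw [e, Equiv.swap_apply_left]
    · intro u _
      rw [Measure.map_smul, Measure.map_dirac' measurable_snd]
  · rw [lintegral_finsetSum_measure]
    simp only [lintegral_smul_measure, lintegral_dirac, smul_eq_mul]
    rw [Finset.sum_eq_single y]
    · rw [Equiv.swap_apply_right]
    · intro u hu huy
      have hux : u ≠ x := (Finset.mem_erase.1 hu).1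
      rw [Equiv.swap_apply_of_ne_of_ne hux huy]
      unfold cost
      rw [sub_self, abs_zero, Real.zero_rpow hq.ne', ENNReal.ofReal_zero, mul_zero]
    · intro h
      exact absurd (Finset.mem_erase.2 ⟨hxy.symm, Finset.mem_univ _⟩) h

lemma cost_meas (q : ℝ) : Measurable (fun z : ℝ × ℝ => cost q z.1 z.2) := by
  unfold cost
  exact ((((measurable_fst.sub measurable_snd).abs).pow_const q)).ennreal_ofReal

/-- the pointwise inequality in `ENNReal` form -/
lemma pointwise {bar : ι → ι} (card_idx : Fintype.card ι = 200)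
    (bar_bar : ∀ x, bar (bar x) = x) (bar_ne : ∀ x, bar x ≠ x) {pos : ι → ℝ} {q : ℝ}
    (hlow : ∀ x y, dd bar x y ≤ |pos x - pos y| ^ q)
    (Y : ι → ℝ) (hY : ∀ x, ∃ u, u ≠ x ∧ Y x = pos u) :
    (4680 : ℝ≥0∞) ≤ (∑ x, ∑ y, ENNReal.ofReal (ww bar x y) * cost q (Y x) (Y y))
      + ∑ x, 1560 * ({pos (bar x)} : Set ℝ).indicator 1 (Y x) := by
  choose z hz hYz using hY
  have h := comb card_idx bar_bar bar_ne z hz
  have e1 : (∑ x, ∑ y, ENNReal.ofReal (ww bar x y) * cost q (Y x) (Y y))
      = ENNReal.ofReal (∑ x, ∑ y, ww bar x y * |Y x - Y y| ^ q) := by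
    rw [ENNReal.ofReal_sum_of_nonneg]
    · refine Finset.sum_congr rfl (fun x _ => ?_)
      rw [ENNReal.ofReal_sum_of_nonneg]
      · refine Finset.sum_congr rfl (fun y _ => ?_)
        rw [ENNReal.ofReal_mul (ww_nonneg _ _), cost]
      · intro y _
        exact mul_nonneg (ww_nonneg _ _) (Real.rpow_nonneg (abs_nonneg _) _)
    · intro x _
      exact Finset.sum_nonneg
        (fun y _ => mul_nonneg (ww_nonneg _ _) (Real.rpow_nonneg (abs_nonneg _) _))
  have e2 : ENNReal.ofReal (1560 * cnt bar z)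
      ≤ ∑ x, 1560 * ({pos (bar x)} : Set ℝ).indicator 1 (Y x) := by
    rw [← Finset.mul_sum, ENNReal.ofReal_mul (by norm_num)]
    have : ENNReal.ofReal 1560 = 1560 := by norm_num
    rw [this]
    refine mul_le_mul' le_rfl ?_
    unfold cnt
    rw [ENNReal.ofReal_sum_of_nonneg (fun x _ => by split_ifs <;> norm_num)]
    apply Finset.sum_le_sum
    intro x _
    by_cases hx : z x = bar x
    · rw [if_pos hx, hYz x, hx]
      simp
    · rw [if_neg hx]
      simp
  have e3 : tot bar z ≤ ∑ x, ∑ y, ww bar x y * |Y x - Y y| ^ q := by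
    unfold tot
    refine Finset.sum_le_sum (fun x _ => Finset.sum_le_sum (fun y _ => ?_))
    rw [hYz x, hYz y]
    exact mul_le_mul_of_nonneg_left (hlow _ _) (ww_nonneg _ _)
  have e4 : (4680 : ℝ) ≤ (∑ x, ∑ y, ww bar x y * |Y x - Y y| ^ q) + 1560 * cnt bar z := by
    linarith
  rw [e1]
  calc (4680 : ℝ≥0∞) = ENNReal.ofReal 4680 := by norm_num
    _ ≤ ENNReal.ofReal ((∑ x, ∑ y, ww bar x y * |Y x - Y y| ^ q) + 1560 * cnt bar z) :=
        ENNReal.ofReal_le_ofReal e4
    _ ≤ ENNReal.ofReal (∑ x, ∑ y, ww bar x y * |Y x - Y y| ^ q)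
        + ENNReal.ofReal (1560 * cnt bar z) := ENNReal.ofReal_add_le
    _ ≤ _ := by gcongr

lemma ratio_lower {bar : ι → ι} (card_idx : Fintype.card ι = 200)
    (bar_bar : ∀ x, bar (bar x) = x) (bar_ne : ∀ x, bar x ≠ x) {pos : ι → ℝ} {q : ℝ}
    (hq : 0 < q)
    (hlow : ∀ x y, dd bar x y ≤ |pos x - pos y| ^ q)
    (hup1 : ∀ x, |pos (bar x) - pos x| ^ q ≤ 1)
    (hup2 : ∀ x y, |pos y - pos x| ^ q ≤ 2.03)
    (X : ProbabilityMeasure ℝ → unitInterval → ℝ) (hX : IsCoupling X) (r : ℝ≥0∞) (hr : r < ⊤)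
    (h : ∀ P Q : ProbabilityMeasure ℝ,
      ∫⁻ ω : unitInterval, cost q (X P ω) (X Q ω)
        ≤ r * optCost q (P : Measure ℝ) (Q : Measure ℝ)) :
    11 / 5 ≤ r := by
  have hinj : ∀ x y, pos x = pos y → x = y := by
    intro x y e
    by_contra hne
    have h1 := one_le_dd (bar := bar) hne
    have h2 := hlow x y
    rw [e, sub_self, abs_zero, Real.zero_rpow hq.ne'] at h2
    linarith
  set P : ι → ProbabilityMeasure ℝ := fun x => ⟨unif pos x, unif_prob card_idx pos x⟩ with hP
  have hPc : ∀ x, ((P x : ProbabilityMeasure ℝ) : Measure ℝ) = unif pos x := fun x => rfl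
  have hmeas : ∀ x, AEMeasurable (X (P x)) (volume : Measure unitInterval) :=
    fun x => (hX (P x)).1
  have hmap : ∀ x, Measure.map (X (P x)) (volume : Measure unitInterval) = unif pos x :=
    fun x => (hX (P x)).2
  have hae : ∀ᵐ ω : unitInterval, ∀ x, ∃ u, u ≠ x ∧ X (P x) ω = pos u := by
    rw [ae_all_iff]
    intro x
    have hfin : (pos '' {u | u ≠ x}).Finite := Set.toFinite _
    have h0 : unif pos x (pos '' {u | u ≠ x})ᶜ = 0 := by
      rw [unif_apply]
      apply Finset.sum_eq_zero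
      intro u hu
      rw [Set.indicator_of_notMem, mul_zero]
      intro hc
      exact hc ⟨u, (Finset.mem_erase.1 hu).1, rfl⟩
    have h1 : ∀ᵐ t ∂(unif pos x), t ∈ pos '' {u | u ≠ x} := by
      rw [ae_iff]
      exact h0
    rw [← hmap x] at h1
    have h2 := ae_of_ae_map (hmeas x) h1
    filter_upwards [h2] with ω hω
    obtain ⟨u, hu, he⟩ := hω
    exact ⟨u, hu, he.symm⟩
  -- integrate the pointwise inequality
  have hcm : ∀ x y, AEMeasurable (fun ω : unitInterval => cost q (X (P x) ω) (X (P y) ω))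
      (volume : Measure unitInterval) := fun x y =>
    (cost_meas q).comp_aemeasurable ((hmeas x).prodMk (hmeas y))
  have him : ∀ x, AEMeasurable (fun ω : unitInterval =>
      ({pos (bar x)} : Set ℝ).indicator (1 : ℝ → ℝ≥0∞) (X (P x) ω))
      (volume : Measure unitInterval) := fun x =>
    (measurable_one.indicator (measurableSet_singleton _)).comp_aemeasurable (hmeas x)
  have hint : (4680 : ℝ≥0∞) ≤ (∑ x, ∑ y, ENNReal.ofReal (ww bar x y)
      * ∫⁻ ω : unitInterval, cost q (X (P x) ω) (X (P y) ω))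
      + ∑ x, 1560 * ∫⁻ ω : unitInterval,
        ({pos (bar x)} : Set ℝ).indicator (1 : ℝ → ℝ≥0∞) (X (P x) ω) := by
    have h1 : ∫⁻ _ : unitInterval, (4680 : ℝ≥0∞) ≤ ∫⁻ ω : unitInterval,
        ((∑ x, ∑ y, ENNReal.ofReal (ww bar x y) * cost q (X (P x) ω) (X (P y) ω))
        + ∑ x, 1560 * ({pos (bar x)} : Set ℝ).indicator (1 : ℝ → ℝ≥0∞) (X (P x) ω)) := by
      apply lintegral_mono_ae
      filter_upwards [hae] with ω hω
      exact pointwise card_idx bar_bar bar_ne hlow (fun x => X (P x) ω) hω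
    rw [lintegral_const, measure_univ, mul_one] at h1
    refine le_trans h1 (le_of_eq ?_)
    rw [lintegral_add_left']
    · congr 1
      · rw [lintegral_finsetSum' _ (fun x _ => ?_)]
        · refine Finset.sum_congr rfl (fun x _ => ?_)
          rw [lintegral_finsetSum' _ (fun y _ => (hcm x y).const_mul _)]
          refine Finset.sum_congr rfl (fun y _ => ?_)
          rw [lintegral_const_mul'' _ (hcm x y)]
        · exact Finset.aemeasurable_fun_sum _ (fun y _ => (hcm x y).const_mul _)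
      · rw [lintegral_finsetSum' _ (fun x _ => (him x).const_mul _)]
        refine Finset.sum_congr rfl (fun x _ => ?_)
        rw [lintegral_const_mul'' _ (him x)]
    · exact Finset.aemeasurable_fun_sum _ (fun x _ =>
        Finset.aemeasurable_fun_sum _ (fun y _ => (hcm x y).const_mul _))
  have hind : ∀ x, ∫⁻ ω : unitInterval,
        ({pos (bar x)} : Set ℝ).indicator (1 : ℝ → ℝ≥0∞) (X (P x) ω) = (199 : ℝ≥0∞)⁻¹ := by
    intro x
    have h1 : ∫⁻ t, ({pos (bar x)} : Set ℝ).indicator (1 : ℝ → ℝ≥0∞) t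
        ∂(Measure.map (X (P x)) (volume : Measure unitInterval))
        = ∫⁻ ω : unitInterval,
        ({pos (bar x)} : Set ℝ).indicator (1 : ℝ → ℝ≥0∞) (X (P x) ω) :=
      lintegral_map' (measurable_one.indicator (measurableSet_singleton _)).aemeasurable (hmeas x)
    rw [← h1, lintegral_indicator_one (measurableSet_singleton _), hmap x, unif_apply,
      Finset.sum_eq_single (bar x)]
    · simp
    · intro u _ hu
      rw [Set.indicator_of_notMem, mul_zero]
      intro hc
      exact hu (hinj _ _ hc)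
    · intro hc
      exact absurd (Finset.mem_erase.2 ⟨bar_ne x, Finset.mem_univ _⟩) hc
  set R : ℝ := r.toReal with hR
  have hrR : r = ENNReal.ofReal R := (ENNReal.ofReal_toReal hr.ne).symm
  have hR0 : 0 ≤ R := ENNReal.toReal_nonneg
  have hterm : ∀ x y, ENNReal.ofReal (ww bar x y)
      * ∫⁻ ω : unitInterval, cost q (X (P x) ω) (X (P y) ω)
      ≤ ENNReal.ofReal (R * 199⁻¹ * (ww bar x y * |pos y - pos x| ^ q)) := by
    intro x y
    by_cases hxy : x = y
    · have : ww bar x y = 0 := by unfold ww; rw [if_pos hxy]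
      rw [this]; simp
    · have h1 := h (P x) (P y)
      rw [hPc, hPc] at h1
      have h2 := optCost_le pos hq hxy
      calc ENNReal.ofReal (ww bar x y) * ∫⁻ ω : unitInterval, cost q (X (P x) ω) (X (P y) ω)
          ≤ ENNReal.ofReal (ww bar x y) * (r * ((199 : ℝ≥0∞)⁻¹ * cost q (pos y) (pos x))) := by
            gcongr
            exact le_trans h1 (mul_le_mul' le_rfl h2)
        _ = ENNReal.ofReal (R * 199⁻¹ * (ww bar x y * |pos y - pos x| ^ q)) := by
            have h199 : (199 : ℝ≥0∞)⁻¹ = ENNReal.ofReal (199⁻¹) := by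
              rw [ENNReal.ofReal_inv_of_pos (by norm_num)]; norm_num
            unfold cost
            rw [hrR, h199, ← ENNReal.ofReal_mul (by norm_num), ← ENNReal.ofReal_mul hR0,
              ← ENNReal.ofReal_mul (ww_nonneg _ _)]
            congr 1
            ring
  have hrow : ∀ x, ∑ y, ww bar x y * |pos y - pos x| ^ q ≤ 1403.82 := by
    intro x
    have h1 : ∀ y ∈ (Finset.univ : Finset ι), ww bar x y * |pos y - pos x| ^ q
        ≤ 6.09 + ((if y = x then (-6.09 : ℝ) else 0) + (if y = bar x then (191.91 : ℝ) else 0)) := by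
      intro y _
      by_cases e1 : y = x
      · have : ww bar x y = 0 := by unfold ww; rw [if_pos e1.symm]
        rw [this, if_pos e1, if_neg (by rw [e1]; exact (bar_ne x).symm)]
        norm_num
      · have e1' : ¬ x = y := fun e => e1 e.symm
        by_cases e2 : y = bar x
        · have : ww bar x y = 198 := by unfold ww; rw [if_neg e1', if_pos e2]
          rw [this, if_neg e1, if_pos e2, e2]
          have := hup1 x
          linarith
        · have : ww bar x y = 3 := by unfold ww; rw [if_neg e1', if_neg e2]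
          rw [this, if_neg e1, if_neg e2]
          have := hup2 x y
          linarith
    refine le_trans (Finset.sum_le_sum h1) ?_
    rw [Finset.sum_add_distrib, Finset.sum_add_distrib, Finset.sum_const, Finset.card_univ,
      card_idx, Finset.sum_ite_eq', Finset.sum_ite_eq', if_pos (Finset.mem_univ _),
      if_pos (Finset.mem_univ _)]
    norm_num
  have hdouble : ∑ x, ∑ y, R * 199⁻¹ * (ww bar x y * |pos y - pos x| ^ q)
      ≤ R * 199⁻¹ * 280764 := by
    simp_rw [← Finset.mul_sum]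
    have : ∑ x : ι, ∑ y, ww bar x y * |pos y - pos x| ^ q ≤ ∑ _x : ι, (1403.82 : ℝ) :=
      Finset.sum_le_sum (fun x _ => hrow x)
    rw [Finset.sum_const, Finset.card_univ, card_idx, nsmul_eq_mul] at this
    have h2 : ∑ x : ι, ∑ y, ww bar x y * |pos y - pos x| ^ q ≤ 280764 := by
      norm_num at this ⊢
      linarith
    exact mul_le_mul_of_nonneg_left h2 (by positivity)
  have hfinal : (4680 : ℝ≥0∞) ≤ ENNReal.ofReal (R * 199⁻¹ * 280764 + 312000 / 199) := by
    refine le_trans hint ?_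
    rw [ENNReal.ofReal_add (by positivity) (by positivity)]
    refine add_le_add ?_ ?_
    · refine le_trans ?_ (ENNReal.ofReal_le_ofReal hdouble)
      rw [ENNReal.ofReal_sum_of_nonneg]
      · refine Finset.sum_le_sum (fun x _ => ?_)
        rw [ENNReal.ofReal_sum_of_nonneg]
        · exact Finset.sum_le_sum (fun y _ => hterm x y)
        · intro y _
          exact mul_nonneg (by positivity)
            (mul_nonneg (ww_nonneg _ _) (Real.rpow_nonneg (abs_nonneg _) _))
      · intro x _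
        exact Finset.sum_nonneg (fun y _ => mul_nonneg (by positivity)
            (mul_nonneg (ww_nonneg _ _) (Real.rpow_nonneg (abs_nonneg _) _)))
    · simp_rw [hind]
      rw [Finset.sum_const, Finset.card_univ, card_idx, nsmul_eq_mul]
      have : (199 : ℝ≥0∞)⁻¹ = ENNReal.ofReal (199⁻¹) := by
        rw [ENNReal.ofReal_inv_of_pos (by norm_num)]; norm_num
      rw [this]
      have h3 : (((200 : ℕ) : ℝ≥0∞)) * (1560 * ENNReal.ofReal (199⁻¹))
          = ENNReal.ofReal (200 * (1560 * 199⁻¹)) := by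
        rw [ENNReal.ofReal_mul (by norm_num), ENNReal.ofReal_mul (by norm_num)]
        norm_num
      rw [h3]
      apply ENNReal.ofReal_le_ofReal
      norm_num
  have hreal : (4680 : ℝ) ≤ R * 199⁻¹ * 280764 + 312000 / 199 := by
    have e : (4680 : ℝ≥0∞) = ENNReal.ofReal 4680 := by norm_num
    rw [e] at hfinal
    exact (ENNReal.ofReal_le_ofReal_iff (by positivity)).1 hfinal
  have hR2 : (11 / 5 : ℝ) ≤ R := by
    by_contra hc
    push Not at hc
    have : R * 199⁻¹ * 280764 ≤ 11 / 5 * 199⁻¹ * 280764 := by gcongr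
    norm_num at this hreal
    linarith
  rw [hrR]
  calc (11 / 5 : ℝ≥0∞) = ENNReal.ofReal (11 / 5) := by
        rw [ENNReal.ofReal_div_of_pos (by norm_num)]; norm_num
    _ ≤ ENNReal.ofReal R := ENNReal.ofReal_le_ofReal hR2

end

/-! ### The concrete points -/

/-- the partner map on `Fin 100 × Bool` -/
def cbar (x : Fin 100 × Bool) : Fin 100 × Bool := (x.1, !x.2)

lemma cbar_cbar (x : Fin 100 × Bool) : cbar (cbar x) = x := by simp [cbar]
lemma cbar_ne (x : Fin 100 × Bool) : cbar x ≠ x := by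
  intro h
  have := congrArg Prod.snd h
  simp [cbar] at this

/-- the positions -/
noncomputable def cpos (M : ℝ) (x : Fin 100 × Bool) : ℝ :=
  ((x.1 : ℕ) : ℝ) * M + (if x.2 then 1 else 0)

lemma cpos_bar (M : ℝ) (x : Fin 100 × Bool) : |cpos M (cbar x) - cpos M x| = 1 := by
  obtain ⟨a, b⟩ := x
  cases b <;> simp [cpos, cbar]

lemma cpos_far (M : ℝ) (hM : 1 ≤ M) (x y : Fin 100 × Bool) (h : x.1 ≠ y.1) :
    M - 1 ≤ |cpos M x - cpos M y| := by
  obtain ⟨a, b⟩ := x
  obtain ⟨c, d⟩ := y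
  have hne : (a : ℕ) ≠ (c : ℕ) := fun e => h (Fin.ext e)
  have hb : |((if b then 1 else 0 : ℝ)) - (if d then 1 else 0)| ≤ 1 := by
    cases b <;> cases d <;> simp
  rw [abs_le] at hb
  simp only [cpos]
  rcases Nat.lt_or_gt_of_ne hne with h1 | h1
  · have h2 : ((a : ℕ) : ℝ) + 1 ≤ ((c : ℕ) : ℝ) := by exact_mod_cast h1
    rw [abs_sub_comm]
    refine le_trans ?_ (le_abs_self _)
    nlinarith [hb.1, hb.2]
  · have h2 : ((c : ℕ) : ℝ) + 1 ≤ ((a : ℕ) : ℝ) := by exact_mod_cast h1
    refine le_trans ?_ (le_abs_self _)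
    nlinarith [hb.1, hb.2]

lemma cpos_near (M : ℝ) (hM : 1 ≤ M) (x y : Fin 100 × Bool) :
    |cpos M x - cpos M y| ≤ 100 * M := by
  obtain ⟨a, b⟩ := x
  obtain ⟨c, d⟩ := y
  have hb : |((if b then 1 else 0 : ℝ)) - (if d then 1 else 0)| ≤ 1 := by
    cases b <;> cases d <;> simp
  rw [abs_le] at hb
  have ha : ((a : ℕ) : ℝ) ≤ 99 := by
    have := a.isLt
    have h' : (a : ℕ) ≤ 99 := by omega
    exact_mod_cast h'
  have hc : ((c : ℕ) : ℝ) ≤ 99 := by
    have := c.isLt
    have h' : (c : ℕ) ≤ 99 := by omega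
    exact_mod_cast h'
  have ha0 : (0 : ℝ) ≤ ((a : ℕ) : ℝ) := Nat.cast_nonneg _
  have hc0 : (0 : ℝ) ≤ ((c : ℕ) : ℝ) := Nat.cast_nonneg _
  simp only [cpos]
  rw [abs_le]
  constructor <;> nlinarith [hb.1, hb.2]

lemma pow_big {t : ℝ} (ht : 1000 ≤ t) : 100 * ((2 : ℝ) ^ t + 1) ≤ (2.03 : ℝ) ^ t := by
  have h1 : (200 : ℝ) ≤ (1.015 : ℝ) ^ t := by
    have a : (1.015 : ℝ) ^ (1000 : ℝ) ≤ (1.015 : ℝ) ^ t :=
      Real.rpow_le_rpow_of_exponent_le (by norm_num) ht
    have b : (1.015 : ℝ) ^ (1000 : ℝ) = ((1.015 : ℝ) ^ 100) ^ 10 := by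
      rw [← pow_mul]
      have := Real.rpow_natCast (1.015 : ℝ) 1000
      norm_num at this ⊢
    have c : (2.5 : ℝ) ≤ (1.015 : ℝ) ^ 100 := by
      have := one_add_mul_le_pow (a := (0.015 : ℝ)) (by norm_num) 100
      norm_num at this ⊢
    have d : (2.5 : ℝ) ^ 10 ≤ ((1.015 : ℝ) ^ 100) ^ 10 := by gcongr
    have e : (200 : ℝ) ≤ (2.5 : ℝ) ^ 10 := by norm_num
    rw [b] at a
    linarith
  have h2 : (2.03 : ℝ) ^ t = (2 : ℝ) ^ t * (1.015 : ℝ) ^ t := by
    rw [← Real.mul_rpow (by norm_num) (by norm_num)]; norm_num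
  have h3 : (1 : ℝ) ≤ (2 : ℝ) ^ t := Real.one_le_rpow (by norm_num) (by linarith)
  rw [h2]
  nlinarith

theorem optRatio_ge {q : ℝ} (hq : 0 < q) (hq' : q ≤ 1 / 1000) : 11 / 5 ≤ optRatio q := by
  unfold optRatio
  refine le_iInf₂ (fun X hX => ?_)
  unfold ratio
  refine le_sInf ?_
  rintro r ⟨-, hr, h⟩
  set t : ℝ := 1 / q with ht
  have ht0 : 0 < t := by positivity
  have ht1 : 1000 ≤ t := by
    rw [ht, le_div_iff₀ hq]; linarith
  have htq : t * q = 1 := by rw [ht]; field_simp
  set M : ℝ := (2 : ℝ) ^ t + 1 with hM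
  have h2t : (1 : ℝ) ≤ (2 : ℝ) ^ t := Real.one_le_rpow (by norm_num) ht0.le
  have hM1 : 1 ≤ M := by rw [hM]; linarith
  have hfar : ∀ x y : Fin 100 × Bool, x.1 ≠ y.1 → 2 ≤ |cpos M x - cpos M y| ^ q := by
    intro x y hxy
    have h1 := cpos_far M hM1 x y hxy
    have h2 : (2 : ℝ) ^ t ≤ |cpos M x - cpos M y| := by rw [hM] at h1; linarith
    calc (2 : ℝ) = ((2 : ℝ) ^ t) ^ q := by
          rw [← Real.rpow_mul (by norm_num), htq, Real.rpow_one]
      _ ≤ _ := Real.rpow_le_rpow (by positivity) h2 hq.le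
  refine ratio_lower (bar := cbar) (pos := cpos M) (by simp) cbar_cbar cbar_ne hq ?_ ?_ ?_
    X hX r hr h
  · intro x y
    unfold dd
    split_ifs with h1 h2
    · exact Real.rpow_nonneg (abs_nonneg _) _
    · rw [h2, abs_sub_comm, cpos_bar, Real.one_rpow]
    · apply hfar
      intro e
      obtain ⟨a, b⟩ := x
      obtain ⟨c, d⟩ := y
      simp only at e
      subst e
      cases b <;> cases d <;> simp_all [cbar]
  · intro x
    rw [cpos_bar, Real.one_rpow]
  · intro x y
    have h1 := cpos_near M hM1 y x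
    have h2 : 100 * M ≤ (2.03 : ℝ) ^ t := pow_big ht1
    calc |cpos M y - cpos M x| ^ q ≤ ((2.03 : ℝ) ^ t) ^ q :=
          Real.rpow_le_rpow (abs_nonneg _) (le_trans h1 h2) hq.le
      _ = 2.03 := by rw [← Real.rpow_mul (by norm_num), htq, Real.rpow_one]

end Pool.Agent.Q297.Pair
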