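import Pool.Agent.Q297.PermEntLow

open MeasureTheory Finset
open scoped Nat

namespace Q297.Permuton

variable {n : ℕ} {K : Type*} [Fintype K] [DecidableEq K]

/-- size of a colour class -/
def fib (c : Fin n → K) (κ : K) : ℕ := (Finset.univ.filter (fun i => c i = κ)).card

/-- number of ordered pairs of the same colour (including the diagonal) -/
def pairs (c : Fin n → K) : ℕ := (Finset.univ.filter (fun p : Fin n × Fin n => c p.1 = c p.2)).card

omit [Fintype K] in
lemma fib_eq_card (c : Fin n → K) (κ : K) : fib c κ = Fintype.card {i // c i = κ} := by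
  rw [fib, Fintype.card_subtype]

lemma stabCard_prod (c : Fin n → K) : stabCard c = ∏ κ, (fib c κ)! := by
  unfold stabCard
  rw [Nat.card_eq_fintype_card, DomMulAct.stabilizer_card c]
  apply Finset.prod_congr rfl
  intro κ _
  rw [fib_eq_card]

lemma log_stab (c : Fin n → K) : Real.log (stabCard c) = ∑ κ, Real.log ((fib c κ)! : ℝ) := by
  rw [stabCard_prod, Nat.cast_prod, Real.log_prod]
  intro κ _
  exact_mod_cast (Nat.factorial_pos _).ne'

lemma sum_fib (c : Fin n → K) : ∑ κ, fib c κ = n := by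
  unfold fib
  rw [← Finset.card_eq_sum_card_fiberwise (f := c) (t := Finset.univ)
    (fun _ _ => Finset.mem_coe.2 (Finset.mem_univ _))]
  simp

omit [Fintype K] in
lemma pairs_eq (c : Fin n → K) : pairs c = ∑ i, fib c (c i) := by
  unfold pairs fib
  rw [Finset.card_filter, Fintype.sum_prod_type_right]
  apply Finset.sum_congr rfl
  intro i _
  rw [Finset.card_filter]

lemma sum_comp_fib (c : Fin n → K) (f : K → ℝ) : ∑ κ, (fib c κ : ℝ) * f κ = ∑ i, f (c i) := by
  have h1 : ∀ κ, (fib c κ : ℝ) * f κ = ∑ i, if c i = κ then f κ else 0 := by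
    intro κ
    rw [← Finset.sum_filter, Finset.sum_const, nsmul_eq_mul]
    rfl
  simp_rw [h1]
  rw [Finset.sum_comm]
  apply Finset.sum_congr rfl
  intro i _
  simp

lemma sum_fib_sq (c : Fin n → K) : ∑ κ, (fib c κ : ℝ) * fib c κ = pairs c := by
  rw [sum_comp_fib c (fun κ => (fib c κ : ℝ)), pairs_eq]
  push_cast
  rfl

lemma log_fact_le (m : ℕ) : Real.log (m ! : ℝ) ≤ ((m:ℝ) * m - m) / 2 := by
  induction m with
  | zero => simp
  | succ m ih =>
    rw [Nat.factorial_succ]
    push_cast
    rw [Real.log_mul (by positivity) (by exact_mod_cast (Nat.factorial_pos _).ne')]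
    have h1 := Real.log_le_sub_one_of_pos (by positivity : (0:ℝ) < (m:ℝ) + 1)
    nlinarith

lemma log_fact_ge {m : ℕ} (hm : 0 < m) : (m:ℝ) * (Real.log m - 1) ≤ Real.log (m ! : ℝ) := by
  have h1 := Real.pow_div_factorial_le_exp (x := (m:ℝ)) (by positivity) m
  have hf : (0:ℝ) < (m ! : ℝ) := by exact_mod_cast Nat.factorial_pos m
  have hm' : (0:ℝ) < (m:ℝ) := by exact_mod_cast hm
  have h2 := Real.log_le_log (by positivity) h1
  rw [Real.log_exp, Real.log_div (by positivity) hf.ne', Real.log_pow] at h2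
  linarith

lemma log_stab_le (c : Fin n → K) : Real.log (stabCard c) ≤ ((pairs c : ℝ) - n) / 2 := by
  rw [log_stab]
  calc ∑ κ, Real.log ((fib c κ)! : ℝ) ≤ ∑ κ, ((fib c κ : ℝ) * fib c κ - fib c κ) / 2 :=
        Finset.sum_le_sum fun κ _ => log_fact_le _
    _ = (∑ κ, (fib c κ : ℝ) * fib c κ - ∑ κ, (fib c κ : ℝ)) / 2 := by
        rw [← Finset.sum_div, Finset.sum_sub_distrib]
    _ = _ := by
        rw [sum_fib_sq, ← Nat.cast_sum, sum_fib]

lemma log_stab_ge (c : Fin n → K) {M : ℝ} (hM : 0 < M) :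
    (Real.log M - 1) * ((Finset.univ.filter (fun i => M < fib c (c i))).card : ℝ) ≤
      Real.log (stabCard c) := by
  rw [log_stab]
  have h1 : ∀ κ, (fib c κ : ℝ) * (if M < fib c κ then (Real.log M - 1) else 0) ≤
      Real.log ((fib c κ)! : ℝ) := by
    intro κ
    split_ifs with h
    · have hpos : 0 < fib c κ := by
        have : (0:ℝ) < fib c κ := by linarith
        exact_mod_cast this
      refine le_trans ?_ (log_fact_ge hpos)
      apply mul_le_mul_of_nonneg_left _ (by positivity)
      have := Real.log_le_log hM h.le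
      linarith
    · rw [mul_zero]
      apply Real.log_nonneg
      exact_mod_cast Nat.factorial_pos _
  refine le_trans (le_of_eq ?_) (Finset.sum_le_sum fun κ _ => h1 κ)
  rw [sum_comp_fib c (fun κ => if M < fib c κ then (Real.log M - 1) else 0), ← Finset.sum_filter,
    Finset.sum_const, nsmul_eq_mul]
  ring

/-- few points are in small classes -/
lemma card_small (c : Fin n → K) {M : ℝ} (hM : 0 ≤ M) :
    ((Finset.univ.filter (fun i => (fib c (c i) : ℝ) ≤ M)).card : ℝ) ≤ Fintype.card K * M := by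
  have h1 : ((Finset.univ.filter (fun i => (fib c (c i) : ℝ) ≤ M)).card : ℝ) =
      ∑ κ, (fib c κ : ℝ) * (if (fib c κ : ℝ) ≤ M then 1 else 0) := by
    rw [sum_comp_fib c (fun κ => if (fib c κ : ℝ) ≤ M then 1 else 0), ← Finset.sum_filter,
      Finset.sum_const, nsmul_eq_mul, mul_one]
  rw [h1]
  calc _ ≤ ∑ _κ : K, M := by
        apply Finset.sum_le_sum
        intro κ _
        split_ifs with h
        · linarith
        · linarith
    _ = _ := by rw [Finset.sum_const, nsmul_eq_mul, Finset.card_univ]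

omit [Fintype K] in
/-- few points are in large classes -/
lemma card_large (c : Fin n → K) (J : ℝ) :
    J * ((Finset.univ.filter (fun i => J < (fib c (c i) : ℝ))).card : ℝ) ≤ pairs c := by
  rw [pairs_eq]
  push_cast
  calc _ = ∑ i ∈ Finset.univ.filter (fun i => J < (fib c (c i) : ℝ)), J := by
        rw [Finset.sum_const, nsmul_eq_mul]; ring
    _ ≤ ∑ i ∈ Finset.univ.filter (fun i => J < (fib c (c i) : ℝ)), (fib c (c i) : ℝ) := by
        apply Finset.sum_le_sum
        intro i hi
        exact (Finset.mem_filter.1 hi).2.le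
    _ ≤ _ := Finset.sum_le_univ_sum_of_nonneg fun i => by positivity

omit [Fintype K] in
/-- points in bad classes of moderate size -/
lemma card_bad (c : Fin n → K) {J : ℝ} (bad : Fin n → Prop) [DecidablePred bad]
    (B : Finset (Fin n × Fin n))
    (h : ∀ i, bad i → ∃ p ∈ B, c p.1 = c i) (hJ : 0 ≤ J) :
    ((Finset.univ.filter (fun i => bad i ∧ (fib c (c i) : ℝ) ≤ J)).card : ℝ) ≤ J * B.card := by
  classical
  have h1 : Finset.univ.filter (fun i => bad i ∧ (fib c (c i) : ℝ) ≤ J) ⊆
      (B.filter (fun p => (fib c (c p.1) : ℝ) ≤ J)).biUnion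
        (fun p => Finset.univ.filter (fun i => c i = c p.1)) := by
    intro i hi
    rw [Finset.mem_filter] at hi
    obtain ⟨p, hp, hpi⟩ := h i hi.2.1
    rw [Finset.mem_biUnion]
    refine ⟨p, ?_, ?_⟩
    · rw [Finset.mem_filter, hpi]
      exact ⟨hp, hi.2.2⟩
    · rw [Finset.mem_filter]
      exact ⟨Finset.mem_univ _, hpi.symm⟩
  calc ((Finset.univ.filter (fun i => bad i ∧ (fib c (c i) : ℝ) ≤ J)).card : ℝ)
      ≤ (∑ p ∈ B.filter (fun p => (fib c (c p.1) : ℝ) ≤ J),
        ((Finset.univ.filter (fun i => c i = c p.1)).card) : ℕ) := by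
        exact_mod_cast (Finset.card_le_card h1).trans Finset.card_biUnion_le
    _ = ∑ p ∈ B.filter (fun p => (fib c (c p.1) : ℝ) ≤ J), (fib c (c p.1) : ℝ) := by
        push_cast; rfl
    _ ≤ ∑ p ∈ B.filter (fun p => (fib c (c p.1) : ℝ) ≤ J), J := by
        apply Finset.sum_le_sum
        intro p hp
        exact (Finset.mem_filter.1 hp).2
    _ = ((B.filter (fun p => (fib c (c p.1) : ℝ) ≤ J)).card : ℝ) * J := by
        rw [Finset.sum_const, nsmul_eq_mul]
    _ ≤ J * B.card := by
        rw [mul_comm]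
        apply mul_le_mul_of_nonneg_left _ hJ
        exact_mod_cast Finset.card_filter_le _ _

end Q297.Permuton
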