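import Mathlib

/-! Random fractal permutons and sampling entropy: definitions. -/

open MeasureTheory

namespace Q297.Permuton

instance instMeasurableSpacePermFin (n : ℕ) : MeasurableSpace (Equiv.Perm (Fin n)) := ⊤

instance instDiscretePermFin (n : ℕ) : DiscreteMeasurableSpace (Equiv.Perm (Fin n)) := ⟨fun _ => trivial⟩

/-- The pattern of `n` points of the plane: list the points by increasing first coordinate and
record the relative order (the ranks) of the second coordinates.  Here `Tuple.sort f` is the
permutation with `f (sort f 0) ≤ f (sort f 1) ≤ ...`. -/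
noncomputable def pattern {n : ℕ} (z : Fin n → ℝ × ℝ) : Equiv.Perm (Fin n) :=
  (Tuple.sort fun i => (z i).2)⁻¹ * Tuple.sort fun i => (z i).1

/-- The sampling entropy `H_n(μ)`: the Shannon entropy of the pattern of `n` iid points. -/
noncomputable def sampleEntropy (μ : Measure (ℝ × ℝ)) (n : ℕ) : ℝ :=
  ∑ t : Equiv.Perm (Fin n),
    Real.negMulLog ((Measure.pi (fun _ : Fin n => μ)).real {z | pattern z = t})

/-- the uniform distribution on the digits `0, …, d-1` -/
noncomputable def unifDigit (d : ℕ) [NeZero d] : Measure (Fin d) :=
  (PMF.uniformOfFintype (Fin d)).toMeasure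

instance (d : ℕ) [NeZero d] : IsProbabilityMeasure (unifDigit d) := by
  unfold unifDigit; infer_instance

/-- iid uniform digits -/
noncomputable def digitLaw (d : ℕ) [NeZero d] : Measure (ℕ → Fin d) :=
  Measure.infinitePi fun _ : ℕ => unifDigit d

instance (d : ℕ) [NeZero d] : IsProbabilityMeasure (digitLaw d) := by
  unfold digitLaw; infer_instance

/-- The permuton obtained from a realisation `τ` of the permutations at the vertices of the
`d`-ary tree (a vertex is a finite word of digits): the law of the point with the base-`d`
expansions `x = 0.D₀D₁D₂…` and `y = 0.E₀E₁E₂…`, where `D` are iid uniform digits and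
`E_k = τ_{D₀…D_{k-1}}(D_k)`.  This measure gives mass `d^{-k}` to each of the `d^k` squares kept
in the `k`-th refinement. -/
noncomputable def treePermuton {d : ℕ} [NeZero d] (τ : List (Fin d) → Equiv.Perm (Fin d)) :
    Measure (ℝ × ℝ) :=
  (digitLaw d).map fun D =>
    (Real.ofDigits D, Real.ofDigits fun k => τ (List.ofFn fun j : Fin k => D j) (D k))

/-- independent permutations with law `F` at all the vertices of the `d`-ary tree -/
noncomputable def treeLaw {d : ℕ} (F : PMF (Equiv.Perm (Fin d))) :
    Measure (List (Fin d) → Equiv.Perm (Fin d)) :=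
  Measure.infinitePi fun _ : List (Fin d) => F.toMeasure

end Q297.Permuton
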