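import Pool.Agent.Q297.PermDefs
import Pool.Agent.Q297.BernMix

open MeasureTheory Finset

namespace Q297.Permuton

/-! ### Comparison of expansions -/

lemma ofDigits_lt_one {b : ℕ} {D : ℕ → Fin b} (h : ∃ l, (D l : ℕ) ≠ b - 1) :
    Real.ofDigits D < 1 := by
  obtain ⟨l, hl⟩ := h
  have hb : 1 < b := by
    have := (D l).2
    omega
  rw [← Real.ofDigits_const_last_eq_one' hb]
  unfold Real.ofDigits
  apply Summable.tsum_lt_tsum (i := l) _ _ Real.summable_ofDigitsTerm Real.summable_ofDigitsTerm
  · intro m
    unfold Real.ofDigitsTerm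
    apply mul_le_mul_of_nonneg_right _ (by positivity)
    have := (D m).2
    have h2 : (D m : ℕ) ≤ b - 1 := by omega
    show ((D m : ℕ) : ℝ) ≤ ((b - 1 : ℕ) : ℝ)
    exact_mod_cast h2
  · unfold Real.ofDigitsTerm
    have hb0 : (0:ℝ) < b := by positivity
    apply mul_lt_mul_of_pos_right _ (by positivity)
    have := (D l).2
    have h2 : (D l : ℕ) < b - 1 := by omega
    show ((D l : ℕ) : ℝ) < ((b - 1 : ℕ) : ℝ)
    exact_mod_cast h2

lemma ofDigits_lt {b : ℕ} {D D' : ℕ → Fin b} {L : ℕ} (h : ∀ l < L, D l = D' l)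
    (hL : D L < D' L) (hD : ∃ l, L < l ∧ (D l : ℕ) ≠ b - 1) :
    Real.ofDigits D < Real.ofDigits D' := by
  have hb0 : (0:ℝ) < b := by
    have := (D 0).2
    have h0 : 0 < b := by omega
    exact_mod_cast h0
  rw [Real.ofDigits_eq_sum_add_ofDigits D (L + 1), Real.ofDigits_eq_sum_add_ofDigits D' (L + 1),
    Finset.sum_range_succ, Finset.sum_range_succ]
  have h1 : ∑ i ∈ Finset.range L, Real.ofDigitsTerm D i = ∑ i ∈ Finset.range L,
      Real.ofDigitsTerm D' i := by
    apply Finset.sum_congr rfl
    intro i hi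
    unfold Real.ofDigitsTerm
    rw [h i (Finset.mem_range.1 hi)]
  have h2 : Real.ofDigits (fun i => D (i + (L + 1))) < 1 := by
    apply ofDigits_lt_one
    obtain ⟨l, hl, hl2⟩ := hD
    refine ⟨l - (L + 1), ?_⟩
    rw [Nat.sub_add_cancel (by omega)]
    exact hl2
  have h3 : 0 ≤ Real.ofDigits (fun i => D' (i + (L + 1))) := Real.ofDigits_nonneg _
  have h4 : Real.ofDigitsTerm D L + ((b:ℝ) ^ (L + 1))⁻¹ ≤ Real.ofDigitsTerm D' L := by
    unfold Real.ofDigitsTerm
    have h5 : ((D L : ℕ) : ℝ) + 1 ≤ (D' L : ℕ) := by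
      have : (D L : ℕ) + 1 ≤ (D' L : ℕ) := hL
      exact_mod_cast this
    have h6 : (0:ℝ) < ((b:ℝ) ^ (L + 1))⁻¹ := by positivity
    nlinarith
  have h7 : (0:ℝ) < ((b:ℝ) ^ (L + 1))⁻¹ := by positivity
  have h8 : ((b:ℝ) ^ (L + 1))⁻¹ * Real.ofDigits (fun i => D (i + (L + 1))) <
      ((b:ℝ) ^ (L + 1))⁻¹ := by
    nlinarith
  have h9 : 0 ≤ ((b:ℝ) ^ (L + 1))⁻¹ * Real.ofDigits (fun i => D' (i + (L + 1))) := by positivity
  rw [h1]
  linarith

/-! ### Sorting -/

lemma sort_eq_of_lt_iff {n : ℕ} {f g : Fin n → ℝ} (h : ∀ i j, f i < f j ↔ g i < g j) :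
    Tuple.sort f = Tuple.sort g := by
  rw [Tuple.eq_sort_iff]
  have h1 := (Tuple.eq_sort_iff (f := f) (σ := Tuple.sort f)).1 rfl
  have hle : ∀ i j, f i ≤ f j ↔ g i ≤ g j := by
    intro i j
    rw [← not_lt, ← not_lt, h]
  constructor
  · intro r s hrs
    exact (hle _ _).1 (h1.1 hrs)
  · intro r s hrs he
    apply h1.2 r s hrs
    apply le_antisymm
    · exact (hle _ _).2 he.le
    · exact (hle _ _).2 he.ge

lemma measurable_sort (n : ℕ) : Measurable (fun f : Fin n → ℝ => Tuple.sort f) := by
  apply measurable_to_countable'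
  intro s
  have h1 : (fun f : Fin n → ℝ => Tuple.sort f) ⁻¹' {s} =
      (⋂ (r : Fin n) (t : Fin n) (_ : r ≤ t), {f : Fin n → ℝ | f (s r) ≤ f (s t)}) ∩
      (⋂ (r : Fin n) (t : Fin n) (_ : r < t), ({f : Fin n → ℝ | f (s r) = f (s t)}ᶜ ∪
        {_f : Fin n → ℝ | s r < s t})) := by
    ext f
    simp only [Set.mem_preimage, Set.mem_singleton_iff, Set.mem_inter_iff, Set.mem_iInter,
      Set.mem_union, Set.mem_compl_iff, Set.mem_ofPred_eq]
    rw [eq_comm, Tuple.eq_sort_iff]
    constructor
    · rintro ⟨h1, h2⟩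
      refine ⟨fun r t hrt => h1 hrt, fun r t hrt => ?_⟩
      by_cases h3 : f (s r) = f (s t)
      · right; exact h2 r t hrt h3
      · left; exact h3
    · rintro ⟨h1, h2⟩
      refine ⟨fun r t hrt => h1 r t hrt, fun r t hrt he => ?_⟩
      rcases h2 r t hrt with h3 | h3
      · exact absurd he h3
      · exact h3
  rw [h1]
  refine MeasurableSet.inter ?_ ?_
  · exact MeasurableSet.iInter fun r => MeasurableSet.iInter fun t => MeasurableSet.iInter fun _ =>
      measurableSet_le (measurable_pi_apply _) (measurable_pi_apply _)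
  · refine MeasurableSet.iInter fun r => MeasurableSet.iInter fun t => MeasurableSet.iInter fun _ =>
      MeasurableSet.union ?_ (MeasurableSet.const _)
    have h5 : MeasurableSet {f : Fin n → ℝ | f (s r) = f (s t)} :=
      measurableSet_eq_fun (measurable_pi_apply _) (measurable_pi_apply _)
    exact h5.compl

lemma measurable_pattern (n : ℕ) : Measurable (fun z : Fin n → ℝ × ℝ => pattern z) := by
  unfold pattern
  have m1 : Measurable (fun (z : Fin n → ℝ × ℝ) (i : Fin n) => (z i).2) := by fun_prop
  have m2 : Measurable (fun (z : Fin n → ℝ × ℝ) (i : Fin n) => (z i).1) := by fun_prop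
  have h1 : Measurable (fun z : Fin n → ℝ × ℝ => Tuple.sort fun i => (z i).2) :=
    (measurable_sort n).comp m1
  have h2 : Measurable (fun z : Fin n → ℝ × ℝ => Tuple.sort fun i => (z i).1) :=
    (measurable_sort n).comp m2
  have h3 : Measurable (fun p : Equiv.Perm (Fin n) × Equiv.Perm (Fin n) => p.1⁻¹ * p.2) :=
    measurable_of_countable _
  exact h3.comp (h1.prodMk h2)

/-! ### The sample space -/

/-- index set -/
abbrev Idx (n : ℕ) := Fin n × (ℕ × Bool)

/-- iid uniform labels -/
noncomputable abbrev Th (n q : ℕ) [NeZero q] : Measure (Idx n → Fin q) :=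
  Measure.infinitePi fun _ : Idx n => unifDigit q

/-- the digit of the first coordinate -/
def dig {n q : ℕ} (θ : Idx n → Fin q) (i : Fin n) (l : ℕ) : Fin (q * q) :=
  finProdFinEquiv (θ (i, l, false), θ (i, l, true))

/-- the digit of the second coordinate -/
def digS {n q : ℕ} (θ : Idx n → Fin q) (i : Fin n) (l : ℕ) : Fin (q * q) :=
  finProdFinEquiv (θ (i, l, true), θ (i, l, false))

/-- the permutation `aq+b ↦ bq+a` -/
def sg (q : ℕ) : Equiv.Perm (Fin (q * q)) :=
  finProdFinEquiv.symm.trans ((Equiv.prodComm _ _).trans finProdFinEquiv)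

lemma sg_dig {n q : ℕ} (θ : Idx n → Fin q) (i : Fin n) (l : ℕ) :
    sg q (dig θ i l) = digS θ i l := by
  simp [sg, dig, digS]

instance neZero_mul_self (q : ℕ) [NeZero q] : NeZero (q * q) := ⟨by
  have := NeZero.ne q
  positivity⟩

lemma unifDigit_singleton (d : ℕ) [NeZero d] (a : Fin d) : unifDigit d {a} = (d : ENNReal)⁻¹ := by
  unfold unifDigit
  rw [PMF.toMeasure_apply_singleton _ _ (measurableSet_singleton a), PMF.uniformOfFintype_apply,
    Fintype.card_fin]

/-- pairs of base-`q` digits give a uniform base-`q²` digit -/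
lemma map_pair (q : ℕ) [NeZero q] :
    (Measure.infinitePi fun _ : Bool => unifDigit q).map
      (fun c : Bool → Fin q => (finProdFinEquiv (c false, c true) : Fin (q * q))) =
    unifDigit (q * q) := by
  apply Measure.ext_of_singleton
  intro a
  obtain ⟨⟨x, y⟩, rfl⟩ := finProdFinEquiv.surjective a
  rw [Measure.map_apply (measurable_of_finite _) (measurableSet_singleton _), unifDigit_singleton]
  have h1 : (fun c : Bool → Fin q => (finProdFinEquiv (c false, c true) : Fin (q * q))) ⁻¹'
      {finProdFinEquiv (x, y)} = {fun b => if b then y else x} := by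
    ext c
    simp only [Set.mem_preimage, Set.mem_singleton_iff, EmbeddingLike.apply_eq_iff_eq,
      Prod.mk.injEq]
    constructor
    · rintro ⟨h1, h2⟩
      funext b
      cases b
      · simpa using h1
      · simpa using h2
    · rintro rfl
      simp
  rw [h1, Measure.infinitePi_singleton_of_fintype]
  simp only [unifDigit_singleton, Finset.prod_const, Finset.card_univ, Fintype.card_bool]
  push_cast
  rw [ENNReal.mul_inv (by simp) (by simp), sq]

lemma digitLaw_eq (q : ℕ) [NeZero q] :
    (Measure.infinitePi fun _ : ℕ × Bool => unifDigit q).map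
      (fun (φ : ℕ × Bool → Fin q) (l : ℕ) =>
        (finProdFinEquiv (φ (l, false), φ (l, true)) : Fin (q * q))) = digitLaw (q * q) := by
  have h1 := Measure.infinitePi_map_curry (fun (_ : ℕ) (_ : Bool) => unifDigit q)
  have h2 := Measure.infinitePi_map_pi (μ := fun _ : ℕ => Measure.infinitePi fun _ : Bool => unifDigit q)
    (f := fun _ (c : Bool → Fin q) => (finProdFinEquiv (c false, c true) : Fin (q * q)))
    (fun _ => measurable_of_finite _)
  simp only [map_pair] at h2
  unfold digitLaw
  rw [← h2, ← h1, Measure.map_map]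
  · rfl
  · exact measurable_pi_lambda _ fun l => Measurable.comp
      (g := fun c : Bool → Fin q => (finProdFinEquiv (c false, c true) : Fin (q * q)))
      (measurable_of_finite _) (measurable_pi_apply l)
  · exact (MeasurableEquiv.curry ℕ Bool (Fin q)).measurable

lemma pi_digitLaw_eq (n q : ℕ) [NeZero q] :
    (Th n q).map (fun θ i => dig θ i) = Measure.pi fun _ : Fin n => digitLaw (q * q) := by
  have h1 := Measure.infinitePi_map_curry (fun (_ : Fin n) (_ : ℕ × Bool) => unifDigit q)
  conv_rhs at h1 => rw [Measure.infinitePi_eq_pi]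
  have h2 := Measure.pi_map_pi (μ := fun _ : Fin n => Measure.infinitePi fun _ : ℕ × Bool => unifDigit q)
    (f := fun _ (φ : ℕ × Bool → Fin q) (l : ℕ) =>
        (finProdFinEquiv (φ (l, false), φ (l, true)) : Fin (q * q)))
    (fun _ => (measurable_pi_lambda _ fun l => (measurable_of_finite _).comp
      ((measurable_pi_apply _).prodMk (measurable_pi_apply _))).aemeasurable)
  simp only [digitLaw_eq] at h2
  rw [← h2, ← h1, Measure.map_map]
  · rfl
  · exact measurable_pi_lambda _ fun i => measurable_pi_lambda _ fun l =>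
      (measurable_of_finite _).comp (((measurable_pi_apply _).comp (measurable_pi_apply i)).prodMk
        ((measurable_pi_apply _).comp (measurable_pi_apply i)))
  · exact (MeasurableEquiv.curry (Fin n) (ℕ × Bool) (Fin q)).measurable

/-- coordinates -/
noncomputable def xc {n q : ℕ} (θ : Idx n → Fin q) (i : Fin n) : ℝ := Real.ofDigits (dig θ i)
/-- coordinates -/
noncomputable def yc {n q : ℕ} (θ : Idx n → Fin q) (i : Fin n) : ℝ := Real.ofDigits (digS θ i)

lemma measurable_ofDigits {b : ℕ} : Measurable (Real.ofDigits (b := b)) :=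
  Real.continuous_ofDigits.measurable

lemma measurable_dig {n q : ℕ} (i : Fin n) : Measurable (fun θ : Idx n → Fin q => dig θ i) :=
  measurable_pi_lambda _ fun _ => (measurable_of_finite _).comp
    ((measurable_pi_apply _).prodMk (measurable_pi_apply _))

lemma measurable_digS {n q : ℕ} (i : Fin n) : Measurable (fun θ : Idx n → Fin q => digS θ i) :=
  measurable_pi_lambda _ fun _ => (measurable_of_finite _).comp
    ((measurable_pi_apply _).prodMk (measurable_pi_apply _))

lemma measurable_xc {n q : ℕ} : Measurable (fun θ : Idx n → Fin q => xc θ) :=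
  measurable_pi_lambda _ fun i => measurable_ofDigits.comp (measurable_dig i)

lemma measurable_yc {n q : ℕ} : Measurable (fun θ : Idx n → Fin q => yc θ) :=
  measurable_pi_lambda _ fun i => measurable_ofDigits.comp (measurable_digS i)

/-- pattern of the sample -/
noncomputable def pt {n q : ℕ} (θ : Idx n → Fin q) : Equiv.Perm (Fin n) :=
  (Tuple.sort (yc θ))⁻¹ * Tuple.sort (xc θ)

lemma measurable_pt {n q : ℕ} : Measurable (fun θ : Idx n → Fin q => pt θ) := by
  have h3 : Measurable (fun p : Equiv.Perm (Fin n) × Equiv.Perm (Fin n) => p.1⁻¹ * p.2) :=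
    measurable_of_countable _
  exact h3.comp (((measurable_sort n).comp measurable_yc).prodMk
    ((measurable_sort n).comp measurable_xc))

lemma sampleEntropy_eq (n q : ℕ) [NeZero q] :
    sampleEntropy (treePermuton (fun _ : List (Fin (q * q)) => sg q)) n =
      ∑ t, Real.negMulLog ((Th n q).real {θ | pt θ = t}) := by
  unfold sampleEntropy
  apply Finset.sum_congr rfl
  intro t _
  congr 1
  set Z : (ℕ → Fin (q * q)) → ℝ × ℝ := fun D =>
    (Real.ofDigits D, Real.ofDigits fun k => sg q (D k)) with hZ
  have hZm : Measurable Z := by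
    refine Measurable.prodMk measurable_ofDigits (measurable_ofDigits.comp ?_)
    exact measurable_pi_lambda _ fun l => (measurable_of_finite _).comp (measurable_pi_apply l)
  have h1 : Measure.pi (fun _ : Fin n => treePermuton (fun _ : List (Fin (q * q)) => sg q)) =
      (Th n q).map (fun θ i => Z (dig θ i)) := by
    have h2 : treePermuton (fun _ : List (Fin (q * q)) => sg q) = (digitLaw (q * q)).map Z := rfl
    rw [h2]
    have : IsProbabilityMeasure ((digitLaw (q * q)).map Z) :=
      Measure.isProbabilityMeasure_map hZm.aemeasurable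
    rw [← Measure.pi_map_pi (μ := fun _ : Fin n => digitLaw (q * q)) (f := fun _ => Z)
      (fun _ => hZm.aemeasurable), ← pi_digitLaw_eq, Measure.map_map]
    · rfl
    · exact measurable_pi_lambda _ fun i => hZm.comp (measurable_pi_apply i)
    · exact measurable_pi_lambda _ fun i => measurable_dig i
  rw [h1, Measure.real, Measure.real, Measure.map_apply]
  · congr 1
    have h3 : ∀ θ : Idx n → Fin q, pattern (fun i => Z (dig θ i)) = pt θ := by
      intro θ
      unfold pattern pt
      simp only [hZ, sg_dig]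
      rfl
    congr 1
    ext θ
    simp only [Set.mem_preimage, Set.mem_ofPred_eq, h3]
  · exact measurable_pi_lambda _ fun i => hZm.comp (measurable_dig i)
  · exact measurable_pattern n (MeasurableSet.of_discrete (s := {t}))

end Q297.Permuton
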