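import Pool.Agent.Q297.PermDefs

/-! Upper and lower bounds for the entropy of patterns. -/

open MeasureTheory Finset

namespace Q297.Permuton

/-! ### Gibbs -/

lemma gibbs {T : Type*} [Fintype T] {p r : T → ℝ} (hp : ∀ t, 0 ≤ p t) (hp1 : ∑ t, p t = 1)
    (hr : ∀ t, 0 ≤ r t) (hr1 : ∑ t, r t ≤ 1) (h : ∀ t, p t ≠ 0 → 0 < r t) :
    ∑ t, Real.negMulLog (p t) ≤ ∑ t, p t * (-Real.log (r t)) := by
  have key : ∀ t, Real.negMulLog (p t) ≤ p t * (-Real.log (r t)) + (r t - p t) := by
    intro t
    by_cases h0 : p t = 0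
    · rw [h0]; simp [hr t]
    · have hpt : 0 < p t := lt_of_le_of_ne (hp t) (Ne.symm h0)
      have hrt := h t h0
      have h1 := Real.log_le_sub_one_of_pos (div_pos hrt hpt)
      rw [Real.log_div hrt.ne' hpt.ne'] at h1
      have h2 := mul_le_mul_of_nonneg_left h1 hpt.le
      have h3 : p t * (r t / p t - 1) = r t - p t := by field_simp
      rw [h3] at h2
      unfold Real.negMulLog
      nlinarith
  calc ∑ t, Real.negMulLog (p t) ≤ ∑ t, (p t * (-Real.log (r t)) + (r t - p t)) :=
        Finset.sum_le_sum fun t _ => key t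
    _ = ∑ t, p t * (-Real.log (r t)) + (∑ t, r t - ∑ t, p t) := by
        rw [Finset.sum_add_distrib, Finset.sum_sub_distrib]
    _ ≤ _ := by linarith

/-- expectation of a function of a finite-valued random variable -/
lemma integral_comp_fin {Ω T : Type*} [MeasurableSpace Ω] [Fintype T] [MeasurableSpace T]
    [MeasurableSingletonClass T] {Q : Measure Ω} [IsProbabilityMeasure Q] {π : Ω → T}
    (hπ : Measurable π) (f : T → ℝ) :
    ∫ ω, f (π ω) ∂Q = ∑ t, Q.real {ω | π ω = t} * f t := by
  have : IsProbabilityMeasure (Q.map π) := Measure.isProbabilityMeasure_map hπ.aemeasurable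
  have h1 : ∫ ω, f (π ω) ∂Q = ∫ t, f t ∂(Q.map π) := by
    rw [integral_map hπ.aemeasurable]
    exact (measurable_of_finite f).aestronglyMeasurable
  rw [h1, integral_fintype Integrable.of_finite]
  apply Finset.sum_congr rfl
  intro t _
  rw [smul_eq_mul]
  congr 1
  rw [Measure.real, Measure.real, Measure.map_apply hπ (measurableSet_singleton t)]
  rfl

/-! ### Counting monotone colourings -/

lemma card_monotone (n : ℕ) (C : Type*) [Fintype C] [LinearOrder C] :
    (Finset.univ.filter (fun c : Fin n → C => Monotone c)).card ≤ 2 ^ (n + Fintype.card C) := by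
  classical
  set e : Fin (Fintype.card C) ≃o C := Fintype.orderIsoFinOfCardEq C rfl with he
  set φ : (Fin n → C) → Finset ℕ :=
    fun c => Finset.univ.image (fun r : Fin n => ((e.symm (c r) : ℕ) + r)) with hφ
  have h1 : ∀ c ∈ Finset.univ.filter (fun c : Fin n → C => Monotone c),
      φ c ∈ (Finset.range (n + Fintype.card C)).powerset := by
    intro c _
    rw [Finset.mem_powerset, hφ]
    intro m hm
    rw [Finset.mem_image] at hm
    obtain ⟨r, _, rfl⟩ := hm
    rw [Finset.mem_range]
    have := (e.symm (c r)).2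
    have := r.2
    omega
  have hsm : ∀ c : Fin n → C, Monotone c → StrictMono (fun r : Fin n => ((e.symm (c r) : ℕ) + r)) := by
    intro c hc r s hrs
    have h2 : (e.symm (c r) : ℕ) ≤ e.symm (c s) := e.symm.monotone (hc hrs.le)
    have h3 : (r : ℕ) < s := hrs
    show (e.symm (c r) : ℕ) + r < (e.symm (c s) : ℕ) + s
    omega
  have h2 : Set.InjOn φ (Finset.univ.filter (fun c : Fin n → C => Monotone c)) := by
    intro c hc c' hc' h
    rw [Finset.mem_coe, Finset.mem_filter] at hc hc'
    have h3 : Set.range (fun r : Fin n => ((e.symm (c r) : ℕ) + r)) =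
        Set.range (fun r : Fin n => ((e.symm (c' r) : ℕ) + r)) := by
      have := congrArg (fun s : Finset ℕ => (s : Set ℕ)) h
      simpa [hφ] using this
    have h4 := ((hsm c hc.2).range_inj (hsm c' hc'.2)).1 h3
    funext r
    have h5 := congrFun h4 r
    have h6 : (e.symm (c r) : ℕ) = e.symm (c' r) := by
      simpa using h5
    exact e.symm.injective (Fin.ext h6)
  calc _ ≤ ((Finset.range (n + Fintype.card C)).powerset).card :=
        Finset.card_le_card_of_injOn φ h1 h2
    _ = _ := by rw [Finset.card_powerset, Finset.card_range]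

/-- number of permutations preserving a colouring -/
noncomputable def stabCard {n : ℕ} {C : Type*} (c : Fin n → C) : ℕ :=
  Nat.card {g : Equiv.Perm (Fin n) // c ∘ g = c}

lemma stabCard_pos {n : ℕ} {C : Type*} (c : Fin n → C) : 0 < stabCard c := by
  have : Nonempty {g : Equiv.Perm (Fin n) // c ∘ g = c} := ⟨⟨1, by rw [Equiv.Perm.coe_one]; rfl⟩⟩
  exact Nat.card_pos

lemma stabCard_comp {n : ℕ} {C : Type*} (c : Fin n → C) (s : Equiv.Perm (Fin n)) :
    stabCard (c ∘ s) = stabCard c := by
  unfold stabCard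
  apply Nat.card_congr
  refine (MulAut.conj s).toEquiv.subtypeEquiv ?_
  intro g
  show (c ∘ s) ∘ g = c ∘ s ↔ c ∘ (s * g * s⁻¹ : Equiv.Perm (Fin n)) = c
  constructor
  · intro h
    funext i
    have := congrFun h (s⁻¹ i)
    simpa using this
  · intro h
    funext i
    have := congrFun h (s i)
    simpa using this

lemma card_compat {n : ℕ} {C : Type*} [Fintype C] [LinearOrder C] (S : C ≃ C) (c : Fin n → C)
    [DecidablePred fun t : Equiv.Perm (Fin n) => Monotone (S ∘ c ∘ (t⁻¹ : Equiv.Perm (Fin n)))] :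
    (Finset.univ.filter
      (fun t : Equiv.Perm (Fin n) => Monotone (S ∘ c ∘ (t⁻¹ : Equiv.Perm (Fin n))))).card
      ≤ stabCard c := by
  classical
  by_cases hne : ∃ t0 : Equiv.Perm (Fin n), Monotone (S ∘ c ∘ (t0⁻¹ : Equiv.Perm (Fin n)))
  · obtain ⟨t0, h0⟩ := hne
    have h1 : ∀ t : Equiv.Perm (Fin n), Monotone (S ∘ c ∘ (t⁻¹ : Equiv.Perm (Fin n))) →
        c ∘ (t⁻¹ * t0 : Equiv.Perm (Fin n)) = c := by
      intro t ht
      have h2 := Tuple.unique_monotone (f := S ∘ c) (σ := t⁻¹) (τ := t0⁻¹) ht h0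
      funext i
      have h3 := congrFun h2 (t0 i)
      simpa using h3
    unfold stabCard
    rw [Nat.card_eq_fintype_card, ← Fintype.card_coe]
    refine Fintype.card_le_of_injective
      (fun t => ⟨(t.1)⁻¹ * t0, h1 t.1 (Finset.mem_filter.1 t.2).2⟩) ?_
    intro t t' h
    have h2 : (t.1)⁻¹ * t0 = (t'.1)⁻¹ * t0 := congrArg Subtype.val h
    exact Subtype.ext (inv_injective (mul_right_cancel h2))
  · push Not at hne
    rw [Finset.filter_eq_empty_iff.2 (fun t _ => hne t), Finset.card_empty]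
    exact Nat.zero_le _

/-! ### Upper bound -/

theorem entropy_le {Ω : Type*} [MeasurableSpace Ω] {Q : Measure Ω} [IsProbabilityMeasure Q]
    {n : ℕ} {C : Type*} [Fintype C] [LinearOrder C] (S : C ≃ C) {x y : Ω → Fin n → ℝ}
    {W : Ω → Fin n → C}
    (hπ : Measurable (fun ω => (Tuple.sort (y ω))⁻¹ * Tuple.sort (x ω)))
    (hW : ∀ c, MeasurableSet {ω | W ω = c})
    (hx : ∀ᵐ ω ∂Q, Monotone (W ω ∘ Tuple.sort (x ω)))
    (hy : ∀ᵐ ω ∂Q, Monotone (S ∘ W ω ∘ Tuple.sort (y ω))) :
    ∑ t : Equiv.Perm (Fin n),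
        Real.negMulLog (Q.real {ω | (Tuple.sort (y ω))⁻¹ * Tuple.sort (x ω) = t}) ≤
      (n + Fintype.card C : ℕ) * Real.log 2 + ∫ ω, Real.log (stabCard (W ω)) ∂Q := by
  classical
  set π : Ω → Equiv.Perm (Fin n) := fun ω => (Tuple.sort (y ω))⁻¹ * Tuple.sort (x ω) with hπd
  set M : ℝ := 2 ^ (n + Fintype.card C) with hM
  have hMpos : 0 < M := by positivity
  set r : Equiv.Perm (Fin n) → ℝ := fun t =>
    ∑ c ∈ Finset.univ.filter (fun c : Fin n → C => Monotone c),
      if Monotone (S ∘ c ∘ (t⁻¹ : Equiv.Perm (Fin n))) then 1 / (M * stabCard c) else 0 with hr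
  have hterm : ∀ (c : Fin n → C) (t : Equiv.Perm (Fin n)), 0 ≤
      (if Monotone (S ∘ c ∘ (t⁻¹ : Equiv.Perm (Fin n))) then 1 / (M * stabCard c) else (0:ℝ)) := by
    intro c t
    split_ifs
    · positivity
    · exact le_rfl
  have hr0 : ∀ t, 0 ≤ r t := fun t => Finset.sum_nonneg fun c _ => hterm c t
  have hr1 : ∑ t, r t ≤ 1 := by
    rw [hr]
    simp only
    rw [Finset.sum_comm]
    have h1 : ∀ c ∈ Finset.univ.filter (fun c : Fin n → C => Monotone c),
        ∑ t : Equiv.Perm (Fin n), (if Monotone (S ∘ c ∘ (t⁻¹ : Equiv.Perm (Fin n)))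
          then 1 / (M * stabCard c) else (0:ℝ)) ≤ 1 / M := by
      intro c _
      rw [← Finset.sum_filter, Finset.sum_const, nsmul_eq_mul]
      have h2 : ((Finset.univ.filter (fun t : Equiv.Perm (Fin n) =>
        Monotone (S ∘ c ∘ (t⁻¹ : Equiv.Perm (Fin n))))).card : ℝ) ≤ stabCard c := by
        exact_mod_cast card_compat S c
      have h3 : (0:ℝ) < stabCard c := by exact_mod_cast stabCard_pos c
      calc _ ≤ (stabCard c : ℝ) * (1 / (M * stabCard c)) :=
            mul_le_mul_of_nonneg_right h2 (by positivity)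
        _ = 1 / M := by field_simp
    calc _ ≤ ∑ c ∈ Finset.univ.filter (fun c : Fin n → C => Monotone c), 1 / M :=
          Finset.sum_le_sum h1
      _ = ((Finset.univ.filter (fun c : Fin n → C => Monotone c)).card : ℝ) * (1 / M) := by
          rw [Finset.sum_const, nsmul_eq_mul]
      _ ≤ M * (1 / M) := by
          apply mul_le_mul_of_nonneg_right _ (by positivity)
          rw [hM]
          exact_mod_cast card_monotone n C
      _ = 1 := by field_simp
  have hlow : ∀ ω, Monotone (W ω ∘ Tuple.sort (x ω)) → Monotone (S ∘ W ω ∘ Tuple.sort (y ω)) →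
      1 / (M * stabCard (W ω)) ≤ r (π ω) := by
    intro ω h1 h2
    have h3 : (W ω ∘ Tuple.sort (x ω)) ∈ Finset.univ.filter (fun c : Fin n → C => Monotone c) := by
      rw [Finset.mem_filter]; exact ⟨Finset.mem_univ _, h1⟩
    have h4 := Finset.single_le_sum (f := fun c : Fin n → C =>
      if Monotone (S ∘ c ∘ ((π ω)⁻¹ : Equiv.Perm (Fin n))) then 1 / (M * stabCard c) else (0:ℝ))
      (fun c _ => hterm c (π ω)) h3
    refine le_trans ?_ h4
    have h5 : S ∘ (W ω ∘ Tuple.sort (x ω)) ∘ ((π ω)⁻¹ : Equiv.Perm (Fin n)) =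
        S ∘ W ω ∘ Tuple.sort (y ω) := by
      funext i
      simp [hπd]
    show _ ≤ (if Monotone (S ∘ (W ω ∘ Tuple.sort (x ω)) ∘ ((π ω)⁻¹ : Equiv.Perm (Fin n)))
      then 1 / (M * stabCard (W ω ∘ Tuple.sort (x ω))) else (0:ℝ))
    rw [h5, if_pos h2, stabCard_comp]
  have hp1 : ∑ t, Q.real {ω | π ω = t} = 1 := by
    have := integral_comp_fin (Q := Q) hπ (fun _ => (1:ℝ))
    simpa using this.symm
  have hpos : ∀ t, Q.real {ω | π ω = t} ≠ 0 → 0 < r t := by
    intro t ht
    have h1 : Q {ω | π ω = t} ≠ 0 := by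
      intro h; apply ht; rw [Measure.real, h]; rfl
    have h2 : ∃ ω, π ω = t ∧ Monotone (W ω ∘ Tuple.sort (x ω)) ∧
        Monotone (S ∘ W ω ∘ Tuple.sort (y ω)) := by
      by_contra h3
      push Not at h3
      apply h1
      refine measure_mono_null (t := {ω | ¬ (Monotone (W ω ∘ Tuple.sort (x ω)) ∧
        Monotone (S ∘ W ω ∘ Tuple.sort (y ω)))}) ?_ ?_
      · intro ω hω
        simp only [Set.mem_ofPred_eq] at hω ⊢
        intro h4
        exact h3 ω hω h4.1 h4.2
      · exact ae_iff.1 (hx.and hy)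
    obtain ⟨ω, rfl, h3, h4⟩ := h2
    refine lt_of_lt_of_le ?_ (hlow ω h3 h4)
    have : (0:ℝ) < stabCard (W ω) := by exact_mod_cast stabCard_pos (W ω)
    positivity
  have hg := gibbs (p := fun t => Q.real {ω | π ω = t}) (r := r) (fun t => measureReal_nonneg) hp1
    hr0 hr1 hpos
  refine hg.trans ?_
  rw [← integral_comp_fin (Q := Q) hπ (fun t => -Real.log (r t))]
  have hWm : Measurable[_, ⊤] W := by
    let _ : MeasurableSpace (Fin n → C) := ⊤
    exact measurable_to_countable' fun c => hW c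
  have hint : Integrable (fun ω => Real.log (stabCard (W ω))) Q := by
    let _ : MeasurableSpace (Fin n → C) := ⊤
    have h1 : Measurable (fun ω => Real.log (stabCard (W ω))) :=
      (measurable_of_finite (fun c : Fin n → C => Real.log (stabCard c))).comp hWm
    obtain ⟨B, hB⟩ := (Set.finite_range (fun c : Fin n → C => ‖Real.log (stabCard c)‖)).bddAbove
    exact Integrable.of_bound h1.aestronglyMeasurable B
      (Filter.Eventually.of_forall fun ω => hB ⟨W ω, rfl⟩)
  have hint2 : Integrable (fun ω => -Real.log (r (π ω))) Q := by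
    have h1 : Measurable (fun ω => -Real.log (r (π ω))) :=
      (measurable_of_finite (fun t : Equiv.Perm (Fin n) => -Real.log (r t))).comp hπ
    obtain ⟨B, hB⟩ := (Set.finite_range (fun t : Equiv.Perm (Fin n) => ‖-Real.log (r t)‖)).bddAbove
    exact Integrable.of_bound h1.aestronglyMeasurable B
      (Filter.Eventually.of_forall fun ω => hB ⟨π ω, rfl⟩)
  have hfin : ∫ ω, -Real.log (r (π ω)) ∂Q ≤
      ∫ ω, ((n + Fintype.card C : ℕ) * Real.log 2 + Real.log (stabCard (W ω))) ∂Q := by
    apply integral_mono_ae hint2 ((integrable_const _).add hint)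
    filter_upwards [hx, hy] with ω h1 h2
    have h3 := hlow ω h1 h2
    have hs : (0:ℝ) < stabCard (W ω) := by exact_mod_cast stabCard_pos (W ω)
    have h4 := Real.log_le_log (by positivity) h3
    rw [one_div, Real.log_inv, Real.log_mul hMpos.ne' hs.ne', hM, Real.log_pow] at h4
    show -Real.log (r (π ω)) ≤ (n + Fintype.card C : ℕ) * Real.log 2 + Real.log (stabCard (W ω))
    linarith
  refine hfin.trans ?_
  rw [integral_add (integrable_const _) hint, integral_const, probReal_univ, one_smul]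

end Q297.Permuton
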