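import Pool.Agent.Q297.PermEnt

open MeasureTheory Finset

namespace Q297.Permuton

lemma stabCard_eq {n : ℕ} {K : Type*} [DecidableEq K] (c : Fin n → K) :
    stabCard c = (Finset.univ.filter (fun g : Equiv.Perm (Fin n) => c ∘ g = c)).card := by
  unfold stabCard
  rw [Nat.card_eq_fintype_card, Fintype.card_subtype]

theorem le_entropy {Ω : Type*} [MeasurableSpace Ω] {Q : Measure Ω} [IsProbabilityMeasure Q]
    {n : ℕ} {K T : Type*} [Finite K] [Fintype T] [MeasurableSpace T] [DiscreteMeasurableSpace T]
    {π : Ω → T} (hπ : Measurable π) {c : Ω → Fin n → K} (hc : ∀ k, MeasurableSet {ω | c ω = k})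
    (A : Equiv.Perm (Fin n) → Ω → Ω) (hA : ∀ g, MeasurePreserving (A g) Q Q)
    (hinv : ∀ (g : Equiv.Perm (Fin n)) ω, c ω ∘ g = c ω → c (A g ω) = c ω)
    (hAA : ∀ g ω, A g⁻¹ (A g ω) = ω)
    (hinj : ∀ᵐ ω ∂Q, ∀ g h : Equiv.Perm (Fin n), c ω ∘ g = c ω → c ω ∘ h = c ω →
      π (A g ω) = π (A h ω) → g = h) :
    ∫ ω, Real.log (stabCard (c ω)) ∂Q ≤ ∑ t, Real.negMulLog (Q.real {ω | π ω = t}) := by
  classical
  let _ : MeasurableSpace (Fin n → K) := ⊤
  have hfinK : Finite (Fin n → K) := inferInstance
  have hcm : Measurable c := measurable_to_countable' fun k => hc k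
  -- the basic functions
  set f0 : Equiv.Perm (Fin n) → T → (Fin n → K) × T → ℝ := fun g t z =>
    if z.1 ∘ g = z.1 ∧ z.2 = t then 1 / (stabCard z.1 : ℝ) else 0 with hf0
  set F : Equiv.Perm (Fin n) → T → Ω → ℝ := fun g t ω => f0 g t (c ω, π (A g ω)) with hF
  set H : Equiv.Perm (Fin n) → T → Ω → ℝ := fun g t ω => f0 g t (c ω, π ω) with hH
  have hstab : ∀ k : Fin n → K, (1:ℝ) ≤ stabCard k := by
    intro k
    exact_mod_cast stabCard_pos k
  have hf0nn : ∀ g t z, 0 ≤ f0 g t z := by
    intro g t z
    simp only [hf0]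
    split_ifs
    · positivity
    · exact le_rfl
  have hf0le : ∀ g t z, f0 g t z ≤ 1 := by
    intro g t z
    simp only [hf0]
    split_ifs
    · rw [div_le_one (by linarith [hstab z.1])]
      exact hstab z.1
    · exact zero_le_one
  have hprodm : MeasurableSingletonClass ((Fin n → K) × T) := inferInstance
  have hf0m : ∀ g t, Measurable (f0 g t) := by
    intro g t
    have : Finite ((Fin n → K) × T) := inferInstance
    exact measurable_of_finite _
  have hFm : ∀ g t, Measurable (F g t) := fun g t =>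
    (hf0m g t).comp (hcm.prodMk (hπ.comp (hA g).measurable))
  have hHm : ∀ g t, Measurable (H g t) := fun g t => (hf0m g t).comp (hcm.prodMk hπ)
  have hFi : ∀ g t, Integrable (F g t) Q := fun g t =>
    Integrable.of_bound (hFm g t).aestronglyMeasurable 1 (Filter.Eventually.of_forall fun ω => by
      rw [Real.norm_eq_abs, abs_of_nonneg (hf0nn _ _ _)]; exact hf0le _ _ _)
  have hHi : ∀ g t, Integrable (H g t) Q := fun g t =>
    Integrable.of_bound (hHm g t).aestronglyMeasurable 1 (Filter.Eventually.of_forall fun ω => by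
      rw [Real.norm_eq_abs, abs_of_nonneg (hf0nn _ _ _)]; exact hf0le _ _ _)
  have hFH : ∀ g t ω, F g t ω = H g t (A g ω) := by
    intro g t ω
    simp only [hF, hH, hf0]
    by_cases h1 : c ω ∘ g = c ω
    · rw [hinv g ω h1]
    · have h2 : ¬ (c (A g ω) ∘ g = c (A g ω)) := by
        intro h3
        have h4 : c (A g ω) ∘ (g⁻¹ : Equiv.Perm (Fin n)) = c (A g ω) := by
          funext i
          have := congrFun h3 (g⁻¹ i)
          simpa using this.symm
        have h5 := hinv g⁻¹ (A g ω) h4
        rw [hAA] at h5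
        rw [← h5] at h3
        exact h1 h3
      rw [if_neg (fun h => h1 h.1), if_neg (fun h => h2 h.1)]
  have hintF : ∀ g t, ∫ ω, F g t ω ∂Q = ∫ ω, H g t ω ∂Q := by
    intro g t
    simp_rw [hFH g t]
    have h1 := (hA g).map_eq
    conv_rhs => rw [← h1]
    rw [integral_map (hA g).measurable.aemeasurable (hHm g t).aestronglyMeasurable]
  have hsumH : ∀ t ω, ∑ g, H g t ω = Set.indicator {ω | π ω = t} (fun _ => (1:ℝ)) ω := by
    intro t ω
    simp only [hH, hf0]
    by_cases h1 : π ω = t
    · rw [Set.indicator_of_mem (by exact h1)]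
      simp only [h1, and_true]
      rw [← Finset.sum_filter, Finset.sum_const, nsmul_eq_mul, stabCard_eq (c ω)]
      have h2 := hstab (c ω)
      rw [stabCard_eq (c ω)] at h2
      field_simp
    · rw [Set.indicator_of_notMem (by exact h1)]
      apply Finset.sum_eq_zero
      intro g _
      rw [if_neg (fun h => h1 h.2)]
  set X : T → Ω → ℝ := fun t ω => ∑ g, F g t ω with hX
  have hXi : ∀ t, Integrable (X t) Q := fun t => integrable_finsetSum _ fun g _ => hFi g t
  have hXint : ∀ t, ∫ ω, X t ω ∂Q = Q.real {ω | π ω = t} := by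
    intro t
    simp only [hX]
    rw [integral_finsetSum _ fun g _ => hFi g t]
    simp_rw [hintF]
    rw [← integral_finsetSum _ fun g _ => hHi g t]
    simp_rw [hsumH t]
    have hms : MeasurableSet {ω | π ω = t} := hπ (MeasurableSet.of_discrete (s := {t}))
    rw [integral_indicator hms, setIntegral_const, smul_eq_mul, mul_one]
  have hXnn : ∀ t ω, 0 ≤ X t ω := fun t ω => Finset.sum_nonneg fun g _ => hf0nn _ _ _
  -- bound of X
  have hXle : ∀ t ω, X t ω ≤ Fintype.card (Equiv.Perm (Fin n)) := by
    intro t ω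
    calc X t ω ≤ ∑ g : Equiv.Perm (Fin n), (1:ℝ) := Finset.sum_le_sum fun g _ => hf0le _ _ _
      _ = _ := by simp
  have hXm : ∀ t, Measurable (X t) := fun t => by
    simp only [hX]
    exact Finset.measurable_fun_sum _ fun g _ => hFm g t
  have hnm : ∀ t, Integrable (fun ω => Real.negMulLog (X t ω)) Q := by
    intro t
    obtain ⟨B, hB⟩ := (isCompact_Icc (a := (0:ℝ))
      (b := Fintype.card (Equiv.Perm (Fin n)))).exists_bound_of_continuousOn
      (Real.continuous_negMulLog.continuousOn)
    refine Integrable.of_bound (Real.continuous_negMulLog.measurable.comp (hXm t)).aestronglyMeasurable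
      B (Filter.Eventually.of_forall fun ω => hB _ ⟨hXnn t ω, hXle t ω⟩)
  have hJ : ∀ t, ∫ ω, Real.negMulLog (X t ω) ∂Q ≤ Real.negMulLog (Q.real {ω | π ω = t}) := by
    intro t
    rw [← hXint t]
    exact Real.concaveOn_negMulLog.le_map_integral Real.continuous_negMulLog.continuousOn
      isClosed_Ici (Filter.Eventually.of_forall fun ω => hXnn t ω) (hXi t) (hnm t)
  refine le_trans ?_ (Finset.sum_le_sum fun t _ => hJ t)
  rw [← integral_finsetSum _ fun t _ => hnm t]
  apply le_of_eq
  apply integral_congr_ae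
  filter_upwards [hinj] with ω hω
  -- the number of group elements producing `t`
  set j : T → ℕ := fun t =>
    (Finset.univ.filter (fun g : Equiv.Perm (Fin n) => c ω ∘ g = c ω ∧ π (A g ω) = t)).card with hj
  have hXj : ∀ t, X t ω = j t * (1 / (stabCard (c ω) : ℝ)) := by
    intro t
    simp only [hX, hF, hf0, hj]
    rw [← Finset.sum_filter, Finset.sum_const, nsmul_eq_mul]
  have hj1 : ∀ t, j t = 0 ∨ j t = 1 := by
    intro t
    have : j t ≤ 1 := by
      rw [hj]
      simp only
      rw [Finset.card_le_one]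
      intro g hg h hh
      rw [Finset.mem_filter] at hg hh
      exact hω g h hg.2.1 hh.2.1 (by rw [hg.2.2, hh.2.2])
    omega
  have hjs : ∑ t, j t = stabCard (c ω) := by
    rw [stabCard_eq]
    simp only [hj]
    rw [Finset.card_eq_sum_card_fiberwise (f := fun g => π (A g ω)) (t := Finset.univ)
      (fun _ _ => Finset.mem_coe.2 (Finset.mem_univ _))]
    apply Finset.sum_congr rfl
    intro t _
    rw [Finset.filter_filter]
  have hterm : ∀ t, Real.negMulLog (X t ω) =
      (j t : ℝ) * (Real.log (stabCard (c ω)) / stabCard (c ω)) := by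
    intro t
    rw [hXj t]
    rcases hj1 t with h | h
    · rw [h]; simp
    · rw [h]
      unfold Real.negMulLog
      rw [Nat.cast_one, one_mul, one_div, Real.log_inv]
      ring
  simp_rw [hterm]
  rw [← Finset.sum_mul, ← Nat.cast_sum, hjs]
  have h2 := hstab (c ω)
  field_simp

end Q297.Permuton
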