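import Pool.Agent.Q297.PermUpper

open MeasureTheory Finset
open scoped Classical

namespace Q297.Permuton

variable {n q : ℕ}

/-- first half of the digit `k` -/
def av (k : ℕ) (θ : Idx n → Fin q) (i : Fin n) : Fin q := θ (i, k, false)
/-- second half of the digit `k` -/
def bv (k : ℕ) (θ : Idx n → Fin q) (i : Fin n) : Fin q := θ (i, k, true)

/-- the block of `i` is good: all `a`'s are distinct and all `b`'s are distinct -/
def Good (k : ℕ) (θ : Idx n → Fin q) (i : Fin n) : Prop :=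
  ∀ j l, Wd k θ j = Wd k θ i → Wd k θ l = Wd k θ i → j ≠ l →
    av k θ j ≠ av k θ l ∧ bv k θ j ≠ bv k θ l

/-- colour: the word for points in good blocks, a private colour for the others -/
noncomputable def Cl (k : ℕ) (θ : Idx n → Fin q) (i : Fin n) :
    Lex (Fin k → Fin (q * q)) ⊕ Fin n :=
  if Good k θ i then Sum.inl (Wd k θ i) else Sum.inr i

/-- index permutation -/
def eg (k : ℕ) (g : Equiv.Perm (Fin n)) : Idx n ≃ Idx n where
  toFun a := if a.2 = (k, true) then (g a.1, a.2) else a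
  invFun a := if a.2 = (k, true) then (g⁻¹ a.1, a.2) else a
  left_inv a := by
    by_cases h : a.2 = (k, true)
    · simp [h]
      rw [← h]
    · simp [h]
  right_inv a := by
    by_cases h : a.2 = (k, true)
    · simp [h]
      rw [← h]
    · simp [h]

/-- permuting the second halves of the digits `k` -/
def Ac (k : ℕ) (g : Equiv.Perm (Fin n)) (θ : Idx n → Fin q) : Idx n → Fin q :=
  fun a => θ (eg k g a)

lemma Ac_of_ne {k : ℕ} (g : Equiv.Perm (Fin n)) (θ : Idx n → Fin q) (i : Fin n) {s : ℕ × Bool}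
    (h : s ≠ (k, true)) : Ac k g θ (i, s) = θ (i, s) := by
  unfold Ac eg
  simp [h]

lemma Ac_true (k : ℕ) (g : Equiv.Perm (Fin n)) (θ : Idx n → Fin q) (i : Fin n) :
    Ac k g θ (i, k, true) = θ (g i, k, true) := by
  unfold Ac eg
  simp

lemma Ac_mp [NeZero q] (k : ℕ) (g : Equiv.Perm (Fin n)) :
    MeasurePreserving (Ac (q := q) k g) (Th n q) (Th n q) := by
  have := Q297.Bern.act_mp (V := Idx n) (unifDigit q) (eg k g).symm
  exact this

lemma Ac_Ac (k : ℕ) (g : Equiv.Perm (Fin n)) (θ : Idx n → Fin q) : Ac k g⁻¹ (Ac k g θ) = θ := by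
  funext a
  obtain ⟨i, s⟩ := a
  by_cases h : s = (k, true)
  · rw [h, Ac_true, Ac_true]
    simp
  · rw [Ac_of_ne _ _ _ h, Ac_of_ne _ _ _ h]

lemma Wd_Ac (k : ℕ) (g : Equiv.Perm (Fin n)) (θ : Idx n → Fin q) : Wd k (Ac k g θ) = Wd k θ := by
  funext i
  unfold Wd dig
  congr 1
  funext l
  have h1 : ((l : ℕ), false) ≠ (k, true) := by simp
  have h2 : ((l : ℕ), true) ≠ (k, true) := by
    intro h
    have := congrArg Prod.fst h
    exact absurd this (ne_of_lt l.2)
  rw [Ac_of_ne g θ i h1, Ac_of_ne g θ i h2]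

lemma av_Ac (k : ℕ) (g : Equiv.Perm (Fin n)) (θ : Idx n → Fin q) : av k (Ac k g θ) = av k θ := by
  funext i
  unfold av
  exact Ac_of_ne g θ i (by simp)

lemma bv_Ac (k : ℕ) (g : Equiv.Perm (Fin n)) (θ : Idx n → Fin q) (i : Fin n) :
    bv k (Ac k g θ) i = bv k θ (g i) := Ac_true k g θ i

lemma Reg.Ac {θ : Idx n → Fin q} (h : Reg θ) (k : ℕ) (g : Equiv.Perm (Fin n)) :
    Reg (Ac k g θ) := by
  intro i N
  obtain ⟨l, hl, h1⟩ := h i N
  refine ⟨l, hl, ?_⟩
  rw [Ac_of_ne g θ i (by simp)]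
  exact h1

lemma Good.congr {k : ℕ} {θ : Idx n → Fin q} {i j : Fin n} (h : Good k θ i)
    (hW : Wd k θ j = Wd k θ i) : Good k θ j := by
  intro a b ha hb hab
  exact h a b (ha.trans hW) (hb.trans hW) hab

/-- consequences of preserving the colouring -/
lemma stab_iff {k : ℕ} {θ : Idx n → Fin q} {g : Equiv.Perm (Fin n)} (h : Cl k θ ∘ g = Cl k θ) :
    (∀ i, Wd k θ (g i) = Wd k θ i) ∧ (∀ i, ¬ Good k θ i → g i = i) := by
  have key : ∀ i, (Good k θ i → Wd k θ (g i) = Wd k θ i) ∧ (¬ Good k θ i → g i = i) := by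
    intro i
    have h1 : Cl k θ (g i) = Cl k θ i := congrFun h i
    unfold Cl at h1
    constructor
    · intro hg
      rw [if_pos hg] at h1
      split_ifs at h1 with h2
      exact Sum.inl_injective h1
    · intro hg
      rw [if_neg hg] at h1
      split_ifs at h1 with h2
      exact Sum.inr_injective h1
  refine ⟨fun i => ?_, fun i => (key i).2⟩
  by_cases hg : Good k θ i
  · exact (key i).1 hg
  · rw [(key i).2 hg]

lemma Good_Ac {k : ℕ} {θ : Idx n → Fin q} {g : Equiv.Perm (Fin n)}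
    (hW : ∀ i, Wd k θ (g i) = Wd k θ i) (i : Fin n) : Good k (Ac k g θ) i ↔ Good k θ i := by
  unfold Good
  simp only [Wd_Ac, av_Ac, bv_Ac]
  constructor
  · intro h j l hj hl hjl
    refine ⟨(h j l hj hl hjl).1, ?_⟩
    have h2 := (h (g⁻¹ j) (g⁻¹ l) ?_ ?_ ?_).2
    · simpa using h2
    · rw [← hW (g⁻¹ j)]; simpa using hj
    · rw [← hW (g⁻¹ l)]; simpa using hl
    · intro h3; exact hjl (g⁻¹.injective h3)
  · intro h j l hj hl hjl
    refine ⟨(h j l hj hl hjl).1, ?_⟩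
    exact (h (g j) (g l) ((hW j).trans hj) ((hW l).trans hl) (fun h3 => hjl (g.injective h3))).2

lemma Cl_Ac {k : ℕ} (g : Equiv.Perm (Fin n)) (θ : Idx n → Fin q) (h : Cl k θ ∘ g = Cl k θ) :
    Cl k (Ac k g θ) = Cl k θ := by
  have h1 := stab_iff h
  funext i
  unfold Cl
  simp only [Good_Ac h1.1 i, Wd_Ac]

/-! ### Orders -/

lemma Wd_eq_dig {k : ℕ} {θ : Idx n → Fin q} {i j : Fin n} (h : Wd k θ i = Wd k θ j) (l : ℕ)
    (hl : l < k) : dig θ i l = dig θ j l := by
  have := congrFun (toLex_inj.1 h) ⟨l, hl⟩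
  exact this

lemma xc_lt_of_av {k : ℕ} {θ : Idx n → Fin q} (hr : Reg θ) {i j : Fin n}
    (h : Wd k θ i = Wd k θ j) (ha : av k θ i < av k θ j) : xc θ i < xc θ j := by
  refine ofDigits_lt (L := k) (fun l hl => Wd_eq_dig h l hl) ?_ (hr.dig i k)
  show (θ (i, k, true) : ℕ) + q * (θ (i, k, false) : ℕ) <
    (θ (j, k, true) : ℕ) + q * (θ (j, k, false) : ℕ)
  have h1 : (θ (i, k, false) : ℕ) + 1 ≤ (θ (j, k, false) : ℕ) := ha
  have h2 := (θ (i, k, true)).2
  have h3 := Nat.mul_le_mul_left q h1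
  rw [Nat.mul_add, mul_one] at h3
  omega

lemma Wd_eq_digS {k : ℕ} {θ : Idx n → Fin q} {i j : Fin n} (h : Wd k θ i = Wd k θ j) (l : ℕ)
    (hl : l < k) : digS θ i l = digS θ j l := by
  rw [← sg_dig, ← sg_dig, Wd_eq_dig h l hl]

lemma yc_lt_of_bv {k : ℕ} {θ : Idx n → Fin q} (hr : Reg θ) {i j : Fin n}
    (h : Wd k θ i = Wd k θ j) (ha : bv k θ i < bv k θ j) : yc θ i < yc θ j := by
  refine ofDigits_lt (L := k) (fun l hl => Wd_eq_digS h l hl) ?_ (hr.digS i k)
  show (θ (i, k, false) : ℕ) + q * (θ (i, k, true) : ℕ) <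
    (θ (j, k, false) : ℕ) + q * (θ (j, k, true) : ℕ)
  have h1 : (θ (i, k, true) : ℕ) + 1 ≤ (θ (j, k, true) : ℕ) := ha
  have h2 := (θ (i, k, false)).2
  have h3 := Nat.mul_le_mul_left q h1
  rw [Nat.mul_add, mul_one] at h3
  omega

lemma xc_Ac_lt {k : ℕ} {θ : Idx n → Fin q} (hr : Reg θ) {g h : Equiv.Perm (Fin n)}
    (hg : Cl k θ ∘ g = Cl k θ) (hh : Cl k θ ∘ h = Cl k θ) {i j : Fin n}
    (hlt : xc (Ac k g θ) i < xc (Ac k g θ) j) : xc (Ac k h θ) i < xc (Ac k h θ) j := by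
  have sg' := stab_iff hg
  have sh := stab_iff hh
  rcases lt_trichotomy (Wd k θ i) (Wd k θ j) with h1 | h1 | h1
  · exact xc_lt (k := k) (hr.Ac k h) (by rw [Wd_Ac]; exact h1)
  · by_cases hgood : Good k θ i
    · have hij : i ≠ j := fun e => by rw [e] at hlt; exact lt_irrefl _ hlt
      have h2 := (hgood i j rfl h1.symm hij).1
      rcases lt_or_gt_of_ne h2 with h3 | h3
      · exact xc_lt_of_av (k := k) (hr.Ac k h) (by rw [Wd_Ac]; exact h1) (by rw [av_Ac]; exact h3)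
      · exfalso
        have h4 : xc (Ac k g θ) j < xc (Ac k g θ) i :=
          xc_lt_of_av (k := k) (hr.Ac k g) (by rw [Wd_Ac]; exact h1.symm) (by rw [av_Ac]; exact h3)
        exact lt_asymm hlt h4
    · have hgood' : ¬ Good k θ j := fun h2 => hgood (h2.congr h1)
      have e : ∀ a, ¬ Good k θ a → xc (Ac k g θ) a = xc (Ac k h θ) a := by
        intro a ha
        unfold xc
        congr 1
        funext l
        unfold dig
        by_cases hl : l = k
        · rw [hl, Ac_true, Ac_true, Ac_of_ne g θ a (by simp), Ac_of_ne h θ a (by simp), sg'.2 a ha,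
            sh.2 a ha]
        · have n1 : (l, false) ≠ (k, true) := by simp
          have n2 : (l, true) ≠ (k, true) := by
            intro h5; exact hl (congrArg Prod.fst h5)
          rw [Ac_of_ne g θ a n1, Ac_of_ne h θ a n1, Ac_of_ne g θ a n2, Ac_of_ne h θ a n2]
      rw [← e i hgood, ← e j hgood']
      exact hlt
  · exfalso
    have h4 : xc (Ac k g θ) j < xc (Ac k g θ) i :=
      xc_lt (k := k) (hr.Ac k g) (by rw [Wd_Ac]; exact h1)
    exact lt_asymm hlt h4

lemma inj_aux {k : ℕ} {θ : Idx n → Fin q} (hr : Reg θ) {g h : Equiv.Perm (Fin n)}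
    (hg : Cl k θ ∘ g = Cl k θ) (hh : Cl k θ ∘ h = Cl k θ)
    (hy : Tuple.sort (yc (Ac k g θ)) = Tuple.sort (yc (Ac k h θ))) {i j : Fin n}
    (hgood : Good k θ i) (hW : Wd k θ j = Wd k θ i)
    (hlt : bv k θ (g j) < bv k θ (g i)) : bv k θ (h j) < bv k θ (h i) := by
  have sg' := stab_iff hg
  have sh := stab_iff hh
  have hne : j ≠ i := fun e => by rw [e] at hlt; exact lt_irrefl _ hlt
  -- y-order for g
  have h1 : yc (Ac k g θ) j < yc (Ac k g θ) i :=
    yc_lt_of_bv (k := k) (hr.Ac k g) (by rw [Wd_Ac]; exact hW) (by rw [bv_Ac, bv_Ac]; exact hlt)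
  set s := Tuple.sort (yc (Ac k g θ)) with hs
  have m1 := Tuple.monotone_sort (yc (Ac k g θ))
  have m2 := Tuple.monotone_sort (yc (Ac k h θ))
  rw [← hs] at m1
  rw [← hy] at m2
  have h2 : s⁻¹ j < s⁻¹ i := by
    by_contra h3
    rw [not_lt] at h3
    have h4 : yc (Ac k g θ) i ≤ yc (Ac k g θ) j := by simpa using m1 h3
    exact absurd h1 (not_lt.2 h4)
  have h3 : yc (Ac k h θ) j ≤ yc (Ac k h θ) i := by
    have h4 := m2 h2.le
    simpa using h4
  have h4 : bv k θ (h j) ≠ bv k θ (h i) :=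
    (hgood (h j) (h i) ((sh.1 j).trans hW) (sh.1 i) (fun e => hne (h.injective e))).2
  rcases lt_or_gt_of_ne h4 with h5 | h5
  · exact h5
  · exfalso
    have h6 : yc (Ac k h θ) i < yc (Ac k h θ) j :=
      yc_lt_of_bv (k := k) (hr.Ac k h) (by rw [Wd_Ac]; exact hW.symm)
        (by rw [bv_Ac, bv_Ac]; exact h5)
    exact absurd h6 (not_lt.2 h3)

/-- rank of a value in the block of `i` -/
noncomputable def rk (k : ℕ) (θ : Idx n → Fin q) (i p : Fin n) : ℕ :=
  (Finset.univ.filter (fun j => Wd k θ j = Wd k θ i ∧ bv k θ j < bv k θ p)).card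

lemma rk_eq {k : ℕ} {θ : Idx n → Fin q} {g : Equiv.Perm (Fin n)}
    (hg : ∀ i, Wd k θ (g i) = Wd k θ i) (i : Fin n) :
    (Finset.univ.filter (fun j => Wd k θ j = Wd k θ i ∧ bv k θ (g j) < bv k θ (g i))).card =
      rk k θ i (g i) := by
  unfold rk
  apply Finset.card_bij (fun j _ => g j)
  · intro j hj
    rw [Finset.mem_filter] at hj ⊢
    exact ⟨Finset.mem_univ _, (hg j).trans hj.2.1, hj.2.2⟩
  · intro a _ b _ hab
    exact g.injective hab
  · intro b hb
    rw [Finset.mem_filter] at hb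
    refine ⟨g⁻¹ b, ?_, by simp⟩
    rw [Finset.mem_filter]
    refine ⟨Finset.mem_univ _, ?_, by simpa using hb.2.2⟩
    rw [← hg (g⁻¹ b)]
    simpa using hb.2.1

lemma rk_lt {k : ℕ} {θ : Idx n → Fin q} {i p p' : Fin n} (hp : Wd k θ p = Wd k θ i)
    (h : bv k θ p < bv k θ p') : rk k θ i p < rk k θ i p' := by
  unfold rk
  apply Finset.card_lt_card
  rw [Finset.ssubset_iff_of_subset]
  · refine ⟨p, ?_, ?_⟩
    · rw [Finset.mem_filter]; exact ⟨Finset.mem_univ _, hp, h⟩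
    · rw [Finset.mem_filter]; rintro ⟨_, _, h2⟩; exact lt_irrefl _ h2
  · intro j hj
    rw [Finset.mem_filter] at hj ⊢
    exact ⟨hj.1, hj.2.1, hj.2.2.trans h⟩

lemma inj_main {k : ℕ} {θ : Idx n → Fin q} (hr : Reg θ) {g h : Equiv.Perm (Fin n)}
    (hg : Cl k θ ∘ g = Cl k θ) (hh : Cl k θ ∘ h = Cl k θ)
    (hπ : pt (Ac k g θ) = pt (Ac k h θ)) : g = h := by
  have sg' := stab_iff hg
  have sh := stab_iff hh
  have hx : Tuple.sort (xc (Ac k g θ)) = Tuple.sort (xc (Ac k h θ)) :=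
    sort_eq_of_lt_iff fun i j => ⟨xc_Ac_lt hr hg hh, xc_Ac_lt hr hh hg⟩
  have hy : Tuple.sort (yc (Ac k g θ)) = Tuple.sort (yc (Ac k h θ)) := by
    unfold pt at hπ
    rw [hx] at hπ
    exact inv_injective (mul_right_cancel hπ)
  apply Equiv.ext
  intro i
  by_cases hgood : Good k θ i
  · have h1 : rk k θ i (g i) = rk k θ i (h i) := by
      rw [← rk_eq sg'.1 i, ← rk_eq sh.1 i]
      congr 1
      apply Finset.filter_congr
      intro j _
      constructor
      · rintro ⟨h1, h2⟩; exact ⟨h1, inj_aux hr hg hh hy hgood h1 h2⟩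
      · rintro ⟨h1, h2⟩; exact ⟨h1, inj_aux hr hh hg hy.symm hgood h1 h2⟩
    by_contra hne
    have h2 := (hgood (g i) (h i) (sg'.1 i) (sh.1 i) hne).2
    rcases lt_or_gt_of_ne h2 with h3 | h3
    · have := rk_lt (sg'.1 i) h3
      omega
    · have := rk_lt (sh.1 i) h3
      omega
  · rw [sg'.2 i hgood, sh.2 i hgood]

end Q297.Permuton
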