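import Pool.Agent.Q297.PermLower

open MeasureTheory Finset Filter Topology
open scoped Classical

namespace Q297.Permuton

variable {n q : ℕ}

lemma fib_good {k : ℕ} {θ : Idx n → Fin q} {i : Fin n} (h : Good k θ i) :
    fib (Cl k θ) (Cl k θ i) = fib (Wd k θ) (Wd k θ i) := by
  unfold fib
  congr 1
  apply Finset.filter_congr
  intro j _
  unfold Cl
  rw [if_pos h]
  constructor
  · intro h1
    split_ifs at h1 with h2
    exact Sum.inl_injective h1
  · intro h1
    rw [if_pos (h.congr h1), h1]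

/-- bad pairs -/
noncomputable def badP (k : ℕ) (θ : Idx n → Fin q) : Finset (Fin n × Fin n) :=
  Finset.univ.filter (fun p => p.1 ≠ p.2 ∧ Wd k θ p.1 = Wd k θ p.2 ∧
    (av k θ p.1 = av k θ p.2 ∨ bv k θ p.1 = bv k θ p.2))

lemma pointwise (k : ℕ) (θ : Idx n → Fin q) {M J : ℝ} (hM : 0 < M) (hM1 : 1 ≤ Real.log M)
    (hJ : 0 < J) :
    (Real.log M - 1) * (n - ((q * q : ℝ) ^ k) * M - (pairs (Wd k θ) : ℝ) / J -
      J * ((badP k θ).card : ℝ)) ≤ Real.log (stabCard (Cl k θ)) := by
  refine le_trans ?_ (log_stab_ge (Cl k θ) hM)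
  apply mul_le_mul_of_nonneg_left _ (by linarith)
  have h1 := card_small (Wd k θ) hM.le
  have h2 := card_large (Wd k θ) J
  have h3 := card_bad (Wd k θ) (J := J) (fun i => ¬ Good k θ i) (badP k θ) (by
    intro i hi
    unfold Good at hi
    push Not at hi
    obtain ⟨j, l, hj, hl, hjl, h⟩ := hi
    refine ⟨(j, l), ?_, hj⟩
    unfold badP
    rw [Finset.mem_filter]
    refine ⟨Finset.mem_univ _, hjl, hj.trans hl.symm, ?_⟩
    by_cases h5 : av k θ j = av k θ l
    · left; exact h5
    · right; exact h h5) hJ.le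
  rw [card_Lex] at h1
  push_cast at h1
  -- cover
  have hcov : (Finset.univ : Finset (Fin n)) ⊆
      (Finset.univ.filter (fun i => M < fib (Cl k θ) (Cl k θ i))) ∪
      ((Finset.univ.filter (fun i => (fib (Wd k θ) (Wd k θ i) : ℝ) ≤ M)) ∪
      ((Finset.univ.filter (fun i => J < (fib (Wd k θ) (Wd k θ i) : ℝ))) ∪
      (Finset.univ.filter (fun i => ¬ Good k θ i ∧ (fib (Wd k θ) (Wd k θ i) : ℝ) ≤ J)))) := by
    intro i _
    simp only [Finset.mem_union, Finset.mem_filter, Finset.mem_univ, true_and]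
    by_cases hg : Good k θ i
    · by_cases hs : (fib (Wd k θ) (Wd k θ i) : ℝ) ≤ M
      · right; left; exact hs
      · left
        rw [fib_good hg]
        exact not_le.1 hs
    · by_cases hs : (fib (Wd k θ) (Wd k θ i) : ℝ) ≤ J
      · right; right; right; exact ⟨hg, hs⟩
      · right; right; left; exact not_le.1 hs
  have hcard := Finset.card_le_card hcov
  rw [Finset.card_univ, Fintype.card_fin] at hcard
  have hcard2 := hcard.trans ((Finset.card_union_le _ _).trans (Nat.add_le_add_left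
    ((Finset.card_union_le _ _).trans (Nat.add_le_add_left (Finset.card_union_le _ _) _)) _))
  have hcard3 : (n : ℝ) ≤ ((Finset.univ.filter (fun i => M < fib (Cl k θ) (Cl k θ i))).card : ℝ) +
      (((Finset.univ.filter (fun i => (fib (Wd k θ) (Wd k θ i) : ℝ) ≤ M)).card : ℝ) +
      (((Finset.univ.filter (fun i => J < (fib (Wd k θ) (Wd k θ i) : ℝ))).card : ℝ) +
      ((Finset.univ.filter (fun i => ¬ Good k θ i ∧ (fib (Wd k θ) (Wd k θ i) : ℝ) ≤ J)).card : ℝ))) := by
    exact_mod_cast hcard2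
  have h4 : ((Finset.univ.filter (fun i => J < (fib (Wd k θ) (Wd k θ i) : ℝ))).card : ℝ) ≤
      (pairs (Wd k θ) : ℝ) / J := by
    rw [le_div_iff₀ hJ, mul_comm]
    convert h2
  have h1' : ((Finset.univ.filter (fun i => (fib (Wd k θ) (Wd k θ i) : ℝ) ≤ M)).card : ℝ) ≤
      ((q * q : ℝ) ^ k) * M := by
    convert h1
  have h3' : ((Finset.univ.filter (fun i => ¬ Good k θ i ∧
      (fib (Wd k θ) (Wd k θ i) : ℝ) ≤ J)).card : ℝ) ≤ J * ((badP k θ).card : ℝ) := by
    convert h3
  linarith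

lemma prob_bad [NeZero q] {k : ℕ} {i j : Fin n} (hij : i ≠ j) (b : Bool) :
    (Th n q).real {θ | Wd k θ i = Wd k θ j ∧ θ (i, k, b) = θ (j, k, b)} ≤
      (((q * q : ℝ)) ^ k)⁻¹ * (q : ℝ)⁻¹ := by
  have h1 := pair_prob hij (insert (k, b) (Finset.range k ×ˢ (Finset.univ : Finset Bool))) (q := q)
  have h2 : {θ : Idx n → Fin q | Wd k θ i = Wd k θ j ∧ θ (i, k, b) = θ (j, k, b)} =
      {θ | ∀ s ∈ insert (k, b) (Finset.range k ×ˢ (Finset.univ : Finset Bool)),
        θ (i, s) = θ (j, s)} := by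
    ext θ
    simp only [Set.mem_ofPred_eq, Finset.forall_mem_insert]
    rw [Wd_eq_iff θ i j, and_comm]
  rw [h2]
  refine h1.trans (le_of_eq ?_)
  rw [Finset.card_insert_of_notMem (by simp), Finset.card_product, Finset.card_range,
    Finset.card_univ, Fintype.card_bool, mul_comm k 2, pow_succ,
    pow_mul, ← inv_pow, sq, mul_inv]

lemma local_Wd {k : ℕ} {θ θ' : Idx n → Fin q}
    (h : ∀ a ∈ (Finset.univ ×ˢ (Finset.range (k + 1) ×ˢ Finset.univ) : Finset (Idx n)), θ a = θ' a) :
    Wd k θ = Wd k θ' ∧ av k θ = av k θ' ∧ bv k θ = bv k θ' := by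
  refine ⟨?_, ?_, ?_⟩
  · funext i
    unfold Wd dig
    congr 1
    funext l
    have := l.2
    rw [h (i, l, false) (by simp), h (i, l, true) (by simp)]
  · funext i
    exact h (i, k, false) (by simp)
  · funext i
    exact h (i, k, true) (by simp)

lemma local_badP {k : ℕ} {θ θ' : Idx n → Fin q}
    (h : ∀ a ∈ (Finset.univ ×ˢ (Finset.range (k + 1) ×ˢ Finset.univ) : Finset (Idx n)), θ a = θ' a) :
    badP k θ = badP k θ' := by
  obtain ⟨h1, h2, h3⟩ := local_Wd h
  unfold badP
  rw [h1, h2, h3]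

lemma local_Cl {k : ℕ} {θ θ' : Idx n → Fin q}
    (h : ∀ a ∈ (Finset.univ ×ˢ (Finset.range (k + 1) ×ˢ Finset.univ) : Finset (Idx n)), θ a = θ' a) :
    Cl k θ = Cl k θ' := by
  obtain ⟨h1, h2, h3⟩ := local_Wd h
  unfold Cl Good
  rw [h1, h2, h3]

lemma integral_badP [NeZero q] (k : ℕ) :
    ∫ θ, ((badP k θ).card : ℝ) ∂(Th n q) ≤ (n:ℝ) ^ 2 * (2 * ((((q * q : ℝ)) ^ k)⁻¹ * (q:ℝ)⁻¹)) := by
  set E : Fin n × Fin n → Set (Idx n → Fin q) := fun p =>
    {θ | p.1 ≠ p.2 ∧ Wd k θ p.1 = Wd k θ p.2 ∧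
      (av k θ p.1 = av k θ p.2 ∨ bv k θ p.1 = bv k θ p.2)} with hE
  have h1 : ∀ θ : Idx n → Fin q, ((badP k θ).card : ℝ) =
      ∑ p : Fin n × Fin n, Set.indicator (E p) (fun _ => (1:ℝ)) θ := by
    intro θ
    unfold badP
    rw [Finset.card_filter]
    push_cast
    apply Finset.sum_congr rfl
    intro p _
    simp [Set.indicator_apply, hE]
  have hm : ∀ p : Fin n × Fin n, MeasurableSet (E p) := by
    intro p
    have : Measurable (fun θ : Idx n → Fin q => (θ ∈ E p : Prop)) := by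
      apply measurable_of_fin (s := Finset.univ ×ˢ (Finset.range (k + 1) ×ˢ Finset.univ))
      intro θ θ' h
      obtain ⟨h1, h2, h3⟩ := local_Wd h
      simp only [hE, Set.mem_ofPred_eq]
      rw [h1, h2, h3]
    exact measurableSet_setOfPred.2 this
  simp_rw [h1]
  rw [integral_finsetSum _ (fun p _ => (integrable_const (1:ℝ)).indicator (hm p))]
  have h2 : ∀ p : Fin n × Fin n,
      ∫ θ, Set.indicator (E p) (fun _ => (1:ℝ)) θ ∂(Th n q) = (Th n q).real (E p) := by
    intro p
    rw [integral_indicator (hm p), setIntegral_const, smul_eq_mul, mul_one]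
  simp_rw [h2]
  have h3 : ∀ p : Fin n × Fin n, (Th n q).real (E p) ≤
      2 * ((((q * q : ℝ)) ^ k)⁻¹ * (q:ℝ)⁻¹) := by
    intro p
    by_cases hp : p.1 = p.2
    · have : E p = ∅ := by
        ext θ
        simp only [hE, Set.mem_ofPred_eq, Set.mem_empty_iff_false, iff_false]
        rintro ⟨h, _⟩
        exact h hp
      rw [this, measureReal_empty]
      positivity
    · have hsub : E p ⊆ {θ | Wd k θ p.1 = Wd k θ p.2 ∧ θ (p.1, k, false) = θ (p.2, k, false)} ∪
          {θ | Wd k θ p.1 = Wd k θ p.2 ∧ θ (p.1, k, true) = θ (p.2, k, true)} := by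
        rintro θ ⟨_, h5, h6 | h6⟩
        · left; exact ⟨h5, h6⟩
        · right; exact ⟨h5, h6⟩
      calc (Th n q).real (E p) ≤ _ := measureReal_mono hsub (measure_ne_top _ _)
        _ ≤ _ := measureReal_union_le _ _
        _ ≤ (((q * q : ℝ)) ^ k)⁻¹ * (q : ℝ)⁻¹ + (((q * q : ℝ)) ^ k)⁻¹ * (q : ℝ)⁻¹ :=
            add_le_add (prob_bad hp false) (prob_bad hp true)
        _ = _ := by ring
  calc _ ≤ ∑ _p : Fin n × Fin n, 2 * ((((q * q : ℝ)) ^ k)⁻¹ * (q:ℝ)⁻¹) :=
        Finset.sum_le_sum fun p _ => h3 p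
    _ = _ := by
        rw [Finset.sum_const, Finset.card_univ, Fintype.card_prod, Fintype.card_fin, nsmul_eq_mul]
        push_cast
        ring

/-- lower bound along `n = m d^k` -/
theorem lower [NeZero q] (hq : 2 ≤ q) (k m : ℕ) (hm : 0 < m) (hlog : 1 ≤ Real.log ((m:ℝ) / 2))
    (hqm : 128 * (1 + m) * m ≤ q) (hn : n = m * (q * q) ^ k) :
    (Real.log ((m:ℝ) / 2) - 1) * (n / 4) ≤
      sampleEntropy (treePermuton (fun _ : List (Fin (q * q)) => sg q)) n := by
  rw [sampleEntropy_eq]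
  have hqpos : (0:ℝ) < q := by
    have := NeZero.pos q
    exact_mod_cast this
  have hmpos : (0:ℝ) < m := by exact_mod_cast hm
  have h1 := le_entropy (Q := Th n q) (π := pt) measurable_pt (c := Cl k) ?_ (Ac k)
    (fun g => Ac_mp k g) (fun g θ h => Cl_Ac g θ h) (fun g θ => Ac_Ac k g θ) ?_
  · refine le_trans ?_ h1
    set M : ℝ := (m:ℝ) / 2 with hM
    set J : ℝ := 8 * (1 + m) with hJ
    have hMpos : 0 < M := by positivity
    have hJpos : 0 < J := by positivity
    set K : ℝ := (q * q : ℝ) ^ k with hK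
    have hKpos : 0 < K := by positivity
    have hnK : (n:ℝ) = m * K := by rw [hn]; push_cast; ring
    -- integrability
    have hbound : ∀ f : (Idx n → Fin q) → ℝ,
        (∀ θ θ', (∀ a ∈ (Finset.univ ×ˢ (Finset.range (k + 1) ×ˢ Finset.univ) : Finset (Idx n)),
          θ a = θ' a) → f θ = f θ') → (∃ B, ∀ θ, |f θ| ≤ B) → Integrable f (Th n q) := by
      rintro f hf ⟨B, hB⟩
      exact Integrable.of_bound (measurable_of_fin f hf).aestronglyMeasurable B
        (Filter.Eventually.of_forall fun θ => hB θ)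
    have hi1 : Integrable (fun θ : Idx n → Fin q => (pairs (Wd k θ) : ℝ)) (Th n q) := by
      apply hbound
      · intro θ θ' h
        rw [(local_Wd h).1]
      · refine ⟨((Finset.univ : Finset (Fin n × Fin n)).card : ℝ), fun θ => ?_⟩
        rw [abs_of_nonneg (by positivity)]
        exact_mod_cast Finset.card_filter_le _ _
    have hi2 : Integrable (fun θ : Idx n → Fin q => ((badP k θ).card : ℝ)) (Th n q) := by
      apply hbound
      · intro θ θ' h
        rw [local_badP h]
      · refine ⟨((Finset.univ : Finset (Fin n × Fin n)).card : ℝ), fun θ => ?_⟩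
        rw [abs_of_nonneg (by positivity)]
        exact_mod_cast Finset.card_filter_le _ _
    have hi3 : Integrable (fun θ : Idx n → Fin q => Real.log (stabCard (Cl k θ))) (Th n q) := by
      apply hbound
      · intro θ θ' h
        rw [local_Cl h]
      · obtain ⟨B, hB⟩ := (Set.finite_range
          (fun c : Fin n → (Lex (Fin k → Fin (q * q)) ⊕ Fin n) => |Real.log (stabCard c)|)).bddAbove
        exact ⟨B, fun θ => hB ⟨Cl k θ, rfl⟩⟩
    have hint : ∫ θ, (Real.log M - 1) * (n - K * M - (pairs (Wd k θ) : ℝ) / J -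
        J * ((badP k θ).card : ℝ)) ∂(Th n q) ≤ ∫ θ, Real.log (stabCard (Cl k θ)) ∂(Th n q) := by
      apply integral_mono _ hi3
      · intro θ
        exact pointwise k θ hMpos hlog hJpos
      · exact (((integrable_const _).sub (hi1.div_const J)).sub (hi2.const_mul J)).const_mul _
    refine le_trans ?_ hint
    rw [integral_const_mul]
    apply mul_le_mul_of_nonneg_left _ (by linarith)
    have hs1 : Integrable (fun θ : Idx n → Fin q => (n:ℝ) - K * M - (pairs (Wd k θ) : ℝ) / J)
      (Th n q) := (integrable_const _).sub (hi1.div_const J)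
    rw [integral_sub hs1 (hi2.const_mul J),
      integral_sub (integrable_const _) (hi1.div_const J), integral_const, probReal_univ, one_smul,
      integral_div, integral_const_mul]
    have e1 := integral_pairs (n := n) (q := q) k
    have e2 := integral_badP (n := n) (q := q) k
    rw [← hK] at e1 e2
    have e1' : (∫ θ, (pairs (Wd k θ) : ℝ) ∂(Th n q)) / J ≤ n / 8 := by
      rw [div_le_iff₀ hJpos]
      have h5 : (n:ℝ) + (n:ℝ) ^ 2 * K⁻¹ = n * (1 + m) := by
        rw [hnK]; field_simp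
      rw [h5] at e1
      refine le_trans (le_of_eq ?_) (e1.trans (le_of_eq ?_))
      · congr 1
      · rw [hJ]; ring
    have e2' : J * ∫ θ, ((badP k θ).card : ℝ) ∂(Th n q) ≤ n / 8 := by
      have h6 : (n:ℝ) ^ 2 * (2 * (K⁻¹ * (q:ℝ)⁻¹)) = n * (2 * m / q) := by
        rw [hnK]; field_simp
      rw [h6] at e2
      have h7 : J * (n * (2 * m / q)) ≤ n / 8 := by
        have h8 : (128 * (1 + m) * m : ℝ) ≤ q := by exact_mod_cast hqm
        have h9 : J * (2 * m / q) ≤ 1 / 8 := by
          rw [hJ, mul_div_assoc', div_le_iff₀ hqpos]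
          nlinarith
        have h10 : (0:ℝ) ≤ n := by positivity
        nlinarith
      exact (mul_le_mul_of_nonneg_left e2 hJpos.le).trans h7
    have h11 : K * M = n / 2 := by rw [hnK, hM]; ring
    linarith
  · intro c
    have : Measurable (fun θ : Idx n → Fin q => (Cl k θ = c : Prop)) := by
      apply measurable_of_fin (s := Finset.univ ×ˢ (Finset.range (k + 1) ×ˢ Finset.univ))
      intro θ θ' h
      rw [local_Cl h]
    exact measurableSet_setOfPred.2 this
  · filter_upwards [ae_reg (n := n) hq] with θ hθ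
    intro g h hg hh hπ
    exact inj_main hθ hg hh hπ

/-- the sampling entropy of the transposition permuton does not converge -/
theorem not_tendsto : ∃ (q : ℕ) (_ : NeZero q), 2 ≤ q ∧ ¬ ∃ L : ℝ, Tendsto
    (fun n : ℕ => sampleEntropy (treePermuton (fun _ : List (Fin (q * q)) => sg q)) n / n)
    atTop (𝓝 L) := by
  set m : ℕ := 2 * (⌈Real.exp 13⌉₊) with hm
  have hexp : (1:ℝ) ≤ Real.exp 13 := Real.one_le_exp (by norm_num)
  have hceil : Real.exp 13 ≤ (⌈Real.exp 13⌉₊ : ℝ) := Nat.le_ceil _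
  have hmpos : 0 < m := by
    have : (0:ℝ) < (⌈Real.exp 13⌉₊ : ℝ) := by linarith
    have h2 : 0 < ⌈Real.exp 13⌉₊ := by exact_mod_cast this
    omega
  have hlog : 13 ≤ Real.log ((m:ℝ) / 2) := by
    have h1 : (m:ℝ) / 2 = (⌈Real.exp 13⌉₊ : ℝ) := by
      rw [hm]; push_cast; ring
    rw [h1]
    have := Real.log_le_log (Real.exp_pos 13) hceil
    rwa [Real.log_exp] at this
  set q : ℕ := 128 * (1 + m) * m with hq
  have hq2 : 2 ≤ q := by
    have : 1 ≤ (1 + m) * m := Nat.mul_pos (by omega) hmpos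
    rw [hq, mul_assoc]
    omega
  have : NeZero q := ⟨by omega⟩
  refine ⟨q, inferInstance, hq2, ?_⟩
  rintro ⟨L, hL⟩
  have hd : 1 < q * q := by nlinarith
  have ht1 : Tendsto (fun k : ℕ => (q * q) ^ k) atTop atTop := tendsto_pow_atTop_atTop_of_one_lt hd
  have ht2 : Tendsto (fun k : ℕ => m * (q * q) ^ k) atTop atTop :=
    Tendsto.const_mul_atTop' hmpos ht1
  have l1 := hL.comp ht1
  have l2 := hL.comp ht2
  have u1 : L ≤ 2 := by
    apply le_of_tendsto' l1
    intro k
    have hpos : (0:ℝ) < (((q * q) ^ k : ℕ) : ℝ) := by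
      have : 0 < (q * q) ^ k := Nat.pos_of_ne_zero (by positivity)
      exact_mod_cast this
    simp only [Function.comp_apply]
    rw [div_le_iff₀ hpos]
    exact upper hq2 k rfl
  have u2 : 3 ≤ L := by
    apply ge_of_tendsto' l2
    intro k
    have hpos : (0:ℝ) < ((m * (q * q) ^ k : ℕ) : ℝ) := by
      have h1 : 0 < (q * q) ^ k := Nat.pos_of_ne_zero (by positivity)
      have : 0 < m * (q * q) ^ k := Nat.mul_pos hmpos h1
      exact_mod_cast this
    simp only [Function.comp_apply]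
    rw [le_div_iff₀ hpos]
    refine le_trans ?_ (lower hq2 k m hmpos (by linarith) le_rfl rfl)
    nlinarith
  linarith

end Q297.Permuton
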