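import Pool.Agent.Q297.PermCount
import Pool.Agent.Q297.PermDigits

open MeasureTheory Finset

namespace Q297.Permuton

variable {n q : ℕ}

/-- regular labels: no expansion ends with the largest digit forever -/
def Reg (θ : Idx n → Fin q) : Prop :=
  ∀ (i : Fin n) (N : ℕ), ∃ l, N < l ∧ (θ (i, l, false) : ℕ) ≠ q - 1

lemma Reg.dig {θ : Idx n → Fin q} (h : Reg θ) (i : Fin n) (N : ℕ) :
    ∃ l, N < l ∧ (dig θ i l : ℕ) ≠ q * q - 1 := by
  obtain ⟨l, hl, h1⟩ := h i N
  refine ⟨l, hl, ?_⟩
  show (θ (i, l, true) : ℕ) + q * (θ (i, l, false) : ℕ) ≠ q * q - 1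
  have h2 := (θ (i, l, true)).2
  have h3 := (θ (i, l, false)).2
  have h4 : (θ (i, l, false) : ℕ) + 2 ≤ q := by omega
  intro h5
  have h6 : q * ((θ (i, l, false) : ℕ) + 2) ≤ q * q := Nat.mul_le_mul_left q h4
  rw [Nat.mul_add] at h6
  omega

lemma Reg.digS {θ : Idx n → Fin q} (h : Reg θ) (i : Fin n) (N : ℕ) :
    ∃ l, N < l ∧ (digS θ i l : ℕ) ≠ q * q - 1 := by
  obtain ⟨l, hl, h1⟩ := h i N
  refine ⟨l, hl, ?_⟩
  show (θ (i, l, false) : ℕ) + q * (θ (i, l, true) : ℕ) ≠ q * q - 1
  have h2 := (θ (i, l, true)).2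
  have h3 := (θ (i, l, false)).2
  have h4 : (θ (i, l, true) : ℕ) + 1 ≤ q := by omega
  intro h5
  have h6 : q * ((θ (i, l, true) : ℕ) + 1) ≤ q * q := Nat.mul_le_mul_left q h4
  rw [Nat.mul_add] at h6
  omega

/-- probability of a finite cylinder -/
lemma cyl_prob [NeZero q] (s : Finset (Idx n)) (v : Idx n → Fin q) :
    (Th n q) {θ | ∀ a ∈ s, θ a = v a} = ((q : ENNReal)⁻¹) ^ s.card := by
  have h1 : {θ : Idx n → Fin q | ∀ a ∈ s, θ a = v a} = Set.pi s (fun a => {v a}) := by
    ext θ; simp [Set.mem_pi]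
  rw [h1, Measure.infinitePi_pi _ (fun _ _ => measurableSet_singleton _)]
  simp only [unifDigit_singleton, Finset.prod_const]

lemma ae_reg [NeZero q] (hq : 2 ≤ q) : ∀ᵐ θ ∂(Th n q), Reg θ := by
  unfold Reg
  rw [ae_all_iff]
  intro i
  rw [ae_all_iff]
  intro N
  rw [ae_iff]
  set A := {θ : Idx n → Fin q | ¬ ∃ l, N < l ∧ (θ (i, l, false) : ℕ) ≠ q - 1} with hA
  have hb : ∀ M : ℕ, (Th n q) A ≤ ((q : ENNReal)⁻¹) ^ M := by
    intro M
    set s : Finset (Idx n) := (Finset.range M).image (fun l => ((i, N + 1 + l, false) : Idx n)) with hs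
    have hc : s.card = M := by
      rw [hs, Finset.card_image_of_injective _ (fun a b h => by
        simp only [Prod.mk.injEq] at h
        omega), Finset.card_range]
    have hlast : q - 1 < q := by omega
    rw [← hc, ← cyl_prob s (fun _ => ⟨q - 1, hlast⟩)]
    apply measure_mono
    intro θ hθ a ha
    rw [hs, Finset.mem_image] at ha
    obtain ⟨l, _, rfl⟩ := ha
    rw [hA, Set.mem_ofPred_eq] at hθ
    push Not at hθ
    exact Fin.ext (hθ (N + 1 + l) (by omega))
  have hlim : Filter.Tendsto (fun M : ℕ => ((q : ENNReal)⁻¹) ^ M) Filter.atTop (nhds 0) := by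
    apply ENNReal.tendsto_pow_atTop_nhds_zero_of_lt_one
    rw [ENNReal.inv_lt_one]
    exact_mod_cast hq
  exact le_antisymm (ge_of_tendsto' hlim hb) bot_le

/-- probability that two sequences agree on a finite set -/
lemma pair_prob [NeZero q] {i j : Fin n} (hij : i ≠ j) (J : Finset (ℕ × Bool)) :
    (Th n q).real {θ | ∀ s ∈ J, θ (i, s) = θ (j, s)} ≤ ((q : ℝ)⁻¹) ^ J.card := by
  classical
  set ext : (J → Fin q) → Idx n → Fin q := fun v a =>
    if h : a.2 ∈ J then v ⟨a.2, h⟩ else 0 with hext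
  set s : Finset (Idx n) := ({i, j} : Finset (Fin n)) ×ˢ J with hs
  have hcard : s.card = 2 * J.card := by
    rw [hs, Finset.card_product, Finset.card_pair hij]
  have hsub : {θ : Idx n → Fin q | ∀ s ∈ J, θ (i, s) = θ (j, s)} ⊆
      ⋃ v ∈ (Finset.univ : Finset (J → Fin q)), {θ | ∀ a ∈ s, θ a = ext v a} := by
    intro θ hθ
    rw [Set.mem_iUnion₂]
    refine ⟨fun x => θ (i, x.1), Finset.mem_univ _, ?_⟩
    intro a ha
    rw [hs, Finset.mem_product, Finset.mem_insert, Finset.mem_singleton] at ha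
    obtain ⟨ha1, ha2⟩ := ha
    simp only [hext, ha2, dif_pos]
    rcases ha1 with h | h
    · rw [← h]
    · have := hθ a.2 ha2
      rw [this, ← h]
  have hcyl : ∀ v, (Th n q).real {θ | ∀ a ∈ s, θ a = ext v a} = ((q:ℝ)⁻¹) ^ (2 * J.card) := by
    intro v
    rw [Measure.real, cyl_prob, hcard, ENNReal.toReal_pow, ENNReal.toReal_inv,
      ENNReal.toReal_natCast]
  have hq : (0:ℝ) < q := by
    have := NeZero.pos q
    exact_mod_cast this
  calc (Th n q).real {θ | ∀ s ∈ J, θ (i, s) = θ (j, s)}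
      ≤ (Th n q).real (⋃ v ∈ (Finset.univ : Finset (J → Fin q)), {θ | ∀ a ∈ s, θ a = ext v a}) :=
        measureReal_mono hsub (measure_ne_top _ _)
    _ ≤ ∑ v : J → Fin q, (Th n q).real {θ | ∀ a ∈ s, θ a = ext v a} :=
        measureReal_biUnion_finset_le _ _
    _ = (q:ℝ) ^ J.card * ((q:ℝ)⁻¹) ^ (2 * J.card) := by
        simp_rw [hcyl]
        rw [Finset.sum_const, nsmul_eq_mul, Finset.card_univ, Fintype.card_fun, Fintype.card_fin,
          Fintype.card_coe]
        push_cast
        ring
    _ = ((q : ℝ)⁻¹) ^ J.card := by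
        rw [pow_mul', sq, ← mul_assoc, ← mul_pow, mul_inv_cancel₀ hq.ne', one_pow, one_mul]

/-! ### Colours -/

/-- the word of the first `k` digits -/
def Wd (k : ℕ) (θ : Idx n → Fin q) (i : Fin n) : Lex (Fin k → Fin (q * q)) :=
  toLex fun l => dig θ i l

/-- the word of the first `k` digits of the second coordinate -/
def WdS (k : ℕ) (θ : Idx n → Fin q) (i : Fin n) : Lex (Fin k → Fin (q * q)) :=
  toLex fun l => digS θ i l

/-- digitwise action -/
def Sg (q k : ℕ) : Lex (Fin k → Fin (q * q)) ≃ Lex (Fin k → Fin (q * q)) :=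
  ofLex.trans ((Equiv.piCongrRight fun _ : Fin k => sg q).trans toLex)

lemma Sg_Wd (k : ℕ) (θ : Idx n → Fin q) : Sg q k ∘ Wd k θ = WdS k θ := by
  funext i
  show toLex (fun l : Fin k => sg q (dig θ i l)) = toLex (fun l : Fin k => digS θ i l)
  simp only [sg_dig]

lemma card_Lex (q k : ℕ) : Fintype.card (Lex (Fin k → Fin (q * q))) = (q * q) ^ k := by
  have : Fintype.card (Lex (Fin k → Fin (q * q))) = Fintype.card (Fin k → Fin (q * q)) :=
    Fintype.card_congr ofLex
  rw [this, Fintype.card_fun, Fintype.card_fin, Fintype.card_fin]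

lemma xc_lt {k : ℕ} {θ θ' : Idx n → Fin q} (h : Reg θ) {i j : Fin n}
    (hW : Wd k θ i < Wd k θ' j) : xc θ i < xc θ' j := by
  obtain ⟨l, h1, h2⟩ := hW
  refine ofDigits_lt (L := l) ?_ h2 ?_
  · intro m hm
    exact h1 ⟨m, hm.trans l.2⟩ hm
  · exact h.dig i l

lemma yc_lt {k : ℕ} {θ θ' : Idx n → Fin q} (h : Reg θ) {i j : Fin n}
    (hW : WdS k θ i < WdS k θ' j) : yc θ i < yc θ' j := by
  obtain ⟨l, h1, h2⟩ := hW
  refine ofDigits_lt (L := l) ?_ h2 ?_
  · intro m hm
    exact h1 ⟨m, hm.trans l.2⟩ hm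
  · exact h.digS i l

lemma Wd_eq_iff {k : ℕ} (θ : Idx n → Fin q) (i j : Fin n) :
    Wd k θ i = Wd k θ j ↔ ∀ s ∈ Finset.range k ×ˢ (Finset.univ : Finset Bool),
      θ (i, s) = θ (j, s) := by
  have h1 : Wd k θ i = Wd k θ j ↔ ∀ l : Fin k, dig θ i l = dig θ j l := by
    unfold Wd
    rw [toLex_inj, funext_iff]
  rw [h1]
  constructor
  · rintro h ⟨l, b⟩ hs
    rw [Finset.mem_product, Finset.mem_range] at hs
    have h2 := h ⟨l, hs.1⟩
    unfold dig at h2
    rw [EmbeddingLike.apply_eq_iff_eq, Prod.mk.injEq] at h2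
    cases b
    · exact h2.1
    · exact h2.2
  · intro h l
    unfold dig
    rw [h (↑l, false) (by simp), h (↑l, true) (by simp)]

lemma prob_Wd_eq [NeZero q] {k : ℕ} {i j : Fin n} (hij : i ≠ j) :
    (Th n q).real {θ | Wd k θ i = Wd k θ j} ≤ (((q * q : ℝ)) ^ k)⁻¹ := by
  have h1 := pair_prob hij (Finset.range k ×ˢ (Finset.univ : Finset Bool)) (q := q)
  have h2 : {θ : Idx n → Fin q | Wd k θ i = Wd k θ j} =
      {θ | ∀ s ∈ Finset.range k ×ˢ (Finset.univ : Finset Bool), θ (i, s) = θ (j, s)} := by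
    ext θ
    exact Wd_eq_iff θ i j
  rw [h2]
  refine h1.trans (le_of_eq ?_)
  rw [Finset.card_product, Finset.card_range, Finset.card_univ, Fintype.card_bool, mul_comm k 2,
    pow_mul, ← inv_pow, sq, mul_inv]

lemma measurable_of_fin {s : Finset (Idx n)} {T : Type*} [MeasurableSpace T]
    (f : (Idx n → Fin q) → T) (h : ∀ θ θ', (∀ a ∈ s, θ a = θ' a) → f θ = f θ') : Measurable f := by
  classical
  rcases isEmpty_or_nonempty (Idx n → Fin q) with he | ⟨⟨θ0⟩⟩
  · exact measurable_of_empty f
  set g : (s → Fin q) → T := fun v => f (fun a => if ha : a ∈ s then v ⟨a, ha⟩ else θ0 a) with hg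
  have h1 : f = g ∘ (fun θ (a : s) => θ a) := by
    funext θ
    rw [hg, Function.comp_apply]
    apply h
    intro a ha
    simp [ha]
  rw [h1]
  exact (measurable_of_finite g).comp (measurable_pi_lambda _ fun _ => measurable_pi_apply _)

lemma measurableSet_Wd (k : ℕ) (c : Fin n → Lex (Fin k → Fin (q * q))) :
    MeasurableSet {θ : Idx n → Fin q | Wd k θ = c} := by
  have : Measurable (fun θ : Idx n → Fin q => (Wd k θ = c : Prop)) := by
    apply measurable_of_fin (s := Finset.univ ×ˢ (Finset.range k ×ˢ Finset.univ))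
    intro θ θ' h
    have h2 : Wd k θ = Wd k θ' := by
      funext i
      unfold Wd dig
      congr 1
      funext l
      rw [h (i, l, false) (by simp), h (i, l, true) (by simp)]
    rw [h2]
  exact measurableSet_setOfPred.2 this

open Classical in
lemma integral_pairs [NeZero q] (k : ℕ) :
    ∫ θ, (pairs (Wd k θ) : ℝ) ∂(Th n q) ≤ n + (n:ℝ) ^ 2 * (((q * q : ℝ)) ^ k)⁻¹ := by
  have h1 : ∀ θ : Idx n → Fin q, (pairs (Wd k θ) : ℝ) =
      ∑ p : Fin n × Fin n, Set.indicator {θ | Wd k θ p.1 = Wd k θ p.2} (fun _ => (1:ℝ)) θ := by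
    intro θ
    unfold pairs
    rw [Finset.card_filter]
    push_cast
    apply Finset.sum_congr rfl
    intro p _
    simp [Set.indicator_apply]
  have hm : ∀ p : Fin n × Fin n, MeasurableSet {θ : Idx n → Fin q | Wd k θ p.1 = Wd k θ p.2} := by
    intro p
    have : Measurable (fun θ : Idx n → Fin q => (Wd k θ p.1 = Wd k θ p.2 : Prop)) := by
      apply measurable_of_fin (s := Finset.univ ×ˢ (Finset.range k ×ˢ Finset.univ))
      intro θ θ' h
      have h2 : Wd k θ = Wd k θ' := by
        funext i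
        unfold Wd dig
        congr 1
        funext l
        rw [h (i, l, false) (by simp), h (i, l, true) (by simp)]
      rw [h2]
    exact measurableSet_setOfPred.2 this
  simp_rw [h1]
  rw [integral_finsetSum _ (fun p _ => (integrable_const (1:ℝ)).indicator (hm p))]
  have h2 : ∀ p : Fin n × Fin n,
      ∫ θ, Set.indicator {θ | Wd k θ p.1 = Wd k θ p.2} (fun _ => (1:ℝ)) θ ∂(Th n q) =
        (Th n q).real {θ | Wd k θ p.1 = Wd k θ p.2} := by
    intro p
    rw [integral_indicator (hm p), setIntegral_const, smul_eq_mul, mul_one]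
  simp_rw [h2]
  have h3 : ∀ p : Fin n × Fin n, (Th n q).real {θ | Wd k θ p.1 = Wd k θ p.2} ≤
      (if p.1 = p.2 then 1 else 0) + (((q * q : ℝ)) ^ k)⁻¹ := by
    intro p
    split_ifs with h
    · have : (Th n q).real {θ | Wd k θ p.1 = Wd k θ p.2} ≤ 1 := measureReal_le_one
      have : (0:ℝ) ≤ (((q * q : ℝ)) ^ k)⁻¹ := by positivity
      linarith
    · rw [zero_add]
      exact prob_Wd_eq h
  calc _ ≤ ∑ p : Fin n × Fin n, ((if p.1 = p.2 then (1:ℝ) else 0) + (((q * q : ℝ)) ^ k)⁻¹) :=
        Finset.sum_le_sum fun p _ => h3 p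
    _ = _ := by
        rw [Finset.sum_add_distrib, Finset.sum_const, Finset.card_univ, Fintype.card_prod,
          Fintype.card_fin, nsmul_eq_mul, Fintype.sum_prod_type]
        simp only [Finset.sum_ite_eq, Finset.mem_univ, if_true, Finset.sum_const, Finset.card_univ,
          Fintype.card_fin, nsmul_eq_mul, mul_one]
        push_cast
        ring

/-- upper bound along `n = d^k` -/
theorem upper [NeZero q] (hq : 2 ≤ q) (k : ℕ) (hn : n = (q * q) ^ k) :
    sampleEntropy (treePermuton (fun _ : List (Fin (q * q)) => sg q)) n ≤ 2 * n := by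
  rw [sampleEntropy_eq]
  have h1 := entropy_le (Q := Th n q) (Sg q k) (x := xc) (y := yc) (W := Wd k) measurable_pt
    (measurableSet_Wd k) ?_ ?_
  · have h2 : ∫ θ, Real.log (stabCard (Wd k θ)) ∂(Th n q) ≤
        ∫ θ, (((pairs (Wd k θ) : ℝ)) - n) / 2 ∂(Th n q) := by
      classical
      apply integral_mono_of_nonneg
      · exact Filter.Eventually.of_forall fun θ => Real.log_nonneg (by
          exact_mod_cast stabCard_pos _)
      · have hm : Measurable (fun θ : Idx n → Fin q => (((pairs (Wd k θ) : ℝ)) - n) / 2) := by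
          apply measurable_of_fin (s := Finset.univ ×ˢ (Finset.range k ×ˢ Finset.univ))
          intro θ θ' h
          have h2 : Wd k θ = Wd k θ' := by
            funext i
            unfold Wd dig
            congr 1
            funext l
            rw [h (i, l, false) (by simp), h (i, l, true) (by simp)]
          rw [h2]
        apply Integrable.of_bound hm.aestronglyMeasurable ((n:ℝ) ^ 2 + n)
        refine Filter.Eventually.of_forall fun θ => ?_
        have hp : (pairs (Wd k θ) : ℝ) ≤ (n:ℝ) ^ 2 := by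
          have : pairs (Wd k θ) ≤ n * n := by
            unfold pairs
            refine (Finset.card_filter_le _ _).trans ?_
            simp
          have h5 : (pairs (Wd k θ) : ℝ) ≤ ((n * n : ℕ) : ℝ) := by exact_mod_cast this
          push_cast at h5
          nlinarith
        have hp0 : (0:ℝ) ≤ pairs (Wd k θ) := by positivity
        have hn0 : (0:ℝ) ≤ n := by positivity
        rw [Real.norm_eq_abs, abs_le]
        constructor <;> nlinarith [sq_nonneg (n:ℝ)]
      · exact Filter.Eventually.of_forall fun θ => by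
          have := log_stab_le (Wd k θ)
          convert this
    have h3 := integral_pairs (n := n) (q := q) k
    have hKn : (((q * q : ℝ)) ^ k) = n := by
      rw [hn]; push_cast; ring
    have hnpos : (0:ℝ) < n := by
      rw [← hKn]
      have := NeZero.pos q
      positivity
    rw [hKn] at h3
    have h4 : ∫ θ, (((pairs (Wd k θ) : ℝ)) - n) / 2 ∂(Th n q) ≤ n / 2 := by
      classical
      have hm : Measurable (fun θ : Idx n → Fin q => ((pairs (Wd k θ) : ℝ))) := by
        apply measurable_of_fin (s := Finset.univ ×ˢ (Finset.range k ×ˢ Finset.univ))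
        intro θ θ' h
        have h2 : Wd k θ = Wd k θ' := by
          funext i
          unfold Wd dig
          congr 1
          funext l
          rw [h (i, l, false) (by simp), h (i, l, true) (by simp)]
        rw [h2]
      have hi : Integrable (fun θ : Idx n → Fin q => ((pairs (Wd k θ) : ℝ))) (Th n q) := by
        apply Integrable.of_bound hm.aestronglyMeasurable ((n:ℝ) ^ 2)
        refine Filter.Eventually.of_forall fun θ => ?_
        have hp : (pairs (Wd k θ) : ℝ) ≤ (n:ℝ) ^ 2 := by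
          have : pairs (Wd k θ) ≤ n * n := by
            unfold pairs
            refine (Finset.card_filter_le _ _).trans ?_
            simp
          have h5 : (pairs (Wd k θ) : ℝ) ≤ ((n * n : ℕ) : ℝ) := by exact_mod_cast this
          push_cast at h5
          nlinarith
        rw [Real.norm_eq_abs, abs_of_nonneg (by positivity)]
        exact hp
      rw [integral_div, integral_sub hi (integrable_const _), integral_const, probReal_univ, one_smul]
      have h5 : (n:ℝ) ^ 2 * (n:ℝ)⁻¹ = n := by field_simp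
      rw [h5] at h3
      have h6 : ∫ θ, ((pairs (Wd k θ) : ℝ)) ∂(Th n q) ≤ 2 * n := by
        refine le_trans (le_of_eq ?_) (h3.trans (by linarith))
        congr 1
      linarith
    rw [card_Lex, ← hn] at h1
    have h7 : Real.log 2 < 0.6931471808 := Real.log_two_lt_d9
    have h8 : ((n + n : ℕ) : ℝ) * Real.log 2 ≤ 1.4 * n := by
      push_cast
      nlinarith
    have h9 := h1.trans (add_le_add h8 (h2.trans h4))
    refine le_trans ?_ (h9.trans (by linarith))
    exact le_rfl
  · filter_upwards [ae_reg (n := n) hq] with θ hθ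
    intro r s hrs
    by_contra h
    rw [not_le] at h
    have h2 := xc_lt hθ h
    have h3 := Tuple.monotone_sort (xc θ) hrs
    exact absurd h3 (not_le.2 h2)
  · filter_upwards [ae_reg (n := n) hq] with θ hθ
    have he : (Sg q k ∘ Wd k θ ∘ Tuple.sort (yc θ)) = WdS k θ ∘ Tuple.sort (yc θ) := by
      rw [← Sg_Wd]; rfl
    rw [he]
    intro r s hrs
    by_contra h
    rw [not_le] at h
    have h2 := yc_lt hθ h
    have h3 := Tuple.monotone_sort (yc θ) hrs
    exact absurd h3 (not_le.2 h2)

end Q297.Permuton
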