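import Mathlib

/-! Definitions for the operation `Φ_L`. -/

open Set MeasureTheory
open scoped ContDiff

namespace Q297.PhiL

/-- complete monotonicity on `[0,∞)` -/
def CompletelyMonotone (L : ℝ → ℝ) : Prop :=
  ContinuousOn L (Ici 0) ∧ ContDiffOn ℝ ∞ L (Ioi 0) ∧
    ∀ n : ℕ, ∀ s : ℝ, 0 < s → 0 ≤ (-1) ^ n * iteratedDeriv n L s

/-- The class of completely monotone injective `L : [0,∞) → (0,1]` with `L 0 = 1`. -/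
structure ClassL (L : ℝ → ℝ) : Prop where
  cm : CompletelyMonotone L
  inj : InjOn L (Ici 0)
  zero : L 0 = 1
  maps : ∀ s : ℝ, 0 ≤ s → L s ∈ Ioc (0:ℝ) 1

/-- `Φ_L(x,y) = L (L⁻¹ x + L⁻¹ y)` -/
noncomputable def Phi (L : ℝ → ℝ) (x y : ℝ) : ℝ :=
  L (Function.invFunOn L (Ici 0) x + Function.invFunOn L (Ici 0) y)

/-- the class `𝒞` of real Levy exponents -/
def ClassC (ψ : ℝ → ℝ) : Prop :=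
  ∃ (σ : ℝ) (ν : Measure ℝ), ν (Iic 0) = 0 ∧ ∫⁻ t, ENNReal.ofReal (min 1 (t ^ 2)) ∂ν < ⊤ ∧
    ∀ ξ, ψ ξ = 1 / 2 * σ ^ 2 * ξ ^ 2 + ∫ t, (1 - Real.cos (t * ξ)) ∂ν

/-- property (R) with respect to a set `Ψ` of exponents -/
def PropertyR (Ψ : Set (ℝ → ℝ)) (L : ℝ → ℝ) : Prop :=
  ∀ ψ ∈ Ψ, ∀ μ1 μ2 : Measure ℝ, IsProbabilityMeasure μ1 → IsProbabilityMeasure μ2 →
    ∀ f1 f2 : ℝ → ℝ, (∀ ξ, charFun μ1 ξ = f1 ξ) → (∀ ξ, charFun μ2 ξ = f2 ξ) →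
      (∀ ξ, f1 ξ ∈ L '' Ici 0) → (∀ ξ, f2 ξ ∈ L '' Ici 0) →
      (∀ ξ, Phi L (f1 ξ) (f2 ξ) = L (ψ ξ)) →
      ∃ η1 η2 : ℝ → ℝ, ClassC η1 ∧ ClassC η2 ∧ (∀ ξ, f1 ξ = L (η1 ξ)) ∧ ∀ ξ, f2 ξ = L (η2 ξ)

/-- the exponents `a ξ²`, `a > 0` -/
def gaussExp : Set (ℝ → ℝ) := {ψ | ∃ a : ℝ, 0 < a ∧ ∀ ξ, ψ ξ = a * ξ ^ 2}

end Q297.PhiL
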