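import Pool.Agent.Q297.CramerThm
import Pool.Agent.Q297.PhiDefs

open Complex Set Filter Topology MeasureTheory ProbabilityTheory
open scoped ENNReal NNReal ContDiff

namespace Q297.PhiL

/-- a lower bound of the characteristic function is a lower bound of the atom at `0` -/
lemma atom_ge {μ : Measure ℝ} [IsProbabilityMeasure μ] {f : ℝ → ℝ} (h : ∀ ξ, charFun μ ξ = f ξ)
    {p : ℝ} (hp : ∀ ξ, p ≤ f ξ) : p ≤ μ.real {0} := by
  have hcf : Continuous f := by
    have h1 : Continuous (charFun μ) := continuous_charFun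
    have h2 : f = fun ξ => (charFun μ ξ).re := by
      funext ξ; rw [h]; simp
    rw [h2]
    exact Complex.continuous_re.comp h1
  have hfb : ∀ ξ, |f ξ| ≤ 1 := by
    intro ξ
    have := norm_charFun_le_one (μ := μ) ξ
    rw [h, Complex.norm_real] at this
    exact this
  have hfi : ∀ n : ℕ, Integrable f (gaussianReal 0 n) := by
    intro n
    apply Integrable.of_bound hcf.aestronglyMeasurable 1
    exact Eventually.of_forall hfb
  have hswap : ∀ n : ℕ, ∫ ξ, f ξ ∂(gaussianReal 0 n) = ∫ x, Real.exp (-(n * x ^ 2 / 2)) ∂μ := by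
    intro n
    have h1 : ∫ ξ, charFun μ ξ ∂(gaussianReal 0 n) = ∫ x, charFun (gaussianReal 0 n) x ∂μ := by
      simp_rw [charFun_apply_real]
      rw [integral_integral_swap]
      · congr with x
        congr with ξ
        ring_nf
      · apply Integrable.of_bound (C := 1)
        · fun_prop
        · refine Eventually.of_forall (fun z => ?_)
          rw [Function.uncurry]
          rw [← Complex.ofReal_mul, Complex.norm_exp_ofReal_mul_I]
    simp_rw [h] at h1
    rw [integral_complex_ofReal] at h1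
    have h2 : ∫ x, charFun (gaussianReal 0 n) x ∂μ =
        ((∫ x, Real.exp (-(n * x ^ 2 / 2)) ∂μ : ℝ) : ℂ) := by
      rw [← integral_complex_ofReal]
      congr with x
      rw [charFun_gaussianReal]
      push_cast
      congr 1
      simp
    rw [h2] at h1
    exact_mod_cast h1
  have hge : ∀ n : ℕ, p ≤ ∫ x, Real.exp (-(n * x ^ 2 / 2)) ∂μ := by
    intro n
    rw [← hswap]
    have h1 : ∫ _, p ∂(gaussianReal 0 n) ≤ ∫ ξ, f ξ ∂(gaussianReal 0 n) :=
      integral_mono (integrable_const _) (hfi n) hp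
    rwa [integral_const, probReal_univ, one_smul] at h1
  have hlim : Tendsto (fun n : ℕ => ∫ x, Real.exp (-(n * x ^ 2 / 2)) ∂μ) atTop
      (𝓝 (∫ x, ({0} : Set ℝ).indicator (1 : ℝ → ℝ) x ∂μ)) := by
    apply tendsto_integral_of_dominated_convergence (fun _ => (1:ℝ))
    · intro n; fun_prop
    · exact integrable_const _
    · intro n
      refine Eventually.of_forall (fun x => ?_)
      rw [Real.norm_eq_abs, abs_of_pos (Real.exp_pos _), Real.exp_le_one_iff]
      have : 0 ≤ (n:ℝ) * x ^ 2 / 2 := by positivity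
      linarith
    · refine Eventually.of_forall (fun x => ?_)
      by_cases hx : x = 0
      · simp [hx]
      · rw [indicator_of_notMem (by simpa using hx)]
        apply Real.tendsto_exp_atBot.comp
        apply tendsto_neg_atTop_atBot.comp
        have h3 : 0 < x ^ 2 / 2 := by positivity
        have h4 : (fun n : ℕ => (n:ℝ) * x ^ 2 / 2) = fun n : ℕ => (n:ℝ) * (x ^ 2 / 2) := by
          funext n; ring
        rw [h4]
        exact Tendsto.atTop_mul_const h3 tendsto_natCast_atTop_atTop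
  rw [integral_indicator_one (measurableSet_singleton 0)] at hlim
  exact ge_of_tendsto' hlim hge

/-- extraction of a part of the atom at zero -/
lemma exists_sub {μ : Measure ℝ} [IsProbabilityMeasure μ] {f : ℝ → ℝ}
    (h : ∀ ξ, charFun μ ξ = f ξ) {p : ℝ} (hp1 : p < 1) (hp : ∀ ξ, p ≤ f ξ) :
    ∃ ν : Measure ℝ, IsProbabilityMeasure ν ∧ ∀ ξ, charFun ν ξ = ((f ξ - p) / (1 - p) : ℝ) := by
  have hat := atom_ge h hp
  set ρ : Measure ℝ := μ.restrict {0}ᶜ + ENNReal.ofReal (μ.real {0} - p) • Measure.dirac 0 with hρ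
  have hq : 0 < 1 - p := by linarith
  have hfin1 : IsFiniteMeasure (ENNReal.ofReal (μ.real {0} - p) • Measure.dirac (0:ℝ)) := by
    apply Measure.smul_finite
    exact ENNReal.ofReal_ne_top
  have hmass : ρ univ = ENNReal.ofReal (1 - p) := by
    rw [hρ]
    simp only [Measure.coe_add, Measure.coe_smul, Pi.add_apply, Measure.restrict_apply_univ,
      Pi.smul_apply, measure_univ, smul_eq_mul, mul_one]
    have h1 : μ {0}ᶜ = ENNReal.ofReal (1 - μ.real {0}) := by
      rw [← probReal_compl_eq_one_sub (measurableSet_singleton 0), ofReal_measureReal]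
    rw [h1, ← ENNReal.ofReal_add]
    · congr 1; ring
    · have : μ.real {0} ≤ 1 := measureReal_le_one
      linarith
    · linarith
  refine ⟨ENNReal.ofReal (1 / (1 - p)) • ρ, ⟨?_⟩, ?_⟩
  · rw [Measure.smul_apply, hmass, smul_eq_mul, ← ENNReal.ofReal_mul (by positivity)]
    rw [one_div, inv_mul_cancel₀ hq.ne', ENNReal.ofReal_one]
  · intro ξ
    have hint : ∀ (m : Measure ℝ) [IsFiniteMeasure m],
        Integrable (fun x : ℝ => Complex.exp ((ξ : ℂ) * x * I)) m := by
      intro m _
      apply Integrable.of_bound (C := 1) (by fun_prop)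
      refine Eventually.of_forall (fun x => ?_)
      rw [← Complex.ofReal_mul, Complex.norm_exp_ofReal_mul_I]
    have h1 : charFun μ ξ = (∫ x in {0}ᶜ, Complex.exp ((ξ : ℂ) * x * I) ∂μ) + (μ.real {0} : ℂ) := by
      rw [charFun_apply_real, ← integral_add_compl (measurableSet_singleton (0:ℝ)) (hint μ), add_comm]
      congr 1
      rw [Measure.restrict_singleton, integral_smul_measure, integral_dirac]
      simp [Measure.real]
    rw [charFun_apply_real, integral_smul_measure, hρ, integral_add_measure (hint _) (hint _),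
      integral_smul_measure, integral_dirac]
    have h2 : (∫ x in {0}ᶜ, Complex.exp ((ξ : ℂ) * x * I) ∂μ) = (f ξ : ℂ) - (μ.real {0} : ℂ) := by
      rw [← h, h1]; ring
    rw [h2, ENNReal.toReal_ofReal (by positivity), ENNReal.toReal_ofReal (by linarith)]
    have hq' : ((1:ℂ) - p) ≠ 0 := by
      have : (((1 - p : ℝ)) : ℂ) ≠ 0 := by exact_mod_cast hq.ne'
      simpa using this
    simp only [Complex.real_smul]
    push_cast
    simp only [mul_zero, zero_mul, Complex.exp_zero, mul_one]
    field_simp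
    ring

/-- the functions `L(s) = p + (1-p) exp(-cs)` -/
noncomputable def Lp (p c : ℝ) (s : ℝ) : ℝ := p + (1 - p) * Real.exp (-c * s)

lemma Lp_classL {p c : ℝ} (hp0 : 0 ≤ p) (hp1 : p < 1) (hc : 0 < c) : ClassL (Lp p c) := by
  have hq : 0 < 1 - p := by linarith
  refine ⟨⟨?_, ?_, ?_⟩, ?_, ?_, ?_⟩
  · unfold Lp; fun_prop
  · unfold Lp
    apply ContDiff.contDiffOn
    fun_prop
  · intro n s hs
    have h1 : Lp p c = fun s => p + (1 - p) * Real.exp (-c * s) := rfl
    rcases Nat.eq_zero_or_pos n with rfl | hn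
    · simp only [pow_zero, one_mul, iteratedDeriv_zero]
      unfold Lp
      have := Real.exp_pos (-c * s)
      positivity
    · rw [h1, iteratedDeriv_const_add hn]
      have h2 : (fun s => (1 - p) * Real.exp (-c * s)) =
          fun s => (1 - p) * (fun s => Real.exp (-c * s)) s := rfl
      rw [h2, iteratedDeriv_const_mul_field, iteratedDeriv_exp_const_mul]
      have h3 : (-1:ℝ) ^ n * ((1 - p) * ((-c) ^ n * Real.exp (-c * s))) =
          (1 - p) * ((c ^ n) * Real.exp (-c * s)) := by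
        rw [show (-c) ^ n = (-1) ^ n * c ^ n by rw [← mul_pow]; ring]
        have h4 : (-1:ℝ) ^ n * (-1) ^ n = 1 := by rw [← mul_pow]; simp
        linear_combination ((1 - p) * c ^ n * Real.exp (-c * s)) * h4
      rw [h3]
      have := Real.exp_pos (-c * s)
      positivity
  · intro s _ t _ hst
    unfold Lp at hst
    have h1 : Real.exp (-c * s) = Real.exp (-c * t) := by
      have := add_left_cancel hst
      exact mul_left_cancel₀ hq.ne' this
    have h2 := Real.exp_injective h1
    have h3 : c * (s - t) = 0 := by linarith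
    rcases mul_eq_zero.1 h3 with h4 | h4
    · linarith
    · linarith
  · simp [Lp]
  · intro s hs
    unfold Lp
    have h1 := Real.exp_pos (-c * s)
    have h2 : Real.exp (-c * s) ≤ 1 := by
      rw [Real.exp_le_one_iff]; nlinarith
    constructor
    · nlinarith [mul_pos hq h1]
    · nlinarith

lemma classC_quad {b : ℝ} (hb : 0 ≤ b) : ClassC (fun ξ => b * ξ ^ 2) := by
  refine ⟨Real.sqrt (2 * b), 0, by simp, by simp, ?_⟩
  intro ξ
  rw [Real.sq_sqrt (by positivity), integral_zero_measure]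
  ring

lemma Lp_propertyR {p c : ℝ} (hp0 : 0 ≤ p) (hp1 : p < 1) (hc : 0 < c) :
    PropertyR gaussExp (Lp p c) := by
  have hq : 0 < 1 - p := by linarith
  have hL := Lp_classL hp0 hp1 hc
  rintro ψ ⟨a, ha, hψ⟩ μ1 μ2 _ _ f1 f2 h1 h2 r1 r2 hΦ
  -- lower bounds
  have hlow : ∀ s, p ≤ Lp p c s := by
    intro s
    unfold Lp
    have := mul_pos hq (Real.exp_pos (-c * s))
    linarith
  have hp1' : ∀ ξ, p ≤ f1 ξ := by
    intro ξ
    obtain ⟨s, _, hs⟩ := r1 ξ
    rw [← hs]; exact hlow s
  have hp2' : ∀ ξ, p ≤ f2 ξ := by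
    intro ξ
    obtain ⟨s, _, hs⟩ := r2 ξ
    rw [← hs]; exact hlow s
  obtain ⟨ν1, hν1, k1⟩ := exists_sub h1 hp1 hp1'
  obtain ⟨ν2, hν2, k2⟩ := exists_sub h2 hp1 hp2'
  -- inverse functions
  have hinv : ∀ x ∈ Lp p c '' Ici 0, Function.invFunOn (Lp p c) (Ici 0) x ∈ Ici (0:ℝ) ∧
      (x - p) / (1 - p) = Real.exp (-c * Function.invFunOn (Lp p c) (Ici 0) x) := by
    intro x hx
    have e1 := Function.invFunOn_mem hx
    have e2 := Function.invFunOn_eq hx
    refine ⟨e1, ?_⟩
    conv_lhs => rw [← e2]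
    unfold Lp
    field_simp
    ring
  have hprod : ∀ ξ, ((f1 ξ - p) / (1 - p)) * ((f2 ξ - p) / (1 - p)) =
      Real.exp (-((c * a) * ξ ^ 2)) := by
    intro ξ
    obtain ⟨m1, e1⟩ := hinv _ (r1 ξ)
    obtain ⟨m2, e2⟩ := hinv _ (r2 ξ)
    have h3 := hΦ ξ
    unfold Phi at h3
    have h4 := hL.inj (by
      rw [mem_Ici] at *
      exact add_nonneg m1 m2) (by rw [hψ, mem_Ici]; positivity) h3
    rw [e1, e2, ← Real.exp_add]
    congr 1
    rw [hψ] at h4
    have : c * a * ξ ^ 2 = c * (a * ξ ^ 2) := by ring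
    rw [this, ← h4]
    ring
  have key : ∀ (u : ℝ → ℝ) (f : ℝ → ℝ), (∀ ξ, u ξ = (f ξ - p) / (1 - p)) →
      (∃ b : ℝ, 0 ≤ b ∧ ∀ ξ, u ξ = Real.exp (-(b * ξ ^ 2))) →
      ∃ η, ClassC η ∧ ∀ ξ, f ξ = Lp p c (η ξ) := by
    rintro u f hu ⟨b, hb, hub⟩
    refine ⟨fun ξ => (b / c) * ξ ^ 2, classC_quad (by positivity), ?_⟩
    intro ξ
    unfold Lp
    have e3 : -c * (b / c * ξ ^ 2) = -(b * ξ ^ 2) := by field_simp
    rw [e3, ← hub, hu]
    field_simp
    ring
  have hca : 0 ≤ c * a := by positivity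
  obtain ⟨η1, c1, g1⟩ := key _ f1 (fun ξ => rfl) (Cramer.cramer hca k1 k2 hprod)
  obtain ⟨η2, c2, g2⟩ := key _ f2 (fun ξ => rfl) (Cramer.cramer hca k2 k1 (by
    intro ξ; rw [mul_comm]; exact hprod ξ))
  exact ⟨η1, η2, c1, c2, g1, g2⟩

end Q297.PhiL
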