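import Pool.Agent.Q297.WinMom

/-!
The planted path is a forward Brownian motion.
-/

open MeasureTheory ProbabilityTheory Set Filter Topology
open scoped ENNReal NNReal symmDiff
open Q297.PathC Q297.Prepend Q297.TwoS

namespace Q297.Win

/-- the path seen forward from the time `s` -/
def fw (s : ℝ) (y : Path2) : Path := ⟨fun u => y (s + u) - y s, by fun_prop⟩

@[simp] lemma fw_apply (s : ℝ) (y : Path2) (u : ℝ≥0) : fw s y u = y (s + u) - y s := rfl

lemma fw_eq (s : ℝ) (y : Path2) : fw s y = fwd (th s y) := by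
  ext u; simp

lemma fw_meas (s : ℝ) : Measurable (fw s) :=
  measurable_of_eval fun _ => (measurable_eval _).sub (measurable_eval _)

lemma fw_meas2 : Measurable (fun p : ℝ × Path2 => fw p.1 p.2) := by
  refine measurable_of_eval fun u => ?_
  have h0 := ev_meas 0
  simp only [add_zero] at h0
  exact (ev_meas u).sub h0

lemma shift_fw (s : ℝ) (y : Path2) (u : ℝ≥0) : shift u (fw s y) = fw (s + u) y := by
  ext r
  simp only [shift_apply, fw_apply, NNReal.coe_add]
  rw [show s + (u + r : ℝ) = s + u + r by ring]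
  ring

lemma agree {k m i M : ℕ} (hi : i < 2 ^ k) (hM : M ≤ A m) {t : ℝ} (ht : t ∈ I k i) (y : Path2)
    {u : ℝ} (hu0 : 0 ≤ u) (hu : u ≤ M) : R y (-t + u) = RF (F k m) y (-t + u) := by
  have h1 := I_le hi ht
  have h2 := I_ge ht
  have h3 : (0 : ℝ) ≤ bk k := Nat.cast_nonneg _
  refine R_eq (fun w hw => ?_) y
  rw [mem_F]
  by_contra hcon
  apply hw
  constructor
  · intro hw2
    have h4 : m ≤ w.1 := by
      by_contra h5
      exact hcon (Or.inl ⟨hw2, not_le.1 h5⟩)
    have h5 : (A m : ℝ) ≤ A w.1 := by exact_mod_cast A_mono h4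
    have h6 : (M : ℝ) ≤ A m := by exact_mod_cast hM
    linarith
  · intro hw2
    have h4 : k + 1 ≤ w.1 := by
      by_contra h5
      exact hcon (Or.inr ⟨hw2, not_le.1 h5⟩)
    have h5 : (A (k + 1) : ℝ) ≤ A w.1 := by exact_mod_cast A_mono h4
    have h6 : ((2 ^ k * bk k : ℕ) : ℝ) + 3 ≤ A (k + 1) := by
      have : 2 ^ k * bk k + 3 ≤ A (k + 1) := by rw [A_succ]; unfold bk; omega
      exact_mod_cast this
    linarith

lemma fil_congr {M : ℕ} {C : Set Path} (hC : MeasurableSet[Fil M] C) {x x' : Path}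
    (h : ∀ u : ℝ≥0, u ≤ M → x u = x' u) : x ∈ C ↔ x' ∈ C := by
  obtain ⟨S, hS, rfl⟩ := hC
  have e : (fun t : Set.Iic (M : ℝ≥0) => x t) = fun t : Set.Iic (M : ℝ≥0) => x' t := by
    funext t; exact h t t.2
  simp only [mem_preimage]
  rw [e]

lemma fil_meas {M : ℕ} {C : Set Path} (hC : MeasurableSet[Fil M] C) : MeasurableSet C := by
  have := le_iSup Fil M C hC
  rw [iSup_Fil] at this
  exact this

variable {W : Measure Path} (hW : IsBrownianReal (fun (t : ℝ≥0) (x : Path) => x t) W)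

include hW

lemma p_le {k m i M : ℕ} (hi : i < 2 ^ k) (hM : M ≤ A m) {t : ℝ} (ht : t ∈ I k i) {C : Set Path}
    (hC : MeasurableSet[Fil M] C) :
    W2 W {y | fw (-t) (R y) ∈ C} ≤ ∫⁻ y in fwd ⁻¹' C, H (F k m) t y ∂(W2 W) := by
  have hCm := fil_meas hC
  have e1 : {y | fw (-t) (R y) ∈ C} = RF (F k m) ⁻¹' (fw (-t) ⁻¹' C) := by
    ext y
    refine fil_congr hC fun u hu => ?_
    have hu' : (u : ℝ) ≤ M := by exact_mod_cast hu
    have a1 := agree hi hM ht y u.2 hu'
    have a2 := agree hi hM ht y le_rfl (Nat.cast_nonneg M)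
    rw [add_zero] at a2
    rw [fw_apply, fw_apply, ← a2]
    congr 1
  have e2 : (fw (-t) ⁻¹' C) ∩ Gd (F k m) ⊆ th (-t) ⁻¹' (fwd ⁻¹' C ∩ E (F k m) t) := by
    rintro y ⟨hy1, hy2⟩
    refine ⟨?_, fun w hw => ?_⟩
    · rw [mem_preimage, ← fw_eq]; exact hy1
    · have := hy2 w hw
      unfold inc at this
      simp only [th_apply]
      rw [show -t + (t + Qw w) = Qw w by ring, show -t + (t + Pw w) = Pw w by ring]
      linarith
  have hm : MeasurableSet (fwd ⁻¹' C ∩ E (F k m) t) := (fwd_meas hCm).inter (E_meas _ _)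
  rw [e1]
  calc W2 W (RF (F k m) ⁻¹' (fw (-t) ⁻¹' C))
      ≤ 2 ^ (F k m).card * W2 W (fw (-t) ⁻¹' C ∩ Gd (F k m)) :=
        law_RF hW _ _ ((fw_meas _) hCm)
    _ ≤ 2 ^ (F k m).card * W2 W (th (-t) ⁻¹' (fwd ⁻¹' C ∩ E (F k m) t)) :=
        mul_le_mul_right (measure_mono e2) _
    _ = 2 ^ (F k m).card * W2 W (fwd ⁻¹' C ∩ E (F k m) t) := by
        rw [← Measure.map_apply (th_meas _) hm, map_th hW]
    _ = ∫⁻ y in fwd ⁻¹' C, H (F k m) t y ∂(W2 W) := by
        unfold H
        rw [lintegral_const_mul _ (measurable_const.indicator (E_meas _ _)),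
          lintegral_indicator_const (E_meas _ _), one_mul, Measure.restrict_apply (E_meas _ _),
          inter_comm]

/-- the measure of the planted path seen from the blocks -/
noncomputable def nu (W : Measure Path) (k : ℕ) : Measure Path :=
  ∑ i ∈ Finset.range (2 ^ k), ((volume.restrict (I k i)).prod (W2 W)).map
    (fun p => fw (-p.1) (R p.2))

omit hW in
lemma fwR_meas : Measurable (fun p : ℝ × Path2 => fw (-p.1) (R p.2)) :=
  fw_meas2.comp (measurable_fst.neg.prodMk (R_meas.comp measurable_snd))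

lemma nu_apply (k : ℕ) {C : Set Path} (hC : MeasurableSet C) :
    nu W k C = ∑ i ∈ Finset.range (2 ^ k), ∫⁻ t in I k i, W2 W {y | fw (-t) (R y) ∈ C} := by
  have hWp := isProb hW
  unfold nu
  rw [Measure.finsetSum_apply]
  refine Finset.sum_congr rfl fun i _ => ?_
  rw [Measure.map_apply fwR_meas hC, Measure.prod_apply (fwR_meas hC)]
  rfl

lemma nu_fin (k : ℕ) : IsFiniteMeasure (nu W k) := by
  have hWp := isProb hW
  have h : ∀ i : ℕ, IsFiniteMeasure (volume.restrict (I k i)) := fun i =>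
    ⟨by rw [Measure.restrict_apply_univ, vol_I]; exact ENNReal.one_lt_top⟩
  unfold nu
  infer_instance

lemma nu_fil (k : ℕ) (c : ℝ≥0) (hc : c ≠ 0) {M : ℕ} {C : Set Path} (hC : MeasurableSet[Fil M] C) :
    nu W k C ≤ 2 ^ k * (c * W C + 11 / c) := by
  have hWp := isProb hW
  have hCm := fil_meas hC
  have hM : M ≤ A M := le_A M
  rw [nu_apply hW k hCm]
  calc ∑ i ∈ Finset.range (2 ^ k), ∫⁻ t in I k i, W2 W {y | fw (-t) (R y) ∈ C}
      ≤ ∑ i ∈ Finset.range (2 ^ k), ∫⁻ t in I k i, ∫⁻ y in fwd ⁻¹' C, H (F k M) t y ∂(W2 W) :=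
        Finset.sum_le_sum fun i hi => setLIntegral_mono' (I_meas k i) fun t ht =>
          p_le hW (Finset.mem_range.1 hi) hM ht hC
    _ = ∫⁻ y in fwd ⁻¹' C, D k M y ∂(W2 W) := by
        unfold D
        rw [lintegral_finsetSum _ (fun i _ => Measurable.lintegral_prod_left' (H_meas2 (F k M)))]
        refine Finset.sum_congr rfl fun i _ => ?_
        exact lintegral_lintegral_swap (H_meas2 (F k M)).aemeasurable
    _ ≤ 2 ^ k * (c * W2 W (fwd ⁻¹' C) + 11 / c) := D_set hW k M c hc _ (fwd_meas hCm)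
    _ = 2 ^ k * (c * W C + 11 / c) := by
        rw [← Measure.map_apply fwd_meas hCm, map_fwd hW]

lemma nu_le (k : ℕ) (c : ℝ≥0) (hc : c ≠ 0) {C : Set Path} (hC : MeasurableSet C) :
    nu W k C ≤ 2 ^ k * (c * W C + 11 / c) := by
  have hWp := isProb hW
  have hnu := nu_fin hW k
  set 𝒜 : Set (Set Path) := {s | ∃ M, MeasurableSet[Fil M] s} with h𝒜
  have halg : IsSetAlgebra 𝒜 := by
    refine ⟨⟨0, @MeasurableSet.empty _ (Fil 0)⟩, ?_, ?_⟩
    · rintro s ⟨M, hM⟩
      exact ⟨M, hM.compl⟩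
    · rintro s s' ⟨M, hM⟩ ⟨M', hM'⟩
      exact ⟨max M M', (Fil_mono (le_max_left M M') s hM).union (Fil_mono (le_max_right M M') s' hM')⟩
  have hgen : (instMS : MeasurableSpace Path) = MeasurableSpace.generateFrom 𝒜 := by
    rw [← iSup_Fil, ← MeasurableSpace.generateFrom_iUnion_measurableSet Fil]
    congr 1
    ext s; simp [h𝒜]
  have hd := Measure.MeasureDense.of_generateFrom_isSetAlgebra_finite (μ := nu W k + W) halg hgen
  refine ENNReal.le_of_forall_pos_le_add fun ε hε _ => ?_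
  set δ : ℝ≥0 := ε / (2 ^ k * c + 1) with hδ
  have hδ0 : 0 < δ := by positivity
  obtain ⟨C', ⟨M, hC'⟩, hlt⟩ := hd.approx C hC (measure_ne_top _ _) δ (by exact_mod_cast hδ0)
  rw [ENNReal.ofReal_coe_nnreal, Measure.add_apply] at hlt
  have h1 : nu W k (C ∆ C') ≤ δ := (le_self_add).trans hlt.le
  have h2 : W (C ∆ C') ≤ δ := (le_add_self).trans hlt.le
  have h3 : nu W k C ≤ nu W k C' + δ := by
    have : C ⊆ C' ∪ C ∆ C' := by
      intro x hx
      by_cases h : x ∈ C'
      · exact Or.inl h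
      · exact Or.inr (Or.inl ⟨hx, h⟩)
    exact (measure_mono this).trans ((measure_union_le _ _).trans (by gcongr))
  have h4 : W C' ≤ W C + δ := by
    have : C' ⊆ C ∪ C ∆ C' := by
      intro x hx
      by_cases h : x ∈ C
      · exact Or.inl h
      · exact Or.inr (Or.inr ⟨hx, h⟩)
    exact (measure_mono this).trans ((measure_union_le _ _).trans (by gcongr))
  have h5 := nu_fil hW k c hc hC'
  have h6 : (2 : ℝ≥0∞) ^ k * (c * δ) + δ = ε := by
    have : (2 : ℝ≥0) ^ k * (c * δ) + δ = ε := by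
      rw [hδ]; field_simp
    exact_mod_cast congrArg ((↑) : ℝ≥0 → ℝ≥0∞) this
  calc nu W k C ≤ 2 ^ k * (c * W C' + 11 / c) + δ := h3.trans (by gcongr)
    _ ≤ 2 ^ k * (c * (W C + δ) + 11 / c) + δ := by gcongr
    _ = 2 ^ k * (c * W C + 11 / c) + (2 ^ k * (c * δ) + δ) := by ring
    _ = 2 ^ k * (c * W C + 11 / c) + ε := by rw [h6]

/-- the first `q` integer shifts avoid `B` -/
def Cq (B : Set Path) (q : ℕ) : Set Path := {f | ∀ j ≤ q, shift (j : ℕ) f ∉ B}

omit hW in
lemma Cq_meas {B : Set Path} (hB : MeasurableSet B) (q : ℕ) : MeasurableSet (Cq B q) := by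
  have : Cq B q = ⋂ j ∈ Finset.range (q + 1), (shift (j : ℕ) ⁻¹' B)ᶜ := by
    ext f
    simp [Cq, Nat.lt_succ_iff]
  rw [this]
  exact Finset.measurableSet_biInter _ fun j _ => ((measurable_shift _) hB).compl

lemma Cq_tendsto {B : Set Path} (hB : MeasurableSet B) (hpos : 0 < W B) :
    Tendsto (fun q => W (Cq B q)) atTop (𝓝 0) := by
  have hWp := isProb hW
  have h1 : Tendsto (fun q => W (Cq B q)) atTop (𝓝 (W (⋂ q, Cq B q))) := by
    refine tendsto_measure_iInter_atTop (fun q => (Cq_meas hB q).nullMeasurableSet) ?_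
      ⟨0, measure_ne_top _ _⟩
    intro a b hab f hf j hj
    exact hf j (hj.trans hab)
  have h2 : W (⋂ q, Cq B q) = 0 := by
    have h3 := visits hW B hB hpos
    refine measure_mono_null ?_ (ae_iff.1 h3)
    intro f hf
    simp only [mem_ofPred_eq, not_exists]
    intro n hn
    exact (mem_iInter.1 hf n) n le_rfl hn
  rwa [h2] at h1

/-- the law of the planted path -/
noncomputable def muX (W : Measure Path) : Measure Path2 := (W2 W).map R

instance muX_prob [IsProbabilityMeasure W] : IsProbabilityMeasure (muX W) :=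
  Measure.isProbabilityMeasure_map R_meas.aemeasurable

/-- the uniform law on `[0, 1]` -/
noncomputable def lam : Measure ℝ := volume.restrict (Icc 0 1)

omit hW in
instance lam_prob : IsProbabilityMeasure lam := ⟨by unfold lam; simp⟩

/-- the candidates for the path seen from a random time below `-n` -/
def T (n j : ℕ) (x : Path2 × ℝ) : Path := fw (-((n + j : ℕ) + x.2)) x.1

omit hW in
lemma T_meas (n j : ℕ) : Measurable (T n j) := by
  have h : Measurable (fun x : Path2 × ℝ => (-(((n + j : ℕ) : ℝ) + x.2), x.1)) := by fun_prop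
  exact fw_meas2.comp h

lemma avoid_le (n k i : ℕ) (hn : n ≤ bk k) {B : Set Path} (hB : MeasurableSet B) :
    ((muX W).prod lam) {x | ∀ j, T n j x ∉ B} ≤
      ∫⁻ t in I k i, W2 W {y | fw (-t) (R y) ∈ Cq B (bk k - n)} := by
  have hWp := isProb hW
  set N : ℕ := (i + 1) * bk k with hN
  have hNge : bk k ≤ N := Nat.le_mul_of_pos_left _ (by omega)
  have hC := Cq_meas hB (bk k - n)
  have h1 : {x : Path2 × ℝ | ∀ j, T n j x ∉ B} ⊆
      {x | fw (-((N : ℝ) + x.2)) x.1 ∈ Cq B (bk k - n)} := by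
    intro x hx j hj
    rw [shift_fw]
    have h2 := hx (N - j - n)
    unfold T at h2
    have e : -(((n + (N - j - n) : ℕ) : ℝ) + x.2) = -((N : ℝ) + x.2) + ((j : ℕ) : ℝ≥0) := by
      have e2 : n + (N - j - n) = N - j := by omega
      rw [e2, Nat.cast_sub (by omega)]
      push_cast
      ring
    rw [e] at h2
    exact h2
  have hm : MeasurableSet {x : Path2 × ℝ | fw (-((N : ℝ) + x.2)) x.1 ∈ Cq B (bk k - n)} := by
    have h : Measurable (fun x : Path2 × ℝ => (-((N : ℝ) + x.2), x.1)) := by fun_prop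
    exact (fw_meas2.comp h) hC
  refine (measure_mono h1).trans ?_
  rw [Measure.prod_apply_symm hm]
  have h3 : ∀ v : ℝ, muX W ((fun x => (x, v)) ⁻¹' {x : Path2 × ℝ | fw (-((N : ℝ) + x.2)) x.1 ∈
      Cq B (bk k - n)}) = W2 W {y | fw (-((N : ℝ) + v)) (R y) ∈ Cq B (bk k - n)} := by
    intro v
    have hm2 : MeasurableSet ((fun x => (x, v)) ⁻¹' {x : Path2 × ℝ | fw (-((N : ℝ) + x.2)) x.1 ∈
      Cq B (bk k - n)}) := hm.preimage (measurable_id.prodMk measurable_const)
    unfold muX
    rw [Measure.map_apply R_meas hm2]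
    rfl
  simp_rw [h3]
  -- translation
  have h4 : lam.map (fun v => (N : ℝ) + v) = volume.restrict (I k i) := by
    have hmp := measurePreserving_add_left (volume : Measure ℝ) (N : ℝ)
    have := hmp.restrict_preimage (s := I k i) (I_meas k i)
    have e : (fun v : ℝ => (N : ℝ) + v) ⁻¹' I k i = Icc 0 1 := by
      ext v
      simp only [I, mem_preimage, mem_Icc]
      rw [← hN]
      constructor
      · rintro ⟨h1, h2⟩; constructor <;> linarith
      · rintro ⟨h1, h2⟩; constructor <;> linarith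
    rw [e] at this
    exact this.map_eq
  rw [← h4, lintegral_map]
  · exact (measurable_measure_prodMk_left (fwR_meas hC))
  · fun_prop

/-- **The planted path visits every set of positive Wiener measure arbitrarily far in the past.** -/
theorem plant_visits (n : ℕ) (B : Set Path) (hB : MeasurableSet B) (hpos : 0 < W B) :
    ∀ᵐ x ∂((muX W).prod lam), ∃ j, T n j x ∈ B := by
  have hWp := isProb hW
  have hmain : ∀ c : ℝ≥0, c ≠ 0 → ((muX W).prod lam) {x | ∀ j, T n j x ∉ B} ≤ 11 / c := by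
    intro c hc
    have h1 : ∀ k : ℕ, n ≤ bk k → ((muX W).prod lam) {x | ∀ j, T n j x ∉ B} ≤
        c * W (Cq B (bk k - n)) + 11 / c := by
      intro k hk
      have h2 : 2 ^ k * ((muX W).prod lam) {x | ∀ j, T n j x ∉ B} ≤ nu W k (Cq B (bk k - n)) := by
        rw [nu_apply hW k (Cq_meas hB _)]
        have h3 := Finset.sum_le_sum (s := Finset.range (2 ^ k))
          (fun i _ => avoid_le hW n k i hk hB)
        rw [Finset.sum_const, Finset.card_range, nsmul_eq_mul] at h3
        push_cast at h3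
        exact h3
      have h4 := h2.trans (nu_le hW k c hc (Cq_meas hB _))
      exact (ENNReal.mul_le_mul_iff_right (by simp) (ENNReal.pow_ne_top (by norm_num))).1 h4
    have h5 : Tendsto (fun k => (c : ℝ≥0∞) * W (Cq B (bk k - n)) + 11 / c) atTop
        (𝓝 (c * 0 + 11 / c)) := by
      refine Tendsto.add_const _ (ENNReal.Tendsto.const_mul ?_ (Or.inr ENNReal.coe_ne_top))
      refine (Cq_tendsto hW hB hpos).comp ?_
      refine tendsto_atTop_mono (f := fun k => k - n) (fun k => ?_) (tendsto_sub_atTop_nat n)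
      have := le_A k
      unfold bk
      omega
    rw [mul_zero, zero_add] at h5
    refine ge_of_tendsto h5 ?_
    filter_upwards [eventually_ge_atTop n] with k hk
    refine h1 k ?_
    have := le_A k
    unfold bk
    omega
  have h0 : ((muX W).prod lam) {x | ∀ j, T n j x ∉ B} = 0 := by
    by_contra hne
    have hpos : 0 < ((muX W).prod lam) {x | ∀ j, T n j x ∉ B} := pos_iff_ne_zero.2 hne
    have hlim : Tendsto (fun q : ℕ => (11 : ℝ≥0∞) / ((q + 1 : ℕ) : ℝ≥0)) atTop (𝓝 0) := by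
      have h1 : Tendsto (fun q : ℕ => (11 : ℝ≥0∞) / (q + 1 : ℕ)) atTop (𝓝 0) := by
        have := ENNReal.Tendsto.const_div (a := 11) (b := ∞) (f := atTop)
          (m := fun q : ℕ => ((q + 1 : ℕ) : ℝ≥0∞))
          (ENNReal.tendsto_nat_nhds_top.comp (tendsto_add_atTop_nat 1)) (Or.inr (by norm_num))
        simpa using this
      simpa using h1
    have h6 : ((muX W).prod lam) {x | ∀ j, T n j x ∉ B} ≤ 0 :=
      ge_of_tendsto' hlim fun q => hmain _ (by positivity)
    exact absurd (le_antisymm h6 zero_le) hne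
  rw [ae_iff]
  convert h0 using 2
  ext x
  simp

/-- the parts of the source whose images fill Wiener measure -/
theorem exists_kappa (n : ℕ) : ∃ κ : ℕ → Measure (Path2 × ℝ), Measure.sum κ = (muX W).prod lam ∧
    Measure.sum (fun j => (κ j).map (T n j)) = W := by
  have hWp := isProb hW
  exact Q297.Fill.filling _ W (by rw [measure_univ, measure_univ]) (T n) (T_meas n)
    (plant_visits hW n)

end Q297.Win
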