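import Pool.Agent.Q297.Sel

/-!
Symmetry of the planted path, independence of its two halves, random times.
-/

open MeasureTheory ProbabilityTheory Set Filter Topology
open scoped ENNReal NNReal
open Q297.PathC Q297.Prepend Q297.TwoS

namespace Q297.Win

/-- the mirror window -/
def mir (w : Ix) : Ix := (w.1, !w.2)

lemma mir_mir (w : Ix) : mir (mir w) = w := by simp [mir]

lemma Pw_mir (w : Ix) : Pw (mir w) = -Qw w := by
  obtain ⟨l, b⟩ := w
  cases b
  · show Pw (l, true) = -Qw (l, false)
    rw [Pw_true, Qw_false]; ring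
  · show Pw (l, false) = -Qw (l, true)
    rw [Pw_false, Qw_true]; ring

lemma Qw_mir (w : Ix) : Qw (mir w) = -Pw w := by
  have h := Pw_mir (mir w)
  rw [mir_mir] at h
  linarith

lemma inc_rev (w : Ix) (y : Path2) : inc w (rev y) = inc (mir w) y := by
  unfold inc
  rw [rev_apply, rev_apply, Pw_mir, Qw_mir]
  ring

lemma pr_neg (p q t : ℝ) (h : p ≤ q) : pr (-q) (-p) (-t) = -pr p q t := by
  rcases le_total t p with h1 | h1
  · rw [pr_low h h1, pr_high (by linarith) (by linarith)]
  rcases le_total q t with h2 | h2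
  · rw [pr_high h h2, pr_low (by linarith) (by linarith)]
  · rw [pr_id ⟨h1, h2⟩, pr_id ⟨by linarith, by linarith⟩]

lemma bump_rev (w : Ix) (y : Path2) (t : ℝ) : bump w (rev y) t = -bump (mir w) y (-t) := by
  unfold bump
  rw [rev_apply, rev_apply, Pw_mir, Qw_mir, pr_neg _ _ _ (PQ w).le]
  have h0 := pr_neg (Pw w) (Qw w) 0 (PQ w).le
  rw [neg_zero] at h0
  rw [h0]
  ring

lemma corr_rev (w : Ix) (y : Path2) (t : ℝ) : corr w (rev y) t = -corr (mir w) y (-t) := by
  unfold corr
  rw [inc_rev, bump_rev]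
  split_ifs
  · rfl
  · simp

lemma R_rev (y : Path2) : R (rev y) = rev (R y) := by
  ext t
  show RF (G ⌈|t|⌉₊) (rev y) t = -RF (G ⌈|-t|⌉₊) y (-t)
  rw [abs_neg, RF_apply, RF_apply, rev_apply]
  have h : ∑ w ∈ G ⌈|t|⌉₊, corr w (rev y) t = -∑ w ∈ G ⌈|t|⌉₊, corr w y (-t) := by
    rw [← Finset.sum_neg_distrib]
    refine Finset.sum_nbij' mir mir ?_ ?_ ?_ ?_ ?_
    · intro w hw; rw [mem_G] at hw ⊢; exact hw
    · intro w hw; rw [mem_G] at hw ⊢; exact hw
    · intro w _; exact mir_mir w
    · intro w _; exact mir_mir w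
    · intro w _; exact corr_rev w y t
  rw [h]
  ring

variable {W : Measure Path} (hW : IsBrownianReal (fun (t : ℝ≥0) (x : Path) => x t) W)

include hW

lemma map_rev_muX : (muX W).map rev = muX W := by
  unfold muX
  rw [Measure.map_map rev_meas R_meas]
  have : rev ∘ R = R ∘ rev := by funext y; exact (R_rev y).symm
  rw [this, ← Measure.map_map R_meas rev_meas, map_rev hW]

omit hW

/-! ### the two halves -/

/-- a one-sided path as a two-sided path -/
def ext (f : Path) : Path2 := ⟨fun t => f t.toNNReal, by fun_prop⟩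

lemma ext_meas : Measurable ext := measurable_of_eval fun _ => measurable_eval _

lemma ext_fwd {a b : ℝ} (ha : 0 ≤ a) (hb : 0 ≤ b) (y : Path2) :
    ext (fwd y) a - ext (fwd y) b = y a - y b := by
  show fwd y a.toNNReal - fwd y b.toNNReal = y a - y b
  rw [fwd_apply, fwd_apply, Real.coe_toNNReal a ha, Real.coe_toNNReal b hb]
  ring

lemma fwd_R (y : Path2) : fwd (R y) = fwd (R (ext (fwd y))) := by
  ext t
  rw [fwd_apply, fwd_apply]
  show RF (G ⌈|(t : ℝ)|⌉₊) y t - RF (G ⌈|(0 : ℝ)|⌉₊) y 0 =
    RF (G ⌈|(t : ℝ)|⌉₊) (ext (fwd y)) t - RF (G ⌈|(0 : ℝ)|⌉₊) (ext (fwd y)) 0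
  have h0 : ∀ z : Path2, RF (G ⌈|(0 : ℝ)|⌉₊) z 0 = z 0 := by
    intro z
    rw [RF_apply, Finset.sum_eq_zero, mul_zero, sub_zero]
    intro w _
    exact corr_zero (far_of_abs (by simp)) z
  rw [h0, h0, RF_apply, RF_apply]
  have h1 : ∀ w : Ix, corr w y t = corr w (ext (fwd y)) t := by
    rintro ⟨l, b⟩
    cases b
    · have hf : Far (l, false) t := ⟨fun h => by simp at h, fun _ => by
        have h1 := t.2
        have h2 := A_ge' l
        show -(A l : ℝ) ≤ t
        linarith⟩
      rw [corr_zero hf, corr_zero hf]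
    · have hP : 0 ≤ Pw (l, true) := by rw [Pw_true]; positivity
      have hQ : 0 ≤ Qw (l, true) := hP.trans (PQ _).le
      have hpr : ∀ x, 0 ≤ pr (Pw (l, true)) (Qw (l, true)) x := fun x =>
        hP.trans (pr_mem (PQ _).le x).1
      have e1 : inc (l, true) (ext (fwd y)) = inc (l, true) y := ext_fwd hQ hP y
      have e2 : bump (l, true) (ext (fwd y)) t = bump (l, true) y t := ext_fwd (hpr _) (hpr _) y
      unfold corr
      rw [e1, e2]
  rw [Finset.sum_congr rfl fun w _ => h1 w]
  have h2 := ext_fwd (NNReal.coe_nonneg t) le_rfl y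
  linarith

/-- negation of one-sided paths -/
def neg1 (f : Path) : Path := ⟨fun t => -f t, by fun_prop⟩

lemma neg1_meas : Measurable neg1 := measurable_of_eval fun _ => (measurable_eval _).neg

lemma bwd_eq (y : Path2) : bwd y = neg1 (fwd (rev y)) := by
  ext t
  show y (-t) - y 0 = -(-y (-t) - -y (-0))
  rw [neg_zero]; ring

lemma neg1_neg1 (f : Path) : neg1 (neg1 f) = f := by
  ext t
  show - -f t = f t
  ring

lemma bwd_R (y : Path2) : bwd (R y) = neg1 (fwd (R (ext (neg1 (bwd y))))) := by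
  rw [bwd_eq, ← R_rev, fwd_R, bwd_eq, neg1_neg1]

include hW

/-- the forward and the backward path of the planted path are independent -/
lemma indep_planted : IndepFun (fun y : Path2 => bwd y) (fun y : Path2 => fwd y) (muX W) := by
  have hWp := isProb hW
  have h0 : IndepFun (fun y : Path2 => bwd y) (fun y : Path2 => fwd y) (W2 W) := by
    rw [indepFun_iff_map_prod_eq_prod_map_map bwd_meas.aemeasurable fwd_meas.aemeasurable,
      map_pair hW]
    show W.prod W = ((W2 W).map bwd).prod ((W2 W).map fwd)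
    rw [map_bwd hW, map_fwd hW]
  have m1 : Measurable (fun f : Path => neg1 (fwd (R (ext (neg1 f))))) :=
    neg1_meas.comp (fwd_meas.comp (R_meas.comp (ext_meas.comp neg1_meas)))
  have m2 : Measurable (fun f : Path => fwd (R (ext f))) := fwd_meas.comp (R_meas.comp ext_meas)
  have h1 := h0.comp m1 m2
  have h2 : IndepFun (fun y : Path2 => bwd (R y)) (fun y : Path2 => fwd (R y)) (W2 W) := by
    have e1 : (fun y : Path2 => bwd (R y)) = (fun f : Path => neg1 (fwd (R (ext (neg1 f))))) ∘
        (fun y : Path2 => bwd y) := by funext y; exact bwd_R y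
    have e2 : (fun y : Path2 => fwd (R y)) = (fun f : Path => fwd (R (ext f))) ∘
        (fun y : Path2 => fwd y) := by funext y; exact fwd_R y
    rw [e1, e2]; exact h1
  rw [indepFun_iff_map_prod_eq_prod_map_map bwd_meas.aemeasurable fwd_meas.aemeasurable]
  have mb : Measurable (fun y : Path2 => bwd (R y)) := bwd_meas.comp R_meas
  have mf : Measurable (fun y : Path2 => fwd (R y)) := fwd_meas.comp R_meas
  have h3 := (indepFun_iff_map_prod_eq_prod_map_map mb.aemeasurable mf.aemeasurable).1 h2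
  unfold muX
  rw [Measure.map_map (bwd_meas.prodMk fwd_meas) R_meas, Measure.map_map bwd_meas R_meas,
    Measure.map_map fwd_meas R_meas]
  exact h3

end Q297.Win
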