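import Pool.Agent.Q297.PathC
import Pool.Agent.Q297.Fill

/-!
One-sided Wiener measure on `C(ℝ≥0, ℝ)`: the recentred shifts preserve it, and almost every path
is moved into every set of positive measure by an integer shift.
-/

open MeasureTheory ProbabilityTheory Set Filter Topology
open scoped ENNReal NNReal
open Q297.PathC

namespace Q297.Prepend

/-- the path space -/
abbrev Path := C(ℝ≥0, ℝ)

/-- the path seen from the time `s` -/
def shift (s : ℝ≥0) (x : Path) : Path :=
  ⟨fun t => x (s + t) - x s, by fun_prop⟩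

@[simp] lemma shift_apply (s t : ℝ≥0) (x : Path) : shift s x t = x (s + t) - x s := rfl

lemma measurable_shift (s : ℝ≥0) : Measurable (shift s) :=
  measurable_of_eval fun _ => (measurable_eval _).sub (measurable_eval _)

lemma shift_shift (s t : ℝ≥0) (x : Path) : shift t (shift s x) = shift (s + t) x := by
  ext r
  simp only [shift_apply, add_assoc]
  ring

variable {W : Measure Path}

lemma isProb (hW : IsBrownianReal (fun (t : ℝ≥0) (x : Path) => x t) W) : IsProbabilityMeasure W :=
  hW.isGaussianProcess.isProbabilityMeasure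

lemma map_shift (hW : IsBrownianReal (fun (t : ℝ≥0) (x : Path) => x t) W) (s : ℝ≥0) :
    W.map (shift s) = W := by
  have := isProb hW
  apply measure_ext
  rw [Measure.map_map measurable_coe (measurable_shift s)]
  have h2 := hW.shift s
  have e1 : ((fun (f : Path) (t : ℝ≥0) => f t) ∘ shift s) = fun (x : Path) (t : ℝ≥0) => x (s + t) - x s := rfl
  rw [e1]
  have m1 : Measurable (fun (x : Path) (t : ℝ≥0) => x (s + t) - x s) :=
    measurable_pi_lambda _ fun t => (measurable_eval _).sub (measurable_eval _)
  refine (map_eq_iff_forall_finset_map_restrict_eq (X := fun (t : ℝ≥0) (x : Path) => x (s + t) - x s)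
    (Y := fun (t : ℝ≥0) (x : Path) => x t) m1.aemeasurable measurable_coe.aemeasurable).2 ?_
  intro I
  rw [(h2.hasLaw I).map_eq, (hW.hasLaw I).map_eq]

/-- the information up to the time `m` -/
@[instance_reducible] def Fil (m : ℕ) : MeasurableSpace Path :=
  MeasurableSpace.comap (fun (x : Path) (t : Set.Iic (m : ℝ≥0)) => x t) MeasurableSpace.pi

lemma Fil_mono : Monotone Fil := by
  intro a b hab
  have hab' : (a : ℝ≥0) ≤ b := by exact_mod_cast hab
  unfold Fil
  let g : (Set.Iic (b : ℝ≥0) → ℝ) → (Set.Iic (a : ℝ≥0) → ℝ) := fun f t => f ⟨t.1, t.2.trans hab'⟩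
  have hg : Measurable g := measurable_pi_lambda _ fun t => measurable_pi_apply _
  have e : (fun (x : Path) (t : Set.Iic (a : ℝ≥0)) => x t) =
      g ∘ (fun (x : Path) (t : Set.Iic (b : ℝ≥0)) => x t) := rfl
  rw [e, ← MeasurableSpace.comap_comp]
  exact MeasurableSpace.comap_mono hg.comap_le

lemma iSup_Fil : (⨆ m, Fil m) = (instMS : MeasurableSpace Path) := by
  apply le_antisymm
  · refine iSup_le fun m => ?_
    have : Measurable (fun (x : Path) (t : Set.Iic (m : ℝ≥0)) => x t) :=
      measurable_pi_lambda _ fun t => measurable_eval _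
    exact this.comap_le
  · rw [instMS_eq, MeasurableSpace.pi, MeasurableSpace.comap_iSup]
    refine iSup_le fun t => ?_
    obtain ⟨m, hm⟩ := exists_nat_ge t
    refine le_trans ?_ (le_iSup Fil m)
    rw [MeasurableSpace.comap_comp]
    have e : ((fun f : ℝ≥0 → ℝ => f t) ∘ fun (f : Path) (t : ℝ≥0) => f t) =
      (fun g : Set.Iic (m : ℝ≥0) → ℝ => g ⟨t, hm⟩) ∘
        (fun (x : Path) (t : Set.Iic (m : ℝ≥0)) => x t) := rfl
    rw [e, ← MeasurableSpace.comap_comp]
    exact MeasurableSpace.comap_mono (measurable_pi_apply _).comap_le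

/-- Almost every Brownian path is moved by an integer shift into each set of positive measure. -/
theorem visits (hW : IsBrownianReal (fun (t : ℝ≥0) (x : Path) => x t) W) (A : Set Path)
    (hA : MeasurableSet A) (hpos : 0 < W A) : ∀ᵐ x ∂W, ∃ n : ℕ, shift n x ∈ A := by
  have hprob := isProb hW
  set E : Set Path := {x | ∃ n : ℕ, shift n x ∈ A} with hE
  have hEeq : E = ⋃ n : ℕ, shift n ⁻¹' A := by
    ext x; simp [hE]
  have hEm : MeasurableSet E := by
    rw [hEeq]
    exact MeasurableSet.iUnion fun n => measurable_shift n hA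
  have hsub : ∀ m : ℕ, shift m ⁻¹' E ⊆ E := by
    rintro m x ⟨n, hn⟩
    refine ⟨m + n, ?_⟩
    rw [shift_shift] at hn
    push_cast
    exact hn
  have hWE : ∀ m : ℕ, W (shift m ⁻¹' E) = W E := by
    intro m
    rw [← Measure.map_apply (measurable_shift _) hEm, map_shift hW]
  have hae : ∀ m : ℕ, (shift m ⁻¹' E : Set Path) =ᵐ[W] E := fun m =>
    ae_eq_of_subset_of_measure_ge (hsub m) (hWE m).ge ((measurable_shift _) hEm).nullMeasurableSet
      (measure_ne_top _ _)
  -- independence
  obtain ⟨E', hE', hEE'⟩ : ∃ E' : Set (ℝ≥0 → ℝ), MeasurableSet E' ∧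
      (fun (f : Path) (t : ℝ≥0) => f t) ⁻¹' E' = E := by
    have := hEm
    rw [instMS_eq] at this
    exact this
  have hind : ∀ m : ℕ, ∀ G, MeasurableSet[Fil m] G → W (G ∩ E) = W G * W E := by
    intro m G hG
    obtain ⟨S, hS, rfl⟩ := hG
    have h1 := (hW.indepFun_shift (m : ℝ≥0)).measure_inter_preimage_eq_mul E' S hE' hS
    have e2 : ((fun (ω : Path) (t : ℝ≥0) => ω ((m : ℝ≥0) + t) - ω m) ⁻¹' E') = shift m ⁻¹' E := by
      rw [← hEE']; rfl
    rw [e2, hWE] at h1
    rw [inter_comm]
    calc W (E ∩ (fun (x : Path) (t : Set.Iic (m : ℝ≥0)) => x t) ⁻¹' S)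
        = W (shift m ⁻¹' E ∩ (fun (x : Path) (t : Set.Iic (m : ℝ≥0)) => x t) ⁻¹' S) :=
          measure_congr ((hae m).symm.inter (ae_eq_refl _))
      _ = W E * W ((fun (x : Path) (t : Set.Iic (m : ℝ≥0)) => x t) ⁻¹' S) := h1
      _ = _ := mul_comm _ _
  have hall : W.restrict E = W E • W := by
    refine ext_of_generate_finite (⋃ m, {s | MeasurableSet[Fil m] s}) ?_
      (isPiSystem_iUnion_of_monotone _ (fun m => (Fil m).isPiSystem_measurableSet) ?_) ?_ ?_
    · exact ((MeasurableSpace.generateFrom_iUnion_measurableSet Fil).trans iSup_Fil).symm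
    · intro a b hab s hs
      exact Fil_mono hab s hs
    · intro s hs
      obtain ⟨m, hm⟩ := mem_iUnion.1 hs
      have hsm : MeasurableSet s := by
        have := le_iSup Fil m s hm
        rw [iSup_Fil] at this
        exact this
      rw [Measure.restrict_apply hsm, hind m s hm, Measure.smul_apply, smul_eq_mul, mul_comm]
    · rw [Measure.restrict_apply MeasurableSet.univ, univ_inter, Measure.smul_apply, measure_univ,
        smul_eq_mul, mul_one]
  have hEE : W E = W E * W E := by
    have := congrArg (fun μ : Measure Path => μ E) hall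
    simp only [Measure.smul_apply, smul_eq_mul] at this
    rw [Measure.restrict_apply hEm, inter_self] at this
    exact this
  have hEpos : W E ≠ 0 := by
    intro h0
    have h1 : W (shift ((0 : ℕ) : ℝ≥0) ⁻¹' A) = 0 := by
      refine measure_mono_null ?_ h0
      intro y hy
      exact ⟨0, hy⟩
    rw [← Measure.map_apply (measurable_shift _) hA, map_shift hW] at h1
    exact absurd h1 hpos.ne'
  have hE1 : W E = 1 := by
    have h1 : W E * 1 = W E * W E := by rw [mul_one]; exact hEE
    exact ((ENNReal.mul_right_inj hEpos (measure_ne_top _ _)).1 h1).symm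
  exact (prob_compl_eq_zero_iff hEm).2 hE1

end Q297.Prepend
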