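import Mathlib

/-!
A strictly increasing continuous function which is almost constant on long intervals, at
infinitely many scales (Baire category).
-/

open Set Filter Topology

namespace Q297.Rj

/-- the profile of one step -/
noncomputable def th (ρ y : ℝ) : ℝ := min (y / (2 * ρ)) (1 / 2) + max 0 ((y - (1 - ρ)) / (2 * ρ))

lemma th_mono {ρ : ℝ} (hρ : 0 < ρ) : Monotone (th ρ) := by
  intro a b h
  unfold th
  have h2 : (0 : ℝ) < 2 * ρ := by linarith
  exact add_le_add (min_le_min_right _ (div_le_div_of_nonneg_right h h2.le))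
    (max_le_max_left _ (div_le_div_of_nonneg_right (by linarith) h2.le))

lemma th_zero {ρ : ℝ} (hρ : 0 < ρ) (h1 : ρ ≤ 1 / 2) : th ρ 0 = 0 := by
  unfold th
  have h2 : (0 : ℝ) < 2 * ρ := by linarith
  rw [zero_div, min_eq_left (by norm_num), max_eq_left, add_zero]
  exact div_nonpos_of_nonpos_of_nonneg (by linarith) h2.le

lemma th_one {ρ : ℝ} (hρ : 0 < ρ) (h1 : ρ ≤ 1 / 2) : th ρ 1 = 1 := by
  unfold th
  have h2 : (0 : ℝ) < 2 * ρ := by linarith
  have e : (1 - (1 - ρ)) / (2 * ρ) = 1 / 2 := by field_simp; ring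
  rw [e, min_eq_right, max_eq_right (by norm_num)]
  · norm_num
  · rw [le_div_iff₀ h2]; linarith

lemma th_mid {ρ y : ℝ} (hρ : 0 < ρ) (h1 : ρ ≤ y) (h2 : y ≤ 1 - ρ) : th ρ y = 1 / 2 := by
  unfold th
  have h3 : (0 : ℝ) < 2 * ρ := by linarith
  rw [min_eq_right, max_eq_left, add_zero]
  · exact div_nonpos_of_nonpos_of_nonneg (by linarith) h3.le
  · rw [le_div_iff₀ h3]; linarith

lemma th_cont (ρ : ℝ) : Continuous (th ρ) := by unfold th; fun_prop

/-- the staircase -/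
noncomputable def gs (ρ x : ℝ) : ℝ := ⌊x⌋ + th ρ (Int.fract x)

lemma gs_bounds {ρ : ℝ} (hρ : 0 < ρ) (h1 : ρ ≤ 1 / 2) (x : ℝ) : (⌊x⌋ : ℝ) ≤ gs ρ x ∧ gs ρ x ≤ ⌊x⌋ + 1 := by
  have h2 := th_mono hρ (Int.fract_nonneg x)
  have h3 := th_mono hρ (Int.fract_lt_one x).le
  rw [th_zero hρ h1] at h2
  rw [th_one hρ h1] at h3
  unfold gs
  constructor <;> linarith

lemma gs_mono {ρ : ℝ} (hρ : 0 < ρ) (h1 : ρ ≤ 1 / 2) : Monotone (gs ρ) := by
  intro x y h
  rcases (Int.floor_mono h).eq_or_lt with h2 | h2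
  · unfold gs
    have h3 : Int.fract x ≤ Int.fract y := by
      unfold Int.fract; rw [h2]; linarith
    rw [h2]
    have := th_mono hρ h3
    linarith
  · have h3 : (⌊x⌋ : ℝ) + 1 ≤ ⌊y⌋ := by exact_mod_cast h2
    exact (gs_bounds hρ h1 x).2.trans (h3.trans (gs_bounds hρ h1 y).1)

lemma gs_cont {ρ : ℝ} (hρ : 0 < ρ) (h1 : ρ ≤ 1 / 2) : Continuous (gs ρ) := by
  have h2 : Continuous ((fun y => th ρ y - y) ∘ Int.fract) := by
    refine ContinuousOn.comp_fract'' ((th_cont ρ).sub continuous_id).continuousOn ?_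
    rw [th_zero hρ h1, th_one hρ h1]; norm_num
  have e : gs ρ = fun x => x + ((fun y => th ρ y - y) ∘ Int.fract) x := by
    funext x
    simp only [Function.comp, gs]
    have := Int.floor_add_fract x
    linarith
  rw [e]
  exact continuous_id.add h2

lemma gs_near {ρ : ℝ} (hρ : 0 < ρ) (h1 : ρ ≤ 1 / 2) (x : ℝ) : |gs ρ x - x| ≤ 1 := by
  have h2 := gs_bounds hρ h1 x
  have h3 := Int.floor_le x
  have h4 := (Int.lt_floor_add_one x).le
  rw [abs_le]
  constructor <;> linarith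

lemma gs_flat {ρ : ℝ} (hρ : 0 < ρ) (k : ℤ) {x : ℝ} (h1 : k + ρ ≤ x) (h2 : x ≤ k + 1 - ρ) :
    gs ρ x = k + 1 / 2 := by
  have h3 : ⌊x⌋ = k := by rw [Int.floor_eq_iff]; constructor <;> linarith
  unfold gs
  have h4 : Int.fract x = x - k := by unfold Int.fract; rw [h3]
  rw [h3, h4, th_mid hρ (by linarith) (by linarith)]

/-- the unit interval -/
abbrev II := Icc (0 : ℝ) 1

/-- the point of the unit interval -/
noncomputable def pt (x : ℝ) : II := projIcc 0 1 zero_le_one x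

lemma pt_cont : Continuous pt := continuous_projIcc (h := zero_le_one)

lemma pt_mono : Monotone pt := monotone_projIcc zero_le_one

lemma pt_coe {x : ℝ} (h : x ∈ II) : (pt x : ℝ) = x := by
  unfold pt; rw [projIcc_of_mem _ h]

lemma pt_self (x : II) : pt (x : ℝ) = x := by unfold pt; rw [projIcc_val]

/-- the change of variables -/
noncomputable def sg (q : ℕ) (t : II) : II := pt (gs (1 / q) (q * t) / q)

lemma sg_cont {q : ℕ} (hq : 2 ≤ q) : Continuous (sg q) := by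
  have hq' : (2 : ℝ) ≤ q := by exact_mod_cast hq
  have h1 : (0 : ℝ) < 1 / q := by positivity
  have h2 : (1 : ℝ) / q ≤ 1 / 2 := by
    apply one_div_le_one_div_of_le (by norm_num) hq'
  unfold sg
  have := gs_cont h1 h2
  exact pt_cont.comp ((this.comp (by fun_prop)).div_const _)

lemma sg_mono {q : ℕ} (hq : 2 ≤ q) : Monotone (sg q) := by
  have hq' : (2 : ℝ) ≤ q := by exact_mod_cast hq
  have h1 : (0 : ℝ) < 1 / q := by positivity
  have h2 : (1 : ℝ) / q ≤ 1 / 2 := by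
    apply one_div_le_one_div_of_le (by norm_num) hq'
  intro a b h
  unfold sg
  apply pt_mono
  have h3 : (a : ℝ) ≤ b := h
  exact div_le_div_of_nonneg_right (gs_mono h1 h2 (by nlinarith)) (by positivity)

lemma sg_near {q : ℕ} (hq : 2 ≤ q) (t : II) : dist (sg q t) t ≤ 1 / q := by
  have hq' : (2 : ℝ) ≤ q := by exact_mod_cast hq
  have h1 : (0 : ℝ) < 1 / q := by positivity
  have h2 : (1 : ℝ) / q ≤ 1 / 2 := by
    apply one_div_le_one_div_of_le (by norm_num) hq'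
  have h3 : |gs (1 / q) (q * t) / q - t| ≤ 1 / q := by
    have h4 := gs_near h1 h2 (q * t)
    have e : gs (1 / q) (q * t) / q - t = (gs (1 / q) (q * t) - q * t) / q := by field_simp
    rw [e, abs_div, abs_of_pos (by linarith : (0 : ℝ) < q)]
    exact div_le_div_of_nonneg_right h4 (by linarith)
  have h5 : dist (sg q t) (pt t) ≤ dist (gs (1 / q) (q * t) / q) (t : ℝ) := by
    unfold sg pt
    have := abs_projIcc_sub_projIcc (a := (0 : ℝ)) (b := 1) (c := gs (1 / q) (q * t) / q)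
      (d := (t : ℝ)) zero_le_one
    rw [Subtype.dist_eq, Real.dist_eq, Real.dist_eq]
    exact this
  rw [pt_self] at h5
  exact h5.trans (by rw [Real.dist_eq]; exact h3)

lemma sg_flat {q : ℕ} (hq : 2 ≤ q) {k : ℕ} {t : II} (h1 : (k : ℝ) / q + 1 / q ^ 2 ≤ t)
    (h2 : (t : ℝ) ≤ (k + 1) / q - 1 / q ^ 2) : sg q t = pt ((k + 1 / 2) / q) := by
  have hq' : (2 : ℝ) ≤ q := by exact_mod_cast hq
  have hq0 : (0 : ℝ) < q := by linarith
  unfold sg
  congr 2
  have h3 := gs_flat (ρ := 1 / q) (by positivity) (k : ℤ) (x := q * t) ?_ ?_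
  · rw [h3]; push_cast; ring
  · have := mul_le_mul_of_nonneg_left h1 hq0.le
    have e : (q : ℝ) * ((k : ℝ) / q + 1 / q ^ 2) = k + 1 / q := by field_simp
    rw [e] at this
    push_cast
    exact this
  · have := mul_le_mul_of_nonneg_left h2 hq0.le
    have e : (q : ℝ) * (((k : ℝ) + 1) / q - 1 / q ^ 2) = k + 1 - 1 / q := by field_simp
    rw [e] at this
    push_cast
    exact this

/-- the space of the functions -/
def VV : Set C(II, ℝ) := {f | Monotone f ∧ ∀ t, f t ∈ II}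

lemma VV_closed : IsClosed VV := by
  have e : VV = (⋂ (s : II) (t : II) (_ : s ≤ t), {f : C(II, ℝ) | f s ≤ f t}) ∩
      ⋂ t : II, {f : C(II, ℝ) | f t ∈ II} := by
    ext f
    simp only [VV, Monotone, mem_ofPred_eq, mem_inter_iff, mem_iInter]
  rw [e]
  refine IsClosed.inter ?_ ?_
  · refine isClosed_iInter fun s => isClosed_iInter fun t => isClosed_iInter fun _ => ?_
    exact isClosed_le (continuous_eval_const s) (continuous_eval_const t)
  · exact isClosed_iInter fun t => isClosed_Icc.preimage (continuous_eval_const t)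

/-- the flat part of the scale `q` -/
def Fl (ℓ : ℕ → ℝ) (q : ℕ) : Set VV :=
  {f | ∀ k < q, f.1 (pt ((k + 1) / q - 1 / q ^ 2)) - f.1 (pt (k / q + 1 / q ^ 2)) < ℓ q}

lemma Fl_open (ℓ : ℕ → ℝ) (q : ℕ) : IsOpen (Fl ℓ q) := by
  have e : Fl ℓ q = ⋂ k ∈ Iio q, {f : VV | f.1 (pt ((k + 1) / q - 1 / q ^ 2)) -
      f.1 (pt (k / q + 1 / q ^ 2)) < ℓ q} := by
    ext f; simp [Fl]
  rw [e]
  refine (finite_Iio q).isOpen_biInter fun k _ => ?_
  refine isOpen_lt ?_ continuous_const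
  exact ((continuous_eval_const _).comp continuous_subtype_val).sub
    ((continuous_eval_const _).comp continuous_subtype_val)

lemma Fl_dense {ℓ : ℕ → ℝ} (hℓ : ∀ q, 0 < ℓ q) (M : ℕ) : Dense (⋃ q ≥ max M 2, Fl ℓ q) := by
  intro f
  rw [Metric.mem_closure_iff]
  intro ε hε
  -- uniform continuity
  have huc : UniformContinuous f.1 := CompactSpace.uniformContinuous_of_continuous f.1.continuous
  obtain ⟨δ, hδ, h1⟩ := Metric.uniformContinuous_iff.1 huc (ε / 2) (by positivity)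
  obtain ⟨N, hN⟩ := exists_nat_one_div_lt hδ
  set q := max (max M 2) (N + 1) with hq
  have hqM : max M 2 ≤ q := le_max_left _ _
  have hq2 : 2 ≤ q := (le_max_right M 2).trans hqM
  have hqN : N + 1 ≤ q := le_max_right _ _
  have hqδ : (1 : ℝ) / q < δ := by
    refine lt_of_le_of_lt ?_ hN
    apply one_div_le_one_div_of_le (by positivity)
    exact_mod_cast hqN
  let g : C(II, ℝ) := ⟨fun t => f.1 (sg q t), f.1.continuous.comp (sg_cont hq2)⟩
  have hg : g ∈ VV := ⟨fun a b h => f.2.1 (sg_mono hq2 h), fun t => f.2.2 _⟩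
  refine ⟨⟨g, hg⟩, ?_, ?_⟩
  · simp only [mem_iUnion]
    refine ⟨q, hqM, fun k hk => ?_⟩
    have hq' : (2 : ℝ) ≤ q := by exact_mod_cast hq2
    have hq0 : (0 : ℝ) < q := by linarith
    have hk' : (k : ℝ) + 1 ≤ q := by exact_mod_cast hk
    have hk0 : (0 : ℝ) ≤ k := by positivity
    have hqq : (1 : ℝ) / q ^ 2 ≤ 1 / (2 * q) := by
      apply one_div_le_one_div_of_le (by positivity)
      nlinarith
    have hle : (k : ℝ) / q + 1 / q ^ 2 ≤ (k + 1) / q - 1 / q ^ 2 := by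
      have e : ((k : ℝ) + 1) / q = k / q + 1 / (2 * q) + 1 / (2 * q) := by field_simp; ring
      rw [e]; linarith
    have hm1 : (k : ℝ) / q + 1 / q ^ 2 ∈ II := by
      constructor
      · positivity
      · refine hle.trans ?_
        have : ((k : ℝ) + 1) / q ≤ 1 := by rw [div_le_one hq0]; exact hk'
        have h3 : (0 : ℝ) ≤ 1 / q ^ 2 := by positivity
        linarith
    have hm2 : ((k : ℝ) + 1) / q - 1 / q ^ 2 ∈ II := by
      constructor
      · exact hm1.1.trans hle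
      · have : ((k : ℝ) + 1) / q ≤ 1 := by rw [div_le_one hq0]; exact hk'
        have h3 : (0 : ℝ) ≤ 1 / q ^ 2 := by positivity
        linarith
    have e1 : sg q (pt ((k + 1) / q - 1 / q ^ 2)) = pt ((k + 1 / 2) / q) :=
      sg_flat hq2 (by rw [pt_coe hm2]; exact hle) (by rw [pt_coe hm2])
    have e2 : sg q (pt (k / q + 1 / q ^ 2)) = pt ((k + 1 / 2) / q) :=
      sg_flat hq2 (by rw [pt_coe hm1]) (by rw [pt_coe hm1]; exact hle)
    show f.1 (sg q _) - f.1 (sg q _) < ℓ q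
    rw [e1, e2, sub_self]
    exact hℓ q
  · rw [Subtype.dist_eq, dist_comm]
    refine lt_of_le_of_lt ((ContinuousMap.dist_le (by positivity : (0 : ℝ) ≤ ε / 2)).2 fun t => ?_)
      (half_lt_self hε)
    exact (h1 ((sg_near hq2 t).trans_lt hqδ)).le

/-- strict increase between two points -/
def Inc (s t : ℝ) : Set VV := {f | f.1 (pt s) < f.1 (pt t)}

lemma Inc_open (s t : ℝ) : IsOpen (Inc s t) :=
  isOpen_lt ((continuous_eval_const _).comp continuous_subtype_val)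
    ((continuous_eval_const _).comp continuous_subtype_val)

lemma Inc_dense {s t : ℝ} (hs : s ∈ II) (ht : t ∈ II) (hst : s < t) : Dense (Inc s t) := by
  intro f
  rw [Metric.mem_closure_iff]
  intro ε hε
  set δ : ℝ := min (1 / 2) (ε / 2) with hδ
  have hδ0 : 0 < δ := by positivity
  have hδ1 : δ ≤ 1 / 2 := min_le_left _ _
  have hδε : δ < ε := (min_le_right _ _).trans_lt (half_lt_self hε)
  let g : C(II, ℝ) := ⟨fun x => (1 - δ) * f.1 x + δ * (x : ℝ), by fun_prop⟩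
  have hg : g ∈ VV := by
    refine ⟨fun a b h => ?_, fun x => ?_⟩
    · have h1 := f.2.1 h
      have h2 : (a : ℝ) ≤ b := h
      show (1 - δ) * f.1 a + δ * (a : ℝ) ≤ (1 - δ) * f.1 b + δ * (b : ℝ)
      have h3 : 0 ≤ 1 - δ := by linarith
      exact add_le_add (mul_le_mul_of_nonneg_left h1 h3) (mul_le_mul_of_nonneg_left h2 hδ0.le)
    · have h1 := f.2.2 x
      have h2 := x.2
      show (1 - δ) * f.1 x + δ * (x : ℝ) ∈ II
      have h3 : 0 ≤ 1 - δ := by linarith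
      constructor
      · exact add_nonneg (mul_nonneg h3 h1.1) (mul_nonneg hδ0.le h2.1)
      · have h4 := mul_le_mul_of_nonneg_left h1.2 h3
        have h5 := mul_le_mul_of_nonneg_left h2.2 hδ0.le
        linarith
  refine ⟨⟨g, hg⟩, ?_, ?_⟩
  · show (1 - δ) * f.1 (pt s) + δ * (pt s : ℝ) < (1 - δ) * f.1 (pt t) + δ * (pt t : ℝ)
    have h1 := f.2.1 (pt_mono hst.le)
    rw [pt_coe hs, pt_coe ht]
    have h3 : 0 ≤ 1 - δ := by linarith
    have h4 := mul_le_mul_of_nonneg_left h1 h3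
    have h5 := mul_lt_mul_of_pos_left hst hδ0
    linarith
  · rw [Subtype.dist_eq]
    refine lt_of_le_of_lt ((ContinuousMap.dist_le hδ0.le).2 fun x => ?_) hδε
    have h1 := f.2.2 x
    have h2 := x.2
    rw [Real.dist_eq]
    show |f.1 x - ((1 - δ) * f.1 x + δ * (x : ℝ))| ≤ δ
    have e : f.1 x - ((1 - δ) * f.1 x + δ * (x : ℝ)) = δ * (f.1 x - x) := by ring
    rw [e, abs_mul, abs_of_pos hδ0]
    have h3 : |f.1 x - (x : ℝ)| ≤ 1 := by
      rw [abs_le]; constructor <;> linarith [h1.1, h1.2, h2.1, h2.2]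
    calc δ * |f.1 x - (x : ℝ)| ≤ δ * 1 := mul_le_mul_of_nonneg_left h3 hδ0.le
      _ = δ := mul_one _

/-- **Existence.** -/
theorem exists_V {ℓ : ℕ → ℝ} (hℓ : ∀ q, 0 < ℓ q) : ∃ V : ℝ → ℝ, Continuous V ∧ Monotone V ∧
    StrictMonoOn V (Icc 0 1) ∧ (∀ t, V t ∈ Icc (0 : ℝ) 1) ∧
    ∀ M : ℕ, ∃ q ≥ M, 2 ≤ q ∧ ∀ k < q,
      V (((k : ℕ) + 1) / q - 1 / q ^ 2) - V (k / q + 1 / q ^ 2) < ℓ q := by
  have hcs : CompleteSpace VV := VV_closed.completeSpace_coe
  have hne : Nonempty VV := ⟨⟨⟨fun x => (x : ℝ), by fun_prop⟩, fun _ _ h => h, fun t => t.2⟩⟩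
  -- the countable families
  have h1 : Dense (⋂ M : ℕ, ⋃ q ≥ max M 2, Fl ℓ q) :=
    dense_iInter_of_isOpen (fun M => isOpen_biUnion fun q _ => Fl_open ℓ q) fun M => Fl_dense hℓ M
  set J := {p : ℚ × ℚ // (p.1 : ℝ) ∈ II ∧ (p.2 : ℝ) ∈ II ∧ (p.1 : ℝ) < p.2} with hJ
  have h2 : Dense (⋂ p : J, Inc (p.1.1 : ℝ) (p.1.2 : ℝ)) :=
    dense_iInter_of_isOpen (fun p => Inc_open _ _) fun p => Inc_dense p.2.1 p.2.2.1 p.2.2.2
  have h3 : IsGδ (⋂ M : ℕ, ⋃ q ≥ max M 2, Fl ℓ q) :=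
    IsGδ.iInter_of_isOpen fun M => isOpen_biUnion fun q _ => Fl_open ℓ q
  have h4 : IsGδ (⋂ p : J, Inc (p.1.1 : ℝ) (p.1.2 : ℝ)) :=
    IsGδ.iInter_of_isOpen fun p => Inc_open _ _
  obtain ⟨f, hf1, hf2⟩ := (Dense.inter_of_Gδ h3 h4 h1 h2).nonempty
  rw [mem_iInter] at hf1 hf2
  refine ⟨fun x => f.1 (pt x), f.1.continuous.comp pt_cont, fun a b h => f.2.1 (pt_mono h), ?_,
    fun t => f.2.2 _, ?_⟩
  · intro a ha b hb hab
    obtain ⟨c, hac, hcb⟩ := exists_rat_btwn hab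
    obtain ⟨d, hcd, hdb⟩ := exists_rat_btwn hcb
    have hc : (c : ℝ) ∈ II := ⟨ha.1.trans hac.le, hcb.le.trans hb.2⟩
    have hd : (d : ℝ) ∈ II := ⟨hc.1.trans hcd.le, hdb.le.trans hb.2⟩
    have h5 := hf2 ⟨(c, d), hc, hd, hcd⟩
    exact (f.2.1 (pt_mono hac.le)).trans_lt (lt_of_lt_of_le h5 (f.2.1 (pt_mono hdb.le)))
  · intro M
    have h5 := hf1 M
    simp only [mem_iUnion] at h5
    obtain ⟨q, hq, h6⟩ := h5
    exact ⟨q, (le_max_left _ _).trans hq, (le_max_right _ _).trans hq, h6⟩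

end Q297.Rj
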