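import Mathlib

/-!
A graph which is almost constant on long intervals at infinitely many scales carries no Rajchman
measure.
-/

open MeasureTheory Set Filter Topology

namespace Q297.Rj

/-- the basic character -/
noncomputable def ex (s : ℝ) : ℂ := Complex.exp ((2 * Real.pi * s : ℝ) * Complex.I)

lemma ex_norm (s : ℝ) : ‖ex s‖ = 1 := Complex.norm_exp_ofReal_mul_I _

lemma ex_add (s t : ℝ) : ex (s + t) = ex s * ex t := by
  unfold ex
  rw [← Complex.exp_add]
  congr 1
  push_cast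
  ring

lemma ex_int (n : ℤ) : ex n = 1 := by
  unfold ex
  have : (((2 * Real.pi * (n : ℝ) : ℝ) : ℂ)) * Complex.I = n * (2 * Real.pi * Complex.I) := by
    push_cast; ring
  rw [this, Complex.exp_int_mul_two_pi_mul_I]

lemma ex_cont : Continuous ex := by unfold ex; fun_prop

lemma ex_near (s : ℝ) : ‖ex s - 1‖ ≤ 2 * Real.pi * |s| := by
  unfold ex
  have h := Real.norm_exp_I_mul_ofReal_sub_one_le (x := 2 * Real.pi * s)
  rw [mul_comm Complex.I] at h
  refine h.trans (le_of_eq ?_)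
  rw [Real.norm_eq_abs, abs_mul, abs_of_pos (by positivity : (0 : ℝ) < 2 * Real.pi)]

lemma ex_near_int {s δ : ℝ} {n : ℤ} (h : |s - n| ≤ δ) : ‖ex s - 1‖ ≤ 2 * Real.pi * δ := by
  have e : ex s = ex (s - n) := by
    have : s = (s - n) + n := by ring
    rw [this, ex_add, ex_int, mul_one]
    congr 1; ring
  rw [e]
  exact (ex_near _).trans (mul_le_mul_of_nonneg_left h (by positivity))

lemma ex_conj (s : ℝ) : (starRingEnd ℂ) (ex s) = ex (-s) := by
  unfold ex
  rw [← Complex.exp_conj]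
  congr 1
  rw [map_mul, Complex.conj_ofReal, Complex.conj_I]
  push_cast
  ring

/-- simultaneous approximation -/
lemma dirichlet (N A : ℕ) (hA : 0 < A) (x : Fin N → ℝ) :
    ∃ m : ℕ, 1 ≤ m ∧ m ≤ A ^ N ∧ ∀ k, ∃ n : ℤ, |m * x k - n| ≤ 1 / A := by
  have hA' : (0 : ℝ) < A := by exact_mod_cast hA
  have hlt : ∀ y : ℝ, ⌊(A : ℝ) * Int.fract y⌋₊ < A := by
    intro y
    rw [Nat.floor_lt (mul_nonneg hA'.le (Int.fract_nonneg y))]
    have := Int.fract_lt_one y
    nlinarith
  let f : Fin (A ^ N + 1) → (Fin N → Fin A) := fun m k => ⟨⌊(A : ℝ) * Int.fract (m * x k)⌋₊, hlt _⟩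
  obtain ⟨a, b, hab, hf⟩ := Fintype.exists_ne_map_eq_of_card_lt f (by simp)
  wlog h : a < b generalizing a b
  · exact this b a hab.symm hf.symm (lt_of_le_of_ne (not_lt.1 h) hab.symm)
  have h' : (a : ℕ) < b := h
  refine ⟨b - a, by omega, by have := b.2; omega, fun k => ?_⟩
  refine ⟨⌊(b : ℝ) * x k⌋ - ⌊(a : ℝ) * x k⌋, ?_⟩
  have h1 : ⌊(A : ℝ) * Int.fract (a * x k)⌋₊ = ⌊(A : ℝ) * Int.fract (b * x k)⌋₊ := by
    have := congrFun hf k
    simpa [f] using this
  set u := (A : ℝ) * Int.fract (a * x k) with hu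
  set v := (A : ℝ) * Int.fract (b * x k) with hv
  have hu0 : 0 ≤ u := mul_nonneg hA'.le (Int.fract_nonneg _)
  have hv0 : 0 ≤ v := mul_nonneg hA'.le (Int.fract_nonneg _)
  have h2 := Nat.floor_le hu0
  have h3 := Nat.lt_floor_add_one u
  have h4 := Nat.floor_le hv0
  have h5 := Nat.lt_floor_add_one v
  rw [h1] at h2 h3
  have h6 : |v - u| ≤ 1 := by rw [abs_le]; constructor <;> linarith
  have e : ((b - a : ℕ) : ℝ) * x k - ((⌊(b : ℝ) * x k⌋ - ⌊(a : ℝ) * x k⌋ : ℤ) : ℝ) = (v - u) / A := by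
    rw [hu, hv]
    unfold Int.fract
    rw [Nat.cast_sub h'.le]
    push_cast
    field_simp
    ring
  rw [e, abs_div, abs_of_pos hA']
  exact div_le_div_of_nonneg_right h6 hA'.le

/-- the Fourier transform -/
noncomputable def FT (μ : Measure (ℝ × ℝ)) (ξ : ℝ × ℝ) : ℂ :=
  ∫ x, ex (-(ξ.1 * x.1 + ξ.2 * x.2)) ∂μ

section Main

variable {f : ℝ → ℝ} {μ : Measure (ℝ × ℝ)} [IsFiniteMeasure μ]

/-- the flat intervals of the scale `q` -/
def Flat (q : ℕ) : Set ℝ := ⋃ k ∈ Finset.range q, Icc ((k : ℝ) / q + 1 / q ^ 2) ((k + 1) / q - 1 / q ^ 2)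

lemma Flat_meas (q : ℕ) : MeasurableSet (Flat q) :=
  Finset.measurableSet_biUnion _ fun _ _ => measurableSet_Icc

lemma steep_near {q : ℕ} (hq : 1 ≤ q) {t : ℝ} (ht : t ∈ Icc (0 : ℝ) 1) (hf : t ∉ Flat q) :
    ∃ n : ℤ, |q * t - n| ≤ 1 / q := by
  have hq' : (1 : ℝ) ≤ q := by exact_mod_cast hq
  have hq0 : (0 : ℝ) < q := by linarith
  rcases eq_or_lt_of_le ht.2 with h1 | h1
  · refine ⟨q, ?_⟩
    rw [h1]; simp
  set k := ⌊(q : ℝ) * t⌋₊ with hk
  have h0 : 0 ≤ (q : ℝ) * t := mul_nonneg hq0.le ht.1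
  have h2 := Nat.floor_le h0
  have h3 := Nat.lt_floor_add_one ((q : ℝ) * t)
  rw [← hk] at h2 h3
  have hkq : k < q := by
    have : (k : ℝ) < q := lt_of_le_of_lt h2 (by nlinarith)
    exact_mod_cast this
  have h4 : ¬ ((k : ℝ) / q + 1 / q ^ 2 ≤ t ∧ t ≤ (k + 1) / q - 1 / q ^ 2) := by
    intro h
    exact hf (mem_biUnion (Finset.mem_range.2 hkq) h)
  rw [not_and_or, not_le, not_le] at h4
  rcases h4 with h4 | h4
  · refine ⟨k, ?_⟩
    have h5 := mul_lt_mul_of_pos_left h4 hq0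
    have e : (q : ℝ) * ((k : ℝ) / q + 1 / q ^ 2) = k + 1 / q := by field_simp
    rw [e] at h5
    push_cast
    rw [abs_le]
    constructor <;> linarith [(by positivity : (0 : ℝ) ≤ 1 / q)]
  · refine ⟨k + 1, ?_⟩
    have h5 := mul_lt_mul_of_pos_left h4 hq0
    have e : (q : ℝ) * (((k : ℝ) + 1) / q - 1 / q ^ 2) = k + 1 - 1 / q := by field_simp
    rw [e] at h5
    push_cast
    rw [abs_le]
    constructor <;> linarith [(by positivity : (0 : ℝ) ≤ 1 / q)]

lemma ex_int_able {g : ℝ × ℝ → ℝ} (hg : Continuous g) : Integrable (fun x => ex (g x)) μ := by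
  refine Integrable.of_bound (ex_cont.comp hg).aestronglyMeasurable 1 (ae_of_all _ fun x => ?_)
  rw [ex_norm]

/-- the steep part is small -/
lemma steep_small {q : ℕ} (hq : 1000 ≤ q) {ε : ℝ} (hε0 : 0 ≤ ε)
    (hε : ∀ ξ : ℝ × ℝ, (q : ℝ) ≤ ‖ξ‖ → ‖FT μ ξ‖ ≤ ε) :
    100 * μ.real {x : ℝ × ℝ | x.1 ∈ Icc (0 : ℝ) 1 ∧ x.1 ∉ Flat q} ≤ 20 * μ.real univ + 400 * ε := by
  have hq' : (1000 : ℝ) ≤ q := by exact_mod_cast hq
  have hq0 : (0 : ℝ) < q := by linarith
  set S : Set (ℝ × ℝ) := {x | x.1 ∈ Icc (0 : ℝ) 1 ∧ x.1 ∉ Flat q} with hS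
  have mS : MeasurableSet S :=
    (measurable_fst measurableSet_Icc).inter (measurable_fst (Flat_meas q).compl)
  set G : ℝ × ℝ → ℂ := fun x => ∑ j ∈ Finset.range 20, ex (-(j * q * x.1)) with hG
  have hGc : Continuous G := by
    rw [hG]
    exact continuous_finsetSum _ fun j _ => ex_cont.comp (by fun_prop)
  have hGn : ∀ x, ‖G x‖ ≤ 20 := by
    intro x
    refine (norm_sum_le _ _).trans ?_
    simp only [ex_norm]
    norm_num
  have hGi : Integrable (fun x => ‖G x‖ ^ 2) μ := by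
    refine Integrable.of_bound (hGc.norm.pow 2).aestronglyMeasurable 400 (ae_of_all _ fun x => ?_)
    rw [Real.norm_of_nonneg (by positivity)]
    have := hGn x
    nlinarith [norm_nonneg (G x)]
  -- lower bound
  have h1 : 100 * μ.real S ≤ ∫ x, ‖G x‖ ^ 2 ∂μ := by
    have h2 : ∫ x in S, (100 : ℝ) ∂μ ≤ ∫ x in S, ‖G x‖ ^ 2 ∂μ := by
      refine setIntegral_mono_on (integrable_const _).integrableOn hGi.integrableOn mS fun x hx => ?_
      obtain ⟨n, hn⟩ := steep_near (by omega) hx.1 hx.2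
      have h3 : ∀ j ∈ Finset.range 20, ‖ex (-(j * q * x.1)) - 1‖ ≤ 1 / 2 := by
        intro j hj
        have hj' : (j : ℝ) ≤ 20 := by
          have := Finset.mem_range.1 hj
          exact_mod_cast this.le
        have h4 : |-(j * q * x.1) - ((-(j * n) : ℤ) : ℝ)| ≤ 1 / 50 := by
          have e : -(j * q * x.1) - ((-(j * n) : ℤ) : ℝ) = -(j * (q * x.1 - n)) := by push_cast; ring
          rw [e, abs_neg, abs_mul, abs_of_nonneg (by positivity : (0 : ℝ) ≤ j)]
          calc (j : ℝ) * |q * x.1 - n| ≤ 20 * (1 / q) :=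
              mul_le_mul hj' hn (abs_nonneg _) (by norm_num)
            _ ≤ 20 * (1 / 1000) := by
              apply mul_le_mul_of_nonneg_left _ (by norm_num)
              exact one_div_le_one_div_of_le (by norm_num) hq'
            _ = 1 / 50 := by norm_num
        refine (ex_near_int h4).trans ?_
        have := Real.pi_lt_d2
        linarith
      have h5 : ‖G x - 20‖ ≤ 10 := by
        have e : G x - 20 = ∑ j ∈ Finset.range 20, (ex (-(j * q * x.1)) - 1) := by
          rw [Finset.sum_sub_distrib]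
          simp [hG]
        rw [e]
        refine (norm_sum_le _ _).trans ((Finset.sum_le_sum h3).trans ?_)
        norm_num
      have h6 : 10 ≤ ‖G x‖ := by
        have h7 := norm_sub_norm_le (20 : ℂ) (20 - G x)
        rw [sub_sub_cancel] at h7
        have h8 : ‖(20 : ℂ)‖ = 20 := by norm_num
        rw [h8, norm_sub_rev] at h7
        linarith
      nlinarith
    have h3 : ∫ x in S, ‖G x‖ ^ 2 ∂μ ≤ ∫ x, ‖G x‖ ^ 2 ∂μ :=
      setIntegral_le_integral hGi (ae_of_all _ fun x => by positivity)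
    rw [setIntegral_const, smul_eq_mul, mul_comm] at h2
    exact h2.trans h3
  -- upper bound
  have h2 : ((∫ x, ‖G x‖ ^ 2 ∂μ : ℝ) : ℂ) =
      ∑ i ∈ Finset.range 20, ∑ j ∈ Finset.range 20, FT μ (((i : ℝ) - j) * q, 0) := by
    rw [← integral_complex_ofReal]
    have e : ∀ x, ((‖G x‖ ^ 2 : ℝ) : ℂ) = ∑ i ∈ Finset.range 20, ∑ j ∈ Finset.range 20,
        ex (-(((i : ℝ) - j) * q * x.1 + 0 * x.2)) := by
      intro x
      push_cast
      rw [← Complex.mul_conj' (G x)]
      simp only [hG]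
      rw [map_sum, Finset.sum_mul_sum]
      refine Finset.sum_congr rfl fun i _ => Finset.sum_congr rfl fun j _ => ?_
      rw [ex_conj, ← ex_add]
      congr 1
      ring
    simp only [e]
    rw [integral_finsetSum]
    · refine Finset.sum_congr rfl fun i _ => ?_
      rw [integral_finsetSum]
      · rfl
      · intro j _
        exact ex_int_able (by fun_prop)
    · intro i _
      exact integrable_finsetSum _ fun j _ => ex_int_able (by fun_prop)
  have h3 : ∫ x, ‖G x‖ ^ 2 ∂μ ≤ 20 * μ.real univ + 400 * ε := by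
    have h4 : ∫ x, ‖G x‖ ^ 2 ∂μ ≤ ‖((∫ x, ‖G x‖ ^ 2 ∂μ : ℝ) : ℂ)‖ := by
      rw [Complex.norm_real]
      exact le_abs_self _
    rw [h2] at h4
    refine h4.trans ((norm_sum_le _ _).trans ?_)
    have h5 : ∀ i ∈ Finset.range 20, ‖∑ j ∈ Finset.range 20, FT μ (((i : ℝ) - j) * q, 0)‖ ≤
        μ.real univ + 20 * ε := by
      intro i hi
      refine (norm_sum_le _ _).trans ?_
      have h6 : ∀ j ∈ Finset.range 20, ‖FT μ (((i : ℝ) - j) * q, 0)‖ ≤
          (if j = i then μ.real univ else 0) + ε := by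
        intro j _
        by_cases hij : j = i
        · rw [if_pos hij]
          have : ‖FT μ (((i : ℝ) - j) * q, 0)‖ ≤ μ.real univ := by
            unfold FT
            refine (norm_integral_le_of_norm_le_const (C := 1) (ae_of_all _ fun x => ?_)).trans ?_
            · rw [ex_norm]
            · rw [one_mul]
          linarith
        · rw [if_neg hij, zero_add]
          apply hε
          rw [Prod.norm_def]
          refine le_max_of_le_left ?_
          rw [Real.norm_eq_abs, abs_mul, abs_of_pos hq0]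
          have : (1 : ℝ) ≤ |(i : ℝ) - j| := by
            have h7 : (1 : ℤ) ≤ |(i : ℤ) - j| := Int.one_le_abs (by omega)
            exact_mod_cast h7
          nlinarith
      refine (Finset.sum_le_sum h6).trans ?_
      rw [Finset.sum_add_distrib, Finset.sum_ite_eq' (Finset.range 20) i, if_pos hi]
      simp
    refine (Finset.sum_le_sum h5).trans ?_
    rw [Finset.sum_const, Finset.card_range, nsmul_eq_mul]
    push_cast
    linarith
  exact h1.trans h3

/-- **No Rajchman measure.** -/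
theorem no_rajchman (hμ : ∀ᵐ x ∂μ, x.1 ∈ Icc (0 : ℝ) 1 ∧ x.2 = f x.1)
    (hq : ∀ M : ℕ, ∃ q ≥ M, ∀ k < q, 
      ∀ t ∈ Icc ((k : ℝ) / q + 1 / q ^ 2) (((k : ℝ) + 1) / q - 1 / q ^ 2),
      ∀ t' ∈ Icc ((k : ℝ) / q + 1 / q ^ 2) (((k : ℝ) + 1) / q - 1 / q ^ 2),
        |f t - f t'| ≤ 1 / (100 * q * 100 ^ q))
    (hR : Tendsto (FT μ) (cocompact (ℝ × ℝ)) (𝓝 0)) : μ = 0 := by
  by_contra hne
  set m := μ.real univ with hm
  have hm0 : 0 < m := by
    rw [hm, measureReal_def]
    exact ENNReal.toReal_pos (by simpa using hne) (measure_ne_top _ _)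
  -- the radius
  obtain ⟨R, hR'⟩ : ∃ R : ℝ, ∀ ξ : ℝ × ℝ, R ≤ ‖ξ‖ → ‖FT μ ξ‖ ≤ m / 100 := by
    have h1 : ∀ᶠ ξ in cocompact (ℝ × ℝ), ‖FT μ ξ‖ < m / 100 := by
      have := hR.norm
      rw [norm_zero] at this
      exact this.eventually (gt_mem_nhds (by positivity))
    rw [← Metric.cobounded_eq_cocompact, hasBasis_cobounded_norm.eventually_iff] at h1
    obtain ⟨R, -, h2⟩ := h1
    exact ⟨R, fun ξ hξ => (h2 hξ).le⟩
  obtain ⟨q, hqM, hflat⟩ := hq (max 1000 ⌈R⌉₊)
  have hq1000 : 1000 ≤ q := (le_max_left _ _).trans hqM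
  have hqR : R ≤ q := (Nat.le_ceil R).trans (by exact_mod_cast (le_max_right _ _).trans hqM)
  have hq' : (1000 : ℝ) ≤ q := by exact_mod_cast hq1000
  have hq0 : (0 : ℝ) < q := by linarith
  set S : Set (ℝ × ℝ) := {x | x.1 ∈ Icc (0 : ℝ) 1 ∧ x.1 ∉ Flat q} with hS
  have mS : MeasurableSet S :=
    (measurable_fst measurableSet_Icc).inter (measurable_fst (Flat_meas q).compl)
  have hSs : 100 * μ.real S ≤ 20 * m + 400 * (m / 100) :=
    steep_small hq1000 (by positivity) fun ξ hξ => hR' ξ (hqR.trans hξ)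
  -- the frequency
  obtain ⟨n, hn1, hn2, hn3⟩ := dirichlet q 100 (by norm_num)
    (fun k : Fin q => q * f ((k : ℝ) / q + 1 / q ^ 2))
  set η : ℝ := n * q with hη
  have hn1' : (1 : ℝ) ≤ n := by exact_mod_cast hn1
  have hn2' : (n : ℝ) ≤ 100 ^ q := by exact_mod_cast hn2
  have hη0 : 0 ≤ η := by positivity
  have hηq : (q : ℝ) ≤ η := by rw [hη]; nlinarith
  have h1 : ‖FT μ (0, η)‖ ≤ m / 100 := by
    apply hR'
    refine hqR.trans (hηq.trans ?_)
    rw [Prod.norm_def]
    refine le_max_of_le_right ?_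
    exact le_abs_self η
  -- the flat part
  have h2 : ∀ᵐ x ∂μ, ‖ex (-(0 * x.1 + η * x.2)) - 1‖ ≤ 1 / 7 + S.indicator (fun _ => 2) x := by
    filter_upwards [hμ] with x hx
    by_cases hxS : x ∈ S
    · rw [indicator_of_mem hxS]
      have := norm_sub_le (ex (-(0 * x.1 + η * x.2))) 1
      rw [ex_norm, norm_one] at this
      linarith
    · rw [indicator_of_notMem hxS, add_zero]
      have hxF : x.1 ∈ Flat q := by
        by_contra h
        exact hxS ⟨hx.1, h⟩
      unfold Flat at hxF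
      simp only [mem_iUnion, Finset.mem_range] at hxF
      obtain ⟨k, hk, hxk⟩ := hxF
      obtain ⟨p, hp⟩ := hn3 ⟨k, hk⟩
      simp only at hp
      have hc : (k : ℝ) / q + 1 / q ^ 2 ∈
          Icc ((k : ℝ) / q + 1 / q ^ 2) (((k : ℝ) + 1) / q - 1 / q ^ 2) :=
        ⟨le_rfl, hxk.1.trans hxk.2⟩
      have h3 := hflat k hk x.1 hxk _ hc
      have h4 : |η * x.2 - p| ≤ 1 / 50 := by
        have e : η * x.2 - p = η * (f x.1 - f ((k : ℝ) / q + 1 / q ^ 2)) +
            (n * (q * f ((k : ℝ) / q + 1 / q ^ 2)) - p) := by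
          rw [hx.2, hη]; ring
        rw [e]
        refine (abs_add_le _ _).trans ?_
        rw [abs_mul, abs_of_nonneg hη0]
        have h5 : η * |f x.1 - f ((k : ℝ) / q + 1 / q ^ 2)| ≤ 1 / 100 := by
          have h6 : η ≤ 100 ^ q * q := by
            rw [hη]; exact mul_le_mul_of_nonneg_right hn2' hq0.le
          calc η * |f x.1 - f ((k : ℝ) / q + 1 / q ^ 2)| ≤ (100 ^ q * q) * (1 / (100 * q * 100 ^ q)) :=
              mul_le_mul h6 h3 (abs_nonneg _) (by positivity)
            _ = 1 / 100 := by field_simp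
        push_cast at hp
        linarith
      have h5 : |-(0 * x.1 + η * x.2) - ((-p : ℤ) : ℝ)| ≤ 1 / 50 := by
        have e : -(0 * x.1 + η * x.2) - ((-p : ℤ) : ℝ) = -(η * x.2 - p) := by push_cast; ring
        rw [e, abs_neg]; exact h4
      refine (ex_near_int h5).trans ?_
      have := Real.pi_lt_d2
      linarith
  have i1 : Integrable (fun x : ℝ × ℝ => ex (-(0 * x.1 + η * x.2))) μ := ex_int_able (by fun_prop)
  have h3 : ‖FT μ (0, η) - m‖ ≤ m / 7 + 2 * μ.real S := by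
    have e : FT μ (0, η) - m = ∫ x : ℝ × ℝ, (ex (-(0 * x.1 + η * x.2)) - 1) ∂μ := by
      rw [integral_sub i1 (integrable_const _)]
      simp only [integral_const, hm, FT]
      simp
    rw [e]
    refine (norm_integral_le_integral_norm _).trans ?_
    have i2 : Integrable (fun x : ℝ × ℝ => (1 / 7 : ℝ) + S.indicator (fun _ => (2 : ℝ)) x) μ :=
      (integrable_const _).add ((integrable_const _).indicator mS)
    refine (integral_mono_ae (i1.sub (integrable_const _)).norm i2 h2).trans (le_of_eq ?_)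
    rw [integral_add (integrable_const _) ((integrable_const _).indicator mS), integral_const,
      integral_indicator_const _ mS, smul_eq_mul, smul_eq_mul]
    ring
  have h4 : m ≤ ‖FT μ (0, η)‖ + ‖FT μ (0, η) - m‖ := by
    have h5 := norm_sub_le (FT μ (0, η)) (FT μ (0, η) - m)
    rw [sub_sub_cancel, Complex.norm_real, Real.norm_of_nonneg hm0.le] at h5
    exact h5
  linarith

end Main

end Q297.Rj
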