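import Pool.Agent.Q297.PrePath
import Pool.Agent.Q297.BmExist

/-!
Two-sided Brownian motion: covariance calculus, two-sided Wiener measure on `C(ℝ, ℝ)`, uniqueness
of its law, stationarity of the increments, symmetry, reflection of the increments on an interval.
-/

open MeasureTheory ProbabilityTheory Set Filter Topology
open scoped ENNReal NNReal
open Q297.PathC Q297.Prepend

namespace Q297.TwoS

/-- linear combinations of a Gaussian process -/
lemma gp_lin {Ω S T : Type*} {mΩ : MeasurableSpace Ω} {P : Measure Ω} {Y : S → Ω → ℝ}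
    (hY : IsGaussianProcess Y P) {ι : Type*} [Fintype ι] (k : T → ι → ℝ) (g : T → ι → S) :
    IsGaussianProcess (fun t ω => ∑ i, k t i * Y (g t i) ω) P := by
  classical
  refine hY.of_isGaussianProcess fun t => ⟨Finset.univ.image (g t), ?_⟩
  refine ⟨∑ i, (k t i) • (ContinuousLinearMap.proj (R := ℝ) (φ := fun _ => ℝ)
    (⟨g t i, Finset.mem_image_of_mem _ (Finset.mem_univ i)⟩ : (Finset.univ.image (g t) : Finset S))), ?_⟩
  intro ω
  simp

/-- two-sided Brownian motion pinned at `0` (as a property of the finite-dimensional laws) -/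
structure BM2 {Ω : Type*} {mΩ : MeasurableSpace Ω} (Y : ℝ → Ω → ℝ) (P : Measure Ω) : Prop where
  gauss : IsGaussianProcess Y P
  mean : ∀ t, ∫ ω, Y t ω ∂P = 0
  cov : ∀ s t, cov[Y s, Y t; P] = (|s| + |t| - |s - t|) / 2

variable {Ω : Type*} {mΩ : MeasurableSpace Ω} {P : Measure Ω} {Y : ℝ → Ω → ℝ}

lemma BM2.prob (hY : BM2 Y P) : IsProbabilityMeasure P := hY.gauss.isProbabilityMeasure

lemma BM2.memLp (hY : BM2 Y P) (t : ℝ) : MemLp (Y t) 2 P := (hY.gauss.hasGaussianLaw_eval t).memLp_two

lemma BM2.cov_lin (hY : BM2 Y P) {ι κ : Type*} [Fintype ι] [Fintype κ] (k a : ι → ℝ) (l b : κ → ℝ) :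
    cov[fun ω => ∑ i, k i * Y (a i) ω, fun ω => ∑ j, l j * Y (b j) ω; P] =
      ∑ i, ∑ j, k i * l j * ((|a i| + |b j| - |a i - b j|) / 2) := by
  have := hY.prob
  rw [covariance_fun_sum_fun_sum (fun i => (hY.memLp (a i)).const_mul (k i))
    (fun j => (hY.memLp (b j)).const_mul (l j))]
  refine Finset.sum_congr rfl fun i _ => Finset.sum_congr rfl fun j _ => ?_
  rw [covariance_const_mul_left, covariance_const_mul_right, hY.cov]
  ring

lemma BM2.mean_lin (hY : BM2 Y P) {ι : Type*} [Fintype ι] (k a : ι → ℝ) :
    ∫ ω, ∑ i, k i * Y (a i) ω ∂P = 0 := by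
  rw [integral_finsetSum _ fun i _ => ((hY.gauss.hasGaussianLaw_eval (a i)).integrable.const_mul _)]
  refine Finset.sum_eq_zero fun i _ => ?_
  rw [integral_const_mul, hY.mean, mul_zero]

lemma BM2.lin (hY : BM2 Y P) {ι : Type*} [Fintype ι] (k a : ℝ → ι → ℝ)
    (h : ∀ s t, ∑ i, ∑ j, k s i * k t j * ((|a s i| + |a t j| - |a s i - a t j|) / 2) =
      (|s| + |t| - |s - t|) / 2) : BM2 (fun t ω => ∑ i, k t i * Y (a t i) ω) P :=
  ⟨gp_lin hY.gauss k a, fun t => hY.mean_lin (k t) (a t), fun s t => by rw [hY.cov_lin]; exact h s t⟩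

lemma cov_congr {X X' Z Z' : Ω → ℝ} (h : X =ᵐ[P] X') (h' : Z =ᵐ[P] Z') :
    cov[X, Z; P] = cov[X', Z'; P] := by
  unfold covariance
  rw [integral_congr_ae h, integral_congr_ae h']
  refine integral_congr_ae ?_
  filter_upwards [h, h'] with ω h1 h2
  rw [h1, h2]

lemma BM2.congr {Z : ℝ → Ω → ℝ} (hY : BM2 Y P) (h : ∀ t, Y t =ᵐ[P] Z t) : BM2 Z P :=
  ⟨hY.gauss.congr h, fun t => by rw [← integral_congr_ae (h t)]; exact hY.mean t, fun s t => by
    rw [← hY.cov s t, cov_congr (h s) (h t)]⟩

lemma BM2.zero (hY : BM2 Y P) : ∀ᵐ ω ∂P, Y 0 ω = 0 := by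
  have h := (hY.gauss.hasGaussianLaw_eval 0).map_eq_gaussianReal
  have hv : Var[Y 0; P] = 0 := by
    rw [← covariance_self (hY.gauss.aemeasurable 0), hY.cov]; simp
  rw [hY.mean, hv, Real.toNNReal_zero, gaussianReal_zero_var] at h
  exact HasLaw.ae_eq_of_dirac ⟨hY.gauss.aemeasurable 0, h⟩

/-- covariances of increments -/
lemma BM2.cov_incr (hY : BM2 Y P) (a b c d : ℝ) :
    cov[fun ω => Y a ω - Y b ω, fun ω => Y c ω - Y d ω; P] =
      (|a - d| + |b - c| - |a - c| - |b - d|) / 2 := by
  have h := hY.cov_lin ![1, -1] ![a, b] ![1, -1] ![c, d]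
  simp only [Fin.sum_univ_two, Matrix.cons_val_zero, Matrix.cons_val_one, one_mul, neg_mul,
    mul_neg, mul_one, neg_neg] at h
  simp only [sub_eq_add_neg] at h ⊢
  rw [h]
  ring

lemma BM2.shift (hY : BM2 Y P) (s : ℝ) : BM2 (fun t ω => Y (s + t) ω - Y s ω) P := by
  have h := hY.lin (fun _ => ![1, -1]) (fun t => ![s + t, s]) (by
    intro u t
    simp only [Fin.sum_univ_two, Matrix.cons_val_zero, Matrix.cons_val_one]
    rw [show s + u - (s + t) = u - t by ring, show s + u - s = u by ring,
      show s - (s + t) = -t by ring, abs_neg, sub_self, abs_zero]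
    ring)
  refine h.congr fun t => ae_of_all _ fun ω => ?_
  simp [Fin.sum_univ_two, sub_eq_add_neg]

lemma BM2.rev (hY : BM2 Y P) : BM2 (fun t ω => -Y (-t) ω) P := by
  have h := hY.lin (ι := Fin 1) (fun _ => ![-1]) (fun t => ![-t]) (by
    intro u t
    simp only [Fin.sum_univ_one, Matrix.cons_val_zero]
    rw [abs_neg, abs_neg, show -u - -t = -(u - t) by ring, abs_neg]
    ring)
  refine h.congr fun t => ae_of_all _ fun ω => ?_
  simp

/-- projection on `[p, q]` -/
def pr (p q x : ℝ) : ℝ := max p (min q x)

lemma pr_cont (p q : ℝ) : Continuous (pr p q) := by unfold pr; fun_prop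

lemma pr_mem {p q : ℝ} (h : p ≤ q) (x : ℝ) : pr p q x ∈ Icc p q :=
  ⟨le_max_left _ _, max_le h (min_le_left _ _)⟩

lemma pr_id {p q x : ℝ} (h : x ∈ Icc p q) : pr p q x = x := by
  unfold pr; rw [min_eq_right h.2, max_eq_right h.1]

lemma pr_low {p q x : ℝ} (h : p ≤ q) (hx : x ≤ p) : pr p q x = p := by
  unfold pr; rw [min_eq_right (hx.trans h), max_eq_left hx]

lemma pr_high {p q x : ℝ} (h : p ≤ q) (hx : q ≤ x) : pr p q x = q := by
  unfold pr; rw [min_eq_left hx, max_eq_right h]

lemma pr_dist {p q : ℝ} (h : p ≤ q) (x : ℝ) {z : ℝ} (hz : z ∈ Icc p q) :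
    |x - z| = |x - pr p q x| + |pr p q x - z| := by
  rcases le_total x p with hx | hx
  · rw [pr_low h hx, abs_of_nonpos (by linarith [hz.1] : x - z ≤ 0), abs_of_nonpos (by linarith :
      x - p ≤ 0), abs_of_nonpos (by linarith [hz.1] : p - z ≤ 0)]
    ring
  rcases le_total q x with hx' | hx'
  · rw [pr_high h hx', abs_of_nonneg (by linarith [hz.2] : 0 ≤ x - z), abs_of_nonneg (by linarith :
      0 ≤ x - q), abs_of_nonneg (by linarith [hz.2] : 0 ≤ q - z)]
    ring
  · rw [pr_id ⟨hx, hx'⟩, sub_self, abs_zero, zero_add]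

lemma BM2.reflect (hY : BM2 Y P) {p q : ℝ} (h : p ≤ q) :
    BM2 (fun t ω => Y t ω - 2 * (Y (pr p q t) ω - Y (pr p q 0) ω)) P := by
  have h := hY.lin (fun _ => ![1, -2, 2]) (fun t => ![t, pr p q t, pr p q 0]) (by
    intro s t
    simp only [Fin.sum_univ_three, Matrix.cons_val_zero, Matrix.cons_val_one, Matrix.cons_val]
    have e1 := pr_dist h s (pr_mem h t)
    have e2 := pr_dist h s (pr_mem h 0)
    have e3 := pr_dist h t (pr_mem h s)
    have e4 := pr_dist h t (pr_mem h 0)
    have e5 := pr_dist h 0 (pr_mem h s)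
    have e6 := pr_dist h 0 (pr_mem h t)
    rw [zero_sub, zero_sub, abs_neg, abs_neg] at e5 e6
    rw [abs_sub_comm (pr p q s) t, abs_sub_comm (pr p q 0) t, sub_self, abs_zero]
    rw [abs_sub_comm (pr p q t) (pr p q s)] at e3
    rw [abs_sub_comm (pr p q 0) (pr p q s)] at e5
    rw [abs_sub_comm (pr p q t) (pr p q 0)] at e4
    linarith)
  refine h.congr fun t => ae_of_all _ fun ω => ?_
  simp only [Fin.sum_univ_three, Matrix.cons_val_zero, Matrix.cons_val_one, Matrix.cons_val]
  ring

lemma BM2.pre (hY : BM2 Y P) : IsPreBrownianReal (fun t : ℝ≥0 => Y t) P := by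
  refine (hY.gauss.comp_right (fun t : ℝ≥0 => (t : ℝ))).isPreBrownianReal_of_covariance
    (fun t => hY.mean t) (fun s t hst => ?_)
  have h : (s : ℝ) ≤ t := hst
  show cov[Y s, Y t; P] = s
  rw [hY.cov, abs_of_nonneg (NNReal.coe_nonneg s), abs_of_nonneg (NNReal.coe_nonneg t), abs_of_nonpos (by linarith : (s : ℝ) - t ≤ 0)]
  ring

/-- the increments over the two half lines are independent -/
lemma BM2.indep_halves (hY : BM2 Y P) :
    IndepFun (fun ω (t : ℝ≥0) => Y (-t) ω - Y 0 ω) (fun ω (t : ℝ≥0) => Y t ω - Y 0 ω) P := by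
  apply IsGaussianProcess.indepFun_of_covariance_eq_zero
  · have h := gp_lin hY.gauss (T := ℝ≥0 ⊕ ℝ≥0) (ι := Fin 2) (fun _ => ![1, -1])
      (fun t => ![Sum.elim (fun t : ℝ≥0 => -(t : ℝ)) (fun t : ℝ≥0 => (t : ℝ)) t, 0])
    refine h.congr fun t => ae_of_all _ fun ω => ?_
    rcases t with t | t <;> simp [Fin.sum_univ_two, sub_eq_add_neg]
  · intro t; exact (hY.gauss.aemeasurable _).sub (hY.gauss.aemeasurable _)
  · intro t; exact (hY.gauss.aemeasurable _).sub (hY.gauss.aemeasurable _)
  · intro s t
    rw [hY.cov_incr]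
    have hs := s.2
    have ht := t.2
    rw [abs_of_nonpos (by linarith : -(s : ℝ) - 0 ≤ 0), abs_of_nonpos (by linarith : (0 : ℝ) - t ≤ 0),
      abs_of_nonpos (by linarith : -(s : ℝ) - t ≤ 0), sub_self, abs_zero]
    ring

/-! ### the path space -/

/-- two-sided paths -/
abbrev Path2 := C(ℝ, ℝ)

def th (s : ℝ) (y : Path2) : Path2 := ⟨fun t => y (s + t) - y s, by fun_prop⟩
def rev (y : Path2) : Path2 := ⟨fun t => -y (-t), by fun_prop⟩
def refl (p q : ℝ) (y : Path2) : Path2 :=
  ⟨fun t => y t - 2 * (y (pr p q t) - y (pr p q 0)), by have := pr_cont p q; fun_prop⟩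
def fwd (y : Path2) : Path := ⟨fun t => y t - y 0, by fun_prop⟩
def bwd (y : Path2) : Path := ⟨fun t => y (-t) - y 0, by fun_prop⟩
/-- the two-sided path with the given backward and forward parts -/
def glue (x : Path × Path) : Path2 :=
  ⟨fun t => (x.1 (-t).toNNReal - x.1 0) + (x.2 t.toNNReal - x.2 0), by fun_prop⟩

@[simp] lemma th_apply (s t : ℝ) (y : Path2) : th s y t = y (s + t) - y s := rfl
@[simp] lemma rev_apply (t : ℝ) (y : Path2) : rev y t = -y (-t) := rfl
@[simp] lemma refl_apply (p q t : ℝ) (y : Path2) :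
    refl p q y t = y t - 2 * (y (pr p q t) - y (pr p q 0)) := rfl
@[simp] lemma fwd_apply (t : ℝ≥0) (y : Path2) : fwd y t = y t - y 0 := rfl
@[simp] lemma bwd_apply (t : ℝ≥0) (y : Path2) : bwd y t = y (-t) - y 0 := rfl
@[simp] lemma glue_apply (t : ℝ) (x : Path × Path) :
    glue x t = (x.1 (-t).toNNReal - x.1 0) + (x.2 t.toNNReal - x.2 0) := rfl

lemma th_meas (s : ℝ) : Measurable (th s) :=
  measurable_of_eval fun _ => (measurable_eval _).sub (measurable_eval _)
lemma rev_meas : Measurable rev := measurable_of_eval fun _ => (measurable_eval _).neg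
lemma refl_meas (p q : ℝ) : Measurable (refl p q) := measurable_of_eval fun _ =>
  (measurable_eval _).sub (((measurable_eval _).sub (measurable_eval _)).const_mul _)
lemma fwd_meas : Measurable fwd :=
  measurable_of_eval fun _ => (measurable_eval _).sub (measurable_eval _)
lemma bwd_meas : Measurable bwd :=
  measurable_of_eval fun _ => (measurable_eval _).sub (measurable_eval _)
lemma glue_meas : Measurable glue := measurable_of_eval fun _ =>
  ((((measurable_eval _).comp measurable_fst).sub ((measurable_eval _).comp measurable_fst)).add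
    (((measurable_eval _).comp measurable_snd).sub ((measurable_eval _).comp measurable_snd)))

lemma th_th (s t : ℝ) (y : Path2) : th t (th s y) = th (s + t) y := by
  ext r
  simp only [th_apply, add_assoc]
  ring

lemma glue_bwd_fwd (y : Path2) : glue (bwd y, fwd y) = th 0 y := by
  ext t
  simp only [glue_apply, bwd_apply, fwd_apply, th_apply, NNReal.coe_zero, neg_zero, sub_self,
    sub_zero, zero_add]
  rcases le_total 0 t with h | h
  · rw [Real.toNNReal_of_nonpos (by linarith : -t ≤ 0), Real.coe_toNNReal t h]; simp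
  · rw [Real.toNNReal_of_nonpos h, Real.coe_toNNReal (-t) (by linarith)]; simp

lemma fwd_glue (x : Path × Path) (h2 : x.2 0 = 0) : fwd (glue x) = x.2 := by
  ext t
  have h : (-(t : ℝ)).toNNReal = 0 := Real.toNNReal_of_nonpos (neg_nonpos.2 t.2)
  simp [h2, h]

lemma bwd_glue (x : Path × Path) (h1 : x.1 0 = 0) : bwd (glue x) = x.1 := by
  ext t
  have h : (-(t : ℝ)).toNNReal = 0 := Real.toNNReal_of_nonpos (neg_nonpos.2 t.2)
  simp [h1, h]

/-- two-sided Wiener measure -/
noncomputable def W2 (W : Measure Path) : Measure Path2 := (W.prod W).map glue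

variable {W : Measure Path} (hW : IsBrownianReal (fun (t : ℝ≥0) (x : Path) => x t) W)

include hW

/-- a continuous pre-Brownian process has the law `W` -/
lemma law_unique1 {X : Ω → Path} (hX : Measurable X) (h : IsPreBrownianReal (fun t ω => X ω t) P) :
    P.map X = W := by
  have := isProb hW
  have := h.isGaussianProcess.isProbabilityMeasure
  apply measure_ext
  rw [Measure.map_map measurable_coe hX]
  have h1 : IsProjectiveLimit (P.map ((fun (f : Path) (t : ℝ≥0) => f t) ∘ X)) BrownianReal.projectiveFamily := by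
    intro I
    rw [Measure.map_map (by fun_prop) (measurable_coe.comp hX), ← (h.hasLaw I).map_eq]
    rfl
  have h2 : IsProjectiveLimit (W.map (fun (f : Path) (t : ℝ≥0) => f t)) BrownianReal.projectiveFamily := by
    intro I
    rw [Measure.map_map (by fun_prop) measurable_coe, ← (hW.hasLaw I).map_eq]
    rfl
  exact h1.unique h2

lemma W_zero : ∀ᵐ x ∂W, x 0 = 0 := hW.eval_zero_ae_eq_zero

lemma W2_bm2 : BM2 (fun t (y : Path2) => y t) (W2 W) := by
  classical
  have hp := isProb hW
  -- the process on the product space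
  have hgW := hW.isGaussianProcess
  have hind : IndepFun (fun x : Path × Path => x.1) (fun x : Path × Path => x.2) (W.prod W) :=
    indepFun_prod measurable_id measurable_id
  have hZ : BM2 (fun (t : ℝ) (x : Path × Path) => x.1 (-t).toNNReal + x.2 t.toNNReal) (W.prod W) := by
    have m1 : ∀ t : ℝ≥0, MemLp (fun x : Path × Path => x.1 t) 2 (W.prod W) := fun t =>
      ((hgW.hasGaussianLaw_eval t).memLp_two).comp_fst W
    have m2 : ∀ t : ℝ≥0, MemLp (fun x : Path × Path => x.2 t) 2 (W.prod W) := fun t =>
      ((hgW.hasGaussianLaw_eval t).memLp_two).comp_snd W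
    refine ⟨⟨fun I => ?_⟩, fun t => ?_, fun s t => ?_⟩
    · have hg1 : HasGaussianLaw (fun (x : Path × Path) (i : I) => x.1 (-i.1).toNNReal) (W.prod W) := by
        have h1 := (gp_lin hgW (T := ℝ) (ι := Fin 1) (fun _ => ![1]) (fun t => ![(-t).toNNReal])).hasGaussianLaw I
        have h1' : HasGaussianLaw (fun (x : Path) (i : I) => x (-i.1).toNNReal) W := by
          refine h1.congr (ae_of_all _ fun x => ?_)
          funext i
          simp
        refine ⟨?_⟩
        have e : (fun (x : Path × Path) (i : I) => x.1 (-i.1).toNNReal) =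
          (fun (x : Path) (i : I) => x (-i.1).toNNReal) ∘ Prod.fst := rfl
        have m : Measurable (fun (x : Path) (i : I) => x (-i.1).toNNReal) :=
          measurable_pi_lambda _ fun i => measurable_eval _
        rw [e, ← Measure.map_map m measurable_fst, measurePreserving_fst.map_eq]
        exact h1'.isGaussian_map
      have hg2 : HasGaussianLaw (fun (x : Path × Path) (i : I) => x.2 (i.1).toNNReal) (W.prod W) := by
        have h1 := (gp_lin hgW (T := ℝ) (ι := Fin 1) (fun _ => ![1]) (fun t => ![t.toNNReal])).hasGaussianLaw I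
        have h1' : HasGaussianLaw (fun (x : Path) (i : I) => x (i.1).toNNReal) W := by
          refine h1.congr (ae_of_all _ fun x => ?_)
          funext i
          simp
        refine ⟨?_⟩
        have e : (fun (x : Path × Path) (i : I) => x.2 (i.1).toNNReal) =
          (fun (x : Path) (i : I) => x (i.1).toNNReal) ∘ Prod.snd := rfl
        have m : Measurable (fun (x : Path) (i : I) => x (i.1).toNNReal) :=
          measurable_pi_lambda _ fun i => measurable_eval _
        rw [e, ← Measure.map_map m measurable_snd, measurePreserving_snd.map_eq]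
        exact h1'.isGaussian_map
      have hi : IndepFun (fun (x : Path × Path) (i : I) => x.1 (-i.1).toNNReal)
          (fun (x : Path × Path) (i : I) => x.2 (i.1).toNNReal) (W.prod W) :=
        hind.comp (φ := fun (x : Path) (i : I) => x (-i.1).toNNReal)
          (ψ := fun (x : Path) (i : I) => x (i.1).toNNReal)
          (measurable_pi_lambda _ fun i => measurable_eval _)
          (measurable_pi_lambda _ fun i => measurable_eval _)
      exact (hi.hasGaussianLaw hg1 hg2).add
    · rw [integral_add ((m1 _).integrable (by norm_num)) ((m2 _).integrable (by norm_num))]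
      have e1 : ∫ x : Path × Path, x.1 (-t).toNNReal ∂(W.prod W) = 0 := by
        have := integral_fun_fst (μ := W) (ν := W) (fun x : Path => x (-t).toNNReal)
        rw [this, hW.integral_eval, smul_zero]
      have e2 : ∫ x : Path × Path, x.2 t.toNNReal ∂(W.prod W) = 0 := by
        have := integral_fun_snd (μ := W) (ν := W) (fun x : Path => x t.toNNReal)
        rw [this, hW.integral_eval, smul_zero]
      rw [e1, e2, add_zero]
    · have c1 : ∀ a b : ℝ≥0, cov[fun x : Path × Path => x.1 a, fun x : Path × Path => x.1 b; W.prod W] =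
          min a b := by
        intro a b
        rw [← hW.covariance_fun_eval a b]
        have h1 := covariance_map_fun (μ := W.prod W) (Z := Prod.fst) (X := fun x : Path => x a)
          (Y := fun x : Path => x b) (measurable_eval _).aestronglyMeasurable
          (measurable_eval _).aestronglyMeasurable measurable_fst.aemeasurable
        rw [measurePreserving_fst.map_eq] at h1
        exact h1.symm
      have c2 : ∀ a b : ℝ≥0, cov[fun x : Path × Path => x.2 a, fun x : Path × Path => x.2 b; W.prod W] =
          min a b := by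
        intro a b
        rw [← hW.covariance_fun_eval a b]
        have h1 := covariance_map_fun (μ := W.prod W) (Z := Prod.snd) (X := fun x : Path => x a)
          (Y := fun x : Path => x b) (measurable_eval _).aestronglyMeasurable
          (measurable_eval _).aestronglyMeasurable measurable_snd.aemeasurable
        rw [measurePreserving_snd.map_eq] at h1
        exact h1.symm
      have c3 : ∀ a b : ℝ≥0, cov[fun x : Path × Path => x.1 a, fun x : Path × Path => x.2 b; W.prod W] =
          0 := fun a b => covariance_fst_snd_prod (hgW.hasGaussianLaw_eval a).memLp_two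
            (hgW.hasGaussianLaw_eval b).memLp_two
      have e := covariance_add_left (m1 (-s).toNNReal) (m2 s.toNNReal)
        ((m1 (-t).toNNReal).add (m2 t.toNNReal))
      have e1 := covariance_add_right (m1 (-s).toNNReal) (m1 (-t).toNNReal) (m2 t.toNNReal)
      have e2 := covariance_add_right (m2 s.toNNReal) (m1 (-t).toNNReal) (m2 t.toNNReal)
      have c4 : ∀ a b : ℝ≥0, cov[fun x : Path × Path => x.2 a, fun x : Path × Path => x.1 b; W.prod W] =
          0 := fun a b => by rw [covariance_comm]; exact c3 b a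
      rw [e1, e2, c1, c2, c3, c4] at e
      refine e.trans ?_
      rcases le_total 0 s with hs | hs <;> rcases le_total 0 t with ht | ht
      · rw [Real.toNNReal_of_nonpos (by linarith : -s ≤ 0), Real.toNNReal_of_nonpos (by linarith : -t ≤ 0),
          abs_of_nonneg hs, abs_of_nonneg ht]
        simp only [min_self, NNReal.coe_zero, NNReal.coe_min, Real.coe_toNNReal s hs, Real.coe_toNNReal t ht]
        rcases le_total s t with h | h
        · rw [min_eq_left h, abs_of_nonpos (by linarith)]; ring
        · rw [min_eq_right h, abs_of_nonneg (by linarith)]; ring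
      · rw [Real.toNNReal_of_nonpos (by linarith : -s ≤ 0), Real.toNNReal_of_nonpos (by linarith : t ≤ 0),
          abs_of_nonneg hs, abs_of_nonpos ht, abs_of_nonneg (by linarith)]
        simp
      · rw [Real.toNNReal_of_nonpos (by linarith : s ≤ 0), Real.toNNReal_of_nonpos (by linarith : -t ≤ 0),
          abs_of_nonpos hs, abs_of_nonneg ht, abs_of_nonpos (by linarith)]
        simp
        ring
      · rw [Real.toNNReal_of_nonpos (by linarith : s ≤ 0), Real.toNNReal_of_nonpos (by linarith : t ≤ 0),
          abs_of_nonpos hs, abs_of_nonpos ht]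
        simp only [min_self, NNReal.coe_zero, NNReal.coe_min, Real.coe_toNNReal (-s) (by linarith),
          Real.coe_toNNReal (-t) (by linarith)]
        rcases le_total s t with h | h
        · rw [min_eq_right (by linarith), abs_of_nonpos (by linarith)]; ring
        · rw [min_eq_left (by linarith), abs_of_nonneg (by linarith)]; ring
  have hZ' : BM2 (fun (t : ℝ) (x : Path × Path) => glue x t) (W.prod W) := by
    have z1 : ∀ᵐ x ∂(W.prod W), x.1 0 = 0 := by
      have := (W_zero hW)
      exact measurePreserving_fst.quasiMeasurePreserving.ae this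
    have z2 : ∀ᵐ x ∂(W.prod W), x.2 0 = 0 := by
      have := (W_zero hW)
      exact measurePreserving_snd.quasiMeasurePreserving.ae this
    refine hZ.congr fun t => ?_
    filter_upwards [z1, z2] with x h1 h2
    simp [h1, h2]
  refine ⟨⟨fun I => ⟨?_⟩⟩, fun t => ?_, fun s t => ?_⟩
  · have m : Measurable (fun (y : Path2) => I.restrict (fun t => y t)) :=
      measurable_pi_lambda _ fun i => measurable_eval _
    unfold W2
    rw [Measure.map_map m glue_meas]
    exact (hZ'.gauss.hasGaussianLaw I).isGaussian_map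
  · unfold W2
    rw [integral_map glue_meas.aemeasurable (measurable_eval _).aestronglyMeasurable]
    exact hZ'.mean t
  · unfold W2
    rw [covariance_map_fun (measurable_eval _).aestronglyMeasurable
      (measurable_eval _).aestronglyMeasurable glue_meas.aemeasurable]
    exact hZ'.cov s t

instance W2_prob [IsProbabilityMeasure W] : IsProbabilityMeasure (W2 W) := by
  unfold W2; exact Measure.isProbabilityMeasure_map glue_meas.aemeasurable

/-- the pair of the backward and the forward path -/
lemma law_pair {Y : Ω → Path2} (hY : Measurable Y) (h : BM2 (fun t ω => Y ω t) P) :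
    P.map (fun ω => (bwd (Y ω), fwd (Y ω))) = W.prod W := by
  have hp := h.prob
  have hWp := isProb hW
  have h1 : P.map (fun ω => fwd (Y ω)) = W := by
    refine law_unique1 hW (fwd_meas.comp hY) ?_
    exact ((h.shift 0).pre).congr fun t => ae_of_all _ fun ω => by simp
  have h2 : P.map (fun ω => bwd (Y ω)) = W := by
    refine law_unique1 hW (bwd_meas.comp hY) ?_
    exact ((h.rev.shift 0).pre.neg).congr fun t => ae_of_all _ fun ω => by simp; ring
  have hind : IndepFun (fun ω => bwd (Y ω)) (fun ω => fwd (Y ω)) P := by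
    have h3 := h.indep_halves
    rw [IndepFun_iff_Indep] at h3 ⊢
    have e1 : MeasurableSpace.comap (fun ω => bwd (Y ω)) (instMS : MeasurableSpace Path) =
        MeasurableSpace.comap (fun ω (t : ℝ≥0) => Y ω (-t) - Y ω 0) MeasurableSpace.pi := by
      rw [instMS_eq, MeasurableSpace.comap_comp]; rfl
    have e2 : MeasurableSpace.comap (fun ω => fwd (Y ω)) (instMS : MeasurableSpace Path) =
        MeasurableSpace.comap (fun ω (t : ℝ≥0) => Y ω t - Y ω 0) MeasurableSpace.pi := by
      rw [instMS_eq, MeasurableSpace.comap_comp]; rfl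
    rw [e1, e2]
    exact h3
  have mb : Measurable (fun ω => bwd (Y ω)) := bwd_meas.comp hY
  have mf : Measurable (fun ω => fwd (Y ω)) := fwd_meas.comp hY
  rw [(indepFun_iff_map_prod_eq_prod_map_map mb.aemeasurable mf.aemeasurable).1 hind, h1, h2]

/-- **Uniqueness of the law of two-sided Brownian motion.** -/
lemma law_unique {Y : Ω → Path2} (hY : Measurable Y) (h : BM2 (fun t ω => Y ω t) P) :
    P.map Y = W2 W := by
  unfold W2
  have m : Measurable (fun ω => (bwd (Y ω), fwd (Y ω))) :=
    (bwd_meas.comp hY).prodMk (fwd_meas.comp hY)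
  rw [← law_pair hW hY h, Measure.map_map glue_meas m]
  refine Measure.map_congr ?_
  filter_upwards [h.zero] with ω hω
  simp only [Function.comp, glue_bwd_fwd]
  ext t
  simp [hω]

lemma map_th (s : ℝ) : (W2 W).map (th s) = W2 W :=
  law_unique hW (th_meas s) ((W2_bm2 hW).shift s)

lemma map_rev : (W2 W).map rev = W2 W := law_unique hW rev_meas (W2_bm2 hW).rev

lemma map_refl {p q : ℝ} (h : p ≤ q) : (W2 W).map (refl p q) = W2 W :=
  law_unique hW (refl_meas p q) ((W2_bm2 hW).reflect h)

lemma map_pair : (W2 W).map (fun y => (bwd y, fwd y)) = W.prod W :=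
  law_pair hW measurable_id (W2_bm2 hW)

lemma map_fwd : (W2 W).map fwd = W := by
  have hWp := isProb hW
  have h := congrArg (Measure.map Prod.snd) (map_pair hW)
  rw [Measure.map_map measurable_snd (bwd_meas.prodMk fwd_meas), measurePreserving_snd.map_eq] at h
  exact h

lemma map_bwd : (W2 W).map bwd = W := by
  have hWp := isProb hW
  have h := congrArg (Measure.map Prod.fst) (map_pair hW)
  rw [Measure.map_map measurable_fst (bwd_meas.prodMk fwd_meas), measurePreserving_fst.map_eq] at h
  exact h

end Q297.TwoS
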