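import Pool.Agent.Q297.RjA
import Pool.Agent.Q297.RjB
import Pool.Agent.Q297.DecB
import Pool.Agent.Q297.TwoS
import Pool.Agent.Q297.BmExist

/-!
A time change `V` for which the graph of `B_{V(t)}` supports no Rajchman measure.
-/

open MeasureTheory ProbabilityTheory Set Filter Topology
open scoped ENNReal NNReal
open Q297.PathC Q297.Prepend Q297.TwoS

namespace Q297.Rj

/-- pairs of close times -/
def Kd (δ : ℝ) : Set (ℝ≥0 × ℝ≥0) := {p | p.1 ≤ 1 ∧ p.2 ≤ 1 ∧ dist p.1 p.2 ≤ δ}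

lemma Kd_compact (δ : ℝ) : IsCompact (Kd δ) := by
  have h1 : IsCompact ((Icc (0 : ℝ≥0) 1) ×ˢ (Icc (0 : ℝ≥0) 1)) := isCompact_Icc.prod isCompact_Icc
  refine h1.of_isClosed_subset ?_ fun p hp => ⟨⟨zero_le, hp.1⟩, ⟨zero_le, hp.2.1⟩⟩
  exact (isClosed_le continuous_fst continuous_const).inter
    ((isClosed_le continuous_snd continuous_const).inter
      (isClosed_le (continuous_fst.dist continuous_snd) continuous_const))

/-- paths which move by `κ` within a time `δ` -/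
def Bad (δ κ : ℝ) : Set Path := {x | ∃ p ∈ Kd δ, κ ≤ |x p.1 - x p.2|}

lemma Bad_closed (δ κ : ℝ) : IsClosed (Bad δ κ) := by
  have hK := isCompact_iff_compactSpace.1 (Kd_compact δ)
  have h1 : IsClosed {q : Path × (Kd δ) | κ ≤ |q.1 q.2.1.1 - q.1 q.2.1.2|} := by
    refine isClosed_le continuous_const ?_
    fun_prop
  have h2 := isClosedMap_fst_of_compactSpace (X := Path) (Y := Kd δ) _ h1
  have e : Bad δ κ = Prod.fst '' {q : Path × (Kd δ) | κ ≤ |q.1 q.2.1.1 - q.1 q.2.1.2|} := by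
    ext x
    constructor
    · rintro ⟨p, hp, h⟩
      exact ⟨(x, ⟨p, hp⟩), h, rfl⟩
    · rintro ⟨⟨y, p⟩, h, rfl⟩
      exact ⟨p.1, p.2, h⟩
  rw [e]
  exact h2

lemma Bad_inter {κ : ℝ} (hκ : 0 < κ) : ⋂ n : ℕ, Bad (1 / ((n : ℝ) + 1)) κ = ∅ := by
  rw [eq_empty_iff_forall_notMem]
  intro x hx
  rw [mem_iInter] at hx
  have h1 : UniformContinuousOn (fun t => x t) (Icc (0 : ℝ≥0) 1) :=
    isCompact_Icc.uniformContinuousOn_of_continuous x.continuous.continuousOn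
  rw [Metric.uniformContinuousOn_iff] at h1
  obtain ⟨δ, hδ, h2⟩ := h1 κ hκ
  obtain ⟨n, hn⟩ := exists_nat_one_div_lt hδ
  obtain ⟨p, ⟨hp1, hp2, hp3⟩, h3⟩ := hx n
  have h4 := h2 p.1 ⟨zero_le, hp1⟩ p.2 ⟨zero_le, hp2⟩ (hp3.trans_lt hn)
  rw [Real.dist_eq] at h4
  linarith

lemma exists_delta (W : Measure Path) [IsProbabilityMeasure W] {κ : ℝ} (hκ : 0 < κ) {ε : ℝ≥0∞}
    (hε : 0 < ε) : ∃ δ : ℝ, 0 < δ ∧ W (Bad δ κ) ≤ ε := by
  have h1 : Tendsto (fun n : ℕ => W (Bad (1 / ((n : ℝ) + 1)) κ)) atTop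
      (𝓝 (W (⋂ n : ℕ, Bad (1 / ((n : ℝ) + 1)) κ))) := by
    refine tendsto_measure_iInter_atTop (fun n => (Bad_closed _ _).measurableSet.nullMeasurableSet)
      ?_ ⟨0, measure_ne_top _ _⟩
    intro n n' h x hx
    obtain ⟨p, ⟨hp1, hp2, hp3⟩, h3⟩ := hx
    refine ⟨p, ⟨hp1, hp2, hp3.trans ?_⟩, h3⟩
    apply one_div_le_one_div_of_le (by positivity)
    have : (n : ℝ) ≤ n' := by exact_mod_cast h
    linarith
  rw [Bad_inter hκ, measure_empty] at h1
  obtain ⟨n, hn⟩ := (h1.eventually (gt_mem_nhds hε)).exists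
  exact ⟨1 / ((n : ℝ) + 1), by positivity, hn.le⟩

/-- **Main theorem.** -/
theorem main : ∃ V : ℝ → ℝ≥0, Continuous V ∧ StrictMonoOn V (Icc 0 1) ∧
    ∀ (Ω : Type*) (_ : MeasurableSpace Ω) (P : Measure Ω) (B : ℝ≥0 → Ω → ℝ),
      (∀ t, Measurable (B t)) → IsBrownianReal B P → ∀ᵐ ω ∂P,
        ∀ μ : Measure (ℝ × ℝ), IsFiniteMeasure μ →
          μ.support ⊆ (fun t => (t, B (V t) ω)) '' Icc (0 : ℝ) 1 →
          Tendsto (FT μ) (cocompact (ℝ × ℝ)) (𝓝 0) → μ = 0 := by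
  obtain ⟨W, hW⟩ := Q297.Bm.exists_wiener
  have hWp := isProb hW
  -- the moduli
  set κ : ℕ → ℝ := fun q => 1 / (100 * ((q : ℝ) + 1) * 100 ^ q) with hκ
  have hκ0 : ∀ q, 0 < κ q := fun q => by rw [hκ]; positivity
  choose ℓ hℓ0 hℓ using fun q : ℕ => exists_delta W (hκ0 q) (ε := (2⁻¹ : ℝ≥0∞) ^ q)
    (ENNReal.pow_pos (by simp) q)
  obtain ⟨V, hVc, hVm, hVs, hV01, hV⟩ := exists_V hℓ0
  refine ⟨fun t => (V t).toNNReal, continuous_real_toNNReal.comp hVc, ?_, ?_⟩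
  · intro a ha b hb hab
    have h1 := hVs ha hb hab
    exact (Real.toNNReal_lt_toNNReal_iff ((hV01 a).1.trans_lt h1)).2 h1
  intro Ω mΩ P B hBm hB
  -- Borel-Cantelli
  have hBC : ∀ᵐ x ∂W, ∀ᶠ q in atTop, x ∉ Bad (ℓ q) (κ q) := by
    refine ae_eventually_notMem ?_
    refine ne_top_of_le_ne_top ?_ (ENNReal.tsum_le_tsum hℓ)
    rw [ENNReal.tsum_geometric]
    simp
  obtain ⟨b, mb, hb⟩ := Q297.Dec.exists_mod hBm hB.cont
  have hlaw : P.map b = W := by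
    refine law_unique1 hW mb (hB.toIsPreBrownianReal.congr fun t => ?_)
    filter_upwards [hb] with ω hω
    exact (hω t).symm
  rw [← hlaw] at hBC
  have hBC' := ae_of_ae_map mb.aemeasurable hBC
  filter_upwards [hb, hBC'] with ω h1 h2 μ hμ hsupp hFT
  refine no_rajchman (f := fun t => B (V t).toNNReal ω) ?_ ?_ hFT
  · filter_upwards [Measure.support_mem_ae (μ := μ)] with x hx
    obtain ⟨t, ht, rfl⟩ := hsupp hx
    exact ⟨ht, rfl⟩
  · intro M
    obtain ⟨N, hN⟩ := eventually_atTop.1 h2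
    obtain ⟨q, hq, hq2, hflat⟩ := hV (max M N)
    refine ⟨q, (le_max_left _ _).trans hq, fun k hk t ht t' ht' => ?_⟩
    have h3 := hN q ((le_max_right _ _).trans hq)
    have h4 := hflat k hk
    have hq' : (2 : ℝ) ≤ q := by exact_mod_cast hq2
    have hdist : dist (V t).toNNReal (V t').toNNReal ≤ ℓ q := by
      rw [NNReal.dist_eq, Real.coe_toNNReal _ (hV01 t).1, Real.coe_toNNReal _ (hV01 t').1]
      have a1 := hVm ht.1
      have a2 := hVm ht.2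
      have a3 := hVm ht'.1
      have a4 := hVm ht'.2
      rw [abs_le]
      constructor <;> linarith
    have hle : ∀ t, (V t).toNNReal ≤ 1 := fun t => by
      rw [← Real.toNNReal_one]; exact Real.toNNReal_le_toNNReal (hV01 t).2
    have h5 : ¬ κ q ≤ |b ω (V t).toNNReal - b ω (V t').toNNReal| := fun h =>
      h3 ⟨((V t).toNNReal, (V t').toNNReal), ⟨hle t, hle t', hdist⟩, h⟩
    rw [not_le, h1, h1] at h5
    refine h5.le.trans ?_
    rw [hκ]
    apply one_div_le_one_div_of_le (by positivity)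
    have : (0 : ℝ) < 100 ^ q := by positivity
    nlinarith

end Q297.Rj
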