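import Mathlib

/-! Random closed sets, selections and weak convergence: definitions. -/

open MeasureTheory TopologicalSpace Filter Topology
open scoped ENNReal BoundedContinuousFunction

namespace Q297.Sel

/-- a random closed set: closed values, Effros measurable -/
structure IsRandomClosedSet {Ω E : Type*} [MeasurableSpace Ω] [TopologicalSpace E]
    (X : Ω → Set E) : Prop where
  closed : ∀ ω, IsClosed (X ω)
  measurable : ∀ G : Set E, IsOpen G → MeasurableSet {ω | (X ω ∩ G).Nonempty}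

/-- a selection: a random element on the same probability space which almost surely belongs to
the random set -/
def IsSelection {Ω E : Type*} [MeasurableSpace Ω] [MeasurableSpace E] (P : Measure Ω)
    (X : Ω → Set E) (ξ : Ω → E) : Prop :=
  Measurable ξ ∧ ∀ᵐ ω ∂P, ξ ω ∈ X ω

/-- Weak convergence of random closed sets: for all `x₁, …, x_k` the random vectors
`(ρ(x₁,X_n), …, ρ(x_k,X_n))` in `[0,∞]^k` converge in distribution. -/
def WeakConvSets {E : Type*} [PseudoEMetricSpace E] {Ω : ℕ → Type*} [∀ n, MeasurableSpace (Ω n)]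
    (P : ∀ n, Measure (Ω n)) (X : ∀ n, Ω n → Set E) {Ω' : Type*} [MeasurableSpace Ω']
    (P' : Measure Ω') (X' : Ω' → Set E) : Prop :=
  ∀ (k : ℕ) (x : Fin k → E) (g : (Fin k → ℝ≥0∞) →ᵇ ℝ),
    Tendsto (fun n => ∫ ω, g (fun i => Metric.infEDist (x i) (X n ω)) ∂(P n)) atTop
      (𝓝 (∫ ω, g (fun i => Metric.infEDist (x i) (X' ω)) ∂P'))

/-- convergence in distribution of random elements -/
def WeakConv {E : Type*} [TopologicalSpace E] {Ω : ℕ → Type*} [∀ n, MeasurableSpace (Ω n)]
    (P : ∀ n, Measure (Ω n)) (ξ : ∀ n, Ω n → E) {Ω' : Type*} [MeasurableSpace Ω']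
    (P' : Measure Ω') (ξ' : Ω' → E) : Prop :=
  ∀ g : E →ᵇ ℝ, Tendsto (fun n => ∫ ω, g (ξ n ω) ∂(P n)) atTop (𝓝 (∫ ω, g (ξ' ω) ∂P'))

end Q297.Sel
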