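import Pool.Agent.Q297.SelNear
import Pool.Agent.Q297.SelDefs

open MeasureTheory TopologicalSpace Filter Topology Metric
open scoped ENNReal BoundedContinuousFunction

namespace Q297.Sel

/-! ### The bounded distance -/

section delta

variable {E : Type*} [NormedAddCommGroup E]

/-- bounded distance -/
noncomputable def dl (a b : E) : ℝ := min 1 ‖a - b‖

lemma dl_nonneg (a b : E) : 0 ≤ dl a b := le_min zero_le_one (norm_nonneg _)
lemma dl_le_one (a b : E) : dl a b ≤ 1 := min_le_left _ _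
lemma dl_le (a b : E) : dl a b ≤ ‖a - b‖ := min_le_right _ _
lemma dl_comm (a b : E) : dl a b = dl b a := by unfold dl; rw [norm_sub_rev]
lemma dl_self (a : E) : dl a a = 0 := by unfold dl; simp

lemma dl_triangle (a b c : E) : dl a c ≤ dl a b + dl b c := by
  unfold dl
  have h := norm_sub_le_norm_sub_add_norm_sub a b c
  rcases le_total 1 ‖a - b‖ with h1 | h1
  · rw [min_eq_left h1]
    exact (min_le_left _ _).trans (by linarith [le_min zero_le_one (norm_nonneg (b - c))])
  · rcases le_total 1 ‖b - c‖ with h2 | h2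
    · rw [min_eq_left h2]
      exact (min_le_left _ _).trans (by linarith [le_min zero_le_one (norm_nonneg (a - b))])
    · rw [min_eq_right h1, min_eq_right h2]
      exact (min_le_right _ _).trans h

lemma dl_continuous {Y : Type*} [TopologicalSpace Y] {f g : Y → E} (hf : Continuous f)
    (hg : Continuous g) : Continuous fun y => dl (f y) (g y) := by
  unfold dl; fun_prop

variable [MeasurableSpace E] [BorelSpace E] [SecondCountableTopology E]
variable {Ω : Type*} [MeasurableSpace Ω]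

lemma dl_measurable {f g : Ω → E} (hf : Measurable f) (hg : Measurable g) :
    Measurable fun ω => dl (f ω) (g ω) := by
  unfold dl
  exact measurable_const.min (hf.sub hg).norm

lemma dl_integrable {P : Measure Ω} [IsProbabilityMeasure P] {f g : Ω → E} (hf : Measurable f)
    (hg : Measurable g) : Integrable (fun ω => dl (f ω) (g ω)) P :=
  Integrable.of_bound (dl_measurable hf hg).aestronglyMeasurable 1
    (Eventually.of_forall fun ω => by
      rw [Real.norm_eq_abs, abs_of_nonneg (dl_nonneg _ _)]; exact dl_le_one _ _)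

/-- effect on bounded Lipschitz functions -/
lemma lip_diff {P : Measure Ω} [IsProbabilityMeasure P] {f : E → ℝ} {C L : ℝ} (hC0 : 0 ≤ C)
    (hL0 : 0 ≤ L)
    (hC : ∀ x y, |f x - f y| ≤ C) (hL : ∀ x y, |f x - f y| ≤ L * ‖x - y‖) (hf : Continuous f)
    {U V : Ω → E} (hU : Measurable U) (hV : Measurable V) :
    |∫ ω, f (U ω) ∂P - ∫ ω, f (V ω) ∂P| ≤ (C + L) * ∫ ω, dl (U ω) (V ω) ∂P := by
  have hfb : ∀ x, |f x| ≤ |f 0| + C := by
    intro x
    have h1 := hC x 0
    have h2 := abs_sub_abs_le_abs_sub (f x) (f 0)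
    linarith
  have hi : ∀ W : Ω → E, Measurable W → Integrable (fun ω => f (W ω)) P := fun W hW =>
    Integrable.of_bound (hf.measurable.comp hW).aestronglyMeasurable (|f 0| + C)
      (Eventually.of_forall fun ω => hfb _)
  rw [← integral_sub (hi U hU) (hi V hV), ← integral_const_mul]
  refine (abs_integral_le_integral_abs).trans ?_
  apply integral_mono ((hi U hU).sub (hi V hV)).abs ((dl_integrable hU hV).const_mul _)
  intro ω
  show |f (U ω) - f (V ω)| ≤ (C + L) * dl (U ω) (V ω)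
  unfold dl
  rcases le_total 1 ‖U ω - V ω‖ with h1 | h1
  · rw [min_eq_left h1]
    linarith [hC (U ω) (V ω)]
  · rw [min_eq_right h1]
    have := hL (U ω) (V ω)
    nlinarith [norm_nonneg (U ω - V ω), mul_nonneg hC0 (norm_nonneg (U ω - V ω))]

end delta

/-! ### Distance functions -/

/-- truncation of a sequence -/
noncomputable def TN (N : ℕ) (y : ℕ → ℝ≥0∞) : ℕ → ℝ≥0∞ := fun i => if i < N then y i else 0

lemma TN_continuous (N : ℕ) : Continuous (TN N) := by
  apply continuous_pi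
  intro i
  unfold TN
  by_cases h : i < N
  · simp only [h, if_true]; exact continuous_apply i
  · simp only [h, if_false]; exact continuous_const

lemma TN_TN {N M : ℕ} (h : N ≤ M) (y : ℕ → ℝ≥0∞) : TN N (TN M y) = TN N y := by
  funext i
  unfold TN
  by_cases hi : i < N
  · rw [if_pos hi, if_pos hi, if_pos (hi.trans_le h)]
  · rw [if_neg hi, if_neg hi]

lemma TN_tendsto (y : ℕ → ℝ≥0∞) : Tendsto (fun N => TN N y) atTop (𝓝 y) := by
  rw [tendsto_pi_nhds]
  intro i
  apply tendsto_const_nhds.congr'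
  filter_upwards [eventually_gt_atTop i] with N hN
  unfold TN
  rw [if_pos hN]

variable {E : Type*} [NormedAddCommGroup E] [NormedSpace ℝ E] [CompleteSpace E] [SeparableSpace E]
  [MeasurableSpace E] [BorelSpace E]

/-- distances from the points of the dense sequence -/
noncomputable def Ph (F : Set E) : ℕ → ℝ≥0∞ := fun i => infEDist (denseSeq E i) F

omit [NormedSpace ℝ E] [CompleteSpace E] [SeparableSpace E] [MeasurableSpace E] [BorelSpace E] in
lemma meas_dist {Ω : Type*} [MeasurableSpace Ω] {X : Ω → Set E} (hX : IsRandomClosedSet X) (a : E) :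
    Measurable fun ω => infEDist a (X ω) := by
  apply measurable_of_Iio
  intro r
  have h : (fun ω => infEDist a (X ω)) ⁻¹' Set.Iio r = {ω | (X ω ∩ eball a r).Nonempty} := by
    ext ω
    simp only [Set.mem_preimage, Set.mem_Iio, Set.mem_ofPred_eq]
    rw [infEDist_lt_iff]
    constructor
    · rintro ⟨y, hy, h⟩
      exact ⟨y, hy, by rw [mem_eball, edist_comm]; exact h⟩
    · rintro ⟨y, hy, h⟩
      exact ⟨y, hy, by rw [mem_eball, edist_comm] at h; exact h⟩
  rw [h]
  exact hX.measurable _ isOpen_eball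

omit [NormedSpace ℝ E] [CompleteSpace E] [MeasurableSpace E] [BorelSpace E] in
lemma meas_Ph {Ω : Type*} [MeasurableSpace Ω] {X : Ω → Set E} (hX : IsRandomClosedSet X) :
    Measurable fun ω => Ph (X ω) :=
  measurable_pi_lambda _ fun _ => meas_dist hX _

omit [NormedSpace ℝ E] in
/-- selections near a random element, allowing empty values -/
lemma near' {Ω : Type*} [mΩ : MeasurableSpace Ω] {X : Ω → Set E} (hcl : ∀ ω, IsClosed (X ω))
    (hm : ∀ i, Measurable fun ω => infEDist (denseSeq E i) (X ω)) {c : Ω → E} (hc : Measurable c)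
    {r : ℝ} (hr : 0 < r) :
    ∃ ξ : Ω → E, Measurable ξ ∧ ∀ ω, (X ω).Nonempty → ξ ω ∈ X ω ∧
      (infEDist (c ω) (X ω) < ENNReal.ofReal r → dist (ξ ω) (c ω) ≤ 2 * r) := by
  classical
  set Xt : Ω → Set E := fun ω => if X ω = ∅ then {0} else X ω with hXt
  have h1 : ∀ ω, IsClosed (Xt ω) := by
    intro ω
    simp only [hXt]
    split_ifs
    · exact isClosed_singleton
    · exact hcl ω
  have h2 : ∀ ω, (Xt ω).Nonempty := by
    intro ω
    simp only [hXt]
    split_ifs with h
    · exact Set.singleton_nonempty 0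
    · exact Set.nonempty_iff_ne_empty.2 h
  have h3 : ∀ i, Measurable fun ω => infEDist (denseSeq E i) (Xt ω) := by
    intro i
    have h4 : (fun ω => infEDist (denseSeq E i) (Xt ω)) = fun ω =>
        if infEDist (denseSeq E 0) (X ω) = ⊤ then edist (denseSeq E i) 0
        else infEDist (denseSeq E i) (X ω) := by
      funext ω
      simp only [hXt]
      by_cases h : X ω = ∅
      · rw [if_pos h, if_pos (by rw [h]; exact infEDist_empty), infEDist_singleton]
      · rw [if_neg h, if_neg]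
        exact infEDist_ne_top (Set.nonempty_iff_ne_empty.2 h)
    rw [h4]
    exact Measurable.ite ((hm 0) (measurableSet_singleton ⊤)) measurable_const (hm i)
  obtain ⟨ξ, hξ1, hξ2, hξ3⟩ := near h1 h2 h3 hc hr
  refine ⟨ξ, hξ1, fun ω hω => ?_⟩
  have h5 : Xt ω = X ω := by
    simp only [hXt]
    rw [if_neg (Set.nonempty_iff_ne_empty.1 hω)]
  constructor
  · rw [← h5]; exact hξ2 ω
  · intro h6
    apply hξ3 ω
    rw [h5]; exact h6

section conv

variable {Ω : ℕ → Type*} [∀ n, MeasurableSpace (Ω n)] {P : ∀ n, Measure (Ω n)}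
  [∀ n, IsProbabilityMeasure (P n)] {X : ∀ n, Ω n → Set E}
  {Ω' : Type*} [MeasurableSpace Ω'] {P' : Measure Ω'} [IsProbabilityMeasure P'] {X' : Ω' → Set E}

omit [NormedSpace ℝ E] [CompleteSpace E] [MeasurableSpace E] [BorelSpace E]
  [∀ n, IsProbabilityMeasure (P n)] [IsProbabilityMeasure P'] in
lemma fdd (hconv : WeakConvSets P X P' X') {h : (ℕ → ℝ≥0∞) → ℝ} (hc : Continuous h) (N : ℕ)
    (hN : ∀ y, h (TN N y) = h y) :
    Tendsto (fun n => ∫ ω, h (Ph (X n ω)) ∂(P n)) atTop (𝓝 (∫ ω, h (Ph (X' ω)) ∂P')) := by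
  set ext : (Fin N → ℝ≥0∞) → ℕ → ℝ≥0∞ := fun v i => if hi : i < N then v ⟨i, hi⟩ else 0 with hext
  have hextc : Continuous ext := by
    apply continuous_pi
    intro i
    by_cases hi : i < N
    · simp only [hext, hi, dif_pos]; exact continuous_apply _
    · simp only [hext, hi, dif_neg, not_false_iff]; exact continuous_const
  set G : (Fin N → ℝ≥0∞) →ᵇ ℝ := BoundedContinuousFunction.mkOfCompact ⟨h ∘ ext, hc.comp hextc⟩
    with hG
  have key : ∀ F : Set E, G (fun i : Fin N => infEDist (denseSeq E i) F) = h (Ph F) := by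
    intro F
    rw [hG, BoundedContinuousFunction.mkOfCompact_apply]
    show h (ext (fun i : Fin N => infEDist (denseSeq E i) F)) = h (Ph F)
    rw [← hN (Ph F)]
    congr 1
  have := hconv N (fun i => denseSeq E i) G
  simp only [key] at this
  exact this

omit [NormedSpace ℝ E] [CompleteSpace E] in
lemma factor_aux {Ω' : Type*} [m0 : MeasurableSpace Ω'] {Φ : Ω' → (ℕ → ℝ≥0∞)}
    (hΦ : ∀ s, MeasurableSet[m0] s → ∃ A : Set (ℕ → ℝ≥0∞), MeasurableSet A ∧ Φ ⁻¹' A = s)
    {ξ' : Ω' → E} (hξm : Measurable ξ') {ε : ℝ} (hε : 0 < ε) :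
    ∃ j : (ℕ → ℝ≥0∞) → ℕ, Measurable j ∧ ∀ ω, dist (denseSeq E (j (Φ ω))) (ξ' ω) < ε := by
  classical
  have hex : ∀ ω, ∃ i, dist (denseSeq E i) (ξ' ω) < ε := by
    intro ω
    obtain ⟨i, hi⟩ := (denseRange_denseSeq E).exists_mem_open
      (isOpen_ball (x := ξ' ω) (ε := ε)) ⟨ξ' ω, mem_ball_self (by positivity)⟩
    exact ⟨i, hi⟩
  have hset : ∀ i, MeasurableSet {ω | dist (denseSeq E i) (ξ' ω) < ε} := fun i => by
    have e : {ω | dist (denseSeq E i) (ξ' ω) < ε} = ξ' ⁻¹' ball (denseSeq E i) ε := by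
      ext ω
      simp [mem_ball, dist_comm]
    rw [e]
    exact hξm isOpen_ball.measurableSet
  set I : Ω' → ℕ := fun ω => Nat.find (hex ω) with hI
  have hIm : Measurable I := measurable_find hex hset
  choose A hAm hA using fun i => hΦ {ω | I ω = i} (hIm (measurableSet_singleton i))
  have hex2 : ∀ y : ℕ → ℝ≥0∞, ∃ i, y ∈ A i ∨ ∀ k, y ∉ A k := by
    intro y
    by_cases h : ∃ k, y ∈ A k
    · obtain ⟨k, hk⟩ := h; exact ⟨k, Or.inl hk⟩
    · push Not at h; exact ⟨0, Or.inr h⟩
  set j : (ℕ → ℝ≥0∞) → ℕ := fun y => Nat.find (hex2 y) with hj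
  have hjm : Measurable j := by
    apply measurable_find hex2
    intro k
    have e : {y : ℕ → ℝ≥0∞ | y ∈ A k ∨ ∀ l, y ∉ A l} = A k ∪ ⋂ l, (A l)ᶜ := by
      ext y; simp
    rw [e]
    exact (hAm k).union (MeasurableSet.iInter fun l => (hAm l).compl)
  refine ⟨j, hjm, fun ω => ?_⟩
  have hmem : ∀ k, Φ ω ∈ A k ↔ I ω = k := by
    intro k
    have : ω ∈ Φ ⁻¹' A k ↔ ω ∈ {ω | I ω = k} := by rw [hA k]
    exact this
  have hjI : j (Φ ω) = I ω := by
    have h1 := Nat.find_spec (hex2 (Φ ω))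
    rcases h1 with h1 | h1
    · exact ((hmem _).1 h1).symm
    · exact absurd ((hmem (I ω)).2 rfl) (h1 _)
  rw [hjI]
  exact Nat.find_spec (hex ω)

omit [NormedSpace ℝ E] in
lemma exists_sel_factor {Ω' : Type*} [mΩ : MeasurableSpace Ω'] {X' : Ω' → Set E}
    (hX' : IsRandomClosedSet X') :
    ∃ ξ' : Ω' → E, Measurable ξ' ∧ (∀ ω, (X' ω).Nonempty → ξ' ω ∈ X' ω) ∧
      ∀ ε : ℝ, 0 < ε → ∃ j : (ℕ → ℝ≥0∞) → ℕ, Measurable j ∧
        ∀ ω, dist (denseSeq E (j (Ph (X' ω)))) (ξ' ω) < ε := by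
  have hΦ := meas_Ph hX'
  obtain ⟨ξ', hξm, hξ⟩ := near' (mΩ := MeasurableSpace.comap (fun ω => Ph (X' ω)) inferInstance)
    hX'.closed (fun i => (measurable_pi_apply i).comp (comap_measurable fun ω => Ph (X' ω)))
    (c := fun _ => (0 : E)) (@measurable_const _ _ _ _ _) one_pos
  refine ⟨ξ', hξm.mono hΦ.comap_le le_rfl, fun ω hω => (hξ ω hω).1, fun ε hε => ?_⟩
  exact factor_aux (m0 := MeasurableSpace.comap (fun ω => Ph (X' ω)) inferInstance)
    (Φ := fun ω => Ph (X' ω)) (fun s hs => MeasurableSpace.measurableSet_comap.1 hs) hξm hε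

/-- the selection of the limit and its continuous approximations -/
lemma stepA (hX' : IsRandomClosedSet X') (hne' : ∀ᵐ ω ∂P', (X' ω).Nonempty) :
    ∃ ξ' : Ω' → E, IsSelection P' X' ξ' ∧ ∀ ε : ℝ, 0 < ε → ∃ (g : (ℕ → ℝ≥0∞) → E) (N : ℕ),
      Continuous g ∧ (∀ y, g (TN N y) = g y) ∧ ∫ ω, dl (g (Ph (X' ω))) (ξ' ω) ∂P' ≤ ε := by
  classical
  have hΦ := meas_Ph hX'
  obtain ⟨ξ', hξm', hξ, hfac⟩ := exists_sel_factor hX'
  refine ⟨ξ', ⟨hξm', by filter_upwards [hne'] with ω hω using hξ ω hω⟩, ?_⟩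
  intro ε hε
  obtain ⟨j, hjm, hjd⟩ := hfac (ε / 4) (by positivity)
  set s : (ℕ → ℝ≥0∞) → E := fun y => denseSeq E (j y) with hs
  have hsm : Measurable s := (measurable_from_nat (f := denseSeq E)).comp hjm
  have hsξ : ∀ ω, dl (s (Ph (X' ω))) (ξ' ω) ≤ ε / 4 := by
    intro ω
    refine (dl_le _ _).trans ?_
    rw [← dist_eq_norm]
    exact (hjd ω).le
  -- law of the distances
  set ν : Measure (ℕ → ℝ≥0∞) := P'.map (fun ω => Ph (X' ω)) with hν
  have : IsProbabilityMeasure ν := Measure.isProbabilityMeasure_map hΦ.aemeasurable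
  -- truncation to finitely many values
  set sK : ℕ → (ℕ → ℝ≥0∞) → E := fun K y => if j y ≤ K then s y else 0 with hsK
  have hsKm : ∀ K, Measurable (sK K) := fun K =>
    Measurable.ite (measurableSet_le hjm measurable_const) hsm measurable_const
  have hlimK : Tendsto (fun K => ∫ y, dl (sK K y) (s y) ∂ν) atTop (𝓝 (∫ _y, (0:ℝ) ∂ν)) := by
    apply tendsto_integral_of_dominated_convergence (fun _ => (1:ℝ))
    · intro K; exact (dl_measurable (hsKm K) hsm).aestronglyMeasurable
    · exact integrable_const _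
    · intro K
      exact Eventually.of_forall fun y => by
        rw [Real.norm_eq_abs, abs_of_nonneg (dl_nonneg _ _)]; exact dl_le_one _ _
    · refine Eventually.of_forall fun y => ?_
      apply tendsto_const_nhds.congr'
      filter_upwards [eventually_ge_atTop (j y)] with K hK
      simp only [hsK]
      rw [if_pos hK, dl_self]
  rw [integral_zero] at hlimK
  obtain ⟨K, hK⟩ := (hlimK.eventually_lt_const (show (0:ℝ) < ε / 4 by positivity)).exists
  have hsKi : Integrable (sK K) ν := by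
    apply Integrable.of_bound (hsKm K).aestronglyMeasurable
      (∑ i ∈ Finset.range (K + 1), ‖denseSeq E i‖)
    refine Eventually.of_forall fun y => ?_
    simp only [hsK]
    split_ifs with h
    · exact Finset.single_le_sum (f := fun i => ‖denseSeq E i‖) (fun _ _ => norm_nonneg _)
        (Finset.mem_range.2 (Nat.lt_succ_of_le h))
    · rw [norm_zero]; exact Finset.sum_nonneg fun _ _ => norm_nonneg _
  obtain ⟨g0, hg0, hg0i⟩ := hsKi.exists_boundedContinuous_integral_sub_le (show (0:ℝ) < ε / 4 by positivity)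
  have hg0m : Measurable g0 := g0.continuous.measurable
  have hlimN : Tendsto (fun N => ∫ y, dl (g0 (TN N y)) (g0 y) ∂ν) atTop (𝓝 (∫ _y, (0:ℝ) ∂ν)) := by
    apply tendsto_integral_of_dominated_convergence (fun _ => (1:ℝ))
    · intro N
      exact (dl_measurable (hg0m.comp (TN_continuous N).measurable) hg0m).aestronglyMeasurable
    · exact integrable_const _
    · intro N
      exact Eventually.of_forall fun y => by
        rw [Real.norm_eq_abs, abs_of_nonneg (dl_nonneg _ _)]; exact dl_le_one _ _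
    · refine Eventually.of_forall fun y => ?_
      have h1 : Continuous fun z => dl (g0 z) (g0 y) := dl_continuous g0.continuous continuous_const
      have h2 := (h1.tendsto y).comp (TN_tendsto y)
      rw [dl_self] at h2
      exact h2
  rw [integral_zero] at hlimN
  obtain ⟨N, hN⟩ := (hlimN.eventually_lt_const (show (0:ℝ) < ε / 4 by positivity)).exists
  refine ⟨fun y => g0 (TN N y), N, g0.continuous.comp (TN_continuous N), ?_, ?_⟩
  · intro y
    show g0 (TN N (TN N y)) = g0 (TN N y)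
    rw [TN_TN le_rfl]
  · have hgm : Measurable fun y => g0 (TN N y) := hg0m.comp (TN_continuous N).measurable
    have j1 : Integrable (fun ω => dl (g0 (TN N (Ph (X' ω)))) (s (Ph (X' ω)))) P' :=
      dl_integrable (hgm.comp hΦ) (hsm.comp hΦ)
    have j2 : Integrable (fun ω => dl (g0 (TN N (Ph (X' ω)))) (ξ' ω)) P' :=
      dl_integrable (hgm.comp hΦ) hξm'
    have hstep1 : ∫ ω, dl (g0 (TN N (Ph (X' ω)))) (ξ' ω) ∂P' ≤
        ∫ ω, (dl (g0 (TN N (Ph (X' ω)))) (s (Ph (X' ω))) + ε / 4) ∂P' := by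
      apply integral_mono j2 (j1.add (integrable_const _))
      intro ω
      show dl (g0 (TN N (Ph (X' ω)))) (ξ' ω) ≤ dl (g0 (TN N (Ph (X' ω)))) (s (Ph (X' ω))) + ε / 4
      have h1 := dl_triangle (g0 (TN N (Ph (X' ω)))) (s (Ph (X' ω))) (ξ' ω)
      have h2 := hsξ ω
      linarith
    refine hstep1.trans ?_
    rw [integral_add j1 (integrable_const _),
      integral_const, probReal_univ, one_smul]
    have hmap : ∫ ω, dl (g0 (TN N (Ph (X' ω)))) (s (Ph (X' ω))) ∂P' =
        ∫ y, dl (g0 (TN N y)) (s y) ∂ν := by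
      rw [hν, integral_map hΦ.aemeasurable (dl_measurable hgm hsm).aestronglyMeasurable]
    rw [hmap]
    have i1 : Integrable (fun y => dl (g0 (TN N y)) (g0 y)) ν := dl_integrable hgm hg0m
    have i2 : Integrable (fun y => ‖sK K y - g0 y‖) ν := (hsKi.sub hg0i).norm
    have i3 : Integrable (fun y => dl (sK K y) (s y)) ν := dl_integrable (hsKm K) hsm
    have hstep2 : ∫ y, dl (g0 (TN N y)) (s y) ∂ν ≤
        ∫ y, (dl (g0 (TN N y)) (g0 y) + ‖sK K y - g0 y‖ + dl (sK K y) (s y)) ∂ν := by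
      apply integral_mono (dl_integrable hgm hsm) ((i1.add i2).add i3)
      intro y
      have h1 := dl_triangle (g0 (TN N y)) (g0 y) (s y)
      have h2 := dl_triangle (g0 y) (sK K y) (s y)
      have h3 := dl_le (g0 y) (sK K y)
      rw [norm_sub_rev] at h3
      show _ ≤ dl (g0 (TN N y)) (g0 y) + ‖sK K y - g0 y‖ + dl (sK K y) (s y)
      linarith
    have i12 : Integrable (fun y => dl (g0 (TN N y)) (g0 y) + ‖sK K y - g0 y‖) ν := i1.add i2
    rw [integral_add i12 i3, integral_add i1 i2] at hstep2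
    linarith

omit [NormedSpace ℝ E] [CompleteSpace E] [MeasurableSpace E] [BorelSpace E] in
/-- control of the distance to the random set -/
lemma stepB {g : (ℕ → ℝ≥0∞) → E} (hg : Continuous g) {N : ℕ} (hgN : ∀ y, g (TN N y) = g y)
    {η : ℝ} (hη : 0 < η) :
    ∃ (R : (ℕ → ℝ≥0∞) → ℝ) (N' : ℕ), Continuous R ∧ (∀ y, R (TN N' y) = R y) ∧ (∀ y, 0 ≤ R y) ∧
      (∀ y, R y ≤ 1) ∧
      (∀ F : Set E, min 1 (infEDist (g (Ph F)) F) ≤ ENNReal.ofReal (R (Ph F))) ∧
      (∀ (F : Set E) (a : E), a ∈ F → R (Ph F) ≤ dl (g (Ph F)) a + 2 * η) := by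
  classical
  -- finite net
  have hcomp : IsCompact (Set.range g) := isCompact_range hg
  obtain ⟨t, ht⟩ := hcomp.elim_finite_subcover (fun i : ℕ => ball (denseSeq E i) η)
    (fun i => isOpen_ball) (by
      rintro a _
      obtain ⟨i, hi⟩ := (denseRange_denseSeq E).exists_mem_open
        (isOpen_ball (x := a) (ε := η)) ⟨a, mem_ball_self hη⟩
      rw [Set.mem_iUnion]
      exact ⟨i, by rw [mem_ball, dist_comm]; exact hi⟩)
  set RE : (ℕ → ℝ≥0∞) → ℝ≥0∞ := fun y =>
    min 1 (t.inf fun j => edist (g y) (denseSeq E j) + y j) with hRE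
  have hREc : Continuous RE := by
    simp only [hRE]
    apply continuous_const.min
    have : (fun y : ℕ → ℝ≥0∞ => t.inf fun j => edist (g y) (denseSeq E j) + y j) =
        t.inf (fun j => fun y : ℕ → ℝ≥0∞ => edist (g y) (denseSeq E j) + y j) := by
      funext y
      rw [Finset.inf_apply]
    rw [this]
    apply Continuous.finset_inf
    intro j _
    exact (hg.edist continuous_const).add (continuous_apply j)
  have hREle : ∀ y, RE y ≤ 1 := fun y => min_le_left _ _
  have hREt : ∀ y, RE y ≠ ⊤ := fun y => ne_top_of_le_ne_top ENNReal.one_ne_top (hREle y)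
  refine ⟨fun y => (RE y).toReal, max N (t.sup id + 1), ?_, ?_, ?_, ?_, ?_, ?_⟩
  · rw [continuous_iff_continuousAt]
    intro y
    exact (ENNReal.continuousAt_toReal (hREt y)).comp hREc.continuousAt
  · intro y
    show (RE (TN (max N (t.sup id + 1)) y)).toReal = (RE y).toReal
    congr 1
    simp only [hRE]
    congr 1
    apply Finset.inf_congr rfl
    intro j hj
    have h1 : g (TN (max N (t.sup id + 1)) y) = g y := by
      rw [← hgN (TN (max N (t.sup id + 1)) y), TN_TN (le_max_left _ _), hgN]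
    rw [h1]
    congr 1
    unfold TN
    rw [if_pos]
    have : j ≤ t.sup id := Finset.le_sup (f := id) hj
    exact lt_of_lt_of_le (Nat.lt_succ_of_le this) (le_max_right _ _)
  · intro y; exact ENNReal.toReal_nonneg
  · intro y
    exact ENNReal.toReal_le_of_le_ofReal zero_le_one (by simpa using hREle y)
  · intro F
    rw [ENNReal.ofReal_toReal (hREt _)]
    simp only [hRE]
    apply min_le_min_left
    apply Finset.le_inf
    intro j _
    exact infEDist_le_edist_add_infEDist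
  · intro F a ha
    obtain ⟨j, hj⟩ := Set.mem_iUnion.1 (ht ⟨Ph F, rfl⟩)
    rw [Set.mem_iUnion] at hj
    obtain ⟨hjt, hj⟩ := hj
    rw [mem_ball] at hj
    have h1 : RE (Ph F) ≤ edist (g (Ph F)) (denseSeq E j) + infEDist (denseSeq E j) F :=
      (min_le_right _ _).trans (Finset.inf_le hjt)
    have h2 : infEDist (denseSeq E j) F ≤ edist (denseSeq E j) a := infEDist_le_edist_of_mem ha
    have h3 : RE (Ph F) ≤ ENNReal.ofReal (dist (g (Ph F)) (denseSeq E j) + dist (denseSeq E j) a) := by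
      refine h1.trans ?_
      rw [ENNReal.ofReal_add dist_nonneg dist_nonneg, ← edist_dist, ← edist_dist]
      exact add_le_add le_rfl h2
    have h4 : (RE (Ph F)).toReal ≤ dist (g (Ph F)) (denseSeq E j) + dist (denseSeq E j) a :=
      ENNReal.toReal_le_of_le_ofReal (by positivity) h3
    have h5 : (RE (Ph F)).toReal ≤ 1 :=
      ENNReal.toReal_le_of_le_ofReal zero_le_one (by simpa using hREle (Ph F))
    have h6 : dist (denseSeq E j) a ≤ dist (g (Ph F)) (denseSeq E j) + ‖g (Ph F) - a‖ := by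
      rw [← dist_eq_norm]
      have := dist_triangle_left (denseSeq E j) a (g (Ph F))
      exact this
    show (RE (Ph F)).toReal ≤ _
    unfold dl
    rcases le_total 1 ‖g (Ph F) - a‖ with h7 | h7
    · rw [min_eq_left h7]; linarith
    · rw [min_eq_right h7]; linarith

/-- **Main theorem.** -/
theorem main (hX : ∀ n, IsRandomClosedSet (X n)) (hne : ∀ n, ∀ᵐ ω ∂(P n), (X n ω).Nonempty)
    (hX' : IsRandomClosedSet X') (hne' : ∀ᵐ ω ∂P', (X' ω).Nonempty)
    (hconv : WeakConvSets P X P' X') :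
    ∃ (ξ : ∀ n, Ω n → E) (ξ' : Ω' → E), (∀ n, IsSelection (P n) (X n) (ξ n)) ∧
      IsSelection P' X' ξ' ∧ WeakConv P ξ P' ξ' := by
  classical
  obtain ⟨ξ', hξ', hA⟩ := stepA (P' := P') hX' hne'
  have hpos : ∀ m : ℕ, (0:ℝ) < 1 / (4 * ((m:ℝ) + 1) ^ 2) := fun m => by positivity
  choose g N hgc hgN hgε using fun m : ℕ => hA (1 / (4 * ((m:ℝ) + 1) ^ 2)) (hpos m)
  choose R N' hRc hRN hR0 hR1 hRF hRa using fun m : ℕ => stepB (hgc m) (hgN m) (hpos m)
  have hΦ : ∀ n, Measurable fun ω => Ph (X n ω) := fun n => meas_Ph (hX n)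
  have hΦ' := meas_Ph hX'
  -- the selections for every `m`
  have hsel : ∀ m n : ℕ, ∃ ζ : Ω n → E, Measurable ζ ∧ ∀ ω, (X n ω).Nonempty → ζ ω ∈ X n ω ∧
      dl (ζ ω) (g m (Ph (X n ω))) ≤ 2 * (1 / ((m:ℝ) + 1)) + R m (Ph (X n ω)) * ((m:ℝ) + 1) := by
    intro m n
    obtain ⟨ζ, h1, h2⟩ := near' (hX n).closed (fun i => meas_dist (hX n) _)
      (c := fun ω => g m (Ph (X n ω))) ((hgc m).measurable.comp (hΦ n))
      (r := 1 / ((m:ℝ) + 1)) (by positivity)
    refine ⟨ζ, h1, fun ω hω => ⟨(h2 ω hω).1, ?_⟩⟩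
    have hm1 : (0:ℝ) < (m:ℝ) + 1 := by positivity
    by_cases h3 : infEDist (g m (Ph (X n ω))) (X n ω) < ENNReal.ofReal (1 / ((m:ℝ) + 1))
    · have h4 := (h2 ω hω).2 h3
      rw [dist_eq_norm] at h4
      have h5 := mul_nonneg (hR0 m (Ph (X n ω))) hm1.le
      exact ((dl_le _ _).trans h4).trans (by linarith)
    · rw [not_lt] at h3
      have h4 := hRF m (X n ω)
      have h5 : ENNReal.ofReal (1 / ((m:ℝ) + 1)) ≤ ENNReal.ofReal (R m (Ph (X n ω))) := by
        refine le_trans (le_min ?_ h3) h4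
        rw [ENNReal.ofReal_le_one, div_le_one hm1]
        have : (0:ℝ) ≤ m := by positivity
        linarith
      rw [ENNReal.ofReal_le_ofReal_iff (hR0 m _)] at h5
      have h6 : 1 ≤ R m (Ph (X n ω)) * ((m:ℝ) + 1) := by
        rwa [div_le_iff₀ hm1] at h5
      have h7 : (0:ℝ) ≤ 2 * (1 / ((m:ℝ) + 1)) := by positivity
      exact (dl_le_one _ _).trans (by linarith)
  choose ζ hζm hζ using hsel
  -- conditions for large `n`
  set Q : ℕ → ℕ → Prop := fun m n => (∫ ω, R m (Ph (X n ω)) ∂(P n) ≤ 1 / ((m:ℝ) + 1) ^ 2) ∧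
    ∀ m' ∈ Finset.range (m + 1), ∫ ω, dl (g m (Ph (X n ω))) (g m' (Ph (X n ω))) ∂(P n) ≤
      1 / ((m:ℝ) + 1) + 1 / ((m':ℝ) + 1) with hQ
  have hsq : ∀ m : ℕ, 1 / (4 * ((m:ℝ) + 1) ^ 2) < 1 / ((m:ℝ) + 1) := by
    intro m
    have h0 : (0:ℝ) ≤ m := by positivity
    apply one_div_lt_one_div_of_lt (by positivity)
    nlinarith
  have hQev : ∀ m, ∀ᶠ n in atTop, Q m n := by
    intro m
    have hlim := fdd (P := P) (P' := P') hconv (hRc m) (N' m) (hRN m)
    have hle : ∫ ω, R m (Ph (X' ω)) ∂P' < 1 / ((m:ℝ) + 1) ^ 2 := by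
      have i1 : Integrable (fun ω => dl (g m (Ph (X' ω))) (ξ' ω)) P' :=
        dl_integrable ((hgc m).measurable.comp hΦ') hξ'.1
      have i2 : Integrable (fun ω => R m (Ph (X' ω))) P' :=
        Integrable.of_bound ((hRc m).measurable.comp hΦ').aestronglyMeasurable 1
          (Eventually.of_forall fun ω => by
            rw [Real.norm_eq_abs, abs_of_nonneg (hR0 m _)]; exact hR1 m _)
      have h1 : ∫ ω, R m (Ph (X' ω)) ∂P' ≤
          ∫ ω, (dl (g m (Ph (X' ω))) (ξ' ω) + 2 * (1 / (4 * ((m:ℝ) + 1) ^ 2))) ∂P' := by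
        apply integral_mono_ae i2 (i1.add (integrable_const _))
        filter_upwards [hξ'.2] with ω hω
        exact hRa m (X' ω) (ξ' ω) hω
      rw [integral_add i1 (integrable_const _), integral_const, probReal_univ, one_smul] at h1
      have h2 := hgε m
      have h3 : (0:ℝ) < 1 / ((m:ℝ) + 1) ^ 2 := by positivity
      have h4 : 1 / (4 * ((m:ℝ) + 1) ^ 2) = (1 / 4) * (1 / ((m:ℝ) + 1) ^ 2) := by field_simp
      rw [h4] at h1 h2
      linarith
    have e1 : ∀ᶠ n in atTop, ∫ ω, R m (Ph (X n ω)) ∂(P n) ≤ 1 / ((m:ℝ) + 1) ^ 2 :=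
      (hlim.eventually_lt_const hle).mono fun n h => h.le
    have e2 : ∀ m' ∈ Finset.range (m + 1), ∀ᶠ n in atTop,
        ∫ ω, dl (g m (Ph (X n ω))) (g m' (Ph (X n ω))) ∂(P n) ≤
          1 / ((m:ℝ) + 1) + 1 / ((m':ℝ) + 1) := by
      intro m' _
      have hlim2 := fdd (P := P) (P' := P') hconv
        (h := fun y => dl (g m y) (g m' y)) (dl_continuous (hgc m) (hgc m')) (max (N m) (N m')) (by
          intro y
          have a1 : g m (TN (max (N m) (N m')) y) = g m y := by
            rw [← hgN m (TN (max (N m) (N m')) y), TN_TN (le_max_left _ _), hgN]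
          have a2 : g m' (TN (max (N m) (N m')) y) = g m' y := by
            rw [← hgN m' (TN (max (N m) (N m')) y), TN_TN (le_max_right _ _), hgN]
          rw [a1, a2])
      have hle2 : ∫ ω, dl (g m (Ph (X' ω))) (g m' (Ph (X' ω))) ∂P' <
          1 / ((m:ℝ) + 1) + 1 / ((m':ℝ) + 1) := by
        have i1 : Integrable (fun ω => dl (g m (Ph (X' ω))) (ξ' ω)) P' :=
          dl_integrable ((hgc m).measurable.comp hΦ') hξ'.1
        have i2 : Integrable (fun ω => dl (g m' (Ph (X' ω))) (ξ' ω)) P' :=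
          dl_integrable ((hgc m').measurable.comp hΦ') hξ'.1
        have i3 : Integrable (fun ω => dl (g m (Ph (X' ω))) (g m' (Ph (X' ω)))) P' :=
          dl_integrable ((hgc m).measurable.comp hΦ') ((hgc m').measurable.comp hΦ')
        have h1 : ∫ ω, dl (g m (Ph (X' ω))) (g m' (Ph (X' ω))) ∂P' ≤
            ∫ ω, (dl (g m (Ph (X' ω))) (ξ' ω) + dl (g m' (Ph (X' ω))) (ξ' ω)) ∂P' := by
          apply integral_mono i3 (i1.add i2)
          intro ω
          have h2 := dl_triangle (g m (Ph (X' ω))) (ξ' ω) (g m' (Ph (X' ω)))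
          rw [dl_comm (ξ' ω)] at h2
          exact h2
        rw [integral_add i1 i2] at h1
        have h2 := hgε m
        have h3 := hgε m'
        have h4 := hsq m
        have h5 := hsq m'
        linarith
      exact (hlim2.eventually_lt_const hle2).mono fun n h => h.le
    filter_upwards [e1, (Finset.eventually_all _).2 e2] with n h1 h2
    exact ⟨h1, h2⟩
  -- diagonal sequence
  have hS : ∀ n, DecidablePred fun m => ∀ n' ≥ n, Q m n' := fun n => Classical.decPred _
  set mn : ℕ → ℕ := fun n => Nat.findGreatest (fun m => ∀ n' ≥ n, Q m n') n with hmn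
  have hmn_large : ∀ M, ∀ᶠ n in atTop, M ≤ mn n := by
    intro M
    obtain ⟨n0, hn0⟩ := eventually_atTop.1 (hQev M)
    filter_upwards [eventually_ge_atTop (max n0 M)] with n hn
    apply Nat.le_findGreatest ((le_max_right _ _).trans hn)
    intro n' hn'
    exact hn0 n' (((le_max_left _ _).trans hn).trans hn')
  have hmn_Q : ∀ᶠ n in atTop, Q (mn n) n := by
    obtain ⟨n0, hn0⟩ := eventually_atTop.1 (hQev 0)
    filter_upwards [eventually_ge_atTop n0] with n hn
    have h1 : (fun m => ∀ n' ≥ n, Q m n') (mn n) :=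
      Nat.findGreatest_spec (P := fun m => ∀ n' ≥ n, Q m n') (m := 0) (Nat.zero_le n)
        (fun n' hn' => hn0 n' (hn.trans hn'))
    exact h1 n le_rfl
  refine ⟨fun n => ζ (mn n) n, ξ', fun n => ⟨hζm _ _, ?_⟩, hξ', ?_⟩
  · filter_upwards [hne n] with ω hω
    exact (hζ (mn n) n ω hω).1
  -- convergence for Lipschitz functions
  have hLip : ∀ f : E → ℝ, (∃ C : ℝ, ∀ x y, dist (f x) (f y) ≤ C) → (∃ L, LipschitzWith L f) →
      Tendsto (fun n => ∫ ω, f (ζ (mn n) n ω) ∂(P n)) atTop (𝓝 (∫ ω, f (ξ' ω) ∂P')) := by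
    rintro f ⟨C, hC⟩ ⟨L, hL⟩
    have hC0 : 0 ≤ C := dist_nonneg.trans (hC 0 0)
    have hC' : ∀ x y, |f x - f y| ≤ C := fun x y => by rw [← Real.dist_eq]; exact hC x y
    have hL' : ∀ x y, |f x - f y| ≤ L * ‖x - y‖ := fun x y => by
      rw [← Real.dist_eq, ← dist_eq_norm]; exact hL.dist_le_mul x y
    have hfc : Continuous f := hL.continuous
    set K : ℝ := C + L with hK
    have hK0 : 0 ≤ K := by
      rw [hK]; have : (0:ℝ) ≤ L := L.2; linarith
    rw [Metric.tendsto_atTop']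
    intro ε hε
    -- choose `m'`
    obtain ⟨m', hm'⟩ := exists_nat_gt (8 * K / ε)
    have hm'1 : K * (8 / ((m':ℝ) + 1)) < ε := by
      have h0 : (0:ℝ) < (m':ℝ) + 1 := by positivity
      rw [div_lt_iff₀ hε] at hm'
      rw [mul_div_assoc', div_lt_iff₀ h0]
      nlinarith
    have hlim3 := fdd (P := P) (P' := P') hconv
      (h := fun y => f (g m' y)) (hfc.comp (hgc m')) (N m') (fun y => by rw [hgN m' y])
    rw [Metric.tendsto_atTop'] at hlim3
    obtain ⟨n1, hn1⟩ := hlim3 (ε - K * (8 / ((m':ℝ) + 1))) (by linarith)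
    obtain ⟨n2, hn2⟩ := eventually_atTop.1 ((hmn_large m').and hmn_Q)
    refine ⟨max n1 n2, fun n hn => ?_⟩
    have hnn1 := hn1 n ((le_max_left _ _).trans_lt hn)
    obtain ⟨hbig, hQn⟩ := hn2 n ((le_max_right _ _).trans hn.le)
    set m := mn n with hm
    have hm0 : (0:ℝ) < (m:ℝ) + 1 := by positivity
    have hm0' : (0:ℝ) < (m':ℝ) + 1 := by positivity
    have hmm' : 1 / ((m:ℝ) + 1) ≤ 1 / ((m':ℝ) + 1) := by
      apply one_div_le_one_div_of_le hm0'
      have : (m':ℝ) ≤ m := by exact_mod_cast hbig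
      linarith
    -- first difference
    have d1 : |∫ ω, f (ζ m n ω) ∂(P n) - ∫ ω, f (g m (Ph (X n ω))) ∂(P n)| ≤
        K * (3 * (1 / ((m':ℝ) + 1))) := by
      have h1 := lip_diff (P := P n) hC0 L.2 hC' hL' hfc (hζm m n)
        ((hgc m).measurable.comp (hΦ n))
      refine h1.trans (mul_le_mul_of_nonneg_left ?_ hK0)
      have i1 : Integrable (fun ω => dl (ζ m n ω) (g m (Ph (X n ω)))) (P n) :=
        dl_integrable (hζm m n) ((hgc m).measurable.comp (hΦ n))
      have i2 : Integrable (fun ω => R m (Ph (X n ω))) (P n) :=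
        Integrable.of_bound ((hRc m).measurable.comp (hΦ n)).aestronglyMeasurable 1
          (Eventually.of_forall fun ω => by
            rw [Real.norm_eq_abs, abs_of_nonneg (hR0 m _)]; exact hR1 m _)
      have h2 : ∫ ω, dl (ζ m n ω) (g m (Ph (X n ω))) ∂(P n) ≤
          ∫ ω, (2 * (1 / ((m:ℝ) + 1)) + R m (Ph (X n ω)) * ((m:ℝ) + 1)) ∂(P n) := by
        apply integral_mono_ae i1 ((integrable_const _).add (i2.mul_const _))
        filter_upwards [hne n] with ω hω
        exact (hζ m n ω hω).2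
      rw [integral_add (integrable_const _) (i2.mul_const _), integral_const, probReal_univ,
        one_smul, integral_mul_const] at h2
      have h3 : (∫ ω, R m (Ph (X n ω)) ∂(P n)) * ((m:ℝ) + 1) ≤ 1 / ((m:ℝ) + 1) := by
        have h4 := mul_le_mul_of_nonneg_right hQn.1 hm0.le
        refine h4.trans (le_of_eq ?_)
        field_simp
      have h5 : ∫ ω, dl (ζ m n ω) (g m (Ph (X n ω))) ∂(P n) ≤ 3 * (1 / ((m':ℝ) + 1)) := by
        linarith
      exact h5
    have d2 : |∫ ω, f (g m (Ph (X n ω))) ∂(P n) - ∫ ω, f (g m' (Ph (X n ω))) ∂(P n)| ≤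
        K * (2 * (1 / ((m':ℝ) + 1))) := by
      have h1 := lip_diff (P := P n) hC0 L.2 hC' hL' hfc ((hgc m).measurable.comp (hΦ n))
        ((hgc m').measurable.comp (hΦ n))
      refine h1.trans (mul_le_mul_of_nonneg_left ?_ hK0)
      have h2 := hQn.2 m' (Finset.mem_range.2 (Nat.lt_succ_of_le hbig))
      have h3 : ∫ ω, dl (g m (Ph (X n ω))) (g m' (Ph (X n ω))) ∂(P n) ≤
        2 * (1 / ((m':ℝ) + 1)) := by linarith
      exact h3
    have d3 : |∫ ω, f (g m' (Ph (X' ω))) ∂P' - ∫ ω, f (ξ' ω) ∂P'| ≤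
        K * (1 / ((m':ℝ) + 1)) := by
      have h1 := lip_diff (P := P') hC0 L.2 hC' hL' hfc ((hgc m').measurable.comp hΦ') hξ'.1
      refine h1.trans (mul_le_mul_of_nonneg_left ?_ hK0)
      exact (hgε m').trans (hsq m').le
    rw [Real.dist_eq] at hnn1 ⊢
    have e1 : K * (8 / ((m':ℝ) + 1)) = 8 * (K * (1 / ((m':ℝ) + 1))) := by ring
    have e2 : 0 ≤ K * (1 / ((m':ℝ) + 1)) := by positivity
    have tri : |∫ ω, f (ζ m n ω) ∂(P n) - ∫ ω, f (ξ' ω) ∂P'| ≤
        |∫ ω, f (ζ m n ω) ∂(P n) - ∫ ω, f (g m (Ph (X n ω))) ∂(P n)| +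
        |∫ ω, f (g m (Ph (X n ω))) ∂(P n) - ∫ ω, f (g m' (Ph (X n ω))) ∂(P n)| +
        |∫ ω, f (g m' (Ph (X n ω))) ∂(P n) - ∫ ω, f (g m' (Ph (X' ω))) ∂P'| +
        |∫ ω, f (g m' (Ph (X' ω))) ∂P' - ∫ ω, f (ξ' ω) ∂P'| := by
      have t1 := abs_sub_le (∫ ω, f (ζ m n ω) ∂(P n)) (∫ ω, f (g m (Ph (X n ω))) ∂(P n))
        (∫ ω, f (ξ' ω) ∂P')
      have t2 := abs_sub_le (∫ ω, f (g m (Ph (X n ω))) ∂(P n))
        (∫ ω, f (g m' (Ph (X n ω))) ∂(P n)) (∫ ω, f (ξ' ω) ∂P')
      have t3 := abs_sub_le (∫ ω, f (g m' (Ph (X n ω))) ∂(P n))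
        (∫ ω, f (g m' (Ph (X' ω))) ∂P') (∫ ω, f (ξ' ω) ∂P')
      linarith
    rw [e1] at hnn1
    refine tri.trans_lt ?_
    linarith
  -- all bounded continuous functions
  have hξm' : Measurable ξ' := hξ'.1
  let μs : ℕ → ProbabilityMeasure E := fun n => ⟨(P n).map (ζ (mn n) n),
      Measure.isProbabilityMeasure_map (hζm _ _).aemeasurable⟩
  let μ' : ProbabilityMeasure E := ⟨P'.map ξ', Measure.isProbabilityMeasure_map hξm'.aemeasurable⟩
  have hμs : ∀ n, (μs n : Measure E) = (P n).map (ζ (mn n) n) := fun n => rfl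
  have hμ' : (μ' : Measure E) = P'.map ξ' := rfl
  have hlaw : Tendsto μs atTop (𝓝 μ') := by
    rw [tendsto_iff_forall_lipschitz_integral_tendsto]
    rintro f hf1 ⟨L, hf2⟩
    have h1 := hLip f hf1 ⟨L, hf2⟩
    have hfm : Measurable f := hf2.continuous.measurable
    rw [hμ', integral_map hξm'.aemeasurable hfm.aestronglyMeasurable]
    refine h1.congr fun n => ?_
    rw [hμs, integral_map (hζm _ _).aemeasurable hfm.aestronglyMeasurable]
  intro f
  have h2 := (ProbabilityMeasure.tendsto_iff_forall_integral_tendsto.1 hlaw) f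
  have hfm : Measurable f := f.continuous.measurable
  rw [hμ', integral_map hξm'.aemeasurable hfm.aestronglyMeasurable] at h2
  refine h2.congr fun n => ?_
  rw [hμs, integral_map (hζm _ _).aemeasurable hfm.aestronglyMeasurable]

end conv

end Q297.Sel
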