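import Mathlib

/-! Measurable selections of random closed sets, close to a given random element. -/

open MeasureTheory TopologicalSpace Filter Topology Metric
open scoped ENNReal

namespace Q297.Sel

variable {E : Type*} [MetricSpace E] [CompleteSpace E] [SeparableSpace E] [Nonempty E]
  [MeasurableSpace E] [BorelSpace E]
variable {Ω : Type*} [mΩ : MeasurableSpace Ω]

/-- measurability of the distance of a random point -/
lemma measurable_infEDist_comp {X : Ω → Set E}
    (hm : ∀ i, Measurable fun ω => infEDist (denseSeq E i) (X ω)) {c : Ω → E} (hc : Measurable c) :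
    Measurable fun ω => infEDist (c ω) (X ω) := by
  have h : (fun ω => infEDist (c ω) (X ω)) =
      fun ω => ⨅ i, (edist (c ω) (denseSeq E i) + infEDist (denseSeq E i) (X ω)) := by
    funext ω
    apply le_antisymm
    · exact le_iInf fun i => infEDist_le_edist_add_infEDist
    · refine ENNReal.le_of_forall_pos_le_add fun ε hε hfin => ?_
      obtain ⟨i, hi⟩ := (denseRange_denseSeq E).exists_mem_open
        (isOpen_eball (x := c ω) (ε := (ε : ℝ≥0∞) / 2)) ⟨c ω, mem_eball_self (by
          simpa using hε.ne')⟩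
      refine (iInf_le _ i).trans ?_
      have h1 : edist (denseSeq E i) (c ω) < (ε : ℝ≥0∞) / 2 := hi
      have h2 : infEDist (denseSeq E i) (X ω) ≤ infEDist (c ω) (X ω) + edist (denseSeq E i) (c ω) :=
        infEDist_le_infEDist_add_edist
      rw [edist_comm] at h2
      rw [edist_comm] at h1
      calc edist (c ω) (denseSeq E i) + infEDist (denseSeq E i) (X ω)
          ≤ (ε : ℝ≥0∞) / 2 + (infEDist (c ω) (X ω) + (ε : ℝ≥0∞) / 2) :=
            add_le_add h1.le (h2.trans (add_le_add le_rfl h1.le))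
        _ = infEDist (c ω) (X ω) + ((ε : ℝ≥0∞) / 2 + (ε : ℝ≥0∞) / 2) := by ring
        _ = _ := by rw [ENNReal.add_halves]
  rw [h]
  exact Measurable.iInf fun i => (hc.edist measurable_const).add (hm i)

/-- one refinement step -/
lemma step {X : Ω → Set E}
    (hm : ∀ i, Measurable fun ω => infEDist (denseSeq E i) (X ω)) {u : Ω → E} (hu : Measurable u)
    {r : ℝ} (hr : 0 < r) (h : ∀ ω, infEDist (u ω) (X ω) < ENNReal.ofReal r) :
    ∃ v : Ω → E, Measurable v ∧ (∀ ω, infEDist (v ω) (X ω) < ENNReal.ofReal (r / 2)) ∧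
      ∀ ω, dist (u ω) (v ω) ≤ r := by
  classical
  have hex : ∀ ω, ∃ i, infEDist (denseSeq E i) (X ω) < ENNReal.ofReal (r / 2) ∧
      edist (denseSeq E i) (u ω) < ENNReal.ofReal r := by
    intro ω
    obtain ⟨y, hy, hyr⟩ := infEDist_lt_iff.1 (h ω)
    have hopen : IsOpen (eball y (ENNReal.ofReal (r / 2)) ∩ eball (u ω) (ENNReal.ofReal r)) :=
      isOpen_eball.inter isOpen_eball
    obtain ⟨i, hi⟩ := (denseRange_denseSeq E).exists_mem_open hopen
      ⟨y, mem_eball_self (by positivity), by
        rw [mem_eball, edist_comm]; exact hyr⟩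
    refine ⟨i, ?_, hi.2⟩
    exact lt_of_le_of_lt (infEDist_le_edist_of_mem hy) hi.1
  have hmeas : ∀ i, MeasurableSet {ω | infEDist (denseSeq E i) (X ω) < ENNReal.ofReal (r / 2) ∧
      edist (denseSeq E i) (u ω) < ENNReal.ofReal r} := by
    intro i
    exact (measurableSet_lt (hm i) measurable_const).inter
      (measurableSet_lt (measurable_const.edist hu) measurable_const)
  refine ⟨fun ω => denseSeq E (Nat.find (hex ω)), ?_, ?_, ?_⟩
  · exact (measurable_from_nat (f := denseSeq E)).comp (measurable_find hex hmeas)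
  · intro ω
    exact (Nat.find_spec (hex ω)).1
  · intro ω
    have h1 := (Nat.find_spec (hex ω)).2
    rw [edist_comm, edist_dist, ENNReal.ofReal_lt_ofReal_iff hr] at h1
    exact h1.le

/-- **Selections close to a given random element.** -/
theorem near {X : Ω → Set E} (hcl : ∀ ω, IsClosed (X ω)) (hne : ∀ ω, (X ω).Nonempty)
    (hm : ∀ i, Measurable fun ω => infEDist (denseSeq E i) (X ω)) {c : Ω → E} (hc : Measurable c)
    {r : ℝ} (hr : 0 < r) :
    ∃ ξ : Ω → E, Measurable ξ ∧ (∀ ω, ξ ω ∈ X ω) ∧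
      ∀ ω, infEDist (c ω) (X ω) < ENNReal.ofReal r → dist (ξ ω) (c ω) ≤ 2 * r := by
  classical
  -- starting point
  have hex : ∀ ω, ∃ i, infEDist (denseSeq E i) (X ω) < ENNReal.ofReal r := by
    intro ω
    obtain ⟨y, hy⟩ := hne ω
    obtain ⟨i, hi⟩ := (denseRange_denseSeq E).exists_mem_open
      (isOpen_eball (x := y) (ε := ENNReal.ofReal r)) ⟨y, mem_eball_self (by positivity)⟩
    exact ⟨i, lt_of_le_of_lt (infEDist_le_edist_of_mem hy) hi⟩
  have hset : MeasurableSet {ω | infEDist (c ω) (X ω) < ENNReal.ofReal r} :=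
    measurableSet_lt (measurable_infEDist_comp hm hc) measurable_const
  set u0 : Ω → E := fun ω => if infEDist (c ω) (X ω) < ENNReal.ofReal r then c ω
    else denseSeq E (Nat.find (hex ω)) with hu0
  have hu0m : Measurable u0 := by
    apply Measurable.ite hset hc
    exact (measurable_from_nat (f := denseSeq E)).comp
      (measurable_find hex fun i => measurableSet_lt (hm i) measurable_const)
  have hu0r : ∀ ω, infEDist (u0 ω) (X ω) < ENNReal.ofReal r := by
    intro ω
    simp only [hu0]
    split_ifs with h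
    · exact h
    · exact Nat.find_spec (hex ω)
  -- iteration
  set T := fun k : ℕ => {u : Ω → E // Measurable u ∧
    ∀ ω, infEDist (u ω) (X ω) < ENNReal.ofReal (r / 2 ^ k)} with hT
  have hstep : ∀ k (u : T k), ∃ v : T (k + 1), ∀ ω, dist (u.1 ω) (v.1 ω) ≤ r / 2 ^ k := by
    intro k u
    obtain ⟨v, hv1, hv2, hv3⟩ := step hm u.2.1 (r := r / 2 ^ k) (by positivity) u.2.2
    refine ⟨⟨v, hv1, ?_⟩, hv3⟩
    intro ω
    have := hv2 ω
    rwa [div_div, ← pow_succ] at this
  choose nxt hnxt using hstep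
  let seq : (k : ℕ) → T k := fun k =>
    Nat.rec (⟨u0, hu0m, by simpa using hu0r⟩ : T 0) (fun k u => nxt k u) k
  have hseq : ∀ k ω, dist ((seq k).1 ω) ((seq (k + 1)).1 ω) ≤ (2 * r) / 2 / 2 ^ k := by
    intro k ω
    have := hnxt k (seq k) ω
    have e : (2 * r) / 2 / 2 ^ k = r / 2 ^ k := by ring
    rw [e]
    exact this
  have hcau : ∀ ω, CauchySeq fun k => (seq k).1 ω := fun ω =>
    cauchySeq_of_le_geometric_two (hseq · ω)
  choose ξ hξ using fun ω => cauchySeq_tendsto_of_complete (hcau ω)
  refine ⟨ξ, ?_, ?_, ?_⟩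
  · exact measurable_of_tendsto_metrizable (fun k => (seq k).2.1) (tendsto_pi_nhds.2 hξ)
  · intro ω
    rw [mem_iff_infEDist_zero_of_closed (hcl ω)]
    have h1 : Tendsto (fun k => infEDist ((seq k).1 ω) (X ω)) atTop (𝓝 (infEDist (ξ ω) (X ω))) :=
      (continuous_infEDist.tendsto _).comp (hξ ω)
    have h2 : Tendsto (fun k : ℕ => ENNReal.ofReal (r / 2 ^ k)) atTop (𝓝 0) := by
      rw [← ENNReal.ofReal_zero]
      apply ENNReal.tendsto_ofReal
      have := tendsto_pow_atTop_nhds_zero_of_lt_one (r := (1/2:ℝ)) (by norm_num) (by norm_num)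
      have h3 := this.const_mul r
      simp only [mul_zero] at h3
      refine h3.congr fun k => ?_
      rw [one_div, inv_pow]
      rfl
    exact le_antisymm (le_of_tendsto_of_tendsto' h1 h2 fun k => ((seq k).2.2 ω).le) bot_le
  · intro ω hω
    have h1 := dist_le_of_le_geometric_two_of_tendsto₀ (hseq · ω) (hξ ω)
    have h2 : (seq 0).1 ω = c ω := by
      show u0 ω = c ω
      simp only [hu0]
      rw [if_pos hω]
    rw [h2, dist_comm] at h1
    exact h1

end Q297.Sel
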