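import Pool.Agent.Q297.DecF

/-!
Strong Markov property of Wiener measure, at a time which is determined by the past, and exit
times from the interval `(-1, 1)`.
-/

open MeasureTheory ProbabilityTheory Set Filter Topology
open scoped ENNReal NNReal
open Q297.PathC Q297.Prepend Q297.TwoS Q297.Dec

namespace Q297.Spn

variable {W : Measure Path}

lemma shift_meas2 {S : Path → ℝ≥0} (hS : Measurable S) : Measurable (fun x => shift (S x) x) := by
  refine measurable_of_eval fun t => ?_
  simp only [shift_apply]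
  exact (ev_meas1.comp ((hS.add_const t).prodMk measurable_id)).sub
    (ev_meas1.comp (hS.prodMk measurable_id))

lemma xi_meas {S : Path → ℝ≥0} (hS : Measurable S) : Measurable (fun x : Path => (S x, x (S x))) :=
  hS.prodMk (ev_meas1.comp (hS.prodMk measurable_id))

lemma indep_stop_shift (hW : IsBrownianReal (fun (t : ℝ≥0) (x : Path) => x t) W) (q : ℝ≥0)
    {D C : Set Path} (hD : MeasurableSet D) (hC : MeasurableSet C) :
    W (stop q ⁻¹' D ∩ shift q ⁻¹' C) = W (stop q ⁻¹' D) * W C := by
  have hWp := isProb hW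
  have h := congrArg (fun μ : Measure (Path × Path) => μ (D ×ˢ C)) (stop_shift hW q)
  rw [Measure.map_apply ((stop_meas1 q).prodMk (measurable_shift q)) (hD.prod hC),
    Measure.prod_prod, Measure.map_apply (stop_meas1 q) hD] at h
  exact h

/-- strong Markov property, for a time `S` which is determined by the past -/
theorem strong (hW : IsBrownianReal (fun (t : ℝ≥0) (x : Path) => x t) W) {S : Path → ℝ≥0}
    (hS : Measurable S) {V : ℝ≥0 → Set Path} (hV : ∀ q, MeasurableSet (V q))
    (h1 : ∀ᵐ x ∂W, ∀ q, (S x < q ↔ stop q x ∈ V q))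
    (h2 : ∀ᵐ x ∂W, ∀ q, S x < q → S (stop q x) = S x) :
    W.map (fun x => ((S x, x (S x)), shift (S x) x)) =
      (W.map (fun x => (S x, x (S x)))).prod W := by
  have hWp := isProb hW
  have mξ := xi_meas hS
  have mθ := shift_meas2 hS
  symm
  refine Measure.prod_eq fun A C hA hC => ?_
  rw [Measure.map_apply (mξ.prodMk mθ) (hA.prod hC), Measure.map_apply mξ hA]
  set A' : Set Path := (fun x : Path => (S x, x (S x))) ⁻¹' A with hA'
  have mA' : MeasurableSet A' := mξ hA
  rcases eq_or_ne (W A') 0 with h0 | h0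
  · rw [h0, zero_mul]
    refine measure_mono_null ?_ h0
    rintro x ⟨hx, -⟩
    exact hx
  have hcp : IsProbabilityMeasure (W[|A']) := cond_isProbabilityMeasure h0
  have key : (W[|A']).map (fun x => shift (S x) x) = W := by
    refine law_limit (Z := fun n x => shift (up n (S x)) x)
      (fun n => shift_meas2 ((up_meas n).comp hS)) mθ (fun t => ae_of_all _ fun x => ?_)
      (fun n => ?_)
    · have hc : Continuous (fun τ : ℝ≥0 => shift τ x t) := by
        simp only [shift_apply]
        fun_prop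
      exact (hc.tendsto (S x)).comp (up_tendsto (S x))
    · have mZ : Measurable (fun x => shift (up n (S x)) x) := shift_meas2 ((up_meas n).comp hS)
      have mcell : ∀ j, MeasurableSet (cell S n j) := by
        intro j
        have : Measurable (fun x => ⌊2 ^ n * S x⌋₊) :=
          Nat.measurable_floor.comp (measurable_const.mul hS)
        exact this (measurableSet_singleton j)
      ext C' hC'
      rw [Measure.map_apply mZ hC', cond_apply mA']
      have hcell : ∀ j, W ((A' ∩ cell S n j) ∩ (fun x => shift (up n (S x)) x) ⁻¹' C') =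
          W (A' ∩ cell S n j) * W C' := by
        intro j
        set q : ℝ≥0 := ((j : ℝ≥0) + 1) / 2 ^ n with hq
        set D : Set Path := V q ∩ (A' ∩ cell S n j) with hD
        have mD : MeasurableSet D := (hV q).inter (mA'.inter (mcell j))
        have hae : (A' ∩ cell S n j : Set Path) =ᵐ[W] (stop q ⁻¹' D : Set Path) := by
          filter_upwards [h1, h2] with x hx1 hx2
          have e : ∀ hlt : S x < q, ((stop q x ∈ A' ↔ x ∈ A') ∧
              (stop q x ∈ cell S n j ↔ x ∈ cell S n j)) := by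
            intro hlt
            have e1 := hx2 q hlt
            constructor
            · show (S (stop q x), (stop q x) (S (stop q x))) ∈ A ↔ (S x, x (S x)) ∈ A
              rw [e1, stop_apply, min_eq_left hlt.le]
            · show ⌊2 ^ n * S (stop q x)⌋₊ = j ↔ ⌊2 ^ n * S x⌋₊ = j
              rw [e1]
          apply propext
          constructor
          · rintro ⟨ha, hc⟩
            have hlt : S x < q := by
              rw [hq, ← cell_up hc]
              exact up_gt n _
            exact ⟨(hx1 q).1 hlt, (e hlt).1.2 ha, (e hlt).2.2 hc⟩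
          · rintro ⟨hv, ha, hc⟩
            have hlt := (hx1 q).2 hv
            exact ⟨(e hlt).1.1 ha, (e hlt).2.1 hc⟩
        have e2 : ((A' ∩ cell S n j) ∩ (fun x => shift (up n (S x)) x) ⁻¹' C') =
            ((A' ∩ cell S n j) ∩ shift q ⁻¹' C') := by
          ext x
          constructor
          · rintro ⟨hx, hx2⟩
            refine ⟨hx, ?_⟩
            have : shift (up n (S x)) x ∈ C' := hx2
            rw [cell_up hx.2] at this
            exact this
          · rintro ⟨hx, hx2⟩
            refine ⟨hx, ?_⟩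
            show shift (up n (S x)) x ∈ C'
            rw [cell_up hx.2]
            exact hx2
        rw [e2, measure_congr (hae.inter (ae_eq_refl (shift q ⁻¹' C'))),
          indep_stop_shift hW q mD hC', ← measure_congr hae]
      have hsum : ∀ G : Set Path, MeasurableSet G → W G = ∑' j, W (G ∩ cell S n j) := by
        intro G hG
        rw [← measure_iUnion, ← inter_iUnion, cell_union, inter_univ]
        · intro i j hij
          exact (cell_disj S n hij).mono inter_subset_right inter_subset_right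
        · intro j
          exact hG.inter (mcell j)
      have e3 : W (A' ∩ (fun x => shift (up n (S x)) x) ⁻¹' C') = W A' * W C' := by
        rw [hsum _ (mA'.inter (mZ hC')), hsum A' mA', ← ENNReal.tsum_mul_right]
        refine tsum_congr fun j => ?_
        rw [← hcell j]
        congr 1
        ext x
        simp only [mem_inter_iff, mem_preimage]
        tauto
      rw [e3, ← mul_assoc, ENNReal.inv_mul_cancel h0 (measure_ne_top _ _), one_mul]
  have h3 := congrArg (fun μ : Measure Path => μ C) key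
  rw [Measure.map_apply mθ hC, cond_apply mA'] at h3
  rw [← h3, ← mul_assoc, ENNReal.mul_inv_cancel h0 (measure_ne_top _ _), one_mul]
  rfl

/-! ### exit times -/

/-- the first exit time from `(-1, 1)` -/
noncomputable def T (x : Path) : ℝ≥0 := sInf {t | 1 ≤ |x t|}

/-- the exit time, stopped at the time `n` -/
noncomputable def Tn (n : ℝ≥0) (x : Path) : ℝ≥0 := sInf ({t | 1 ≤ |x t|} ∪ {n})

/-- the exit has taken place strictly before the time `q` -/
def V (q : ℝ≥0) : Set Path := {y | ∃ s, s < q ∧ 1 ≤ |y s|}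

lemma H_closed (r : ℝ≥0) : IsClosed {y : Path | ∃ s, s ≤ r ∧ 1 ≤ |y s|} := by
  rw [← isOpen_compl_iff]
  have h := ContinuousMap.isOpen_setOfPred_mapsTo (X := ℝ≥0) (Y := ℝ) (K := Icc 0 r)
    isCompact_Icc (isOpen_Ioo (a := (-1 : ℝ)) (b := 1))
  convert h using 1
  ext y
  simp only [mem_compl_iff, mem_ofPred_eq, MapsTo, mem_Icc, mem_Ioo, not_exists, not_and, not_le,
    zero_le, true_and]
  constructor
  · intro h s hs
    exact abs_lt.1 (h s hs)
  · intro h s hs
    exact abs_lt.2 (h hs)

lemma H_meas (r : ℝ≥0) : MeasurableSet {y : Path | ∃ s, s ≤ r ∧ 1 ≤ |y s|} :=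
  (H_closed r).measurableSet

lemma V_meas (q : ℝ≥0) : MeasurableSet (V q) := by
  rcases eq_or_ne q 0 with h0 | h0
  · have : V q = ∅ := by
      ext y; simp [V, h0]
    rw [this]
    exact MeasurableSet.empty
  have hq : 0 < q := pos_iff_ne_zero.2 h0
  have e : V q = ⋃ n : ℕ, {y : Path | ∃ s, s ≤ q - 1 / ((n : ℝ≥0) + 1) ∧ 1 ≤ |y s|} := by
    ext y
    simp only [V, mem_ofPred_eq, mem_iUnion]
    constructor
    · rintro ⟨s, hs, hy⟩
      obtain ⟨n, hn⟩ := exists_nat_one_div_lt (K := ℝ≥0) (tsub_pos_of_lt hs)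
      refine ⟨n, s, ?_, hy⟩
      rw [le_tsub_iff_right (hn.le.trans tsub_le_self)]
      have := add_le_add_right hn.le s
      rwa [add_tsub_cancel_of_le hs.le] at this
    · rintro ⟨n, s, hs, hy⟩
      exact ⟨s, hs.trans_lt (tsub_lt_self hq (by positivity)), hy⟩
  rw [e]
  exact MeasurableSet.iUnion fun n => H_meas _

/-- the path leaves the interval -/
def Ex : Set Path := {x | ∃ t, 1 ≤ |x t|}

lemma Ex_meas : MeasurableSet Ex := by
  have e : Ex = ⋃ n : ℕ, {y : Path | ∃ s, s ≤ (n : ℝ≥0) ∧ 1 ≤ |y s|} := by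
    ext y
    simp only [Ex, mem_ofPred_eq, mem_iUnion]
    constructor
    · rintro ⟨t, ht⟩
      obtain ⟨n, hn⟩ := exists_nat_ge t
      exact ⟨n, t, hn, ht⟩
    · rintro ⟨n, t, -, ht⟩
      exact ⟨t, ht⟩
  rw [e]
  exact MeasurableSet.iUnion fun n => H_meas _

lemma set_closed (x : Path) : IsClosed {t | 1 ≤ |x t|} :=
  isClosed_le continuous_const (x.continuous.abs)

lemma T_mem {x : Path} (hx : x ∈ Ex) : 1 ≤ |x (T x)| :=
  (set_closed x).csInf_mem hx (OrderBot.bddBelow _)

lemma T_le {x : Path} {s : ℝ≥0} (hs : 1 ≤ |x s|) : T x ≤ s :=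
  csInf_le (OrderBot.bddBelow _) hs

lemma lt_of_lt_T {x : Path} {s : ℝ≥0} (hs : s < T x) : |x s| < 1 := by
  by_contra h
  exact absurd (T_le (not_lt.1 h)) (not_le.2 hs)

lemma T_lt_iff {x : Path} (hx : x ∈ Ex) (q : ℝ≥0) : T x < q ↔ x ∈ V q := by
  constructor
  · intro h
    exact ⟨T x, h, T_mem hx⟩
  · rintro ⟨s, hs, h⟩
    exact (T_le h).trans_lt hs

lemma T_meas : Measurable T := by
  refine measurable_of_Iio fun q => ?_
  rcases eq_or_ne q 0 with h0 | h0
  · have : T ⁻¹' Iio q = ∅ := by
      ext x; simp [h0]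
    rw [this]
    exact MeasurableSet.empty
  have hq : 0 < q := pos_iff_ne_zero.2 h0
  have e : T ⁻¹' Iio q = (Ex ∩ V q) ∪ Exᶜ := by
    ext x
    simp only [mem_preimage, mem_Iio, mem_union, mem_inter_iff, mem_compl_iff]
    by_cases hx : x ∈ Ex
    · rw [T_lt_iff hx]
      tauto
    · have h : T x = 0 := by
        have : {t | 1 ≤ |x t|} = ∅ := by
          ext t
          simp only [mem_ofPred_eq, mem_empty_iff_false, iff_false]
          intro ht
          exact hx ⟨t, ht⟩
        rw [T, this, NNReal.sInf_empty]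
      simp [h, hx, hq]
  rw [e]
  exact (Ex_meas.inter (V_meas q)).union Ex_meas.compl

lemma Tn_ne (n : ℝ≥0) (x : Path) : ({t | 1 ≤ |x t|} ∪ {n}).Nonempty := ⟨n, Or.inr rfl⟩

lemma Tn_mem (n : ℝ≥0) (x : Path) : 1 ≤ |x (Tn n x)| ∨ Tn n x = n := by
  have h : IsClosed ({t | 1 ≤ |x t|} ∪ {n}) := (set_closed x).union isClosed_singleton
  exact h.csInf_mem (Tn_ne n x) (OrderBot.bddBelow _)

lemma Tn_le_n (n : ℝ≥0) (x : Path) : Tn n x ≤ n := csInf_le (OrderBot.bddBelow _) (Or.inr rfl)

lemma Tn_le {n : ℝ≥0} {x : Path} {s : ℝ≥0} (hs : 1 ≤ |x s|) : Tn n x ≤ s :=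
  csInf_le (OrderBot.bddBelow _) (Or.inl hs)

lemma Tn_lt_iff (n : ℝ≥0) (x : Path) (q : ℝ≥0) : Tn n x < q ↔ n < q ∨ x ∈ V q := by
  constructor
  · intro h
    rcases Tn_mem n x with h1 | h1
    · exact Or.inr ⟨_, h, h1⟩
    · exact Or.inl (h1 ▸ h)
  · rintro (h | ⟨s, hs, h⟩)
    · exact (Tn_le_n n x).trans_lt h
    · exact (Tn_le h).trans_lt hs

lemma Tn_meas (n : ℝ≥0) : Measurable (Tn n) := by
  refine measurable_of_Iio fun q => ?_
  have e : Tn n ⁻¹' Iio q = {x | n < q} ∪ V q := by
    ext x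
    simp only [mem_preimage, mem_Iio, mem_union, mem_ofPred_eq]
    exact Tn_lt_iff n x q
  rw [e]
  exact (MeasurableSet.const _).union (V_meas q)

lemma Tn_eq {x : Path} (hx : x ∈ Ex) (n : ℝ≥0) : Tn n x = min (T x) n := by
  apply le_antisymm
  · exact le_min (Tn_le (T_mem hx)) (Tn_le_n n x)
  · rcases Tn_mem n x with h | h
    · exact (min_le_left _ _).trans (T_le h)
    · rw [h]; exact min_le_right _ _

/-- at the exit the modulus is at most one -/
lemma abs_le_one {x : Path} (h0 : x 0 = 0) {t : ℝ≥0} (h : ∀ s < t, |x s| < 1) : |x t| ≤ 1 := by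
  by_contra hc
  push Not at hc
  have hcont : ContinuousOn (fun s : ℝ≥0 => |x s|) (Icc 0 t) := x.continuous.abs.continuousOn
  have h1 := intermediate_value_Icc (zero_le (a := t)) hcont
  obtain ⟨s, hs, hs1⟩ := h1 (show (1 : ℝ) ∈ Icc |x 0| |x t| from ⟨by simp [h0], hc.le⟩)
  have hst : s < t := by
    rcases hs.2.lt_or_eq with h2 | h2
    · exact h2
    · exfalso
      simp only [h2] at hs1
      linarith
  have := h s hst
  simp only at hs1
  linarith

lemma abs_T {x : Path} (hx : x ∈ Ex) (h0 : x 0 = 0) : |x (T x)| = 1 :=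
  le_antisymm (abs_le_one h0 fun _ hs => lt_of_lt_T hs) (T_mem hx)

lemma abs_Tn {x : Path} (h0 : x 0 = 0) (n : ℝ≥0) : |x (Tn n x)| ≤ 1 := by
  refine abs_le_one h0 fun s hs => ?_
  by_contra h
  exact absurd (Tn_le (n := n) (not_lt.1 h)) (not_le.2 hs)

lemma T_pos {x : Path} (hx : x ∈ Ex) (h0 : x 0 = 0) : 0 < T x := by
  rw [pos_iff_ne_zero]
  intro h
  have := T_mem hx
  rw [h, h0] at this
  norm_num at this

/-! ### the exit time is finite -/

lemma gauss_small {v : ℝ≥0} (hv : v ≠ 0) :
    gaussianReal 0 v (Ioo (-1) 1) ≤ ENNReal.ofReal (2 / √(v : ℝ)) := by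
  rw [gaussianReal_apply 0 hv]
  have hv' : (0 : ℝ) < v := by positivity
  have h1 : ∀ x : ℝ, gaussianPDF 0 v x ≤ ENNReal.ofReal (1 / √(v : ℝ)) := by
    intro x
    unfold gaussianPDF
    apply ENNReal.ofReal_le_ofReal
    unfold gaussianPDFReal
    have h2 : Real.exp (-(x - 0) ^ 2 / (2 * v)) ≤ 1 := by
      apply Real.exp_le_one_iff.2
      apply div_nonpos_of_nonpos_of_nonneg
      · nlinarith [sq_nonneg (x - 0)]
      · positivity
    have h3 : (√(2 * Real.pi * v))⁻¹ ≤ 1 / √(v : ℝ) := by
      rw [one_div]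
      apply inv_anti₀ (by positivity)
      apply Real.sqrt_le_sqrt
      nlinarith [Real.pi_gt_three]
    calc (√(2 * Real.pi * v))⁻¹ * Real.exp (-(x - 0) ^ 2 / (2 * v)) ≤ (√(2 * Real.pi * v))⁻¹ * 1 := by
          gcongr
      _ ≤ _ := by rw [mul_one]; exact h3
  calc ∫⁻ x in Ioo (-1 : ℝ) 1, gaussianPDF 0 v x ≤ ∫⁻ x in Ioo (-1 : ℝ) 1, ENNReal.ofReal (1 / √(v : ℝ)) :=
        lintegral_mono fun x => h1 x
    _ = ENNReal.ofReal (1 / √(v : ℝ)) * ENNReal.ofReal 2 := by
        rw [setLIntegral_const, Real.volume_Ioo]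
        norm_num
    _ = ENNReal.ofReal (2 / √(v : ℝ)) := by
        rw [← ENNReal.ofReal_mul (by positivity)]
        congr 1
        ring

variable (hW : IsBrownianReal (fun (t : ℝ≥0) (x : Path) => x t) W)

include hW

lemma ae_Ex : ∀ᵐ x ∂W, x ∈ Ex := by
  rw [ae_iff]
  have h1 : ∀ n : ℕ, W {x | x ∉ Ex} ≤ ENNReal.ofReal (2 / √((n : ℝ) + 1)) := by
    intro n
    have h2 := hW.hasLaw_eval ((n : ℝ≥0) + 1)
    have h3 : W {x | x ∉ Ex} ≤ W ((fun x : Path => x ((n : ℝ≥0) + 1)) ⁻¹' Ioo (-1) 1) := by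
      apply measure_mono
      intro x hx
      have hx' : ¬ 1 ≤ |x ((n : ℝ≥0) + 1)| := fun h => hx ⟨_, h⟩
      exact abs_lt.1 (not_le.1 hx')
    refine h3.trans ?_
    rw [← Measure.map_apply (measurable_eval _) measurableSet_Ioo, h2.map_eq]
    refine (gauss_small (by positivity)).trans ?_
    simp
  have h4 : Tendsto (fun n : ℕ => ENNReal.ofReal (2 / √((n : ℝ) + 1))) atTop (𝓝 0) := by
    rw [← ENNReal.ofReal_zero]
    refine ENNReal.tendsto_ofReal ?_
    refine Tendsto.div_atTop tendsto_const_nhds ?_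
    exact Real.tendsto_sqrt_atTop.comp
      (tendsto_atTop_add_const_right _ _ tendsto_natCast_atTop_atTop)
  exact le_antisymm (ge_of_tendsto' h4 h1) bot_le

theorem strong_T :
    W.map (fun x => ((T x, x (T x)), shift (T x) x)) = (W.map (fun x => (T x, x (T x)))).prod W := by
  refine strong hW T_meas V_meas ?_ ?_
  · filter_upwards [ae_Ex hW] with x hx q
    rw [T_lt_iff hx]
    constructor
    · rintro ⟨s, hs, h⟩
      exact ⟨s, hs, by rw [stop_apply, min_eq_left hs.le]; exact h⟩
    · rintro ⟨s, hs, h⟩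
      rw [stop_apply, min_eq_left hs.le] at h
      exact ⟨s, hs, h⟩
  · filter_upwards [ae_Ex hW] with x hx q hq
    have h1 : 1 ≤ |stop q x (T x)| := by
      rw [stop_apply, min_eq_left hq.le]
      exact T_mem hx
    apply le_antisymm (T_le h1)
    have h2 : 1 ≤ |stop q x (T (stop q x))| := T_mem ⟨_, h1⟩
    rw [stop_apply] at h2
    exact (T_le h2).trans (min_le_left _ _)

theorem strong_Tn (n : ℝ≥0) :
    W.map (fun x => ((Tn n x, x (Tn n x)), shift (Tn n x) x)) =
      (W.map (fun x => (Tn n x, x (Tn n x)))).prod W := by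
  refine strong hW (Tn_meas n) (V := fun q => {x | n < q} ∪ V q)
    (fun q => (MeasurableSet.const _).union (V_meas q)) ?_ ?_
  · refine ae_of_all _ fun x q => ?_
    rw [Tn_lt_iff]
    simp only [mem_union, mem_ofPred_eq]
    refine or_congr Iff.rfl ?_
    constructor
    · rintro ⟨s, hs, h⟩
      exact ⟨s, hs, by rw [stop_apply, min_eq_left hs.le]; exact h⟩
    · rintro ⟨s, hs, h⟩
      rw [stop_apply, min_eq_left hs.le] at h
      exact ⟨s, hs, h⟩
  · refine ae_of_all _ fun x q hq => ?_
    have h1 : Tn n (stop q x) ≤ Tn n x := by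
      rcases Tn_mem n x with h | h
      · refine Tn_le ?_
        rw [stop_apply, min_eq_left hq.le]
        exact h
      · rw [h]; exact Tn_le_n _ _
    apply le_antisymm h1
    rcases Tn_mem n (stop q x) with h | h
    · rw [stop_apply] at h
      exact (Tn_le h).trans (min_le_left _ _)
    · rw [h]; exact Tn_le_n _ _

end Q297.Spn
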