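import Pool.Agent.Q297.SpA

/-!
The exit time from `(-1, 1)` has mean one; the exit place is uniform; the exit data are
independent of the future path.
-/

open MeasureTheory ProbabilityTheory Set Filter Topology
open scoped ENNReal NNReal
open Q297.PathC Q297.Prepend Q297.TwoS Q297.Dec

namespace Q297.Spn

variable {W : Measure Path} (hW : IsBrownianReal (fun (t : ℝ≥0) (x : Path) => x t) W)

include hW

lemma lint_sq (c : ℝ) (t : ℝ≥0) :
    ∫⁻ y : Path, ENNReal.ofReal ((c + y t) ^ 2) ∂W = ENNReal.ofReal (c ^ 2 + t) := by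
  have hWp := isProb hW
  have hm := (hW.isGaussianProcess.hasGaussianLaw_eval t).memLp_two
  have h1 : Integrable (fun y : Path => y t) W := hm.integrable (by norm_num)
  have h2 : Integrable (fun y : Path => (y t) ^ 2) W := hm.integrable_sq
  have h3 : ∫ y : Path, (y t) ^ 2 ∂W = t := by
    have hv := hW.covariance_eval t t
    rw [min_self, covariance_self (measurable_eval t).aemeasurable, variance_eq_sub hm,
      hW.integral_eval t] at hv
    simpa using hv
  have h4 : Integrable (fun y : Path => (c + y t) ^ 2) W := by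
    have e : (fun y : Path => (c + y t) ^ 2) = fun y : Path => c ^ 2 + 2 * c * y t + (y t) ^ 2 := by
      funext y; ring
    rw [e]
    exact ((integrable_const _).add (h1.const_mul _)).add h2
  rw [← ofReal_integral_eq_lintegral_ofReal h4 (ae_of_all _ fun y => sq_nonneg _)]
  congr 1
  have e : (fun y : Path => (c + y t) ^ 2) = fun y : Path => (c ^ 2 + 2 * c * y t) + (y t) ^ 2 := by
    funext y; ring
  have i1 : Integrable (fun y : Path => c ^ 2 + 2 * c * y t) W :=
    (integrable_const _).add (h1.const_mul _)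
  have h5 : ∫ y : Path, y t ∂W = 0 := hW.integral_eval t
  rw [e, integral_add i1 h2, integral_add (integrable_const _) (h1.const_mul _), h3,
    integral_const_mul, h5]
  simp

lemma mean_Tn (n : ℕ) : ∫ x : Path, ((Tn n x : ℝ≥0) : ℝ) ∂W = ∫ x : Path, (x (Tn n x)) ^ 2 ∂W := by
  have hWp := isProb hW
  have mξ := xi_meas (Tn_meas (n : ℝ≥0))
  have mθ := shift_meas2 (Tn_meas (n : ℝ≥0))
  have hst := strong_Tn hW (n : ℝ≥0)
  -- the function of (time, place, future)
  set F : (ℝ≥0 × ℝ) × Path → ℝ≥0∞ := fun p => ENNReal.ofReal ((p.1.2 + p.2 ((n : ℝ≥0) - p.1.1)) ^ 2)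
    with hF
  have mF : Measurable F := by
    have h1 : Measurable (fun p : (ℝ≥0 × ℝ) × Path => p.2 ((n : ℝ≥0) - p.1.1)) :=
      ev_meas1.comp ((measurable_const.sub (measurable_fst.comp measurable_fst)).prodMk
        measurable_snd)
    exact ENNReal.measurable_ofReal.comp (((measurable_snd.comp measurable_fst).add h1).pow_const 2)
  have e1 : ∫⁻ x : Path, F ((Tn n x, x (Tn n x)), shift (Tn n x) x) ∂W =
      ∫⁻ x : Path, ENNReal.ofReal ((x n) ^ 2) ∂W := by
    refine lintegral_congr fun x => ?_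
    simp only [hF, shift_apply]
    rw [add_tsub_cancel_of_le (Tn_le_n _ _)]
    congr 2
    ring
  have e2 : ∫⁻ x : Path, ENNReal.ofReal ((x n) ^ 2) ∂W = ENNReal.ofReal n := by
    have := lint_sq hW 0 n
    simpa using this
  have e3 : ∫⁻ x : Path, F ((Tn n x, x (Tn n x)), shift (Tn n x) x) ∂W =
      ∫⁻ x : Path, ENNReal.ofReal ((x (Tn n x)) ^ 2 + ((n : ℝ) - Tn n x)) ∂W := by
    rw [← lintegral_map mF (mξ.prodMk mθ), hst, lintegral_prod _ mF.aemeasurable]
    rw [lintegral_map mF.lintegral_prod_right' mξ]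
    refine lintegral_congr fun x => ?_
    simp only [hF]
    rw [lint_sq hW]
    congr 2
    rw [NNReal.coe_sub (Tn_le_n _ _)]
    simp
  have hb : ∀ᵐ x ∂W, |x (Tn n x)| ≤ 1 := by
    filter_upwards [W_zero hW] with x hx
    exact abs_Tn hx _
  have mx : Measurable (fun x : Path => x (Tn n x)) := measurable_snd.comp mξ
  have mt : Measurable (fun x : Path => ((Tn n x : ℝ≥0) : ℝ)) :=
    measurable_coe_nnreal_real.comp (Tn_meas _)
  have i1 : Integrable (fun x : Path => (x (Tn n x)) ^ 2) W := by
    refine Integrable.of_bound (mx.pow_const 2).aestronglyMeasurable 1 ?_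
    filter_upwards [hb] with x hx
    rw [Real.norm_eq_abs, abs_pow]
    exact pow_le_one₀ (abs_nonneg _) hx
  have i2 : Integrable (fun x : Path => ((Tn n x : ℝ≥0) : ℝ)) W := by
    refine Integrable.of_bound mt.aestronglyMeasurable n (ae_of_all _ fun x => ?_)
    rw [Real.norm_eq_abs, abs_of_nonneg (NNReal.coe_nonneg _)]
    exact_mod_cast Tn_le_n (n : ℝ≥0) x
  have i3 : Integrable (fun x : Path => (x (Tn n x)) ^ 2 + ((n : ℝ) - Tn n x)) W :=
    i1.add ((integrable_const _).sub i2)
  rw [e1, e2, ← ofReal_integral_eq_lintegral_ofReal i3 (ae_of_all _ fun x => ?_)] at e3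
  · have h5 : (n : ℝ) = ∫ x : Path, (x (Tn n x)) ^ 2 + ((n : ℝ) - Tn n x) ∂W := by
      have := congrArg ENNReal.toReal e3
      rwa [ENNReal.toReal_ofReal (by positivity), ENNReal.toReal_ofReal] at this
      refine integral_nonneg fun x => ?_
      have : ((Tn n x : ℝ≥0) : ℝ) ≤ n := by exact_mod_cast Tn_le_n (n : ℝ≥0) x
      have h6 := sq_nonneg (x (Tn n x))
      show (0 : ℝ) ≤ (x (Tn n x)) ^ 2 + ((n : ℝ) - Tn n x)
      linarith
    have i4 : Integrable (fun x : Path => ((n : ℝ) - Tn n x)) W := (integrable_const _).sub i2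
    rw [integral_add i1 i4, integral_sub (integrable_const _) i2] at h5
    simp only [integral_const, probReal_univ, one_smul] at h5
    linarith
  · have : ((Tn n x : ℝ≥0) : ℝ) ≤ n := by exact_mod_cast Tn_le_n (n : ℝ≥0) x
    have h6 := sq_nonneg (x (Tn n x))
    show (0 : ℝ) ≤ (x (Tn n x)) ^ 2 + ((n : ℝ) - Tn n x)
    linarith

lemma tendsto_Tn : ∀ᵐ x ∂W, ∀ᶠ n : ℕ in atTop, Tn n x = T x := by
  filter_upwards [ae_Ex hW] with x hx
  obtain ⟨m, hm⟩ := exists_nat_ge (T x)
  filter_upwards [eventually_ge_atTop m] with n hn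
  rw [Tn_eq hx]
  apply min_eq_left
  exact hm.trans (by exact_mod_cast hn)

lemma lint_T : ∫⁻ x : Path, ((T x : ℝ≥0) : ℝ≥0∞) ∂W = 1 := by
  have hWp := isProb hW
  have h1 : Tendsto (fun n : ℕ => ∫ x : Path, (x (Tn n x)) ^ 2 ∂W) atTop (𝓝 (∫ x : Path, (1 : ℝ) ∂W)) := by
    refine tendsto_integral_of_dominated_convergence (fun _ => 1) (fun n => ?_)
      (integrable_const _) (fun n => ?_) ?_
    · exact ((measurable_snd.comp (xi_meas (Tn_meas (n : ℝ≥0)))).pow_const 2).aestronglyMeasurable
    · filter_upwards [W_zero hW] with x hx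
      rw [Real.norm_eq_abs, abs_pow]
      exact pow_le_one₀ (abs_nonneg _) (abs_Tn hx _)
    · filter_upwards [tendsto_Tn hW, ae_Ex hW, W_zero hW] with x hx hx2 hx0
      refine tendsto_const_nhds.congr' ?_
      filter_upwards [hx] with n hn
      rw [hn, ← sq_abs, abs_T hx2 hx0]
      norm_num
  have h2 : Tendsto (fun n : ℕ => ∫⁻ x : Path, ((Tn n x : ℝ≥0) : ℝ≥0∞) ∂W) atTop (𝓝 1) := by
    have e : ∀ n : ℕ, ∫⁻ x : Path, ((Tn n x : ℝ≥0) : ℝ≥0∞) ∂W =
        ENNReal.ofReal (∫ x : Path, (x (Tn n x)) ^ 2 ∂W) := by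
      intro n
      rw [← mean_Tn hW n, ofReal_integral_eq_lintegral_ofReal]
      · refine lintegral_congr fun x => ?_
        rw [ENNReal.ofReal_coe_nnreal]
      · refine Integrable.of_bound (measurable_coe_nnreal_real.comp (Tn_meas _)).aestronglyMeasurable n
          (ae_of_all _ fun x => ?_)
        rw [Real.norm_eq_abs, abs_of_nonneg (NNReal.coe_nonneg _)]
        exact_mod_cast Tn_le_n (n : ℝ≥0) x
      · exact ae_of_all _ fun x => NNReal.coe_nonneg _
    simp only [e]
    have h3 := ENNReal.tendsto_ofReal h1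
    simpa using h3
  have h3 : Tendsto (fun n : ℕ => ∫⁻ x : Path, ((Tn n x : ℝ≥0) : ℝ≥0∞) ∂W) atTop
      (𝓝 (∫⁻ x : Path, ((T x : ℝ≥0) : ℝ≥0∞) ∂W)) := by
    refine lintegral_tendsto_of_tendsto_of_monotone
      (fun n => (measurable_coe_nnreal_ennreal.comp (Tn_meas _)).aemeasurable) ?_ ?_
    · filter_upwards [ae_Ex hW] with x hx
      intro a b hab
      simp only [ENNReal.coe_le_coe]
      rw [Tn_eq hx, Tn_eq hx]
      exact min_le_min le_rfl (by exact_mod_cast hab)
    · filter_upwards [tendsto_Tn hW] with x hx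
      refine tendsto_const_nhds.congr' ?_
      filter_upwards [hx] with n hn
      rw [hn]
  exact tendsto_nhds_unique h3 h2

lemma integrable_T : Integrable (fun x : Path => ((T x : ℝ≥0) : ℝ)) W := by
  refine ⟨(measurable_coe_nnreal_real.comp T_meas).aestronglyMeasurable, ?_⟩
  have h := lint_T hW
  have e : ∫⁻ x : Path, ‖((T x : ℝ≥0) : ℝ)‖ₑ ∂W = ∫⁻ x : Path, ((T x : ℝ≥0) : ℝ≥0∞) ∂W := by
    refine lintegral_congr fun x => ?_
    simp
  show ∫⁻ x : Path, ‖((T x : ℝ≥0) : ℝ)‖ₑ ∂W < ⊤
  rw [e, h]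
  exact ENNReal.one_lt_top

lemma mean_T : ∫ x : Path, ((T x : ℝ≥0) : ℝ) ∂W = 1 := by
  rw [integral_eq_lintegral_of_nonneg_ae (ae_of_all _ fun x => NNReal.coe_nonneg _)
    (measurable_coe_nnreal_real.comp T_meas).aestronglyMeasurable]
  have e : ∫⁻ x : Path, ENNReal.ofReal ((T x : ℝ≥0) : ℝ) ∂W = ∫⁻ x : Path, ((T x : ℝ≥0) : ℝ≥0∞) ∂W := by
    refine lintegral_congr fun x => ?_
    rw [ENNReal.ofReal_coe_nnreal]
  rw [e, lint_T hW]
  simp

omit hW

/-- the path after the exit time -/
noncomputable def th (x : Path) : Path := shift (T x) x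

lemma th_meas : Measurable th := shift_meas2 T_meas

/-- time and place of the exit -/
noncomputable def xi (x : Path) : ℝ≥0 × ℝ := (T x, x (T x))

lemma xi_meas' : Measurable xi := xi_meas T_meas

include hW

lemma th_mp : MeasurePreserving th W W := by
  have hWp := isProb hW
  refine ⟨th_meas, ?_⟩
  have h := congrArg (fun μ : Measure ((ℝ≥0 × ℝ) × Path) => μ.map Prod.snd) (strong_T hW)
  rw [Measure.map_map measurable_snd ((xi_meas T_meas).prodMk (shift_meas2 T_meas))] at h
  have hp : IsProbabilityMeasure (W.map (fun x : Path => (T x, x (T x)))) :=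
    Measure.isProbabilityMeasure_map (xi_meas T_meas).aemeasurable
  rw [measurePreserving_snd.map_eq] at h
  exact h

lemma indep_xi_th : IndepFun xi th W := by
  have hWp := isProb hW
  rw [indepFun_iff_map_prod_eq_prod_map_map xi_meas'.aemeasurable th_meas.aemeasurable,
    (th_mp hW).map_eq]
  exact strong_T hW

omit hW

/-- reflection of a path -/
def ng (x : Path) : Path := -x

lemma ng_meas : Measurable ng := measurable_of_eval fun t => by
  show Measurable (fun x : Path => -(x t))
  exact (measurable_eval t).neg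

@[simp] lemma ng_apply (x : Path) (t : ℝ≥0) : ng x t = -(x t) := rfl

lemma T_ng (x : Path) : T (ng x) = T x := by
  unfold T
  simp

include hW

lemma ng_mp : MeasurePreserving ng W W := by
  have hWp := isProb hW
  refine ⟨ng_meas, law_unique1 hW ng_meas ?_⟩
  exact hW.neg.toIsPreBrownianReal

lemma exit_half (s : Bool) : W {x | (x (T x) = 1 ↔ s = true)} = 1 / 2 := by
  have hWp := isProb hW
  have mx : Measurable (fun x : Path => x (T x)) := measurable_snd.comp (xi_meas T_meas)
  have m1 : MeasurableSet {x : Path | x (T x) = 1} := mx (measurableSet_singleton 1)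
  have m2 : MeasurableSet {x : Path | x (T x) = -1} := mx (measurableSet_singleton (-1))
  have h1 : W {x : Path | x (T x) = -1} = W {x : Path | x (T x) = 1} := by
    rw [← (ng_mp hW).measure_preimage m1.nullMeasurableSet]
    congr 1
    ext x
    simp only [mem_preimage, mem_ofPred_eq, T_ng, ng_apply]
    constructor <;> intro h <;> linarith
  have h2 : ∀ᵐ x ∂W, x (T x) = 1 ∨ x (T x) = -1 := by
    filter_upwards [ae_Ex hW, W_zero hW] with x hx hx0
    have := abs_T hx hx0
    rcases abs_eq (by norm_num : (0 : ℝ) ≤ 1) |>.1 this with h | h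
    · exact Or.inl h
    · exact Or.inr h
  have h3 : W ({x : Path | x (T x) = 1} ∪ {x : Path | x (T x) = -1}) = 1 := by
    rw [← prob_compl_eq_zero_iff (m1.union m2)]
    exact h2
  have hd : Disjoint {x : Path | x (T x) = 1} {x : Path | x (T x) = -1} := by
    rw [Set.disjoint_left]
    intro x hx hx2
    simp only [mem_ofPred_eq] at hx hx2
    rw [hx] at hx2
    norm_num at hx2
  rw [measure_union hd m2, h1, ← two_mul] at h3
  have h4 : W {x : Path | x (T x) = 1} = 1 / 2 := by
    rw [ENNReal.eq_div_iff (by norm_num) (by norm_num)]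
    exact h3
  cases s with
  | true => simpa using h4
  | false =>
    have h5 : {x : Path | (x (T x) = 1 ↔ false = true)} =ᵐ[W] {x : Path | x (T x) = -1} := by
      filter_upwards [h2] with x hx
      apply propext
      show (x (T x) = 1 ↔ false = true) ↔ x (T x) = -1
      constructor
      · intro h
        rcases hx with h6 | h6
        · exact absurd (h.1 h6) (by simp)
        · exact h6
      · intro h
        rw [h]
        norm_num
    rw [measure_congr h5, h1, h4]

end Q297.Spn
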