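import Pool.Agent.Q297.SpB

/-!
The embedded random walk and the law of large numbers for the exit times.
-/

open MeasureTheory ProbabilityTheory Set Filter Topology
open scoped ENNReal NNReal
open Q297.PathC Q297.Prepend Q297.TwoS Q297.Dec

namespace Q297.Spn

variable {W : Measure Path}

/-- the time of the `k`-th crossing -/
noncomputable def tau (k : ℕ) (x : Path) : ℝ≥0 := ∑ i ∈ Finset.range k, T (th^[i] x)

@[simp] lemma tau_zero (x : Path) : tau 0 x = 0 := by simp [tau]

lemma tau_succ (k : ℕ) (x : Path) : tau (k + 1) x = tau k x + T (th^[k] x) := by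
  simp [tau, Finset.sum_range_succ]

lemma shift_zero {x : Path} (h0 : x 0 = 0) : shift 0 x = x := by
  ext t; simp [h0]

lemma th_iter (k : ℕ) {x : Path} (h0 : x 0 = 0) : th^[k] x = shift (tau k x) x := by
  induction k with
  | zero => simp [shift_zero h0]
  | succ k ih =>
    rw [Function.iterate_succ_apply', tau_succ]
    conv_lhs => rw [th]
    rw [ih, shift_shift]

/-- the paths for which all crossing times are finite -/
def Gd : Set Path := {x | x 0 = 0 ∧ ∀ k, th^[k] x ∈ Ex}

lemma Gd_iter0 {x : Path} (hx : x ∈ Gd) (k : ℕ) : (th^[k] x) 0 = 0 := by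
  rw [th_iter k hx.1]
  simp

/-- the exit place -/
noncomputable def ep (x : Path) : ℝ := x (T x)

lemma ep_meas : Measurable ep := measurable_snd.comp xi_meas'

lemma Gd_ep_abs {x : Path} (hx : x ∈ Gd) (k : ℕ) : |ep (th^[k] x)| = 1 :=
  abs_T (hx.2 k) (Gd_iter0 hx k)

lemma Gd_step {x : Path} (hx : x ∈ Gd) (k : ℕ) :
    x (tau (k + 1) x) = x (tau k x) + ep (th^[k] x) := by
  rw [ep, tau_succ]
  conv_rhs => rw [th_iter k hx.1]
  rw [shift_apply, ← th_iter k hx.1]
  ring

/-- the embedded walk, with integer values -/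
noncomputable def Z (k : ℕ) (x : Path) : ℤ :=
  ∑ i ∈ Finset.range k, (if ep (th^[i] x) = 1 then 1 else -1)

lemma Z_succ (k : ℕ) (x : Path) : Z (k + 1) x = Z k x + (if ep (th^[k] x) = 1 then 1 else -1) := by
  simp [Z, Finset.sum_range_succ]

lemma Gd_walk {x : Path} (hx : x ∈ Gd) (k : ℕ) : x (tau k x) = (Z k x : ℝ) := by
  induction k with
  | zero => simp [Z, hx.1]
  | succ k ih =>
    rw [Gd_step hx, ih, Z_succ]
    push_cast
    congr 1
    have := Gd_ep_abs hx k
    rcases abs_eq (by norm_num : (0 : ℝ) ≤ 1) |>.1 this with h | h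
    · simp [h]
    · rw [h, if_neg (by norm_num)]

lemma indep_comp_mp {β γ : Type*} [MeasurableSpace β] [MeasurableSpace γ] {f : Path → β}
    {g : Path → γ} (hf : Measurable f) (hg : Measurable g) (h : IndepFun f g W) {φ : Path → Path}
    (hφ : MeasurePreserving φ W W) : IndepFun (f ∘ φ) (g ∘ φ) W := by
  rw [indepFun_iff_measure_inter_preimage_eq_mul] at h ⊢
  intro s t hs ht
  have h1 := h s t hs ht
  rw [preimage_comp, preimage_comp, ← preimage_inter,
    hφ.measure_preimage ((hf hs).inter (hg ht)).nullMeasurableSet,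
    hφ.measure_preimage (hf hs).nullMeasurableSet, hφ.measure_preimage (hg ht).nullMeasurableSet,
    h1]

lemma measure_null_lim [IsFiniteMeasure W] {E : ℕ → Set Path} (hm : ∀ n, MeasurableSet (E n))
    (h : ∀ᵐ x ∂W, ∀ᶠ n in atTop, x ∉ E n) : Tendsto (fun n => W (E n)) atTop (𝓝 0) := by
  have := tendsto_measure_of_ae_tendsto_indicator_of_isFiniteMeasure (μ := W) (L := atTop)
    (A := (∅ : Set Path)) (As := E) MeasurableSet.empty hm (by
      filter_upwards [h] with x hx
      filter_upwards [hx] with n hn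
      simp [hn])
  simpa using this

/-- deterministic lemma: uniform law of large numbers -/
lemma det_lln {a : ℕ → ℝ} (h : Tendsto (fun k : ℕ => a k / k) atTop (𝓝 1)) {γ : ℝ} (hγ : 0 < γ) :
    ∀ᶠ N : ℕ in atTop, ∀ k ≤ N, |a k - k| ≤ γ * N := by
  obtain ⟨K, hK⟩ := (Metric.tendsto_atTop.1 h) γ hγ
  set M : ℝ := ∑ k ∈ Finset.range (K + 1), |a k - k| with hM
  obtain ⟨N0, hN0⟩ := exists_nat_ge (M / γ)
  filter_upwards [eventually_ge_atTop N0] with N hN k hk
  by_cases hkK : k < K + 1
  · have h1 : |a k - k| ≤ M :=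
      Finset.single_le_sum (f := fun k : ℕ => |a k - k|) (fun i _ => abs_nonneg _)
        (Finset.mem_range.2 hkK)
    have h2 : M ≤ γ * N := by
      rw [div_le_iff₀ hγ] at hN0
      have : (N0 : ℝ) ≤ N := by exact_mod_cast hN
      nlinarith
    exact h1.trans h2
  · have hk0 : 0 < k := by omega
    have hk0' : (0 : ℝ) < k := by exact_mod_cast hk0
    have h1 := hK k (by omega)
    rw [Real.dist_eq] at h1
    have h2 : |a k - k| = |a k / k - 1| * k := by
      rw [← abs_of_pos hk0', ← abs_mul, abs_of_pos hk0']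
      congr 1
      field_simp
    rw [h2]
    have : (k : ℝ) ≤ N := by exact_mod_cast hk
    have h3 := abs_nonneg (a k / k - 1)
    nlinarith

variable (hW : IsBrownianReal (fun (t : ℝ≥0) (x : Path) => x t) W)

include hW

lemma ae_Gd : ∀ᵐ x ∂W, x ∈ Gd := by
  have h1 : ∀ k : ℕ, ∀ᵐ x ∂W, th^[k] x ∈ Ex := fun k =>
    ((th_mp hW).iterate k).quasiMeasurePreserving.ae (ae_Ex hW)
  filter_upwards [W_zero hW, ae_all_iff.2 h1] with x hx hx2
  exact ⟨hx, hx2⟩

lemma indep_iter {f : Path → ℝ} (hf : Measurable f) {g : Path → ℝ} (hg : Measurable g)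
    (hfx : ∃ f' : ℝ≥0 × ℝ → ℝ, Measurable f' ∧ f = f' ∘ xi) {i j : ℕ} (hij : i < j) :
    IndepFun (f ∘ th^[i]) (g ∘ th^[j]) W := by
  obtain ⟨m, rfl⟩ : ∃ m, j = m + 1 + i := ⟨j - 1 - i, by omega⟩
  have e : g ∘ th^[m + 1 + i] = (g ∘ th^[m] ∘ th) ∘ th^[i] := by
    funext x
    simp only [Function.comp_apply]
    rw [Function.iterate_add_apply, Function.iterate_succ_apply]
  rw [e]
  obtain ⟨f', hf', rfl⟩ := hfx
  have h1 : IndepFun (f' ∘ xi) ((g ∘ th^[m]) ∘ th) W :=
    (indep_xi_th hW).comp hf' (hg.comp (th_meas.iterate m))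
  exact indep_comp_mp (hf'.comp xi_meas') ((hg.comp (th_meas.iterate m)).comp th_meas) h1
    ((th_mp hW).iterate i)

lemma slln : ∀ᵐ x ∂W, Tendsto (fun k : ℕ => ((tau k x : ℝ≥0) : ℝ) / k) atTop (𝓝 1) := by
  have hWp := isProb hW
  set f : Path → ℝ := fun x => ((T x : ℝ≥0) : ℝ) with hf
  have mf : Measurable f := measurable_coe_nnreal_real.comp T_meas
  have hfx : ∃ f' : ℝ≥0 × ℝ → ℝ, Measurable f' ∧ f = f' ∘ xi :=
    ⟨fun p => (p.1 : ℝ), measurable_coe_nnreal_real.comp measurable_fst, rfl⟩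
  have h := strong_law_ae_real (μ := W) (fun i : ℕ => f ∘ th^[i]) (by
      simpa using integrable_T hW) (by
      intro i j hij
      rcases lt_or_gt_of_ne hij with h | h
      · exact indep_iter hW mf mf hfx h
      · exact (indep_iter hW mf mf hfx h).symm) (by
      intro i
      refine ⟨(mf.comp (th_meas.iterate i)).aemeasurable, ?_, ?_⟩
      · simpa using mf.aemeasurable
      · rw [← Measure.map_map mf (th_meas.iterate i), ((th_mp hW).iterate i).map_eq]
        simp)
  have h2 : ∫ x, (f ∘ th^[0]) x ∂W = 1 := by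
    simpa using mean_T hW
  rw [h2] at h
  filter_upwards [h] with x hx
  refine hx.congr fun k => ?_
  congr 1
  simp [tau, hf]

/-- the event that the crossing times are not close to their means -/
def En (N : ℕ) (γ : ℝ) : Set Path := {x | ∃ k ≤ N, γ * N < |((tau k x : ℝ≥0) : ℝ) - k|}

omit hW

lemma tau_meas (k : ℕ) : Measurable (tau k) := by
  unfold tau
  exact Finset.measurable_fun_sum _ fun i _ => T_meas.comp (th_meas.iterate i)

lemma En_meas (N : ℕ) (γ : ℝ) : MeasurableSet (En N γ) := by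
  have e : En N γ = ⋃ k ∈ Finset.range (N + 1), {x | γ * N < |((tau k x : ℝ≥0) : ℝ) - k|} := by
    ext x
    simp only [En, mem_ofPred_eq, mem_iUnion, Finset.mem_range, exists_prop, Nat.lt_succ_iff]
  rw [e]
  refine Finset.measurableSet_biUnion _ fun k _ => ?_
  have m : Measurable (fun x => |((tau k x : ℝ≥0) : ℝ) - k|) :=
    ((measurable_coe_nnreal_real.comp (tau_meas k)).sub_const _).abs
  exact measurableSet_lt measurable_const m

include hW

lemma En_lim {γ : ℝ} (hγ : 0 < γ) : Tendsto (fun N => W (En N γ)) atTop (𝓝 0) := by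
  have hWp := isProb hW
  refine measure_null_lim (fun N => En_meas N γ) ?_
  filter_upwards [slln hW] with x hx
  filter_upwards [det_lln hx hγ] with N hN hmem
  obtain ⟨k, hk, hk2⟩ := hmem
  exact absurd (hN k hk) (not_le.2 hk2)

/-- the signs of the steps are independent and uniform -/
lemma sign_law (N : ℕ) (b : ℕ → Bool) :
    W {x | ∀ i < N, (ep (th^[i] x) = 1 ↔ b i = true)} = (1 / 2) ^ N := by
  have hWp := isProb hW
  induction N generalizing b with
  | zero => simp
  | succ N ih =>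
    have e : {x | ∀ i < N + 1, (ep (th^[i] x) = 1 ↔ b i = true)} =
        xi ⁻¹' {p | (p.2 = 1 ↔ b 0 = true)} ∩
          th ⁻¹' {x | ∀ i < N, (ep (th^[i] x) = 1 ↔ b (i + 1) = true)} := by
      ext x
      simp only [mem_ofPred_eq, mem_inter_iff, mem_preimage]
      constructor
      · intro h
        refine ⟨h 0 (by omega), fun i hi => ?_⟩
        have := h (i + 1) (by omega)
        rwa [Function.iterate_succ_apply] at this
      · rintro ⟨h1, h2⟩ i hi
        cases i with
        | zero => exact h1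
        | succ i =>
          rw [Function.iterate_succ_apply]
          exact h2 i (by omega)
    have m1 : MeasurableSet {p : ℝ≥0 × ℝ | (p.2 = 1 ↔ b 0 = true)} := by
      have h0 : MeasurableSet {p : ℝ≥0 × ℝ | p.2 = 1} := measurable_snd (measurableSet_singleton 1)
      cases hb : b 0 with
      | true => simpa using h0
      | false =>
        have : {p : ℝ≥0 × ℝ | (p.2 = 1 ↔ false = true)} = {p : ℝ≥0 × ℝ | p.2 = 1}ᶜ := by
          ext p; simp
        rw [this]
        exact h0.compl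
    have m2 : MeasurableSet {x : Path | ∀ i < N, (ep (th^[i] x) = 1 ↔ b (i + 1) = true)} := by
      have e2 : {x : Path | ∀ i < N, (ep (th^[i] x) = 1 ↔ b (i + 1) = true)} =
          ⋂ i ∈ Finset.range N, {x : Path | (ep (th^[i] x) = 1 ↔ b (i + 1) = true)} := by
        ext x; simp
      rw [e2]
      refine Finset.measurableSet_biInter _ fun i _ => ?_
      have h0 : MeasurableSet {x : Path | ep (th^[i] x) = 1} :=
        (ep_meas.comp (th_meas.iterate i)) (measurableSet_singleton 1)
      cases hb : b (i + 1) with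
      | true => simpa using h0
      | false =>
        have : {x : Path | (ep (th^[i] x) = 1 ↔ false = true)} = {x : Path | ep (th^[i] x) = 1}ᶜ := by
          ext p; simp
        rw [this]
        exact h0.compl
    rw [e, (indep_xi_th hW).measure_inter_preimage_eq_mul _ _ m1 m2,
      (th_mp hW).measure_preimage m2.nullMeasurableSet, ih, pow_succ, mul_comm]
    congr 1
    exact exit_half hW (b 0)

omit hW

/-! ### scaling and modulus of continuity -/

/-- Brownian scaling -/
noncomputable def sc (N : ℝ≥0) (x : Path) : Path := ⟨fun t => (√(N : ℝ))⁻¹ * x (N * t), by fun_prop⟩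

@[simp] lemma sc_apply (N : ℝ≥0) (x : Path) (t : ℝ≥0) : sc N x t = (√(N : ℝ))⁻¹ * x (N * t) := rfl

lemma sc_meas (N : ℝ≥0) : Measurable (sc N) := measurable_of_eval fun t => by
  simp only [sc_apply]
  exact (measurable_eval _).const_mul _

include hW in
lemma sc_mp {N : ℝ≥0} (hN : N ≠ 0) : MeasurePreserving (sc N) W W :=
  ⟨sc_meas N, law_unique1 hW (sc_meas N) (hW.smul hN).toIsPreBrownianReal⟩

/-- modulus of continuity -/
def Md (γ κ : ℝ) : Set Path := {y | ∀ s t : ℝ≥0, s ≤ 2 → t ≤ 2 → dist s t ≤ γ → |y s - y t| ≤ κ}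

lemma Md_meas (γ κ : ℝ) : MeasurableSet (Md γ κ) := by
  apply IsClosed.measurableSet
  have e : Md γ κ = ⋂ (s : ℝ≥0) (t : ℝ≥0) (_ : s ≤ 2) (_ : t ≤ 2) (_ : dist s t ≤ γ),
      {y : Path | |y s - y t| ≤ κ} := by
    ext y
    simp only [Md, mem_ofPred_eq, mem_iInter]
  rw [e]
  refine isClosed_iInter fun s => isClosed_iInter fun t => isClosed_iInter fun _ =>
    isClosed_iInter fun _ => isClosed_iInter fun _ => ?_
  exact isClosed_le (((continuous_eval_const s).sub (continuous_eval_const t)).abs) continuous_const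

lemma Md_lim [IsFiniteMeasure W] {κ : ℝ} (hκ : 0 < κ) :
    Tendsto (fun m : ℕ => W (Md (1 / ((m : ℝ) + 1)) κ)ᶜ) atTop (𝓝 0) := by
  refine measure_null_lim (fun m => (Md_meas _ _).compl) (ae_of_all _ fun y => ?_)
  have h := isCompact_Icc (a := (0 : ℝ≥0)) (b := 2) |>.uniformContinuousOn_of_continuous
    y.continuous.continuousOn
  obtain ⟨δ, hδ, h2⟩ := Metric.uniformContinuousOn_iff.1 h κ hκ
  obtain ⟨m0, hm0⟩ := exists_nat_one_div_lt hδ
  filter_upwards [eventually_ge_atTop m0] with m hm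
  simp only [mem_compl_iff, not_not]
  intro s t hs ht hst
  have h3 : 1 / ((m : ℝ) + 1) ≤ 1 / ((m0 : ℝ) + 1) := by
    apply one_div_le_one_div_of_le (by positivity)
    have : (m0 : ℝ) ≤ m := by exact_mod_cast hm
    linarith
  have := h2 s ⟨zero_le, hs⟩ t ⟨zero_le, ht⟩ (by linarith)
  rw [Real.dist_eq] at this
  exact this.le

/-- the embedded walk is close to the scaled path -/
lemma close {x : Path} (hx : x ∈ Gd) {N : ℕ} (hN : 0 < N) {γ κ : ℝ} (hγ1 : γ ≤ 1)
    (hE : x ∉ En N γ) (hM : sc N x ∈ Md γ κ) {k : ℕ} (hk : k ≤ N) :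
    |(Z k x : ℝ) / √(N : ℝ) - sc N x ((k : ℝ≥0) / N)| ≤ κ := by
  have hN' : (0 : ℝ) < N := by exact_mod_cast hN
  have hN0 : (N : ℝ≥0) ≠ 0 := by positivity
  have h1 : |((tau k x : ℝ≥0) : ℝ) - k| ≤ γ * N := by
    by_contra h
    exact hE ⟨k, hk, not_le.1 h⟩
  have e1 : (Z k x : ℝ) / √(N : ℝ) = sc N x (tau k x / N) := by
    rw [sc_apply, mul_div_cancel₀ _ hN0, Gd_walk hx, NNReal.coe_natCast, div_eq_inv_mul]
  rw [e1]
  have hkN : (k : ℝ) ≤ N := by exact_mod_cast hk
  apply hM
  · rw [← NNReal.coe_le_coe]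
    push_cast
    rw [div_le_iff₀ hN']
    have := (abs_le.1 h1).2
    nlinarith
  · rw [← NNReal.coe_le_coe]
    push_cast
    rw [div_le_iff₀ hN']
    linarith
  · rw [NNReal.dist_eq]
    push_cast
    rw [← sub_div, abs_div, abs_of_pos hN', div_le_iff₀ hN']
    exact h1

end Q297.Spn
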