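import Pool.Agent.Q297.SpC

/-!
Almost sure properties of the Brownian path: local maximal values and local minimal values at
different places are different, and the path is not monotone near zero.
-/

open MeasureTheory ProbabilityTheory Set Filter Topology
open scoped ENNReal NNReal
open Q297.PathC Q297.Prepend Q297.TwoS Q297.Dec

namespace Q297.Spn

variable {W : Measure Path}

/-- the maximum over an interval -/
noncomputable def hiF (a b : ℝ≥0) (x : Path) : ℝ := sSup (x '' Icc a b)
/-- the minimum over an interval -/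
noncomputable def loF (a b : ℝ≥0) (x : Path) : ℝ := sInf (x '' Icc a b)

lemma hiF_meas (a b : ℝ≥0) : Measurable (hiF a b) := by
  have h : Continuous (fun x : Path => sSup ((fun (x : Path) (t : ℝ≥0) => x t) x '' Icc a b)) :=
    IsCompact.continuous_sSup isCompact_Icc (by fun_prop)
  exact h.measurable

lemma loF_meas (a b : ℝ≥0) : Measurable (loF a b) := by
  have h : Continuous (fun x : Path => sInf ((fun (x : Path) (t : ℝ≥0) => x t) x '' Icc a b)) :=
    IsCompact.continuous_sInf isCompact_Icc (by fun_prop)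
  exact h.measurable

lemma stop_image (a b : ℝ≥0) (x : Path) : (stop b x) '' Icc a b = x '' Icc a b := by
  apply image_congr
  intro t ht
  rw [stop_apply, min_eq_left ht.2]

lemma shift_image {c d : ℝ≥0} (hcd : c ≤ d) (x : Path) :
    (shift c x) '' Icc 0 (d - c) = (fun v => v - x c) '' (x '' Icc c d) := by
  rw [image_image]
  ext v
  simp only [mem_image, mem_Icc, zero_le, true_and, shift_apply]
  constructor
  · rintro ⟨t, ht, rfl⟩
    refine ⟨c + t, ⟨le_self_add, ?_⟩, rfl⟩
    calc c + t ≤ c + (d - c) := by gcongr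
      _ = d := add_tsub_cancel_of_le hcd
  · rintro ⟨s, ⟨hs1, hs2⟩, rfl⟩
    exact ⟨s - c, by gcongr, by rw [add_tsub_cancel_of_le hs1]⟩

lemma shift_least {c d : ℝ≥0} (hcd : c ≤ d) {x : Path} {v : ℝ} (h : IsLeast (x '' Icc c d) v) :
    loF 0 (d - c) (shift c x) = v - x c := by
  unfold loF
  rw [shift_image hcd]
  apply IsLeast.csInf_eq
  refine ⟨mem_image_of_mem _ h.1, ?_⟩
  rintro _ ⟨w, hw, rfl⟩
  have := h.2 hw
  simp only
  linarith

lemma shift_greatest {c d : ℝ≥0} (hcd : c ≤ d) {x : Path} {v : ℝ}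
    (h : IsGreatest (x '' Icc c d) v) : hiF 0 (d - c) (shift c x) = v - x c := by
  unfold hiF
  rw [shift_image hcd]
  apply IsGreatest.csSup_eq
  refine ⟨mem_image_of_mem _ h.1, ?_⟩
  rintro _ ⟨w, hw, rfl⟩
  have := h.2 hw
  simp only
  linarith

variable (hW : IsBrownianReal (fun (t : ℝ≥0) (x : Path) => x t) W)

include hW

lemma W_ev {e : ℝ≥0} (he : 0 < e) (c : ℝ) : W {z : Path | z e = c} = 0 := by
  have h := hW.hasLaw_eval e
  have e1 : {z : Path | z e = c} = (fun z : Path => z e) ⁻¹' {c} := rfl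
  rw [e1, ← Measure.map_apply (measurable_eval _) (measurableSet_singleton c), h.map_eq]
  have := nullSingletonClass_gaussianReal (μ := 0) he.ne'
  exact measure_singleton c

lemma null1 {e : ℝ≥0} (he : 0 < e) {F : Path → ℝ} (hF : Measurable F) :
    W {z : Path | z e = F (shift e z)} = 0 := by
  have hWp := isProb hW
  have ms : Measurable (fun z : Path => (stop e z, shift e z)) :=
    (stop_meas1 e).prodMk (measurable_shift e)
  set G : Set (Path × Path) := {p | p.1 e = F p.2} with hG
  have mG : MeasurableSet G :=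
    measurableSet_eq_fun ((measurable_eval e).comp measurable_fst) (hF.comp measurable_snd)
  have e1 : {z : Path | z e = F (shift e z)} = (fun z : Path => (stop e z, shift e z)) ⁻¹' G := by
    ext z
    simp [hG]
  have hp : IsProbabilityMeasure (W.map (stop e)) :=
    Measure.isProbabilityMeasure_map (stop_meas1 e).aemeasurable
  rw [e1, ← Measure.map_apply ms mG, stop_shift hW e, Measure.prod_apply_symm mG]
  rw [lintegral_eq_zero_iff (measurable_measure_prodMk_right mG)]
  refine ae_of_all _ fun v => ?_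
  show (W.map (stop e)) ((fun u => (u, v)) ⁻¹' G) = 0
  have m1 : MeasurableSet ((fun u : Path => (u, v)) ⁻¹' G) := measurable_prodMk_right mG
  rw [Measure.map_apply (stop_meas1 e) m1]
  have e2 : stop e ⁻¹' ((fun u : Path => (u, v)) ⁻¹' G) = {z : Path | z e = F v} := by
    ext z
    simp [hG]
  rw [e2]
  exact W_ev hW he _

lemma null2 (b : ℝ≥0) {K G : Path → ℝ} (hK : Measurable K) (hG : Measurable G)
    (h0 : ∀ y, W {z | K z = y} = 0) : W {x : Path | K (shift b x) = G (stop b x)} = 0 := by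
  have hWp := isProb hW
  have ms : Measurable (fun z : Path => (stop b z, shift b z)) :=
    (stop_meas1 b).prodMk (measurable_shift b)
  set S : Set (Path × Path) := {p | K p.2 = G p.1} with hS
  have mS : MeasurableSet S :=
    measurableSet_eq_fun (hK.comp measurable_snd) (hG.comp measurable_fst)
  have e1 : {x : Path | K (shift b x) = G (stop b x)} =
      (fun z : Path => (stop b z, shift b z)) ⁻¹' S := rfl
  have hp : IsProbabilityMeasure (W.map (stop b)) :=
    Measure.isProbabilityMeasure_map (stop_meas1 b).aemeasurable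
  rw [e1, ← Measure.map_apply ms mS, stop_shift hW b, Measure.prod_apply mS]
  rw [lintegral_eq_zero_iff (measurable_measure_prodMk_left mS)]
  refine ae_of_all _ fun u => ?_
  exact h0 (G u)

lemma null3 (b : ℝ≥0) {e : ℝ≥0} (he : 0 < e) {F G : Path → ℝ} (hF : Measurable F)
    (hG : Measurable G) :
    W {x : Path | (x (b + e) - x b) + F (shift (b + e) x) = G (stop b x)} = 0 := by
  set K : Path → ℝ := fun z => z e + F (shift e z) with hK
  have mK : Measurable K := (measurable_eval e).add (hF.comp (measurable_shift e))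
  have h := null2 hW b mK hG (fun y => by
    have h1 := null1 hW he (F := fun z => y - F z) (measurable_const.sub hF)
    refine measure_mono_null ?_ h1
    intro z hz
    have hz' : z e + F (shift e z) = y := hz
    show z e = y - F (shift e z)
    linarith)
  refine measure_mono_null ?_ h
  intro x hx
  show (shift b x) e + F (shift e (shift b x)) = G (stop b x)
  rw [shift_shift]
  exact hx

lemma ae_up {a b c d : ℝ≥0} (hbc : b < c) (hcd : c ≤ d) :
    ∀ᵐ x : Path ∂W, ∀ v, IsGreatest (x '' Icc a b) v → ¬ IsLeast (x '' Icc c d) v := by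
  have he : 0 < c - b := tsub_pos_of_lt hbc
  have hbe : b + (c - b) = c := add_tsub_cancel_of_le hbc.le
  have h := null3 hW b he (loF_meas 0 (d - c)) ((hiF_meas a b).sub (measurable_eval b))
  rw [hbe] at h
  have h' : ∀ᵐ x ∂W, ¬ ((x c - x b) + loF 0 (d - c) (shift c x) =
      (hiF a b - fun x : Path => x b) (stop b x)) := measure_eq_zero_iff_ae_notMem.1 h
  filter_upwards [h'] with x hx v hv1 hv2
  apply hx
  rw [shift_least hcd hv2]
  simp only [Pi.sub_apply, stop_apply, min_self]
  have : hiF a b (stop b x) = v := by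
    unfold hiF
    rw [stop_image]
    exact hv1.csSup_eq
  rw [this]
  ring

lemma ae_dn {a b c d : ℝ≥0} (hbc : b < c) (hcd : c ≤ d) :
    ∀ᵐ x : Path ∂W, ∀ v, IsLeast (x '' Icc a b) v → ¬ IsGreatest (x '' Icc c d) v := by
  have he : 0 < c - b := tsub_pos_of_lt hbc
  have hbe : b + (c - b) = c := add_tsub_cancel_of_le hbc.le
  have h := null3 hW b he (hiF_meas 0 (d - c)) ((loF_meas a b).sub (measurable_eval b))
  rw [hbe] at h
  have h' : ∀ᵐ x ∂W, ¬ ((x c - x b) + hiF 0 (d - c) (shift c x) =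
      (loF a b - fun x : Path => x b) (stop b x)) := measure_eq_zero_iff_ae_notMem.1 h
  filter_upwards [h'] with x hx v hv1 hv2
  apply hx
  rw [shift_greatest hcd hv2]
  simp only [Pi.sub_apply, stop_apply, min_self]
  have : loF a b (stop b x) = v := by
    unfold loF
    rw [stop_image]
    exact hv1.csInf_eq
  rw [this]
  ring

omit hW in
lemma gauss_half {v : ℝ≥0} (hv : v ≠ 0) : gaussianReal 0 v (Ici 0) = 1 / 2 := by
  have hna := nullSingletonClass_gaussianReal (μ := 0) hv
  have h1 : gaussianReal 0 v (Iic 0) = gaussianReal 0 v (Ici 0) := by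
    have h2 := gaussianReal_map_neg (μ := 0) (v := v)
    rw [neg_zero] at h2
    conv_rhs => rw [← h2]
    rw [Measure.map_apply (by fun_prop) measurableSet_Ici]
    congr 1
    ext x
    simp
  have h3 : gaussianReal 0 v (Iio 0) = gaussianReal 0 v (Iic 0) := measure_congr Iio_ae_eq_Iic
  have h4 : gaussianReal 0 v (Iio 0) + gaussianReal 0 v (Ici 0) = 1 := by
    rw [← measure_union (by
      rw [Set.disjoint_left]; intro x hx hx2; exact (not_lt.2 (mem_Ici.1 hx2)) (mem_Iio.1 hx)) measurableSet_Ici,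
      Iio_union_Ici, measure_univ]
  rw [h3, h1, ← two_mul] at h4
  rw [ENNReal.eq_div_iff (by norm_num) (by norm_num)]
  exact h4

lemma ae_not_mono {q : ℝ≥0} (hq : 0 < q) : ∀ᵐ x : Path ∂W, ¬ MonotoneOn x (Icc 0 q) := by
  have hWp := isProb hW
  have key : ∀ n : ℕ, W {x : Path | MonotoneOn x (Icc 0 q)} ≤ (1 / 2) ^ (n + 1) := by
    intro n
    set t : ℕ → ℝ≥0 := fun i => q * i / (n + 1) with ht
    have htm : Monotone t := by
      intro i j hij
      simp only [ht]
      gcongr
    have hI := hW.hasIndepIncrements.nat htm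
    have hsub : {x : Path | MonotoneOn x (Icc 0 q)} ⊆
        ⋂ i ∈ Finset.range (n + 1), (fun x : Path => x (t (i + 1)) - x (t i)) ⁻¹' Ici 0 := by
      intro x hx
      simp only [mem_iInter, Finset.mem_range, mem_preimage, mem_Ici]
      intro i hi
      have hle : ∀ j ≤ n + 1, t j ≤ q := by
        intro j hj
        simp only [ht]
        rw [div_le_iff₀ (by positivity)]
        gcongr
        exact_mod_cast hj
      have := hx (show t i ∈ Icc 0 q from ⟨zero_le, hle i (by omega)⟩)
        (show t (i + 1) ∈ Icc 0 q from ⟨zero_le, hle (i + 1) (by omega)⟩) (htm (Nat.le_succ i))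
      linarith
    refine (measure_mono hsub).trans ?_
    rw [hI.measure_inter_preimage_eq_mul (Finset.range (n + 1)) (sets := fun _ => Ici 0)
      (fun i _ => measurableSet_Ici)]
    have hone : ∀ i : ℕ, W ((fun x : Path => x (t (i + 1)) - x (t i)) ⁻¹' Ici 0) = 1 / 2 := by
      intro i
      have hl := hW.hasLaw_sub (t (i + 1)) (t i)
      have m : Measurable (fun x : Path => x (t (i + 1)) - x (t i)) :=
        (measurable_eval _).sub (measurable_eval _)
      rw [← Measure.map_apply m measurableSet_Ici]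
      have e : W.map (fun x : Path => x (t (i + 1)) - x (t i)) =
          gaussianReal 0 (nndist (t (i + 1)).1 (t i).1) := hl.map_eq
      rw [e]
      apply gauss_half
      intro h0
      have h1 : (t (i + 1)).1 = (t i).1 := by rwa [nndist_eq_zero] at h0
      have h2 : t (i + 1) = t i := Subtype.ext h1
      simp only [ht] at h2
      have h3 : (0 : ℝ≥0) < (n : ℝ≥0) + 1 := by positivity
      rw [div_left_inj' h3.ne', mul_right_inj' hq.ne'] at h2
      push_cast at h2
      simp at h2
    rw [Finset.prod_congr rfl (fun i _ => hone i), Finset.prod_const, Finset.card_range]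
  have h4 : Tendsto (fun n : ℕ => ((1 : ℝ≥0∞) / 2) ^ (n + 1)) atTop (𝓝 0) := by
    have := ENNReal.tendsto_pow_atTop_nhds_zero_of_lt_one (r := 1 / 2) (by
      rw [one_div]
      exact ENNReal.inv_lt_one.2 (by norm_num))
    exact this.comp (tendsto_add_atTop_nat 1)
  have h5 : W {x : Path | MonotoneOn x (Icc 0 q)} = 0 :=
    le_antisymm (ge_of_tendsto' h4 key) bot_le
  rw [ae_iff]
  simpa using h5

omit hW in
/-- the almost sure properties which are needed -/
structure Nice (x : Path) : Prop where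
  zero : x 0 = 0
  up : ∀ D i j : ℕ, 0 < D → i + 1 < j → ∀ v,
    IsGreatest (x '' Icc ((i : ℝ≥0) / D) (((i : ℝ≥0) + 1) / D)) v →
    ¬ IsLeast (x '' Icc ((j : ℝ≥0) / D) (((j : ℝ≥0) + 1) / D)) v
  dn : ∀ D i j : ℕ, 0 < D → i + 1 < j → ∀ v,
    IsLeast (x '' Icc ((i : ℝ≥0) / D) (((i : ℝ≥0) + 1) / D)) v →
    ¬ IsGreatest (x '' Icc ((j : ℝ≥0) / D) (((j : ℝ≥0) + 1) / D)) v
  mono : ∀ m : ℕ, ¬ MonotoneOn x (Icc 0 (1 / ((m : ℝ≥0) + 1)))
  anti : ∀ m : ℕ, ¬ AntitoneOn x (Icc 0 (1 / ((m : ℝ≥0) + 1)))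
  one : x 1 ≠ 0

theorem ae_nice : ∀ᵐ x ∂W, Nice x := by
  have hcell : ∀ D i j : ℕ, 0 < D → i + 1 < j →
      (((i : ℝ≥0) + 1) / D < (j : ℝ≥0) / D ∧ (j : ℝ≥0) / D ≤ ((j : ℝ≥0) + 1) / D) := by
    intro D i j hD hij
    have hD' : (0 : ℝ≥0) < D := by exact_mod_cast hD
    constructor
    · rw [div_lt_div_iff_of_pos_right hD']
      exact_mod_cast hij
    · gcongr
      exact le_self_add
  have h1 : ∀ᵐ x : Path ∂W, ∀ D i j : ℕ, 0 < D → i + 1 < j → ∀ v,
      IsGreatest (x '' Icc ((i : ℝ≥0) / D) (((i : ℝ≥0) + 1) / D)) v →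
      ¬ IsLeast (x '' Icc ((j : ℝ≥0) / D) (((j : ℝ≥0) + 1) / D)) v := by
    refine ae_all_iff.2 fun D => ae_all_iff.2 fun i => ae_all_iff.2 fun j => ?_
    by_cases hD : 0 < D ∧ i + 1 < j
    · filter_upwards [ae_up hW (hcell D i j hD.1 hD.2).1 (hcell D i j hD.1 hD.2).2] with x hx _ _
      exact hx
    · exact ae_of_all _ fun x h1 h2 => absurd ⟨h1, h2⟩ hD
  have h2 : ∀ᵐ x : Path ∂W, ∀ D i j : ℕ, 0 < D → i + 1 < j → ∀ v,
      IsLeast (x '' Icc ((i : ℝ≥0) / D) (((i : ℝ≥0) + 1) / D)) v →
      ¬ IsGreatest (x '' Icc ((j : ℝ≥0) / D) (((j : ℝ≥0) + 1) / D)) v := by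
    refine ae_all_iff.2 fun D => ae_all_iff.2 fun i => ae_all_iff.2 fun j => ?_
    by_cases hD : 0 < D ∧ i + 1 < j
    · filter_upwards [ae_dn hW (hcell D i j hD.1 hD.2).1 (hcell D i j hD.1 hD.2).2] with x hx _ _
      exact hx
    · exact ae_of_all _ fun x h1 h2 => absurd ⟨h1, h2⟩ hD
  have h3 : ∀ᵐ x : Path ∂W, ∀ m : ℕ, ¬ MonotoneOn x (Icc 0 (1 / ((m : ℝ≥0) + 1))) :=
    ae_all_iff.2 fun m => ae_not_mono hW (by positivity)
  have h4 : ∀ᵐ x : Path ∂W, ∀ m : ℕ, ¬ AntitoneOn x (Icc 0 (1 / ((m : ℝ≥0) + 1))) := by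
    have h5 := (ng_mp hW).quasiMeasurePreserving.ae h3
    filter_upwards [h5] with x hx m hm
    apply hx m
    intro s hs t ht hst
    have := hm hs ht hst
    simp only [ng_apply]
    linarith
  have h6 : ∀ᵐ x : Path ∂W, x 1 ≠ 0 := measure_eq_zero_iff_ae_notMem.1 (W_ev hW one_pos 0)
  filter_upwards [W_zero hW, h1, h2, h3, h4, h6] with x a1 a2 a3 a4 a5 a6
  exact ⟨a1, a2, a3, a4, a5, a6⟩

end Q297.Spn
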