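import Pool.Agent.Q297.SpD

/-!
Deterministic part: close to the lag of a repetition there are lags with a strict change of sign.
-/

open MeasureTheory ProbabilityTheory Set Filter Topology
open scoped ENNReal NNReal
open Q297.PathC Q297.Prepend Q297.TwoS Q297.Dec

namespace Q297.Spn

/-- the increments over the lag `u` take values above `η` and values below `-η` -/
def SC (f : Path) (u : ℝ≥0) (η : ℝ) : Prop :=
  (∃ s, s + u ≤ 1 ∧ η < f (s + u) - f s) ∧ (∃ s, s + u ≤ 1 ∧ η < f s - f (s + u))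

lemma Nice.neg {x : Path} (h : Nice x) : Nice (ng x) := by
  have hi : ∀ (S : Set ℝ≥0) (v : ℝ), IsGreatest (ng x '' S) v → IsLeast (x '' S) (-v) := by
    rintro S v ⟨⟨t, ht, htv⟩, h2⟩
    refine ⟨⟨t, ht, ?_⟩, ?_⟩
    · rw [← htv]; simp
    · rintro _ ⟨s, hs, rfl⟩
      have := h2 (mem_image_of_mem _ hs)
      simp only [ng_apply] at this
      linarith
  have lo : ∀ (S : Set ℝ≥0) (v : ℝ), IsLeast (ng x '' S) v → IsGreatest (x '' S) (-v) := by
    rintro S v ⟨⟨t, ht, htv⟩, h2⟩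
    refine ⟨⟨t, ht, ?_⟩, ?_⟩
    · rw [← htv]; simp
    · rintro _ ⟨s, hs, rfl⟩
      have := h2 (mem_image_of_mem _ hs)
      simp only [ng_apply] at this
      linarith
  refine ⟨by simp [h.zero], ?_, ?_, ?_, ?_, by simp [h.one]⟩
  · intro D i j hD hij v h1 h2
    exact h.dn D i j hD hij (-v) (hi _ _ h1) (lo _ _ h2)
  · intro D i j hD hij v h1 h2
    exact h.up D i j hD hij (-v) (lo _ _ h1) (hi _ _ h2)
  · intro m hm
    apply h.anti m
    intro a ha b hb hab
    have := hm ha hb hab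
    simp only [ng_apply] at this
    linarith
  · intro m hm
    apply h.mono m
    intro a ha b hb hab
    have := hm ha hb hab
    simp only [ng_apply] at this
    linarith

lemma SC.neg {f : Path} {u : ℝ≥0} {η : ℝ} (h : SC (ng f) u η) : SC f u η := by
  obtain ⟨⟨s, hs, h1⟩, ⟨s', hs', h2⟩⟩ := h
  simp only [ng_apply] at h1 h2
  exact ⟨⟨s', hs', by linarith⟩, ⟨s, hs, by linarith⟩⟩

/-- first case: some increment over the lag `u` is positive -/
lemma caseA {f : Path} (hf : Nice f) {s0 u : ℝ≥0} (h01 : s0 + u ≤ 1) (h0 : f (s0 + u) = f s0)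
    {ρ : ℝ} (hρ : 0 < ρ) {s1 : ℝ≥0} (h11 : s1 + u ≤ 1) (h1 : f s1 < f (s1 + u)) :
    ∃ u', dist u' u < ρ ∧ SC f u' 0 := by
  by_contra hno
  push Not at hno
  have hu : 0 < u := by
    rw [pos_iff_ne_zero]
    rintro rfl
    simp at h1
  -- an interior point
  obtain ⟨s2, hs2, h2⟩ : ∃ s2, s2 + u < 1 ∧ f s2 < f (s2 + u) := by
    rcases h11.lt_or_eq with h | h
    · exact ⟨s1, h, h1⟩
    · have hs1 : 0 < s1 := by
        rw [pos_iff_ne_zero]
        rintro rfl
        rw [zero_add] at h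
        subst h
        have : s0 = 0 := by
          have h3 : s0 + 1 ≤ 0 + 1 := by simpa using h01
          exact le_antisymm (by simpa using h3) zero_le
        subst this
        rw [h0] at h1
        exact lt_irrefl _ h1
      have hc : ContinuousAt (fun s : ℝ≥0 => f (s + u) - f s) s1 := by
        apply Continuous.continuousAt
        fun_prop
      have hpos : ∀ᶠ s in 𝓝 s1, 0 < f (s + u) - f s :=
        hc.eventually (lt_mem_nhds (by linarith))
      obtain ⟨δ, hδ, h3⟩ := Metric.eventually_nhds_iff.1 hpos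
      have hδ' : 0 < δ.toNNReal := Real.toNNReal_pos.2 hδ
      set e : ℝ≥0 := min (δ.toNNReal / 2) s1 with he
      have he0 : 0 < e := lt_min (by positivity) hs1
      have he1 : e ≤ s1 := min_le_right _ _
      have he2 : (e : ℝ) < δ := by
        have : e < δ.toNNReal := (min_le_left _ _).trans_lt (half_lt_self hδ')
        have h4 : (e : ℝ) < (δ.toNNReal : ℝ) := by exact_mod_cast this
        rwa [Real.coe_toNNReal δ hδ.le] at h4
      refine ⟨s1 - e, ?_, ?_⟩
      · have : s1 - e < s1 := tsub_lt_self hs1 he0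
        calc s1 - e + u < s1 + u := by gcongr
          _ = 1 := h
      · have h5 := h3 (y := s1 - e) (by
          rw [NNReal.dist_eq, NNReal.coe_sub he1]
          rw [show ((s1 : ℝ) - e - s1) = -e by ring, abs_neg, abs_of_nonneg (NNReal.coe_nonneg _)]
          exact he2)
        linarith
  -- persistence
  have hc : ContinuousAt (fun v : ℝ≥0 => f (s2 + v) - f s2) u := by
    apply Continuous.continuousAt
    fun_prop
  have hpos : ∀ᶠ v in 𝓝 u, 0 < f (s2 + v) - f s2 := hc.eventually (lt_mem_nhds (by linarith))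
  have hc2 : ∀ᶠ v in 𝓝 u, s2 + v < 1 := by
    have : ContinuousAt (fun v : ℝ≥0 => s2 + v) u := by
      apply Continuous.continuousAt
      fun_prop
    exact this.eventually (gt_mem_nhds hs2)
  obtain ⟨δ, hδ, h3⟩ := Metric.eventually_nhds_iff.1 (hpos.and hc2)
  set r : ℝ := min (min δ ρ) u with hr
  have hr0 : 0 < r := lt_min (lt_min hδ hρ) (by exact_mod_cast hu)
  have hrδ : r ≤ δ := (min_le_left _ _).trans (min_le_left _ _)
  have hrρ : r ≤ ρ := (min_le_left _ _).trans (min_le_right _ _)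
  have hru : r ≤ u := min_le_right _ _
  have key : ∀ u', dist u' u < r → ∀ s', s' + u' ≤ 1 → f s' ≤ f (s' + u') := by
    intro u' hu' s' hs'
    by_contra hcon
    push Not at hcon
    apply hno u' (hu'.trans_le hrρ)
    obtain ⟨h4, h5⟩ := h3 (hu'.trans_le hrδ)
    exact ⟨⟨s2, h5.le, h4⟩, ⟨s', hs', by linarith⟩⟩
  set t0 : ℝ≥0 := s0 + u with ht0
  have hmin : ∀ t : ℝ≥0, t ≤ 1 → dist t t0 < r → f t0 ≤ f t := by
    intro t ht1 ht
    rw [NNReal.dist_eq, ht0, NNReal.coe_add] at ht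
    have hts : s0 ≤ t := by
      rw [← NNReal.coe_le_coe]
      have := (abs_lt.1 ht).1
      linarith
    have h4 := key (t - s0) (by
      rw [NNReal.dist_eq, NNReal.coe_sub hts]
      rwa [show ((t : ℝ) - s0 - u) = t - (s0 + u) by ring]) s0 (by
      rw [add_tsub_cancel_of_le hts]; exact ht1)
    rw [add_tsub_cancel_of_le hts] at h4
    rw [h0]
    exact h4
  have hmax : ∀ s : ℝ≥0, dist s s0 < r → f s ≤ f s0 := by
    intro s hs
    rw [NNReal.dist_eq] at hs
    have hst : s ≤ t0 := by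
      rw [← NNReal.coe_le_coe, ht0, NNReal.coe_add]
      have := (abs_lt.1 hs).2
      linarith
    have h4 := key (t0 - s) (by
      rw [NNReal.dist_eq, NNReal.coe_sub hst, ht0, NNReal.coe_add]
      rwa [show ((s0 : ℝ) + u - s - u) = -(s - s0) by ring, abs_neg]) s (by
      rw [add_tsub_cancel_of_le hst]; exact h01)
    rw [add_tsub_cancel_of_le hst, h0] at h4
    exact h4
  -- the cells
  obtain ⟨D, hD⟩ := exists_nat_gt (3 / r)
  have hD0 : (0 : ℝ) < D := (by positivity : (0 : ℝ) < 3 / r).trans hD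
  have hDn : 0 < D := by exact_mod_cast hD0
  have hDr : 3 / (D : ℝ) < r := by
    rw [div_lt_iff₀ hr0] at hD
    rw [div_lt_iff₀ hD0]
    linarith
  have hD1 : 1 / (D : ℝ) < r := lt_of_le_of_lt (by gcongr; norm_num) hDr
  have hDNN : (0 : ℝ≥0) < D := by exact_mod_cast hDn
  set i : ℕ := ⌊s0 * D⌋₊ with hi
  set j : ℕ := min ⌊t0 * D⌋₊ (D - 1) with hj
  have hi1 : (i : ℝ≥0) ≤ s0 * D := Nat.floor_le zero_le
  have hi2 : s0 * D < (i : ℝ≥0) + 1 := Nat.lt_floor_add_one _
  have hts3 : s0 * D + 3 ≤ t0 * D := by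
    rw [← NNReal.coe_le_coe]
    push_cast
    rw [ht0, NNReal.coe_add]
    have h4 : 3 / (D : ℝ) < u := hDr.trans_le hru
    rw [div_lt_iff₀ hD0] at h4
    nlinarith
  have ht0D : t0 * D ≤ D := by
    calc t0 * D ≤ 1 * D := by gcongr
      _ = D := one_mul _
  have hiD : i + 3 ≤ D := by
    have h4 : (i : ℝ≥0) + 3 ≤ D := by
      calc (i : ℝ≥0) + 3 ≤ s0 * D + 3 := by gcongr
        _ ≤ t0 * D := hts3
        _ ≤ D := ht0D
    exact_mod_cast h4
  have hij : i + 1 < j := by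
    rw [hj, lt_min_iff]
    constructor
    · have h4 : i + 3 ≤ ⌊t0 * D⌋₊ := by
        rw [Nat.le_floor_iff zero_le]
        push_cast
        calc (i : ℝ≥0) + 3 ≤ s0 * D + 3 := by gcongr
          _ ≤ t0 * D := hts3
      omega
    · omega
  have hj1 : (j : ℝ≥0) ≤ t0 * D := by
    calc (j : ℝ≥0) ≤ (⌊t0 * D⌋₊ : ℝ≥0) := by exact_mod_cast min_le_left _ _
      _ ≤ t0 * D := Nat.floor_le zero_le
  have hj2 : t0 * D ≤ (j : ℝ≥0) + 1 := by
    rcases min_choice ⌊t0 * D⌋₊ (D - 1) with h4 | h4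
    · rw [hj, h4]
      exact (Nat.lt_floor_add_one _).le
    · rw [hj, h4]
      have h5 : D - 1 + 1 = D := by omega
      calc t0 * D ≤ (D : ℝ≥0) := ht0D
        _ = ((D - 1 + 1 : ℕ) : ℝ≥0) := by rw [h5]
        _ = ((D - 1 : ℕ) : ℝ≥0) + 1 := by push_cast; rfl
  have hj3 : j + 1 ≤ D := by
    have : j ≤ D - 1 := min_le_right _ _
    omega
  refine hf.up D i j hDn hij (f s0) ⟨⟨s0, ⟨?_, ?_⟩, rfl⟩, ?_⟩ ⟨⟨t0, ⟨?_, ?_⟩, h0⟩, ?_⟩
  · rw [div_le_iff₀ hDNN]; exact hi1
  · rw [le_div_iff₀ hDNN]; exact hi2.le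
  · rintro _ ⟨t, ⟨hta, htb⟩, rfl⟩
    apply hmax
    rw [div_le_iff₀ hDNN] at hta
    rw [le_div_iff₀ hDNN] at htb
    refine lt_of_le_of_lt ?_ hD1
    rw [NNReal.dist_eq, le_div_iff₀ hD0, ← abs_of_pos hD0, ← abs_mul, abs_le]
    have a1 : (i : ℝ) ≤ t * D := by exact_mod_cast hta
    have a2 : (t : ℝ) * D ≤ i + 1 := by exact_mod_cast htb
    have a3 : (i : ℝ) ≤ s0 * D := by exact_mod_cast hi1
    have a4 : (s0 : ℝ) * D ≤ i + 1 := by exact_mod_cast hi2.le
    constructor <;> nlinarith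
  · rw [div_le_iff₀ hDNN]; exact hj1
  · rw [le_div_iff₀ hDNN]; exact hj2
  · rintro _ ⟨t, ⟨hta, htb⟩, rfl⟩
    rw [← h0]
    have ht1 : t ≤ 1 := by
      refine htb.trans ?_
      rw [div_le_one hDNN]
      exact_mod_cast hj3
    apply hmin t ht1
    rw [div_le_iff₀ hDNN] at hta
    rw [le_div_iff₀ hDNN] at htb
    refine lt_of_le_of_lt ?_ hD1
    rw [NNReal.dist_eq, le_div_iff₀ hD0, ← abs_of_pos hD0, ← abs_mul, abs_le]
    have a1 : (j : ℝ) ≤ t * D := by exact_mod_cast hta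
    have a2 : (t : ℝ) * D ≤ j + 1 := by exact_mod_cast htb
    have a3 : (j : ℝ) ≤ t0 * D := by exact_mod_cast hj1
    have a4 : (t0 : ℝ) * D ≤ j + 1 := by exact_mod_cast hj2
    constructor <;> nlinarith

lemma iter_le {f : Path} {v L : ℝ≥0} (h : ∀ s, s + v ≤ L → f s ≤ f (s + v)) (a : ℝ≥0) :
    ∀ k : ℕ, a + k * v ≤ L → f a ≤ f (a + k * v) := by
  intro k
  induction k with
  | zero => simp
  | succ k ih =>
    intro hk
    have e : a + ((k + 1 : ℕ) : ℝ≥0) * v = (a + k * v) + v := by push_cast; ring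
    rw [e] at hk ⊢
    exact (ih (le_self_add.trans hk)).trans (h _ hk)

lemma iter_ge {f : Path} {v L : ℝ≥0} (h : ∀ s, s + v ≤ L → f (s + v) ≤ f s) (a : ℝ≥0) :
    ∀ k : ℕ, a + k * v ≤ L → f (a + k * v) ≤ f a := by
  intro k
  induction k with
  | zero => simp
  | succ k ih =>
    intro hk
    have e : a + ((k + 1 : ℕ) : ℝ≥0) * v = (a + k * v) + v := by push_cast; ring
    rw [e] at hk ⊢
    exact (h _ hk).trans (ih (le_self_add.trans hk))

/-- close to `b` from below along multiples of a small step -/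
lemma approx_step {a b : ℝ≥0} (hab : a ≤ b) {v : ℝ≥0} (hv : 0 < v) :
    ∃ k : ℕ, a + k * v ≤ b ∧ dist (a + k * v) b < v := by
  refine ⟨⌊(b - a) / v⌋₊, ?_, ?_⟩
  · have h1 : (⌊(b - a) / v⌋₊ : ℝ≥0) ≤ (b - a) / v := Nat.floor_le zero_le
    rw [le_div_iff₀ hv] at h1
    calc a + ⌊(b - a) / v⌋₊ * v ≤ a + (b - a) := by gcongr
      _ = b := add_tsub_cancel_of_le hab
  · have h1 : (⌊(b - a) / v⌋₊ : ℝ≥0) ≤ (b - a) / v := Nat.floor_le zero_le
    have h2 : (b - a) / v < (⌊(b - a) / v⌋₊ : ℝ≥0) + 1 := Nat.lt_floor_add_one _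
    rw [le_div_iff₀ hv] at h1
    rw [div_lt_iff₀ hv] at h2
    have h1' : ((⌊(b - a) / v⌋₊ : ℕ) : ℝ) * v ≤ b - a := by
      rw [← NNReal.coe_sub hab]; exact_mod_cast h1
    have h2' : (b : ℝ) - a < (((⌊(b - a) / v⌋₊ : ℕ) : ℝ) + 1) * v := by
      rw [← NNReal.coe_sub hab]; exact_mod_cast h2
    rw [NNReal.dist_eq, abs_lt]
    push_cast
    have hv' : (0 : ℝ) < v := by exact_mod_cast hv
    constructor <;> nlinarith

/-- second case: all increments over the lag `u` vanish -/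
lemma caseB {f : Path} (hf : Nice f) {u : ℝ≥0} (hu : u ≤ 1)
    (hall : ∀ s, s + u ≤ 1 → f (s + u) = f s) {ρ : ℝ} (hρ : 0 < ρ) :
    ∃ u', dist u' u < ρ ∧ SC f u' 0 := by
  by_contra hno
  push Not at hno
  have hu1 : u < 1 := by
    rcases hu.lt_or_eq with h | h
    · exact h
    · subst h
      have := hall 0 (by simp)
      rw [zero_add, hf.zero] at this
      exact absurd this hf.one
  set L : ℝ≥0 := 1 - u with hL
  have hL0 : 0 < L := tsub_pos_of_lt hu1
  have huL : u + L = 1 := add_tsub_cancel_of_le hu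
  have hsign : ∀ v : ℝ≥0, (v : ℝ) < ρ → (∀ s, s + v ≤ L → f s ≤ f (s + v)) ∨
      (∀ s, s + v ≤ L → f (s + v) ≤ f s) := by
    intro v hv
    have h1 := hno (u + v) (by
      rw [NNReal.dist_eq, NNReal.coe_add, add_sub_cancel_left, abs_of_nonneg (NNReal.coe_nonneg _)]
      exact hv)
    have h2 : ∀ s, s + v ≤ L → s + (u + v) ≤ 1 ∧ f (s + (u + v)) = f (s + v) := by
      intro s hs
      have h3 : s + v + u ≤ 1 := by
        calc s + v + u ≤ L + u := by gcongr
          _ = 1 := by rw [add_comm]; exact huL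
      have e : s + (u + v) = s + v + u := by ring
      rw [e]
      exact ⟨h3, hall _ h3⟩
    by_contra hcon
    push Not at hcon
    obtain ⟨⟨s, hs, hs2⟩, ⟨s', hs', hs2'⟩⟩ := hcon
    apply h1
    refine ⟨⟨s', (h2 s' hs').1, ?_⟩, ⟨s, (h2 s hs).1, ?_⟩⟩
    · rw [(h2 s' hs').2]; linarith
    · rw [(h2 s hs).2]; linarith
  have hmm : MonotoneOn f (Icc 0 L) ∨ AntitoneOn f (Icc 0 L) := by
    by_contra hcon
    rw [not_or] at hcon
    obtain ⟨h1, h2⟩ := hcon
    unfold MonotoneOn at h1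
    unfold AntitoneOn at h2
    push Not at h1 h2
    obtain ⟨a, ha, b, hb, hab, hfab⟩ := h1
    obtain ⟨c, hc, d, hd, hcd, hfcd⟩ := h2
    have e1 : ∀ᶠ t in 𝓝 b, f t < f a := f.continuous.continuousAt.eventually (gt_mem_nhds hfab)
    have e2 : ∀ᶠ t in 𝓝 d, f c < f t := f.continuous.continuousAt.eventually (lt_mem_nhds hfcd)
    obtain ⟨δ1, hδ1, h3⟩ := Metric.eventually_nhds_iff.1 e1
    obtain ⟨δ2, hδ2, h4⟩ := Metric.eventually_nhds_iff.1 e2
    set r : ℝ := min (min δ1 δ2) ρ / 2 with hr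
    have hr0 : 0 < min (min δ1 δ2) ρ := lt_min (lt_min hδ1 hδ2) hρ
    set v : ℝ≥0 := r.toNNReal with hv
    have hvr : (v : ℝ) = r := Real.coe_toNNReal r (by positivity)
    have hv0 : 0 < v := Real.toNNReal_pos.2 (by positivity)
    have hm1 : min (min δ1 δ2) ρ ≤ δ1 := (min_le_left _ _).trans (min_le_left _ _)
    have hm2 : min (min δ1 δ2) ρ ≤ δ2 := (min_le_left _ _).trans (min_le_right _ _)
    have hm3 : min (min δ1 δ2) ρ ≤ ρ := min_le_right _ _
    rcases hsign v (by rw [hvr]; linarith) with h5 | h5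
    · obtain ⟨k, hk1, hk2⟩ := approx_step hab hv0
      have h6 := iter_le h5 a k (hk1.trans hb.2)
      have h7 := h3 (hk2.trans (by rw [hvr]; linarith))
      linarith
    · obtain ⟨k, hk1, hk2⟩ := approx_step hcd hv0
      have h6 := iter_ge h5 c k (hk1.trans hd.2)
      have h7 := h4 (hk2.trans (by rw [hvr]; linarith))
      linarith
  obtain ⟨m, hm⟩ := exists_nat_one_div_lt (K := ℝ≥0) hL0
  have hsub : Icc 0 (1 / ((m : ℝ≥0) + 1)) ⊆ Icc 0 L := Icc_subset_Icc le_rfl hm.le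
  rcases hmm with h | h
  · exact hf.mono m (h.mono hsub)
  · exact hf.anti m (h.mono hsub)

/-- near the lag of a repetition there is a lag with a strict change of sign -/
theorem nice_sc {f : Path} (hf : Nice f) {s0 u : ℝ≥0} (h01 : s0 + u ≤ 1)
    (h0 : f (s0 + u) = f s0) {ρ : ℝ} (hρ : 0 < ρ) : ∃ u', dist u' u < ρ ∧ SC f u' 0 := by
  by_cases hA : ∃ s1, s1 + u ≤ 1 ∧ f s1 < f (s1 + u)
  · obtain ⟨s1, h11, h1⟩ := hA
    exact caseA hf h01 h0 hρ h11 h1
  by_cases hA' : ∃ s1, s1 + u ≤ 1 ∧ f (s1 + u) < f s1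
  · obtain ⟨s1, h11, h1⟩ := hA'
    obtain ⟨u', h2, h3⟩ := caseA hf.neg h01 (by simp [h0]) hρ h11 (by simpa using h1)
    exact ⟨u', h2, h3.neg⟩
  push Not at hA hA'
  exact caseB hf (le_add_self.trans h01) (fun s hs => le_antisymm (hA s hs) (hA' s hs)) hρ

/-! ### the good sets -/

/-- first alternative: no approximate repetition with lag in the cell -/
def GA (η : ℝ) (J j : ℕ) : Set Path :=
  {f | ∀ s u : ℝ≥0, s + u ≤ 1 → (j : ℝ≥0) / J ≤ u → u ≤ ((j : ℝ≥0) + 1) / J →
    η ≤ |f (s + u) - f s|}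

/-- second alternative: a change of sign for a lag close to the cell -/
def GB (η : ℝ) (J j : ℕ) : Set Path :=
  {f | ∃ u : ℝ≥0, (j : ℝ) / J - 1 / J ≤ u ∧ (u : ℝ) ≤ ((j : ℝ) + 1) / J + 1 / J ∧ SC f u η}

/-- the good paths -/
def Good (η : ℝ) (J : ℕ) : Set Path := ⋂ j ∈ Finset.range J, (GA η J j ∪ GB η J j)

lemma GA_closed (η : ℝ) (J j : ℕ) : IsClosed (GA η J j) := by
  have e : GA η J j = ⋂ (s : ℝ≥0) (u : ℝ≥0) (_ : s + u ≤ 1) (_ : (j : ℝ≥0) / J ≤ u)
      (_ : u ≤ ((j : ℝ≥0) + 1) / J), {f : Path | η ≤ |f (s + u) - f s|} := by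
    ext f
    simp only [GA, mem_ofPred_eq, mem_iInter]
  rw [e]
  refine isClosed_iInter fun s => isClosed_iInter fun t => isClosed_iInter fun _ =>
    isClosed_iInter fun _ => isClosed_iInter fun _ => ?_
  exact isClosed_le continuous_const
    (((continuous_eval_const _).sub (continuous_eval_const _)).abs)

lemma GB_open (η : ℝ) (J j : ℕ) : IsOpen (GB η J j) := by
  have e : GB η J j = ⋃ (u : ℝ≥0) (_ : (j : ℝ) / J - 1 / J ≤ u)
      (_ : (u : ℝ) ≤ ((j : ℝ) + 1) / J + 1 / J),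
      ((⋃ (s : ℝ≥0) (_ : s + u ≤ 1), {f : Path | η < f (s + u) - f s}) ∩
        (⋃ (s : ℝ≥0) (_ : s + u ≤ 1), {f : Path | η < f s - f (s + u)})) := by
    ext f
    simp only [GB, SC, mem_ofPred_eq, mem_iUnion, mem_inter_iff, exists_prop]
  rw [e]
  refine isOpen_iUnion fun u => isOpen_iUnion fun _ => isOpen_iUnion fun _ => IsOpen.inter ?_ ?_
  · refine isOpen_iUnion fun s => isOpen_iUnion fun _ => ?_
    exact isOpen_lt continuous_const ((continuous_eval_const _).sub (continuous_eval_const _))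
  · refine isOpen_iUnion fun s => isOpen_iUnion fun _ => ?_
    exact isOpen_lt continuous_const ((continuous_eval_const _).sub (continuous_eval_const _))

lemma Good_meas (η : ℝ) (J : ℕ) : MeasurableSet (Good η J) :=
  Finset.measurableSet_biInter _ fun j _ =>
    (GA_closed η J j).measurableSet.union (GB_open η J j).measurableSet

lemma one_div_anti {m0 m : ℕ} (h : m0 ≤ m) : 1 / ((m : ℝ) + 1) ≤ 1 / ((m0 : ℝ) + 1) := by
  apply one_div_le_one_div_of_le (by positivity)
  have : (m0 : ℝ) ≤ m := by exact_mod_cast h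
  linarith

lemma nice_good {f : Path} (hf : Nice f) {J : ℕ} (hJ : 0 < J) :
    ∀ᶠ m : ℕ in atTop, f ∈ Good (1 / ((m : ℝ) + 1)) J := by
  have h : ∀ j ∈ Finset.range J, ∀ᶠ m : ℕ in atTop,
      f ∈ GA (1 / ((m : ℝ) + 1)) J j ∪ GB (1 / ((m : ℝ) + 1)) J j := by
    intro j _
    by_cases hex : ∃ s u : ℝ≥0, s + u ≤ 1 ∧ (j : ℝ≥0) / J ≤ u ∧ u ≤ ((j : ℝ≥0) + 1) / J ∧
        f (s + u) = f s
    · obtain ⟨s, u, h1, h2, h3, h4⟩ := hex
      have hJ' : (0 : ℝ) < J := by exact_mod_cast hJ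
      obtain ⟨u', h5, ⟨s1, h6, h7⟩, ⟨s2, h8, h9⟩⟩ := nice_sc hf h1 h4 (ρ := 1 / J) (by positivity)
      obtain ⟨m0, hm0⟩ := exists_nat_one_div_lt (lt_min h7 h9)
      filter_upwards [eventually_ge_atTop m0] with m hm
      right
      have h10 := (one_div_anti hm).trans_lt hm0
      rw [NNReal.dist_eq, abs_lt] at h5
      have h2' : (j : ℝ) / J ≤ u := by exact_mod_cast h2
      have h3' : (u : ℝ) ≤ ((j : ℝ) + 1) / J := by exact_mod_cast h3
      refine ⟨u', by linarith, by linarith, ⟨s1, h6, h10.trans_le (min_le_left _ _)⟩,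
        ⟨s2, h8, h10.trans_le (min_le_right _ _)⟩⟩
    · push Not at hex
      set K : Set (ℝ≥0 × ℝ≥0) := {p | p.1 + p.2 ≤ 1 ∧ (j : ℝ≥0) / J ≤ p.2 ∧
        p.2 ≤ ((j : ℝ≥0) + 1) / J} with hK
      have hKc : IsCompact K := by
        have hcl : IsClosed K := by
          refine IsClosed.and ?_ (IsClosed.and ?_ ?_)
          · exact isClosed_le (by fun_prop) continuous_const
          · exact isClosed_le continuous_const (by fun_prop)
          · exact isClosed_le (by fun_prop) continuous_const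
        have hsub : K ⊆ Icc (0 : ℝ≥0) 1 ×ˢ Icc (0 : ℝ≥0) 1 := by
          rintro ⟨s, u⟩ ⟨h1, -, -⟩
          exact ⟨⟨zero_le, le_self_add.trans h1⟩, ⟨zero_le, le_add_self.trans h1⟩⟩
        exact (isCompact_Icc.prod isCompact_Icc).of_isClosed_subset hcl hsub
      rcases K.eq_empty_or_nonempty with hKe | hKn
      · refine Eventually.of_forall fun m => Or.inl ?_
        intro s u h1 h2 h3
        exfalso
        have : (s, u) ∈ K := ⟨h1, h2, h3⟩
        rw [hKe] at this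
        exact this
      · have hcont : ContinuousOn (fun p : ℝ≥0 × ℝ≥0 => |f (p.1 + p.2) - f p.1|) K := by
          apply Continuous.continuousOn
          fun_prop
        obtain ⟨p, hp, hmin⟩ := hKc.exists_isMinOn hKn hcont
        have hpos : 0 < |f (p.1 + p.2) - f p.1| := by
          rw [abs_pos, sub_ne_zero]
          exact hex p.1 p.2 hp.1 hp.2.1 hp.2.2
        obtain ⟨m0, hm0⟩ := exists_nat_one_div_lt hpos
        filter_upwards [eventually_ge_atTop m0] with m hm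
        left
        intro s u h1 h2 h3
        have h4 : |f (p.1 + p.2) - f p.1| ≤ |f (s + u) - f s| := hmin (show (s, u) ∈ K from ⟨h1, h2, h3⟩)
        exact ((one_div_anti hm).trans hm0.le).trans h4
  have h2 := (Filter.eventually_all_finset (Finset.range J)).2 h
  filter_upwards [h2] with m hm
  simp only [Good, mem_iInter]
  exact hm

variable {W : Measure Path}

lemma Good_lim (hW : IsBrownianReal (fun (t : ℝ≥0) (x : Path) => x t) W) {J : ℕ} (hJ : 0 < J) :
    Tendsto (fun m : ℕ => W (Good (1 / ((m : ℝ) + 1)) J)ᶜ) atTop (𝓝 0) := by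
  have hWp := isProb hW
  refine measure_null_lim (fun m => (Good_meas _ _).compl) ?_
  filter_upwards [ae_nice hW] with x hx
  filter_upwards [nice_good hx hJ] with m hm
  simpa using hm

end Q297.Spn
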