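import Pool.Agent.Q297.SpE

/-!
The span set of the embedded walk is close to the span set of the scaled path.
-/

open MeasureTheory ProbabilityTheory Set Filter Topology
open scoped ENNReal NNReal
open Q297.PathC Q297.Prepend Q297.TwoS Q297.Dec

namespace Q297.Spn

/-- the span set on `[0,1]` -/
def Sp (f : ℝ≥0 → ℝ) : Set ℝ := {h | ∃ s t : ℝ≥0, s ≤ t ∧ t ≤ 1 ∧ f s = f t ∧ h = (t : ℝ) - s}

/-- the scaled span set of a walk -/
def SpW (z : ℕ → ℤ) (N : ℕ) : Set ℝ :=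
  {h | ∃ l k : ℕ, l ≤ k ∧ k ≤ N ∧ z k = z l ∧ h = ((k : ℝ) - l) / N}

/-- Hausdorff distance at most `r` -/
def Near (r : ℝ) (A B : Set ℝ) : Prop :=
  (∀ a ∈ A, ∃ b ∈ B, |a - b| ≤ r) ∧ (∀ b ∈ B, ∃ a ∈ A, |a - b| ≤ r)

lemma Near.mono {r r' : ℝ} {A B : Set ℝ} (h : Near r A B) (hr : r ≤ r') : Near r' A B :=
  ⟨fun a ha => let ⟨b, hb, h1⟩ := h.1 a ha; ⟨b, hb, h1.trans hr⟩,
    fun b hb => let ⟨a, ha, h1⟩ := h.2 b hb; ⟨a, ha, h1.trans hr⟩⟩

/-- discrete intermediate value theorem for even integers with steps of size at most two -/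
lemma disc_ivt {a : ℕ → ℤ} (he : ∀ l, Even (a l)) (hs : ∀ l, |a (l + 1) - a l| ≤ 2) :
    ∀ n p : ℕ, 0 < a p → a (p + n) < 0 → ∃ l, p ≤ l ∧ l ≤ p + n ∧ a l = 0 := by
  intro n
  induction n with
  | zero =>
    intro p h1 h2
    simp only [add_zero] at h2
    omega
  | succ n ih =>
    intro p h1 h2
    have e : p + (n + 1) = (p + 1) + n := by ring
    rcases lt_trichotomy (a (p + 1)) 0 with h | h | h
    · exfalso
      obtain ⟨c, hc⟩ := he p
      obtain ⟨d, hd⟩ := he (p + 1)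
      have h3 := (abs_le.1 (hs p)).1
      omega
    · exact ⟨p + 1, by omega, by omega, h⟩
    · obtain ⟨l, h3, h4, h5⟩ := ih (p + 1) h (by rwa [← e])
      exact ⟨l, by omega, by omega, h5⟩

lemma disc_ivt' {a : ℕ → ℤ} (he : ∀ l, Even (a l)) (hs : ∀ l, |a (l + 1) - a l| ≤ 2) {p q : ℕ}
    (hp : 0 < a p) (hq : a q < 0) : ∃ l, l ≤ max p q ∧ a l = 0 := by
  rcases le_total p q with h | h
  · obtain ⟨n, rfl⟩ := Nat.exists_eq_add_of_le h
    obtain ⟨l, h1, h2, h3⟩ := disc_ivt he hs n p hp hq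
    exact ⟨l, h2.trans (le_max_right _ _), h3⟩
  · obtain ⟨n, rfl⟩ := Nat.exists_eq_add_of_le h
    obtain ⟨l, h1, h2, h3⟩ := disc_ivt (a := fun l => -a l) (fun l => (he l).neg)
      (fun l => by
        have := hs l
        rw [← abs_neg]
        convert this using 2
        ring) n q (by simpa using hq) (by simpa using hp)
    exact ⟨l, h2.trans (le_max_left _ _), by simpa using h3⟩

/-- a strict change of sign gives a span with that lag -/
lemma sc_span {f : Path} {u : ℝ≥0} {η : ℝ} (hη : 0 ≤ η) (h : SC f u η) : (u : ℝ) ∈ Sp f := by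
  obtain ⟨⟨s, hs, h1⟩, ⟨s', hs', h2⟩⟩ := h
  have hc : ContinuousOn (fun s : ℝ≥0 => f (s + u) - f s) (Icc 0 (1 - u)) := by
    apply Continuous.continuousOn
    fun_prop
  have hu : u ≤ 1 := le_add_self.trans hs
  have hm : ∀ s : ℝ≥0, s + u ≤ 1 → s ∈ Icc 0 (1 - u) := fun s hs =>
    ⟨zero_le, le_tsub_of_add_le_right hs⟩
  have h3 := isPreconnected_Icc.intermediate_value (hm s' hs') (hm s hs) hc
  obtain ⟨w, hw, hw2⟩ := h3 (show (0 : ℝ) ∈ Icc (f (s' + u) - f s') (f (s + u) - f s) from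
    ⟨by linarith, by linarith⟩)
  refine ⟨w, w + u, le_self_add, ?_, ?_, ?_⟩
  · calc w + u ≤ (1 - u) + u := by gcongr; exact hw.2
      _ = 1 := tsub_add_cancel_of_le hu
  · simp only at hw2
    linarith
  · push_cast
    ring

lemma exists_cell {J : ℕ} (hJ : 0 < J) {u : ℝ≥0} (hu : u ≤ 1) :
    ∃ j < J, (j : ℝ≥0) / J ≤ u ∧ u ≤ ((j : ℝ≥0) + 1) / J := by
  have hJ' : (0 : ℝ≥0) < J := by exact_mod_cast hJ
  have huJ : u * J ≤ J := by
    calc u * J ≤ 1 * J := by gcongr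
      _ = J := one_mul _
  refine ⟨min ⌊u * J⌋₊ (J - 1), ?_, ?_, ?_⟩
  · have : min ⌊u * J⌋₊ (J - 1) ≤ J - 1 := min_le_right _ _
    omega
  · rw [div_le_iff₀ hJ']
    calc ((min ⌊u * J⌋₊ (J - 1) : ℕ) : ℝ≥0) ≤ (⌊u * J⌋₊ : ℝ≥0) := by
          exact_mod_cast min_le_left _ _
      _ ≤ u * J := Nat.floor_le zero_le
  · rw [le_div_iff₀ hJ']
    rcases min_choice ⌊u * J⌋₊ (J - 1) with h | h
    · rw [h]
      exact (Nat.lt_floor_add_one _).le
    · rw [h]
      have h5 : J - 1 + 1 = J := by omega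
      calc u * J ≤ (J : ℝ≥0) := huJ
        _ = ((J - 1 + 1 : ℕ) : ℝ≥0) := by rw [h5]
        _ = ((J - 1 : ℕ) : ℝ≥0) + 1 := by push_cast; rfl

/-- in a good path an approximate repetition is close to a lag with a change of sign -/
lemma good_sc {f : Path} {η : ℝ} {J : ℕ} (hJ : 0 < J) (hf : f ∈ Good η J) {s u : ℝ≥0}
    (h1 : s + u ≤ 1) (h2 : |f (s + u) - f s| < η) :
    ∃ u' : ℝ≥0, |(u : ℝ) - u'| ≤ 2 / J ∧ SC f u' η := by
  obtain ⟨j, hj, h3, h4⟩ := exists_cell hJ (le_add_self.trans h1)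
  have h5 : f ∈ GA η J j ∪ GB η J j := by
    have := hf
    simp only [Good, mem_iInter, Finset.mem_range] at this
    exact this j hj
  rcases h5 with h5 | h5
  · exact absurd (h5 s u h1 h3 h4) (not_le.2 h2)
  · obtain ⟨u', h6, h7, h8⟩ := h5
    refine ⟨u', ?_, h8⟩
    have hJ' : (0 : ℝ) < J := by exact_mod_cast hJ
    have h3' : (j : ℝ) / J ≤ u := by exact_mod_cast h3
    have h4' : (u : ℝ) ≤ ((j : ℝ) + 1) / J := by exact_mod_cast h4
    have e1 : ((j : ℝ) + 1) / J = j / J + 1 / J := by ring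
    have e2 : (2 : ℝ) / J = 1 / J + 1 / J := by ring
    rw [e1] at h4' h7
    rw [e2, abs_le]
    constructor <;> linarith

theorem lattice {f : Path} {N : ℕ} (hN : 0 < N) {η γ : ℝ} (hη : 0 < η) {J : ℕ} (hJ : 0 < J)
    {z : ℕ → ℤ} (hz : ∀ k, |z (k + 1) - z k| = 1)
    (hcl : ∀ k ≤ N, |(z k : ℝ) / √(N : ℝ) - f ((k : ℝ≥0) / N)| ≤ η / 4)
    (hM : f ∈ Md γ (η / 4)) (hγ : 3 / (N : ℝ) ≤ γ) (hG : f ∈ Good η J) :
    Near (2 / J + 2 / N) (SpW z N) (Sp f) := by
  have hN' : (0 : ℝ) < N := by exact_mod_cast hN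
  have hNN : (0 : ℝ≥0) < N := by exact_mod_cast hN
  have hJ' : (0 : ℝ) < J := by exact_mod_cast hJ
  have h2N : (0 : ℝ) ≤ 2 / N := by positivity
  constructor
  · rintro _ ⟨l, k, hlk, hk, hzz, rfl⟩
    obtain ⟨u, hu⟩ : ∃ u : ℝ≥0, (l : ℝ≥0) / N + u = (k : ℝ≥0) / N :=
      ⟨(k : ℝ≥0) / N - (l : ℝ≥0) / N, add_tsub_cancel_of_le (by gcongr)⟩
    have h1 : (l : ℝ≥0) / N + u ≤ 1 := by
      rw [hu, div_le_one hNN]
      exact_mod_cast hk
    have h2 : |f ((l : ℝ≥0) / N + u) - f ((l : ℝ≥0) / N)| < η := by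
      rw [hu]
      have a1 := abs_le.1 (hcl k hk)
      have a2 := abs_le.1 (hcl l (hlk.trans hk))
      rw [hzz] at a1
      rw [abs_lt]
      constructor <;> linarith
    obtain ⟨u', h3, h4⟩ := good_sc hJ hG h1 h2
    refine ⟨u', sc_span hη.le h4, ?_⟩
    have e : ((k : ℝ) - l) / N = u := by
      have := congrArg (fun v : ℝ≥0 => (v : ℝ)) hu
      push_cast at this
      rw [sub_div]
      linarith
    rw [e]
    linarith
  · rintro _ ⟨s, t, hst, ht, hf, rfl⟩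
    obtain ⟨u, rfl⟩ : ∃ u : ℝ≥0, t = s + u := ⟨t - s, (add_tsub_cancel_of_le hst).symm⟩
    have h2 : |f (s + u) - f s| < η := by
      rw [hf, sub_self, abs_zero]
      exact hη
    obtain ⟨u', h3, ⟨s1, hs1, h4⟩, ⟨s2, hs2, h5⟩⟩ := good_sc hJ hG ht h2
    -- the even lag
    set m : ℕ := 2 * ⌊u' * N / 2⌋₊ with hm
    have hm1 : (m : ℝ≥0) ≤ u' * N := by
      rw [hm]
      push_cast
      calc 2 * (⌊u' * N / 2⌋₊ : ℝ≥0) ≤ 2 * (u' * N / 2) := by
            gcongr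
            exact Nat.floor_le zero_le
        _ = u' * N := by field_simp
    have hm2 : u' * N ≤ (m : ℝ≥0) + 2 := by
      rw [hm]
      push_cast
      have : u' * N / 2 ≤ (⌊u' * N / 2⌋₊ : ℝ≥0) + 1 := (Nat.lt_floor_add_one _).le
      calc u' * N = 2 * (u' * N / 2) := by field_simp
        _ ≤ 2 * ((⌊u' * N / 2⌋₊ : ℝ≥0) + 1) := by gcongr
        _ = 2 * (⌊u' * N / 2⌋₊ : ℝ≥0) + 2 := by ring
    have hm1' : (m : ℝ) ≤ u' * N := by exact_mod_cast hm1
    have hm2' : (u' : ℝ) * N ≤ m + 2 := by exact_mod_cast hm2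
    -- estimates at a point
    have hpt : ∀ s : ℝ≥0, s + u' ≤ 1 → (⌊s * N⌋₊ + m ≤ N ∧
        |(z (⌊s * N⌋₊ + m) : ℝ) / √(N : ℝ) - f (s + u')| ≤ η / 2 ∧
        |(z ⌊s * N⌋₊ : ℝ) / √(N : ℝ) - f s| ≤ η / 2) := by
      intro s hs
      have a1 : (⌊s * N⌋₊ : ℝ≥0) ≤ s * N := Nat.floor_le zero_le
      have a2 : s * N ≤ (⌊s * N⌋₊ : ℝ≥0) + 1 := (Nat.lt_floor_add_one _).le
      have a1' : ((⌊s * N⌋₊ : ℕ) : ℝ) ≤ s * N := by exact_mod_cast a1
      have a2' : (s : ℝ) * N ≤ ((⌊s * N⌋₊ : ℕ) : ℝ) + 1 := by exact_mod_cast a2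
      have hs' : (s : ℝ) + u' ≤ 1 := by exact_mod_cast hs
      have hb : ⌊s * N⌋₊ + m ≤ N := by
        have : ((⌊s * N⌋₊ + m : ℕ) : ℝ) ≤ N := by
          push_cast
          nlinarith
        exact_mod_cast this
      have hs1' : s ≤ 1 := le_self_add.trans hs
      refine ⟨hb, ?_, ?_⟩
      · have b1 := hcl _ hb
        have b2 : |f (((⌊s * N⌋₊ + m : ℕ) : ℝ≥0) / N) - f (s + u')| ≤ η / 4 := by
          apply hM
          · have : ((⌊s * N⌋₊ + m : ℕ) : ℝ≥0) / N ≤ 1 := by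
              rw [div_le_one hNN]; exact_mod_cast hb
            exact this.trans (by norm_num)
          · exact hs.trans (by norm_num)
          · refine le_trans ?_ hγ
            rw [NNReal.dist_eq, le_div_iff₀ hN', ← abs_of_pos hN', ← abs_mul, abs_le]
            push_cast
            rw [sub_mul, div_mul_cancel₀ _ hN'.ne']
            constructor <;> nlinarith
        have := abs_sub_le ((z (⌊s * N⌋₊ + m) : ℝ) / √(N : ℝ))
          (f (((⌊s * N⌋₊ + m : ℕ) : ℝ≥0) / N)) (f (s + u'))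
        linarith
      · have b1 := hcl ⌊s * N⌋₊ (by omega)
        have b2 : |f (((⌊s * N⌋₊ : ℕ) : ℝ≥0) / N) - f s| ≤ η / 4 := by
          apply hM
          · have : ((⌊s * N⌋₊ : ℕ) : ℝ≥0) / N ≤ 1 := by
              rw [div_le_one hNN]
              exact_mod_cast (show ⌊s * N⌋₊ ≤ N by omega)
            exact this.trans (by norm_num)
          · exact hs1'.trans (by norm_num)
          · refine le_trans ?_ hγ
            rw [NNReal.dist_eq, le_div_iff₀ hN', ← abs_of_pos hN', ← abs_mul, abs_le]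
            push_cast
            rw [sub_mul, div_mul_cancel₀ _ hN'.ne']
            constructor <;> nlinarith
        have := abs_sub_le ((z ⌊s * N⌋₊ : ℝ) / √(N : ℝ))
          (f (((⌊s * N⌋₊ : ℕ) : ℝ≥0) / N)) (f s)
        linarith
    have hsq : 0 < √(N : ℝ) := Real.sqrt_pos.2 hN'
    obtain ⟨c1, c2, c3⟩ := hpt s1 hs1
    obtain ⟨d1, d2, d3⟩ := hpt s2 hs2
    have hpos : 0 < z (⌊s1 * N⌋₊ + m) - z ⌊s1 * N⌋₊ := by
      have e1 := abs_le.1 c2
      have e2 := abs_le.1 c3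
      have e3 : 0 < ((z (⌊s1 * N⌋₊ + m) : ℝ) - z ⌊s1 * N⌋₊) / √(N : ℝ) := by
        rw [sub_div]; linarith
      have e4 := (div_pos_iff_of_pos_right hsq).1 e3
      exact_mod_cast e4
    have hneg : z (⌊s2 * N⌋₊ + m) - z ⌊s2 * N⌋₊ < 0 := by
      have e1 := abs_le.1 d2
      have e2 := abs_le.1 d3
      have e3 : 0 < ((z ⌊s2 * N⌋₊ : ℝ) - z (⌊s2 * N⌋₊ + m)) / √(N : ℝ) := by
        rw [sub_div]; linarith
      have e4 := (div_pos_iff_of_pos_right hsq).1 e3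
      have e5 : z (⌊s2 * N⌋₊ + m) < z ⌊s2 * N⌋₊ := by
        have : (z (⌊s2 * N⌋₊ + m) : ℝ) < z ⌊s2 * N⌋₊ := by linarith
        exact_mod_cast this
      linarith
    have hstep : ∀ k, z (k + 1) - z k = 1 ∨ z (k + 1) - z k = -1 := fun k => by
      have := hz k
      rcases abs_eq (by norm_num : (0 : ℤ) ≤ 1) |>.1 this with h | h
      · exact Or.inl h
      · exact Or.inr h
    have heven : ∀ l, Even (z (l + m) - z l) := by
      intro l
      have h6 : ∀ n : ℕ, Even (z (l + 2 * n) - z l) := by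
        intro n
        induction n with
        | zero => simp
        | succ n ih =>
          obtain ⟨c, hc⟩ := ih
          have h7 := hstep (l + 2 * n)
          have h8 := hstep (l + 2 * n + 1)
          have e : l + 2 * (n + 1) = l + 2 * n + 1 + 1 := by ring
          rw [e]
          rcases h7 with h7 | h7 <;> rcases h8 with h8 | h8
          · exact ⟨c + 1, by omega⟩
          · exact ⟨c, by omega⟩
          · exact ⟨c, by omega⟩
          · exact ⟨c - 1, by omega⟩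
      exact h6 _
    have hsteps : ∀ l, |(z (l + 1 + m) - z (l + 1)) - (z (l + m) - z l)| ≤ 2 := by
      intro l
      have h7 := hstep l
      have h8 := hstep (l + m)
      have e : l + 1 + m = l + m + 1 := by ring
      rw [e, abs_le]
      omega
    obtain ⟨l, hl1, hl2⟩ := disc_ivt' (a := fun l => z (l + m) - z l) heven hsteps hpos hneg
    have hlN : l + m ≤ N := by
      have : max ⌊s1 * N⌋₊ ⌊s2 * N⌋₊ + m ≤ N := by
        rcases max_choice ⌊s1 * N⌋₊ ⌊s2 * N⌋₊ with h | h <;> rw [h] <;> assumption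
      omega
    refine ⟨(((l + m : ℕ) : ℝ) - l) / N, ⟨l, l + m, by omega, hlN, by linarith, rfl⟩, ?_⟩
    have e : (((l + m : ℕ) : ℝ) - l) / N = m / N := by push_cast; ring
    rw [e]
    have h6 : |(m : ℝ) / N - u'| ≤ 2 / N := by
      rw [le_div_iff₀ hN', ← abs_of_pos hN', ← abs_mul, abs_of_pos hN', sub_mul,
        div_mul_cancel₀ _ hN'.ne', abs_le]
      constructor <;> linarith
    have h7 : |(m : ℝ) / N - (((s + u : ℝ≥0) : ℝ) - s)| ≤ |(m : ℝ) / N - u'| + |(u' : ℝ) - u| := by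
      have := abs_sub_le ((m : ℝ) / N) u' u
      push_cast
      rwa [add_sub_cancel_left]
    rw [abs_sub_comm] at h3
    linarith

lemma Z_step (x : Path) (k : ℕ) : |Z (k + 1) x - Z k x| = 1 := by
  rw [Z_succ]
  split_ifs <;> simp

variable {W : Measure Path}

/-- **Core theorem.** -/
theorem core (hW : IsBrownianReal (fun (t : ℝ≥0) (x : Path) => x t) W) {r : ℝ} (hr : 0 < r) :
    Tendsto (fun N : ℕ => W {x | ¬ Near r (SpW (fun k => Z k x) N) (Sp (sc N x))}) atTop (𝓝 0) := by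
  have hWp := isProb hW
  obtain ⟨J, hJ⟩ := exists_nat_gt (4 / r)
  have hJ0 : (0 : ℝ) < J := (by positivity : (0 : ℝ) < 4 / r).trans hJ
  have hJn : 0 < J := by exact_mod_cast hJ0
  have hJr : 2 / (J : ℝ) ≤ r / 2 := by
    rw [div_lt_iff₀ hr] at hJ
    rw [div_le_iff₀ hJ0]
    linarith
  rw [ENNReal.tendsto_nhds_zero]
  intro ε hε
  have hε3 : 0 < ε / 3 := ENNReal.div_pos hε.ne' (by norm_num)
  -- choose the level
  obtain ⟨m, hm⟩ := ((ENNReal.tendsto_nhds_zero.1 (Good_lim hW hJn)) (ε / 3) hε3).exists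
  set η : ℝ := 1 / ((m : ℝ) + 1) with hη
  have hη0 : 0 < η := by positivity
  obtain ⟨m', hm'⟩ := ((ENNReal.tendsto_nhds_zero.1
    (Md_lim (W := W) (κ := η / 4) (by positivity))) (ε / 3) hε3).exists
  set γ : ℝ := 1 / ((m' : ℝ) + 1) with hγ
  have hγ0 : 0 < γ := by positivity
  have hγ1 : γ ≤ 1 := by
    rw [hγ, div_le_one (by positivity)]
    have : (0 : ℝ) ≤ m' := by positivity
    linarith
  have hEn := (ENNReal.tendsto_nhds_zero.1 (En_lim hW hγ0)) (ε / 3) hε3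
  have h3N : ∀ᶠ N : ℕ in atTop, 3 / (N : ℝ) ≤ γ := by
    have : Tendsto (fun N : ℕ => 3 / (N : ℝ)) atTop (𝓝 0) := tendsto_const_div_atTop_nhds_zero_nat 3
    exact (this.eventually (gt_mem_nhds hγ0)).mono fun N h => h.le
  have h2N : ∀ᶠ N : ℕ in atTop, 2 / (N : ℝ) ≤ r / 2 := by
    have : Tendsto (fun N : ℕ => 2 / (N : ℝ)) atTop (𝓝 0) := tendsto_const_div_atTop_nhds_zero_nat 2
    exact (this.eventually (gt_mem_nhds (by positivity : 0 < r / 2))).mono fun N h => h.le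
  filter_upwards [hEn, h3N, h2N, eventually_gt_atTop 0] with N hN1 hN2 hN3 hN0
  have hNN : ((N : ℕ) : ℝ≥0) ≠ 0 := by positivity
  have hsub : {x | ¬ Near r (SpW (fun k => Z k x) N) (Sp (sc N x))} ⊆
      Gdᶜ ∪ (En N γ ∪ (sc N ⁻¹' (Md γ (η / 4))ᶜ ∪ sc N ⁻¹' (Good η J)ᶜ)) := by
    intro x hx
    by_contra hcon
    simp only [mem_union, mem_compl_iff, mem_preimage, not_or, not_not] at hcon
    obtain ⟨g1, g2, g3, g4⟩ := hcon
    apply hx
    have h := lattice (f := sc N x) hN0 hη0 hJn (z := fun k => Z k x) (Z_step x)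
      (fun k hk => close g1 hN0 hγ1 g2 g3 hk) g3 hN2 g4
    exact h.mono (by linarith)
  have hG0 : W Gdᶜ = 0 := ae_Gd hW
  calc W {x | ¬ Near r (SpW (fun k => Z k x) N) (Sp (sc N x))}
      ≤ W (Gdᶜ ∪ (En N γ ∪ (sc N ⁻¹' (Md γ (η / 4))ᶜ ∪ sc N ⁻¹' (Good η J)ᶜ))) := measure_mono hsub
    _ ≤ W Gdᶜ + (W (En N γ) + (W (sc N ⁻¹' (Md γ (η / 4))ᶜ) + W (sc N ⁻¹' (Good η J)ᶜ))) := by
        refine (measure_union_le _ _).trans ?_
        gcongr
        refine (measure_union_le _ _).trans ?_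
        gcongr
        exact measure_union_le _ _
    _ = W (En N γ) + (W (Md γ (η / 4))ᶜ + W (Good η J)ᶜ) := by
        rw [hG0, zero_add, (sc_mp hW hNN).measure_preimage (Md_meas _ _).compl.nullMeasurableSet,
          (sc_mp hW hNN).measure_preimage (Good_meas _ _).compl.nullMeasurableSet]
    _ ≤ ε / 3 + (ε / 3 + ε / 3) := by gcongr
    _ = ε := by
        rw [← ENNReal.add_div, ← ENNReal.add_div]
        rw [show ε + (ε + ε) = ε * 3 by ring]
        exact ENNReal.mul_div_cancel_right (by norm_num) (by norm_num)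

end Q297.Spn
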