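import Pool.Agent.Q297.SpF

/-!
Transfer from Wiener measure to an arbitrary Brownian motion; Knight's embedded walks.
-/

open MeasureTheory ProbabilityTheory Set Filter Topology
open scoped ENNReal NNReal
open Q297.PathC Q297.Prepend Q297.TwoS Q297.Dec

namespace Q297.Spn

/-- a measurable version with values in the space of continuous paths -/
lemma exists_path {Ω : Type*} {mΩ : MeasurableSpace Ω} {P : Measure Ω} {B : ℝ≥0 → Ω → ℝ}
    (hB : IsBrownianReal B P) : ∃ b : Ω → Path, Measurable b ∧ ∀ᵐ ω ∂P, ∀ t, b ω t = B t ω := by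
  classical
  set d : ℕ → ℝ≥0 := TopologicalSpace.denseSeq ℝ≥0 with hd
  set g : ℕ → Ω → ℝ := fun n => (hB.aemeasurable (d n)).mk (B (d n)) with hg
  have hgm : ∀ n, Measurable (g n) := fun n => (hB.aemeasurable (d n)).measurable_mk
  have hge : ∀ᵐ ω ∂P, ∀ n, B (d n) ω = g n ω := ae_all_iff.2 fun n => (hB.aemeasurable (d n)).ae_eq_mk
  have hall : ∀ᵐ ω ∂P, Continuous (B · ω) ∧ ∀ n, B (d n) ω = g n ω := hB.cont.and hge
  set N := toMeasurable P {ω | ¬ (Continuous (B · ω) ∧ ∀ n, B (d n) ω = g n ω)} with hN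
  have hN0 : P N = 0 := by rw [hN, measure_toMeasurable]; exact hall
  have hNc : ∀ ω, ω ∉ N → Continuous (B · ω) ∧ ∀ n, B (d n) ω = g n ω := by
    intro ω hω
    by_contra h
    exact hω (subset_toMeasurable _ _ h)
  let b : Ω → Path := fun ω => if h : ω ∈ N then 0 else ⟨fun t => B t ω, (hNc ω h).1⟩
  have hb : ∀ ω t, b ω t = if ω ∈ N then 0 else B t ω := by
    intro ω t
    by_cases h : ω ∈ N <;> simp [b, h]
  refine ⟨b, measurable_of_eval fun t => ?_, ?_⟩
  · -- a sequence of dense points tending to `t`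
    have hcl : t ∈ closure (range d) := by
      rw [(TopologicalSpace.denseRange_denseSeq ℝ≥0).closure_range]
      trivial
    obtain ⟨u, hu, hut⟩ := mem_closure_iff_seq_limit.1 hcl
    choose k hk using hu
    have hlim : ∀ ω, Tendsto (fun n => if ω ∈ N then (0 : ℝ) else g (k n) ω) atTop (𝓝 (b ω t)) := by
      intro ω
      rw [hb]
      by_cases h : ω ∈ N
      · simp [h]
      · simp only [h, if_false]
        have h1 := (hNc ω h).1
        have h2 : Tendsto (fun n => B (u n) ω) atTop (𝓝 (B t ω)) := (h1.tendsto t).comp hut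
        refine h2.congr fun n => ?_
        rw [← (hNc ω h).2 (k n), hk n]
    refine measurable_of_tendsto_metrizable (f := fun n ω => if ω ∈ N then (0 : ℝ) else g (k n) ω)
      (fun n => ?_) (tendsto_pi_nhds.2 hlim)
    exact Measurable.ite (measurableSet_toMeasurable _ _) measurable_const (hgm _)
  · have h1 : ∀ᵐ ω ∂P, ω ∉ N := measure_eq_zero_iff_ae_notMem.1 hN0
    filter_upwards [h1] with ω hω t
    rw [hb, if_neg hω]

lemma wiener_of_path {Ω : Type*} {mΩ : MeasurableSpace Ω} {P : Measure Ω} {B : ℝ≥0 → Ω → ℝ}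
    (hB : IsBrownianReal B P) {b : Ω → Path} (hb : Measurable b)
    (hbB : ∀ᵐ ω ∂P, ∀ t, b ω t = B t ω) :
    IsBrownianReal (fun (t : ℝ≥0) (x : Path) => x t) (P.map b) := by
  refine ⟨⟨fun J => ?_⟩, ae_of_all _ fun x => x.continuous⟩
  have h := hB.hasLaw J
  have hm : Measurable (fun x : Path => J.restrict (fun t => x t)) :=
    measurable_pi_lambda _ fun t => measurable_eval t.1
  refine ⟨hm.aemeasurable, ?_⟩
  rw [Measure.map_map hm hb, ← h.map_eq]
  refine Measure.map_congr ?_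
  filter_upwards [hbB] with ω hω
  funext t
  exact hω t.1

variable {W : Measure Path}

lemma sc_inv {N : ℝ≥0} (hN : N ≠ 0) (x : Path) : sc N (sc N⁻¹ x) = x := by
  ext t
  simp only [sc_apply]
  rw [← mul_assoc, mul_inv_cancel_left₀' hN]
  have : (0 : ℝ) < N := by positivity
  rw [NNReal.coe_inv, Real.sqrt_inv, inv_inv]
  rw [inv_mul_cancel₀ (Real.sqrt_pos.2 this).ne', one_mul]
where
  mul_inv_cancel_left₀' {N : ℝ≥0} (hN : N ≠ 0) {t : ℝ≥0} : N⁻¹ * (N * t) = t := by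
    rw [← mul_assoc, inv_mul_cancel₀ hN, one_mul]

/-- outer measure of an arbitrary set of paths, after scaling -/
lemma sc_outer (hW : IsBrownianReal (fun (t : ℝ≥0) (x : Path) => x t) W) {N : ℝ≥0} (hN : N ≠ 0)
    (Q : Set Path) : W Q ≤ W (sc N ⁻¹' Q) := by
  have h1 : sc N⁻¹ ⁻¹' (sc N ⁻¹' Q) = Q := by
    ext x
    simp only [mem_preimage]
    rw [sc_inv hN]
  have h2 := (sc_mp hW (inv_ne_zero hN))
  calc W Q = W (sc N⁻¹ ⁻¹' (sc N ⁻¹' Q)) := by rw [h1]
    _ ≤ (W.map (sc N⁻¹)) (sc N ⁻¹' Q) := Measure.le_map_apply (sc_meas _).aemeasurable _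
    _ = W (sc N ⁻¹' Q) := by rw [h2.map_eq]

/-! ### Knight's times -/

/-- the times at which the path has moved by `2⁻ⁿ` -/
noncomputable def ktau (f : ℝ≥0 → ℝ) (n : ℕ) : ℕ → ℝ≥0
  | 0 => 0
  | k + 1 => sInf {t : ℝ≥0 | ktau f n k < t ∧ |f t - f (ktau f n k)| = (1 / 2) ^ n}

lemma sqrt_four (n : ℕ) : √(((4 ^ n : ℕ) : ℝ≥0) : ℝ) = 2 ^ n := by
  push_cast
  rw [show (4 : ℝ) ^ n = (2 ^ n) ^ 2 by rw [← pow_mul, mul_comm, pow_mul]; norm_num]
  exact Real.sqrt_sq (by positivity)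

lemma ktau_eq {x : Path} (hx : x ∈ Gd) (n k : ℕ) :
    ktau (sc ((4 ^ n : ℕ) : ℝ≥0) x) n k = tau k x / ((4 ^ n : ℕ) : ℝ≥0) := by
  have hN : (0 : ℝ≥0) < ((4 ^ n : ℕ) : ℝ≥0) := by positivity
  set N : ℝ≥0 := ((4 ^ n : ℕ) : ℝ≥0) with hNdef
  have hs : √(N : ℝ) = 2 ^ n := sqrt_four n
  induction k with
  | zero => simp [ktau]
  | succ k ih =>
    rw [ktau, ih, tau_succ]
    set σ := tau k x with hσ
    set y := th^[k] x with hy
    have hy0 : y 0 = 0 := Gd_iter0 hx k
    have hyE : y ∈ Ex := hx.2 k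
    have hyσ : y = shift σ x := th_iter k hx.1
    have hval : ∀ t : ℝ≥0, σ / N < t → |sc N x t - sc N x (σ / N)| = (1 / 2) ^ n * |y (N * t - σ)| := by
      intro t ht
      have h1 : σ ≤ N * t := by
        rw [div_lt_iff₀ hN] at ht
        rw [mul_comm]
        exact ht.le
      rw [hyσ, shift_apply, add_tsub_cancel_of_le h1, sc_apply, sc_apply, mul_div_cancel₀ _ hN.ne',
        ← mul_sub, abs_mul, hs, abs_of_pos (by positivity : (0 : ℝ) < (2 ^ n)⁻¹)]
      congr 1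
      rw [one_div, inv_pow]
    have hp : (0 : ℝ) < (1 / 2) ^ n := by positivity
    apply IsLeast.csInf_eq
    constructor
    · have hlt : σ / N < (σ + T y) / N := by
        gcongr
        exact lt_add_of_pos_right _ (T_pos hyE hy0)
      refine ⟨hlt, ?_⟩
      rw [hval _ hlt, mul_div_cancel₀ _ hN.ne', add_tsub_cancel_left, abs_T hyE hy0, mul_one]
    · rintro t ⟨ht, ht2⟩
      rw [hval t ht] at ht2
      have h1 : |y (N * t - σ)| = 1 := by
        have : (1 / 2 : ℝ) ^ n * |y (N * t - σ)| = (1 / 2) ^ n * 1 := by rw [ht2, mul_one]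
        exact mul_left_cancel₀ hp.ne' this
      have h2 : T y ≤ N * t - σ := T_le h1.ge
      rw [div_le_iff₀ hN]
      have h3 : σ ≤ N * t := by
        rw [div_lt_iff₀ hN] at ht
        rw [mul_comm]
        exact ht.le
      calc σ + T y ≤ σ + (N * t - σ) := by gcongr
        _ = N * t := add_tsub_cancel_of_le h3
        _ = t * N := mul_comm _ _

lemma kwalk_eq {x : Path} (hx : x ∈ Gd) (n k : ℕ) :
    2 ^ n * sc ((4 ^ n : ℕ) : ℝ≥0) x (ktau (sc ((4 ^ n : ℕ) : ℝ≥0) x) n k) = (Z k x : ℝ) := by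
  have hN : (0 : ℝ≥0) < ((4 ^ n : ℕ) : ℝ≥0) := by positivity
  rw [ktau_eq hx, sc_apply, mul_div_cancel₀ _ hN.ne', sqrt_four, Gd_walk hx, ← mul_assoc,
    mul_inv_cancel₀ (by positivity), one_mul]

lemma near_edist {r : ℝ} {A B : Set ℝ} (h : Near r A B) :
    Metric.hausdorffEDist A B ≤ ENNReal.ofReal r := by
  apply Metric.hausdorffEDist_le_of_mem_edist
  · intro a ha
    obtain ⟨b, hb, h1⟩ := h.1 a ha
    refine ⟨b, hb, ?_⟩
    rw [edist_dist, Real.dist_eq]
    exact ENNReal.ofReal_le_ofReal h1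
  · intro b hb
    obtain ⟨a, ha, h1⟩ := h.2 b hb
    refine ⟨a, ha, ?_⟩
    rw [edist_dist, Real.dist_eq, abs_sub_comm]
    exact ENNReal.ofReal_le_ofReal h1

end Q297.Spn
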