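import Pool.Agent.Q297.SpG

/-!
Convergence in distribution of the span sets of simple random walk, as random elements of the
space of nonempty compact subsets of `[0,1]`.
-/

open MeasureTheory ProbabilityTheory Set Filter Topology TopologicalSpace
open scoped ENNReal NNReal BoundedContinuousFunction
open Q297.PathC Q297.Prepend Q297.TwoS Q297.Dec

namespace Q297.Spn

/-- nonempty compact subsets of `[0,1]` -/
abbrev KI := NonemptyCompacts (Icc (0 : ℝ) 1)

instance instKI : MeasurableSpace KI := borel KI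
instance : BorelSpace KI := ⟨rfl⟩

/-- the closure of the trace of `A` on `[0,1]` -/
def toK (A : Set ℝ) (h0 : (0 : ℝ) ∈ A) : KI :=
  ⟨⟨closure ((fun h : Icc (0 : ℝ) 1 => (h : ℝ)) ⁻¹' A), isClosed_closure.isCompact⟩,
    ⟨⟨0, by simp⟩, subset_closure h0⟩⟩

lemma toK_congr {A B : Set ℝ} {hA : (0 : ℝ) ∈ A} {hB : (0 : ℝ) ∈ B} (h : A = B) :
    toK A hA = toK B hB := by
  subst h; rfl

lemma toK_dist {A B : Set ℝ} (hA0 : (0 : ℝ) ∈ A) (hB0 : (0 : ℝ) ∈ B) (hA : A ⊆ Icc 0 1)
    (hB : B ⊆ Icc 0 1) {r : ℝ} (hr : 0 ≤ r) (h : Near r A B) : dist (toK A hA0) (toK B hB0) ≤ r := by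
  have e : dist (toK A hA0) (toK B hB0) = Metric.hausdorffDist
      (closure ((fun h : Icc (0 : ℝ) 1 => (h : ℝ)) ⁻¹' A))
      (closure ((fun h : Icc (0 : ℝ) 1 => (h : ℝ)) ⁻¹' B)) := Metric.NonemptyCompacts.dist_eq
  rw [e, Metric.hausdorffDist_closure]
  apply Metric.hausdorffDist_le_of_mem_dist hr
  · intro a ha
    obtain ⟨b, hb, h1⟩ := h.1 a ha
    exact ⟨⟨b, hB hb⟩, hb, h1⟩
  · intro b hb
    obtain ⟨a, ha, h1⟩ := h.2 b hb
    refine ⟨⟨a, hA ha⟩, ha, ?_⟩
    rw [Subtype.dist_eq, Real.dist_eq, abs_sub_comm]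
    exact h1

lemma zero_Sp (f : ℝ≥0 → ℝ) : (0 : ℝ) ∈ Sp f := ⟨0, 0, le_rfl, zero_le, rfl, by simp⟩

lemma zero_SpW (z : ℕ → ℤ) (N : ℕ) : (0 : ℝ) ∈ SpW z N := ⟨0, 0, le_rfl, zero_le, rfl, by simp⟩

lemma Sp_sub (f : ℝ≥0 → ℝ) : Sp f ⊆ Icc 0 1 := by
  rintro _ ⟨s, t, hst, ht, -, rfl⟩
  have h1 : (s : ℝ) ≤ t := by exact_mod_cast hst
  have h2 : (t : ℝ) ≤ 1 := by exact_mod_cast ht
  have h3 : (0 : ℝ) ≤ s := s.2
  constructor <;> linarith

lemma SpW_sub (z : ℕ → ℤ) (N : ℕ) : SpW z N ⊆ Icc 0 1 := by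
  rintro _ ⟨l, k, hlk, hk, -, rfl⟩
  have h1 : (l : ℝ) ≤ k := by exact_mod_cast hlk
  have h2 : (k : ℝ) ≤ N := by exact_mod_cast hk
  have h3 : (0 : ℝ) ≤ l := by positivity
  rcases Nat.eq_zero_or_pos N with h | h
  · subst h; simp
  · have hN : (0 : ℝ) < N := by exact_mod_cast h
    constructor
    · apply div_nonneg <;> linarith
    · rw [div_le_one hN]; linarith

/-- the span set as an element of `KI` -/
def SpK (f : ℝ≥0 → ℝ) : KI := toK (Sp f) (zero_Sp f)

/-- the rescaled span set of a walk as an element of `KI` -/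
def SpWK (z : ℕ → ℤ) (N : ℕ) : KI := toK (SpW z N) (zero_SpW z N)

/-! ### measurability -/

/-- pairs of a starting time and a lag in a cell -/
def KC (J j : ℕ) : Set (ℝ≥0 × ℝ≥0) :=
  {p | p.1 + p.2 ≤ 1 ∧ (j : ℝ≥0) / J ≤ p.2 ∧ p.2 ≤ ((j : ℝ≥0) + 1) / J}

lemma KC_compact (J j : ℕ) : IsCompact (KC J j) := by
  have hcl : IsClosed (KC J j) := by
    refine IsClosed.and ?_ (IsClosed.and ?_ ?_)
    · exact isClosed_le (by fun_prop) continuous_const
    · exact isClosed_le continuous_const (by fun_prop)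
    · exact isClosed_le (by fun_prop) continuous_const
  have hsub : KC J j ⊆ Icc (0 : ℝ≥0) 1 ×ˢ Icc (0 : ℝ≥0) 1 := by
    rintro ⟨s, u⟩ ⟨h1, -, -⟩
    exact ⟨⟨zero_le, le_self_add.trans h1⟩, ⟨zero_le, le_add_self.trans h1⟩⟩
  exact (isCompact_Icc.prod isCompact_Icc).of_isClosed_subset hcl hsub

/-- the cell contains the lag of a repetition -/
def hit (J j : ℕ) : Set Path := {x | ∃ p ∈ KC J j, x (p.1 + p.2) = x p.1}

lemma hit_meas (J j : ℕ) : MeasurableSet (hit J j) := by
  rcases (KC J j).eq_empty_or_nonempty with h | h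
  · have : hit J j = ∅ := by
      ext x; simp [hit, h]
    rw [this]
    exact MeasurableSet.empty
  · have hc : Continuous (fun x : Path => sInf ((fun (x : Path) (p : ℝ≥0 × ℝ≥0) =>
        |x (p.1 + p.2) - x p.1|) x '' KC J j)) :=
      IsCompact.continuous_sInf (KC_compact J j) (by fun_prop)
    have e : hit J j = (fun x : Path => sInf ((fun (x : Path) (p : ℝ≥0 × ℝ≥0) =>
        |x (p.1 + p.2) - x p.1|) x '' KC J j)) ⁻¹' {0} := by
      ext x
      simp only [hit, mem_ofPred_eq, mem_preimage, mem_singleton_iff]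
      constructor
      · rintro ⟨p, hp, h1⟩
        apply IsLeast.csInf_eq
        refine ⟨⟨p, hp, by simp [h1]⟩, ?_⟩
        rintro _ ⟨q, -, rfl⟩
        exact abs_nonneg _
      · intro h1
        have hcont : ContinuousOn (fun p : ℝ≥0 × ℝ≥0 => |x (p.1 + p.2) - x p.1|) (KC J j) := by
          apply Continuous.continuousOn
          fun_prop
        obtain ⟨p, hp, h2⟩ := (KC_compact J j).exists_sInf_image_eq h hcont
        rw [h1] at h2
        refine ⟨p, hp, ?_⟩
        have := abs_eq_zero.1 h2.symm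
        linarith
    rw [e]
    exact hc.measurable (measurableSet_singleton 0)

/-- the finite approximation of the span set -/
def fin (J : ℕ) (v : Fin J → Prop) : Set ℝ := {h | h = 0 ∨ ∃ j : Fin J, v j ∧ h = (j : ℝ) / J}

lemma fin_near {J : ℕ} (hJ : 0 < J) (x : Path) :
    Near (1 / J) (fin J (fun j => x ∈ hit J j)) (Sp x) := by
  have hJ' : (0 : ℝ) < J := by exact_mod_cast hJ
  constructor
  · rintro h (rfl | ⟨j, hj, rfl⟩)
    · exact ⟨0, zero_Sp x, by simp⟩
    · obtain ⟨⟨s, u⟩, ⟨h1, h2, h3⟩, h4⟩ := hj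
      simp only at h1 h2 h3 h4
      refine ⟨u, ⟨s, s + u, le_self_add, h1, h4.symm, by push_cast; ring⟩, ?_⟩
      have h2' : ((j : ℕ) : ℝ) / J ≤ u := by exact_mod_cast h2
      have h3' : (u : ℝ) ≤ (((j : ℕ) : ℝ) + 1) / J := by exact_mod_cast h3
      rw [add_div] at h3'
      rw [abs_le]
      constructor <;> linarith
  · rintro _ ⟨s, t, hst, ht, hf, rfl⟩
    obtain ⟨u, rfl⟩ : ∃ u : ℝ≥0, t = s + u := ⟨t - s, (add_tsub_cancel_of_le hst).symm⟩
    obtain ⟨j, hj, h2, h3⟩ := exists_cell hJ (le_add_self.trans ht)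
    refine ⟨(j : ℝ) / J, Or.inr ⟨⟨j, hj⟩, ⟨(s, u), ⟨ht, h2, h3⟩, hf.symm⟩, rfl⟩, ?_⟩
    have h2' : (j : ℝ) / J ≤ u := by exact_mod_cast h2
    have h3' : (u : ℝ) ≤ ((j : ℝ) + 1) / J := by exact_mod_cast h3
    rw [add_div] at h3'
    push_cast
    rw [add_sub_cancel_left, abs_le]
    constructor <;> linarith

lemma fin_sub {J : ℕ} (hJ : 0 < J) (v : Fin J → Prop) : fin J v ⊆ Icc 0 1 := by
  have hJ' : (0 : ℝ) < J := by exact_mod_cast hJ
  rintro h (rfl | ⟨j, -, rfl⟩)
  · simp
  · constructor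
    · positivity
    · rw [div_le_one hJ']
      exact_mod_cast j.2.le

lemma SpK_meas : Measurable (fun x : Path => SpK x) := by
  have hm : ∀ J : ℕ, Measurable (fun x : Path => toK (fin J (fun j => x ∈ hit J j)) (Or.inl rfl)) := by
    intro J
    have e : (fun x : Path => toK (fin J (fun j => x ∈ hit J j)) (Or.inl rfl)) =
        (fun v : Fin J → Prop => toK (fin J v) (Or.inl rfl)) ∘ (fun (x : Path) (j : Fin J) => x ∈ hit J j) := rfl
    rw [e]
    have h1 : Measurable (fun (x : Path) (j : Fin J) => x ∈ hit J j) :=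
      measurable_pi_lambda _ fun j => measurable_mem.2 (hit_meas J j) 
    exact (measurable_of_finite _).comp h1
  refine measurable_of_tendsto_metrizable (f := fun (n : ℕ) (x : Path) =>
    toK (fin (n + 1) (fun j => x ∈ hit (n + 1) j)) (Or.inl rfl)) (fun n => hm (n + 1)) ?_
  rw [tendsto_pi_nhds]
  intro x
  rw [tendsto_iff_dist_tendsto_zero]
  refine squeeze_zero (fun n => dist_nonneg) (fun n => ?_) tendsto_one_div_add_atTop_nhds_zero_nat
  have h := toK_dist (Or.inl rfl) (zero_Sp x) (fin_sub (Nat.succ_pos n) (fun j => x ∈ hit (n + 1) j))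
    (Sp_sub x) (r := 1 / ((n + 1 : ℕ) : ℝ)) (by positivity) (fin_near (Nat.succ_pos n) x)
  push_cast at h
  exact h

/-! ### walks as functions of signs -/

/-- the walk with given signs -/
def cB (b : ℕ → Bool) (k : ℕ) : ℤ := ∑ i ∈ Finset.range k, (if b i = true then 1 else -1)

/-- extension of a finite sequence of signs -/
def exB {N : ℕ} (v : Fin N → Bool) (i : ℕ) : Bool := if h : i < N then v ⟨i, h⟩ else true

lemma cB_ex (b : ℕ → Bool) (N : ℕ) {k : ℕ} (hk : k ≤ N) :
    cB (exB (fun i : Fin N => b i)) k = cB b k := by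
  unfold cB
  refine Finset.sum_congr rfl fun i hi => ?_
  have : i < N := (Finset.mem_range.1 hi).trans_le hk
  simp [exB, this]

lemma SpW_congr {z z' : ℕ → ℤ} {N : ℕ} (h : ∀ k ≤ N, z k = z' k) : SpW z N = SpW z' N := by
  ext x
  constructor
  · rintro ⟨l, k, h1, h2, h3, rfl⟩
    exact ⟨l, k, h1, h2, by rw [← h k h2, ← h l (h1.trans h2)]; exact h3, rfl⟩
  · rintro ⟨l, k, h1, h2, h3, rfl⟩
    exact ⟨l, k, h1, h2, by rw [h k h2, h l (h1.trans h2)]; exact h3, rfl⟩

/-- the uniform law of finite sequences of signs is characterised by the cylinder probabilities -/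
lemma law_signs {α β : Type*} [MeasurableSpace α] [MeasurableSpace β] {μ : Measure α}
    {ν : Measure β} {N : ℕ} {s : ℕ → α → Bool} {t : ℕ → β → Bool} (hs : ∀ i, Measurable (s i))
    (ht : ∀ i, Measurable (t i))
    (h1 : ∀ b : ℕ → Bool, μ {x | ∀ i < N, s i x = b i} = (1 / 2) ^ N)
    (h2 : ∀ b : ℕ → Bool, ν {x | ∀ i < N, t i x = b i} = (1 / 2) ^ N) :
    μ.map (fun x (i : Fin N) => s i x) = ν.map (fun x (i : Fin N) => t i x) := by
  have ms : Measurable (fun x (i : Fin N) => s i x) := measurable_pi_lambda _ fun i => hs _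
  have mt : Measurable (fun x (i : Fin N) => t i x) := measurable_pi_lambda _ fun i => ht _
  refine Measure.ext_of_singleton fun v => ?_
  rw [Measure.map_apply ms (measurableSet_singleton v), Measure.map_apply mt (measurableSet_singleton v)]
  have e1 : (fun x (i : Fin N) => s i x) ⁻¹' {v} = {x | ∀ i < N, s i x = exB v i} := by
    ext x
    simp only [mem_preimage, mem_singleton_iff, mem_ofPred_eq, funext_iff]
    constructor
    · intro h i hi
      rw [exB, dif_pos hi]
      exact h ⟨i, hi⟩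
    · intro h i
      have := h i i.2
      rwa [exB, dif_pos i.2] at this
  have e2 : (fun x (i : Fin N) => t i x) ⁻¹' {v} = {x | ∀ i < N, t i x = exB v i} := by
    ext x
    simp only [mem_preimage, mem_singleton_iff, mem_ofPred_eq, funext_iff]
    constructor
    · intro h i hi
      rw [exB, dif_pos hi]
      exact h ⟨i, hi⟩
    · intro h i
      have := h i i.2
      rwa [exB, dif_pos i.2] at this
  rw [e1, e2, h1, h2]

/-- the signs of the embedded walk -/
noncomputable def sgW (i : ℕ) (x : Path) : Bool := decide (ep (th^[i] x) = 1)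

lemma sgW_meas (i : ℕ) : Measurable (sgW i) := by
  have h0 : MeasurableSet {x : Path | ep (th^[i] x) = 1} :=
    (ep_meas.comp (th_meas.iterate i)) (measurableSet_singleton 1)
  refine measurable_to_bool ?_
  convert h0 using 1
  ext x
  simp [sgW]

lemma Z_eq (x : Path) (k : ℕ) : Z k x = cB (fun i => sgW i x) k := by
  unfold Z cB sgW
  refine Finset.sum_congr rfl fun i _ => ?_
  simp only [decide_eq_true_eq]

variable {W : Measure Path}

lemma sgW_law (hW : IsBrownianReal (fun (t : ℝ≥0) (x : Path) => x t) W) (N : ℕ) (b : ℕ → Bool) :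
    W {x | ∀ i < N, sgW i x = b i} = (1 / 2) ^ N := by
  rw [← sign_law hW N b]
  congr 1
  ext x
  simp only [mem_ofPred_eq, sgW]
  refine forall_congr' fun i => imp_congr_right fun _ => ?_
  cases b i <;> simp

/-- the law of the embedded walk agrees with the law of every simple random walk -/
lemma walk_law (hW : IsBrownianReal (fun (t : ℝ≥0) (x : Path) => x t) W) {Ω' : Type*}
    [MeasurableSpace Ω'] {P' : Measure Ω'} [IsProbabilityMeasure P'] {X : ℕ → Ω' → ℤ}
    (hXm : ∀ i, Measurable (X i)) (hXi : iIndepFun X P') (h1 : ∀ i, P' {ω | X i ω = 1} = 1 / 2)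
    (N : ℕ) (F : KI → ℝ) :
    ∫ ω, F (SpWK (cB fun i => decide (X i ω = 1)) N) ∂P' = ∫ x, F (SpWK (fun k => Z k x) N) ∂W := by
  have hWp := isProb hW
  have ms : ∀ i, Measurable (fun ω => decide (X i ω = 1)) := fun i =>
    (measurable_of_countable (fun z : ℤ => decide (z = 1))).comp (hXm i)
  have hl : P'.map (fun ω (i : Fin N) => decide (X i ω = 1)) =
      W.map (fun x (i : Fin N) => sgW i x) := by
    refine law_signs (s := fun i ω => decide (X i ω = 1)) ms sgW_meas (fun b => ?_) (sgW_law hW N)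
    have e : {ω | ∀ i < N, decide (X i ω = 1) = b i} =
        ⋂ i ∈ Finset.range N, X i ⁻¹' {z | decide (z = 1) = b i} := by
      ext ω; simp
    rw [e, hXi.measure_inter_preimage_eq_mul (Finset.range N)
      (sets := fun i => {z | decide (z = 1) = b i}) (fun i _ => MeasurableSet.of_discrete)]
    have hone : ∀ i, P' (X i ⁻¹' {z | decide (z = 1) = b i}) = 1 / 2 := by
      intro i
      have hm1 : MeasurableSet {ω | X i ω = 1} := hXm i (measurableSet_singleton 1)
      cases hb : b i with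
      | true =>
        rw [← h1 i]
        congr 1
        ext ω
        simp
      | false =>
        have e2 : X i ⁻¹' {z | decide (z = 1) = false} = {ω | X i ω = 1}ᶜ := by
          ext ω; simp
        rw [e2, prob_compl_eq_one_sub hm1, h1 i]
        simp
    rw [Finset.prod_congr rfl (fun i _ => hone i), Finset.prod_const, Finset.card_range]
  set G : (Fin N → Bool) → ℝ := fun v => F (SpWK (cB (exB v)) N) with hG
  have e1 : ∀ ω, F (SpWK (cB fun i => decide (X i ω = 1)) N) =
      G (fun i : Fin N => decide (X i ω = 1)) := by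
    intro ω
    rw [hG]
    simp only
    congr 1
    exact toK_congr (SpW_congr fun k hk => (cB_ex _ N hk).symm)
  have e2 : ∀ x, F (SpWK (fun k => Z k x) N) = G (fun i : Fin N => sgW i x) := by
    intro x
    rw [hG]
    simp only
    congr 1
    refine toK_congr (SpW_congr fun k hk => ?_)
    rw [Z_eq]
    exact (cB_ex (fun i => sgW i x) N hk).symm
  have mG : Measurable G := measurable_of_finite _
  simp_rw [e1, e2]
  have m1 : Measurable (fun ω (i : Fin N) => decide (X i ω = 1)) :=
    measurable_pi_lambda _ fun i : Fin N => ms i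
  have m2 : Measurable (fun x (i : Fin N) => sgW i x) :=
    measurable_pi_lambda _ fun i : Fin N => sgW_meas i
  have e3 := integral_map (μ := P') m1.aemeasurable (f := G) mG.aestronglyMeasurable
  have e4 := integral_map (μ := W) m2.aemeasurable (f := G) mG.aestronglyMeasurable
  rw [← e3, ← e4, hl]

lemma SpWK_meas (N : ℕ) : Measurable (fun x : Path => SpWK (fun k => Z k x) N) := by
  have e : (fun x : Path => SpWK (fun k => Z k x) N) =
      (fun v : Fin N → Bool => SpWK (cB (exB v)) N) ∘ (fun x (i : Fin N) => sgW i x) := by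
    funext x
    simp only [Function.comp_apply]
    refine toK_congr (SpW_congr fun k hk => ?_)
    rw [Z_eq]
    exact (cB_ex (fun i => sgW i x) N hk).symm
  rw [e]
  exact (measurable_of_finite _).comp (measurable_pi_lambda _ fun i => sgW_meas i)

/-- **Convergence of the expectations of continuous functions.** -/
theorem conv (hW : IsBrownianReal (fun (t : ℝ≥0) (x : Path) => x t) W) (F : KI →ᵇ ℝ) :
    Tendsto (fun N : ℕ => ∫ x, F (SpWK (fun k => Z k x) N) ∂W) atTop (𝓝 (∫ x, F (SpK x) ∂W)) := by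
  have hWp := isProb hW
  have huc : UniformContinuous F := CompactSpace.uniformContinuous_of_continuous F.continuous
  set C : ℝ := ‖F‖ with hC
  have hC0 : 0 ≤ C := norm_nonneg _
  rw [Metric.tendsto_atTop]
  intro ε hε
  obtain ⟨r, hr, hF⟩ := Metric.uniformContinuous_iff.1 huc (ε / 3) (by positivity)
  have hcore := core hW (half_pos hr)
  have hsmall : ∀ᶠ N : ℕ in atTop,
      W {x | ¬ Near (r / 2) (SpW (fun k => Z k x) N) (Sp (sc N x))} ≤
        ENNReal.ofReal (ε / (6 * (C + 1))) :=
    (ENNReal.tendsto_nhds_zero.1 hcore) _ (ENNReal.ofReal_pos.2 (by positivity))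
  obtain ⟨N0, hN0⟩ := eventually_atTop.1 hsmall
  refine ⟨max N0 1, fun N hN => ?_⟩
  have hNn : (N : ℝ≥0) ≠ 0 := by
    have : 0 < N := lt_of_lt_of_le one_pos ((le_max_right _ _).trans hN)
    positivity
  have hsc := sc_mp hW hNn
  have e1 : ∫ x, F (SpK x) ∂W = ∫ x, F (SpK (sc N x)) ∂W := by
    have h1 : AEStronglyMeasurable (fun x : Path => F (SpK x)) (W.map (sc N)) :=
      (F.continuous.measurable.comp SpK_meas).aestronglyMeasurable
    conv_lhs => rw [← hsc.map_eq]
    rw [integral_map hsc.measurable.aemeasurable h1]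
  set E : Set Path := toMeasurable W {x | ¬ Near (r / 2) (SpW (fun k => Z k x) N) (Sp (sc N x))}
    with hE
  have hEm : MeasurableSet E := measurableSet_toMeasurable _ _
  have hEW : W E ≤ ENNReal.ofReal (ε / (6 * (C + 1))) := by
    rw [hE, measure_toMeasurable]
    exact hN0 N ((le_max_left _ _).trans hN)
  have mA : Measurable (fun x : Path => F (SpWK (fun k => Z k x) N)) :=
    F.continuous.measurable.comp (SpWK_meas N)
  have mB : Measurable (fun x : Path => F (SpK (sc N x))) :=
    F.continuous.measurable.comp (SpK_meas.comp hsc.measurable)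
  have iA : Integrable (fun x : Path => F (SpWK (fun k => Z k x) N)) W :=
    Integrable.of_bound mA.aestronglyMeasurable C (ae_of_all _ fun x => F.norm_coe_le_norm _)
  have iB : Integrable (fun x : Path => F (SpK (sc N x))) W :=
    Integrable.of_bound mB.aestronglyMeasurable C (ae_of_all _ fun x => F.norm_coe_le_norm _)
  rw [e1, Real.dist_eq, ← integral_sub iA iB]
  have hpt : ∀ x, ‖F (SpWK (fun k => Z k x) N) - F (SpK (sc N x))‖ ≤
      ε / 3 + E.indicator (fun _ => 2 * C) x := by
    intro x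
    by_cases hx : x ∈ E
    · rw [indicator_of_mem hx]
      have h1 := F.norm_coe_le_norm (SpWK (fun k => Z k x) N)
      have h2 := F.norm_coe_le_norm (SpK (sc N x))
      have h3 := norm_sub_le (F (SpWK (fun k => Z k x) N)) (F (SpK (sc N x)))
      linarith
    · rw [indicator_of_notMem hx, add_zero]
      have h1 : Near (r / 2) (SpW (fun k => Z k x) N) (Sp (sc N x)) := by
        by_contra h
        exact hx (subset_toMeasurable _ _ h)
      have h2 := toK_dist (zero_SpW _ N) (zero_Sp (sc N x)) (SpW_sub _ N) (Sp_sub _)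
        (half_pos hr).le h1
      have h3 := hF (a := SpWK (fun k => Z k x) N) (b := SpK (sc N x))
        (lt_of_le_of_lt h2 (by linarith))
      rw [Real.dist_eq] at h3
      exact h3.le
  have iR : Integrable (fun x : Path => ε / 3 + E.indicator (fun _ => 2 * C) x) W :=
    (integrable_const _).add ((integrable_const _).indicator hEm)
  have h5 : ‖∫ x, (F (SpWK (fun k => Z k x) N) - F (SpK (sc N x))) ∂W‖ ≤
      ∫ x, ε / 3 + E.indicator (fun _ => 2 * C) x ∂W :=
    norm_integral_le_of_norm_le iR (ae_of_all _ hpt)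
  rw [Real.norm_eq_abs] at h5
  refine lt_of_le_of_lt h5 ?_
  rw [integral_add (integrable_const _) ((integrable_const _).indicator hEm),
    integral_indicator hEm, setIntegral_const, integral_const]
  simp only [probReal_univ, smul_eq_mul, one_mul]
  have h6 : W.real E ≤ ε / (6 * (C + 1)) := by
    rw [Measure.real]
    exact ENNReal.toReal_le_of_le_ofReal (by positivity) hEW
  have h7 : W.real E * (2 * C) ≤ ε / 3 := by
    calc W.real E * (2 * C) ≤ ε / (6 * (C + 1)) * (2 * C) := by gcongr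
      _ ≤ ε / (6 * (C + 1)) * (2 * (C + 1)) := by gcongr; linarith
      _ = ε / 3 := by field_simp; norm_num
  linarith

end Q297.Spn
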