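import Pool.Agent.Q297.SpH

/-!
The span set of a nice path is the closure of its interior.
-/

open MeasureTheory ProbabilityTheory Set Filter Topology
open scoped ENNReal NNReal
open Q297.PathC Q297.Prepend Q297.TwoS Q297.Dec

namespace Q297.Spn

/-- a starting point with room to the right -/
lemma inner_start {f : Path} {u s : ℝ≥0} (hs : s + u ≤ 1) (hu : u < 1) {c : ℝ} {g : ℝ≥0 → ℝ}
    (hg : Continuous g) (hc : c < g s) : ∃ s2, s2 + u < 1 ∧ c < g s2 := by
  rcases hs.lt_or_eq with h | h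
  · exact ⟨s, h, hc⟩
  · have hs1 : 0 < s := by
      rw [pos_iff_ne_zero]
      rintro rfl
      rw [zero_add] at h
      exact hu.ne h
    have hpos : ∀ᶠ t in 𝓝 s, c < g t := hg.continuousAt.eventually (lt_mem_nhds hc)
    obtain ⟨δ, hδ, h3⟩ := Metric.eventually_nhds_iff.1 hpos
    have hδ' : 0 < δ.toNNReal := Real.toNNReal_pos.2 hδ
    set e : ℝ≥0 := min (δ.toNNReal / 2) s with he
    have he0 : 0 < e := lt_min (by positivity) hs1
    have he1 : e ≤ s := min_le_right _ _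
    have he2 : (e : ℝ) < δ := by
      have : e < δ.toNNReal := (min_le_left _ _).trans_lt (half_lt_self hδ')
      have h4 : (e : ℝ) < (δ.toNNReal : ℝ) := by exact_mod_cast this
      rwa [Real.coe_toNNReal δ hδ.le] at h4
    refine ⟨s - e, ?_, ?_⟩
    · have : s - e < s := tsub_lt_self hs1 he0
      calc s - e + u < s + u := by gcongr
        _ = 1 := h
    · exact h3 (by
        rw [NNReal.dist_eq, NNReal.coe_sub he1]
        rw [show ((s : ℝ) - e - s) = -e by ring, abs_neg, abs_of_nonneg (NNReal.coe_nonneg _)]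
        exact he2)

lemma SC_lt_one {f : Path} {u : ℝ≥0} (h : SC f u 0) : u < 1 := by
  obtain ⟨⟨s, hs, h1⟩, ⟨s', hs', h2⟩⟩ := h
  have hu : u ≤ 1 := le_add_self.trans hs
  rcases hu.lt_or_eq with h3 | h3
  · exact h3
  · subst h3
    have e1 : s = 0 := by
      have : s + 1 ≤ 0 + 1 := by simpa using hs
      exact le_antisymm (by simpa using this) zero_le
    have e2 : s' = 0 := by
      have : s' + 1 ≤ 0 + 1 := by simpa using hs'
      exact le_antisymm (by simpa using this) zero_le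
    subst e1 e2
    linarith

lemma SC_pos {f : Path} {u : ℝ≥0} (h : SC f u 0) : 0 < u := by
  rw [pos_iff_ne_zero]
  rintro rfl
  obtain ⟨⟨s, hs, h1⟩, -⟩ := h
  simp at h1

/-- the condition of a strict change of sign is open -/
lemma SC_open {f : Path} {u : ℝ≥0} (h : SC f u 0) : ∀ᶠ v in 𝓝 u, SC f v 0 := by
  have hu := SC_lt_one h
  obtain ⟨⟨s, hs, h1⟩, ⟨s', hs', h2⟩⟩ := h
  obtain ⟨a, ha, ha2⟩ := inner_start (f := f) hs hu (g := fun s => f (s + u) - f s) (by fun_prop) h1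
  obtain ⟨b, hb, hb2⟩ := inner_start (f := f) hs' hu (g := fun s => f s - f (s + u)) (by fun_prop) h2
  have c1 : ∀ᶠ v in 𝓝 u, a + v < 1 := by
    have : ContinuousAt (fun v : ℝ≥0 => a + v) u := by
      apply Continuous.continuousAt; fun_prop
    exact this.eventually (gt_mem_nhds ha)
  have c2 : ∀ᶠ v in 𝓝 u, b + v < 1 := by
    have : ContinuousAt (fun v : ℝ≥0 => b + v) u := by
      apply Continuous.continuousAt; fun_prop
    exact this.eventually (gt_mem_nhds hb)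
  have c3 : ∀ᶠ v in 𝓝 u, 0 < f (a + v) - f a := by
    have : ContinuousAt (fun v : ℝ≥0 => f (a + v) - f a) u := by
      apply Continuous.continuousAt; fun_prop
    exact this.eventually (lt_mem_nhds ha2)
  have c4 : ∀ᶠ v in 𝓝 u, 0 < f b - f (b + v) := by
    have : ContinuousAt (fun v : ℝ≥0 => f b - f (b + v)) u := by
      apply Continuous.continuousAt; fun_prop
    exact this.eventually (lt_mem_nhds hb2)
  filter_upwards [c1, c2, c3, c4] with v d1 d2 d3 d4
  exact ⟨⟨a, d1.le, d3⟩, ⟨b, d2.le, d4⟩⟩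

lemma SC_interior {f : Path} {u : ℝ≥0} (h : SC f u 0) : (u : ℝ) ∈ interior (Sp f) := by
  rw [mem_interior_iff_mem_nhds]
  have hpos := SC_pos h
  obtain ⟨δ, hδ, h3⟩ := Metric.eventually_nhds_iff.1 (SC_open h)
  rw [Metric.mem_nhds_iff]
  refine ⟨min δ u, lt_min hδ (by exact_mod_cast hpos), ?_⟩
  intro v hv
  rw [Metric.mem_ball, Real.dist_eq] at hv
  have hv1 : |v - u| < δ := hv.trans_le (min_le_left _ _)
  have hv2 : |v - u| < u := hv.trans_le (min_le_right _ _)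
  have hv0 : 0 ≤ v := by
    have := (abs_lt.1 hv2).1
    linarith
  have hcoe : ((v.toNNReal : ℝ≥0) : ℝ) = v := Real.coe_toNNReal v hv0
  have h4 : SC f v.toNNReal 0 := h3 (by
    rw [NNReal.dist_eq, hcoe]
    exact hv1)
  have h5 := sc_span le_rfl h4
  rwa [hcoe] at h5

lemma Sp_closed {f : ℝ≥0 → ℝ} (hf : Continuous f) : IsClosed (Sp f) := by
  have hK : IsCompact {p : ℝ≥0 × ℝ≥0 | p.1 ≤ p.2 ∧ p.2 ≤ 1 ∧ f p.1 = f p.2} := by
    have hcl : IsClosed {p : ℝ≥0 × ℝ≥0 | p.1 ≤ p.2 ∧ p.2 ≤ 1 ∧ f p.1 = f p.2} := by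
      refine IsClosed.and ?_ (IsClosed.and ?_ ?_)
      · exact isClosed_le (by fun_prop) (by fun_prop)
      · exact isClosed_le (by fun_prop) continuous_const
      · exact isClosed_eq (by fun_prop) (by fun_prop)
    refine (isCompact_Icc.prod isCompact_Icc :
      IsCompact (Icc (0 : ℝ≥0) 1 ×ˢ Icc (0 : ℝ≥0) 1)).of_isClosed_subset hcl ?_
    rintro ⟨s, t⟩ ⟨h1, h2, -⟩
    exact ⟨⟨zero_le, h1.trans h2⟩, ⟨zero_le, h2⟩⟩
  have e : Sp f = (fun p : ℝ≥0 × ℝ≥0 => (p.2 : ℝ) - p.1) ''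
      {p : ℝ≥0 × ℝ≥0 | p.1 ≤ p.2 ∧ p.2 ≤ 1 ∧ f p.1 = f p.2} := by
    ext h
    constructor
    · rintro ⟨s, t, h1, h2, h3, rfl⟩
      exact ⟨(s, t), ⟨h1, h2, h3⟩, rfl⟩
    · rintro ⟨⟨s, t⟩, ⟨h1, h2, h3⟩, rfl⟩
      exact ⟨s, t, h1, h2, h3, rfl⟩
  rw [e]
  exact (hK.image (by fun_prop)).isClosed

theorem nice_regular {f : Path} (hf : Nice f) : Sp f = closure (interior (Sp f)) := by
  apply Subset.antisymm
  · rintro _ ⟨s, t, hst, ht, h1, rfl⟩
    obtain ⟨u, rfl⟩ : ∃ u : ℝ≥0, t = s + u := ⟨t - s, (add_tsub_cancel_of_le hst).symm⟩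
    rw [Metric.mem_closure_iff]
    intro ρ hρ
    obtain ⟨u', h2, h3⟩ := nice_sc hf ht h1.symm hρ
    refine ⟨u', SC_interior h3, ?_⟩
    rw [NNReal.dist_eq] at h2
    rw [Real.dist_eq]
    push_cast
    rw [add_sub_cancel_left, abs_sub_comm]
    exact h2
  · exact closure_minimal interior_subset (Sp_closed f.continuous)

/-- almost every path of an arbitrary Brownian motion is nice -/
lemma exists_nice {Ω : Type*} {mΩ : MeasurableSpace Ω} {P : Measure Ω} {B : ℝ≥0 → Ω → ℝ}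
    (hB : IsBrownianReal B P) :
    ∀ᵐ ω ∂P, ∃ x : Path, Nice x ∧ (fun t => B t ω) = (x : ℝ≥0 → ℝ) := by
  obtain ⟨b, hb, hbB⟩ := exists_path hB
  have hW := wiener_of_path hB hb hbB
  have h1 := ae_of_ae_map hb.aemeasurable (ae_nice hW)
  filter_upwards [h1, hbB] with ω h2 h3
  exact ⟨b ω, h2, by funext t; exact (h3 t).symm⟩

end Q297.Spn
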