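import Pool.Agent.Q297.SpD

/-!
Gaussian calculus for linear combinations of Brownian increments: covariances as overlaps,
Brownian motions made of increments, independence, and the decomposition of Brownian motion along a
Cameron-Martin function.
-/

open MeasureTheory ProbabilityTheory Set Filter Topology
open scoped ENNReal NNReal
open Q297.PathC Q297.Prepend Q297.TwoS Q297.Dec

namespace Q297.Spn

/-- the overlap of two intervals, written as a covariance of increments -/
noncomputable def ov (a b c d : ℝ) : ℝ := (|a - d| + |b - c| - |a - c| - |b - d|) / 2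

lemma ov_disj {a b c d : ℝ} (h1 : a ≤ b) (h2 : b ≤ c) (h3 : c ≤ d) : ov a b c d = 0 := by
  unfold ov
  rw [abs_of_nonpos (by linarith : a - d ≤ 0), abs_of_nonpos (by linarith : b - c ≤ 0),
    abs_of_nonpos (by linarith : a - c ≤ 0), abs_of_nonpos (by linarith : b - d ≤ 0)]
  ring

lemma ov_symm (a b c d : ℝ) : ov a b c d = ov c d a b := by
  unfold ov
  rw [abs_sub_comm a d, abs_sub_comm b c, abs_sub_comm a c, abs_sub_comm b d]
  ring

lemma ov_disj' {a b c d : ℝ} (h1 : c ≤ d) (h2 : d ≤ a) (h3 : a ≤ b) : ov a b c d = 0 := by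
  rw [ov_symm]; exact ov_disj h1 h2 h3

lemma ov_left {a b d : ℝ} (h1 : a ≤ b) (h2 : a ≤ d) : ov a b a d = min b d - a := by
  unfold ov
  rw [abs_of_nonpos (by linarith : a - d ≤ 0), abs_of_nonneg (by linarith : 0 ≤ b - a), sub_self,
    abs_zero]
  rcases le_total b d with h | h
  · rw [abs_of_nonpos (by linarith : b - d ≤ 0), min_eq_left h]; ring
  · rw [abs_of_nonneg (by linarith : 0 ≤ b - d), min_eq_right h]; ring

lemma ov_right {a b c : ℝ} (h1 : a ≤ b) (h2 : c ≤ b) : ov a b c b = b - max a c := by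
  unfold ov
  rw [abs_of_nonpos (by linarith : a - b ≤ 0), abs_of_nonneg (by linarith : 0 ≤ b - c), sub_self,
    abs_zero]
  rcases le_total a c with h | h
  · rw [abs_of_nonpos (by linarith : a - c ≤ 0), max_eq_right h]; ring
  · rw [abs_of_nonneg (by linarith : 0 ≤ a - c), max_eq_left h]; ring

variable {W : Measure Path} (hW : IsBrownianReal (fun (t : ℝ≥0) (x : Path) => x t) W)

include hW

lemma W_memLp (t : ℝ≥0) : MemLp (fun x : Path => x t) 2 W :=
  (hW.isGaussianProcess.hasGaussianLaw_eval t).memLp_two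

lemma W_int (t : ℝ≥0) : Integrable (fun x : Path => x t) W :=
  (hW.isGaussianProcess.hasGaussianLaw_eval t).integrable

lemma cov_inc (a b c d : ℝ≥0) :
    cov[fun x : Path => x b - x a, fun x : Path => x d - x c; W] = ov a b c d := by
  have hp := isProb hW
  have hm : ∀ s t : ℝ≥0, cov[fun x : Path => x s, fun x : Path => x t; W] =
      ((s : ℝ) + t - |(s : ℝ) - t|) / 2 := by
    intro s t
    rw [hW.covariance_fun_eval]
    rcases le_total s t with h | h
    · have h' : (s : ℝ) ≤ t := h
      rw [min_eq_left h, abs_of_nonpos (by linarith : (s : ℝ) - t ≤ 0)]; ring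
    · have h' : (t : ℝ) ≤ s := h
      rw [min_eq_right h, abs_of_nonneg (by linarith : 0 ≤ (s : ℝ) - t)]; ring
  rw [covariance_fun_sub_fun_sub (W_memLp hW b) (W_memLp hW a) (W_memLp hW d) (W_memLp hW c),
    hm, hm, hm, hm]
  unfold ov
  ring

lemma inc_memLp (a b : ℝ≥0) : MemLp (fun x : Path => x b - x a) 2 W :=
  (W_memLp hW b).sub (W_memLp hW a)

lemma inc_int (a b : ℝ≥0) : Integrable (fun x : Path => x b - x a) W :=
  (W_int hW b).sub (W_int hW a)

lemma cov_lin {ι κ : Type*} [Fintype ι] [Fintype κ] (k : ι → ℝ) (a b : ι → ℝ≥0) (l : κ → ℝ)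
    (c d : κ → ℝ≥0) :
    cov[fun x : Path => ∑ i, k i * (x (b i) - x (a i)),
      fun x : Path => ∑ j, l j * (x (d j) - x (c j)); W] =
      ∑ i, ∑ j, k i * l j * ov (a i) (b i) (c j) (d j) := by
  have hp := isProb hW
  rw [covariance_fun_sum_fun_sum
    (fun i => (inc_memLp hW (a i) (b i)).const_mul (k i))
    (fun j => (inc_memLp hW (c j) (d j)).const_mul (l j))]
  refine Finset.sum_congr rfl fun i _ => Finset.sum_congr rfl fun j _ => ?_
  have h := cov_inc hW (a i) (b i) (c j) (d j)
  have e : cov[fun x : Path => k i * (x (b i) - x (a i)), fun x : Path => l j * (x (d j) - x (c j)); W]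
      = k i * (l j * cov[fun x : Path => x (b i) - x (a i), fun x : Path => x (d j) - x (c j); W]) := by
    rw [covariance_const_mul_left, covariance_const_mul_right]
  rw [← h, mul_assoc]
  exact e

lemma mean_lin {ι : Type*} [Fintype ι] (k : ι → ℝ) (a b : ι → ℝ≥0) :
    ∫ x : Path, ∑ i, k i * (x (b i) - x (a i)) ∂W = 0 := by
  rw [integral_finsetSum _ fun i _ => ((inc_int hW (a i) (b i)).const_mul _)]
  refine Finset.sum_eq_zero fun i _ => ?_
  rw [integral_const_mul, integral_sub (W_int hW (b i)) (W_int hW (a i)), hW.integral_eval,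
    hW.integral_eval, sub_zero, mul_zero]

lemma gp {ι T : Type*} [Fintype ι] (k : T → ι → ℝ) (a b : T → ι → ℝ≥0) :
    IsGaussianProcess (fun t (x : Path) => ∑ i, k t i * (x (b t i) - x (a t i))) W := by
  have h := gp_lin hW.isGaussianProcess (T := T) (ι := ι ⊕ ι)
    (fun t => Sum.elim (k t) (fun i => - k t i)) (fun t => Sum.elim (b t) (a t))
  refine h.congr fun t => ae_of_all _ fun x => ?_
  simp only [Fintype.sum_sum_type, Sum.elim_inl, Sum.elim_inr]
  rw [← Finset.sum_add_distrib]
  refine Finset.sum_congr rfl fun i _ => ?_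
  ring

lemma pre_lin {ι : Type*} [Fintype ι] (k : ℝ≥0 → ι → ℝ) (a b : ℝ≥0 → ι → ℝ≥0)
    (h : ∀ s t : ℝ≥0, s ≤ t →
      ∑ i, ∑ j, k s i * k t j * ov (a s i) (b s i) (a t j) (b t j) = s) :
    IsPreBrownianReal (fun t (x : Path) => ∑ i, k t i * (x (b t i) - x (a t i))) W := by
  refine (gp hW k a b).isPreBrownianReal_of_covariance (fun t => mean_lin hW _ _ _) fun s t hst => ?_
  have := cov_lin hW (k s) (a s) (b s) (k t) (a t) (b t)
  rw [h s t hst] at this
  exact this

lemma ind_lin {ι κ S T : Type*} [Fintype ι] [Fintype κ] (k : S → ι → ℝ) (a b : S → ι → ℝ≥0)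
    (l : T → κ → ℝ) (c d : T → κ → ℝ≥0)
    (h : ∀ s t, ∑ i, ∑ j, k s i * l t j * ov (a s i) (b s i) (c t j) (d t j) = 0) :
    IndepFun (fun (x : Path) s => ∑ i, k s i * (x (b s i) - x (a s i)))
      (fun (x : Path) t => ∑ j, l t j * (x (d t j) - x (c t j))) W := by
  have m1 : ∀ s, Measurable (fun (x : Path) => ∑ i, k s i * (x (b s i) - x (a s i))) := fun s =>
    Finset.measurable_sum _ fun i _ => ((measurable_eval _).sub (measurable_eval _)).const_mul _
  have m2 : ∀ t, Measurable (fun (x : Path) => ∑ j, l t j * (x (d t j) - x (c t j))) := fun t =>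
    Finset.measurable_sum _ fun i _ => ((measurable_eval _).sub (measurable_eval _)).const_mul _
  refine IsGaussianProcess.indepFun_of_covariance_eq_zero
    (X := fun s (x : Path) => ∑ i, k s i * (x (b s i) - x (a s i)))
    (Y := fun t (x : Path) => ∑ j, l t j * (x (d t j) - x (c t j))) ?_
    (fun s => (m1 s).aemeasurable) (fun t => (m2 t).aemeasurable) ?_
  · have h := gp hW (ι := ι ⊕ κ) (T := S ⊕ T)
      (Sum.elim (fun s => Sum.elim (k s) (fun _ => 0)) (fun t => Sum.elim (fun _ => 0) (l t)))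
      (Sum.elim (fun s => Sum.elim (a s) (fun _ => 0)) (fun t => Sum.elim (fun _ => 0) (c t)))
      (Sum.elim (fun s => Sum.elim (b s) (fun _ => 0)) (fun t => Sum.elim (fun _ => 0) (d t)))
    refine h.congr fun t => ae_of_all _ fun x => ?_
    rcases t with t | t <;> simp [Fintype.sum_sum_type]
  · intro s t
    have := cov_lin hW (k s) (a s) (b s) (l t) (c t) (d t)
    rw [h s t] at this
    exact this

/-- the functional `∑ kᵢ (x(bᵢ) - x(aᵢ))` -/
def fn {ι : Type*} [Fintype ι] (k : ι → ℝ) (a b : ι → ℝ≥0) (x : Path) : ℝ :=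
  ∑ i, k i * (x (b i) - x (a i))

omit hW in
lemma fn_meas {ι : Type*} [Fintype ι] (k : ι → ℝ) (a b : ι → ℝ≥0) : Measurable (fn k a b) :=
  Finset.measurable_sum _ fun _ _ => ((measurable_eval _).sub (measurable_eval _)).const_mul _

/-- the path with its component along `φ` removed -/
def rest {ι : Type*} [Fintype ι] (k : ι → ℝ) (a b : ι → ℝ≥0) (φ : Path) (x : Path) : Path :=
  x - fn k a b x • φ

omit hW in
lemma rest_meas {ι : Type*} [Fintype ι] (k : ι → ℝ) (a b : ι → ℝ≥0) (φ : Path) :
    Measurable (rest k a b φ) := by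
  refine measurable_of_eval fun t => ?_
  exact (measurable_eval t).sub ((fn_meas k a b).mul_const _)

omit hW in
lemma rest_apply {ι : Type*} [Fintype ι] (k : ι → ℝ) (a b : ι → ℝ≥0) (φ x : Path) (t : ℝ≥0) :
    rest k a b φ x t = x t - fn k a b x * φ t := rfl

omit hW in
lemma rest_add {ι : Type*} [Fintype ι] (k : ι → ℝ) (a b : ι → ℝ≥0) (φ x : Path) :
    rest k a b φ x + fn k a b x • φ = x := by
  unfold rest; simp

lemma fn_law {ι : Type*} [Fintype ι] (k : ι → ℝ) (a b : ι → ℝ≥0) {V : ℝ≥0}
    (hV : ∑ i, ∑ j, k i * k j * ov (a i) (b i) (a j) (b j) = V) :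
    W.map (fn k a b) = gaussianReal 0 V := by
  have hp := isProb hW
  have h1 := (gp hW (T := Unit) (fun _ => k) (fun _ => a) (fun _ => b)).hasGaussianLaw_eval ()
  have h2 := h1.map_eq_gaussianReal
  have e1 := mean_lin hW k a b
  have e2 := cov_lin hW k a b k a b
  have m1 := (fn_meas k a b).aemeasurable (μ := W)
  have e3 : cov[fn k a b, fn k a b; W] = V := by rw [← hV]; exact e2
  rw [covariance_self m1] at e3
  have h3 : W.map (fn k a b) = gaussianReal (∫ x, fn k a b x ∂W) (Var[fn k a b; W]).toNNReal := h2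
  rw [h3, e3]
  have e4 : ∫ x, fn k a b x ∂W = 0 := e1
  rw [e4, Real.toNNReal_coe]

theorem dec {ι : Type*} [Fintype ι] (k : ι → ℝ) (a b : ι → ℝ≥0) {V : ℝ≥0} (φ : Path)
    (hV : ∑ i, ∑ j, k i * k j * ov (a i) (b i) (a j) (b j) = V)
    (hφ : ∀ t : ℝ≥0, ∑ i, k i * ov 0 t (a i) (b i) = V * φ t) :
    W.map (fun x => (rest k a b φ x, fn k a b x)) =
      (W.map (rest k a b φ)).prod (gaussianReal 0 V) := by
  have hp := isProb hW
  have h1 := ind_lin hW (S := ℝ≥0) (T := Unit) (ι := Option ι) (κ := ι)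
    (fun t o => o.elim 1 (fun i => - φ t * k i))
    (fun t o => o.elim 0 a) (fun t o => o.elim t b) (fun _ => k) (fun _ => a) (fun _ => b) (by
      intro t _
      simp only [Fintype.sum_option, Option.elim_none, Option.elim_some, one_mul, NNReal.coe_zero]
      rw [hφ t]
      have e : ∑ i, ∑ j, -φ t * k i * k j * ov (a i) (b i) (a j) (b j) =
          - φ t * ∑ i, ∑ j, k i * k j * ov (a i) (b i) (a j) (b j) := by
        rw [Finset.mul_sum]
        refine Finset.sum_congr rfl fun i _ => ?_
        rw [Finset.mul_sum]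
        refine Finset.sum_congr rfl fun j _ => ?_
        ring
      rw [e, hV]
      ring)
  have h2 : IndepFun (fun (x : Path) (t : ℝ≥0) => rest k a b φ x t) (fn k a b) W := by
    have mu : Measurable (fun g : Unit → ℝ => g ()) := measurable_pi_apply ()
    have h3 := h1.comp (φ := fun f => f) (ψ := fun g : Unit → ℝ => g ()) measurable_id mu
    refine h3.congr ?_ ?_
    · filter_upwards [W_zero hW] with x hx
      funext t
      simp only [Function.comp_apply, Fintype.sum_option, Option.elim_none, Option.elim_some, hx,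
        sub_zero, one_mul, rest_apply, fn]
      rw [sub_eq_add_neg, Finset.sum_mul, ← Finset.sum_neg_distrib]
      congr 1
      refine Finset.sum_congr rfl fun i _ => ?_
      ring
    · exact ae_of_all _ fun x => rfl
  have h4 : IndepFun (rest k a b φ) (fn k a b) W := by
    rw [IndepFun_iff_Indep] at h2 ⊢
    have e1 : MeasurableSpace.comap (rest k a b φ) (instMS : MeasurableSpace Path) =
        MeasurableSpace.comap (fun (x : Path) (t : ℝ≥0) => rest k a b φ x t) MeasurableSpace.pi := by
      rw [instMS_eq, MeasurableSpace.comap_comp]; rfl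
    rw [e1]
    exact h2
  rw [(indepFun_iff_map_prod_eq_prod_map_map (rest_meas k a b φ).aemeasurable
    (fn_meas k a b).aemeasurable).1 h4, fn_law hW k a b hV]

end Q297.Spn
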