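import Pool.Agent.Q297.SpJ

/-!
The reflection principle for Wiener measure, persistence above a level, Gaussian tails of the
maximum.
-/

open MeasureTheory ProbabilityTheory Set Filter Topology
open scoped ENNReal NNReal
open Q297.PathC Q297.Prepend Q297.TwoS Q297.Dec

namespace Q297.Spn

/-! ### the hitting time of a level, stopped -/

noncomputable def Ha (a : ℝ) (n : ℝ≥0) (x : Path) : ℝ≥0 := sInf ({t | a ≤ x t} ∪ {n})

def Va (a : ℝ) (q : ℝ≥0) : Set Path := {y | ∃ s, s < q ∧ a ≤ y s}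

lemma Ga_closed (a : ℝ) (r : ℝ≥0) : IsClosed {y : Path | ∃ s, s ≤ r ∧ a ≤ y s} := by
  rw [← isOpen_compl_iff]
  have h := ContinuousMap.isOpen_setOfPred_mapsTo (X := ℝ≥0) (Y := ℝ) (K := Icc 0 r)
    isCompact_Icc (isOpen_Iio (a := a))
  convert h using 1
  ext y
  simp only [mem_compl_iff, mem_ofPred_eq, MapsTo, mem_Icc, mem_Iio, not_exists, not_and, not_le,
    zero_le, true_and]

lemma Ga_meas (a : ℝ) (r : ℝ≥0) : MeasurableSet {y : Path | ∃ s, s ≤ r ∧ a ≤ y s} :=
  (Ga_closed a r).measurableSet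

lemma Va_meas (a : ℝ) (q : ℝ≥0) : MeasurableSet (Va a q) := by
  rcases eq_or_ne q 0 with h0 | h0
  · have : Va a q = ∅ := by
      ext y; simp [Va, h0]
    rw [this]
    exact MeasurableSet.empty
  have hq : 0 < q := pos_iff_ne_zero.2 h0
  have e : Va a q = ⋃ n : ℕ, {y : Path | ∃ s, s ≤ q - 1 / ((n : ℝ≥0) + 1) ∧ a ≤ y s} := by
    ext y
    simp only [Va, mem_ofPred_eq, mem_iUnion]
    constructor
    · rintro ⟨s, hs, hy⟩
      obtain ⟨n, hn⟩ := exists_nat_one_div_lt (K := ℝ≥0) (tsub_pos_of_lt hs)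
      refine ⟨n, s, ?_, hy⟩
      rw [le_tsub_iff_right (hn.le.trans tsub_le_self)]
      have := add_le_add_right hn.le s
      rwa [add_tsub_cancel_of_le hs.le] at this
    · rintro ⟨n, s, hs, hy⟩
      exact ⟨s, hs.trans_lt (tsub_lt_self hq (by positivity)), hy⟩
  rw [e]
  exact MeasurableSet.iUnion fun n => Ga_meas _ _

lemma Ha_mem (a : ℝ) (n : ℝ≥0) (x : Path) : a ≤ x (Ha a n x) ∨ Ha a n x = n := by
  have h : IsClosed ({t | a ≤ x t} ∪ {n}) :=
    (isClosed_le continuous_const x.continuous).union isClosed_singleton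
  exact h.csInf_mem ⟨n, Or.inr rfl⟩ (OrderBot.bddBelow _)

lemma Ha_le_n (a : ℝ) (n : ℝ≥0) (x : Path) : Ha a n x ≤ n :=
  csInf_le (OrderBot.bddBelow _) (Or.inr rfl)

lemma Ha_le {a : ℝ} {n : ℝ≥0} {x : Path} {s : ℝ≥0} (hs : a ≤ x s) : Ha a n x ≤ s :=
  csInf_le (OrderBot.bddBelow _) (Or.inl hs)

lemma Ha_lt_iff (a : ℝ) (n : ℝ≥0) (x : Path) (q : ℝ≥0) : Ha a n x < q ↔ n < q ∨ x ∈ Va a q := by
  constructor
  · intro h
    rcases Ha_mem a n x with h1 | h1
    · exact Or.inr ⟨_, h, h1⟩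
    · exact Or.inl (h1 ▸ h)
  · rintro (h | ⟨s, hs, h⟩)
    · exact (Ha_le_n a n x).trans_lt h
    · exact (Ha_le h).trans_lt hs

lemma Ha_meas (a : ℝ) (n : ℝ≥0) : Measurable (Ha a n) := by
  refine measurable_of_Iio fun q => ?_
  have e : Ha a n ⁻¹' Iio q = {x | n < q} ∪ Va a q := by
    ext x
    simp only [mem_preimage, mem_Iio, mem_union, mem_ofPred_eq]
    exact Ha_lt_iff a n x q
  rw [e]
  exact (MeasurableSet.const _).union (Va_meas a q)

lemma le_lev {x : Path} {a : ℝ} (h0 : x 0 < a) {t : ℝ≥0} (h : ∀ s < t, x s < a) : x t ≤ a := by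
  by_contra hc
  push Not at hc
  have h1 := intermediate_value_Icc (zero_le (a := t)) x.continuous.continuousOn
  obtain ⟨s, hs, hs1⟩ := h1 (show a ∈ Icc (x 0) (x t) from ⟨h0.le, hc.le⟩)
  have hst : s < t := by
    rcases hs.2.lt_or_eq with h2 | h2
    · exact h2
    · exfalso
      rw [h2] at hs1
      linarith
  have := h s hst
  linarith

lemma Ha_val {x : Path} {a : ℝ} (h0 : x 0 < a) {n : ℝ≥0} (h : a ≤ x (Ha a n x)) :
    x (Ha a n x) = a := by
  refine le_antisymm (le_lev h0 fun s hs => ?_) h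
  by_contra hc
  exact absurd (Ha_le (n := n) (not_lt.1 hc)) (not_le.2 hs)

lemma hit_iff {x : Path} {a : ℝ} {n : ℝ≥0} : (∃ s, s ≤ n ∧ a ≤ x s) ↔ a ≤ x (Ha a n x) := by
  constructor
  · rintro ⟨s, hs, h⟩
    rcases Ha_mem a n x with h1 | h1
    · exact h1
    · have h2 : Ha a n x ≤ s := Ha_le h
      rw [h1] at h2
      rw [h1, le_antisymm h2 hs]
      exact h
  · intro h
    exact ⟨_, Ha_le_n a n x, h⟩

lemma gauss_half' {v : ℝ≥0} (hv : v ≠ 0) : gaussianReal 0 v (Ioi 0) = 1 / 2 := by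
  have hna := nullSingletonClass_gaussianReal (μ := 0) hv
  rw [← gauss_half hv]
  exact measure_congr Ioi_ae_eq_Ici

variable {W : Measure Path} (hW : IsBrownianReal (fun (t : ℝ≥0) (x : Path) => x t) W)

include hW

theorem strong_Ha (a : ℝ) (n : ℝ≥0) :
    W.map (fun x => ((Ha a n x, x (Ha a n x)), shift (Ha a n x) x)) =
      (W.map (fun x => (Ha a n x, x (Ha a n x)))).prod W := by
  refine strong hW (Ha_meas a n) (V := fun q => {x | n < q} ∪ Va a q)
    (fun q => (MeasurableSet.const _).union (Va_meas a q)) ?_ ?_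
  · refine ae_of_all _ fun x q => ?_
    rw [Ha_lt_iff]
    simp only [mem_union, mem_ofPred_eq]
    refine or_congr Iff.rfl ?_
    constructor
    · rintro ⟨s, hs, h⟩
      exact ⟨s, hs, by rw [stop_apply, min_eq_left hs.le]; exact h⟩
    · rintro ⟨s, hs, h⟩
      rw [stop_apply, min_eq_left hs.le] at h
      exact ⟨s, hs, h⟩
  · refine ae_of_all _ fun x q hq => ?_
    have h1 : Ha a n (stop q x) ≤ Ha a n x := by
      rcases Ha_mem a n x with h | h
      · refine Ha_le ?_
        rw [stop_apply, min_eq_left hq.le]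
        exact h
      · rw [h]; exact Ha_le_n _ _ _
    apply le_antisymm h1
    rcases Ha_mem a n (stop q x) with h | h
    · rw [stop_apply] at h
      exact (Ha_le h).trans (min_le_left _ _)
    · rw [h]; exact Ha_le_n _ _ _

/-- **The reflection principle.** -/
theorem reflection {a : ℝ} (ha : 0 < a) {r : ℝ≥0} (hr : 0 < r) :
    W {x : Path | ∃ s, s ≤ r ∧ a ≤ x s} = 2 * W {x : Path | a < x r} := by
  have hWp := isProb hW
  set ν : Measure (ℝ≥0 × ℝ) := W.map (fun x => (Ha a r x, x (Ha a r x))) with hν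
  have mξ : Measurable (fun x : Path => (Ha a r x, x (Ha a r x))) := xi_meas (Ha_meas a r)
  have mθ : Measurable (fun x : Path => shift (Ha a r x) x) := shift_meas2 (Ha_meas a r)
  have hνp : IsProbabilityMeasure ν := Measure.isProbabilityMeasure_map mξ.aemeasurable
  set A : Set (ℝ≥0 × ℝ) := {p | p.1 < r ∧ a ≤ p.2} with hA
  have mA : MeasurableSet A :=
    (measurableSet_lt measurable_fst measurable_const).inter
      (measurableSet_le measurable_const measurable_snd)
  -- the joint event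
  set C : Set ((ℝ≥0 × ℝ) × Path) := {p | p.1 ∈ A ∧ 0 < p.2 (r - p.1.1)} with hC
  have mC : MeasurableSet C := by
    have m1 : Measurable (fun p : (ℝ≥0 × ℝ) × Path => (r - p.1.1, p.2)) :=
      ((measurable_const.sub (measurable_fst.comp measurable_fst))).prodMk measurable_snd
    have m2 : Measurable (fun p : (ℝ≥0 × ℝ) × Path => p.2 (r - p.1.1)) := ev_meas1.comp m1
    have m3 : MeasurableSet {p : (ℝ≥0 × ℝ) × Path | p.1 ∈ A} := measurable_fst mA
    exact m3.inter (measurableSet_lt measurable_const m2)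
  have hz : ∀ᵐ x ∂W, x 0 = 0 := W_zero hW
  have e1 : W {x : Path | a < x r} = W ((fun x => ((Ha a r x, x (Ha a r x)),
      shift (Ha a r x) x)) ⁻¹' C) := by
    apply measure_congr
    filter_upwards [hz] with x hx
    have h0 : x 0 < a := by rw [hx]; exact ha
    apply propext
    show a < x r ↔ ((Ha a r x < r ∧ a ≤ x (Ha a r x)) ∧ 0 < shift (Ha a r x) x (r - Ha a r x))
    constructor
    · intro h
      have h1 : a ≤ x (Ha a r x) := hit_iff.1 ⟨r, le_rfl, h.le⟩
      have h2 := Ha_val h0 h1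
      have h3 : Ha a r x < r := by
        rcases (Ha_le_n a r x).lt_or_eq with h3 | h3
        · exact h3
        · rw [h3] at h2; linarith
      refine ⟨⟨h3, h1⟩, ?_⟩
      rw [shift_apply, add_tsub_cancel_of_le h3.le, h2]
      linarith
    · rintro ⟨⟨h3, h1⟩, h4⟩
      rw [shift_apply, add_tsub_cancel_of_le h3.le, Ha_val h0 h1] at h4
      linarith
  have e2 : W {x : Path | ∃ s, s ≤ r ∧ a ≤ x s} = ν A := by
    rw [hν, Measure.map_apply mξ mA]
    have hr0 : W {x : Path | x r = a} = 0 := W_ev hW hr a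
    have hr1 : ∀ᵐ x : Path ∂W, x ∉ {x : Path | x r = a} := measure_eq_zero_iff_ae_notMem.1 hr0
    apply measure_congr
    filter_upwards [hz, hr1] with x hx hxr
    have h0 : x 0 < a := by rw [hx]; exact ha
    apply propext
    show (∃ s, s ≤ r ∧ a ≤ x s) ↔ (Ha a r x < r ∧ a ≤ x (Ha a r x))
    rw [hit_iff]
    constructor
    · intro h
      refine ⟨?_, h⟩
      rcases (Ha_le_n a r x).lt_or_eq with h3 | h3
      · exact h3
      · exfalso
        apply hxr
        have := Ha_val h0 h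
        rw [h3] at this
        exact this
    · exact fun h => h.2
  rw [e1, ← Measure.map_apply (mξ.prodMk mθ) mC, strong_Ha hW a r, ← hν, Measure.prod_apply mC, e2]
  have e3 : ∀ p : ℝ≥0 × ℝ, W (Prod.mk p ⁻¹' C) = A.indicator (fun _ => (1 / 2 : ℝ≥0∞)) p := by
    intro p
    by_cases hp : p ∈ A
    · rw [indicator_of_mem hp]
      have h1 : Prod.mk p ⁻¹' C = (fun z : Path => z (r - p.1)) ⁻¹' (Ioi 0) := by
        ext z
        simp only [hC, mem_preimage, mem_ofPred_eq, mem_Ioi]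
        exact ⟨fun h => h.2, fun h => ⟨hp, h⟩⟩
      have h2 := hW.hasLaw_eval (r - p.1)
      rw [h1, ← Measure.map_apply (measurable_eval _) measurableSet_Ioi, h2.map_eq]
      exact gauss_half' (tsub_pos_of_lt hp.1).ne'
    · rw [indicator_of_notMem hp]
      have h1 : Prod.mk p ⁻¹' C = ∅ := by
        ext z
        simp only [hC, mem_preimage, mem_ofPred_eq, mem_empty_iff_false, iff_false]
        exact fun h => hp h.1
      rw [h1, measure_empty]
  rw [lintegral_congr e3, lintegral_indicator mA, setLIntegral_const, ← mul_assoc]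
  have : (2 : ℝ≥0∞) * (1 / 2) = 1 := by
    rw [one_div]; exact ENNReal.mul_inv_cancel (by norm_num) (by norm_num)
  rw [this, one_mul]

omit hW in
/-- the Gaussian density is at most `1 / (2 √v)` -/
lemma pdf_le {v : ℝ≥0} (hv : v ≠ 0) (x : ℝ) :
    gaussianPDF 0 v x ≤ ENNReal.ofReal (1 / (2 * √(v : ℝ))) := by
  have hv' : (0 : ℝ) < v := by positivity
  unfold gaussianPDF
  apply ENNReal.ofReal_le_ofReal
  unfold gaussianPDFReal
  have h2 : Real.exp (-(x - 0) ^ 2 / (2 * v)) ≤ 1 := by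
    apply Real.exp_le_one_iff.2
    apply div_nonpos_of_nonpos_of_nonneg
    · nlinarith [sq_nonneg (x - 0)]
    · positivity
  have h3 : (√(2 * Real.pi * v))⁻¹ ≤ 1 / (2 * √(v : ℝ)) := by
    rw [one_div]
    apply inv_anti₀ (by positivity)
    have e : 2 * √(v : ℝ) = √(4 * v) := by
      rw [Real.sqrt_mul (by norm_num : (0 : ℝ) ≤ 4), show (4 : ℝ) = 2 ^ 2 by norm_num,
        Real.sqrt_sq (by norm_num)]
    rw [e]
    apply Real.sqrt_le_sqrt
    nlinarith [Real.pi_gt_three]
  calc (√(2 * Real.pi * v))⁻¹ * Real.exp (-(x - 0) ^ 2 / (2 * v)) ≤ (√(2 * Real.pi * v))⁻¹ * 1 := by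
        gcongr
    _ ≤ _ := by rw [mul_one]; exact h3

omit hW in
lemma gauss_set_le {v : ℝ≥0} (hv : v ≠ 0) (A : Set ℝ) :
    gaussianReal 0 v A ≤ ENNReal.ofReal (1 / (2 * √(v : ℝ))) * volume A := by
  rw [gaussianReal_apply 0 hv]
  calc ∫⁻ x in A, gaussianPDF 0 v x ≤ ∫⁻ x in A, ENNReal.ofReal (1 / (2 * √(v : ℝ))) :=
        lintegral_mono fun x => pdf_le hv x
    _ = _ := by rw [setLIntegral_const]

/-- persistence below a level -/
theorem pers {a : ℝ} (ha : 0 < a) {r : ℝ≥0} (hr : 0 < r) :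
    W {x : Path | ∀ s, s ≤ r → x s ≤ a} ≤ ENNReal.ofReal (2 * a / √(r : ℝ)) := by
  have hWp := isProb hW
  have h2a : 0 < 2 * a := by linarith
  have h1 := reflection hW h2a hr
  have hg := hW.hasLaw_eval r
  -- the three parts
  have e1 : W {x : Path | 2 * a < x r} = gaussianReal 0 r (Ioi (2 * a)) := by
    rw [← hg.map_eq, Measure.map_apply (measurable_eval _) measurableSet_Ioi]; rfl
  have e2 : gaussianReal 0 r (Iio (-(2 * a))) = gaussianReal 0 r (Ioi (2 * a)) := by
    have h2 := gaussianReal_map_neg (μ := 0) (v := r)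
    rw [neg_zero] at h2
    conv_rhs => rw [← h2]
    rw [Measure.map_apply (by fun_prop) measurableSet_Ioi]
    congr 1
    ext x
    simp only [mem_Iio, mem_preimage, mem_Ioi]
    constructor <;> intro h <;> linarith
  have e3 : gaussianReal 0 r (Iio (-(2 * a))) + gaussianReal 0 r (Icc (-(2 * a)) (2 * a)) +
      gaussianReal 0 r (Ioi (2 * a)) = 1 := by
    rw [← measure_union _ measurableSet_Icc, ← measure_union _ measurableSet_Ioi]
    · have : (Iio (-(2 * a)) ∪ Icc (-(2 * a)) (2 * a) ∪ Ioi (2 * a)) = (univ : Set ℝ) := by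
        ext y
        simp only [mem_union, mem_Iio, mem_Icc, mem_Ioi, mem_univ, iff_true]
        by_cases h : y < -(2 * a)
        · exact Or.inl (Or.inl h)
        · by_cases h' : 2 * a < y
          · exact Or.inr h'
          · exact Or.inl (Or.inr ⟨not_lt.1 h, not_lt.1 h'⟩)
      rw [this, measure_univ]
    · rw [Set.disjoint_left]
      rintro y (hy | hy) hy2
      · simp only [mem_Iio, mem_Ioi] at hy hy2; linarith
      · simp only [mem_Icc, mem_Ioi] at hy hy2; linarith [hy.2]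
    · rw [Set.disjoint_left]
      intro y hy hy2
      simp only [mem_Iio, mem_Icc] at hy hy2; linarith [hy2.1]
  have h3 : W {x : Path | ∀ s, s ≤ r → x s ≤ a} ≤ W ({x : Path | ∃ s, s ≤ r ∧ 2 * a ≤ x s}ᶜ) := by
    apply measure_mono
    rintro x hx ⟨s, hs, h⟩
    have := hx s hs
    linarith
  refine h3.trans ?_
  rw [prob_compl_eq_one_sub (Ga_meas _ _), h1, e1]
  have h4 : 1 - 2 * gaussianReal 0 r (Ioi (2 * a)) ≤ gaussianReal 0 r (Icc (-(2 * a)) (2 * a)) := by
    rw [tsub_le_iff_right, ← e3, e2, two_mul]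
    apply le_of_eq
    ring
  refine h4.trans ((gauss_set_le hr.ne' _).trans ?_)
  rw [Real.volume_Icc, ← ENNReal.ofReal_mul (by positivity)]
  apply ENNReal.ofReal_le_ofReal
  apply le_of_eq
  have : √(r : ℝ) ≠ 0 := (Real.sqrt_pos.2 (by exact_mod_cast hr)).ne'
  field_simp
  ring

/-- Gaussian tail -/
lemma tail {a : ℝ} (ha : 0 ≤ a) {r : ℝ≥0} (hr : 0 < r) :
    W {x : Path | a < x r} ≤ ENNReal.ofReal (Real.exp (-(a ^ 2 / (2 * r)))) := by
  have hWp := isProb hW
  have hr' : (0 : ℝ) < r := by exact_mod_cast hr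
  have hg := hW.hasLaw_eval r
  have h1 : W.real {x : Path | a ≤ x r} ≤ Real.exp (-(a / r) * a) * mgf (fun x : Path => x r) W (a / r) := by
    refine measure_ge_le_exp_mul_mgf a (by positivity) ?_
    have h2 : Integrable (fun y : ℝ => Real.exp (a / r * y)) (gaussianReal 0 r) :=
      integrable_exp_mul_gaussianReal (a / r)
    rw [← hg.map_eq] at h2
    exact (integrable_map_measure (f := fun x : Path => x r)
      (by fun_prop) (measurable_eval r).aemeasurable).1 h2
  rw [mgf_gaussianReal hg.map_eq] at h1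
  have h3 : Real.exp (-(a / r) * a) * Real.exp (0 * (a / r) + r * (a / r) ^ 2 / 2) =
      Real.exp (-(a ^ 2 / (2 * r))) := by
    rw [← Real.exp_add]
    congr 1
    field_simp
    ring
  rw [h3] at h1
  refine (measure_mono (fun x hx => ?_ : {x : Path | a < x r} ⊆ {x : Path | a ≤ x r})).trans ?_
  · exact (show a < x r from hx).le
  · rw [← ENNReal.ofReal_toReal (measure_ne_top W {x : Path | a ≤ x r})]
    exact ENNReal.ofReal_le_ofReal h1

lemma sup_tail {a : ℝ} (ha : 0 < a) {r : ℝ≥0} (hr : 0 < r) :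
    W {x : Path | ∃ s, s ≤ r ∧ a ≤ x s} ≤ ENNReal.ofReal (2 * Real.exp (-(a ^ 2 / (2 * r)))) := by
  rw [reflection hW ha hr, ENNReal.ofReal_mul (by norm_num)]
  gcongr
  · simp
  · exact tail hW ha.le hr

end Q297.Spn
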