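import Pool.Agent.Q297.SpL

/-!
The sliding maximum `M(u) = max_{s ≤ 1-u} (x(s+u) - x(s))` and the effect of a Cameron-Martin bump.
-/

open MeasureTheory ProbabilityTheory Set Filter Topology
open scoped ENNReal NNReal
open Q297.PathC Q297.Prepend Q297.TwoS Q297.Dec

set_option linter.unusedSimpArgs false

namespace Q297.Spn

/-- the sliding maximum -/
noncomputable def Mx (x : Path) (u : ℝ≥0) : ℝ :=
  sSup ((fun σ : ℝ≥0 => x (min σ (1 - u) + u) - x (min σ (1 - u))) '' Icc 0 1)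

lemma Mx_cont : Continuous (fun p : Path × ℝ≥0 => Mx p.1 p.2) := by
  have h := IsCompact.continuous_sSup (K := Icc (0 : ℝ≥0) 1) isCompact_Icc
    (f := fun (p : Path × ℝ≥0) (σ : ℝ≥0) => p.1 (min σ (1 - p.2) + p.2) - p.1 (min σ (1 - p.2)))
    (by fun_prop)
  exact h

lemma Mx_bdd (x : Path) (u : ℝ≥0) :
    BddAbove ((fun σ : ℝ≥0 => x (min σ (1 - u) + u) - x (min σ (1 - u))) '' Icc 0 1) :=
  (isCompact_Icc.image (by fun_prop)).bddAbove

lemma Mx_ge {x : Path} {u s : ℝ≥0} (h : s + u ≤ 1) : x (s + u) - x s ≤ Mx x u := by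
  refine le_csSup (Mx_bdd x u) ⟨s, ⟨zero_le, le_self_add.trans h⟩, ?_⟩
  have : s ≤ 1 - u := le_tsub_of_add_le_right h
  simp only [min_eq_left this]

lemma Mx_att (x : Path) {u : ℝ≥0} (hu : u ≤ 1) : ∃ s, s + u ≤ 1 ∧ x (s + u) - x s = Mx x u := by
  have hc : IsCompact ((fun σ : ℝ≥0 => x (min σ (1 - u) + u) - x (min σ (1 - u))) '' Icc 0 1) :=
    isCompact_Icc.image (by fun_prop)
  obtain ⟨σ, -, hσ⟩ := hc.sSup_mem ⟨_, 0, ⟨le_rfl, zero_le⟩, rfl⟩
  refine ⟨min σ (1 - u), ?_, hσ⟩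
  calc min σ (1 - u) + u ≤ 1 - u + u := add_le_add_left (min_le_right _ _) u
    _ = 1 := tsub_add_cancel_of_le hu

/-- the event on which a bump `φ` moves `M(u₂)` but not `M(u₁)` -/
def EV (u1 u2 : ℝ≥0) (κ ε : ℝ) (φ : Path) : Set Path :=
  {x | (∃ s, s + u2 ≤ 1 ∧ Mx x u2 ≤ x (s + u2) - x s ∧ 1 / 2 ≤ κ * (φ (s + u2) - φ s)) ∧
    (∃ s, s + u1 ≤ 1 ∧ Mx x u1 ≤ x (s + u1) - x s ∧ φ (s + u1) = φ s) ∧
    |Mx x u2 - Mx x u1| ≤ ε}

lemma Mx_cont1 (u : ℝ≥0) : Continuous (fun x : Path => Mx x u) :=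
  Mx_cont.comp (by fun_prop : Continuous (fun x : Path => (x, u)))

lemma EV_closed (u1 u2 : ℝ≥0) (κ ε : ℝ) (φ : Path) : IsClosed (EV u1 u2 κ ε φ) := by
  have hm (u : ℝ≥0) : Continuous (fun p : Path × ℝ≥0 => Mx p.1 u) := (Mx_cont1 u).comp continuous_fst
  have h1 : IsClosed {x : Path | ∃ s, s + u2 ≤ 1 ∧ Mx x u2 ≤ x (s + u2) - x s ∧
      1 / 2 ≤ κ * (φ (s + u2) - φ s)} := by
    have h := closed_ex (K := Icc (0 : ℝ≥0) 1) isCompact_Icc
      (C := {p : Path × ℝ≥0 | p.2 + u2 ≤ 1} ∩ ({p | Mx p.1 u2 ≤ p.1 (p.2 + u2) - p.1 p.2} ∩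
        {p | 1 / 2 ≤ κ * (φ (p.2 + u2) - φ p.2)}))
      ((isClosed_le (by fun_prop) (by fun_prop)).inter
        ((isClosed_le (hm u2) (by fun_prop)).inter (isClosed_le (by fun_prop) (by fun_prop))))
    convert h using 1
    ext x
    constructor
    · rintro ⟨s, a, b, c⟩
      exact ⟨s, ⟨zero_le, le_self_add.trans a⟩, a, b, c⟩
    · rintro ⟨s, -, a, b, c⟩
      exact ⟨s, a, b, c⟩
  have h2 : IsClosed {x : Path | ∃ s, s + u1 ≤ 1 ∧ Mx x u1 ≤ x (s + u1) - x s ∧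
      φ (s + u1) = φ s} := by
    have h := closed_ex (K := Icc (0 : ℝ≥0) 1) isCompact_Icc
      (C := {p : Path × ℝ≥0 | p.2 + u1 ≤ 1} ∩ ({p | Mx p.1 u1 ≤ p.1 (p.2 + u1) - p.1 p.2} ∩
        {p | φ (p.2 + u1) = φ p.2}))
      ((isClosed_le (by fun_prop) (by fun_prop)).inter
        ((isClosed_le (hm u1) (by fun_prop)).inter (isClosed_eq (by fun_prop) (by fun_prop))))
    convert h using 1
    ext x
    constructor
    · rintro ⟨s, a, b, c⟩
      exact ⟨s, ⟨zero_le, le_self_add.trans a⟩, a, b, c⟩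
    · rintro ⟨s, -, a, b, c⟩
      exact ⟨s, a, b, c⟩
  have h3 : IsClosed {x : Path | |Mx x u2 - Mx x u1| ≤ ε} :=
    isClosed_le (((Mx_cont1 u2).sub (Mx_cont1 u1)).abs) continuous_const
  exact h1.inter (h2.inter h3)

lemma EV_mono {u1 u2 : ℝ≥0} {κ ε : ℝ} (hκ : κ = 1 ∨ κ = -1) {φ β : Path}
    {θ θ' : ℝ} (hle : θ ≤ θ') (h : β + θ • φ ∈ EV u1 u2 κ ε φ) (h' : β + θ' • φ ∈ EV u1 u2 κ ε φ) :
    θ' - θ ≤ 4 * ε := by
  obtain ⟨⟨s2, a1, a2, a3⟩, ⟨s1, b1, b2, b3⟩, c⟩ := h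
  obtain ⟨⟨t2, a1', a2', a3'⟩, ⟨t1, b1', b2', b3'⟩, c'⟩ := h'
  have ev (θ : ℝ) (t : ℝ≥0) : (β + θ • φ) t = β t + θ * φ t := rfl
  rw [ev, ev] at a2 b2 a2' b2'
  have m1 := Mx_ge (x := β + θ' • φ) a1
  have m2 := Mx_ge (x := β + θ' • φ) b1
  have m3 := Mx_ge (x := β + θ • φ) a1'
  have m4 := Mx_ge (x := β + θ • φ) b1'
  rw [ev, ev] at m1 m2 m3 m4
  rw [b3] at b2 m2
  rw [b3'] at b2' m4
  have hd : 0 ≤ θ' - θ := by linarith
  have c1 := abs_le.1 c
  have c2 := abs_le.1 c'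
  rcases hκ with rfl | rfl
  · have h5 : (θ' - θ) * (1 / 2) ≤ (θ' - θ) * (1 * (φ (s2 + u2) - φ s2)) :=
      mul_le_mul_of_nonneg_left a3 hd
    nlinarith [c1.1, c1.2, c2.1, c2.2]
  · have h5 : (θ' - θ) * (1 / 2) ≤ (θ' - θ) * (-1 * (φ (t2 + u2) - φ t2)) :=
      mul_le_mul_of_nonneg_left a3' hd
    nlinarith [c1.1, c1.2, c2.1, c2.2]

lemma EV_diam {u1 u2 : ℝ≥0} {κ ε : ℝ} (hκ : κ = 1 ∨ κ = -1) {φ β : Path}
    {A : Set ℝ} (hA : ∀ θ ∈ A, β + θ • φ ∈ EV u1 u2 κ ε φ) : volume A ≤ ENNReal.ofReal (4 * ε) := by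
  refine (Real.volume_le_diam A).trans (Metric.ediam_le fun x hx y hy => ?_)
  rw [edist_dist]
  apply ENNReal.ofReal_le_ofReal
  rw [Real.dist_eq, abs_le]
  rcases le_total x y with h | h
  · have := EV_mono hκ h (hA x hx) (hA y hy)
    constructor <;> linarith
  · have := EV_mono hκ h (hA y hy) (hA x hx)
    constructor <;> linarith

lemma gauss_tail_set {v : ℝ≥0} (hv : v ≠ 0) {h : ℝ} (hh : 0 ≤ h) {A : Set ℝ}
    (hA : ∀ y ∈ A, h ≤ |y|) :
    gaussianReal 0 v A ≤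
      ENNReal.ofReal (1 / (2 * √(v : ℝ)) * Real.exp (-(h ^ 2 / (2 * v)))) * volume A := by
  have hv' : (0 : ℝ) < v := by positivity
  rw [gaussianReal_apply 0 hv, ← setLIntegral_const]
  refine setLIntegral_mono measurable_const fun x hx => ?_
  have h1 := hA x hx
  unfold gaussianPDF
  apply ENNReal.ofReal_le_ofReal
  unfold gaussianPDFReal
  have h3 : (√(2 * Real.pi * v))⁻¹ ≤ 1 / (2 * √(v : ℝ)) := by
    rw [one_div]
    apply inv_anti₀ (by positivity)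
    have e : 2 * √(v : ℝ) = √(4 * v) := by
      rw [Real.sqrt_mul (by norm_num : (0 : ℝ) ≤ 4), show (4 : ℝ) = 2 ^ 2 by norm_num,
        Real.sqrt_sq (by norm_num)]
    rw [e]
    apply Real.sqrt_le_sqrt
    nlinarith [Real.pi_gt_three]
  have h4 : Real.exp (-(x - 0) ^ 2 / (2 * v)) ≤ Real.exp (-(h ^ 2 / (2 * v))) := by
    apply Real.exp_le_exp.2
    rw [sub_zero, neg_div, neg_le_neg_iff]
    gcongr ?_ / _
    rw [← sq_abs x]
    gcongr
  gcongr

lemma gauss_mid {v : ℝ≥0} {h : ℝ} (hh : 0 < h) (hv : 2 * (v : ℝ) ≤ h ^ 2) :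
    1 / 2 ≤ gaussianReal 0 v (Icc (-h) h) := by
  have h1 := meas_ge_le_variance_div_sq (μ := gaussianReal 0 v) (X := fun y : ℝ => y)
    (memLp_id_gaussianReal 2) hh
  rw [integral_id_gaussianReal, variance_fun_id_gaussianReal] at h1
  have h2 : gaussianReal 0 v (Icc (-h) h)ᶜ ≤ ENNReal.ofReal (v / h ^ 2) := by
    refine (measure_mono fun y hy => ?_).trans h1
    show h ≤ |y - 0|
    rw [sub_zero]
    by_contra hc
    push Not at hc
    exact hy ⟨(abs_lt.1 hc).1.le, (abs_lt.1 hc).2.le⟩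
  have h3 : ENNReal.ofReal (v / h ^ 2) ≤ 1 / 2 := by
    have : (1 / 2 : ℝ≥0∞) = ENNReal.ofReal (1 / 2) := by
      rw [ENNReal.ofReal_div_of_pos (by norm_num)]; simp
    rw [this]
    apply ENNReal.ofReal_le_ofReal
    rw [div_le_iff₀ (by positivity)]
    linarith
  have h4 := measure_compl (measurableSet_Icc (a := -h) (b := h)) (measure_ne_top (gaussianReal 0 v) _)
  have h5 : gaussianReal 0 v (Icc (-h) h) + gaussianReal 0 v (Icc (-h) h)ᶜ = 1 := by
    rw [measure_add_measure_compl measurableSet_Icc, measure_univ]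
  by_contra hc
  push Not at hc
  have h6 : gaussianReal 0 v (Icc (-h) h) + gaussianReal 0 v (Icc (-h) h)ᶜ < 1 / 2 + 1 / 2 :=
    ENNReal.add_lt_add_of_lt_of_le ((h2.trans h3).trans_lt (by simp)).ne hc (h2.trans h3)
  rw [h5, ENNReal.add_halves] at h6
  exact lt_irrefl _ h6

variable {W : Measure Path} (hW : IsBrownianReal (fun (t : ℝ≥0) (x : Path) => x t) W)

include hW

/-- **The bump estimate.** -/
theorem bump {ι : Type*} [Fintype ι] (k : ι → ℝ) (a b : ι → ℝ≥0) {V : ℝ≥0} (φ : Path)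
    (hV : ∑ i, ∑ j, k i * k j * ov (a i) (b i) (a j) (b j) = V)
    (hφ : ∀ t : ℝ≥0, ∑ i, k i * ov 0 t (a i) (b i) = V * φ t) (V0 : V ≠ 0)
    {u1 u2 p q : ℝ≥0} {κ ε h : ℝ} (hκ : κ = 1 ∨ κ = -1) (hh : 0 < h)
    (hVh : 2 * (V : ℝ) ≤ h ^ 2)
    (hσ0 : ∀ s, s + u2 ≤ 1 → (s < p ∨ q < s) → φ (s + u2) = φ s)
    (hσ1 : ∀ s, |φ (s + u2) - φ s| ≤ 1) :
    W (EV u1 u2 κ ε φ) ≤ ENNReal.ofReal (2 * ε / √(V : ℝ)) *
      (2 * W (NM u2 p q (2 * h)) + ENNReal.ofReal (Real.exp (-(h ^ 2 / (2 * V))))) := by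
  have hWp := isProb hW
  have hV' : (0 : ℝ) < V := by positivity
  have hsV : 0 < √(V : ℝ) := Real.sqrt_pos.2 hV'
  set Q : Measure Path := W.map (rest k a b φ) with hQ
  set γ : Measure ℝ := gaussianReal 0 V with hγ
  have hQp : IsProbabilityMeasure Q := Measure.isProbabilityMeasure_map (rest_meas k a b φ).aemeasurable
  have hdec := dec hW k a b φ hV hφ
  have mpair : Measurable (fun x => (rest k a b φ x, fn k a b x)) :=
    (rest_meas k a b φ).prodMk (fn_meas k a b)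
  have madd : Measurable (fun p : Path × ℝ => p.1 + p.2 • φ) := by
    refine measurable_of_eval fun t => ?_
    exact ((measurable_eval t).comp measurable_fst).add (measurable_snd.mul_const _)
  have mE : MeasurableSet (EV u1 u2 κ ε φ) := (EV_closed _ _ _ _ _).measurableSet
  have mN (H : ℝ) : MeasurableSet (NM u2 p q H) := (NM_closed _ _ _ _).measurableSet
  -- the density of small sets
  set c0 : ℝ≥0∞ := ENNReal.ofReal (2 * ε / √(V : ℝ)) with hc0
  have ec0 : ENNReal.ofReal (1 / (2 * √(V : ℝ))) * ENNReal.ofReal (4 * ε) = c0 := by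
    rw [← ENNReal.ofReal_mul (by positivity), hc0]
    congr 1
    field_simp
    ring
  -- step 1
  have e1 : W (EV u1 u2 κ ε φ) = ∫⁻ β, γ {θ | β + θ • φ ∈ EV u1 u2 κ ε φ} ∂Q := by
    have e2 : W (EV u1 u2 κ ε φ) = (Q.prod γ) ((fun p : Path × ℝ => p.1 + p.2 • φ) ⁻¹' EV u1 u2 κ ε φ) := by
      rw [← hdec, Measure.map_apply mpair (madd mE)]
      congr 1
      ext x
      simp only [mem_preimage, rest_add]
    rw [e2, Measure.prod_apply (madd mE)]
    rfl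
  -- step 2
  have e3 : ∀ β, γ {θ | β + θ • φ ∈ EV u1 u2 κ ε φ} ≤
      (NM u2 p q h).indicator (fun _ => c0) β + c0 * ENNReal.ofReal (Real.exp (-(h ^ 2 / (2 * V)))) := by
    intro β
    set Θ : Set ℝ := {θ | β + θ • φ ∈ EV u1 u2 κ ε φ} with hΘ
    have hsplit : Θ ⊆ (Θ ∩ Icc (-h) h) ∪ (Θ ∩ {y | h ≤ |y|}) := by
      intro θ hθ
      by_cases h1 : θ ∈ Icc (-h) h
      · exact Or.inl ⟨hθ, h1⟩
      · refine Or.inr ⟨hθ, ?_⟩
        show h ≤ |θ|
        by_contra hc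
        push Not at hc
        exact h1 ⟨(abs_lt.1 hc).1.le, (abs_lt.1 hc).2.le⟩
    refine (measure_mono hsplit).trans ((measure_union_le _ _).trans (add_le_add ?_ ?_))
    · by_cases hN : β ∈ NM u2 p q h
      · rw [indicator_of_mem hN, ← ec0]
        refine (gauss_set_le V0 _).trans ?_
        gcongr
        exact EV_diam hκ fun θ hθ => hθ.1
      · have : Θ ∩ Icc (-h) h = ∅ := by
          rw [eq_empty_iff_forall_notMem]
          rintro θ ⟨hθ, hθ2⟩
          apply hN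
          obtain ⟨⟨s2, a1, a2, a3⟩, -, -⟩ := hθ
          have hs2 : s2 ∈ Icc p q := by
            by_contra hc
            have : s2 < p ∨ q < s2 := by
              by_contra hc2
              push Not at hc2
              exact hc ⟨hc2.1, hc2.2⟩
            rw [hσ0 s2 a1 this, sub_self, mul_zero] at a3
            linarith
          refine ⟨s2, hs2, fun s' hs' hout => ?_⟩
          have h1 := (Mx_ge (x := β + θ • φ) hs').trans a2
          have ev (t : ℝ≥0) : (β + θ • φ) t = β t + θ * φ t := rfl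
          rw [ev, ev, ev, ev, hσ0 s' hs' hout] at h1
          have h2 : θ * (φ (s2 + u2) - φ s2) ≤ h := by
            calc θ * (φ (s2 + u2) - φ s2) ≤ |θ * (φ (s2 + u2) - φ s2)| := le_abs_self _
              _ = |θ| * |φ (s2 + u2) - φ s2| := abs_mul _ _
              _ ≤ h * 1 := mul_le_mul (abs_le.2 hθ2) (hσ1 s2) (abs_nonneg _) hh.le
              _ = h := mul_one h
          linarith
        rw [this, measure_empty]
        exact zero_le
    · refine (gauss_tail_set V0 hh.le (fun y hy => hy.2)).trans ?_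
      rw [ENNReal.ofReal_mul (by positivity), ← ec0]
      calc ENNReal.ofReal (1 / (2 * √(V : ℝ))) * ENNReal.ofReal (Real.exp (-(h ^ 2 / (2 * V)))) *
            volume (Θ ∩ {y | h ≤ |y|}) ≤ ENNReal.ofReal (1 / (2 * √(V : ℝ))) *
            ENNReal.ofReal (Real.exp (-(h ^ 2 / (2 * V)))) * ENNReal.ofReal (4 * ε) := by
            gcongr
            exact EV_diam hκ fun θ hθ => hθ.1
        _ = _ := by ring
  -- step 3
  have e4 : Q (NM u2 p q h) ≤ 2 * W (NM u2 p q (2 * h)) := by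
    have h1 : Q (NM u2 p q h) * γ (Icc (-h) h) ≤ W (NM u2 p q (2 * h)) := by
      rw [← Measure.prod_prod, ← hdec, Measure.map_apply mpair ((mN h).prod measurableSet_Icc)]
      apply measure_mono
      rintro x ⟨⟨s, hs, hs1⟩, hθ⟩
      refine ⟨s, hs, fun s' hs' hout => ?_⟩
      have h2 := hs1 s' hs' hout
      simp only [rest_apply] at h2
      rw [hσ0 s' hs' hout] at h2
      have h3 : -h ≤ fn k a b x * (φ (s + u2) - φ s) := by
        have : |fn k a b x * (φ (s + u2) - φ s)| ≤ h := by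
          rw [abs_mul]
          calc |fn k a b x| * |φ (s + u2) - φ s| ≤ h * 1 :=
                mul_le_mul (abs_le.2 hθ) (hσ1 s) (abs_nonneg _) hh.le
            _ = h := mul_one h
        exact (abs_le.1 this).1
      linarith
    calc Q (NM u2 p q h) = 2 * (Q (NM u2 p q h) * (1 / 2)) := by
          rw [mul_comm, mul_assoc]
          have : (1 / 2 : ℝ≥0∞) * 2 = 1 := by
            rw [one_div]; exact ENNReal.inv_mul_cancel (by norm_num) (by norm_num)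
          rw [this, mul_one]
      _ ≤ 2 * (Q (NM u2 p q h) * γ (Icc (-h) h)) := by
          gcongr
          exact gauss_mid hh hVh
      _ ≤ _ := by gcongr
  calc W (EV u1 u2 κ ε φ) = ∫⁻ β, γ {θ | β + θ • φ ∈ EV u1 u2 κ ε φ} ∂Q := e1
    _ ≤ ∫⁻ β, ((NM u2 p q h).indicator (fun _ => c0) β +
        c0 * ENNReal.ofReal (Real.exp (-(h ^ 2 / (2 * V))))) ∂Q := lintegral_mono e3
    _ = c0 * Q (NM u2 p q h) + c0 * ENNReal.ofReal (Real.exp (-(h ^ 2 / (2 * V)))) := by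
        rw [lintegral_add_right _ measurable_const, lintegral_indicator (mN h), setLIntegral_const,
          lintegral_const, measure_univ, mul_one]
    _ ≤ c0 * (2 * W (NM u2 p q (2 * h))) + c0 * ENNReal.ofReal (Real.exp (-(h ^ 2 / (2 * V)))) := by
        gcongr
    _ = _ := by rw [mul_add]

end Q297.Spn
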