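import Pool.Agent.Q297.SpM

/-!
Tents, the covering of the small ball event, and the small ball estimate for `M(U) - M(u)`.
-/

open MeasureTheory ProbabilityTheory Set Filter Topology
open scoped ENNReal NNReal
open Q297.PathC Q297.Prepend Q297.TwoS Q297.Dec

set_option linter.unusedSimpArgs false

namespace Q297.Spn

/-- the tent of height one and half-width `w` at `c` -/
noncomputable def tent (c w : ℝ≥0) : Path := ⟨fun t => max 0 (1 - |(t : ℝ) - c| / w), by fun_prop⟩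

lemma tent_apply (c w t : ℝ≥0) : tent c w t = max 0 (1 - |(t : ℝ) - c| / w) := rfl

lemma tent_zero {c w t : ℝ≥0} (hw : 0 < w) (h : (w : ℝ) ≤ |(t : ℝ) - c|) : tent c w t = 0 := by
  have hw' : (0 : ℝ) < w := hw
  rw [tent_apply, max_eq_left]
  have : 1 ≤ |(t : ℝ) - c| / w := by rw [le_div_iff₀ hw']; linarith
  linarith

lemma tent_nonneg (c w t : ℝ≥0) : 0 ≤ tent c w t := le_max_left _ _

lemma tent_le_one (c w t : ℝ≥0) : tent c w t ≤ 1 := by
  rw [tent_apply]
  refine max_le zero_le_one ?_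
  have : 0 ≤ |(t : ℝ) - c| / w := by positivity
  linarith

lemma tent_half {c w t : ℝ≥0} (hw : 0 < w) (h : |(t : ℝ) - c| ≤ w / 2) : 1 / 2 ≤ tent c w t := by
  have hw' : (0 : ℝ) < w := hw
  rw [tent_apply]
  refine le_trans ?_ (le_max_right _ _)
  have : |(t : ℝ) - c| / w ≤ 1 / 2 := by rw [div_le_iff₀ hw']; linarith
  linarith

lemma tent_V {c w : ℝ≥0} (hcw : w ≤ c) :
    ∑ i : Fin 2, ∑ j : Fin 2, (![1 / 2, -(1 / 2)] : Fin 2 → ℝ) i * (![1 / 2, -(1 / 2)] : Fin 2 → ℝ) j *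
      ov ((![c - w, c] : Fin 2 → ℝ≥0) i) ((![c, c + w] : Fin 2 → ℝ≥0) i)
        ((![c - w, c] : Fin 2 → ℝ≥0) j) ((![c, c + w] : Fin 2 → ℝ≥0) j) = (w / 2 : ℝ≥0) := by
  have e : ((c - w : ℝ≥0) : ℝ) = c - w := NNReal.coe_sub hcw
  have hw0 := w.coe_nonneg
  simp only [Fin.sum_univ_two, Matrix.cons_val_zero, Matrix.cons_val_one, Matrix.cons_val, e,
    NNReal.coe_add]
  rw [ov_left (by linarith) (by linarith), ov_left (by linarith) (by linarith),
    ov_disj (by linarith) (by linarith) (by linarith),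
    ov_disj' (by linarith) (by linarith) (by linarith), min_self, min_self]
  push_cast
  ring

lemma tent_cov {c w : ℝ≥0} (hw : 0 < w) (hcw : w ≤ c) (t : ℝ≥0) :
    ∑ i : Fin 2, (![1 / 2, -(1 / 2)] : Fin 2 → ℝ) i *
      ov 0 t ((![c - w, c] : Fin 2 → ℝ≥0) i) ((![c, c + w] : Fin 2 → ℝ≥0) i) =
      (w / 2 : ℝ≥0) * tent c w t := by
  have e : ((c - w : ℝ≥0) : ℝ) = c - w := NNReal.coe_sub hcw
  have hw' : (0 : ℝ) < w := hw
  have hc' : (w : ℝ) ≤ c := by exact_mod_cast hcw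
  have ht := t.coe_nonneg
  simp only [Fin.sum_univ_two, Matrix.cons_val_zero, Matrix.cons_val_one, Matrix.cons_val, e,
    NNReal.coe_add]
  rw [tent_apply]
  push_cast
  unfold ov
  have a1 : |(0 : ℝ) - c| = c := by rw [zero_sub, abs_neg, abs_of_nonneg (by linarith)]
  have a2 : |(0 : ℝ) - (c - w)| = c - w := by rw [zero_sub, abs_neg, abs_of_nonneg (by linarith)]
  have a3 : |(0 : ℝ) - (c + w)| = c + w := by rw [zero_sub, abs_neg, abs_of_nonneg (by linarith)]
  rw [a1, a2, a3]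
  rcases le_total (t : ℝ) c with h1 | h1
  · rw [abs_of_nonpos (by linarith : (t : ℝ) - c ≤ 0), abs_of_nonpos (by linarith : (t : ℝ) - (c + w) ≤ 0)]
    rcases le_total (t : ℝ) (c - w) with h2 | h2
    · rw [abs_of_nonpos (by linarith : (t : ℝ) - (c - w) ≤ 0), max_eq_left]
      · ring
      · rw [sub_nonpos, le_div_iff₀ hw']; linarith
    · rw [abs_of_nonneg (by linarith : 0 ≤ (t : ℝ) - (c - w)), max_eq_right]
      · field_simp
        ring
      · rw [sub_nonneg, div_le_iff₀ hw']; linarith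
  · rw [abs_of_nonneg (by linarith : 0 ≤ (t : ℝ) - c), abs_of_nonneg (by linarith : 0 ≤ (t : ℝ) - (c - w))]
    rcases le_total (t : ℝ) (c + w) with h2 | h2
    · rw [abs_of_nonpos (by linarith : (t : ℝ) - (c + w) ≤ 0), max_eq_right]
      · field_simp
        ring
      · rw [sub_nonneg, div_le_iff₀ hw']; linarith
    · rw [abs_of_nonneg (by linarith : 0 ≤ (t : ℝ) - (c + w)), max_eq_left]
      · ring
      · rw [sub_nonpos, le_div_iff₀ hw']; linarith

lemma round_ex {w : ℝ≥0} (hw : 0 < w) (s : ℝ≥0) : ∃ j : ℕ, |(s : ℝ) - j * w| ≤ w / 2 := by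
  have hw' : (0 : ℝ) < w := hw
  refine ⟨⌊(s : ℝ) / w + 1 / 2⌋₊, ?_⟩
  have h0 : 0 ≤ (s : ℝ) / w + 1 / 2 := by positivity
  have h1 := Nat.floor_le h0
  have h2 := Nat.lt_floor_add_one ((s : ℝ) / w + 1 / 2)
  set j : ℝ := (⌊(s : ℝ) / w + 1 / 2⌋₊ : ℝ)
  have e : (s : ℝ) = (s : ℝ) / w * w := by field_simp
  rw [abs_le]
  constructor
  · have : (j - 1 / 2) * w ≤ (s : ℝ) / w * w := by
      apply mul_le_mul_of_nonneg_right _ hw'.le; linarith
    rw [← e] at this
    linarith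
  · have : (s : ℝ) / w * w ≤ (j + 1 / 2) * w := by
      apply mul_le_mul_of_nonneg_right _ hw'.le; linarith
    rw [← e] at this
    linarith

/-- the covering of the small ball event by bump events -/
lemma cover {x : Path} {u U w : ℝ≥0} {ε : ℝ} (hu : 3 / 5 ≤ (u : ℝ)) (huU : (U : ℝ) = u + 8 * w)
    (hU : (U : ℝ) ≤ 7 / 10) (hw : 0 < w) (hx : |Mx x U - Mx x u| ≤ ε) :
    (∃ j : ℕ, 1 ≤ j ∧ (j : ℝ) * w ≤ 1 - U + w / 2 ∧ x ∈ EV u U (-1) ε (tent (j * w) w)) ∨
    (∃ j : ℕ, 1 ≤ j ∧ (j : ℝ) * w ≤ 1 - u + w / 2 ∧ x ∈ EV U u (-1) ε (tent (j * w) w)) ∨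
    (∃ j : ℕ, (j : ℝ) * w ≤ 1 - U + w / 2 ∧ x ∈ EV u U 1 ε (tent (j * w + U) w)) := by
  have hw' : (0 : ℝ) < w := hw
  have hx' : |Mx x u - Mx x U| ≤ ε := by rw [abs_sub_comm]; exact hx
  obtain ⟨a, a1, a2⟩ := Mx_att x (u := u) (by
    have : (u : ℝ) ≤ 1 := by linarith
    exact_mod_cast this)
  obtain ⟨A, A1, A2⟩ := Mx_att x (u := U) (by
    have : (U : ℝ) ≤ 1 := by linarith
    exact_mod_cast this)
  have a1' : (a : ℝ) + u ≤ 1 := by exact_mod_cast a1
  have A1' : (A : ℝ) + U ≤ 1 := by exact_mod_cast A1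
  have a0 := a.coe_nonneg
  have A0 := A.coe_nonneg
  obtain ⟨j, hj⟩ := round_ex hw a
  obtain ⟨J, hJ⟩ := round_ex hw A
  have hj' := abs_le.1 hj
  have hJ' := abs_le.1 hJ
  have cj : ((j * w : ℝ≥0) : ℝ) = (j : ℝ) * w := by push_cast; ring
  have cJ : ((J * w : ℝ≥0) : ℝ) = (J : ℝ) * w := by push_cast; ring
  have cJU : ((J * w + U : ℝ≥0) : ℝ) = (J : ℝ) * w + U := by push_cast; ring
  rcases le_or_gt ((a : ℝ) + 4 * w) A with h1 | h1
  · left
    refine ⟨J, ?_, by linarith [hJ'.1], ?_⟩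
    · by_contra hc
      have : J = 0 := by omega
      rw [this, Nat.cast_zero, zero_mul] at hJ'
      linarith [hJ'.2]
    refine ⟨⟨A, A1, A2.ge, ?_⟩, ⟨a, a1, a2.ge, ?_⟩, hx⟩
    · have t1 : tent (J * w) w (A + U) = 0 := tent_zero hw (by
        rw [cJ, NNReal.coe_add, abs_of_nonneg] <;> linarith [hJ'.1, hJ'.2])
      have t2 : 1 / 2 ≤ tent (J * w) w A := tent_half hw (by rw [cJ]; exact hJ)
      rw [t1]
      linarith
    · have t1 : tent (J * w) w (a + u) = 0 := tent_zero hw (by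
        rw [cJ, NNReal.coe_add, abs_of_nonneg] <;> linarith [hJ'.1, hJ'.2])
      have t2 : tent (J * w) w a = 0 := tent_zero hw (by
        rw [cJ, abs_of_nonpos] <;> linarith [hJ'.1, hJ'.2])
      rw [t1, t2]
  rcases le_or_gt ((A : ℝ) + 4 * w) a with h2 | h2
  · right; left
    refine ⟨j, ?_, by linarith [hj'.1], ?_⟩
    · by_contra hc
      have : j = 0 := by omega
      rw [this, Nat.cast_zero, zero_mul] at hj'
      linarith [hj'.2]
    refine ⟨⟨a, a1, a2.ge, ?_⟩, ⟨A, A1, A2.ge, ?_⟩, hx'⟩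
    · have t1 : tent (j * w) w (a + u) = 0 := tent_zero hw (by
        rw [cj, NNReal.coe_add, abs_of_nonneg] <;> linarith [hj'.1, hj'.2])
      have t2 : 1 / 2 ≤ tent (j * w) w a := tent_half hw (by rw [cj]; exact hj)
      rw [t1]
      linarith
    · have t1 : tent (j * w) w (A + U) = 0 := tent_zero hw (by
        rw [cj, NNReal.coe_add, abs_of_nonneg] <;> linarith [hj'.1, hj'.2])
      have t2 : tent (j * w) w A = 0 := tent_zero hw (by
        rw [cj, abs_of_nonpos] <;> linarith [hj'.1, hj'.2])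
      rw [t1, t2]
  · right; right
    refine ⟨J, by linarith [hJ'.1], ⟨A, A1, A2.ge, ?_⟩, ⟨a, a1, a2.ge, ?_⟩, hx⟩
    · have t1 : tent (J * w + U) w A = 0 := tent_zero hw (by
        rw [cJU, abs_of_nonpos] <;> linarith [hJ'.1, hJ'.2])
      have t2 : 1 / 2 ≤ tent (J * w + U) w (A + U) := tent_half hw (by
        rw [cJU, NNReal.coe_add]
        have e : (A : ℝ) + U - (J * w + U) = A - J * w := by ring
        rw [e]; exact hJ)
      rw [t1]
      linarith
    · have t1 : tent (J * w + U) w (a + u) = 0 := tent_zero hw (by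
        rw [cJU, NNReal.coe_add, abs_of_nonpos] <;> linarith [hJ'.1, hJ'.2])
      have t2 : tent (J * w + U) w a = 0 := tent_zero hw (by
        rw [cJU, abs_of_nonpos] <;> linarith [hJ'.1, hJ'.2])
      rw [t1, t2]

/-! ### the sums -/

lemma BB_anti {h r r' : ℝ} (hh : 0 < h) (hr : r' ≤ r) : BB h r ≤ BB h r' := by
  unfold BB
  have := Real.sqrt_nonneg r'
  gcongr

lemma BB_le_two {h : ℝ} (hh : 0 < h) (r : ℝ) : BB h r ≤ 2 := by
  unfold BB
  have := Real.sqrt_nonneg r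
  rw [div_le_iff₀ (by positivity)]
  linarith

lemma BB_le_div {h r : ℝ} (hh : 0 < h) (hr : 0 < r) : BB h r ≤ 10 * h / √r := by
  unfold BB
  have := Real.sqrt_pos.2 hr
  gcongr
  linarith

lemma sum_sqrt (N : ℕ) : ∑ l ∈ Finset.range N, 1 / √((l : ℝ) + 1) ≤ 2 * √(N : ℝ) := by
  induction N with
  | zero => simp
  | succ N ih =>
    rw [Finset.sum_range_succ]
    have h0 : (0 : ℝ) ≤ N := Nat.cast_nonneg N
    have h1 : 0 < √((N : ℝ) + 1) := by positivity
    have h2 : 0 ≤ √(N : ℝ) := Real.sqrt_nonneg _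
    have h3 : √(N : ℝ) ≤ √((N : ℝ) + 1) := Real.sqrt_le_sqrt (by linarith)
    have h4 : √((N : ℝ) + 1) ^ 2 = N + 1 := Real.sq_sqrt (by linarith)
    have h5 : √(N : ℝ) ^ 2 = N := Real.sq_sqrt h0
    have h6 : 1 / √((N : ℝ) + 1) ≤ 2 * √((N : ℝ) + 1) - 2 * √(N : ℝ) := by
      rw [div_le_iff₀ h1]
      nlinarith [sq_nonneg (√((N : ℝ) + 1) - √(N : ℝ))]
    push_cast
    linarith

lemma sum_BB {h w : ℝ} (hh : 0 < h) (hw : 0 < w) (m J : ℕ) :
    ∑ i ∈ Finset.range (J + 1), BB h (((i - m : ℕ) : ℝ) * w) ≤ 2 * (m + 1) + 20 * (h / √w) * √(J : ℝ) := by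
  have h1 : ∑ i ∈ Finset.range (J + 1), BB h (((i - m : ℕ) : ℝ) * w) ≤
      ∑ i ∈ Finset.range (m + 1 + J), BB h (((i - m : ℕ) : ℝ) * w) := by
    apply Finset.sum_le_sum_of_subset_of_nonneg
    · intro i hi
      rw [Finset.mem_range] at hi ⊢
      omega
    · intro i _ _
      exact (BB_pos hh _).le
  refine h1.trans ?_
  rw [Finset.sum_range_add]
  refine add_le_add ?_ ?_
  · calc ∑ i ∈ Finset.range (m + 1), BB h (((i - m : ℕ) : ℝ) * w) ≤
          ∑ i ∈ Finset.range (m + 1), (2 : ℝ) := Finset.sum_le_sum fun i _ => BB_le_two hh _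
      _ = 2 * (m + 1) := by
        rw [Finset.sum_const, Finset.card_range, nsmul_eq_mul]; push_cast; ring
  · have sw : 0 < √w := Real.sqrt_pos.2 hw
    calc ∑ l ∈ Finset.range J, BB h (((m + 1 + l - m : ℕ) : ℝ) * w) ≤
          ∑ l ∈ Finset.range J, 10 * (h / √w) * (1 / √((l : ℝ) + 1)) := by
          refine Finset.sum_le_sum fun l _ => ?_
          have e : m + 1 + l - m = l + 1 := by omega
          rw [e]
          have h2 : (0 : ℝ) < ((l + 1 : ℕ) : ℝ) := by positivity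
          refine (BB_le_div hh (by positivity)).trans (le_of_eq ?_)
          rw [Real.sqrt_mul h2.le]
          push_cast
          have : 0 < √((l : ℝ) + 1) := by positivity
          field_simp
      _ = 10 * (h / √w) * ∑ l ∈ Finset.range J, 1 / √((l : ℝ) + 1) := by rw [Finset.mul_sum]
      _ ≤ 10 * (h / √w) * (2 * √(J : ℝ)) := by
          gcongr
          exact sum_sqrt J
      _ = _ := by ring

/-- the sum of the two sided persistence bounds -/
lemma sum_two {h w L : ℝ} (hh : 0 < h) (hw : 0 < w) (hw1 : w ≤ 1 / 80) (hL : 3 / 10 ≤ L)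
    (hL2 : L ≤ 2 / 5) {J : ℕ} (hJ : (J : ℝ) * w ≤ L + w / 2) :
    ∑ j ∈ Finset.range (J + 1), BB h (((j - 1 : ℕ) : ℝ) * w) * BB h (L - min (((j : ℝ) + 1) * w) L) ≤
      30 * h * (10 + 40 * (h / w)) := by
  have sw : 0 < √w := Real.sqrt_pos.2 hw
  have h1 : ∀ j ∈ Finset.range (J + 1), BB h (((j - 1 : ℕ) : ℝ) * w) *
      BB h (L - min (((j : ℝ) + 1) * w) L) ≤
      30 * h * (BB h (((j - 1 : ℕ) : ℝ) * w) + BB h (((J + 1 - 1 - j - 2 : ℕ) : ℝ) * w)) := by
    intro j hj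
    have hj' : j ≤ J := by rw [Finset.mem_range] at hj; omega
    have b1 : ((J + 1 - 1 - j - 2 : ℕ) : ℝ) * w ≤ L - min (((j : ℝ) + 1) * w) L := by
      rcases Nat.lt_or_ge (j + 2) J with h2 | h2
      · have e : ((J + 1 - 1 - j - 2 : ℕ) : ℝ) = (J : ℝ) - j - 2 := by
          have : J + 1 - 1 - j - 2 = J - (j + 2) := by omega
          rw [this, Nat.cast_sub h2.le]; push_cast; ring
        rw [e]
        have := min_le_left (((j : ℝ) + 1) * w) L
        nlinarith
      · have : J + 1 - 1 - j - 2 = 0 := by omega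
        rw [this, Nat.cast_zero, zero_mul]
        linarith [min_le_right (((j : ℝ) + 1) * w) L]
    have b2 : BB h (L - min (((j : ℝ) + 1) * w) L) ≤ BB h (((J + 1 - 1 - j - 2 : ℕ) : ℝ) * w) :=
      BB_anti hh b1
    have p1 := BB_pos hh (((j - 1 : ℕ) : ℝ) * w)
    have p2 := BB_pos hh (L - min (((j : ℝ) + 1) * w) L)
    have big : ∀ r : ℝ, 1 / 8 ≤ r → BB h r ≤ 30 * h := by
      intro r hr
      refine (BB_le_div hh (by linarith)).trans ?_
      have h3 : 1 / 3 ≤ √r := by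
        apply Real.le_sqrt_of_sq_le
        norm_num
        linarith
      rw [div_le_iff₀ (by linarith)]
      nlinarith
    -- one of the two distances is large
    rcases le_total (1 / 8) (((j - 1 : ℕ) : ℝ) * w) with h2 | h2
    · have h3 := big _ h2
      calc BB h (((j - 1 : ℕ) : ℝ) * w) * BB h (L - min (((j : ℝ) + 1) * w) L) ≤
            30 * h * BB h (((J + 1 - 1 - j - 2 : ℕ) : ℝ) * w) := by gcongr
        _ ≤ _ := by
          have := p1.le
          gcongr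
          linarith
    · have h4 : 1 / 8 ≤ L - min (((j : ℝ) + 1) * w) L := by
        have h5 : (j : ℝ) ≤ ((j - 1 : ℕ) : ℝ) + 1 := by
          have : j ≤ (j - 1) + 1 := by omega
          exact_mod_cast this
        have := min_le_left (((j : ℝ) + 1) * w) L
        nlinarith
      have h3 := big _ h4
      calc BB h (((j - 1 : ℕ) : ℝ) * w) * BB h (L - min (((j : ℝ) + 1) * w) L) ≤
            BB h (((j - 1 : ℕ) : ℝ) * w) * (30 * h) := by gcongr
        _ ≤ _ := by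
          have := (p2.le).trans b2
          nlinarith [mul_nonneg hh.le this]
  refine (Finset.sum_le_sum h1).trans ?_
  rw [← Finset.mul_sum, Finset.sum_add_distrib]
  have h2 := sum_BB hh hw 1 J
  have h3 : ∑ j ∈ Finset.range (J + 1), BB h (((J + 1 - 1 - j - 2 : ℕ) : ℝ) * w) ≤
      2 * ((2 : ℕ) + 1) + 20 * (h / √w) * √(J : ℝ) := by
    rw [Finset.sum_range_reflect (fun i => BB h (((i - 2 : ℕ) : ℝ) * w)) (J + 1)]
    exact sum_BB hh hw 2 J
  have h4 : h / √w * √(J : ℝ) ≤ h / w := by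
    have h5 : √(J : ℝ) * √w ≤ 1 := by
      rw [← Real.sqrt_mul (Nat.cast_nonneg J), ← Real.sqrt_one]
      apply Real.sqrt_le_sqrt
      linarith
    have h6 : h / √w = h / w * √w := by
      rw [div_mul_eq_mul_div, div_eq_div_iff sw.ne' hw.ne', mul_assoc, Real.mul_self_sqrt hw.le]
    calc h / √w * √(J : ℝ) = h / w * (√(J : ℝ) * √w) := by
          rw [h6]; ring
      _ ≤ h / w * 1 := by gcongr
      _ = h / w := mul_one _
  have : 0 < 30 * h := by linarith
  apply mul_le_mul_of_nonneg_left _ this.le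
  have h7 : 20 * (h / √w) * √(J : ℝ) ≤ 20 * (h / w) := by linarith
  norm_num at h2 h3 ⊢
  linarith

end Q297.Spn
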