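import Pool.Agent.Q297.SpN

/-!
The small ball estimate for `M(U) - M(u)`.
-/

open MeasureTheory ProbabilityTheory Set Filter Topology
open scoped ENNReal NNReal
open Q297.PathC Q297.Prepend Q297.TwoS Q297.Dec

set_option linter.unusedSimpArgs false

namespace Q297.Spn

variable {W : Measure Path} (hW : IsBrownianReal (fun (t : ℝ≥0) (x : Path) => x t) W)

/-- the bound for one bump event -/
noncomputable def tm (L w h ε : ℝ) (j : ℕ) : ℝ :=
  2 * ε / √(w / 2) * (2 * (BB h (((j - 1 : ℕ) : ℝ) * w) * BB h (L - min (((j : ℝ) + 1) * w) L) +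
    4 * Real.exp (-(h ^ 2 / (32 * w)))) + Real.exp (-(h ^ 2 / w)))

include hW

lemma ev_gen {u1 u2 w c : ℝ≥0} (hu2 : 3 / 5 ≤ (u2 : ℝ)) (hu2' : (u2 : ℝ) ≤ 7 / 10) (hw : 0 < w)
    {j : ℕ} (hjL : (j : ℝ) * w ≤ 1 - u2 + w / 2) {h ε κ : ℝ} (hκ : κ = 1 ∨ κ = -1) (hh : 0 < h)
    (hwh : (w : ℝ) ≤ h ^ 2) (hε : 0 ≤ ε) (hcw : w ≤ c)
    (hσ0 : ∀ s : ℝ≥0, s + u2 ≤ 1 → (s < ((j - 1 : ℕ) : ℝ≥0) * w ∨ min (((j : ℝ≥0) + 1) * w) (1 - u2) < s) →
      tent c w (s + u2) = tent c w s) :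
    W (EV u1 u2 κ ε (tent c w)) ≤ ENNReal.ofReal (tm (1 - u2) w h ε j) := by
  have hw' : (0 : ℝ) < w := hw
  have hu21 : u2 ≤ 1 := by
    have : (u2 : ℝ) ≤ 1 := by linarith
    exact_mod_cast this
  have hV0 : (w / 2 : ℝ≥0) ≠ 0 := by positivity
  have cV : ((w / 2 : ℝ≥0) : ℝ) = w / 2 := by push_cast; ring
  have hσ1 : ∀ s, |tent c w (s + u2) - tent c w s| ≤ 1 := by
    intro s
    rw [abs_le]
    constructor <;> linarith [tent_nonneg c w s, tent_nonneg c w (s + u2), tent_le_one c w s,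
      tent_le_one c w (s + u2)]
  set p : ℝ≥0 := ((j - 1 : ℕ) : ℝ≥0) * w with hp
  set q : ℝ≥0 := min (((j : ℝ≥0) + 1) * w) (1 - u2) with hq
  have c1 : ((1 - u2 : ℝ≥0) : ℝ) = 1 - u2 := by rw [NNReal.coe_sub hu21, NNReal.coe_one]
  have cp : (p : ℝ) = ((j - 1 : ℕ) : ℝ) * w := by rw [hp, NNReal.coe_mul, NNReal.coe_natCast]
  have cq : (q : ℝ) = min (((j : ℝ) + 1) * w) (1 - u2) := by
    rw [hq, NNReal.coe_min, c1]; push_cast; ring
  have h1 := bump hW _ _ _ (tent c w) (tent_V hcw) (tent_cov hw hcw) hV0 (u1 := u1) (u2 := u2)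
    (p := p) (q := q) (ε := ε) hκ hh (by rw [cV]; linarith) hσ0 hσ1
  have hj1 : ((j - 1 : ℕ) : ℝ) ≤ j := by exact_mod_cast Nat.sub_le j 1
  have hpq : p ≤ q := by
    have : (p : ℝ) ≤ q := by
      rw [cp, cq]
      apply le_min
      · nlinarith
      · rcases Nat.eq_zero_or_pos j with h0 | h0
        · rw [h0]; simp; linarith
        · rw [Nat.cast_sub h0]; push_cast; linarith
    exact_mod_cast this
  have hq1 : q + u2 ≤ 1 := by
    have : (q : ℝ) + u2 ≤ 1 := by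
      rw [cq]; linarith [min_le_right (((j : ℝ) + 1) * w) (1 - u2)]
    exact_mod_cast this
  have h2 := near hW (U := u2) (p := p) (q := q) (w := w) (H := h) (by
    have : (1 : ℝ) ≤ 2 * u2 := by linarith
    exact_mod_cast this) hpq hq1 (by
      rw [cp, cq]
      have h3 := min_le_left (((j : ℝ) + 1) * w) (1 - u2)
      have h4 : (j : ℝ) ≤ ((j - 1 : ℕ) : ℝ) + 1 := by
        have : j ≤ (j - 1) + 1 := by omega
        exact_mod_cast this
      nlinarith) hh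
  have e2 : 2 * ((w / 2 : ℝ≥0) : ℝ) = w := by rw [cV]; ring
  rw [e2, cV] at h1
  rw [cp, cq] at h2
  refine h1.trans ?_
  have b1 := BB_pos hh (((j - 1 : ℕ) : ℝ) * w)
  have b2 := BB_pos hh (1 - u2 - min (((j : ℝ) + 1) * w) (1 - u2))
  unfold tm
  rw [ENNReal.ofReal_mul (by positivity), ENNReal.ofReal_add (by positivity) (by positivity),
    ENNReal.ofReal_mul (p := 2) (by norm_num), ENNReal.ofReal_add (by positivity) (by positivity),
    ENNReal.ofReal_ofNat]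
  gcongr

lemma ev_left {u1 u2 w : ℝ≥0} (hu2 : 3 / 5 ≤ (u2 : ℝ)) (hu2' : (u2 : ℝ) ≤ 7 / 10) (hw : 0 < w)
    (hw1 : (w : ℝ) ≤ 1 / 80) {j : ℕ} (hj : 1 ≤ j) (hjL : (j : ℝ) * w ≤ 1 - u2 + w / 2) {h ε : ℝ}
    (hh : 0 < h) (hwh : (w : ℝ) ≤ h ^ 2) (hε : 0 ≤ ε) :
    W (EV u1 u2 (-1) ε (tent (j * w) w)) ≤ ENNReal.ofReal (tm (1 - u2) w h ε j) := by
  have hw' : (0 : ℝ) < w := hw
  have cj : ((j * w : ℝ≥0) : ℝ) = (j : ℝ) * w := by push_cast; ring
  have hj1 : (1 : ℝ) ≤ j := by exact_mod_cast hj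
  refine ev_gen hW hu2 hu2' hw hjL (Or.inr rfl) hh hwh hε ?_ ?_
  · have : (w : ℝ) ≤ ((j * w : ℝ≥0) : ℝ) := by rw [cj]; nlinarith
    exact_mod_cast this
  · intro s hs hout
    have hs' : (s : ℝ) + u2 ≤ 1 := by exact_mod_cast hs
    have s0 := s.coe_nonneg
    have t1 : tent (j * w) w (s + u2) = 0 := by
      rcases hout with h1 | h1
      · refine tent_zero hw ?_
        rw [cj, NNReal.coe_add, abs_of_nonneg] <;> linarith
      · refine tent_zero hw ?_
        rw [cj, NNReal.coe_add, abs_of_nonneg] <;> linarith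
    have t2 : tent (j * w) w s = 0 := by
      refine tent_zero hw ?_
      rw [cj]
      rcases hout with h1 | h1
      · have h2 : (s : ℝ) < ((j - 1 : ℕ) : ℝ) * w := by
          have : ((((j - 1 : ℕ) : ℝ≥0) * w : ℝ≥0) : ℝ) = ((j - 1 : ℕ) : ℝ) * w := by
            rw [NNReal.coe_mul, NNReal.coe_natCast]
          rw [← this]; exact_mod_cast h1
        rw [Nat.cast_sub hj] at h2
        push_cast at h2
        rw [abs_of_nonpos] <;> nlinarith
      · have h2 : min (((j : ℝ) + 1) * w) (1 - u2) < s := by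
          have h3 : ((min (((j : ℝ≥0) + 1) * w) (1 - u2) : ℝ≥0) : ℝ) < s := by exact_mod_cast h1
          have hu21 : u2 ≤ 1 := le_add_self.trans hs
          rw [NNReal.coe_min, NNReal.coe_sub hu21] at h3
          push_cast at h3
          exact h3
        have h4 : ((j : ℝ) + 1) * w < s := by
          rcases min_lt_iff.1 h2 with h5 | h5
          · exact h5
          · linarith
        rw [abs_of_nonneg] <;> nlinarith
    rw [t1, t2]

lemma ev_right {u1 u2 w : ℝ≥0} (hu2 : 3 / 5 ≤ (u2 : ℝ)) (hu2' : (u2 : ℝ) ≤ 7 / 10) (hw : 0 < w)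
    (hw1 : (w : ℝ) ≤ 1 / 80) {j : ℕ} (hjL : (j : ℝ) * w ≤ 1 - u2 + w / 2) {h ε : ℝ}
    (hh : 0 < h) (hwh : (w : ℝ) ≤ h ^ 2) (hε : 0 ≤ ε) :
    W (EV u1 u2 1 ε (tent (j * w + u2) w)) ≤ ENNReal.ofReal (tm (1 - u2) w h ε j) := by
  have hw' : (0 : ℝ) < w := hw
  have cj : ((j * w + u2 : ℝ≥0) : ℝ) = (j : ℝ) * w + u2 := by push_cast; ring
  have hj0 : (0 : ℝ) ≤ (j : ℝ) * w := by positivity
  refine ev_gen hW hu2 hu2' hw hjL (Or.inl rfl) hh hwh hε ?_ ?_
  · have : (w : ℝ) ≤ ((j * w + u2 : ℝ≥0) : ℝ) := by rw [cj]; linarith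
    exact_mod_cast this
  · intro s hs hout
    have hs' : (s : ℝ) + u2 ≤ 1 := by exact_mod_cast hs
    have s0 := s.coe_nonneg
    have t1 : tent (j * w + u2) w s = 0 := by
      refine tent_zero hw ?_
      rw [cj, abs_of_nonpos] <;> linarith
    have t2 : tent (j * w + u2) w (s + u2) = 0 := by
      refine tent_zero hw ?_
      rw [cj, NNReal.coe_add]
      have e : (s : ℝ) + u2 - (j * w + u2) = s - j * w := by ring
      rw [e]
      rcases hout with h1 | h1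
      · have h2 : (s : ℝ) < ((j - 1 : ℕ) : ℝ) * w := by
          have : ((((j - 1 : ℕ) : ℝ≥0) * w : ℝ≥0) : ℝ) = ((j - 1 : ℕ) : ℝ) * w := by
            rw [NNReal.coe_mul, NNReal.coe_natCast]
          rw [← this]; exact_mod_cast h1
        have hj : 1 ≤ j := by
          by_contra hc
          have : j - 1 = 0 := by omega
          rw [this, Nat.cast_zero, zero_mul] at h2
          linarith
        rw [Nat.cast_sub hj] at h2
        push_cast at h2
        rw [abs_of_nonpos] <;> nlinarith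
      · have h2 : min (((j : ℝ) + 1) * w) (1 - u2) < s := by
          have h3 : ((min (((j : ℝ≥0) + 1) * w) (1 - u2) : ℝ≥0) : ℝ) < s := by exact_mod_cast h1
          have hu21 : u2 ≤ 1 := le_add_self.trans hs
          rw [NNReal.coe_min, NNReal.coe_sub hu21] at h3
          push_cast at h3
          exact h3
        have h4 : ((j : ℝ) + 1) * w < s := by
          rcases min_lt_iff.1 h2 with h5 | h5
          · exact h5
          · linarith
        rw [abs_of_nonneg] <;> nlinarith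
    rw [t1, t2]

omit hW in
lemma exp_small {y : ℝ} (hy : 0 < y) : Real.exp (-y) ≤ 6 / y ^ 3 := by
  have h1 := Real.pow_div_factorial_le_exp y hy.le 3
  rw [Real.exp_neg, inv_le_comm₀ (Real.exp_pos y) (by positivity), inv_div]
  norm_num [Nat.factorial] at h1 ⊢
  exact h1

omit hW in
lemma sum_tm {L v ε : ℝ} (hv : 0 < v) (hv1 : v ^ 8 ≤ 1 / 80) (hL : 3 / 10 ≤ L) (hL2 : L ≤ 2 / 5)
    {J : ℕ} (hJ : (J : ℝ) * v ^ 8 ≤ L + v ^ 8 / 2) (hε : 0 ≤ ε) :
    ∑ j ∈ Finset.range (J + 1), tm L (v ^ 8) (v ^ 3) ε j ≤ 6 * 10 ^ 6 * ε / v ^ 6 := by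
  have hv' : v ≤ 1 := by
    by_contra hc
    push Not at hc
    have := one_le_pow₀ hc.le (n := 8)
    linarith
  have h1 := sum_two (h := v ^ 3) (w := v ^ 8) (by positivity) (by positivity) hv1 hL hL2 hJ
  set S := ∑ j ∈ Finset.range (J + 1), BB (v ^ 3) (((j - 1 : ℕ) : ℝ) * v ^ 8) *
    BB (v ^ 3) (L - min (((j : ℝ) + 1) * v ^ 8) L) with hS
  have e1 : ∑ j ∈ Finset.range (J + 1), tm L (v ^ 8) (v ^ 3) ε j =
      2 * ε / √(v ^ 8 / 2) * (2 * (S + (J + 1) * (4 * Real.exp (-((v ^ 3) ^ 2 / (32 * v ^ 8))))) +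
        (J + 1) * Real.exp (-((v ^ 3) ^ 2 / v ^ 8))) := by
    unfold tm
    rw [← Finset.mul_sum, Finset.sum_add_distrib, ← Finset.mul_sum, Finset.sum_add_distrib,
      Finset.sum_const, Finset.sum_const, Finset.card_range, nsmul_eq_mul, nsmul_eq_mul]
    push_cast
    ring
  have q1 : (v ^ 3) ^ 2 / (32 * v ^ 8) = 1 / (32 * v ^ 2) := by field_simp
  have q2 : (v ^ 3) ^ 2 / v ^ 8 = 1 / v ^ 2 := by field_simp
  have q3 : v ^ 3 / v ^ 8 = 1 / v ^ 5 := by field_simp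
  have x1 : Real.exp (-(1 / (32 * v ^ 2))) ≤ 196608 * v ^ 6 := by
    refine (exp_small (by positivity)).trans (le_of_eq ?_)
    field_simp
    norm_num
  have x2 : Real.exp (-(1 / v ^ 2)) ≤ 196608 * v ^ 6 := by
    refine le_trans ?_ x1
    apply Real.exp_le_exp.2
    rw [neg_le_neg_iff]
    apply one_div_le_one_div_of_le (by positivity)
    nlinarith [pow_pos hv 2]
  have hJ1 : ((J : ℝ) + 1) * v ^ 8 ≤ 1 := by linarith
  have h8 : (0 : ℝ) < v ^ 8 := by positivity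
  have s1 : √(v ^ 8 / 2) = v ^ 4 / √2 := by
    rw [Real.sqrt_div (by positivity), show v ^ 8 = (v ^ 4) ^ 2 by ring, Real.sqrt_sq (by positivity)]
  have s2 : √2 ≤ 3 / 2 := by
    rw [Real.sqrt_le_left (by norm_num)]; norm_num
  rw [e1, q1, q2, s1]
  rw [q3] at h1
  have b1 : S ≤ 1500 / v ^ 2 := by
    refine h1.trans ?_
    have : 30 * v ^ 3 * (10 + 40 * (1 / v ^ 5)) = 300 * v ^ 3 + 1200 / v ^ 2 := by
      field_simp
      ring
    rw [this]
    have : 300 * v ^ 3 ≤ 300 / v ^ 2 := by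
      rw [le_div_iff₀ (by positivity)]
      have : v ^ 5 ≤ 1 := pow_le_one₀ hv.le hv'
      nlinarith
    calc 300 * v ^ 3 + 1200 / v ^ 2 ≤ 300 / v ^ 2 + 1200 / v ^ 2 := by linarith
      _ = 1500 / v ^ 2 := by ring
  have b2 : ((J : ℝ) + 1) * (196608 * v ^ 6) ≤ 196608 / v ^ 2 := by
    rw [le_div_iff₀ (by positivity)]
    calc ((J : ℝ) + 1) * (196608 * v ^ 6) * v ^ 2 = 196608 * (((J : ℝ) + 1) * v ^ 8) := by ring
      _ ≤ 196608 * 1 := by gcongr
      _ = 196608 := by norm_num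
  have b3 : ((J : ℝ) + 1) * Real.exp (-(1 / (32 * v ^ 2))) ≤ 196608 / v ^ 2 := by
    refine le_trans ?_ b2
    gcongr
  have b4 : ((J : ℝ) + 1) * Real.exp (-(1 / v ^ 2)) ≤ 196608 / v ^ 2 := by
    refine le_trans ?_ b2
    gcongr
  have b5 : 2 * (S + (J + 1) * (4 * Real.exp (-(1 / (32 * v ^ 2))))) +
      (J + 1) * Real.exp (-(1 / v ^ 2)) ≤ 1800000 / v ^ 2 := by
    have : 2 * (1500 / v ^ 2) + 8 * (196608 / v ^ 2) + 196608 / v ^ 2 ≤ 1800000 / v ^ 2 := by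
      rw [← sub_nonneg]
      have : 1800000 / v ^ 2 - (2 * (1500 / v ^ 2) + 8 * (196608 / v ^ 2) + 196608 / v ^ 2) =
        27528 / v ^ 2 := by ring
      rw [this]
      positivity
    linarith
  have b6 : 2 * ε / (v ^ 4 / √2) ≤ 3 * ε / v ^ 4 := by
    rw [div_div_eq_mul_div]
    have : 2 * ε * √2 ≤ 3 * ε := by nlinarith
    exact div_le_div_of_nonneg_right this (by positivity)
  have hS0 : 0 ≤ S := Finset.sum_nonneg fun j _ =>
    mul_nonneg (BB_pos (by positivity) _).le (BB_pos (by positivity) _).le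
  calc _ ≤ 3 * ε / v ^ 4 * (1800000 / v ^ 2) := by gcongr
    _ = 5400000 * ε / v ^ 6 := by field_simp; ring
    _ ≤ _ := by
      apply div_le_div_of_nonneg_right _ (by positivity)
      nlinarith

/-- **The small ball estimate.** -/
theorem small_ball {u U v : ℝ≥0} (hu : 3 / 5 ≤ (u : ℝ)) (hU : (U : ℝ) ≤ 7 / 10) (hv : 0 < v)
    (huU : (U : ℝ) = u + 8 * v ^ 8) {ε : ℝ} (hε : 0 ≤ ε) :
    W {x : Path | |Mx x U - Mx x u| ≤ ε} ≤ ENNReal.ofReal (2 * 10 ^ 7 * ε / v ^ 6) := by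
  have hv' : (0 : ℝ) < v := hv
  set w : ℝ≥0 := v ^ 8 with hwdef
  have cw : (w : ℝ) = (v : ℝ) ^ 8 := by rw [hwdef]; push_cast; ring
  have hw : 0 < w := by rw [hwdef]; positivity
  have hw8 : (0 : ℝ) < (v : ℝ) ^ 8 := by positivity
  have hw1 : (w : ℝ) ≤ 1 / 80 := by rw [cw]; linarith
  have hh : (0 : ℝ) < (v : ℝ) ^ 3 := by positivity
  have hv1 : (v : ℝ) ≤ 1 := by
    by_contra hc
    push Not at hc
    have := one_le_pow₀ hc.le (n := 8)
    linarith
  have hwh : (w : ℝ) ≤ ((v : ℝ) ^ 3) ^ 2 := by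
    rw [cw]
    have : (v : ℝ) ^ 8 = ((v : ℝ) ^ 3) ^ 2 * v ^ 2 := by ring
    rw [this]
    have h2 : (v : ℝ) ^ 2 ≤ 1 := pow_le_one₀ hv'.le hv1
    nlinarith [pow_pos hv' 6]
  have huU' : (U : ℝ) = u + 8 * (w : ℝ) := by rw [cw]; exact huU
  have hu7 : (u : ℝ) ≤ 7 / 10 := by linarith
  have hU3 : 3 / 5 ≤ (U : ℝ) := by linarith
  -- index ranges
  set JU : ℕ := ⌊(1 - U + w / 2 : ℝ) / w⌋₊ with hJU
  set Ju : ℕ := ⌊(1 - u + w / 2 : ℝ) / w⌋₊ with hJu
  have hw' : (0 : ℝ) < w := hw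
  have fl (L : ℝ) (hL : 0 ≤ L) (j : ℕ) : j ∈ Finset.range (⌊(L + w / 2 : ℝ) / w⌋₊ + 1) ↔
      (j : ℝ) * w ≤ L + w / 2 := by
    rw [Finset.mem_range, Nat.lt_add_one_iff, Nat.le_floor_iff (by positivity), le_div_iff₀ hw']
  have fl2 (L : ℝ) (hL : 0 ≤ L) : ((⌊(L + w / 2 : ℝ) / w⌋₊ : ℕ) : ℝ) * w ≤ L + w / 2 := by
    rw [← le_div_iff₀ hw']
    exact Nat.floor_le (by positivity)
  set A : ℕ → Set Path := fun j => if 1 ≤ j then EV u U (-1) ε (tent (j * w) w) else ∅ with hA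
  set B : ℕ → Set Path := fun j => if 1 ≤ j then EV U u (-1) ε (tent (j * w) w) else ∅ with hB
  set C : ℕ → Set Path := fun j => EV u U 1 ε (tent (j * w + U) w) with hC
  have hsub : {x : Path | |Mx x U - Mx x u| ≤ ε} ⊆ (⋃ j ∈ Finset.range (JU + 1), A j) ∪
      ((⋃ j ∈ Finset.range (Ju + 1), B j) ∪ (⋃ j ∈ Finset.range (JU + 1), C j)) := by
    intro x hx
    rcases cover hu huU' hU hw hx with ⟨j, h1, h2, h3⟩ | ⟨j, h1, h2, h3⟩ | ⟨j, h2, h3⟩
    · refine Or.inl ?_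
      rw [mem_iUnion₂]
      refine ⟨j, (fl _ (by linarith) j).2 h2, ?_⟩
      rw [hA]
      simp only [h1, if_true]
      exact h3
    · refine Or.inr (Or.inl ?_)
      rw [mem_iUnion₂]
      refine ⟨j, (fl _ (by linarith) j).2 h2, ?_⟩
      rw [hB]
      simp only [h1, if_true]
      exact h3
    · refine Or.inr (Or.inr ?_)
      rw [mem_iUnion₂]
      exact ⟨j, (fl _ (by linarith) j).2 h2, h3⟩
  have tm0 (L : ℝ) (j : ℕ) : 0 ≤ tm L w (v ^ 3) ε j := by
    unfold tm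
    have b1 := BB_pos hh (((j - 1 : ℕ) : ℝ) * w)
    have b2 := BB_pos hh (L - min (((j : ℝ) + 1) * w) L)
    positivity
  have sumb (D : ℕ → Set Path) (L : ℝ) (J : ℕ) (hL : 3 / 10 ≤ L) (hL2 : L ≤ 2 / 5)
      (hJ : (J : ℝ) * w ≤ L + w / 2)
      (hD : ∀ j ∈ Finset.range (J + 1), W (D j) ≤ ENNReal.ofReal (tm L w (v ^ 3) ε j)) :
      W (⋃ j ∈ Finset.range (J + 1), D j) ≤ ENNReal.ofReal (6 * 10 ^ 6 * ε / v ^ 6) := by
    refine (measure_biUnion_finset_le _ _).trans ((Finset.sum_le_sum hD).trans ?_)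
    rw [← ENNReal.ofReal_sum_of_nonneg fun j _ => tm0 L j]
    apply ENNReal.ofReal_le_ofReal
    rw [cw] at hJ hw1 ⊢
    exact sum_tm hv' hw1 hL hL2 hJ hε
  have hsA := sumb A (1 - U) JU (by linarith) (by linarith) (fl2 _ (by linarith)) (by
    intro j hj
    have hj' := (fl (1 - U) (by linarith) j).1 hj
    rw [hA]
    by_cases h1 : 1 ≤ j
    · simp only [h1, if_true]
      exact ev_left hW hU3 hU hw hw1 h1 hj' hh hwh hε
    · simp only [h1, if_false, measure_empty]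
      exact zero_le)
  have hsB := sumb B (1 - u) Ju (by linarith) (by linarith) (fl2 _ (by linarith)) (by
    intro j hj
    have hj' := (fl (1 - u) (by linarith) j).1 hj
    rw [hB]
    by_cases h1 : 1 ≤ j
    · simp only [h1, if_true]
      exact ev_left hW hu hu7 hw hw1 h1 hj' hh hwh hε
    · simp only [h1, if_false, measure_empty]
      exact zero_le)
  have hsC := sumb C (1 - U) JU (by linarith) (by linarith) (fl2 _ (by linarith)) (by
    intro j hj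
    have hj' := (fl (1 - U) (by linarith) j).1 hj
    exact ev_right hW hU3 hU hw hw1 hj' hh hwh hε)
  calc W {x : Path | |Mx x U - Mx x u| ≤ ε} ≤ _ := measure_mono hsub
    _ ≤ _ := (measure_union_le _ _).trans (add_le_add le_rfl (measure_union_le _ _))
    _ ≤ ENNReal.ofReal (6 * 10 ^ 6 * ε / v ^ 6) + (ENNReal.ofReal (6 * 10 ^ 6 * ε / v ^ 6) +
        ENNReal.ofReal (6 * 10 ^ 6 * ε / v ^ 6)) := add_le_add hsA (add_le_add hsB hsC)
    _ = ENNReal.ofReal (18 * 10 ^ 6 * ε / v ^ 6) := by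
      rw [← ENNReal.ofReal_add (by positivity) (by positivity),
        ← ENNReal.ofReal_add (by positivity) (by positivity)]
      congr 1
      ring
    _ ≤ _ := by
      apply ENNReal.ofReal_le_ofReal
      apply div_le_div_of_nonneg_right _ (by positivity)
      nlinarith

end Q297.Spn
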