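import Pool.Agent.Q297.SpO

/-!
One and two point estimates for the zeros of the sliding maximum.
-/

open MeasureTheory ProbabilityTheory Set Filter Topology
open scoped ENNReal NNReal
open Q297.PathC Q297.Prepend Q297.TwoS Q297.Dec

set_option linter.unusedSimpArgs false

namespace Q297.Spn

/-- the ramp from `2/5` to `3/5` -/
noncomputable def rmp : Path := ⟨fun t => 5 * ov 0 t (2 / 5) (3 / 5), by unfold ov; fun_prop⟩

lemma rmp_apply (t : ℝ≥0) : rmp t = 5 * ov 0 t (2 / 5) (3 / 5) := rfl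

lemma rmp_lo {t : ℝ≥0} (h : (t : ℝ) ≤ 2 / 5) : rmp t = 0 := by
  have h0 := t.coe_nonneg
  rw [rmp_apply]
  unfold ov
  rw [abs_of_nonpos (by linarith : (t : ℝ) - 2 / 5 ≤ 0), abs_of_nonpos (by linarith : (t : ℝ) - 3 / 5 ≤ 0),
    abs_of_nonpos (by norm_num : (0 : ℝ) - 3 / 5 ≤ 0), abs_of_nonpos (by norm_num : (0 : ℝ) - 2 / 5 ≤ 0)]
  ring

lemma rmp_hi {t : ℝ≥0} (h : 3 / 5 ≤ (t : ℝ)) : rmp t = 1 := by
  rw [rmp_apply]
  unfold ov
  rw [abs_of_nonneg (by linarith : 0 ≤ (t : ℝ) - 2 / 5), abs_of_nonneg (by linarith : 0 ≤ (t : ℝ) - 3 / 5),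
    abs_of_nonpos (by norm_num : (0 : ℝ) - 3 / 5 ≤ 0), abs_of_nonpos (by norm_num : (0 : ℝ) - 2 / 5 ≤ 0)]
  ring

lemma Mx_rmp (β : Path) (θ : ℝ) {u : ℝ≥0} (h1 : 3 / 5 ≤ (u : ℝ)) (h2 : (u : ℝ) ≤ 1) :
    Mx (β + θ • rmp) u = Mx β u + θ := by
  have hu : u ≤ 1 := by exact_mod_cast h2
  have ev (t : ℝ≥0) : (β + θ • rmp) t = β t + θ * rmp t := rfl
  have key : ∀ s, s + u ≤ 1 → (β + θ • rmp) (s + u) - (β + θ • rmp) s = β (s + u) - β s + θ := by
    intro s hs
    have hs' : (s : ℝ) + u ≤ 1 := by exact_mod_cast hs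
    have s0 := s.coe_nonneg
    rw [ev, ev, rmp_hi (by rw [NNReal.coe_add]; linarith), rmp_lo (by linarith)]
    ring
  apply le_antisymm
  · obtain ⟨s, hs, h⟩ := Mx_att (β + θ • rmp) hu
    rw [← h, key s hs]
    linarith [Mx_ge (x := β) hs]
  · obtain ⟨s, hs, h⟩ := Mx_att β hu
    rw [← h, ← key s hs]
    exact Mx_ge hs

/-- the coefficient, left end and right end of the increment `x(3/5) - x(2/5)` -/
def k1 : Unit → ℝ := fun _ => 1
noncomputable def a1 : Unit → ℝ≥0 := fun _ => 2 / 5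
noncomputable def b1 : Unit → ℝ≥0 := fun _ => 3 / 5
noncomputable def V1 : ℝ≥0 := 1 / 5

lemma V1_ne : V1 ≠ 0 := by unfold V1; positivity

lemma V1_coe : (V1 : ℝ) = 1 / 5 := by unfold V1; push_cast; ring

lemma hV1 : ∑ i, ∑ j, k1 i * k1 j * ov (a1 i) (b1 i) (a1 j) (b1 j) = V1 := by
  simp only [Finset.univ_unique, Finset.sum_singleton, k1, a1, b1, V1_coe]
  push_cast
  rw [ov_left (by norm_num) (by norm_num)]
  norm_num

lemma hφ1 (t : ℝ≥0) : ∑ i, k1 i * ov 0 t (a1 i) (b1 i) = V1 * rmp t := by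
  simp only [Finset.univ_unique, Finset.sum_singleton, k1, a1, b1, V1_coe, rmp_apply]
  push_cast
  ring

lemma meas_add_smul (φ : Path) : Measurable (fun p : Path × ℝ => p.1 + p.2 • φ) := by
  refine measurable_of_eval fun t => ?_
  exact ((measurable_eval t).comp measurable_fst).add (measurable_snd.mul_const _)

variable {W : Measure Path} (hW : IsBrownianReal (fun (t : ℝ≥0) (x : Path) => x t) W)

include hW

/-- Fubini along a Cameron-Martin direction -/
lemma fub {A : Set Path} (hA : MeasurableSet A) :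
    W A = ∫⁻ β, gaussianReal 0 V1 {θ | β + θ • rmp ∈ A} ∂(W.map (rest k1 a1 b1 rmp)) := by
  have hWp := isProb hW
  have hdec := dec hW k1 a1 b1 rmp hV1 hφ1
  have hQp : IsProbabilityMeasure (W.map (rest k1 a1 b1 rmp)) :=
    Measure.isProbabilityMeasure_map (rest_meas k1 a1 b1 rmp).aemeasurable
  have mpair : Measurable (fun x => (rest k1 a1 b1 rmp x, fn k1 a1 b1 x)) :=
    (rest_meas k1 a1 b1 rmp).prodMk (fn_meas k1 a1 b1)
  have e2 : W A = ((W.map (rest k1 a1 b1 rmp)).prod (gaussianReal 0 V1))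
      ((fun p : Path × ℝ => p.1 + p.2 • rmp) ⁻¹' A) := by
    rw [← hdec, Measure.map_apply mpair (meas_add_smul rmp hA)]
    congr 1
    ext x
    simp only [mem_preimage, rest_add]
  rw [e2, Measure.prod_apply (meas_add_smul rmp hA)]
  rfl

omit hW in
lemma abs_set_closed (u : ℝ≥0) (ε : ℝ) : IsClosed {x : Path | |Mx x u| ≤ ε} :=
  isClosed_le (Mx_cont1 u).abs continuous_const

/-- the lower bound on the one point function -/
lemma low : ∃ c : ℝ, 0 < c ∧ ∀ u : ℝ≥0, 3 / 5 ≤ (u : ℝ) → (u : ℝ) ≤ 7 / 10 → ∀ ε : ℝ, 0 < ε → ε ≤ 1 →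
    ENNReal.ofReal (c * ε) ≤ W {x : Path | |Mx x u| ≤ ε} := by
  have hWp := isProb hW
  set Q : Measure Path := W.map (rest k1 a1 b1 rmp) with hQ
  have hQp : IsProbabilityMeasure Q :=
    Measure.isProbabilityMeasure_map (rest_meas k1 a1 b1 rmp).aemeasurable
  set B : ℕ → Set Path := fun K => {β | ∀ u : ℝ≥0, u ∈ Icc (3 / 5 : ℝ≥0) (7 / 10) → |Mx β u| ≤ K} with hB
  have mB : ∀ K, MeasurableSet (B K) := by
    intro K
    have e : B K = ⋂ u, ⋂ (_ : u ∈ Icc (3 / 5 : ℝ≥0) (7 / 10)), {x : Path | |Mx x u| ≤ K} := by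
      ext z; simp only [hB, mem_ofPred_eq, mem_iInter]
    rw [e]
    exact (isClosed_iInter fun u => isClosed_iInter fun _ => abs_set_closed u K).measurableSet
  have hmono : Monotone B := fun K K' h β hβ u hu => (hβ u hu).trans (by exact_mod_cast h)
  have hU : ⋃ K, B K = univ := by
    rw [eq_univ_iff_forall]
    intro β
    have hc : Continuous (fun u : ℝ≥0 => |Mx β u|) :=
      (Mx_cont.comp (by fun_prop : Continuous (fun u : ℝ≥0 => (β, u)))).abs
    obtain ⟨b, hb⟩ := (isCompact_Icc.image hc : IsCompact ((fun u : ℝ≥0 => |Mx β u|) '' Icc (3 / 5) (7 / 10))).bddAbove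
    obtain ⟨K, hK⟩ := exists_nat_ge b
    rw [mem_iUnion]
    exact ⟨K, fun u hu => (hb ⟨u, hu, rfl⟩).trans hK⟩
  have hlim := tendsto_measure_iUnion_atTop (μ := Q) hmono
  rw [hU, measure_univ] at hlim
  obtain ⟨K, hK⟩ := (hlim.eventually (lt_mem_nhds (show (1 / 2 : ℝ≥0∞) < 1 by
    rw [one_div]; exact ENNReal.inv_lt_one.2 (by norm_num)))).exists
  have hK' : 1 / 2 < Q (B K) := hK
  set g : ℝ := gaussianPDFReal 0 V1 ((K : ℝ) + 1) with hg
  have hg0 : 0 < g := gaussianPDFReal_pos 0 V1 _ V1_ne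
  refine ⟨g, hg0, fun u hu hu' ε hε hε1 => ?_⟩
  have hu1 : (u : ℝ) ≤ 1 := by linarith
  have huI : u ∈ Icc (3 / 5 : ℝ≥0) (7 / 10) := by
    constructor
    · have : ((3 / 5 : ℝ≥0) : ℝ) ≤ u := by push_cast; exact hu
      exact_mod_cast this
    · have : (u : ℝ) ≤ ((7 / 10 : ℝ≥0) : ℝ) := by push_cast; exact hu'
      exact_mod_cast this
  rw [fub hW (abs_set_closed u ε).measurableSet]
  have h1 : ∀ β ∈ B K, ENNReal.ofReal (g * (2 * ε)) ≤
      gaussianReal 0 V1 {θ | β + θ • rmp ∈ {x : Path | |Mx x u| ≤ ε}} := by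
    intro β hβ
    have hm := abs_le.1 (hβ u huI)
    have e1 : {θ : ℝ | β + θ • rmp ∈ {x : Path | |Mx x u| ≤ ε}} = Icc (-Mx β u - ε) (-Mx β u + ε) := by
      ext θ
      simp only [mem_ofPred_eq, mem_Icc, Mx_rmp β θ hu hu1, abs_le]
      constructor <;> rintro ⟨h1, h2⟩ <;> constructor <;> linarith
    rw [e1, gaussianReal_apply 0 V1_ne]
    calc ENNReal.ofReal (g * (2 * ε)) = ENNReal.ofReal g * volume (Icc (-Mx β u - ε) (-Mx β u + ε)) := by
          rw [Real.volume_Icc, ← ENNReal.ofReal_mul hg0.le]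
          congr 1
          ring
      _ = ∫⁻ y in Icc (-Mx β u - ε) (-Mx β u + ε), ENNReal.ofReal g := by rw [setLIntegral_const]
      _ ≤ _ := by
          refine setLIntegral_mono' measurableSet_Icc fun y hy => ?_
          unfold gaussianPDF
          apply ENNReal.ofReal_le_ofReal
          rw [hg]
          unfold gaussianPDFReal
          have hV := V1_coe
          have hy2 : (y - 0) ^ 2 ≤ ((K : ℝ) + 1 - 0) ^ 2 := by
            rw [sub_zero, sub_zero]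
            have : |y| ≤ (K : ℝ) + 1 := by
              rw [abs_le]; constructor <;> linarith [hy.1, hy.2, hm.1, hm.2]
            rw [← sq_abs y]
            gcongr
          apply mul_le_mul_of_nonneg_left _ (by positivity)
          apply Real.exp_le_exp.2
          rw [neg_div, neg_div, neg_le_neg_iff]
          gcongr
  calc ENNReal.ofReal (g * ε) = ENNReal.ofReal (g * (2 * ε)) * (1 / 2) := by
        have : (1 / 2 : ℝ≥0∞) = ENNReal.ofReal (1 / 2) := by
          rw [ENNReal.ofReal_div_of_pos (by norm_num)]; simp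
        rw [this, ← ENNReal.ofReal_mul (by positivity)]
        congr 1
        ring
    _ ≤ ENNReal.ofReal (g * (2 * ε)) * Q (B K) := by gcongr
    _ = ∫⁻ β in B K, ENNReal.ofReal (g * (2 * ε)) ∂Q := by rw [setLIntegral_const]
    _ ≤ ∫⁻ β in B K, gaussianReal 0 V1 {θ | β + θ • rmp ∈ {x : Path | |Mx x u| ≤ ε}} ∂Q :=
        setLIntegral_mono' (mB K) h1
    _ ≤ _ := setLIntegral_le_lintegral _ _

/-- the upper bound on the two point function -/
lemma two_pt {u U v : ℝ≥0} (hu : 3 / 5 ≤ (u : ℝ)) (hU : (U : ℝ) ≤ 7 / 10) (hv : 0 < v)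
    (huU : (U : ℝ) = u + 8 * v ^ 8) {ε : ℝ} (hε : 0 ≤ ε) :
    W ({x : Path | |Mx x u| ≤ ε} ∩ {x : Path | |Mx x U| ≤ ε}) ≤
      ENNReal.ofReal (12 * 10 ^ 7 * ε ^ 2 / v ^ 6) := by
  have hWp := isProb hW
  have hv' : (0 : ℝ) < v := hv
  have hv8 : (0 : ℝ) < (v : ℝ) ^ 8 := by positivity
  have hu1 : (u : ℝ) ≤ 1 := by linarith
  have hU1 : (U : ℝ) ≤ 1 := by linarith
  have hU3 : 3 / 5 ≤ (U : ℝ) := by linarith
  set Q : Measure Path := W.map (rest k1 a1 b1 rmp) with hQ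
  have mA : MeasurableSet ({x : Path | |Mx x u| ≤ ε} ∩ {x : Path | |Mx x U| ≤ ε}) :=
    ((abs_set_closed u ε).inter (abs_set_closed U ε)).measurableSet
  set D : Set Path := {x : Path | |Mx x U - Mx x u| ≤ 2 * ε} with hD
  have mD : MeasurableSet D :=
    (isClosed_le ((Mx_cont1 U).sub (Mx_cont1 u)).abs continuous_const).measurableSet
  have h1 : ∀ β, gaussianReal 0 V1 {θ | β + θ • rmp ∈ {x : Path | |Mx x u| ≤ ε} ∩ {x : Path | |Mx x U| ≤ ε}} ≤
      D.indicator (fun _ => ENNReal.ofReal (3 * ε)) β := by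
    intro β
    by_cases hβ : β ∈ D
    · rw [indicator_of_mem hβ]
      have hs : {θ : ℝ | β + θ • rmp ∈ {x : Path | |Mx x u| ≤ ε} ∩ {x : Path | |Mx x U| ≤ ε}} ⊆
          Icc (-Mx β u - ε) (-Mx β u + ε) := by
        rintro θ ⟨h2, -⟩
        simp only [mem_ofPred_eq, Mx_rmp β θ hu hu1, abs_le] at h2
        constructor <;> linarith [h2.1, h2.2]
      refine (measure_mono hs).trans ((gauss_set_le V1_ne _).trans ?_)
      rw [Real.volume_Icc, ← ENNReal.ofReal_mul (by positivity)]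
      apply ENNReal.ofReal_le_ofReal
      rw [V1_coe]
      have h3 : 2 / 5 ≤ √(1 / 5 : ℝ) := by
        apply Real.le_sqrt_of_sq_le; norm_num
      have e : -Mx β u + ε - (-Mx β u - ε) = 2 * ε := by ring
      rw [e, div_mul_eq_mul_div, div_le_iff₀ (by positivity)]
      nlinarith
    · rw [indicator_of_notMem hβ]
      have : {θ : ℝ | β + θ • rmp ∈ {x : Path | |Mx x u| ≤ ε} ∩ {x : Path | |Mx x U| ≤ ε}} = ∅ := by
        rw [eq_empty_iff_forall_notMem]
        rintro θ ⟨h2, h3⟩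
        apply hβ
        simp only [mem_ofPred_eq, Mx_rmp β θ hu hu1, abs_le] at h2
        simp only [mem_ofPred_eq, Mx_rmp β θ hU3 hU1, abs_le] at h3
        show |Mx β U - Mx β u| ≤ 2 * ε
        rw [abs_le]
        constructor <;> linarith [h2.1, h2.2, h3.1, h3.2]
      rw [this, measure_empty]
  have h2 : Q D = W D := by
    rw [hQ, Measure.map_apply (rest_meas k1 a1 b1 rmp) mD]
    congr 1
    ext x
    have e := rest_add k1 a1 b1 rmp x
    have e1 : Mx x U = Mx (rest k1 a1 b1 rmp x) U + fn k1 a1 b1 x := by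
      conv_lhs => rw [← e]
      exact Mx_rmp _ _ hU3 hU1
    have e2 : Mx x u = Mx (rest k1 a1 b1 rmp x) u + fn k1 a1 b1 x := by
      conv_lhs => rw [← e]
      exact Mx_rmp _ _ hu hu1
    simp only [hD, mem_preimage, mem_ofPred_eq]
    rw [e1, e2, add_sub_add_right_eq_sub]
  calc W ({x : Path | |Mx x u| ≤ ε} ∩ {x : Path | |Mx x U| ≤ ε}) = _ := fub hW mA
    _ ≤ ∫⁻ β, D.indicator (fun _ => ENNReal.ofReal (3 * ε)) β ∂Q := lintegral_mono h1
    _ = ENNReal.ofReal (3 * ε) * Q D := by rw [lintegral_indicator mD, setLIntegral_const]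
    _ ≤ ENNReal.ofReal (3 * ε) * ENNReal.ofReal (2 * 10 ^ 7 * (2 * ε) / v ^ 6) := by
        rw [h2]
        gcongr
        exact small_ball hW hu hU hv huU (by positivity)
    _ = _ := by
        rw [← ENNReal.ofReal_mul (by positivity)]
        congr 1
        ring

/-- the two point bound in terms of the distance -/
lemma two_pt' {a b : ℝ} (ha : 3 / 5 ≤ a) (hab : a < b) (hb : b ≤ 7 / 10) {ε : ℝ} (hε : 0 ≤ ε) :
    W ({x : Path | |Mx x a.toNNReal| ≤ ε} ∩ {x : Path | |Mx x b.toNNReal| ≤ ε}) ≤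
      ENNReal.ofReal (6 * 10 ^ 8 * ε ^ 2) * ENNReal.ofReal ((b - a) ^ (-(3 / 4) : ℝ)) := by
  have hd : 0 < (b - a) / 8 := by linarith
  set v : ℝ := ((b - a) / 8) ^ (1 / 8 : ℝ) with hv
  have hv0 : 0 < v := Real.rpow_pos_of_pos hd _
  have hv8 : v ^ 8 = (b - a) / 8 := by
    rw [hv, ← Real.rpow_natCast, ← Real.rpow_mul hd.le]; norm_num
  have hcv : ((v.toNNReal : ℝ≥0) : ℝ) = v := Real.coe_toNNReal _ hv0.le
  have hca : ((a.toNNReal : ℝ≥0) : ℝ) = a := Real.coe_toNNReal _ (by linarith)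
  have hcb : ((b.toNNReal : ℝ≥0) : ℝ) = b := Real.coe_toNNReal _ (by linarith)
  have h1 := two_pt hW (u := a.toNNReal) (U := b.toNNReal) (v := v.toNNReal) (by rw [hca]; exact ha)
    (by rw [hcb]; exact hb) (Real.toNNReal_pos.2 hv0) (by rw [hca, hcb, hcv, hv8]; ring) hε
  refine h1.trans ?_
  rw [← ENNReal.ofReal_mul (by positivity), hcv]
  apply ENNReal.ofReal_le_ofReal
  have hv6 : v ^ 6 = ((b - a) / 8) ^ (3 / 4 : ℝ) := by
    rw [hv, ← Real.rpow_natCast, ← Real.rpow_mul hd.le]; norm_num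
  have h8 : (8 : ℝ) ^ (3 / 4 : ℝ) ≤ 5 := by
    have e : (8 : ℝ) ^ (3 / 4 : ℝ) = ((8 : ℝ) ^ (3 : ℝ)) ^ (1 / 4 : ℝ) := by
      rw [← Real.rpow_mul (by norm_num)]; norm_num
    have e2 : (5 : ℝ) = ((5 : ℝ) ^ (4 : ℝ)) ^ (1 / 4 : ℝ) := by
      rw [← Real.rpow_mul (by norm_num)]; norm_num
    rw [e, e2]
    apply Real.rpow_le_rpow (by positivity) _ (by norm_num)
    norm_num
  rw [hv6, Real.div_rpow (by linarith) (by norm_num), Real.rpow_neg (by linarith)]
  have hp : 0 < (b - a) ^ (3 / 4 : ℝ) := Real.rpow_pos_of_pos (by linarith) _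
  rw [div_div_eq_mul_div, ← div_eq_mul_inv]
  apply div_le_div_of_nonneg_right _ hp.le
  nlinarith [sq_nonneg ε]

end Q297.Spn
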