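import Pool.Agent.Q297.SpP

/-!
Second moments of the occupation measure of the sliding maximum at zero.
-/

open MeasureTheory ProbabilityTheory Set Filter Topology
open scoped ENNReal NNReal
open Q297.PathC Q297.Prepend Q297.TwoS Q297.Dec

set_option linter.unusedSimpArgs false

namespace Q297.Spn

noncomputable def gk (ℓ : ℝ) : ℝ → ℝ≥0∞ :=
  (Ioc 0 ℓ).indicator (fun y => ENNReal.ofReal (y ^ (-(3 / 4) : ℝ)))

lemma gk_meas (ℓ : ℝ) : Measurable (gk ℓ) := by
  refine Measurable.indicator ?_ measurableSet_Ioc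
  fun_prop

lemma lint_gk {ℓ : ℝ} (hℓ : 0 ≤ ℓ) : ∫⁻ y, gk ℓ y = ENNReal.ofReal (4 * ℓ ^ (1 / 4 : ℝ)) := by
  unfold gk
  rw [lintegral_indicator measurableSet_Ioc]
  have hi : IntervalIntegrable (fun y : ℝ => y ^ (-(3 / 4) : ℝ)) volume 0 ℓ :=
    intervalIntegral.intervalIntegrable_rpow' (by norm_num)
  have hi' : Integrable (fun y : ℝ => y ^ (-(3 / 4) : ℝ)) (volume.restrict (Ioc 0 ℓ)) :=
    (intervalIntegrable_iff_integrableOn_Ioc_of_le hℓ).1 hi
  rw [← ofReal_integral_eq_lintegral_ofReal hi' ?_]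
  · rw [← intervalIntegral.integral_of_le hℓ, integral_rpow (Or.inl (by norm_num))]
    congr 1
    norm_num
    ring
  · refine (ae_restrict_iff' measurableSet_Ioc).2 (ae_of_all _ fun y hy => ?_)
    exact Real.rpow_nonneg hy.1.le _

/-- indicator of `|M(u)| ≤ ε` -/
noncomputable def fi (ε : ℝ) (x : Path) (u : ℝ) : ℝ≥0∞ :=
  {p : Path × ℝ | |Mx p.1 p.2.toNNReal| ≤ ε}.indicator 1 (x, u)

lemma jM : Measurable (fun p : Path × ℝ => Mx p.1 p.2.toNNReal) := by
  have h := measurable_uncurry_of_continuous_of_measurable (ι := ℝ) (α := Path) (β := ℝ)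
    (u := fun s x => Mx x s.toNNReal)
    (fun x => Mx_cont.comp (by fun_prop : Continuous (fun s : ℝ => (x, s.toNNReal))))
    (fun s => (Mx_cont1 _).measurable)
  exact h.comp measurable_swap

lemma fi_set_meas (ε : ℝ) : MeasurableSet {p : Path × ℝ | |Mx p.1 p.2.toNNReal| ≤ ε} :=
  measurableSet_le (measurable_norm.comp jM) measurable_const

lemma fi_meas (ε : ℝ) : Measurable (fun p : Path × ℝ => fi ε p.1 p.2) :=
  measurable_one.indicator (fi_set_meas ε)

lemma fi_eq (ε : ℝ) (x : Path) (u : ℝ) :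
    fi ε x u = {x : Path | |Mx x u.toNNReal| ≤ ε}.indicator 1 x := by
  unfold fi
  by_cases h : |Mx x u.toNNReal| ≤ ε
  · rw [indicator_of_mem (show (x, u) ∈ {p : Path × ℝ | |Mx p.1 p.2.toNNReal| ≤ ε} from h),
      indicator_of_mem (show x ∈ {x : Path | |Mx x u.toNNReal| ≤ ε} from h)]
    rfl
  · rw [indicator_of_notMem (show (x, u) ∉ {p : Path × ℝ | |Mx p.1 p.2.toNNReal| ≤ ε} from h),
      indicator_of_notMem (show x ∉ {x : Path | |Mx x u.toNNReal| ≤ ε} from h)]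

/-- the time in `[a, b]` at which `|M| ≤ ε` -/
noncomputable def occ (ε a b : ℝ) (x : Path) : ℝ≥0∞ := ∫⁻ u in Icc a b, fi ε x u

lemma occ_meas (ε a b : ℝ) : Measurable (occ ε a b) := (fi_meas ε).lintegral_prod_right'

lemma fi_le (ε : ℝ) (x : Path) (u : ℝ) : fi ε x u ≤ 1 := by
  unfold fi
  refine (indicator_le_self' (fun _ _ => zero_le) _).trans ?_
  simp

lemma occ_lt (ε a b : ℝ) (x : Path) : occ ε a b x < ⊤ := by
  calc occ ε a b x ≤ ∫⁻ u in Icc a b, 1 := lintegral_mono fun u => fi_le ε x u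
    _ = volume (Icc a b) := by rw [setLIntegral_one]
    _ < ⊤ := by rw [Real.volume_Icc]; exact ENNReal.ofReal_lt_top

variable {W : Measure Path} (hW : IsBrownianReal (fun (t : ℝ≥0) (x : Path) => x t) W)

include hW

lemma inner_int {a b : ℝ} (ha : 3 / 5 ≤ a) (hab : a ≤ b) (hb : b ≤ 7 / 10) {ε : ℝ} (hε : 0 ≤ ε)
    {u : ℝ} (hu : u ∈ Icc a b) :
    ∫⁻ U in Icc a b, W ({x : Path | |Mx x u.toNNReal| ≤ ε} ∩ {x : Path | |Mx x U.toNNReal| ≤ ε}) ≤
      ENNReal.ofReal (6 * 10 ^ 8 * ε ^ 2) * (2 * ENNReal.ofReal (4 * (b - a) ^ (1 / 4 : ℝ))) := by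
  set ℓ := b - a with hℓ
  set C := ENNReal.ofReal (6 * 10 ^ 8 * ε ^ 2) with hC
  have h1 : ∀ᵐ U ∂(volume.restrict (Icc a b)),
      W ({x : Path | |Mx x u.toNNReal| ≤ ε} ∩ {x : Path | |Mx x U.toNNReal| ≤ ε}) ≤
      C * (gk ℓ (U - u) + gk ℓ (u - U)) := by
    have hne : ∀ᵐ U : ℝ ∂volume, U ∉ ({u} : Set ℝ) :=
      measure_eq_zero_iff_ae_notMem.1 (measure_singleton u)
    refine (ae_restrict_iff' measurableSet_Icc).2 ?_
    filter_upwards [hne] with U hU hUI
    rcases lt_trichotomy u U with h | h | h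
    · have h2 := two_pt' hW (ha.trans hu.1) h (hUI.2.trans hb) hε
      refine h2.trans ?_
      gcongr
      have : gk ℓ (U - u) = ENNReal.ofReal ((U - u) ^ (-(3 / 4) : ℝ)) :=
        indicator_of_mem (show U - u ∈ Ioc 0 ℓ from ⟨by linarith, by linarith [hUI.2, hu.1]⟩) _
      rw [this]
      exact le_self_add
    · exact absurd h.symm hU
    · have h2 := two_pt' hW (ha.trans hUI.1) h (hu.2.trans hb) hε
      rw [inter_comm]
      refine h2.trans ?_
      gcongr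
      have : gk ℓ (u - U) = ENNReal.ofReal ((u - U) ^ (-(3 / 4) : ℝ)) :=
        indicator_of_mem (show u - U ∈ Ioc 0 ℓ from ⟨by linarith, by linarith [hUI.1, hu.2]⟩) _
      rw [this]
      exact le_add_self
  have m1 : Measurable (fun U : ℝ => gk ℓ (U - u)) := (gk_meas ℓ).comp (by fun_prop)
  have m2 : Measurable (fun U : ℝ => gk ℓ (u - U)) := (gk_meas ℓ).comp (by fun_prop)
  calc _ ≤ ∫⁻ U in Icc a b, C * (gk ℓ (U - u) + gk ℓ (u - U)) := lintegral_mono_ae h1
    _ ≤ ∫⁻ U, C * (gk ℓ (U - u) + gk ℓ (u - U)) := setLIntegral_le_lintegral _ _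
    _ = C * ((∫⁻ U, gk ℓ (U - u)) + (∫⁻ U, gk ℓ (u - U))) := by
        have m12 : Measurable (fun U : ℝ => gk ℓ (U - u) + gk ℓ (u - U)) := m1.add m2
        rw [lintegral_const_mul _ m12, lintegral_add_left m1]
    _ = _ := by
        rw [lintegral_sub_right_eq_self (gk ℓ) u, lintegral_sub_left_eq_self (gk ℓ) u,
          lint_gk (by rw [hℓ]; linarith), two_mul]

lemma mean_occ (ε a b : ℝ) :
    ∫⁻ x, occ ε a b x ∂W = ∫⁻ u in Icc a b, W {x : Path | |Mx x u.toNNReal| ≤ ε} := by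
  have hWp := isProb hW
  unfold occ
  rw [lintegral_lintegral_swap (fi_meas ε).aemeasurable]
  refine lintegral_congr fun u => ?_
  rw [← lintegral_indicator_one (abs_set_closed _ ε).measurableSet]
  exact lintegral_congr fun x => fi_eq ε x u

lemma sq_occ (ε a b : ℝ) :
    ∫⁻ x, occ ε a b x ^ 2 ∂W = ∫⁻ u in Icc a b, ∫⁻ U in Icc a b,
      W ({x : Path | |Mx x u.toNNReal| ≤ ε} ∩ {x : Path | |Mx x U.toNNReal| ≤ ε}) := by
  have hWp := isProb hW
  have mf : ∀ x, Measurable (fun u => fi ε x u) := fun x => (fi_meas ε).comp measurable_prodMk_left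
  have mf' : ∀ u, Measurable (fun x => fi ε x u) := fun u => (fi_meas ε).comp measurable_prodMk_right
  have e1 : ∀ x, occ ε a b x ^ 2 = ∫⁻ u in Icc a b, fi ε x u * occ ε a b x := by
    intro x
    rw [lintegral_mul_const _ (mf x), sq]
    rfl
  rw [lintegral_congr e1, lintegral_lintegral_swap (f := fun x u => fi ε x u * occ ε a b x)
    ((fi_meas ε).mul ((occ_meas ε a b).comp measurable_fst)).aemeasurable]
  refine lintegral_congr fun u => ?_
  have e2 : ∀ x, fi ε x u * occ ε a b x = ∫⁻ U in Icc a b, fi ε x u * fi ε x U := by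
    intro x
    rw [lintegral_const_mul _ (mf x)]
    rfl
  rw [lintegral_congr e2, lintegral_lintegral_swap (f := fun x U => fi ε x u * fi ε x U)
    (((mf' u).comp measurable_fst).mul (fi_meas ε)).aemeasurable]
  refine lintegral_congr fun U => ?_
  rw [← lintegral_indicator_one ((abs_set_closed _ ε).inter (abs_set_closed _ ε)).measurableSet]
  refine lintegral_congr fun x => ?_
  rw [fi_eq, fi_eq, inter_indicator_one]
  rfl

lemma sq_occ_le {a b : ℝ} (ha : 3 / 5 ≤ a) (hab : a ≤ b) (hb : b ≤ 7 / 10) {ε : ℝ} (hε : 0 ≤ ε) :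
    ∫⁻ x, occ ε a b x ^ 2 ∂W ≤
      ENNReal.ofReal (48 * 10 ^ 8 * ε ^ 2 * ((b - a) * (b - a) ^ (1 / 4 : ℝ))) := by
  have h0 : 0 ≤ b - a := by linarith
  rw [sq_occ hW]
  calc _ ≤ ∫⁻ u in Icc a b, ENNReal.ofReal (6 * 10 ^ 8 * ε ^ 2) *
        (2 * ENNReal.ofReal (4 * (b - a) ^ (1 / 4 : ℝ))) := by
        refine setLIntegral_mono' measurableSet_Icc fun u hu => ?_
        exact inner_int hW ha hab hb hε hu
    _ = _ := by
        have hp := Real.rpow_nonneg h0 (1 / 4 : ℝ)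
        rw [setLIntegral_const, Real.volume_Icc, ← ENNReal.ofReal_ofNat 2,
          ← ENNReal.ofReal_mul (by norm_num), ← ENNReal.ofReal_mul (by positivity),
          ← ENNReal.ofReal_mul (by positivity)]
        congr 1
        ring

lemma mean_occ_ge {c : ℝ} (hc : 0 < c)
    (h : ∀ u : ℝ≥0, 3 / 5 ≤ (u : ℝ) → (u : ℝ) ≤ 7 / 10 → ∀ ε : ℝ, 0 < ε → ε ≤ 1 →
      ENNReal.ofReal (c * ε) ≤ W {x : Path | |Mx x u| ≤ ε}) {a b : ℝ} (ha : 3 / 5 ≤ a)
    (hb : b ≤ 7 / 10) {ε : ℝ} (hε : 0 < ε) (hε1 : ε ≤ 1) :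
    ENNReal.ofReal (c * ε * (b - a)) ≤ ∫⁻ x, occ ε a b x ∂W := by
  rw [mean_occ hW]
  calc ENNReal.ofReal (c * ε * (b - a)) = ∫⁻ u in Icc a b, ENNReal.ofReal (c * ε) := by
        rw [setLIntegral_const, Real.volume_Icc, ← ENNReal.ofReal_mul (by positivity)]
    _ ≤ _ := by
        refine setLIntegral_mono' measurableSet_Icc fun u hu => ?_
        have e : ((u.toNNReal : ℝ≥0) : ℝ) = u := Real.coe_toNNReal _ (by linarith [hu.1])
        exact h u.toNNReal (by rw [e]; linarith [hu.1]) (by rw [e]; linarith [hu.2]) ε hε hε1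

end Q297.Spn
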