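import Pool.Agent.Q297.SpQ

/-!
With positive probability the sliding maximum has infinitely many zeros.
-/

open MeasureTheory ProbabilityTheory Set Filter Topology
open scoped ENNReal NNReal
open Q297.PathC Q297.Prepend Q297.TwoS Q297.Dec

set_option linter.unusedSimpArgs false

namespace Q297.Spn

/-- the left and right end of block `j` out of `K` -/
noncomputable def lb (K j : ℕ) : ℝ≥0 := 3 / 5 + 2 * j / (20 * K)
noncomputable def rb (K j : ℕ) : ℝ≥0 := 3 / 5 + (2 * j + 1) / (20 * K)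

lemma lb_coe (K j : ℕ) : (lb K j : ℝ) = 3 / 5 + 2 * j / (20 * K) := by unfold lb; push_cast; ring
lemma rb_coe (K j : ℕ) : (rb K j : ℝ) = 3 / 5 + (2 * j + 1) / (20 * K) := by unfold rb; push_cast; ring

/-- block `j` contains a point with `|M| ≤ ε` -/
def hitb (ε : ℝ) (K j : ℕ) : Set Path := {x | ∃ u ∈ Icc (lb K j) (rb K j), |Mx x u| ≤ ε}

lemma hitb_closed (ε : ℝ) (K j : ℕ) : IsClosed (hitb ε K j) :=
  closed_ex (K := Icc (lb K j) (rb K j)) isCompact_Icc
    (C := {p : Path × ℝ≥0 | |Mx p.1 p.2| ≤ ε}) (isClosed_le Mx_cont.abs continuous_const)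

/-- more than `n` blocks contain a point with `|M| ≤ ε` -/
def HH (ε : ℝ) (K n : ℕ) : Set Path := {x | ∃ T : Finset (Fin K), n < T.card ∧ ∀ j ∈ T, x ∈ hitb ε K j}

lemma HH_meas (ε : ℝ) (K n : ℕ) : MeasurableSet (HH ε K n) := by
  have e : HH ε K n = ⋃ T : Finset (Fin K), ⋃ (_ : n < T.card), ⋂ j ∈ T, hitb ε K j := by
    ext x
    simp only [HH, mem_ofPred_eq, mem_iUnion, mem_iInter, exists_prop]
  rw [e]
  refine MeasurableSet.iUnion fun T => MeasurableSet.iUnion fun _ => ?_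
  exact Finset.measurableSet_biInter _ fun j _ => (hitb_closed ε K j).measurableSet

lemma hitb_mono {ε ε' : ℝ} (h : ε ≤ ε') (K j : ℕ) : hitb ε K j ⊆ hitb ε' K j := by
  rintro x ⟨u, hu, h1⟩
  exact ⟨u, hu, h1.trans h⟩

lemma HH_mono {ε ε' : ℝ} (h : ε ≤ ε') (K n : ℕ) : HH ε K n ⊆ HH ε' K n := by
  rintro x ⟨T, hT, h1⟩
  exact ⟨T, hT, fun j hj => hitb_mono h K j (h1 j hj)⟩

lemma hitb_inter (K j : ℕ) (x : Path) (h : x ∉ hitb 0 K j) : ∃ m : ℕ, x ∉ hitb (1 / ((m : ℝ) + 1)) K j := by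
  by_contra hc
  push Not at hc
  apply h
  -- the minimum of `|M|` on the block
  have hne : (Icc (lb K j) (rb K j)).Nonempty := by
    obtain ⟨u, hu, -⟩ := hc 0
    exact ⟨u, hu⟩
  have hcont : Continuous (fun u : ℝ≥0 => |Mx x u|) :=
    (Mx_cont.comp (by fun_prop : Continuous (fun u : ℝ≥0 => (x, u)))).abs
  obtain ⟨u, hu, hmin⟩ := isCompact_Icc.exists_isMinOn hne hcont.continuousOn
  refine ⟨u, hu, ?_⟩
  by_contra hpos
  push Not at hpos
  obtain ⟨m, hm⟩ := exists_nat_one_div_lt hpos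
  obtain ⟨v, hv, hv2⟩ := hc m
  have : |Mx x u| ≤ |Mx x v| := hmin hv
  linarith

lemma HH_inter (K n : ℕ) : ⋂ m : ℕ, HH (1 / ((m : ℝ) + 1)) K n ⊆ HH 0 K n := by
  classical
  intro x hx
  rw [mem_iInter] at hx
  have h1 : ∀ j : Fin K, ∃ m : ℕ, x ∉ hitb 0 K j → x ∉ hitb (1 / ((m : ℝ) + 1)) K j := by
    intro j
    by_cases h : x ∈ hitb 0 K j
    · exact ⟨0, fun h' => absurd h h'⟩
    · obtain ⟨m, hm⟩ := hitb_inter K j x h
      exact ⟨m, fun _ => hm⟩
  choose m hm using h1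
  obtain ⟨T, hT, hT2⟩ := hx (Finset.univ.sup m)
  refine ⟨T, hT, fun j hj => ?_⟩
  by_contra hc
  have h2 : m j ≤ Finset.univ.sup m := Finset.le_sup (Finset.mem_univ j)
  refine hm j hc (hitb_mono ?_ K j (hT2 j hj))
  apply one_div_le_one_div_of_le (by positivity)
  have : (m j : ℝ) ≤ ((Finset.univ.sup m : ℕ) : ℝ) := by exact_mod_cast h2
  linarith

/-! ### the pointwise inequality -/

lemma amgm {a : ℝ≥0∞} (ha : a < ⊤) {t : ℝ} (ht : 0 < t) :
    a ≤ ENNReal.ofReal (t / 2) * a ^ 2 + ENNReal.ofReal (1 / (2 * t)) := by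
  obtain ⟨r, hr0, rfl⟩ : ∃ r : ℝ, 0 ≤ r ∧ a = ENNReal.ofReal r :=
    ⟨a.toReal, ENNReal.toReal_nonneg, (ENNReal.ofReal_toReal ha.ne).symm⟩
  rw [← ENNReal.ofReal_pow hr0, ← ENNReal.ofReal_mul (by positivity),
    ← ENNReal.ofReal_add (by positivity) (by positivity)]
  apply ENNReal.ofReal_le_ofReal
  have h : 0 ≤ (t * r - 1) ^ 2 / (2 * t) := by positivity
  have e : (t * r - 1) ^ 2 / (2 * t) = t / 2 * r ^ 2 + 1 / (2 * t) - r := by
    field_simp
    ring
  linarith

lemma occ_zero {ε : ℝ} {K j : ℕ} {x : Path} (h : x ∉ hitb ε K j) :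
    occ ε (lb K j) (rb K j) x = 0 := by
  unfold occ
  have : ∫⁻ u in Icc (lb K j : ℝ) (rb K j), fi ε x u = ∫⁻ u in Icc (lb K j : ℝ) (rb K j), 0 := by
    refine setLIntegral_congr_fun measurableSet_Icc fun u hu => ?_
    have e : ((u.toNNReal : ℝ≥0) : ℝ) = u := Real.coe_toNNReal _ ((lb K j).coe_nonneg.trans hu.1)
    show fi ε x u = 0
    rw [fi_eq]
    apply indicator_of_notMem
    intro hc
    apply h
    refine ⟨u.toNNReal, ⟨?_, ?_⟩, hc⟩
    · have : (lb K j : ℝ) ≤ ((u.toNNReal : ℝ≥0) : ℝ) := by rw [e]; exact hu.1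
      exact_mod_cast this
    · have : ((u.toNNReal : ℝ≥0) : ℝ) ≤ rb K j := by rw [e]; exact hu.2
      exact_mod_cast this
  rw [this, lintegral_zero]

lemma blocks_disj {K : ℕ} (hK : 0 < K) {i j : ℕ} (hij : i < j) : (rb K i : ℝ) < lb K j := by
  rw [rb_coe, lb_coe]
  have hK' : (0 : ℝ) < K := by exact_mod_cast hK
  have hij' : (i : ℝ) + 1 ≤ j := by exact_mod_cast hij
  have : (2 * (i : ℝ) + 1) / (20 * K) < 2 * j / (20 * K) := by
    apply div_lt_div_of_pos_right _ (by positivity)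
    linarith
  linarith

lemma block_sub {K : ℕ} {j : ℕ} (hj : j < K) : (3 / 5 : ℝ) ≤ lb K j ∧ (lb K j : ℝ) ≤ rb K j ∧
    (rb K j : ℝ) ≤ 7 / 10 ∧ (rb K j : ℝ) - lb K j = 1 / (20 * K) := by
  rw [rb_coe, lb_coe]
  have hK' : (0 : ℝ) < K := by exact_mod_cast (Nat.zero_le j).trans_lt hj
  have hj' : (j : ℝ) + 1 ≤ K := by exact_mod_cast hj
  have h1 : (0 : ℝ) ≤ 2 * j / (20 * K) := by positivity
  have h2 : 2 * (j : ℝ) / (20 * K) ≤ (2 * j + 1) / (20 * K) := by
    apply div_le_div_of_nonneg_right _ (by positivity); linarith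
  have h3 : (2 * (j : ℝ) + 1) / (20 * K) ≤ 1 / 10 := by
    rw [div_le_iff₀ (by positivity)]; linarith
  refine ⟨by linarith, by linarith, by linarith, ?_⟩
  ring

lemma sum_occ_le {K : ℕ} (hK : 0 < K) (ε : ℝ) (x : Path) :
    ∑ j : Fin K, occ ε (lb K j) (rb K j) x ≤ occ ε (3 / 5) (7 / 10) x := by
  unfold occ
  have hd : PairwiseDisjoint (↑(Finset.univ : Finset (Fin K))) (fun j : Fin K => Icc (lb K j : ℝ) (rb K j)) := by
    intro i _ j _ hij
    rw [Function.onFun, Set.disjoint_left]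
    intro y hy hy2
    rcases lt_or_gt_of_ne (fun h => hij (Fin.ext h) : (i : ℕ) ≠ j) with h | h
    · have := blocks_disj hK h
      linarith [hy.2, hy2.1]
    · have := blocks_disj hK h
      linarith [hy.1, hy2.2]
  rw [← lintegral_biUnion_finset hd (fun j _ => measurableSet_Icc)]
  apply lintegral_mono_set
  intro y hy
  rw [mem_iUnion₂] at hy
  obtain ⟨j, -, hy⟩ := hy
  obtain ⟨b1, b2, b3, b4⟩ := block_sub j.2
  exact ⟨b1.trans hy.1, hy.2.trans b3⟩

lemma pointwise {K n : ℕ} (hK : 0 < K) {ε t τ : ℝ} (ht : 0 < t) (hτ : 0 < τ) (x : Path) :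
    ∑ j : Fin K, occ ε (lb K j) (rb K j) x ≤
      ENNReal.ofReal (t / 2) * occ ε (3 / 5) (7 / 10) x ^ 2 +
      ENNReal.ofReal (1 / (2 * t)) * (HH ε K n).indicator 1 x +
      (ENNReal.ofReal (τ / 2) * ∑ j : Fin K, occ ε (lb K j) (rb K j) x ^ 2 +
        ENNReal.ofReal (n / (2 * τ))) := by
  classical
  by_cases hx : x ∈ HH ε K n
  · rw [indicator_of_mem hx]
    refine (sum_occ_le hK ε x).trans ((amgm (occ_lt ε _ _ x) ht).trans ?_)
    simp only [Pi.one_apply, mul_one]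
    exact le_self_add
  · rw [indicator_of_notMem hx, mul_zero, add_zero]
    refine le_trans ?_ le_add_self
    set T : Finset (Fin K) := Finset.univ.filter (fun j => x ∈ hitb ε K j) with hT
    have hTc : T.card ≤ n := by
      by_contra hc
      push Not at hc
      exact hx ⟨T, hc, fun j hj => (Finset.mem_filter.1 hj).2⟩
    have e : ∑ j : Fin K, occ ε (lb K j) (rb K j) x = ∑ j ∈ T, occ ε (lb K j) (rb K j) x := by
      symm
      apply Finset.sum_subset (Finset.subset_univ _)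
      intro j _ hj
      apply occ_zero
      intro hc
      exact hj (Finset.mem_filter.2 ⟨Finset.mem_univ _, hc⟩)
    rw [e]
    calc ∑ j ∈ T, occ ε (lb K j) (rb K j) x ≤
          ∑ j ∈ T, (ENNReal.ofReal (τ / 2) * occ ε (lb K j) (rb K j) x ^ 2 +
            ENNReal.ofReal (1 / (2 * τ))) :=
          Finset.sum_le_sum fun j _ => amgm (occ_lt ε _ _ x) hτ
      _ = ENNReal.ofReal (τ / 2) * ∑ j ∈ T, occ ε (lb K j) (rb K j) x ^ 2 +
            T.card * ENNReal.ofReal (1 / (2 * τ)) := by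
          rw [Finset.sum_add_distrib, ← Finset.mul_sum, Finset.sum_const, nsmul_eq_mul]
      _ ≤ _ := by
          gcongr ?_ + ?_
          · gcongr
            exact Finset.subset_univ _
          · have e2 : ENNReal.ofReal (n / (2 * τ)) = n * ENNReal.ofReal (1 / (2 * τ)) := by
              rw [← ENNReal.ofReal_natCast, ← ENNReal.ofReal_mul (Nat.cast_nonneg n)]
              congr 1
              ring
            rw [e2]
            gcongr

variable {W : Measure Path} (hW : IsBrownianReal (fun (t : ℝ≥0) (x : Path) => x t) W)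

include hW

theorem many {c : ℝ} (hc : 0 < c)
    (h : ∀ u : ℝ≥0, 3 / 5 ≤ (u : ℝ) → (u : ℝ) ≤ 7 / 10 → ∀ ε : ℝ, 0 < ε → ε ≤ 1 →
      ENNReal.ofReal (c * ε) ≤ W {x : Path | |Mx x u| ≤ ε}) {n : ℕ} (hn : 0 < n) :
    ∃ K : ℕ, ∀ ε : ℝ, 0 < ε → ε ≤ 1 →
      ENNReal.ofReal ((c / 20) ^ 2 / (2 * (48 * 10 ^ 8))) ≤ W (HH ε K n) := by
  have hWp := isProb hW
  set c' : ℝ := c / 20 with hc'
  have hc'0 : 0 < c' := by positivity
  set C : ℝ := 48 * 10 ^ 8 with hC
  have hC0 : 0 < C := by norm_num [hC]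
  have hn' : (0 : ℝ) < n := by exact_mod_cast hn
  -- choice of `K`
  set δ : ℝ := c' ^ 2 / (16 * n * C) with hδ
  have hδ0 : 0 < δ := by positivity
  obtain ⟨K, hK⟩ := exists_nat_ge (1 / δ ^ 4)
  have hK0' : (0 : ℝ) < K := lt_of_lt_of_le (by positivity) hK
  have hK0 : 0 < K := by exact_mod_cast hK0'
  set η : ℝ := 1 / (20 * K) with hη
  have hη0 : 0 < η := by positivity
  have hη4 : η ^ (1 / 4 : ℝ) ≤ δ := by
    have h1 : η ≤ δ ^ 4 := by
      rw [hη, div_le_iff₀ (by positivity)]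
      rw [div_le_iff₀ (by positivity)] at hK
      nlinarith [pow_pos hδ0 4]
    calc η ^ (1 / 4 : ℝ) ≤ (δ ^ 4) ^ (1 / 4 : ℝ) := Real.rpow_le_rpow hη0.le h1 (by norm_num)
      _ = δ := by
        rw [← Real.rpow_natCast, ← Real.rpow_mul hδ0.le]; norm_num
  refine ⟨K, fun ε hε hε1 => ?_⟩
  set t : ℝ := c' / (2 * C * ε) with ht
  set τ : ℝ := 4 * n / (c' * ε) with hτ
  have ht0 : 0 < t := by positivity
  have hτ0 : 0 < τ := by positivity
  -- means
  have m1 : ENNReal.ofReal (c' * ε) ≤ ∫⁻ x, ∑ j : Fin K, occ ε (lb K j) (rb K j) x ∂W := by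
    rw [lintegral_finsetSum _ fun j _ => occ_meas _ _ _]
    calc ENNReal.ofReal (c' * ε) = ∑ j : Fin K, ENNReal.ofReal (c * ε * η) := by
          rw [Finset.sum_const, Finset.card_univ, Fintype.card_fin, nsmul_eq_mul,
            ← ENNReal.ofReal_natCast, ← ENNReal.ofReal_mul (Nat.cast_nonneg K)]
          congr 1
          rw [hη, hc']
          field_simp
      _ ≤ _ := by
          refine Finset.sum_le_sum fun j _ => ?_
          obtain ⟨b1, b2, b3, b4⟩ := block_sub j.2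
          rw [← hη] at b4
          rw [← b4]
          exact mean_occ_ge hW hc h b1 b3 hε hε1
  have m2 : ∫⁻ x, occ ε (3 / 5) (7 / 10) x ^ 2 ∂W ≤ ENNReal.ofReal (C * ε ^ 2) := by
    refine (sq_occ_le hW (by norm_num) (by norm_num) (by norm_num) hε.le).trans ?_
    apply ENNReal.ofReal_le_ofReal
    have h1 : ((7 / 10 - 3 / 5 : ℝ)) ^ (1 / 4 : ℝ) ≤ 1 := Real.rpow_le_one (by norm_num) (by norm_num) (by norm_num)
    have h2 : (0 : ℝ) ≤ (7 / 10 - 3 / 5 : ℝ) ^ (1 / 4 : ℝ) := by positivity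
    have h3 : (7 / 10 - 3 / 5 : ℝ) * (7 / 10 - 3 / 5 : ℝ) ^ (1 / 4 : ℝ) ≤ 1 := by nlinarith
    calc 48 * 10 ^ 8 * ε ^ 2 * ((7 / 10 - 3 / 5 : ℝ) * (7 / 10 - 3 / 5 : ℝ) ^ (1 / 4 : ℝ)) ≤
          48 * 10 ^ 8 * ε ^ 2 * 1 := by gcongr
      _ = C * ε ^ 2 := by rw [hC]; ring
  have m3 : ∫⁻ x, ∑ j : Fin K, occ ε (lb K j) (rb K j) x ^ 2 ∂W ≤
      ENNReal.ofReal (C * ε ^ 2 * δ) := by
    rw [lintegral_finsetSum _ fun j _ => (occ_meas _ _ _).pow_const 2]
    calc _ ≤ ∑ j : Fin K, ENNReal.ofReal (C * ε ^ 2 * (η * δ)) := by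
          refine Finset.sum_le_sum fun j _ => ?_
          obtain ⟨b1, b2, b3, b4⟩ := block_sub j.2
          refine (sq_occ_le hW b1 b2 b3 hε.le).trans ?_
          apply ENNReal.ofReal_le_ofReal
          rw [b4, ← hη, ← hC]
          gcongr
      _ = ENNReal.ofReal (K * (C * ε ^ 2 * (η * δ))) := by
          rw [Finset.sum_const, Finset.card_univ, Fintype.card_fin, nsmul_eq_mul,
            ← ENNReal.ofReal_natCast, ← ENNReal.ofReal_mul (Nat.cast_nonneg K)]
      _ ≤ _ := by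
          apply ENNReal.ofReal_le_ofReal
          have e : K * (C * ε ^ 2 * (η * δ)) = C * ε ^ 2 * δ / 20 := by
            rw [hη]; field_simp
          rw [e]
          have : 0 ≤ C * ε ^ 2 * δ := by positivity
          linarith
  -- integrate the pointwise inequality
  have mocc : Measurable (fun x => occ ε (3 / 5) (7 / 10) x ^ 2) := (occ_meas _ _ _).pow_const 2
  have mind : Measurable (fun x => (HH ε K n).indicator (1 : Path → ℝ≥0∞) x) :=
    measurable_one.indicator (HH_meas ε K n)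
  have msum : Measurable (fun x => ∑ j : Fin K, occ ε (lb K j) (rb K j) x ^ 2) :=
    Finset.measurable_sum _ fun j _ => (occ_meas _ _ _).pow_const 2
  have big : ENNReal.ofReal (c' * ε) ≤ ENNReal.ofReal (t / 2) * ENNReal.ofReal (C * ε ^ 2) +
      ENNReal.ofReal (1 / (2 * t)) * W (HH ε K n) +
      (ENNReal.ofReal (τ / 2) * ENNReal.ofReal (C * ε ^ 2 * δ) + ENNReal.ofReal (n / (2 * τ))) := by
    refine m1.trans ((lintegral_mono (pointwise (n := n) hK0 ht0 hτ0)).trans ?_)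
    rw [lintegral_add_right _ ((msum.const_mul _).add_const _),
      lintegral_add_left (mocc.const_mul _), lintegral_const_mul _ mocc, lintegral_const_mul _ mind,
      lintegral_indicator_one (HH_meas ε K n), lintegral_add_right _ measurable_const,
      lintegral_const_mul _ msum, lintegral_const, measure_univ, mul_one]
    gcongr
  -- turn to real numbers
  have hfin : W (HH ε K n) ≠ ⊤ := measure_ne_top _ _
  set p : ℝ := (W (HH ε K n)).toReal with hp
  have hp0 : 0 ≤ p := ENNReal.toReal_nonneg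
  have hpe : W (HH ε K n) = ENNReal.ofReal p := (ENNReal.ofReal_toReal hfin).symm
  rw [hpe] at big ⊢
  rw [← ENNReal.ofReal_mul (by positivity), ← ENNReal.ofReal_mul (by positivity),
    ← ENNReal.ofReal_mul (by positivity), ← ENNReal.ofReal_add (by positivity) (by positivity),
    ← ENNReal.ofReal_add (by positivity) (by positivity),
    ← ENNReal.ofReal_add (by positivity) (by positivity), ENNReal.ofReal_le_ofReal_iff (by positivity)] at big
  apply ENNReal.ofReal_le_ofReal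
  have e1 : t / 2 * (C * ε ^ 2) = c' * ε / 4 := by
    rw [ht]; field_simp; ring
  have e2 : 1 / (2 * t) * p = C * ε / c' * p := by
    rw [ht]; field_simp
  have e3 : τ / 2 * (C * ε ^ 2 * δ) = c' * ε / 8 := by
    rw [hτ, hδ]; field_simp; ring
  have e4 : n / (2 * τ) = c' * ε / 8 := by
    rw [hτ]; field_simp; ring
  rw [e1, e2, e3, e4] at big
  have h5 : c' * ε / 2 ≤ C * ε / c' * p := by linarith
  have e6 : C * ε / c' * p * c' = C * ε * p := by field_simp
  have h5 := mul_le_mul_of_nonneg_right h5 hc'0.le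
  rw [e6] at h5
  rw [div_le_iff₀ (by positivity)]
  have h6 : ε * c' ^ 2 ≤ ε * (p * (2 * C)) := by nlinarith
  exact le_of_mul_le_mul_left h6 hε

/-- with probability bounded below, more than `n` disjoint blocks contain a zero of `M` -/
theorem many0 : ∃ c0 : ℝ≥0∞, 0 < c0 ∧ ∀ n : ℕ, 0 < n → ∃ K : ℕ, c0 ≤ W (HH 0 K n) := by
  have hWp := isProb hW
  obtain ⟨c, hc, h⟩ := low hW
  refine ⟨ENNReal.ofReal ((c / 20) ^ 2 / (2 * (48 * 10 ^ 8))), ENNReal.ofReal_pos.2 (by positivity),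
    fun n hn => ?_⟩
  obtain ⟨K, hK⟩ := many hW hc h hn
  refine ⟨K, ?_⟩
  have hanti : Antitone (fun m : ℕ => HH (1 / ((m : ℝ) + 1)) K n) := by
    intro m m' hmm
    apply HH_mono
    apply one_div_le_one_div_of_le (by positivity)
    have : (m : ℝ) ≤ m' := by exact_mod_cast hmm
    linarith
  have hlim := tendsto_measure_iInter_atTop (μ := W)
    (fun m : ℕ => (HH_meas (1 / ((m : ℝ) + 1)) K n).nullMeasurableSet) hanti ⟨0, measure_ne_top _ _⟩
  have h1 : ENNReal.ofReal ((c / 20) ^ 2 / (2 * (48 * 10 ^ 8))) ≤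
      W (⋂ m : ℕ, HH (1 / ((m : ℝ) + 1)) K n) := by
    refine ge_of_tendsto' hlim fun m => hK _ (by positivity) ?_
    rw [div_le_one (by positivity)]
    linarith [(Nat.cast_nonneg m : (0 : ℝ) ≤ m)]
  exact h1.trans (measure_mono (HH_inter K n))

omit hW in
/-- many hit blocks give many zeros -/
lemma HH_zeros {K n : ℕ} {x : Path} (hx : x ∈ HH 0 K n) (hK : 0 < K) :
    ∃ Z : Finset ℝ≥0, n < Z.card ∧ ∀ u ∈ Z, 3 / 5 ≤ (u : ℝ) ∧ (u : ℝ) ≤ 7 / 10 ∧ Mx x u = 0 := by
  classical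
  obtain ⟨T, hT, hT2⟩ := hx
  choose! z hz using fun (j : Fin K) (hj : j ∈ T) => hT2 j hj
  refine ⟨T.image z, ?_, ?_⟩
  · rw [Finset.card_image_of_injOn]
    · exact hT
    · intro i hi j hj hij
      have h1 := (hz i hi).1
      have h2 := (hz j hj).1
      rw [← hij] at h2
      have a1 : (lb K i : ℝ) ≤ z i := by exact_mod_cast h1.1
      have a2 : (z i : ℝ) ≤ rb K i := by exact_mod_cast h1.2
      have a3 : (lb K j : ℝ) ≤ z i := by exact_mod_cast h2.1
      have a4 : (z i : ℝ) ≤ rb K j := by exact_mod_cast h2.2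
      by_contra hne
      rcases lt_or_gt_of_ne (fun h => hne (Fin.ext h) : (i : ℕ) ≠ j) with h | h
      · have := blocks_disj hK h
        linarith
      · have := blocks_disj hK h
        linarith
  · intro u hu
    obtain ⟨j, hj, rfl⟩ := Finset.mem_image.1 hu
    obtain ⟨b1, b2, b3, b4⟩ := block_sub j.2
    obtain ⟨⟨h1, h2⟩, h3⟩ := hz j hj
    have a1 : (lb K j : ℝ) ≤ z j := by exact_mod_cast h1
    have a2 : (z j : ℝ) ≤ rb K j := by exact_mod_cast h2
    exact ⟨b1.trans a1, a2.trans b3, abs_nonpos_iff.1 h3⟩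

/-- **Infinitely many zeros with positive probability.** -/
theorem inf_zeros : ∃ A : Set Path, MeasurableSet A ∧ 0 < W A ∧
    ∀ x ∈ A, {u : ℝ≥0 | 3 / 5 ≤ (u : ℝ) ∧ (u : ℝ) ≤ 7 / 10 ∧ Mx x u = 0}.Infinite := by
  have hWp := isProb hW
  obtain ⟨c0, hc0, h⟩ := many0 hW
  choose! K hK using h
  set E : ℕ → Set Path := fun n => HH 0 (K (n + 1)) (n + 1) with hE
  have mE : ∀ n, MeasurableSet (E n) := fun n => HH_meas _ _ _
  set U : ℕ → Set Path := fun N => ⋃ n, ⋃ (_ : N ≤ n), E n with hU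
  have mU : ∀ N, MeasurableSet (U N) := fun N =>
    MeasurableSet.iUnion fun n => MeasurableSet.iUnion fun _ => mE n
  have aU : Antitone U := by
    intro N N' hNN x hx
    simp only [hU, mem_iUnion] at hx ⊢
    obtain ⟨n, hn, hx⟩ := hx
    exact ⟨n, hNN.trans hn, hx⟩
  refine ⟨⋂ N, U N, MeasurableSet.iInter mU, ?_, ?_⟩
  · have hlim := tendsto_measure_iInter_atTop (μ := W)
      (fun N => (mU N).nullMeasurableSet) aU ⟨0, measure_ne_top _ _⟩
    refine hc0.trans_le (ge_of_tendsto' hlim fun N => ?_)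
    refine (hK (N + 1) (Nat.succ_pos N)).trans (measure_mono ?_)
    intro x hx
    simp only [hU, mem_iUnion]
    exact ⟨N, le_rfl, hx⟩
  · intro x hx hfin
    rw [mem_iInter] at hx
    have h1 := hx hfin.toFinset.card
    simp only [hU, mem_iUnion] at h1
    obtain ⟨n, hn, hxn⟩ := h1
    have hK0 : 0 < K (n + 1) := by
      obtain ⟨T, hT, -⟩ := hxn
      have := T.card_le_univ
      rw [Fintype.card_fin] at this
      omega
    obtain ⟨Z, hZ, hZ2⟩ := HH_zeros hxn hK0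
    have : Z ⊆ hfin.toFinset := fun u hu => by
      rw [Set.Finite.mem_toFinset]; exact hZ2 u hu
    have := Finset.card_le_card this
    omega

end Q297.Spn
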