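import Pool.Agent.Q297.SpR
import Pool.Agent.Q297.SpI

/-!
Infinitely many zeros of the sliding maximum give infinitely many components of the span set.
-/

open MeasureTheory ProbabilityTheory Set Filter Topology
open scoped ENNReal NNReal
open Q297.PathC Q297.Prepend Q297.TwoS Q297.Dec

set_option linter.unusedSimpArgs false

namespace Q297.Spn

lemma zero_mem_Sp {x : Path} {u : ℝ≥0} (hu : (u : ℝ) ≤ 7 / 10) (h : Mx x u = 0) :
    (u : ℝ) ∈ Sp (x : ℝ≥0 → ℝ) := by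
  have hu1 : u ≤ 1 := by
    have : (u : ℝ) ≤ 1 := by linarith
    exact_mod_cast this
  obtain ⟨s, hs, h1⟩ := Mx_att x hu1
  refine ⟨s, s + u, le_self_add, hs, ?_, by push_cast; ring⟩
  rw [h] at h1
  linarith

lemma neg_notMem_Sp {x : Path} {u : ℝ≥0} (h : Mx x u < 0) : (u : ℝ) ∉ Sp (x : ℝ≥0 → ℝ) := by
  rintro ⟨s, t, hst, ht, hf, he⟩
  have e : t = s + u := by
    have : (t : ℝ) = s + u := by linarith
    exact_mod_cast this
  rw [e] at ht hf
  have := Mx_ge (x := x) ht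
  linarith

/-- the minimum of `M` over `[r, r']` -/
noncomputable def mn (r r' : ℝ≥0) (x : Path) : ℝ := sInf ((fun u : ℝ≥0 => Mx x u) '' Icc r r')

lemma mn_cont (r r' : ℝ≥0) : Continuous (mn r r') := by
  have h := IsCompact.continuous_sInf (K := Icc r r') isCompact_Icc
    (f := fun (x : Path) (u : ℝ≥0) => Mx x u) Mx_cont
  exact h

lemma mn_att {r r' : ℝ≥0} (h : r ≤ r') (x : Path) : ∃ u ∈ Icc r r', Mx x u = mn r r' x := by
  have hc : IsCompact ((fun u : ℝ≥0 => Mx x u) '' Icc r r') :=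
    isCompact_Icc.image (Mx_cont.comp (by fun_prop : Continuous (fun u : ℝ≥0 => (x, u))))
  obtain ⟨u, hu, hu2⟩ := hc.sInf_mem ⟨_, r, ⟨le_rfl, h⟩, rfl⟩
  exact ⟨u, hu, hu2⟩

lemma mn_le {r r' u : ℝ≥0} (hu : u ∈ Icc r r') (x : Path) : mn r r' x ≤ Mx x u := by
  have hc : IsCompact ((fun u : ℝ≥0 => Mx x u) '' Icc r r') :=
    isCompact_Icc.image (Mx_cont.comp (by fun_prop : Continuous (fun u : ℝ≥0 => (x, u))))
  exact csInf_le hc.bddBelow ⟨u, hu, rfl⟩

lemma mn_rmp {r r' : ℝ≥0} (h1 : 3 / 5 ≤ (r : ℝ)) (h2 : r ≤ r') (h3 : (r' : ℝ) ≤ 7 / 10) (β : Path)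
    (θ : ℝ) : mn r r' (β + θ • rmp) = mn r r' β + θ := by
  have key : ∀ u ∈ Icc r r', Mx (β + θ • rmp) u = Mx β u + θ := by
    intro u hu
    have a1 : (r : ℝ) ≤ u := by exact_mod_cast hu.1
    have a2 : (u : ℝ) ≤ r' := by exact_mod_cast hu.2
    exact Mx_rmp β θ (by linarith) (by linarith)
  apply le_antisymm
  · obtain ⟨u, hu, h⟩ := mn_att h2 β
    rw [← h, ← key u hu]
    exact mn_le hu _
  · obtain ⟨u, hu, h⟩ := mn_att h2 (β + θ • rmp)
    rw [← h, key u hu]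
    linarith [mn_le hu β]

/-- the good event -/
def Gs : Set Path := {x | ∀ p q : ℚ, 3 / 5 ≤ (p : ℝ) → (p : ℝ) ≤ q → (q : ℝ) ≤ 7 / 10 →
  mn (p : ℝ).toNNReal (q : ℝ).toNNReal x ≠ 0}

lemma Gs_meas : MeasurableSet Gs := by
  have e : Gs = ⋂ p : ℚ, ⋂ q : ℚ, ⋂ (_ : 3 / 5 ≤ (p : ℝ)), ⋂ (_ : (p : ℝ) ≤ q), ⋂ (_ : (q : ℝ) ≤ 7 / 10),
      {x : Path | mn (p : ℝ).toNNReal (q : ℝ).toNNReal x ≠ 0} := by
    ext x
    simp only [Gs, mem_ofPred_eq, mem_iInter]
  rw [e]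
  refine MeasurableSet.iInter fun p => MeasurableSet.iInter fun q => MeasurableSet.iInter fun _ =>
    MeasurableSet.iInter fun _ => MeasurableSet.iInter fun _ => ?_
  exact (isOpen_ne.preimage (mn_cont _ _)).measurableSet

lemma accum {x : Path} (hx : x ∈ Gs) {z : ℝ≥0} (h1 : 3 / 5 < (z : ℝ)) (h2 : (z : ℝ) < 7 / 10)
    (h0 : Mx x z = 0) : (z : ℝ) ∉ interior (Sp (x : ℝ≥0 → ℝ)) := by
  intro hz
  rw [mem_interior_iff_mem_nhds, Metric.mem_nhds_iff] at hz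
  obtain ⟨δ, hδ, hball⟩ := hz
  obtain ⟨p, hp1, hp2⟩ := exists_rat_btwn (show max (3 / 5) ((z : ℝ) - δ) < z from
    max_lt h1 (by linarith))
  obtain ⟨q, hq1, hq2⟩ := exists_rat_btwn (show (z : ℝ) < min (7 / 10) ((z : ℝ) + δ) from
    lt_min h2 (by linarith))
  rw [max_lt_iff] at hp1
  rw [lt_min_iff] at hq2
  have hne := hx p q hp1.1.le (hp2.trans hq1).le hq2.1.le
  have cp : (((p : ℝ).toNNReal : ℝ≥0) : ℝ) = p := Real.coe_toNNReal _ (by linarith [hp1.1])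
  have cq : (((q : ℝ).toNNReal : ℝ≥0) : ℝ) = q := Real.coe_toNNReal _ (by linarith [hp1.1])
  have hpq : (p : ℝ).toNNReal ≤ (q : ℝ).toNNReal := Real.toNNReal_le_toNNReal (hp2.trans hq1).le
  have hzI : z ∈ Icc (p : ℝ).toNNReal (q : ℝ).toNNReal := by
    constructor
    · have : (((p : ℝ).toNNReal : ℝ≥0) : ℝ) ≤ z := by rw [cp]; exact hp2.le
      exact_mod_cast this
    · have : (z : ℝ) ≤ (((q : ℝ).toNNReal : ℝ≥0) : ℝ) := by rw [cq]; exact hq1.le
      exact_mod_cast this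
  have hle := mn_le hzI x
  rw [h0] at hle
  have hlt := lt_of_le_of_ne hle hne
  obtain ⟨u, hu, hu2⟩ := mn_att hpq x
  rw [← hu2] at hlt
  apply neg_notMem_Sp hlt
  apply hball
  rw [Metric.mem_ball, Real.dist_eq, abs_lt]
  have a1 : (p : ℝ) ≤ u := by rw [← cp]; exact_mod_cast hu.1
  have a2 : (u : ℝ) ≤ q := by rw [← cq]; exact_mod_cast hu.2
  constructor <;> linarith [hp1.2, hq2.2]

lemma fin_bd {C : Set ℝ} (hC : C.OrdConnected) (hb : C ⊆ Icc 0 1) : (C \ interior C).Finite := by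
  refine Set.Finite.subset (Set.toFinite {sInf C, sSup C}) ?_
  rintro z ⟨hz, hzi⟩
  by_contra hc
  simp only [mem_insert_iff, mem_singleton_iff, not_or] at hc
  have hne : C.Nonempty := ⟨z, hz⟩
  have hbb : BddBelow C := ⟨0, fun y hy => (hb hy).1⟩
  have hba : BddAbove C := ⟨1, fun y hy => (hb hy).2⟩
  have h1 : sInf C < z := lt_of_le_of_ne (csInf_le hbb hz) (Ne.symm hc.1)
  have h2 : z < sSup C := lt_of_le_of_ne (le_csSup hba hz) hc.2
  obtain ⟨a, ha, haz⟩ := exists_lt_of_csInf_lt hne h1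
  obtain ⟨b, hb', hbz⟩ := exists_lt_of_lt_csSup hne h2
  apply hzi
  rw [mem_interior_iff_mem_nhds]
  exact Filter.mem_of_superset (Icc_mem_nhds haz hbz) (hC.out ha hb')

/-- the set of connected components of the span set -/
def comps (S : Set ℝ) : Set (Set ℝ) := {C | ∃ t ∈ S, C = connectedComponentIn S t}

lemma inf_comps {x : Path} (hx : x ∈ Gs)
    (hz : {u : ℝ≥0 | 3 / 5 ≤ (u : ℝ) ∧ (u : ℝ) ≤ 7 / 10 ∧ Mx x u = 0}.Infinite) :
    (comps (Sp (x : ℝ≥0 → ℝ))).Infinite ∧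
      ¬ ∃ (n : ℕ) (a b : Fin n → ℝ), Sp (x : ℝ≥0 → ℝ) = ⋃ i, Icc (a i) (b i) := by
  set Z : Set ℝ := {z | z ∈ Sp (x : ℝ≥0 → ℝ) ∧ z ∉ interior (Sp (x : ℝ≥0 → ℝ))} with hZ
  have hZinf : Z.Infinite := by
    have h1 : ({u : ℝ≥0 | 3 / 5 ≤ (u : ℝ) ∧ (u : ℝ) ≤ 7 / 10 ∧ Mx x u = 0} \ {3 / 5, 7 / 10}).Infinite :=
      hz.sdiff (Set.toFinite _)
    have h2 := h1.image (NNReal.coe_injective.injOn)
    refine h2.mono ?_
    rintro _ ⟨u, ⟨⟨u1, u2, u3⟩, hu⟩, rfl⟩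
    simp only [mem_insert_iff, mem_singleton_iff, not_or] at hu
    refine ⟨zero_mem_Sp u2 u3, accum hx (lt_of_le_of_ne u1 ?_) (lt_of_le_of_ne u2 ?_) u3⟩
    · intro h
      apply hu.1
      apply NNReal.coe_injective
      rw [← h]; push_cast; ring
    · intro h
      apply hu.2
      apply NNReal.coe_injective
      rw [h]; push_cast; ring
  constructor
  · intro hfin
    apply hZinf
    have h3 : Z ⊆ ⋃ C ∈ comps (Sp (x : ℝ≥0 → ℝ)), (C \ interior C) := by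
      rintro z ⟨z1, z2⟩
      rw [mem_iUnion₂]
      refine ⟨connectedComponentIn (Sp (x : ℝ≥0 → ℝ)) z, ⟨z, z1, rfl⟩, mem_connectedComponentIn z1, ?_⟩
      intro hc
      exact z2 (interior_mono (connectedComponentIn_subset _ _) hc)
    refine Set.Finite.subset (hfin.biUnion ?_) h3
    rintro C ⟨t, ht, rfl⟩
    exact fin_bd isPreconnected_connectedComponentIn.ordConnected
      ((connectedComponentIn_subset _ _).trans (Sp_sub _))
  · rintro ⟨n, a, b, e⟩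
    apply hZinf
    refine Set.Finite.subset ((Set.finite_range a).union (Set.finite_range b)) ?_
    rintro z ⟨z1, z2⟩
    have z1' := z1
    rw [e, mem_iUnion] at z1'
    obtain ⟨i, hi⟩ := z1'
    rcases eq_or_lt_of_le hi.1 with h | h
    · exact Or.inl ⟨i, h⟩
    rcases eq_or_lt_of_le hi.2 with h' | h'
    · exact Or.inr ⟨i, h'.symm⟩
    exfalso
    apply z2
    rw [mem_interior_iff_mem_nhds]
    refine Filter.mem_of_superset (Icc_mem_nhds h h') ?_
    rw [e]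
    exact subset_iUnion (fun i => Icc (a i) (b i)) i

variable {W : Measure Path}

lemma ae_Gs (hW : IsBrownianReal (fun (t : ℝ≥0) (x : Path) => x t) W) : ∀ᵐ x ∂W, x ∈ Gs := by
  have hWp := isProb hW
  have key : ∀ p q : ℚ, 3 / 5 ≤ (p : ℝ) → (p : ℝ) ≤ q → (q : ℝ) ≤ 7 / 10 →
      ∀ᵐ x ∂W, mn (p : ℝ).toNNReal (q : ℝ).toNNReal x ≠ 0 := by
    intro p q h1 h2 h3
    have cp : (((p : ℝ).toNNReal : ℝ≥0) : ℝ) = p := Real.coe_toNNReal _ (by linarith)
    have cq : (((q : ℝ).toNNReal : ℝ≥0) : ℝ) = q := Real.coe_toNNReal _ (by linarith)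
    have mA : MeasurableSet {x : Path | mn (p : ℝ).toNNReal (q : ℝ).toNNReal x = 0} :=
      (isClosed_eq (mn_cont _ _) continuous_const).measurableSet
    have h4 : W {x : Path | mn (p : ℝ).toNNReal (q : ℝ).toNNReal x = 0} = 0 := by
      rw [fub hW mA]
      have h5 : ∀ β : Path, gaussianReal 0 V1 {θ : ℝ | β + θ • rmp ∈
          {x : Path | mn (p : ℝ).toNNReal (q : ℝ).toNNReal x = 0}} = 0 := by
        intro β
        have hna := nullSingletonClass_gaussianReal (μ := 0) V1_ne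
        have e : {θ : ℝ | β + θ • rmp ∈ {x : Path | mn (p : ℝ).toNNReal (q : ℝ).toNNReal x = 0}} ⊆
            {-mn (p : ℝ).toNNReal (q : ℝ).toNNReal β} := by
          intro θ hθ
          simp only [mem_ofPred_eq] at hθ
          rw [mn_rmp (by rw [cp]; exact h1) (Real.toNNReal_le_toNNReal h2) (by rw [cq]; exact h3)] at hθ
          rw [mem_singleton_iff]
          linarith
        exact measure_mono_null e (measure_singleton _)
      rw [lintegral_congr h5, lintegral_zero]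
    have h6 := measure_eq_zero_iff_ae_notMem.1 h4
    filter_upwards [h6] with x hx
    exact hx
  have h : ∀ᵐ x ∂W, ∀ p q : ℚ, 3 / 5 ≤ (p : ℝ) → (p : ℝ) ≤ q → (q : ℝ) ≤ 7 / 10 →
      mn (p : ℝ).toNNReal (q : ℝ).toNNReal x ≠ 0 := by
    refine ae_all_iff.2 fun p => ae_all_iff.2 fun q => ?_
    by_cases hc : 3 / 5 ≤ (p : ℝ) ∧ (p : ℝ) ≤ q ∧ (q : ℝ) ≤ 7 / 10
    · filter_upwards [key p q hc.1 hc.2.1 hc.2.2] with x hx _ _ _
      exact hx
    · exact ae_of_all _ fun x h1 h2 h3 => absurd ⟨h1, h2, h3⟩ hc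
  exact h

/-- infinitely many components with positive probability, for an arbitrary Brownian motion -/
theorem final {Ω : Type*} {mΩ : MeasurableSpace Ω} {P : Measure Ω} {B : ℝ≥0 → Ω → ℝ}
    (hB : IsBrownianReal B P) :
    ∃ A : Set Ω, MeasurableSet A ∧ 0 < P A ∧ ∀ ω ∈ A,
      (comps (Sp (fun t => B t ω))).Infinite ∧
      ¬ ∃ (n : ℕ) (a b : Fin n → ℝ), Sp (fun t => B t ω) = ⋃ i, Icc (a i) (b i) := by
  obtain ⟨b, hb, hbB⟩ := exists_path hB
  have hW := wiener_of_path hB hb hbB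
  obtain ⟨A, mA, hA0, hA⟩ := inf_zeros hW
  set N := toMeasurable P {ω | ¬ ∀ t, b ω t = B t ω} with hN
  have hN0 : P N = 0 := by rw [hN, measure_toMeasurable]; exact hbB
  refine ⟨b ⁻¹' (A ∩ Gs) \ N, (hb (mA.inter Gs_meas)).diff (measurableSet_toMeasurable _ _), ?_, ?_⟩
  · rw [measure_sdiff_null hN0, ← Measure.map_apply hb (mA.inter Gs_meas)]
    have h1 : (P.map b) (A ∩ Gs) = (P.map b) A := by
      apply measure_congr
      filter_upwards [ae_Gs hW] with x hx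
      apply propext
      show (x ∈ A ∧ x ∈ Gs) ↔ x ∈ A
      exact ⟨fun h => h.1, fun h => ⟨h, hx⟩⟩
    rw [h1]
    exact hA0
  · rintro ω ⟨⟨h1, h2⟩, h3⟩
    have h4 : ∀ t, b ω t = B t ω := by
      by_contra hc
      exact h3 (subset_toMeasurable _ _ hc)
    have e : (fun t => B t ω) = (b ω : ℝ≥0 → ℝ) := by
      funext t; exact (h4 t).symm
    rw [e]
    exact inf_comps h2 (hA _ h1)

end Q297.Spn
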