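import Mathlib

/-!
Linear algebra for finite rank operators that contract a seminorm.
-/

namespace Pool.Agent.Q297.Sto

open Polynomial

variable {V : Type*} [AddCommGroup V] [Module ℂ V]

lemma norm_pow_le (N : Seminorm ℂ V) (T : V →ₗ[ℂ] V) {lam : ℝ} (hlam : 0 < lam)
    (hT : ∀ u, N (T u) ≤ lam * N u) (n : ℕ) (u : V) : N ((T ^ n) u) ≤ lam ^ n * N u := by
  induction n with
  | zero => simp
  | succ n ih =>
    rw [pow_succ', Module.End.mul_apply]
    calc N (T ((T ^ n) u)) ≤ lam * N ((T ^ n) u) := hT _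
      _ ≤ lam * (lam ^ n * N u) := by gcongr
      _ = lam ^ (n + 1) * N u := by ring

lemma contraction_two (N : Seminorm ℂ V)
    (T : V →ₗ[ℂ] V) {lam : ℝ} (hlam : 0 < lam) (hT : ∀ u, N (T u) ≤ lam * N u)
    {μ : ℂ} (hμ : ‖μ‖ = lam) (u : V)
    (h2 : N (T (T u - μ • u) - μ • (T u - μ • u)) = 0) : N (T u - μ • u) = 0 := by
  obtain ⟨v, hv⟩ : ∃ v, v = T u - μ • u := ⟨_, rfl⟩
  rw [← hv] at h2 ⊢
  have hTu : T u = v + μ • u := by rw [hv]; abel
  obtain ⟨e, he⟩ : ∃ e, e = T v - μ • v := ⟨_, rfl⟩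
  rw [← he] at h2
  have hTv : T v = e + μ • v := by rw [he]; abel
  have key : ∀ n : ℕ, N ((T ^ (n+1)) u - μ ^ (n+1) • u - (((n+1 : ℕ) : ℂ) * μ ^ n) • v) = 0 := by
    intro n
    induction n with
    | zero => simp [hTu]
    | succ n ih =>
      have h1 : N (T ((T ^ (n+1)) u - μ ^ (n+1) • u - (((n+1 : ℕ) : ℂ) * μ ^ n) • v)) = 0 := by
        refine le_antisymm ?_ (apply_nonneg _ _)
        have := hT ((T ^ (n+1)) u - μ ^ (n+1) • u - (((n+1 : ℕ) : ℂ) * μ ^ n) • v)
        rw [ih, mul_zero] at this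
        exact this
      have e1 : (T ^ (n+1+1)) u - μ ^ (n+1+1) • u - (((n+1+1 : ℕ) : ℂ) * μ ^ (n+1)) • v
          = T ((T ^ (n+1)) u - μ ^ (n+1) • u - (((n+1 : ℕ) : ℂ) * μ ^ n) • v)
            + (((n+1 : ℕ) : ℂ) * μ ^ n) • e := by
        rw [map_sub, map_sub, map_smul, map_smul, hTu, hTv, pow_succ' T (n+1),
          Module.End.mul_apply]
        push_cast
        module
      rw [e1]
      refine le_antisymm ?_ (apply_nonneg _ _)
      refine (map_add_le_add N _ _).trans ?_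
      rw [h1, map_smul_eq_mul, h2]
      simp
  have bound : ∀ n : ℕ, ((n:ℝ) + 1) * N v ≤ 2 * lam * N u := by
    intro n
    have h3 : N ((((n+1 : ℕ) : ℂ) * μ ^ n) • v) ≤ 2 * lam ^ (n+1) * N u := by
      have e2 : (((n+1 : ℕ) : ℂ) * μ ^ n) • v
          = (T ^ (n+1)) u - μ ^ (n+1) • u -
            ((T ^ (n+1)) u - μ ^ (n+1) • u - (((n+1 : ℕ) : ℂ) * μ ^ n) • v) := by abel
      rw [e2]
      refine (map_sub_le_add N _ _).trans ?_
      rw [key n, add_zero]
      refine (map_sub_le_add N _ _).trans ?_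
      rw [map_smul_eq_mul, norm_pow, hμ]
      have := norm_pow_le N T hlam hT (n+1) u
      linarith
    rw [map_smul_eq_mul, norm_mul, norm_pow, hμ] at h3
    have h4 : ‖((n+1 : ℕ) : ℂ)‖ = (n:ℝ) + 1 := by
      rw [Complex.norm_natCast]; push_cast; ring
    rw [h4] at h3
    have h5 : lam ^ n * (((n:ℝ) + 1) * N v) ≤ lam ^ n * (2 * lam * N u) := by
      have : 2 * lam ^ (n+1) * N u = lam ^ n * (2 * lam * N u) := by ring
      rw [this] at h3
      linarith
    exact le_of_mul_le_mul_left h5 (pow_pos hlam n)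
  by_contra hne
  have hpos : 0 < N v := lt_of_le_of_ne (apply_nonneg _ _) (Ne.symm hne)
  obtain ⟨n, hn⟩ := exists_nat_gt (2 * lam * N u / N v)
  have := bound n
  rw [div_lt_iff₀ hpos] at hn
  nlinarith

lemma contraction_pow (N : Seminorm ℂ V)
    (T : V →ₗ[ℂ] V) {lam : ℝ} (hlam : 0 < lam) (hT : ∀ u, N (T u) ≤ lam * N u)
    {μ : ℂ} (hμ : ‖μ‖ = lam) (k : ℕ) : ∀ u : V,
    N (((T - μ • (1 : V →ₗ[ℂ] V)) ^ (k+1)) u) = 0 → N (T u - μ • u) = 0 := by
  have hD : ∀ u : V, (T - μ • (1 : V →ₗ[ℂ] V)) u = T u - μ • u := fun u => by simp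
  induction k with
  | zero => intro u h; simpa using h
  | succ k ih =>
    intro u h
    apply ih
    rw [pow_succ', Module.End.mul_apply, hD]
    apply contraction_two N T hlam hT hμ
    rw [pow_succ', Module.End.mul_apply, pow_succ', Module.End.mul_apply, hD, hD] at h
    exact h

/-- The null submodule of a seminorm. -/
def nul (N : Seminorm ℂ V) : Submodule ℂ V where
  carrier := {u | N u = 0}
  add_mem' := by
    intro a b ha hb
    refine le_antisymm ((map_add_le_add N _ _).trans ?_) (apply_nonneg _ _)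
    rw [show N a = 0 from ha, show N b = 0 from hb, add_zero]
  zero_mem' := map_zero N
  smul_mem' := by
    intro c a ha
    show N (c • a) = 0
    rw [map_smul_eq_mul, show N a = 0 from ha, mul_zero]

lemma mem_nul {N : Seminorm ℂ V} {u : V} : u ∈ nul N ↔ N u = 0 := Iff.rfl

lemma no_many_eig (N : Seminorm ℂ V)
    (T : V →ₗ[ℂ] V) {lam : ℝ} (hT : ∀ u, N (T u) ≤ lam * N u)
    (hfin : FiniteDimensional ℂ (LinearMap.range T)) (μs : ℕ → ℂ)
    (hinj : Function.Injective μs) (hne : ∀ k, μs k ≠ 0) (g : ℕ → V) (hg : ∀ k, N (g k) ≠ 0)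
    (he : ∀ k, N (T (g k) - μs k • g k) = 0) : False := by
  have hle : nul N ≤ (nul N).comap T := by
    intro u hu
    rw [Submodule.mem_comap, mem_nul]
    refine le_antisymm ((hT u).trans ?_) (apply_nonneg _ _)
    rw [mem_nul.1 hu, mul_zero]
  let Tb : Module.End ℂ (V ⧸ nul N) := (nul N).mapQ (nul N) T hle
  have hTb : ∀ u : V, Tb ((nul N).mkQ u) = (nul N).mkQ (T u) := fun u => by
    simp [Tb]
  have heig : ∀ k, Tb.HasEigenvector (μs k) ((nul N).mkQ (g k)) := by
    intro k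
    refine ⟨?_, ?_⟩
    · rw [Module.End.mem_eigenspace_iff, hTb, ← map_smul, ← sub_eq_zero, ← map_sub]
      exact (Submodule.Quotient.mk_eq_zero _).2 (mem_nul.2 (he k))
    · intro h0
      exact hg k (mem_nul.1 ((Submodule.Quotient.mk_eq_zero _).1 h0))
  have hli := Module.End.eigenvectors_linearIndependent' Tb μs hinj _ heig
  let R : Submodule ℂ (V ⧸ nul N) := (LinearMap.range T).map (nul N).mkQ
  have hR : FiniteDimensional ℂ R := by
    have := hfin
    infer_instance
  have hmem : ∀ k, (nul N).mkQ (g k) ∈ R := by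
    intro k
    have h1 : (nul N).mkQ (g k) = (μs k)⁻¹ • Tb ((nul N).mkQ (g k)) := by
      rw [Module.End.mem_eigenspace_iff.1 (heig k).1, smul_smul, inv_mul_cancel₀ (hne k), one_smul]
    rw [h1, hTb]
    exact Submodule.smul_mem _ _ (Submodule.mem_map_of_mem (LinearMap.mem_range_self T _))
  let w : ℕ → R := fun k => ⟨(nul N).mkQ (g k), hmem k⟩
  have hw : LinearIndependent ℂ w := by
    apply LinearIndependent.of_comp R.subtype
    exact hli
  have := hw.finite
  exact not_finite ℕ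

lemma exists_eigen (N : Seminorm ℂ V)
    (T : V →ₗ[ℂ] V) {lam : ℝ} (hlam : 0 < lam) (hT : ∀ u, N (T u) ≤ lam * N u)
    (hfin : FiniteDimensional ℂ (LinearMap.range T)) {μ : ℂ} (hμ : ‖μ‖ = lam) (q : V)
    (hpos : ∀ ψ : ℂ[X], ψ.eval μ ≠ 0 → N (aeval T ψ q) ≠ 0) :
    ∃ g, N g ≠ 0 ∧ N (T g - μ • g) = 0 := by
  have := hfin
  let R := LinearMap.range T
  have hmaps : ∀ x ∈ R, T x ∈ R := fun x _ => LinearMap.mem_range_self T x
  let TR : R →ₗ[ℂ] R := T.restrict hmaps
  have hTR : ∀ (p : ℂ[X]) (x : R), ((aeval TR p x : R) : V) = aeval T p (x : V) := by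
    intro p x
    induction p using Polynomial.induction_on' with
    | add p1 p2 h1 h2 => simp [h1, h2]
    | monomial n a =>
      have : ∀ n : ℕ, (((TR ^ n) x : R) : V) = (T ^ n) (x : V) := by
        intro n
        induction n with
        | zero => simp
        | succ n ih =>
          rw [pow_succ', Module.End.mul_apply, pow_succ', Module.End.mul_apply, ← ih]
          rfl
      rw [aeval_monomial, aeval_monomial, Module.End.mul_apply, Module.End.mul_apply,
        Module.algebraMap_end_apply, Module.algebraMap_end_apply, ← this]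
      rfl
  let χ : ℂ[X] := TR.charpoly * X
  have hχ0 : χ ≠ 0 := mul_ne_zero (LinearMap.charpoly_monic TR).ne_zero X_ne_zero
  have hχ : aeval T χ q = 0 := by
    have h1 : aeval T χ q = aeval T TR.charpoly (T q) := by
      simp [χ, Module.End.mul_apply]
    rw [h1]
    have h2 := hTR TR.charpoly ⟨T q, LinearMap.mem_range_self T q⟩
    rw [LinearMap.aeval_self_charpoly] at h2
    simpa using h2.symm
  obtain ⟨ψ, hψ, hnd⟩ := Polynomial.exists_eq_pow_rootMultiplicity_mul_and_not_dvd χ hχ0 μ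
  have hψμ : ψ.eval μ ≠ 0 := by
    intro h0
    exact hnd (Polynomial.dvd_iff_isRoot.2 h0)
  have hNg := hpos ψ hψμ
  refine ⟨aeval T ψ q, hNg, ?_⟩
  have h3 : ((T - μ • (1 : V →ₗ[ℂ] V)) ^ (rootMultiplicity μ χ)) (aeval T ψ q) = 0 := by
    rw [hψ] at hχ
    rw [map_mul, map_pow, map_sub, aeval_X, aeval_C, Module.End.mul_apply] at hχ
    have e : (algebraMap ℂ (Module.End ℂ V)) μ = μ • (1 : V →ₗ[ℂ] V) :=
      Algebra.algebraMap_eq_smul_one μ
    rw [e] at hχ
    exact hχ
  rcases Nat.eq_zero_or_pos (rootMultiplicity μ χ) with h0 | h0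
  · rw [h0, pow_zero, Module.End.one_apply] at h3
    rw [h3, map_zero] at hNg
    exact absurd rfl hNg
  · obtain ⟨k, hk⟩ : ∃ k, rootMultiplicity μ χ = k + 1 := ⟨_, (Nat.succ_pred_eq_of_pos h0).symm⟩
    rw [hk] at h3
    apply contraction_pow N T hlam hT hμ k
    rw [h3, map_zero]

end Pool.Agent.Q297.Sto
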