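import Mathlib

/-!
Definitions for MP_d5803c: the stochastic module of a random sequence and Markov processes of
finite rank.
-/

open MeasureTheory ProbabilityTheory

namespace Pool.Agent.Q297.Sto

/-- `A_n` as a subspace of all functions: the bounded measurable functions `S^n → ℝ` (functions,
not classes). For `n = 0` this is the space of functions on a one point set, that is `ℝ`. -/
def AN (S : Type*) [MeasurableSpace S] (n : ℕ) : Submodule ℝ ((Fin n → S) → ℝ) where
  carrier := {f | Measurable f ∧ ∃ C : ℝ, ∀ x, |f x| ≤ C}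
  add_mem' := by
    rintro f g ⟨hf, Cf, hCf⟩ ⟨hg, Cg, hCg⟩
    exact ⟨hf.add hg, Cf + Cg, fun x => (abs_add_le _ _).trans (add_le_add (hCf x) (hCg x))⟩
  zero_mem' := ⟨measurable_const, 0, fun x => by simp⟩
  smul_mem' := by
    rintro c f ⟨hf, C, hC⟩
    refine ⟨hf.const_smul c, |c| * C, fun x => ?_⟩
    rw [Pi.smul_apply, smul_eq_mul, abs_mul]
    exact mul_le_mul_of_nonneg_left (hC x) (abs_nonneg _)

/-- The real vector space `A_n` of bounded measurable functions `S^n → ℝ`. -/
def An (S : Type*) [MeasurableSpace S] (n : ℕ) : Type _ := AN S n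

noncomputable instance instAnGroup (S : Type*) [MeasurableSpace S] (n : ℕ) :
    AddCommGroup (An S n) := inferInstanceAs (AddCommGroup (AN S n))

noncomputable instance instAnModule (S : Type*) [MeasurableSpace S] (n : ℕ) :
    Module ℝ (An S n) := inferInstanceAs (Module ℝ (AN S n))

/-- The real vector space `A = ⊕ A_n`. -/
def AA (S : Type*) [MeasurableSpace S] : Type _ := DirectSum ℕ (An S)

noncomputable instance instAAGroup (S : Type*) [MeasurableSpace S] : AddCommGroup (AA S) :=
  inferInstanceAs (AddCommGroup (DirectSum ℕ (An S)))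

noncomputable instance instAAModule (S : Type*) [MeasurableSpace S] : Module ℝ (AA S) :=
  inferInstanceAs (Module ℝ (DirectSum ℕ (An S)))

/-- The inclusion `A_n → A`. -/
noncomputable def inA (S : Type*) [MeasurableSpace S] (n : ℕ) : An S n →ₗ[ℝ] AA S :=
  DirectSum.lof ℝ ℕ (An S) n

lemma concFun_mem {S : Type*} [MeasurableSpace S] {m n : ℕ} (f : An S m) (g : An S n) :
    (fun x : Fin (m + n) → S => f.1 (fun i => x (Fin.castAdd n i)) *
      g.1 (fun j => x (Fin.natAdd m j))) ∈ AN S (m + n) := by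
  obtain ⟨hf, Cf, hCf⟩ := f.2
  obtain ⟨hg, Cg, hCg⟩ := g.2
  refine ⟨(hf.comp (measurable_pi_lambda _ fun i => measurable_pi_apply _)).mul
    (hg.comp (measurable_pi_lambda _ fun i => measurable_pi_apply _)), |Cf| * |Cg|,
    fun x => ?_⟩
  rw [abs_mul]
  exact mul_le_mul ((hCf _).trans (le_abs_self _)) ((hCg _).trans (le_abs_self _))
    (abs_nonneg _) (abs_nonneg _)

/-- Concatenation of homogeneous elements:
`(fg)(x_1,…,x_{m+n}) = f(x_1,…,x_m) g(x_{m+1},…,x_{m+n})` for `f ∈ A_m`, `g ∈ A_n`. -/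
noncomputable def concFun {S : Type*} [MeasurableSpace S] {m n : ℕ} (f : An S m) (g : An S n) :
    An S (m + n) :=
  ⟨fun x : Fin (m + n) → S => f.1 (fun i => x (Fin.castAdd n i)) *
    g.1 (fun j => x (Fin.natAdd m j)), concFun_mem f g⟩

lemma concFun_add_left {S : Type*} [MeasurableSpace S] {m n : ℕ} (f f' : An S m) (g : An S n) :
    concFun (f + f') g = concFun f g + concFun f' g := by
  apply Subtype.ext
  funext x
  exact add_mul _ _ _

lemma concFun_smul_left {S : Type*} [MeasurableSpace S] {m n : ℕ} (c : ℝ) (f : An S m)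
    (g : An S n) : concFun (c • f) g = c • concFun f g := by
  apply Subtype.ext
  funext x
  exact mul_assoc _ _ _

lemma concFun_add_right {S : Type*} [MeasurableSpace S] {m n : ℕ} (f : An S m) (g g' : An S n) :
    concFun f (g + g') = concFun f g + concFun f g' := by
  apply Subtype.ext
  funext x
  exact mul_add _ _ _

lemma concFun_smul_right {S : Type*} [MeasurableSpace S] {m n : ℕ} (c : ℝ) (f : An S m)
    (g : An S n) : concFun f (c • g) = c • concFun f g := by
  apply Subtype.ext
  funext x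
  exact mul_left_comm _ _ _

/-- Concatenation as a bilinear map `A_m × A_n → A_{m+n}`. -/
noncomputable def conc (S : Type*) [MeasurableSpace S] (m n : ℕ) :
    An S m →ₗ[ℝ] An S n →ₗ[ℝ] An S (m + n) :=
  LinearMap.mk₂ ℝ concFun concFun_add_left concFun_smul_left concFun_add_right
    concFun_smul_right

/-- Right multiplication `f ↦ fη` on `A_m`, for `η ∈ A`. -/
noncomputable def mulH (S : Type*) [MeasurableSpace S] (m : ℕ) :
    AA S →ₗ[ℝ] An S m →ₗ[ℝ] AA S :=
  DirectSum.toModule ℝ ℕ (An S m →ₗ[ℝ] AA S)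
    (fun n => LinearMap.flip ((conc S m n).compr₂ (inA S (m + n))))

/-- The product `ξη` of the algebra `A`: the bilinear extension of concatenation. -/
noncomputable def mulA (S : Type*) [MeasurableSpace S] : AA S →ₗ[ℝ] AA S →ₗ[ℝ] AA S :=
  DirectSum.toModule ℝ ℕ (AA S →ₗ[ℝ] AA S) (fun m => (mulH S m).flip)

section
variable {Ω : Type*} [MeasurableSpace Ω] (P : Measure Ω) [IsProbabilityMeasure P]
  {S : Type*} [MeasurableSpace S] (Y : ℕ → Ω → S) (hY : ∀ n, Measurable (Y n))

include hY in
lemma EN_add (n : ℕ) (f g : An S n) :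
    ∫ ω, (f + g).1 (fun i => Y i ω) ∂P
      = ∫ ω, f.1 (fun i => Y i ω) ∂P + ∫ ω, g.1 (fun i => Y i ω) ∂P := by
  have hint : ∀ f : An S n, Integrable (fun ω => f.1 (fun i => Y i ω)) P := by
    intro f
    obtain ⟨hf, C, hC⟩ := f.2
    exact Integrable.of_bound
      (hf.comp (measurable_pi_lambda _ fun i => hY i)).aestronglyMeasurable C
      (ae_of_all _ fun x => hC _)
  exact integral_add (hint f) (hint g)

omit [IsProbabilityMeasure P] in
lemma EN_smul (n : ℕ) (c : ℝ) (f : An S n) :
    ∫ ω, (c • f).1 (fun i => Y i ω) ∂P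
      = (RingHom.id ℝ) c • ∫ ω, f.1 (fun i => Y i ω) ∂P :=
  integral_const_mul c _

/-- `E(f) = 𝐄 f(Y_1,…,Y_n)` for `f ∈ A_n` (the sequence is indexed from `0`). -/
noncomputable def EN (n : ℕ) : An S n →ₗ[ℝ] ℝ where
  toFun f := ∫ ω, f.1 (fun i => Y i ω) ∂P
  map_add' := EN_add P Y hY n
  map_smul' := EN_smul P Y n

/-- The linear functional `E` on `A`. -/
noncomputable def EE : AA S →ₗ[ℝ] ℝ := DirectSum.toModule ℝ ℕ ℝ (EN P Y hY)

/-- `J = {η : E(ξη) = 0 for all ξ}`. -/
noncomputable def JJ : Submodule ℝ (AA S) where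
  carrier := {η | ∀ ξ : AA S, EE P Y hY (mulA S ξ η) = 0}
  add_mem' := by
    intro a b ha hb ξ
    rw [map_add, map_add, ha ξ, hb ξ, add_zero]
  zero_mem' := by
    intro ξ
    rw [map_zero, map_zero]
  smul_mem' := by
    intro c a ha ξ
    rw [map_smul, map_smul, ha ξ, smul_zero]

/-- The stochastic module `L = A / J` of the random sequence `Y`. -/
abbrev LL : Type _ := AA S ⧸ JJ P Y hY

end

section
variable {Ω : Type*} [MeasurableSpace Ω] {S : Type*} [MeasurableSpace S]

/-- `X` is a time-homogeneous Markov process with initial law `p` and transition function `κ`: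
the law of `X_0` is `p` and the conditional law of `X_{n+1}` given `X_0,…,X_n` is
`κ (X_n, ·)`. -/
structure IsMarkovProc (P : Measure Ω) (X : ℕ → Ω → S) (p : Measure S) (κ : Kernel S S) :
    Prop where
  meas : ∀ n, Measurable (X n)
  init : P.map (X 0) = p
  step : ∀ n, P.map (fun ω => ((fun i : Fin (n + 1) => X i ω), X (n + 1) ω))
    = (P.map (fun ω (i : Fin (n + 1)) => X i ω)) ⊗ₘ
        (κ.comap (fun h : Fin (n + 1) → S => h (Fin.last n)) (measurable_pi_apply _))

/-- The Markov process is of rank `r`: `κ(x,B) = ∑_j a_j(x) b_j(B)` with `r` measurable functions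
`a_j` and `r` finite signed measures `b_j`, the `b_j` linearly independent and the `a_j`
satisfying no nontrivial linear relation outside a null set (a set which no `X_n` charges). -/
def IsOfRank (P : Measure Ω) (X : ℕ → Ω → S) (κ : Kernel S S) (r : ℕ) : Prop :=
  ∃ (a : Fin r → S → ℝ) (b : Fin r → SignedMeasure S),
    (∀ j, Measurable (a j)) ∧
    (∀ x B, MeasurableSet B → (κ x).real B = ∑ j, a j x * b j B) ∧
    LinearIndependent ℝ b ∧
    ∀ (c : Fin r → ℝ) (N : Set S), MeasurableSet N → (∀ n, P (X n ⁻¹' N) = 0) →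
      (∀ x ∉ N, ∑ j, c j * a j x = 0) → c = 0

/-- The Markov process is of finite rank. -/
def IsOfFiniteRank (P : Measure Ω) (X : ℕ → Ω → S) (κ : Kernel S S) : Prop :=
  ∃ r, IsOfRank P X κ r

end

end Pool.Agent.Q297.Sto
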