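import Pool.Agent.Q297.StoRen

/-!
The stochastic module of the renewal process is finite dimensional.
-/

open MeasureTheory ProbabilityTheory Filter Topology ComplexConjugate

namespace Pool.Agent.Q297.Sto

lemma law_singleton (N : ℕ) (w : Fin N → Bool) :
    (PP.map (fun ω (i : Fin N) => YY i ω)).real {w} = R 0 (List.ofFn w) := by
  have hm : Measurable (fun ω (i : Fin N) => YY i ω) := measurable_pi_lambda _ fun i => YY_meas i
  rw [Measure.real, Measure.map_apply hm (measurableSet_singleton w)]
  let w' : ℕ → Bool := fun i => if h : i < N then w ⟨i, h⟩ else false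
  have e : (fun ω (i : Fin N) => YY i ω) ⁻¹' {w} = {ω | ∀ i < N, YY i ω = w' i} := by
    ext ω
    rw [Set.mem_preimage, Set.mem_singleton_iff, Set.mem_ofPred_eq, funext_iff]
    constructor
    · intro h i hi
      have := h ⟨i, hi⟩
      simp only [w', hi, dif_pos]
      exact this
    · intro h i
      have := h i i.2
      simp only [w', i.2, dif_pos] at this
      exact this
  have e2 : ini w' N = List.ofFn w := by
    apply List.ext_getElem
    · simp [ini]
    · intro i h1 h2
      have hi : i < N := by simpa using h2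
      simp [ini, w', hi]
  rw [e, PP_word, e2, ENNReal.toReal_ofReal]
  have : ∀ (v : List Bool) (k : ℕ), 0 ≤ R k v := by
    intro v
    induction v with
    | nil => intro k; simp [R]
    | cons a v ihv =>
      intro k
      cases a with
      | true => simp only [R]; exact mul_nonneg (hz_nonneg k) (ihv _)
      | false =>
        simp only [R]
        exact mul_nonneg (by linarith [hz_le_one k]) (ihv _)
  exact this _ _

lemma EN_eq (n : ℕ) (f : An Bool n) :
    EN PP YY YY_meas n f = ∑ w : Fin n → Bool, f.1 w * R 0 (List.ofFn w) := by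
  have hm : Measurable (fun ω (i : Fin n) => YY i ω) := measurable_pi_lambda _ fun i => YY_meas i
  have h1 : EN PP YY YY_meas n f = ∫ x, f.1 x ∂(PP.map (fun ω (i : Fin n) => YY i ω)) := by
    rw [integral_map hm.aemeasurable f.2.1.aestronglyMeasurable]
    rfl
  have : IsProbabilityMeasure (PP.map (fun ω (i : Fin n) => YY i ω)) :=
    Measure.isProbabilityMeasure_map hm.aemeasurable
  rw [h1, integral_fintype (Integrable.of_finite)]
  refine Finset.sum_congr rfl fun w _ => ?_
  rw [law_singleton, smul_eq_mul, mul_comm]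

lemma mulA_lof (m n : ℕ) (f : An Bool m) (g : An Bool n) :
    mulA Bool (inA Bool m f) (inA Bool n g) = inA Bool (m + n) (concFun f g) := by
  have h1 : mulA Bool (inA Bool m f) = (mulH Bool m).flip f :=
    DirectSum.toModule_lof (R := ℝ) (ι := ℕ) (M := An Bool) m f
  have h2 : mulH Bool m (inA Bool n g)
      = LinearMap.flip ((conc Bool m n).compr₂ (inA Bool (m + n))) g :=
    DirectSum.toModule_lof (R := ℝ) (ι := ℕ) (M := An Bool) n g
  rw [h1, LinearMap.flip_apply, h2]
  rfl

lemma AA_induction {C : AA Bool → Prop} (η : AA Bool) (h0 : C 0)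
    (hin : ∀ n (g : An Bool n), C (inA Bool n g)) (hadd : ∀ x y, C x → C y → C (x + y)) : C η :=
  DirectSum.induction_on (β := An Bool) (motive := C) η h0 hin hadd

lemma EE_mulA (m n : ℕ) (f : An Bool m) (g : An Bool n) :
    EE PP YY YY_meas (mulA Bool (inA Bool m f) (inA Bool n g))
    = ∑ u : Fin m → Bool, ∑ v : Fin n → Bool, f.1 u * g.1 v *
      (R 0 (List.ofFn u) * R (ageL 0 (List.ofFn u)) (List.ofFn v)) := by
  rw [mulA_lof]
  have h1 : EE PP YY YY_meas (inA Bool (m + n) (concFun f g))
      = EN PP YY YY_meas (m + n) (concFun f g) :=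
    DirectSum.toModule_lof (R := ℝ) (ι := ℕ) (M := An Bool) _ _
  rw [h1, EN_eq, ← (Fin.appendEquiv m n).sum_comp, Fintype.sum_prod_type]
  refine Finset.sum_congr rfl fun u _ => Finset.sum_congr rfl fun v _ => ?_
  have h2 : (Fin.appendEquiv m n) (u, v) = Fin.append u v := rfl
  have h3 : (concFun f g).1 (Fin.append u v) = f.1 u * g.1 v := by
    show f.1 (fun i => Fin.append u v (Fin.castAdd n i))
      * g.1 (fun j => Fin.append u v (Fin.natAdd m j)) = _
    simp only [Fin.append_left, Fin.append_right]
  have h4 : List.ofFn (Fin.append u v) = List.ofFn u ++ List.ofFn v :=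
    List.ofFn_fin_append u v
  rw [h2, h3, h4, R_append]

/-- Coefficients. -/
noncomputable def al (v : List Bool) : ℝ := (exists_ab v).choose

/-- Coefficients. -/
noncomputable def be (v : List Bool) : ℂ := (exists_ab v).choose_spec.choose

lemma al_be (v : List Bool) (k : ℕ) :
    Fb k * R k v = (1/2) ^ k * (al v + (be v * zz ^ k).re) :=
  (exists_ab v).choose_spec.choose_spec k

/-- The map to a three dimensional space, on homogeneous elements. -/
noncomputable def PhiN (n : ℕ) : An Bool n →ₗ[ℝ] (ℝ × ℂ) where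
  toFun g := (∑ v : Fin n → Bool, g.1 v * al (List.ofFn v),
    ∑ v : Fin n → Bool, g.1 v • be (List.ofFn v))
  map_add' := by
    intro f g
    refine Prod.ext ?_ ?_
    · show ∑ v : Fin n → Bool, (f.1 v + g.1 v) * al (List.ofFn v) = _ + _
      rw [← Finset.sum_add_distrib]
      exact Finset.sum_congr rfl fun v _ => by ring
    · show ∑ v : Fin n → Bool, (f.1 v + g.1 v) • be (List.ofFn v) = _ + _
      rw [← Finset.sum_add_distrib]
      exact Finset.sum_congr rfl fun v _ => add_smul _ _ _
  map_smul' := by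
    intro c g
    refine Prod.ext ?_ ?_
    · show ∑ v : Fin n → Bool, (c * g.1 v) * al (List.ofFn v) = c * _
      rw [Finset.mul_sum]
      exact Finset.sum_congr rfl fun v _ => by ring
    · show ∑ v : Fin n → Bool, (c * g.1 v) • be (List.ofFn v) = c • _
      rw [Finset.smul_sum]
      exact Finset.sum_congr rfl fun v _ => mul_smul _ _ _

/-- The map to a three dimensional space. -/
noncomputable def Phi : AA Bool →ₗ[ℝ] (ℝ × ℂ) := DirectSum.toModule ℝ ℕ (ℝ × ℂ) PhiN

lemma Phi_lof (n : ℕ) (g : An Bool n) : Phi (inA Bool n g) = PhiN n g :=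
  DirectSum.toModule_lof (R := ℝ) (ι := ℕ) (M := An Bool) _ _

lemma key_identity (m : ℕ) (f : An Bool m) (η : AA Bool) :
    EE PP YY YY_meas (mulA Bool (inA Bool m f) η)
    = ∑ u : Fin m → Bool, (f.1 u * R 0 (List.ofFn u) * (Fb (ageL 0 (List.ofFn u)))⁻¹ *
      (1/2) ^ (ageL 0 (List.ofFn u))) *
      ((Phi η).1 + ((Phi η).2 * zz ^ (ageL 0 (List.ofFn u))).re) := by
  induction η using AA_induction with
  | h0 =>
    rw [map_zero, map_zero, map_zero]
    simp
  | hin n g =>
    rw [EE_mulA, Phi_lof]
    refine Finset.sum_congr rfl fun u _ => ?_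
    set k := ageL 0 (List.ofFn u) with hk
    have h3 : ∀ v : Fin n → Bool, R k (List.ofFn v)
        = (Fb k)⁻¹ * ((1/2) ^ k * (al (List.ofFn v) + (be (List.ofFn v) * zz ^ k).re)) := by
      intro v
      rw [← al_be, ← mul_assoc, inv_mul_cancel₀ (Fb_pos k).ne', one_mul]
    have h4 : (PhiN n g).1 = ∑ v : Fin n → Bool, g.1 v * al (List.ofFn v) := rfl
    have h5 : (PhiN n g).2 = ∑ v : Fin n → Bool, g.1 v • be (List.ofFn v) := rfl
    rw [h4, h5, Finset.sum_mul, Complex.re_sum, ← Finset.sum_add_distrib, Finset.mul_sum]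
    refine Finset.sum_congr rfl fun v _ => ?_
    rw [h3]
    have h6 : (g.1 v • be (List.ofFn v) * zz ^ k).re = g.1 v * (be (List.ofFn v) * zz ^ k).re := by
      rw [Complex.real_smul, mul_assoc, Complex.re_ofReal_mul]
    rw [h6]
    ring
  | hadd x y hx hy =>
    rw [map_add, map_add, map_add, hx, hy, ← Finset.sum_add_distrib]
    refine Finset.sum_congr rfl fun u _ => ?_
    rw [Prod.fst_add, Prod.snd_add, add_mul, Complex.add_re]
    ring

lemma ker_le : LinearMap.ker Phi ≤ JJ PP YY YY_meas := by
  intro η hη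
  have h0 : Phi η = 0 := hη
  intro ξ
  induction ξ using AA_induction with
  | h0 =>
    rw [map_zero, LinearMap.zero_apply, map_zero]
  | hin n g =>
    rw [key_identity, h0]
    simp
  | hadd x y hx hy =>
    rw [map_add, LinearMap.add_apply, map_add, hx, hy, add_zero]

theorem finite_LL : FiniteDimensional ℝ (LL PP YY YY_meas) := by
  have h1 : FiniteDimensional ℝ (AA Bool ⧸ LinearMap.ker Phi) :=
    Module.Finite.equiv (Phi.quotKerEquivRange).symm
  exact Module.Finite.of_surjective (Submodule.factor ker_le)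
    (Submodule.factor_surjective ker_le)

theorem finrank_LL : Module.finrank ℝ (LL PP YY YY_meas) ≤ 3 := by
  have h1 : FiniteDimensional ℝ (AA Bool ⧸ LinearMap.ker Phi) :=
    Module.Finite.equiv (Phi.quotKerEquivRange).symm
  have h2 : Module.finrank ℝ (LL PP YY YY_meas)
      ≤ Module.finrank ℝ (AA Bool ⧸ LinearMap.ker Phi) :=
    LinearMap.finrank_le_finrank_of_surjective (Submodule.factor_surjective ker_le)
  have h3 : Module.finrank ℝ (AA Bool ⧸ LinearMap.ker Phi)
      = Module.finrank ℝ (LinearMap.range Phi) := LinearEquiv.finrank_eq Phi.quotKerEquivRange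
  have h4 : Module.finrank ℝ (LinearMap.range Phi) ≤ Module.finrank ℝ (ℝ × ℂ) :=
    Submodule.finrank_le _
  have h5 : Module.finrank ℝ (ℝ × ℂ) = 3 := by
    rw [Module.finrank_prod, Module.finrank_self, Complex.finrank_real_complex]
  omega

end Pool.Agent.Q297.Sto
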