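import Pool.Agent.Q297.StoPos

/-!
Phase alignment and the final contradiction.
-/

open MeasureTheory ProbabilityTheory Filter Topology Polynomial ComplexConjugate

namespace Pool.Agent.Q297.Sto

variable {S : Type*} [MeasurableSpace S]
variable (κ : Kernel S S) [IsFiniteKernel κ] (ν : ℕ → Measure S) [∀ i, IsFiniteMeasure (ν i)]

/-- The seminorm given by the generalized limit of weighted averages. -/
noncomputable def NN {lam : ℝ} (hlam : 0 < lam) {K : ℝ}
    (hK : ∀ i, (ν i).real Set.univ ≤ K * lam ^ i) : Seminorm ℂ (BMC S) :=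
  Seminorm.of (fun g => Lam ν lam (fun x => ‖g.1 x‖))
    (by
      intro f g
      rw [← Lam_add hlam hK (BM_norm f) (BM_norm g)]
      exact Lam_mono hlam hK (BM_norm (f + g)) ((BM_norm f).add (BM_norm g))
        (fun x => norm_add_le _ _))
    (by
      intro c f
      rw [← Lam_const_mul hlam hK (BM_norm f) ‖c‖]
      congr 1
      funext x
      exact norm_smul c (f.1 x))

variable {ν}

lemma NN_apply {lam : ℝ} (hlam : 0 < lam) {K : ℝ}
    (hK : ∀ i, (ν i).real Set.univ ≤ K * lam ^ i) (g : BMC S) :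
    NN ν hlam hK g = Lam ν lam (fun x => ‖g.1 x‖) := rfl

lemma NN_opT {lam : ℝ} (hlam : 0 < lam) {K : ℝ}
    (hK : ∀ i, (ν i).real Set.univ ≤ K * lam ^ i) (hν : ∀ i, ν (i + 1) = (ν i).bind κ)
    (g : BMC S) : NN ν hlam hK (opT κ g) ≤ lam * NN ν hlam hK g := by
  rw [NN_apply, NN_apply, ← Lam_opR κ hlam hK hν (BM_norm g)]
  refine Lam_mono hlam hK (BM_norm _) ((BM_norm g).opR κ) fun x => ?_
  exact norm_integral_le_integral_norm _

/-- The phase of a complex number, one at zero. -/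
noncomputable def ph (z : ℂ) : ℂ := if z = 0 then 1 else z / (‖z‖ : ℂ)

lemma ph_norm (z : ℂ) : ‖ph z‖ = 1 := by
  unfold ph
  split_ifs with h
  · simp
  · have : ‖z‖ ≠ 0 := norm_ne_zero_iff.2 h
    rw [norm_div, Complex.norm_real, norm_norm, div_self this]

lemma ph_mul (z : ℂ) : (‖z‖ : ℂ) * ph z = z := by
  unfold ph
  split_ifs with h
  · simp [h]
  · have : (‖z‖ : ℂ) ≠ 0 := by exact_mod_cast norm_ne_zero_iff.2 h
    field_simp

lemma ph_measurable : Measurable ph := by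
  unfold ph
  refine Measurable.ite (measurableSet_singleton 0) measurable_const ?_
  exact measurable_id.div (Complex.measurable_ofReal.comp measurable_norm)

/-- The function with phase multiplied. -/
noncomputable def gk (g : BMC S) (k : ℕ) : BMC S :=
  ⟨fun x => (‖g.1 x‖ : ℂ) * ph (g.1 x) ^ k, by
    obtain ⟨hm, C, hC⟩ := g.2
    refine ⟨(Complex.measurable_ofReal.comp hm.norm).mul ((ph_measurable.comp hm).pow_const k),
      C, fun x => ?_⟩
    rw [norm_mul, norm_pow, ph_norm, one_pow, mul_one, Complex.norm_real, norm_norm]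
    exact hC x⟩

lemma gk_apply (g : BMC S) (k : ℕ) (x : S) :
    (gk g k).1 x = (‖g.1 x‖ : ℂ) * ph (g.1 x) ^ k := rfl

lemma gk_norm (g : BMC S) (k : ℕ) (x : S) : ‖(gk g k).1 x‖ = ‖g.1 x‖ := by
  rw [gk_apply, norm_mul, norm_pow, ph_norm, one_pow, mul_one, Complex.norm_real, norm_norm]

lemma pow_sub_pow_unit {u v : ℂ} (hu : ‖u‖ = 1) (hv : ‖v‖ = 1) (k : ℕ) :
    ‖u ^ k - v ^ k‖ ≤ k * ‖u - v‖ := by
  induction k with
  | zero => simp
  | succ k ih =>
    have e : u ^ (k+1) - v ^ (k+1) = u * (u ^ k - v ^ k) + (u - v) * v ^ k := by ring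
    rw [e]
    refine (norm_add_le _ _).trans ?_
    rw [norm_mul, norm_mul, norm_pow, hu, hv, one_pow, one_mul, mul_one]
    push_cast
    linarith

lemma norm_sub_sq_unit {u v : ℂ} (hu : ‖u‖ = 1) (hv : ‖v‖ = 1) :
    ‖u - v‖ ^ 2 = 2 - 2 * (conj v * u).re := by
  have h1 : Complex.normSq u = 1 := by rw [Complex.normSq_eq_norm_sq, hu]; norm_num
  have h2 : Complex.normSq v = 1 := by rw [Complex.normSq_eq_norm_sq, hv]; norm_num
  rw [← Complex.normSq_eq_norm_sq]
  simp only [Complex.normSq_apply, Complex.sub_re, Complex.sub_im, Complex.mul_re,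
    Complex.conj_re, Complex.conj_im] at *
  nlinarith

/-- The pointwise estimate. -/
lemma pointwise (g : BMC S) {lam : ℝ} {z : ℂ} (hz : ‖z‖ = 1) (k : ℕ) {ε : ℝ}
    (hε : 0 < ε) (x : S) :
    ‖(opT κ (gk g k) - ((lam : ℂ) * z ^ k) • gk g k).1 x‖
      ≤ (k * ε) * opR κ (fun y => ‖g.1 y‖) x
        + (2 * k / ε) * (|opR κ (fun y => ‖g.1 y‖) x - lam * ‖g.1 x‖|
            + ‖(opT κ g - ((lam : ℂ) * z) • g).1 x‖)
        + |opR κ (fun y => ‖g.1 y‖) x - lam * ‖g.1 x‖| := by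
  set G : S → ℝ := fun y => ‖g.1 y‖ with hG
  set w : S → ℂ := fun y => ph (g.1 y) with hw
  set ζ : ℂ := z * w x with hζ
  have hζ1 : ‖ζ‖ = 1 := by rw [hζ, norm_mul, hz, ph_norm, one_mul]
  have hw1 : ∀ y, ‖w y‖ = 1 := fun y => ph_norm _
  have hGint : Integrable G (κ x) := (BM_norm g).integrable _
  have hgm := g.2.1
  have hwm : Measurable w := ph_measurable.comp hgm
  have hG0 : ∀ y, 0 ≤ G y := fun y => norm_nonneg _
  -- second moment
  have hsq : ∫ y, G y * ‖w y - ζ‖ ^ 2 ∂κ x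
      = 2 * opR κ G x - 2 * (conj ζ * (opT κ g).1 x).re := by
    have e1 : ∀ y, G y * ‖w y - ζ‖ ^ 2 = 2 * G y - 2 * (conj ζ * g.1 y).re := by
      intro y
      rw [norm_sub_sq_unit (hw1 y) hζ1]
      have : g.1 y = (G y : ℂ) * w y := (ph_mul (g.1 y)).symm
      rw [this]
      have e : (conj ζ * ((G y : ℂ) * w y)).re = G y * (conj ζ * w y).re := by
        rw [show conj ζ * ((G y : ℂ) * w y) = (G y : ℂ) * (conj ζ * w y) by ring,
          Complex.re_ofReal_mul]
      rw [e]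
      ring
    simp_rw [e1]
    have hgint : Integrable g.1 (κ x) := BMC_integrable g _
    have hre : Integrable (fun y => (conj ζ * g.1 y).re) (κ x) := (hgint.const_mul (conj ζ)).re
    rw [integral_sub (hGint.const_mul 2) (hre.const_mul 2), integral_const_mul,
      integral_const_mul]
    have e2 : ∫ y, (conj ζ * g.1 y).re ∂κ x = (conj ζ * (opT κ g).1 x).re := by
      rw [opT_apply, ← integral_const_mul]
      exact integral_re (hgint.const_mul (conj ζ))
    rw [e2]
    rfl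
  set h : ℝ := opR κ G x - lam * G x with hh
  set e : ℝ := ‖(opT κ g - ((lam : ℂ) * z) • g).1 x‖ with he
  have he' : e = ‖(opT κ g).1 x - ((lam : ℂ) * z) * g.1 x‖ := rfl
  have hgx : g.1 x = (G x : ℂ) * w x := (ph_mul (g.1 x)).symm
  have hcc : conj ζ * ζ = 1 := by
    rw [mul_comm, Complex.mul_conj, Complex.normSq_eq_norm_sq, hζ1]; norm_num
  have hsq2 : ∫ y, G y * ‖w y - ζ‖ ^ 2 ∂κ x ≤ 2 * |h| + 2 * e := by
    rw [hsq]
    have e3 : lam * G x = (conj ζ * (((lam : ℂ) * z) * g.1 x)).re := by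
      rw [hgx]
      have : conj ζ * (((lam : ℂ) * z) * ((G x : ℂ) * w x)) = ((lam * G x : ℝ) : ℂ) := by
        push_cast
        calc conj ζ * (((lam : ℂ) * z) * ((G x : ℂ) * w x))
            = (conj ζ * (z * w x)) * ((lam : ℂ) * (G x : ℂ)) := by ring
          _ = (lam : ℂ) * (G x : ℂ) := by rw [← hζ, hcc, one_mul]
      rw [this, Complex.ofReal_re]
    have e4 : lam * G x - (conj ζ * (opT κ g).1 x).re ≤ e := by
      rw [e3, ← Complex.sub_re, ← mul_sub]
      refine (Complex.re_le_norm _).trans ?_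
      rw [norm_mul, RCLike.norm_conj, hζ1, one_mul, norm_sub_rev, he']
    have e5 : opR κ G x - lam * G x ≤ |h| := le_abs_self _
    linarith
  -- first moment
  have hsqint : Integrable (fun y => G y * ‖w y - ζ‖ ^ 2) (κ x) := by
    obtain ⟨C, hC⟩ := g.2.2
    refine Integrable.of_bound (C := |C| * 2 ^ 2)
      ((hgm.norm.mul ((hwm.sub_const ζ).norm.pow_const 2)).aestronglyMeasurable)
      (ae_of_all _ fun y => ?_)
    rw [Real.norm_eq_abs, abs_of_nonneg (mul_nonneg (hG0 y) (sq_nonneg _))]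
    have h2 : ‖w y - ζ‖ ≤ 2 := by
      refine (norm_sub_le _ _).trans ?_
      rw [hw1, hζ1]; norm_num
    have h3 : G y ≤ |C| := (hC y).trans (le_abs_self C)
    have h4 : ‖w y - ζ‖ ^ 2 ≤ 2 ^ 2 := by gcongr
    exact mul_le_mul h3 h4 (by positivity) (abs_nonneg C)
  have hnorm : ‖∫ y, (G y : ℂ) * (w y ^ k - ζ ^ k) ∂κ x‖
      ≤ (k * ε) * opR κ G x + (2 * k / ε) * (|h| + e) := by
    calc ‖∫ y, (G y : ℂ) * (w y ^ k - ζ ^ k) ∂κ x‖
        ≤ ∫ y, ((k * ε) * G y + (k / ε) * (G y * ‖w y - ζ‖ ^ 2)) ∂κ x := by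
          refine norm_integral_le_of_norm_le ((hGint.const_mul _).add (hsqint.const_mul _))
            (ae_of_all _ fun y => ?_)
          rw [norm_mul, Complex.norm_real, Real.norm_eq_abs, abs_of_nonneg (hG0 y)]
          have h5 := pow_sub_pow_unit (hw1 y) hζ1 k
          have h6 : ‖w y - ζ‖ ≤ ε + ‖w y - ζ‖ ^ 2 / ε := by
            set t := ‖w y - ζ‖ with ht
            have : 0 ≤ t := norm_nonneg _
            rw [← sub_nonneg]
            have e7 : ε + t ^ 2 / ε - t = (ε ^ 2 + t ^ 2 - t * ε) / ε := by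
              field_simp
            rw [e7]
            apply div_nonneg _ hε.le
            nlinarith [sq_nonneg (t - ε), sq_nonneg (t + ε)]
          calc G y * ‖w y ^ k - ζ ^ k‖ ≤ G y * (k * ‖w y - ζ‖) :=
                mul_le_mul_of_nonneg_left h5 (hG0 y)
            _ ≤ G y * (k * (ε + ‖w y - ζ‖ ^ 2 / ε)) := by
                have : (0:ℝ) ≤ k := Nat.cast_nonneg k
                have := hG0 y
                gcongr
            _ = (k * ε) * G y + (k / ε) * (G y * ‖w y - ζ‖ ^ 2) := by ring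
      _ = (k * ε) * opR κ G x + (k / ε) * ∫ y, G y * ‖w y - ζ‖ ^ 2 ∂κ x := by
          rw [integral_add (hGint.const_mul _) (hsqint.const_mul _), integral_const_mul,
            integral_const_mul]
          rfl
      _ ≤ (k * ε) * opR κ G x + (k / ε) * (2 * |h| + 2 * e) := by
          have : (0:ℝ) ≤ k / ε := by positivity
          gcongr
      _ = (k * ε) * opR κ G x + (2 * k / ε) * (|h| + e) := by ring
  -- final identity
  have hfin : (opT κ (gk g k) - ((lam : ℂ) * z ^ k) • gk g k).1 x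
      = (∫ y, (G y : ℂ) * (w y ^ k - ζ ^ k) ∂κ x) + (h : ℂ) * ζ ^ k := by
    have e8 : (opT κ (gk g k) - ((lam : ℂ) * z ^ k) • gk g k).1 x
        = (opT κ (gk g k)).1 x - ((lam : ℂ) * z ^ k) * (gk g k).1 x := rfl
    rw [e8, opT_apply]
    have hint1 : Integrable (gk g k).1 (κ x) := BMC_integrable _ _
    have hint2 : Integrable (fun y => (G y : ℂ) * ζ ^ k) (κ x) :=
      (hGint.ofReal).mul_const _
    have e9 : ∫ y, (G y : ℂ) * (w y ^ k - ζ ^ k) ∂κ x
        = (∫ y, (gk g k).1 y ∂κ x) - (opR κ G x : ℂ) * ζ ^ k := by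
      have e10 : ∀ y, (G y : ℂ) * (w y ^ k - ζ ^ k) = (gk g k).1 y - (G y : ℂ) * ζ ^ k := by
        intro y
        rw [gk_apply]
        ring
      simp_rw [e10]
      rw [integral_sub hint1 hint2, integral_mul_const]
      congr 2
      exact integral_ofReal
    rw [e9, gk_apply, hh]
    push_cast
    have e11 : ζ ^ k = z ^ k * w x ^ k := by rw [hζ, mul_pow]
    rw [e11]
    ring
  rw [hfin]
  refine (norm_add_le _ _).trans ?_
  have e12 : ‖(h : ℂ) * ζ ^ k‖ = |h| := by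
    rw [norm_mul, norm_pow, hζ1, one_pow, mul_one, Complex.norm_real, Real.norm_eq_abs]
  rw [e12]
  linarith

/-- Phase alignment: powers of the phase give further peripheral eigenfunctions. -/
lemma phase {lam : ℝ} (hlam : 0 < lam) {K : ℝ}
    (hK : ∀ i, (ν i).real Set.univ ≤ K * lam ^ i) (hν : ∀ i, ν (i + 1) = (ν i).bind κ)
    (g : BMC S) {z : ℂ} (hz : ‖z‖ = 1)
    (hg : NN ν hlam hK (opT κ g - ((lam : ℂ) * z) • g) = 0) (k : ℕ) :
    NN ν hlam hK (opT κ (gk g k) - ((lam : ℂ) * z ^ k) • gk g k) = 0 := by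
  set G : S → ℝ := fun y => ‖g.1 y‖ with hG
  have hGB : BM G := BM_norm g
  have hRB : BM (opR κ G) := hGB.opR κ
  set h : S → ℝ := fun x => opR κ G x - lam * G x with hh
  have hhB : BM h := hRB.sub (hGB.const_mul lam)
  set e : S → ℝ := fun x => ‖(opT κ g - ((lam : ℂ) * z) • g).1 x‖ with he
  have heB : BM e := BM_norm _
  have he0 : Lam ν lam e = 0 := hg
  have hh0 : Lam ν lam h = 0 := by
    have h1 : Lam ν lam (fun x => h x + lam * G x) = Lam ν lam h + Lam ν lam (fun x => lam * G x) :=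
      Lam_add hlam hK hhB (hGB.const_mul lam)
    have h2 : (fun x => h x + lam * G x) = opR κ G := by
      funext x; rw [hh]; ring
    rw [h2, Lam_opR κ hlam hK hν hGB, Lam_const_mul hlam hK hGB] at h1
    linarith
  have hlow : ∀ x, |h x| ≤ h x + 2 * e x := by
    intro x
    have h3 : lam * G x ≤ opR κ G x + e x := by
      have h4 : lam * G x = ‖((lam : ℂ) * z) * g.1 x‖ := by
        rw [norm_mul, norm_mul, hz, mul_one, Complex.norm_real, Real.norm_eq_abs, abs_of_pos hlam]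
      rw [h4]
      have h5 : ((lam : ℂ) * z) * g.1 x
          = (opT κ g).1 x - ((opT κ g).1 x - ((lam : ℂ) * z) * g.1 x) := by ring
      rw [h5]
      refine (norm_sub_le _ _).trans ?_
      gcongr
      · exact norm_integral_le_integral_norm _
      · exact le_refl _
    have h6 : 0 ≤ e x := norm_nonneg _
    rw [abs_le]
    constructor
    · have : h x = opR κ G x - lam * G x := rfl
      linarith
    · linarith
  have habs0 : Lam ν lam (fun x => |h x|) = 0 := by
    refine le_antisymm ?_ (Lam_nonneg hlam hK hhB.abs fun x => abs_nonneg _)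
    refine (Lam_mono hlam hK hhB.abs (hhB.add (heB.const_mul 2)) hlow).trans ?_
    rw [Lam_add hlam hK hhB (heB.const_mul 2), Lam_const_mul hlam hK heB, hh0, he0]
    simp
  refine le_antisymm ?_ (apply_nonneg _ _)
  have key : ∀ ε : ℝ, 0 < ε → NN ν hlam hK (opT κ (gk g k) - ((lam : ℂ) * z ^ k) • gk g k)
      ≤ (k * (lam * Lam ν lam G)) * ε := by
    intro ε hε
    rw [NN_apply]
    have hA : BM (fun x => (k * ε) * opR κ G x) := hRB.const_mul _
    have hB : BM (fun x => (2 * k / ε) * (|h x| + e x)) := (hhB.abs.add heB).const_mul _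
    have hC : BM (fun x => |h x|) := hhB.abs
    have hle := Lam_mono hlam hK (BM_norm (opT κ (gk g k) - ((lam : ℂ) * z ^ k) • gk g k))
      ((hA.add hB).add hC) (fun x => pointwise κ g hz k hε x)
    refine hle.trans ?_
    rw [Lam_add hlam hK (hA.add hB) hC, Lam_add hlam hK hA hB, Lam_const_mul hlam hK hRB,
      Lam_const_mul hlam hK (hhB.abs.add heB), Lam_add hlam hK hhB.abs heB, habs0, he0,
      Lam_opR κ hlam hK hν hGB]
    apply le_of_eq
    ring
  have hc0 : 0 ≤ k * (lam * Lam ν lam G) := by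
    have := Lam_nonneg hlam hK hGB (fun x => norm_nonneg _)
    positivity
  refine le_of_forall_pos_le_add fun δ hδ => ?_
  have hpos : 0 < k * (lam * Lam ν lam G) + 1 := by linarith
  refine (key (δ / (k * (lam * Lam ν lam G) + 1)) (by positivity)).trans ?_
  rw [zero_add, mul_div_assoc', div_le_iff₀ hpos]
  nlinarith

lemma NN_gk {lam : ℝ} (hlam : 0 < lam) {K : ℝ}
    (hK : ∀ i, (ν i).real Set.univ ≤ K * lam ^ i) (g : BMC S) (k : ℕ) :
    NN ν hlam hK (gk g k) = NN ν hlam hK g := by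
  rw [NN_apply, NN_apply]
  congr 1
  funext x
  exact gk_norm g k x

/-- Cesaro averages of powers of a unit different from one tend to zero. -/
lemma cesaro_unit {u : ℂ} (hu : ‖u‖ = 1) (hu1 : u ≠ 1) :
    Tendsto (fun n : ℕ => (1 / ((n:ℂ) + 1)) * ∑ i ∈ Finset.range (n+1), u ^ i) atTop (𝓝 0) := by
  have h1 : Tendsto (fun n : ℕ => (2 / ‖u - 1‖) * (1 / ((n:ℝ) + 1))) atTop (𝓝 0) := by
    have := tendsto_one_div_add_atTop_nhds_zero_nat (𝕜 := ℝ)
    simpa using this.const_mul (2 / ‖u - 1‖)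
  refine squeeze_zero_norm (fun n => ?_) h1
  rw [geom_sum_eq hu1, norm_mul, norm_div, norm_div]
  have h2 : ‖u ^ (n+1) - 1‖ ≤ 2 := by
    refine (norm_sub_le _ _).trans ?_
    rw [norm_pow, hu, one_pow, norm_one]; norm_num
  have h3 : ‖(n:ℂ) + 1‖ = (n:ℝ) + 1 := by
    have : (n:ℂ) + 1 = ((n+1 : ℕ) : ℂ) := by push_cast; ring
    rw [this, Complex.norm_natCast]; push_cast; ring
  rw [h3, norm_one]
  have h4 : 0 < ‖u - 1‖ := norm_pos_iff.2 (sub_ne_zero.2 hu1)
  calc 1 / ((n:ℝ) + 1) * (‖u ^ (n+1) - 1‖ / ‖u - 1‖)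
      ≤ 1 / ((n:ℝ) + 1) * (2 / ‖u - 1‖) := by gcongr
    _ = (2 / ‖u - 1‖) * (1 / ((n:ℝ) + 1)) := by ring

/-- The main contradiction. -/
theorem pos_contradiction (W : Submodule ℂ (S → ℂ)) [FiniteDimensional ℂ W]
    (hW : ∀ B, MeasurableSet B → (fun x => (((κ x).real B : ℝ) : ℂ)) ∈ W)
    {lam : ℝ} (hlam : 0 < lam) {K : ℝ}
    (hK : ∀ i, (ν i).real Set.univ ≤ K * lam ^ i) (hν : ∀ i, ν (i + 1) = (ν i).bind κ)
    (q : BMC S) {z : ℂ} (hz : ‖z‖ = 1) (hroot : ∀ n : ℕ, 0 < n → z ^ n ≠ 1) {a b b' : ℂ}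
    (hb : b ≠ 0)
    (hq : ∀ i, ∫ x, q.1 x ∂ν i = (lam : ℂ) ^ i * (a + b * z ^ i + b' * (conj z) ^ i)) : False := by
  have hfin := opT_range κ W hW
  have hT := NN_opT κ hlam hK hν
  have hlamC : (lam : ℂ) ≠ 0 := by exact_mod_cast hlam.ne'
  have hz0 : z ≠ 0 := by
    intro h
    rw [h, norm_zero] at hz
    exact zero_ne_one hz
  have hzc : conj z = z⁻¹ := by
    rw [Complex.inv_def, Complex.normSq_eq_norm_sq, hz]; simp
  -- integrals of iterates
  have hstep : ∀ (g : BMC S) (i : ℕ), ∫ x, (opT κ g).1 x ∂ν i = ∫ x, g.1 x ∂ν (i+1) := by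
    intro g i
    rw [hν i, integral_comp_real κ (ν i) g.1 g.2.1.stronglyMeasurable g.2.2]
    rfl
  have hiter : ∀ (j : ℕ) (i : ℕ), ∫ x, ((opT κ ^ j) q).1 x ∂ν i = ∫ x, q.1 x ∂ν (i+j) := by
    intro j
    induction j with
    | zero => intro i; simp
    | succ j ih =>
      intro i
      rw [pow_succ', Module.End.mul_apply, hstep, ih (i+1)]
      congr 2
      ring
  have hpoly : ∀ (ψ : ℂ[X]) (i : ℕ), ∫ x, (aeval (opT κ) ψ q).1 x ∂ν i
      = (lam : ℂ) ^ i * (a * ψ.eval (lam : ℂ) + b * ψ.eval ((lam : ℂ) * z) * z ^ i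
          + b' * ψ.eval ((lam : ℂ) * conj z) * (conj z) ^ i) := by
    intro ψ i
    induction ψ using Polynomial.induction_on' with
    | add p1 p2 h1 h2 =>
      rw [map_add, LinearMap.add_apply]
      have e : ∫ x, ((aeval (opT κ) p1) q + (aeval (opT κ) p2) q).1 x ∂ν i
          = ∫ x, ((aeval (opT κ) p1) q).1 x ∂ν i + ∫ x, ((aeval (opT κ) p2) q).1 x ∂ν i :=
        integral_add (BMC_integrable _ _) (BMC_integrable _ _)
      rw [e, h1, h2, eval_add, eval_add, eval_add]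
      ring
    | monomial n c =>
      rw [aeval_monomial, Module.End.mul_apply, Module.algebraMap_end_apply]
      have e : ∫ x, (c • ((opT κ ^ n) q)).1 x ∂ν i = c * ∫ x, ((opT κ ^ n) q).1 x ∂ν i :=
        integral_const_mul c _
      rw [e, hiter, hq, eval_monomial, eval_monomial, eval_monomial, mul_pow, mul_pow, pow_add,
        pow_add, pow_add]
      ring
  have hpos : ∀ ψ : ℂ[X], ψ.eval ((lam : ℂ) * z) ≠ 0 → NN ν hlam hK (aeval (opT κ) ψ q) ≠ 0 := by
    intro ψ hψ h0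
    set g := aeval (opT κ) ψ q with hg
    set A : ℂ := a * ψ.eval (lam : ℂ) with hA
    set B : ℂ := b * ψ.eval ((lam : ℂ) * z) with hB
    set B' : ℂ := b' * ψ.eval ((lam : ℂ) * conj z) with hB'
    -- complex averages
    set cav : ℕ → ℂ := fun n => (1 / ((n:ℂ) + 1)) * ∑ i ∈ Finset.range (n+1),
      ((lam : ℂ) ^ i)⁻¹ * (z⁻¹) ^ i * ∫ x, g.1 x ∂ν i with hcav
    have hb1 : ∀ n, ‖cav n‖ ≤ avg ν lam (fun x => ‖g.1 x‖) n := by
      intro n
      rw [hcav]
      unfold avg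
      simp only
      have h3 : ‖(n:ℂ) + 1‖ = (n:ℝ) + 1 := by
        have : (n:ℂ) + 1 = ((n+1 : ℕ) : ℂ) := by push_cast; ring
        rw [this, Complex.norm_natCast]; push_cast; ring
      rw [norm_mul, norm_div, h3, norm_one]
      refine mul_le_mul_of_nonneg_left ?_ (by positivity)
      refine (norm_sum_le _ _).trans (Finset.sum_le_sum fun i _ => ?_)
      rw [norm_mul, norm_mul, norm_inv, norm_pow, norm_pow, norm_inv, hz, inv_one, one_pow,
        mul_one, Complex.norm_real, Real.norm_eq_abs, abs_of_pos hlam]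
      refine mul_le_mul_of_nonneg_left (norm_integral_le_integral_norm _) (by positivity)
    have hlim0 : Tendsto cav (hyperfilter ℕ) (𝓝 0) := by
      have h4 := tendsto_Lam hlam hK (BM_norm g)
      have h5 : Lam ν lam (fun x => ‖g.1 x‖) = 0 := h0
      rw [h5] at h4
      exact squeeze_zero_norm hb1 h4
    have hcav2 : ∀ n, cav n = A * ((1 / ((n:ℂ) + 1)) * ∑ i ∈ Finset.range (n+1), (z⁻¹) ^ i)
        + B + B' * ((1 / ((n:ℂ) + 1)) * ∑ i ∈ Finset.range (n+1), (z⁻¹ * z⁻¹) ^ i) := by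
      intro n
      rw [hcav]
      simp only
      have e5 : ∀ i, ((lam : ℂ) ^ i)⁻¹ * (z⁻¹) ^ i * ∫ x, g.1 x ∂ν i
          = A * (z⁻¹) ^ i + B + B' * (z⁻¹ * z⁻¹) ^ i := by
        intro i
        rw [hpoly ψ i, hzc]
        have h6 : ((lam : ℂ) ^ i) ≠ 0 := pow_ne_zero _ hlamC
        have h7 : (z ^ i) ≠ 0 := pow_ne_zero _ hz0
        have h8 : (z⁻¹) ^ i * z ^ i = 1 := by rw [← mul_pow, inv_mul_cancel₀ hz0, one_pow]
        rw [mul_pow, hA, hB, hB', hzc]
        have h9 : ((lam : ℂ) ^ i)⁻¹ * (lam : ℂ) ^ i = 1 := inv_mul_cancel₀ h6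
        calc ((lam : ℂ) ^ i)⁻¹ * (z⁻¹) ^ i * ((lam : ℂ) ^ i * (a * eval (lam : ℂ) ψ
              + b * eval ((lam : ℂ) * z) ψ * z ^ i
              + b' * eval ((lam : ℂ) * z⁻¹) ψ * (z⁻¹) ^ i))
            = (((lam : ℂ) ^ i)⁻¹ * (lam : ℂ) ^ i) * (a * eval (lam : ℂ) ψ * (z⁻¹) ^ i
              + b * eval ((lam : ℂ) * z) ψ * ((z⁻¹) ^ i * z ^ i)
              + b' * eval ((lam : ℂ) * z⁻¹) ψ * ((z⁻¹) ^ i * (z⁻¹) ^ i)) := by ring
          _ = _ := by rw [h8, h9]; ring
      simp_rw [e5]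
      rw [Finset.sum_add_distrib, Finset.sum_add_distrib, Finset.sum_const, Finset.card_range,
        ← Finset.mul_sum, ← Finset.mul_sum, nsmul_eq_mul]
      have h10 : (n:ℂ) + 1 ≠ 0 := by
        have : (n:ℂ) + 1 = ((n+1 : ℕ) : ℂ) := by push_cast; ring
        rw [this]
        exact_mod_cast Nat.succ_ne_zero n
      push_cast
      field_simp
    have hu1 : ‖z⁻¹‖ = 1 := by rw [norm_inv, hz, inv_one]
    have hne1 : z⁻¹ ≠ 1 := by
      intro h
      apply hroot 1 one_pos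
      rw [pow_one, ← inv_inv z, h, inv_one]
    have hu2 : ‖z⁻¹ * z⁻¹‖ = 1 := by rw [norm_mul, hu1, one_mul]
    have hne2 : z⁻¹ * z⁻¹ ≠ 1 := by
      intro h
      apply hroot 2 two_pos
      have : (z ^ 2)⁻¹ = 1 := by rw [← h]; field_simp
      rw [← inv_inv (z ^ 2), this, inv_one]
    have hlimB : Tendsto cav atTop (𝓝 B) := by
      have h11 := ((cesaro_unit hu1 hne1).const_mul A).add (tendsto_const_nhds (x := B))
      have h12 := h11.add ((cesaro_unit hu2 hne2).const_mul B')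
      rw [mul_zero, mul_zero, zero_add, add_zero] at h12
      exact h12.congr fun n => (hcav2 n).symm
    have hlimB' : Tendsto cav (hyperfilter ℕ) (𝓝 B) := by
      refine hlimB.mono_left ?_
      rw [← Nat.cofinite_eq_atTop]
      exact hyperfilter_le_cofinite
    have hB0 : B = 0 := tendsto_nhds_unique hlimB' hlim0
    exact (mul_ne_zero hb hψ) hB0
  have hμ : ‖(lam : ℂ) * z‖ = lam := by
    rw [norm_mul, hz, mul_one, Complex.norm_real, Real.norm_eq_abs, abs_of_pos hlam]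
  obtain ⟨g, hg0, hge⟩ := exists_eigen (NN ν hlam hK) (opT κ) hlam hT hfin hμ q hpos
  refine no_many_eig (NN ν hlam hK) (opT κ) hT hfin (fun k => (lam : ℂ) * z ^ k) ?_ ?_
    (fun k => gk g k) ?_ ?_
  · intro j k hjk
    have h1 : z ^ j = z ^ k := mul_left_cancel₀ hlamC hjk
    by_contra hne
    rcases lt_or_gt_of_ne hne with h | h
    · apply hroot (k - j) (Nat.sub_pos_of_lt h)
      have : z ^ j * z ^ (k - j) = z ^ j * 1 := by
        rw [← pow_add, Nat.add_sub_cancel' h.le, mul_one, h1]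
      exact mul_left_cancel₀ (pow_ne_zero _ hz0) this
    · apply hroot (j - k) (Nat.sub_pos_of_lt h)
      have : z ^ k * z ^ (j - k) = z ^ k * 1 := by
        rw [← pow_add, Nat.add_sub_cancel' h.le, mul_one, h1]
      exact mul_left_cancel₀ (pow_ne_zero _ hz0) this
  · intro k
    exact mul_ne_zero hlamC (pow_ne_zero _ hz0)
  · intro k
    rw [NN_gk]
    exact hg0
  · intro k
    exact phase κ hlam hK hν g hz hge k

end Pool.Agent.Q297.Sto
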