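import Pool.Agent.Q297.StoDim
import Pool.Agent.Q297.StoPhase

/-!
The renewal process is not a function of a Markov process of finite rank.
-/

open MeasureTheory ProbabilityTheory Filter Topology ComplexConjugate

namespace Pool.Agent.Q297.Sto

lemma R_zeros (n : ℕ) : ∀ k, Fb k * R k (List.replicate n false) = Fb (k + n) := by
  induction n with
  | zero => intro k; simp [R]
  | succ n ih =>
    intro k
    rw [List.replicate_succ]
    simp only [R]
    rw [← mul_assoc, Fb_mul_one_sub_hz, ih (k+1)]
    congr 1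
    ring

lemma R_zeros_one (n : ℕ) : ∀ k, Fb k * R k (List.replicate n false ++ [true])
    = ff (k + n + 1) := by
  induction n with
  | zero => intro k; simp [R, Fb_mul_hz]
  | succ n ih =>
    intro k
    rw [List.replicate_succ, List.cons_append]
    simp only [R]
    rw [← mul_assoc, Fb_mul_one_sub_hz, ih (k+1)]
    congr 1
    ring

section
variable {Ω S : Type*} [MeasurableSpace Ω] [MeasurableSpace S]
variable (P : Measure Ω) [IsProbabilityMeasure P] (X : ℕ → Ω → S) (φ : S → Bool)

/-- The event that the first `i+1` letters are zero. -/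
def Ev (i : ℕ) : Set Ω := {ω | ∀ j ≤ i, φ (X j ω) = false}

/-- The law of `X_i` on the event that the first `i+1` letters are zero. -/
noncomputable def nu (i : ℕ) : Measure S := (P.restrict (Ev X φ i)).map (X i)

variable {P X φ}

lemma Ev_meas (hX : ∀ n, Measurable (X n)) (hφ : Measurable φ) (i : ℕ) :
    MeasurableSet (Ev X φ i) := by
  have : Ev X φ i = ⋂ j ∈ Set.Iic i, {ω | φ (X j ω) = false} := by
    ext ω; simp [Ev]
  rw [this]
  refine MeasurableSet.biInter (Set.to_countable _) fun j _ => ?_
  exact (hφ.comp (hX j)) (measurableSet_singleton false)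

instance nu_finite (i : ℕ) : IsFiniteMeasure (nu P X φ i) := by
  unfold nu
  infer_instance

lemma nu_kernel {p : Measure S} {κ : Kernel S S} [IsMarkovKernel κ] (hM : IsMarkovProc P X p κ)
    (hφ : Measurable φ) (i : ℕ) {C : Set S} (hC : MeasurableSet C) :
    ∫⁻ x, κ x C ∂(nu P X φ i) = P (Ev X φ i ∩ X (i+1) ⁻¹' C) := by
  have hX := hM.meas
  have hhist : Measurable (fun ω (j : Fin (i+1)) => X j ω) :=
    measurable_pi_lambda _ fun j => hX j
  have hH : MeasurableSet {h : Fin (i+1) → S | ∀ j, φ (h j) = false} := by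
    have : {h : Fin (i+1) → S | ∀ j, φ (h j) = false}
        = ⋂ j, {h : Fin (i+1) → S | φ (h j) = false} := by
      ext h; simp
    rw [this]
    refine MeasurableSet.iInter fun j => ?_
    exact (hφ.comp (measurable_pi_apply j)) (measurableSet_singleton false)
  have hpre : (fun ω (j : Fin (i+1)) => X j ω) ⁻¹' {h : Fin (i+1) → S | ∀ j, φ (h j) = false}
      = Ev X φ i := by
    ext ω
    constructor
    · intro h j hj
      exact h ⟨j, by omega⟩
    · intro h j
      exact h j (by omega)
  have hstep := hM.step i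
  have h1 : P (Ev X φ i ∩ X (i+1) ⁻¹' C)
      = P.map (fun ω => ((fun j : Fin (i + 1) => X j ω), X (i + 1) ω))
          ({h : Fin (i+1) → S | ∀ j, φ (h j) = false} ×ˢ C) := by
    rw [Measure.map_apply (hhist.prodMk (hX (i+1))) (hH.prod hC), ← hpre]
    rfl
  have hp : IsProbabilityMeasure (P.map (fun ω (j : Fin (i+1)) => X j ω)) :=
    Measure.isProbabilityMeasure_map hhist.aemeasurable
  rw [h1, hstep, Measure.compProd_apply_prod hH hC, setLIntegral_map hH _ hhist, hpre]
  · unfold nu
    rw [lintegral_map (κ.measurable_coe hC) (hX i)]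
    rfl
  · exact (κ.comap _ (measurable_pi_apply _)).measurable_coe hC

/-- The set of states with letter zero is measurable. -/
lemma Z_meas (hφ : Measurable φ) : MeasurableSet (φ ⁻¹' {false}) :=
  hφ (measurableSet_singleton false)

lemma nu_succ {p : Measure S} {κ : Kernel S S} [IsMarkovKernel κ] (hM : IsMarkovProc P X p κ)
    (hφ : Measurable φ) (i : ℕ) :
    nu P X φ (i+1) = (nu P X φ i).bind (κ.restrict (Z_meas hφ)) := by
  ext B hB
  rw [Measure.bind_apply hB (Kernel.aemeasurable _)]
  have h1 : ∀ x, (κ.restrict (Z_meas hφ)) x B = κ x (B ∩ φ ⁻¹' {false}) := by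
    intro x
    rw [Kernel.restrict_apply, Measure.restrict_apply hB]
  simp_rw [h1]
  rw [nu_kernel hM hφ i (hB.inter (Z_meas hφ))]
  unfold nu
  rw [Measure.map_apply (hM.meas _) hB, Measure.restrict_apply (hM.meas _ hB)]
  congr 1
  ext ω
  constructor
  · rintro ⟨h1, h2⟩
    exact ⟨fun j hj => h2 j (by omega), h1, h2 (i+1) le_rfl⟩
  · rintro ⟨h1, h2, h3⟩
    refine ⟨h2, fun j hj => ?_⟩
    rcases Nat.lt_succ_iff_lt_or_eq.1 (Nat.lt_succ_of_le hj) with h | h
    · exact h1 j (by omega)
    · rw [h]; exact h3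

lemma law_word (hX : ∀ n, Measurable (X n)) (hφ : Measurable φ)
    (hlaw : ∀ n, P.map (fun ω (i : Fin n) => φ (X i ω)) = PP.map (fun ω (i : Fin n) => YY i ω))
    (N : ℕ) (w : Fin N → Bool) :
    P.real {ω | ∀ i : Fin N, φ (X i ω) = w i} = R 0 (List.ofFn w) := by
  have hm : Measurable (fun ω (i : Fin N) => φ (X i ω)) :=
    measurable_pi_lambda _ fun i => hφ.comp (hX i)
  rw [← law_singleton N w, ← hlaw N, Measure.real, Measure.real,
    Measure.map_apply hm (measurableSet_singleton w)]
  congr 2
  ext ω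
  rw [Set.mem_preimage, Set.mem_singleton_iff, Set.mem_ofPred_eq, funext_iff]

lemma law_zeros (hX : ∀ n, Measurable (X n)) (hφ : Measurable φ)
    (hlaw : ∀ n, P.map (fun ω (i : Fin n) => φ (X i ω)) = PP.map (fun ω (i : Fin n) => YY i ω))
    (i : ℕ) : P.real (Ev X φ i) = Fb (i+1) := by
  have h := law_word hX hφ hlaw (i+1) (fun _ => false)
  have e : {ω | ∀ j : Fin (i+1), φ (X j ω) = false} = Ev X φ i := by
    ext ω
    constructor
    · intro h j hj
      exact h ⟨j, by omega⟩
    · intro h j
      exact h j (by omega)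
  rw [e, List.ofFn_const] at h
  rw [h]
  have h2 := R_zeros (i+1) 0
  rw [Fb_zero, one_mul, zero_add] at h2
  exact h2

lemma law_zeros_one (hX : ∀ n, Measurable (X n)) (hφ : Measurable φ)
    (hlaw : ∀ n, P.map (fun ω (i : Fin n) => φ (X i ω)) = PP.map (fun ω (i : Fin n) => YY i ω))
    (i : ℕ) : P.real (Ev X φ i ∩ X (i+1) ⁻¹' (φ ⁻¹' {true})) = ff (i+2) := by
  let w : Fin (i+1+1) → Bool := Fin.snoc (α := fun _ => Bool) (fun _ : Fin (i+1) => false) true
  have h := law_word hX hφ hlaw (i+1+1) w
  have e : {ω | ∀ j : Fin (i+1+1), φ (X j ω) = w j} = Ev X φ i ∩ X (i+1) ⁻¹' (φ ⁻¹' {true}) := by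
    ext ω
    constructor
    · intro h
      refine ⟨fun j hj => ?_, ?_⟩
      · have h1 := h (Fin.castSucc ⟨j, by omega⟩)
        have h2 : w (Fin.castSucc ⟨j, by omega⟩) = false := by
          simp only [w, Fin.snoc_castSucc]
        rw [h2] at h1
        exact h1
      · have h1 := h (Fin.last (i+1))
        have h2 : w (Fin.last (i+1)) = true := by
          simp only [w, Fin.snoc_last]
        rw [h2] at h1
        exact h1
    · rintro ⟨h1, h2⟩ j
      induction j using Fin.lastCases with
      | last =>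
        have h3 : w (Fin.last (i+1)) = true := by
          simp only [w, Fin.snoc_last]
        rw [h3]
        exact h2
      | cast j =>
        have h3 : w (Fin.castSucc j) = false := by
          simp only [w, Fin.snoc_castSucc]
        rw [h3]
        exact h1 j (by omega)
  have e2 : List.ofFn w = List.replicate (i+1) false ++ [true] := by
    rw [List.ofFn_succ']
    have h3 : w (Fin.last (i+1)) = true := by
      simp only [w, Fin.snoc_last]
    have h4 : (fun j : Fin (i+1) => w (Fin.castSucc j)) = fun _ => false := by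
      funext j
      simp only [w, Fin.snoc_castSucc]
    rw [h3, h4, List.ofFn_const, List.concat_eq_append]
  rw [e, e2] at h
  rw [h]
  have h2 := R_zeros_one (i+1) 0
  rw [Fb_zero, one_mul, zero_add] at h2
  exact h2

theorem no_rep {p : Measure S} {κ : Kernel S S} [IsMarkovKernel κ] (hM : IsMarkovProc P X p κ)
    (hr : IsOfFiniteRank P X κ) (hφ : Measurable φ)
    (hlaw : ∀ n, P.map (fun ω (i : Fin n) => φ (X i ω)) = PP.map (fun ω (i : Fin n) => YY i ω)) :
    False := by
  have hX := hM.meas
  obtain ⟨r, a, b, -, hab, -, -⟩ := hr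
  let W : Submodule ℂ (S → ℂ) :=
    Submodule.span ℂ (Set.range (fun (j : Fin r) (x : S) => ((a j x : ℝ) : ℂ)))
  have hWfin : FiniteDimensional ℂ W := FiniteDimensional.span_of_finite ℂ (Set.finite_range _)
  have hW : ∀ B, MeasurableSet B →
      (fun x => ((((κ.restrict (Z_meas hφ)) x).real B : ℝ) : ℂ)) ∈ W := by
    intro B hB
    have e : (fun x => ((((κ.restrict (Z_meas hφ)) x).real B : ℝ) : ℂ))
        = ∑ j : Fin r, ((b j (B ∩ φ ⁻¹' {false}) : ℝ) : ℂ) •
            (fun (x : S) => ((a j x : ℝ) : ℂ)) := by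
      funext x
      rw [Kernel.restrict_apply, Measure.real, Measure.restrict_apply hB, ← Measure.real,
        hab x _ (hB.inter (Z_meas hφ)), Finset.sum_apply]
      push_cast
      refine Finset.sum_congr rfl fun j _ => ?_
      rw [Pi.smul_apply, smul_eq_mul, mul_comm]
    rw [e]
    exact Submodule.sum_mem _ fun j _ => Submodule.smul_mem _ _ (Submodule.subset_span ⟨j, rfl⟩)
  have hO : MeasurableSet (φ ⁻¹' {true}) := hφ (measurableSet_singleton true)
  let q : BMC S := ⟨fun x => (((κ x).real (φ ⁻¹' {true}) : ℝ) : ℂ), by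
    refine ⟨Complex.measurable_ofReal.comp (κ.measurable_coe hO).ennreal_toReal, 1, fun x => ?_⟩
    rw [Complex.norm_real, Real.norm_eq_abs, abs_of_nonneg measureReal_nonneg]
    exact measureReal_le_one⟩
  have hK : ∀ i, (nu P X φ i).real Set.univ ≤ 3 * (1/2) ^ i := by
    intro i
    have e : (nu P X φ i).real Set.univ = P.real (Ev X φ i) := by
      unfold nu
      rw [Measure.real, Measure.map_apply (hX i) MeasurableSet.univ, Set.preimage_univ,
        Measure.restrict_apply_univ]
      rfl
    rw [e, law_zeros hX hφ hlaw]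
    refine (Fb_le _).trans ?_
    have : (0:ℝ) < (1/2) ^ i := by positivity
    rw [pow_succ]
    linarith
  refine pos_contradiction (κ.restrict (Z_meas hφ)) (ν := nu P X φ) W hW
    (lam := 1/2) (by norm_num) hK (nu_succ hM hφ) q zz_norm
    zz_root (a := 13/48) (b := -(13/96) * zz ^ 2) (b' := -(13/96) * (conj zz) ^ 2) ?_ ?_
  · have hz0 : zz ≠ 0 := by
      intro h
      have := zz_norm
      rw [h, norm_zero] at this
      exact zero_ne_one this
    exact mul_ne_zero (by norm_num) (pow_ne_zero _ hz0)
  · intro i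
    have e1 : ∫ x, q.1 x ∂(nu P X φ i) = ((ff (i+2) : ℝ) : ℂ) := by
      have e2 : ∫ x, q.1 x ∂(nu P X φ i)
          = ((∫ x, (κ x).real (φ ⁻¹' {true}) ∂(nu P X φ i) : ℝ) : ℂ) := integral_ofReal
      rw [e2]
      congr 1
      rw [← law_zeros_one hX hφ hlaw i]
      unfold Measure.real
      rw [integral_toReal (κ.measurable_coe hO).aemeasurable
        (ae_of_all _ fun x => measure_lt_top _ _), nu_kernel hM hφ i hO]
    rw [e1]
    unfold ff
    have e3 : ((zz ^ (i+2)).re : ℂ) = (zz ^ (i+2) + (conj zz) ^ (i+2)) / 2 := by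
      rw [Complex.re_eq_add_conj, map_pow]
    push_cast
    rw [e3]
    ring

end

end Pool.Agent.Q297.Sto
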