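import Pool.Agent.Q297.StoAlg

/-!
Positive kernels of finite rank: the peripheral part seen by a sequence of measures.
-/

open MeasureTheory ProbabilityTheory Filter Topology Polynomial

namespace Pool.Agent.Q297.Sto

/-- Bounded measurable complex functions. -/
def BMC (S : Type*) [MeasurableSpace S] : Submodule ℂ (S → ℂ) where
  carrier := {f | Measurable f ∧ ∃ C : ℝ, ∀ x, ‖f x‖ ≤ C}
  add_mem' := by
    rintro f g ⟨hf, Cf, hCf⟩ ⟨hg, Cg, hCg⟩
    exact ⟨hf.add hg, Cf + Cg, fun x => (norm_add_le _ _).trans (add_le_add (hCf x) (hCg x))⟩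
  zero_mem' := ⟨measurable_const, 0, fun x => by simp⟩
  smul_mem' := by
    rintro c f ⟨hf, C, hC⟩
    refine ⟨hf.const_smul c, ‖c‖ * C, fun x => ?_⟩
    simp only [Pi.smul_apply, norm_smul]
    exact mul_le_mul_of_nonneg_left (hC x) (norm_nonneg _)

variable {S : Type*} [MeasurableSpace S]

/-- Bounded measurable real functions. -/
def BM (u : S → ℝ) : Prop := Measurable u ∧ ∃ C : ℝ, ∀ x, |u x| ≤ C

lemma BM.add {u v : S → ℝ} (hu : BM u) (hv : BM v) : BM (fun x => u x + v x) := by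
  obtain ⟨hu, Cf, hCf⟩ := hu
  obtain ⟨hv, Cg, hCg⟩ := hv
  exact ⟨hu.add hv, Cf + Cg, fun x => (abs_add_le _ _).trans (add_le_add (hCf x) (hCg x))⟩

lemma BM.const_mul {u : S → ℝ} (hu : BM u) (c : ℝ) : BM (fun x => c * u x) := by
  obtain ⟨hu, C, hC⟩ := hu
  refine ⟨hu.const_mul c, |c| * C, fun x => ?_⟩
  rw [abs_mul]
  exact mul_le_mul_of_nonneg_left (hC x) (abs_nonneg _)

lemma BM.sub {u v : S → ℝ} (hu : BM u) (hv : BM v) : BM (fun x => u x - v x) := by
  have := hu.add (hv.const_mul (-1))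
  convert this using 2
  ring

lemma BM.abs {u : S → ℝ} (hu : BM u) : BM (fun x => |u x|) := by
  obtain ⟨hu, C, hC⟩ := hu
  exact ⟨hu.abs, C, fun x => by rw [abs_abs]; exact hC x⟩

lemma BM.integrable {u : S → ℝ} (hu : BM u) (m : Measure S) [IsFiniteMeasure m] :
    Integrable u m := by
  obtain ⟨hu, C, hC⟩ := hu
  exact Integrable.of_bound hu.aestronglyMeasurable C (ae_of_all _ fun x => hC x)

lemma BMC_integrable (g : BMC S) (m : Measure S) [IsFiniteMeasure m] :
    Integrable g.1 m := by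
  obtain ⟨hu, C, hC⟩ := g.2
  exact Integrable.of_bound hu.aestronglyMeasurable C (ae_of_all _ fun x => hC x)

lemma BM_norm (g : BMC S) : BM (fun x => ‖g.1 x‖) := by
  obtain ⟨hu, C, hC⟩ := g.2
  exact ⟨hu.norm, C, fun x => by rw [abs_norm]; exact hC x⟩

section op

variable (κ : Kernel S S) [IsFiniteKernel κ]

/-- The operator on real functions. -/
noncomputable def opR (u : S → ℝ) : S → ℝ := fun x => ∫ y, u y ∂κ x

lemma BM.opR {u : S → ℝ} (hu : BM u) : BM (opR κ u) := by
  obtain ⟨hm, C, hC⟩ := hu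
  have hC0 : 0 ≤ |C| := abs_nonneg _
  obtain ⟨D, hD⟩ : ∃ D : ℝ, ∀ x, (κ x).real Set.univ ≤ D := by
    refine ⟨κ.bound.toReal, fun x => ?_⟩
    exact ENNReal.toReal_mono κ.bound_ne_top (Kernel.measure_le_bound κ x _)
  refine ⟨(hm.stronglyMeasurable.integral_kernel).measurable, |C| * D, fun x => ?_⟩
  have h := norm_integral_le_of_norm_le_const (μ := κ x) (f := u) (C := |C|)
    (ae_of_all _ fun y => (by rw [Real.norm_eq_abs]; exact (hC y).trans (le_abs_self C)))
  rw [Real.norm_eq_abs] at h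
  exact h.trans (mul_le_mul_of_nonneg_left (hD x) hC0)

/-- The operator on bounded complex functions. -/
noncomputable def opT : BMC S →ₗ[ℂ] BMC S where
  toFun g := ⟨fun x => ∫ y, g.1 y ∂κ x, by
    obtain ⟨hm, C, hC⟩ := g.2
    have hC0 : 0 ≤ |C| := abs_nonneg _
    obtain ⟨D, hD⟩ : ∃ D : ℝ, ∀ x, (κ x).real Set.univ ≤ D := by
      refine ⟨κ.bound.toReal, fun x => ?_⟩
      exact ENNReal.toReal_mono κ.bound_ne_top (Kernel.measure_le_bound κ x _)
    refine ⟨(hm.stronglyMeasurable.integral_kernel).measurable, |C| * D, fun x => ?_⟩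
    have h := norm_integral_le_of_norm_le_const (μ := κ x) (f := g.1) (C := |C|)
      (ae_of_all _ fun y => ((hC y).trans (le_abs_self C)))
    exact h.trans (mul_le_mul_of_nonneg_left (hD x) hC0)⟩
  map_add' f g := by
    apply Subtype.ext
    funext x
    exact integral_add (BMC_integrable f (κ x)) (BMC_integrable g (κ x))
  map_smul' c f := by
    apply Subtype.ext
    funext x
    exact integral_smul c f.1

lemma opT_apply (g : BMC S) (x : S) : (opT κ g).1 x = ∫ y, g.1 y ∂κ x := rfl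

lemma opT_mem (W : Submodule ℂ (S → ℂ)) [FiniteDimensional ℂ W]
    (hW : ∀ B, MeasurableSet B → (fun x => (((κ x).real B : ℝ) : ℂ)) ∈ W) (g : BMC S) :
    (opT κ g).1 ∈ W := by
  obtain ⟨hm, C, hC⟩ := g.2
  have hsimple : ∀ f : SimpleFunc S ℂ, (fun x => ∫ y, f y ∂κ x) ∈ W := by
    intro f
    have e : (fun x => ∫ y, f y ∂κ x)
        = ∑ c ∈ f.range, c • (fun x => (((κ x).real (f ⁻¹' {c}) : ℝ) : ℂ)) := by
      funext x
      rw [← SimpleFunc.integral_eq_integral f (SimpleFunc.integrable_of_isFiniteMeasure f),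
        SimpleFunc.integral_eq, Finset.sum_apply]
      refine Finset.sum_congr rfl fun c _ => ?_
      rw [Pi.smul_apply, smul_eq_mul, mul_comm]
      rfl
    rw [e]
    exact Submodule.sum_mem _ fun c _ => Submodule.smul_mem _ _ (hW _ (f.measurableSet_preimage _))
  have hclosed : IsClosed (W : Set (S → ℂ)) := Submodule.closed_of_finiteDimensional W
  have hsm := hm.stronglyMeasurable
  have hC' : ∀ x, ‖g.1 x‖ ≤ |C| := fun x => (hC x).trans (le_abs_self C)
  refine hclosed.mem_of_tendsto (f := fun n x => ∫ y, hsm.approxBounded |C| n y ∂κ x)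
    (b := atTop) ?_ (Eventually.of_forall fun n => hsimple _)
  rw [tendsto_pi_nhds]
  intro x
  refine tendsto_integral_of_dominated_convergence (fun _ => |C|) ?_ ?_ ?_ ?_
  · intro n
    exact (SimpleFunc.stronglyMeasurable _).aestronglyMeasurable
  · exact integrable_const _
  · intro n
    exact ae_of_all _ fun y => StronglyMeasurable.norm_approxBounded_le hsm (abs_nonneg C) n y
  · exact ae_of_all _ fun y => StronglyMeasurable.tendsto_approxBounded_of_norm_le hsm (hC' y)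

lemma opT_range (W : Submodule ℂ (S → ℂ)) [FiniteDimensional ℂ W]
    (hW : ∀ B, MeasurableSet B → (fun x => (((κ x).real B : ℝ) : ℂ)) ∈ W) :
    FiniteDimensional ℂ (LinearMap.range (opT κ)) := by
  have hmem : ∀ u : LinearMap.range (opT κ), (u.1).1 ∈ W := by
    rintro ⟨u, g, rfl⟩
    exact opT_mem κ W hW g
  let ρ : LinearMap.range (opT κ) →ₗ[ℂ] W :=
    LinearMap.codRestrict W ((BMC S).subtype.comp (LinearMap.range (opT κ)).subtype) hmem
  refine Module.Finite.of_injective ρ ?_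
  intro u v huv
  apply Subtype.ext
  apply Subtype.ext
  have := congrArg Subtype.val huv
  exact this

end op

section fun_nu

variable (κ : Kernel S S) [IsFiniteKernel κ] (ν : ℕ → Measure S) [∀ i, IsFiniteMeasure (ν i)]

lemma integral_comp_real {E : Type*} [NormedAddCommGroup E] [NormedSpace ℝ E]
    (m : Measure S) [IsFiniteMeasure m] (g : S → E) (hg : StronglyMeasurable g)
    (hb : ∃ C, ∀ x, ‖g x‖ ≤ C) :
    ∫ x, g x ∂(m.bind κ) = ∫ x, ∫ y, g y ∂κ x ∂m := by
  obtain ⟨C, hC⟩ := hb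
  have h1 : m.bind κ = (m ⊗ₘ κ).snd := by
    rw [Measure.snd_compProd]
  rw [h1, Measure.snd, integral_map measurable_snd.aemeasurable hg.aestronglyMeasurable,
    Measure.integral_compProd]
  exact Integrable.of_bound (hg.comp_measurable measurable_snd).aestronglyMeasurable C
    (ae_of_all _ fun x => hC _)

/-- Weighted Cesaro averages. -/
noncomputable def avg (lam : ℝ) (u : S → ℝ) (n : ℕ) : ℝ :=
  (1 / ((n:ℝ) + 1)) * ∑ i ∈ Finset.range (n + 1), (lam ^ i)⁻¹ * ∫ x, u x ∂ν i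

/-- Generalized limit of the averages along an ultrafilter. -/
noncomputable def Lam (lam : ℝ) (u : S → ℝ) : ℝ :=
  limUnder (hyperfilter ℕ : Filter ℕ) (avg ν lam u)

variable {ν}

lemma avg_bound {lam : ℝ} (hlam : 0 < lam) {K : ℝ} (hK : ∀ i, (ν i).real Set.univ ≤ K * lam ^ i)
    {u : S → ℝ} {C : ℝ} (hC0 : 0 ≤ C) (hC : ∀ x, |u x| ≤ C) (n : ℕ) : |avg ν lam u n| ≤ C * K := by
  unfold avg
  have hn : (0:ℝ) < (n:ℝ) + 1 := by positivity
  have h1 : ∀ i, |(lam ^ i)⁻¹ * ∫ x, u x ∂ν i| ≤ C * K := by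
    intro i
    have hp : 0 < lam ^ i := pow_pos hlam i
    rw [abs_mul, abs_of_pos (inv_pos.2 hp), inv_mul_le_iff₀ hp]
    have h := norm_integral_le_of_norm_le_const (μ := ν i) (f := u) (C := C)
      (ae_of_all _ fun y => (by rw [Real.norm_eq_abs]; exact hC y))
    rw [Real.norm_eq_abs] at h
    calc _ ≤ C * (ν i).real Set.univ := h
      _ ≤ C * (K * lam ^ i) := mul_le_mul_of_nonneg_left (hK i) hC0
      _ = lam ^ i * (C * K) := by ring
  rw [abs_mul, abs_of_pos (by positivity)]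
  calc 1 / ((n:ℝ) + 1) * |∑ i ∈ Finset.range (n + 1), (lam ^ i)⁻¹ * ∫ x, u x ∂ν i|
      ≤ 1 / ((n:ℝ) + 1) * ∑ i ∈ Finset.range (n + 1), (C * K) := by
        gcongr
        exact (Finset.abs_sum_le_sum_abs _ _).trans (Finset.sum_le_sum fun i _ => h1 i)
    _ = C * K := by
        rw [Finset.sum_const, Finset.card_range, nsmul_eq_mul]
        push_cast
        field_simp

lemma tendsto_Lam {lam : ℝ} (hlam : 0 < lam) {K : ℝ} (hK : ∀ i, (ν i).real Set.univ ≤ K * lam ^ i)
    {u : S → ℝ} (hu : BM u) : Tendsto (avg ν lam u) (hyperfilter ℕ) (𝓝 (Lam ν lam u)) := by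
  obtain ⟨hm, C, hC⟩ := hu
  apply tendsto_nhds_limUnder
  have hb := avg_bound hlam hK (abs_nonneg C) (fun x => (hC x).trans (le_abs_self C))
  obtain ⟨x, -, hx⟩ := (isCompact_Icc (a := -(|C| * K)) (b := |C| * K)).ultrafilter_le_nhds
    ((hyperfilter ℕ).map (avg ν lam u)) (by
      rw [le_principal_iff]
      exact Filter.mem_map.2 (Filter.univ_mem' fun n => abs_le.1 (hb n)))
  exact ⟨x, hx⟩

lemma Lam_mono {lam : ℝ} (hlam : 0 < lam) {K : ℝ} (hK : ∀ i, (ν i).real Set.univ ≤ K * lam ^ i)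
    {u v : S → ℝ} (hu : BM u) (hv : BM v) (h : ∀ x, u x ≤ v x) : Lam ν lam u ≤ Lam ν lam v := by
  refine le_of_tendsto_of_tendsto' (tendsto_Lam hlam hK hu) (tendsto_Lam hlam hK hv) fun n => ?_
  unfold avg
  refine mul_le_mul_of_nonneg_left (Finset.sum_le_sum fun i _ => ?_) (by positivity)
  refine mul_le_mul_of_nonneg_left ?_ (by positivity)
  exact integral_mono (hu.integrable _) (hv.integrable _) h

lemma Lam_add {lam : ℝ} (hlam : 0 < lam) {K : ℝ} (hK : ∀ i, (ν i).real Set.univ ≤ K * lam ^ i)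
    {u v : S → ℝ} (hu : BM u) (hv : BM v) :
    Lam ν lam (fun x => u x + v x) = Lam ν lam u + Lam ν lam v := by
  refine tendsto_nhds_unique (tendsto_Lam hlam hK (hu.add hv)) ?_
  have := (tendsto_Lam hlam hK hu).add (tendsto_Lam hlam hK hv)
  refine this.congr fun n => ?_
  unfold avg
  rw [← mul_add, ← Finset.sum_add_distrib]
  congr 1
  refine Finset.sum_congr rfl fun i _ => ?_
  rw [integral_add (hu.integrable _) (hv.integrable _)]
  ring

lemma Lam_const_mul {lam : ℝ} (hlam : 0 < lam) {K : ℝ}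
    (hK : ∀ i, (ν i).real Set.univ ≤ K * lam ^ i)
    {u : S → ℝ} (hu : BM u) (c : ℝ) :
    Lam ν lam (fun x => c * u x) = c * Lam ν lam u := by
  refine tendsto_nhds_unique (tendsto_Lam hlam hK (hu.const_mul c)) ?_
  have := (tendsto_Lam hlam hK hu).const_mul c
  refine this.congr fun n => ?_
  unfold avg
  rw [mul_left_comm, Finset.mul_sum]
  congr 1
  refine Finset.sum_congr rfl fun i _ => ?_
  rw [integral_const_mul]
  ring

lemma Lam_nonneg {lam : ℝ} (hlam : 0 < lam) {K : ℝ}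
    (hK : ∀ i, (ν i).real Set.univ ≤ K * lam ^ i)
    {u : S → ℝ} (hu : BM u) (h : ∀ x, 0 ≤ u x) : 0 ≤ Lam ν lam u := by
  refine ge_of_tendsto' (tendsto_Lam hlam hK hu) fun n => ?_
  unfold avg
  refine mul_nonneg (by positivity) (Finset.sum_nonneg fun i _ => ?_)
  exact mul_nonneg (by positivity) (integral_nonneg h)

lemma Lam_opR {lam : ℝ} (hlam : 0 < lam) {K : ℝ}
    (hK : ∀ i, (ν i).real Set.univ ≤ K * lam ^ i) (hν : ∀ i, ν (i + 1) = (ν i).bind κ)
    {u : S → ℝ} (hu : BM u) :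
    Lam ν lam (opR κ u) = lam * Lam ν lam u := by
  have hint : ∀ i, ∫ x, opR κ u x ∂ν i = ∫ x, u x ∂ν (i+1) := by
    intro i
    rw [hν i, integral_comp_real κ (ν i) u hu.1.stronglyMeasurable
      (by obtain ⟨C, hC⟩ := hu.2; exact ⟨C, fun x => by rw [Real.norm_eq_abs]; exact hC x⟩)]
    rfl
  obtain ⟨hm, C, hC⟩ := hu
  have hu' : BM u := ⟨hm, C, hC⟩
  set a : ℕ → ℝ := fun i => (lam ^ i)⁻¹ * ∫ x, u x ∂ν i with ha
  have habound : ∀ i, |a i| ≤ |C| * K := by
    intro i
    have hp : 0 < lam ^ i := pow_pos hlam i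
    rw [ha]
    simp only
    rw [abs_mul, abs_of_pos (inv_pos.2 hp), inv_mul_le_iff₀ hp]
    have h := norm_integral_le_of_norm_le_const (μ := ν i) (f := u) (C := |C|)
      (ae_of_all _ fun y => (by rw [Real.norm_eq_abs]; exact (hC y).trans (le_abs_self C)))
    rw [Real.norm_eq_abs] at h
    calc _ ≤ |C| * (ν i).real Set.univ := h
      _ ≤ |C| * (K * lam ^ i) := mul_le_mul_of_nonneg_left (hK i) (abs_nonneg C)
      _ = lam ^ i * (|C| * K) := by ring
  have hdiff : ∀ n : ℕ, avg ν lam (opR κ u) n - lam * avg ν lam u n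
      = lam * (1 / ((n:ℝ) + 1)) * (a (n+1) - a 0) := by
    intro n
    unfold avg
    have e1 : ∀ i, (lam ^ i)⁻¹ * ∫ x, opR κ u x ∂ν i = lam * a (i+1) := by
      intro i
      rw [hint i, ha]
      simp only
      rw [pow_succ]
      field_simp
    simp_rw [e1]
    rw [← Finset.mul_sum]
    have e2 : ∑ i ∈ Finset.range (n+1), (a (i+1) - a i) = a (n+1) - a 0 :=
      Finset.sum_range_sub a (n+1)
    rw [← e2, Finset.sum_sub_distrib]
    ring
  have hlim : Tendsto (fun n : ℕ => avg ν lam (opR κ u) n - lam * avg ν lam u n)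
      (hyperfilter ℕ) (𝓝 0) := by
    have h0 : Tendsto (fun n : ℕ => lam * (1 / ((n:ℝ) + 1)) * (a (n+1) - a 0)) atTop (𝓝 0) := by
      have h1 : Tendsto (fun n : ℕ => lam * (2 * (|C| * K)) * (1 / ((n:ℝ) + 1))) atTop (𝓝 0) := by
        have := tendsto_one_div_add_atTop_nhds_zero_nat (𝕜 := ℝ)
        simpa using this.const_mul (lam * (2 * (|C| * K)))
      refine squeeze_zero_norm (fun n => ?_) h1
      rw [Real.norm_eq_abs, abs_mul, abs_mul, abs_of_pos hlam,
        abs_of_pos (show (0:ℝ) < 1 / ((n:ℝ) + 1) by positivity)]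
      have h2 : |a (n+1) - a 0| ≤ 2 * (|C| * K) := by
        have := abs_sub (a (n+1)) (a 0)
        have h3 := habound (n+1)
        have h4 := habound 0
        linarith
      calc lam * (1 / ((n:ℝ) + 1)) * |a (n+1) - a 0|
          ≤ lam * (1 / ((n:ℝ) + 1)) * (2 * (|C| * K)) := by gcongr
        _ = lam * (2 * (|C| * K)) * (1 / ((n:ℝ) + 1)) := by ring
    refine (h0.congr fun n => (hdiff n).symm).mono_left ?_
    rw [← Nat.cofinite_eq_atTop]
    exact hyperfilter_le_cofinite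
  have hlim2 : Tendsto (fun n : ℕ => avg ν lam (opR κ u) n - lam * avg ν lam u n)
      (hyperfilter ℕ) (𝓝 (Lam ν lam (opR κ u) - lam * Lam ν lam u)) :=
    (tendsto_Lam hlam hK (hu'.opR κ)).sub ((tendsto_Lam hlam hK hu').const_mul lam)
  have := tendsto_nhds_unique hlim2 hlim
  linarith

end fun_nu

end Pool.Agent.Q297.Sto
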