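import Pool.Agent.Q297.StoDefs

/-!
The renewal process with gap law `(13/12) 2^{-n} (1 - Re z^n)`, `z = (3+4i)/5`.
-/

open MeasureTheory ProbabilityTheory Filter Topology ComplexConjugate

namespace Pool.Agent.Q297.Sto

/-- The unit complex number `(3+4i)/5`. -/
noncomputable def zz : ℂ := ⟨3/5, 4/5⟩

/-- The number `z / (2 - z)`. -/
noncomputable def bb : ℂ := ⟨1/13, 8/13⟩

lemma zz_norm : ‖zz‖ = 1 := by
  have h : ‖zz‖ ^ 2 = 1 := by
    rw [← Complex.normSq_eq_norm_sq, Complex.normSq_apply]
    simp only [zz]; norm_num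
  have h0 : 0 ≤ ‖zz‖ := norm_nonneg _
  nlinarith

lemma bb_norm : ‖bb‖ < 1 := by
  have h : ‖bb‖ ^ 2 = 65 / 169 := by
    rw [← Complex.normSq_eq_norm_sq, Complex.normSq_apply]
    simp only [bb]; norm_num
  have h0 : 0 ≤ ‖bb‖ := norm_nonneg _
  nlinarith

lemma zz_bb : (2 - zz) * bb = zz := by
  apply Complex.ext
  · simp [zz, bb]; norm_num
  · simp [zz, bb]; norm_num

/-- Powers of `3+4i` are congruent to `3+4i` modulo `5`. -/
lemma zz_pow (n : ℕ) : ∃ x y : ℤ, (5:ℂ) ^ (n+1) * zz ^ (n+1) = (x:ℂ) + (y:ℂ) * Complex.I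
    ∧ x % 5 = 3 ∧ y % 5 = 4 := by
  induction n with
  | zero =>
    refine ⟨3, 4, ?_, by norm_num, by norm_num⟩
    apply Complex.ext <;> simp [zz] <;> norm_num
  | succ n ih =>
    obtain ⟨x, y, h, hx, hy⟩ := ih
    refine ⟨3 * x - 4 * y, 4 * x + 3 * y, ?_, by omega, by omega⟩
    have e : (5:ℂ) ^ (n+1+1) * zz ^ (n+1+1) = (5 * zz) * ((5:ℂ) ^ (n+1) * zz ^ (n+1)) := by ring
    have e5 : (5:ℂ) * zz = 3 + 4 * Complex.I := by
      apply Complex.ext <;> simp [zz] <;> norm_num
    rw [e, h, e5]
    push_cast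
    have hI : Complex.I * Complex.I = -1 := Complex.I_mul_I
    linear_combination (4 * (y:ℂ)) * hI

lemma zz_root (n : ℕ) (hn : 0 < n) : zz ^ n ≠ 1 := by
  intro h
  obtain ⟨m, rfl⟩ : ∃ m, n = m + 1 := ⟨n - 1, by omega⟩
  obtain ⟨x, y, hxy, -, hy⟩ := zz_pow m
  rw [h, mul_one] at hxy
  have him := congrArg Complex.im hxy
  have e1 : ((5:ℂ) ^ (m+1)).im = 0 := by
    have : (5:ℂ) ^ (m+1) = (((5:ℝ) ^ (m+1) : ℝ) : ℂ) := by push_cast; ring
    rw [this, Complex.ofReal_im]
  rw [e1] at him
  simp at him
  have : y = 0 := by exact_mod_cast him.symm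
  omega

/-- The gap law. -/
noncomputable def ff (n : ℕ) : ℝ := (13/12) * (1/2) ^ n * (1 - (zz ^ n).re)

/-- The tail of the gap law. -/
noncomputable def Fb (k : ℕ) : ℝ := (13/12) * (1/2) ^ k * (1 - (zz ^ k * bb).re)

lemma ff_nonneg (n : ℕ) : 0 ≤ ff n := by
  unfold ff
  have h : (zz ^ n).re ≤ 1 := by
    refine (Complex.re_le_norm _).trans ?_
    rw [norm_pow, zz_norm, one_pow]
  have : 0 ≤ 1 - (zz ^ n).re := by linarith
  positivity

lemma Fb_pos (k : ℕ) : 0 < Fb k := by
  unfold Fb
  have h : (zz ^ k * bb).re < 1 := by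
    refine (Complex.re_le_norm _).trans_lt ?_
    rw [norm_mul, norm_pow, zz_norm, one_pow, one_mul]
    exact bb_norm
  have : 0 < 1 - (zz ^ k * bb).re := by linarith
  positivity

lemma Fb_le (k : ℕ) : Fb k ≤ 3 * (1/2) ^ k := by
  unfold Fb
  have h : -1 ≤ (zz ^ k * bb).re := by
    have := (Complex.abs_re_le_norm (zz ^ k * bb))
    rw [norm_mul, norm_pow, zz_norm, one_pow, one_mul] at this
    have h2 := bb_norm
    have h3 := (abs_le.1 this).1
    linarith
  have hp : (0:ℝ) < (1/2) ^ k := by positivity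
  nlinarith

lemma Fb_zero : Fb 0 = 1 := by
  unfold Fb
  simp [bb]
  norm_num

lemma Fb_sub (k : ℕ) : Fb k - Fb (k+1) = ff (k+1) := by
  unfold Fb ff
  have e : zz ^ k * bb - (1/2 : ℝ) * (zz ^ (k+1) * bb) = (1/2 : ℝ) * zz ^ (k+1) := by
    have h := zz_bb
    push_cast
    linear_combination (1/2) * zz ^ k * h
  have er := congrArg Complex.re e
  rw [Complex.sub_re, Complex.re_ofReal_mul, Complex.re_ofReal_mul] at er
  rw [pow_succ (1/2 : ℝ) k]
  linear_combination (-(13/12) * (1/2 : ℝ) ^ k) * er

/-- The hazard rate. -/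
noncomputable def hz (k : ℕ) : ℝ := ff (k+1) / Fb k

lemma hz_nonneg (k : ℕ) : 0 ≤ hz k := div_nonneg (ff_nonneg _) (Fb_pos _).le

lemma hz_le_one (k : ℕ) : hz k ≤ 1 := by
  unfold hz
  rw [div_le_one (Fb_pos k), ← Fb_sub]
  linarith [Fb_pos (k+1)]

lemma Fb_mul_hz (k : ℕ) : Fb k * hz k = ff (k+1) := by
  unfold hz
  exact mul_div_cancel₀ _ (Fb_pos k).ne'

lemma Fb_mul_one_sub_hz (k : ℕ) : Fb k * (1 - hz k) = Fb (k+1) := by
  rw [mul_sub, mul_one, Fb_mul_hz, ← Fb_sub]
  ring

/-- Probability of a word started at age `k`. -/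
noncomputable def R : ℕ → List Bool → ℝ
  | _, [] => 1
  | k, (true :: v) => hz k * R 0 v
  | k, (false :: v) => (1 - hz k) * R (k + 1) v

/-- Age after a word started at age `k`. -/
def ageL : ℕ → List Bool → ℕ
  | k, [] => k
  | _, (true :: v) => ageL 0 v
  | k, (false :: v) => ageL (k + 1) v

lemma R_append (u v : List Bool) : ∀ k, R k (u ++ v) = R k u * R (ageL k u) v := by
  induction u with
  | nil => intro k; simp [R, ageL]
  | cons a u ih =>
    intro k
    cases a with
    | true => simp only [List.cons_append, R, ageL, ih, mul_assoc]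
    | false => simp only [List.cons_append, R, ageL, ih, mul_assoc]

lemma ageL_append (u v : List Bool) : ∀ k, ageL k (u ++ v) = ageL (ageL k u) v := by
  induction u with
  | nil => intro k; simp [ageL]
  | cons a u ih =>
    intro k
    cases a with
    | true => simp only [List.cons_append, ageL, ih]
    | false => simp only [List.cons_append, ageL, ih]

lemma exists_ab (v : List Bool) : ∃ (α : ℝ) (β : ℂ), ∀ k,
    Fb k * R k v = (1/2) ^ k * (α + (β * zz ^ k).re) := by
  induction v with
  | nil =>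
    refine ⟨13/12, ((-(13/12) : ℝ) : ℂ) * bb, fun k => ?_⟩
    simp only [R, mul_one]
    unfold Fb
    rw [mul_assoc ((-(13/12) : ℝ) : ℂ), Complex.re_ofReal_mul, mul_comm bb]
    ring
  | cons a v ih =>
    obtain ⟨α, β, h⟩ := ih
    cases a with
    | true =>
      refine ⟨(13/24) * R 0 v, ((-(13/24) * R 0 v : ℝ) : ℂ) * zz, fun k => ?_⟩
      simp only [R]
      rw [← mul_assoc, Fb_mul_hz]
      unfold ff
      rw [mul_assoc ((-(13/24) * R 0 v : ℝ) : ℂ), Complex.re_ofReal_mul, ← pow_succ']
      ring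
    | false =>
      refine ⟨(1/2) * α, ((1/2 : ℝ) : ℂ) * (β * zz), fun k => ?_⟩
      simp only [R]
      rw [← mul_assoc, Fb_mul_one_sub_hz, h (k+1), mul_assoc ((1/2 : ℝ) : ℂ),
        Complex.re_ofReal_mul, pow_succ, mul_assoc β, ← pow_succ']
      ring

/-- The hazard rate as an element of the unit interval. -/
noncomputable def hI (k : ℕ) : unitInterval := ⟨hz k, hz_nonneg k, hz_le_one k⟩

/-- The sample space. -/
abbrev Om : Type := ℕ → unitInterval

/-- The measure on the sample space: independent uniform variables. -/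
noncomputable def PP : Measure Om := Measure.infinitePi (fun _ => (volume : Measure unitInterval))

instance : IsProbabilityMeasure PP := by unfold PP; infer_instance

/-- The age process. -/
noncomputable def age : ℕ → Om → ℕ
  | 0, _ => 0
  | (n+1), ω => if ω n < hI (age n ω) then 0 else age n ω + 1

/-- The renewal indicator process. -/
noncomputable def YY (n : ℕ) (ω : Om) : Bool := decide (ω n < hI (age n ω))

lemma age_meas (n : ℕ) : Measurable (age n) := by
  induction n with
  | zero =>
    have : age 0 = fun _ => 0 := by funext ω; rfl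
    rw [this]; exact measurable_const
  | succ n ih =>
    have : age (n+1) = fun ω => if ω n < hI (age n ω) then 0 else age n ω + 1 := by
      funext ω; rfl
    rw [this]
    refine Measurable.ite ?_ measurable_const (ih.add_const 1)
    exact measurableSet_lt (measurable_pi_apply n) ((measurable_of_countable hI).comp ih)

lemma YY_meas (n : ℕ) : Measurable (YY n) := by
  have hset : MeasurableSet {ω : Om | ω n < hI (age n ω)} :=
    measurableSet_lt (measurable_pi_apply n) ((measurable_of_countable hI).comp (age_meas n))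
  have : YY n = fun ω => if ω n < hI (age n ω) then true else false := by
    funext ω
    unfold YY
    by_cases h : ω n < hI (age n ω) <;> simp [h]
  rw [this]
  exact Measurable.ite hset measurable_const measurable_const

lemma age_succ (n : ℕ) (ω : Om) : age (n+1) ω = if YY n ω then 0 else age n ω + 1 := by
  unfold YY
  show (if ω n < hI (age n ω) then 0 else age n ω + 1) = _
  by_cases h : ω n < hI (age n ω) <;> simp [h]

/-- One letter sets. -/
def Aset (k : ℕ) (b : Bool) : Set unitInterval := {u | decide (u < hI k) = b}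

lemma Aset_true (k : ℕ) : Aset k true = Set.Iio (hI k) := by
  ext u; simp [Aset]

lemma Aset_false (k : ℕ) : Aset k false = Set.Ici (hI k) := by
  ext u; simp [Aset]

lemma Aset_meas (k : ℕ) (b : Bool) : MeasurableSet (Aset k b) := by
  cases b
  · rw [Aset_false]; exact measurableSet_Ici
  · rw [Aset_true]; exact measurableSet_Iio

lemma Aset_vol (k : ℕ) (b : Bool) : volume (Aset k b) = ENNReal.ofReal (R k [b]) := by
  cases b
  · rw [Aset_false, unitInterval.volume_Ici]
    simp [R, hI]
  · rw [Aset_true, unitInterval.volume_Iio]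
    simp [R, hI]

/-- The initial word of length `n` of `w`. -/
def ini (w : ℕ → Bool) (n : ℕ) : List Bool := (List.range n).map w

lemma ini_succ (w : ℕ → Bool) (n : ℕ) : ini w (n+1) = ini w n ++ [w n] := by
  unfold ini
  rw [List.range_succ, List.map_append]
  rfl

lemma ageL_ini_succ (w : ℕ → Bool) (n : ℕ) :
    ageL 0 (ini w (n+1)) = if w n then 0 else ageL 0 (ini w n) + 1 := by
  rw [ini_succ, ageL_append]
  cases w n <;> simp [ageL]

lemma event_iff (w : ℕ → Bool) (ω : Om) (n : ℕ) :
    ((∀ i < n, YY i ω = w i) ↔ (∀ i < n, ω i ∈ Aset (ageL 0 (ini w i)) (w i))) ∧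
    ((∀ i < n, YY i ω = w i) → age n ω = ageL 0 (ini w n)) := by
  induction n with
  | zero =>
    refine ⟨by simp, fun _ => ?_⟩
    rfl
  | succ n ih =>
    obtain ⟨ih1, ih2⟩ := ih
    have hsplit1 : (∀ i < n+1, YY i ω = w i) ↔ (∀ i < n, YY i ω = w i) ∧ YY n ω = w n := by
      constructor
      · intro h
        exact ⟨fun i hi => h i (by omega), h n (by omega)⟩
      · rintro ⟨h1, h2⟩ i hi
        rcases Nat.lt_succ_iff_lt_or_eq.1 hi with h | h
        · exact h1 i h
        · rw [h]; exact h2
    have hsplit2 : (∀ i < n+1, ω i ∈ Aset (ageL 0 (ini w i)) (w i))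
        ↔ (∀ i < n, ω i ∈ Aset (ageL 0 (ini w i)) (w i)) ∧
          ω n ∈ Aset (ageL 0 (ini w n)) (w n) := by
      constructor
      · intro h
        exact ⟨fun i hi => h i (by omega), h n (by omega)⟩
      · rintro ⟨h1, h2⟩ i hi
        rcases Nat.lt_succ_iff_lt_or_eq.1 hi with h | h
        · exact h1 i h
        · rw [h]; exact h2
    refine ⟨?_, ?_⟩
    · rw [hsplit1, hsplit2, ← ih1]
      refine and_congr_right fun h => ?_
      have := ih2 h
      unfold YY
      rw [this]
      rfl
    · intro h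
      obtain ⟨h1, h2⟩ := hsplit1.1 h
      rw [age_succ, ageL_ini_succ, h2, ih2 h1]

lemma PP_word (w : ℕ → Bool) (n : ℕ) :
    PP {ω | ∀ i < n, YY i ω = w i} = ENNReal.ofReal (R 0 (ini w n)) := by
  have e : {ω : Om | ∀ i < n, YY i ω = w i}
      = Set.pi (Finset.range n : Set ℕ) (fun i => Aset (ageL 0 (ini w i)) (w i)) := by
    ext ω
    rw [Set.mem_ofPred_eq, (event_iff w ω n).1, Set.mem_pi]
    simp
  rw [e]
  unfold PP
  rw [Measure.infinitePi_pi]
  · induction n with
    | zero => simp [ini, R]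
    | succ n ih =>
      rw [Finset.prod_range_succ, ih, Aset_vol, ini_succ, R_append]
      · rw [ENNReal.ofReal_mul]
        have : ∀ (v : List Bool) (k : ℕ), 0 ≤ R k v := by
          intro v
          induction v with
          | nil => intro k; simp [R]
          | cons a v ihv =>
            intro k
            cases a with
            | true => simp only [R]; exact mul_nonneg (hz_nonneg k) (ihv _)
            | false =>
              simp only [R]
              exact mul_nonneg (by linarith [hz_le_one k]) (ihv _)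
        exact this _ _
      · ext ω
        rw [Set.mem_ofPred_eq, (event_iff w ω n).1, Set.mem_pi]
        simp
  · intro i _
    exact Aset_meas _ _

end Pool.Agent.Q297.Sto
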