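import Mathlib

open MeasureTheory Filter Topology
open scoped ContDiff

namespace Q297.Tilt

open scoped Pointwise in
/-- logconcave measures: `μ(tA+(1-t)B) ≥ μ(A)^t μ(B)^(1-t)` for nonempty compact `A`, `B` -/
def LogConcave {n : ℕ} (μ : Measure (EuclideanSpace ℝ (Fin n))) : Prop :=
  ∀ A B : Set (EuclideanSpace ℝ (Fin n)), IsCompact A → IsCompact B → A.Nonempty → B.Nonempty →
    ∀ t : ℝ, 0 ≤ t → t ≤ 1 → μ A ^ t * μ B ^ (1 - t) ≤ μ (t • A + (1 - t) • B)

/-- entropy of a function: `E[g log g] - E[g] log E[g]` -/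
noncomputable def entropy {n : ℕ} (μ : Measure (EuclideanSpace ℝ (Fin n)))
    (g : EuclideanSpace ℝ (Fin n) → ℝ) : ℝ :=
  (∫ x, g x * Real.log (g x) ∂μ) - (∫ x, g x ∂μ) * Real.log (∫ x, g x ∂μ)

/-- the log-Sobolev constant: the infimum of the `C` in `[0,∞]` such that
`Ent[f^2] ≤ C E|∇f|^2` for all smooth `f` -/
noncomputable def CLSI {n : ℕ} (μ : Measure (EuclideanSpace ℝ (Fin n))) : ENNReal :=
  sInf {C : ENNReal | ∀ f : EuclideanSpace ℝ (Fin n) → ℝ, ContDiff ℝ ∞ f →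
    ENNReal.ofReal (entropy μ (fun x => f x ^ 2)) ≤
      C * ∫⁻ x, ENNReal.ofReal (‖fderiv ℝ f x‖ ^ 2) ∂μ}

/-- the probability measure with density proportional to `exp(-V)` on `K` -/
noncomputable def gibbs {n : ℕ} (K : Set (EuclideanSpace ℝ (Fin n)))
    (V : EuclideanSpace ℝ (Fin n) → ℝ) : Measure (EuclideanSpace ℝ (Fin n)) :=
  (volume.restrict K).tilted (fun x => -V x)

/-- the Gaussian tilt: density proportional to `exp(-|x|^2/(2h))` with respect to `μ` -/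
noncomputable def gaussTilt {n : ℕ} (μ : Measure (EuclideanSpace ℝ (Fin n))) (h : ℝ) :
    Measure (EuclideanSpace ℝ (Fin n)) :=
  μ.tilted (fun x => -(‖x‖ ^ 2 / (2 * h)))

end Q297.Tilt
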