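import Pool.Agent.Q297.TiltMain

open MeasureTheory Filter Topology ProbabilityTheory
open scoped ContDiff

namespace Q297.Tilt

namespace Par

lemma K_interior (P : Par) : (interior P.K).Nonempty := by
  set U : Set (EuclideanSpace ℝ (Fin (P.n + 1))) :=
    {x | 0 < x 0 ∧ x 0 < 1 ∧ ∀ i : Fin P.n, |x i.succ| < P.r + P.s * x 0} with hU
  have hopen : IsOpen U := by
    have h1 : IsOpen {x : EuclideanSpace ℝ (Fin (P.n + 1)) | 0 < x 0} :=
      isOpen_lt continuous_const (by fun_prop)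
    have h2 : IsOpen {x : EuclideanSpace ℝ (Fin (P.n + 1)) | x 0 < 1} :=
      isOpen_lt (by fun_prop) continuous_const
    have h3 : ∀ i : Fin P.n, IsOpen {x : EuclideanSpace ℝ (Fin (P.n + 1)) |
        |x i.succ| < P.r + P.s * x 0} := fun i =>
      isOpen_lt (by fun_prop) (by fun_prop)
    have e : U = {x : EuclideanSpace ℝ (Fin (P.n + 1)) | 0 < x 0} ∩
        ({x : EuclideanSpace ℝ (Fin (P.n + 1)) | x 0 < 1} ∩
        ⋂ i : Fin P.n, {x : EuclideanSpace ℝ (Fin (P.n + 1)) | |x i.succ| < P.r + P.s * x 0}) := by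
      ext x
      simp only [hU, Set.mem_ofPred_eq, Set.mem_inter_iff, Set.mem_iInter]
    rw [e]
    exact h1.inter (h2.inter (isOpen_iInter_of_finite h3))
  have hsub : U ⊆ P.K := fun x hx => ⟨hx.1.le, hx.2.1.le, fun i => (hx.2.2 i).le⟩
  refine ⟨EuclideanSpace.single 0 (1 / 2), interior_maximal hsub hopen ?_⟩
  have hr := P.hr
  have hs := P.hs
  refine ⟨?_, ?_, fun i => ?_⟩
  · simp
  · simp; norm_num
  · simp
    positivity

/-- all properties of the example -/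
lemma summary (P : Par) (ha : 1 / 2 ≤ P.a) : ∃ (K : Set (EuclideanSpace ℝ (Fin (P.n + 1))))
      (V : EuclideanSpace ℝ (Fin (P.n + 1)) → ℝ),
      IsCompact K ∧ Convex ℝ K ∧ (interior K).Nonempty ∧
      ConvexOn ℝ Set.univ V ∧ Continuous V ∧
      IsProbabilityMeasure (gibbs K V) ∧ IsProbabilityMeasure (gaussTilt (gibbs K V) 1) ∧
      CLSI (gibbs K V) ≤ ENNReal.ofReal P.kappa ∧
      ENNReal.ofReal (Real.exp (-6) / 12) ≤ CLSI (gaussTilt (gibbs K V) 1) := by
  refine ⟨P.K, fun x => -(P.b * x 0), P.K_compact, P.K_convex, P.K_interior, ?_, ?_, ?_, ?_, ?_, ?_⟩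
  · refine ⟨convex_univ, fun x _ y _ a b _ _ _ => le_of_eq ?_⟩
    simp only [PiLp.add_apply, PiLp.smul_apply, smul_eq_mul]
    ring
  · fun_prop
  · rw [P.gibbs_eq]
    exact P.pim_prob ha
  · rw [P.gibbs_eq]
    exact P.tilt_prob
  · rw [P.gibbs_eq]
    exact P.CLSI_le ha
  · rw [P.gibbs_eq]
    exact P.le_CLSI_tilt

end Par

/-- the parameters of the counterexample -/
noncomputable def par (m : ℕ) (hm : 2 ≤ m) : Par where
  n := m ^ 8
  r := 1 / m
  s := 1 / m ^ 5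
  hr := by positivity
  hr1 := by
    rw [div_le_one (by positivity)]
    exact_mod_cast (by omega : 1 ≤ m)
  hs := by positivity
  hns := by
    have : (0:ℝ) < m := by positivity
    apply le_of_eq
    push_cast
    field_simp

lemma par_a (m : ℕ) (hm : 2 ≤ m) : (m : ℝ) ^ 2 / 4 ≤ (par m hm).a := by
  have h := (par m hm).a_ge
  have hm0 : (0:ℝ) < m := by positivity
  refine le_trans (le_of_eq ?_) h
  simp only [par]
  push_cast
  field_simp

lemma par_kappa (m : ℕ) (hm : 2 ≤ m) : (par m hm).kappa ≤ 64 / (m : ℝ) ^ 2 := by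
  have hm0 : (0:ℝ) < m := by positivity
  have hm2 : (2:ℝ) ≤ m := by exact_mod_cast hm
  have hm4 : (4:ℝ) ≤ (m:ℝ) ^ 2 := by nlinarith
  have ha := par_a m hm
  have ha0 : 0 < (par m hm).a := lt_of_lt_of_le (by positivity) ha
  have e1 : Real.exp (1 / 2) * Real.exp (1 / 2) ≤ 2.72 := by
    rw [← Real.exp_add]
    norm_num
    have := Real.exp_one_lt_d9
    linarith
  have h1 : (par m hm).C0 ≤ 2.72 * (16 / (m : ℝ) ^ 2) := by
    unfold Par.C0
    have h2 : 4 / (par m hm).a ≤ 16 / (m : ℝ) ^ 2 := by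
      rw [div_le_div_iff₀ ha0 (by positivity)]
      nlinarith
    exact mul_le_mul e1 h2 (by positivity) (by norm_num)
  have h3 : ((par m hm).n : ℝ) * (par m hm).s ^ 2 = 1 / (m : ℝ) ^ 2 := by
    simp only [par]
    push_cast
    field_simp
  have h4 : (1:ℝ) / (m : ℝ) ^ 2 ≤ 1 / 4 := one_div_le_one_div_of_le (by norm_num) hm4
  have h5 : (par m hm).r + (par m hm).s ≤ 17 / 16 * (1 / m) := by
    simp only [par]
    have h6 : (1:ℝ) / (m:ℝ) ^ 5 = 1 / (m:ℝ) ^ 4 * (1 / m) := by field_simp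
    have h7 : (1:ℝ) / (m:ℝ) ^ 4 ≤ 1 / 16 := one_div_le_one_div_of_le (by norm_num) (by nlinarith)
    rw [h6]
    have h8 : (0:ℝ) < 1 / m := by positivity
    nlinarith
  have h9 : ((par m hm).r + (par m hm).s) ^ 2 ≤ (17 / 16) ^ 2 * (1 / (m:ℝ) ^ 2) := by
    have h10 : 0 ≤ (par m hm).r + (par m hm).s := by
      have := (par m hm).hr
      have := (par m hm).hs
      positivity
    calc ((par m hm).r + (par m hm).s) ^ 2 ≤ (17 / 16 * (1 / m)) ^ 2 := pow_le_pow_left₀ h10 h5 2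
      _ = _ := by rw [mul_pow, one_div_pow]
  unfold Par.kappa
  rw [h3]
  have h11 : 0 < 1 / (m:ℝ) ^ 2 := by positivity
  calc (par m hm).C0 * (1 + 1 / (m:ℝ) ^ 2) + 2 * ((par m hm).r + (par m hm).s) ^ 2
      ≤ 2.72 * (16 / (m : ℝ) ^ 2) * (1 + 1 / 4) + 2 * ((17 / 16) ^ 2 * (1 / (m:ℝ) ^ 2)) := by
        gcongr
    _ = (2.72 * 16 * (5 / 4) + 2 * (17 / 16) ^ 2) * (1 / (m:ℝ) ^ 2) := by ring
    _ ≤ 64 * (1 / (m:ℝ) ^ 2) := by
        refine mul_le_mul_of_nonneg_right ?_ h11.le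
        norm_num
    _ = 64 / (m:ℝ) ^ 2 := by ring

end Q297.Tilt
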