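import Pool.Agent.Q297.TiltDefs
import Pool.Agent.H212R2.KLS.T1

open MeasureTheory Filter Topology
open scoped Pointwise

namespace Q297.Tilt

/-- the weight -/
noncomputable def wt {n : ℕ} (K : Set (EuclideanSpace ℝ (Fin n)))
    (V : EuclideanSpace ℝ (Fin n) → ℝ) (x : EuclideanSpace ℝ (Fin n)) : ENNReal :=
  K.indicator (fun x => ENNReal.ofReal (Real.exp (-V x) / ∫ x in K, Real.exp (-V x))) x

lemma gibbs_apply {n : ℕ} {K : Set (EuclideanSpace ℝ (Fin n))} (hKm : MeasurableSet K)
    {V : EuclideanSpace ℝ (Fin n) → ℝ} {S : Set (EuclideanSpace ℝ (Fin n))} (hS : MeasurableSet S) :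
    gibbs K V S = ∫⁻ x, S.indicator (wt K V) x := by
  unfold gibbs
  rw [tilted_apply' _ _ hS, Measure.restrict_restrict hS, ← lintegral_indicator (hS.inter hKm)]
  refine lintegral_congr fun x => ?_
  have := Set.indicator_indicator S K (fun x => ENNReal.ofReal (Real.exp (-V x) /
    ∫ x in K, Real.exp (-V x)))
  rw [← this]
  rfl

lemma wt_mul_le {n : ℕ} {K : Set (EuclideanSpace ℝ (Fin n))} (hKc : Convex ℝ K)
    {V : EuclideanSpace ℝ (Fin n) → ℝ} (hV : ConvexOn ℝ Set.univ V) {t : ℝ} (h0 : 0 < t) (h1 : t < 1)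
    {x y : EuclideanSpace ℝ (Fin n)} (hx : x ∈ K) (hy : y ∈ K) :
    wt K V x ^ t * wt K V y ^ (1 - t) ≤ wt K V (t • x + (1 - t) • y) := by
  have hz : t • x + (1 - t) • y ∈ K := hKc hx hy h0.le (by linarith) (by ring)
  unfold wt
  rw [Set.indicator_of_mem hx, Set.indicator_of_mem hy, Set.indicator_of_mem hz]
  set Z := ∫ x in K, Real.exp (-V x) with hZ
  have hZ0 : 0 ≤ Z := integral_nonneg fun x => (Real.exp_pos _).le
  rcases hZ0.eq_or_lt with h | hZp
  · rw [← h]
    simp only [div_zero, ENNReal.ofReal_zero]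
    rw [ENNReal.zero_rpow_of_pos h0, zero_mul]
  · have hc := hV.2 (Set.mem_univ x) (Set.mem_univ y) h0.le (by linarith : (0:ℝ) ≤ 1 - t) (by ring)
    rw [ENNReal.ofReal_rpow_of_pos (by positivity), ENNReal.ofReal_rpow_of_pos (by positivity),
      ← ENNReal.ofReal_mul (by positivity)]
    apply ENNReal.ofReal_le_ofReal
    rw [Real.div_rpow (Real.exp_pos _).le hZp.le, Real.div_rpow (Real.exp_pos _).le hZp.le,
      div_mul_div_comm, ← Real.rpow_add hZp, ← Real.exp_mul, ← Real.exp_mul, ← Real.exp_add]
    have e : t + (1 - t) = 1 := by ring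
    rw [e, Real.rpow_one]
    apply div_le_div_of_nonneg_right _ hZp.le
    apply Real.exp_le_exp.2
    simp only [smul_eq_mul] at hc
    linarith

/-- measures with density `exp(-V)` on a convex compact set are logconcave -/
theorem logConcave_gibbs {n : ℕ} {K : Set (EuclideanSpace ℝ (Fin n))} (hK : IsCompact K)
    (hKc : Convex ℝ K) {V : EuclideanSpace ℝ (Fin n) → ℝ} (hV : ConvexOn ℝ Set.univ V)
    (hVc : Continuous V) : LogConcave (gibbs K V) := by
  intro A B hA hB hAn hBn t ht0 ht1
  rcases ht0.eq_or_lt with h0 | h0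
  · rw [← h0, ENNReal.rpow_zero, one_mul, sub_zero, ENNReal.rpow_one, one_smul,
      Set.zero_smul_set hAn, zero_add]
  rcases ht1.eq_or_lt with h1 | h1
  · rw [h1, sub_self, ENNReal.rpow_zero, mul_one, ENNReal.rpow_one, one_smul, Set.zero_smul_set hBn,
      add_zero]
  have hAB : IsCompact (t • A + (1 - t) • B) := (hA.smul t).add (hB.smul (1 - t))
  have hKm := hK.measurableSet
  have hwm : Measurable (wt K V) := by
    unfold wt
    refine Measurable.indicator ?_ hKm
    exact ((by fun_prop : Continuous fun x => Real.exp (-V x)).measurable.div_const _).ennreal_ofReal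
  rw [gibbs_apply hKm hA.measurableSet, gibbs_apply hKm hB.measurableSet,
    gibbs_apply hKm hAB.measurableSet]
  have h := Pool.Agent.H212R2.KLS.PL (volume : Measure (EuclideanSpace ℝ (Fin n))) (1 - t)
    (by linarith) (by linarith) (A.indicator (wt K V)) (B.indicator (wt K V))
    ((t • A + (1 - t) • B).indicator (wt K V)) (hwm.indicator hA.measurableSet)
    (hwm.indicator hB.measurableSet) (hwm.indicator hAB.measurableSet) ?_
  · rw [sub_sub_cancel] at h
    exact h
  · intro x y
    rw [sub_sub_cancel]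
    by_cases hx : x ∈ A
    · by_cases hy : y ∈ B
      · have hz : t • x + (1 - t) • y ∈ t • A + (1 - t) • B :=
          Set.add_mem_add (Set.smul_mem_smul_set hx) (Set.smul_mem_smul_set hy)
        rw [Set.indicator_of_mem hx, Set.indicator_of_mem hy, Set.indicator_of_mem hz]
        by_cases hxK : x ∈ K
        · by_cases hyK : y ∈ K
          · exact wt_mul_le hKc hV h0 h1 hxK hyK
          · have : wt K V y = 0 := Set.indicator_of_notMem hyK _
            rw [this, ENNReal.zero_rpow_of_pos (by linarith), mul_zero]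
            exact bot_le
        · have : wt K V x = 0 := Set.indicator_of_notMem hxK _
          rw [this, ENNReal.zero_rpow_of_pos h0, zero_mul]
          exact bot_le
      · rw [Set.indicator_of_notMem hy, ENNReal.zero_rpow_of_pos (by linarith), mul_zero]
        exact bot_le
    · rw [Set.indicator_of_notMem hx, ENNReal.zero_rpow_of_pos h0, zero_mul]
      exact bot_le

end Q297.Tilt
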