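import Pool.Agent.Q297.TiltUp

open MeasureTheory Filter Topology ProbabilityTheory

namespace Q297.Tilt

open Q297.Lsi

/-- coordinates of a functional are square summable to the square of the norm -/
lemma sum_sq_le {n : ℕ} (L : EuclideanSpace ℝ (Fin n) →L[ℝ] ℝ) :
    ∑ j, (L (EuclideanSpace.single j 1)) ^ 2 ≤ ‖L‖ ^ 2 := by
  set v : EuclideanSpace ℝ (Fin n) := WithLp.toLp 2 (fun j => L (EuclideanSpace.single j 1)) with hv
  have h1 : v = ∑ j, (L (EuclideanSpace.single j 1)) • EuclideanSpace.single j (1:ℝ) := by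
    ext i
    simp [hv]
    rw [Finset.sum_eq_single i]
    · simp
    · intro j _ hj
      rw [Pi.single_eq_of_ne (Ne.symm hj)]
      simp
    · simp
  have h2 : L v = ∑ j, (L (EuclideanSpace.single j 1)) ^ 2 := by
    rw [h1, map_sum]
    refine Finset.sum_congr rfl fun j _ => ?_
    rw [map_smul, smul_eq_mul, sq]
  have h3 : ‖v‖ ^ 2 = ∑ j, (L (EuclideanSpace.single j 1)) ^ 2 := by
    rw [EuclideanSpace.norm_sq_eq]
    simp [hv]
  set S := ∑ j, (L (EuclideanSpace.single j 1)) ^ 2 with hS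
  have hS0 : 0 ≤ S := Finset.sum_nonneg fun j _ => sq_nonneg _
  have h4 : S ≤ ‖L‖ * ‖v‖ := by
    rw [← h2]
    exact (le_abs_self _).trans (L.le_opNorm v)
  rcases hS0.eq_or_lt with h0 | h0
  · rw [← h0]; positivity
  · have h5 : S ^ 2 ≤ ‖L‖ ^ 2 * S := by
      calc S ^ 2 ≤ (‖L‖ * ‖v‖) ^ 2 := pow_le_pow_left₀ hS0 h4 2
        _ = ‖L‖ ^ 2 * S := by rw [mul_pow, h3]
    nlinarith

namespace Par

variable (P : Par)

/-- the transport map on `ℝ^{n+1}` -/
noncomputable def TT (x : Fin (P.n + 1) → ℝ) : EuclideanSpace ℝ (Fin (P.n + 1)) :=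
  P.T (x 0, fun i => x i.succ)

lemma TT_eq (x : Fin (P.n + 1) → ℝ) : P.TT x = WithLp.toLp 2
    (Fin.cons (x 0) (fun i => P.R (x 0) * psi (x i.succ)) : Fin (P.n + 1) → ℝ) := rfl

lemma R_cont : Continuous P.R := by
  unfold R
  fun_prop

lemma TT_cont : Continuous P.TT := by
  have h : Continuous fun x : Fin (P.n + 1) → ℝ =>
      (Fin.cons (x 0) (fun i => P.R (x 0) * psi (x i.succ)) : Fin (P.n + 1) → ℝ) := by
    apply continuous_pi
    intro j
    refine Fin.cases ?_ (fun j => ?_) j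
    · simp only [Fin.cons_zero]; fun_prop
    · simp only [Fin.cons_succ]
      exact (P.R_cont.comp (continuous_apply 0)).mul (psi_cont.comp (continuous_apply _))
  exact (PiLp.continuous_toLp 2 _).comp h

/-- derivative of the transport map in the vertical direction -/
noncomputable def v0 (x : Fin (P.n + 1) → ℝ) : EuclideanSpace ℝ (Fin (P.n + 1)) :=
  WithLp.toLp 2 (Fin.cons 1 (fun i => P.s * psi (x i.succ)) : Fin (P.n + 1) → ℝ)

/-- derivative of the transport map in a horizontal direction -/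
noncomputable def v1 (i : Fin P.n) (x : Fin (P.n + 1) → ℝ) : EuclideanSpace ℝ (Fin (P.n + 1)) :=
  EuclideanSpace.single i.succ (P.R (x 0) * psi' (x i.succ))

lemma hasDeriv_toLp {m : ℕ} {u : ℝ → Fin m → ℝ} {u' : Fin m → ℝ} {t : ℝ}
    (h : ∀ j, HasDerivAt (fun s => u s j) (u' j) t) :
    HasDerivAt (fun s => (WithLp.toLp 2 (u s) : EuclideanSpace ℝ (Fin m))) (WithLp.toLp 2 u') t := by
  have h1 : HasDerivAt u u' t := hasDerivAt_pi.2 h
  have h2 := ((PiLp.continuousLinearEquiv 2 ℝ (fun _ : Fin m => ℝ)).symm :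
    (Fin m → ℝ) →L[ℝ] EuclideanSpace ℝ (Fin m)).hasFDerivAt.comp_hasDerivAt t h1
  exact h2

lemma TT_deriv0 (x : Fin (P.n + 1) → ℝ) (t : ℝ) :
    HasDerivAt (fun s => P.TT (Function.update x 0 s)) (P.v0 (Function.update x 0 t)) t := by
  simp only [TT_eq, v0]
  apply hasDeriv_toLp
  intro j
  refine Fin.cases ?_ (fun j => ?_) j
  · simp only [Fin.cons_zero, Function.update_self]
    exact hasDerivAt_id t
  · have hne : j.succ ≠ (0 : Fin (P.n + 1)) := Fin.succ_ne_zero j
    simp only [Fin.cons_succ, Function.update_self, Function.update_of_ne hne]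
    unfold R
    have := (((hasDerivAt_id t).const_mul P.s).const_add P.r).mul_const (psi (x j.succ))
    refine this.congr_deriv ?_
    ring

lemma TT_deriv1 (i : Fin P.n) (x : Fin (P.n + 1) → ℝ) (t : ℝ) :
    HasDerivAt (fun s => P.TT (Function.update x i.succ s)) (P.v1 i (Function.update x i.succ t)) t := by
  have hne0 : (0 : Fin (P.n + 1)) ≠ i.succ := (Fin.succ_ne_zero i).symm
  have e : P.v1 i (Function.update x i.succ t) = WithLp.toLp 2
      (Pi.single i.succ (P.R (x 0) * psi' t) : Fin (P.n + 1) → ℝ) := by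
    unfold v1
    rw [Function.update_self, Function.update_of_ne hne0]
    rfl
  rw [e]
  simp only [TT_eq]
  apply hasDeriv_toLp
  intro j
  refine Fin.cases ?_ (fun j => ?_) j
  · simp only [Fin.cons_zero, Function.update_of_ne hne0, Pi.single_eq_of_ne hne0]
    exact hasDerivAt_const t _
  · simp only [Fin.cons_succ, Function.update_of_ne hne0]
    by_cases hj : j = i
    · subst hj
      simp only [Function.update_self, Pi.single_eq_same]
      exact (psi_deriv t).const_mul _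
    · have hj2 : j.succ ≠ i.succ := fun h => hj (Fin.succ_injective _ h)
      simp only [Function.update_of_ne hj2, Pi.single_eq_of_ne hj2]
      exact hasDerivAt_const t _

lemma v0_norm (x : Fin (P.n + 1) → ℝ) : ‖P.v0 x‖ ^ 2 ≤ 1 + P.n * P.s ^ 2 := by
  rw [EuclideanSpace.norm_sq_eq, Fin.sum_univ_succ]
  have h1 : ∀ i : Fin P.n, ‖(P.v0 x) i.succ‖ ^ 2 ≤ P.s ^ 2 := by
    intro i
    have e : (P.v0 x) i.succ = P.s * psi (x i.succ) := rfl
    rw [e, Real.norm_eq_abs, abs_mul, mul_pow, sq_abs]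
    have h2 := pow_le_pow_left₀ (abs_nonneg _) (psi_abs (x i.succ)) 2
    rw [one_pow] at h2
    nlinarith [sq_nonneg P.s]
  have e0 : (P.v0 x) 0 = 1 := rfl
  rw [e0, norm_one, one_pow]
  have h3 := Finset.sum_le_sum (s := Finset.univ) fun i (_ : i ∈ Finset.univ) => h1 i
  rw [Finset.sum_const, Finset.card_univ, Fintype.card_fin, nsmul_eq_mul] at h3
  linarith

/-- partial derivatives of `g ∘ TT` -/
noncomputable def DT (g : EuclideanSpace ℝ (Fin (P.n + 1)) → ℝ) (k : Fin (P.n + 1))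
    (x : Fin (P.n + 1) → ℝ) : ℝ :=
  fderiv ℝ g (P.TT x) ((Fin.cons (P.v0 x) (fun i => P.v1 i x) : Fin (P.n + 1) →
    EuclideanSpace ℝ (Fin (P.n + 1))) k)

lemma DT_zero (g : EuclideanSpace ℝ (Fin (P.n + 1)) → ℝ) (x : Fin (P.n + 1) → ℝ) :
    P.DT g 0 x = fderiv ℝ g (P.TT x) (P.v0 x) := rfl

lemma DT_succ (g : EuclideanSpace ℝ (Fin (P.n + 1)) → ℝ) (i : Fin P.n) (x : Fin (P.n + 1) → ℝ) :
    P.DT g i.succ x = fderiv ℝ g (P.TT x) (P.v1 i x) := rfl

lemma v0_cont : Continuous P.v0 := by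
  have h : Continuous fun x : Fin (P.n + 1) → ℝ =>
      (Fin.cons 1 (fun i => P.s * psi (x i.succ)) : Fin (P.n + 1) → ℝ) := by
    apply continuous_pi
    intro j
    refine Fin.cases ?_ (fun j => ?_) j
    · simp only [Fin.cons_zero]; fun_prop
    · simp only [Fin.cons_succ]
      exact continuous_const.mul (psi_cont.comp (continuous_apply _))
  exact (PiLp.continuous_toLp 2 _).comp h

lemma v1_eq (i : Fin P.n) (x : Fin (P.n + 1) → ℝ) : P.v1 i x =
    (P.R (x 0) * psi' (x i.succ)) • EuclideanSpace.single i.succ (1:ℝ) := by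
  unfold v1
  ext j
  simp

lemma v1_cont (i : Fin P.n) : Continuous (P.v1 i) := by
  have : P.v1 i = fun x => (P.R (x 0) * psi' (x i.succ)) • EuclideanSpace.single i.succ (1:ℝ) := by
    funext x
    exact P.v1_eq i x
  rw [this]
  exact ((P.R_cont.comp (continuous_apply 0)).mul (psi'_cont.comp (continuous_apply _))).smul
    continuous_const

lemma DT_cont {g : EuclideanSpace ℝ (Fin (P.n + 1)) → ℝ} (hg : ContDiff ℝ 1 g) (k : Fin (P.n + 1)) :
    Continuous (P.DT g k) := by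
  have h := (hg.continuous_fderiv (by norm_num)).comp P.TT_cont
  unfold DT
  refine Fin.cases ?_ (fun j => ?_) k
  · simp only [Fin.cons_zero]
    exact h.clm_apply P.v0_cont
  · simp only [Fin.cons_succ]
    exact h.clm_apply (P.v1_cont j)

lemma TT_norm_ge (x : Fin (P.n + 1) → ℝ) : |x 0| ≤ ‖P.TT x‖ := by
  have h := PiLp.norm_apply_le (P.TT x) 0
  rwa [Real.norm_eq_abs] at h

lemma CC1_TT {g : EuclideanSpace ℝ (Fin (P.n + 1)) → ℝ} (hg : ContDiff ℝ 1 g)
    (hs : HasCompactSupport g) : ∃ L, CC1 (fun x => g (P.TT x)) (P.DT g) L := by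
  obtain ⟨M, hM⟩ := (hg.continuous_fderiv (by norm_num)).bounded_above_of_compact_support
    (hs.fderiv ℝ)
  obtain ⟨ρ, hρ⟩ := isBounded_iff_forall_norm_le.1 hs.isCompact.isBounded
  have hM0 : 0 ≤ M := (norm_nonneg _).trans (hM 0)
  have hr := P.hr
  have hsp := P.hs
  set ρ' := max ρ 0 with hρ'
  have hρ0 : 0 ≤ ρ' := le_max_right _ _
  refine ⟨M * (1 + P.n * P.s ^ 2) + M * (P.r + P.s * ρ'), ⟨?_, fun k => (P.DT_cont hg k).measurable,
    fun x k t => ?_, fun x k => ?_, fun k x => ?_⟩⟩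
  · exact (hg.continuous.comp P.TT_cont).measurable
  · have hd : HasFDerivAt g (fderiv ℝ g (P.TT (Function.update x k t))) (P.TT (Function.update x k t)) :=
      (hg.differentiable (by norm_num) _).hasFDerivAt
    revert hd
    refine Fin.cases ?_ (fun i => ?_) k
    · intro hd
      exact hd.comp_hasDerivAt t (P.TT_deriv0 x t)
    · intro hd
      exact hd.comp_hasDerivAt t (P.TT_deriv1 i x t)
  · exact (P.DT_cont hg k).comp (continuous_const.update k continuous_id)
  · refine Fin.cases ?_ (fun i => ?_) k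
    · rw [DT_zero]
      have h1 : |fderiv ℝ g (P.TT x) (P.v0 x)| ≤ ‖fderiv ℝ g (P.TT x)‖ * ‖P.v0 x‖ := by
        have := (fderiv ℝ g (P.TT x)).le_opNorm (P.v0 x)
        rwa [Real.norm_eq_abs] at this
      have h2 : ‖P.v0 x‖ ≤ 1 + P.n * P.s ^ 2 := by
        have := P.v0_norm x
        have h0 : (0:ℝ) ≤ P.n * P.s ^ 2 := by positivity
        by_contra hcon
        push Not at hcon
        nlinarith
      have h3 : ‖fderiv ℝ g (P.TT x)‖ * ‖P.v0 x‖ ≤ M * (1 + P.n * P.s ^ 2) :=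
        mul_le_mul (hM _) h2 (norm_nonneg _) hM0
      have h4 : 0 ≤ M * (P.r + P.s * ρ') := by positivity
      linarith
    · rw [DT_succ, v1_eq, map_smul, smul_eq_mul, abs_mul]
      by_cases hx : P.TT x ∈ tsupport g
      · have h1 : |x 0| ≤ ρ' := (P.TT_norm_ge x).trans ((hρ _ hx).trans (le_max_left _ _))
        have h2 : |P.R (x 0) * psi' (x i.succ)| ≤ P.r + P.s * ρ' := by
          rw [abs_mul, abs_of_pos (psi'_pos _)]
          have h3 : |P.R (x 0)| ≤ P.r + P.s * ρ' := by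
            unfold R
            calc |P.r + P.s * x 0| ≤ |P.r| + |P.s * x 0| := abs_add_le _ _
              _ = P.r + P.s * |x 0| := by rw [abs_mul, abs_of_pos hr, abs_of_pos hsp]
              _ ≤ _ := by gcongr
          calc |P.R (x 0)| * psi' (x i.succ) ≤ (P.r + P.s * ρ') * 1 :=
                mul_le_mul h3 (psi'_le _) (psi'_pos _).le (by positivity)
            _ = _ := mul_one _
        have h4 : |fderiv ℝ g (P.TT x) (EuclideanSpace.single i.succ 1)| ≤ M := by
          have := (fderiv ℝ g (P.TT x)).le_opNorm (EuclideanSpace.single i.succ (1:ℝ))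
          rw [Real.norm_eq_abs, PiLp.norm_single, norm_one, mul_one] at this
          exact this.trans (hM _)
        have h5 : |P.R (x 0) * psi' (x i.succ)| * |fderiv ℝ g (P.TT x) (EuclideanSpace.single i.succ 1)| ≤
            (P.r + P.s * ρ') * M := mul_le_mul h2 h4 (abs_nonneg _) (by positivity)
        have h6 : 0 ≤ M * (1 + P.n * P.s ^ 2) := by positivity
        linarith
      · rw [fderiv_of_notMem_tsupport ℝ hx]
        simp only [_root_.zero_apply, abs_zero, mul_zero]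
        positivity

/-- the base measure -/
noncomputable def base : Fin (P.n + 1) → Measure ℝ := Fin.cons P.muq (fun _ => gaussianReal 0 1)

lemma base_prob (ha : 1 / 2 ≤ P.a) : ∀ i, IsProbabilityMeasure (P.base i) := by
  intro i
  have := P.muq_prob ha
  refine Fin.cases ?_ (fun i => ?_) i
  · simp only [base, Fin.cons_zero]; exact this
  · simp only [base, Fin.cons_succ]; infer_instance

lemma pim_base (ha : 1 / 2 ≤ P.a) : P.pim = (Measure.pi P.base).map P.TT := by
  have := P.base_prob ha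
  have h := cns_mp P.base
  have e : (P.base 0).prod (Measure.pi fun j : Fin P.n => P.base j.succ) = P.muq.prod (gpi P.n) := rfl
  rw [e] at h
  rw [P.pim_eq ha, ← h.map_eq, Measure.map_map P.TT_cont.measurable h.measurable]
  rfl

/-- constants -/
noncomputable def CC : Fin (P.n + 1) → ℝ := Fin.cons P.C0 (fun _ => 2)

/-- the final constant -/
noncomputable def kappa : ℝ := P.C0 * (1 + P.n * P.s ^ 2) + 2 * (P.r + P.s) ^ 2

lemma pim_prob (ha : 1 / 2 ≤ P.a) : IsProbabilityMeasure P.pim := by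
  have := P.base_prob ha
  rw [P.pim_base ha]
  exact Measure.isProbabilityMeasure_map P.TT_cont.measurable.aemeasurable

lemma base_ae (ha : 1 / 2 ≤ P.a) : ∀ᵐ x ∂(Measure.pi P.base), x 0 ∈ Set.Ioo (0:ℝ) 1 := by
  have := P.base_prob ha
  have h1 : ∀ᵐ y ∂(P.base 0), y ∈ Set.Ioo (0:ℝ) 1 := by
    have e : P.base 0 = P.muq := rfl
    rw [e, muq]
    exact (withDensity_absolutelyContinuous _ _).ae_le (ae_restrict_mem measurableSet_Ioo)
  exact (measurePreserving_eval P.base 0).quasiMeasurePreserving.ae h1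

/-- LSI for compactly supported test functions -/
lemma lsi_pim_compact (ha : 1 / 2 ≤ P.a) {g : EuclideanSpace ℝ (Fin (P.n + 1)) → ℝ}
    (hg : ContDiff ℝ 1 g) (hs : HasCompactSupport g) :
    Ent P.pim (fun x => g x ^ 2) ≤ P.kappa * ∫ x, ‖fderiv ℝ g x‖ ^ 2 ∂P.pim := by
  have ha0 : 0 < P.a := by linarith
  have hprob := P.base_prob ha
  have hpp := P.pim_prob ha
  have hr := P.hr
  have hsp := P.hs
  obtain ⟨L, hL⟩ := P.CC1_TT hg hs
  obtain ⟨B, hB⟩ := hg.continuous.bounded_above_of_compact_support hs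
  obtain ⟨M, hM⟩ := (hg.continuous_fderiv (by norm_num)).bounded_above_of_compact_support
    (hs.fderiv ℝ)
  have hM0 : 0 ≤ M := (norm_nonneg _).trans (hM 0)
  have hC0 : 0 ≤ P.C0 := by unfold C0; positivity
  have hC : ∀ i, 0 ≤ P.CC i := by
    intro i
    refine Fin.cases ?_ (fun i => ?_) i
    · simp only [CC, Fin.cons_zero]; exact hC0
    · simp only [CC, Fin.cons_succ]; norm_num
  have hLSI : ∀ i, LSI1 (P.base i) (P.CC i) := by
    intro i
    refine Fin.cases ?_ (fun i => ?_) i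
    · simp only [CC, base, Fin.cons_zero]; exact P.lsi_muq ha
    · simp only [CC, base, Fin.cons_succ]; exact gauss_lsi1
  have h := lsi_pi P.base hC hLSI hL (B := B) (fun x => by
    rw [← Real.norm_eq_abs]; exact hB _)
  have hgc : Continuous fun x => ‖fderiv ℝ g x‖ ^ 2 := ((hg.continuous_fderiv (by norm_num)).norm).pow 2
  rw [P.pim_base ha, Ent_map P.TT_cont.measurable (hg.continuous.measurable.pow_const 2),
    integral_map P.TT_cont.measurable.aemeasurable hgc.aestronglyMeasurable]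
  refine h.trans ?_
  have hDi : ∀ k, Integrable (fun x => P.DT g k x ^ 2) (Measure.pi P.base) := fun k =>
    int_of_bdd (B := L ^ 2) ((hL.measD k).pow_const 2) fun x => by
      rw [abs_pow]; exact pow_le_pow_left₀ (abs_nonneg _) (hL.bound k x) 2
  have e1 : ∑ i, P.CC i * ∫ x, P.DT g i x ^ 2 ∂(Measure.pi P.base) =
      ∫ x, ∑ i, P.CC i * P.DT g i x ^ 2 ∂(Measure.pi P.base) := by
    rw [integral_finsetSum _ fun i _ => (hDi i).const_mul _]
    refine Finset.sum_congr rfl fun i _ => ?_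
    rw [integral_const_mul]
  have hgi : Integrable (fun x => ‖fderiv ℝ g (P.TT x)‖ ^ 2) (Measure.pi P.base) :=
    int_of_bdd (B := M ^ 2) (hgc.comp P.TT_cont).measurable fun x => by
      rw [abs_of_nonneg (by positivity)]
      exact pow_le_pow_left₀ (norm_nonneg _) (hM _) 2
  rw [e1, ← integral_const_mul]
  apply integral_mono_ae (integrable_finsetSum _ fun i _ => (hDi i).const_mul _) (hgi.const_mul _)
  filter_upwards [P.base_ae ha] with x hx
  rw [Fin.sum_univ_succ]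
  simp only [DT_zero, DT_succ]
  have e2 : P.CC 0 = P.C0 := rfl
  have e3 : ∀ i : Fin P.n, P.CC i.succ = 2 := fun _ => rfl
  rw [e2]
  simp only [e3, v1_eq, map_smul, smul_eq_mul, mul_pow]
  set Λ := fderiv ℝ g (P.TT x) with hΛ
  have h1 : (Λ (P.v0 x)) ^ 2 ≤ ‖Λ‖ ^ 2 * (1 + P.n * P.s ^ 2) := by
    have h2 := Λ.le_opNorm (P.v0 x)
    calc (Λ (P.v0 x)) ^ 2 = ‖Λ (P.v0 x)‖ ^ 2 := by rw [Real.norm_eq_abs, sq_abs]
      _ ≤ (‖Λ‖ * ‖P.v0 x‖) ^ 2 := pow_le_pow_left₀ (norm_nonneg _) h2 2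
      _ = ‖Λ‖ ^ 2 * ‖P.v0 x‖ ^ 2 := by rw [mul_pow]
      _ ≤ _ := mul_le_mul_of_nonneg_left (P.v0_norm x) (sq_nonneg _)
  have h3 : ∀ i : Fin P.n, 2 * (P.R (x 0) ^ 2 * psi' (x i.succ) ^ 2 *
      (Λ (EuclideanSpace.single i.succ 1)) ^ 2) ≤
      2 * (P.r + P.s) ^ 2 * (Λ (EuclideanSpace.single i.succ 1)) ^ 2 := by
    intro i
    have hR0 := P.R_pos hx.1.le
    have hR1 : P.R (x 0) ≤ P.r + P.s := by unfold R; nlinarith [hx.2]
    have h4 : P.R (x 0) ^ 2 ≤ (P.r + P.s) ^ 2 := pow_le_pow_left₀ hR0.le hR1 2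
    have h5 : psi' (x i.succ) ^ 2 ≤ 1 := by
      have := pow_le_pow_left₀ (psi'_pos (x i.succ)).le (psi'_le (x i.succ)) 2
      simpa using this
    have h6 : P.R (x 0) ^ 2 * psi' (x i.succ) ^ 2 ≤ (P.r + P.s) ^ 2 * 1 :=
      mul_le_mul h4 h5 (sq_nonneg _) (sq_nonneg _)
    nlinarith [sq_nonneg (Λ (EuclideanSpace.single i.succ 1))]
  have h7 : ∑ i : Fin P.n, (Λ (EuclideanSpace.single i.succ 1)) ^ 2 ≤ ‖Λ‖ ^ 2 := by
    have h8 := sum_sq_le Λ
    rw [Fin.sum_univ_succ] at h8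
    nlinarith [sq_nonneg (Λ (EuclideanSpace.single 0 1))]
  calc P.C0 * (Λ (P.v0 x)) ^ 2 + ∑ i : Fin P.n, 2 * (P.R (x 0) ^ 2 * psi' (x i.succ) ^ 2 *
        (Λ (EuclideanSpace.single i.succ 1)) ^ 2)
      ≤ P.C0 * (‖Λ‖ ^ 2 * (1 + P.n * P.s ^ 2)) +
        ∑ i : Fin P.n, 2 * (P.r + P.s) ^ 2 * (Λ (EuclideanSpace.single i.succ 1)) ^ 2 :=
        add_le_add (mul_le_mul_of_nonneg_left h1 hC0) (Finset.sum_le_sum fun i _ => h3 i)
    _ = P.C0 * (‖Λ‖ ^ 2 * (1 + P.n * P.s ^ 2)) + 2 * (P.r + P.s) ^ 2 *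
        ∑ i : Fin P.n, (Λ (EuclideanSpace.single i.succ 1)) ^ 2 := by rw [← Finset.mul_sum]
    _ ≤ P.C0 * (‖Λ‖ ^ 2 * (1 + P.n * P.s ^ 2)) + 2 * (P.r + P.s) ^ 2 * ‖Λ‖ ^ 2 := by gcongr
    _ = P.kappa * ‖Λ‖ ^ 2 := by unfold kappa; ring

end Par

end Q297.Tilt
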