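import Pool.Agent.Q297.TiltDefs
import Pool.Agent.Q297.TiltLsi

open MeasureTheory Filter Topology ProbabilityTheory
open scoped ContDiff

namespace Q297.Tilt

open Q297.Lsi

namespace Par

variable (P : Par)

lemma pim_ae : ∀ᵐ x ∂P.pim, x ∈ P.K := by
  unfold pim
  exact (tilted_absolutelyContinuous _ _).ae_le (ae_restrict_mem P.K_meas)

/-- LSI for smooth test functions -/
lemma lsi_pim (ha : 1 / 2 ≤ P.a) {f : EuclideanSpace ℝ (Fin (P.n + 1)) → ℝ}
    (hf : ContDiff ℝ ∞ f) :
    Ent P.pim (fun x => f x ^ 2) ≤ P.kappa * ∫ x, ‖fderiv ℝ f x‖ ^ 2 ∂P.pim := by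
  obtain ⟨ρ, hρ⟩ := isBounded_iff_forall_norm_le.1 P.K_bounded
  set ρ' := max ρ 0 with hρ'
  have hρ0 : 0 ≤ ρ' := le_max_right _ _
  let χ : ContDiffBump (0 : EuclideanSpace ℝ (Fin (P.n + 1))) := ⟨ρ' + 1, ρ' + 2, by linarith, by linarith⟩
  have hχ : ContDiff ℝ 1 (fun x => χ x * f x) := (χ.contDiff.mul (hf.of_le (by
    exact_mod_cast le_top)))
  have hcs : HasCompactSupport (fun x => χ x * f x) := χ.hasCompactSupport.mul_right
  have hnear : ∀ x ∈ P.K, (fun x => χ x * f x) =ᶠ[𝓝 x] f := by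
    intro x hx
    have hx2 : x ∈ Metric.ball (0 : EuclideanSpace ℝ (Fin (P.n + 1))) χ.rIn := by
      rw [Metric.mem_ball, dist_zero_right]
      have h1 := hρ x hx
      have h2 : ρ ≤ ρ' := le_max_left _ _
      change ‖x‖ < ρ' + 1
      linarith
    filter_upwards [χ.eventuallyEq_one_of_mem_ball hx2] with y hy
    rw [hy]
    simp
  have h := P.lsi_pim_compact ha hχ hcs
  have e1 : Ent P.pim (fun x => (χ x * f x) ^ 2) = Ent P.pim (fun x => f x ^ 2) := by
    have hae : (fun x => (χ x * f x) ^ 2) =ᵐ[P.pim] (fun x => f x ^ 2) := by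
      filter_upwards [P.pim_ae] with x hx
      rw [(hnear x hx).eq_of_nhds]
    unfold Ent
    rw [integral_congr_ae hae]
    congr 1
    refine integral_congr_ae ?_
    filter_upwards [hae] with x hx
    rw [hx]
  have e2 : ∫ x, ‖fderiv ℝ (fun x => χ x * f x) x‖ ^ 2 ∂P.pim = ∫ x, ‖fderiv ℝ f x‖ ^ 2 ∂P.pim := by
    refine integral_congr_ae ?_
    filter_upwards [P.pim_ae] with x hx
    rw [(hnear x hx).fderiv_eq]
  rw [e1, e2] at h
  exact h

lemma gibbs_eq : gibbs P.K (fun x => -(P.b * x 0)) = P.pim := by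
  unfold gibbs pim
  simp only [neg_neg]

lemma kappa_nonneg (ha : 1 / 2 ≤ P.a) : 0 ≤ P.kappa := by
  have ha0 : 0 < P.a := by linarith
  unfold kappa C0
  positivity

lemma CLSI_le (ha : 1 / 2 ≤ P.a) : CLSI P.pim ≤ ENNReal.ofReal P.kappa := by
  have hprob := P.pim_prob ha
  apply sInf_le
  intro f hf
  have h := P.lsi_pim ha hf
  have hc : Continuous fun x => ‖fderiv ℝ f x‖ ^ 2 :=
    ((hf.continuous_fderiv (by simp)).norm).pow 2
  have hi : Integrable (fun x => ‖fderiv ℝ f x‖ ^ 2) P.pim := by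
    obtain ⟨M, hM⟩ := P.K_compact.exists_bound_of_continuousOn hc.continuousOn
    refine Integrable.of_bound hc.aestronglyMeasurable M ?_
    filter_upwards [P.pim_ae] with x hx
    exact hM x hx
  rw [← ofReal_integral_eq_lintegral_ofReal hi (Eventually.of_forall fun x => by positivity),
    ← ENNReal.ofReal_mul (P.kappa_nonneg ha)]
  exact ENNReal.ofReal_le_ofReal h

/-! ### the tilted measure -/

lemma tilt_eq : gaussTilt P.pim 1 = (volume.restrict P.K).tilted
    (fun x => P.b * x 0 - ‖x‖ ^ 2 / 2) := by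
  unfold gaussTilt pim
  have hc : Continuous fun x : EuclideanSpace ℝ (Fin (P.n + 1)) => Real.exp (P.b * x 0) := by fun_prop
  rw [tilted_tilted (hc.continuousOn.integrableOn_compact P.K_compact)]
  congr 1
  funext x
  simp only [Pi.add_apply]
  ring

/-- total mass -/
noncomputable def Zp : ℝ := ∫ x in P.K, Real.exp (P.b * x 0 - ‖x‖ ^ 2 / 2)

lemma Zp_eq : ENNReal.ofReal P.Zp = ∫⁻ y in Set.Ioo (0:ℝ) 1, ENNReal.ofReal (P.p y) := by
  have hc : Continuous fun x : EuclideanSpace ℝ (Fin (P.n + 1)) =>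
    Real.exp (P.b * x 0 - ‖x‖ ^ 2 / 2) := by fun_prop
  have h := P.lint_K_tilt (fun _ => 1) measurable_const
  simp only [mul_one] at h
  rw [← h, Zp, ofReal_integral_eq_lintegral_ofReal (hc.continuousOn.integrableOn_compact P.K_compact)
    (Eventually.of_forall fun x => (Real.exp_pos _).le)]

lemma Zp_le : P.Zp ≤ Real.exp 3 * P.p 0 := by
  have h0 := P.p_pos le_rfl
  have h : ENNReal.ofReal P.Zp ≤ ENNReal.ofReal (Real.exp 3 * P.p 0) := by
    rw [P.Zp_eq]
    calc ∫⁻ y in Set.Ioo (0:ℝ) 1, ENNReal.ofReal (P.p y)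
        ≤ ∫⁻ y in Set.Ioo (0:ℝ) 1, ENNReal.ofReal (Real.exp 3 * P.p 0) := by
          refine setLIntegral_mono' measurableSet_Ioo fun y hy => ?_
          exact ENNReal.ofReal_le_ofReal (P.p_le hy.1.le hy.2.le)
      _ = _ := by simp
  exact (ENNReal.ofReal_le_ofReal_iff (by positivity)).1 h

lemma Zp_pos : 0 < P.Zp := by
  have h0 := P.p_pos le_rfl
  have h : ENNReal.ofReal (Real.exp (-3) * P.p 0) ≤ ENNReal.ofReal P.Zp := by
    rw [P.Zp_eq]
    calc _ = ∫⁻ y in Set.Ioo (0:ℝ) 1, ENNReal.ofReal (Real.exp (-3) * P.p 0) := by simp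
      _ ≤ _ := by
          refine setLIntegral_mono' measurableSet_Ioo fun y hy => ?_
          exact ENNReal.ofReal_le_ofReal (P.le_p hy.1.le hy.2.le)
  have h2 : 0 < ENNReal.ofReal (Real.exp (-3) * P.p 0) := ENNReal.ofReal_pos.2 (by positivity)
  exact ENNReal.ofReal_pos.1 (h2.trans_le h)

/-- functions of the height have large integrals under the tilted measure -/
lemma tilt_lower (g : ℝ → ENNReal) (hg : Measurable g) :
    ENNReal.ofReal (Real.exp (-6)) * ∫⁻ y in Set.Ioo (0:ℝ) 1, g y ≤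
      ∫⁻ x, g (x 0) ∂(gaussTilt P.pim 1) := by
  have hZ := P.Zp_pos
  have h0 := P.p_pos le_rfl
  rw [P.tilt_eq, lintegral_tilted]
  have e1 : ∀ x : EuclideanSpace ℝ (Fin (P.n + 1)),
      ENNReal.ofReal (Real.exp (P.b * x 0 - ‖x‖ ^ 2 / 2) /
        ∫ x in P.K, Real.exp (P.b * x 0 - ‖x‖ ^ 2 / 2)) * g (x 0) =
      ENNReal.ofReal (1 / P.Zp) * (ENNReal.ofReal (Real.exp (P.b * x 0 - ‖x‖ ^ 2 / 2)) * g (x 0)) := by
    intro x
    rw [← mul_assoc, ← ENNReal.ofReal_mul (by positivity)]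
    congr 2
    change _ / P.Zp = _
    ring
  simp only [e1]
  rw [lintegral_const_mul, P.lint_K_tilt g hg, ← lintegral_const_mul _ hg, ← lintegral_const_mul]
  · refine setLIntegral_mono' measurableSet_Ioo fun y hy => ?_
    rw [← mul_assoc, ← ENNReal.ofReal_mul (by positivity)]
    gcongr
    have h1 := P.le_p hy.1.le hy.2.le
    have h2 := P.Zp_le
    rw [one_div, ← div_eq_inv_mul, le_div_iff₀ hZ]
    calc Real.exp (-6) * P.Zp ≤ Real.exp (-6) * (Real.exp 3 * P.p 0) :=
          mul_le_mul_of_nonneg_left h2 (Real.exp_pos _).le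
      _ = Real.exp (-3) * P.p 0 := by
          rw [← mul_assoc, ← Real.exp_add]
          norm_num
      _ ≤ _ := h1
  · have : Measurable P.p := by
      unfold p
      have hJ : Continuous J := continuous_iff_continuousAt.2 fun x => (J_deriv x).continuousAt
      exact ((by fun_prop : Continuous fun y => Real.exp (P.b * y - y ^ 2 / 2)).mul
        ((hJ.comp P.R_cont).pow _)).measurable
    exact this.ennreal_ofReal.mul hg
  · exact (by fun_prop : Measurable fun x : EuclideanSpace ℝ (Fin (P.n + 1)) =>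
      Real.exp (P.b * x 0 - ‖x‖ ^ 2 / 2)).ennreal_ofReal.mul (hg.comp (by fun_prop))

lemma tilt_prob : IsProbabilityMeasure (gaussTilt P.pim 1) := by
  rw [P.tilt_eq]
  have hc : Continuous fun x : EuclideanSpace ℝ (Fin (P.n + 1)) =>
    Real.exp (P.b * x 0 - ‖x‖ ^ 2 / 2) := by fun_prop
  have hne : NeZero ((volume : Measure (EuclideanSpace ℝ (Fin (P.n + 1)))).restrict P.K) := by
    constructor
    intro h0
    have hZ := P.Zp_pos
    unfold Zp at hZ
    rw [h0, integral_zero_measure] at hZ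
    exact lt_irrefl _ hZ
  exact isProbabilityMeasure_tilted (hc.continuousOn.integrableOn_compact P.K_compact)

lemma tilt_ae : ∀ᵐ x ∂(gaussTilt P.pim 1), x ∈ P.K := by
  unfold gaussTilt
  exact (tilted_absolutelyContinuous _ _).ae_le P.pim_ae

/-- entropy dominates variance -/
lemma ent_ge_var {α : Type*} [MeasurableSpace α] {μ : Measure α} [IsProbabilityMeasure μ]
    {Y : α → ℝ} (hm : Measurable Y) (h0 : ∀ᵐ x ∂μ, 0 ≤ Y x) (h1 : ∀ᵐ x ∂μ, Y x ≤ 1) :
    ∃ A : ℝ, ∫ x, (Y x - A) ^ 2 ∂μ ≤ Ent μ (fun x => Y x ^ 2) := by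
  have hb : ∀ᵐ x ∂μ, |Y x| ≤ 1 := by
    filter_upwards [h0, h1] with x a b
    rw [abs_of_nonneg a]; exact b
  have i1 : Integrable Y μ := Integrable.of_bound hm.aestronglyMeasurable 1 hb
  have i2 : Integrable (fun x => Y x ^ 2) μ :=
    Integrable.of_bound (hm.pow_const 2).aestronglyMeasurable 1 (by
      filter_upwards [hb] with x hx
      rw [norm_pow, Real.norm_eq_abs]
      exact pow_le_one₀ (abs_nonneg _) hx)
  obtain ⟨M, hM⟩ := (isCompact_Icc (a := (0:ℝ)) (b := 1)).exists_bound_of_continuousOn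
    (f := fun t => t * Real.log t) Real.continuous_mul_log.continuousOn
  have i3 : Integrable (fun x => Y x ^ 2 * Real.log (Y x ^ 2)) μ := by
    refine Integrable.of_bound (Real.continuous_mul_log.measurable.comp
        (hm.pow_const 2)).aestronglyMeasurable M ?_
    filter_upwards [h0, h1] with x a b
    exact hM _ ⟨sq_nonneg _, pow_le_one₀ a b⟩
  set S := ∫ x, Y x ^ 2 ∂μ with hS
  have hS0 : 0 ≤ S := integral_nonneg fun x => sq_nonneg _
  refine ⟨Real.sqrt S, ?_⟩
  set A := Real.sqrt S with hA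
  have hAA : A ^ 2 = S := Real.sq_sqrt hS0
  have e1 : ∫ x, (Y x - A) ^ 2 ∂μ = S - 2 * A * (∫ x, Y x ∂μ) + S := by
    have : ∀ x, (Y x - A) ^ 2 = (Y x ^ 2 - 2 * A * Y x) + A ^ 2 := fun x => by ring
    simp only [this]
    have j1 : Integrable (fun x => 2 * A * Y x) μ := i1.const_mul _
    have j2 : Integrable (fun x => Y x ^ 2 - 2 * A * Y x) μ := i2.sub j1
    rw [integral_add j2 (integrable_const _), integral_sub i2 j1, integral_const_mul,
      integral_const, probReal_univ, one_smul, hAA]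
  rcases hS0.eq_or_lt with hz | hpos
  · -- degenerate case
    have hA0 : A = 0 := by rw [hA, ← hz, Real.sqrt_zero]
    rw [e1, hA0, ← hz]
    have hY : ∀ᵐ x ∂μ, Y x ^ 2 = 0 := by
      have := (integral_eq_zero_iff_of_nonneg (fun x => sq_nonneg (Y x)) i2).1 (hS.symm.trans hz.symm)
      exact this
    unfold Ent
    rw [← hS, ← hz]
    have : ∫ x, Y x ^ 2 * Real.log (Y x ^ 2) ∂μ = 0 := by
      rw [← integral_zero α ℝ (μ := μ)]
      refine integral_congr_ae ?_
      filter_upwards [hY] with x hx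
      rw [hx]; simp
    rw [this]
    simp
  · have hApos : 0 < A := Real.sqrt_pos.2 hpos
    have hpt : ∀ᵐ x ∂μ, Y x ^ 2 * Real.log S + (2 * Y x ^ 2 - 2 * A * Y x) ≤
        Y x ^ 2 * Real.log (Y x ^ 2) := by
      filter_upwards [h0] with x hx
      rcases hx.eq_or_lt with hz | hp
      · rw [← hz]; simp
      · have hl := Real.log_le_sub_one_of_pos (show 0 < A / Y x by positivity)
        rw [Real.log_div hApos.ne' hp.ne'] at hl
        have e2 : Real.log S = 2 * Real.log A := by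
          rw [← hAA, Real.log_pow]; norm_num
        have e3 : Real.log (Y x ^ 2) = 2 * Real.log (Y x) := by
          rw [Real.log_pow]; norm_num
        rw [e2, e3]
        have h5 : Y x ^ 2 * (Real.log A - Real.log (Y x)) ≤ Y x ^ 2 * (A / Y x - 1) :=
          mul_le_mul_of_nonneg_left hl (sq_nonneg _)
        have h6 : Y x ^ 2 * (A / Y x - 1) = A * Y x - Y x ^ 2 := by field_simp
        linarith
    have j1 : Integrable (fun x => 2 * A * Y x) μ := i1.const_mul _
    have j2 : Integrable (fun x => 2 * Y x ^ 2) μ := i2.const_mul _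
    have j3 : Integrable (fun x => 2 * Y x ^ 2 - 2 * A * Y x) μ := j2.sub j1
    have j4 : Integrable (fun x => Y x ^ 2 * Real.log S) μ := i2.mul_const _
    have h7 := integral_mono_ae (j4.add j3) i3 hpt
    simp only [Pi.add_apply] at h7
    rw [integral_add j4 j3, integral_sub j2 j1, integral_const_mul, integral_const_mul,
      integral_mul_const, ← hS] at h7
    rw [e1]
    unfold Ent
    rw [← hS]
    linarith

lemma tilt_ent : Real.exp (-6) / 12 ≤ Ent (gaussTilt P.pim 1) (fun x => (x 0) ^ 2) := by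
  have hprob := P.tilt_prob
  have h0 : ∀ᵐ x ∂(gaussTilt P.pim 1), 0 ≤ x 0 := by
    filter_upwards [P.tilt_ae] with x hx
    exact hx.1
  have h1 : ∀ᵐ x ∂(gaussTilt P.pim 1), x 0 ≤ 1 := by
    filter_upwards [P.tilt_ae] with x hx
    exact hx.2.1
  have hm : Measurable fun x : EuclideanSpace ℝ (Fin (P.n + 1)) => x 0 := by fun_prop
  obtain ⟨A, hA⟩ := ent_ge_var hm h0 h1
  refine le_trans ?_ hA
  have hl := P.tilt_lower (fun y => ENNReal.ofReal ((y - A) ^ 2)) (by fun_prop)
  have hi : Integrable (fun x : EuclideanSpace ℝ (Fin (P.n + 1)) => (x 0 - A) ^ 2)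
      (gaussTilt P.pim 1) := by
    refine Integrable.of_bound (by fun_prop) ((1 + |A|) ^ 2) ?_
    filter_upwards [h0, h1] with x a b
    rw [norm_pow, Real.norm_eq_abs]
    refine pow_le_pow_left₀ (abs_nonneg _) ?_ 2
    calc |x 0 - A| ≤ |x 0| + |A| := abs_sub _ _
      _ ≤ 1 + |A| := by rw [abs_of_nonneg a]; linarith
  have hc : Continuous fun y : ℝ => (y - A) ^ 2 := by fun_prop
  rw [← ofReal_integral_eq_lintegral_ofReal hi (Eventually.of_forall fun x => by positivity),
    ← ofReal_integral_eq_lintegral_ofReal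
      ((hc.continuousOn.integrableOn_compact isCompact_Icc).mono_set Set.Ioo_subset_Icc_self)
      (Eventually.of_forall fun x => by positivity),
    ← ENNReal.ofReal_mul (Real.exp_pos _).le,
    ENNReal.ofReal_le_ofReal_iff (integral_nonneg fun x => by positivity)] at hl
  refine le_trans ?_ hl
  have e : ∫ y in Set.Ioo (0:ℝ) 1, (y - A) ^ 2 = 1 / 3 - A + A ^ 2 := by
    rw [← integral_Ioc_eq_integral_Ioo, ← intervalIntegral.integral_of_le zero_le_one]
    have e2 : ∀ y : ℝ, (y - A) ^ 2 = y ^ 2 - 2 * A * y + A ^ 2 := fun y => by ring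
    simp only [e2]
    rw [intervalIntegral.integral_add, intervalIntegral.integral_sub,
      intervalIntegral.integral_const_mul, integral_pow, integral_id, intervalIntegral.integral_const]
    · norm_num
      ring
    · exact (by fun_prop : Continuous fun y : ℝ => y ^ 2).intervalIntegrable _ _
    · exact (by fun_prop : Continuous fun y : ℝ => 2 * A * y).intervalIntegrable _ _
    · exact (by fun_prop : Continuous fun y : ℝ => y ^ 2 - 2 * A * y).intervalIntegrable _ _
    · exact continuous_const.intervalIntegrable _ _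
  rw [e]
  have h5 := Real.exp_pos (-6)
  have h6 : 1 / 12 ≤ 1 / 3 - A + A ^ 2 := by nlinarith [sq_nonneg (A - 1 / 2)]
  calc Real.exp (-6) / 12 = Real.exp (-6) * (1 / 12) := by ring
    _ ≤ _ := mul_le_mul_of_nonneg_left h6 h5.le

lemma le_CLSI_tilt : ENNReal.ofReal (Real.exp (-6) / 12) ≤ CLSI (gaussTilt P.pim 1) := by
  have hprob := P.tilt_prob
  apply le_sInf
  intro C hC
  have hpr : ContDiff ℝ ∞ fun x : EuclideanSpace ℝ (Fin (P.n + 1)) => x 0 :=
    (EuclideanSpace.proj (𝕜 := ℝ) (0 : Fin (P.n + 1))).contDiff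
  have h := hC (fun x => x 0) hpr
  have h2 : ENNReal.ofReal (Real.exp (-6) / 12) ≤
      ENNReal.ofReal (entropy (gaussTilt P.pim 1) (fun x => (x 0) ^ 2)) :=
    ENNReal.ofReal_le_ofReal P.tilt_ent
  refine (h2.trans h).trans ?_
  have h3 : ∫⁻ x, ENNReal.ofReal (‖fderiv ℝ (fun x : EuclideanSpace ℝ (Fin (P.n + 1)) => x 0) x‖ ^ 2)
      ∂(gaussTilt P.pim 1) ≤ ∫⁻ _, 1 ∂(gaussTilt P.pim 1) := by
    refine lintegral_mono fun x => ?_
    have e : fderiv ℝ (fun x : EuclideanSpace ℝ (Fin (P.n + 1)) => x 0) x =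
        EuclideanSpace.proj (𝕜 := ℝ) (0 : Fin (P.n + 1)) :=
      (EuclideanSpace.proj (𝕜 := ℝ) (0 : Fin (P.n + 1))).fderiv
    rw [e, ← ENNReal.ofReal_one]
    apply ENNReal.ofReal_le_ofReal
    have h4 : ‖(EuclideanSpace.proj (𝕜 := ℝ) (0 : Fin (P.n + 1)) :
        EuclideanSpace ℝ (Fin (P.n + 1)) →L[ℝ] ℝ)‖ ≤ 1 := by
      refine ContinuousLinearMap.opNorm_le_bound _ zero_le_one fun x => ?_
      rw [one_mul]
      exact PiLp.norm_apply_le x 0
    exact pow_le_one₀ (norm_nonneg _) h4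
  calc C * ∫⁻ x, ENNReal.ofReal (‖fderiv ℝ (fun x : EuclideanSpace ℝ (Fin (P.n + 1)) => x 0) x‖ ^ 2)
      ∂(gaussTilt P.pim 1) ≤ C * ∫⁻ _, 1 ∂(gaussTilt P.pim 1) := mul_le_mul_right h3 C
    _ = C := by simp

end Par

end Q297.Tilt
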