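import Mathlib

open MeasureTheory Filter Topology

namespace Q297.Tilt

/-- truncated Gaussian integral -/
noncomputable def J (R : ℝ) : ℝ := ∫ t in (-R)..R, Real.exp (-(t ^ 2 / 2))

lemma g_cont : Continuous fun t : ℝ => Real.exp (-(t ^ 2 / 2)) := by fun_prop

lemma J_eq (R : ℝ) : J R = 2 * ∫ t in (0:ℝ)..R, Real.exp (-(t ^ 2 / 2)) := by
  unfold J
  have h1 : ∫ t in (-R)..0, Real.exp (-(t ^ 2 / 2)) = ∫ t in (0:ℝ)..R, Real.exp (-(t ^ 2 / 2)) := by
    have := intervalIntegral.integral_comp_neg (a := 0) (b := R) fun t : ℝ => Real.exp (-(t ^ 2 / 2))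
    simp only [neg_sq, neg_zero] at this
    exact this.symm
  rw [← intervalIntegral.integral_add_adjacent_intervals (b := 0) (g_cont.intervalIntegrable _ _)
    (g_cont.intervalIntegrable _ _), h1]
  ring

lemma J_deriv (R : ℝ) : HasDerivAt J (2 * Real.exp (-(R ^ 2 / 2))) R := by
  have h := (intervalIntegral.integral_hasDerivAt_right (g_cont.intervalIntegrable 0 R)
    g_cont.stronglyMeasurable.stronglyMeasurableAtFilter g_cont.continuousAt).const_mul 2
  exact h.congr_of_eventuallyEq (Eventually.of_forall fun x => J_eq x)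

lemma J_low {r : ℝ} (hr : 0 ≤ r) : 2 * r * Real.exp (-(r ^ 2 / 2)) * (1 + r ^ 2 / 3) ≤ J r := by
  unfold J
  have h1 : ∫ t in (-r)..r, Real.exp (-(r ^ 2 / 2)) * (1 + (r ^ 2 - t ^ 2) / 2) =
      2 * r * Real.exp (-(r ^ 2 / 2)) * (1 + r ^ 2 / 3) := by
    rw [intervalIntegral.integral_const_mul]
    have h2 : ∀ t : ℝ, 1 + (r ^ 2 - t ^ 2) / 2 = (1 + r ^ 2 / 2) - 1 / 2 * t ^ 2 := fun t => by ring
    simp only [h2]
    rw [intervalIntegral.integral_sub (by simp) (by
      exact (by fun_prop : Continuous fun t : ℝ => 1 / 2 * t ^ 2).intervalIntegrable _ _),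
      intervalIntegral.integral_const, intervalIntegral.integral_const_mul, integral_pow]
    simp only [smul_eq_mul]
    push_cast
    ring
  rw [← h1]
  apply intervalIntegral.integral_mono_on (by linarith)
  · exact (by fun_prop : Continuous fun t : ℝ =>
      Real.exp (-(r ^ 2 / 2)) * (1 + (r ^ 2 - t ^ 2) / 2)).intervalIntegrable _ _
  · exact g_cont.intervalIntegrable _ _
  · intro t ht
    have h3 : Real.exp (-(t ^ 2 / 2)) = Real.exp (-(r ^ 2 / 2)) * Real.exp ((r ^ 2 - t ^ 2) / 2) := by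
      rw [← Real.exp_add]
      congr 1
      ring
    rw [h3]
    refine mul_le_mul_of_nonneg_left ?_ (Real.exp_pos _).le
    have := Real.add_one_le_exp ((r ^ 2 - t ^ 2) / 2)
    linarith

lemma J_low' {r : ℝ} (hr : 0 ≤ r) : 2 * r * Real.exp (-(r ^ 2 / 2)) ≤ J r := by
  refine le_trans ?_ (J_low hr)
  have : 0 ≤ 2 * r * Real.exp (-(r ^ 2 / 2)) := by positivity
  nlinarith [sq_nonneg r]

lemma J_pos {r : ℝ} (hr : 0 < r) : 0 < J r :=
  lt_of_lt_of_le (by positivity) (J_low' hr.le)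

/-- logarithmic derivative of `J` -/
noncomputable def rho (R : ℝ) : ℝ := 2 * Real.exp (-(R ^ 2 / 2)) / J R

lemma rho_pos {r : ℝ} (hr : 0 < r) : 0 < rho r := by
  unfold rho
  have := J_pos hr
  positivity

lemma rho_le {r : ℝ} (hr : 0 < r) : rho r ≤ 1 / r := by
  unfold rho
  rw [div_le_div_iff₀ (J_pos hr) hr]
  have := J_low' hr.le
  linarith

lemma rho_le' {r : ℝ} (hr : 0 < r) : rho r ≤ 1 / (r * (1 + r ^ 2 / 3)) := by
  unfold rho
  rw [div_le_div_iff₀ (J_pos hr) (by positivity)]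
  have := J_low hr.le
  linarith

lemma rho_deriv {R : ℝ} (hR : 0 < R) : HasDerivAt rho (-(rho R * (R + rho R))) R := by
  have h1 : HasDerivAt (fun t : ℝ => 2 * Real.exp (-(t ^ 2 / 2))) (-(R * (2 * Real.exp (-(R ^ 2 / 2))))) R := by
    have h2 : HasDerivAt (fun t : ℝ => -(t ^ 2 / 2)) (-R) R := by
      have := (((hasDerivAt_id R).pow 2).div_const 2).neg
      refine this.congr_deriv ?_
      simp
    refine (h2.exp.const_mul 2).congr_deriv ?_
    ring
  have h3 := h1.div (J_deriv R) (J_pos hR).ne'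
  refine h3.congr_deriv ?_
  unfold rho
  have := J_pos hR
  field_simp
  ring

lemma rho_lip {r R : ℝ} (hr : 0 < r) (hR : r ≤ R) : |rho R - rho r| ≤ (1 + 1 / r ^ 2) * (R - r) := by
  have h := Convex.norm_image_sub_le_of_norm_hasDerivWithin_le (f := rho)
    (f' := fun R => -(rho R * (R + rho R))) (C := 1 + 1 / r ^ 2) (s := Set.Icc r R)
    (x := r) (y := R)
    (fun t ht => (rho_deriv (hr.trans_le ht.1)).hasDerivWithinAt) (fun t ht => ?_) (convex_Icc r R)
    ⟨le_refl r, hR⟩ ⟨hR, le_refl R⟩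
  · rw [Real.norm_eq_abs, Real.norm_eq_abs, abs_of_nonneg (by linarith : 0 ≤ R - r)] at h
    exact h
  · have ht0 : 0 < t := hr.trans_le ht.1
    have h1 := rho_pos ht0
    have h2 := rho_le ht0
    rw [Real.norm_eq_abs, abs_neg, abs_of_pos (by positivity)]
    have h3 : 1 / t ≤ 1 / r := one_div_le_one_div_of_le hr ht.1
    calc rho t * (t + rho t) = rho t * t + rho t * rho t := by ring
      _ ≤ 1 / t * t + 1 / t * (1 / t) := by gcongr
      _ = 1 + 1 / t * (1 / t) := by rw [one_div_mul_cancel ht0.ne']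
      _ ≤ 1 + 1 / r * (1 / r) := by gcongr
      _ = 1 + 1 / r ^ 2 := by rw [sq]; congr 1; field_simp

/-- parameters of the construction -/
structure Par where
  n : ℕ
  r : ℝ
  s : ℝ
  hr : 0 < r
  hr1 : r ≤ 1
  hs : 0 < s
  hns : n * s ^ 2 ≤ r ^ 2

namespace Par

variable (P : Par)

/-- half width of the section at height `y` -/
noncomputable def R (y : ℝ) : ℝ := P.r + P.s * y

/-- slope of the potential -/
noncomputable def b : ℝ := -(P.n * P.s * rho P.r)

/-- slope of the marginal -/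
noncomputable def a : ℝ := P.b + P.n * P.s / P.r

/-- relative marginal -/
noncomputable def q (y : ℝ) : ℝ := Real.exp (P.b * y) * (P.R y / P.r) ^ P.n

/-- relative marginal of the tilted measure -/
noncomputable def p (y : ℝ) : ℝ := Real.exp (P.b * y - y ^ 2 / 2) * J (P.R y) ^ P.n

lemma R_pos {y : ℝ} (hy : 0 ≤ y) : 0 < P.R y := by
  unfold R
  have := P.hr
  have := P.hs
  positivity

lemma a_ge : P.n * P.s * P.r / 4 ≤ P.a := by
  have hr := P.hr
  have hs := P.hs
  have hr1 := P.hr1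
  have h := rho_le' hr
  have e : P.a = P.n * P.s * (1 / P.r - rho P.r) := by
    unfold a b
    ring
  rw [e, mul_div_assoc]
  refine mul_le_mul_of_nonneg_left ?_ (by positivity)
  have h2 : 1 / P.r - 1 / (P.r * (1 + P.r ^ 2 / 3)) = P.r / (3 + P.r ^ 2) := by
    field_simp
    ring
  have h3 : P.r / 4 ≤ P.r / (3 + P.r ^ 2) := by
    apply div_le_div_of_nonneg_left hr.le (by positivity)
    nlinarith
  linarith

lemma q_le {y : ℝ} (hy : 0 ≤ y) : P.q y ≤ Real.exp (P.a * y) := by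
  have hr := P.hr
  have hs := P.hs
  unfold q a
  rw [add_mul, Real.exp_add]
  refine mul_le_mul_of_nonneg_left ?_ (Real.exp_pos _).le
  have e : P.R y / P.r = P.s * y / P.r + 1 := by
    unfold R
    field_simp
    ring
  have h1 : P.R y / P.r ≤ Real.exp (P.s * y / P.r) := by
    rw [e]
    exact Real.add_one_le_exp _
  have h2 : 0 ≤ P.R y / P.r := (div_pos (P.R_pos hy) hr).le
  calc (P.R y / P.r) ^ P.n ≤ (Real.exp (P.s * y / P.r)) ^ P.n := pow_le_pow_left₀ h2 h1 _
    _ = Real.exp (P.n * P.s / P.r * y) := by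
      rw [← Real.exp_nat_mul]
      congr 1
      ring

lemma le_q {y : ℝ} (hy : 0 ≤ y) (hy1 : y ≤ 1) : Real.exp (-(1 / 2)) * Real.exp (P.a * y) ≤ P.q y := by
  have hr := P.hr
  have hs := P.hs
  unfold q a
  rw [add_mul, Real.exp_add, mul_left_comm]
  refine mul_le_mul_of_nonneg_left ?_ (Real.exp_pos _).le
  set u := P.s * y / P.r with hu
  have hu0 : 0 ≤ u := by positivity
  have e : P.R y / P.r = 1 + u := by
    unfold R
    rw [hu]
    field_simp
  rw [e]
  have h1 : u - u ^ 2 / 2 ≤ Real.log (1 + u) := by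
    have h2 := Real.le_log_one_add_of_nonneg hu0
    refine le_trans ?_ h2
    rw [le_div_iff₀ (by positivity)]
    nlinarith [pow_nonneg hu0 3]
  have h3 : Real.exp (P.n * (u - u ^ 2 / 2)) ≤ (1 + u) ^ P.n := by
    rw [Real.exp_nat_mul]
    refine pow_le_pow_left₀ (Real.exp_pos _).le ?_ _
    rw [← Real.le_log_iff_exp_le (by positivity)]
    exact h1
  refine le_trans ?_ h3
  rw [← Real.exp_add]
  apply Real.exp_le_exp.2
  have h4 : P.n * u ^ 2 ≤ 1 := by
    have : P.n * u ^ 2 = (P.n * P.s ^ 2) / P.r ^ 2 * y ^ 2 := by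
      rw [hu]
      field_simp
    rw [this]
    have h5 : (P.n * P.s ^ 2) / P.r ^ 2 ≤ 1 := by
      rw [div_le_one (by positivity)]
      exact P.hns
    have h6 : y ^ 2 ≤ 1 := by nlinarith
    have h7 : 0 ≤ (P.n * P.s ^ 2) / P.r ^ 2 := by positivity
    nlinarith [sq_nonneg y]
  have h8 : P.n * P.s / P.r * y = P.n * u := by rw [hu]; ring
  rw [h8]
  linarith

/-- logarithm of `p` -/
noncomputable def G (y : ℝ) : ℝ := P.b * y - y ^ 2 / 2 + P.n * Real.log (J (P.R y))

lemma G_deriv {y : ℝ} (hy : 0 ≤ y) :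
    HasDerivAt P.G (P.b - y + P.n * (P.s * rho (P.R y))) y := by
  have hR := P.R_pos hy
  have h1 : HasDerivAt P.R P.s y := by
    unfold R
    have := ((hasDerivAt_id y).const_mul P.s).const_add P.r
    refine this.congr_deriv ?_
    ring
  have h2 := (((J_deriv (P.R y)).comp y h1).log (J_pos hR).ne').const_mul (P.n : ℝ)
  have h3 : HasDerivAt (fun t : ℝ => P.b * t - t ^ 2 / 2) (P.b - y) y := by
    have := ((hasDerivAt_id y).const_mul P.b).sub (((hasDerivAt_id y).pow 2).div_const 2)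
    refine this.congr_deriv ?_
    simp
  refine (h3.add h2).congr_deriv ?_
  unfold rho
  simp only [Function.comp]
  ring

lemma G_bound {y : ℝ} (hy : 0 ≤ y) (hy1 : y ≤ 1) : |P.G y - P.G 0| ≤ 3 := by
  have hr := P.hr
  have hs := P.hs
  have hr1 := P.hr1
  have h := Convex.norm_image_sub_le_of_norm_hasDerivWithin_le (f := P.G)
    (f' := fun y => P.b - y + P.n * (P.s * rho (P.R y))) (C := 3) (s := Set.Icc 0 1)
    (x := 0) (y := y)
    (fun t ht => (P.G_deriv ht.1).hasDerivWithinAt) (fun t ht => ?_) (convex_Icc 0 1)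
    ⟨le_refl 0, zero_le_one⟩ ⟨hy, hy1⟩
  · rw [Real.norm_eq_abs, Real.norm_eq_abs, sub_zero, abs_of_nonneg hy] at h
    linarith
  · have e : P.b - t + P.n * (P.s * rho (P.R t)) = -t + P.n * P.s * (rho (P.R t) - rho P.r) := by
      unfold b
      ring
    rw [Real.norm_eq_abs, e]
    have h1 : |rho (P.R t) - rho P.r| ≤ (1 + 1 / P.r ^ 2) * (P.s * t) := by
      have := rho_lip hr (R := P.R t) (by unfold R; nlinarith [ht.1, mul_nonneg hs.le ht.1])
      refine this.trans (le_of_eq ?_)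
      unfold R
      ring
    have h2 : P.n * P.s * ((1 + 1 / P.r ^ 2) * (P.s * t)) ≤ 2 := by
      have e2 : P.n * P.s * ((1 + 1 / P.r ^ 2) * (P.s * t)) =
          (P.n * P.s ^ 2) * (1 + 1 / P.r ^ 2) * t := by ring
      rw [e2]
      have h3 : (P.n * P.s ^ 2) * (1 + 1 / P.r ^ 2) ≤ P.r ^ 2 * (1 + 1 / P.r ^ 2) :=
        mul_le_mul_of_nonneg_right P.hns (by positivity)
      have h4 : P.r ^ 2 * (1 + 1 / P.r ^ 2) = P.r ^ 2 + 1 := by field_simp
      have h5 : P.r ^ 2 ≤ 1 := by nlinarith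
      have h6 : 0 ≤ (P.n * P.s ^ 2) * (1 + 1 / P.r ^ 2) := by positivity
      have := ht.1
      have := ht.2
      nlinarith
    calc |-t + P.n * P.s * (rho (P.R t) - rho P.r)| ≤ |-t| + |P.n * P.s * (rho (P.R t) - rho P.r)| :=
          abs_add_le _ _
      _ = t + P.n * P.s * |rho (P.R t) - rho P.r| := by
          rw [abs_neg, abs_of_nonneg ht.1, abs_mul, abs_of_nonneg (by positivity : 0 ≤ P.n * P.s)]
      _ ≤ t + P.n * P.s * ((1 + 1 / P.r ^ 2) * (P.s * t)) := by
          have : 0 ≤ P.n * P.s := by positivity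
          gcongr
      _ ≤ 3 := by linarith [ht.2]

lemma p_eq {y : ℝ} (hy : 0 ≤ y) : P.p y = Real.exp (P.G y) := by
  unfold p G
  rw [Real.exp_add, Real.exp_nat_mul, Real.exp_log (J_pos (P.R_pos hy))]

lemma p_pos {y : ℝ} (hy : 0 ≤ y) : 0 < P.p y := by
  rw [P.p_eq hy]
  exact Real.exp_pos _

lemma p_le {y : ℝ} (hy : 0 ≤ y) (hy1 : y ≤ 1) : P.p y ≤ Real.exp 3 * P.p 0 := by
  rw [P.p_eq hy, P.p_eq le_rfl, ← Real.exp_add]
  apply Real.exp_le_exp.2
  have := (abs_le.1 (P.G_bound hy hy1)).2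
  linarith

lemma le_p {y : ℝ} (hy : 0 ≤ y) (hy1 : y ≤ 1) : Real.exp (-3) * P.p 0 ≤ P.p y := by
  rw [P.p_eq hy, P.p_eq le_rfl, ← Real.exp_add]
  apply Real.exp_le_exp.2
  have := (abs_le.1 (P.G_bound hy hy1)).1
  linarith

end Par

end Q297.Tilt
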