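import Pool.Agent.Q297.TiltPar
import Pool.Agent.Q297.LsiSlab

open MeasureTheory Filter Topology ProbabilityTheory

namespace Q297.Tilt

open Q297.Lsi

/-- gluing a first coordinate -/
def cns (n : ℕ) (p : ℝ × (Fin n → ℝ)) : Fin (n + 1) → ℝ := Fin.cons p.1 p.2

lemma cns_meas (n : ℕ) : Measurable (cns n) := by
  apply measurable_pi_lambda
  intro j
  refine Fin.cases ?_ (fun j => ?_) j
  · simpa [cns] using measurable_fst
  · simp only [cns, Fin.cons_succ]
    exact (measurable_pi_apply j).comp measurable_snd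

lemma cns_mp {n : ℕ} (μ : Fin (n + 1) → Measure ℝ) [∀ i, SigmaFinite (μ i)] :
    MeasurePreserving (cns n) ((μ 0).prod (Measure.pi fun j : Fin n => μ j.succ)) (Measure.pi μ) := by
  have h := (measurePreserving_piFinSuccAbove μ 0).symm
  have hsucc : (fun j : Fin n => μ ((0 : Fin (n + 1)).succAbove j)) = fun j => μ j.succ := by
    funext j; rw [Fin.zero_succAbove]
  rw [hsucc] at h
  have e : (cns n) = (MeasurableEquiv.piFinSuccAbove (fun _ : Fin (n + 1) => ℝ) 0).symm := by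
    funext p
    rw [MeasurableEquiv.eq_symm_apply]
    apply Prod.ext
    · rfl
    · rfl
  rw [e]
  exact h

/-- gluing a first coordinate, Euclidean space -/
noncomputable def emb (n : ℕ) (p : ℝ × (Fin n → ℝ)) : EuclideanSpace ℝ (Fin (n + 1)) :=
  WithLp.toLp 2 (cns n p)

@[simp] lemma emb_zero {n : ℕ} (p : ℝ × (Fin n → ℝ)) : emb n p 0 = p.1 := rfl
@[simp] lemma emb_succ {n : ℕ} (p : ℝ × (Fin n → ℝ)) (i : Fin n) : emb n p i.succ = p.2 i := rfl

lemma emb_mp (n : ℕ) : MeasurePreserving (emb n) (volume : Measure (ℝ × (Fin n → ℝ))) volume :=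
  (PiLp.volume_preserving_toLp (Fin (n + 1))).comp (cns_mp (fun _ : Fin (n + 1) => (volume : Measure ℝ)))

namespace Par

variable (P : Par)

/-- the convex body -/
def K : Set (EuclideanSpace ℝ (Fin (P.n + 1))) :=
  {x | 0 ≤ x 0 ∧ x 0 ≤ 1 ∧ ∀ i : Fin P.n, |x i.succ| ≤ P.r + P.s * x 0}

lemma K_closed : IsClosed P.K := by
  have h1 : IsClosed {x : EuclideanSpace ℝ (Fin (P.n + 1)) | 0 ≤ x 0} :=
    isClosed_le continuous_const (by fun_prop)
  have h2 : IsClosed {x : EuclideanSpace ℝ (Fin (P.n + 1)) | x 0 ≤ 1} :=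
    isClosed_le (by fun_prop) continuous_const
  have h3 : ∀ i : Fin P.n, IsClosed {x : EuclideanSpace ℝ (Fin (P.n + 1)) |
      |x i.succ| ≤ P.r + P.s * x 0} := fun i =>
    isClosed_le (by fun_prop) (by fun_prop)
  have e : P.K = {x : EuclideanSpace ℝ (Fin (P.n + 1)) | 0 ≤ x 0} ∩
      ({x : EuclideanSpace ℝ (Fin (P.n + 1)) | x 0 ≤ 1} ∩
      ⋂ i : Fin P.n, {x : EuclideanSpace ℝ (Fin (P.n + 1)) | |x i.succ| ≤ P.r + P.s * x 0}) := by
    ext x
    simp only [K, Set.mem_ofPred_eq, Set.mem_inter_iff, Set.mem_iInter]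
  rw [e]
  exact h1.inter (h2.inter (isClosed_iInter h3))

lemma K_bounded : Bornology.IsBounded P.K := by
  rw [isBounded_iff_forall_norm_le]
  refine ⟨Real.sqrt (∑ _i : Fin (P.n + 1), (1 + (P.r + P.s)) ^ 2), fun x hx => ?_⟩
  rw [EuclideanSpace.norm_eq]
  apply Real.sqrt_le_sqrt
  apply Finset.sum_le_sum
  intro i _
  obtain ⟨h0, h1, h2⟩ := hx
  have hr := P.hr
  have hs := P.hs
  refine Fin.cases ?_ (fun i => ?_) i
  · rw [Real.norm_eq_abs, abs_of_nonneg h0]
    apply pow_le_pow_left₀ h0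
    linarith
  · rw [Real.norm_eq_abs]
    apply pow_le_pow_left₀ (abs_nonneg _)
    have := h2 i
    nlinarith

lemma K_compact : IsCompact P.K := Metric.isCompact_of_isClosed_isBounded P.K_closed P.K_bounded

lemma K_convex : Convex ℝ P.K := by
  intro x hx y hy a b ha hb hab
  obtain ⟨x0, x1, x2⟩ := hx
  obtain ⟨y0, y1, y2⟩ := hy
  have e : ∀ j, (a • x + b • y) j = a * x j + b * y j := fun j => by
    simp
  refine ⟨?_, ?_, fun i => ?_⟩
  · rw [e]; positivity
  · rw [e]; nlinarith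
  · rw [e, e]
    have h1 := mul_le_mul_of_nonneg_left (x2 i) ha
    have h2 := mul_le_mul_of_nonneg_left (y2 i) hb
    calc |a * x i.succ + b * y i.succ| ≤ |a * x i.succ| + |b * y i.succ| := abs_add_le _ _
      _ = a * |x i.succ| + b * |y i.succ| := by
        rw [abs_mul, abs_mul, abs_of_nonneg ha, abs_of_nonneg hb]
      _ ≤ a * (P.r + P.s * x 0) + b * (P.r + P.s * y 0) := add_le_add h1 h2
      _ = (a + b) * P.r + P.s * (a * x 0 + b * y 0) := by ring
      _ = P.r + P.s * (a * x 0 + b * y 0) := by rw [hab, one_mul]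

lemma K_meas : MeasurableSet P.K := P.K_closed.measurableSet

lemma R_meas : Measurable P.R := by
  unfold R
  fun_prop

lemma preimage_K : emb P.n ⁻¹' P.K = slab P.n P.R := by
  ext p
  simp only [K, slab, R, Set.mem_preimage, Set.mem_ofPred_eq, emb_zero, emb_succ, Set.mem_Icc, and_assoc]

lemma lint_K (G : EuclideanSpace ℝ (Fin (P.n + 1)) → ENNReal) (hG : Measurable G) :
    ∫⁻ x in P.K, G x = ∫⁻ y in Set.Ioo (0:ℝ) 1, ∫⁻ x in cube P.n (P.R y), G (emb P.n (y, x)) := by
  rw [← (emb_mp P.n).setLIntegral_comp_preimage P.K_meas hG, P.preimage_K,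
    lint_slab P.n P.R_meas (fun p => G (emb P.n p)) (hG.comp (emb_mp P.n).measurable)]

/-- the map from the product of `(0,1)` with Gaussian space onto the body -/
noncomputable def T (p : ℝ × (Fin P.n → ℝ)) : EuclideanSpace ℝ (Fin (P.n + 1)) :=
  emb P.n (p.1, fun i => P.R p.1 * psi (p.2 i))

lemma T_meas : Measurable P.T := by
  unfold T
  refine (emb_mp P.n).measurable.comp (measurable_fst.prodMk (measurable_pi_lambda _ fun i => ?_))
  exact (P.R_meas.comp measurable_fst).mul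
    (psi_cont.measurable.comp ((measurable_pi_apply i).comp measurable_snd))

lemma lint_K_gauss (G : EuclideanSpace ℝ (Fin (P.n + 1)) → ENNReal) (hG : Measurable G) :
    ∫⁻ x in P.K, G x = ∫⁻ y in Set.Ioo (0:ℝ) 1,
      ENNReal.ofReal ((2 * P.R y) ^ P.n) * ∫⁻ w, G (P.T (y, w)) ∂(gpi P.n) := by
  rw [P.lint_K G hG]
  refine setLIntegral_congr_fun measurableSet_Ioo fun y hy => ?_
  exact lint_cube_gauss P.n (P.R_pos hy.1.le) (fun x => G (emb P.n (y, x)))
    (hG.comp ((emb_mp P.n).measurable.comp (measurable_const.prodMk measurable_id)))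

/-- the norm of a point of the body -/
lemma norm_emb {n : ℕ} (p : ℝ × (Fin n → ℝ)) : ‖emb n p‖ ^ 2 = p.1 ^ 2 + ∑ i, p.2 i ^ 2 := by
  rw [EuclideanSpace.norm_sq_eq, Fin.sum_univ_succ]
  simp

lemma lint_gauss_one {R : ℝ} (hR : 0 < R) :
    ∫⁻ t in Set.Icc (-R) R, ENNReal.ofReal (Real.exp (-(t ^ 2 / 2))) = ENNReal.ofReal (J R) := by
  rw [← ofReal_integral_eq_lintegral_ofReal]
  · rw [integral_Icc_eq_integral_Ioc, ← intervalIntegral.integral_of_le (by linarith), J]
  · exact (g_cont.continuousOn.integrableOn_compact isCompact_Icc)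
  · exact Eventually.of_forall fun t => (Real.exp_pos _).le

lemma lint_gauss_cube (n : ℕ) {R : ℝ} (hR : 0 < R) :
    ∫⁻ x in cube n R, ENNReal.ofReal (Real.exp (-((∑ i, x i ^ 2) / 2))) =
      ENNReal.ofReal (J R ^ n) := by
  have hf : ∀ i : Fin n, Measurable fun t : ℝ => ENNReal.ofReal (Real.exp (-(t ^ 2 / 2))) :=
    fun _ => g_cont.measurable.ennreal_ofReal
  have hres : (volume : Measure (Fin n → ℝ)).restrict (cube n R) =
      Measure.pi fun _ : Fin n => (volume : Measure ℝ).restrict (Set.Icc (-R) R) := by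
    rw [cube, volume_pi, Measure.restrict_pi_pi]
  have hexp : ∀ x : Fin n → ℝ, Real.exp (-((∑ i, x i ^ 2) / 2)) = ∏ i, Real.exp (-(x i ^ 2 / 2)) := by
    intro x
    rw [← Real.exp_sum]
    congr 1
    rw [Finset.sum_neg_distrib, Finset.sum_div]
  rw [hres]
  simp only [hexp]
  have h1 : ∫ x, ∏ i, Real.exp (-(x i ^ 2 / 2)) ∂(Measure.pi fun _ : Fin n =>
      (volume : Measure ℝ).restrict (Set.Icc (-R) R)) = J R ^ n := by
    have := integral_fintype_prod_eq_prod (μ := fun _ : Fin n => (volume : Measure ℝ).restrict (Set.Icc (-R) R))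
      (f := fun _ t => Real.exp (-(t ^ 2 / 2)))
    rw [this, Finset.prod_const, Finset.card_univ, Fintype.card_fin]
    congr 1
    rw [integral_Icc_eq_integral_Ioc, ← intervalIntegral.integral_of_le (by linarith), J]
  rw [← ofReal_integral_eq_lintegral_ofReal, h1]
  · rw [← hres]
    have hc : Continuous fun x : Fin n → ℝ => ∏ i, Real.exp (-(x i ^ 2 / 2)) := by fun_prop
    exact hc.continuousOn.integrableOn_compact (isCompact_univ_pi fun _ => isCompact_Icc)
  · exact Eventually.of_forall fun x => Finset.prod_nonneg fun i _ => (Real.exp_pos _).le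

/-- marginal of the tilted measure -/
lemma lint_K_tilt (g : ℝ → ENNReal) (hg : Measurable g) :
    ∫⁻ x in P.K, ENNReal.ofReal (Real.exp (P.b * x 0 - ‖x‖ ^ 2 / 2)) * g (x 0) =
      ∫⁻ y in Set.Ioo (0:ℝ) 1, ENNReal.ofReal (P.p y) * g y := by
  rw [P.lint_K _ ?_]
  · refine setLIntegral_congr_fun measurableSet_Ioo fun y hy => ?_
    have hR := P.R_pos hy.1.le
    have e : ∀ x : Fin P.n → ℝ, ENNReal.ofReal (Real.exp (P.b * (emb P.n (y, x)) 0 -
        ‖emb P.n (y, x)‖ ^ 2 / 2)) * g ((emb P.n (y, x)) 0) =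
        (ENNReal.ofReal (Real.exp (P.b * y - y ^ 2 / 2)) * g y) *
        ENNReal.ofReal (Real.exp (-((∑ i, x i ^ 2) / 2))) := by
      intro x
      rw [emb_zero, norm_emb]
      simp only
      have : P.b * y - (y ^ 2 + ∑ i, x i ^ 2) / 2 = (P.b * y - y ^ 2 / 2) + (-((∑ i, x i ^ 2) / 2)) := by
        ring
      rw [this, Real.exp_add, ENNReal.ofReal_mul (Real.exp_pos _).le]
      ring
    simp only [e]
    rw [lintegral_const_mul _ (by fun_prop), lint_gauss_cube P.n hR]
    unfold p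
    rw [ENNReal.ofReal_mul (Real.exp_pos _).le]
    ring
  · exact (by fun_prop : Measurable fun x : EuclideanSpace ℝ (Fin (P.n + 1)) =>
      Real.exp (P.b * x 0 - ‖x‖ ^ 2 / 2)).ennreal_ofReal.mul (hg.comp (by fun_prop))

end Par

end Q297.Tilt
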