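import Pool.Agent.Q297.TiltSet
import Pool.Agent.Q297.LsiHS

open MeasureTheory Filter Topology ProbabilityTheory

namespace Q297.Tilt

open Q297.Lsi

namespace Par

variable (P : Par)

/-- the logconcave measure -/
noncomputable def pim : Measure (EuclideanSpace ℝ (Fin (P.n + 1))) :=
  (volume.restrict P.K).tilted (fun x => P.b * x 0)

/-- total mass of `q` -/
noncomputable def Zq : ℝ := ∫ y in Set.Ioo (0:ℝ) 1, P.q y

/-- height marginal -/
noncomputable def muq : Measure ℝ :=
  (volume.restrict (Set.Ioo (0:ℝ) 1)).withDensity (fun y => ENNReal.ofReal (P.q y / P.Zq))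

lemma q_cont : Continuous P.q := by
  unfold q R
  fun_prop

lemma q_pos {y : ℝ} (hy : 0 ≤ y) : 0 < P.q y := by
  unfold q
  have := P.R_pos hy
  have := P.hr
  positivity

lemma q_int : IntegrableOn P.q (Set.Ioo (0:ℝ) 1) :=
  (P.q_cont.continuousOn.integrableOn_compact isCompact_Icc).mono_set Set.Ioo_subset_Icc_self

lemma cexp_pos {a : ℝ} (ha : 0 < a) : 0 < cexp a := by
  unfold cexp
  have := one_sub_exp_pos ha
  positivity

lemma int_exp {a : ℝ} (ha : 1 / 2 ≤ a) : ∫ y in Set.Ioo (0:ℝ) 1, Real.exp (a * y) = 1 / cexp a := by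
  have ha0 : 0 < a := by linarith
  have hc := cexp_pos ha0
  have h1 := (isProb_muA ha).measure_univ
  unfold muA at h1
  rw [withDensity_apply _ MeasurableSet.univ, Measure.restrict_univ,
    ← ofReal_integral_eq_lintegral_ofReal, integral_const_mul] at h1
  · have h2 : 0 ≤ ∫ y in Set.Ioo (0:ℝ) 1, Real.exp (a * y) :=
      integral_nonneg fun y => (Real.exp_pos _).le
    have h3 : cexp a * ∫ y in Set.Ioo (0:ℝ) 1, Real.exp (a * y) = 1 := by
      have := congrArg ENNReal.toReal h1
      rwa [ENNReal.toReal_ofReal (by positivity), ENNReal.toReal_one] at this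
    rw [eq_div_iff hc.ne']
    linarith
  · have hcont : Continuous fun y : ℝ => cexp a * Real.exp (a * y) := by fun_prop
    exact (hcont.continuousOn.integrableOn_compact isCompact_Icc).mono_set Set.Ioo_subset_Icc_self
  · exact Eventually.of_forall fun y => by positivity

lemma exp_int (a : ℝ) : IntegrableOn (fun y => Real.exp (a * y)) (Set.Ioo (0:ℝ) 1) := by
  have hcont : Continuous fun y : ℝ => Real.exp (a * y) := by fun_prop
  exact (hcont.continuousOn.integrableOn_compact isCompact_Icc).mono_set Set.Ioo_subset_Icc_self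

lemma Zq_le (ha : 1 / 2 ≤ P.a) : P.Zq ≤ 1 / cexp P.a := by
  rw [← int_exp ha]
  exact setIntegral_mono_on P.q_int (exp_int _) measurableSet_Ioo fun y hy => P.q_le hy.1.le

lemma le_Zq (ha : 1 / 2 ≤ P.a) : Real.exp (-(1 / 2)) * (1 / cexp P.a) ≤ P.Zq := by
  rw [← int_exp ha, ← integral_const_mul]
  exact setIntegral_mono_on ((exp_int _).const_mul _) P.q_int measurableSet_Ioo
    fun y hy => P.le_q hy.1.le hy.2.le

lemma Zq_pos (ha : 1 / 2 ≤ P.a) : 0 < P.Zq := by
  have := cexp_pos (show 0 < P.a by linarith)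
  exact lt_of_lt_of_le (by positivity) (P.le_Zq ha)

lemma muq_prob (ha : 1 / 2 ≤ P.a) : IsProbabilityMeasure P.muq := ⟨by
  have hZ := P.Zq_pos ha
  unfold muq
  rw [withDensity_apply _ MeasurableSet.univ, Measure.restrict_univ,
    ← ofReal_integral_eq_lintegral_ofReal]
  · rw [integral_div]
    change ENNReal.ofReal (P.Zq / P.Zq) = 1
    rw [div_self hZ.ne', ENNReal.ofReal_one]
  · exact P.q_int.div_const _
  · refine (ae_restrict_mem measurableSet_Ioo).mono fun y hy => ?_
    exact (div_pos (P.q_pos hy.1.le) hZ).le⟩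

lemma muq_le (ha : 1 / 2 ≤ P.a) : P.muq ≤ ENNReal.ofReal (Real.exp (1 / 2)) • muA P.a := by
  have hZ := P.Zq_pos ha
  have hc := cexp_pos (show 0 < P.a by linarith)
  unfold muq muA
  rw [← withDensity_smul _ (by fun_prop)]
  apply withDensity_mono
  refine (ae_restrict_mem measurableSet_Ioo).mono fun y hy => ?_
  simp only [Pi.smul_apply, smul_eq_mul]
  rw [← ENNReal.ofReal_mul (Real.exp_pos _).le]
  apply ENNReal.ofReal_le_ofReal
  rw [div_le_iff₀ hZ]
  have h1 := P.q_le hy.1.le
  have h2 := P.le_Zq ha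
  have h3 : 1 ≤ Real.exp (1 / 2) * cexp P.a * P.Zq := by
    have e : Real.exp (1 / 2) * Real.exp (-(1 / 2)) = 1 := by rw [← Real.exp_add]; simp
    calc (1:ℝ) = Real.exp (1 / 2) * cexp P.a * (Real.exp (-(1 / 2)) * (1 / cexp P.a)) := by
          field_simp
          rw [e]
      _ ≤ _ := mul_le_mul_of_nonneg_left h2 (by positivity)
  calc P.q y ≤ Real.exp (P.a * y) * 1 := by rw [mul_one]; exact h1
    _ ≤ Real.exp (P.a * y) * (Real.exp (1 / 2) * cexp P.a * P.Zq) :=
        mul_le_mul_of_nonneg_left h3 (Real.exp_pos _).le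
    _ = _ := by ring

lemma le_muq (ha : 1 / 2 ≤ P.a) : muA P.a ≤ ENNReal.ofReal (Real.exp (1 / 2)) • P.muq := by
  have hZ := P.Zq_pos ha
  have hc := cexp_pos (show 0 < P.a by linarith)
  unfold muq muA
  rw [← withDensity_smul _ (by
    exact (P.q_cont.measurable.div_const _).ennreal_ofReal)]
  apply withDensity_mono
  refine (ae_restrict_mem measurableSet_Ioo).mono fun y hy => ?_
  simp only [Pi.smul_apply, smul_eq_mul]
  rw [← ENNReal.ofReal_mul (Real.exp_pos _).le]
  apply ENNReal.ofReal_le_ofReal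
  rw [← mul_div_assoc, le_div_iff₀ hZ]
  have h1 := P.le_q hy.1.le hy.2.le
  have h2 := P.Zq_le ha
  have h3 : cexp P.a * P.Zq ≤ 1 := by
    calc cexp P.a * P.Zq ≤ cexp P.a * (1 / cexp P.a) := mul_le_mul_of_nonneg_left h2 hc.le
      _ = 1 := by field_simp
  have e : Real.exp (1 / 2) * Real.exp (-(1 / 2)) = 1 := by rw [← Real.exp_add]; simp
  calc cexp P.a * Real.exp (P.a * y) * P.Zq = Real.exp (P.a * y) * (cexp P.a * P.Zq) := by ring
    _ ≤ Real.exp (P.a * y) * 1 := mul_le_mul_of_nonneg_left h3 (Real.exp_pos _).le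
    _ = Real.exp (1 / 2) * (Real.exp (-(1 / 2)) * Real.exp (P.a * y)) := by
        rw [← mul_assoc, e]; ring
    _ ≤ _ := mul_le_mul_of_nonneg_left h1 (Real.exp_pos _).le

/-- constant for the height marginal -/
noncomputable def C0 : ℝ := Real.exp (1 / 2) * Real.exp (1 / 2) * (4 / P.a)

lemma lsi_muq (ha : 1 / 2 ≤ P.a) : LSI1 P.muq P.C0 := by
  have := isProb_muA ha
  have := P.muq_prob ha
  have ha0 : 0 < P.a := by linarith
  exact holley (Real.exp_pos _).le (Real.exp_pos _).le (by positivity) (P.muq_le ha) (P.le_muq ha)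
    (lsi_muA ha)

lemma int_K_exp : ∫ x in P.K, Real.exp (P.b * x 0) = (2 * P.r) ^ P.n * P.Zq := by
  have hr := P.hr
  have hc : Continuous fun x : EuclideanSpace ℝ (Fin (P.n + 1)) => Real.exp (P.b * x 0) := by fun_prop
  have h1 := P.lint_K_gauss (fun x => ENNReal.ofReal (Real.exp (P.b * x 0))) (by fun_prop)
  rw [← ofReal_integral_eq_lintegral_ofReal (hc.continuousOn.integrableOn_compact P.K_compact)
    (Eventually.of_forall fun x => (Real.exp_pos _).le)] at h1
  have h2 : ∫⁻ y in Set.Ioo (0:ℝ) 1, ENNReal.ofReal ((2 * P.R y) ^ P.n) *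
      ∫⁻ w, ENNReal.ofReal (Real.exp (P.b * (P.T (y, w)) 0)) ∂(gpi P.n) =
      ∫⁻ y in Set.Ioo (0:ℝ) 1, ENNReal.ofReal ((2 * P.r) ^ P.n * P.q y) := by
    refine setLIntegral_congr_fun measurableSet_Ioo fun y hy => ?_
    have hR := P.R_pos hy.1.le
    have e : ∀ w : Fin P.n → ℝ, (P.T (y, w)) 0 = y := fun w => rfl
    simp only [e, lintegral_const, measure_univ, mul_one]
    rw [← ENNReal.ofReal_mul (by positivity)]
    congr 1
    unfold q
    rw [div_pow, mul_pow, mul_pow]
    field_simp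
  rw [h2, ← ofReal_integral_eq_lintegral_ofReal (P.q_int.const_mul _)
    ((ae_restrict_mem measurableSet_Ioo).mono fun y hy => by
      have := P.q_pos hy.1.le
      simp only [Pi.zero_apply]
      positivity), integral_const_mul] at h1
  have h3 := congrArg ENNReal.toReal h1
  rw [ENNReal.toReal_ofReal (integral_nonneg fun x => (Real.exp_pos _).le), ENNReal.toReal_ofReal] at h3
  · exact h3
  · have : 0 ≤ ∫ y in Set.Ioo (0:ℝ) 1, P.q y :=
      setIntegral_nonneg measurableSet_Ioo fun y hy => (P.q_pos hy.1.le).le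
    positivity

lemma pim_eq (ha : 1 / 2 ≤ P.a) : P.pim = (P.muq.prod (gpi P.n)).map P.T := by
  have hZ := P.Zq_pos ha
  have hr := P.hr
  have := P.muq_prob ha
  refine Measure.ext_of_lintegral _ fun G hG => ?_
  have hGT : Measurable fun p => G (P.T p) := hG.comp P.T_meas
  rw [lintegral_map hG P.T_meas, pim, lintegral_tilted, P.int_K_exp,
    lintegral_prod _ hGT.aemeasurable]
  have hm : Measurable fun x : EuclideanSpace ℝ (Fin (P.n + 1)) =>
      ENNReal.ofReal (Real.exp (P.b * x 0) / ((2 * P.r) ^ P.n * P.Zq)) := by fun_prop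
  have hmG : Measurable fun x : EuclideanSpace ℝ (Fin (P.n + 1)) =>
      ENNReal.ofReal (Real.exp (P.b * x 0) / ((2 * P.r) ^ P.n * P.Zq)) * G x := hm.mul hG
  rw [P.lint_K_gauss _ hmG, muq, lintegral_withDensity_eq_lintegral_mul _ 
    ((P.q_cont.measurable.div_const _).ennreal_ofReal) hGT.lintegral_prod_right']
  refine setLIntegral_congr_fun measurableSet_Ioo fun y hy => ?_
  have hR := P.R_pos hy.1.le
  have e : ∀ w : Fin P.n → ℝ, (P.T (y, w)) 0 = y := fun w => rfl
  have hGy : Measurable fun w : Fin P.n → ℝ => G (P.T (y, w)) := hGT.comp measurable_prodMk_left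
  simp only [e, Pi.mul_apply]
  rw [lintegral_const_mul _ hGy, ← mul_assoc,
    ← ENNReal.ofReal_mul (by positivity)]
  congr 2
  unfold q
  rw [div_pow, mul_pow, mul_pow]
  field_simp

end Par

end Q297.Tilt
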