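import Pool.Agent.Q297.TwoS

/-!
Tiny windows at sparse distances on both sides of the origin; reflection of the increments of a
two-sided path on all windows with a negative increment.
-/

open MeasureTheory ProbabilityTheory Set Filter Topology
open scoped ENNReal NNReal
open Q297.PathC Q297.Prepend Q297.TwoS

namespace Q297.Win

/-! ### independence over disjoint intervals -/

section Ind

variable {Ω : Type*} {mΩ : MeasurableSpace Ω} {P : Measure Ω} {Y : ℝ → Ω → ℝ}

lemma gauss_half {v : ℝ≥0} (hv : v ≠ 0) : (gaussianReal 0 v) (Ici 0) = 1 / 2 := by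
  have := nullSingletonClass_gaussianReal (μ := 0) hv
  have h1 : (gaussianReal 0 v) (Ici 0) = (gaussianReal 0 v) (Iic 0) := by
    have h2 : (gaussianReal 0 v).map (fun x => -x) = gaussianReal 0 v := by
      rw [gaussianReal_map_neg, neg_zero]
    conv_lhs => rw [← h2]
    rw [Measure.map_apply measurable_neg measurableSet_Ici]
    congr 1
    ext x
    simp
  have h3 : (gaussianReal 0 v) (Iic 0) + (gaussianReal 0 v) (Ioi 0) = 1 := by
    rw [← compl_Iic, measure_add_measure_compl measurableSet_Iic, measure_univ]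
  have h4 : (gaussianReal 0 v) (Ioi 0) = (gaussianReal 0 v) (Ici 0) := Ioi_ae_eq_Ici.measure_eq
  rw [h4, ← h1, ← two_mul] at h3
  rw [ENNReal.eq_div_iff (by norm_num) (by norm_num), h3]

lemma incr_indep (hY : BM2 Y P) {J : Type*} (p q : J → ℝ)
    (hd : ∀ i j, i ≠ j → q i ≤ p j ∨ q j ≤ p i) (hpq : ∀ i, p i ≤ q i) [Finite J] :
    iIndepFun (fun j ω => Y (q j) ω - Y (p j) ω) P := by
  have hg : HasGaussianLaw (fun ω (j : J) => Y (q j) ω - Y (p j) ω) P := by
    classical
    have := Fintype.ofFinite J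
    have h1 := (gp_lin hY.gauss (T := J) (ι := Fin 2) (fun _ => ![1, -1])
      (fun j => ![q j, p j])).hasGaussianLaw Finset.univ
    have h2 := h1.map_fun (ContinuousLinearMap.pi (R := ℝ) (φ := fun _ : J => ℝ) (fun j : J =>
      ContinuousLinearMap.proj (R := ℝ) (φ := fun _ => ℝ) (⟨j, Finset.mem_univ j⟩ :
      (Finset.univ : Finset J))))
    refine h2.congr (ae_of_all _ fun ω => ?_)
    funext j
    simp [Fin.sum_univ_two, sub_eq_add_neg]
  refine hg.iIndepFun_of_covariance_eq_zero fun i j hij => ?_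
  rw [hY.cov_incr]
  have hi := hpq i
  have hj := hpq j
  rcases hd i j hij with h | h
  · rw [abs_of_nonpos (by linarith), abs_of_nonpos (by linarith), abs_of_nonpos (by linarith),
      abs_of_nonpos (by linarith)]
    ring
  · rw [abs_of_nonneg (by linarith), abs_of_nonneg (by linarith), abs_of_nonneg (by linarith),
      abs_of_nonneg (by linarith)]
    ring

lemma incr_half (hY : BM2 Y P) {p q : ℝ} (h : p < q) : P {ω | 0 ≤ Y q ω - Y p ω} = 1 / 2 := by
  have hg : HasGaussianLaw (fun ω => Y q ω - Y p ω) P := hY.gauss.hasGaussianLaw_fun_sub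
  have h0 := hg.map_eq_gaussianReal
  have hp := hY.prob
  have hm : ∫ ω, (Y q ω - Y p ω) ∂P = 0 := by
    rw [integral_sub (hY.gauss.hasGaussianLaw_eval q).integrable
      (hY.gauss.hasGaussianLaw_eval p).integrable, hY.mean, hY.mean, sub_zero]
  have hv : Var[fun ω => Y q ω - Y p ω; P] = q - p := by
    rw [← covariance_self hg.aemeasurable, hY.cov_incr, abs_of_pos (by linarith : 0 < q - p),
      abs_of_neg (by linarith : p - q < 0), sub_self, sub_self, abs_zero]
    ring
  rw [hm, hv] at h0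
  have h1 : P {ω | 0 ≤ Y q ω - Y p ω} = (P.map fun ω => Y q ω - Y p ω) (Ici 0) := by
    rw [Measure.map_apply_of_aemeasurable hg.aemeasurable measurableSet_Ici]; rfl
  rw [h1, h0, gauss_half]
  simp only [ne_eq, Real.toNNReal_eq_zero, not_le]
  linarith

/-- **Increments over disjoint intervals**: all are nonnegative with probability `2^(-n)`. -/
lemma incr_all (hY : BM2 Y P) {ι : Type*} (J : Finset ι) (p q : ι → ℝ)
    (hd : ∀ i ∈ J, ∀ j ∈ J, i ≠ j → q i ≤ p j ∨ q j ≤ p i) (hpq : ∀ i, p i < q i) :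
    P {ω | ∀ j ∈ J, 0 ≤ Y (q j) ω - Y (p j) ω} = (1 / 2) ^ J.card := by
  have hi := incr_indep hY (J := J) (fun j => p j) (fun j => q j)
    (fun i j hij => hd i i.2 j j.2 (fun h => hij (Subtype.ext h))) (fun i => (hpq i).le)
  have h1 := hi.measure_inter_preimage_eq_mul Finset.univ (sets := fun _ => Ici 0)
    (fun _ _ => measurableSet_Ici)
  have h2 : (⋂ i ∈ (Finset.univ : Finset J), (fun ω => Y (q i) ω - Y (p i) ω) ⁻¹' Ici 0) =
      {ω | ∀ j ∈ J, 0 ≤ Y (q j) ω - Y (p j) ω} := by
    ext ω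
    simp
  rw [h2] at h1
  rw [h1]
  have h3 : ∀ i : J, P ((fun ω => Y (q i) ω - Y (p i) ω) ⁻¹' Ici 0) = 1 / 2 := fun i =>
    incr_half hY (hpq i)
  simp_rw [h3]
  simp

end Ind

/-! ### the windows -/

/-- the distances -/
def A : ℕ → ℕ
  | 0 => 10
  | n + 1 => A n + 2 ^ n * (2 * A n + 10) + 3

lemma A_ge (n : ℕ) : 10 ≤ A n := by
  induction n with
  | zero => exact le_rfl
  | succ n ih => rw [A]; omega

lemma A_succ (n : ℕ) : A (n + 1) = A n + 2 ^ n * (2 * A n + 10) + 3 := rfl

lemma A_mono : Monotone A := monotone_nat_of_le_succ fun n => by rw [A_succ]; omega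

lemma A_gap {n m : ℕ} (h : n < m) : A n + 2 ^ n * (2 * A n + 10) + 3 ≤ A m :=
  (A_succ n).symm ▸ A_mono (Nat.succ_le_of_lt h)

lemma le_A (n : ℕ) : n ≤ A n := by
  induction n with
  | zero => exact Nat.zero_le _
  | succ n ih => rw [A_succ]; omega

/-- gaps between consecutive distances, beyond the index `k` -/
lemma A_gap2 {k n : ℕ} (h : k < n) : A (n - 1) + 2 ^ k * (2 * A k + 10) + 3 ≤ A n := by
  have h1 := A_gap (n := n - 1) (m := n) (by omega)
  have h2 : 2 ^ k * (2 * A k + 10) ≤ 2 ^ (n - 1) * (2 * A (n - 1) + 10) :=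
    Nat.mul_le_mul (Nat.pow_le_pow_right (by norm_num) (by omega))
      (by have := A_mono (show k ≤ n - 1 by omega); omega)
  omega

/-- the lengths -/
noncomputable def dl (l : ℕ) : ℝ := (1 / 3) ^ (l + 1)

lemma dl_pos (l : ℕ) : 0 < dl l := by unfold dl; positivity

lemma dl_le (l : ℕ) : dl l ≤ 1 / 3 := by
  unfold dl
  calc (1 / 3 : ℝ) ^ (l + 1) ≤ (1 / 3) ^ 1 :=
        pow_le_pow_of_le_one (by norm_num) (by norm_num) (by omega)
    _ = 1 / 3 := pow_one _

abbrev Ix := ℕ × Bool

/-- the left end point of a window -/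
noncomputable def Pw (w : Ix) : ℝ := if w.2 then (A w.1 : ℝ) else -(A w.1 : ℝ) - dl w.1
/-- the right end point of a window -/
noncomputable def Qw (w : Ix) : ℝ := Pw w + dl w.1

lemma PQ (w : Ix) : Pw w < Qw w := by unfold Qw; linarith [dl_pos w.1]

lemma Pw_true (l : ℕ) : Pw (l, true) = A l := by simp [Pw]
lemma Pw_false (l : ℕ) : Pw (l, false) = -(A l : ℝ) - dl l := by simp [Pw]
lemma Qw_true (l : ℕ) : Qw (l, true) = A l + dl l := by simp [Qw, Pw]
lemma Qw_false (l : ℕ) : Qw (l, false) = -(A l : ℝ) := by simp [Qw, Pw]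

lemma A_ge' (n : ℕ) : (10 : ℝ) ≤ A n := by exact_mod_cast A_ge n

lemma A_gap' {n m : ℕ} (h : n < m) : (A n : ℝ) + 23 ≤ A m := by
  have h1 := A_gap h
  have h2 : 1 ≤ 2 ^ n := Nat.one_le_two_pow
  have h3 := A_ge n
  have h4 : A n + 23 ≤ A m := by nlinarith
  exact_mod_cast h4

/-- different windows are far apart -/
lemma sep {w w' : Ix} (h : w ≠ w') : 5 ≤ |Pw w - Pw w'| := by
  obtain ⟨l, b⟩ := w
  obtain ⟨l', b'⟩ := w'
  have d1 := dl_pos l
  have d2 := dl_le l
  have d3 := dl_pos l'
  have d4 := dl_le l'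
  have a1 := A_ge' l
  have a2 := A_ge' l'
  cases b <;> cases b'
  · have hne : l ≠ l' := fun e => h (by rw [e])
    rw [Pw_false, Pw_false]
    rcases Nat.lt_or_gt_of_ne hne with hl | hl
    · have := A_gap' hl
      rw [abs_of_nonneg (by linarith)]; linarith
    · have := A_gap' hl
      rw [abs_of_nonpos (by linarith)]; linarith
  · rw [Pw_false, Pw_true, abs_of_nonpos (by linarith)]; linarith
  · rw [Pw_false, Pw_true, abs_of_nonneg (by linarith)]; linarith
  · have hne : l ≠ l' := fun e => h (by rw [e])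
    rw [Pw_true, Pw_true]
    rcases Nat.lt_or_gt_of_ne hne with hl | hl
    · have := A_gap' hl
      rw [abs_of_nonpos (by linarith)]; linarith
    · have := A_gap' hl
      rw [abs_of_nonneg (by linarith)]; linarith

lemma sep' {w w' : Ix} (h : w ≠ w') : Qw w ≤ Pw w' ∨ Qw w' ≤ Pw w := by
  have h1 := sep h
  have d1 := dl_le w.1
  have d2 := dl_le w'.1
  unfold Qw
  rcases le_total (Pw w) (Pw w') with hle | hle
  · left
    rw [abs_of_nonpos (by linarith)] at h1
    linarith
  · right
    rw [abs_of_nonneg (by linarith)] at h1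
    linarith

/-! ### reflection of the increments -/

/-- the increment on the window `w` -/
noncomputable def inc (w : Ix) (y : Path2) : ℝ := y (Qw w) - y (Pw w)

/-- the increments within the window `w`, as a path -/
noncomputable def bump (w : Ix) (y : Path2) (t : ℝ) : ℝ := y (pr (Pw w) (Qw w) t) - y (pr (Pw w) (Qw w) 0)

lemma inc_meas (w : Ix) : Measurable (inc w) := (measurable_eval _).sub (measurable_eval _)

lemma bump_meas (w : Ix) (t : ℝ) : Measurable (fun y => bump w y t) :=
  (measurable_eval _).sub (measurable_eval _)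

lemma bump_cont (w : Ix) (y : Path2) : Continuous (bump w y) := by
  have := pr_cont (Pw w) (Qw w)
  unfold bump
  fun_prop

/-- the part of the correction on the window `w` -/
noncomputable def corr (w : Ix) (y : Path2) (t : ℝ) : ℝ := if inc w y < 0 then bump w y t else 0

lemma corr_cont (w : Ix) (y : Path2) : Continuous (corr w y) := by
  unfold corr
  split_ifs
  · exact bump_cont w y
  · exact continuous_const

lemma corr_meas (w : Ix) (t : ℝ) : Measurable (fun y => corr w y t) :=
  Measurable.ite (measurableSet_lt (inc_meas w) measurable_const) (bump_meas w t) measurable_const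

/-- `y` with its increments reflected on those windows of `F` with a negative increment -/
noncomputable def RF (F : Finset Ix) (y : Path2) : Path2 :=
  ⟨fun t => y t - 2 * ∑ w ∈ F, corr w y t, by
    have : ∀ w ∈ F, Continuous (corr w y) := fun w _ => corr_cont w y
    have h2 := continuous_finsetSum F this
    fun_prop⟩

lemma RF_apply (F : Finset Ix) (y : Path2) (t : ℝ) : RF F y t = y t - 2 * ∑ w ∈ F, corr w y t := rfl

lemma RF_meas (F : Finset Ix) : Measurable (RF F) := by
  refine measurable_of_eval fun t => ?_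
  simp only [RF_apply]
  exact (measurable_eval _).sub ((Finset.measurable_fun_sum F fun w _ => corr_meas w t).const_mul _)

/-- a window does not see the inside of another one -/
lemma bump_far {w w' : Ix} (h : w' ≠ w) (y : Path2) {x x' : ℝ} (hx : x ∈ Icc (Pw w) (Qw w))
    (hx' : x' ∈ Icc (Pw w) (Qw w)) : bump w' y x = bump w' y x' := by
  unfold bump
  have hp := (PQ w').le
  rcases sep' h with h1 | h1
  · rw [pr_high hp (h1.trans hx.1), pr_high hp (h1.trans hx'.1)]
  · rw [pr_low hp (hx.2.trans h1), pr_low hp (hx'.2.trans h1)]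

lemma corr_far {w w' : Ix} (h : w' ≠ w) (y : Path2) {x x' : ℝ} (hx : x ∈ Icc (Pw w) (Qw w))
    (hx' : x' ∈ Icc (Pw w) (Qw w)) : corr w' y x = corr w' y x' := by
  unfold corr
  rw [bump_far h y hx hx']

lemma RF_far {F : Finset Ix} {w : Ix} (h : w ∉ F) (y : Path2) {x x' : ℝ}
    (hx : x ∈ Icc (Pw w) (Qw w)) (hx' : x' ∈ Icc (Pw w) (Qw w)) :
    RF F y x - RF F y x' = y x - y x' := by
  rw [RF_apply, RF_apply, Finset.sum_congr rfl fun w' hw' =>
    corr_far (w := w) (fun e => h (e ▸ hw')) y hx hx']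
  ring

lemma inc_RF_far {F : Finset Ix} {w : Ix} (h : w ∉ F) (y : Path2) : inc w (RF F y) = inc w y :=
  RF_far h y (right_mem_Icc.2 (PQ w).le) (left_mem_Icc.2 (PQ w).le)

lemma bump_RF_far {F : Finset Ix} {w : Ix} (h : w ∉ F) (y : Path2) (t : ℝ) :
    bump w (RF F y) t = bump w y t :=
  RF_far h y (pr_mem (PQ w).le _) (pr_mem (PQ w).le _)

/-- the reflection on the window `w` -/
noncomputable def rw1 (w : Ix) : Path2 → Path2 := refl (Pw w) (Qw w)

lemma rw1_apply (w : Ix) (y : Path2) (t : ℝ) : rw1 w y t = y t - 2 * bump w y t := rfl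

lemma RF_insert {F : Finset Ix} {w : Ix} (h : w ∉ F) (y : Path2) :
    RF (insert w F) y = if inc w y < 0 then rw1 w (RF F y) else RF F y := by
  ext t
  rw [RF_apply, Finset.sum_insert h]
  split_ifs with h1
  · rw [rw1_apply, bump_RF_far h, RF_apply, corr, if_pos h1]; ring
  · rw [RF_apply, corr, if_neg h1]; ring

lemma inc_rw1_self (w : Ix) (y : Path2) : inc w (rw1 w y) = -inc w y := by
  unfold inc
  rw [rw1_apply, rw1_apply]
  unfold bump
  rw [pr_id (right_mem_Icc.2 (PQ w).le), pr_id (left_mem_Icc.2 (PQ w).le)]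
  ring

lemma inc_rw1_far {w w' : Ix} (h : w' ≠ w) (y : Path2) : inc w (rw1 w' y) = inc w y := by
  unfold inc
  rw [rw1_apply, rw1_apply, bump_far h y (right_mem_Icc.2 (PQ w).le) (left_mem_Icc.2 (PQ w).le)]
  ring

lemma inc_RF_mem {F : Finset Ix} {w : Ix} (h : w ∈ F) (y : Path2) : 0 ≤ inc w (RF F y) := by
  classical
  obtain ⟨F', hw, rfl⟩ : ∃ F' : Finset Ix, w ∉ F' ∧ F = insert w F' :=
    ⟨F.erase w, Finset.notMem_erase w F, (Finset.insert_erase h).symm⟩
  rw [RF_insert hw]
  split_ifs with h1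
  · rw [inc_rw1_self, inc_RF_far hw]; linarith
  · rw [inc_RF_far hw]; linarith

variable {W : Measure Path} (hW : IsBrownianReal (fun (t : ℝ≥0) (x : Path) => x t) W)

/-- all windows of `F` have a nonnegative increment -/
def Gd (F : Finset Ix) : Set Path2 := {y | ∀ w ∈ F, 0 ≤ inc w y}

lemma Gd_meas (F : Finset Ix) : MeasurableSet (Gd F) := by
  have : Gd F = ⋂ w ∈ F, {y | 0 ≤ inc w y} := by ext y; simp [Gd]
  rw [this]
  exact Finset.measurableSet_biInter F fun w _ => measurableSet_le measurable_const (inc_meas w)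

include hW

/-- the law of the reflected path is dominated by the conditioned law -/
lemma law_RF (F : Finset Ix) : ∀ B : Set Path2, MeasurableSet B →
    W2 W (RF F ⁻¹' B) ≤ 2 ^ F.card * W2 W (B ∩ Gd F) := by
  classical
  induction F using Finset.induction with
  | empty =>
    intro B hB
    have h1 : RF ∅ ⁻¹' B = B ∩ Gd ∅ := by
      ext y
      have : RF ∅ y = y := by ext t; simp [RF_apply]
      simp [Gd, this]
    rw [h1]; simp
  | insert w F hw ih =>
    intro B hB
    set U : Set Path2 := {y | inc w y < 0} with hU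
    have hUm : MeasurableSet U := measurableSet_lt (inc_meas w) measurable_const
    have hrm : Measurable (rw1 w) := refl_meas _ _
    set B' : Set Path2 := (rw1 w ⁻¹' B ∩ U) ∪ (B ∩ Uᶜ) with hB'
    have hB'm : MeasurableSet B' := ((hrm hB).inter hUm).union (hB.inter hUm.compl)
    have h1 : RF (insert w F) ⁻¹' B = RF F ⁻¹' B' := by
      ext y
      rw [mem_preimage, RF_insert hw]
      simp only [hB', hU, mem_preimage, mem_union, mem_inter_iff, mem_ofPred_eq, mem_compl_iff,
        inc_RF_far hw]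
      split_ifs with h
      · simp [h]
      · simp [h]
    have h2 : B' ∩ Gd F ⊆ rw1 w ⁻¹' (B ∩ Gd (insert w F)) ∪ (B ∩ Gd (insert w F)) := by
      rintro y ⟨hy | hy, hyF⟩
      · left
        refine ⟨hy.1, fun w' hw' => ?_⟩
        rcases Finset.mem_insert.1 hw' with rfl | h'
        · rw [inc_rw1_self]
          have : inc w' y < 0 := hy.2
          linarith
        · rw [inc_rw1_far (fun e : w = w' => hw (e ▸ h'))]
          exact hyF w' h'
      · right
        refine ⟨hy.1, fun w' hw' => ?_⟩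
        rcases Finset.mem_insert.1 hw' with rfl | h'
        · exact not_lt.1 hy.2
        · exact hyF w' h'
    have h3 : W2 W (rw1 w ⁻¹' (B ∩ Gd (insert w F))) = W2 W (B ∩ Gd (insert w F)) := by
      rw [← Measure.map_apply hrm (hB.inter (Gd_meas _))]
      unfold rw1
      rw [map_refl hW (PQ w).le]
    rw [h1, Finset.card_insert_of_notMem hw]
    calc W2 W (RF F ⁻¹' B') ≤ 2 ^ F.card * W2 W (B' ∩ Gd F) := ih B' hB'm
      _ ≤ 2 ^ F.card * (W2 W (B ∩ Gd (insert w F)) + W2 W (B ∩ Gd (insert w F))) := by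
          refine mul_le_mul_right ?_ _
          refine (measure_mono h2).trans ((measure_union_le _ _).trans ?_)
          rw [h3]
      _ = 2 ^ (F.card + 1) * W2 W (B ∩ Gd (insert w F)) := by ring

omit hW

/-! ### all windows -/

lemma bump_zero_true {l : ℕ} {t : ℝ} (h : t ≤ A l) (y : Path2) : bump (l, true) y t = 0 := by
  have hp := (PQ (l, true)).le
  have h1 : pr (Pw (l, true)) (Qw (l, true)) t = Pw (l, true) := pr_low hp (by rw [Pw_true]; exact h)
  have h2 : pr (Pw (l, true)) (Qw (l, true)) 0 = Pw (l, true) :=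
    pr_low hp (by rw [Pw_true]; positivity)
  unfold bump
  rw [h1, h2, sub_self]

lemma bump_zero_false {l : ℕ} {t : ℝ} (h : -(A l : ℝ) ≤ t) (y : Path2) : bump (l, false) y t = 0 := by
  have hp := (PQ (l, false)).le
  have h1 : pr (Pw (l, false)) (Qw (l, false)) t = Qw (l, false) :=
    pr_high hp (by rw [Qw_false]; exact h)
  have h2 : pr (Pw (l, false)) (Qw (l, false)) 0 = Qw (l, false) :=
    pr_high hp (by rw [Qw_false]; simp)
  unfold bump
  rw [h1, h2, sub_self]

/-- `w` does not influence the path at `t` -/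
def Far (w : Ix) (t : ℝ) : Prop := (w.2 = true → t ≤ A w.1) ∧ (w.2 = false → -(A w.1 : ℝ) ≤ t)

lemma corr_zero {w : Ix} {t : ℝ} (h : Far w t) (y : Path2) : corr w y t = 0 := by
  unfold corr
  obtain ⟨l, b⟩ := w
  cases b
  · rw [bump_zero_false (h.2 rfl)]; simp
  · rw [bump_zero_true (h.1 rfl)]; simp

lemma far_of_abs {w : Ix} {t : ℝ} (h : |t| ≤ A w.1) : Far w t :=
  ⟨fun _ => (le_abs_self t).trans h, fun _ => by linarith [neg_abs_le t]⟩

lemma RF_congr {F F' : Finset Ix} {t : ℝ} (h : ∀ w, ¬ Far w t → (w ∈ F ↔ w ∈ F')) (y : Path2) :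
    RF F y t = RF F' y t := by
  classical
  rw [RF_apply, RF_apply]
  have e : ∀ F : Finset Ix, ∑ w ∈ F, corr w y t = ∑ w ∈ F with ¬ Far w t, corr w y t := by
    intro F
    rw [Finset.sum_filter]
    refine Finset.sum_congr rfl fun w _ => ?_
    split_ifs with h1
    · exact corr_zero h1 y
    · rfl
  rw [e F, e F']
  have : F.filter (fun w => ¬ Far w t) = F'.filter (fun w => ¬ Far w t) := by
    ext w
    simp only [Finset.mem_filter]
    constructor
    · rintro ⟨h1, h2⟩; exact ⟨(h w h2).1 h1, h2⟩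
    · rintro ⟨h1, h2⟩; exact ⟨(h w h2).2 h1, h2⟩
  rw [this]

/-- the windows with index below `n` -/
def G (n : ℕ) : Finset Ix := Finset.range n ×ˢ Finset.univ

lemma mem_G {n : ℕ} {w : Ix} : w ∈ G n ↔ w.1 < n := by simp [G]

lemma not_far {w : Ix} {t : ℝ} {n : ℕ} (h : ¬ Far w t) (hn : |t| ≤ n) : w.1 < n := by
  by_contra hle
  push Not at hle
  apply h
  apply far_of_abs
  refine hn.trans ?_
  exact_mod_cast (hle.trans (le_A w.1))

/-- `y` with its increments reflected on all windows with a negative increment -/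
noncomputable def R (y : Path2) : Path2 :=
  ⟨fun t => RF (G ⌈|t|⌉₊) y t, by
    rw [continuous_iff_continuousAt]
    intro t
    obtain ⟨n, hn⟩ := exists_nat_gt (|t|)
    have h1 : (fun t => RF (G n) y t) =ᶠ[𝓝 t] fun t => RF (G ⌈|t|⌉₊) y t := by
      have h2 : ∀ᶠ x : ℝ in 𝓝 t, |x| < (n : ℝ) :=
        (continuous_abs.tendsto t).eventually (gt_mem_nhds hn)
      filter_upwards [h2] with x hx
      refine RF_congr (fun w hw => ?_) y
      rw [mem_G, mem_G]
      exact ⟨fun _ => not_far hw (Nat.le_ceil _), fun _ => not_far hw hx.le⟩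
    exact ((RF (G n) y).continuous.continuousAt).congr h1⟩

lemma R_eq {F : Finset Ix} {t : ℝ} (h : ∀ w, ¬ Far w t → w ∈ F) (y : Path2) : R y t = RF F y t := by
  show RF (G ⌈|t|⌉₊) y t = RF F y t
  refine RF_congr (fun w hw => ?_) y
  rw [mem_G]
  exact ⟨fun _ => h w hw, fun _ => not_far hw (Nat.le_ceil _)⟩

lemma R_meas : Measurable R := by
  refine measurable_of_eval fun t => ?_
  show Measurable (fun y => RF (G ⌈|t|⌉₊) y t)
  exact (measurable_eval t).comp (RF_meas _)

/-- all windows of `R y` have nonnegative increments -/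
lemma inc_R (w : Ix) (y : Path2) : 0 ≤ inc w (R y) := by
  obtain ⟨n, hn⟩ := exists_nat_ge (max |Qw w| |Pw w|)
  have hn1 : |Qw w| ≤ n := (le_max_left _ _).trans hn
  have hn2 : |Pw w| ≤ n := (le_max_right _ _).trans hn
  have h1 : inc w (R y) = inc w (RF (G (max n (w.1 + 1))) y) := by
    unfold inc
    rw [R_eq (F := G (max n (w.1 + 1))) (t := Qw w) (fun w' hw' => ?_),
      R_eq (F := G (max n (w.1 + 1))) (t := Pw w) (fun w' hw' => ?_)]
    · rw [mem_G]; exact lt_of_lt_of_le (not_far hw' hn2) (le_max_left _ _)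
    · rw [mem_G]; exact lt_of_lt_of_le (not_far hw' hn1) (le_max_left _ _)
  rw [h1]
  exact inc_RF_mem (by rw [mem_G]; omega) y

end Q297.Win
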