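import Pool.Agent.Q297.Win

/-!
The second moment estimate for the shifted windows.
-/

open MeasureTheory ProbabilityTheory Set Filter Topology
open scoped ENNReal NNReal
open Q297.PathC Q297.Prepend Q297.TwoS

namespace Q297.Win

/-- right windows with index below `m`, left windows with index at most `k` -/
def F (k m : ℕ) : Finset Ix :=
  (Finset.range m).image (fun l => (l, true)) ∪ (Finset.range (k + 1)).image (fun l => (l, false))

lemma mem_F {k m : ℕ} {w : Ix} : w ∈ F k m ↔ (w.2 = true ∧ w.1 < m) ∨ (w.2 = false ∧ w.1 < k + 1) := by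
  obtain ⟨l, b⟩ := w
  simp only [F, Finset.mem_union, Finset.mem_image, Finset.mem_range, Prod.mk.injEq]
  constructor
  · rintro (⟨a, h1, rfl, rfl⟩ | ⟨a, h1, rfl, rfl⟩)
    · exact Or.inl ⟨rfl, h1⟩
    · exact Or.inr ⟨rfl, h1⟩
  · rintro (⟨rfl, h⟩ | ⟨rfl, h⟩)
    · exact Or.inl ⟨l, h, rfl, rfl⟩
    · exact Or.inr ⟨l, h, rfl, rfl⟩

/-- the distance of the blocks -/
def bk (k : ℕ) : ℕ := 2 * A k + 10

/-- the blocks of shifts -/
def I (k i : ℕ) : Set ℝ := Icc (((i + 1) * bk k : ℕ) : ℝ) (((i + 1) * bk k : ℕ) + 1)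

lemma I_ge {k i : ℕ} {t : ℝ} (ht : t ∈ I k i) : (bk k : ℝ) ≤ t := by
  refine le_trans ?_ ht.1
  have : bk k ≤ (i + 1) * bk k := Nat.le_mul_of_pos_left _ (by omega)
  exact_mod_cast this

lemma I_le {k i : ℕ} (hi : i < 2 ^ k) {t : ℝ} (ht : t ∈ I k i) : t ≤ ((2 ^ k * bk k : ℕ) : ℝ) + 1 := by
  refine ht.2.trans ?_
  have : (i + 1) * bk k ≤ 2 ^ k * bk k := Nat.mul_le_mul_right _ hi
  have h2 : (((i + 1) * bk k : ℕ) : ℝ) ≤ ((2 ^ k * bk k : ℕ) : ℝ) := by exact_mod_cast this
  linarith

lemma I_diff {k i j : ℕ} (hi : i < 2 ^ k) (hj : j < 2 ^ k) (hij : i ≠ j) {t s : ℝ} (ht : t ∈ I k i)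
    (hs : s ∈ I k j) : (bk k : ℝ) - 1 ≤ |t - s| ∧ |t - s| ≤ ((2 ^ k * bk k : ℕ) : ℝ) := by
  have aux : ∀ {i j : ℕ} {t s : ℝ}, i < j → j < 2 ^ k → t ∈ I k i → s ∈ I k j →
      (bk k : ℝ) - 1 ≤ s - t ∧ s - t ≤ ((2 ^ k * bk k : ℕ) : ℝ) := by
    intro i j t s hij hj ht hs
    have h1 : (i + 1) * bk k + bk k ≤ (j + 1) * bk k := by
      have : (i + 1 + 1) * bk k ≤ (j + 1) * bk k := Nat.mul_le_mul_right _ (by omega)
      linarith
    have h1' : (((i + 1) * bk k : ℕ) : ℝ) + bk k ≤ (((j + 1) * bk k : ℕ) : ℝ) := by exact_mod_cast h1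
    have h2 : (j + 1) * bk k ≤ 2 ^ k * bk k := Nat.mul_le_mul_right _ hj
    have h2' : (((j + 1) * bk k : ℕ) : ℝ) ≤ ((2 ^ k * bk k : ℕ) : ℝ) := by exact_mod_cast h2
    have h3 : bk k ≤ (i + 1) * bk k := Nat.le_mul_of_pos_left _ (by omega)
    have h3' : (bk k : ℝ) ≤ (((i + 1) * bk k : ℕ) : ℝ) := by exact_mod_cast h3
    have h4 : (10 : ℝ) ≤ bk k := by
      have : 10 ≤ bk k := by unfold bk; omega
      exact_mod_cast this
    have a1 := ht.1
    have a2 := ht.2
    have a3 := hs.1
    have a4 := hs.2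
    constructor <;> linarith
  rcases Nat.lt_or_gt_of_ne hij with h | h
  · have h1 := aux h hj ht hs
    have h2 : (10 : ℝ) ≤ bk k := by
      have : 10 ≤ bk k := by unfold bk; omega
      exact_mod_cast this
    rw [abs_of_nonpos (by linarith)]
    constructor <;> linarith
  · have h1 := aux h hi hs ht
    have h2 : (10 : ℝ) ≤ bk k := by
      have : 10 ≤ bk k := by unfold bk; omega
      exact_mod_cast this
    rw [abs_of_nonneg (by linarith)]
    constructor <;> linarith

lemma Pw_small {k : ℕ} {w : Ix} (h : w.1 ≤ k) : |Pw w| ≤ A k + 1 / 3 := by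
  have h1 : (A w.1 : ℝ) ≤ A k := by exact_mod_cast A_mono h
  have h2 := dl_le w.1
  have h3 := dl_pos w.1
  have h4 := A_ge' w.1
  obtain ⟨l, b⟩ := w
  cases b
  · rw [Pw_false, abs_of_nonpos (by simp only at h4 h3; linarith)]
    simp only at h1 h2
    linarith
  · rw [Pw_true, abs_of_nonneg (by positivity)]
    simp only at h1
    linarith

lemma dich {k m : ℕ} {w w' : Ix} (hw : w ∈ F k m) (hw' : w' ∈ F k m) (h : w ≠ w') :
    |Pw w - Pw w'| ≤ 2 * A k + 1 ∨ ((2 ^ k * bk k : ℕ) : ℝ) + 2 ≤ |Pw w - Pw w'| := by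
  -- a far right window against anything to its left
  have aux : ∀ {w w' : Ix} {n : ℕ}, w = (n, true) → k < n → Pw w' ≤ A (n - 1) + 1 / 3 →
      ((2 ^ k * bk k : ℕ) : ℝ) + 2 ≤ |Pw w - Pw w'| := by
    rintro w w' n rfl hn hle
    have h1 := A_gap2 hn
    have h2 : ((A (n - 1) : ℕ) : ℝ) + ((2 ^ k * bk k : ℕ) : ℝ) + 3 ≤ A n := by
      unfold bk; exact_mod_cast h1
    rw [Pw_true]
    refine le_trans ?_ (le_abs_self _)
    linarith
  have aux2 : ∀ {w' : Ix} {n : ℕ}, k < n → w'.1 ≤ k → Pw w' ≤ A (n - 1) + 1 / 3 := by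
    intro w' n hn hle
    have h1 := (le_abs_self _).trans (Pw_small hle)
    have h2 : (A k : ℝ) ≤ A (n - 1) := by exact_mod_cast A_mono (by omega : k ≤ n - 1)
    linarith
  by_cases h1 : w.1 ≤ k
  · by_cases h2 : w'.1 ≤ k
    · left
      have a1 := Pw_small h1
      have a2 := Pw_small h2
      have := abs_sub (Pw w) (Pw w')
      linarith
    · right
      push Not at h2
      have e : w' = (w'.1, true) := by
        rcases mem_F.1 hw' with h3 | h3
        · rw [← h3.1]
        · omega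
      rw [abs_sub_comm]
      exact aux e h2 (aux2 h2 h1)
  · push Not at h1
    have e : w = (w.1, true) := by
      rcases mem_F.1 hw with h3 | h3
      · rw [← h3.1]
      · omega
    by_cases h2 : w'.1 ≤ k
    · right
      exact aux e h1 (aux2 h1 h2)
    · push Not at h2
      right
      have e' : w' = (w'.1, true) := by
        rcases mem_F.1 hw' with h3 | h3
        · rw [← h3.1]
        · omega
      have hne : w.1 ≠ w'.1 := fun h3 => h (by rw [e, e', h3])
      rcases Nat.lt_or_gt_of_ne hne with h3 | h3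
      · rw [abs_sub_comm]
        refine aux e' h2 ?_
        rw [e, Pw_true]
        have : (A w.1 : ℝ) ≤ A (w'.1 - 1) := by exact_mod_cast A_mono (by omega : w.1 ≤ w'.1 - 1)
        linarith
      · refine aux e h1 ?_
        rw [e', Pw_true]
        have : (A w'.1 : ℝ) ≤ A (w.1 - 1) := by exact_mod_cast A_mono (by omega : w'.1 ≤ w.1 - 1)
        linarith

/-- windows shifted by different blocks are far apart -/
lemma sep_blocks {k m i j : ℕ} (hi : i < 2 ^ k) (hj : j < 2 ^ k) (hij : i ≠ j) {t s : ℝ}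
    (ht : t ∈ I k i) (hs : s ∈ I k j) {w w' : Ix} (hw : w ∈ F k m) (hw' : w' ∈ F k m) :
    1 ≤ |(t + Pw w) - (s + Pw w')| := by
  obtain ⟨h1, h2⟩ := I_diff hi hj hij ht hs
  have hb : (bk k : ℝ) = 2 * A k + 10 := by unfold bk; push_cast; ring
  have hA := A_ge' k
  by_cases h : w = w'
  · subst h
    rw [show t + Pw w - (s + Pw w) = t - s by ring]
    linarith
  · have e : t + Pw w - (s + Pw w') = (t - s) + (Pw w - Pw w') := by ring
    rw [e]
    rcases dich hw hw' h with h3 | h3
    · have := abs_sub_abs_le_abs_add (t - s) (Pw w - Pw w')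
      linarith
    · have := abs_sub_abs_le_abs_add (Pw w - Pw w') (t - s)
      rw [add_comm] at this
      linarith

lemma disj_of_far {x y d d' : ℝ} (hd : d ≤ 1 / 3) (hd' : d' ≤ 1 / 3) (h : 1 ≤ |x - y|) :
    x + d ≤ y ∨ y + d' ≤ x := by
  rcases le_total x y with h1 | h1
  · left; rw [abs_of_nonpos (by linarith)] at h; linarith
  · right; rw [abs_of_nonneg (by linarith)] at h; linarith

/-- the windows shifted by `t` have nonnegative increments -/
def E (O : Finset Ix) (t : ℝ) : Set Path2 := {y | ∀ w ∈ O, 0 ≤ y (t + Qw w) - y (t + Pw w)}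

/-- the density of the planted path seen from `-t` -/
noncomputable def H (O : Finset Ix) (t : ℝ) (y : Path2) : ℝ≥0∞ :=
  2 ^ O.card * (E O t).indicator (fun _ => 1) y

lemma ev_meas (c : ℝ) : Measurable (fun p : ℝ × Path2 => p.2 (p.1 + c)) := by
  have h := measurable_uncurry_of_continuous_of_measurable (ι := ℝ) (α := Path2) (β := ℝ)
    (u := fun t y => y (t + c)) (fun y => by fun_prop) (fun t => measurable_eval _)
  exact h

lemma E_meas2 (O : Finset Ix) : MeasurableSet {p : ℝ × Path2 | p.2 ∈ E O p.1} := by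
  have : {p : ℝ × Path2 | p.2 ∈ E O p.1} =
      ⋂ w ∈ O, {p : ℝ × Path2 | 0 ≤ p.2 (p.1 + Qw w) - p.2 (p.1 + Pw w)} := by
    ext p; simp [E]
  rw [this]
  exact Finset.measurableSet_biInter O fun w _ =>
    measurableSet_le measurable_const ((ev_meas _).sub (ev_meas _))

lemma E_meas (O : Finset Ix) (t : ℝ) : MeasurableSet (E O t) :=
  (E_meas2 O).preimage (measurable_const.prodMk measurable_id)

lemma H_meas2 (O : Finset Ix) : Measurable (fun p : ℝ × Path2 => H O p.1 p.2) := by
  unfold H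
  have : (fun p : ℝ × Path2 => (2 : ℝ≥0∞) ^ O.card * (E O p.1).indicator (fun _ => 1) p.2) =
      fun p => (2 : ℝ≥0∞) ^ O.card * {p : ℝ × Path2 | p.2 ∈ E O p.1}.indicator (fun _ => 1) p := by
    funext p; rfl
  rw [this]
  exact ((measurable_const.indicator (E_meas2 O))).const_mul _

lemma H_meas (O : Finset Ix) (t : ℝ) : Measurable (H O t) :=
  (H_meas2 O).comp (measurable_const.prodMk measurable_id)

variable {W : Measure Path} (hW : IsBrownianReal (fun (t : ℝ≥0) (x : Path) => x t) W)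

include hW

/-- correlation of the densities at two shifts -/
lemma corr_le (O O' : Finset Ix) (hO : O' ⊆ O) {t s : ℝ}
    (h : ∀ w ∈ O, ∀ w' ∈ O, w' ∉ O' → t + Qw w ≤ s + Pw w' ∨ s + Qw w' ≤ t + Pw w) :
    ∫⁻ y, H O t y * H O s y ∂(W2 W) ≤ 2 ^ O'.card := by
  classical
  have hWp := isProb hW
  have h0 : ∫⁻ y, H O t y * H O s y ∂(W2 W) = 2 ^ (O.card + O.card) * W2 W (E O t ∩ E O s) := by
    have e : (fun y => H O t y * H O s y) =
        fun y => 2 ^ (O.card + O.card) * (E O t ∩ E O s).indicator (fun _ => (1 : ℝ≥0∞)) y := by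
      funext y
      unfold H
      by_cases h1 : y ∈ E O t <;> by_cases h2 : y ∈ E O s <;> simp [h1, h2, pow_add]
    rw [e, lintegral_const_mul _ (measurable_const.indicator ((E_meas O t).inter (E_meas O s))),
      lintegral_indicator_const ((E_meas O t).inter (E_meas O s)), one_mul]
  have h1 : W2 W (E O t ∩ E O s) ≤ (1 / 2) ^ (O.card + (O \ O').card) := by
    have h2 := incr_all (W2_bm2 hW) (O.disjSum (O \ O'))
      (Sum.elim (fun w => t + Pw w) (fun w => s + Pw w))
      (Sum.elim (fun w => t + Qw w) (fun w => s + Qw w)) (by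
        intro i hi j hj hij
        rcases i with w | w <;> rcases j with w' | w'
        · have hne : w ≠ w' := fun e => hij (by rw [e])
          rcases sep' hne with h3 | h3
          · left; simp only [Sum.elim_inl]; linarith
          · right; simp only [Sum.elim_inl]; linarith
        · simp only [Finset.inl_mem_disjSum, Finset.inr_mem_disjSum, Finset.mem_sdiff] at hi hj
          exact h w hi w' hj.1 hj.2
        · simp only [Finset.inl_mem_disjSum, Finset.inr_mem_disjSum, Finset.mem_sdiff] at hi hj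
          exact (h w' hj w hi.1 hi.2).symm
        · have hne : w ≠ w' := fun e => hij (by rw [e])
          rcases sep' hne with h3 | h3
          · left; simp only [Sum.elim_inr]; linarith
          · right; simp only [Sum.elim_inr]; linarith) (by
        rintro (w | w)
        · have := PQ w; simp only [Sum.elim_inl]; linarith
        · have := PQ w; simp only [Sum.elim_inr]; linarith)
    rw [Finset.card_disjSum] at h2
    rw [← h2]
    refine measure_mono ?_
    rintro y ⟨hy1, hy2⟩ j hj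
    rcases j with w | w
    · simp only [Finset.inl_mem_disjSum] at hj
      exact hy1 w hj
    · simp only [Finset.inr_mem_disjSum, Finset.mem_sdiff] at hj
      exact hy2 w hj.1
  rw [h0]
  have hc : O.card = O'.card + (O \ O').card := by
    rw [Finset.card_sdiff_of_subset hO]
    have := Finset.card_le_card hO
    omega
  calc (2 : ℝ≥0∞) ^ (O.card + O.card) * W2 W (E O t ∩ E O s)
      ≤ 2 ^ (O.card + O.card) * (1 / 2) ^ (O.card + (O \ O').card) := mul_le_mul_right h1 _
    _ = 2 ^ O'.card * (2 ^ (O.card + (O \ O').card) * (1 / 2) ^ (O.card + (O \ O').card)) := by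
        rw [← mul_assoc, ← pow_add]
        congr 2
        omega
    _ = 2 ^ O'.card := by
        rw [← mul_pow, one_div, ENNReal.mul_inv_cancel (by norm_num) (by norm_num), one_pow, mul_one]

lemma corr_diff {k m i j : ℕ} (hi : i < 2 ^ k) (hj : j < 2 ^ k) (hij : i ≠ j) {t s : ℝ}
    (ht : t ∈ I k i) (hs : s ∈ I k j) :
    ∫⁻ y, H (F k m) t y * H (F k m) s y ∂(W2 W) ≤ 1 := by
  have h := corr_le hW (F k m) ∅ (Finset.empty_subset _) (t := t) (s := s) (by
    intro w hw w' hw' _
    have h1 := sep_blocks hi hj hij ht hs hw hw'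
    have h2 := disj_of_far (dl_le w.1) (dl_le w'.1) h1
    unfold Qw
    rcases h2 with h2 | h2
    · left; linarith
    · right; linarith)
  simpa using h

lemma corr_same {k m i : ℕ} {t s : ℝ} (ht : t ∈ I k i) (hs : s ∈ I k i) :
    ∫⁻ y, H (F k m) t y * H (F k m) s y ∂(W2 W) ≤
      2 ^ (k + 1) * (1 + ∑ l ∈ Finset.range m, 2 ^ (l + 1) *
        {u : ℝ | |t - u| < dl l}.indicator (fun _ => (1 : ℝ≥0∞)) s) := by
  classical
  have hts : |t - s| ≤ 1 := by
    rw [abs_le]
    have a1 := ht.1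
    have a2 := ht.2
    have a3 := hs.1
    have a4 := hs.2
    constructor <;> linarith
  set O' : Finset Ix := (F k m).filter (fun w => |t - s| < dl w.1) with hO'
  have h := corr_le hW (F k m) O' (Finset.filter_subset _ _) (t := t) (s := s) (by
    intro w hw w' hw' hn
    by_cases e : w = w'
    · subst e
      have h1 : dl w.1 ≤ |t - s| := by
        by_contra h2
        exact hn (Finset.mem_filter.2 ⟨hw, not_le.1 h2⟩)
      unfold Qw
      rcases le_total t s with h2 | h2
      · left; rw [abs_of_nonpos (by linarith)] at h1; linarith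
      · right; rw [abs_of_nonneg (by linarith)] at h1; linarith
    · have h1 := sep e
      have h3 : 1 ≤ |(t + Pw w) - (s + Pw w')| := by
        have e : t + Pw w - (s + Pw w') = (Pw w - Pw w') + (t - s) := by ring
        rw [e]
        have := abs_sub_abs_le_abs_add (Pw w - Pw w') (t - s)
        linarith
      have h2 := disj_of_far (dl_le w.1) (dl_le w'.1) h3
      unfold Qw
      rcases h2 with h2 | h2
      · left; linarith
      · right; linarith)
  refine h.trans ?_
  have hcard : O'.card ≤ (k + 1) + ((Finset.range m).filter (fun l => |t - s| < dl l)).card := by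
    have h1 : O' ⊆ (Finset.range (k + 1)).image (fun l => (l, false)) ∪
        ((Finset.range m).filter (fun l => |t - s| < dl l)).image (fun l => (l, true)) := by
      intro w hw
      obtain ⟨hw1, hw2⟩ := Finset.mem_filter.1 hw
      rcases mem_F.1 hw1 with h3 | h3
      · refine Finset.mem_union_right _ (Finset.mem_image.2 ⟨w.1, Finset.mem_filter.2
          ⟨Finset.mem_range.2 h3.2, hw2⟩, by rw [← h3.1]⟩)
      · refine Finset.mem_union_left _ (Finset.mem_image.2 ⟨w.1, Finset.mem_range.2 h3.2,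
          by rw [← h3.1]⟩)
    refine (Finset.card_le_card h1).trans ((Finset.card_union_le _ _).trans ?_)
    refine Nat.add_le_add (Finset.card_image_le.trans (by simp)) Finset.card_image_le
  have hprod : ∀ m : ℕ, (2 : ℝ≥0∞) ^ ((Finset.range m).filter (fun l => |t - s| < dl l)).card ≤
      1 + ∑ l ∈ Finset.range m, 2 ^ (l + 1) *
        {u : ℝ | |t - u| < dl l}.indicator (fun _ => (1 : ℝ≥0∞)) s := by
    intro m
    induction m with
    | zero => simp
    | succ m ih =>
      rw [Finset.sum_range_succ]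
      by_cases hm : |t - s| < dl m
      · have h1 : {u : ℝ | |t - u| < dl m}.indicator (fun _ => (1 : ℝ≥0∞)) s = 1 :=
          indicator_of_mem (by exact hm) _
        rw [h1, mul_one]
        have h2 : ((Finset.range (m + 1)).filter (fun l => |t - s| < dl l)).card ≤ m + 1 :=
          (Finset.card_filter_le _ _).trans (by simp)
        calc (2 : ℝ≥0∞) ^ ((Finset.range (m + 1)).filter (fun l => |t - s| < dl l)).card
            ≤ 2 ^ (m + 1) := pow_le_pow_right₀ (by norm_num) h2
          _ ≤ _ := by rw [← add_assoc]; exact le_add_self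
      · have h2 : (Finset.range (m + 1)).filter (fun l => |t - s| < dl l) =
            (Finset.range m).filter (fun l => |t - s| < dl l) := by
          rw [Finset.range_add_one, Finset.filter_insert, if_neg hm]
        rw [h2, ← add_assoc]
        exact ih.trans le_self_add
  calc (2 : ℝ≥0∞) ^ O'.card
      ≤ 2 ^ ((k + 1) + ((Finset.range m).filter (fun l => |t - s| < dl l)).card) :=
        pow_le_pow_right₀ (by norm_num) hcard
    _ = 2 ^ (k + 1) * 2 ^ ((Finset.range m).filter (fun l => |t - s| < dl l)).card := pow_add _ _ _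
    _ ≤ _ := mul_le_mul_right (hprod m) _

omit hW in
lemma vol_near (t d : ℝ) (k i : ℕ) :
    ∫⁻ s in I k i, {u : ℝ | |t - u| < d}.indicator (fun _ => (1 : ℝ≥0∞)) s ≤ ENNReal.ofReal (2 * d) := by
  have hm : MeasurableSet {u : ℝ | |t - u| < d} :=
    measurableSet_lt (by fun_prop) measurable_const
  rw [lintegral_indicator_const hm, one_mul]
  refine (Measure.restrict_apply_le _ _).trans ?_
  have : {u : ℝ | |t - u| < d} ⊆ Ioo (t - d) (t + d) := by
    intro u hu
    have h := abs_lt.1 (show |t - u| < d from hu)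
    exact ⟨by linarith [h.2], by linarith [h.1]⟩
  refine (measure_mono this).trans ?_
  rw [Real.volume_Ioo]
  apply ENNReal.ofReal_le_ofReal
  linarith

omit hW in
lemma vol_I (k i : ℕ) : volume (I k i) = 1 := by
  unfold I
  rw [Real.volume_Icc]
  simp

omit hW in
lemma I_meas (k i : ℕ) : MeasurableSet (I k i) := measurableSet_Icc

omit hW in
lemma sum_dl (m : ℕ) : ∑ l ∈ Finset.range m, (2 : ℝ≥0∞) ^ (l + 1) * ENNReal.ofReal (2 * dl l) ≤ 4 := by
  have e : ∀ l : ℕ, (2 : ℝ≥0∞) ^ (l + 1) * ENNReal.ofReal (2 * dl l) = ENNReal.ofReal (4 / 3 * (2 / 3) ^ l) := by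
    intro l
    have h2 : (2 : ℝ≥0∞) = ENNReal.ofReal 2 := by norm_num
    rw [h2, ← ENNReal.ofReal_pow (by norm_num), ← ENNReal.ofReal_mul (by positivity)]
    congr 1
    unfold dl
    rw [div_pow, div_pow, one_pow, pow_succ, pow_succ]
    field_simp
    ring
  simp_rw [e]
  rw [← ENNReal.ofReal_sum_of_nonneg (fun l _ => by positivity)]
  have h4 : (4 : ℝ≥0∞) = ENNReal.ofReal 4 := by norm_num
  rw [h4]
  apply ENNReal.ofReal_le_ofReal
  rw [← Finset.mul_sum, geom_sum_eq (by norm_num)]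
  have h5 : (0 : ℝ) < (2 / 3) ^ m := by positivity
  have h6 : ((2 / 3 : ℝ) ^ m - 1) / (2 / 3 - 1) = 3 * (1 - (2 / 3) ^ m) := by
    rw [div_eq_iff (by norm_num)]; ring
  rw [h6]
  linarith

lemma block_same {k m i : ℕ} {t : ℝ} (ht : t ∈ I k i) :
    ∫⁻ s in I k i, ∫⁻ y, H (F k m) t y * H (F k m) s y ∂(W2 W) ≤ 2 ^ (k + 1) * 5 := by
  calc ∫⁻ s in I k i, ∫⁻ y, H (F k m) t y * H (F k m) s y ∂(W2 W)
      ≤ ∫⁻ s in I k i, 2 ^ (k + 1) * (1 + ∑ l ∈ Finset.range m, 2 ^ (l + 1) *
        {u : ℝ | |t - u| < dl l}.indicator (fun _ => (1 : ℝ≥0∞)) s) :=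
        setLIntegral_mono' (I_meas k i) fun s hs => corr_same hW ht hs
    _ = 2 ^ (k + 1) * (∫⁻ s in I k i, (1 + ∑ l ∈ Finset.range m, 2 ^ (l + 1) *
        {u : ℝ | |t - u| < dl l}.indicator (fun _ => (1 : ℝ≥0∞)) s)) := by
        rw [lintegral_const_mul']
        exact ENNReal.pow_ne_top (by norm_num)
    _ ≤ 2 ^ (k + 1) * 5 := by
        refine mul_le_mul_right ?_ _
        rw [lintegral_add_left measurable_const]
        have h1 : ∫⁻ s in I k i, (1 : ℝ≥0∞) = 1 := by
          rw [lintegral_const, Measure.restrict_apply_univ, vol_I, one_mul]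
        have hm : ∀ l : ℕ, Measurable (fun s : ℝ => (2 : ℝ≥0∞) ^ (l + 1) *
            {u : ℝ | |t - u| < dl l}.indicator (fun _ => (1 : ℝ≥0∞)) s) := fun l =>
          (measurable_const.indicator (measurableSet_lt (by fun_prop) measurable_const)).const_mul _
        rw [h1, lintegral_finsetSum _ (fun l _ => hm l)]
        have h2 : ∀ l ∈ Finset.range m, ∫⁻ s in I k i, (2 : ℝ≥0∞) ^ (l + 1) *
            {u : ℝ | |t - u| < dl l}.indicator (fun _ => (1 : ℝ≥0∞)) s ≤
            2 ^ (l + 1) * ENNReal.ofReal (2 * dl l) := by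
          intro l _
          rw [lintegral_const_mul' _ _ (ENNReal.pow_ne_top (by norm_num))]
          exact mul_le_mul_right (vol_near t (dl l) k i) _
        have h3 := (Finset.sum_le_sum h2).trans (sum_dl m)
        calc (1 : ℝ≥0∞) + _ ≤ 1 + 4 := by gcongr
          _ = 5 := by norm_num

lemma block_diff {k m i j : ℕ} (hi : i < 2 ^ k) (hj : j < 2 ^ k) (hij : i ≠ j) {t : ℝ}
    (ht : t ∈ I k i) :
    ∫⁻ s in I k j, ∫⁻ y, H (F k m) t y * H (F k m) s y ∂(W2 W) ≤ 1 := by
  calc ∫⁻ s in I k j, ∫⁻ y, H (F k m) t y * H (F k m) s y ∂(W2 W)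
      ≤ ∫⁻ s in I k j, 1 := setLIntegral_mono' (I_meas k j) fun s hs => corr_diff hW hi hj hij ht hs
    _ = 1 := by rw [lintegral_const, Measure.restrict_apply_univ, vol_I, one_mul]

/-- the averaged density -/
noncomputable def D (k m : ℕ) (y : Path2) : ℝ≥0∞ :=
  ∑ i ∈ Finset.range (2 ^ k), ∫⁻ t in I k i, H (F k m) t y

omit hW in
lemma D_meas (k m : ℕ) : Measurable (D k m) := by
  unfold D
  refine Finset.measurable_fun_sum _ fun i _ => ?_
  exact Measurable.lintegral_prod_left' (H_meas2 (F k m))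

/-- **second moment** -/
lemma D_sq (k m : ℕ) : ∫⁻ y, D k m y * D k m y ∂(W2 W) ≤ 11 * (2 ^ k * 2 ^ k) := by
  have hWp := isProb hW
  set L := Finset.range (2 ^ k) with hL
  have mt : ∀ y, Measurable (fun t => H (F k m) t y) := fun y =>
    (H_meas2 (F k m)).comp (measurable_id.prodMk measurable_const)
  have hA : ∀ i j : ℕ, ∫⁻ y, (∫⁻ t in I k i, H (F k m) t y) * (∫⁻ s in I k j, H (F k m) s y) ∂(W2 W) =
      ∫⁻ t in I k i, ∫⁻ s in I k j, ∫⁻ y, H (F k m) t y * H (F k m) s y ∂(W2 W) := by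
    intro i j
    have mj : Measurable (fun y => ∫⁻ s in I k j, H (F k m) s y) :=
      Measurable.lintegral_prod_left' (H_meas2 (F k m))
    have e1 : ∀ y, (∫⁻ t in I k i, H (F k m) t y) * (∫⁻ s in I k j, H (F k m) s y) =
        ∫⁻ t in I k i, H (F k m) t y * ∫⁻ s in I k j, H (F k m) s y := by
      intro y
      rw [lintegral_mul_const _ (mt y)]
    simp_rw [e1]
    rw [lintegral_lintegral_swap]
    · refine lintegral_congr fun t => ?_
      have e2 : ∀ y, H (F k m) t y * ∫⁻ s in I k j, H (F k m) s y =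
          ∫⁻ s in I k j, H (F k m) t y * H (F k m) s y := by
        intro y
        rw [lintegral_const_mul _ (mt y)]
      simp_rw [e2]
      rw [lintegral_lintegral_swap]
      exact (((H_meas (F k m) t).comp measurable_fst).mul
        ((H_meas2 (F k m)).comp measurable_swap)).aemeasurable
    · exact (((H_meas2 (F k m)).comp measurable_swap).mul (mj.comp measurable_fst)).aemeasurable
  have hD : ∀ y, D k m y * D k m y = ∑ i ∈ L, ∑ j ∈ L,
      (∫⁻ t in I k i, H (F k m) t y) * (∫⁻ s in I k j, H (F k m) s y) := by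
    intro y
    unfold D
    rw [Finset.sum_mul_sum]
  simp_rw [hD]
  have mij : ∀ i j : ℕ, Measurable (fun y => (∫⁻ t in I k i, H (F k m) t y) *
      (∫⁻ s in I k j, H (F k m) s y)) := fun i j =>
    (Measurable.lintegral_prod_left' (H_meas2 (F k m))).mul
      (Measurable.lintegral_prod_left' (H_meas2 (F k m)))
  rw [lintegral_finsetSum _ (fun i _ => Finset.measurable_fun_sum _ fun j _ => mij i j)]
  have hB : ∀ i ∈ L, ∫⁻ y, ∑ j ∈ L, (∫⁻ t in I k i, H (F k m) t y) *
      (∫⁻ s in I k j, H (F k m) s y) ∂(W2 W) ≤ 2 ^ k + 2 ^ (k + 1) * 5 := by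
    intro i hi
    rw [lintegral_finsetSum _ (fun j _ => mij i j)]
    simp_rw [hA]
    have h1 : ∀ j ∈ L, ∫⁻ t in I k i, ∫⁻ s in I k j, ∫⁻ y, H (F k m) t y * H (F k m) s y ∂(W2 W) ≤
        1 + if i = j then 2 ^ (k + 1) * 5 else 0 := by
      intro j hj
      by_cases hij : i = j
      · subst hij
        rw [if_pos rfl]
        refine le_trans ?_ le_add_self
        calc ∫⁻ t in I k i, ∫⁻ s in I k i, ∫⁻ y, H (F k m) t y * H (F k m) s y ∂(W2 W)
            ≤ ∫⁻ t in I k i, 2 ^ (k + 1) * 5 := setLIntegral_mono' (I_meas k i) fun t ht =>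
              block_same hW ht
          _ = 2 ^ (k + 1) * 5 := by rw [lintegral_const, Measure.restrict_apply_univ, vol_I, mul_one]
      · rw [if_neg hij, add_zero]
        calc ∫⁻ t in I k i, ∫⁻ s in I k j, ∫⁻ y, H (F k m) t y * H (F k m) s y ∂(W2 W)
            ≤ ∫⁻ t in I k i, 1 := setLIntegral_mono' (I_meas k i) fun t ht =>
              block_diff hW (Finset.mem_range.1 hi) (Finset.mem_range.1 hj) hij ht
          _ = 1 := by rw [lintegral_const, Measure.restrict_apply_univ, vol_I, one_mul]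
    refine (Finset.sum_le_sum h1).trans ?_
    rw [Finset.sum_add_distrib, Finset.sum_ite_eq L i, if_pos hi]
    simp [hL]
  refine (Finset.sum_le_sum hB).trans ?_
  rw [Finset.sum_const, hL, Finset.card_range, nsmul_eq_mul]
  push_cast
  have : (2 : ℝ≥0∞) ^ k * (2 ^ k + 2 ^ (k + 1) * 5) = 11 * (2 ^ k * 2 ^ k) := by
    rw [pow_succ]; ring
  rw [this]

/-- the averaged density on a small set -/
lemma D_set (k m : ℕ) (c : ℝ≥0) (hc : c ≠ 0) (B : Set Path2) (hB : MeasurableSet B) :
    ∫⁻ y in B, D k m y ∂(W2 W) ≤ 2 ^ k * (c * W2 W B + 11 / c) := by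
  have h1 : ∀ y, D k m y ≤ c * 2 ^ k + (D k m y * D k m y) / (c * 2 ^ k) := by
    intro y
    have hk0 : (c : ℝ≥0∞) * 2 ^ k ≠ 0 := by simp [hc]
    have hk1 : (c : ℝ≥0∞) * 2 ^ k ≠ ∞ := ENNReal.mul_ne_top ENNReal.coe_ne_top
      (ENNReal.pow_ne_top (by norm_num))
    rcases le_total (D k m y) (c * 2 ^ k) with h | h
    · exact h.trans le_self_add
    · refine le_trans ?_ le_add_self
      rw [ENNReal.le_div_iff_mul_le (Or.inl hk0) (Or.inl hk1)]
      exact mul_le_mul_right h _
  calc ∫⁻ y in B, D k m y ∂(W2 W)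
      ≤ ∫⁻ y in B, (c * 2 ^ k + (D k m y * D k m y) / (c * 2 ^ k)) ∂(W2 W) := lintegral_mono h1
    _ = c * 2 ^ k * W2 W B + ∫⁻ y in B, (D k m y * D k m y) / (c * 2 ^ k) ∂(W2 W) := by
        rw [lintegral_add_left measurable_const, setLIntegral_const]
    _ ≤ c * 2 ^ k * W2 W B + ∫⁻ y, (D k m y * D k m y) / (c * 2 ^ k) ∂(W2 W) := by
        gcongr
        exact Measure.restrict_le_self
    _ ≤ c * 2 ^ k * W2 W B + (11 * (2 ^ k * 2 ^ k)) / (c * 2 ^ k) := by
        gcongr
        simp_rw [div_eq_mul_inv]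
        have mm : Measurable (fun y => D k m y * D k m y) := (D_meas k m).mul (D_meas k m)
        rw [lintegral_mul_const _ mm]
        exact mul_le_mul_left (D_sq hW k m) _
    _ = 2 ^ k * (c * W2 W B + 11 / c) := by
        have hk0 : (2 : ℝ≥0∞) ^ k ≠ 0 := by simp
        have hk1 : (2 : ℝ≥0∞) ^ k ≠ ∞ := ENNReal.pow_ne_top (by norm_num)
        have e : (11 * (2 ^ k * 2 ^ k) : ℝ≥0∞) / (c * 2 ^ k) = 2 ^ k * (11 / c) := by
          rw [show (11 * (2 ^ k * 2 ^ k) : ℝ≥0∞) = (11 * 2 ^ k) * 2 ^ k by ring,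
            ENNReal.mul_div_mul_right _ _ hk0 hk1, div_eq_mul_inv, div_eq_mul_inv]
          ring
        rw [e]
        ring

end Q297.Win
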